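import Pool.Agent.Work.MP_b17785_an.Stmts
import Pool.Agent.Work.MP_a78000_an.HolInv
import Pool.Agent.Work.MP_6d8919_an.SchwarzLog
import Pool.Agent.Work.MP_a78000_an.RMT

/-! Bundle of small proof modules (one section per former module). -/

section

/-!
# MP_b17785_an, item A0: the strip lemma
-/

set_option autoImplicit false

open Complex Metric Set Filter Topology MeasureTheory Finset

namespace Pool.Agent.MultS

namespace ItemA0

/-- the difference quotient lies in the closed convex set -/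
theorem quot_mem {Y : ℂ → ℂ} {K : Set ℂ} (hK : Convex ℝ K) (hcl : IsClosed K) {a b : ℂ}
    (hab : a ≠ b) (hY : ∀ t ∈ Icc (0 : ℝ) 1, ∃ d ∈ K, HasDerivAt Y d (b + (t : ℂ) * (a - b))) :
    (Y a - Y b) / (a - b) ∈ K := by
  by_contra hM
  obtain ⟨l, u, hu1, hu2⟩ := _root_.geometric_hahn_banach_closed_point hK hcl hM
  have hab' : a - b ≠ 0 := sub_ne_zero.2 hab
  choose! d hdK hd using hY
  have hder : ∀ t ∈ Icc (0 : ℝ) 1,
      HasDerivAt (fun t : ℝ => l (Y (b + (t : ℂ) * (a - b)) / (a - b))) (l (d t)) t := by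
    intro t ht
    have h1 : HasDerivAt (fun t : ℝ => b + (t : ℂ) * (a - b)) (a - b) t := by
      have := ((Complex.ofRealCLM.hasDerivAt (x := t)).mul_const (a - b)).const_add b
      simpa using this
    have h2 : HasDerivAt (fun t : ℝ => Y (b + (t : ℂ) * (a - b))) (d t * (a - b)) t :=
      HasDerivAt.comp t (hd t ht) h1
    have h3 := h2.div_const (a - b)
    rw [mul_div_cancel_right₀ _ hab'] at h3
    exact l.hasFDerivAt.comp_hasDerivAt t h3
  obtain ⟨t, ht, hslope⟩ := exists_hasDerivAt_eq_slope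
    (fun t : ℝ => l (Y (b + (t : ℂ) * (a - b)) / (a - b))) (fun t => l (d t)) (zero_lt_one)
    (fun t ht => (hder t ht).continuousAt.continuousWithinAt)
    (fun t ht => hder t (Ioo_subset_Icc_self ht))
  have ht' := Ioo_subset_Icc_self ht
  have h4 : l (d t) = l ((Y a - Y b) / (a - b)) := by
    rw [hslope]
    simp only [sub_zero, div_one, Complex.ofReal_one, one_mul, Complex.ofReal_zero, zero_mul,
      add_zero, add_sub_cancel]
    rw [← map_sub, sub_div]
  have h5 := hu1 (d t) (hdK t ht')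
  rw [h4] at h5
  exact lt_asymm h5 hu2

end ItemA0

open ItemA0 in
theorem prfStrip : Strip := by
  intro Y K hK hcl hKb h0 hY a b ha hb hexp
  by_contra hab
  have hM : (Y a - Y b) / (a - b) ∈ K := by
    refine quot_mem hK hcl hab fun t ht => hY _ ?_
    have h1 : (b + (t : ℂ) * (a - b)).im = (1 - t) * b.im + t * a.im := by
      simp
      ring
    rw [h1]
    rw [abs_lt] at ha hb ⊢
    have := convex_Ioo (-(Real.pi / 2)) (Real.pi / 2) (show b.im ∈ Set.Ioo _ _ from hb)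
      (show a.im ∈ Set.Ioo _ _ from ha) (sub_nonneg.2 ht.2) ht.1 (sub_add_cancel 1 t)
    simpa using this
  set M := (Y a - Y b) / (a - b) with hMdef
  have hab' : a - b ≠ 0 := sub_ne_zero.2 hab
  have hM0 : M ≠ 0 := fun h => h0 (h ▸ hM)
  obtain ⟨n, hn⟩ := Complex.exp_eq_exp_iff_exists_int.1 hexp
  have hprod : (a - b) * M = n * (2 * Real.pi * I) := by
    rw [hMdef, mul_div_cancel₀ _ hab', hn]
    ring
  have hMb : ‖M + 1‖ ≤ 1 := by
    have := hKb hM
    rw [mem_closedBall, dist_eq_norm, sub_neg_eq_add] at this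
    exact this
  have hMb2 : M.re ^ 2 + M.im ^ 2 + 2 * M.re ≤ 0 := by
    have h1 : ‖M + 1‖ ^ 2 ≤ 1 := by nlinarith [norm_nonneg (M + 1)]
    rw [← Complex.normSq_eq_norm_sq, Complex.normSq_apply] at h1
    simp at h1
    nlinarith
  have hpos : 0 < M.re ^ 2 + M.im ^ 2 := by
    have := Complex.normSq_pos.2 hM0
    rw [Complex.normSq_apply] at this
    nlinarith
  have hre : (a - b).re * M.re - (a - b).im * M.im = 0 := by
    have := congrArg Complex.re hprod
    simpa using this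
  have him : (a - b).re * M.im + (a - b).im * M.re = n * (2 * Real.pi) := by
    have := congrArg Complex.im hprod
    simpa using this
  have hkey : (a - b).im * (M.re ^ 2 + M.im ^ 2) = n * (2 * Real.pi) * M.re := by
    linear_combination M.re * him - M.im * hre
  have hn0 : n ≠ 0 := by
    rintro rfl
    rw [Int.cast_zero, zero_mul] at hprod
    rcases mul_eq_zero.1 hprod with h | h
    · exact hab' h
    · exact hM0 h
  have hn1 : (1 : ℝ) ≤ |(n : ℝ)| := by
    have := Int.one_le_abs hn0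
    exact_mod_cast this
  have him' : |(a - b).im| < Real.pi := by
    rw [Complex.sub_im]
    rw [abs_lt] at ha hb ⊢
    constructor <;> linarith [ha.1, ha.2, hb.1, hb.2]
  have habs : |(a - b).im| * (M.re ^ 2 + M.im ^ 2) = |(n : ℝ)| * (2 * Real.pi) * |M.re| := by
    have := congrArg abs hkey
    rw [abs_mul, abs_mul, abs_mul, abs_of_pos hpos, abs_of_pos Real.two_pi_pos] at this
    exact this
  have hre2 : M.re ^ 2 + M.im ^ 2 ≤ 2 * |M.re| := by
    have : -M.re ≤ |M.re| := neg_le_abs _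
    linarith
  have h6 : Real.pi * (M.re ^ 2 + M.im ^ 2) ≤ |(n : ℝ)| * (2 * Real.pi) * |M.re| := by
    have hπ := Real.pi_pos
    have : Real.pi * (2 * |M.re|) ≤ |(n : ℝ)| * (2 * Real.pi) * |M.re| := by
      have : 0 ≤ 2 * Real.pi * |M.re| := by positivity
      nlinarith
    nlinarith
  have h7 : |(a - b).im| * (M.re ^ 2 + M.im ^ 2) < Real.pi * (M.re ^ 2 + M.im ^ 2) :=
    mul_lt_mul_of_pos_right him' hpos
  rw [habs] at h7
  linarith

end Pool.Agent.MultS

end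

section

set_option autoImplicit false

namespace Pool.Agent.MultS

theorem prfDerNe : DerNe := fun _ _ hU hd hi _ hz => Pool.Agent.HolInv.deriv_ne_zero hU hd hi hz

end Pool.Agent.MultS

end

section

/-!
# MP_b17785_an, item A2: the Taylor coefficients of (1 - z) ^ q
-/

set_option autoImplicit false

open Complex Metric Set Filter Topology MeasureTheory Finset

namespace Pool.Agent.MultS

namespace ItemA2

theorem slit {z : ℂ} (hz : z ∈ ball (0 : ℂ) 1) : 1 - z ∈ slitPlane := by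
  left
  have h1 : z.re ≤ ‖z‖ := Complex.re_le_norm z
  rw [mem_ball_zero_iff] at hz
  simp
  linarith

theorem iter (q : ℂ) (n : ℕ) : ∀ z ∈ ball (0 : ℂ) 1,
    iteratedDeriv n (fun z : ℂ => (1 - z) ^ q) z =
      (∏ i ∈ range n, ((i : ℂ) - q)) * (1 - z) ^ (q - n) := by
  induction n with
  | zero =>
    intro z _
    simp
  | succ n ih =>
    intro z hz
    rw [iteratedDeriv_succ]
    have h1 : iteratedDeriv n (fun z : ℂ => (1 - z) ^ q) =ᶠ[𝓝 z]
        fun z => (∏ i ∈ range n, ((i : ℂ) - q)) * (1 - z) ^ (q - n) := by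
      filter_upwards [isOpen_ball.mem_nhds hz] with w hw using ih w hw
    rw [h1.deriv_eq]
    have h2 : HasDerivAt (fun z : ℂ => 1 - z) (-1) z := by
      simpa using (hasDerivAt_id z).const_sub 1
    have h3 := h2.cpow_const (c := q - n) (slit hz)
    have h4 := (h3.const_mul (∏ i ∈ range n, ((i : ℂ) - q))).deriv
    rw [h4, prod_range_succ, Nat.cast_succ, sub_sub]
    ring

end ItemA2

open ItemA2 in
theorem prfPowCoef : PowCoef := by
  intro q n hn
  obtain ⟨m, rfl⟩ : ∃ m, n = m + 1 := ⟨n - 1, by omega⟩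
  rw [tc, iter q (m + 1) 0 (mem_ball_self one_pos), cf, prod_range_succ', Nat.add_sub_cancel,
    Nat.factorial_succ]
  have hm : ((m.factorial : ℕ) : ℂ) ≠ 0 := by exact_mod_cast m.factorial_ne_zero
  have hm1 : ((m + 1 : ℕ) : ℂ) ≠ 0 := by exact_mod_cast Nat.succ_ne_zero m
  have hprod : ∏ k ∈ range m, (((k + 1 : ℕ) : ℂ) - q) = ∏ i ∈ range m, (1 - q + (i : ℂ)) := by
    refine prod_congr rfl fun i _ => ?_
    push_cast
    ring
  rw [hprod, sub_zero, one_cpow, Nat.cast_mul]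
  field_simp
  push_cast
  ring

end Pool.Agent.MultS

end

section

set_option autoImplicit false

open Complex Metric Set Filter Topology MeasureTheory Finset

namespace Pool.Agent.MultS

theorem A4_re_pos {z : ℂ} (hz : z ∈ ball (0 : ℂ) 1) : 0 < (1 - z).re := by
  have h1 : ‖z‖ < 1 := by simpa using hz
  have h2 := Complex.re_le_norm z
  simp only [sub_re, one_re]
  linarith

theorem A4_slit {z : ℂ} (hz : z ∈ ball (0 : ℂ) 1) : (1 - z) ∈ slitPlane :=
  Or.inl (A4_re_pos hz)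

theorem A4_hasDerivAt (q : ℂ) {z : ℂ} (hz : z ∈ ball (0 : ℂ) 1) :
    HasDerivAt (fun z : ℂ => (1 - z) ^ q) (-(q * (1 - z) ^ (q - 1))) z := by
  have h1 : HasDerivAt (fun z : ℂ => 1 - z) (-1) z := by
    simpa using (hasDerivAt_id z).const_sub 1
  have h2 := h1.cpow_const (c := q) (A4_slit hz)
  convert h2 using 1
  ring

theorem A4_contDiffAt (q : ℂ) (n : WithTop ℕ∞) :
    ContDiffAt ℂ n (fun z : ℂ => (1 - z) ^ q) 0 := by
  have h0 : (0 : ℂ) ∈ ball (0 : ℂ) 1 := by simp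
  have hd : DifferentiableOn ℂ (fun z : ℂ => (1 - z) ^ q) (ball 0 1) := fun z hz =>
    (A4_hasDerivAt q hz).differentiableAt.differentiableWithinAt
  exact (hd.analyticAt (isOpen_ball.mem_nhds h0)).contDiffAt

/-- Linearity of the Taylor coefficients. -/
theorem A4_tc_lin {ι : Type*} (I : Finset ι) (c : ι → ℂ) (q : ι → ℂ) (e d : ℂ) (n : ℕ)
    (hn : 1 ≤ n) :
    tc (fun z : ℂ => ((∑ j ∈ I, c j * (1 - z) ^ (q j)) - e) * d) n =
      (∑ j ∈ I, c j * tc (fun z : ℂ => (1 - z) ^ (q j)) n) * d := by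
  unfold tc
  have h1 : iteratedDeriv n (fun z : ℂ => ((∑ j ∈ I, c j * (1 - z) ^ (q j)) - e) * d) 0 =
      iteratedDeriv n (fun z : ℂ => ((∑ j ∈ I, c j * (1 - z) ^ (q j)) - e)) 0 * d :=
    iteratedDeriv_mul_const_field (fun z : ℂ => ((∑ j ∈ I, c j * (1 - z) ^ (q j)) - e)) d
  have h2 : iteratedDeriv n (fun z : ℂ => ((∑ j ∈ I, c j * (1 - z) ^ (q j)) - e)) 0 =
      iteratedDeriv n (fun z : ℂ => (∑ j ∈ I, c j * (1 - z) ^ (q j))) 0 := by
    have h3 := iteratedDeriv_const_add (𝕜 := ℂ) (x := 0) (n := n)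
      (f := fun z : ℂ => (∑ j ∈ I, c j * (1 - z) ^ (q j))) (by omega) (-e)
    rw [← h3]
    congr 1
    funext z
    ring
  have h4 : iteratedDeriv n (fun z : ℂ => (∑ j ∈ I, c j * (1 - z) ^ (q j))) 0 =
      ∑ j ∈ I, iteratedDeriv n (fun z : ℂ => c j * (1 - z) ^ (q j)) 0 := by
    apply iteratedDeriv_fun_sum
    intro j _
    exact contDiffAt_const.mul (A4_contDiffAt (q j) _)
  rw [h1, h2, h4, Finset.sum_mul, Finset.sum_mul, Finset.sum_div]
  refine Finset.sum_congr rfl fun j _ => ?_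
  have h5 : iteratedDeriv n (fun z : ℂ => c j * (1 - z) ^ (q j)) 0 =
      c j * iteratedDeriv n (fun z : ℂ => (1 - z) ^ (q j)) 0 :=
    iteratedDeriv_const_mul_field (c j) (fun z : ℂ => (1 - z) ^ (q j))
  rw [h5]
  ring

theorem A4_log_im {u : ℂ} (hu : 0 < u.re) : |(log u).im| < Real.pi / 2 := by
  rw [log_im]
  exact abs_arg_lt_pi_div_two_iff.mpr (Or.inl hu)

theorem prfTestQ (a0 : Strip) (a2 : PowCoef) : TestQ := by
  intro q hq hq0
  have hder : ∀ z ∈ ball (0 : ℂ) 1,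
      HasDerivAt (fun z : ℂ => (1 - (1 - z) ^ q) / q) ((1 - z) ^ (q - 1)) z := by
    intro z hz
    have h := ((A4_hasDerivAt q hz).const_sub 1).div_const q
    rw [neg_neg, mul_div_cancel_left₀ _ hq0] at h
    exact h
  refine ⟨fun z => (1 - (1 - z) ^ q) / q, ⟨?_, ?_, ?_, ?_⟩, ?_⟩
  · exact fun z hz => (hder z hz).differentiableAt.differentiableWithinAt
  · intro z₁ hz₁ z₂ hz₂ heq
    have h1 : (1 - z₁) ^ q = (1 - z₂) ^ q := by
      have h2 : (1 - (1 - z₁) ^ q) / q = (1 - (1 - z₂) ^ q) / q := heq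
      rw [div_left_inj' hq0] at h2
      linear_combination -h2
    have hne₁ : (1 - z₁) ≠ 0 := slitPlane_ne_zero (A4_slit hz₁)
    have hne₂ : (1 - z₂) ≠ 0 := slitPlane_ne_zero (A4_slit hz₂)
    rw [cpow_def_of_ne_zero hne₁, cpow_def_of_ne_zero hne₂] at h1
    have h3 := a0 (fun ζ => ζ * q) {q} (convex_singleton q) isClosed_singleton
      (by
        intro w hw
        rw [Set.mem_singleton_iff] at hw
        subst hw
        rw [mem_closedBall, dist_eq_norm, sub_neg_eq_add]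
        exact hq)
      (by simpa using hq0.symm)
      (by
        intro ζ _
        refine ⟨q, rfl, ?_⟩
        simpa using (hasDerivAt_id ζ).mul_const q)
      (log (1 - z₁)) (log (1 - z₂)) (A4_log_im (A4_re_pos hz₁)) (A4_log_im (A4_re_pos hz₂)) h1
    have h4 : (1 - z₁) = (1 - z₂) := by
      rw [← exp_log hne₁, ← exp_log hne₂, h3]
    linear_combination -h4
  · simp
  · rw [(hder 0 (by simp)).deriv]
    simp
  · intro n hn
    have h1 := A4_tc_lin (Finset.range 1) (fun _ => (1 : ℂ)) (fun _ => q) 1 (-1 / q) n hn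
    have h2 : (fun z : ℂ => (1 - (1 - z) ^ q) / q) =
        (fun z : ℂ => ((∑ j ∈ Finset.range 1, (fun _ => (1 : ℂ)) j *
          (1 - z) ^ ((fun _ : ℕ => q) j)) - 1) * (-1 / q)) := by
      funext z
      simp only [Finset.sum_range_one]
      field_simp
      ring
    rw [h2, h1]
    simp only [Finset.sum_range_one]
    rw [a2 q n hn]
    field_simp

end Pool.Agent.MultS

end

section

/-!
# Coefficient multipliers of the class S: assembly
-/

set_option autoImplicit false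

open Complex Metric Set Filter Topology MeasureTheory Finset

namespace Pool.Agent.MultS

lemma exp_mem_ball {ε : ℝ} {u : ℂ} (hε : 0 < ε) (hu : 0 < u.re) :
    exp (-((ε : ℂ) * u)) ∈ ball (0 : ℂ) 1 := by
  rw [mem_ball_zero_iff, Complex.norm_exp]
  have : (-((ε : ℂ) * u)).re = -(ε * u.re) := by simp
  rw [this, Real.exp_lt_one_iff]
  have := mul_pos hε hu
  linarith

/-- No atoms of mass strictly between `0` and `1`. -/
theorem noAtom (a1 : DerNe) (b5 : Conv) (b6 : MemQ) (c0 : PPan) (c3 : JLim) (d4 : Dom)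
    (d5 : Psi) (d6 : DLim) (d7 : DBlow) (d8 : NonInj)
    {lam : ℕ → ℂ} {h : ℂ → ℂ} {α : ℝ} (hm : IsMult lam) (hg : Gen lam h) (h0 : 0 < α)
    (h1 : α < 1) (hi : JulIneq (PP h) α) (hl : JulLim (PP h) α) : False := by
  have hpos := b5 lam h hm hg
  have hcar : Car (PP h) := ⟨(c0 h hg.1).1, fun z hz => (hpos z hz).le⟩
  obtain ⟨q, hq1, hq0, hq2, hq3, hq4, hQ, hni⟩ := d8 α h0 h1
  have hlim := c3 (PP h) α hcar hi hl
  have hdom := d4 h α hg.1 h0.le hpos hi
  have hpsi := d5 h α hg.1 hpos hlim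
  obtain ⟨K, hK, hb⟩ := d6 lam h α q hg h0 hq2 hq3 hq4 hdom hpsi
  obtain ⟨g, hgS, hgd⟩ := b6 lam hm q hq1 hq0
  refine hni ?_
  refine d7 g (fun ε : ℝ => (ε : ℂ) ^ (1 + q) * FF h (exp (-(ε : ℂ)))) K _ hgS hK hQ ?_ ?_
  · intro ε hε
    have hmem : exp (-(ε : ℂ)) ∈ ball (0 : ℂ) 1 := by
      have := exp_mem_ball (u := 1) hε (by simp)
      simpa using this
    refine mul_ne_zero ?_ ?_
    · rw [Ne, Complex.cpow_eq_zero_iff]
      rintro ⟨h1, -⟩
      exact hε.ne' (by exact_mod_cast h1)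
    · exact mul_ne_zero (Complex.exp_ne_zero _)
        (a1 _ _ isOpen_ball hg.1.1 hg.1.2.1 _ hmem)
  · refine ⟨fun u hu => ?_, fun η R hη => ?_⟩
    · refine (hb.1 u hu).congr' ?_
      filter_upwards [self_mem_nhdsWithin] with ε hε
      rw [hgd _ (exp_mem_ball hε hu)]
    · obtain ⟨C, hC⟩ := hb.2 η R hη
      refine ⟨C, fun ε hε hε1 u hu huR => ?_⟩
      rw [hgd _ (exp_mem_ball hε (hη.trans_le hu))]
      exact hC ε hε hε1 u hu huR

/-- The main dichotomy in terms of `J`. -/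
theorem mainJ (a1 : DerNe) (b5 : Conv) (b6 : MemQ) (b7 : NonN) (b8 : Rot) (c0 : PPan) (c2 : Jul)
    (c3 : JLim) (c4 : JOne) (c5 : Unif) (d4 : Dom) (d5 : Psi) (d6 : DLim) (d7 : DBlow)
    (d8 : NonInj) (e1 : Grow) (e2 : RotOne) (f1 : Low) (f2 : Start) (w2 : Climb)
    {lam : ℕ → ℂ} {h : ℂ → ℂ} (hm : IsMult lam) (hg : Gen lam h) :
    (∃ x : ℂ, ‖x‖ = 1 ∧ ∀ n : ℕ, 1 ≤ n → lam n = x ^ (n - 1)) ∨
    ∀ s : ℝ, 0 ≤ s → s ≤ 2 → ∃ C : ℝ, ∀ z ∈ ball (0 : ℂ) 1, ‖JJ lam ((-s : ℝ) : ℂ) z‖ ≤ C := by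
  by_cases hrot : ∃ x : ℂ, ‖x‖ = 1 ∧ ∀ n : ℕ, 1 ≤ n → lam n = x ^ (n - 1)
  · exact Or.inl hrot
  right
  have hpos := b5 lam h hm hg
  have hcar : Car (PP h) := ⟨(c0 h hg.1).1, fun z hz => (hpos z hz).le⟩
  have hrad : ∀ x : ℂ, ‖x‖ = 1 → Tendsto (fun r : ℝ => (1 - r) * (PP h ((r : ℂ) * x)).re)
      (𝓝[<] (1 : ℝ)) (𝓝 0) := by
    intro x hx
    obtain ⟨hmx, hgx, hPx⟩ := b8 lam h x hm hg hx
    have hposx := b5 _ _ hmx hgx
    have hcarx : Car (PP (fun z => h (x * z) / x)) :=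
      ⟨(c0 _ hgx.1).1, fun z hz => (hposx z hz).le⟩
    obtain ⟨α, hα, hi, hl⟩ := c2 _ hcarx
    have hα1 : α ≤ 1 := by
      have := hi 0 (mem_ball_self one_pos)
      rw [(c0 _ hgx.1).2] at this
      simpa using this
    have hα0 : α = 0 := by
      by_contra hne
      have hαpos : 0 < α := lt_of_le_of_ne hα (Ne.symm hne)
      rcases hα1.lt_or_eq with hlt | heq
      · exact noAtom a1 b5 b6 c0 c3 d4 d5 d6 d7 d8 hmx hgx hαpos hlt hi hl
      · subst heq
        have hP := c4 _ hcarx (c0 _ hgx.1).2 hi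
        have hone := e2 _ _ hgx hP
        apply hrot
        have hx0 : x ≠ 0 := by
          rintro rfl
          simp at hx
        refine ⟨x⁻¹, by rw [norm_inv, hx, inv_one], fun n hn => ?_⟩
        have := hone n hn
        rw [inv_pow]
        exact eq_inv_of_mul_eq_one_right this
    subst hα0
    have hl' : Tendsto (fun r : ℝ => (1 - r) * (PP (fun z => h (x * z) / x) (r : ℂ)).re)
        (𝓝[<] (1 : ℝ)) (𝓝 0) := by
      simpa [JulLim] using hl
    refine hl'.congr' ?_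
    have : ∀ᶠ r : ℝ in 𝓝[<] (1 : ℝ), r ∈ Ioo (0 : ℝ) 1 := Ioo_mem_nhdsLT one_pos
    filter_upwards [this] with r hr
    rw [hPx, mul_comm x]
    rw [mem_ball_zero_iff, Complex.norm_real, Real.norm_of_nonneg hr.1.le]
    exact hr.2
  have hun := c5 _ hcar hrad
  have hgr := e1 h hg.1 hun (1 / 8) (by norm_num)
  obtain ⟨p, c, hp0, hp8, hc, hlow⟩ := f1 lam h hg hgr
  have hst := f2 lam h hg hgr
  exact w2 lam p c hp0 hp8 hc (fun s σ h1 h2 h3 h4 => b7 lam hm p s σ hp0 h1 h2 h3 h4) hlow hst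

end Pool.Agent.MultS

end

section

/-!
# Power series of `g'` and `z g''`
-/

set_option autoImplicit false

open Complex Metric Set Filter Topology MeasureTheory Finset

namespace Pool.Agent.MultS

namespace SerAux

theorem taylor {g : ℂ → ℂ} (hg : DifferentiableOn ℂ g (ball 0 1)) {z : ℂ}
    (hz : z ∈ ball (0 : ℂ) 1) :
    HasSum (fun n : ℕ => iteratedDeriv n g 0 / (n.factorial : ℂ) * z ^ n) (g z) := by
  have h1 : DifferentiableOn ℂ g (Metric.ball 0 ((1 : NNReal) : ℝ)) := by simpa using hg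
  have h2 := Complex.hasSum_taylorSeries_on_ball h1 (z := z) (by simpa using hz)
  have e : (fun n : ℕ => iteratedDeriv n g 0 / (n.factorial : ℂ) * z ^ n) =
      fun n : ℕ => (n.factorial : ℂ)⁻¹ • (z - 0) ^ n • iteratedDeriv n g 0 := by
    funext n
    simp only [sub_zero, smul_eq_mul]
    ring
  rw [e]
  exact h2

end SerAux

theorem prfSer : Ser := by
  intro g hg z hz
  have hd1 : DifferentiableOn ℂ (deriv g) (ball 0 1) := hg.deriv isOpen_ball
  have hd2 : DifferentiableOn ℂ (deriv (deriv g)) (ball 0 1) := hd1.deriv isOpen_ball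
  refine ⟨?_, ?_, ?_⟩
  · have h := (SerAux.taylor hg hz).summable
    rw [summable_norm_iff]
    exact h
  · have h := SerAux.taylor hd1 hz
    have e : (fun n : ℕ => iteratedDeriv n (deriv g) 0 / (n.factorial : ℂ) * z ^ n) =
        fun k : ℕ => ((k : ℂ) + 1) * tc g (k + 1) * z ^ k := by
      funext k
      rw [← iteratedDeriv_succ', tc, Nat.factorial_succ]
      have h1 : (k.factorial : ℂ) ≠ 0 := by exact_mod_cast k.factorial_ne_zero
      have h2 : (k : ℂ) + 1 ≠ 0 := by exact_mod_cast k.succ_ne_zero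
      push_cast
      field_simp
    rw [e] at h
    exact h
  · have h := (SerAux.taylor hd2 hz).mul_left z
    rw [← hasSum_nat_add_iff' 1]
    have e : (fun n : ℕ => z * (iteratedDeriv n (deriv (deriv g)) 0 / (n.factorial : ℂ) * z ^ n))
        = fun k : ℕ => ((k + 1 : ℕ) : ℂ) * ((((k + 1 : ℕ) : ℂ) + 1) * tc g (k + 1 + 1) *
          z ^ (k + 1)) := by
      funext k
      rw [← iteratedDeriv_succ', ← iteratedDeriv_succ', tc, Nat.factorial_succ,
        Nat.factorial_succ]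
      have h1 : (k.factorial : ℂ) ≠ 0 := by exact_mod_cast k.factorial_ne_zero
      have h2 : (k : ℂ) + 1 ≠ 0 := by exact_mod_cast k.succ_ne_zero
      have h3 : (k : ℂ) + 1 + 1 ≠ 0 := by exact_mod_cast (k + 1).succ_ne_zero
      push_cast
      field_simp
      ring
    rw [e] at h
    simpa using h

end Pool.Agent.MultS

end

section

set_option autoImplicit false

open Complex Metric Set Filter Topology MeasureTheory Finset

namespace Pool.Agent.MultS

theorem cf_succ (q : ℂ) (k : ℕ) :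
    cf q (k + 1) = cf q k * ((1 - q + (k : ℂ)) / ((k : ℂ) + 1)) := by
  unfold cf
  rw [Finset.prod_range_succ, Nat.factorial_succ]
  push_cast
  have h1 : ((k : ℂ) + 1) ≠ 0 := by exact_mod_cast Nat.succ_ne_zero k
  have h2 : (k.factorial : ℂ) ≠ 0 := by exact_mod_cast Nat.factorial_ne_zero k
  field_simp

theorem norm_cf_le (q : ℂ) (M : ℕ) (hM : ‖q‖ ≤ M) (k : ℕ) :
    ‖cf q k‖ ≤ ((k : ℝ) + 1) ^ M := by
  induction k with
  | zero => simp [cf]
  | succ k ih =>
    have hk : (0 : ℝ) < (k : ℝ) + 1 := by positivity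
    have h1 : ‖(1 - q + (k : ℂ)) / ((k : ℂ) + 1)‖ ≤ 1 + M * (1 / ((k : ℝ) + 1)) := by
      rw [norm_div]
      have h2 : ‖((k : ℂ) + 1)‖ = (k : ℝ) + 1 := by
        have : ((k : ℂ) + 1) = (((k : ℝ) + 1 : ℝ) : ℂ) := by push_cast; ring
        rw [this, Complex.norm_real, Real.norm_of_nonneg hk.le]
      rw [h2, div_le_iff₀ hk]
      have h3 : ‖1 - q + (k : ℂ)‖ ≤ ‖((k : ℂ) + 1)‖ + ‖q‖ := by
        have : 1 - q + (k : ℂ) = ((k : ℂ) + 1) - q := by ring
        rw [this]; exact norm_sub_le _ _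
      rw [h2] at h3
      have h4 : (1 + M * (1 / ((k : ℝ) + 1))) * ((k : ℝ) + 1) = (k : ℝ) + 1 + M := by
        field_simp
      rw [h4]; linarith
    have h5 : 1 + M * (1 / ((k : ℝ) + 1)) ≤ (1 + 1 / ((k : ℝ) + 1)) ^ M :=
      one_add_mul_le_pow (by
        have : (0 : ℝ) < 1 / ((k : ℝ) + 1) := by positivity
        linarith) M
    rw [cf_succ, norm_mul]
    calc ‖cf q k‖ * ‖(1 - q + (k : ℂ)) / ((k : ℂ) + 1)‖
        ≤ ((k : ℝ) + 1) ^ M * (1 + 1 / ((k : ℝ) + 1)) ^ M :=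
          mul_le_mul ih (h1.trans h5) (norm_nonneg _) (by positivity)
      _ = (((k + 1 : ℕ) : ℝ) + 1) ^ M := by
          rw [← mul_pow]
          congr 1
          push_cast
          field_simp

theorem prfSerJ (b1 : Ser) : SerJ := by
  intro lam h hG q z hz
  obtain ⟨M, hM⟩ := exists_nat_ge ‖q‖
  have hz1 : ‖z‖ < 1 := by simpa using hz
  have hd : DifferentiableOn ℂ h (ball 0 1) := hG.1.1
  obtain ⟨r, hzr, hr1⟩ := exists_between hz1
  have hr0 : 0 < r := (norm_nonneg z).trans_lt hzr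
  have hrb : ((r : ℝ) : ℂ) ∈ ball (0 : ℂ) 1 := by
    simp [abs_of_pos hr0, hr1]
  have hs := (b1 h hd _ hrb).1
  -- the terms are bounded
  have hbd : ∃ C : ℝ, ∀ k : ℕ, ‖tc h k * ((r : ℝ) : ℂ) ^ k‖ ≤ C := by
    refine ⟨∑' k : ℕ, ‖tc h k * ((r : ℝ) : ℂ) ^ k‖, fun k => ?_⟩
    exact hs.le_tsum k (fun j _ => norm_nonneg _)
  obtain ⟨C, hC⟩ := hbd
  have hC0 : 0 ≤ C := (norm_nonneg _).trans (hC 0)
  have hρ : ‖z‖ / r < 1 := (div_lt_one hr0).2 hzr
  have hρ0 : 0 ≤ ‖z‖ / r := by positivity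
  have hsum : Summable (fun k : ℕ => (C / r) * (2 ^ M * ((k : ℝ) ^ M * (‖z‖ / r) ^ k + (‖z‖ / r) ^ k))) := by
    apply Summable.mul_left
    apply Summable.mul_left
    apply Summable.add
    · exact summable_pow_mul_geometric_of_norm_lt_one M (by
        rw [Real.norm_of_nonneg hρ0]; exact hρ)
    · exact summable_geometric_of_lt_one hρ0 hρ
  refine Summable.of_nonneg_of_le (fun k => norm_nonneg _) (fun k => ?_) hsum
  have hlam : lam (k + 1) = tc h (k + 1) := (hG.2 (k + 1) (by omega)).symm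
  have h1 : ‖lam (k + 1)‖ ≤ C / r ^ (k + 1) := by
    rw [le_div_iff₀ (by positivity), hlam]
    have := hC (k + 1)
    rw [norm_mul, norm_pow, Complex.norm_real, Real.norm_of_nonneg hr0.le] at this
    exact this
  have h2 : ‖cf q k‖ ≤ 2 ^ M * ((k : ℝ) ^ M + 1) := by
    refine (norm_cf_le q M hM k).trans ?_
    rcases Nat.eq_zero_or_pos k with hk | hk
    · subst hk
      have h3 : (1 : ℝ) ≤ 2 ^ M := one_le_pow₀ (by norm_num)
      have h4 : (0 : ℝ) ≤ ((0 : ℕ) : ℝ) ^ M := by positivity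
      calc (((0 : ℕ) : ℝ) + 1) ^ M = 1 * 1 := by simp
        _ ≤ 2 ^ M * (((0 : ℕ) : ℝ) ^ M + 1) := by
          apply mul_le_mul h3 (by linarith) (by norm_num) (by positivity)
    · have hk1 : (1 : ℝ) ≤ k := by exact_mod_cast hk
      calc ((k : ℝ) + 1) ^ M ≤ (2 * k) ^ M := pow_le_pow_left₀ (by positivity) (by linarith) M
        _ = 2 ^ M * (k : ℝ) ^ M := mul_pow _ _ _
        _ ≤ 2 ^ M * ((k : ℝ) ^ M + 1) := by
          apply mul_le_mul_of_nonneg_left _ (by positivity); linarith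
  rw [norm_mul, norm_mul, norm_pow]
  calc ‖lam (k + 1)‖ * ‖cf q k‖ * ‖z‖ ^ k
      ≤ (C / r ^ (k + 1)) * (2 ^ M * ((k : ℝ) ^ M + 1)) * ‖z‖ ^ k := by
        apply mul_le_mul_of_nonneg_right _ (by positivity)
        exact mul_le_mul h1 h2 (norm_nonneg _) (by positivity)
    _ = (C / r) * (2 ^ M * ((k : ℝ) ^ M * (‖z‖ / r) ^ k + (‖z‖ / r) ^ k)) := by
        rw [div_pow, pow_succ]
        have hrk : r ^ k ≠ 0 := pow_ne_zero _ hr0.ne'
        field_simp

end Pool.Agent.MultS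

end

section

/-!
# [B8] Rotations
-/

set_option autoImplicit false

open Complex Metric Set Filter Topology MeasureTheory Finset

namespace Pool.Agent.MultS

namespace RotAux

theorem deriv_rot (f : ℂ → ℂ) (x z : ℂ) :
    deriv (fun z => f (x * z)) z = x * deriv f (x * z) := by
  have := deriv_comp_mul_left x f z
  simpa [smul_eq_mul] using this

theorem iter_rot (f : ℂ → ℂ) (x : ℂ) (n : ℕ) :
    iteratedDeriv n (fun z => f (x * z)) = fun z => x ^ n * iteratedDeriv n f (x * z) := by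
  induction n with
  | zero =>
    funext z
    simp
  | succ n ih =>
    rw [iteratedDeriv_succ, ih]
    funext z
    rw [deriv_const_mul_field, deriv_rot (iteratedDeriv n f) x z, iteratedDeriv_succ]
    ring

theorem iter_rot' (f : ℂ → ℂ) (x : ℂ) (hx : x ≠ 0) (n : ℕ) (hn : 1 ≤ n) :
    iteratedDeriv n (fun z => f (x * z) / x) 0 = x ^ (n - 1) * iteratedDeriv n f 0 := by
  have h1 : (fun z => f (x * z) / x) = fun z => x⁻¹ * f (x * z) := by
    funext z
    rw [div_eq_mul_inv, mul_comm]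
  rw [h1]
  have h2 : ∀ m : ℕ, iteratedDeriv m (fun z => x⁻¹ * f (x * z)) =
      fun z => x⁻¹ * iteratedDeriv m (fun z => f (x * z)) z := by
    intro m
    induction m with
    | zero =>
      funext z
      simp
    | succ m ih =>
      rw [iteratedDeriv_succ, ih]
      funext z
      rw [deriv_const_mul_field, iteratedDeriv_succ]
  rw [h2 n, iter_rot]
  obtain ⟨m, rfl⟩ : ∃ m, n = m + 1 := ⟨n - 1, by omega⟩
  simp only [Nat.add_sub_cancel, mul_zero]
  rw [pow_succ]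
  field_simp

theorem tc_rot (f : ℂ → ℂ) (x : ℂ) (hx : x ≠ 0) (n : ℕ) (hn : 1 ≤ n) :
    tc (fun z => f (x * z) / x) n = x ^ (n - 1) * tc f n := by
  unfold tc
  rw [iter_rot' f x hx n hn]
  ring

theorem deriv_rot' (f : ℂ → ℂ) (x : ℂ) (hx : x ≠ 0) :
    deriv (fun z => f (x * z) / x) = fun z => deriv f (x * z) := by
  funext z
  have h1 : (fun z => f (x * z) / x) = fun z => x⁻¹ * f (x * z) := by
    funext z
    rw [div_eq_mul_inv, mul_comm]
  rw [h1, deriv_const_mul_field, deriv_rot, ← mul_assoc, inv_mul_cancel₀ hx, one_mul]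

theorem mem_rot {x z : ℂ} (hx : ‖x‖ = 1) (hz : z ∈ ball (0 : ℂ) 1) : x * z ∈ ball (0 : ℂ) 1 := by
  rw [mem_ball_zero_iff] at hz ⊢
  rw [norm_mul, hx, one_mul]
  exact hz

theorem sc_rot {f : ℂ → ℂ} {x : ℂ} (hx : ‖x‖ = 1) (hf : Sc f) : Sc (fun z => f (x * z) / x) := by
  obtain ⟨h1, h2, h3, h4⟩ := hf
  have hx0 : x ≠ 0 := by
    intro h
    rw [h, norm_zero] at hx
    exact zero_ne_one hx
  refine ⟨?_, ?_, ?_, ?_⟩
  · refine DifferentiableOn.div_const ?_ x
    refine h1.comp (differentiableOn_id.const_mul x) ?_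
    intro z hz
    exact mem_rot hx hz
  · intro z hz w hw hzw
    have h5 : f (x * z) = f (x * w) := by
      have := congrArg (fun t => t * x) hzw
      simpa [div_mul_cancel₀, hx0] using this
    have h6 := h2 (mem_rot hx hz) (mem_rot hx hw) h5
    exact mul_left_cancel₀ hx0 h6
  · simp [h3]
  · rw [deriv_rot' f x hx0]
    simp [h4]

end RotAux

open RotAux in
theorem prfRot : Rot := by
  intro lam h x hm hg hx
  have hx0 : x ≠ 0 := by
    intro h
    rw [h, norm_zero] at hx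
    exact zero_ne_one hx
  refine ⟨?_, ?_, ?_⟩
  · intro f hf
    obtain ⟨g, hgS, hgc⟩ := hm f hf
    refine ⟨fun z => g (x * z) / x, sc_rot hx hgS, fun n hn => ?_⟩
    rw [tc_rot g x hx0 n hn, hgc n hn]
    ring
  · refine ⟨sc_rot hx hg.1, fun n hn => ?_⟩
    rw [tc_rot h x hx0 n hn, hg.2 n hn]
  · intro z _
    unfold PP
    rw [deriv_rot' h x hx0, deriv_rot (deriv h) x z]
    ring

end Pool.Agent.MultS

end

section

/-!
# [C1] Harnack and Schwarz-Pick inequalities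
-/

set_option autoImplicit false

open Complex Metric Set Filter Topology MeasureTheory Finset

namespace Pool.Agent.MultS

namespace HarAux

open Pool.Agent.RMT

theorem sub_pos {f : ℂ → ℂ} (hf : DifferentiableOn ℂ f (ball 0 1))
    (hp : ∀ z ∈ ball (0 : ℂ) 1, 0 < (f z).re) {z : ℂ} (hz : z ∈ ball (0 : ℂ) 1) :
    (1 - ‖z‖) * ‖f z - f 0‖ ≤ 2 * ‖z‖ * (f 0).re := by
  have hcm : (0 : ℂ) ∈ ball (0 : ℂ) 1 := mem_ball_self one_pos
  set a := f 0 with ha
  have hα : 0 < a.re := hp 0 hcm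
  set h : ℂ → ℂ := fun z => (f z - a) / (f z + (starRingEnd ℂ) a) with hh
  have hden : ∀ z ∈ ball (0 : ℂ) 1, f z + (starRingEnd ℂ) a ≠ 0 := by
    intro z hz h0
    have := congrArg Complex.re h0
    simp only [add_re, conj_re, zero_re] at this
    linarith [hp z hz]
  have hhc : h 0 = 0 := by simp [hh, ← ha]
  have hhd : DifferentiableOn ℂ h (ball 0 1) :=
    (hf.sub_const a).div (hf.add_const _) hden
  have hmaps : MapsTo h (ball 0 1) (closedBall (h 0) 1) := by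
    intro z hz
    rw [hhc, mem_closedBall, dist_zero_right, hh]
    simp only
    rw [norm_div, div_le_one (norm_pos_iff.2 (hden z hz))]
    rw [← abs_of_nonneg (norm_nonneg (f z - a)),
      ← abs_of_nonneg (norm_nonneg (f z + (starRingEnd ℂ) a)),
      ← sq_le_sq, ← Complex.normSq_eq_norm_sq, ← Complex.normSq_eq_norm_sq,
      Complex.normSq_apply, Complex.normSq_apply]
    simp only [add_re, add_im, sub_re, sub_im, conj_re, conj_im]
    have := mul_pos (hp z hz) hα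
    nlinarith
  have h1 := dist_le_div_mul_dist_of_mapsTo_ball hhd hmaps hz
  rw [hhc, dist_zero_right, dist_zero_right, one_div_one, one_mul] at h1
  have h3 : ‖h z‖ = ‖f z - a‖ / ‖f z + (starRingEnd ℂ) a‖ := by
    rw [hh]; simp only [norm_div]
  rw [h3, div_le_iff₀ (norm_pos_iff.2 (hden z hz))] at h1
  have h4 : ‖f z + (starRingEnd ℂ) a‖ ≤ ‖f z - a‖ + 2 * a.re := by
    have h5 : f z + (starRingEnd ℂ) a = (f z - a) + (a + (starRingEnd ℂ) a) := by ring
    have h6 : ‖a + (starRingEnd ℂ) a‖ = 2 * a.re := by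
      rw [Complex.add_conj, Complex.norm_real, Real.norm_eq_abs, abs_of_pos (by positivity)]
    rw [h5]
    exact (norm_add_le _ _).trans (by rw [h6])
  have h7 := mul_le_mul_of_nonneg_left h4 (norm_nonneg z)
  linarith

theorem sub_nonneg' {f : ℂ → ℂ} (hf : DifferentiableOn ℂ f (ball 0 1))
    (hp : ∀ z ∈ ball (0 : ℂ) 1, 0 ≤ (f z).re) {z : ℂ} (hz : z ∈ ball (0 : ℂ) 1) :
    (1 - ‖z‖) * ‖f z - f 0‖ ≤ 2 * ‖z‖ * (f 0).re := by
  have hz1 : ‖z‖ < 1 := by rwa [mem_ball_zero_iff] at hz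
  refine le_of_forall_pos_le_add fun ε hε => ?_
  have h1 := sub_pos (f := fun z => f z + ((ε / 2 : ℝ) : ℂ)) (hf.add_const _) (by
      intro z hz
      simp only [add_re, ofReal_re]
      linarith [hp z hz]) hz
  simp only [add_re, ofReal_re, add_sub_add_right_eq_sub] at h1
  have h2 : ‖z‖ * ε ≤ 1 * ε := mul_le_mul_of_nonneg_right hz1.le hε.le
  linarith

end HarAux

open HarAux Pool.Agent.RMT in
theorem prfHar : Har := by
  intro P hP z hz w hw ρ hρ
  obtain ⟨hPd, hPp⟩ := hP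
  have hz1 : ‖z‖ < 1 := by rwa [mem_ball_zero_iff] at hz
  have hw1 : ‖w‖ < 1 := by rwa [mem_ball_zero_iff] at hw
  have hw1' : ‖-w‖ < 1 := by rwa [norm_neg]
  set ζ := mob w z with hζ
  have hζn : ‖ζ‖ = ρ := by
    rw [hζ, mob, norm_div, hρ]
  have hζ1 : ‖ζ‖ < 1 := norm_mob_lt hw1 hz1
  have hζm : ζ ∈ ball (0 : ℂ) 1 := by rwa [mem_ball_zero_iff]
  have hmz : mob (-w) ζ = z := mob_neg_mob hw1 hz1
  have hm0 : mob (-w) 0 = w := by simp [mob]
  have hfd : DifferentiableOn ℂ (fun t => P (mob (-w) t)) (ball 0 1) :=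
    hPd.comp (mob_differentiableOn hw1') (mob_mapsTo hw1')
  have hfp : ∀ t ∈ ball (0 : ℂ) 1, 0 ≤ (P (mob (-w) t)).re := fun t ht =>
    hPp _ (mob_mapsTo hw1' ht)
  have hest := Pool.Agent.Work.MP_6d8919_an.re_nonneg_estimates one_pos hfd hfp
  have hder : HasDerivAt (fun t => P (mob (-w) t)) (deriv P w * (1 - (‖w‖ ^ 2 : ℝ))) 0 := by
    have h1 := hasDerivAt_mob (w := -w) (ζ := 0) hw1' (by simp)
    have h2 : HasDerivAt P (deriv P w) (mob (-w) 0) := by
      rw [hm0]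
      exact (hPd.differentiableAt (isOpen_ball.mem_nhds hw)).hasDerivAt
    refine (h2.comp 0 h1).congr_deriv ?_
    congr 1
    have h3 : (starRingEnd ℂ) (-w) * -w = ((‖w‖ ^ 2 : ℝ) : ℂ) := by
      rw [map_neg, neg_mul_neg, mul_comm, Complex.mul_conj, Complex.normSq_eq_norm_sq]
    rw [h3]
    simp
  refine ⟨by rw [← hζn]; exact hζ1, ?_, ?_, ?_⟩
  · have h1 := (hest.2 ζ hζm).2
    simp only [sub_zero, hmz, hm0, hζn] at h1
    exact h1
  · have h1 := sub_nonneg' hfd hfp hζm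
    simp only [hmz, hm0, hζn] at h1
    exact h1
  · have h1 := hest.1
    rw [hder.deriv, norm_mul] at h1
    have h2 : ‖(1 - ((‖w‖ ^ 2 : ℝ) : ℂ))‖ = 1 - ‖w‖ ^ 2 := by
      have h3 : (1 - ((‖w‖ ^ 2 : ℝ) : ℂ)) = ((1 - ‖w‖ ^ 2 : ℝ) : ℂ) := by push_cast; ring
      rw [h3, Complex.norm_real, Real.norm_of_nonneg]
      nlinarith [norm_nonneg w]
    rw [h2] at h1
    simpa [hm0] using h1

end Pool.Agent.MultS

end

section

/-!
MP_b17785_an, item C3: the Julia-Wolff-Caratheodory limit.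
-/

set_option autoImplicit false

open Complex Metric Set Filter Topology MeasureTheory Finset

namespace Pool.Agent.MultS

namespace C3

theorem re_cayley (z : ℂ) : ((1 + z) / (1 - z)).re = (1 - ‖z‖ ^ 2) / ‖1 - z‖ ^ 2 := by
  rw [Complex.div_re, ← Complex.normSq_eq_norm_sq, ← Complex.normSq_eq_norm_sq]
  rw [← add_div]
  congr 1
  simp only [Complex.add_re, Complex.one_re, Complex.sub_re, Complex.add_im, Complex.one_im,
    Complex.sub_im, Complex.normSq_apply]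
  ring

theorem one_sub_ne {z : ℂ} (hz : z ∈ ball (0 : ℂ) 1) : 1 - z ≠ 0 := by
  intro h
  have h1 : z = 1 := (sub_eq_zero.1 h).symm
  rw [h1, mem_ball_zero_iff, norm_one] at hz
  exact lt_irrefl _ hz

/-- The function without its atom at `1`. -/
noncomputable def P1 (P : ℂ → ℂ) (α : ℝ) (z : ℂ) : ℂ := P z - (α : ℂ) * ((1 + z) / (1 - z))

theorem p1_re (P : ℂ → ℂ) (α : ℝ) (z : ℂ) :
    (P1 P α z).re = (P z).re - α * (1 - ‖z‖ ^ 2) / ‖1 - z‖ ^ 2 := by
  unfold P1
  rw [Complex.sub_re, Complex.re_ofReal_mul, re_cayley, mul_div_assoc]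

theorem p1_car {P : ℂ → ℂ} {α : ℝ} (hP : Car P) (hJ : JulIneq P α) : Car (P1 P α) := by
  refine ⟨?_, ?_⟩
  · intro z hz
    have h1 := hP.1 z hz
    refine h1.sub ?_
    have h2 : DifferentiableAt ℂ (fun z : ℂ => (α : ℂ) * ((1 + z) / (1 - z))) z := by
      refine DifferentiableAt.const_mul ?_ _
      exact DifferentiableAt.div (by fun_prop) (by fun_prop) (one_sub_ne hz)
    exact h2.differentiableWithinAt
  · intro z hz
    rw [p1_re]
    have := hJ z hz
    linarith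

theorem real_mem_ball {r : ℝ} (h0 : 0 ≤ r) (h1 : r < 1) : (r : ℂ) ∈ ball (0 : ℂ) 1 := by
  rw [mem_ball_zero_iff, Complex.norm_real, Real.norm_eq_abs, abs_of_nonneg h0]
  exact h1

theorem p1_radial {P : ℂ → ℂ} {α : ℝ} (hL : JulLim P α) :
    Tendsto (fun r : ℝ => (1 - r) * (P1 P α (r : ℂ)).re) (𝓝[<] (1 : ℝ)) (𝓝 0) := by
  have h1 : Tendsto (fun r : ℝ => (1 - r) * (P (r : ℂ)).re - α * (1 + r)) (𝓝[<] (1 : ℝ))
      (𝓝 (2 * α - α * (1 + 1))) := by
    refine Tendsto.sub hL ?_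
    have : Tendsto (fun r : ℝ => α * (1 + r)) (𝓝 (1 : ℝ)) (𝓝 (α * (1 + 1))) := by
      exact Continuous.tendsto (by fun_prop) 1
    exact this.mono_left nhdsWithin_le_nhds
  have h2 : 2 * α - α * (1 + 1) = 0 := by ring
  rw [h2] at h1
  refine h1.congr' ?_
  have h3 : ∀ᶠ r : ℝ in 𝓝[<] (1 : ℝ), 0 < r := by
    have : ∀ᶠ r : ℝ in 𝓝 (1 : ℝ), 0 < r := lt_mem_nhds (by norm_num)
    exact this.filter_mono nhdsWithin_le_nhds
  filter_upwards [h3, self_mem_nhdsWithin] with r hr0 hr1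
  rw [p1_re]
  have hr1' : r < 1 := hr1
  have h4 : ‖(r : ℂ)‖ = r := by
    rw [Complex.norm_real, Real.norm_eq_abs, abs_of_pos hr0]
  have h5 : ‖(1 : ℂ) - (r : ℂ)‖ = 1 - r := by
    rw [← Complex.ofReal_one, ← Complex.ofReal_sub, Complex.norm_real, Real.norm_eq_abs,
      abs_of_pos (by linarith)]
  rw [h4, h5]
  have h6 : (1 - r) ≠ 0 := by linarith
  have h7 : (1 - r) * (α * (1 - r ^ 2) / (1 - r) ^ 2) = α * (1 + r) := by
    rw [show (1 - r ^ 2) = (1 - r) * (1 + r) by ring]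
    field_simp
  rw [mul_sub, h7]

/-- The radial bound for the full modulus. -/
theorem p1_norm {Q : ℂ → ℂ} (har : Har) (hQ : Car Q)
    (hL : Tendsto (fun r : ℝ => (1 - r) * (Q (r : ℂ)).re) (𝓝[<] (1 : ℝ)) (𝓝 0)) :
    Tendsto (fun r : ℝ => (1 - r) * ‖Q (r : ℂ)‖) (𝓝[<] (1 : ℝ)) (𝓝 0) := by
  rw [Metric.tendsto_nhds] at hL ⊢
  intro η' hη'
  obtain ⟨η, hη, hηη⟩ : ∃ η : ℝ, 0 < η ∧ 3 * η < η' := ⟨η' / 4, by linarith, by linarith⟩
  have h1 := hL η hη
  have h0 : ∀ᶠ r : ℝ in 𝓝[<] (1 : ℝ), 0 < r := by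
    have : ∀ᶠ r : ℝ in 𝓝 (1 : ℝ), 0 < r := lt_mem_nhds (by norm_num)
    exact this.filter_mono nhdsWithin_le_nhds
  obtain ⟨t1, ht1, hsub⟩ := (mem_nhdsLT_iff_exists_Ioo_subset).1 (h1.and h0)
  have ht1' : t1 < 1 := ht1
  -- a starting point
  obtain ⟨t0, ht10, ht0⟩ := exists_between ht1'
  have hsmall : ∀ t, t0 ≤ t → t < 1 → (1 - t) * (Q (t : ℂ)).re ≤ η ∧ 0 < t := by
    intro t h2 h3
    have h4 : t ∈ Ioo t1 1 := ⟨by linarith, h3⟩
    obtain ⟨h5, h6⟩ := hsub h4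
    rw [Real.dist_eq, sub_zero] at h5
    exact ⟨(le_abs_self _).trans h5.le, h6⟩
  have ht00 : 0 < t0 := (hsmall t0 le_rfl ht0).2
  have hmain : ∀ r, t0 ≤ r → r < 1 →
      ‖Q (r : ℂ) - Q (t0 : ℂ)‖ ≤ 2 * η / (1 - r) - 2 * η / (1 - t0) := by
    intro r hr0 hr1
    have hder : ∀ t, t0 ≤ t → t < 1 →
        HasDerivAt (fun t : ℝ => Q (t : ℂ) - Q (t0 : ℂ)) (deriv Q (t : ℂ)) t := by
      intro t h2 h3
      have hmem := real_mem_ball (ht00.le.trans h2) h3
      have h4 : HasDerivAt Q (deriv Q (t : ℂ)) (t : ℂ) :=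
        ((hQ.1 _ hmem).differentiableAt (isOpen_ball.mem_nhds hmem)).hasDerivAt
      exact (h4.comp_ofReal).sub_const _
    have hB : ∀ t, t < 1 → HasDerivAt (fun t : ℝ => 2 * η / (1 - t) - 2 * η / (1 - t0))
        (2 * η / (1 - t) ^ 2) t := by
      intro t h3
      have h5 : (1 - t) ≠ 0 := by linarith
      have h6 : HasDerivAt (fun t : ℝ => 1 - t) (-1) t := by
        simpa using (hasDerivAt_id t).const_sub 1
      have h7 := ((hasDerivAt_const t (2 * η)).div h6 h5).sub_const (2 * η / (1 - t0))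
      refine h7.congr_deriv ?_
      rw [zero_mul, zero_sub, mul_neg, mul_one, neg_neg]
    have hkey := image_norm_le_of_norm_deriv_right_le_deriv_boundary'
      (f := fun t : ℝ => Q (t : ℂ) - Q (t0 : ℂ)) (a := t0) (b := r)
      (f' := fun t : ℝ => deriv Q (t : ℂ))
      (B := fun t : ℝ => 2 * η / (1 - t) - 2 * η / (1 - t0))
      (B' := fun t : ℝ => 2 * η / (1 - t) ^ 2)
      (fun t ht => (hder t ht.1 (by linarith [ht.2])).continuousAt.continuousWithinAt)
      (fun t ht => (hder t ht.1 (by linarith [ht.2])).hasDerivWithinAt)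
      (by simp)
      (fun t ht => (hB t (by linarith [ht.2])).continuousAt.continuousWithinAt)
      (fun t ht => (hB t (by linarith [ht.2])).hasDerivWithinAt)
      (fun t ht => by
        have h3 : t < 1 := by linarith [ht.2]
        have h2 : t0 ≤ t := ht.1
        have hmem := real_mem_ball (ht00.le.trans h2) h3
        obtain ⟨-, -, -, h8⟩ := har Q hQ (t : ℂ) hmem (t : ℂ) hmem _ rfl
        obtain ⟨h9, h10⟩ := hsmall t h2 h3
        have h11 : ‖(t : ℂ)‖ = t := by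
          rw [Complex.norm_real, Real.norm_eq_abs, abs_of_pos h10]
        rw [h11] at h8
        have h12 : 0 < 1 - t := by linarith
        rw [le_div_iff₀ (by positivity)]
        have h13 : ‖deriv Q (t : ℂ)‖ * (1 - t) ≤ ‖deriv Q (t : ℂ)‖ * (1 - t ^ 2) := by
          apply mul_le_mul_of_nonneg_left _ (norm_nonneg _)
          nlinarith
        calc ‖deriv Q (t : ℂ)‖ * (1 - t) ^ 2 = (‖deriv Q (t : ℂ)‖ * (1 - t)) * (1 - t) := by ring
          _ ≤ (2 * (Q (t : ℂ)).re) * (1 - t) :=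
              mul_le_mul_of_nonneg_right (h13.trans h8) h12.le
          _ = 2 * ((1 - t) * (Q (t : ℂ)).re) := by ring
          _ ≤ 2 * η := by linarith)
    exact hkey ⟨hr0, le_rfl⟩
  have hlim : ∀ᶠ r : ℝ in 𝓝[<] (1 : ℝ), (1 - r) * ‖Q (t0 : ℂ)‖ < η := by
    have : Tendsto (fun r : ℝ => (1 - r) * ‖Q (t0 : ℂ)‖) (𝓝 (1 : ℝ))
        (𝓝 ((1 - 1) * ‖Q (t0 : ℂ)‖)) := Continuous.tendsto (by fun_prop) 1
    rw [sub_self, zero_mul] at this
    exact (this.eventually (gt_mem_nhds hη)).filter_mono nhdsWithin_le_nhds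
  have ht0m : ∀ᶠ r : ℝ in 𝓝[<] (1 : ℝ), t0 ≤ r := by
    have : ∀ᶠ r : ℝ in 𝓝 (1 : ℝ), t0 ≤ r := le_mem_nhds ht0
    exact this.filter_mono nhdsWithin_le_nhds
  filter_upwards [hlim, ht0m, self_mem_nhdsWithin] with r h2 h3 h4
  have h4' : r < 1 := h4
  have h5 : 0 < 1 - r := by linarith
  have h5' : 0 < 1 - t0 := by linarith
  rw [Real.dist_eq, sub_zero, abs_of_nonneg (by positivity)]
  have h6 := hmain r h3 h4'
  have h7 : ‖Q (r : ℂ)‖ ≤ ‖Q (t0 : ℂ)‖ + 2 * η / (1 - r) := by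
    have h8 : ‖Q (r : ℂ)‖ ≤ ‖Q (t0 : ℂ)‖ + ‖Q (r : ℂ) - Q (t0 : ℂ)‖ := by
      have := norm_add_le (Q (t0 : ℂ)) (Q (r : ℂ) - Q (t0 : ℂ))
      rwa [add_sub_cancel] at this
    have h9 : 0 ≤ 2 * η / (1 - t0) := by positivity
    linarith
  calc (1 - r) * ‖Q (r : ℂ)‖ ≤ (1 - r) * (‖Q (t0 : ℂ)‖ + 2 * η / (1 - r)) :=
        mul_le_mul_of_nonneg_left h7 h5.le
    _ = (1 - r) * ‖Q (t0 : ℂ)‖ + 2 * η := by field_simp
    _ < η + 2 * η := by linarith
    _ < η' := by linarith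

theorem gt_le_ne : 𝓝[>] (0 : ℝ) ≤ 𝓝[≠] (0 : ℝ) :=
  nhdsWithin_mono 0 (fun _ hx => ne_of_gt hx)

/-- `(1 - exp (-(ε a))) / ε → a`. -/
theorem slope_exp (a : ℂ) :
    Tendsto (fun ε : ℝ => (1 - exp (-((ε : ℂ) * a))) / (ε : ℂ)) (𝓝[>] (0 : ℝ)) (𝓝 a) := by
  have h1 : HasDerivAt (fun ε : ℂ => 1 - exp (-(ε * a))) a 0 := by
    have h2 : HasDerivAt (fun ε : ℂ => -(ε * a)) (-(1 * a)) 0 :=
      ((hasDerivAt_id (0 : ℂ)).mul_const a).fun_neg
    have h3 := h2.cexp.const_sub 1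
    refine h3.congr_deriv ?_
    simp
  have h4 : HasDerivAt (fun ε : ℝ => 1 - exp (-((ε : ℂ) * a))) a 0 := by
    have := h1.comp_ofReal (z := 0)
    simpa using this
  have h5 := (hasDerivAt_iff_tendsto_slope_zero.1 h4).mono_left gt_le_ne
  refine h5.congr' ?_
  filter_upwards [self_mem_nhdsWithin] with ε hε
  simp only [zero_add, Complex.ofReal_zero, zero_mul, neg_zero, Complex.exp_zero, sub_self,
    sub_zero]
  rw [Complex.real_smul, Complex.ofReal_inv]
  ring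

end C3

open C3 in
/-- C3: the Julia-Wolff-Caratheodory limit. -/
theorem prfJLim (har : Har) : JLim := by
  intro P α hP hJ hL u hu
  have hQ := p1_car hP hJ
  have hA := p1_norm har hQ (p1_radial hL)
  have hu0 : u ≠ 0 := by
    rintro rfl
    simp at hu
  -- the radius
  have hr : Tendsto (fun ε : ℝ => Real.exp (-ε)) (𝓝[>] (0 : ℝ)) (𝓝[<] (1 : ℝ)) := by
    rw [tendsto_nhdsWithin_iff]
    constructor
    · have : Tendsto (fun ε : ℝ => Real.exp (-ε)) (𝓝 (0 : ℝ)) (𝓝 (Real.exp (-0))) :=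
        Continuous.tendsto (by fun_prop) 0
      rw [neg_zero, Real.exp_zero] at this
      exact this.mono_left nhdsWithin_le_nhds
    · filter_upwards [self_mem_nhdsWithin] with ε hε
      have : (0 : ℝ) < ε := hε
      exact Real.exp_lt_one_iff.2 (by linarith)
  have hA' := hA.comp hr
  -- ε / (1 - exp (-ε)) → 1
  have hs1 : Tendsto (fun ε : ℝ => ε / (1 - Real.exp (-ε))) (𝓝[>] (0 : ℝ)) (𝓝 1) := by
    have h1 : HasDerivAt (fun ε : ℝ => 1 - Real.exp (-ε)) 1 0 := by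
      have h2 := ((hasDerivAt_id (0 : ℝ)).neg.exp).const_sub 1
      simpa using h2
    have h3 := (hasDerivAt_iff_tendsto_slope_zero.1 h1).mono_left gt_le_ne
    have h4 := h3.inv₀ one_ne_zero
    rw [inv_one] at h4
    refine h4.congr' ?_
    filter_upwards [self_mem_nhdsWithin] with ε hε
    simp only [zero_add, neg_zero, Real.exp_zero, sub_self, sub_zero, smul_eq_mul]
    rw [mul_inv, inv_inv]
    rfl
  have hB : Tendsto (fun ε : ℝ => ε * ‖P1 P α ((Real.exp (-ε) : ℝ) : ℂ)‖) (𝓝[>] (0 : ℝ))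
      (𝓝 0) := by
    have h1 := hs1.mul hA'
    rw [one_mul] at h1
    refine h1.congr' ?_
    filter_upwards [self_mem_nhdsWithin] with ε hε
    have h2 : (0 : ℝ) < ε := hε
    have h3 : Real.exp (-ε) < 1 := Real.exp_lt_one_iff.2 (by linarith)
    have h4 : (1 - Real.exp (-ε)) ≠ 0 := by linarith
    simp only [Function.comp]
    field_simp
  -- the pseudo-hyperbolic distance
  set ρ : ℝ → ℝ := fun ε => ‖exp (-((ε : ℂ) * u)) - ((Real.exp (-ε) : ℝ) : ℂ)‖ /
    ‖1 - (starRingEnd ℂ) ((Real.exp (-ε) : ℝ) : ℂ) * exp (-((ε : ℂ) * u))‖ with hρ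
  have hρlim : Tendsto ρ (𝓝[>] (0 : ℝ)) (𝓝 (‖1 - u‖ / ‖1 + u‖)) := by
    have h1 : Tendsto (fun ε : ℝ => ‖(1 - exp (-((ε : ℂ) * 1))) / (ε : ℂ) -
        (1 - exp (-((ε : ℂ) * u))) / (ε : ℂ)‖ / ‖(1 - exp (-((ε : ℂ) * (1 + u)))) / (ε : ℂ)‖)
        (𝓝[>] (0 : ℝ)) (𝓝 (‖1 - u‖ / ‖1 + u‖)) := by
      refine ((slope_exp 1).sub (slope_exp u)).norm.div (slope_exp (1 + u)).norm ?_
      rw [norm_ne_zero_iff]
      intro h
      have h2 := congrArg Complex.re h
      simp at h2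
      linarith
    refine h1.congr' ?_
    filter_upwards [self_mem_nhdsWithin] with ε hε
    have h2 : (0 : ℝ) < ε := hε
    have h3 : (ε : ℂ) ≠ 0 := by exact_mod_cast h2.ne'
    rw [hρ]
    simp only [Complex.conj_ofReal]
    rw [← sub_div, norm_div, norm_div, div_div_div_cancel_right₀ (norm_ne_zero_iff.2 h3)]
    congr 2
    · rw [Complex.ofReal_exp, Complex.ofReal_neg, mul_one]
      ring
    · rw [Complex.ofReal_exp, Complex.ofReal_neg, ← Complex.exp_add]
      congr 2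
      ring
  have hρ1 : ‖1 - u‖ / ‖1 + u‖ < 1 := by
    have h1 : 0 < ‖1 + u‖ := by
      rw [norm_pos_iff]
      intro h
      have h2 := congrArg Complex.re h
      simp at h2
      linarith
    rw [div_lt_one h1]
    rw [← sq_lt_sq₀ (norm_nonneg _) (norm_nonneg _), ← Complex.normSq_eq_norm_sq,
      ← Complex.normSq_eq_norm_sq, Complex.normSq_apply, Complex.normSq_apply]
    simp
    nlinarith
  have hC : Tendsto (fun ε : ℝ => (1 + 2 * ρ ε / (1 - ρ ε)) *
      (ε * ‖P1 P α ((Real.exp (-ε) : ℝ) : ℂ)‖)) (𝓝[>] (0 : ℝ)) (𝓝 0) := by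
    have h1 : Tendsto (fun ε : ℝ => 1 + 2 * ρ ε / (1 - ρ ε)) (𝓝[>] (0 : ℝ))
        (𝓝 (1 + 2 * (‖1 - u‖ / ‖1 + u‖) / (1 - ‖1 - u‖ / ‖1 + u‖))) := by
      refine tendsto_const_nhds.add ((hρlim.const_mul 2).div (hρlim.const_sub 1) ?_)
      linarith
    have h2 := h1.mul hB
    rwa [mul_zero] at h2
  have hD : Tendsto (fun ε : ℝ => (ε : ℂ) * P1 P α (exp (-((ε : ℂ) * u)))) (𝓝[>] (0 : ℝ))
      (𝓝 0) := by
    rw [tendsto_zero_iff_norm_tendsto_zero]
    refine squeeze_zero' (Eventually.of_forall fun ε => norm_nonneg _) ?_ hC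
    filter_upwards [self_mem_nhdsWithin] with ε hε
    have h2 : (0 : ℝ) < ε := hε
    have hz : exp (-((ε : ℂ) * u)) ∈ ball (0 : ℂ) 1 := by
      rw [mem_ball_zero_iff, Complex.norm_exp]
      rw [Real.exp_lt_one_iff]
      simp
      positivity
    have hw : ((Real.exp (-ε) : ℝ) : ℂ) ∈ ball (0 : ℂ) 1 :=
      real_mem_ball (Real.exp_pos _).le (Real.exp_lt_one_iff.2 (by linarith))
    obtain ⟨h3, -, h4, -⟩ := har (P1 P α) hQ _ hz _ hw (ρ ε) rfl
    have hρ0 : 0 ≤ ρ ε := by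
      rw [hρ]
      positivity
    have h5 : 0 < 1 - ρ ε := by linarith
    have h6 : ‖P1 P α (exp (-((ε : ℂ) * u))) - P1 P α ((Real.exp (-ε) : ℝ) : ℂ)‖ ≤
        2 * ρ ε / (1 - ρ ε) * ‖P1 P α ((Real.exp (-ε) : ℝ) : ℂ)‖ := by
      rw [div_mul_eq_mul_div, le_div_iff₀ h5, mul_comm]
      refine h4.trans ?_
      exact mul_le_mul_of_nonneg_left (Complex.re_le_norm _) (by positivity)
    have h7 : ‖P1 P α (exp (-((ε : ℂ) * u)))‖ ≤
        (1 + 2 * ρ ε / (1 - ρ ε)) * ‖P1 P α ((Real.exp (-ε) : ℝ) : ℂ)‖ := by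
      have h8 := norm_add_le (P1 P α (exp (-((ε : ℂ) * u))) - P1 P α ((Real.exp (-ε) : ℝ) : ℂ))
        (P1 P α ((Real.exp (-ε) : ℝ) : ℂ))
      rw [sub_add_cancel] at h8
      linarith
    rw [norm_mul, Complex.norm_real, Real.norm_eq_abs, abs_of_pos h2]
    calc ε * ‖P1 P α (exp (-((ε : ℂ) * u)))‖ ≤
          ε * ((1 + 2 * ρ ε / (1 - ρ ε)) * ‖P1 P α ((Real.exp (-ε) : ℝ) : ℂ)‖) :=
          mul_le_mul_of_nonneg_left h7 h2.le
      _ = _ := by ring
  -- the atom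
  have hE : Tendsto (fun ε : ℝ => (α : ℂ) * ((1 + exp (-((ε : ℂ) * u))) *
      ((1 - exp (-((ε : ℂ) * u))) / (ε : ℂ))⁻¹)) (𝓝[>] (0 : ℝ)) (𝓝 ((α : ℂ) * ((1 + 1) * u⁻¹))) := by
    refine Tendsto.const_mul _ (Tendsto.mul ?_ ((slope_exp u).inv₀ hu0))
    have h1 : Tendsto (fun ε : ℝ => 1 + exp (-((ε : ℂ) * u))) (𝓝 (0 : ℝ))
        (𝓝 (1 + exp (-(((0 : ℝ) : ℂ) * u)))) := Continuous.tendsto (by fun_prop) 0
    rw [Complex.ofReal_zero, zero_mul, neg_zero, Complex.exp_zero] at h1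
    exact h1.mono_left nhdsWithin_le_nhds
  have hF := hD.add hE
  have hlim : (0 : ℂ) + (α : ℂ) * ((1 + 1) * u⁻¹) = 2 * (α : ℂ) / u := by
    rw [zero_add, div_eq_mul_inv]
    ring
  rw [hlim] at hF
  refine hF.congr' ?_
  filter_upwards [self_mem_nhdsWithin] with ε hε
  have h2 : (0 : ℝ) < ε := hε
  have h3 : (ε : ℂ) ≠ 0 := by exact_mod_cast h2.ne'
  unfold P1
  rw [inv_div]
  ring

end Pool.Agent.MultS

end

section

set_option autoImplicit false

open Complex Metric Set Filter Topology Finset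

namespace Pool.Agent.MultS

theorem re_cayley {z : ℂ} (hz : z ∈ ball (0 : ℂ) 1) :
    1 - z ≠ 0 ∧ ((1 + z) / (1 - z)).re = (1 - ‖z‖ ^ 2) / ‖1 - z‖ ^ 2 := by
  have h1 : 1 - z ≠ 0 := by
    intro h
    rw [mem_ball_zero_iff] at hz
    have : z = 1 := by linear_combination -h
    rw [this] at hz
    simp at hz
  refine ⟨h1, ?_⟩
  have hn : (0 : ℝ) < normSq (1 - z) := normSq_pos.mpr h1
  rw [Complex.div_re, ← Complex.normSq_eq_norm_sq, ← Complex.normSq_eq_norm_sq]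
  simp only [Complex.add_re, Complex.one_re, Complex.sub_re, Complex.add_im, Complex.one_im,
    Complex.sub_im, zero_add, zero_sub]
  rw [← add_div]
  congr 1
  rw [Complex.normSq_apply]
  ring

theorem prfJOne (c1 : Har) : JOne := by
  intro P hP hP0 hJ z hz
  obtain ⟨hPd, hPr⟩ := hP
  have hcar : Car (fun z => P z - (1 + z) / (1 - z)) := by
    refine ⟨?_, ?_⟩
    · refine hPd.sub ?_
      refine DifferentiableOn.div (by fun_prop) (by fun_prop) ?_
      intro w hw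
      exact (re_cayley hw).1
    · intro w hw
      rw [Complex.sub_re, (re_cayley hw).2]
      have := hJ w hw
      rw [one_mul] at this
      linarith
  have h0 : (0 : ℂ) ∈ ball (0 : ℂ) 1 := by simp
  obtain ⟨h1, -, h3, -⟩ := c1 _ hcar z hz 0 h0 (‖z - 0‖ / ‖1 - (starRingEnd ℂ) 0 * z‖) rfl
  have e0 : P 0 - (1 + 0) / (1 - 0) = 0 := by simp [hP0]
  rw [e0, Complex.zero_re, mul_zero] at h3
  have h4 : ‖P z - (1 + z) / (1 - z) - 0‖ ≤ 0 := by
    by_contra hc
    push Not at hc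
    have := mul_pos (sub_pos.mpr h1) hc
    linarith
  have h5 := norm_le_zero_iff.mp h4
  rw [sub_zero] at h5
  exact sub_eq_zero.mp h5

end Pool.Agent.MultS

end

section

/-!
# Coefficient multipliers of the class S: compactness (C5)
-/

set_option autoImplicit false

open Complex Metric Set Filter Topology

namespace Pool.Agent.MultS

/-- `(1 - r) / (1 + r) * Re P (r x)` is decreasing in `r`. -/
lemma c5_mono (c1 : Har) {P : ℂ → ℂ} (hP : Car P) {x : ℂ} (hx : ‖x‖ = 1) {r s : ℝ}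
    (hr : 0 ≤ r) (hrs : r ≤ s) (hs : s < 1) :
    (1 + r) * (1 - s) * (P ((s : ℂ) * x)).re ≤ (1 - r) * (1 + s) * (P ((r : ℂ) * x)).re := by
  have hs0 : 0 ≤ s := hr.trans hrs
  have hz : (r : ℂ) * x ∈ ball (0 : ℂ) 1 := by
    rw [mem_ball_zero_iff, norm_mul, hx, mul_one, Complex.norm_real, Real.norm_eq_abs,
      abs_of_nonneg hr]
    linarith
  have hw : (s : ℂ) * x ∈ ball (0 : ℂ) 1 := by
    rw [mem_ball_zero_iff, norm_mul, hx, mul_one, Complex.norm_real, Real.norm_eq_abs,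
      abs_of_nonneg hs0]
    exact hs
  have hxx : (starRingEnd ℂ) x * x = 1 := by
    rw [mul_comm, Complex.mul_conj, Complex.normSq_eq_norm_sq, hx]
    simp
  have h1 : ‖(r : ℂ) * x - (s : ℂ) * x‖ = s - r := by
    have : (r : ℂ) * x - (s : ℂ) * x = ((r - s : ℝ) : ℂ) * x := by push_cast; ring
    rw [this, norm_mul, hx, mul_one, Complex.norm_real, Real.norm_eq_abs, abs_of_nonpos (by linarith)]
    ring
  have hrs1 : r * s < 1 := by nlinarith
  have h2 : ‖1 - (starRingEnd ℂ) ((s : ℂ) * x) * ((r : ℂ) * x)‖ = 1 - r * s := by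
    have : 1 - (starRingEnd ℂ) ((s : ℂ) * x) * ((r : ℂ) * x) = ((1 - r * s : ℝ) : ℂ) := by
      rw [map_mul, Complex.conj_ofReal]
      have : (s : ℂ) * (starRingEnd ℂ) x * ((r : ℂ) * x) =
        (s : ℂ) * (r : ℂ) * ((starRingEnd ℂ) x * x) := by ring
      rw [this, hxx]
      push_cast
      ring
    rw [this, Complex.norm_real, Real.norm_eq_abs, abs_of_nonneg (by linarith)]
  obtain ⟨-, h, -, -⟩ := c1 P hP _ hz _ hw ((s - r) / (1 - r * s)) (by rw [h1, h2])
  have hd : 0 < 1 - r * s := by linarith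
  have e1 : 1 - (s - r) / (1 - r * s) = (1 + r) * (1 - s) / (1 - r * s) := by
    rw [eq_div_iff hd.ne', sub_mul, div_mul_cancel₀ _ hd.ne']; ring
  have e2 : 1 + (s - r) / (1 - r * s) = (1 - r) * (1 + s) / (1 - r * s) := by
    rw [eq_div_iff hd.ne', add_mul, div_mul_cancel₀ _ hd.ne']; ring
  rw [e1, e2, div_mul_eq_mul_div, div_mul_eq_mul_div, div_le_div_iff_of_pos_right hd] at h
  exact h

theorem prfUnif (c1 : Har) : Unif := by
  intro P hP hlim η hη
  have key : ∃ r0 : ℝ, 0 < r0 ∧ r0 < 1 ∧ ∀ y ∈ sphere (0 : ℂ) 1, ∀ r : ℝ, r0 ≤ r → r < 1 →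
      (1 - r) * (P ((r : ℂ) * y)).re ≤ η := by
    refine (isCompact_sphere (0 : ℂ) 1).induction_on
      (p := fun S => ∃ r0 : ℝ, 0 < r0 ∧ r0 < 1 ∧ ∀ y ∈ S, ∀ r : ℝ, r0 ≤ r → r < 1 →
      (1 - r) * (P ((r : ℂ) * y)).re ≤ η) ?_ ?_ ?_ ?_
    · exact ⟨1 / 2, by norm_num, by norm_num, fun y hy => absurd hy (notMem_empty y)⟩
    · rintro s t hst ⟨r0, h0, h1, h⟩
      exact ⟨r0, h0, h1, fun y hy => h y (hst hy)⟩
    · rintro s t ⟨r0, h0, h1, h⟩ ⟨r0', h0', h1', h'⟩
      refine ⟨max r0 r0', lt_max_of_lt_left h0, max_lt h1 h1', ?_⟩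
      rintro y (hy | hy) r hr hr1
      · exact h y hy r ((le_max_left _ _).trans hr) hr1
      · exact h' y hy r ((le_max_right _ _).trans hr) hr1
    · intro x hx
      have hx1 : ‖x‖ = 1 := by simpa using hx
      have e1 : ∀ᶠ r : ℝ in 𝓝[<] (1 : ℝ), (1 - r) * (P ((r : ℂ) * x)).re < η / 2 :=
        (hlim x hx1).eventually (gt_mem_nhds (by linarith))
      have e2 : ∀ᶠ r : ℝ in 𝓝[<] (1 : ℝ), r < 1 := eventually_mem_nhdsWithin
      have e3 : ∀ᶠ r : ℝ in 𝓝[<] (1 : ℝ), 0 < r :=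
        eventually_nhdsWithin_of_eventually_nhds (lt_mem_nhds (by norm_num))
      obtain ⟨r, hr, hr1, hr0⟩ := (e1.and (e2.and e3)).exists
      have hmem : (r : ℂ) * x ∈ ball (0 : ℂ) 1 := by
        rw [mem_ball_zero_iff, norm_mul, hx1, mul_one, Complex.norm_real, Real.norm_eq_abs,
          abs_of_pos hr0]
        exact hr1
      have hc : ContinuousAt P ((r : ℂ) * x) :=
        (hP.1.differentiableAt (isOpen_ball.mem_nhds hmem)).continuousAt
      have hc2 : ContinuousAt (fun y : ℂ => (1 - r) * (P ((r : ℂ) * y)).re) x := by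
        have h3 : ContinuousAt (fun y : ℂ => P ((r : ℂ) * y)) x :=
          ContinuousAt.comp (f := fun y : ℂ => (r : ℂ) * y) (g := P) hc
            (continuousAt_const.mul continuousAt_id)
        exact continuousAt_const.mul (Complex.continuous_re.continuousAt.comp h3)
      have hev : ∀ᶠ y in 𝓝 x, (1 - r) * (P ((r : ℂ) * y)).re < η / 2 :=
        hc2.eventually (gt_mem_nhds hr)
      refine ⟨{y | ‖y‖ = 1 ∧ (1 - r) * (P ((r : ℂ) * y)).re < η / 2}, ?_, r, hr0, hr1, ?_⟩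
      · rw [mem_nhdsWithin_iff_eventually]
        filter_upwards [hev] with y hy hys
        exact ⟨by simpa using hys, hy⟩
      · rintro y ⟨hy1, hy2⟩ s hs hs1
        have hm := c5_mono c1 hP hy1 hr0.le hs hs1
        have hmem' : (s : ℂ) * y ∈ ball (0 : ℂ) 1 := by
          rw [mem_ball_zero_iff, norm_mul, hy1, mul_one, Complex.norm_real, Real.norm_eq_abs,
            abs_of_pos (hr0.trans_le hs)]
          exact hs1
        have hpos := hP.2 _ hmem'
        have h5 : (1 - s) * (P ((s : ℂ) * y)).re ≤ (1 + r) * ((1 - s) * (P ((s : ℂ) * y)).re) := by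
          have : 0 ≤ (1 - s) * (P ((s : ℂ) * y)).re := mul_nonneg (by linarith) hpos
          nlinarith
        have h6 : (1 - r) * (1 + s) * (P ((r : ℂ) * y)).re ≤ (1 + s) * (η / 2) := by
          have := mul_le_mul_of_nonneg_left hy2.le (show (0 : ℝ) ≤ 1 + s by linarith)
          linarith
        nlinarith
  obtain ⟨r0, h0, h1, h⟩ := key
  refine ⟨r0, h0, h1, ?_⟩
  intro z hz hr
  have hz1 : ‖z‖ < 1 := by simpa using hz
  have hzp : 0 < ‖z‖ := h0.trans_le hr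
  have hzn : (‖z‖ : ℂ) ≠ 0 := by exact_mod_cast hzp.ne'
  have := h (z / (‖z‖ : ℂ)) (by simp [hzp.ne']) ‖z‖ hr hz1
  rw [mul_div_cancel₀ z hzn] at this
  rw [le_div_iff₀ (by linarith)]
  linarith

end Pool.Agent.MultS

end

section

/-!
# Coefficient multipliers of the class S: D1, the beta integral representation
-/

set_option autoImplicit false

open Complex Metric Set Filter Topology MeasureTheory Finset

namespace Pool.Agent.MultS

namespace D1

/-- The weight. -/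
noncomputable def wt (q : ℂ) (t : ℝ) : ℂ := (t : ℂ) ^ (-q) * ((1 - t : ℝ) : ℂ) ^ q

theorem mul_pow_eq (q : ℂ) (k : ℕ) {t : ℝ} (ht : t ∈ Ioo (0 : ℝ) 1) :
    (t : ℂ) ^ k * wt q t =
      (t : ℂ) ^ (((k : ℂ) + 1 - q) - 1) * (1 - (t : ℂ)) ^ ((1 + q) - 1) := by
  have h0 : (t : ℂ) ≠ 0 := by exact_mod_cast ht.1.ne'
  have e1 : ((k : ℂ) + 1 - q) - 1 = (k : ℂ) + -q := by ring
  have e2 : (1 + q) - 1 = q := by ring
  unfold wt
  rw [e1, e2, cpow_add _ _ h0, cpow_natCast]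
  push_cast
  ring

theorem integrable_wt (q : ℂ) (h1 : -1 < q.re) (h2 : q.re < 1) (k : ℕ) :
    IntegrableOn (fun t : ℝ => (t : ℂ) ^ k * wt q t) (Ioo 0 1) := by
  have hu : 0 < ((k : ℂ) + 1 - q).re := by
    simp only [sub_re, add_re, natCast_re, one_re]
    have : (0 : ℝ) ≤ k := Nat.cast_nonneg k
    linarith
  have hv : 0 < (1 + q).re := by
    simp only [add_re, one_re]
    linarith
  have h := betaIntegral_convergent hu hv
  rw [intervalIntegrable_iff_integrableOn_Ioo_of_le zero_le_one] at h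
  refine h.congr_fun (fun t ht => ?_) measurableSet_Ioo
  exact (mul_pow_eq q k ht).symm

theorem gamma_prod (q : ℂ) (h2 : q.re < 1) (k : ℕ) :
    Gamma ((k : ℂ) + 1 - q) = Gamma (1 - q) * ∏ i ∈ range k, (1 - q + (i : ℂ)) := by
  induction k with
  | zero => simp
  | succ k ih =>
    have hne : (k : ℂ) + 1 - q ≠ 0 := by
      intro h
      have := congrArg Complex.re h
      simp only [sub_re, add_re, natCast_re, one_re, zero_re] at this
      have hk : (0 : ℝ) ≤ k := Nat.cast_nonneg k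
      linarith
    have e : ((k + 1 : ℕ) : ℂ) + 1 - q = ((k : ℂ) + 1 - q) + 1 := by
      push_cast
      ring
    rw [e, Gamma_add_one _ hne, ih, prod_range_succ]
    ring

theorem integral_wt (q : ℂ) (h1 : -1 < q.re) (h2 : q.re < 1) (k : ℕ) :
    (∫ t in Ioo (0 : ℝ) 1, (t : ℂ) ^ k * wt q t) =
      Gamma (1 - q) * Gamma (1 + q) * (cf q k / ((k : ℂ) + 1)) := by
  have hu : 0 < ((k : ℂ) + 1 - q).re := by
    simp only [sub_re, add_re, natCast_re, one_re]
    have : (0 : ℝ) ≤ k := Nat.cast_nonneg k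
    linarith
  have hv : 0 < (1 + q).re := by
    simp only [add_re, one_re]
    linarith
  have e1 : (∫ t in Ioo (0 : ℝ) 1, (t : ℂ) ^ k * wt q t) =
      betaIntegral ((k : ℂ) + 1 - q) (1 + q) := by
    unfold betaIntegral
    rw [intervalIntegral.integral_of_le zero_le_one, integral_Ioc_eq_integral_Ioo]
    exact setIntegral_congr_fun measurableSet_Ioo fun t ht => mul_pow_eq q k ht
  have e2 := Gamma_mul_Gamma_eq_betaIntegral hu hv
  have e3 : ((k : ℂ) + 1 - q) + (1 + q) = ((k + 1 : ℕ) : ℂ) + 1 := by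
    push_cast
    ring
  rw [e3, Gamma_nat_eq_factorial, gamma_prod q h2 k] at e2
  have hf : (((k + 1).factorial : ℕ) : ℂ) ≠ 0 := by
    exact_mod_cast (Nat.factorial_pos (k + 1)).ne'
  have hf' : ((k.factorial : ℕ) : ℂ) ≠ 0 := by
    exact_mod_cast (Nat.factorial_pos k).ne'
  have hk : (k : ℂ) + 1 ≠ 0 := by exact_mod_cast Nat.succ_ne_zero k
  have hfac : (((k + 1).factorial : ℕ) : ℂ) = ((k : ℂ) + 1) * (k.factorial : ℂ) := by
    rw [Nat.factorial_succ]
    push_cast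
    ring
  rw [e1]
  unfold cf
  have e4 : betaIntegral ((k : ℂ) + 1 - q) (1 + q) =
      (Gamma (1 - q) * ∏ i ∈ range k, (1 - q + (i : ℂ))) * Gamma (1 + q) /
        (((k + 1).factorial : ℕ) : ℂ) := by
    rw [e2]
    field_simp
  rw [e4, hfac]
  field_simp

end D1

open D1 in
/-- [D1] Beta integral representation. -/
theorem prfRep (b1 : Ser) (_b2 : SerJ) : Rep := by
  intro lam h hg q h1 h2 z hz
  obtain ⟨hS, hlam⟩ := hg
  have hd : DifferentiableOn ℂ h (ball 0 1) := hS.1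
  set F : ℕ → ℝ → ℂ := fun k t =>
    (((k : ℂ) + 1) * tc h (k + 1) * z ^ k) * ((t : ℂ) ^ k * wt q t) with hF
  have hFint : ∀ k, Integrable (F k) (volume.restrict (Ioo (0 : ℝ) 1)) := fun k =>
    (integrable_wt q h1 h2 k).const_mul _
  have hw : Integrable (fun t : ℝ => ‖wt q t‖) (volume.restrict (Ioo (0 : ℝ) 1)) := by
    have := (integrable_wt q h1 h2 0).norm
    refine this.congr (Eventually.of_forall fun t => ?_)
    simp
  have hs1 : Summable (fun k : ℕ => ‖((k : ℂ) + 1) * tc h (k + 1) * z ^ k‖) :=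
    (b1 h hd z hz).2.1.summable.norm
  have hle : ∀ k, (∫ t in Ioo (0 : ℝ) 1, ‖F k t‖) ≤
      ‖((k : ℂ) + 1) * tc h (k + 1) * z ^ k‖ * ∫ t in Ioo (0 : ℝ) 1, ‖wt q t‖ := by
    intro k
    rw [← integral_const_mul]
    refine setIntegral_mono_on (hFint k).norm (hw.const_mul _) measurableSet_Ioo fun t ht => ?_
    simp only [hF]
    rw [norm_mul]
    refine mul_le_mul_of_nonneg_left ?_ (norm_nonneg _)
    rw [norm_mul, norm_pow]
    have ht1 : ‖(t : ℂ)‖ ≤ 1 := by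
      rw [norm_real, Real.norm_of_nonneg ht.1.le]
      exact ht.2.le
    calc ‖(t : ℂ)‖ ^ k * ‖wt q t‖ ≤ 1 * ‖wt q t‖ :=
          mul_le_mul_of_nonneg_right (pow_le_one₀ (norm_nonneg _) ht1) (norm_nonneg _)
      _ = ‖wt q t‖ := one_mul _
  have hFsum : Summable fun k => ∫ t in Ioo (0 : ℝ) 1, ‖F k t‖ :=
    Summable.of_nonneg_of_le (fun k => integral_nonneg fun t => norm_nonneg _) hle
      (hs1.mul_right _)
  have hmain := hasSum_integral_of_summable_integral_norm hFint hFsum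
  have hL : ∀ k, (∫ t in Ioo (0 : ℝ) 1, F k t) =
      Gamma (1 - q) * Gamma (1 + q) * (lam (k + 1) * cf q k * z ^ k) := by
    intro k
    simp only [hF]
    rw [integral_const_mul, integral_wt q h1 h2 k, hlam (k + 1) (by omega)]
    have hk : (k : ℂ) + 1 ≠ 0 := by exact_mod_cast Nat.succ_ne_zero k
    field_simp
  have hR : (∫ t in Ioo (0 : ℝ) 1, ∑' k, F k t) =
      ∫ t in Ioo (0 : ℝ) 1, deriv h ((t : ℂ) * z) *
        ((t : ℂ) ^ (-q) * ((1 - t : ℝ) : ℂ) ^ q) := by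
    refine setIntegral_congr_fun measurableSet_Ioo fun t ht => ?_
    have htz : (t : ℂ) * z ∈ ball (0 : ℂ) 1 := by
      rw [mem_ball_zero_iff] at hz ⊢
      rw [norm_mul, norm_real, Real.norm_of_nonneg ht.1.le]
      calc t * ‖z‖ ≤ 1 * ‖z‖ := mul_le_mul_of_nonneg_right ht.2.le (norm_nonneg _)
        _ < 1 := by rwa [one_mul]
    have hsum := ((b1 h hd _ htz).2.1).mul_right (wt q t)
    have e : (fun k : ℕ => ((k : ℂ) + 1) * tc h (k + 1) * ((t : ℂ) * z) ^ k * wt q t) =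
        fun k => F k t := by
      funext k
      simp only [hF, mul_pow]
      ring
    rw [e] at hsum
    exact hsum.tsum_eq
  rw [hR] at hmain
  simp_rw [hL] at hmain
  have hG1 : Gamma (1 - q) ≠ 0 := Gamma_ne_zero_of_re_pos (by
    simp only [sub_re, one_re]
    linarith)
  have hG2 : Gamma (1 + q) ≠ 0 := Gamma_ne_zero_of_re_pos (by
    simp only [add_re, one_re]
    linarith)
  have hG : Gamma (1 - q) * Gamma (1 + q) ≠ 0 := mul_ne_zero hG1 hG2
  have h3 := hmain.mul_left (Gamma (1 - q) * Gamma (1 + q))⁻¹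
  have h4 : HasSum (fun k : ℕ => lam (k + 1) * cf q k * z ^ k)
      ((Gamma (1 - q) * Gamma (1 + q))⁻¹ *
        ∫ t in Ioo (0 : ℝ) 1, deriv h ((t : ℂ) * z) *
          ((t : ℂ) ^ (-q) * ((1 - t : ℝ) : ℂ) ^ q)) := by
    refine h3.congr_fun ?_
    intro k
    rw [← mul_assoc, inv_mul_cancel₀ hG, one_mul]
  exact h4.tsum_eq

end Pool.Agent.MultS

end

section

set_option autoImplicit false

open Complex Metric Set Filter Topology MeasureTheory Finset

namespace Pool.Agent.MultS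

theorem image_exp_neg_Ioi : (fun x : ℝ => Real.exp (-x)) '' Set.Ioi 0 = Set.Ioo 0 1 := by
  ext t
  constructor
  · rintro ⟨x, hx, rfl⟩
    refine ⟨Real.exp_pos _, ?_⟩
    have : (0 : ℝ) < x := hx
    simpa using this
  · rintro ⟨h0, h1⟩
    refine ⟨-Real.log t, ?_, ?_⟩
    · have := Real.log_neg h0 h1
      simpa using this
    · simp [Real.exp_log h0]

theorem cpow_identity (q : ℂ) (x : ℝ) (hx : 0 < x) :
    ((Real.exp (-x) : ℝ) : ℂ) ^ (-q) * ((1 - Real.exp (-x) : ℝ) : ℂ) ^ q =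
      ((Real.exp x - 1 : ℝ) : ℂ) ^ q := by
  have h1 : ((Real.exp (-x) : ℝ) : ℂ) ^ (-q) = ((Real.exp x : ℝ) : ℂ) ^ q := by
    rw [Real.exp_neg, ofReal_inv, Complex.cpow_neg, Complex.inv_cpow, inv_inv]
    rw [Complex.arg_ofReal_of_nonneg (Real.exp_pos x).le]
    exact Real.pi_pos.ne
  have h2 : (0 : ℝ) ≤ 1 - Real.exp (-x) := by
    have : Real.exp (-x) < 1 := by simpa using hx
    linarith
  rw [h1, ← Complex.mul_cpow_ofReal_nonneg (Real.exp_pos x).le h2, ← ofReal_mul]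
  congr 2
  rw [mul_sub, ← Real.exp_add]
  simp

theorem prfRepX (d1 : Rep) : RepX := by
  intro lam h hG q hq1 hq2 z hz
  rw [d1 lam h hG q hq1 hq2 z hz]
  have hcv := integral_image_eq_integral_abs_deriv_smul (f := fun x : ℝ => Real.exp (-x))
    (f' := fun x : ℝ => -Real.exp (-x)) (s := Ioi (0 : ℝ)) measurableSet_Ioi
    (fun x _ => by
      have := ((hasDerivAt_id x).neg.exp).hasDerivWithinAt (s := Ioi (0 : ℝ))
      simpa using this)
    (fun x _ y _ hxy => by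
      have : -x = -y := Real.exp_injective hxy
      linarith)
    (fun t : ℝ => deriv h ((t : ℂ) * z) * ((t : ℂ) ^ (-q) * ((1 - t : ℝ) : ℂ) ^ q))
  rw [image_exp_neg_Ioi] at hcv
  rw [hcv, mul_left_comm, ← integral_const_mul]
  congr 1
  apply setIntegral_congr_fun measurableSet_Ioi
  intro x hx
  have hx0 : (0 : ℝ) < x := hx
  simp only [abs_neg, abs_of_pos (Real.exp_pos (-x)), real_smul, FF]
  rw [cpow_identity q x hx0]
  ring

end Pool.Agent.MultS

end

section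

/-!
# Coefficient multipliers of the class S: item D3, a beta type integral
-/

set_option autoImplicit false

open Complex Metric Set Filter Topology MeasureTheory Finset

namespace Pool.Agent.MultS

namespace D3

theorem intE (p b : ℝ) (hp : -1 < p) (hb : 0 < b) :
    IntegrableOn (fun s : ℝ => s ^ p * Real.exp (-b * s)) (Ioi 0) := by
  have h := integrableOn_rpow_mul_exp_neg_mul_rpow (p := 1) hp one_pos hb
  simpa only [Real.rpow_one] using h

theorem norm_ker (c r : ℂ) (s : ℝ) (hs : 0 < s) :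
    ‖(s : ℂ) ^ c * exp (-(r * s))‖ = s ^ c.re * Real.exp (-r.re * s) := by
  rw [norm_mul, norm_cpow_eq_rpow_re_of_pos hs, norm_exp]
  congr 2
  simp

theorem meas_ker (c r : ℂ) : Measurable fun s : ℝ => (s : ℂ) ^ c * exp (-(r * s)) := by
  have h1 : Measurable fun s : ℝ => (s : ℂ) ^ c := measurable_ofReal.pow_const c
  exact h1.mul (by fun_prop)

theorem int_ker (c r : ℂ) (hc : -1 < c.re) (hr : 0 < r.re) :
    IntegrableOn (fun s : ℝ => (s : ℂ) ^ c * exp (-(r * s))) (Ioi 0) := by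
  refine (integrable_norm_iff (meas_ker c r).aestronglyMeasurable).1 ?_
  refine (integrableOn_congr_fun (fun s hs => ?_) measurableSet_Ioi).2 (intE c.re r.re hc hr)
  exact norm_ker c r s hs

theorem diff_I (a r0 : ℂ) (ha : 0 < a.re) (hr : 0 < r0.re) :
    DifferentiableAt ℂ (fun r : ℂ => ∫ s in Ioi (0 : ℝ), (s : ℂ) ^ (a - 1) * exp (-(r * s)))
      r0 := by
  have hb : 0 < r0.re / 2 := by positivity
  have hp : -1 < a.re := by linarith
  have h := hasDerivAt_integral_of_dominated_loc_of_deriv_le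
    (μ := volume.restrict (Ioi (0 : ℝ)))
    (F := fun (r : ℂ) (s : ℝ) => (s : ℂ) ^ (a - 1) * exp (-(r * s)))
    (F' := fun (r : ℂ) (s : ℝ) => (s : ℂ) ^ (a - 1) * (exp (-(r * s)) * (-(s : ℂ))))
    (bound := fun s : ℝ => s ^ a.re * Real.exp (-(r0.re / 2) * s))
    (ball_mem_nhds r0 hb) ?_ ?_ ?_ ?_ ?_ ?_
  · exact h.2.differentiableAt
  · exact Eventually.of_forall fun r => (meas_ker (a - 1) r).aestronglyMeasurable
  · refine int_ker (a - 1) r0 ?_ hr
    rw [sub_re, one_re]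
    linarith
  · have h1 : Measurable fun s : ℝ => (s : ℂ) ^ (a - 1) := measurable_ofReal.pow_const (a - 1)
    exact (h1.mul (by fun_prop)).aestronglyMeasurable
  · refine (ae_restrict_mem measurableSet_Ioi).mono fun s hs r hr' => ?_
    have hs' : (0 : ℝ) < s := hs
    have h1 : ‖(s : ℂ) ^ (a - 1) * (exp (-(r * s)) * (-(s : ℂ)))‖ =
        s ^ a.re * Real.exp (-r.re * s) := by
      rw [← mul_assoc, norm_mul, norm_ker _ _ s hs', norm_neg, norm_real,
        Real.norm_of_nonneg hs'.le, sub_re, one_re, Real.rpow_sub hs', Real.rpow_one]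
      field_simp
    rw [h1]
    refine mul_le_mul_of_nonneg_left (Real.exp_le_exp.2 ?_) (by positivity)
    have h2 : r0.re / 2 ≤ r.re := by
      have h3 : |(r - r0).re| < r0.re / 2 := by
        refine (abs_re_le_norm _).trans_lt ?_
        rw [← dist_eq_norm]
        exact hr'
      rw [sub_re] at h3
      linarith [(abs_lt.1 h3).1]
    nlinarith
  · exact intE a.re (r0.re / 2) hp hb
  · refine Eventually.of_forall fun s r _ => ?_
    have h1 : HasDerivAt (fun r : ℂ => -(r * s)) (-(s : ℂ)) r := by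
      have := (hasDerivAt_id r).mul_const (s : ℂ)
      rw [one_mul] at this
      exact this.neg
    exact (h1.cexp).const_mul _

theorem gam (a r : ℂ) (ha : 0 < a.re) (hr : 0 < r.re) :
    ∫ s in Ioi (0 : ℝ), (s : ℂ) ^ (a - 1) * exp (-(r * s)) = (1 / r) ^ a * Gamma a := by
  have hU : IsOpen {z : ℂ | 0 < z.re} := isOpen_lt continuous_const continuous_re
  have hconv : Convex ℝ {z : ℂ | 0 < z.re} := convex_halfSpace_re_gt 0
  have hf : AnalyticOnNhd ℂ
      (fun r : ℂ => ∫ s in Ioi (0 : ℝ), (s : ℂ) ^ (a - 1) * exp (-(r * s))) {z : ℂ | 0 < z.re} :=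
    DifferentiableOn.analyticOnNhd
      (fun z hz => (diff_I a z ha hz).differentiableWithinAt) hU
  have hg : AnalyticOnNhd ℂ (fun r : ℂ => (1 / r) ^ a * Gamma a) {z : ℂ | 0 < z.re} := by
    refine DifferentiableOn.analyticOnNhd (fun z hz => ?_) hU
    have hz' : 0 < z.re := hz
    have hz0 : z ≠ 0 := by
      rintro rfl
      simp at hz'
    refine (((differentiableAt_const (1 : ℂ)).div differentiableAt_id hz0).cpow_const
      (c := a) ?_).mul_const _ |>.differentiableWithinAt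
    left
    show 0 < ((1 : ℂ) / z).re
    rw [one_div, inv_re]
    exact div_pos hz' (normSq_pos.2 hz0)
  have hfreq : ∃ᶠ z in 𝓝[≠] (1 : ℂ),
      (∫ s in Ioi (0 : ℝ), (s : ℂ) ^ (a - 1) * exp (-(z * s))) = (1 / z) ^ a * Gamma a := by
    have ht : Tendsto (fun n : ℕ => ((1 + 1 / ((n : ℝ) + 1) : ℝ) : ℂ)) atTop (𝓝[≠] (1 : ℂ)) := by
      refine tendsto_nhdsWithin_iff.2 ⟨?_, Eventually.of_forall fun n => ?_⟩
      · have h1 : Tendsto (fun n : ℕ => (1 : ℝ) + 1 / ((n : ℝ) + 1)) atTop (𝓝 (1 + 0)) :=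
          tendsto_const_nhds.add tendsto_one_div_add_atTop_nhds_zero_nat
        rw [add_zero] at h1
        exact (continuous_ofReal.tendsto (1 : ℝ)).comp h1
      · intro h1
        have h2 : ((1 + 1 / ((n : ℝ) + 1) : ℝ) : ℂ) = ((1 : ℝ) : ℂ) := by
          rw [ofReal_one]
          exact h1
        have h3 := ofReal_injective h2
        have h4 : (0 : ℝ) < 1 / ((n : ℝ) + 1) := by positivity
        linarith
    refine ht.frequently (Eventually.frequently (Eventually.of_forall fun n => ?_))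
    have hpos : (0 : ℝ) < 1 + 1 / ((n : ℝ) + 1) := by positivity
    exact integral_cpow_mul_exp_neg_mul_Ioi ha hpos
  exact hf.eqOn_of_preconnected_of_frequently_eq hg hconv.isPreconnected
    (show (1 : ℂ) ∈ {z : ℂ | 0 < z.re} by simp) hfreq hr

theorem one_div_cpow (u c : ℂ) (hu : 0 < u.re) : (1 / u) ^ c = u ^ (-c) := by
  have h1 : arg u ≠ Real.pi := by
    intro h
    rw [arg_eq_pi_iff] at h
    linarith [h.1]
  rw [one_div, inv_cpow _ _ h1, cpow_neg]

end D3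

open D3

theorem prfBeta : Beta := by
  intro α q u hq1 hq2 hu
  have hα : 0 < α := by linarith
  set a : ℂ := 2 * (α : ℂ) with ha
  have hare : a.re = 2 * α := by
    rw [ha]
    simp
  have ha0 : 0 < a.re := by rw [hare]; linarith
  have hΓ : Gamma a ≠ 0 := Gamma_ne_zero_of_re_pos ha0
  set μ : Measure ℝ := volume.restrict (Ioi 0) with hμ
  -- the kernel
  set g : ℝ × ℝ → ℂ := fun p => (p.1 : ℂ) ^ (a - 1) * exp (-((u + p.2) * p.1)) * (p.2 : ℂ) ^ q
    with hg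
  have hgm : Measurable g := by
    have h1 : Measurable fun p : ℝ × ℝ => (p.1 : ℂ) ^ (a - 1) :=
      (measurable_ofReal.comp measurable_fst).pow_const _
    have h2 : Measurable fun p : ℝ × ℝ => (p.2 : ℂ) ^ q :=
      (measurable_ofReal.comp measurable_snd).pow_const _
    exact (h1.mul (by fun_prop)).mul h2
  have hsplit : ∀ s τ : ℝ, g (s, τ) = ((s : ℂ) ^ (a - 1) * exp (-(u * s))) *
      ((τ : ℂ) ^ q * exp (-((s : ℂ) * τ))) := by
    intro s τ
    show (s : ℂ) ^ (a - 1) * exp (-((u + τ) * s)) * (τ : ℂ) ^ q = _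
    rw [show -((u + τ) * s) = -(u * s) + -((s : ℂ) * τ) by ring, exp_add]
    ring
  have hΓq : ∀ s : ℝ, 0 < s → ∫ τ in Ioi (0 : ℝ), (τ : ℂ) ^ q * exp (-((s : ℂ) * τ)) =
      (1 / (s : ℂ)) ^ (1 + q) * Gamma (1 + q) := by
    intro s hs
    have h := gam (1 + q) (s : ℂ) (by rw [add_re, one_re]; linarith) (by rw [ofReal_re]; exact hs)
    rwa [add_sub_cancel_left] at h
  have hnorm : ∀ s : ℝ, 0 < s → ∫ τ, ‖g (s, τ)‖ ∂μ =
      s ^ (2 * α - 2 - q.re) * Real.exp (-u.re * s) * Real.Gamma (1 + q.re) := by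
    intro s hs
    have h1 : ∫ τ, ‖g (s, τ)‖ ∂μ = ∫ τ in Ioi (0 : ℝ),
        (s ^ (2 * α - 1) * Real.exp (-u.re * s)) *
          (τ ^ (1 + q.re - 1) * Real.exp (-(s * τ))) := by
      refine setIntegral_congr_fun measurableSet_Ioi fun τ hτ => ?_
      have hτ' : (0 : ℝ) < τ := hτ
      show ‖g (s, τ)‖ = _
      rw [hsplit, norm_mul, norm_ker _ _ s hs, norm_ker _ _ τ hτ', sub_re, one_re, hare,
        ofReal_re, add_sub_cancel_left, neg_mul s τ]
    rw [h1, integral_const_mul, Real.integral_rpow_mul_exp_neg_mul_Ioi (by linarith) hs]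
    have h2 : (1 / s) ^ (1 + q.re) = (s ^ (1 + q.re))⁻¹ := by
      rw [one_div, Real.inv_rpow hs.le]
    have h3 : s ^ (2 * α - 2 - q.re) = s ^ (2 * α - 1) * (s ^ (1 + q.re))⁻¹ := by
      rw [← Real.rpow_neg hs.le, ← Real.rpow_add hs]
      congr 1
      ring
    rw [h2, h3]
    ring
  have hint : Integrable g (μ.prod μ) := by
    refine (integrable_prod_iff hgm.aestronglyMeasurable).2 ⟨?_, ?_⟩
    · refine (ae_restrict_mem measurableSet_Ioi).mono fun s hs => ?_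
      have hs' : (0 : ℝ) < s := hs
      have h1 := (int_ker q (s : ℂ) hq1 (by rw [ofReal_re]; exact hs')).const_mul
        ((s : ℂ) ^ (a - 1) * exp (-(u * s)))
      exact h1.congr (Eventually.of_forall fun τ => (hsplit s τ).symm)
    · have h1 := (intE (2 * α - 2 - q.re) u.re (by linarith) hu).mul_const
        (Real.Gamma (1 + q.re))
      refine Integrable.congr h1 ?_
      refine (ae_restrict_mem measurableSet_Ioi).mono fun s hs => ?_
      exact (hnorm s hs).symm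
  have hinner : ∀ τ : ℝ, 0 < τ → ∫ s, g (s, τ) ∂μ =
      Gamma a * ((u + (τ : ℂ)) ^ (-a) * (τ : ℂ) ^ q) := by
    intro τ hτ
    have hre : 0 < (u + (τ : ℂ)).re := by
      rw [add_re, ofReal_re]
      linarith
    have h1 : ∫ s, g (s, τ) ∂μ = (∫ s in Ioi (0 : ℝ), (s : ℂ) ^ (a - 1) *
        exp (-((u + τ) * s))) * (τ : ℂ) ^ q := by
      rw [← integral_mul_const]
    rw [h1, gam a (u + τ) ha0 hre, one_div_cpow _ _ hre]
    ring
  have hleft := hint.integral_prod_right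
  have hI : IntegrableOn (fun τ : ℝ => (u + (τ : ℂ)) ^ (-a) * (τ : ℂ) ^ q) (Ioi 0) := by
    have h1 : Integrable (fun τ : ℝ => (Gamma a)⁻¹ * ∫ s, g (s, τ) ∂μ) μ :=
      hleft.const_mul _
    refine Integrable.congr h1 ?_
    refine (ae_restrict_mem measurableSet_Ioi).mono fun τ hτ => ?_
    show (Gamma a)⁻¹ * ∫ s, g (s, τ) ∂μ = _
    rw [hinner τ hτ, ← mul_assoc, inv_mul_cancel₀ hΓ, one_mul]
  refine ⟨hI, ?_⟩
  -- the value
  have hswap : ∫ τ, ∫ s, g (s, τ) ∂μ ∂μ = ∫ s, ∫ τ, g (s, τ) ∂μ ∂μ :=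
    (integral_integral_swap (f := fun s τ => g (s, τ)) hint).symm
  have hl : ∫ τ, ∫ s, g (s, τ) ∂μ ∂μ =
      Gamma a * ∫ τ in Ioi (0 : ℝ), (u + (τ : ℂ)) ^ (-a) * (τ : ℂ) ^ q := by
    rw [← integral_const_mul]
    exact setIntegral_congr_fun measurableSet_Ioi fun τ hτ => hinner τ hτ
  have hr : ∫ s, ∫ τ, g (s, τ) ∂μ ∂μ =
      Gamma (1 + q) * (u ^ (-(a - 1 - q)) * Gamma (a - 1 - q)) := by
    have h1 : ∫ s, ∫ τ, g (s, τ) ∂μ ∂μ = ∫ s in Ioi (0 : ℝ),
        Gamma (1 + q) * ((s : ℂ) ^ (a - 1 - q - 1) * exp (-(u * s))) := by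
      refine setIntegral_congr_fun measurableSet_Ioi fun s hs => ?_
      have hs' : (0 : ℝ) < s := hs
      have hsne : (s : ℂ) ≠ 0 := by exact_mod_cast hs'.ne'
      show ∫ τ, g (s, τ) ∂μ = _
      have h2 : ∫ τ, g (s, τ) ∂μ = ((s : ℂ) ^ (a - 1) * exp (-(u * s))) *
          ∫ τ in Ioi (0 : ℝ), (τ : ℂ) ^ q * exp (-((s : ℂ) * τ)) := by
        rw [← integral_const_mul]
        exact setIntegral_congr_fun measurableSet_Ioi fun τ _ => hsplit s τ
      rw [h2, hΓq s hs', one_div_cpow _ _ (by rw [ofReal_re]; exact hs')]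
      have h3 : (s : ℂ) ^ (a - 1 - q - 1) = (s : ℂ) ^ (a - 1) * (s : ℂ) ^ (-(1 + q)) := by
        rw [← cpow_add _ _ hsne]
        congr 1
        ring
      rw [h3]
      ring
    rw [h1, integral_const_mul, gam (a - 1 - q) u (by
      rw [sub_re, sub_re, one_re, hare]
      linarith) hu, one_div_cpow _ _ hu]
  have hfin : Gamma a * ∫ τ in Ioi (0 : ℝ), (u + (τ : ℂ)) ^ (-a) * (τ : ℂ) ^ q =
      Gamma (1 + q) * (u ^ (-(a - 1 - q)) * Gamma (a - 1 - q)) := by
    rw [← hl, hswap, hr]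
  have hexp : -(a - 1 - q) = q + 1 - a := by ring
  rw [hexp] at hfin
  rw [div_mul_eq_mul_div, eq_div_iff hΓ, mul_comm _ (Gamma a), hfin]
  ring

end Pool.Agent.MultS

end

section

/-!
# [D6] The blow-up of `J(q, ·)`
-/

set_option autoImplicit false

open Complex Metric Set Filter Topology MeasureTheory Finset

namespace Pool.Agent.MultS

namespace D6

lemma norm_one_sub_exp_le (w : ℂ) (hw : 0 ≤ w.re) : ‖1 - exp (-w)‖ ≤ ‖w‖ := by
  have hconv : Convex ℝ {z : ℂ | 0 ≤ z.re} := convex_halfSpace_re_ge 0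
  have h := hconv.norm_image_sub_le_of_norm_hasDerivWithin_le (f := fun z : ℂ => exp (-z))
    (f' := fun z : ℂ => -exp (-z)) (C := 1) (x := w) (y := 0)
    (fun x _ => by
      have h1 : HasDerivAt (fun z : ℂ => exp (-z)) (exp (-x) * (-1)) x :=
        (hasDerivAt_neg x).cexp
      have h2 : exp (-x) * (-1) = -exp (-x) := by ring
      rw [h2] at h1
      exact h1.hasDerivWithinAt)
    (fun x hx => by
      rw [norm_neg, Complex.norm_exp, Complex.neg_re]
      have hx' : 0 ≤ x.re := hx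
      calc Real.exp (-x.re) ≤ Real.exp 0 := Real.exp_le_exp.mpr (by linarith)
        _ = 1 := Real.exp_zero)
    (by simpa using hw) (by simp)
  simpa using h

lemma exp_mem_ball (ε : ℝ) (hε : 0 < ε) (u : ℂ) (hu : 0 < u.re) :
    exp (-((ε : ℂ) * u)) ∈ ball (0 : ℂ) 1 := by
  rw [mem_ball_zero_iff, Complex.norm_exp]
  have : (-((ε : ℂ) * u)).re = -(ε * u.re) := by simp
  rw [this]
  have : 0 < ε * u.re := mul_pos hε hu
  calc Real.exp (-(ε * u.re)) < Real.exp 0 := Real.exp_lt_exp.mpr (by linarith)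
    _ = 1 := Real.exp_zero

/-- The integrand after the substitution `x = ε τ`. -/
noncomputable def Ig (h : ℂ → ℂ) (q : ℂ) (ε : ℝ) (u : ℂ) (τ : ℝ) : ℂ :=
  FF h (exp (-((ε : ℂ) * (u + (τ : ℂ))))) / FF h (exp (-(ε : ℂ))) *
    (((Real.exp (ε * τ) - 1) / ε : ℝ) : ℂ) ^ q

lemma formula (rx : RepX) (lam : ℕ → ℂ) (h : ℂ → ℂ) (hG : Gen lam h) (q : ℂ)
    (hq1 : -1 < q.re) (hq2 : q.re ≤ 0) (ε : ℝ) (hε : 0 < ε) (u : ℂ) (hu : 0 < u.re) :
    exp (-((ε : ℂ) * u)) * JJ lam q (exp (-((ε : ℂ) * u))) /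
      ((ε : ℂ) ^ (1 + q) * FF h (exp (-(ε : ℂ)))) =
    (Gamma (1 - q) * Gamma (1 + q))⁻¹ * ∫ τ in Ioi (0 : ℝ), Ig h q ε u τ := by
  have hεC : (ε : ℂ) ≠ 0 := by exact_mod_cast hε.ne'
  rw [rx lam h hG q hq1 (by linarith) _ (exp_mem_ball ε hε u hu), mul_div_assoc]
  congr 1
  set z := exp (-((ε : ℂ) * u)) with hz
  have hsub := integral_comp_mul_left_Ioi (fun x : ℝ =>
    FF h (((Real.exp (-x) : ℝ) : ℂ) * z) * ((Real.exp x - 1 : ℝ) : ℂ) ^ q) 0 hε
  rw [mul_zero] at hsub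
  have hsub2 : ∫ x in Ioi (0 : ℝ), FF h (((Real.exp (-x) : ℝ) : ℂ) * z) *
      ((Real.exp x - 1 : ℝ) : ℂ) ^ q = (ε : ℂ) * ∫ x in Ioi (0 : ℝ),
        FF h (((Real.exp (-(ε * x)) : ℝ) : ℂ) * z) * ((Real.exp (ε * x) - 1 : ℝ) : ℂ) ^ q := by
    rw [hsub]
    rw [Complex.real_smul, ← mul_assoc]
    push_cast
    rw [mul_inv_cancel₀ hεC, one_mul]
  rw [hsub2, div_eq_mul_inv, ← integral_const_mul, ← integral_mul_const]
  apply setIntegral_congr_fun measurableSet_Ioi
  intro τ hτ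
  have hτ0 : 0 < τ := hτ
  have hpos : 0 < Real.exp (ε * τ) - 1 := by
    have := Real.add_one_lt_exp (mul_pos hε hτ0).ne'
    have h2 := mul_pos hε hτ0
    linarith
  have e1 : ((Real.exp (-(ε * τ)) : ℝ) : ℂ) * z = exp (-((ε : ℂ) * (u + (τ : ℂ)))) := by
    rw [hz, Complex.ofReal_exp, ← Complex.exp_add]
    congr 1
    push_cast
    ring
  have e2 : ((Real.exp (ε * τ) - 1 : ℝ) : ℂ) ^ q =
      (ε : ℂ) ^ q * (((Real.exp (ε * τ) - 1) / ε : ℝ) : ℂ) ^ q := by
    rw [← Complex.mul_cpow_ofReal_nonneg hε.le (div_nonneg hpos.le hε.le)]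
    congr 1
    rw [← Complex.ofReal_mul, mul_div_cancel₀ _ hε.ne']
  have e3 : (ε : ℂ) ^ (1 + q) = (ε : ℂ) * (ε : ℂ) ^ q := by
    rw [Complex.cpow_add _ _ hεC, Complex.cpow_one]
  have e4 : (ε : ℂ) ^ q ≠ 0 := by
    rw [Ne, Complex.cpow_eq_zero_iff]
    tauto
  simp only [Ig]
  rw [e1, e2, e3]
  rw [mul_inv]
  field_simp

lemma bound_pt (h : ℂ → ℂ) (α : ℝ) (hα : 0 < α) (q : ℂ) (hq2 : q.re ≤ 0) (C C' : ℝ)
    (hC : ∀ z ∈ ball (0 : ℂ) 1, ∀ x : ℝ, 0 ≤ x →
      ‖FF h (((Real.exp (-x) : ℝ) : ℂ) * z)‖ ≤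
        C * ‖FF h z‖ * (1 + x / ‖1 - z‖) ^ (-(2 * α)))
    (ε : ℝ) (hε : 0 < ε) (u : ℂ) (hu : 0 < u.re) (R : ℝ) (hR : ‖u‖ ≤ R)
    (hC' : ‖FF h (exp (-((ε : ℂ) * u)))‖ ≤ C' * ‖FF h (exp (-(ε : ℂ)))‖)
    (τ : ℝ) (hτ : 0 < τ) :
    ‖Ig h q ε u τ‖ ≤ |C| * |C'| * ((1 + τ / R) ^ (-(2 * α)) * τ ^ q.re) := by
  have hu0 : 0 < ‖u‖ := by
    rw [norm_pos_iff]
    rintro rfl
    simp at hu
  have hR0 : 0 < R := lt_of_lt_of_le hu0 hR
  have hzb := exp_mem_ball ε hε u hu
  have hετ : 0 < ε * τ := mul_pos hε hτ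
  have h1 := hC _ hzb (ε * τ) hετ.le
  have e1 : ((Real.exp (-(ε * τ)) : ℝ) : ℂ) * exp (-((ε : ℂ) * u)) =
      exp (-((ε : ℂ) * (u + (τ : ℂ)))) := by
    rw [Complex.ofReal_exp, ← Complex.exp_add]
    congr 1
    push_cast
    ring
  rw [e1] at h1
  have hn1 : ‖1 - exp (-((ε : ℂ) * u))‖ ≤ ε * R := by
    have h2 := norm_one_sub_exp_le ((ε : ℂ) * u) (by simp; positivity)
    rw [norm_mul, Complex.norm_real, Real.norm_eq_abs, abs_of_pos hε] at h2
    exact h2.trans (mul_le_mul_of_nonneg_left hR hε.le)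
  have hn0 : 0 < ‖1 - exp (-((ε : ℂ) * u))‖ := by
    rw [norm_pos_iff, sub_ne_zero]
    intro h3
    rw [← h3] at hzb
    simp at hzb
  have hquot : τ / R ≤ ε * τ / ‖1 - exp (-((ε : ℂ) * u))‖ := by
    rw [div_le_div_iff₀ hR0 hn0]
    calc τ * ‖1 - exp (-((ε : ℂ) * u))‖ ≤ τ * (ε * R) := mul_le_mul_of_nonneg_left hn1 hτ.le
      _ = ε * τ * R := by ring
  have hpow : (1 + ε * τ / ‖1 - exp (-((ε : ℂ) * u))‖) ^ (-(2 * α)) ≤
      (1 + τ / R) ^ (-(2 * α)) := by
    apply Real.rpow_le_rpow_of_nonpos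
    · positivity
    · linarith
    · linarith
  have hpos0 : 0 ≤ (1 + ε * τ / ‖1 - exp (-((ε : ℂ) * u))‖) ^ (-(2 * α)) := by positivity
  have hF : ‖FF h (exp (-((ε : ℂ) * (u + (τ : ℂ)))))‖ ≤
      |C| * |C'| * ‖FF h (exp (-(ε : ℂ)))‖ * (1 + τ / R) ^ (-(2 * α)) := by
    calc ‖FF h (exp (-((ε : ℂ) * (u + (τ : ℂ)))))‖
        ≤ C * ‖FF h (exp (-((ε : ℂ) * u)))‖ *
          (1 + ε * τ / ‖1 - exp (-((ε : ℂ) * u))‖) ^ (-(2 * α)) := h1
      _ ≤ |C| * (|C'| * ‖FF h (exp (-(ε : ℂ)))‖) *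
          (1 + ε * τ / ‖1 - exp (-((ε : ℂ) * u))‖) ^ (-(2 * α)) := by
          apply mul_le_mul_of_nonneg_right _ hpos0
          apply mul_le_mul (le_abs_self C) _ (norm_nonneg _) (abs_nonneg C)
          exact hC'.trans (mul_le_mul_of_nonneg_right (le_abs_self C') (norm_nonneg _))
      _ ≤ |C| * (|C'| * ‖FF h (exp (-(ε : ℂ)))‖) * (1 + τ / R) ^ (-(2 * α)) := by
          apply mul_le_mul_of_nonneg_left hpow
          positivity
      _ = _ := by ring
  have hge : τ ≤ (Real.exp (ε * τ) - 1) / ε := by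
    rw [le_div_iff₀ hε]
    have := Real.add_one_le_exp (ε * τ)
    linarith [mul_comm τ ε]
  have hq : ‖(((Real.exp (ε * τ) - 1) / ε : ℝ) : ℂ) ^ q‖ ≤ τ ^ q.re := by
    rw [Complex.norm_cpow_eq_rpow_re_of_pos (lt_of_lt_of_le hτ hge)]
    exact Real.rpow_le_rpow_of_nonpos hτ hge hq2
  have hA : ‖FF h (exp (-((ε : ℂ) * (u + (τ : ℂ))))) / FF h (exp (-(ε : ℂ)))‖ ≤
      |C| * |C'| * (1 + τ / R) ^ (-(2 * α)) := by
    rw [norm_div]
    apply div_le_of_le_mul₀ (norm_nonneg _) (by positivity)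
    calc _ ≤ _ := hF
      _ = _ := by ring
  unfold Ig
  rw [norm_mul]
  calc _ ≤ |C| * |C'| * (1 + τ / R) ^ (-(2 * α)) * τ ^ q.re :=
        mul_le_mul hA hq (norm_nonneg _) (by positivity)
    _ = _ := by ring

lemma bound_int (be : Beta) (α : ℝ) (q : ℂ) (hq1 : -1 < q.re)
    (hq3 : q.re < 2 * α - 1) (R : ℝ) (hR : 0 < R) :
    IntegrableOn (fun τ : ℝ => (1 + τ / R) ^ (-(2 * α)) * τ ^ q.re) (Ioi 0) := by
  have h1 := (be α (q.re : ℂ) (R : ℂ) (by simpa using hq1) (by simpa using hq3)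
    (by simpa using hR)).1
  have h2 := (h1.norm).const_mul (R ^ (2 * α))
  refine IntegrableOn.congr_fun h2 ?_ measurableSet_Ioi
  intro τ hτ
  have hτ0 : 0 < τ := hτ
  simp only
  have e1 : ((R : ℂ) + (τ : ℂ)) = ((R + τ : ℝ) : ℂ) := by push_cast; ring
  rw [norm_mul, e1, Complex.norm_cpow_eq_rpow_re_of_pos (by positivity),
    Complex.norm_cpow_eq_rpow_re_of_pos hτ0]
  have e2 : (-(2 * (α : ℂ))).re = -(2 * α) := by simp
  have e3 : ((q.re : ℂ)).re = q.re := by simp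
  rw [e2, e3]
  have e4 : 1 + τ / R = (R + τ) / R := by field_simp
  rw [e4, Real.div_rpow (by positivity) hR.le, Real.rpow_neg hR.le (2 * α), ← mul_assoc]
  congr 1
  rw [div_inv_eq_mul, mul_comm]

lemma meas (lam : ℕ → ℂ) (h : ℂ → ℂ) (hG : Gen lam h) (q : ℂ) (ε : ℝ) (hε : 0 < ε)
    (u : ℂ) (hu : 0 < u.re) :
    AEStronglyMeasurable (Ig h q ε u) (volume.restrict (Ioi (0 : ℝ))) := by
  apply ContinuousOn.aestronglyMeasurable _ measurableSet_Ioi
  have hd : DifferentiableOn ℂ (deriv h) (ball 0 1) := hG.1.1.deriv isOpen_ball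
  have hF : ContinuousOn (FF h) (ball 0 1) := by
    unfold FF
    exact continuousOn_id.mul hd.continuousOn
  unfold Ig
  apply ContinuousOn.mul
  · apply ContinuousOn.div_const
    apply hF.comp
    · apply Continuous.continuousOn
      fun_prop
    · intro τ hτ
      have hτ0 : 0 < τ := hτ
      apply exp_mem_ball ε hε
      simp only [Complex.add_re, Complex.ofReal_re]
      linarith
  · apply ContinuousOn.cpow_const
    · apply Continuous.continuousOn
      fun_prop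
    · intro τ hτ
      have hτ0 : 0 < τ := hτ
      apply Complex.ofReal_mem_slitPlane.mpr
      have := Real.add_one_lt_exp (mul_pos hε hτ0).ne'
      have h2 := mul_pos hε hτ0
      apply div_pos _ hε
      linarith

lemma lim_pt (h : ℂ → ℂ) (α : ℝ) (q : ℂ)
    (hP : ∀ u : ℂ, 0 < u.re → Tendsto (fun ε : ℝ => FF h (exp (-((ε : ℂ) * u))) /
      FF h (exp (-(ε : ℂ)))) (𝓝[>] (0 : ℝ)) (𝓝 (u ^ (-(2 * (α : ℂ))))))
    (u : ℂ) (hu : 0 < u.re) (τ : ℝ) (hτ : 0 < τ) :
    Tendsto (fun ε : ℝ => Ig h q ε u τ) (𝓝[>] (0 : ℝ))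
      (𝓝 ((u + (τ : ℂ)) ^ (-(2 * (α : ℂ))) * (τ : ℂ) ^ q)) := by
  unfold Ig
  apply Tendsto.mul
  · apply hP (u + (τ : ℂ))
    simp only [Complex.add_re, Complex.ofReal_re]
    linarith
  · have hd : HasDerivAt (fun ε : ℝ => Real.exp (ε * τ)) τ 0 := by
      have h1 : HasDerivAt (fun ε : ℝ => ε * τ) τ 0 := by
        simpa using (hasDerivAt_id (0 : ℝ)).mul_const τ
      have h2 := h1.exp
      simpa using h2
    have h3 : Tendsto (fun ε : ℝ => (Real.exp (ε * τ) - 1) / ε) (𝓝[>] (0 : ℝ)) (𝓝 τ) := by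
      have h4 := (hasDerivAt_iff_tendsto_slope_zero.mp hd).mono_left
        (nhdsWithin_mono (0 : ℝ) (fun x (hx : 0 < x) => (ne_of_gt hx : x ≠ 0)))
      refine h4.congr ?_
      intro ε
      simp only [zero_add, zero_mul, Real.exp_zero, smul_eq_mul]
      rw [div_eq_inv_mul]
    have h5 : Tendsto (fun ε : ℝ => (((Real.exp (ε * τ) - 1) / ε : ℝ) : ℂ)) (𝓝[>] (0 : ℝ))
        (𝓝 (τ : ℂ)) := (Complex.continuous_ofReal.tendsto τ).comp h3
    have h6 : ContinuousAt (fun x : ℂ => x ^ q) (τ : ℂ) :=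
      continuousAt_cpow_const (Complex.ofReal_mem_slitPlane.mpr hτ)
    exact h6.tendsto.comp h5

end D6

open D6 in
theorem prfDLim (rx : RepX) (be : Beta) : DLim := by
  intro lam h α q hG hα hq1 hq2 hq3 hD hP
  obtain ⟨C, hC⟩ := hD
  have hg1 : Gamma (1 - q) ≠ 0 := Complex.Gamma_ne_zero_of_re_pos (by simp; linarith)
  have hg2 : Gamma (1 + q) ≠ 0 := Complex.Gamma_ne_zero_of_re_pos (by simp; linarith)
  have hg3 : Gamma (2 * α - 1 - q) ≠ 0 := Complex.Gamma_ne_zero_of_re_pos (by simp; linarith)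
  have hg4 : Gamma (2 * α) ≠ 0 := Complex.Gamma_ne_zero_of_re_pos (by simp; linarith)
  refine ⟨(Gamma (1 - q) * Gamma (1 + q))⁻¹ *
    (Gamma (1 + q) * Gamma (2 * α - 1 - q) / Gamma (2 * α)), ?_, ?_, ?_⟩
  · exact mul_ne_zero (inv_ne_zero (mul_ne_zero hg1 hg2))
      (div_ne_zero (mul_ne_zero hg2 hg3) hg4)
  · intro u hu
    obtain ⟨C', hC'⟩ := hP.2 u.re ‖u‖ hu
    have hu0 : 0 < ‖u‖ := by
      rw [norm_pos_iff]
      rintro rfl
      simp at hu
    have hlim : Tendsto (fun ε : ℝ => ∫ τ in Ioi (0 : ℝ), Ig h q ε u τ) (𝓝[>] (0 : ℝ))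
        (𝓝 (∫ τ in Ioi (0 : ℝ), (u + (τ : ℂ)) ^ (-(2 * (α : ℂ))) * (τ : ℂ) ^ q)) := by
      apply tendsto_integral_filter_of_dominated_convergence
        (fun τ : ℝ => |C| * |C'| * ((1 + τ / ‖u‖) ^ (-(2 * α)) * τ ^ q.re))
      · filter_upwards [self_mem_nhdsWithin] with ε hε
        exact meas lam h hG q ε hε u hu
      · filter_upwards [self_mem_nhdsWithin, Ioo_mem_nhdsGT (zero_lt_one' ℝ)] with ε hε hε1
        rw [ae_restrict_iff' measurableSet_Ioi]
        refine Eventually.of_forall fun τ hτ => ?_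
        exact bound_pt h α hα q hq2 C C' hC ε hε u hu ‖u‖ le_rfl
          (hC' ε hε hε1.2.le u le_rfl le_rfl) τ hτ
      · exact (bound_int be α q hq1 hq3 ‖u‖ hu0).const_mul _
      · rw [ae_restrict_iff' measurableSet_Ioi]
        refine Eventually.of_forall fun τ hτ => ?_
        exact lim_pt h α q hP.1 u hu τ hτ
    have hlim2 := hlim.const_mul ((Gamma (1 - q) * Gamma (1 + q))⁻¹)
    rw [(be α q u hq1 hq3 hu).2] at hlim2
    have he : (q + 2 - 2 * (α : ℂ)) - 1 = q + 1 - 2 * α := by ring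
    rw [he, mul_assoc]
    refine hlim2.congr' ?_
    filter_upwards [self_mem_nhdsWithin] with ε hε
    exact (formula rx lam h hG q hq1 hq2 ε hε u hu).symm
  · intro η R hη
    obtain ⟨C', hC'⟩ := hP.2 η R hη
    refine ⟨‖(Gamma (1 - q) * Gamma (1 + q))⁻¹‖ *
      ∫ τ in Ioi (0 : ℝ), |C| * |C'| * ((1 + τ / R) ^ (-(2 * α)) * τ ^ q.re), ?_⟩
    intro ε hε hε1 u hηu huR
    have hu : 0 < u.re := lt_of_lt_of_le hη hηu
    have hR0 : 0 < R := by
      have := Complex.re_le_norm u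
      linarith
    simp only
    rw [formula rx lam h hG q hq1 hq2 ε hε u hu, norm_mul]
    apply mul_le_mul_of_nonneg_left _ (norm_nonneg _)
    apply norm_integral_le_of_norm_le ((bound_int be α q hq1 hq3 R hR0).const_mul _)
    rw [ae_restrict_iff' measurableSet_Ioi]
    refine Eventually.of_forall fun τ hτ => ?_
    exact bound_pt h α hα q hq2 C C' hC ε hε u hu R huR (hC' ε hε hε1 u hηu huR) τ hτ

end Pool.Agent.MultS

end
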