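import Pool.Agent.Work.MP_b17785_an.Stmts
import Pool.Agent.Work.MP_a78000_an.RMT
import Pool.Agent.Work.MP_b17785_an.Bd.B01

/-! Bundle of small proof modules (one section per former module). -/

section

set_option autoImplicit false

open Complex Metric Set Filter Topology

namespace Pool.Agent.MultS

namespace D7

/-- The region. -/
def Ur (η R : ℝ) : Set ℂ := {u : ℂ | η < u.re ∧ ‖u‖ < R}

theorem Ur_open (η R : ℝ) : IsOpen (Ur η R) := by
  apply IsOpen.inter
  · exact isOpen_lt continuous_const Complex.continuous_re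
  · exact isOpen_lt continuous_norm continuous_const

theorem Ur_convex (η R : ℝ) : Convex ℝ (Ur η R) := by
  have h1 : Convex ℝ {u : ℂ | η < u.re} := convex_halfSpace_re_gt η
  have h2 : Convex ℝ {u : ℂ | ‖u‖ < R} := by
    have : {u : ℂ | ‖u‖ < R} = ball (0 : ℂ) R := by
      ext u
      simp
    rw [this]
    exact convex_ball 0 R
  exact h1.inter h2

theorem exp_mem {ε : ℝ} {u : ℂ} (hε : 0 < ε) (hu : 0 < u.re) :
    exp (-((ε : ℂ) * u)) ∈ ball (0 : ℂ) 1 := by
  rw [mem_ball_zero_iff, Complex.norm_exp]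
  have : (-((ε : ℂ) * u)).re = -(ε * u.re) := by simp
  rw [this, Real.exp_lt_one_iff]
  have := mul_pos hε hu
  linarith

/-- The rescaled function. -/
noncomputable def Ph (g : ℂ → ℂ) (N : ℝ → ℂ) (ε : ℝ) (u : ℂ) : ℂ :=
  (g (exp (-((ε : ℂ) * u))) - g (exp (-((ε : ℂ) * 1)))) / (-((ε : ℂ) * N ε))

theorem hasDerivAt_Ph {g : ℂ → ℂ} (hg : DifferentiableOn ℂ g (ball 0 1)) {N : ℝ → ℂ} {ε : ℝ}
    (hε : 0 < ε) (hN : N ε ≠ 0) {u : ℂ} (hu : 0 < u.re) :
    HasDerivAt (Ph g N ε) (exp (-((ε : ℂ) * u)) * deriv g (exp (-((ε : ℂ) * u))) / N ε) u := by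
  have h1 : HasDerivAt (fun u : ℂ => -((ε : ℂ) * u)) (-((ε : ℂ) * 1)) u :=
    ((hasDerivAt_id u).const_mul (ε : ℂ)).neg
  have h2 := h1.cexp
  have h3 : HasDerivAt g (deriv g (exp (-((ε : ℂ) * u)))) (exp (-((ε : ℂ) * u))) :=
    (hg.differentiableAt (isOpen_ball.mem_nhds (exp_mem hε hu))).hasDerivAt
  have h4 := (h3.comp u h2).sub_const (g (exp (-((ε : ℂ) * 1))))
  have h5 := h4.div_const (-((ε : ℂ) * N ε))
  have hε' : (ε : ℂ) ≠ 0 := by exact_mod_cast hε.ne'
  refine h5.congr_deriv ?_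
  field_simp

/-- The limit. -/
noncomputable def Ph0 (K Q : ℂ) (u : ℂ) : ℂ := K * (u ^ Q - 1) / Q

theorem hasDerivAt_Ph0 {K Q : ℂ} (hQ : Q ≠ 0) {u : ℂ} (hu : 0 < u.re) :
    HasDerivAt (Ph0 K Q) (K * u ^ (Q - 1)) u := by
  have h1 : HasDerivAt (fun u : ℂ => u ^ Q) (Q * u ^ (Q - 1)) u := by
    have := (hasDerivAt_id u).cpow_const (c := Q) (Or.inl hu)
    simpa using this
  have h2 := ((h1.sub_const 1).const_mul K).div_const Q
  refine h2.congr_deriv ?_
  field_simp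

theorem inj_Ph {g : ℂ → ℂ} (hg : InjOn g (ball 0 1)) {N : ℝ → ℂ} {ε η R : ℝ}
    (hε : 0 < ε) (hN : N ε ≠ 0) (hη : 0 < η) (hR : ε * (2 * R) < 2 * Real.pi) :
    InjOn (Ph g N ε) (Ur η R) := by
  intro u hu v hv huv
  have hε' : (ε : ℂ) ≠ 0 := by exact_mod_cast hε.ne'
  have h1 : g (exp (-((ε : ℂ) * u))) = g (exp (-((ε : ℂ) * v))) := by
    have h2 : -((ε : ℂ) * N ε) ≠ 0 := neg_ne_zero.2 (mul_ne_zero hε' hN)
    simp only [Ph] at huv
    have h3 := (div_left_inj' h2).1 huv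
    exact sub_left_injective h3
  have h2 := hg (exp_mem hε (hη.trans hu.1)) (exp_mem hε (hη.trans hv.1)) h1
  rw [Complex.exp_eq_exp_iff_exists_int] at h2
  obtain ⟨n, hn⟩ := h2
  have h3 : (ε : ℂ) * (v - u) = n * (2 * Real.pi * I) := by linear_combination hn
  have h4 : ‖(ε : ℂ) * (v - u)‖ < 2 * Real.pi := by
    rw [norm_mul, Complex.norm_real, Real.norm_of_nonneg hε.le]
    have : ‖v - u‖ ≤ 2 * R := by
      have := norm_sub_le v u
      linarith [hu.2, hv.2]
    calc ε * ‖v - u‖ ≤ ε * (2 * R) := mul_le_mul_of_nonneg_left this hε.le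
      _ < _ := hR
  rw [h3, norm_mul, norm_mul, norm_mul, Complex.norm_I, Complex.norm_real, Complex.norm_two,
    Complex.norm_intCast, Real.norm_of_nonneg Real.pi_pos.le, mul_one] at h4
  have h5 : |(n : ℝ)| < 1 := by
    by_contra hcon
    have := mul_le_mul_of_nonneg_right (not_lt.1 hcon) (by positivity : (0 : ℝ) ≤ 2 * Real.pi)
    linarith
  have h6 : n = 0 := by
    have : |n| < 1 := by exact_mod_cast h5
    exact Int.abs_lt_one_iff.1 this
  rw [h6] at h3
  simp only [Int.cast_zero, zero_mul, mul_eq_zero, hε', false_or] at h3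
  exact (sub_eq_zero.1 h3).symm

end D7

open D7 in
theorem prfDBlow : DBlow := by
  intro g N K Q hg hK hQ hN hB u₁ hu₁ u₂ hu₂ h12
  obtain ⟨hgd, hgi, -, -⟩ := hg
  obtain ⟨hlim, hbd⟩ := hB
  set η : ℝ := min (min u₁.re u₂.re) 1 / 2 with hηd
  have hm : 0 < min (min u₁.re u₂.re) 1 := lt_min (lt_min hu₁ hu₂) one_pos
  have hη : 0 < η := by positivity
  have hη' : η < min (min u₁.re u₂.re) 1 := by rw [hηd]; linarith
  set R : ℝ := max (max ‖u₁‖ ‖u₂‖) 1 + 1 with hRd
  have hR1 : 1 < R := by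
    have := le_max_right (max ‖u₁‖ ‖u₂‖) 1
    rw [hRd]; linarith
  have m1 : u₁ ∈ Ur η R := by
    refine ⟨hη'.trans_le ((min_le_left _ _).trans (min_le_left _ _)), ?_⟩
    have := (le_max_left ‖u₁‖ ‖u₂‖).trans (le_max_left _ 1)
    rw [hRd]; linarith
  have m2 : u₂ ∈ Ur η R := by
    refine ⟨hη'.trans_le ((min_le_left _ _).trans (min_le_right _ _)), ?_⟩
    have := (le_max_right ‖u₁‖ ‖u₂‖).trans (le_max_left _ 1)
    rw [hRd]; linarith
  have m0 : (1 : ℂ) ∈ Ur η R := by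
    refine ⟨?_, ?_⟩
    · rw [Complex.one_re]; exact hη'.trans_le (min_le_right _ _)
    · rw [norm_one]; exact hR1
  obtain ⟨C, hC⟩ := hbd η R hη
  -- the derivatives converge locally uniformly
  have hre : ∀ u ∈ Ur η R, 0 < u.re := fun u hu => hη.trans hu.1
  have hsmall : ∀ᶠ ε : ℝ in 𝓝[>] (0 : ℝ), 0 < ε ∧ ε ≤ 1 ∧ ε * (2 * R) < 2 * Real.pi := by
    have h1 : ∀ᶠ ε : ℝ in 𝓝[>] (0 : ℝ), ε ∈ Ioo (0 : ℝ) (min 1 (Real.pi / R)) :=
      Ioo_mem_nhdsGT (lt_min one_pos (div_pos Real.pi_pos (by linarith)))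
    filter_upwards [h1] with ε hε
    refine ⟨hε.1, (hε.2.trans_le (min_le_left _ _)).le, ?_⟩
    have h2 : ε < Real.pi / R := hε.2.trans_le (min_le_right _ _)
    rw [lt_div_iff₀ (by linarith)] at h2
    linarith
  have hBd : ∀ ε : ℝ, 0 < ε → DifferentiableOn ℂ
      (fun u : ℂ => exp (-((ε : ℂ) * u)) * deriv g (exp (-((ε : ℂ) * u))) / N ε) (Ur η R) := by
    intro ε hε
    have h1 : DifferentiableOn ℂ (deriv g) (ball 0 1) := hgd.deriv isOpen_ball
    have h2 : DifferentiableOn ℂ (fun u : ℂ => exp (-((ε : ℂ) * u))) (Ur η R) := by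
      apply Differentiable.differentiableOn
      fun_prop
    have h3 : DifferentiableOn ℂ (fun u : ℂ => deriv g (exp (-((ε : ℂ) * u)))) (Ur η R) :=
      h1.comp h2 (fun u hu => exp_mem hε (hre u hu))
    exact (h2.mul h3).div_const _
  have hlu : TendstoLocallyUniformlyOn
      (fun (ε : ℝ) (u : ℂ) => exp (-((ε : ℂ) * u)) * deriv g (exp (-((ε : ℂ) * u))) / N ε)
      (fun u => K * u ^ (Q - 1)) (𝓝[>] (0 : ℝ)) (Ur η R) := by
    refine Pool.Agent.RMT.tendstoLocallyUniformlyOn_of_pointwise (M := C) (Ur_open η R) ?_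
      (fun u hu => hlim u (hre u hu))
    filter_upwards [hsmall] with ε hε
    exact ⟨hBd ε hε.1, fun u hu => hC ε hε.1 hε.2.1 u hu.1.le hu.2.le⟩
  -- the functions converge pointwise
  have hpt : ∀ u ∈ Ur η R, Tendsto (fun ε : ℝ => Ph g N ε u) (𝓝[>] (0 : ℝ)) (𝓝 (Ph0 K Q u)) := by
    intro u hu
    have hseg : segment ℝ 1 u ⊆ Ur η R := (Ur_convex η R).segment_subset m0 hu
    have hcomp : IsCompact (segment ℝ (1 : ℂ) u) := by
      rw [segment_eq_image_lineMap]
      exact isCompact_Icc.image (by fun_prop)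
    have hun := (tendstoLocallyUniformlyOn_iff_forall_isCompact (Ur_open η R)).1 hlu _ hseg hcomp
    rw [Metric.tendstoUniformlyOn_iff] at hun
    rw [Metric.tendsto_nhds]
    intro δ hδ
    have hpos : 0 < δ / (‖u - 1‖ + 1) := by positivity
    filter_upwards [hun _ hpos, hsmall] with ε h1 h2
    have h3 : ∀ x ∈ segment ℝ (1 : ℂ) u, HasDerivWithinAt (fun u => Ph g N ε u - Ph0 K Q u)
        (exp (-((ε : ℂ) * x)) * deriv g (exp (-((ε : ℂ) * x))) / N ε - K * x ^ (Q - 1))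
        (segment ℝ (1 : ℂ) u) x := by
      intro x hx
      exact ((hasDerivAt_Ph hgd h2.1 (hN ε h2.1) (hre x (hseg hx))).sub
        (hasDerivAt_Ph0 hQ (hre x (hseg hx)))).hasDerivWithinAt
    have h4 : ∀ x ∈ segment ℝ (1 : ℂ) u,
        ‖exp (-((ε : ℂ) * x)) * deriv g (exp (-((ε : ℂ) * x))) / N ε - K * x ^ (Q - 1)‖ ≤
          δ / (‖u - 1‖ + 1) := by
      intro x hx
      have := h1 x hx
      rw [dist_eq_norm, norm_sub_rev] at this
      exact this.le
    have h5 := (convex_segment (1 : ℂ) u).norm_image_sub_le_of_norm_hasDerivWithin_le h3 h4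
      (left_mem_segment ℝ 1 u) (right_mem_segment ℝ 1 u)
    have h6 : Ph g N ε 1 - Ph0 K Q 1 = 0 := by
      simp [Ph, Ph0]
    rw [h6, sub_zero] at h5
    rw [dist_eq_norm]
    refine h5.trans_lt ?_
    rw [div_mul_eq_mul_div, div_lt_iff₀ (by positivity)]
    nlinarith [norm_nonneg (u - 1)]
  -- uniform bound
  have hbound : ∀ ε : ℝ, 0 < ε → ε ≤ 1 → ∀ u ∈ Ur η R, ‖Ph g N ε u‖ ≤ C * (2 * R) := by
    intro ε hε hε1 u hu
    have h3 : ∀ x ∈ Ur η R, HasDerivWithinAt (Ph g N ε)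
        (exp (-((ε : ℂ) * x)) * deriv g (exp (-((ε : ℂ) * x))) / N ε) (Ur η R) x := fun x hx =>
      (hasDerivAt_Ph hgd hε (hN ε hε) (hre x hx)).hasDerivWithinAt
    have h5 := (Ur_convex η R).norm_image_sub_le_of_norm_hasDerivWithin_le h3
      (fun x hx => hC ε hε hε1 x hx.1.le hx.2.le) m0 hu
    have h6 : Ph g N ε 1 = 0 := by simp [Ph]
    rw [h6, sub_zero] at h5
    have hC0 : 0 ≤ C := (norm_nonneg _).trans (hC ε hε hε1 1 m0.1.le m0.2.le)
    refine h5.trans (mul_le_mul_of_nonneg_left ?_ hC0)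
    have := norm_sub_le u 1
    rw [norm_one] at this
    linarith [hu.2]
  have hlu2 : TendstoLocallyUniformlyOn (Ph g N) (Ph0 K Q) (𝓝[>] (0 : ℝ)) (Ur η R) := by
    refine Pool.Agent.RMT.tendstoLocallyUniformlyOn_of_pointwise (M := C * (2 * R))
      (Ur_open η R) ?_ hpt
    filter_upwards [hsmall] with ε hε
    exact ⟨fun x hx => (hasDerivAt_Ph hgd hε.1 (hN ε hε.1)
      (hre x hx)).differentiableAt.differentiableWithinAt, hbound ε hε.1 hε.2.1⟩
  have hinj : InjOn (Ph0 K Q) (Ur η R) := by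
    refine Pool.Agent.RMT.injOn_of_tendsto (Ur_open η R) (Ur_convex η R).isPreconnected
      (F := Ph g N) (φ := 𝓝[>] (0 : ℝ)) ?_ hlu2 ?_
    · filter_upwards [hsmall] with ε hε
      exact ⟨fun x hx => (hasDerivAt_Ph hgd hε.1 (hN ε hε.1)
        (hre x hx)).differentiableAt.differentiableWithinAt,
        inj_Ph hgi hε.1 (hN ε hε.1) hη hε.2.2⟩
    · by_contra hcon
      push Not at hcon
      have h1 : HasDerivAt (Ph0 K Q) (K * (1 : ℂ) ^ (Q - 1)) 1 :=
        hasDerivAt_Ph0 hQ (hre 1 m0)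
      have h2 : HasDerivAt (Ph0 K Q) 0 1 := by
        refine (hasDerivAt_const (1 : ℂ) (Ph0 K Q 1)).congr_of_eventuallyEq ?_
        filter_upwards [(Ur_open η R).mem_nhds m0] with x hx
        exact hcon x hx 1 m0
      have h3 := h1.unique h2
      rw [Complex.one_cpow, mul_one] at h3
      exact hK h3
  apply hinj m1 m2
  simp only [Ph0]
  have h12' : u₁ ^ Q = u₂ ^ Q := h12
  rw [h12']

end Pool.Agent.MultS

end

section

set_option autoImplicit false

open Complex Metric Set Filter Topology MeasureTheory Finset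

namespace Pool.Agent.MultS

theorem prfNonInj : NonInj := by
  intro α h0 h1
  have hpi := Real.pi_pos
  have hs : 0 < 1 - α ^ 2 / 4 := by nlinarith
  set t : ℝ := Real.sqrt (1 - α ^ 2 / 4) with ht
  have ht0 : 0 < t := Real.sqrt_pos.mpr hs
  have ht2 : t ^ 2 = 1 - α ^ 2 / 4 := Real.sq_sqrt hs.le
  set q : ℂ := ⟨-1 + α / 2, t⟩ with hq
  have hqre : q.re = -1 + α / 2 := rfl
  have hqim : q.im = t := rfl
  set Q : ℂ := q + 2 - 2 * (α : ℂ) with hQ
  have hQre : Q.re = 1 - 3 * α / 2 := by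
    rw [hQ]
    simp [hqre]
    ring
  have hQim : Q.im = t := by
    rw [hQ]
    simp [hqim]
  have hQ0 : Q ≠ 0 := by
    intro h
    rw [h, zero_im] at hQim
    exact ht0.ne hQim
  have hns : normSq Q = 2 - 3 * α + 2 * α ^ 2 := by
    rw [normSq_apply, hQre, hQim]
    nlinarith
  have hD : 0 < 2 - 3 * α + 2 * α ^ 2 := by
    rw [← hns]
    exact normSq_pos.mpr hQ0
  refine ⟨q, ?_, ?_, ?_, ?_, ?_, hQ0, ?_⟩
  · have e1 : ‖q + 1‖ ^ 2 ≤ 1 := by
      rw [← Complex.normSq_eq_norm_sq, normSq_apply]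
      simp only [add_re, add_im, one_re, one_im, hqre, hqim]
      nlinarith
    have e2 : ‖q + 1‖ ^ 2 ≤ 1 ^ 2 := by rwa [one_pow]
    exact le_of_sq_le_sq e2 zero_le_one
  · intro h
    rw [h, zero_im] at hqim
    exact ht0.ne hqim
  · rw [hqre]
    linarith
  · rw [hqre]
    linarith
  · rw [hqre]
    linarith
  · intro hinj
    set w : ℂ := 2 * Real.pi * I / Q with hw
    have hwim : w.im = Real.pi * (2 - 3 * α) / (2 - 3 * α + 2 * α ^ 2) := by
      rw [hw, div_im, hns, hQre, hQim]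
      simp
      field_simp
    have hlt : |w.im| < Real.pi := by
      rw [hwim, abs_div, abs_of_pos hD, div_lt_iff₀ hD, abs_mul, abs_of_pos hpi]
      refine mul_lt_mul_of_pos_left ?_ hpi
      rw [abs_lt]
      constructor <;> nlinarith
    have hab := abs_lt.mp hlt
    have him1 : (w / 2).im = w.im / 2 := by
      rw [show w / 2 = w / ((2 : ℝ) : ℂ) by push_cast; rfl, div_ofReal_im]
    have him2 : (-(w / 2)).im = -(w.im / 2) := by rw [neg_im, him1]
    have hc : 0 < Real.cos (w.im / 2) :=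
      Real.cos_pos_of_mem_Ioo ⟨by linarith [hab.1], by linarith [hab.2]⟩
    have hu1 : exp (w / 2) ∈ {u : ℂ | 0 < u.re} := by
      change 0 < (exp (w / 2)).re
      rw [exp_re, him1]
      exact mul_pos (Real.exp_pos _) hc
    have hu2 : exp (-(w / 2)) ∈ {u : ℂ | 0 < u.re} := by
      change 0 < (exp (-(w / 2))).re
      rw [exp_re, him2, Real.cos_neg]
      exact mul_pos (Real.exp_pos _) hc
    have hl1 : log (exp (w / 2)) = w / 2 :=
      log_exp (by rw [him1]; linarith [hab.1]) (by rw [him1]; linarith [hab.2])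
    have hl2 : log (exp (-(w / 2))) = -(w / 2) :=
      log_exp (by rw [him2]; linarith [hab.2]) (by rw [him2]; linarith [hab.1])
    have hwQ : w * Q = 2 * Real.pi * I := by
      rw [hw, div_mul_cancel₀ _ hQ0]
    have hv1 : exp (w / 2) ^ Q = -1 := by
      rw [cpow_def_of_ne_zero (exp_ne_zero _), hl1]
      rw [show w / 2 * Q = Real.pi * I by
        rw [div_mul_eq_mul_div, hwQ]; ring]
      exact exp_pi_mul_I
    have hv2 : exp (-(w / 2)) ^ Q = -1 := by
      rw [cpow_def_of_ne_zero (exp_ne_zero _), hl2]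
      rw [show -(w / 2) * Q = -(Real.pi * I) by
        rw [neg_mul, div_mul_eq_mul_div, hwQ]; ring]
      rw [exp_neg, exp_pi_mul_I]
      norm_num
    have heq := hinj hu1 hu2 (hv1.trans hv2.symm)
    have hle := congrArg log heq
    rw [hl1, hl2] at hle
    have hw0 : w = 0 := by
      have h3 : w / 2 + w / 2 = 0 := by
        nth_rewrite 1 [hle]
        ring
      rw [← h3]
      ring
    rw [hw0, zero_mul] at hwQ
    have h4 : (2 * (Real.pi : ℂ) * I) ≠ 0 := Complex.two_pi_I_ne_zero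
    exact h4 hwQ.symm

end Pool.Agent.MultS

end

section

/-!
# F2: upper bounds for `J(-s, .)`, `s ≤ 3/4`
-/

set_option autoImplicit false

open Complex Metric Set Filter Topology MeasureTheory Finset

namespace Pool.Agent.MultS

namespace F2

lemma integrable_one_sub (r : ℝ) (hr : -1 < r) :
    IntegrableOn (fun t : ℝ => (1 - t) ^ r) (Ioo (0 : ℝ) 1) := by
  have h1 : IntervalIntegrable (fun x : ℝ => x ^ r) volume 0 1 :=
    intervalIntegral.intervalIntegrable_rpow' hr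
  have h2 := h1.comp_sub_left 1
  rw [sub_zero, sub_self] at h2
  have h3 := (intervalIntegrable_iff_integrableOn_Ioo_of_le (zero_le_one)).1 h2.symm
  exact h3

/-- Bound for the derivative on the segment. -/
lemma deriv_bound {h : ℂ → ℂ} {C : ℝ}
    (hC : ∀ z ∈ ball (0 : ℂ) 1, ‖deriv h z‖ ≤ C * (1 - ‖z‖) ^ (-(1 / 8 : ℝ))) :
    0 ≤ C ∧ ∀ z ∈ ball (0 : ℂ) 1, ∀ t ∈ Ioo (0 : ℝ) 1,
      ‖deriv h ((t : ℂ) * z)‖ ≤ C * (1 - t) ^ (-(1 / 8 : ℝ)) := by
  have hC0 : 0 ≤ C := by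
    have h1 := hC 0 (mem_ball_self one_pos)
    rw [norm_zero, sub_zero, Real.one_rpow, mul_one] at h1
    exact (norm_nonneg _).trans h1
  refine ⟨hC0, fun z hz t ht => ?_⟩
  have hz' : ‖z‖ < 1 := by simpa using hz
  have h1 : ‖(t : ℂ) * z‖ ≤ t := by
    rw [norm_mul, Complex.norm_real, Real.norm_of_nonneg ht.1.le]
    nlinarith [ht.1, norm_nonneg z]
  have h2 : (t : ℂ) * z ∈ ball (0 : ℂ) 1 := by
    rw [mem_ball_zero_iff]
    exact lt_of_le_of_lt h1 ht.2
  refine (hC _ h2).trans (mul_le_mul_of_nonneg_left ?_ hC0)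
  exact Real.rpow_le_rpow_of_nonpos (by linarith [ht.2]) (by linarith) (by norm_num)

lemma norm_pow_pow {t s : ℝ} (ht : t ∈ Ioo (0 : ℝ) 1) :
    ‖(t : ℂ) ^ (-((-s : ℝ) : ℂ)) * ((1 - t : ℝ) : ℂ) ^ ((-s : ℝ) : ℂ)‖ =
      t ^ s * (1 - t) ^ (-s) := by
  rw [norm_mul, Complex.norm_cpow_eq_rpow_re_of_pos ht.1,
    Complex.norm_cpow_eq_rpow_re_of_pos (by linarith [ht.2])]
  simp

end F2

/-- F2. -/
theorem prfStart (rep : Rep) : Start := by
  intro lam h hG hC s hs0 hs
  obtain ⟨C, hC⟩ := hC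
  obtain ⟨hC0, hb⟩ := F2.deriv_bound hC
  set K : ℂ := (Gamma (1 - ((-s : ℝ) : ℂ)) * Gamma (1 + ((-s : ℝ) : ℂ)))⁻¹ with hK
  refine ⟨‖K‖ * ∫ t in Ioo (0 : ℝ) 1, C * (1 - t) ^ (-(7 / 8 : ℝ)), fun z hz => ?_⟩
  rw [rep lam h hG ((-s : ℝ) : ℂ) (by rw [ofReal_re]; linarith) (by rw [ofReal_re]; linarith) z hz,
    norm_mul]
  refine mul_le_mul_of_nonneg_left ?_ (norm_nonneg _)
  refine norm_integral_le_of_norm_le ((F2.integrable_one_sub _ (by norm_num)).const_mul C) ?_
  refine (ae_restrict_iff' measurableSet_Ioo).2 (Eventually.of_forall fun t ht => ?_)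
  rw [norm_mul, F2.norm_pow_pow ht]
  have h1 := hb z hz t ht
  have h0 : 0 < 1 - t := by linarith [ht.2]
  have h2 : t ^ s * (1 - t) ^ (-s) ≤ (1 - t) ^ (-(3 / 4 : ℝ)) := by
    have h3 : t ^ s ≤ 1 := Real.rpow_le_one ht.1.le ht.2.le hs0
    have h4 : (1 - t) ^ (-s) ≤ (1 - t) ^ (-(3 / 4 : ℝ)) :=
      Real.rpow_le_rpow_of_exponent_ge h0 (by linarith [ht.1]) (by linarith)
    calc t ^ s * (1 - t) ^ (-s) ≤ 1 * (1 - t) ^ (-(3 / 4 : ℝ)) :=
          mul_le_mul h3 h4 (by positivity) (by norm_num)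
      _ = _ := one_mul _
  calc ‖deriv h ((t : ℂ) * z)‖ * (t ^ s * (1 - t) ^ (-s))
      ≤ (C * (1 - t) ^ (-(1 / 8 : ℝ))) * (1 - t) ^ (-(3 / 4 : ℝ)) :=
        mul_le_mul h1 h2 (mul_nonneg (Real.rpow_nonneg ht.1.le _) (Real.rpow_nonneg h0.le _))
          (mul_nonneg hC0 (Real.rpow_nonneg h0.le _))
    _ = C * (1 - t) ^ (-(7 / 8 : ℝ)) := by
        rw [mul_assoc, ← Real.rpow_add h0]
        norm_num

end Pool.Agent.MultS

end

section

set_option autoImplicit false

open Complex Metric Set Filter Topology MeasureTheory Finset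

namespace Pool.Agent.MultS

namespace G3Aux

theorem hs_congr {f g : ℕ → ℂ} {a : ℂ} (h : ∀ k, f k = g k)
    (hg : HasSum g a) : HasSum f a := by
  have e : f = g := funext h
  rw [e]
  exact hg

theorem prod_two (k : ℕ) : ∏ i ∈ range k, (1 - (-1 : ℂ) + (i : ℂ)) = ((k + 1).factorial : ℂ) := by
  induction k with
  | zero => simp
  | succ n ih =>
    rw [Finset.prod_range_succ, ih, Nat.factorial_succ (n + 1)]
    push_cast
    ring

theorem prod_three (k : ℕ) :
    2 * ∏ i ∈ range k, (1 - (-2 : ℂ) + (i : ℂ)) = ((k + 2).factorial : ℂ) := by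
  induction k with
  | zero => simp [Nat.factorial]
  | succ n ih =>
    rw [Finset.prod_range_succ, ← mul_assoc, ih, Nat.factorial_succ (n + 2)]
    push_cast
    ring

theorem cf_one (k : ℕ) : cf (-1) k = (k : ℂ) + 1 := by
  have h : (k.factorial : ℂ) ≠ 0 := Nat.cast_ne_zero.mpr k.factorial_ne_zero
  rw [cf, prod_two, Nat.factorial_succ, div_eq_iff h]
  push_cast
  ring

theorem cf_two (k : ℕ) : 2 * cf (-2) k = ((k : ℂ) + 1) * ((k : ℂ) + 2) := by
  have h : (k.factorial : ℂ) ≠ 0 := Nat.cast_ne_zero.mpr k.factorial_ne_zero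
  rw [cf, mul_div_assoc', prod_three, Nat.factorial_succ, Nat.factorial_succ, div_eq_iff h]
  push_cast
  ring

end G3Aux

open G3Aux in
theorem prfFin2 (s : SerJ) : Fin2 := by
  intro lam h C hG hb z hz
  have h1 : HasSum (fun k : ℕ => lam (k + 1) * cf (-1) k * z ^ k) (JJ lam (-1) z) :=
    (Summable.of_norm (s lam h hG (-1) z hz)).hasSum
  have h2 : HasSum (fun k : ℕ => lam (k + 1) * cf (-2) k * z ^ k) (JJ lam (-2) z) :=
    (Summable.of_norm (s lam h hG (-2) z hz)).hasSum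
  have h3 := ((h2.mul_left 2).sub h1).mul_left z
  have h5 : HasSum (fun n : ℕ => ((n + 1 : ℕ) : ℂ) ^ 2 * lam (n + 1) * z ^ (n + 1))
      (z * (2 * JJ lam (-2) z - JJ lam (-1) z)) := by
    refine hs_congr (fun k => ?_) h3
    have e1 := cf_one k
    have e2 := cf_two k
    rw [e1]
    have e3 : z * (2 * (lam (k + 1) * cf (-2) k * z ^ k) - lam (k + 1) * ((k : ℂ) + 1) * z ^ k)
        = lam (k + 1) * (2 * cf (-2) k - ((k : ℂ) + 1)) * z ^ (k + 1) := by ring
    rw [e3, e2]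
    push_cast
    ring
  have h4 : HasSum (fun n : ℕ => (n : ℂ) ^ 2 * lam n * z ^ n)
      (z * (2 * JJ lam (-2) z - JJ lam (-1) z)) := by
    have h6 := (hasSum_nat_add_iff (f := fun n : ℕ => (n : ℂ) ^ 2 * lam n * z ^ n) 1).mp h5
    simpa using h6
  refine ⟨h4.summable, ?_⟩
  rw [h4.tsum_eq]
  have hz1 : ‖z‖ ≤ 1 := by
    rw [mem_ball_zero_iff] at hz
    exact hz.le
  obtain ⟨b1, b2⟩ := hb z hz
  have hC : 0 ≤ C := (norm_nonneg _).trans b1
  calc ‖z * (2 * JJ lam (-2) z - JJ lam (-1) z)‖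
      = ‖z‖ * ‖2 * JJ lam (-2) z - JJ lam (-1) z‖ := norm_mul _ _
    _ ≤ 1 * ‖2 * JJ lam (-2) z - JJ lam (-1) z‖ := by gcongr
    _ ≤ ‖2 * JJ lam (-2) z‖ + ‖JJ lam (-1) z‖ := by rw [one_mul]; exact norm_sub_le _ _
    _ = 2 * ‖JJ lam (-2) z‖ + ‖JJ lam (-1) z‖ := by rw [norm_mul]; norm_num
    _ ≤ 3 * C := by linarith

end Pool.Agent.MultS

end

section

set_option autoImplicit false

open Complex Metric Set Filter Topology MeasureTheory Finset

namespace Pool.Agent.MultS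

namespace G4Aux

theorem polyParseval (a : ℕ → ℂ) (N : ℕ) (r : ℝ) :
    Real.circleAverage (fun z => ‖∑ n ∈ Finset.range N, a n * z ^ n‖ ^ 2) 0 r
      = ∑ n ∈ Finset.range N, ‖a n‖ ^ 2 * (r ^ 2) ^ n := by
  rw [Real.circleAverage_eq_circleAverage_zero_one]
  let p : Polynomial ℂ := ∑ n ∈ Finset.range N, Polynomial.monomial n (a n * (r : ℂ) ^ n)
  have hc : ∀ i, p.coeff i = if i < N then a i * (r : ℂ) ^ i else 0 := by
    intro i
    simp only [p, Polynomial.finsetSum_coeff, Polynomial.coeff_monomial]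
    rw [Finset.sum_ite_eq']
    simp
  have h1 := Polynomial.sum_sq_norm_coeff_eq_circleAverage p
  have h2 : (fun z : ℂ => ‖p.eval z‖ ^ 2)
      = fun z : ℂ => ‖∑ n ∈ Finset.range N, a n * ((r : ℂ) * z + 0) ^ n‖ ^ 2 := by
    funext z
    simp only [p, Polynomial.eval_finsetSum, Polynomial.eval_monomial, add_zero]
    congr 2
    refine Finset.sum_congr rfl (fun n _ => ?_)
    rw [mul_pow]; ring
  rw [h2] at h1
  rw [← h1]
  have h3 : p.support ⊆ Finset.range N := by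
    intro i hi
    rw [Polynomial.mem_support_iff, hc] at hi
    by_contra h
    rw [Finset.mem_range] at h
    simp [h] at hi
  rw [Finset.sum_subset h3]
  · refine Finset.sum_congr rfl (fun n hn => ?_)
    rw [hc, if_pos (Finset.mem_range.1 hn), norm_mul, norm_pow, Complex.norm_real, mul_pow,
      Real.norm_eq_abs, ← pow_mul, mul_comm n 2, pow_mul, sq_abs]
  · intro i _ hi
    rw [Polynomial.notMem_support_iff.1 hi]; simp

theorem poly_bound (a : ℕ → ℂ) (N : ℕ) (r B : ℝ)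
    (h : ∀ z : ℂ, ‖z‖ = |r| → ‖∑ n ∈ Finset.range N, a n * z ^ n‖ ≤ B) :
    ∑ n ∈ Finset.range N, ‖a n‖ ^ 2 * (r ^ 2) ^ n ≤ B ^ 2 := by
  rw [← polyParseval]
  refine Real.circleAverage_mono_on_of_le_circle ?_ ?_
  · refine ContinuousOn.circleIntegrable' ?_
    exact Continuous.continuousOn (by fun_prop)
  · intro z hz
    rw [mem_sphere_zero_iff_norm] at hz
    have := h z hz
    have h0 := norm_nonneg (∑ n ∈ Finset.range N, a n * z ^ n)
    exact pow_le_pow_left₀ h0 this 2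

end G4Aux

open G4Aux in
theorem prfPars : Pars := by
  intro a C h
  have hC : 0 ≤ C := (norm_nonneg _).trans (h 0 (mem_ball_self one_pos)).2
  have hr : ∀ r : ℝ, 0 ≤ r → r < 1 → Summable (fun n : ℕ => ‖a n‖ * r ^ n) := by
    intro r h0 h1
    have h2 := (h (r : ℂ) (by rw [mem_ball_zero_iff, norm_real, Real.norm_of_nonneg h0]; exact h1)).1.norm
    refine h2.congr fun n => ?_
    rw [norm_mul, norm_pow, norm_real, Real.norm_of_nonneg h0]
  have key : ∀ (N : ℕ) (r : ℝ), 0 ≤ r → r < 1 →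
      ∑ n ∈ Finset.range N, ‖a n‖ ^ 2 * (r ^ 2) ^ n ≤ C ^ 2 := by
    intro N r h0 h1
    have hs := hr r h0 h1
    have ht : Tendsto (fun M : ℕ => (C + ∑' n : ℕ, ‖a (n + M)‖ * r ^ (n + M)) ^ 2) atTop
        (𝓝 ((C + 0) ^ 2)) :=
      ((tendsto_sum_nat_add (fun n => ‖a n‖ * r ^ n)).const_add C).pow 2
    rw [add_zero] at ht
    refine ge_of_tendsto ht ?_
    filter_upwards [eventually_ge_atTop N] with M hM
    refine le_trans (Finset.sum_le_sum_of_subset_of_nonneg
      (Finset.range_mono hM) fun n _ _ => by positivity) ?_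
    refine poly_bound a M r _ ?_
    intro z hz
    rw [abs_of_nonneg h0] at hz
    have hzb : z ∈ ball (0 : ℂ) 1 := by rw [mem_ball_zero_iff, hz]; exact h1
    obtain ⟨s1, s2⟩ := h z hzb
    have e1 := s1.sum_add_tsum_nat_add M
    have e2 : ∑ n ∈ Finset.range M, a n * z ^ n =
        (∑' n : ℕ, a n * z ^ n) - ∑' n : ℕ, a (n + M) * z ^ (n + M) := by
      rw [← e1]
      ring
    rw [e2]
    refine (norm_sub_le _ _).trans (add_le_add s2 ?_)
    have e3 : (fun n : ℕ => ‖a (n + M) * z ^ (n + M)‖) = fun n => ‖a (n + M)‖ * r ^ (n + M) := by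
      funext n
      rw [norm_mul, norm_pow, hz]
    have e4 : Summable (fun n : ℕ => ‖a (n + M) * z ^ (n + M)‖) := by
      rw [e3]
      exact (summable_nat_add_iff M).mpr hs
    refine (norm_tsum_le_tsum_norm e4).trans ?_
    rw [e3]
  refine summable_of_sum_range_le (c := C ^ 2) (fun n => by positivity) fun N => ?_
  have ht : Tendsto (fun r : ℝ => ∑ n ∈ Finset.range N, ‖a n‖ ^ 2 * (r ^ 2) ^ n) (𝓝[<] (1 : ℝ))
      (𝓝 (∑ n ∈ Finset.range N, ‖a n‖ ^ 2 * ((1 : ℝ) ^ 2) ^ n)) := by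
    refine Tendsto.mono_left ?_ nhdsWithin_le_nhds
    exact Continuous.tendsto (by fun_prop) 1
  simp only [one_pow, mul_one] at ht
  refine le_of_tendsto ht ?_
  have h5 : Ioo (0 : ℝ) 1 ∈ 𝓝[<] (1 : ℝ) := Ioo_mem_nhdsLT zero_lt_one
  filter_upwards [h5] with r hr'
  exact key N r hr'.1.le hr'.2

end Pool.Agent.MultS

end

section

set_option autoImplicit false

open Complex Metric Set Filter Topology Finset

namespace Pool.Agent.MultS

theorem prfNonneg : Nonneg := by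
  intro a C ha hC
  apply summable_of_sum_range_le (c := C) ha
  intro N
  have hlim : Tendsto (fun r : ℝ => ∑ n ∈ range N, a n * r ^ n) (𝓝[<] (1 : ℝ))
      (𝓝 (∑ n ∈ range N, a n * 1 ^ n)) := by
    have hc : Continuous (fun r : ℝ => ∑ n ∈ range N, a n * r ^ n) := by fun_prop
    exact (hc.tendsto 1).mono_left nhdsWithin_le_nhds
  have hle : ∀ᶠ r : ℝ in 𝓝[<] (1 : ℝ), ∑ n ∈ range N, a n * r ^ n ≤ C := by
    have h0 : ∀ᶠ r : ℝ in 𝓝[<] (1 : ℝ), 0 < r :=
      (lt_mem_nhds one_pos).filter_mono nhdsWithin_le_nhds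
    filter_upwards [self_mem_nhdsWithin, h0] with r hr hr0
    have hr1 : r < 1 := hr
    have hmem : (r : ℂ) ∈ ball (0 : ℂ) 1 := by
      rw [mem_ball_zero_iff, Complex.norm_real, Real.norm_eq_abs, abs_of_pos hr0]
      exact hr1
    obtain ⟨hs, hb⟩ := hC _ hmem
    have hcast : ∀ n, (a n : ℂ) * (r : ℂ) ^ n = ((a n * r ^ n : ℝ) : ℂ) := by
      intro n; push_cast; ring
    simp only [hcast] at hs hb
    have hs' : Summable (fun n => a n * r ^ n) := by exact_mod_cast hs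
    rw [← Complex.ofReal_tsum, Complex.norm_real, Real.norm_eq_abs] at hb
    calc ∑ n ∈ range N, a n * r ^ n ≤ ∑' n, a n * r ^ n :=
          hs'.sum_le_tsum _ (fun n _ => mul_nonneg (ha n) (pow_nonneg hr0.le n))
      _ ≤ |∑' n, a n * r ^ n| := le_abs_self _
      _ ≤ C := hb
  have := le_of_tendsto hlim hle
  simpa using this

end Pool.Agent.MultS

end

section

set_option autoImplicit false

open Complex Metric Set Filter Topology Finset

namespace Pool.Agent.MultS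

/-- A function given by a convergent power series on the unit disk has this power series. -/
theorem fps_of_hasSum {c : ℕ → ℂ} {G : ℂ → ℂ}
    (h : ∀ z ∈ ball (0 : ℂ) 1, HasSum (fun n => c n * z ^ n) (G z)) :
    HasFPowerSeriesOnBall G (FormalMultilinearSeries.ofScalars ℂ c) 0 1 := by
  refine ⟨?_, one_pos, ?_⟩
  · apply ENNReal.le_of_forall_nnreal_lt
    intro r hr
    have hr1 : (r : ℝ) < 1 := by exact_mod_cast hr
    have hr0 : ‖((r : ℝ) : ℂ)‖ = (r : ℝ) := by
      rw [Complex.norm_real, Real.norm_eq_abs]; exact abs_of_nonneg r.coe_nonneg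
    have hmem : ((r : ℝ) : ℂ) ∈ ball (0 : ℂ) 1 := by
      rw [mem_ball_zero_iff, hr0]; exact hr1
    have ht := (h _ hmem).summable.tendsto_atTop_zero.norm
    rw [norm_zero] at ht
    apply FormalMultilinearSeries.le_radius_of_tendsto _ (l := 0)
    refine ht.congr (fun n => ?_)
    have e : ‖FormalMultilinearSeries.ofScalars ℂ c n‖ = ‖c n‖ := by
      rw [FormalMultilinearSeries.norm_apply_eq_norm_coef,
        FormalMultilinearSeries.coeff_ofScalars]
    calc ‖c n * ((r : ℝ) : ℂ) ^ n‖ = ‖c n‖ * (r : ℝ) ^ n := by rw [norm_mul, norm_pow, hr0]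
      _ = _ := by rw [e]
  · intro y hy
    have hy' : y ∈ ball (0 : ℂ) 1 := by
      rw [mem_ball_zero_iff]
      have h1 : ‖y‖ₑ < 1 := by simpa using hy
      rw [enorm_eq_nnnorm] at h1
      have h2 : ‖y‖₊ < 1 := by exact_mod_cast h1
      exact_mod_cast h2
    have := h y hy'
    rw [zero_add]
    convert! this using 2 with n
    rw [FormalMultilinearSeries.apply_eq_pow_smul_coeff,
      FormalMultilinearSeries.coeff_ofScalars, smul_eq_mul, mul_comm]

/-- Uniqueness of the Taylor coefficients. -/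
theorem tc_of_hasSum {c : ℕ → ℂ} {G : ℂ → ℂ}
    (h : ∀ z ∈ ball (0 : ℂ) 1, HasSum (fun n => c n * z ^ n) (G z)) (n : ℕ) : tc G n = c n := by
  have h1 := (fps_of_hasSum h).iteratedFDeriv_eq_sum_of_completeSpace (n := n) (fun _ => (1 : ℂ))
  have h2 : iteratedDeriv n G 0 = (n.factorial : ℂ) * c n := by
    rw [iteratedDeriv_eq_iteratedFDeriv, h1]
    rw [Finset.sum_const, Finset.card_univ, Fintype.card_perm, Fintype.card_fin, nsmul_eq_mul,
      FormalMultilinearSeries.apply_eq_pow_smul_coeff, FormalMultilinearSeries.coeff_ofScalars,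
      one_pow, one_smul]
  unfold tc
  rw [h2]
  have : (n.factorial : ℂ) ≠ 0 := by exact_mod_cast n.factorial_ne_zero
  field_simp

/-- The Taylor series of a holomorphic function on the unit disk. -/
theorem hasSum_tc {f : ℂ → ℂ} (hf : DifferentiableOn ℂ f (ball 0 1)) {z : ℂ}
    (hz : z ∈ ball (0 : ℂ) 1) : HasSum (fun n => tc f n * z ^ n) (f z) := by
  have h1 : (0 : ℝ) < 1 := one_pos
  have := Complex.hasSum_taylorSeries_on_ball (c := 0) (r := 1) (z := z)
    (f := f) (by simpa using hf) (by simpa using hz)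
  convert! this using 2 with n
  unfold tc
  simp only [smul_eq_mul, sub_zero]
  ring

theorem tc_zero (f : ℂ → ℂ) : tc f 0 = f 0 := by simp [tc]

theorem tc_one (f : ℂ → ℂ) : tc f 1 = deriv f 0 := by simp [tc]

/-- The sum without the constant term. -/
theorem hasSum_tc_succ {f : ℂ → ℂ} (hf : DifferentiableOn ℂ f (ball 0 1)) (h0 : f 0 = 0) {z : ℂ}
    (hz : z ∈ ball (0 : ℂ) 1) : HasSum (fun n => tc f (n + 1) * z ^ (n + 1)) (f z) := by
  have := hasSum_tc hf hz
  rw [← hasSum_nat_add_iff' 1] at this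
  simpa [tc_zero, h0] using this

/-- The version of `tc_of_hasSum` for series without constant term. -/
theorem tc_of_hasSum_succ {c : ℕ → ℂ} {G : ℂ → ℂ}
    (h : ∀ z ∈ ball (0 : ℂ) 1, HasSum (fun n => c (n + 1) * z ^ (n + 1)) (G z)) (n : ℕ)
    (hn : 1 ≤ n) : tc G n = c n := by
  have key : ∀ z ∈ ball (0 : ℂ) 1, HasSum (fun n => (if n = 0 then 0 else c n) * z ^ n) (G z) := by
    intro z hz
    rw [← hasSum_nat_add_iff' 1]
    simpa using h z hz
  rw [tc_of_hasSum key n, if_neg (by omega)]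

end Pool.Agent.MultS

end

section

/-!
# Coefficient multipliers of the class S: item W1
-/

set_option autoImplicit false

open Complex Metric Set Filter Topology MeasureTheory Finset

namespace Pool.Agent.MultS

namespace W1

theorem abs_arg_one_add (v : ℂ) (hv : ‖v‖ ≤ 1 / 4) : |arg (1 + v)| ≤ Real.pi / 6 := by
  have hre : 3 / 4 ≤ (1 + v).re := by
    have h1 := (abs_le.1 ((abs_re_le_norm v).trans hv)).1
    rw [add_re, one_re]
    linarith
  have him : |(1 + v).im| ≤ 1 / 4 := by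
    rw [add_im, one_im, zero_add]
    exact (abs_im_le_norm v).trans hv
  have hn : 3 / 4 ≤ ‖1 + v‖ := hre.trans ((le_abs_self _).trans (abs_re_le_norm _))
  rw [arg_of_re_nonneg (by linarith)]
  have h2 : |(1 + v).im / ‖1 + v‖| ≤ 1 / 2 := by
    rw [abs_div, abs_of_pos (show (0 : ℝ) < ‖1 + v‖ by linarith),
      div_le_iff₀ (by linarith)]
    linarith
  have h3 := abs_le.1 h2
  have hpi := Real.pi_pos
  rw [abs_le]
  constructor
  · rw [Real.le_arcsin_iff_sin_le ⟨by linarith, by linarith⟩ ⟨by linarith, by linarith⟩,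
      Real.sin_neg, Real.sin_pi_div_six]
    linarith
  · rw [Real.arcsin_le_iff_le_sin ⟨by linarith, by linarith⟩ ⟨by linarith, by linarith⟩,
      Real.sin_pi_div_six]
    linarith

theorem abs_arg_sector (s0 s : ℂ) (h0 : ‖s0‖ = 1) (ha : |arg s0| ≤ Real.pi / 6)
    (hs : ‖s - s0‖ ≤ 1 / 4) : s ≠ 0 ∧ |arg s| ≤ Real.pi / 3 := by
  have hs0 : s0 ≠ 0 := by
    intro h
    rw [h, norm_zero] at h0
    exact zero_ne_one h0
  set v := s / s0 - 1 with hv
  have hv1 : s = s0 * (1 + v) := by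
    rw [hv]
    field_simp
    ring
  have hv2 : ‖v‖ ≤ 1 / 4 := by
    have h1 : v = (s - s0) / s0 := by
      rw [hv]
      field_simp
    rw [h1, norm_div, h0, div_one]
    exact hs
  have hv3 : 1 + v ≠ 0 := by
    intro h
    have h1 : v = -1 := by linear_combination h
    rw [h1, norm_neg, norm_one] at hv2
    norm_num at hv2
  have h3 := abs_arg_one_add v hv2
  have hpi := Real.pi_pos
  have h4 := abs_le.1 h3
  have h5 := abs_le.1 ha
  refine ⟨by rw [hv1]; exact mul_ne_zero hs0 hv3, ?_⟩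
  rw [hv1, arg_mul hs0 hv3 ⟨by linarith [h4.1, h5.1], by linarith [h4.2, h5.2]⟩, abs_le]
  exact ⟨by linarith [h4.1, h5.1], by linarith [h4.2, h5.2]⟩

theorem lower (v : ℂ) (hv : ‖v‖ = 1 / 4) : 1 / 6 ≤ ‖1 - (1 + v) ^ 6‖ := by
  have h1 : 1 - (1 + v) ^ 6 =
      -(v * (6 + (15 * v + 20 * v ^ 2 + 15 * v ^ 3 + 6 * v ^ 4 + v ^ 5))) := by ring
  have h2 : ‖15 * v + 20 * v ^ 2 + 15 * v ^ 3 + 6 * v ^ 4 + v ^ 5‖ ≤
      15 * (1 / 4) + 20 * (1 / 4) ^ 2 + 15 * (1 / 4) ^ 3 + 6 * (1 / 4) ^ 4 + (1 / 4) ^ 5 := by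
    refine (norm_add_le _ _).trans (add_le_add ((norm_add_le _ _).trans (add_le_add
      ((norm_add_le _ _).trans (add_le_add ((norm_add_le _ _).trans (add_le_add ?_ ?_)) ?_)) ?_)) ?_)
    all_goals
      simp [norm_mul, norm_pow, hv]
  have h3 : 6 - (15 * (1 / 4) + 20 * (1 / 4) ^ 2 + 15 * (1 / 4) ^ 3 + 6 * (1 / 4) ^ 4 +
      (1 / 4) ^ 5) ≤ ‖(6 : ℂ) + (15 * v + 20 * v ^ 2 + 15 * v ^ 3 + 6 * v ^ 4 + v ^ 5)‖ := by
    have h4 := norm_sub_norm_le (6 : ℂ) (-(15 * v + 20 * v ^ 2 + 15 * v ^ 3 + 6 * v ^ 4 + v ^ 5))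
    rw [sub_neg_eq_add, norm_neg] at h4
    have h5 : ‖(6 : ℂ)‖ = 6 := by norm_num
    rw [h5] at h4
    linarith
  rw [h1, norm_neg, norm_mul, hv]
  norm_num at h3 ⊢
  linarith

end W1

open W1

theorem prfPoly : Poly := by
  intro c C hc
  by_cases hC : 0 < C
  swap
  · refine ⟨0, fun a h0 h1 _ => ?_⟩
    exact absurd ((hc.trans_le h0).trans_le (h1 0 (by norm_num))) hC
  set ρ0 : ℝ := min 1 (c / (200 * C)) with hρ0
  have hρ0pos : 0 < ρ0 := lt_min one_pos (by positivity)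
  refine ⟨C / ρ0 ^ 6, fun a h0 h1 h2 => ?_⟩
  by_contra hcon
  push Not at hcon
  have ha0 : 0 < ‖a 0‖ := hc.trans_le h0
  have ha0C : ‖a 0‖ ≤ C := h1 0 (by norm_num)
  have ha6 : 0 < ‖a 6‖ := lt_of_le_of_lt (by positivity) hcon
  have ha0' : a 0 ≠ 0 := norm_pos_iff.1 ha0
  have ha6' : a 6 ≠ 0 := norm_pos_iff.1 ha6
  -- the scale
  obtain ⟨ρ, hρ, hρ6⟩ : ∃ ρ : ℝ, 0 < ρ ∧ ρ ^ 6 = ‖a 0‖ / ‖a 6‖ := by
    refine ⟨(‖a 0‖ / ‖a 6‖) ^ (((6 : ℕ) : ℝ)⁻¹), by positivity, ?_⟩
    exact Real.rpow_inv_natCast_pow (by positivity) (by norm_num)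
  have hρlt : ρ < ρ0 := by
    refine lt_of_pow_lt_pow_left₀ 6 hρ0pos.le ?_
    rw [hρ6, div_lt_iff₀ ha6]
    rw [div_lt_iff₀ (by positivity)] at hcon
    nlinarith
  have hρ1 : ρ < 1 := hρlt.trans_le (min_le_left _ _)
  have hρ2 : ρ * (200 * C) < c := by
    have := hρlt.trans_le (min_le_right _ _)
    rwa [lt_div_iff₀ (by positivity)] at this
  -- the direction
  set t : ℝ := arg (-a 0 / a 6) with ht
  have ht1 : -Real.pi < t := neg_pi_lt_arg _
  have ht2 : t ≤ Real.pi := arg_le_pi _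
  set s0 : ℂ := exp ((t / 6 : ℝ) * I) with hs0
  have hs0n : ‖s0‖ = 1 := norm_exp_ofReal_mul_I _
  have hs0ne : s0 ≠ 0 := exp_ne_zero _
  have hpi := Real.pi_pos
  have hs0a : |arg s0| ≤ Real.pi / 6 := by
    have h3 : arg s0 = t / 6 := by
      rw [hs0, exp_mul_I]
      exact_mod_cast arg_cos_add_sin_mul_I (θ := t / 6) ⟨by linarith, by linarith⟩
    rw [h3, abs_le]
    exact ⟨by linarith, by linarith⟩
  have hs06 : a 6 * (ρ : ℂ) ^ 6 * s0 ^ 6 = -a 0 := by
    have h3 : s0 ^ 6 = exp (t * I) := by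
      rw [hs0, ← exp_nat_mul]
      congr 1
      push_cast
      ring
    have h4 := norm_mul_exp_arg_mul_I (-a 0 / a 6)
    rw [← ht] at h4
    have h5 : (ρ : ℂ) ^ 6 = ((‖-a 0 / a 6‖ : ℝ) : ℂ) := by
      rw [norm_div, norm_neg, ← hρ6]
      push_cast
      rfl
    rw [h3, h5, mul_assoc, h4]
    field_simp
  -- the function
  set f : ℂ → ℂ := fun s => ∑ i ∈ range 7, a i * ((ρ : ℂ) * s) ^ i with hf
  have hfne : ∀ s, ‖s - s0‖ ≤ 1 / 4 → f s ≠ 0 := by
    intro s hs
    obtain ⟨hs1, hs2⟩ := abs_arg_sector s0 s hs0n hs0a hs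
    refine h2 ((ρ : ℂ) * s) (mul_ne_zero (by exact_mod_cast hρ.ne') hs1) ?_
    rw [arg_real_mul s hρ]
    exact hs2
  have hferr : ∀ s, ‖s - s0‖ ≤ 1 / 4 →
      ‖f s - a 0 * (1 - (s / s0) ^ 6)‖ < c / 12 := by
    intro s hs
    have hsn : ‖s‖ ≤ 5 / 4 := by
      have h3 := norm_add_le (s - s0) s0
      rw [sub_add_cancel, hs0n] at h3
      linarith
    have h3 : f s - a 0 * (1 - (s / s0) ^ 6) =
        a 1 * ((ρ : ℂ) * s) ^ 1 + a 2 * ((ρ : ℂ) * s) ^ 2 + a 3 * ((ρ : ℂ) * s) ^ 3 +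
          a 4 * ((ρ : ℂ) * s) ^ 4 + a 5 * ((ρ : ℂ) * s) ^ 5 := by
      have h4 : a 6 * ((ρ : ℂ) * s) ^ 6 = -a 0 * (s / s0) ^ 6 := by
        rw [← hs06]
        field_simp
      rw [hf]
      simp only [sum_range_succ, sum_range_zero]
      rw [h4]
      ring
    have h5 : ∀ i : ℕ, 1 ≤ i → i ≤ 5 → ‖a i * ((ρ : ℂ) * s) ^ i‖ ≤ C * (ρ * (5 / 4) ^ 5) := by
      intro i hi1 hi5
      rw [norm_mul, norm_pow, norm_mul, norm_real, Real.norm_of_nonneg hρ.le]
      refine mul_le_mul (h1 i hi5) ?_ (by positivity) hC.le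
      rw [mul_pow]
      refine mul_le_mul ?_ ?_ (by positivity) hρ.le
      · exact pow_le_of_le_one hρ.le hρ1.le (by omega)
      · calc ‖s‖ ^ i ≤ (5 / 4) ^ i := pow_le_pow_left₀ (norm_nonneg s) hsn i
          _ ≤ (5 / 4) ^ 5 := pow_le_pow_right₀ (by norm_num) hi5
    have h6 : ‖f s - a 0 * (1 - (s / s0) ^ 6)‖ ≤ 5 * (C * (ρ * (5 / 4) ^ 5)) := by
      rw [h3]
      refine ((norm_add_le _ _).trans (add_le_add ((norm_add_le _ _).trans (add_le_add
        ((norm_add_le _ _).trans (add_le_add ((norm_add_le _ _).trans (add_le_add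
          (h5 1 (by norm_num) (by norm_num)) (h5 2 (by norm_num) (by norm_num))))
          (h5 3 (by norm_num) (by norm_num)))) (h5 4 (by norm_num) (by norm_num))))
          (h5 5 (by norm_num) (by norm_num)))).trans ?_
      linarith
    nlinarith
  -- the maximum principle for the inverse
  have hfd : Differentiable ℂ f := by
    rw [hf]
    fun_prop
  have hg : DiffContOnCl ℂ (fun s => (f s)⁻¹) (ball s0 (1 / 4)) := by
    refine hfd.diffContOnCl.inv fun s hs => ?_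
    rw [closure_ball s0 (by norm_num), mem_closedBall, dist_eq_norm] at hs
    exact hfne s hs
  have hfr : ∀ s ∈ frontier (ball s0 (1 / 4 : ℝ)), ‖(f s)⁻¹‖ ≤ (c / 12)⁻¹ := by
    intro s hs
    rw [frontier_ball s0 (by norm_num), mem_sphere, dist_eq_norm] at hs
    rw [norm_inv]
    refine inv_anti₀ (by positivity) ?_
    have h3 := hferr s hs.le
    have h4 : 1 / 6 ≤ ‖1 - (s / s0) ^ 6‖ := by
      have h5 : s / s0 = 1 + (s / s0 - 1) := by ring
      rw [h5]
      refine lower _ ?_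
      have h6 : s / s0 - 1 = (s - s0) / s0 := by field_simp
      rw [h6, norm_div, hs0n, div_one, hs]
    have h5 : c / 6 ≤ ‖a 0 * (1 - (s / s0) ^ 6)‖ := by
      rw [norm_mul]
      nlinarith
    have h6 := norm_sub_norm_le (a 0 * (1 - (s / s0) ^ 6)) (a 0 * (1 - (s / s0) ^ 6) - f s)
    rw [sub_sub_cancel, norm_sub_rev (a 0 * (1 - (s / s0) ^ 6)) (f s)] at h6
    linarith
  have h3 := norm_le_of_forall_mem_frontier_norm_le isBounded_ball hg hfr
    (subset_closure (mem_ball_self (by norm_num : (0 : ℝ) < 1 / 4)))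
  have h4 : ‖f s0‖ < c / 12 := by
    have h5 := hferr s0 (by rw [sub_self, norm_zero]; norm_num)
    rwa [div_self hs0ne, one_pow, sub_self, mul_zero, sub_zero] at h5
  have h5 : 0 < ‖f s0‖ := norm_pos_iff.2 (hfne s0 (by rw [sub_self, norm_zero]; norm_num))
  rw [norm_inv] at h3
  exact absurd ((inv_le_inv₀ h5 (by positivity)).1 h3) (not_le.2 h4)

end Pool.Agent.MultS

end

section

/-!
# [W2] The climb
-/

set_option autoImplicit false

open Complex Metric Set Filter Topology MeasureTheory Finset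

namespace Pool.Agent.MultS

namespace ClimbAux

/-- Coefficients of `NN` as a polynomial in `σ`. -/
noncomputable def aa (lam : ℕ → ℂ) (p s : ℝ) (z : ℂ) (i : ℕ) : ℂ :=
  (Nat.choose 6 (6 - i) : ℂ) * (((s - ((6 - i : ℕ) : ℝ) * ((s - p) / 6) : ℝ) : ℂ) *
    JJ lam ((((6 - i : ℕ) : ℝ) * ((s - p) / 6) - s : ℝ) : ℂ) z)

theorem sum_aa (lam : ℕ → ℂ) (p s : ℝ) (σ z : ℂ) :
    ∑ i ∈ range 7, aa lam p s z i * σ ^ i = NN lam p s σ z := by
  unfold NN
  rw [← Finset.sum_range_reflect]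
  refine Finset.sum_congr rfl (fun j hj => ?_)
  rw [Finset.mem_range] at hj
  have h1 : 6 - (7 - 1 - j) = j := by omega
  unfold aa
  rw [h1, show 7 - 1 - j = 6 - j by omega]
  ring

theorem step (hP : Poly) (lam : ℕ → ℂ) (p c s : ℝ) (hp : 0 < p) (hp8 : p ≤ 1 / 8) (hc : 0 < c)
    (hN : ∀ σ : ℂ, σ ≠ 0 → |arg σ| ≤ Real.pi / 3 → ∀ z ∈ ball (0 : ℂ) 1, NN lam p s σ z ≠ 0)
    (hlow : ∀ z ∈ ball (0 : ℂ) 1, c ≤ ‖JJ lam ((-p : ℝ) : ℂ) z‖) (hs : 3 / 4 ≤ s) (hs2 : s ≤ 2)
    (hI : ∀ t : ℝ, 0 ≤ t → t ≤ s - 1 / 10 →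
      ∃ C : ℝ, ∀ z ∈ ball (0 : ℂ) 1, ‖JJ lam ((-t : ℝ) : ℂ) z‖ ≤ C) :
    ∃ C : ℝ, ∀ z ∈ ball (0 : ℂ) 1, ‖JJ lam ((-s : ℝ) : ℂ) z‖ ≤ C := by
  have hb : 1 / 10 ≤ (s - p) / 6 := by linarith
  have h1 : ∀ j : ℕ, ∃ C : ℝ, 1 ≤ j → j ≤ 6 → ∀ z ∈ ball (0 : ℂ) 1,
      ‖JJ lam (((j : ℝ) * ((s - p) / 6) - s : ℝ) : ℂ) z‖ ≤ C := by
    intro j
    by_cases hj : 1 ≤ j ∧ j ≤ 6
    · have hj1 : (1 : ℝ) ≤ j := by exact_mod_cast hj.1
      have hj6 : (j : ℝ) ≤ 6 := by exact_mod_cast hj.2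
      have h0 : 0 ≤ (s - p) / 6 := by linarith
      have h2 : (j : ℝ) * ((s - p) / 6) ≤ 6 * ((s - p) / 6) :=
        mul_le_mul_of_nonneg_right hj6 h0
      have h3 : 1 * ((s - p) / 6) ≤ (j : ℝ) * ((s - p) / 6) :=
        mul_le_mul_of_nonneg_right hj1 h0
      obtain ⟨C, hC⟩ := hI (s - (j : ℝ) * ((s - p) / 6)) (by linarith) (by linarith)
      refine ⟨C, fun _ _ z hz => ?_⟩
      have h4 : -(s - (j : ℝ) * ((s - p) / 6)) = (j : ℝ) * ((s - p) / 6) - s := by ring
      have := hC z hz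
      rwa [h4] at this
    · exact ⟨0, fun h h' => absurd ⟨h, h'⟩ hj⟩
  choose CC hCC using h1
  set M : ℝ := ∑ j ∈ range 7, |CC j| with hM
  have hMj : ∀ j : ℕ, j ≤ 6 → |CC j| ≤ M := fun j hj =>
    Finset.single_le_sum (f := fun j => |CC j|) (fun i _ => abs_nonneg _)
      (Finset.mem_range.mpr (by omega))
  have hM0 : 0 ≤ M := Finset.sum_nonneg (fun i _ => abs_nonneg _)
  obtain ⟨A0, hA0⟩ := hP (p * c) (20 * (2 * M)) (mul_pos hp hc)
  refine ⟨A0 / s, fun z hz => ?_⟩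
  have hs0 : 0 < s := by linarith
  have ha := hA0 (aa lam p s z) ?_ ?_ ?_
  · have e : aa lam p s z 6 = (s : ℂ) * JJ lam ((-s : ℝ) : ℂ) z := by
      unfold aa
      simp
    rw [e, norm_mul, Complex.norm_real, Real.norm_of_nonneg hs0.le] at ha
    rw [le_div_iff₀ hs0]
    linarith
  · have e : aa lam p s z 0 = (p : ℂ) * JJ lam ((-p : ℝ) : ℂ) z := by
      unfold aa
      have e1 : s - ((6 - 0 : ℕ) : ℝ) * ((s - p) / 6) = p := by
        push_cast
        ring
      have e2 : ((6 - 0 : ℕ) : ℝ) * ((s - p) / 6) - s = -p := by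
        push_cast
        ring
      rw [e1, e2]
      simp
    rw [e, norm_mul, Complex.norm_real, Real.norm_of_nonneg hp.le]
    exact mul_le_mul_of_nonneg_left (hlow z hz) hp.le
  · intro i hi
    have hj1 : 1 ≤ 6 - i := by omega
    have hj6 : 6 - i ≤ 6 := by omega
    have hch : (Nat.choose 6 (6 - i)) ≤ 20 := by
      interval_cases i <;> decide
    have hch' : ‖((Nat.choose 6 (6 - i) : ℕ) : ℂ)‖ ≤ 20 := by
      rw [Complex.norm_natCast]
      exact_mod_cast hch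
    have hJ := hCC (6 - i) hj1 hj6 z hz
    have hJ' : ‖JJ lam ((((6 - i : ℕ) : ℝ) * ((s - p) / 6) - s : ℝ) : ℂ) z‖ ≤ M :=
      hJ.trans ((le_abs_self _).trans (hMj _ hj6))
    have hsj : ‖((s - ((6 - i : ℕ) : ℝ) * ((s - p) / 6) : ℝ) : ℂ)‖ ≤ 2 := by
      rw [Complex.norm_real, Real.norm_eq_abs, abs_le]
      have h0 : 0 ≤ (s - p) / 6 := by linarith
      have hc1 : (0 : ℝ) ≤ ((6 - i : ℕ) : ℝ) := Nat.cast_nonneg _
      have hc6 : ((6 - i : ℕ) : ℝ) ≤ 6 := by exact_mod_cast hj6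
      have h2 : ((6 - i : ℕ) : ℝ) * ((s - p) / 6) ≤ 6 * ((s - p) / 6) :=
        mul_le_mul_of_nonneg_right hc6 h0
      have h3 : 0 ≤ ((6 - i : ℕ) : ℝ) * ((s - p) / 6) := mul_nonneg hc1 h0
      constructor <;> linarith
    unfold aa
    rw [norm_mul, norm_mul]
    exact mul_le_mul hch' (mul_le_mul hsj hJ' (norm_nonneg _) (by norm_num))
      (mul_nonneg (norm_nonneg _) (norm_nonneg _)) (by norm_num)
  · intro σ hσ hσ'
    rw [sum_aa]
    exact hN σ hσ hσ' z hz

end ClimbAux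

theorem prfClimb (hP : Poly) : Climb := by
  intro lam p c hp hp8 hc hN hlow hstart
  have key : ∀ k : ℕ, ∀ s : ℝ, 0 ≤ s → s ≤ 2 → s ≤ 3 / 4 + (k : ℝ) / 10 →
      ∃ C : ℝ, ∀ z ∈ ball (0 : ℂ) 1, ‖JJ lam ((-s : ℝ) : ℂ) z‖ ≤ C := by
    intro k
    induction k with
    | zero =>
      intro s h0 _ h1
      simp only [Nat.cast_zero, zero_div, add_zero] at h1
      exact hstart s h0 h1
    | succ k ih =>
      intro s h0 h2 h1
      push_cast at h1
      rcases le_total s (3 / 4) with h | h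
      · exact hstart s h0 h
      · refine ClimbAux.step hP lam p c s hp hp8 hc (fun σ h1 h2' => hN s σ (by linarith) h2 h1 h2')
          hlow h h2 (fun t ht0 ht => ih t ht0 (by linarith) (by linarith))
  intro s h0 h2
  exact key 20 s h0 h2 (by norm_num; linarith)

end Pool.Agent.MultS

end

section

/-!
# MP_b17785_an, item A3: the test functions a z / (1-z)^2 + (1-a) z / (1-z)
-/

set_option autoImplicit false

open Complex Metric Set Filter Topology MeasureTheory Finset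

namespace Pool.Agent.MultS

namespace ItemA3

theorem hasSum_one {z : ℂ} (hz : ‖z‖ < 1) :
    HasSum (fun n : ℕ => (if n = 0 then 0 else 1 : ℂ) * z ^ n) (z / (1 - z)) := by
  have h1 := (hasSum_geometric_of_norm_lt_one hz)
  have h2 : HasSum (fun n : ℕ => (if n = 0 then (1 : ℂ) else 0)) 1 := by
    have := hasSum_ite_eq (0 : ℕ) (1 : ℂ)
    simpa using this
  have h3 := h1.sub h2
  have hne : (1 : ℂ) - z ≠ 0 := by
    intro h
    have : z = 1 := (sub_eq_zero.1 h).symm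
    rw [this] at hz
    simp at hz
  have h4 : (1 - z)⁻¹ - 1 = z / (1 - z) := by
    field_simp
    ring
  rw [h4] at h3
  refine h3.congr_fun ?_
  intro n
  by_cases hn : n = 0
  · simp [hn]
  · simp [hn]

theorem sep {z : ℂ} (hz : ‖z‖ < 1) : 1 / 2 < (1 / (1 - z)).re := by
  have hne : (1 : ℂ) - z ≠ 0 := by
    intro h
    have : z = 1 := (sub_eq_zero.1 h).symm
    rw [this] at hz
    simp at hz
  have hpos : 0 < Complex.normSq (1 - z) := Complex.normSq_pos.2 hne
  rw [one_div (1 - z), Complex.inv_re, lt_div_iff₀ hpos, Complex.normSq_apply]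
  have h1 : z.re ^ 2 + z.im ^ 2 < 1 := by
    have : Complex.normSq z < 1 := by
      rw [Complex.normSq_eq_norm_sq]
      nlinarith [norm_nonneg z]
    rw [Complex.normSq_apply] at this
    nlinarith
  simp
  nlinarith

end ItemA3

open ItemA3 in
theorem prfTestA : TestA := by
  intro a ha
  have hsum : ∀ z ∈ ball (0 : ℂ) 1, HasSum
      (fun n : ℕ => (if n = 0 then 0 else 1 + a * ((n : ℂ) - 1)) * z ^ n)
      (a * (z / (1 - z) ^ 2) + (1 - a) * (z / (1 - z))) := by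
    intro z hz
    rw [mem_ball_zero_iff] at hz
    have h1 := (hasSum_one hz).mul_left (1 - a)
    have h2 := (hasSum_coe_mul_geometric_of_norm_lt_one hz).mul_left a
    refine (h2.add h1).congr_fun ?_
    intro n
    by_cases hn : n = 0
    · simp [hn]
    · simp only [hn, if_false]
      ring
  have hd : DifferentiableOn ℂ (fun z => a * (z / (1 - z) ^ 2) + (1 - a) * (z / (1 - z)))
      (ball 0 1) := by
    have := (fps_of_hasSum hsum).differentiableOn
    rwa [← ENNReal.ofReal_one, Metric.eball_ofReal] at this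
  have htc := tc_of_hasSum hsum
  refine ⟨fun z => a * (z / (1 - z) ^ 2) + (1 - a) * (z / (1 - z)), ⟨hd, ?_, by simp, ?_⟩, ?_⟩
  · -- injectivity
    intro z hz w hw hzw
    rw [mem_ball_zero_iff] at hz hw
    have hz1 : (1 : ℂ) - z ≠ 0 := by
      intro h
      have : z = 1 := (sub_eq_zero.1 h).symm
      rw [this] at hz
      simp at hz
    have hw1 : (1 : ℂ) - w ≠ 0 := by
      intro h
      have : w = 1 := (sub_eq_zero.1 h).symm
      rw [this] at hw
      simp at hw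
    have hu := sep hz
    have hv := sep hw
    set u := 1 / (1 - z) with hudef
    set v := 1 / (1 - w) with hvdef
    have e1 : a * (z / (1 - z) ^ 2) + (1 - a) * (z / (1 - z)) =
        a * (u ^ 2 - u) + (1 - a) * (u - 1) := by
      rw [hudef]
      field_simp
      ring
    have e2 : a * (w / (1 - w) ^ 2) + (1 - a) * (w / (1 - w)) =
        a * (v ^ 2 - v) + (1 - a) * (v - 1) := by
      rw [hvdef]
      field_simp
      ring
    have hfac : (u - v) * (a * (u + v - 2) + 1) = 0 := by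
      have : a * (z / (1 - z) ^ 2) + (1 - a) * (z / (1 - z)) =
        a * (w / (1 - w) ^ 2) + (1 - a) * (w / (1 - w)) := hzw
      rw [e1, e2] at this
      linear_combination this
    rcases mul_eq_zero.1 hfac with h | h
    · have huv : u = v := sub_eq_zero.1 h
      rw [hudef, hvdef] at huv
      have : 1 - z = 1 - w := by
        field_simp at huv
        exact huv.symm
      exact sub_right_injective this
    · exfalso
      set s := u + v - 2 with hs
      have hsre : -1 < s.re := by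
        rw [hs]
        simp
        linarith
      -- a s = -1
      have has : a * s = -1 := by linear_combination h
      have ha2 : a.re ^ 2 + a.im ^ 2 ≤ a.re := by
        have h1 : ‖a - 1 / 2‖ ^ 2 ≤ (1 / 2) ^ 2 := by
          have := norm_nonneg (a - 1 / 2)
          nlinarith
        rw [← Complex.normSq_eq_norm_sq, Complex.normSq_apply] at h1
        simp at h1
        nlinarith
      have hre : a.re * s.re - a.im * s.im = -1 := by
        have := congrArg Complex.re has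
        simpa using this
      have him : a.re * s.im + a.im * s.re = 0 := by
        have := congrArg Complex.im has
        simpa using this
      have ha0 : a ≠ 0 := by
        rintro rfl
        simp at has
      have hapos : 0 < a.re ^ 2 + a.im ^ 2 := by
        have := Complex.normSq_pos.2 ha0
        rw [Complex.normSq_apply] at this
        nlinarith
      -- |a|^2 s.re = -a.re
      have hkey : (a.re ^ 2 + a.im ^ 2) * s.re = -a.re := by
        linear_combination a.re * hre + a.im * him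
      nlinarith
  · -- derivative at 0
    have h1 := htc 1
    rw [tc, iteratedDeriv_one] at h1
    simpa using h1
  · intro n hn
    rw [htc n, if_neg (by omega)]

end Pool.Agent.MultS

end

section

set_option autoImplicit false

open Complex Metric Set Filter Topology MeasureTheory Finset

namespace Pool.Agent.MultS

/-- `κ(ζ) = σ exp(-b ζ)`. -/
noncomputable def A5_kap (b : ℝ) (σ ζ : ℂ) : ℂ := σ * exp (-((b : ℂ) * ζ))

theorem A5_kap_re {b : ℝ} {σ ζ : ℂ} (hb0 : 0 < b) (hb : b < 1 / 3) (hσ : σ ≠ 0)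
    (ha : |arg σ| ≤ Real.pi / 3) (hζ : |ζ.im| < Real.pi / 2) : 0 < (A5_kap b σ ζ).re := by
  have h1 : A5_kap b σ ζ =
      ((‖σ‖ : ℝ) : ℂ) * exp ((arg σ : ℂ) * I - (b : ℂ) * ζ) := by
    unfold A5_kap
    rw [sub_eq_add_neg, exp_add, ← mul_assoc, Complex.norm_mul_exp_arg_mul_I]
  have h2 : ((arg σ : ℂ) * I - (b : ℂ) * ζ).re = -(b * ζ.re) := by
    simp
  have h3 : ((arg σ : ℂ) * I - (b : ℂ) * ζ).im = arg σ - b * ζ.im := by
    simp
  rw [h1, Complex.re_ofReal_mul, Complex.exp_re, h2, h3]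
  have hπ := Real.pi_pos
  have h4 : |b * ζ.im| < Real.pi / 6 := by
    rw [abs_mul, abs_of_pos hb0]
    have h5 : 0 ≤ |ζ.im| := abs_nonneg _
    nlinarith
  have h6 := abs_lt.mp h4
  have h7 := abs_le.mp ha
  have h8 : 0 < Real.cos (arg σ - b * ζ.im) := by
    apply Real.cos_pos_of_mem_Ioo
    constructor
    · linarith [h6.2, h7.1]
    · linarith [h6.1, h7.2]
  have h9 : 0 < ‖σ‖ := norm_pos_iff.mpr hσ
  positivity

theorem A5_w {κ : ℂ} (hκ : 0 < κ.re) : ‖κ / (1 + κ) - 1 / 2‖ ≤ 1 / 2 := by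
  have h0 : 0 < (1 + κ).re := by simp only [add_re, one_re]; linarith
  have hne : 1 + κ ≠ 0 := by
    intro h
    rw [h] at h0
    simp at h0
  have h1 : κ / (1 + κ) - 1 / 2 = (κ - 1) / (2 * (1 + κ)) := by
    field_simp
    ring
  rw [h1, norm_div, norm_mul]
  have h2 : ‖κ - 1‖ ≤ ‖1 + κ‖ := by
    rw [← sq_le_sq₀ (norm_nonneg _) (norm_nonneg _), ← Complex.normSq_eq_norm_sq,
      ← Complex.normSq_eq_norm_sq, Complex.normSq_apply, Complex.normSq_apply]
    simp only [sub_re, one_re, sub_im, one_im, add_re, add_im]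
    nlinarith
  have h3 : 0 < ‖1 + κ‖ := norm_pos_iff.mpr hne
  rw [div_le_iff₀ (by simp; exact hne)]
  simp only [Complex.norm_ofNat]
  linarith

/-- The identity `exp(-pζ) (1 + σ exp(-bζ))^6 = ∑ C(6,j) σ^(6-j) exp((jb-s)ζ)`. -/
theorem A5_expand (p s : ℝ) (σ ζ : ℂ) :
    exp (-((p : ℂ) * ζ)) * (1 + A5_kap ((s - p) / 6) σ ζ) ^ 6 =
      ∑ j ∈ range 7, (Nat.choose 6 j : ℂ) * σ ^ (6 - j) *
        exp (ζ * ((j * ((s - p) / 6) - s : ℝ) : ℂ)) := by
  rw [add_pow, Finset.mul_sum]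
  refine Finset.sum_congr rfl fun j hj => ?_
  have hj7 : j < 7 := Finset.mem_range.mp hj
  have hj' : j ≤ 6 := by omega
  obtain ⟨i, hi⟩ := Nat.exists_eq_add_of_le hj'
  have hi' : 6 - j = i := by omega
  rw [hi']
  unfold A5_kap
  rw [one_pow, one_mul, mul_pow, ← Complex.exp_nat_mul]
  have h1 : exp (-((p : ℂ) * ζ)) * (σ ^ i * exp ((i : ℂ) * -((((s - p) / 6 : ℝ) : ℂ) * ζ)) *
      (Nat.choose 6 j : ℂ)) = (Nat.choose 6 j : ℂ) * σ ^ i *
      (exp (-((p : ℂ) * ζ)) * exp ((i : ℂ) * -((((s - p) / 6 : ℝ) : ℂ) * ζ))) := by ring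
  rw [h1, ← Complex.exp_add]
  congr 2
  have h2 : (i : ℂ) = 6 - (j : ℂ) := by
    have h3 : ((j + i : ℕ) : ℂ) = ((6 : ℕ) : ℂ) := by rw [← hi]
    push_cast at h3
    linear_combination h3
  rw [h2]
  push_cast
  ring

theorem A5_lin (c ζ : ℂ) : HasDerivAt (fun ζ : ℂ => -(c * ζ)) (-c) ζ := by
  have h := (hasDerivAt_id ζ).const_mul (-c)
  have e : (fun ζ : ℂ => -(c * ζ)) = fun y : ℂ => -c * id y := by
    funext y
    simp
  rw [e]
  simpa using h

theorem prfTestN (a0 : Strip) (a1 : DerNe) (a2 : PowCoef) : TestN := by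
  intro p s σ hp hps hs hσ harg
  set b : ℝ := (s - p) / 6 with hb
  have hb0 : 0 < b := by rw [hb]; linarith
  have hb3 : b < 1 / 3 := by rw [hb]; linarith
  -- the function g z = Φ (1 - z)
  set g : ℂ → ℂ := fun z => ∑ j ∈ range 7, (Nat.choose 6 j : ℂ) * σ ^ (6 - j) *
    (1 - z) ^ ((j * ((s - p) / 6) - s : ℝ) : ℂ) with hg
  -- Y
  set Y : ℂ → ℂ := fun ζ => -((p : ℂ) * ζ) + 6 * log (1 + A5_kap b σ ζ) with hY
  have hk1 : ∀ ζ : ℂ, |ζ.im| < Real.pi / 2 → 1 + A5_kap b σ ζ ∈ slitPlane := by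
    intro ζ hζ
    refine Or.inl ?_
    have := A5_kap_re hb0 hb3 hσ harg hζ
    simp only [add_re, one_re]
    linarith
  have hYexp : ∀ ζ : ℂ, |ζ.im| < Real.pi / 2 → exp (Y ζ) =
      exp (-((p : ℂ) * ζ)) * (1 + A5_kap b σ ζ) ^ 6 := by
    intro ζ hζ
    have hne := slitPlane_ne_zero (hk1 ζ hζ)
    simp only [hY]
    rw [Complex.exp_add]
    congr 1
    have h6 : (6 : ℂ) * log (1 + A5_kap b σ ζ) = ((6 : ℕ) : ℂ) * log (1 + A5_kap b σ ζ) := by
      norm_num
    rw [h6, Complex.exp_nat_mul, exp_log hne]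
  have hgY : ∀ z ∈ ball (0 : ℂ) 1, g z = exp (Y (log (1 - z))) := by
    intro z hz
    have hne : (1 - z) ≠ 0 := slitPlane_ne_zero (A4_slit hz)
    rw [hYexp _ (A4_log_im (A4_re_pos hz)), A5_expand p s σ]
    simp only [hg]
    refine Finset.sum_congr rfl fun j _ => ?_
    rw [cpow_def_of_ne_zero hne]
  -- derivative of Y
  have hYder : ∀ ζ : ℂ, |ζ.im| < Real.pi / 2 →
      ∃ d ∈ closedBall ((-(s + p) / 2 : ℝ) : ℂ) ((s - p) / 2), HasDerivAt Y d ζ := by
    intro ζ hζ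
    have hre := A5_kap_re hb0 hb3 hσ harg hζ
    have hsl := hk1 ζ hζ
    have hkd : HasDerivAt (fun ζ : ℂ => A5_kap b σ ζ) (-(b : ℂ) * A5_kap b σ ζ) ζ := by
      have h1 : HasDerivAt (fun ζ : ℂ => -((b : ℂ) * ζ)) (-(b : ℂ)) ζ := A5_lin _ _
      have h2 := (h1.cexp).const_mul σ
      have h3 : σ * (exp (-((b : ℂ) * ζ)) * -(b : ℂ)) = -(b : ℂ) * A5_kap b σ ζ := by
        unfold A5_kap
        ring
      rw [h3] at h2
      exact h2
    have h4 := (hkd.const_add 1).clog hsl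
    have h5 : HasDerivAt (fun ζ : ℂ => -((p : ℂ) * ζ)) (-(p : ℂ)) ζ := A5_lin _ _
    have h6 := h5.add (h4.const_mul 6)
    refine ⟨_, ?_, h6⟩
    have h7 := A5_w hre
    set w : ℂ := A5_kap b σ ζ / (1 + A5_kap b σ ζ) with hw
    have h8 : (-(p : ℂ) + 6 * (-(b : ℂ) * A5_kap b σ ζ / (1 + A5_kap b σ ζ))) -
        ((-(s + p) / 2 : ℝ) : ℂ) = -(((s - p : ℝ) : ℂ)) * (w - 1 / 2) := by
      rw [hw, hb]
      push_cast
      ring
    rw [mem_closedBall, dist_eq_norm, h8, norm_mul, norm_neg, Complex.norm_real,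
      Real.norm_of_nonneg (by linarith)]
    nlinarith
  have hK1 : closedBall ((-(s + p) / 2 : ℝ) : ℂ) ((s - p) / 2) ⊆ closedBall (-1) 1 := by
    apply closedBall_subset_closedBall'
    rw [dist_eq_norm]
    have h1 : (((-(s + p) / 2 : ℝ) : ℂ)) - (-1) = ((1 - (s + p) / 2 : ℝ) : ℂ) := by
      push_cast
      ring
    rw [h1, Complex.norm_real, Real.norm_eq_abs]
    rcases abs_cases (1 - (s + p) / 2) with h | h
    · rw [h.1]; linarith
    · rw [h.1]; linarith
  have hK0 : (0 : ℂ) ∉ closedBall ((-(s + p) / 2 : ℝ) : ℂ) ((s - p) / 2) := by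
    rw [mem_closedBall, dist_eq_norm, zero_sub, norm_neg, Complex.norm_real, Real.norm_eq_abs,
      not_le, abs_of_neg (by linarith)]
    linarith
  have hinj := a0 Y _ (convex_closedBall _ _) isClosed_closedBall hK1 hK0 hYder
  -- properties of g
  have hgd : DifferentiableOn ℂ g (ball 0 1) := by
    intro z hz
    simp only [hg]
    refine DifferentiableWithinAt.fun_sum fun j _ => ?_
    exact ((A4_hasDerivAt _ hz).differentiableAt.const_mul _).differentiableWithinAt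
  have hgi : InjOn g (ball 0 1) := by
    intro z₁ hz₁ z₂ hz₂ heq
    rw [hgY z₁ hz₁, hgY z₂ hz₂] at heq
    have h1 := hinj _ _ (A4_log_im (A4_re_pos hz₁)) (A4_log_im (A4_re_pos hz₂)) heq
    have hne₁ : (1 - z₁) ≠ 0 := slitPlane_ne_zero (A4_slit hz₁)
    have hne₂ : (1 - z₂) ≠ 0 := slitPlane_ne_zero (A4_slit hz₂)
    have h4 : (1 - z₁) = (1 - z₂) := by
      rw [← exp_log hne₁, ← exp_log hne₂, h1]
    linear_combination -h4
  have h0 : (0 : ℂ) ∈ ball (0 : ℂ) 1 := by simp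
  have hg0 : deriv g 0 ≠ 0 := a1 (ball 0 1) g isOpen_ball hgd hgi 0 h0
  refine ⟨fun z => (g z - g 0) * (deriv g 0)⁻¹, (deriv g 0)⁻¹, ⟨?_, ?_, ?_, ?_⟩,
    inv_ne_zero hg0, ?_⟩
  · exact (hgd.sub_const _).mul_const _
  · intro z₁ hz₁ z₂ hz₂ heq
    have h1 : (g z₁ - g 0) * (deriv g 0)⁻¹ = (g z₂ - g 0) * (deriv g 0)⁻¹ := heq
    have h2 := mul_right_cancel₀ (inv_ne_zero hg0) h1
    exact hgi hz₁ hz₂ (sub_left_injective h2)
  · simp
  · have h1 : HasDerivAt g (deriv g 0) 0 :=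
      (hgd.differentiableAt (isOpen_ball.mem_nhds h0)).hasDerivAt
    have h2 := (h1.sub_const (g 0)).mul_const (deriv g 0)⁻¹
    rw [h2.deriv]
    exact mul_inv_cancel₀ hg0
  · intro n hn
    have h1 := A4_tc_lin (range 7) (fun j => (Nat.choose 6 j : ℂ) * σ ^ (6 - j))
      (fun j => ((j * ((s - p) / 6) - s : ℝ) : ℂ)) (g 0) (deriv g 0)⁻¹ n hn
    have h2 : (fun z => (g z - g 0) * (deriv g 0)⁻¹) =
        (fun z : ℂ => ((∑ j ∈ range 7, (fun j : ℕ => (Nat.choose 6 j : ℂ) * σ ^ (6 - j)) j *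
          (1 - z) ^ ((fun j : ℕ => ((j * ((s - p) / 6) - s : ℝ) : ℂ)) j)) - g 0) *
            (deriv g 0)⁻¹) := rfl
    rw [h2, h1, mul_comm]
    congr 1
    refine Finset.sum_congr rfl fun j _ => ?_
    rw [a2 _ n hn, ← hb]
    push_cast
    ring

end Pool.Agent.MultS

end

section

set_option autoImplicit false

open Complex Metric Set Filter Topology Finset

namespace Pool.Agent.MultS

theorem cf_neg_one (k : ℕ) : cf (-1) k = (k : ℂ) + 1 := by
  have h : ∏ i ∈ range k, (1 - (-1 : ℂ) + (i : ℂ)) = ((k + 1).factorial : ℂ) := by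
    induction k with
    | zero => simp
    | succ k ih =>
      rw [Finset.prod_range_succ, ih, Nat.factorial_succ (k + 1)]
      push_cast
      ring
  unfold cf
  rw [h, Nat.factorial_succ]
  have : (k.factorial : ℂ) ≠ 0 := by exact_mod_cast k.factorial_ne_zero
  push_cast
  field_simp

theorem cf_zero (k : ℕ) : cf 0 k = 1 := by
  have h : ∏ i ∈ range k, (1 - (0 : ℂ) + (i : ℂ)) = (k.factorial : ℂ) := by
    induction k with
    | zero => simp
    | succ k ih =>
      rw [Finset.prod_range_succ, ih, Nat.factorial_succ]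
      push_cast
      ring
  unfold cf
  rw [h]
  have : (k.factorial : ℂ) ≠ 0 := by exact_mod_cast k.factorial_ne_zero
  field_simp

theorem prfHDer (b1 : Ser) : HDer := by
  intro lam h hG z hz
  obtain ⟨⟨hd, hi, h0, h1⟩, hl⟩ := hG
  constructor
  · have := (b1 h hd z hz).2.1.tsum_eq
    rw [← this]
    unfold JJ
    congr 1
    funext k
    rw [cf_neg_one, hl (k + 1) (by omega)]
    ring
  · have := (hasSum_tc_succ hd h0 hz).tsum_eq
    rw [← this]
    unfold JJ
    rw [← tsum_mul_left]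
    congr 1
    funext k
    rw [cf_zero, hl (k + 1) (by omega)]
    ring

end Pool.Agent.MultS

end

section

set_option autoImplicit false

open Complex Metric Set Filter Topology MeasureTheory Finset

namespace Pool.Agent.MultS

theorem prfConv (a3 : TestA) (b1 : Ser) : Conv := by
  intro lam h hM hG z hz
  by_contra hcon
  rw [not_lt] at hcon
  obtain ⟨hS, hc⟩ := hG
  have hder : deriv h z ≠ 0 := prfDerNe (ball 0 1) h isOpen_ball hS.1 hS.2.1 z hz
  set w : ℂ := z * deriv (deriv h) z / deriv h z with hw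
  have hP : PP h z = 1 + w := rfl
  rw [hP] at hcon
  have hre : w.re ≤ -1 := by
    rw [add_re, one_re] at hcon
    linarith
  have hw0 : w ≠ 0 := by
    intro h0
    rw [h0, zero_re] at hre
    linarith
  have hwn : 0 < ‖w‖ := norm_pos_iff.mpr hw0
  have ha : ‖(-(1 / w)) - 1 / 2‖ ≤ 1 / 2 := by
    have e1 : (-(1 / w)) - 1 / 2 = -((w + 2) / (2 * w)) := by
      field_simp
      ring
    rw [e1, norm_neg, norm_div, norm_mul, Complex.norm_ofNat, div_le_iff₀ (by positivity)]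
    have e2 : ‖w + 2‖ ^ 2 ≤ ‖w‖ ^ 2 := by
      rw [← Complex.normSq_eq_norm_sq, ← Complex.normSq_eq_norm_sq, normSq_apply, normSq_apply]
      simp only [add_re, add_im, re_ofNat, im_ofNat]
      nlinarith
    have e3 : ‖w + 2‖ ≤ ‖w‖ := le_of_sq_le_sq e2 (norm_nonneg _)
    linarith
  obtain ⟨f, hf, hfc⟩ := a3 _ ha
  obtain ⟨g, hg, hgc⟩ := hM f hf
  obtain ⟨-, s1, s2⟩ := b1 h hS.1 z hz
  obtain ⟨-, s3, -⟩ := b1 g hg.1 z hz
  have s4 := s1.add (s2.mul_left (-(1 / w)))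
  have s5 : HasSum (fun k : ℕ => ((k : ℂ) + 1) * tc g (k + 1) * z ^ k)
      (deriv h z + -(1 / w) * (z * deriv (deriv h) z)) := by
    convert s4 using 1
    funext k
    rw [hgc (k + 1) (by omega), hfc (k + 1) (by omega), hc (k + 1) (by omega)]
    push_cast
    ring
  have e4 := s3.unique s5
  have e5 : z * deriv (deriv h) z = w * deriv h z := by
    rw [hw, div_mul_cancel₀ _ hder]
  have e6 : deriv h z + -(1 / w) * (z * deriv (deriv h) z) = 0 := by
    rw [e5]
    field_simp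
    ring
  exact prfDerNe (ball 0 1) g isOpen_ball hg.1 hg.2.1 z hz (e4.trans e6)

end Pool.Agent.MultS

end

section

set_option autoImplicit false

open Complex Metric Set Filter Topology Finset

namespace Pool.Agent.MultS

theorem prfMemQ (a4 : TestQ) (b1 : Ser) : MemQ := by
  intro lam hM q hq hq0
  obtain ⟨f, hf, hfc⟩ := a4 q hq hq0
  obtain ⟨g, hg, hgc⟩ := hM f hf
  refine ⟨g, hg, fun z hz => ?_⟩
  rw [← (b1 g hg.1 z hz).2.1.tsum_eq]
  unfold JJ
  congr 1
  funext k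
  have : ((k : ℂ) + 1) ≠ 0 := by exact_mod_cast Nat.succ_ne_zero k
  rw [hgc (k + 1) (by omega), hfc (k + 1) (by omega)]
  simp only [Nat.add_sub_cancel]
  push_cast
  field_simp

end Pool.Agent.MultS

end

section

set_option autoImplicit false

open Complex Metric Set Filter Topology MeasureTheory Finset

namespace Pool.Agent.MultS

theorem prfNonN (a5 : TestN) (b1 : Ser) (b4 : GenEx) (b2 : SerJ) : NonN := by
  intro lam hM p s σ hp hps hs hσ harg z hz h0
  obtain ⟨h, hG⟩ := b4 lam hM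
  obtain ⟨f, d, hf, hd, hfc⟩ := a5 p s σ hp hps hs hσ harg
  obtain ⟨g, hg, hgc⟩ := hM f hf
  obtain ⟨-, s1, -⟩ := b1 g hg.1 z hz
  have s2 : HasSum (fun k : ℕ => d * ∑ j ∈ range 7, (Nat.choose 6 j : ℂ) * σ ^ (6 - j) *
        (((s - j * ((s - p) / 6) : ℝ) : ℂ) *
          (lam (k + 1) * cf ((j * ((s - p) / 6) - s : ℝ) : ℂ) k * z ^ k)))
      (d * NN lam p s σ z) := by
    refine HasSum.mul_left d ?_
    rw [NN]
    refine hasSum_sum fun j _ => ?_
    refine HasSum.mul_left _ (HasSum.mul_left _ ?_)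
    exact (Summable.of_norm (b2 lam h hG _ z hz)).hasSum
  have s3 : HasSum (fun k : ℕ => ((k : ℂ) + 1) * tc g (k + 1) * z ^ k)
      (d * NN lam p s σ z) := by
    convert s2 using 1
    funext k
    have hk : ((k : ℂ) + 1) ≠ 0 := Nat.cast_add_one_ne_zero k
    rw [hgc (k + 1) (by omega), hfc (k + 1) (by omega)]
    simp only [Finset.mul_sum, Finset.sum_mul]
    refine Finset.sum_congr rfl fun j _ => ?_
    rw [Nat.add_sub_cancel]
    push_cast
    field_simp
  have e1 := s1.unique s3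
  rw [h0, mul_zero] at e1
  exact prfDerNe (ball 0 1) g isOpen_ball hg.1 hg.2.1 z hz e1

end Pool.Agent.MultS

end

section

set_option autoImplicit false

open Complex Metric Set Filter Topology Finset

namespace Pool.Agent.MultS

theorem prfPPan : PPan := by
  intro h hS
  obtain ⟨hd, hi, h0, h1⟩ := hS
  have hd1 : DifferentiableOn ℂ (deriv h) (ball 0 1) := hd.deriv isOpen_ball
  have hd2 : DifferentiableOn ℂ (deriv (deriv h)) (ball 0 1) := hd1.deriv isOpen_ball
  refine ⟨?_, by simp [PP]⟩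
  unfold PP
  refine DifferentiableOn.add (differentiableOn_const _) ?_
  refine DifferentiableOn.div (differentiableOn_id.mul hd2) hd1 ?_
  intro z hz
  exact prfDerNe _ _ isOpen_ball hd hi z hz

end Pool.Agent.MultS

end
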