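import Pool.Agent.Work.MP_b17785_an.Lip.StmtsE
import Pool.Agent.Work.MP_6d8919_an.SchwarzLog
import Pool.Agent.Work.MP_b17785_an.Lip.Stmts
import Pool.Agent.Work.MP_b17785_an.Bd.B01

/-! Bundle of small proof modules (one section per former module). -/

section

/-!
# Item E11: the shadow of the set where the function is large
-/

set_option autoImplicit false

open Complex Metric Set Filter Topology MeasureTheory
open scoped ENNReal ComplexConjugate

namespace Pool.Agent.MultS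

namespace LipShadX

lemma measE {f : ℂ → ℂ} (hf : DifferentiableOn ℂ f (ball 0 1)) (R : ℝ) :
    MeasurableSet {z : ℂ | z ∈ ball (0 : ℂ) 1 ∧ R ≤ ‖f z‖ ∧ ‖f z‖ ≤ 2 * R} := by
  have hc : ContinuousOn (fun z => ‖f z‖) (ball 0 1) := hf.continuousOn.norm
  have h1 : IsOpen (ball (0 : ℂ) 1 ∩ (fun z => ‖f z‖) ⁻¹' Iio R) :=
    hc.isOpen_inter_preimage isOpen_ball isOpen_Iio
  have h2 : IsOpen (ball (0 : ℂ) 1 ∩ (fun z => ‖f z‖) ⁻¹' Ioi (2 * R)) :=
    hc.isOpen_inter_preimage isOpen_ball isOpen_Ioi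
  have e : {z : ℂ | z ∈ ball (0 : ℂ) 1 ∧ R ≤ ‖f z‖ ∧ ‖f z‖ ≤ 2 * R} =
      (ball (0 : ℂ) 1 \ (ball (0 : ℂ) 1 ∩ (fun z => ‖f z‖) ⁻¹' Iio R)) \
        (ball (0 : ℂ) 1 ∩ (fun z => ‖f z‖) ⁻¹' Ioi (2 * R)) := by
    ext z
    constructor
    · rintro ⟨a, b, c⟩
      exact ⟨⟨a, fun h => absurd h.2 (not_lt.2 b)⟩, fun h => absurd h.2 (not_lt.2 c)⟩
    · rintro ⟨⟨a, b⟩, c⟩
      exact ⟨a, not_lt.1 fun h => b ⟨a, h⟩, not_lt.1 fun h => c ⟨a, h⟩⟩
  rw [e]
  exact (measurableSet_ball.diff h1.measurableSet).diff h2.measurableSet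

/-- polar coordinates, with the angle outside -/
lemma polar {H : ℂ → ℝ≥0∞} (hH : Measurable H) :
    ∫⁻ θ in Ioo (-Real.pi) Real.pi, ∫⁻ r in Ioi (0 : ℝ),
      ENNReal.ofReal r * H ((r : ℂ) * exp ((θ : ℂ) * I)) = ∫⁻ z, H z := by
  have hm : Measurable fun p : ℝ × ℝ => ENNReal.ofReal p.1 * H ((p.1 : ℂ) * exp ((p.2 : ℂ) * I)) := by
    refine (ENNReal.measurable_ofReal.comp measurable_fst).mul (hH.comp ?_)
    exact Continuous.measurable (by fun_prop)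
  rw [← Complex.lintegral_comp_polarCoord_symm, polarCoord_target, Measure.volume_eq_prod,
    ← Measure.prod_restrict, lintegral_prod_symm]
  · refine lintegral_congr fun θ => lintegral_congr fun r => ?_
    rw [smul_eq_mul, Complex.polarCoord_symm_apply]
    congr 2
    rw [exp_mul_I]
    push_cast
    rfl
  · refine (Measurable.aemeasurable ?_)
    have : (fun p : ℝ × ℝ => ENNReal.ofReal p.1 • H (Complex.polarCoord.symm p)) =
        fun p : ℝ × ℝ => ENNReal.ofReal p.1 * H ((p.1 : ℂ) * exp ((p.2 : ℂ) * I)) := by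
      funext p
      rw [smul_eq_mul, Complex.polarCoord_symm_apply, exp_mul_I]
      push_cast
      rfl
    rw [this]
    exact hm

end LipShadX

open LipShadX

theorem prfLipShad : LipShad := by
  intro hA hRay f R hf hR
  have hR0 : 0 < R := by linarith
  have hEm := measE hf.1 R
  set E : Set ℂ := {z : ℂ | z ∈ ball (0 : ℂ) 1 ∧ R ≤ ‖f z‖ ∧ ‖f z‖ ≤ 2 * R} with hE
  set H : ℂ → ℝ≥0∞ := E.indicator fun z => ENNReal.ofReal (‖deriv f z‖ ^ 2) with hH
  have hHm : Measurable H := by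
    refine Measurable.indicator ?_ hEm
    exact ENNReal.measurable_ofReal.comp ((measurable_deriv f).norm.pow_const 2)
  have hFm : Measurable fun p : ℝ × ℝ =>
      ENNReal.ofReal p.1 * H ((p.1 : ℂ) * exp ((p.2 : ℂ) * I)) := by
    refine (ENNReal.measurable_ofReal.comp measurable_fst).mul (hHm.comp ?_)
    exact Continuous.measurable (by fun_prop)
  have hKm : Measurable fun θ : ℝ => ∫⁻ r in Ioi (0 : ℝ),
      ENNReal.ofReal r * H ((r : ℂ) * exp ((θ : ℂ) * I)) := hFm.lintegral_prod_left'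
  set Sh : Set ℝ := {θ : ℝ | θ ∈ Ioo (-Real.pi) Real.pi ∧
      ∃ r : ℝ, 0 < r ∧ r < 1 ∧ 2 * R < ‖f ((r : ℂ) * exp ((θ : ℂ) * I))‖} with hSh
  have hray : ∀ θ ∈ Sh, ENNReal.ofReal (R ^ 2) ≤ ENNReal.ofReal (2 / Real.sqrt R) *
      ∫⁻ r in Ioi (0 : ℝ), ENNReal.ofReal r * H ((r : ℂ) * exp ((θ : ℂ) * I)) := by
    rintro θ ⟨-, r₀, h1, h2, h3⟩
    refine (hRay f R θ r₀ hf hR h1 h2 h3).trans (mul_le_mul_right ?_ _)
    refine (setLIntegral_mono (g := fun r => ENNReal.ofReal r * H ((r : ℂ) * exp ((θ : ℂ) * I)))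
      ?_ ?_).trans (lintegral_mono_set ?_)
    · exact hFm.comp (measurable_id.prodMk measurable_const)
    · rintro r ⟨a1, a2, a3, a4⟩
      rw [ENNReal.ofReal_mul a1.le]
      have hmem : ((r : ℂ) * exp ((θ : ℂ) * I)) ∈ E := by
        refine ⟨?_, a3, a4⟩
        rw [mem_ball_zero_iff, norm_mul, norm_exp_ofReal_mul_I, mul_one, norm_real,
          Real.norm_eq_abs, abs_of_pos a1]
        exact a2
      rw [hH, indicator_of_mem hmem]
    · exact fun r hr => hr.1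
  have h1 : ENNReal.ofReal (R ^ 2) * volume Sh ≤
      ENNReal.ofReal (2 / Real.sqrt R) * ENNReal.ofReal (3 * Real.pi * R ^ 2) := by
    calc ENNReal.ofReal (R ^ 2) * volume Sh = ∫⁻ _ in Sh, ENNReal.ofReal (R ^ 2) :=
          (setLIntegral_const _ _).symm
      _ ≤ ∫⁻ θ in Sh, ENNReal.ofReal (2 / Real.sqrt R) *
          ∫⁻ r in Ioi (0 : ℝ), ENNReal.ofReal r * H ((r : ℂ) * exp ((θ : ℂ) * I)) :=
          setLIntegral_mono (measurable_const.mul hKm) hray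
      _ ≤ ∫⁻ θ in Ioo (-Real.pi) Real.pi, ENNReal.ofReal (2 / Real.sqrt R) *
          ∫⁻ r in Ioi (0 : ℝ), ENNReal.ofReal r * H ((r : ℂ) * exp ((θ : ℂ) * I)) :=
          lintegral_mono_set fun θ hθ => hθ.1
      _ = ENNReal.ofReal (2 / Real.sqrt R) * ∫⁻ θ in Ioo (-Real.pi) Real.pi,
          ∫⁻ r in Ioi (0 : ℝ), ENNReal.ofReal r * H ((r : ℂ) * exp ((θ : ℂ) * I)) :=
          lintegral_const_mul _ hKm
      _ = ENNReal.ofReal (2 / Real.sqrt R) * ∫⁻ z in E, ENNReal.ofReal (‖deriv f z‖ ^ 2) := by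
          rw [polar hHm, hH, lintegral_indicator hEm]
      _ ≤ _ := mul_le_mul_right (hA f R hf hR0) _
  have h2 : ENNReal.ofReal (2 / Real.sqrt R) * ENNReal.ofReal (3 * Real.pi * R ^ 2) =
      ENNReal.ofReal (R ^ 2) * ENNReal.ofReal (6 * Real.pi / Real.sqrt R) := by
    rw [← ENNReal.ofReal_mul (by positivity), ← ENNReal.ofReal_mul (by positivity)]
    congr 1
    ring
  rw [h2] at h1
  exact (ENNReal.mul_le_mul_iff_right (by simpa using by positivity) ENNReal.ofReal_ne_top).1 h1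

end Pool.Agent.MultS

end

section

/-!
# MP_b17785_an, item E5: holomorphic square roots in the disk
-/

set_option autoImplicit false

open Complex Metric Set Filter Topology MeasureTheory

namespace Pool.Agent.MultS

theorem prfLipSqrt : LipSqrt := by
  intro g hg hne
  obtain ⟨L, hL, hexp⟩ := Pool.Agent.Work.MP_6d8919_an.exists_log_ball one_pos hg hne
  have hLd : DifferentiableOn ℂ L (ball 0 1) := fun z hz =>
    (hL z hz).differentiableAt.differentiableWithinAt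
  refine ⟨fun z => exp (L z / 2), (hLd.div_const 2).cexp, ?_⟩
  intro z hz
  rw [← hexp z hz, ← Complex.exp_nat_mul]
  congr 1
  push_cast
  ring

end Pool.Agent.MultS

end

section

/-!
# Brickman's decomposition
-/

set_option autoImplicit false

open Complex Metric Set Filter Topology MeasureTheory
open scoped ENNReal ComplexConjugate

namespace Pool.Agent.MultS
namespace LipBrickX

theorem inj_aux {x₁ x₂ p₁ p₂ α β : ℂ} (hαβ : α ≠ β) (h1 : p₁ ^ 2 = (x₁ - α) * (x₁ - β))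
    (h2 : p₂ ^ 2 = (x₂ - α) * (x₂ - β)) (h : x₁ + p₁ = x₂ + p₂) : x₁ = x₂ := by
  set s := x₁ + p₁ with hs
  have e1 : (2 * s - α - β) * x₁ = s ^ 2 - α * β := by
    have : p₁ = s - x₁ := by rw [hs]; ring
    rw [this] at h1
    linear_combination -h1
  have e2 : (2 * s - α - β) * x₂ = s ^ 2 - α * β := by
    have : p₂ = s - x₂ := by rw [h]; ring
    rw [this] at h2
    linear_combination -h2
  have e3 : (2 * s - α - β) * (x₁ - x₂) = 0 := by linear_combination e1 - e2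
  rcases mul_eq_zero.1 e3 with h0 | h0
  · exfalso
    rw [h0, zero_mul] at e1
    have h4 : (α - β) ^ 2 = 0 := by
      have h5 : 2 * s = α + β := by linear_combination h0
      have h6 : 4 * (s ^ 2 - α * β) = (α - β) ^ 2 := by
        have : 4 * s ^ 2 = (α + β) ^ 2 := by rw [← h5]; ring
        linear_combination this
      rw [← h6, ← e1, mul_zero]
    exact hαβ (sub_eq_zero.1 (pow_eq_zero_iff two_ne_zero |>.1 h4))
  · exact sub_eq_zero.1 h0

theorem real_aux {α β a c : ℂ} (hn : ‖α‖ = ‖β‖) (hαβ : α ≠ β) (hα : α ≠ 0) (hβ : β ≠ 0)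
    (ha : a ^ 2 = α * β) (hc : 2 * a * c = -(α + β)) :
    ∃ u : ℝ, c = u ∧ -1 < u ∧ u < 1 := by
  set ρ := α / β with hρ
  have hρn : ‖ρ‖ = 1 := by
    rw [hρ, norm_div, hn, div_self]
    exact norm_ne_zero_iff.2 hβ
  have hρ0 : ρ ≠ 0 := div_ne_zero hα hβ
  have hρ1 : ρ ≠ 1 := by
    intro h
    rw [hρ, div_eq_one_iff_eq hβ] at h
    exact hαβ h
  have hc2 : 4 * c ^ 2 = 2 + ρ + ρ⁻¹ := by
    have h1 : 4 * (α * β) * c ^ 2 = (α + β) ^ 2 := by
      rw [← ha]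
      have : (2 * a * c) ^ 2 = (α + β) ^ 2 := by rw [hc]; ring
      linear_combination this
    rw [hρ]
    field_simp
    linear_combination h1
  have hinv : ρ⁻¹ = conj ρ := by
    rw [Complex.inv_def, Complex.normSq_eq_norm_sq, hρn]
    simp
  have hre : ρ + conj ρ = ((2 * ρ.re : ℝ) : ℂ) := Complex.add_conj ρ
  have hc3 : c ^ 2 = (((1 + ρ.re) / 2 : ℝ) : ℂ) := by
    rw [hinv, add_assoc, hre] at hc2
    push_cast at hc2 ⊢
    linear_combination hc2 / 4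
  have hlt : ρ.re < 1 := by
    have h1 : ρ.re ≤ ‖ρ‖ := Complex.re_le_norm ρ
    rw [hρn] at h1
    rcases h1.lt_or_eq with h | h
    · exact h
    · exfalso
      apply hρ1
      have h2 : ρ.re ^ 2 + ρ.im ^ 2 = 1 := by
        have := Complex.sq_norm ρ
        rw [hρn, Complex.normSq_apply] at this
        nlinarith
      have h3 : ρ.im = 0 := by
        rw [h] at h2
        nlinarith [sq_nonneg ρ.im]
      exact Complex.ext h h3
  have hge : -1 ≤ ρ.re := by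
    have h1 : -‖ρ‖ ≤ ρ.re := (abs_le.1 (Complex.abs_re_le_norm ρ)).1
    rw [hρn] at h1
    exact h1
  have hr := congrArg Complex.re hc3
  have hi := congrArg Complex.im hc3
  rw [Complex.ofReal_re, sq, Complex.mul_re] at hr
  rw [Complex.ofReal_im, sq, Complex.mul_im] at hi
  have him : c.im = 0 := by
    have h4 : c.re * c.im = 0 := by linarith
    rcases mul_eq_zero.1 h4 with h5 | h5
    · rw [h5] at hr
      nlinarith [sq_nonneg c.im]
    · exact h5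
  rw [him] at hr
  refine ⟨c.re, Complex.ext (by simp) (by simp [him]), ?_, ?_⟩
  · nlinarith
  · nlinarith

end LipBrickX

open LipBrickX

theorem prfLipBrick : LipBrick := by
  intro hS f α β hf hα hβ hn hne
  obtain ⟨hfd, hfi, hf0, hf1⟩ := hf
  have h0 : (0 : ℂ) ∈ ball (0 : ℂ) 1 := mem_ball_self one_pos
  have hα' : ∀ z ∈ ball (0 : ℂ) 1, f z ≠ α := fun z hz h => hα ⟨z, hz, h⟩
  have hβ' : ∀ z ∈ ball (0 : ℂ) 1, f z ≠ β := fun z hz h => hβ ⟨z, hz, h⟩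
  have hα0 : α ≠ 0 := by
    have := hα' 0 h0
    rw [hf0] at this
    exact this.symm
  have hβ0 : β ≠ 0 := by
    have := hβ' 0 h0
    rw [hf0] at this
    exact this.symm
  obtain ⟨ψ, hψd, hψ⟩ := hS (fun z => (f z - α) * (f z - β))
    ((hfd.sub_const α).mul (hfd.sub_const β))
    (fun z hz => mul_ne_zero (sub_ne_zero.2 (hα' z hz)) (sub_ne_zero.2 (hβ' z hz)))
  set a := ψ 0 with hadef
  have ha : a ^ 2 = α * β := by
    have := hψ 0 h0
    rw [hf0] at this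
    rw [this]; ring
  have hnb : ball (0 : ℂ) 1 ∈ 𝓝 (0 : ℂ) := isOpen_ball.mem_nhds h0
  have hfD : HasDerivAt f 1 0 := by
    rw [← hf1]
    exact (hfd.differentiableAt hnb).hasDerivAt
  have hψD : HasDerivAt ψ (deriv ψ 0) 0 := (hψd.differentiableAt hnb).hasDerivAt
  have hc : 2 * a * deriv ψ 0 = -(α + β) := by
    have h1 : HasDerivAt (fun z => ψ z ^ 2) (2 * ψ 0 * deriv ψ 0) 0 := by
      have h2 := hψD.fun_pow 2
      refine h2.congr_deriv ?_
      norm_num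
    have h2 : HasDerivAt (fun z => (f z - α) * (f z - β)) (1 * (f 0 - β) + (f 0 - α) * 1) 0 :=
      (hfD.sub_const α).mul (hfD.sub_const β)
    have h3 : HasDerivAt (fun z => ψ z ^ 2) (1 * (f 0 - β) + (f 0 - α) * 1) 0 := by
      refine h2.congr_of_eventuallyEq ?_
      filter_upwards [hnb] with z hz
      exact hψ z hz
    have h4 := h1.unique h3
    rw [hf0] at h4
    rw [hadef, h4]; ring
  obtain ⟨u, hcu, hu1, hu2⟩ := real_aux hn hne hα0 hβ0 ha hc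
  rw [hcu] at hψD hc
  have hp : (1 : ℂ) + u ≠ 0 := by
    have : ((1 + u : ℝ) : ℂ) ≠ 0 := by
      rw [Ne, Complex.ofReal_eq_zero]; linarith
    simpa using this
  have hm : (1 : ℂ) - u ≠ 0 := by
    have : ((1 - u : ℝ) : ℂ) ≠ 0 := by
      rw [Ne, Complex.ofReal_eq_zero]; linarith
    simpa using this
  have hcomb : ∀ z : ℂ, f z = (((1 + u) / 2 : ℝ) : ℂ) * ((f z + (ψ z - a)) / (1 + u)) +
      (1 - (((1 + u) / 2 : ℝ) : ℂ)) * ((f z - (ψ z - a)) / (1 - u)) := by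
    intro z
    push_cast
    have e1 : (1 - (1 + (u : ℂ)) / 2) = (1 - u) / 2 := by ring
    rw [e1]
    field_simp
    ring
  refine ⟨fun z => (f z + (ψ z - a)) / (1 + u), fun z => (f z - (ψ z - a)) / (1 - u),
    (1 + u) / 2, ⟨?_, ?_, ?_, ?_⟩, ⟨?_, ?_, ?_, ?_⟩, by linarith, by linarith,
    fun z _ => hcomb z, ?_⟩
  · exact (hfd.add (hψd.sub_const a)).div_const _
  · intro z₁ hz₁ z₂ hz₂ h
    refine hfi hz₁ hz₂ (inj_aux hne (hψ z₁ hz₁) (hψ z₂ hz₂) ?_)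
    have h' : (f z₁ + (ψ z₁ - a)) = (f z₂ + (ψ z₂ - a)) := by
      have := (div_left_inj' hp).1 h
      exact this
    linear_combination h'
  · simp [hf0, hadef]
  · have := ((hfD.add (hψD.sub_const a)).div_const ((1 : ℂ) + u)).deriv
    rw [div_self hp] at this
    exact this
  · exact (hfd.sub (hψd.sub_const a)).div_const _
  · intro z₁ hz₁ z₂ hz₂ h
    refine hfi hz₁ hz₂ (inj_aux (p₁ := -ψ z₁) (p₂ := -ψ z₂) hne
      (by rw [neg_sq]; exact hψ z₁ hz₁) (by rw [neg_sq]; exact hψ z₂ hz₂) ?_)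
    have h' : (f z₁ - (ψ z₁ - a)) = (f z₂ - (ψ z₂ - a)) := (div_left_inj' hm).1 h
    linear_combination h'
  · simp [hf0, hadef]
  · have := ((hfD.sub (hψD.sub_const a)).div_const ((1 : ℂ) - u)).deriv
    rw [div_self hm] at this
    exact this
  · intro heq
    have key : ∀ z ∈ ball (0 : ℂ) 1, f z = 0 := by
      intro z hz
      have h1 := heq hz
      simp only at h1
      have h2 := hcomb z
      rw [← h1] at h2
      have h3 : f z = (f z + (ψ z - a)) / (1 + u) := by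
        linear_combination h2
      have h4 : ψ z = a + u * f z := by
        rw [eq_div_iff hp] at h3
        linear_combination -h3
      have h5 := hψ z hz
      rw [h4] at h5
      have h6 : ((u : ℂ) ^ 2 - 1) * f z ^ 2 = 0 := by
        linear_combination h5 - ha - f z * hc
      have h7 : (u : ℂ) ^ 2 - 1 ≠ 0 := by
        have h8 : ((u ^ 2 - 1 : ℝ) : ℂ) ≠ 0 := by
          rw [Ne, Complex.ofReal_eq_zero]
          nlinarith
        simpa using h8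
      rcases mul_eq_zero.1 h6 with h8 | h8
      · exact absurd h8 h7
      · exact (pow_eq_zero_iff two_ne_zero).1 h8
    have hh : (1 / 2 : ℂ) ∈ ball (0 : ℂ) 1 := by
      rw [mem_ball_zero_iff]; norm_num
    have := hfi hh h0 (by rw [key _ hh, key _ h0])
    norm_num at this

end Pool.Agent.MultS

end

section

/-!
# [E7] The part of the image outside a disk is connected
-/

set_option autoImplicit false

open Complex Metric Set Filter Topology

namespace Pool.Agent.MultS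

namespace LipConnX

/-- The image of the disk is open. -/
theorem isOpen_image {f : ℂ → ℂ} (hf : Sc f) : IsOpen (f '' ball 0 1) := by
  obtain ⟨hd, hi, -, -⟩ := hf
  have han : AnalyticOnNhd ℂ f (ball 0 1) := hd.analyticOnNhd isOpen_ball
  have hop := (han.is_constant_or_isOpen
    (convex_ball (0 : ℂ) 1).isPreconnected).resolve_left (by
      rintro ⟨w, hw⟩
      have h0 : (0 : ℂ) ∈ ball (0 : ℂ) 1 := by simp
      have h1 : (1 / 2 : ℂ) ∈ ball (0 : ℂ) 1 := by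
        rw [mem_ball_zero_iff]; norm_num
      have := hi h0 h1 ((hw 0 h0).trans (hw _ h1).symm)
      norm_num at this)
  exact hop _ subset_rfl isOpen_ball

/-- A circle without a point is preconnected. -/
theorem circle_diff {s : ℝ} (hs : 0 < s) {w₀ : ℂ} (hw : ‖w₀‖ = s) :
    IsPreconnected {w : ℂ | ‖w‖ = s ∧ w ≠ w₀} := by
  have hw0 : w₀ ≠ 0 := by
    rintro rfl
    rw [norm_zero] at hw
    linarith
  have h : IsPreconnected ((fun θ : ℝ => -w₀ * exp (θ * I)) '' Ioo (-Real.pi) Real.pi) :=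
    isPreconnected_Ioo.image _ (by fun_prop)
  convert h using 1
  ext w
  constructor
  · rintro ⟨h1, h2⟩
    have hu : ‖-(w / w₀)‖ = 1 := by
      rw [norm_neg, norm_div, h1, hw, div_self hs.ne']
    refine ⟨arg (-(w / w₀)), ⟨neg_pi_lt_arg _, lt_of_le_of_ne (arg_le_pi _) fun h => ?_⟩, ?_⟩
    · have h3 := norm_mul_exp_arg_mul_I (-(w / w₀))
      rw [hu, h, exp_pi_mul_I] at h3
      apply h2
      have h4 : w / w₀ = 1 := by
        have : -(w / w₀) = -1 := by rw [← h3]; simp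
        linear_combination -this
      rwa [div_eq_one_iff_eq hw0] at h4
    · have h3 := norm_mul_exp_arg_mul_I (-(w / w₀))
      rw [hu, ofReal_one, one_mul] at h3
      simp only [h3]
      field_simp
  · rintro ⟨θ, ⟨h1, h2⟩, rfl⟩
    refine ⟨?_, fun h => ?_⟩
    · simp only [norm_mul, norm_neg, hw, norm_exp_ofReal_mul_I, mul_one]
    · have h3 : exp (θ * I) = -1 := by
        have : w₀ * (exp (θ * I) + 1) = 0 := by
          simp only at h
          linear_combination -h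
        have := (mul_eq_zero.1 this).resolve_left hw0
        linear_combination this
      have h4 : arg (exp (θ * I)) = θ := by
        rw [arg_exp_mul_I, toIocMod_eq_self]
        exact ⟨h1, by linarith⟩
      rw [h3, arg_neg_one] at h4
      linarith

/-- The slices are preconnected and nonempty. -/
theorem slice {f : ℂ → ℂ} (ho : OneOm f) {s : ℝ} (hs : 0 < s) :
    IsPreconnected {w : ℂ | w ∈ f '' ball 0 1 ∧ ‖w‖ = s} ∧
      {w : ℂ | w ∈ f '' ball 0 1 ∧ ‖w‖ = s}.Nonempty := by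
  have h1 : ‖(s : ℂ)‖ = s := by rw [norm_real, Real.norm_of_nonneg hs.le]
  have h2 : ‖(-s : ℂ)‖ = s := by rw [norm_neg, h1]
  have h3 : (s : ℂ) ≠ -s := by
    intro h
    have : (s : ℂ) = 0 := by linear_combination h / 2
    exact hs.ne' (ofReal_eq_zero.1 this)
  constructor
  · by_cases h : ∀ w : ℂ, ‖w‖ = s → w ∈ f '' ball 0 1
    · have : {w : ℂ | w ∈ f '' ball 0 1 ∧ ‖w‖ = s} = sphere 0 s := by
        ext w
        rw [mem_sphere_zero_iff_norm]
        exact ⟨fun h => h.2, fun h' => ⟨h w h', h'⟩⟩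
      rw [this]
      exact isPreconnected_sphere (by rw [rank_real_complex]; norm_num) _ _
    · push Not at h
      obtain ⟨w₀, hw, hn⟩ := h
      have : {w : ℂ | w ∈ f '' ball 0 1 ∧ ‖w‖ = s} = {w : ℂ | ‖w‖ = s ∧ w ≠ w₀} := by
        ext w
        constructor
        · rintro ⟨h1, h2⟩
          exact ⟨h2, fun h => hn (h ▸ h1)⟩
        · rintro ⟨h1, h2⟩
          exact ⟨(ho w w₀ h2 (h1.trans hw.symm)).resolve_right hn, h1⟩
      rw [this]
      exact circle_diff hs hw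
  · rcases ho (s : ℂ) (-s : ℂ) h3 (h1.trans h2.symm) with h | h
    · exact ⟨_, h, h1⟩
    · exact ⟨_, h, h2⟩

/-- The norm is an open map away from zero. -/
theorem isOpen_norm_image {V : Set ℂ} (hV : IsOpen V) (h0 : (0 : ℂ) ∉ V) :
    IsOpen ((fun w : ℂ => ‖w‖) '' V) := by
  rw [Metric.isOpen_iff]
  rintro s ⟨w, hw, rfl⟩
  obtain ⟨ε, hε, hb⟩ := Metric.isOpen_iff.1 hV w hw
  have hw0 : 0 < ‖w‖ := norm_pos_iff.2 fun h => h0 (h ▸ hw)
  refine ⟨min ε ‖w‖, lt_min hε hw0, fun t ht => ?_⟩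
  rw [mem_ball, Real.dist_eq, lt_min_iff] at ht
  obtain ⟨ht1, ht2⟩ := ht
  have ht0 : 0 < t := by
    have := (abs_lt.1 ht2).1
    simp only at this
    linarith
  refine ⟨((t / ‖w‖ : ℝ) : ℂ) * w, hb ?_, ?_⟩
  · rw [mem_ball, dist_eq_norm]
    have : ((t / ‖w‖ : ℝ) : ℂ) * w - w = (((t - ‖w‖) / ‖w‖ : ℝ) : ℂ) * w := by
      have : (‖w‖ : ℂ) ≠ 0 := ofReal_ne_zero.2 hw0.ne'
      push_cast
      field_simp
    rw [this, norm_mul, norm_real, norm_div, norm_norm, div_mul_cancel₀ _ hw0.ne']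
    exact ht1
  · simp only [norm_mul, norm_real, norm_div, norm_norm, div_mul_cancel₀ _ hw0.ne']
    exact Real.norm_of_nonneg ht0.le

end LipConnX

theorem prfLipConn : LipConn := by
  intro f R hf ho hR
  set U : Set ℂ := {w : ℂ | w ∈ f '' ball 0 1 ∧ R < ‖w‖} with hU
  have hUo : IsOpen U := (LipConnX.isOpen_image hf).inter (isOpen_lt continuous_const continuous_norm)
  have hU0 : ∀ w ∈ U, w ≠ 0 := by
    rintro w hw rfl
    have := hw.2
    rw [norm_zero] at this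
    linarith
  rw [isPreconnected_iff_subset_of_disjoint]
  intro A B hA hB hAB hdis
  -- every slice is contained in `A` or in `B`
  have hsl : ∀ s : ℝ, R < s → {w : ℂ | w ∈ f '' ball 0 1 ∧ ‖w‖ = s} ⊆ A ∨
      {w : ℂ | w ∈ f '' ball 0 1 ∧ ‖w‖ = s} ⊆ B := by
    intro s hs
    have hsub : {w : ℂ | w ∈ f '' ball 0 1 ∧ ‖w‖ = s} ⊆ U := fun w hw => ⟨hw.1, by rw [hw.2]; exact hs⟩
    refine isPreconnected_iff_subset_of_disjoint.1
      (LipConnX.slice ho (hR.trans_lt hs)).1 A B hA hB (hsub.trans hAB) ?_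
    rw [← Set.subset_empty_iff, ← hdis]
    exact inter_subset_inter_left _ hsub
  set u : Set ℝ := (fun w : ℂ => ‖w‖) '' (U ∩ A) with hu
  set v : Set ℝ := (fun w : ℂ => ‖w‖) '' (U ∩ B) with hv
  have huo : IsOpen u := LipConnX.isOpen_norm_image (hUo.inter hA) fun h => hU0 0 h.1 rfl
  have hvo : IsOpen v := LipConnX.isOpen_norm_image (hUo.inter hB) fun h => hU0 0 h.1 rfl
  have hcov : Ioi R ⊆ u ∪ v := by
    intro s hs
    obtain ⟨w, hw⟩ := (LipConnX.slice ho (hR.trans_lt hs)).2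
    have hwU : w ∈ U := ⟨hw.1, by rw [hw.2]; exact hs⟩
    rcases hAB hwU with h | h
    · exact Or.inl ⟨w, ⟨hwU, h⟩, hw.2⟩
    · exact Or.inr ⟨w, ⟨hwU, h⟩, hw.2⟩
  have hd : Ioi R ∩ (u ∩ v) = ∅ := by
    rw [Set.eq_empty_iff_forall_notMem]
    rintro s ⟨hs, ⟨a, ⟨haU, haA⟩, ha⟩, ⟨b, ⟨hbU, hbB⟩, hb⟩⟩
    rcases hsl s hs with h | h
    · have : b ∈ U ∩ (A ∩ B) := ⟨hbU, h ⟨hbU.1, hb⟩, hbB⟩
      rw [hdis] at this
      exact this
    · have : a ∈ U ∩ (A ∩ B) := ⟨haU, haA, h ⟨haU.1, ha⟩⟩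
      rw [hdis] at this
      exact this
  rcases isPreconnected_iff_subset_of_disjoint.1 isPreconnected_Ioi u v huo hvo hcov hd with h | h
  · left
    intro w hw
    obtain ⟨a, ⟨haU, haA⟩, ha⟩ := h (show ‖w‖ ∈ Ioi R from hw.2)
    rcases hsl ‖w‖ hw.2 with h' | h'
    · exact h' ⟨hw.1, rfl⟩
    · have : a ∈ U ∩ (A ∩ B) := ⟨haU, haA, h' ⟨haU.1, ha⟩⟩
      rw [hdis] at this
      exact this.elim
  · right
    intro w hw
    obtain ⟨a, ⟨haU, haB⟩, ha⟩ := h (show ‖w‖ ∈ Ioi R from hw.2)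
    rcases hsl ‖w‖ hw.2 with h' | h'
    · have : a ∈ U ∩ (A ∩ B) := ⟨haU, h' ⟨haU.1, ha⟩, haB⟩
      rw [hdis] at this
      exact this.elim
    · exact h' ⟨hw.1, rfl⟩

end Pool.Agent.MultS

end

section

/-!
# [E8] Pull back of a preconnected set by an injective holomorphic map
-/

set_option autoImplicit false

open Complex Metric Set Filter Topology

namespace Pool.Agent.MultS

namespace LipConnZX

/-- A function of the class `S` is an open map on the disk. -/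
theorem isOpenMap_restrict {f : ℂ → ℂ} (hf : Sc f) :
    IsOpenMap (fun z : ball (0 : ℂ) 1 => f z.1) := by
  obtain ⟨hd, hi, -, -⟩ := hf
  have han : AnalyticOnNhd ℂ f (ball 0 1) := hd.analyticOnNhd isOpen_ball
  have hop := (han.is_constant_or_isOpen
    (convex_ball (0 : ℂ) 1).isPreconnected).resolve_left (by
      rintro ⟨w, hw⟩
      have h0 : (0 : ℂ) ∈ ball (0 : ℂ) 1 := by simp
      have h1 : (1 / 2 : ℂ) ∈ ball (0 : ℂ) 1 := by
        rw [mem_ball_zero_iff]; norm_num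
      have := hi h0 h1 ((hw 0 h0).trans (hw _ h1).symm)
      norm_num at this)
  intro U hU
  obtain ⟨V, hV, rfl⟩ := isOpen_induced_iff.1 hU
  have : (fun z : ball (0 : ℂ) 1 => f z.1) '' (Subtype.val ⁻¹' V) = f '' (V ∩ ball 0 1) := by
    ext w
    constructor
    · rintro ⟨z, hz, rfl⟩
      exact ⟨z.1, ⟨hz, z.2⟩, rfl⟩
    · rintro ⟨z, ⟨hz, hb⟩, rfl⟩
      exact ⟨⟨z, hb⟩, hz, rfl⟩
  rw [this]
  exact hop _ inter_subset_right (hV.inter isOpen_ball)

end LipConnZX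

theorem prfLipConnZ : LipConnZ := by
  intro f R hf hpre
  have hop := LipConnZX.isOpenMap_restrict hf
  have hinj : Function.Injective (fun z : ball (0 : ℂ) 1 => f z.1) :=
    fun a b h => Subtype.ext (hf.2.1 a.2 b.2 h)
  have hsub : {w : ℂ | w ∈ f '' ball 0 1 ∧ R < ‖w‖} ⊆
      range (fun z : ball (0 : ℂ) 1 => f z.1) := by
    rintro w ⟨⟨z, hz, rfl⟩, -⟩
    exact ⟨⟨z, hz⟩, rfl⟩
  have h := (hpre.preimage_of_isOpenMap hinj hop hsub).image Subtype.val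
    continuous_subtype_val.continuousOn
  have he : Subtype.val '' ((fun z : ball (0 : ℂ) 1 => f z.1) ⁻¹'
      {w : ℂ | w ∈ f '' ball 0 1 ∧ R < ‖w‖}) = {z : ℂ | z ∈ ball (0 : ℂ) 1 ∧ R < ‖f z‖} := by
    ext z
    constructor
    · rintro ⟨z, ⟨-, h⟩, rfl⟩
      exact ⟨z.2, h⟩
    · rintro ⟨hz, h⟩
      exact ⟨⟨z, hz⟩, ⟨⟨z, hz, rfl⟩, h⟩, rfl⟩
  rwa [he] at h

end Pool.Agent.MultS

end

section

/-!
# The function `β(V)` is continuous and tends to `κ`
-/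

set_option autoImplicit false

open Complex Metric Set Filter Topology MeasureTheory

namespace Pool.Agent.MultS.Lip

namespace BetC'

theorem isOpenHp : IsOpen Hp := isOpen_lt continuous_const Complex.continuous_re

/-- The shifted argument is in the half plane. -/
theorem arg_mem (hC : Cay) {a0 C V : ℝ} (ha : 0 < a0) (h1 : 1 ≤ C) (hV : 10 * a0 ≤ V) {ζ : ℂ}
    (hζ : ζ ∈ ball (0 : ℂ) 1) : (C : ℂ) * V + (psi ζ + a0 * ζ) ∈ Hp := by
  have h2 : 0 < (psi ζ).re := (hC.1 ζ hζ).1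
  have h3 : ‖ζ‖ < 1 := mem_ball_zero_iff.1 hζ
  have h4 : -1 < ζ.re := by
    have := Complex.abs_re_le_norm ζ
    have := neg_abs_le ζ.re
    linarith
  have h5 : V ≤ C * V := by nlinarith
  change 0 < ((C : ℂ) * V + (psi ζ + a0 * ζ)).re
  have e : ((C : ℂ) * V + (psi ζ + a0 * ζ)).re = C * V + ((psi ζ).re + a0 * ζ.re) := by
    rw [add_re, add_re, ← Complex.ofReal_mul, Complex.ofReal_re, Complex.re_ofReal_mul]
  rw [e]
  nlinarith

theorem diff_h (hC : Cay) {F : ℂ → ℂ} (hF : DifferentiableOn ℂ F Hp) {a0 C V : ℝ} (ha : 0 < a0)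
    (h1 : 1 ≤ C) (hV : 10 * a0 ≤ V) :
    DifferentiableOn ℂ (fun ζ => F ((C : ℂ) * V + (psi ζ + a0 * ζ))) (ball 0 1) := by
  have h2 : DifferentiableOn ℂ (fun ζ => (C : ℂ) * V + (psi ζ + a0 * ζ)) (ball (0 : ℂ) 1) :=
    (hC.2.2.1.add (differentiableOn_id.const_mul _)).const_add _
  exact hF.comp h2 (fun ζ hζ => arg_mem hC ha h1 hV hζ)

theorem q_mem {a0 C V : ℝ} (ha : 0 < a0) (h1 : 1 ≤ C) (hV : 10 * a0 ≤ V) :
    (C : ℂ) * V ∈ Hp := by
  change 0 < ((C : ℂ) * V).re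
  rw [← Complex.ofReal_mul, Complex.ofReal_re]
  have : 0 < V := by linarith
  positivity

theorem cont_LL (hC : Cay) (hL : Lin) (hLo : Loc) {lam : ℕ → ℂ} {B : ℝ} (hP : Pack lam B) {z : ℂ}
    (hz : z ∈ ball (0 : ℂ) 1) {F : ℂ → ℂ} (hF : DifferentiableOn ℂ F Hp) {a0 C : ℝ} (ha : 0 < a0)
    (h1 : 1 ≤ C) :
    ContinuousOn (fun V : ℝ => LL lam (fun ζ => F ((C : ℂ) * V + (psi ζ + a0 * ζ))) z)
      (Ici (10 * a0)) := by
  intro V0 hV0
  set ρ : ℝ := max (1 / 2) ‖z‖ with hρ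
  have hz1 : ‖z‖ < 1 := mem_ball_zero_iff.1 hz
  have hρ1 : ρ < 1 := max_lt (by norm_num) hz1
  have hρ2 : 1 / 2 ≤ ρ := le_max_left _ _
  have hρ3 : ‖z‖ ≤ ρ := le_max_right _ _
  have hB : 0 < B := lt_of_lt_of_le one_pos hP.le
  have hcont : ContinuousOn (Function.uncurry (fun (V : ℝ) (ζ : ℂ) =>
      F ((C : ℂ) * V + (psi ζ + a0 * ζ)))) (Ici (10 * a0) ×ˢ closedBall (0 : ℂ) ρ) := by
    have hsub : closedBall (0 : ℂ) ρ ⊆ ball 0 1 := closedBall_subset_ball hρ1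
    have h2 : ContinuousOn (fun p : ℝ × ℂ => (C : ℂ) * (p.1 : ℂ) + (psi p.2 + a0 * p.2))
        (Ici (10 * a0) ×ˢ closedBall (0 : ℂ) ρ) := by
      have h3 : ContinuousOn (fun p : ℝ × ℂ => psi p.2)
          (Ici (10 * a0) ×ˢ closedBall (0 : ℂ) ρ) :=
        hC.2.2.1.continuousOn.comp continuousOn_snd (fun p hp => hsub hp.2)
      have h4 : Continuous (fun p : ℝ × ℂ => (C : ℂ) * (p.1 : ℂ)) :=
        continuous_const.mul (Complex.continuous_ofReal.comp continuous_fst)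
      have h5 : Continuous (fun p : ℝ × ℂ => (a0 : ℂ) * p.2) := continuous_const.mul continuous_snd
      exact h4.continuousOn.add (h3.add h5.continuousOn)
    exact hF.continuousOn.comp h2 (fun p hp => arg_mem hC ha h1 hp.1 (hsub hp.2))
  rw [Metric.continuousWithinAt_iff']
  intro ε hε
  have hε' : 0 < ε / (4 * B) := by positivity
  obtain ⟨v, hv, hv2⟩ := (isCompact_closedBall (0 : ℂ) ρ).mem_uniformity_of_prod hcont hV0
    (Metric.dist_mem_uniformity hε')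
  have hmem : ∀ᶠ V in 𝓝[Ici (10 * a0)] V0, V ∈ v ∧ V ∈ Ici (10 * a0) :=
    (eventually_mem_set.2 hv).and self_mem_nhdsWithin
  filter_upwards [hmem] with V hV
  have hb : ∀ ζ : ℂ, ‖ζ‖ ≤ ρ → ‖1 * F ((C : ℂ) * V + (psi ζ + a0 * ζ)) +
      (-1) * F ((C : ℂ) * V0 + (psi ζ + a0 * ζ)) + 0‖ ≤ ε / (4 * B) := by
    intro ζ hζ
    have := hv2 V hV.1 ζ (mem_closedBall_zero_iff.2 hζ)
    have h2 : dist (F ((C : ℂ) * V + (psi ζ + a0 * ζ))) (F ((C : ℂ) * V0 + (psi ζ + a0 * ζ))) <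
      ε / (4 * B) := this
    rw [dist_eq_norm] at h2
    have e : 1 * F ((C : ℂ) * V + (psi ζ + a0 * ζ)) +
      (-1) * F ((C : ℂ) * V0 + (psi ζ + a0 * ζ)) + 0 = F ((C : ℂ) * V + (psi ζ + a0 * ζ)) -
      F ((C : ℂ) * V0 + (psi ζ + a0 * ζ)) := by ring
    rw [e]
    exact h2.le
  have d1 := diff_h hC hF ha h1 hV.2
  have d2 := diff_h hC hF ha h1 hV0
  have hloc := hLo lam B hP ρ (ε / (4 * B)) z (fun ζ => 1 * F ((C : ℂ) * V + (psi ζ + a0 * ζ)) +
      (-1) * F ((C : ℂ) * V0 + (psi ζ + a0 * ζ)) + 0) hρ3 hρ2 hρ1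
      (((d1.const_mul 1).add (d2.const_mul (-1))).add_const 0) hb
  have hlin := (hL lam B hP z hz).2.1 (fun ζ => F ((C : ℂ) * V + (psi ζ + a0 * ζ)))
    (fun ζ => F ((C : ℂ) * V0 + (psi ζ + a0 * ζ))) 1 (-1) 0 d1 d2
  rw [hlin] at hloc
  rw [dist_eq_norm]
  have e2 : 2 * B * (ε / (4 * B)) = ε / 2 := by field_simp; norm_num
  rw [e2] at hloc
  have e3 : LL lam (fun ζ => F ((C : ℂ) * V + (psi ζ + a0 * ζ))) z -
      LL lam (fun ζ => F ((C : ℂ) * V0 + (psi ζ + a0 * ζ))) z =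
      1 * LL lam (fun ζ => F ((C : ℂ) * V + (psi ζ + a0 * ζ))) z +
      (-1) * LL lam (fun ζ => F ((C : ℂ) * V0 + (psi ζ + a0 * ζ))) z := by ring
  rw [e3]
  linarith

theorem cont_der {F : ℂ → ℂ} (hF : DifferentiableOn ℂ F Hp) {a0 C : ℝ} (ha : 0 < a0)
    (h1 : 1 ≤ C) : ContinuousOn (fun V : ℝ => deriv F ((C : ℂ) * V)) (Ici (10 * a0)) := by
  have h2 : ContinuousOn (deriv F) Hp := (hF.deriv isOpenHp).continuousOn
  have h3 : Continuous (fun V : ℝ => (C : ℂ) * (V : ℂ)) :=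
    continuous_const.mul Complex.continuous_ofReal
  exact h2.comp h3.continuousOn (fun V hV => q_mem ha h1 hV)

/-- Taylor. -/
theorem taylor {C1 : ℝ} {F : ℂ → ℂ} (hF : DifferentiableOn ℂ F Hp) (hC1 : 0 ≤ C1) {q : ℝ}
    (hq : 0 < q) (h : ∀ p : ℂ, ‖p - q‖ ≤ q / 2 →
      ‖deriv (deriv F) p‖ ≤ C1 * ‖deriv F (q : ℂ)‖ / q) {p : ℂ} (hp : ‖p - q‖ ≤ q / 2) :
    ‖F p - F (q : ℂ) - deriv F (q : ℂ) * (p - q)‖ ≤
      C1 * ‖deriv F (q : ℂ)‖ / q * ‖p - q‖ ^ 2 := by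
  have hsub : closedBall (q : ℂ) (q / 2) ⊆ Hp := by
    intro x hx
    have hx1 : ‖x - q‖ ≤ q / 2 := by rw [← dist_eq_norm]; exact mem_closedBall.1 hx
    have h2 := Complex.abs_re_le_norm (x - q)
    have h3 := neg_abs_le (x - (q : ℂ)).re
    rw [sub_re, ofReal_re] at h3
    change 0 < x.re
    rw [sub_re, ofReal_re] at h2
    linarith
  set R : ℝ := ‖p - q‖ with hR
  have hsub2 : closedBall (q : ℂ) R ⊆ closedBall (q : ℂ) (q / 2) := closedBall_subset_closedBall hp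
  have hdF : DifferentiableOn ℂ (deriv F) Hp := hF.deriv isOpenHp
  have hq' : (q : ℂ) ∈ closedBall (q : ℂ) (q / 2) := mem_closedBall_self (by positivity)
  have hK : 0 ≤ C1 * ‖deriv F (q : ℂ)‖ / q := by positivity
  -- first derivative
  have h1 : ∀ x ∈ closedBall (q : ℂ) (q / 2), ‖deriv F x - deriv F (q : ℂ)‖ ≤
      C1 * ‖deriv F (q : ℂ)‖ / q * ‖x - q‖ := by
    intro x hx
    refine (convex_closedBall (q : ℂ) (q / 2)).norm_image_sub_le_of_norm_deriv_le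
      (f := deriv F) (fun y hy => ?_) (fun y hy => ?_) hq' hx
    · exact (hdF y (hsub hy)).differentiableAt (isOpenHp.mem_nhds (hsub hy))
    · refine h y ?_
      rw [← dist_eq_norm]
      exact mem_closedBall.1 hy
  -- the function
  have h2 : ∀ x ∈ closedBall (q : ℂ) R, DifferentiableAt ℂ
      (fun x => F x - deriv F (q : ℂ) * (x - q)) x := by
    intro x hx
    have := (hF x (hsub (hsub2 hx))).differentiableAt (isOpenHp.mem_nhds (hsub (hsub2 hx)))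
    fun_prop
  have h3 : ∀ x ∈ closedBall (q : ℂ) R, ‖deriv (fun x => F x - deriv F (q : ℂ) * (x - q)) x‖ ≤
      C1 * ‖deriv F (q : ℂ)‖ / q * R := by
    intro x hx
    have hd := (hF x (hsub (hsub2 hx))).differentiableAt (isOpenHp.mem_nhds (hsub (hsub2 hx)))
    have e : deriv (fun x => F x - deriv F (q : ℂ) * (x - q)) x = deriv F x - deriv F (q : ℂ) := by
      have h4 : HasDerivAt (fun x => F x - deriv F (q : ℂ) * (x - q))
          (deriv F x - deriv F (q : ℂ) * 1) x :=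
        hd.hasDerivAt.sub (((hasDerivAt_id x).sub_const (q : ℂ)).const_mul _)
      rw [h4.deriv, mul_one]
    rw [e]
    refine (h1 x (hsub2 hx)).trans ?_
    refine mul_le_mul_of_nonneg_left ?_ hK
    rw [← dist_eq_norm]
    exact mem_closedBall.1 hx
  have hpm : p ∈ closedBall (q : ℂ) R := by rw [mem_closedBall, dist_eq_norm]
  have hqm : (q : ℂ) ∈ closedBall (q : ℂ) R := mem_closedBall_self (norm_nonneg _)
  have h5 := (convex_closedBall (q : ℂ) R).norm_image_sub_le_of_norm_deriv_le h2 h3 hqm hpm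
  have e1 : (F p - deriv F (q : ℂ) * (p - q)) - (F (q : ℂ) - deriv F (q : ℂ) * ((q : ℂ) - q)) =
      F p - F (q : ℂ) - deriv F (q : ℂ) * (p - q) := by ring
  rw [e1] at h5
  calc _ ≤ _ := h5
    _ = _ := by rw [← hR]; ring

end BetC'

open BetC' in
theorem prfBetC (hC : Cay) (hL : Lin) (hLo : Loc) (hG : G4) (hK : KTr) : BetC := by
  intro lam B hP z hz F hF hinj a0 C ha h1
  have hne : ∀ V : ℝ, 10 * a0 ≤ V → deriv F ((C : ℂ) * V) ≠ 0 := by
    intro V hV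
    have hpos : 0 < C * V := by
      have : 0 < V := by linarith
      positivity
    have := (hK F hF hinj (C * V) hpos).1
    rwa [Complex.ofReal_mul] at this
  refine ⟨(cont_LL hC hL hLo hP hz hF ha h1).div (cont_der hF ha h1) (fun V hV => hne V hV), ?_⟩
  obtain ⟨C1, hC1, hG1⟩ := hG
  set ρ : ℝ := max (1 / 2) ‖z‖ with hρ
  have hz1 : ‖z‖ < 1 := mem_ball_zero_iff.1 hz
  have hρ1 : ρ < 1 := max_lt (by norm_num) hz1
  have hρ2 : 1 / 2 ≤ ρ := le_max_left _ _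
  have hρ3 : ‖z‖ ≤ ρ := le_max_right _ _
  have hB : 0 < B := lt_of_lt_of_le one_pos hP.le
  set M : ℝ := 2 / (1 - ρ) + a0 with hM
  have hρ4 : 0 < 1 - ρ := by linarith
  have hM0 : 0 < M := by positivity
  have hmb : ∀ ζ : ℂ, ‖ζ‖ ≤ ρ → ‖psi ζ + a0 * ζ‖ ≤ M := by
    intro ζ hζ
    have h2 : 1 - ρ ≤ ‖1 - ζ‖ := by
      have := norm_sub_norm_le (1 : ℂ) ζ
      rw [norm_one] at this
      linarith
    have h3 : ‖1 + ζ‖ ≤ 2 := by
      have := norm_add_le (1 : ℂ) ζ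
      rw [norm_one] at this
      linarith
    have h4 : ‖psi ζ‖ ≤ 2 / (1 - ρ) := by
      unfold psi
      rw [norm_div]
      exact div_le_div₀ (by norm_num) h3 hρ4 h2
    have h5 : ‖(a0 : ℂ) * ζ‖ ≤ a0 := by
      rw [norm_mul, Complex.norm_real, Real.norm_eq_abs, abs_of_pos ha]
      have : ‖ζ‖ ≤ 1 := by linarith
      nlinarith
    exact (norm_add_le _ _).trans (add_le_add h4 h5)
  -- the estimate
  have key : ∀ V : ℝ, 10 * a0 ≤ V → 2 * M ≤ V →
      ‖LL lam (fun ζ => F ((C : ℂ) * V + (psi ζ + a0 * ζ))) z / deriv F ((C : ℂ) * V) -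
        LL lam (fun ζ => psi ζ + a0 * ζ) z‖ ≤ 2 * B * (C1 * M ^ 2) / V := by
    intro V hV hV2
    have hVp : 0 < V := by linarith
    have hCV : 0 < C * V := by positivity
    have hVC : V ≤ C * V := by nlinarith
    have hD := hne V hV
    set D : ℂ := deriv F ((C : ℂ) * V) with hDdef
    have hDn : 0 < ‖D‖ := norm_pos_iff.2 hD
    have d1 := diff_h hC hF ha h1 hV
    have d2 : DifferentiableOn ℂ (fun ζ => psi ζ + a0 * ζ) (ball (0 : ℂ) 1) :=
      hC.2.2.1.add (differentiableOn_id.const_mul _)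
    have hlin := (hL lam B hP z hz).2.1 (fun ζ => F ((C : ℂ) * V + (psi ζ + a0 * ζ)))
      (fun ζ => psi ζ + a0 * ζ) (1 / D) (-1) (-(F ((C : ℂ) * V) / D)) d1 d2
    have hb : ∀ ζ : ℂ, ‖ζ‖ ≤ ρ → ‖1 / D * F ((C : ℂ) * V + (psi ζ + a0 * ζ)) +
        (-1) * (psi ζ + a0 * ζ) + -(F ((C : ℂ) * V) / D)‖ ≤ C1 * M ^ 2 / V := by
      intro ζ hζ
      have hmζ := hmb ζ hζ
      have hcast : ((C * V : ℝ) : ℂ) = (C : ℂ) * V := by push_cast; ring
      have hp : ‖((C : ℂ) * V + (psi ζ + a0 * ζ)) - ((C * V : ℝ) : ℂ)‖ ≤ C * V / 2 := by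
        rw [hcast, add_sub_cancel_left]
        linarith
      have ht := taylor hF (by linarith) hCV (hG1 F hF hinj (C * V) hCV).2 hp
      rw [hcast, add_sub_cancel_left, ← hDdef] at ht
      have e : 1 / D * F ((C : ℂ) * V + (psi ζ + a0 * ζ)) +
        (-1) * (psi ζ + a0 * ζ) + -(F ((C : ℂ) * V) / D) =
        (F ((C : ℂ) * V + (psi ζ + a0 * ζ)) - F ((C : ℂ) * V) - D * (psi ζ + a0 * ζ)) / D := by
        field_simp
        ring
      rw [e, norm_div, div_le_iff₀ hDn]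
      refine ht.trans ?_
      have h6 : ‖psi ζ + a0 * ζ‖ ^ 2 ≤ M ^ 2 := pow_le_pow_left₀ (norm_nonneg _) hmζ 2
      have h7 : C1 * ‖D‖ / (C * V) ≤ C1 * ‖D‖ / V :=
        div_le_div_of_nonneg_left (by positivity) hVp hVC
      calc C1 * ‖D‖ / (C * V) * ‖psi ζ + a0 * ζ‖ ^ 2 ≤ C1 * ‖D‖ / V * M ^ 2 :=
            mul_le_mul h7 h6 (by positivity) (by positivity)
        _ = C1 * M ^ 2 / V * ‖D‖ := by ring
    have hloc := hLo lam B hP ρ (C1 * M ^ 2 / V) z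
      (fun ζ => 1 / D * F ((C : ℂ) * V + (psi ζ + a0 * ζ)) +
        (-1) * (psi ζ + a0 * ζ) + -(F ((C : ℂ) * V) / D)) hρ3 hρ2 hρ1
      (((d1.const_mul _).add (d2.const_mul (-1))).add_const _) hb
    rw [hlin] at hloc
    have e2 : 1 / D * LL lam (fun ζ => F ((C : ℂ) * V + (psi ζ + a0 * ζ))) z +
        (-1) * LL lam (fun ζ => psi ζ + a0 * ζ) z =
        LL lam (fun ζ => F ((C : ℂ) * V + (psi ζ + a0 * ζ))) z / D -
        LL lam (fun ζ => psi ζ + a0 * ζ) z := by ring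
    rw [e2] at hloc
    calc _ ≤ _ := hloc
      _ = _ := by ring
  rw [tendsto_iff_norm_sub_tendsto_zero]
  have hlim : Tendsto (fun V : ℝ => 2 * B * (C1 * M ^ 2) / V) atTop (𝓝 0) :=
    tendsto_const_nhds.div_atTop tendsto_id
  refine squeeze_zero' (Eventually.of_forall fun V => norm_nonneg _) ?_ hlim
  filter_upwards [eventually_ge_atTop (10 * a0), eventually_ge_atTop (2 * M)] with V h2 h3
  exact key V h2 h3

end Pool.Agent.MultS.Lip

end

section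

/-!
# [A0] Cayley transforms
-/

set_option autoImplicit false

open Complex Metric Set Filter Topology MeasureTheory

namespace Pool.Agent.MultS.Lip

namespace Cay'

lemma ball_re {ζ : ℂ} (h : ζ ∈ ball (0 : ℂ) 1) : ζ.re ^ 2 + ζ.im ^ 2 < 1 := by
  rw [mem_ball_zero_iff] at h
  have h1 : ‖ζ‖ ^ 2 < 1 := by
    have := norm_nonneg ζ
    nlinarith
  rw [Complex.sq_norm, Complex.normSq_apply] at h1
  linarith

lemma one_sub_ne {ζ : ℂ} (h : ζ ∈ ball (0 : ℂ) 1) : 1 - ζ ≠ 0 := by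
  intro h0
  have h1 : ζ = 1 := (sub_eq_zero.1 h0).symm
  rw [h1, mem_ball_zero_iff, norm_one] at h
  exact lt_irrefl _ h

lemma add_one_ne {w : ℂ} (h : w ∈ Hp) : w + 1 ≠ 0 := by
  intro h0
  have h1 : (w + 1).re = 0 := by rw [h0]; rfl
  rw [Complex.add_re, Complex.one_re] at h1
  have h2 : 0 < w.re := h
  linarith

lemma psi_mem {ζ : ℂ} (h : ζ ∈ ball (0 : ℂ) 1) : psi ζ ∈ Hp := by
  have h1 := ball_re h
  have h2 : 0 < Complex.normSq (1 - ζ) := Complex.normSq_pos.2 (one_sub_ne h)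
  show 0 < ((1 + ζ) / (1 - ζ)).re
  rw [Complex.div_re, ← add_div]
  apply div_pos _ h2
  simp only [Complex.add_re, Complex.sub_re, Complex.one_re, Complex.add_im, Complex.sub_im,
    Complex.one_im]
  linarith

lemma one_lt {w : ℂ} (h : w ∈ Hp) : 1 < ‖w + 1‖ := by
  have h1 : (w + 1).re ≤ ‖w + 1‖ := Complex.re_le_norm _
  rw [Complex.add_re, Complex.one_re] at h1
  have h2 : 0 < w.re := h
  linarith

lemma phi_sq {w : ℂ} (h : w ∈ Hp) : 1 - ‖phi w‖ ^ 2 = 4 * w.re / ‖w + 1‖ ^ 2 := by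
  have h1 := one_lt h
  have h2 : ‖w + 1‖ ^ 2 ≠ 0 := by positivity
  unfold phi
  rw [norm_div, div_pow, eq_div_iff h2, sub_mul, div_mul_cancel₀ _ h2, Complex.sq_norm,
    Complex.sq_norm, Complex.normSq_apply, Complex.normSq_apply]
  simp only [Complex.add_re, Complex.sub_re, Complex.one_re, Complex.add_im, Complex.sub_im,
    Complex.one_im]
  ring

lemma phi_mem {w : ℂ} (h : w ∈ Hp) : phi w ∈ ball (0 : ℂ) 1 := by
  rw [mem_ball_zero_iff]
  have h1 := phi_sq h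
  have h2 : 0 < w.re := h
  have h3 := one_lt h
  have h4 : 0 < 4 * w.re / ‖w + 1‖ ^ 2 := by positivity
  have h5 : ‖phi w‖ ^ 2 < 1 := by linarith
  exact (sq_lt_one_iff₀ (norm_nonneg _)).1 h5

lemma der_psi {ζ : ℂ} (h : ζ ∈ ball (0 : ℂ) 1) : HasDerivAt psi (2 / (1 - ζ) ^ 2) ζ := by
  have h0 := one_sub_ne h
  have h1 : HasDerivAt (fun z : ℂ => 1 + z) 1 ζ := (hasDerivAt_id' ζ).const_add 1
  have h2 : HasDerivAt (fun z : ℂ => 1 - z) (-1) ζ := (hasDerivAt_id' ζ).const_sub 1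
  have h3 := h1.fun_div h2 h0
  convert! h3 using 1
  congr 1
  ring

lemma der_phi {w : ℂ} (h : w ∈ Hp) : HasDerivAt phi (2 / (w + 1) ^ 2) w := by
  have h0 := add_one_ne h
  have h1 : HasDerivAt (fun z : ℂ => z - 1) 1 w := (hasDerivAt_id' w).sub_const 1
  have h2 : HasDerivAt (fun z : ℂ => z + 1) 1 w := (hasDerivAt_id' w).add_const 1
  have h3 := h1.fun_div h2 h0
  convert! h3 using 1
  congr 1
  ring

end Cay'

open Cay' in
theorem prfCay : Cay := by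
  refine ⟨fun ζ h => ⟨psi_mem h, ?_, ?_⟩, fun w h => ⟨phi_mem h, ?_, ?_, phi_sq h, one_lt h⟩,
    fun ζ h => (der_psi h).differentiableAt.differentiableWithinAt,
    fun w h => (der_phi h).differentiableAt.differentiableWithinAt, fun ζ h => der_psi h,
    fun w h => der_phi h⟩
  · have h0 := one_sub_ne h
    have e1 : psi ζ - 1 = 2 * ζ / (1 - ζ) := by
      unfold psi
      rw [eq_div_iff h0, sub_mul, div_mul_cancel₀ _ h0]
      ring
    have e2 : psi ζ + 1 = 2 / (1 - ζ) := by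
      unfold psi
      rw [eq_div_iff h0, add_mul, div_mul_cancel₀ _ h0]
      ring
    unfold phi
    rw [e1, e2, div_div_div_cancel_right₀ h0]
    field_simp
  · have h0 := one_sub_ne h
    unfold psi
    rw [eq_div_iff h0, add_mul, div_mul_cancel₀ _ h0]
    ring
  · have h0 := add_one_ne h
    have e1 : 1 + phi w = 2 * w / (w + 1) := by
      unfold phi
      rw [eq_div_iff h0, add_mul, div_mul_cancel₀ _ h0]
      ring
    have e2 : 1 - phi w = 2 / (w + 1) := by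
      unfold phi
      rw [eq_div_iff h0, sub_mul, div_mul_cancel₀ _ h0]
      ring
    unfold psi
    rw [e1, e2, div_div_div_cancel_right₀ h0]
    field_simp
  · have h0 := add_one_ne h
    unfold phi
    rw [eq_div_iff h0, sub_mul, div_mul_cancel₀ _ h0]
    ring

end Pool.Agent.MultS.Lip

end

section

/-!
# Item A5: change of variables between the disk and the half plane
-/

set_option autoImplicit false

open Complex Metric Set Filter Topology MeasureTheory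

namespace Pool.Agent.MultS.Lip

namespace ChVar'

/-- multiplication by `a`, as a real linear map -/
noncomputable def mulR (a : ℂ) : ℂ →L[ℝ] ℂ :=
  (ContinuousLinearMap.toSpanSingleton ℂ a).restrictScalars ℝ

lemma det_mulR (a : ℂ) : (mulR a).det = ‖a‖ ^ 2 := by
  have h1 : ((mulR a : ℂ →L[ℝ] ℂ) : ℂ →ₗ[ℝ] ℂ) = Algebra.lmul ℝ ℂ a := by
    ext x
    all_goals simp [mulR, mul_comm]
  rw [ContinuousLinearMap.det, h1]
  have h2 : LinearMap.det (Algebra.lmul ℝ ℂ a : ℂ →ₗ[ℝ] ℂ) = Algebra.norm ℝ a := by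
    rw [Algebra.norm_apply]
  rw [h2, Algebra.norm_complex_apply, Complex.normSq_eq_norm_sq]

lemma isOpen_Hp : IsOpen Hp := isOpen_lt continuous_const Complex.continuous_re

end ChVar'

open ChVar'

theorem prfChVar (hC : Cay) : ChVar := by
  obtain ⟨h1, h2, -, -, -, h6⟩ := hC
  intro G
  have him : phi '' Hp = ball (0 : ℂ) 1 := by
    ext ζ
    constructor
    · rintro ⟨w, hw, rfl⟩
      exact (h2 w hw).1
    · intro hζ
      exact ⟨psi ζ, (h1 ζ hζ).1, (h1 ζ hζ).2.1⟩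
  have hinj : InjOn phi Hp := by
    intro w hw w' hw' h
    rw [← (h2 w hw).2.1, h, (h2 w' hw').2.1]
  have hder : ∀ w ∈ Hp, HasFDerivWithinAt phi (mulR (2 / (w + 1) ^ 2)) Hp w := by
    intro w hw
    exact ((h6 w hw).hasFDerivAt.restrictScalars ℝ).hasFDerivWithinAt
  rw [← him, lintegral_image_eq_lintegral_abs_det_fderiv_mul volume isOpen_Hp.measurableSet hder
    hinj]
  refine setLIntegral_congr_fun isOpen_Hp.measurableSet fun w hw => ?_
  show ENNReal.ofReal |(mulR (2 / (w + 1) ^ 2)).det| * G (phi w) = _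
  rw [det_mulR, abs_of_nonneg (by positivity)]
  congr 2
  rw [norm_div, norm_pow, div_pow, ← pow_mul]
  norm_num

end Pool.Agent.MultS.Lip

end

section

set_option autoImplicit false

open Complex Metric Set Filter Topology MeasureTheory

namespace Pool.Agent.MultS.Lip

namespace Err'

theorem isOpen_Hp : IsOpen Hp := isOpen_lt continuous_const Complex.continuous_re

theorem ball_Hp {q : ℝ} (hq : 0 < q) {p : ℂ} (hp : ‖p - q‖ ≤ q / 2) : p ∈ Hp := by
  have e1 := (abs_le.1 ((Complex.abs_re_le_norm _).trans hp)).1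
  rw [Complex.sub_re, Complex.ofReal_re] at e1
  show 0 < p.re
  linarith

theorem A_bd {F : ℂ → ℂ} (hF : DifferentiableOn ℂ F Hp) {q : ℝ} (hq : 0 < q) {L : ℝ}
    (hL : ∀ p : ℂ, ‖p - q‖ ≤ q / 2 → ‖deriv (deriv F) p‖ ≤ L) {ρ : ℝ} (hρ : ρ ≤ q / 2) {a b : ℂ}
    (ha : ‖a‖ ≤ ρ) (hb : ‖b‖ ≤ ρ) :
    ‖F (q + a) - F (q + b) - deriv F (q : ℂ) * (a - b)‖ ≤ L * ρ * ‖a - b‖ := by
  have hρ0 : 0 ≤ ρ := (norm_nonneg a).trans ha
  have hL0 : 0 ≤ L := (norm_nonneg _).trans (hL q (by rw [sub_self, norm_zero]; linarith))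
  have hdd : DifferentiableOn ℂ (deriv F) Hp := hF.deriv isOpen_Hp
  have h1 : ∀ x ∈ closedBall (q : ℂ) ρ, ‖deriv F x - deriv F q‖ ≤ L * ρ := by
    intro x hx
    have hx' : ‖x - q‖ ≤ ρ := by rwa [mem_closedBall, dist_eq_norm] at hx
    have h2 := (convex_closedBall (q : ℂ) (q / 2)).norm_image_sub_le_of_norm_deriv_le
      (f := deriv F) (C := L) (x := (q : ℂ)) (y := x)
      (fun z hz => (hdd z (ball_Hp hq (by rwa [mem_closedBall, dist_eq_norm] at hz))).differentiableAt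
        (isOpen_Hp.mem_nhds (ball_Hp hq (by rwa [mem_closedBall, dist_eq_norm] at hz))))
      (fun z hz => hL z (by rwa [mem_closedBall, dist_eq_norm] at hz))
      (mem_closedBall_self (by linarith)) (by rw [mem_closedBall, dist_eq_norm]; linarith)
    exact h2.trans (by gcongr)
  have h3 : ∀ x ∈ closedBall (q : ℂ) ρ,
      HasDerivAt (fun x => F x - deriv F (q : ℂ) * x) (deriv F x - deriv F q) x := by
    intro x hx
    have hx' : x ∈ Hp := ball_Hp hq (by rw [mem_closedBall, dist_eq_norm] at hx; linarith)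
    have h4 : HasDerivAt F (deriv F x) x :=
      ((hF x hx').differentiableAt (isOpen_Hp.mem_nhds hx')).hasDerivAt
    have h5 : HasDerivAt (fun x : ℂ => deriv F (q : ℂ) * x) (deriv F (q : ℂ) * 1) x :=
      (hasDerivAt_id x).const_mul _
    rw [mul_one] at h5
    exact h4.sub h5
  have h4 := (convex_closedBall (q : ℂ) ρ).norm_image_sub_le_of_norm_hasDerivWithin_le
    (fun x hx => (h3 x hx).hasDerivWithinAt) h1 (x := (q : ℂ) + b) (y := (q : ℂ) + a)
    (by rw [mem_closedBall, dist_eq_norm, add_sub_cancel_left]; exact hb)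
    (by rw [mem_closedBall, dist_eq_norm, add_sub_cancel_left]; exact ha)
  rw [add_sub_add_left_eq_sub] at h4
  refine (le_of_eq ?_).trans h4
  congr 1
  ring

theorem F_bd {F : ℂ → ℂ} (hF : DifferentiableOn ℂ F Hp) {q : ℝ} (hq : 0 < q) {C₁ D : ℝ}
    (hC₁ : 0 ≤ C₁) (hD : 0 ≤ D)
    (hL : ∀ p : ℂ, q / 4 ≤ p.re → ‖deriv F p‖ ≤ C₁ * D * (1 + ‖p - q‖ / q) ^ 4) {ρ : ℝ} {a b : ℂ}
    (ha : ‖a‖ ≤ ρ) (hb : ‖b‖ ≤ ρ) (ha' : q / 4 ≤ q + a.re) (hb' : q / 4 ≤ q + b.re) :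
    ‖F (q + a) - F (q + b)‖ ≤ C₁ * D * (1 + ρ / q) ^ 4 * ‖a - b‖ := by
  have hconv : Convex ℝ (closedBall (q : ℂ) ρ ∩ {z : ℂ | q / 4 ≤ z.re}) :=
    (convex_closedBall _ _).inter (convex_halfSpace_re_ge _)
  have h4 := hconv.norm_image_sub_le_of_norm_deriv_le (f := F)
    (C := C₁ * D * (1 + ρ / q) ^ 4) (x := (q : ℂ) + b) (y := (q : ℂ) + a)
    (fun x hx => by
      have hx' : x ∈ Hp := by
        show 0 < x.re
        have : q / 4 ≤ x.re := hx.2
        linarith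
      exact (hF x hx').differentiableAt (isOpen_Hp.mem_nhds hx'))
    (fun x hx => by
      refine (hL x hx.2).trans ?_
      have : ‖x - q‖ ≤ ρ := by
        have := hx.1
        rwa [mem_closedBall, dist_eq_norm] at this
      gcongr)
    ⟨by rw [mem_closedBall, dist_eq_norm, add_sub_cancel_left]; exact hb, by
      show q / 4 ≤ ((q : ℂ) + b).re
      rw [Complex.add_re, Complex.ofReal_re]
      exact hb'⟩
    ⟨by rw [mem_closedBall, dist_eq_norm, add_sub_cancel_left]; exact ha, by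
      show q / 4 ≤ ((q : ℂ) + a).re
      rw [Complex.add_re, Complex.ofReal_re]
      exact ha'⟩
  rwa [add_sub_add_left_eq_sub] at h4

theorem rp {V s : ℝ} (hV : 0 < V) (hs : 0 ≤ s) :
    V ^ (-(1 / 2) : ℝ) * (V * s) ^ (3 / 2 : ℝ) = V * s ^ (3 / 2 : ℝ) := by
  rw [Real.mul_rpow hV.le hs, ← mul_assoc, ← Real.rpow_add hV]
  norm_num

theorem rp1 {V s : ℝ} (hV : 0 < V) (hs : 0 ≤ s) (hs1 : s ≤ 1) :
    V * s ^ 2 ≤ V ^ (-(1 / 2) : ℝ) * (V * s) ^ (3 / 2 : ℝ) := by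
  rw [rp hV hs]
  have h : s ^ 2 ≤ s ^ (3 / 2 : ℝ) := by
    rcases hs.eq_or_lt with h0 | h0
    · rw [← h0, Real.zero_rpow (by norm_num)]
      norm_num
    · rw [← Real.rpow_natCast]
      exact Real.rpow_le_rpow_of_exponent_ge h0 hs1 (by norm_num)
  gcongr

theorem rp2 {V s : ℝ} (hV : 0 < V) (hs1 : 1 ≤ s) :
    V * s ≤ V ^ (-(1 / 2) : ℝ) * (V * s) ^ (3 / 2 : ℝ) := by
  rw [rp hV (by linarith)]
  have h : s ≤ s ^ (3 / 2 : ℝ) := by
    calc s = s ^ (1 : ℝ) := (Real.rpow_one s).symm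
      _ ≤ s ^ (3 / 2 : ℝ) := Real.rpow_le_rpow_of_exponent_le hs1 (by norm_num)
  gcongr

theorem case1 {C₁ c M C V ε : ℝ} (hC₁ : 1 ≤ C₁) (hc : 0 < c)
    (hM1 : C₁ * ((5 + c) * (1 + c) + 1) ≤ M) (hM2 : c ≤ M)
    (hM3 : 3 * C₁ * c * (1 + c) ^ 4 + 5 ≤ M) (hM4 : 2 * (1 + c) ≤ M) (hMC : M ≤ C)
    {F : ℂ → ℂ} (hF : DifferentiableOn ℂ F Hp) (hV : 0 < V) (hε : 0 ≤ ε) (hε1 : ε ≤ 1)
    {y : ℂ} (hy : ‖y‖ ≤ 4) {g : ℂ → ℂ}
    (hG1 : ∀ p : ℂ, C * V / 4 ≤ p.re →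
      ‖deriv F p‖ ≤ C₁ * ‖deriv F ((C * V : ℝ) : ℂ)‖ * (1 + ‖p - ((C * V : ℝ) : ℂ)‖ / (C * V)) ^ 4)
    (hG2 : ∀ p : ℂ, ‖p - ((C * V : ℝ) : ℂ)‖ ≤ C * V / 2 →
      ‖deriv (deriv F) p‖ ≤ C₁ * ‖deriv F ((C * V : ℝ) : ℂ)‖ / (C * V))
    (hdec : ∀ v ∈ Om, ‖g v - v‖ ≤ c / (1 + ‖v‖) ^ 3)
    (htay : ∀ v ∈ Om, ‖v‖ ≤ 1 → ‖g v - g 0 - y * v‖ ≤ ε * ‖v‖ + c * ‖v‖ ^ 2)
    {u : ℂ} (hu : u / (V : ℂ) ∈ Om) (hv1 : ‖u / (V : ℂ)‖ ≤ 1) :
    ‖F (((C * V : ℝ) : ℂ) + V * g (u / V)) - F (((C * V : ℝ) : ℂ) + u) -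
        (y - 1) * deriv F ((C * V : ℝ) : ℂ) * u -
        (F (((C * V : ℝ) : ℂ) + V * g 0) - F ((C * V : ℝ) : ℂ))‖ ≤
      ‖deriv F ((C * V : ℝ) : ℂ)‖ *
        ((ε + M / C) * ‖u‖ + M * V ^ (-(1 / 2) : ℝ) * ‖u‖ ^ (3 / 2 : ℝ)) := by
  have hC2 : 2 * (1 + c) ≤ C := by linarith
  have hC0 : 0 < C := by linarith
  have hM0 : 0 ≤ M := by linarith
  have hMC0 : 0 ≤ M / C := by positivity
  have hV0 : (V : ℂ) ≠ 0 := by exact_mod_cast hV.ne'
  set q : ℝ := C * V with hqdef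
  have hq : 0 < q := mul_pos hC0 hV
  set D := ‖deriv F (q : ℂ)‖ with hD
  have hD0 : 0 ≤ D := norm_nonneg _
  set v := u / V with hv
  have huv : u = V * v := by rw [hv]; field_simp
  have hun : ‖u‖ = V * ‖v‖ := by
    rw [huv, norm_mul, Complex.norm_real, Real.norm_eq_abs, abs_of_pos hV]
  have hVn : ∀ z : ℂ, ‖(V : ℂ) * z‖ = V * ‖z‖ := by
    intro z
    rw [norm_mul, Complex.norm_real, Real.norm_eq_abs, abs_of_pos hV]
  have h0Om : (0 : ℂ) ∈ Om := by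
    show -(1 / 10 : ℝ) < (0 : ℂ).re
    rw [Complex.zero_re]
    norm_num
  have hvn : 0 ≤ ‖v‖ := norm_nonneg v
  have hg0 : ‖g 0‖ ≤ c := by
    have := hdec 0 h0Om
    rwa [sub_zero, norm_zero, add_zero, one_pow, div_one] at this
  have hgv : ‖g v - v‖ ≤ c / (1 + ‖v‖) ^ 3 := hdec v hu
  have hgv' : ‖g v - v‖ ≤ c := by
    refine hgv.trans (div_le_self hc.le ?_)
    exact one_le_pow₀ (by linarith)
  have hgvn : ‖g v‖ ≤ ‖v‖ + c := by
    have h1 : g v = v + (g v - v) := by ring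
    rw [h1]
    exact (norm_add_le _ _).trans (by gcongr)
  rw [hun]
  have hρ : (1 + c) * V ≤ q / 2 := by
    rw [hqdef]
    nlinarith
  have e1 : ‖(V : ℂ) * g v‖ ≤ (1 + c) * V := by
    rw [hVn]
    nlinarith
  have e2 : ‖(V : ℂ) * g 0‖ ≤ (1 + c) * V := by
    rw [hVn]
    nlinarith
  have e3 := A_bd hF hq hG2 hρ e1 e2
  have e4 : V * ‖v‖ ≤ q / 2 := by
    rw [hqdef]
    nlinarith
  have e5 := A_bd hF hq hG2 e4 (a := V * v) (b := 0) (by rw [hVn]) (by rw [norm_zero]; positivity)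
  have e6 := htay v hu hv1
  have e7 : ‖g v - g 0‖ ≤ (5 + c) * ‖v‖ := by
    have h1 : g v - g 0 = (g v - g 0 - y * v) + y * v := by ring
    rw [h1]
    refine (norm_add_le _ _).trans ?_
    rw [norm_mul]
    have h2 : ‖v‖ ^ 2 ≤ ‖v‖ := by nlinarith
    nlinarith
  have e8 : ‖(V : ℂ) * g v - V * g 0‖ ≤ V * ((5 + c) * ‖v‖) := by
    rw [← mul_sub, hVn]
    gcongr
  have hq1 : V / q = 1 / C := by rw [hqdef]; field_simp
  have f1 : ‖F (q + V * g v) - F (q + V * g 0) - deriv F (q : ℂ) * (V * g v - V * g 0)‖ ≤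
      D * (C₁ * ((5 + c) * (1 + c)) / C) * (V * ‖v‖) := by
    refine e3.trans ?_
    calc C₁ * D / q * ((1 + c) * V) * ‖(V : ℂ) * g v - V * g 0‖
        ≤ C₁ * D / q * ((1 + c) * V) * (V * ((5 + c) * ‖v‖)) := by gcongr
      _ = C₁ * D * ((1 + c) * (5 + c)) * (V / q) * (V * ‖v‖) := by ring
      _ = D * (C₁ * ((5 + c) * (1 + c)) / C) * (V * ‖v‖) := by rw [hq1]; ring
  have f2 : ‖F (q + V * v) - F (q + 0) - deriv F (q : ℂ) * (V * v - 0)‖ ≤
      D * (C₁ / C) * (V * ‖v‖) := by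
    refine e5.trans ?_
    rw [sub_zero, hVn]
    calc C₁ * D / q * (V * ‖v‖) * (V * ‖v‖) = C₁ * D * (V / q) * ‖v‖ * (V * ‖v‖) := by ring
      _ ≤ C₁ * D * (V / q) * 1 * (V * ‖v‖) := by gcongr
      _ = D * (C₁ / C) * (V * ‖v‖) := by rw [hq1]; ring
  have f3 : ‖deriv F (q : ℂ) * (V * (g v - g 0 - y * v))‖ ≤
      D * (V * (ε * ‖v‖ + c * ‖v‖ ^ 2)) := by
    rw [norm_mul, hVn]
    gcongr
  have key : F (q + V * g v) - F (q + u) - (y - 1) * deriv F (q : ℂ) * u -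
      (F (q + V * g 0) - F q) =
      (F (q + V * g v) - F (q + V * g 0) - deriv F (q : ℂ) * (V * g v - V * g 0)) -
      (F (q + V * v) - F (q + 0) - deriv F (q : ℂ) * (V * v - 0)) +
      deriv F (q : ℂ) * (V * (g v - g 0 - y * v)) := by
    rw [huv, add_zero]
    ring
  rw [key]
  refine (norm_add_le _ _).trans ((add_le_add ((norm_sub_le _ _).trans (add_le_add f1 f2)) f3).trans ?_)
  have r1 := rp1 hV hvn hv1
  have r0 : 0 ≤ V ^ (-(1 / 2) : ℝ) * (V * ‖v‖) ^ (3 / 2 : ℝ) := by positivity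
  have r2 : c * (V * ‖v‖ ^ 2) ≤ M * (V ^ (-(1 / 2) : ℝ) * (V * ‖v‖) ^ (3 / 2 : ℝ)) := by
    exact mul_le_mul hM2 r1 (by positivity) hM0
  have r3 : C₁ * ((5 + c) * (1 + c)) / C + C₁ / C ≤ M / C := by
    rw [← add_div]
    have hlin : C₁ * ((5 + c) * (1 + c)) + C₁ ≤ M := by linarith
    exact div_le_div_of_nonneg_right hlin hC0.le
  have r4 : 0 ≤ V * ‖v‖ := by positivity
  have r5 : (C₁ * ((5 + c) * (1 + c)) / C + C₁ / C) * (V * ‖v‖) ≤ M / C * (V * ‖v‖) :=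
    mul_le_mul_of_nonneg_right r3 r4
  calc D * (C₁ * ((5 + c) * (1 + c)) / C) * (V * ‖v‖) + D * (C₁ / C) * (V * ‖v‖) +
        D * (V * (ε * ‖v‖ + c * ‖v‖ ^ 2))
      = D * (ε * (V * ‖v‖) + (C₁ * ((5 + c) * (1 + c)) / C + C₁ / C) * (V * ‖v‖) +
          c * (V * ‖v‖ ^ 2)) := by ring
    _ ≤ D * (ε * (V * ‖v‖) + M / C * (V * ‖v‖) +
          M * (V ^ (-(1 / 2) : ℝ) * (V * ‖v‖) ^ (3 / 2 : ℝ))) :=
        mul_le_mul_of_nonneg_left (add_le_add (add_le_add le_rfl r5) r2) hD0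
    _ = _ := by ring

theorem case2 {C₁ c M C V ε : ℝ} (hC₁ : 1 ≤ C₁) (hc : 0 < c)
    (hM1 : C₁ * ((5 + c) * (1 + c) + 1) ≤ M) (hM2 : c ≤ M)
    (hM3 : 3 * C₁ * c * (1 + c) ^ 4 + 5 ≤ M) (hM4 : 2 * (1 + c) ≤ M) (hMC : M ≤ C)
    {F : ℂ → ℂ} (hF : DifferentiableOn ℂ F Hp) (hV : 0 < V) (hε : 0 ≤ ε) (hε1 : ε ≤ 1)
    {y : ℂ} (hy : ‖y‖ ≤ 4) {g : ℂ → ℂ}
    (hG1 : ∀ p : ℂ, C * V / 4 ≤ p.re →
      ‖deriv F p‖ ≤ C₁ * ‖deriv F ((C * V : ℝ) : ℂ)‖ * (1 + ‖p - ((C * V : ℝ) : ℂ)‖ / (C * V)) ^ 4)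
    (hG2 : ∀ p : ℂ, ‖p - ((C * V : ℝ) : ℂ)‖ ≤ C * V / 2 →
      ‖deriv (deriv F) p‖ ≤ C₁ * ‖deriv F ((C * V : ℝ) : ℂ)‖ / (C * V))
    (hdec : ∀ v ∈ Om, ‖g v - v‖ ≤ c / (1 + ‖v‖) ^ 3)
    (htay : ∀ v ∈ Om, ‖v‖ ≤ 1 → ‖g v - g 0 - y * v‖ ≤ ε * ‖v‖ + c * ‖v‖ ^ 2)
    {u : ℂ} (hu : u / (V : ℂ) ∈ Om) (hv1 : 1 ≤ ‖u / (V : ℂ)‖) :
    ‖F (((C * V : ℝ) : ℂ) + V * g (u / V)) - F (((C * V : ℝ) : ℂ) + u) -
        (y - 1) * deriv F ((C * V : ℝ) : ℂ) * u -
        (F (((C * V : ℝ) : ℂ) + V * g 0) - F ((C * V : ℝ) : ℂ))‖ ≤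
      ‖deriv F ((C * V : ℝ) : ℂ)‖ *
        ((ε + M / C) * ‖u‖ + M * V ^ (-(1 / 2) : ℝ) * ‖u‖ ^ (3 / 2 : ℝ)) := by
  have hC2 : 2 * (1 + c) ≤ C := by linarith
  have hC0 : 0 < C := by linarith
  have hM0 : 0 ≤ M := by linarith
  have hMC0 : 0 ≤ M / C := by positivity
  have hV0 : (V : ℂ) ≠ 0 := by exact_mod_cast hV.ne'
  set q : ℝ := C * V with hqdef
  have hq : 0 < q := mul_pos hC0 hV
  set D := ‖deriv F (q : ℂ)‖ with hD
  have hD0 : 0 ≤ D := norm_nonneg _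
  set v := u / V with hv
  have huv : u = V * v := by rw [hv]; field_simp
  have hun : ‖u‖ = V * ‖v‖ := by
    rw [huv, norm_mul, Complex.norm_real, Real.norm_eq_abs, abs_of_pos hV]
  have hVn : ∀ z : ℂ, ‖(V : ℂ) * z‖ = V * ‖z‖ := by
    intro z
    rw [norm_mul, Complex.norm_real, Real.norm_eq_abs, abs_of_pos hV]
  have h0Om : (0 : ℂ) ∈ Om := by
    show -(1 / 10 : ℝ) < (0 : ℂ).re
    rw [Complex.zero_re]
    norm_num
  have hvn : 0 ≤ ‖v‖ := norm_nonneg v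
  have hg0 : ‖g 0‖ ≤ c := by
    have := hdec 0 h0Om
    rwa [sub_zero, norm_zero, add_zero, one_pow, div_one] at this
  have hgv : ‖g v - v‖ ≤ c / (1 + ‖v‖) ^ 3 := hdec v hu
  have hgv' : ‖g v - v‖ ≤ c := by
    refine hgv.trans (div_le_self hc.le ?_)
    exact one_le_pow₀ (by linarith)
  have hgvn : ‖g v‖ ≤ ‖v‖ + c := by
    have h1 : g v = v + (g v - v) := by ring
    rw [h1]
    exact (norm_add_le _ _).trans (by gcongr)
  rw [hun]
  have hvre : -(1 / 10 : ℝ) < v.re := hu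
  have hgre : -(1 / 10 : ℝ) - c ≤ (g v).re := by
    have h1 := (abs_le.1 ((Complex.abs_re_le_norm _).trans hgv')).1
    rw [Complex.sub_re] at h1
    linarith
  have hg0re : - c ≤ (g 0).re := by
    have h1 := (abs_le.1 ((Complex.abs_re_le_norm _).trans hg0)).1
    linarith
  have hq4 : ∀ w : ℂ, -(1 / 10 : ℝ) - c ≤ w.re → q / 4 ≤ q + ((V : ℂ) * w).re := by
    intro w hw
    rw [Complex.re_ofReal_mul, hqdef]
    nlinarith
  have e1 : ‖(V : ℂ) * g v‖ ≤ V * (‖v‖ + c) := by rw [hVn]; gcongr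
  have e2 : ‖(V : ℂ) * v‖ ≤ V * (‖v‖ + c) := by rw [hVn]; gcongr; linarith
  have e3 := F_bd hF hq (by linarith) hD0 hG1 e1 e2 (hq4 _ hgre) (hq4 _ (by linarith))
  have e4 := F_bd hF hq (by linarith) hD0 hG1 (a := V * g 0) (b := 0) (ρ := V * c)
    (by rw [hVn]; gcongr) (by rw [norm_zero]; positivity) (hq4 _ (by linarith))
    (by rw [Complex.zero_re]; linarith)
  have hC1 : 1 ≤ C := by linarith
  have g1 : 1 + V * (‖v‖ + c) / q ≤ (1 + c) * (1 + ‖v‖) := by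
    have h1 : V * (‖v‖ + c) / q = (‖v‖ + c) / C := by rw [hqdef]; field_simp
    rw [h1]
    have h2 : (‖v‖ + c) / C ≤ ‖v‖ + c := div_le_self (by positivity) hC1
    nlinarith
  have g2 : 1 + V * c / q ≤ 1 + c := by
    have h1 : V * c / q = c / C := by rw [hqdef]; field_simp
    rw [h1]
    have h2 : c / C ≤ c := div_le_self hc.le hC1
    linarith
  have f1 : ‖F (q + V * g v) - F (q + V * v)‖ ≤ 2 * C₁ * c * (1 + c) ^ 4 * D * (V * ‖v‖) := by
    refine e3.trans ?_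
    rw [← mul_sub, hVn]
    have hpos : 0 < (1 + ‖v‖) ^ 3 := by positivity
    calc C₁ * D * (1 + V * (‖v‖ + c) / q) ^ 4 * (V * ‖g v - v‖)
        ≤ C₁ * D * ((1 + c) * (1 + ‖v‖)) ^ 4 * (V * (c / (1 + ‖v‖) ^ 3)) := by gcongr
      _ = C₁ * c * (1 + c) ^ 4 * D * V * (1 + ‖v‖) := by field_simp
      _ ≤ C₁ * c * (1 + c) ^ 4 * D * V * (2 * ‖v‖) := by gcongr; linarith
      _ = 2 * C₁ * c * (1 + c) ^ 4 * D * (V * ‖v‖) := by ring
  have f2 : ‖F (q + V * g 0) - F (q + 0)‖ ≤ C₁ * c * (1 + c) ^ 4 * D * (V * ‖v‖) := by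
    refine e4.trans ?_
    rw [sub_zero, hVn]
    calc C₁ * D * (1 + V * c / q) ^ 4 * (V * ‖g 0‖)
        ≤ C₁ * D * (1 + c) ^ 4 * (V * c) := by gcongr
      _ = C₁ * c * (1 + c) ^ 4 * D * (V * 1) := by ring
      _ ≤ C₁ * c * (1 + c) ^ 4 * D * (V * ‖v‖) := by gcongr
  have f3 : ‖(y - 1) * deriv F (q : ℂ) * u‖ ≤ 5 * D * (V * ‖v‖) := by
    rw [norm_mul, norm_mul, hun]
    have : ‖y - 1‖ ≤ 5 := by
      have h1 := norm_sub_le y 1
      rw [norm_one] at h1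
      linarith
    gcongr
  rw [add_zero] at f2
  rw [← huv] at f1
  refine (norm_sub_le _ _).trans ((add_le_add ((norm_sub_le _ _).trans (add_le_add f1 f3)) f2).trans ?_)
  have r1 := rp2 hV hv1
  have r4 : 0 ≤ V * ‖v‖ := by positivity
  have r2 : (3 * C₁ * c * (1 + c) ^ 4 + 5) * (V * ‖v‖) ≤
      M * (V ^ (-(1 / 2) : ℝ) * (V * ‖v‖) ^ (3 / 2 : ℝ)) :=
    mul_le_mul (by linarith) r1 r4 (by linarith)
  calc 2 * C₁ * c * (1 + c) ^ 4 * D * (V * ‖v‖) + 5 * D * (V * ‖v‖) +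
        C₁ * c * (1 + c) ^ 4 * D * (V * ‖v‖)
      = D * (0 + (3 * C₁ * c * (1 + c) ^ 4 + 5) * (V * ‖v‖)) := by ring
    _ ≤ D * ((ε + M / C) * (V * ‖v‖) +
          M * (V ^ (-(1 / 2) : ℝ) * (V * ‖v‖) ^ (3 / 2 : ℝ))) := by
        gcongr
        positivity
    _ = _ := by ring


end Err'

open Err' in
theorem prfErr (hG : G4) : Err := by
  obtain ⟨C₁, hC₁, hG⟩ := hG
  intro c hc
  obtain ⟨M, hM1, hM2, hM3, hM4⟩ : ∃ M : ℝ, C₁ * ((5 + c) * (1 + c) + 1) ≤ M ∧ c ≤ M ∧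
      3 * C₁ * c * (1 + c) ^ 4 + 5 ≤ M ∧ 2 * (1 + c) ≤ M := by
    have h1 : 0 ≤ C₁ * ((5 + c) * (1 + c) + 1) := by positivity
    have h2 : 0 ≤ 3 * C₁ * c * (1 + c) ^ 4 := by positivity
    exact ⟨C₁ * ((5 + c) * (1 + c) + 1) + c + 3 * C₁ * c * (1 + c) ^ 4 + 5 + 2 * (1 + c),
      by linarith, by linarith, by linarith, by linarith⟩
  refine ⟨M, by linarith, ?_⟩
  intro C hMC F hF hFi V ε y g hV hε hε1 hy hdec htay u hu
  have hC0 : 0 < C := by linarith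
  have hqc : (C : ℂ) * V = ((C * V : ℝ) : ℂ) := by push_cast; ring
  rw [hqc]
  obtain ⟨hG1, hG2⟩ := hG F hF hFi (C * V) (mul_pos hC0 hV)
  rcases le_total ‖u / (V : ℂ)‖ 1 with hv1 | hv1
  · exact case1 hC₁ hc hM1 hM2 hM3 hM4 hMC hF hV hε hε1 hy hG1 hG2 hdec htay hu hv1
  · exact case2 hC₁ hc hM1 hM2 hM3 hM4 hMC hF hV hε hε1 hy hG1 hG2 hdec htay hu hv1

end Pool.Agent.MultS.Lip

end

section

/-!
# [A7] The bound in the half plane
-/

set_option autoImplicit false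

open Complex Metric Set Filter Topology MeasureTheory

namespace Pool.Agent.MultS.Lip

namespace HalfB'

theorem isOpen_Hp : IsOpen Hp := isOpen_lt continuous_const Complex.continuous_re

theorem pw (r x M : ℝ) (hr : 0 < r) (hx : 0 < 1 + x) :
    4 / r ^ 4 * (M * (r ^ (3 / 2 : ℝ) + r ^ 2 / (1 + x))) =
      4 * M * (r ^ (-(5 / 2) : ℝ) + (r ^ 2)⁻¹ * (1 + x)⁻¹) := by
  have h1 : r ^ (3 / 2 : ℝ) = r ^ (-(5 / 2) : ℝ) * r ^ 4 := by
    have h2 : (r ^ 4 : ℝ) = r ^ ((4 : ℕ) : ℝ) := (Real.rpow_natCast r 4).symm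
    rw [h2, ← Real.rpow_add hr]
    norm_num
  rw [h1]
  field_simp

end HalfB'

open HalfB' in
theorem prfHalfB (hC : Cay) (hA : AreaD) (hV : ChVar) (hJ : Jint) : HalfB := by
  obtain ⟨C0, hC0⟩ := hJ
  have hC1 : (0 : ℝ) < max C0 1 := lt_of_lt_of_le one_pos (le_max_right _ _)
  refine ⟨4 * max C0 1 / Real.pi, by positivity, ?_⟩
  intro lam B hP e he M hM hb z hz
  obtain ⟨hc1, hc2, hc3, _, _, _⟩ := hC
  have hB : 0 ≤ B := le_trans zero_le_one hP.le
  have hdiff : DifferentiableOn ℂ (fun ζ => e (psi ζ)) (ball 0 1) :=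
    he.comp hc3 (fun ζ hζ => (hc1 ζ hζ).1)
  have h1 := hA lam B hP (fun ζ => e (psi ζ)) hdiff z hz
  have h2 := hV (fun ζ => ENNReal.ofReal ‖e (psi ζ)‖)
  have h3 : ∫⁻ w in Hp, ENNReal.ofReal (4 / ‖w + 1‖ ^ 4) * ENNReal.ofReal ‖e (psi (phi w))‖ ≤
      ENNReal.ofReal (4 * M) * ENNReal.ofReal (max C0 1) := by
    calc ∫⁻ w in Hp, ENNReal.ofReal (4 / ‖w + 1‖ ^ 4) * ENNReal.ofReal ‖e (psi (phi w))‖
        ≤ ∫⁻ w in Hp, ENNReal.ofReal (4 * M) * ENNReal.ofReal (‖w + 1‖ ^ (-(5 / 2) : ℝ) +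
            (‖w + 1‖ ^ 2)⁻¹ * (1 + w.re)⁻¹) := by
          apply setLIntegral_mono' isOpen_Hp.measurableSet
          intro w hw
          obtain ⟨_, hw2, _, _, hw5⟩ := hc2 w hw
          have hr : 0 < ‖w + 1‖ := lt_trans one_pos hw5
          have hx : 0 < 1 + w.re := by
            have : 0 < w.re := hw
            linarith
          rw [← ENNReal.ofReal_mul (by positivity), ← ENNReal.ofReal_mul (by positivity), hw2]
          apply ENNReal.ofReal_le_ofReal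
          rw [← pw ‖w + 1‖ w.re M hr hx]
          exact mul_le_mul_of_nonneg_left (hb w hw) (by positivity)
      _ = ENNReal.ofReal (4 * M) * ∫⁻ w in Hp, ENNReal.ofReal (‖w + 1‖ ^ (-(5 / 2) : ℝ) +
            (‖w + 1‖ ^ 2)⁻¹ * (1 + w.re)⁻¹) :=
          lintegral_const_mul' _ _ ENNReal.ofReal_ne_top
      _ ≤ ENNReal.ofReal (4 * M) * ENNReal.ofReal (max C0 1) := by
          gcongr
          exact hC0.trans (ENNReal.ofReal_le_ofReal (le_max_left _ _))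
  rw [h2] at h1
  have h4 := h1.trans (mul_le_mul_right h3 (ENNReal.ofReal (B / Real.pi)))
  rw [← ENNReal.ofReal_mul (by positivity), ← ENNReal.ofReal_mul (by positivity)] at h4
  have h5 := (ENNReal.ofReal_le_ofReal_iff (by positivity)).mp h4
  have h6 : B / Real.pi * (4 * M * max C0 1) = 4 * max C0 1 / Real.pi * B * M := by
    ring
  rw [← h6]
  exact h5

end Pool.Agent.MultS.Lip

end

section

/-!
# The Lipschitz dichotomy: injectivity of the single hook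
-/

set_option autoImplicit false

open Complex Metric Set Filter Topology

namespace Pool.Agent.MultS.Lip

namespace HkA'

/-- Partial fractions, with abbreviations. -/
lemma pf0 {q K v L M N : ℂ} (y : ℂ) (h1 : v + q ≠ 0) (h2 : v + K ≠ 0) (h3 : v + L ≠ 0)
    (hK : K ≠ 0) (h4 : M ≠ 0) (h5 : N ≠ 0) (h6 : K - q ≠ 0) (hL : L = 2 * K)
    (hM : M = 2 * K + 3 * q) (hN : N = 2 * K - q) :
    v - (y - 1) * (4 * q ^ 2 * K ^ 3 / M) /
      ((v + q) * (v + K) * (v + L)) =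
      v - (y - 1) * (4 * q ^ 2 * K ^ 3 / (M * N * (K - q))) / (v + q) +
        (2 * ((y - 1) * (4 * q ^ 2 * K ^ 3 / (M * N * (K - q)))) -
          ((y - 1) * (4 * q ^ 2 * K ^ 3 / (M * N * (K - q)))) * q / K) / (v + K) +
        (((y - 1) * (4 * q ^ 2 * K ^ 3 / (M * N * (K - q)))) * q / K -
          ((y - 1) * (4 * q ^ 2 * K ^ 3 / (M * N * (K - q))))) / (v + L) := by
  have _ := hK
  field_simp
  subst hL hM hN
  ring

/-- Partial fractions. -/
lemma pf {q K v : ℂ} (y a : ℂ) (h1 : v + q ≠ 0) (h2 : v + K ≠ 0) (h3 : v + 2 * K ≠ 0)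
    (hK : K ≠ 0) (h4 : 2 * K + 3 * q ≠ 0) (h5 : 2 * K - q ≠ 0) (h6 : K - q ≠ 0)
    (ha : a = (y - 1) * (4 * q ^ 2 * K ^ 3 / ((2 * K + 3 * q) * (2 * K - q) * (K - q)))) :
    v - (y - 1) * (4 * q ^ 2 * K ^ 3 / (2 * K + 3 * q)) /
      ((v + q) * (v + K) * (v + 2 * K)) =
      v - a / (v + q) + (2 * a - a * q / K) / (v + K) + (a * q / K - a) / (v + 2 * K) := by
  subst ha
  exact pf0 y h1 h2 h3 hK h4 h5 h6 rfl rfl rfl

/-- The difference quotient, with an abbreviation. -/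
lemma dq0 {q K v w L : ℂ} (a c d : ℂ) (h1 : v + q ≠ 0) (h2 : v + K ≠ 0) (h3 : v + L ≠ 0)
    (h1' : w + q ≠ 0) (h2' : w + K ≠ 0) (h3' : w + L ≠ 0) :
    (v - w) * (1 + a / ((v + q) * (w + q)) - c / ((v + K) * (w + K)) -
      d / ((v + L) * (w + L))) =
      (v - a / (v + q) + c / (v + K) + d / (v + L)) -
      (w - a / (w + q) + c / (w + K) + d / (w + L)) := by
  field_simp
  ring

/-- The difference quotient. -/
lemma dq {q K v w : ℂ} (a c d : ℂ) (h1 : v + q ≠ 0) (h2 : v + K ≠ 0) (h3 : v + 2 * K ≠ 0)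
    (h1' : w + q ≠ 0) (h2' : w + K ≠ 0) (h3' : w + 2 * K ≠ 0)
    (h : v - a / (v + q) + c / (v + K) + d / (v + 2 * K) =
      w - a / (w + q) + c / (w + K) + d / (w + 2 * K)) (hvw : v ≠ w) :
    1 + a / ((v + q) * (w + q)) - c / ((v + K) * (w + K)) - d / ((v + 2 * K) * (w + 2 * K)) =
      0 := by
  have h0 : v - w ≠ 0 := sub_ne_zero.mpr hvw
  have key := dq0 a c d h1 h2 h3 h1' h2' h3'
  rw [h, sub_self] at key
  exact (mul_eq_zero.mp key).resolve_left h0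

/-- `|P| + Re P ≥ 2 b²`, `b = 9/10`. -/
lemma pb {p p' : ℂ} (h : 9 / 10 ≤ p.re) (h' : 9 / 10 ≤ p'.re) :
    81 / 50 ≤ ‖p * p'‖ + (p * p').re := by
  have h1 : 81 / 50 - (p * p').re ≤ ‖p * p'‖ := by
    rcases le_or_gt (81 / 50 - (p * p').re) 0 with hn | hp
    · exact hn.trans (norm_nonneg _)
    · refine abs_le_of_sq_le_sq' ?_ (norm_nonneg _) |>.2
      rw [← Complex.normSq_eq_norm_sq, Complex.normSq_apply]
      simp only [Complex.mul_re, Complex.mul_im]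
      have hx : 81 / 100 ≤ p.re * p'.re := by nlinarith
      have hk : 81 / 25 * (p.im * p'.im) ≤ (p.re * p'.im + p.im * p'.re) ^ 2 := by
        rcases le_or_gt (p.im * p'.im) 0 with ht | ht
        · nlinarith [sq_nonneg (p.re * p'.im + p.im * p'.re)]
        · have : 4 * (p.re * p'.re) * (p.im * p'.im) ≤ (p.re * p'.im + p.im * p'.re) ^ 2 := by
            nlinarith [sq_nonneg (p.re * p'.im - p.im * p'.re)]
          nlinarith
      nlinarith
  linarith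

/-- `|P + α|² ≥ (|P| - α)² + 3.24 α`. -/
lemma pa {p p' : ℂ} (h : 9 / 10 ≤ p.re) (h' : 9 / 10 ≤ p'.re) {α : ℝ} (hα : 0 < α) :
    (‖p * p'‖ - α) ^ 2 + 81 / 25 * α ≤ ‖p * p' + α‖ ^ 2 := by
  have h1 := pb h h'
  have h2 : ‖p * p' + α‖ ^ 2 = ‖p * p'‖ ^ 2 + 2 * α * (p * p').re + α ^ 2 := by
    rw [← Complex.normSq_eq_norm_sq, ← Complex.normSq_eq_norm_sq, Complex.normSq_apply,
      Complex.normSq_apply]
    simp only [Complex.add_re, Complex.add_im, Complex.ofReal_re, Complex.ofReal_im]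
    ring
  rw [h2]
  nlinarith

/-- The lower bound `‖P + α‖ ≥ m ‖P‖`. -/
lemma pm {α : ℝ} (hα : 0 < α) : ∃ m : ℝ, 0 < m ∧ m ≤ 1 ∧ ∀ p p' : ℂ, 9 / 10 ≤ p.re →
    9 / 10 ≤ p'.re → m * ‖p * p'‖ ≤ ‖p * p' + α‖ := by
  have hs : 0 < Real.sqrt α := Real.sqrt_pos.mpr hα
  have hs2 : Real.sqrt α ^ 2 = α := Real.sq_sqrt hα.le
  refine ⟨min (1 / 2) (9 / 10 / Real.sqrt α), lt_min (by norm_num) (by positivity),
    (min_le_left _ _).trans (by norm_num), ?_⟩
  intro p p' hp hp'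
  have h1 := pa hp hp' hα
  rcases le_or_gt (2 * α) ‖p * p'‖ with hc | hc
  · have h2 : min (1 / 2) (9 / 10 / Real.sqrt α) ≤ 1 / 2 := min_le_left _ _
    have h3 : ‖p * p'‖ - α ≤ ‖p * p' + α‖ := by
      refine abs_le_of_sq_le_sq' ?_ (norm_nonneg _) |>.2
      nlinarith
    have h4 := norm_nonneg (p * p')
    nlinarith
  · have h2 : min (1 / 2) (9 / 10 / Real.sqrt α) ≤ 9 / 10 / Real.sqrt α := min_le_right _ _
    have h3 : 9 / 5 * Real.sqrt α ≤ ‖p * p' + α‖ := by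
      refine abs_le_of_sq_le_sq' ?_ (norm_nonneg _) |>.2
      nlinarith [sq_nonneg (‖p * p'‖ - α)]
    calc min (1 / 2) (9 / 10 / Real.sqrt α) * ‖p * p'‖
        ≤ 9 / 10 / Real.sqrt α * (2 * α) := by
          apply mul_le_mul h2 hc.le (norm_nonneg _) (by positivity)
      _ = 9 / 5 * Real.sqrt α := by
          rw [div_mul_eq_mul_div, div_eq_iff hs.ne']
          nlinarith
      _ ≤ _ := h3

/-- The number `q`. -/
lemma qex {s : ℂ} (hs : ¬ (s.im = 0 ∧ s.re ≤ 0)) : ∃ (q : ℂ) (α : ℝ), q.re = 1 ∧ 0 < α ∧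
    s * q ^ 2 = α := by
  have hs0 : s ∈ slitPlane := by
    rw [Complex.mem_slitPlane_iff]
    by_contra hcon
    push Not at hcon
    exact hs ⟨hcon.2, hcon.1⟩
  have hne : s ≠ 0 := Complex.slitPlane_ne_zero hs0
  have harg := (Complex.mem_slitPlane_iff_arg.mp hs0).1
  set r : ℂ := exp (-(log s) / 2) with hr
  have hrr : r.re = Real.exp (-(log s).re / 2) * Real.cos (s.arg / 2) := by
    rw [hr, Complex.exp_re]
    have h1 : (-(log s) / 2).re = -(log s).re / 2 := by simp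
    have h2 : (-(log s) / 2).im = -(s.arg / 2) := by
      simp [Complex.log_im]
      ring
    rw [h1, h2, Real.cos_neg]
  have hpos : 0 < r.re := by
    rw [hrr]
    apply mul_pos (Real.exp_pos _)
    apply Real.cos_pos_of_mem_Ioo
    constructor
    · have := Complex.neg_pi_lt_arg s
      linarith
    · have := lt_of_le_of_ne (Complex.arg_le_pi s) harg
      linarith
  have hsr : s * r ^ 2 = 1 := by
    have h1 : r ^ 2 = exp (-(log s)) := by
      rw [hr, ← Complex.exp_nat_mul]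
      congr 1
      push_cast
      ring
    rw [h1, Complex.exp_neg, Complex.exp_log hne]
    exact mul_inv_cancel₀ hne
  refine ⟨r / r.re, (r.re ^ 2)⁻¹, ?_, by positivity, ?_⟩
  · rw [Complex.div_ofReal_re, div_self hpos.ne']
  · have : (r.re : ℂ) ≠ 0 := by exact_mod_cast hpos.ne'
    push_cast
    field_simp
    exact hsr

/-- Limit of the coefficient. -/
lemma lim (q : ℂ) : Tendsto (fun K : ℝ => 4 * q ^ 2 * (K : ℂ) ^ 3 /
    ((2 * (K : ℂ) + 3 * q) * (2 * (K : ℂ) - q) * ((K : ℂ) - q))) atTop (𝓝 (q ^ 2)) := by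
  have hinv : Tendsto (fun K : ℝ => ((K : ℂ))⁻¹) atTop (𝓝 0) := by
    have h := tendsto_inv_atTop_zero (𝕜 := ℝ)
    have h2 : Tendsto (fun K : ℝ => ((K⁻¹ : ℝ) : ℂ)) atTop (𝓝 ((0 : ℝ) : ℂ)) :=
      (Complex.continuous_ofReal.tendsto 0).comp h
    simpa using h2
  have h1 : Tendsto (fun K : ℝ => 4 * q ^ 2 /
      ((2 + 3 * q * ((K : ℂ))⁻¹) * (2 - q * ((K : ℂ))⁻¹) * (1 - q * ((K : ℂ))⁻¹))) atTop
      (𝓝 (4 * q ^ 2 / ((2 + 3 * q * 0) * (2 - q * 0) * (1 - q * 0)))) := by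
    refine Tendsto.div tendsto_const_nhds ?_ (by norm_num)
    refine ((tendsto_const_nhds.add (tendsto_const_nhds.mul hinv)).mul
      (tendsto_const_nhds.sub (tendsto_const_nhds.mul hinv))).mul
      (tendsto_const_nhds.sub (tendsto_const_nhds.mul hinv))
  have h2 : 4 * q ^ 2 / ((2 + 3 * q * 0) * (2 - q * 0) * (1 - q * 0)) = q ^ 2 := by
    norm_num
  rw [h2] at h1
  refine h1.congr' ?_
  filter_upwards [eventually_gt_atTop 0] with K hK
  have hK' : (K : ℂ) ≠ 0 := by exact_mod_cast hK.ne'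
  have e : (2 * (K : ℂ) + 3 * q) * (2 * (K : ℂ) - q) * ((K : ℂ) - q) =
      (K : ℂ) ^ 3 * ((2 + 3 * q * ((K : ℂ))⁻¹) * (2 - q * ((K : ℂ))⁻¹) * (1 - q * ((K : ℂ))⁻¹)) := by
    field_simp
  rw [e]
  rw [mul_comm (4 * q ^ 2) ((K : ℂ) ^ 3)]
  rw [mul_div_mul_left _ _ (pow_ne_zero 3 hK')]

lemma omre {v : ℂ} (hv : v ∈ Om) {K : ℝ} (hK : 1 ≤ K) : K / 2 ≤ ‖v + K‖ ∧ K / 2 ≤ ‖v + 2 * K‖ := by
  have h : -(1 / 10 : ℝ) < v.re := hv
  constructor
  · refine le_trans ?_ (Complex.re_le_norm _)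
    simp only [Complex.add_re, Complex.ofReal_re]
    linarith
  · refine le_trans ?_ (Complex.re_le_norm _)
    simp only [Complex.add_re, Complex.mul_re, Complex.ofReal_re, Complex.ofReal_im]
    norm_num
    linarith

/-- The error terms. -/
lemma tb {x z z' : ℂ} {K B : ℝ} (hK : 0 < K) (hx : ‖x‖ ≤ B) (hz : K / 2 ≤ ‖z‖)
    (hz' : K / 2 ≤ ‖z'‖) : ‖x / (z * z')‖ ≤ 4 * B / K ^ 2 := by
  rw [norm_div, norm_mul]
  have h1 : K / 2 * (K / 2) ≤ ‖z‖ * ‖z'‖ :=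
    mul_le_mul hz hz' (by positivity) (norm_nonneg _)
  have h2 : ‖x‖ / (‖z‖ * ‖z'‖) ≤ B / (K / 2 * (K / 2)) :=
    div_le_div₀ ((norm_nonneg _).trans hx) hx (by positivity) h1
  refine h2.trans (le_of_eq ?_)
  field_simp
  ring

/-- The choice of `K`. -/
lemma t3 {A m K : ℝ} (hm : 0 < m) (hK : 1 ≤ K) (h : 60 * A / m < K) :
    20 * A / K ^ 2 < m / 3 := by
  have k1 : 60 * A < m * K := by
    rw [div_lt_iff₀ hm] at h
    linarith
  have k2 : m * K ≤ m * K ^ 2 := by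
    apply mul_le_mul_of_nonneg_left _ hm.le
    nlinarith
  rw [div_lt_iff₀ (by positivity)]
  linarith

end HkA'

open HkA' in
theorem prfHkA : HkA := by
  intro y0 hy0
  have hs : ¬ ((y0 - 1).im = 0 ∧ (y0 - 1).re ≤ 0) := by
    intro h
    apply hy0
    refine ⟨by simpa using h.1, ?_⟩
    have := h.2
    simp only [Complex.sub_re, Complex.one_re] at this
    linarith
  obtain ⟨q, α, hq, hα, hsq⟩ := qex hs
  obtain ⟨m, hm0, hm1, hm⟩ := pm hα
  set cK : ℝ → ℂ := fun K => 4 * q ^ 2 * (K : ℂ) ^ 3 /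
    ((2 * (K : ℂ) + 3 * q) * (2 * (K : ℂ) - q) * ((K : ℂ) - q)) with hcK
  have hl1 : Tendsto (fun K => (y0 - 1) * cK K) atTop (𝓝 (α : ℂ)) := by
    rw [← hsq]
    exact (lim q).const_mul _
  have hl2 : Tendsto (fun K => ‖cK K‖) atTop (𝓝 (‖q ^ 2‖)) := (lim q).norm
  set A : ℝ := α + 1 with hA
  have he1 : ∀ᶠ K in atTop, dist ((y0 - 1) * cK K) (α : ℂ) < m / 10 :=
    hl1.eventually (Metric.ball_mem_nhds _ (by positivity))
  have he2 : ∀ᶠ K in atTop, ‖cK K‖ < ‖q ^ 2‖ + 1 :=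
    hl2.eventually (gt_mem_nhds (by linarith))
  obtain ⟨K, hK1, hK2, hK3, hK4, hK5⟩ := (he1.and (he2.and ((eventually_ge_atTop (1 : ℝ)).and
    ((eventually_gt_atTop (2 * ‖q‖)).and (eventually_gt_atTop (60 * A / m)))))).exists
  have hA0 : 0 < A := by positivity
  have hKpos : 0 < K := by linarith
  have hqn : 1 ≤ ‖q‖ := by
    rw [← hq]
    exact Complex.re_le_norm q
  refine ⟨q, K, min 1 (m / 10 / (‖q ^ 2‖ + 1)), hq, hK3, lt_min one_pos (by positivity),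
    min_le_left _ _, ?_⟩
  intro y hy v hv w hw hvw
  by_contra hne
  set a : ℂ := (y - 1) * cK K with ha
  -- `a` is near `α`
  have haα : ‖a - α‖ ≤ m / 5 := by
    have h1 : a - α = (y - y0) * cK K + ((y0 - 1) * cK K - α) := by
      rw [ha]; ring
    rw [h1]
    refine (norm_add_le _ _).trans ?_
    rw [norm_mul]
    have h2 : ‖y - y0‖ < m / 10 / (‖q ^ 2‖ + 1) := by
      have := mem_ball.mp hy
      rw [dist_eq_norm] at this
      exact this.trans_le (min_le_right _ _)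
    have h3 : ‖y - y0‖ * ‖cK K‖ ≤ m / 10 := by
      calc ‖y - y0‖ * ‖cK K‖ ≤ m / 10 / (‖q ^ 2‖ + 1) * (‖q ^ 2‖ + 1) := by
            apply mul_le_mul h2.le hK2.le (norm_nonneg _) (by positivity)
        _ = m / 10 := by
            field_simp
    have h4 : ‖(y0 - 1) * cK K - α‖ ≤ m / 10 := by
      rw [← dist_eq_norm]
      exact hK1.le
    linarith
  have haA : ‖a‖ ≤ A := by
    have h1 : a = (a - α) + α := by ring
    rw [h1]
    refine (norm_add_le _ _).trans ?_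
    rw [Complex.norm_real, Real.norm_of_nonneg hα.le]
    linarith
  -- nonvanishing facts
  have hKc : (K : ℂ) ≠ 0 := by exact_mod_cast hKpos.ne'
  have hKn : ‖(K : ℂ)‖ = K := by rw [Complex.norm_real, Real.norm_of_nonneg hKpos.le]
  have h4 : 2 * (K : ℂ) + 3 * q ≠ 0 := by
    intro h
    have h' := congrArg Complex.re h
    simp [hq] at h'
    linarith
  have h5 : 2 * (K : ℂ) - q ≠ 0 := by
    intro h
    have h' : ‖q‖ = 2 * K := by
      rw [← sub_eq_zero.mp h, norm_mul, hKn]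
      simp
    linarith
  have h6 : (K : ℂ) - q ≠ 0 := by
    intro h
    have h' : ‖q‖ = K := by
      rw [← sub_eq_zero.mp h, hKn]
    linarith
  have hv' : -(1 / 10 : ℝ) < v.re := hv
  have hw' : -(1 / 10 : ℝ) < w.re := hw
  have hpv : 9 / 10 ≤ (v + q).re := by
    rw [Complex.add_re, hq]; linarith
  have hpw : 9 / 10 ≤ (w + q).re := by
    rw [Complex.add_re, hq]; linarith
  obtain ⟨hv1, hv2⟩ := omre hv hK3
  obtain ⟨hw1, hw2⟩ := omre hw hK3
  have nz : ∀ {z : ℂ} {t : ℝ}, 0 < t → t ≤ ‖z‖ → z ≠ 0 := by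
    intro z t ht hz h
    rw [h, norm_zero] at hz
    linarith
  have nv0 : v + q ≠ 0 := nz (by norm_num : (0 : ℝ) < 9 / 10) (hpv.trans (Complex.re_le_norm _))
  have nw0 : w + q ≠ 0 := nz (by norm_num : (0 : ℝ) < 9 / 10) (hpw.trans (Complex.re_le_norm _))
  have hK2' : 0 < K / 2 := by positivity
  have nv1 := nz hK2' hv1
  have nv2 := nz hK2' hv2
  have nw1 := nz hK2' hw1
  have nw2 := nz hK2' hw2
  have e1 : hk q K y v = _ := pf y a nv0 nv1 nv2 hKc h4 h5 h6 (by rw [ha, hcK])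
  have e2 : hk q K y w = _ := pf y a nw0 nw1 nw2 hKc h4 h5 h6 (by rw [ha, hcK])
  rw [e1, e2] at hvw
  have hD := dq a (2 * a - a * q / K) (a * q / K - a) nv0 nv1 nv2 nw0 nw1 nw2 hvw hne
  -- estimates
  set P : ℂ := (v + q) * (w + q) with hP
  have hP0 : P ≠ 0 := mul_ne_zero nv0 nw0
  have hPn : 81 / 100 ≤ ‖P‖ := by
    rw [hP, norm_mul]
    have i1 := hpv.trans (Complex.re_le_norm _)
    have i2 := hpw.trans (Complex.re_le_norm _)
    nlinarith
  have hPm : m * ‖P‖ ≤ ‖P + α‖ := hm _ _ hpv hpw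
  have hqK : ‖a * q / K‖ ≤ A := by
    rw [norm_div, norm_mul, hKn, div_le_iff₀ hKpos]
    have : ‖a‖ * ‖q‖ ≤ A * K := by
      apply mul_le_mul haA (by linarith) (norm_nonneg _) hA0.le
    exact this
  have n1 : ‖2 * a - a * q / K‖ ≤ 3 * A := by
    refine (norm_sub_le _ _).trans ?_
    have h2n : ‖(2 : ℂ)‖ = 2 := by norm_num
    rw [norm_mul, h2n]
    linarith
  have n2 : ‖a * q / K - a‖ ≤ 2 * A := by
    refine (norm_sub_le _ _).trans ?_
    linarith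
  have t1 := tb hKpos n1 hv1 hw1
  have t2 := tb hKpos n2 hv2 hw2
  have t3 := t3 hm0 hK3 hK5
  set T1 := (2 * a - a * q / K) / ((v + K) * (w + K)) with hT1
  set T2 := (a * q / K - a) / ((v + 2 * K) * (w + 2 * K)) with hT2
  have hfin : P + α = (T1 + T2) * P + (α - a) := by
    have : (1 + a / P - T1 - T2) * P = 0 := by rw [hD, zero_mul]
    have h2 : a / P * P = a := div_mul_cancel₀ a hP0
    linear_combination this - h2
  have hfn : ‖P + α‖ ≤ 20 * A / K ^ 2 * ‖P‖ + m / 5 := by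
    rw [hfin]
    refine (norm_add_le _ _).trans ?_
    rw [norm_mul]
    have h1 : ‖T1 + T2‖ ≤ 20 * A / K ^ 2 := by
      refine (norm_add_le _ _).trans ((add_le_add t1 t2).trans (le_of_eq ?_))
      ring
    have h2 : ‖(α : ℂ) - a‖ ≤ m / 5 := by
      rw [norm_sub_rev]; exact haα
    have := mul_le_mul_of_nonneg_right h1 (norm_nonneg P)
    linarith
  have : 20 * A / K ^ 2 * ‖P‖ ≤ m / 3 * ‖P‖ := mul_le_mul_of_nonneg_right t3.le (norm_nonneg P)
  nlinarith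

end Pool.Agent.MultS.Lip

end

section

set_option autoImplicit false

open Complex Metric Set Filter Topology MeasureTheory

namespace Pool.Agent.MultS.Lip

namespace HkB'

theorem lb {a v : ℂ} (ha : 1 ≤ a.re) (hv : v ∈ Om) :
    9 / 10 ≤ ‖v + a‖ ∧ 1 + ‖v‖ ≤ (3 + 2 * ‖a‖) * ‖v + a‖ := by
  have h1 : -(1 / 10 : ℝ) < v.re := hv
  have h2 : 9 / 10 ≤ ‖v + a‖ := by
    have h3 := Complex.re_le_norm (v + a)
    rw [Complex.add_re] at h3
    linarith
  refine ⟨h2, ?_⟩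
  have h4 : ‖v‖ ≤ ‖v + a‖ + ‖a‖ := by
    have : v = (v + a) - a := by ring
    conv_lhs => rw [this]
    exact norm_sub_le _ _
  have h5 : 0 ≤ ‖a‖ := norm_nonneg a
  nlinarith

theorem ne0 {a v : ℂ} (ha : 1 ≤ a.re) (hv : v ∈ Om) : v + a ≠ 0 := by
  intro h
  have h1 := (lb ha hv).1
  rw [h, norm_zero] at h1
  linarith

theorem ne0' {a : ℂ} (ha : 1 ≤ a.re) : a ≠ 0 := by
  intro h
  rw [h] at ha
  simp at ha
  linarith

theorem inv_bd {a v : ℂ} (ha : 1 ≤ a.re) (hv : v ∈ Om) : ‖(v + a)⁻¹‖ ≤ 2 := by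
  have h1 := (lb ha hv).1
  rw [norm_inv, inv_le_comm₀ (by linarith) (by norm_num)]
  linarith

theorem inv_bd0 {a : ℂ} (ha : 1 ≤ a.re) : ‖a⁻¹‖ ≤ 1 := by
  have h1 := Complex.re_le_norm a
  rw [norm_inv]
  exact inv_le_one_of_one_le₀ (by linarith)

theorem inv_lip {a v : ℂ} (ha : 1 ≤ a.re) (hv : v ∈ Om) : ‖(v + a)⁻¹ - a⁻¹‖ ≤ 2 * ‖v‖ := by
  have h1 := ne0 ha hv
  have h2 := ne0' ha
  have h3 : (v + a)⁻¹ - a⁻¹ = -(v * ((v + a)⁻¹ * a⁻¹)) := by field_simp; ring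
  rw [h3, norm_neg, norm_mul, norm_mul]
  have h4 := inv_bd ha hv
  have h5 := inv_bd0 ha
  have h6 : ‖(v + a)⁻¹‖ * ‖a⁻¹‖ ≤ 2 * 1 := by gcongr
  calc ‖v‖ * (‖(v + a)⁻¹‖ * ‖a⁻¹‖) ≤ ‖v‖ * (2 * 1) := by gcongr
    _ = 2 * ‖v‖ := by ring

theorem prod2 {a b a0 b0 : ℂ} {M t : ℝ} (hM : 0 ≤ M) (ha : ‖a‖ ≤ M) (hb0 : ‖b0‖ ≤ M)
    (h1 : ‖a - a0‖ ≤ t) (h2 : ‖b - b0‖ ≤ t) : ‖a * b - a0 * b0‖ ≤ 2 * M * t := by
  have ht : 0 ≤ t := (norm_nonneg _).trans h1
  have h3 : a * b - a0 * b0 = a * (b - b0) + (a - a0) * b0 := by ring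
  rw [h3]
  refine (norm_add_le _ _).trans ?_
  rw [norm_mul, norm_mul]
  calc ‖a‖ * ‖b - b0‖ + ‖a - a0‖ * ‖b0‖ ≤ M * t + t * M := by gcongr
    _ = 2 * M * t := by ring

theorem prod4 {a b c d a0 b0 c0 d0 : ℂ} {t : ℝ} (ha : ‖a‖ ≤ 2) (hb : ‖b‖ ≤ 2) (hc : ‖c‖ ≤ 2)
    (hb0 : ‖b0‖ ≤ 1) (hc0 : ‖c0‖ ≤ 1) (hd0 : ‖d0‖ ≤ 1)
    (h1 : ‖a - a0‖ ≤ t) (h2 : ‖b - b0‖ ≤ t) (h3 : ‖c - c0‖ ≤ t) (h4 : ‖d - d0‖ ≤ t) :
    ‖a * b * (c * d) - a0 * b0 * (c0 * d0)‖ ≤ 32 * t := by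
  have e1 := prod2 (M := 2) (by norm_num) ha (by linarith) h1 h2
  have e2 := prod2 (M := 2) (by norm_num) hc (by linarith) h3 h4
  have e3 : ‖a * b‖ ≤ 4 := by
    rw [norm_mul]
    calc ‖a‖ * ‖b‖ ≤ 2 * 2 := by gcongr
      _ = 4 := by norm_num
  have e4 : ‖c0 * d0‖ ≤ 4 := by
    rw [norm_mul]
    calc ‖c0‖ * ‖d0‖ ≤ 1 * 1 := by gcongr
      _ ≤ 4 := by norm_num
  have e5 := prod2 (M := 4) (by norm_num) e3 e4 e1 e2
  refine e5.trans (le_of_eq ?_)
  ring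

theorem e0gen {q k D : ℂ} (hq : q ≠ 0) (hk : k ≠ 0) (hD : D ≠ 0) (h : D = 2 * k + 3 * q) :
    4 * q ^ 2 * k ^ 3 / D * (q⁻¹ * q⁻¹ * (k⁻¹ * (2 * k)⁻¹) +
            q⁻¹ * k⁻¹ * (k⁻¹ * (2 * k)⁻¹) +
            q⁻¹ * k⁻¹ * ((2 * k)⁻¹ * (2 * k)⁻¹)) = 1 := by
  field_simp
  linear_combination (-4 : ℂ) * h

theorem e1gen {x y z x' y' z' d : ℂ} (hx : x ≠ 0) (hy : y ≠ 0) (hz : z ≠ 0) (hx' : x' ≠ 0)
    (hy' : y' ≠ 0) (hz' : z' ≠ 0) (h1 : d = x - x') (h2 : d = y - y') (h3 : d = z - z') :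
    x'⁻¹ * y'⁻¹ * z'⁻¹ - x⁻¹ * y⁻¹ * z⁻¹ =
      d * (x⁻¹ * x'⁻¹ * (y'⁻¹ * z'⁻¹) + x⁻¹ * y⁻¹ * (y'⁻¹ * z'⁻¹) + x⁻¹ * y⁻¹ * (z⁻¹ * z'⁻¹)) := by
  field_simp
  linear_combination (-(y * z)) * h1 - (x' * z) * h2 - (x' * y') * h3

end HkB'

open HkB' in
theorem prfHkB : HkB := by
  intro q K R hq hK
  have hK0 : (0 : ℝ) < K := by linarith
  have haq : 1 ≤ q.re := hq.ge
  have haK : 1 ≤ ((K : ℂ)).re := by rw [Complex.ofReal_re]; exact hK
  have haK2 : 1 ≤ (2 * (K : ℂ)).re := by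
    have : (2 * (K : ℂ)) = ((2 * K : ℝ) : ℂ) := by push_cast; ring
    rw [this, Complex.ofReal_re]
    linarith
  have hq0 := ne0' haq
  have hKc := ne0' haK
  have hden : 2 * (K : ℂ) + 3 * q ≠ 0 := by
    intro h
    have h1 := congrArg Complex.re h
    have h2 : (2 * (K : ℂ) + 3 * q).re = 2 * K + 3 * q.re := by
      simp
    rw [h2, hq, Complex.zero_re] at h1
    linarith
  set A : ℂ := 4 * q ^ 2 * (K : ℂ) ^ 3 / (2 * (K : ℂ) + 3 * q) with hA
  have hhk : ∀ y v : ℂ, hk q K y v = v - (y - 1) * A * ((v + q)⁻¹ * (v + K)⁻¹ * (v + 2 * K)⁻¹) := by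
    intro y v
    unfold hk
    rw [← hA, div_eq_mul_inv, mul_inv, mul_inv]
  set c₁ := 3 + 2 * ‖q‖
  set c₂ := 3 + 2 * ‖(K : ℂ)‖
  set c₃ := 3 + 2 * ‖2 * (K : ℂ)‖
  have hc₁ : 0 < c₁ := by positivity
  have hc₂ : 0 < c₂ := by positivity
  have hc₃ : 0 < c₃ := by positivity
  refine ⟨(|R| + 1) * ‖A‖ * (c₁ * c₂ * c₃) + (|R| + 1) * ‖A‖ * 192 + 1, by positivity, ?_, ?_⟩
  · have h1 : ∀ a : ℂ, 1 ≤ a.re → DifferentiableOn ℂ (fun p : ℂ × ℂ => (p.2 + a)⁻¹) (univ ×ˢ Om) := by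
      intro a ha
      exact ((differentiable_snd.add_const a).differentiableOn).inv (fun p hp => ne0 ha hp.2)
    have h2 : DifferentiableOn ℂ (fun p : ℂ × ℂ => p.2 - (p.1 - 1) * A *
        ((p.2 + q)⁻¹ * (p.2 + K)⁻¹ * (p.2 + 2 * K)⁻¹)) (univ ×ˢ Om) :=
      differentiable_snd.differentiableOn.sub
        ((((differentiable_fst.sub_const 1).mul_const A).differentiableOn).mul
          (((h1 q haq).mul (h1 K haK)).mul (h1 (2 * K) haK2)))
    exact h2.congr (fun p _ => hhk p.1 p.2)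
  · intro y hy
    have hy1 : ‖y - 1‖ ≤ |R| + 1 := by
      have h1 := norm_sub_le y 1
      rw [norm_one] at h1
      have h2 := le_abs_self R
      linarith
    constructor
    · intro v hv
      rw [hhk, sub_sub_cancel_left, norm_neg, norm_mul, norm_mul]
      obtain ⟨-, k1⟩ := lb haq hv
      obtain ⟨-, k2⟩ := lb haK hv
      obtain ⟨-, k3⟩ := lb haK2 hv
      have p1 : 0 < ‖v + q‖ := norm_pos_iff.2 (ne0 haq hv)
      have p2 : 0 < ‖v + K‖ := norm_pos_iff.2 (ne0 haK hv)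
      have p3 : 0 < ‖v + 2 * K‖ := norm_pos_iff.2 (ne0 haK2 hv)
      have hv0 : 0 ≤ ‖v‖ := norm_nonneg v
      have i1 : ‖(v + q)⁻¹‖ ≤ c₁ / (1 + ‖v‖) := by
        rw [norm_inv, inv_eq_one_div, div_le_div_iff₀ p1 (by linarith)]
        linarith
      have i2 : ‖(v + K)⁻¹‖ ≤ c₂ / (1 + ‖v‖) := by
        rw [norm_inv, inv_eq_one_div, div_le_div_iff₀ p2 (by linarith)]
        linarith
      have i3 : ‖(v + 2 * K)⁻¹‖ ≤ c₃ / (1 + ‖v‖) := by
        rw [norm_inv, inv_eq_one_div, div_le_div_iff₀ p3 (by linarith)]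
        linarith
      have i4 : ‖(v + q)⁻¹ * (v + K)⁻¹ * (v + 2 * K)⁻¹‖ ≤
          c₁ / (1 + ‖v‖) * (c₂ / (1 + ‖v‖)) * (c₃ / (1 + ‖v‖)) := by
        rw [norm_mul, norm_mul]
        gcongr
      calc ‖y - 1‖ * ‖A‖ * ‖(v + q)⁻¹ * (v + K)⁻¹ * (v + 2 * K)⁻¹‖
          ≤ (|R| + 1) * ‖A‖ * (c₁ / (1 + ‖v‖) * (c₂ / (1 + ‖v‖)) * (c₃ / (1 + ‖v‖))) := by gcongr
        _ = ((|R| + 1) * ‖A‖ * (c₁ * c₂ * c₃)) / (1 + ‖v‖) ^ 3 := by field_simp
        _ ≤ _ := by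
          gcongr
          have : 0 ≤ (|R| + 1) * ‖A‖ * 192 := by positivity
          linarith
    · intro v hv v' hv' _ _
      have n1 := ne0 haq hv
      have n2 := ne0 haK hv
      have n3 := ne0 haK2 hv
      have n1' := ne0 haq hv'
      have n2' := ne0 haK hv'
      have n3' := ne0 haK2 hv'
      have n4 := ne0' haK2
      have key : hk q K y v - hk q K y v' - y * (v - v') = (y - 1) * A * (v - v') *
          (((v + q)⁻¹ * (v' + q)⁻¹ * ((v' + K)⁻¹ * (v' + 2 * K)⁻¹) -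
              q⁻¹ * q⁻¹ * ((K : ℂ)⁻¹ * (2 * (K : ℂ))⁻¹)) +
            ((v + q)⁻¹ * (v + K)⁻¹ * ((v' + K)⁻¹ * (v' + 2 * K)⁻¹) -
              q⁻¹ * (K : ℂ)⁻¹ * ((K : ℂ)⁻¹ * (2 * (K : ℂ))⁻¹)) +
            ((v + q)⁻¹ * (v + K)⁻¹ * ((v + 2 * K)⁻¹ * (v' + 2 * K)⁻¹) -
              q⁻¹ * (K : ℂ)⁻¹ * ((2 * (K : ℂ))⁻¹ * (2 * (K : ℂ))⁻¹))) := by
        have e0 : A * (q⁻¹ * q⁻¹ * ((K : ℂ)⁻¹ * (2 * (K : ℂ))⁻¹) +
            q⁻¹ * (K : ℂ)⁻¹ * ((K : ℂ)⁻¹ * (2 * (K : ℂ))⁻¹) +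
            q⁻¹ * (K : ℂ)⁻¹ * ((2 * (K : ℂ))⁻¹ * (2 * (K : ℂ))⁻¹)) = 1 := by
          rw [hA]
          exact e0gen hq0 hKc hden rfl
        have e1 : (v' + q)⁻¹ * (v' + K)⁻¹ * (v' + 2 * K)⁻¹ - (v + q)⁻¹ * (v + K)⁻¹ * (v + 2 * K)⁻¹ =
            (v - v') * ((v + q)⁻¹ * (v' + q)⁻¹ * ((v' + K)⁻¹ * (v' + 2 * K)⁻¹) +
              (v + q)⁻¹ * (v + K)⁻¹ * ((v' + K)⁻¹ * (v' + 2 * K)⁻¹) +
              (v + q)⁻¹ * (v + K)⁻¹ * ((v + 2 * K)⁻¹ * (v' + 2 * K)⁻¹)) :=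
          e1gen n1 n2 n3 n1' n2' n3' (by ring) (by ring) (by ring)
        rw [hhk, hhk]
        clear_value A
        linear_combination (y - 1) * A * e1 + (y - 1) * (v - v') * e0
      rw [key, norm_mul, norm_mul, norm_mul]
      have hs : 0 ≤ ‖v‖ + ‖v'‖ := by positivity
      set s := ‖v‖ + ‖v'‖ with hs'
      have hvs : 2 * ‖v‖ ≤ 2 * s := by have := norm_nonneg v'; linarith
      have hvs' : 2 * ‖v'‖ ≤ 2 * s := by have := norm_nonneg v; linarith
      have l1 : ∀ {a : ℂ}, 1 ≤ a.re → ‖(v + a)⁻¹ - a⁻¹‖ ≤ 2 * s := fun ha => (inv_lip ha hv).trans hvs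
      have l2 : ∀ {a : ℂ}, 1 ≤ a.re → ‖(v' + a)⁻¹ - a⁻¹‖ ≤ 2 * s :=
        fun ha => (inv_lip ha hv').trans hvs'
      have t1 := prod4 (inv_bd haq hv) (inv_bd haq hv') (inv_bd haK hv') (inv_bd0 haq) (inv_bd0 haK)
        (inv_bd0 haK2) (l1 haq) (l2 haq) (l2 haK) (l2 haK2)
      have t2 := prod4 (inv_bd haq hv) (inv_bd haK hv) (inv_bd haK hv') (inv_bd0 haK) (inv_bd0 haK)
        (inv_bd0 haK2) (l1 haq) (l1 haK) (l2 haK) (l2 haK2)
      have t3 := prod4 (inv_bd haq hv) (inv_bd haK hv) (inv_bd haK2 hv) (inv_bd0 haK) (inv_bd0 haK2)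
        (inv_bd0 haK2) (l1 haq) (l1 haK) (l1 haK2) (l2 haK2)
      have t4 := (norm_add₃_le).trans (add_le_add (add_le_add t1 t2) t3)
      calc ‖y - 1‖ * ‖A‖ * ‖v - v'‖ * _ ≤ (|R| + 1) * ‖A‖ * ‖v - v'‖ *
            (32 * (2 * s) + 32 * (2 * s) + 32 * (2 * s)) := by gcongr
        _ = ((|R| + 1) * ‖A‖ * 192) * ‖v - v'‖ * s := by ring
        _ ≤ _ := by
          gcongr
          have : 0 ≤ (|R| + 1) * ‖A‖ * (c₁ * c₂ * c₃) := by positivity
          linarith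

end Pool.Agent.MultS.Lip

end

section

/-!
# [C3] Hooks with derivative near `-1`
-/

set_option autoImplicit false

open Complex Metric Set Filter Topology MeasureTheory

namespace Pool.Agent.MultS.Lip

namespace HkC'

theorem zero_mem_Om : (0 : ℂ) ∈ Om := by
  show -(1 / 10 : ℝ) < (0 : ℂ).re
  rw [Complex.zero_re]
  norm_num

/-- the bound at infinity, real form -/
theorem cube_bound {a b c L : ℝ} (ha : 0 ≤ a) (hb : 0 ≤ b) (hc : 0 < c) (hL : 1 ≤ L) (hab : a ≤ b + c) :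
    L * (c / (1 + b / L) ^ 3) ≤ L * c * (L * (1 + c)) ^ 3 / (1 + a) ^ 3 := by
  have hL0 : 0 < L := by linarith
  have hbL : 0 ≤ b / L := by positivity
  have h1 : 1 + a ≤ L * (1 + c) * (1 + b / L) := by
    have h2 : L * (1 + b / L) = L + b := by field_simp
    have h3 : L * (1 + c) * (1 + b / L) = (1 + c) * (L + b) := by rw [← h2]; ring
    rw [h3]
    nlinarith [mul_nonneg hc.le hb, mul_nonneg hc.le hL0.le, mul_le_mul_of_nonneg_left hL hc.le]
  have h4 : (1 + a) ^ 3 ≤ (L * (1 + c)) ^ 3 * (1 + b / L) ^ 3 := by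
    rw [← mul_pow]
    exact pow_le_pow_left₀ (by positivity) h1 3
  rw [mul_div_assoc' , div_le_div_iff₀ (by positivity) (by positivity)]
  calc L * c * (1 + a) ^ 3 ≤ L * c * ((L * (1 + c)) ^ 3 * (1 + b / L) ^ 3) :=
        mul_le_mul_of_nonneg_left h4 (by positivity)
    _ = L * c * (L * (1 + c)) ^ 3 * (1 + b / L) ^ 3 := by ring

end HkC'

open HkC' in
theorem prfHkC (hA : HkA) (hB : HkB) : HkC := by
  obtain ⟨q, K, δ, hq, hK, hδ, hδ1, hinj⟩ := hA Complex.I (by simp)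
  obtain ⟨c, hc, hdif, hbd⟩ := hB q K 3 hq hK
  refine ⟨δ, hδ, hδ1, ?_⟩
  intro ε hε
  have h0Om := zero_mem_Om
  obtain ⟨L, hL1, hL2, hL3⟩ : ∃ L : ℝ, 1 ≤ L ∧ 20 * (1 + c) ≤ L ∧
      2 * c * (1 + c) * (3 + c) / L ≤ ε := by
    have hp : 0 ≤ 2 * c * (1 + c) * (3 + c) / ε := by positivity
    refine ⟨20 * (1 + c) + 2 * c * (1 + c) * (3 + c) / ε, by linarith, by linarith, ?_⟩
    rw [div_le_iff₀ (by positivity)]
    have : ε * (2 * c * (1 + c) * (3 + c) / ε) = 2 * c * (1 + c) * (3 + c) := by field_simp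
    have h2 : ε * (20 * (1 + c) + 2 * c * (1 + c) * (3 + c) / ε) =
        ε * (20 * (1 + c)) + ε * (2 * c * (1 + c) * (3 + c) / ε) := by
      generalize 2 * c * (1 + c) * (3 + c) / ε = X
      ring
    rw [h2, this]
    have : 0 ≤ ε * (20 * (1 + c)) := by positivity
    linarith
  have hL0 : 0 < L := by linarith
  have hLc : (L : ℂ) ≠ 0 := by exact_mod_cast hL0.ne'
  have hnL : ‖(L : ℂ)‖ = L := by rw [Complex.norm_real, Real.norm_eq_abs, abs_of_pos hL0]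
  have hI3 : ‖Complex.I‖ ≤ 3 := by rw [Complex.norm_I]; norm_num
  have hIball : Complex.I ∈ ball Complex.I δ := mem_ball_self hδ
  obtain ⟨hbI1, hbI2⟩ := hbd Complex.I hI3
  -- the inner function
  let h : ℂ → ℂ → ℂ := fun y v => hk q K (-Complex.I * y) v
  have hy2 : ∀ y ∈ ball (-1 : ℂ) δ, ‖y‖ ≤ 2 := by
    intro y hy
    have h1 : ‖y - -1‖ < δ := mem_ball_iff_norm.1 hy
    calc ‖y‖ = ‖(y - -1) + -1‖ := by congr 1; ring
      _ ≤ ‖y - -1‖ + ‖(-1 : ℂ)‖ := norm_add_le _ _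
      _ ≤ 1 + 1 := by
          refine add_le_add (h1.le.trans hδ1) ?_
          rw [norm_neg, norm_one]
      _ = 2 := by norm_num
  have hIy : ∀ y ∈ ball (-1 : ℂ) δ, -Complex.I * y ∈ ball Complex.I δ := by
    intro y hy
    have h1 : ‖y - -1‖ < δ := mem_ball_iff_norm.1 hy
    rw [mem_ball_iff_norm]
    have : -Complex.I * y - Complex.I = -Complex.I * (y - -1) := by ring
    rw [this, norm_mul, norm_neg, Complex.norm_I, one_mul]
    exact h1
  have hIn : ∀ y ∈ ball (-1 : ℂ) δ, ‖-Complex.I * y‖ ≤ 3 := by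
    intro y hy
    rw [norm_mul, norm_neg, Complex.norm_I, one_mul]
    linarith [hy2 y hy]
  have hh1 : ∀ y ∈ ball (-1 : ℂ) δ, ∀ v ∈ Om, ‖h y v - v‖ ≤ c / (1 + ‖v‖) ^ 3 := fun y hy v hv =>
    (hbd _ (hIn y hy)).1 v hv
  have hh1' : ∀ y ∈ ball (-1 : ℂ) δ, ∀ v ∈ Om, ‖h y v - v‖ ≤ c := by
    intro y hy v hv
    refine (hh1 y hy v hv).trans ?_
    apply div_le_self hc.le
    have h1 : (1 : ℝ) ≤ 1 + ‖v‖ := by linarith [norm_nonneg v]
    exact one_le_pow₀ h1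
  have hh2 : ∀ y ∈ ball (-1 : ℂ) δ, ∀ v ∈ Om, ‖v‖ ≤ 1 →
      ‖h y v - h y 0 - (-Complex.I * y) * v‖ ≤ c * ‖v‖ ^ 2 := by
    intro y hy v hv hv1
    have := (hbd _ (hIn y hy)).2 v hv 0 h0Om hv1 (by rw [norm_zero]; norm_num)
    rw [sub_zero, norm_zero, add_zero] at this
    calc ‖h y v - h y 0 - (-Complex.I * y) * v‖ ≤ c * ‖v‖ * ‖v‖ := this
      _ = c * ‖v‖ ^ 2 := by ring
  have hmem : ∀ y ∈ ball (-1 : ℂ) δ, ∀ v ∈ Om, h y v / L ∈ Om := by
    intro y hy v hv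
    have h1 := hh1' y hy v hv
    have h2 : -c ≤ (h y v - v).re := by
      have := Complex.abs_re_le_norm (h y v - v)
      have h3 := neg_abs_le (h y v - v).re
      linarith
    rw [Complex.sub_re] at h2
    have h4 : -(1 / 10 : ℝ) < v.re := hv
    show -(1 / 10 : ℝ) < (h y v / (L : ℂ)).re
    rw [Complex.div_ofReal_re, lt_div_iff₀ hL0]
    linarith
  refine ⟨L * c * (L * (1 + c)) ^ 3 + c, fun y v => (L : ℂ) * hk q K Complex.I (h y v / L),
    by positivity, ?_, ?_, ?_, ?_⟩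
  · -- injectivity
    intro y hy v hv v' hv' hvv
    have h1 : hk q K Complex.I (h y v / L) = hk q K Complex.I (h y v' / L) :=
      mul_left_cancel₀ hLc hvv
    have h2 := hinj Complex.I hIball (hmem y hy v hv) (hmem y hy v' hv') h1
    have h3 : h y v = h y v' := by
      have := congrArg (fun t => t * (L : ℂ)) h2
      simpa only [div_mul_cancel₀ _ hLc] using this
    exact hinj _ (hIy y hy) hv hv' h3
  · -- holomorphy
    have hi : DifferentiableOn ℂ (fun p : ℂ × ℂ => h p.1 p.2) (ball (-1 : ℂ) δ ×ˢ Om) := by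
      have hm : MapsTo (fun p : ℂ × ℂ => (-Complex.I * p.1, p.2)) (ball (-1 : ℂ) δ ×ˢ Om)
          (univ ×ˢ Om) := fun p hp => ⟨mem_univ _, hp.2⟩
      exact hdif.comp (g := fun p : ℂ × ℂ => hk q K p.1 p.2)
        (((differentiable_const _).mul differentiable_fst).prodMk
          differentiable_snd).differentiableOn hm
    have hm2 : MapsTo (fun p : ℂ × ℂ => (Complex.I, h p.1 p.2 / L)) (ball (-1 : ℂ) δ ×ˢ Om)
        (univ ×ˢ Om) := fun p hp => ⟨mem_univ _, hmem p.1 hp.1 p.2 hp.2⟩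
    have hin : DifferentiableOn ℂ (fun p : ℂ × ℂ => (Complex.I, h p.1 p.2 / (L : ℂ)))
        (ball (-1 : ℂ) δ ×ˢ Om) := by
      have h2 : DifferentiableOn ℂ (fun p : ℂ × ℂ => h p.1 p.2 / (L : ℂ)) (ball (-1 : ℂ) δ ×ˢ Om) := by
        have h3 := hi.const_mul ((L : ℂ)⁻¹)
        refine h3.congr ?_
        intro p _
        show h p.1 p.2 / (L : ℂ) = (L : ℂ)⁻¹ * h p.1 p.2
        rw [div_eq_mul_inv, mul_comm]
      exact (differentiableOn_const _).prodMk h2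
    have ho := hdif.comp (g := fun p : ℂ × ℂ => hk q K p.1 p.2) hin hm2
    exact ho.const_mul (L : ℂ)
  · -- decay
    intro y hy v hv
    have h1 := hh1 y hy v hv
    have h1' := hh1' y hy v hv
    have h2 := hbI1 (h y v / L) (hmem y hy v hv)
    have hn : ‖h y v / (L : ℂ)‖ = ‖h y v‖ / L := by rw [norm_div, hnL]
    rw [hn] at h2
    have e1 : (L : ℂ) * hk q K Complex.I (h y v / L) - v =
        (L : ℂ) * (hk q K Complex.I (h y v / L) - h y v / L) + (h y v - v) := by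
      rw [mul_sub, mul_div_cancel₀ _ hLc]
      ring
    have h3 : ‖v‖ ≤ ‖h y v‖ + c := by
      have := norm_sub_norm_le v (h y v)
      rw [norm_sub_rev] at this
      linarith
    show ‖(L : ℂ) * hk q K Complex.I (h y v / L) - v‖ ≤ _
    rw [e1, add_div]
    refine (norm_add_le _ _).trans (add_le_add ?_ h1)
    rw [norm_mul, hnL]
    exact (mul_le_mul_of_nonneg_left h2 hL0.le).trans
      (cube_bound (norm_nonneg v) (norm_nonneg _) hc hL1 h3)
  · -- derivative at zero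
    intro y hy v hv hv1
    have hsm : ∀ w ∈ Om, ‖w‖ ≤ 1 → ‖h y w / (L : ℂ)‖ ≤ (1 + c) / L := by
      intro w hw hw1
      rw [norm_div, hnL]
      refine div_le_div_of_nonneg_right ?_ hL0.le
      have h1' := hh1' y hy w hw
      have := norm_sub_norm_le (h y w) w
      linarith
    have hLe : (1 + c) / L ≤ 1 := by
      rw [div_le_one hL0]; linarith
    have hu := hsm v hv hv1
    have hu0 := hsm 0 h0Om (by rw [norm_zero]; norm_num)
    have h1 := hbI2 (h y v / L) (hmem y hy v hv) (h y 0 / L) (hmem y hy 0 h0Om) (hu.trans hLe)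
      (hu0.trans hLe)
    have h2 := hh2 y hy v hv hv1
    have hd : ‖h y v - h y 0‖ ≤ (3 + c) * ‖v‖ := by
      have h3 : ‖h y v - h y 0‖ ≤ ‖h y v - h y 0 - (-Complex.I * y) * v‖ + ‖(-Complex.I * y) * v‖ := by
        have := norm_add_le (h y v - h y 0 - (-Complex.I * y) * v) ((-Complex.I * y) * v)
        rwa [sub_add_cancel] at this
      have h4 : ‖(-Complex.I * y) * v‖ ≤ 3 * ‖v‖ := by
        rw [norm_mul]
        exact mul_le_mul_of_nonneg_right (hIn y hy) (norm_nonneg v)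
      have h5 : c * ‖v‖ ^ 2 ≤ c * ‖v‖ := by
        refine mul_le_mul_of_nonneg_left ?_ hc.le
        rw [pow_two]
        exact mul_le_of_le_one_left (norm_nonneg v) hv1
      linarith
    have e2 : h y v / (L : ℂ) - h y 0 / L = (h y v - h y 0) / L := (sub_div _ _ _).symm
    rw [e2] at h1
    have h6 : ‖(L : ℂ) * hk q K Complex.I (h y v / L) - (L : ℂ) * hk q K Complex.I (h y 0 / L) -
        Complex.I * (h y v - h y 0)‖ ≤ ε * ‖v‖ := by
      have e3 : (L : ℂ) * hk q K Complex.I (h y v / L) - (L : ℂ) * hk q K Complex.I (h y 0 / L) -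
          Complex.I * (h y v - h y 0) = (L : ℂ) * (hk q K Complex.I (h y v / L) -
            hk q K Complex.I (h y 0 / L) - Complex.I * ((h y v - h y 0) / L)) := by
        field_simp
      rw [e3, norm_mul, hnL]
      refine (mul_le_mul_of_nonneg_left h1 hL0.le).trans ?_
      rw [norm_div, hnL]
      calc L * (c * (‖h y v - h y 0‖ / L) * (‖h y v / (L : ℂ)‖ + ‖h y 0 / (L : ℂ)‖))
          = c * ‖h y v - h y 0‖ * (‖h y v / (L : ℂ)‖ + ‖h y 0 / (L : ℂ)‖) := by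
            field_simp
        _ ≤ c * ((3 + c) * ‖v‖) * ((1 + c) / L + (1 + c) / L) := by
            refine mul_le_mul (mul_le_mul_of_nonneg_left hd hc.le) (add_le_add hu hu0)
              (by positivity) (by positivity)
        _ = 2 * c * (1 + c) * (3 + c) / L * ‖v‖ := by ring
        _ ≤ ε * ‖v‖ := mul_le_mul_of_nonneg_right hL3 (norm_nonneg v)
    have e4 : (L : ℂ) * hk q K Complex.I (h y v / L) - (L : ℂ) * hk q K Complex.I (h y 0 / L) - y * v =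
        ((L : ℂ) * hk q K Complex.I (h y v / L) - (L : ℂ) * hk q K Complex.I (h y 0 / L) -
          Complex.I * (h y v - h y 0)) + Complex.I * (h y v - h y 0 - (-Complex.I * y) * v) := by
      have : Complex.I * (-Complex.I * y * v) = y * v := by
        have hII := Complex.I_mul_I
        linear_combination (-(y * v)) * hII
      rw [mul_sub Complex.I (h y v - h y 0), this]
      ring
    show ‖(L : ℂ) * hk q K Complex.I (h y v / L) - (L : ℂ) * hk q K Complex.I (h y 0 / L) - y * v‖ ≤ _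
    rw [e4]
    refine (norm_add_le _ _).trans (add_le_add h6 ?_)
    rw [norm_mul, Complex.norm_I, one_mul]
    refine h2.trans (mul_le_mul_of_nonneg_right ?_ (by positivity))
    have : 0 ≤ L * c * (L * (1 + c)) ^ 3 := by positivity
    linarith

end Pool.Agent.MultS.Lip

end

section

/-!
# [C4] All hooks that are needed, uniformly
-/

set_option autoImplicit false

open Complex Metric Set Filter Topology

namespace Pool.Agent.MultS.Lip

namespace HkD'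

theorem mono {y1 y0 : ℂ} {δ1 δ0 ε1 ε0 c1 c0 : ℝ} {g : ℂ → ℂ → ℂ} (h : Hook y1 δ1 ε1 c1 g)
    (hb : ball y0 δ0 ⊆ ball y1 δ1) (hε : ε1 ≤ ε0) (hc : c1 ≤ c0) : Hook y0 δ0 ε0 c0 g where
  inj y hy := h.inj y (hb hy)
  dif := h.dif.mono (prod_mono hb subset_rfl)
  dec y hy v hv := (h.dec y (hb hy) v hv).trans (div_le_div_of_nonneg_right hc (by positivity))
  tay y hy v hv hv1 := (h.tay y (hb hy) v hv hv1).trans
    (add_le_add (mul_le_mul_of_nonneg_right hε (norm_nonneg _))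
      (mul_le_mul_of_nonneg_right hc (by positivity)))

theorem loc (hA : HkA) (hB : HkB) (hC : HkC) (y0 : ℂ) (hy0 : ‖y0 - 1‖ = 2) :
    ∃ δ : ℝ, 0 < δ ∧ δ ≤ 1 ∧ ∀ ε : ℝ, 0 < ε → ∃ (c : ℝ) (g : ℂ → ℂ → ℂ), 0 < c ∧
      Hook y0 δ ε c g := by
  by_cases h : y0.im = 0 ∧ y0.re ≤ 1
  · obtain ⟨him, hre⟩ := h
    have h1 : y0 = -1 := by
      have h2 : ‖y0 - 1‖ ^ 2 = 4 := by rw [hy0]; norm_num
      rw [← normSq_eq_norm_sq, normSq_apply] at h2
      simp only [sub_re, one_re, sub_im, one_im, sub_zero, him] at h2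
      have h3 : (y0.re - 3) * (y0.re + 1) = 0 := by linarith
      have h4 : y0.re = -1 := by
        rcases mul_eq_zero.1 h3 with h | h
        · linarith
        · linarith
      apply Complex.ext
      · simpa using h4
      · simpa using him
    rw [h1]
    exact hC
  · obtain ⟨q, K, δ, hq, hK, hδ, hδ1, hinj⟩ := hA y0 h
    obtain ⟨c, hc, hdif, hb⟩ := hB q K 4 hq hK
    refine ⟨δ, hδ, hδ1, fun ε hε => ⟨c, hk q K, hc, ?_⟩⟩
    have hn : ∀ y ∈ ball y0 δ, ‖y‖ ≤ 4 := by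
      intro y hy
      rw [mem_ball, dist_eq_norm] at hy
      have e : y = (y - y0) + (y0 - 1) + 1 := by ring
      have h5 := norm_add₃_le (a := y - y0) (b := y0 - 1) (c := (1 : ℂ))
      rw [← e, hy0, norm_one] at h5
      linarith
    have h0 : (0 : ℂ) ∈ Om := by
      simp only [Om, mem_ofPred_eq, zero_re]
      norm_num
    refine ⟨hinj, hdif.mono (prod_mono (subset_univ _) subset_rfl), fun y hy => (hb y (hn y hy)).1,
      fun y hy v hv hv1 => ?_⟩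
    have h6 := (hb y (hn y hy)).2 v hv 0 h0 hv1 (by rw [norm_zero]; norm_num)
    rw [sub_zero, norm_zero, add_zero] at h6
    have h7 : 0 ≤ ε * ‖v‖ := by positivity
    nlinarith

theorem exists_pos_le {ι : Type*} (t : Finset ι) (f : ι → ℝ) (hf : ∀ i ∈ t, 0 < f i) :
    ∃ d : ℝ, 0 < d ∧ d ≤ 1 ∧ ∀ i ∈ t, d ≤ f i := by
  classical
  induction t using Finset.induction_on with
  | empty => exact ⟨1, one_pos, le_rfl, by simp⟩
  | insert a s _ ih =>
    obtain ⟨d, hd, hd1, h⟩ := ih fun i hi => hf i (Finset.mem_insert_of_mem hi)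
    refine ⟨min d (f a), lt_min hd (hf a (Finset.mem_insert_self _ _)),
      (min_le_left _ _).trans hd1, fun i hi => ?_⟩
    rcases Finset.mem_insert.1 hi with rfl | hi
    · exact min_le_right _ _
    · exact (min_le_left _ _).trans (h i hi)

end HkD'

theorem prfHkD (hA : HkA) (hB : HkB) (hC : HkC) : HkD := by
  have hloc := HkD'.loc hA hB hC
  have hloc' : ∀ y : ℂ, ∃ δ : ℝ, ‖y - 1‖ = 2 → 0 < δ ∧ δ ≤ 1 ∧ ∀ ε : ℝ, 0 < ε →
      ∃ (c : ℝ) (g : ℂ → ℂ → ℂ), 0 < c ∧ Hook y δ ε c g := by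
    intro y
    by_cases hy : ‖y - 1‖ = 2
    · obtain ⟨δ, h⟩ := hloc y hy
      exact ⟨δ, fun _ => h⟩
    · exact ⟨0, fun h => (hy h).elim⟩
  choose D hD using hloc'
  obtain ⟨t, ht, hcov⟩ := (isCompact_sphere (1 : ℂ) 2).elim_nhds_subcover
    (fun y => ball y (D y / 2)) fun y hy => ball_mem_nhds y (by
      have := (hD y (by rwa [mem_sphere_iff_norm] at hy)).1
      positivity)
  have ht' : ∀ y ∈ t, ‖y - 1‖ = 2 := fun y hy => by
    have := ht y hy
    rwa [mem_sphere_iff_norm] at this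
  obtain ⟨d, hd, hd1, hdt⟩ := HkD'.exists_pos_le t (fun y => D y / 2) fun y hy => by
    have := (hD y (ht' y hy)).1
    positivity
  refine ⟨d, hd, hd1, fun ε hε => ?_⟩
  have hc : ∀ y : ℂ, ∃ c : ℝ, 0 < c ∧ (y ∈ t → ∃ g, Hook y (D y) ε c g) := by
    intro y
    by_cases hy : y ∈ t
    · obtain ⟨c, g, hc, hg⟩ := (hD y (ht' y hy)).2.2 ε hε
      exact ⟨c, hc, fun _ => ⟨g, hg⟩⟩
    · exact ⟨1, one_pos, fun h => (hy h).elim⟩
  choose c hc0 hcg using hc
  refine ⟨1 + ∑ y ∈ t, c y, ?_, fun y0 hy0 => ?_⟩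
  · have : 0 ≤ ∑ y ∈ t, c y := Finset.sum_nonneg fun y _ => (hc0 y).le
    linarith
  · have h1 : y0 ∈ sphere (1 : ℂ) 2 := by rwa [mem_sphere_iff_norm]
    obtain ⟨y, hy, hyb⟩ := mem_iUnion₂.1 (hcov h1)
    obtain ⟨g, hg⟩ := hcg y hy
    refine ⟨g, HkD'.mono hg ?_ le_rfl ?_⟩
    · apply ball_subset_ball'
      rw [mem_ball] at hyb
      have := hdt y hy
      linarith
    · have : c y ≤ ∑ y ∈ t, c y := Finset.single_le_sum (fun y _ => (hc0 y).le) hy
      linarith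

end Pool.Agent.MultS.Lip

end

section

/-!
# Holomorphic dependence of the functional on a parameter
-/

set_option autoImplicit false

open Complex Metric Set Filter Topology MeasureTheory

namespace Pool.Agent.MultS.Lip

namespace Hol'

/-- Differentiation of an integral over `[0, 2π]` depending holomorphically on a parameter. -/
theorem param {k : ℂ → ℝ → ℂ} {y0 : ℂ} {r M : ℝ} (hr : 0 < r)
    (hc : ∀ y ∈ closedBall y0 r, Continuous (k y))
    (hd : ∀ θ, DifferentiableOn ℂ (fun y => k y θ) (closedBall y0 r))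
    (hM : ∀ y ∈ closedBall y0 r, ∀ θ, ‖k y θ‖ ≤ M) :
    DifferentiableAt ℂ (fun y => ∫ θ in (0 : ℝ)..2 * Real.pi, k y θ) y0 := by
  have hr2 : 0 < r / 2 := by positivity
  have hsub : ∀ y ∈ ball y0 (r / 2), closedBall y (r / 2) ⊆ closedBall y0 r := by
    intro y hy w hw
    rw [mem_ball] at hy
    rw [mem_closedBall] at hw ⊢
    have := dist_triangle w y y0
    linarith
  have hds : ∀ y ∈ ball y0 (r / 2), ∀ θ, HasDerivAt (fun y => k y θ)
      (deriv (fun y => k y θ) y) y := by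
    intro y hy θ
    have h1 : y ∈ ball y0 r := ball_subset_ball (by linarith) hy
    exact ((hd θ).differentiableAt (closedBall_mem_nhds_of_mem h1)).hasDerivAt
  have hbd : ∀ y ∈ ball y0 (r / 2), ∀ θ, ‖deriv (fun y => k y θ) y‖ ≤ M / (r / 2) := by
    intro y hy θ
    refine Complex.norm_deriv_le_of_forall_mem_sphere_norm_le hr2 ?_ ?_
    · exact ((hd θ).mono ((closure_ball_subset_closedBall).trans (hsub y hy))).diffContOnCl
    · intro w hw
      exact hM w (hsub y hy (sphere_subset_closedBall hw)) θ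
  have hself : y0 ∈ ball y0 (r / 2) := mem_ball_self hr2
  refine (intervalIntegral.hasDerivAt_integral_of_dominated_loc_of_deriv_le (μ := volume)
    (F := k) (F' := fun y θ => deriv (fun y => k y θ) y) (x₀ := y0) (s := ball y0 (r / 2))
    (bound := fun _ => M / (r / 2)) (ball_mem_nhds y0 hr2) ?_ ?_ ?_ ?_ ?_ ?_).2.differentiableAt
  · filter_upwards [ball_mem_nhds y0 hr] with y hy
    exact (hc y (ball_subset_closedBall hy)).aestronglyMeasurable
  · exact (hc y0 (mem_closedBall_self hr.le)).intervalIntegrable _ _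
  · -- the derivative is a limit of difference quotients
    have ht : ∀ n : ℕ, 0 < r / ((n : ℝ) + 1) ∧ r / ((n : ℝ) + 1) ≤ r := by
      intro n
      refine ⟨by positivity, ?_⟩
      rw [div_le_iff₀ (by positivity)]
      nlinarith [hr, (Nat.cast_nonneg n : (0 : ℝ) ≤ (n : ℝ))]
    have hmem : ∀ n : ℕ, y0 + ((r / ((n : ℝ) + 1) : ℝ) : ℂ) ∈ closedBall y0 r := by
      intro n
      rw [mem_closedBall, dist_eq_norm, add_sub_cancel_left, Complex.norm_real, Real.norm_eq_abs,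
        abs_of_pos (ht n).1]
      exact (ht n).2
    have hlim : Tendsto (fun n : ℕ => ((r / ((n : ℝ) + 1) : ℝ) : ℂ)) atTop (𝓝[≠] 0) := by
      rw [tendsto_nhdsWithin_iff]
      constructor
      · have h1 : Tendsto (fun n : ℕ => r / ((n : ℝ) + 1)) atTop (𝓝 0) := by
          have h2 := (tendsto_one_div_add_atTop_nhds_zero_nat (𝕜 := ℝ)).const_mul r
          rw [mul_zero] at h2
          refine h2.congr fun n => ?_
          rw [mul_one_div]
        have h3 := (Complex.continuous_ofReal.tendsto 0).comp h1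
        rw [Complex.ofReal_zero] at h3
        exact h3
      · refine Eventually.of_forall fun n => ?_
        have h1 : r / ((n : ℝ) + 1) ≠ 0 := (ht n).1.ne'
        exact Complex.ofReal_ne_zero.2 h1
    refine aestronglyMeasurable_of_tendsto_ae atTop
      (f := fun (n : ℕ) (θ : ℝ) => (((r / ((n : ℝ) + 1) : ℝ) : ℂ))⁻¹ •
        (k (y0 + ((r / ((n : ℝ) + 1) : ℝ) : ℂ)) θ - k y0 θ)) ?_ ?_
    · intro n
      have h5 : Continuous fun θ => k (y0 + ((r / ((n : ℝ) + 1) : ℝ) : ℂ)) θ - k y0 θ :=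
        (hc _ (hmem n)).sub (hc y0 (mem_closedBall_self hr.le))
      exact (h5.const_smul ((((r / ((n : ℝ) + 1) : ℝ) : ℂ))⁻¹)).aestronglyMeasurable
    · refine Eventually.of_forall fun θ => ?_
      exact ((hds y0 hself θ).tendsto_slope_zero).comp hlim
  · exact Eventually.of_forall fun θ _ y hy => hbd y hy θ
  · exact intervalIntegrable_const
  · exact Eventually.of_forall fun θ _ y hy => hds y hy θ

/-- the Taylor coefficient as a circle integral -/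
theorem tc_eq {f : ℂ → ℂ} {ρ : ℝ} (hρ : 0 < ρ) (hρ1 : ρ < 1)
    (hf : DifferentiableOn ℂ f (ball 0 1)) (n : ℕ) :
    tc f n = (2 * Real.pi * I)⁻¹ * ∫ θ in (0 : ℝ)..2 * Real.pi,
      deriv (circleMap 0 ρ) θ • ((1 / (circleMap 0 ρ θ - 0) ^ (n + 1)) • f (circleMap 0 ρ θ)) := by
  have h1 : DifferentiableOn ℂ f (closedBall 0 ρ) := hf.mono (closedBall_subset_ball hρ1)
  have h2 := h1.circleIntegral_one_div_sub_center_pow_smul hρ n
  rw [circleIntegral] at h2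
  rw [h2, tc, smul_eq_mul]
  have h3 : (2 * Real.pi * I : ℂ) ≠ 0 := two_pi_I_ne_zero
  rw [← mul_assoc, ← mul_div_assoc, inv_mul_cancel₀ h3, one_div_mul_eq_div]

/-- bound of the Taylor coefficient -/
theorem tc_le {f : ℂ → ℂ} {ρ M : ℝ} (hρ : 0 < ρ) (hρ1 : ρ < 1)
    (hf : DifferentiableOn ℂ f (ball 0 1)) (hM : ∀ ζ ∈ closedBall (0 : ℂ) ρ, ‖f ζ‖ ≤ M) (n : ℕ) :
    ‖tc f n‖ ≤ M / ρ ^ n := by
  have h1 : DifferentiableOn ℂ f (closedBall 0 ρ) := hf.mono (closedBall_subset_ball hρ1)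
  have h2 := Complex.norm_iteratedDeriv_le_of_forall_mem_sphere_norm_le (f := f) n hρ
    (h1.mono closure_ball_subset_closedBall).diffContOnCl
    (fun z hz => hM z (sphere_subset_closedBall hz))
  have h3 : (0 : ℝ) < (n.factorial : ℝ) := by exact_mod_cast n.factorial_pos
  rw [tc, norm_div, Complex.norm_natCast, div_le_iff₀ h3]
  calc ‖iteratedDeriv n f 0‖ ≤ (n.factorial : ℝ) * M / ρ ^ n := h2
    _ = M / ρ ^ n * (n.factorial : ℝ) := by ring

end Hol'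

theorem prfHol : Hol := by
  intro lam B hP z hz U h hU hh
  rw [mem_ball_zero_iff] at hz
  have hz0 := norm_nonneg z
  set ρ : ℝ := (1 + ‖z‖) / 2 with hρdef
  have hρ : 0 < ρ := by rw [hρdef]; linarith
  have hρ1 : ρ < 1 := by rw [hρdef]; linarith
  have hzρ : ‖z‖ ≤ ρ := by rw [hρdef]; linarith
  -- slices
  have hs2 : ∀ y ∈ U, DifferentiableOn ℂ (h y) (ball 0 1) := by
    intro y hy
    have h1 : DifferentiableOn ℂ (fun ζ : ℂ => ((y, ζ) : ℂ × ℂ)) (ball 0 1) :=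
      (differentiableOn_const y).prodMk differentiableOn_id
    exact hh.comp h1 fun ζ hζ => ⟨hy, hζ⟩
  have hs1 : ∀ ζ ∈ ball (0 : ℂ) 1, DifferentiableOn ℂ (fun y => h y ζ) U := by
    intro ζ hζ
    have h1 : DifferentiableOn ℂ (fun y : ℂ => ((y, ζ) : ℂ × ℂ)) U :=
      differentiableOn_id.prodMk (differentiableOn_const ζ)
    exact hh.comp h1 fun y hy => ⟨hy, hζ⟩
  intro y0 hy0
  obtain ⟨r, hr, hrU⟩ := Metric.nhds_basis_closedBall.mem_iff.1 (hU.mem_nhds hy0)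
  obtain ⟨M, hM⟩ : ∃ M, ∀ p ∈ closedBall y0 r ×ˢ closedBall (0 : ℂ) ρ,
      ‖(fun p : ℂ × ℂ => h p.1 p.2) p‖ ≤ M := by
    refine IsCompact.exists_bound_of_continuousOn
      ((isCompact_closedBall y0 r).prod (isCompact_closedBall (0 : ℂ) ρ)) ?_
    exact hh.continuousOn.mono (prod_mono hrU (closedBall_subset_ball hρ1))
  have hM' : ∀ y ∈ closedBall y0 r, ∀ ζ ∈ closedBall (0 : ℂ) ρ, ‖h y ζ‖ ≤ M :=
    fun y hy ζ hζ => hM (y, ζ) ⟨hy, hζ⟩
  have hM0 : 0 ≤ M := (norm_nonneg _).trans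
    (hM' y0 (mem_closedBall_self hr.le) 0 (mem_closedBall_self hρ.le))
  -- the coefficients are holomorphic
  have hcm : ∀ θ : ℝ, circleMap 0 ρ θ ∈ ball (0 : ℂ) 1 := fun θ =>
    closedBall_subset_ball hρ1 (circleMap_mem_closedBall 0 hρ.le θ)
  have hcne : ∀ θ : ℝ, circleMap 0 ρ θ - 0 ≠ 0 := fun θ => by
    rw [sub_zero]
    exact circleMap_ne_center hρ.ne'
  have hcn : ∀ θ : ℝ, ‖circleMap 0 ρ θ - 0‖ = ρ := fun θ => by
    rw [sub_zero, norm_circleMap_zero, abs_of_pos hρ]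
  have hco : ∀ n : ℕ, DifferentiableOn ℂ (fun y => tc (h y) n) (ball y0 r) := by
    intro n y1 hy1
    obtain ⟨r', hr', hr'U⟩ := Metric.nhds_basis_closedBall.mem_iff.1 (isOpen_ball.mem_nhds hy1)
    have hsub : closedBall y1 r' ⊆ closedBall y0 r := hr'U.trans ball_subset_closedBall
    have h1 : DifferentiableAt ℂ (fun y => ∫ θ in (0 : ℝ)..2 * Real.pi,
        deriv (circleMap 0 ρ) θ • ((1 / (circleMap 0 ρ θ - 0) ^ (n + 1)) •
          h y (circleMap 0 ρ θ))) y1 := by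
      refine Hol'.param (M := ρ * ((1 / ρ ^ (n + 1)) * M)) hr' ?_ ?_ ?_
      · intro y hy
        have h2 : Continuous fun θ : ℝ => h y (circleMap 0 ρ θ) := by
          rw [← continuousOn_univ]
          exact (hs2 y (hrU (hsub hy))).continuousOn.comp (continuous_circleMap 0 ρ).continuousOn
            fun θ _ => hcm θ
        have h3 : Continuous fun θ : ℝ => deriv (circleMap 0 ρ) θ := by
          have h4 : (fun θ : ℝ => deriv (circleMap 0 ρ) θ) = fun θ => circleMap 0 ρ θ * I := by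
            funext θ
            rw [deriv_circleMap]
          rw [h4]
          exact (continuous_circleMap 0 ρ).mul continuous_const
        have h5 : Continuous fun θ : ℝ => 1 / (circleMap 0 ρ θ - 0) ^ (n + 1) :=
          continuous_const.div (((continuous_circleMap 0 ρ).sub continuous_const).pow _)
            fun θ => pow_ne_zero _ (hcne θ)
        exact h3.smul (h5.smul h2)
      · intro θ
        have h2 := (hs1 _ (hcm θ)).mono (hsub.trans hrU)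
        exact (h2.const_smul (1 / (circleMap 0 ρ θ - 0) ^ (n + 1))).const_smul
          (deriv (circleMap 0 ρ) θ)
      · intro y hy θ
        rw [norm_smul, norm_smul, norm_div, norm_one, norm_pow, hcn, deriv_circleMap, norm_mul,
          norm_I, mul_one, norm_circleMap_zero, abs_of_pos hρ]
        have h2 := hM' y (hsub hy) _ (circleMap_mem_closedBall 0 hρ.le θ)
        gcongr
    have h2 : (fun y => tc (h y) n) =ᶠ[𝓝 y1] fun y => (2 * Real.pi * I)⁻¹ *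
        ∫ θ in (0 : ℝ)..2 * Real.pi, deriv (circleMap 0 ρ) θ •
          ((1 / (circleMap 0 ρ θ - 0) ^ (n + 1)) • h y (circleMap 0 ρ θ)) := by
      filter_upwards [closedBall_mem_nhds y1 hr'] with y hy
      exact Hol'.tc_eq hρ hρ1 (hs2 y (hrU (hsub hy))) n
    exact ((h1.const_mul _).congr_of_eventuallyEq h2).differentiableWithinAt
  -- the series
  have hser : DifferentiableOn ℂ (fun y => LL lam (h y) z) (ball y0 r) := by
    unfold LL
    refine differentiableOn_tsum_of_summable_norm (hP.sm.mul_right (M / ρ)) ?_ isOpen_ball ?_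
    · intro n
      exact (((hco (n + 1)).const_mul _).mul_const _)
    · intro n y hy
      have hy' := ball_subset_closedBall hy
      have h1 := Hol'.tc_le hρ hρ1 (hs2 y (hrU hy')) (hM' y hy') (n + 1)
      have h2 : ‖z‖ ^ n ≤ ρ ^ n := pow_le_pow_left₀ hz0 hzρ n
      have h3 : ‖(n : ℂ) + 1‖ = (n : ℝ) + 1 := by
        have : ((n : ℂ) + 1) = (((n : ℝ) + 1 : ℝ) : ℂ) := by push_cast; ring
        rw [this, Complex.norm_real, Real.norm_eq_abs, abs_of_pos (by positivity)]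
      rw [norm_mul, norm_mul, norm_mul, norm_pow, h3]
      have h4 : 0 ≤ ((n : ℝ) + 1) * ‖lam (n + 1)‖ := by positivity
      have h5 : M / ρ ^ (n + 1) * ρ ^ n = M / ρ := by
        have := hρ.ne'
        field_simp
        ring
      calc ((n : ℝ) + 1) * ‖lam (n + 1)‖ * ‖tc (h y) (n + 1)‖ * ‖z‖ ^ n
          ≤ ((n : ℝ) + 1) * ‖lam (n + 1)‖ * (M / ρ ^ (n + 1)) * ρ ^ n := by gcongr
        _ = ((n : ℝ) + 1) * ‖lam (n + 1)‖ * (M / ρ ^ (n + 1) * ρ ^ n) := by ring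
        _ = ((n : ℝ) + 1) * ‖lam (n + 1)‖ * (M / ρ) := by rw [h5]
  exact (hser.differentiableAt (ball_mem_nhds y0 hr)).differentiableWithinAt

end Pool.Agent.MultS.Lip

end

section

/-!
# [B1] The Koebe transform in the half plane
-/

set_option autoImplicit false

open Complex Metric Set Filter Topology MeasureTheory

namespace Pool.Agent.MultS.Lip

namespace KTr'

theorem isOpen_Hp : IsOpen Hp := isOpen_lt continuous_const Complex.continuous_re

theorem mul_mem {q : ℝ} (hq : 0 < q) {w : ℂ} (hw : w ∈ Hp) : (q : ℂ) * w ∈ Hp := by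
  show 0 < ((q : ℂ) * w).re
  rw [Complex.re_ofReal_mul]
  exact mul_pos hq hw

theorem psi_zero : psi 0 = 1 := by
  unfold psi
  norm_num

end KTr'

open KTr' in
theorem prfKTr (hC : Cay) : KTr := by
  intro h hd hi q hq
  obtain ⟨h1, -, h3, -, h5, -⟩ := hC
  have h0 : (0 : ℂ) ∈ ball (0 : ℂ) 1 := mem_ball_self one_pos
  have hqH : (q : ℂ) ∈ Hp := by
    show 0 < ((q : ℂ)).re
    rw [Complex.ofReal_re]
    exact hq
  have hq0 : (q : ℂ) ≠ 0 := by exact_mod_cast hq.ne'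
  have hne : deriv h (q : ℂ) ≠ 0 := prfDerNe Hp h isOpen_Hp hd hi (q : ℂ) hqH
  have hmaps : MapsTo (fun ζ => (q : ℂ) * psi ζ) (ball (0 : ℂ) 1) Hp := fun ζ hζ =>
    mul_mem hq (h1 ζ hζ).1
  have hdg : DifferentiableOn ℂ (fun ζ => (q : ℂ) * psi ζ) (ball (0 : ℂ) 1) :=
    h3.const_mul _
  have hdc : DifferentiableOn ℂ (fun ζ => h ((q : ℂ) * psi ζ)) (ball (0 : ℂ) 1) :=
    hd.comp hdg hmaps
  refine ⟨hne, ?_, ?_, ?_, ?_⟩
  · exact (hdc.sub_const _).div_const _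
  · intro ζ hζ ζ' hζ' he
    have hden : 2 * (q : ℂ) * deriv h (q : ℂ) ≠ 0 :=
      mul_ne_zero (mul_ne_zero two_ne_zero hq0) hne
    have he1 : h ((q : ℂ) * psi ζ) - h (q : ℂ) = h ((q : ℂ) * psi ζ') - h (q : ℂ) :=
      (div_left_inj' hden).1 he
    have he2 : h ((q : ℂ) * psi ζ) = h ((q : ℂ) * psi ζ') := sub_left_injective he1
    have he3 : (q : ℂ) * psi ζ = (q : ℂ) * psi ζ' := hi (hmaps hζ) (hmaps hζ') he2
    have he4 : psi ζ = psi ζ' := mul_left_cancel₀ hq0 he3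
    rw [← (h1 ζ hζ).2.1, he4, (h1 ζ' hζ').2.1]
  · show (h ((q : ℂ) * psi 0) - h (q : ℂ)) / _ = 0
    rw [psi_zero, mul_one, sub_self, zero_div]
  · have e1 : HasDerivAt psi 2 0 := by
      have := h5 0 h0
      have e : (2 : ℂ) / (1 - 0) ^ 2 = 2 := by norm_num
      rw [e] at this
      exact this
    have e2 : HasDerivAt (fun ζ => (q : ℂ) * psi ζ) ((q : ℂ) * 2) 0 := e1.const_mul _
    have e3 : HasDerivAt h (deriv h (q : ℂ)) ((q : ℂ) * psi 0) := by
      rw [psi_zero, mul_one]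
      exact ((hd (q : ℂ) hqH).differentiableAt (isOpen_Hp.mem_nhds hqH)).hasDerivAt
    have e4 : HasDerivAt (fun ζ => h ((q : ℂ) * psi ζ)) (deriv h (q : ℂ) * ((q : ℂ) * 2)) 0 :=
      HasDerivAt.comp (0 : ℂ) e3 e2
    have e5 := (e4.sub_const (h (q : ℂ))).div_const (2 * (q : ℂ) * deriv h (q : ℂ))
    rw [e5.deriv]
    field_simp

end Pool.Agent.MultS.Lip

end
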