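import Pool.Agent.Work.MP_b17785_an.Bd.B01
import Pool.Agent.Work.MP_b17785_an.Bd.B02
import Pool.Agent.Work.MP_b17785_an.StmtsK
import Pool.Agent.Work.MP_6d8919_an.SchwarzLog
import Pool.Agent.Work.MP_a78000_an.RMT

/-! Bundle of small proof modules (one section per former module). -/

section

/-!
# [D4] Domination of `F` along the segments to `0`
-/

set_option autoImplicit false

open Complex Metric Set Filter Topology MeasureTheory Finset

namespace Pool.Agent.MultS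

namespace DomAux

theorem decay {u P : ℝ → ℂ} {W W' : ℝ → ℝ} {a b : ℝ} (hab : a ≤ b)
    (hu : ∀ x ∈ Icc a b, HasDerivAt u (-(u x * P x)) x)
    (hW : ∀ x ∈ Icc a b, HasDerivAt W (W' x) x)
    (hle : ∀ x ∈ Icc a b, W' x ≤ (P x).re) :
    ‖u b‖ * Real.exp (W b) ≤ ‖u a‖ * Real.exp (W a) := by
  set V : ℝ → ℝ := fun x => ‖u x‖ ^ 2 * Real.exp (2 * W x) with hV
  have hVd : ∀ x ∈ Icc a b, HasDerivAt V
      (2 * ‖u x‖ ^ 2 * Real.exp (2 * W x) * (W' x - (P x).re)) x := by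
    intro x hx
    have h1 := (hu x hx).norm_sq
    have h2 := ((hW x hx).const_mul 2).exp
    have h3 := h1.mul h2
    refine h3.congr_deriv ?_
    have h4 : inner ℝ (u x) (-(u x * P x)) = -(‖u x‖ ^ 2 * (P x).re) := by
      rw [inner_neg_right, Complex.inner]
      have h5 : (starRingEnd ℂ) (u x) * (u x * P x) = ((‖u x‖ ^ 2 : ℝ) : ℂ) * P x := by
        rw [← mul_assoc, mul_comm ((starRingEnd ℂ) (u x)) (u x), Complex.mul_conj,
          Complex.normSq_eq_norm_sq]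
      rw [mul_comm (u x * P x), h5, Complex.re_ofReal_mul]
    rw [h4]
    ring
  have hanti : AntitoneOn V (Icc a b) := by
    refine antitoneOn_of_deriv_nonpos (convex_Icc a b)
      (fun x hx => (hVd x hx).continuousAt.continuousWithinAt) ?_ ?_
    · intro x hx
      rw [interior_Icc] at hx
      exact (hVd x ⟨hx.1.le, hx.2.le⟩).differentiableAt.differentiableWithinAt
    · intro x hx
      rw [interior_Icc] at hx
      have hx' : x ∈ Icc a b := ⟨hx.1.le, hx.2.le⟩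
      rw [(hVd x hx').deriv]
      refine mul_nonpos_of_nonneg_of_nonpos (by positivity) ?_
      linarith [hle x hx']
  have h1 := hanti (left_mem_Icc.mpr hab) (right_mem_Icc.mpr hab) hab
  have h2 : ∀ x, V x = (‖u x‖ * Real.exp (W x)) ^ 2 := by
    intro x
    rw [hV, mul_pow, ← Real.exp_nat_mul]
    norm_num
  rw [h2, h2] at h1
  exact le_of_sq_le_sq h1 (by positivity)

end DomAux

open DomAux in
theorem prfDom (hH : Har) : Dom := by
  intro h α hS hα hre hJ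
  obtain ⟨hd, hinj, h0, h1⟩ := hS
  have hne : ∀ z ∈ ball (0 : ℂ) 1, deriv h z ≠ 0 := prfDerNe _ h isOpen_ball hd hinj
  have hd1 : DifferentiableOn ℂ (deriv h) (ball 0 1) := hd.deriv isOpen_ball
  have hd2 : DifferentiableOn ℂ (deriv (deriv h)) (ball 0 1) := hd1.deriv isOpen_ball
  have hPd : DifferentiableOn ℂ (PP h) (ball 0 1) :=
    ((differentiableOn_id.mul hd2).div hd1 hne).const_add 1
  have hCar : Car (PP h) := ⟨hPd, fun z hz => (hre z hz).le⟩
  have hP0 : PP h 0 = 1 := by simp [PP]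
  have hFd : ∀ z ∈ ball (0 : ℂ) 1, HasDerivAt (FF h) (deriv h z * PP h z) z := by
    intro z hz
    have h2 : HasDerivAt (deriv h) (deriv (deriv h) z) z :=
      (hd1.differentiableAt (isOpen_ball.mem_nhds hz)).hasDerivAt
    refine ((hasDerivAt_id z).mul h2).congr_deriv ?_
    have := hne z hz
    unfold PP
    simp only [id_eq, one_mul]
    field_simp
  have hmem : ∀ z ∈ ball (0 : ℂ) 1, ∀ x : ℝ, 0 ≤ x →
      ((Real.exp (-x) : ℝ) : ℂ) * z ∈ ball (0 : ℂ) 1 := by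
    intro z hz x hx
    rw [mem_ball_zero_iff] at hz ⊢
    rw [norm_mul, Complex.norm_real, Real.norm_of_nonneg (Real.exp_pos _).le]
    have : Real.exp (-x) ≤ 1 := Real.exp_le_one_iff.mpr (by linarith)
    calc Real.exp (-x) * ‖z‖ ≤ 1 * ‖z‖ := mul_le_mul_of_nonneg_right this (norm_nonneg _)
      _ < 1 := by linarith
  refine ⟨Real.exp (6 * α + 3) * (2 * α + 1) ^ (2 * α), fun z hz x hx => ?_⟩
  have hz1 : ‖z‖ < 1 := by rwa [mem_ball_zero_iff] at hz
  set u : ℝ → ℂ := fun x => FF h (((Real.exp (-x) : ℝ) : ℂ) * z) with hu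
  set Q : ℝ → ℂ := fun x => PP h (((Real.exp (-x) : ℝ) : ℂ) * z) with hQ
  have hud : ∀ x : ℝ, 0 ≤ x → HasDerivAt u (-(u x * Q x)) x := by
    intro x hx
    have h2 : HasDerivAt (fun t : ℝ => ((Real.exp (-t) : ℝ) : ℂ) * z)
        (((-Real.exp (-x) : ℝ) : ℂ) * z) x := by
      have h3 : HasDerivAt (fun t : ℝ => Real.exp (-t)) (-Real.exp (-x)) x := by
        simpa using (hasDerivAt_neg x).exp
      exact h3.ofReal_comp.mul_const z
    have h4 := (hFd _ (hmem z hz x hx)).comp x h2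
    refine h4.congr_deriv ?_
    rw [hu, hQ]
    simp only [FF]
    push_cast
    ring
  set d : ℝ := ‖1 - z‖ with hdd
  have hdpos : 0 < d := by
    have h2 : 1 - ‖z‖ ≤ ‖1 - z‖ := by
      have := norm_sub_norm_le (1 : ℂ) z
      simpa using this
    linarith
  -- the lower bound near the boundary
  have hlow1 : ∀ x : ℝ, 0 ≤ x →
      2 * α / (d + x) - 2 * α * (d / (d + x) ^ 2) - 4 * α ≤ (Q x).re := by
    intro x hx
    have hdx : 0 < d + x := by linarith
    have h2 := hJ _ (hmem z hz x hx)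
    have hn : ‖((Real.exp (-x) : ℝ) : ℂ) * z‖ ^ 2 ≤ Real.exp (-x) ^ 2 := by
      rw [norm_mul, Complex.norm_real, Real.norm_of_nonneg (Real.exp_pos _).le]
      refine pow_le_pow_left₀ (by positivity) ?_ 2
      calc Real.exp (-x) * ‖z‖ ≤ Real.exp (-x) * 1 :=
            mul_le_mul_of_nonneg_left hz1.le (Real.exp_pos _).le
        _ = _ := mul_one _
    have hexp : Real.exp (-x) ^ 2 ≤ 1 - 2 * x + 4 * x ^ 2 := by
      have h3 : Real.exp (-x) ^ 2 * (1 + 2 * x) ≤ 1 := by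
        have h4 : 1 + 2 * x ≤ Real.exp (2 * x) := by
          have := Real.add_one_le_exp (2 * x)
          linarith
        calc Real.exp (-x) ^ 2 * (1 + 2 * x) ≤ Real.exp (-x) ^ 2 * Real.exp (2 * x) :=
              mul_le_mul_of_nonneg_left h4 (by positivity)
          _ = 1 := by
            rw [← Real.exp_nat_mul, ← Real.exp_add]
            norm_num
      have h5 : 1 ≤ (1 - 2 * x + 4 * x ^ 2) * (1 + 2 * x) := by
        have : (1 - 2 * x + 4 * x ^ 2) * (1 + 2 * x) = 1 + 8 * x ^ 3 := by ring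
        rw [this]
        have : 0 ≤ x ^ 3 := by positivity
        linarith
      exact le_of_mul_le_mul_right (h3.trans h5) (by linarith)
    have hden : ‖1 - ((Real.exp (-x) : ℝ) : ℂ) * z‖ ≤ d + x := by
      have h3 : 1 - ((Real.exp (-x) : ℝ) : ℂ) * z = (1 - z) + ((1 - Real.exp (-x) : ℝ) : ℂ) * z := by
        push_cast
        ring
      rw [h3]
      refine (norm_add_le _ _).trans ?_
      have h4 : 0 ≤ 1 - Real.exp (-x) := by
        have : Real.exp (-x) ≤ 1 := Real.exp_le_one_iff.mpr (by linarith)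
        linarith
      have h6 : 1 - Real.exp (-x) ≤ x := by
        have := Real.add_one_le_exp (-x)
        linarith
      rw [norm_mul, Complex.norm_real, Real.norm_of_nonneg h4]
      have h7 : (1 - Real.exp (-x)) * ‖z‖ ≤ (1 - Real.exp (-x)) * 1 :=
        mul_le_mul_of_nonneg_left hz1.le h4
      linarith
    have hdenpos : 0 < ‖1 - ((Real.exp (-x) : ℝ) : ℂ) * z‖ := by
      have h3 : ‖((Real.exp (-x) : ℝ) : ℂ) * z‖ < 1 := by
        have := hmem z hz x hx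
        rwa [mem_ball_zero_iff] at this
      have h4 := norm_sub_norm_le (1 : ℂ) (((Real.exp (-x) : ℝ) : ℂ) * z)
      rw [norm_one] at h4
      linarith
    have hnum : 0 ≤ α * (1 - ‖((Real.exp (-x) : ℝ) : ℂ) * z‖ ^ 2) := by
      have h3 : ‖((Real.exp (-x) : ℝ) : ℂ) * z‖ < 1 := by
        have := hmem z hz x hx
        rwa [mem_ball_zero_iff] at this
      have h4 : ‖((Real.exp (-x) : ℝ) : ℂ) * z‖ ^ 2 ≤ 1 := by
        have := pow_le_pow_left₀ (norm_nonneg _) h3.le 2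
        simpa using this
      exact mul_nonneg hα (by linarith)
    have h3 : α * (1 - ‖((Real.exp (-x) : ℝ) : ℂ) * z‖ ^ 2) / (d + x) ^ 2 ≤ (Q x).re := by
      refine le_trans ?_ h2
      exact div_le_div_of_nonneg_left hnum (by positivity)
        (pow_le_pow_left₀ hdenpos.le hden 2)
    refine le_trans ?_ h3
    rw [le_div_iff₀ (by positivity)]
    have h4 : (2 * α / (d + x) - 2 * α * (d / (d + x) ^ 2) - 4 * α) * (d + x) ^ 2 =
        2 * α * x - 4 * α * (d + x) ^ 2 := by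
      field_simp
      ring
    rw [h4]
    have h5 : α * (2 * x - 4 * x ^ 2) ≤ α * (1 - ‖((Real.exp (-x) : ℝ) : ℂ) * z‖ ^ 2) :=
      mul_le_mul_of_nonneg_left (by linarith) hα
    have h6 : α * x ^ 2 ≤ α * (d + x) ^ 2 :=
      mul_le_mul_of_nonneg_left (pow_le_pow_left₀ hx (by linarith) 2) hα
    linarith
  -- the lower bound near the centre
  have hlow2 : ∀ x : ℝ, 0 ≤ x → 1 - 2 * Real.exp (-x) ≤ (Q x).re := by
    intro x hx
    set y : ℂ := ((Real.exp (-x) : ℝ) : ℂ) * z with hy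
    have hyn : ‖y‖ ≤ Real.exp (-x) := by
      rw [hy, norm_mul, Complex.norm_real, Real.norm_of_nonneg (Real.exp_pos _).le]
      calc Real.exp (-x) * ‖z‖ ≤ Real.exp (-x) * 1 :=
            mul_le_mul_of_nonneg_left hz1.le (Real.exp_pos _).le
        _ = _ := mul_one _
    have h2 := (hH (PP h) hCar y (hmem z hz x hx) 0 (mem_ball_self one_pos) ‖y‖ (by simp)).2.1
    rw [hP0, one_re, mul_one] at h2
    have h3 : 0 ≤ ‖y‖ := norm_nonneg _
    have h4 : 0 ≤ (Q x).re := (hre _ (hmem z hz x hx)).le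
    have h5 : (1 + ‖y‖) * (1 - 2 * ‖y‖) ≤ (1 + ‖y‖) * (Q x).re := by
      nlinarith
    have h6 := le_of_mul_le_mul_left h5 (by linarith)
    linarith
  have hBpos : ∀ x : ℝ, 0 ≤ x → 0 < 1 + x / d := fun x hx => by positivity
  -- the first part
  have hfirst : ∀ x : ℝ, 0 ≤ x → x ≤ 1 →
      ‖u x‖ ≤ Real.exp (6 * α) * ‖u 0‖ * (1 + x / d) ^ (-(2 * α)) := by
    intro x hx hx1
    have h2 := decay (u := u) (P := Q)
      (W := fun t => 2 * α * (Real.log (d + t) - Real.log d) - 2 * α * (t / (d + t)) - 4 * α * t)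
      (W' := fun t => 2 * α / (d + t) - 2 * α * (d / (d + t) ^ 2) - 4 * α) hx
      (fun t ht => hud t ht.1) (fun t ht => ?_) (fun t ht => hlow1 t ht.1)
    · simp only [add_zero, sub_self, mul_zero, zero_div, Real.exp_zero, mul_one] at h2
      have h3 : Real.log (d + x) - Real.log d = Real.log (1 + x / d) := by
        rw [← Real.log_div (by linarith) hdpos.ne']
        congr 1
        field_simp
      rw [h3] at h2
      have h4 : 2 * α * Real.log (1 + x / d) - 6 * α ≤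
          2 * α * Real.log (1 + x / d) - 2 * α * (x / (d + x)) - 4 * α * x := by
        have h5 : x / (d + x) ≤ 1 := by
          rw [div_le_one (by linarith)]
          linarith
        have h6 := mul_le_mul_of_nonneg_left h5 hα
        have h7 := mul_le_mul_of_nonneg_left hx1 hα
        linarith
      have h5 : ‖u x‖ * Real.exp (2 * α * Real.log (1 + x / d) - 6 * α) ≤ ‖u 0‖ :=
        (mul_le_mul_of_nonneg_left (Real.exp_le_exp.mpr h4) (norm_nonneg _)).trans h2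
      have h6 : Real.exp (2 * α * Real.log (1 + x / d) - 6 * α) =
          (1 + x / d) ^ (2 * α) / Real.exp (6 * α) := by
        rw [Real.exp_sub, Real.rpow_def_of_pos (hBpos x hx), mul_comm (2 * α)]
      rw [h6] at h5
      rw [Real.rpow_neg (hBpos x hx).le]
      have h7 : 0 < (1 + x / d) ^ (2 * α) := Real.rpow_pos_of_pos (hBpos x hx) _
      rw [← div_eq_mul_inv, le_div_iff₀ h7]
      have h8 : ‖u x‖ * (1 + x / d) ^ (2 * α) / Real.exp (6 * α) ≤ ‖u 0‖ := by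
        rwa [mul_div_assoc]
      rw [div_le_iff₀ (Real.exp_pos _)] at h8
      linarith
    · have hdt : 0 < d + t := by linarith [ht.1]
      have e1 : HasDerivAt (fun t : ℝ => d + t) 1 t := (hasDerivAt_id t).const_add d
      have e2 : HasDerivAt (fun t : ℝ => Real.log (d + t)) (1 / (d + t)) t := e1.log hdt.ne'
      have e3 : HasDerivAt (fun t : ℝ => t / (d + t)) (d / (d + t) ^ 2) t := by
        refine ((hasDerivAt_id t).div e1 hdt.ne').congr_deriv ?_
        simp only [id_eq]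
        congr 1
        ring
      have e4 := (((e2.sub_const (Real.log d)).const_mul (2 * α)).sub (e3.const_mul (2 * α))).sub
        ((hasDerivAt_id t).const_mul (4 * α))
      refine e4.congr_deriv ?_
      ring
  have hu0 : ‖u 0‖ = ‖FF h z‖ := by
    rw [hu]
    simp
  rw [← hu0]
  show ‖u x‖ ≤ _
  have hKge : (1 : ℝ) ≤ (2 * α + 1) ^ (2 * α) :=
    Real.one_le_rpow (by linarith) (by linarith)
  rcases le_total x 1 with hx1 | hx1
  · refine (hfirst x hx hx1).trans ?_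
    have h7 : 0 ≤ (1 + x / d) ^ (-(2 * α)) := Real.rpow_nonneg (hBpos x hx).le _
    refine mul_le_mul_of_nonneg_right ?_ h7
    refine mul_le_mul_of_nonneg_right ?_ (norm_nonneg _)
    calc Real.exp (6 * α) ≤ Real.exp (6 * α + 3) := Real.exp_le_exp.mpr (by linarith)
      _ = Real.exp (6 * α + 3) * 1 := (mul_one _).symm
      _ ≤ _ := mul_le_mul_of_nonneg_left hKge (Real.exp_pos _).le
  · have h2 := decay (u := u) (P := Q) (W := fun t => t + 2 * Real.exp (-t))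
      (W' := fun t => 1 - 2 * Real.exp (-t)) hx1
      (fun t ht => hud t (by linarith [ht.1])) (fun t ht => ?_)
      (fun t ht => hlow2 t (by linarith [ht.1]))
    · have h3 := hfirst 1 zero_le_one le_rfl
      have h4 : Real.exp x ≤ Real.exp (x + 2 * Real.exp (-x)) :=
        Real.exp_le_exp.mpr (by linarith [Real.exp_pos (-x)])
      have h5 : Real.exp (1 + 2 * Real.exp (-1)) ≤ Real.exp 3 := by
        refine Real.exp_le_exp.mpr ?_
        have : Real.exp (-1) ≤ 1 := Real.exp_le_one_iff.mpr (by norm_num)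
        linarith
      have h6 : ‖u x‖ * Real.exp x ≤ ‖u 1‖ * Real.exp 3 :=
        (mul_le_mul_of_nonneg_left h4 (norm_nonneg _)).trans
          (h2.trans (mul_le_mul_of_nonneg_left h5 (norm_nonneg _)))
      have hB1 : 0 < (1 + 1 / d) ^ (2 * α) := Real.rpow_pos_of_pos (hBpos 1 zero_le_one) _
      have hBx : 0 < (1 + x / d) ^ (2 * α) := Real.rpow_pos_of_pos (hBpos x hx) _
      have hxpos : 0 < x := by linarith
      have hcomp : (1 + x / d) ^ (2 * α) ≤ x ^ (2 * α) * (1 + 1 / d) ^ (2 * α) := by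
        rw [← Real.mul_rpow hxpos.le (hBpos 1 zero_le_one).le]
        refine Real.rpow_le_rpow (hBpos x hx).le ?_ (by linarith)
        have : x * (1 + 1 / d) = x + x / d := by ring
        rw [this]
        linarith
      have hxe : x ^ (2 * α) ≤ Real.exp x * (2 * α + 1) ^ (2 * α) := by
        have hk : 0 < 2 * α + 1 := by linarith
        rw [Real.rpow_def_of_pos hxpos, Real.rpow_def_of_pos hk, ← Real.exp_add]
        refine Real.exp_le_exp.mpr ?_
        have h7 := Real.log_le_sub_one_of_pos (div_pos hxpos hk)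
        rw [Real.log_div hxpos.ne' hk.ne'] at h7
        have h8 : Real.log x ≤ Real.log (2 * α + 1) + x / (2 * α + 1) := by linarith
        have h9 := mul_le_mul_of_nonneg_right h8 (show 0 ≤ 2 * α by linarith)
        have h10 : x / (2 * α + 1) * (2 * α) ≤ x := by
          rw [div_mul_eq_mul_div, div_le_iff₀ hk]
          nlinarith
        linarith
      rw [Real.rpow_neg (hBpos x hx).le, ← div_eq_mul_inv, le_div_iff₀ hBx]
      rw [Real.rpow_neg (hBpos 1 zero_le_one).le, ← div_eq_mul_inv, le_div_iff₀ hB1] at h3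
      have hex : 0 < Real.exp x := Real.exp_pos _
      have h11 : ‖u x‖ * (1 + x / d) ^ (2 * α) * Real.exp x ≤
          Real.exp (6 * α + 3) * (2 * α + 1) ^ (2 * α) * ‖u 0‖ * Real.exp x := by
        calc ‖u x‖ * (1 + x / d) ^ (2 * α) * Real.exp x
            = (‖u x‖ * Real.exp x) * (1 + x / d) ^ (2 * α) := by ring
          _ ≤ (‖u 1‖ * Real.exp 3) * (1 + x / d) ^ (2 * α) :=
              mul_le_mul_of_nonneg_right h6 hBx.le
          _ ≤ (‖u 1‖ * Real.exp 3) * (x ^ (2 * α) * (1 + 1 / d) ^ (2 * α)) :=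
              mul_le_mul_of_nonneg_left hcomp (by positivity)
          _ = (‖u 1‖ * (1 + 1 / d) ^ (2 * α)) * (Real.exp 3 * x ^ (2 * α)) := by ring
          _ ≤ (Real.exp (6 * α) * ‖u 0‖) * (Real.exp 3 * x ^ (2 * α)) :=
              mul_le_mul_of_nonneg_right h3 (by positivity)
          _ ≤ (Real.exp (6 * α) * ‖u 0‖) * (Real.exp 3 *
                (Real.exp x * (2 * α + 1) ^ (2 * α))) :=
              mul_le_mul_of_nonneg_left
                (mul_le_mul_of_nonneg_left hxe (Real.exp_pos _).le) (by positivity)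
          _ = _ := by
            rw [Real.exp_add]
            ring
      exact le_of_mul_le_mul_right h11 hex
    · have e1 : HasDerivAt (fun t : ℝ => Real.exp (-t)) (-Real.exp (-t)) t := by
        simpa using (hasDerivAt_neg t).exp
      refine ((hasDerivAt_id t).add (e1.const_mul 2)).congr_deriv ?_
      ring

end Pool.Agent.MultS

end

section

/-!
# E1: growth of the derivative
-/

set_option autoImplicit false

open Complex Metric Set Filter Topology MeasureTheory Finset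

namespace Pool.Agent.MultS

namespace E1

variable {h : ℂ → ℂ}

lemma mem_ball' {r : ℝ} {y : ℂ} (hy : ‖y‖ = 1) (hr0 : 0 ≤ r) (hr : r < 1) :
    (r : ℂ) * y ∈ ball (0 : ℂ) 1 := by
  rw [mem_ball_zero_iff, norm_mul, Complex.norm_real, hy, mul_one, Real.norm_of_nonneg hr0]
  exact hr

/-- Derivative of `F` along a radius. -/
lemma hasDerivAt_ray (hh : Sc h) {y : ℂ} (hy : ‖y‖ = 1) {r : ℝ} (hr0 : 0 < r) (hr : r < 1) :
    HasDerivAt (fun r : ℝ => FF h ((r : ℂ) * y)) (FF h ((r : ℂ) * y) * PP h ((r : ℂ) * y) / r)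
      r := by
  have hz := mem_ball' hy hr0.le hr
  have hd1 : DifferentiableOn ℂ (deriv h) (ball 0 1) := hh.1.deriv isOpen_ball
  have h1 : HasDerivAt (deriv h) (deriv (deriv h) ((r : ℂ) * y)) ((r : ℂ) * y) :=
    (hd1.differentiableAt (isOpen_ball.mem_nhds hz)).hasDerivAt
  have h2 : HasDerivAt (fun z : ℂ => z * deriv h z)
      (1 * deriv h ((r : ℂ) * y) + (r : ℂ) * y * deriv (deriv h) ((r : ℂ) * y)) ((r : ℂ) * y) :=
    (hasDerivAt_id _).mul h1
  have h3 : HasDerivAt (fun r : ℝ => (r : ℂ) * y) (1 * y) r :=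
    (Complex.ofRealCLM.hasDerivAt (x := r)).mul_const y
  have h4 := h2.comp r h3
  have hne : deriv h ((r : ℂ) * y) ≠ 0 :=
    prfDerNe _ h isOpen_ball hh.1 hh.2.1 _ hz
  have hrc : (r : ℂ) ≠ 0 := by exact_mod_cast hr0.ne'
  refine h4.congr_deriv ?_
  unfold FF PP
  field_simp

/-- The growth estimate along a radius. -/
lemma antitone_ray (hh : Sc h) {β r1 : ℝ} (hβ : 0 < β) (hr1 : 1 / 2 ≤ r1) (hr2 : r1 < 1)
    (hP : ∀ z ∈ ball (0 : ℂ) 1, r1 ≤ ‖z‖ → (PP h z).re ≤ β / 2 / (1 - ‖z‖)) {y : ℂ}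
    (hy : ‖y‖ = 1) : AntitoneOn (fun r : ℝ => ‖FF h ((r : ℂ) * y)‖ ^ 2 * (1 - r) ^ (2 * β))
      (Ico r1 1) := by
  have hd : ∀ r ∈ Ico r1 1, HasDerivAt (fun r : ℝ => ‖FF h ((r : ℂ) * y)‖ ^ 2 *
      (1 - r) ^ (2 * β))
      (2 * ‖FF h ((r : ℂ) * y)‖ ^ 2 * (1 - r) ^ (2 * β) *
        ((PP h ((r : ℂ) * y)).re / r - β / (1 - r))) r := by
    intro r hr
    have hr0 : 0 < r := by linarith [hr.1]
    have hr' : 0 < 1 - r := by linarith [hr.2]
    have h1 := (hasDerivAt_ray hh hy hr0 hr.2).norm_sq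
    have h2 : HasDerivAt (fun r : ℝ => (1 - r) ^ (2 * β))
        (-1 * (2 * β) * (1 - r) ^ (2 * β - 1)) r :=
      ((hasDerivAt_id r).const_sub 1).rpow_const (Or.inl hr'.ne')
    refine (h1.mul h2).congr_deriv ?_
    rw [Real.rpow_sub_one hr'.ne']
    have h3 : inner ℝ (FF h ((r : ℂ) * y)) (FF h ((r : ℂ) * y) * PP h ((r : ℂ) * y) / (r : ℂ)) =
        ‖FF h ((r : ℂ) * y)‖ ^ 2 * ((PP h ((r : ℂ) * y)).re / r) := by
      rw [Complex.inner]
      have h4 : (starRingEnd ℂ) (FF h ((r : ℂ) * y)) *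
          (FF h ((r : ℂ) * y) * PP h ((r : ℂ) * y) / (r : ℂ)) =
          ((‖FF h ((r : ℂ) * y)‖ ^ 2 / r : ℝ) : ℂ) * PP h ((r : ℂ) * y) := by
        rw [← mul_div_assoc, ← mul_assoc, Complex.conj_mul']
        push_cast
        ring
      rw [mul_comm] at h4
      first
        | rw [h4, Complex.re_ofReal_mul]
        | (rw [mul_comm, h4, Complex.re_ofReal_mul])
      ring
    rw [h3]
    field_simp
    ring
  refine antitoneOn_of_deriv_nonpos (convex_Ico r1 1) ?_ ?_ ?_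
  · exact fun r hr => (hd r hr).continuousAt.continuousWithinAt
  · intro r hr
    rw [interior_Ico] at hr
    exact (hd r ⟨hr.1.le, hr.2⟩).differentiableAt.differentiableWithinAt
  · intro r hr
    rw [interior_Ico] at hr
    rw [(hd r ⟨hr.1.le, hr.2⟩).deriv]
    have hr0 : 0 < r := by linarith [hr.1]
    have hr' : 0 < 1 - r := by linarith [hr.2]
    refine mul_nonpos_of_nonneg_of_nonpos (by positivity) ?_
    have h1 := hP _ (mem_ball' hy hr0.le hr.2) (by
      rw [norm_mul, Complex.norm_real, hy, mul_one, Real.norm_of_nonneg hr0.le]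
      exact hr.1.le)
    rw [norm_mul, Complex.norm_real, hy, mul_one, Real.norm_of_nonneg hr0.le] at h1
    have h2 : (PP h ((r : ℂ) * y)).re / r ≤ β / 2 / (1 - r) / r :=
      div_le_div_of_nonneg_right h1 hr0.le
    have h3 : β / 2 / (1 - r) / r ≤ β / (1 - r) := by
      rw [div_div, div_div, div_le_div_iff₀ (by positivity) (by positivity)]
      have : 1 / 2 ≤ r := by linarith [hr.1]
      nlinarith [mul_pos hβ hr']
    linarith

end E1

/-- E1. -/
theorem prfGrow : Grow := by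
  intro h hh hP β hβ
  obtain ⟨r0, hr0, hr0', hP0⟩ := hP (β / 2) (by positivity)
  set r1 : ℝ := max r0 (1 / 2) with hr1
  have hr1a : 1 / 2 ≤ r1 := le_max_right _ _
  have hr1b : r1 < 1 := max_lt hr0' (by norm_num)
  have hP1 : ∀ z ∈ ball (0 : ℂ) 1, r1 ≤ ‖z‖ → (PP h z).re ≤ β / 2 / (1 - ‖z‖) :=
    fun z hz hz' => hP0 z hz ((le_max_left _ _).trans hz')
  -- bound on the compact ball
  have hd1 : DifferentiableOn ℂ (deriv h) (ball 0 1) := hh.1.deriv isOpen_ball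
  have hsub : closedBall (0 : ℂ) r1 ⊆ ball 0 1 := closedBall_subset_ball hr1b
  obtain ⟨M, hM⟩ := (isCompact_closedBall (0 : ℂ) r1).exists_bound_of_continuousOn
    (hd1.continuousOn.mono hsub)
  have hM0 : 0 ≤ M := (norm_nonneg _).trans
    (hM 0 (mem_closedBall_self (by linarith)))
  refine ⟨2 * M, fun z hz => ?_⟩
  have hz1 : ‖z‖ < 1 := by simpa using hz
  have hz2 : 0 < 1 - ‖z‖ := by linarith
  have hone : 1 ≤ (1 - ‖z‖) ^ (-β) :=
    Real.one_le_rpow_of_pos_of_le_one_of_nonpos hz2 (by linarith [norm_nonneg z]) (by linarith)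
  rcases le_or_gt ‖z‖ r1 with hc | hc
  · have h1 := hM z (by simpa using hc)
    nlinarith
  · have hz0 : 0 < ‖z‖ := by linarith
    set y : ℂ := z / (‖z‖ : ℂ) with hy
    have hzc : (‖z‖ : ℂ) ≠ 0 := by exact_mod_cast hz0.ne'
    have hy1 : ‖y‖ = 1 := by
      rw [hy, norm_div, Complex.norm_real, norm_norm, div_self hz0.ne']
    have hzy : (‖z‖ : ℂ) * y = z := by
      rw [hy]
      field_simp
    have h1 := E1.antitone_ray hh hβ hr1a hr1b hP1 hy1 ⟨le_rfl, hr1b⟩ ⟨hc.le, hz1⟩ hc.le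
    simp only at h1
    rw [hzy] at h1
    have h2 : ‖FF h ((r1 : ℂ) * y)‖ ≤ M := by
      unfold FF
      rw [norm_mul]
      have h3 : ‖(r1 : ℂ) * y‖ ≤ 1 := by
        rw [norm_mul, Complex.norm_real, hy1, mul_one, Real.norm_of_nonneg (by linarith)]
        exact hr1b.le
      have h4 : ‖deriv h ((r1 : ℂ) * y)‖ ≤ M := by
        apply hM
        rw [mem_closedBall_zero_iff, norm_mul, Complex.norm_real, hy1, mul_one,
          Real.norm_of_nonneg (by linarith)]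
      nlinarith [norm_nonneg ((r1 : ℂ) * y), norm_nonneg (deriv h ((r1 : ℂ) * y))]
    have h5 : ‖FF h ((r1 : ℂ) * y)‖ ^ 2 * (1 - r1) ^ (2 * β) ≤ M ^ 2 := by
      have h6 : (1 - r1) ^ (2 * β) ≤ 1 :=
        Real.rpow_le_one (by linarith) (by linarith) (by linarith)
      have h7 : ‖FF h ((r1 : ℂ) * y)‖ ^ 2 ≤ M ^ 2 := pow_le_pow_left₀ (norm_nonneg _) h2 2
      calc _ ≤ M ^ 2 * 1 := mul_le_mul h7 h6 (Real.rpow_nonneg (by linarith) _) (by positivity)
        _ = M ^ 2 := mul_one _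
    have h8 : (‖FF h z‖ * (1 - ‖z‖) ^ β) ^ 2 ≤ M ^ 2 := by
      rw [mul_pow, ← Real.rpow_natCast ((1 - ‖z‖) ^ β) 2, ← Real.rpow_mul hz2.le]
      refine le_trans (le_of_eq ?_) (h1.trans h5)
      congr 2
      push_cast
      ring
    have h9 : ‖FF h z‖ * (1 - ‖z‖) ^ β ≤ M :=
      (pow_le_pow_iff_left₀ (by positivity) hM0 (by norm_num)).1 h8
    have h10 : ‖FF h z‖ ≤ M * (1 - ‖z‖) ^ (-β) := by
      rw [Real.rpow_neg hz2.le, ← div_eq_mul_inv, le_div_iff₀ (Real.rpow_pos_of_pos hz2 _)]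
      exact h9
    have h11 : ‖FF h z‖ = ‖z‖ * ‖deriv h z‖ := by unfold FF; rw [norm_mul]
    have h12 : 1 / 2 ≤ ‖z‖ := by linarith
    nlinarith [norm_nonneg (deriv h z)]

end Pool.Agent.MultS

end

section

set_option autoImplicit false

open Complex Metric Set Filter Topology Finset

namespace Pool.Agent.MultS

theorem prfRotOne : RotOne := by
  intro lam h hG hPP n hn
  obtain ⟨⟨hd, hi, h0, h1⟩, hl⟩ := hG
  rw [← hl n hn]
  have hsub : ∀ z ∈ ball (0 : ℂ) 1, 1 - z ≠ 0 := by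
    intro z hz hc
    rw [mem_ball_zero_iff] at hz
    have : z = 1 := by linear_combination -hc
    rw [this] at hz
    simp at hz
  have hd1 : DifferentiableOn ℂ (deriv h) (ball 0 1) := hd.deriv isOpen_ball
  have hd2 : DifferentiableOn ℂ (deriv (deriv h)) (ball 0 1) := hd1.deriv isOpen_ball
  have hne : ∀ z ∈ ball (0 : ℂ) 1, deriv h z ≠ 0 := prfDerNe _ _ isOpen_ball hd hi
  -- the differential equation off the origin
  have ode1 : ∀ z ∈ ball (0 : ℂ) 1, z ≠ 0 → (1 - z) * deriv (deriv h) z = 2 * deriv h z := by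
    intro z hz hz0
    have e := hPP z hz
    unfold PP at e
    have e1 := hne z hz
    have e2 := hsub z hz
    field_simp at e
    have e3 : z * ((1 - z) * deriv (deriv h) z - 2 * deriv h z) = 0 := by linear_combination e
    rcases mul_eq_zero.mp e3 with e4 | e4
    · exact absurd e4 hz0
    · exact sub_eq_zero.mp e4
  have ode : ∀ z ∈ ball (0 : ℂ) 1, (1 - z) * deriv (deriv h) z = 2 * deriv h z := by
    intro z hz
    by_cases hz0 : z = 0
    · subst hz0
      have hnhds : ball (0 : ℂ) 1 ∈ 𝓝 (0 : ℂ) := isOpen_ball.mem_nhds hz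
      have c1 : ContinuousAt (fun z => (1 - z) * deriv (deriv h) z) 0 :=
        (by fun_prop : ContinuousAt (fun z : ℂ => 1 - z) 0).mul
          (hd2.continuousOn.continuousAt hnhds)
      have c2 : ContinuousAt (fun z => 2 * deriv h z) 0 :=
        continuousAt_const.mul (hd1.continuousOn.continuousAt hnhds)
      have t1 : Tendsto (fun z => (1 - z) * deriv (deriv h) z) (𝓝[≠] (0 : ℂ))
        (𝓝 ((1 - 0) * deriv (deriv h) 0)) := c1.tendsto.mono_left nhdsWithin_le_nhds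
      have t2 : Tendsto (fun z => 2 * deriv h z) (𝓝[≠] (0 : ℂ))
        (𝓝 (2 * deriv h 0)) := c2.tendsto.mono_left nhdsWithin_le_nhds
      refine tendsto_nhds_unique (t1.congr' ?_) t2
      have a1 : ∀ᶠ z in 𝓝[≠] (0 : ℂ), z ∈ ball (0 : ℂ) 1 := nhdsWithin_le_nhds hnhds
      filter_upwards [a1, self_mem_nhdsWithin] with z b1 b2 using ode1 z b1 b2
    · exact ode1 z hz hz0
  -- `(1 - z)^2 h'` is constant
  have hder : ∀ z ∈ ball (0 : ℂ) 1, deriv h z = 1 / (1 - z) ^ 2 := by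
    intro z hz
    have hU : DifferentiableOn ℂ (fun z => (1 - z) ^ 2 * deriv h z) (ball 0 1) :=
      (by fun_prop : DifferentiableOn ℂ (fun z : ℂ => (1 - z) ^ 2) (ball 0 1)).mul hd1
    have hU' : (ball (0 : ℂ) 1).EqOn (deriv (fun z => (1 - z) ^ 2 * deriv h z)) 0 := by
      intro w hw
      have b1 : HasDerivAt (fun z : ℂ => (1 - z) ^ 2) (2 * (1 - w) * (-1)) w := by
        have := ((hasDerivAt_id' w).const_sub 1).fun_pow 2
        simpa using this
      have b2 : HasDerivAt (deriv h) (deriv (deriv h) w) w :=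
        ((hd1 w hw).differentiableAt (isOpen_ball.mem_nhds hw)).hasDerivAt
      rw [(b1.fun_mul b2).deriv]
      have := ode w hw
      simp only [Pi.zero_apply]
      linear_combination (1 - w) * this
    have hz0 : (0 : ℂ) ∈ ball (0 : ℂ) 1 := by simp
    have := isOpen_ball.is_const_of_deriv_eq_zero (convex_ball (0 : ℂ) 1).isPreconnected hU hU'
      hz hz0
    simp only [sub_zero, one_pow, one_mul, h1] at this
    have e2 := hsub z hz
    field_simp
    linear_combination this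
  -- `h = z / (1 - z)`
  have hh : ∀ z ∈ ball (0 : ℂ) 1, h z = z / (1 - z) := by
    have hq : DifferentiableOn ℂ (fun z : ℂ => z / (1 - z)) (ball 0 1) :=
      DifferentiableOn.div (by fun_prop) (by fun_prop) hsub
    have hz0 : (0 : ℂ) ∈ ball (0 : ℂ) 1 := by simp
    refine isOpen_ball.eqOn_of_deriv_eq (convex_ball (0 : ℂ) 1).isPreconnected hd hq ?_ hz0
      (by simp [h0])
    intro w hw
    have e2 := hsub w hw
    have b1 : HasDerivAt (fun z : ℂ => z / (1 - z)) ((1 * (1 - w) - w * (-1)) / (1 - w) ^ 2) w := by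
      have := (hasDerivAt_id' w).fun_div ((hasDerivAt_id' w).const_sub 1) e2
      simpa using this
    rw [b1.deriv, hder w hw]
    congr 1
    ring
  apply tc_of_hasSum_succ (c := fun _ => 1) _ n hn
  intro z hz
  rw [mem_ball_zero_iff] at hz
  have := (hasSum_geometric_of_norm_lt_one hz).mul_left z
  rw [hh z (by rwa [mem_ball_zero_iff]), div_eq_mul_inv]
  have e : (fun n : ℕ => (fun _ : ℕ => (1 : ℂ)) (n + 1) * z ^ (n + 1)) = fun i => z * z ^ i := by
    funext i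
    simp only [one_mul]
    rw [pow_succ]; ring
  rw [e]
  exact this

end Pool.Agent.MultS

end

section

/-!
# F1: a lower bound for `J(-p, .)`
-/

set_option autoImplicit false

open Complex Metric Set Filter Topology MeasureTheory Finset

namespace Pool.Agent.MultS

namespace F1

/-- The value at `0`. -/
lemma JJ_zero {lam : ℕ → ℂ} {h : ℂ → ℂ} (hG : Gen lam h) : JJ lam 0 0 = 1 := by
  unfold JJ
  rw [tsum_eq_single 0]
  · have h1 := hG.2 1 le_rfl
    have h2 := hG.1.2.2.2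
    unfold tc at h1
    rw [iteratedDeriv_one, h2] at h1
    simp only [Nat.factorial_one, Nat.cast_one, div_one] at h1
    simp [cf, ← h1]
  · intro k hk
    rw [zero_pow hk, mul_zero]

/-- Lower bound for `J(0, .)`. -/
lemma lower0 (hder : HDer) {lam : ℕ → ℂ} {h : ℂ → ℂ} (hG : Gen lam h) :
    ∃ c : ℝ, 0 < c ∧ ∀ z ∈ ball (0 : ℂ) 1, c ≤ ‖JJ lam 0 z‖ := by
  obtain ⟨hd, hi, h0, h1⟩ := hG.1
  have hz0 : (0 : ℂ) ∈ ball (0 : ℂ) 1 := mem_ball_self one_pos
  have hda : DifferentiableAt ℂ h 0 := hd.differentiableAt (isOpen_ball.mem_nhds hz0)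
  have hJ : ∀ z ∈ ball (0 : ℂ) 1, JJ lam 0 z = dslope h 0 z := by
    intro z hz
    by_cases hz' : z = 0
    · rw [hz', JJ_zero hG, dslope_same, h1]
    · rw [dslope_of_ne _ hz', slope_def_field, h0, sub_zero, sub_zero,
        ← (hder lam h hG z hz).2]
      field_simp
  -- far from zero
  obtain ⟨c1, hc1, hfar⟩ : ∃ c : ℝ, 0 < c ∧ ∀ z ∈ ball (0 : ℂ) 1, 1 / 2 ≤ ‖z‖ → c ≤ ‖h z‖ := by
    have hs : HasStrictDerivAt h (deriv h 0) 0 :=
      (hd.analyticAt (isOpen_ball.mem_nhds hz0)).hasStrictDerivAt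
    have hm := hs.map_nhds_eq (by rw [h1]; exact one_ne_zero)
    rw [h0] at hm
    have h2 : h '' ball (0 : ℂ) (1 / 2) ∈ 𝓝 (0 : ℂ) := by
      rw [← hm]
      exact image_mem_map (ball_mem_nhds _ (by norm_num))
    obtain ⟨c, hc, hc'⟩ := Metric.mem_nhds_iff.1 h2
    refine ⟨c, hc, fun z hz hz' => ?_⟩
    by_contra hcon
    obtain ⟨w, hw, hwz⟩ := hc' (show h z ∈ ball (0 : ℂ) c by
      rw [mem_ball_zero_iff]; exact not_le.1 hcon)
    have hw' : w ∈ ball (0 : ℂ) 1 := ball_subset_ball (by norm_num) hw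
    have : w = z := hi hw' hz hwz
    rw [this, mem_ball_zero_iff] at hw
    linarith
  -- near zero
  obtain ⟨c2, hc2, hnear⟩ : ∃ c : ℝ, 0 < c ∧ ∀ z ∈ closedBall (0 : ℂ) (1 / 2),
      c ≤ ‖dslope h 0 z‖ := by
    have hcont : ContinuousOn (dslope h 0) (ball 0 1) :=
      (continuousOn_dslope (isOpen_ball.mem_nhds hz0)).2 ⟨hd.continuousOn, hda⟩
    have hsub : closedBall (0 : ℂ) (1 / 2) ⊆ ball 0 1 := closedBall_subset_ball (by norm_num)
    obtain ⟨w, hw, hw'⟩ := (isCompact_closedBall (0 : ℂ) (1 / 2)).exists_isMinOn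
      ⟨0, mem_closedBall_self (by norm_num)⟩ ((hcont.mono hsub).norm)
    refine ⟨‖dslope h 0 w‖, ?_, fun z hz => hw' hz⟩
    rw [norm_pos_iff]
    by_cases hw0 : w = 0
    · rw [hw0, dslope_same, h1]
      exact one_ne_zero
    · rw [dslope_of_ne _ hw0, slope_def_field, h0, sub_zero, sub_zero]
      refine div_ne_zero (fun hc => hw0 ?_) hw0
      exact hi (hsub hw) hz0 (hc.trans h0.symm)
  refine ⟨min c1 c2, lt_min hc1 hc2, fun z hz => ?_⟩
  rcases le_or_gt (1 / 2) ‖z‖ with hc | hc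
  · have h2 := hfar z hz hc
    have h3 : ‖h z‖ = ‖z‖ * ‖JJ lam 0 z‖ := by rw [← (hder lam h hG z hz).2, norm_mul]
    have h4 : ‖z‖ < 1 := by simpa using hz
    have h5 : ‖z‖ * ‖JJ lam 0 z‖ ≤ 1 * ‖JJ lam 0 z‖ :=
      mul_le_mul_of_nonneg_right h4.le (norm_nonneg _)
    exact (min_le_left _ _).trans (by linarith)
  · rw [hJ z hz]
    exact (min_le_right _ _).trans (hnear z (by rw [mem_closedBall_zero_iff]; exact hc.le))

/-- The Gamma factor. -/
noncomputable def gc (p : ℝ) : ℂ := (Gamma (1 - ((-p : ℝ) : ℂ)) * Gamma (1 + ((-p : ℝ) : ℂ)))⁻¹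

lemma gc_tendsto : Tendsto gc (𝓝[>] (0 : ℝ)) (𝓝 1) := by
  have h1 : ContinuousAt gc 0 := by
    unfold gc
    have hG : ContinuousAt Gamma (1 : ℂ) := by
      refine (differentiableAt_Gamma 1 fun m hm => ?_).continuousAt
      have := congrArg Complex.re hm
      simp at this
      have h3 : (0 : ℝ) ≤ m := Nat.cast_nonneg m
      linarith
    have ha : ContinuousAt (fun p : ℝ => Gamma (1 - ((-p : ℝ) : ℂ))) 0 := by
      have h2 : ContinuousAt (fun p : ℝ => (1 - ((-p : ℝ) : ℂ) : ℂ)) 0 := by fun_prop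
      refine ContinuousAt.comp (g := Gamma) ?_ h2
      simpa using hG
    have hb : ContinuousAt (fun p : ℝ => Gamma (1 + ((-p : ℝ) : ℂ))) 0 := by
      have h2 : ContinuousAt (fun p : ℝ => (1 + ((-p : ℝ) : ℂ) : ℂ)) 0 := by fun_prop
      refine ContinuousAt.comp (g := Gamma) ?_ h2
      simpa using hG
    refine (ha.mul hb).inv₀ ?_
    simp
  have h2 := h1.tendsto
  have h3 : gc 0 = 1 := by simp [gc]
  rw [h3] at h2
  exact h2.mono_left nhdsWithin_le_nhds

/-- The integrand of the error. -/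
noncomputable def err (p t : ℝ) : ℝ :=
  (1 - t) ^ (-(1 / 8 : ℝ)) * ‖gc p * ((t : ℂ) ^ (-((-p : ℝ) : ℂ)) *
    ((1 - t : ℝ) : ℂ) ^ ((-p : ℝ) : ℂ)) - 1‖

lemma cont_pow {p : ℝ} : ContinuousOn (fun t : ℝ => (t : ℂ) ^ (-((-p : ℝ) : ℂ)) *
    ((1 - t : ℝ) : ℂ) ^ ((-p : ℝ) : ℂ)) (Ioo (0 : ℝ) 1) := by
  refine ContinuousOn.mul ?_ ?_
  · refine ContinuousOn.cpow_const (by fun_prop) fun t ht => ?_
    exact Or.inl (by simpa using ht.1)
  · refine ContinuousOn.cpow_const (by fun_prop) fun t ht => ?_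
    refine Or.inl ?_
    rw [ofReal_re]
    linarith [ht.2]

lemma err_meas (p : ℝ) : AEStronglyMeasurable (err p) (volume.restrict (Ioo (0 : ℝ) 1)) := by
  refine ContinuousOn.aestronglyMeasurable ?_ measurableSet_Ioo
  unfold err
  refine ContinuousOn.mul ?_ ?_
  · refine ContinuousOn.rpow_const (by fun_prop) fun t ht => ?_
    exact Or.inl (by have := ht.2; intro hc; linarith)
  · exact ((continuousOn_const.mul cont_pow).sub continuousOn_const).norm

lemma err_bound {p t : ℝ} (hp : 0 < p) (hp' : p ≤ 1 / 8) (hg : ‖gc p‖ ≤ 2)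
    (ht : t ∈ Ioo (0 : ℝ) 1) : ‖err p t‖ ≤ 3 * (1 - t) ^ (-(1 / 4 : ℝ)) := by
  have h0 : 0 < 1 - t := by linarith [ht.2]
  have h1 : ‖(t : ℂ) ^ (-((-p : ℝ) : ℂ)) * ((1 - t : ℝ) : ℂ) ^ ((-p : ℝ) : ℂ)‖ ≤
      (1 - t) ^ (-(1 / 8 : ℝ)) := by
    rw [F2.norm_pow_pow ht]
    have h3 : t ^ p ≤ 1 := Real.rpow_le_one ht.1.le ht.2.le hp.le
    have h4 : (1 - t) ^ (-p) ≤ (1 - t) ^ (-(1 / 8 : ℝ)) :=
      Real.rpow_le_rpow_of_exponent_ge h0 (by linarith [ht.1]) (by linarith)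
    calc t ^ p * (1 - t) ^ (-p) ≤ 1 * (1 - t) ^ (-(1 / 8 : ℝ)) :=
          mul_le_mul h3 h4 (Real.rpow_nonneg h0.le _) (by norm_num)
      _ = _ := one_mul _
  have h2 : 1 ≤ (1 - t) ^ (-(1 / 8 : ℝ)) :=
    Real.one_le_rpow_of_pos_of_le_one_of_nonpos h0 (by linarith [ht.1]) (by norm_num)
  have h3 : ‖gc p * ((t : ℂ) ^ (-((-p : ℝ) : ℂ)) * ((1 - t : ℝ) : ℂ) ^ ((-p : ℝ) : ℂ)) - 1‖ ≤
      3 * (1 - t) ^ (-(1 / 8 : ℝ)) := by
    refine (norm_sub_le _ _).trans ?_
    rw [norm_mul, norm_one]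
    nlinarith [norm_nonneg (gc p), norm_nonneg ((t : ℂ) ^ (-((-p : ℝ) : ℂ)) *
      ((1 - t : ℝ) : ℂ) ^ ((-p : ℝ) : ℂ))]
  unfold err
  rw [norm_mul, norm_norm, Real.norm_of_nonneg (Real.rpow_nonneg h0.le _)]
  calc (1 - t) ^ (-(1 / 8 : ℝ)) * _ ≤ (1 - t) ^ (-(1 / 8 : ℝ)) *
        (3 * (1 - t) ^ (-(1 / 8 : ℝ))) :=
        mul_le_mul_of_nonneg_left h3 (Real.rpow_nonneg h0.le _)
    _ = 3 * ((1 - t) ^ (-(1 / 8 : ℝ)) * (1 - t) ^ (-(1 / 8 : ℝ))) := by ring
    _ = 3 * (1 - t) ^ (-(1 / 4 : ℝ)) := by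
        rw [← Real.rpow_add h0]
        norm_num

lemma err_tendsto {t : ℝ} (ht : t ∈ Ioo (0 : ℝ) 1) :
    Tendsto (fun p => err p t) (𝓝[>] (0 : ℝ)) (𝓝 0) := by
  have h0 : 0 < 1 - t := by linarith [ht.2]
  have hc : ContinuousAt (fun p : ℝ => (t : ℂ) ^ (-((-p : ℝ) : ℂ)) *
      ((1 - t : ℝ) : ℂ) ^ ((-p : ℝ) : ℂ)) 0 := by
    refine ContinuousAt.mul ?_ ?_
    · refine ContinuousAt.const_cpow (by fun_prop) (Or.inl ?_)
      exact_mod_cast ht.1.ne'
    · refine ContinuousAt.const_cpow (by fun_prop) (Or.inl ?_)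
      exact_mod_cast h0.ne'
  have h1 : Tendsto (fun p : ℝ => (t : ℂ) ^ (-((-p : ℝ) : ℂ)) *
      ((1 - t : ℝ) : ℂ) ^ ((-p : ℝ) : ℂ)) (𝓝[>] (0 : ℝ)) (𝓝 1) := by
    have h2 := hc.tendsto
    simp only [neg_zero, ofReal_zero, cpow_zero, mul_one] at h2
    exact h2.mono_left nhdsWithin_le_nhds
  have h3 := (((gc_tendsto.mul h1).sub_const 1).norm).const_mul ((1 - t) ^ (-(1 / 8 : ℝ)))
  simp only [mul_one, sub_self, norm_zero, mul_zero] at h3
  exact h3

lemma err_int_tendsto :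
    Tendsto (fun p => ∫ t in Ioo (0 : ℝ) 1, err p t) (𝓝[>] (0 : ℝ)) (𝓝 0) := by
  have hg : ∀ᶠ p in 𝓝[>] (0 : ℝ), ‖gc p‖ ≤ 2 := by
    have h1 := gc_tendsto.norm
    rw [norm_one] at h1
    exact (h1.eventually (gt_mem_nhds (by norm_num : (1 : ℝ) < 2))).mono fun p hp => hp.le
  have hp : ∀ᶠ p in 𝓝[>] (0 : ℝ), 0 < p ∧ p ≤ 1 / 8 := by
    filter_upwards [Ioo_mem_nhdsGT (show (0 : ℝ) < 1 / 8 by norm_num)] with p hp
    exact ⟨hp.1, hp.2.le⟩
  have h := tendsto_integral_filter_of_dominated_convergence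
    (μ := volume.restrict (Ioo (0 : ℝ) 1)) (F := err) (f := fun _ => (0 : ℝ))
    (l := 𝓝[>] (0 : ℝ)) (fun t => 3 * (1 - t) ^ (-(1 / 4 : ℝ)))
    (Eventually.of_forall err_meas)
    (by
      filter_upwards [hg, hp] with p h1 h2
      exact (ae_restrict_iff' measurableSet_Ioo).2
        (Eventually.of_forall fun t ht => err_bound h2.1 h2.2 h1 ht))
    ((F2.integrable_one_sub _ (by norm_num)).const_mul 3)
    ((ae_restrict_iff' measurableSet_Ioo).2 (Eventually.of_forall fun t ht => err_tendsto ht))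
  simpa using h

end F1

/-- F1. -/
theorem prfLow (rep : Rep) (hder : HDer) : Low := by
  intro lam h hG hC
  obtain ⟨C, hC⟩ := hC
  obtain ⟨hC0, hb⟩ := F2.deriv_bound hC
  obtain ⟨c, hc, hlow⟩ := F1.lower0 hder hG
  have hg : ∀ᶠ p in 𝓝[>] (0 : ℝ), ‖F1.gc p‖ ≤ 2 := by
    have h1 := F1.gc_tendsto.norm
    rw [norm_one] at h1
    exact (h1.eventually (gt_mem_nhds (by norm_num : (1 : ℝ) < 2))).mono fun p hp => hp.le
  have hp : ∀ᶠ p in 𝓝[>] (0 : ℝ), 0 < p ∧ p ≤ 1 / 8 := by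
    filter_upwards [Ioo_mem_nhdsGT (show (0 : ℝ) < 1 / 8 by norm_num)] with p hp
    exact ⟨hp.1, hp.2.le⟩
  have he : ∀ᶠ p in 𝓝[>] (0 : ℝ), C * ∫ t in Ioo (0 : ℝ) 1, F1.err p t < c / 2 := by
    have h1 := F1.err_int_tendsto.const_mul C
    rw [mul_zero] at h1
    exact h1.eventually (gt_mem_nhds (by positivity))
  obtain ⟨p, ⟨hp0, hp1⟩, hg, he⟩ := (hp.and (hg.and he)).exists
  refine ⟨p, c / 2, hp0, hp1, by positivity, fun z hz => ?_⟩
  have hi : IntegrableOn (F1.err p) (Ioo (0 : ℝ) 1) :=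
    Integrable.mono' ((F2.integrable_one_sub (-(1 / 4)) (by norm_num)).const_mul 3)
      (F1.err_meas p) ((ae_restrict_iff' measurableSet_Ioo).2
        (Eventually.of_forall fun t ht => F1.err_bound hp0 hp1 hg ht))
  -- integrability of the two integrands
  have hdc : ContinuousOn (fun t : ℝ => deriv h ((t : ℂ) * z)) (Ioo (0 : ℝ) 1) := by
    have hd1 : ContinuousOn (deriv h) (ball 0 1) := (hG.1.1.deriv isOpen_ball).continuousOn
    refine hd1.comp (by fun_prop) fun t ht => ?_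
    rw [mem_ball_zero_iff, norm_mul, Complex.norm_real, Real.norm_of_nonneg ht.1.le]
    have hz' : ‖z‖ < 1 := by simpa using hz
    nlinarith [ht.1, ht.2, norm_nonneg z]
  have hi0 : IntegrableOn (fun t : ℝ => deriv h ((t : ℂ) * z)) (Ioo (0 : ℝ) 1) :=
    Integrable.mono' ((F2.integrable_one_sub (-(1 / 8)) (by norm_num)).const_mul C)
      (hdc.aestronglyMeasurable measurableSet_Ioo)
      ((ae_restrict_iff' measurableSet_Ioo).2 (Eventually.of_forall fun t ht => hb z hz t ht))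
  have hi1 : IntegrableOn (fun t : ℝ => deriv h ((t : ℂ) * z) * ((t : ℂ) ^ (-((-p : ℝ) : ℂ)) *
      ((1 - t : ℝ) : ℂ) ^ ((-p : ℝ) : ℂ))) (Ioo (0 : ℝ) 1) := by
    refine Integrable.mono' ((F2.integrable_one_sub (-(1 / 4)) (by norm_num)).const_mul C)
      ((hdc.mul F1.cont_pow).aestronglyMeasurable measurableSet_Ioo)
      ((ae_restrict_iff' measurableSet_Ioo).2 (Eventually.of_forall fun t ht => ?_))
    have h0 : 0 < 1 - t := by linarith [ht.2]
    rw [norm_mul, F2.norm_pow_pow ht]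
    have h3 : t ^ p ≤ 1 := Real.rpow_le_one ht.1.le ht.2.le hp0.le
    have h4 : (1 - t) ^ (-p) ≤ (1 - t) ^ (-(1 / 8 : ℝ)) :=
      Real.rpow_le_rpow_of_exponent_ge h0 (by linarith [ht.1]) (by linarith)
    have h5 : t ^ p * (1 - t) ^ (-p) ≤ (1 - t) ^ (-(1 / 8 : ℝ)) :=
      (mul_le_mul h3 h4 (Real.rpow_nonneg h0.le _) (by norm_num)).trans (le_of_eq (one_mul _))
    calc ‖deriv h ((t : ℂ) * z)‖ * (t ^ p * (1 - t) ^ (-p))
        ≤ (C * (1 - t) ^ (-(1 / 8 : ℝ))) * (1 - t) ^ (-(1 / 8 : ℝ)) :=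
          mul_le_mul (hb z hz t ht) h5 (mul_nonneg (Real.rpow_nonneg ht.1.le _)
            (Real.rpow_nonneg h0.le _)) (mul_nonneg hC0 (Real.rpow_nonneg h0.le _))
      _ = C * (1 - t) ^ (-(1 / 4 : ℝ)) := by
          rw [mul_assoc, ← Real.rpow_add h0]
          norm_num
  have r0 : JJ lam 0 z = ∫ t in Ioo (0 : ℝ) 1, deriv h ((t : ℂ) * z) := by
    have h1 := rep lam h hG 0 (by simp) (by simp) z hz
    rw [h1]
    simp
  have r1 := rep lam h hG ((-p : ℝ) : ℂ) (by rw [ofReal_re]; linarith)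
    (by rw [ofReal_re]; linarith) z hz
  have hdiff : JJ lam ((-p : ℝ) : ℂ) z - JJ lam 0 z = ∫ t in Ioo (0 : ℝ) 1,
      deriv h ((t : ℂ) * z) * (F1.gc p * ((t : ℂ) ^ (-((-p : ℝ) : ℂ)) *
        ((1 - t : ℝ) : ℂ) ^ ((-p : ℝ) : ℂ)) - 1) := by
    rw [r0, r1, ← integral_const_mul, ← integral_sub (hi1.const_mul _) hi0]
    refine integral_congr_ae (Eventually.of_forall fun t => ?_)
    simp only [F1.gc]
    ring
  have hnorm : ‖JJ lam ((-p : ℝ) : ℂ) z - JJ lam 0 z‖ ≤ C * ∫ t in Ioo (0 : ℝ) 1, F1.err p t := by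
    rw [hdiff, ← integral_const_mul]
    refine norm_integral_le_of_norm_le (hi.const_mul C) ?_
    refine (ae_restrict_iff' measurableSet_Ioo).2 (Eventually.of_forall fun t ht => ?_)
    rw [norm_mul]
    unfold F1.err
    refine le_trans (mul_le_mul_of_nonneg_right (hb z hz t ht) ?_) (le_of_eq (mul_assoc _ _ _))
    exact norm_nonneg _
  have h1 := hlow z hz
  have h2 : ‖JJ lam 0 z‖ ≤ ‖JJ lam ((-p : ℝ) : ℂ) z‖ + ‖JJ lam ((-p : ℝ) : ℂ) z - JJ lam 0 z‖ := by
    have h3 := norm_sub_le (JJ lam ((-p : ℝ) : ℂ) z) (JJ lam ((-p : ℝ) : ℂ) z - JJ lam 0 z)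
    rwa [sub_sub_cancel] at h3
  linarith

end Pool.Agent.MultS

end

section

/-!
# Coefficient multipliers of the class S: the final theorem from the modules
-/

set_option autoImplicit false

open Complex Metric Set Filter Topology MeasureTheory Finset

namespace Pool.Agent.MultS

/-- The dichotomy for the working form. -/
theorem mainMult (a1 : DerNe) (b4 : GenEx) (b5 : Conv) (b6 : MemQ) (b7 : NonN) (b8 : Rot)
    (c0 : PPan) (c2 : Jul) (c3 : JLim) (c4 : JOne) (c5 : Unif) (d4 : Dom) (d5 : Psi) (d6 : DLim)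
    (d7 : DBlow) (d8 : NonInj) (e1 : Grow) (e2 : RotOne) (f1 : Low) (f2 : Start) (w2 : Climb)
    (g3 : Fin2) {lam : ℕ → ℂ} (hm : IsMult lam) :
    (∃ x : ℂ, ‖x‖ = 1 ∧ ∀ n : ℕ, 1 ≤ n → lam n = x ^ (n - 1)) ∨
    ∃ C : ℝ, ∀ z ∈ ball (0 : ℂ) 1, Summable (fun n : ℕ => (n : ℂ) ^ 2 * lam n * z ^ n) ∧
      ‖∑' n : ℕ, (n : ℂ) ^ 2 * lam n * z ^ n‖ ≤ C := by
  obtain ⟨h, hg⟩ := b4 lam hm
  rcases mainJ a1 b5 b6 b7 b8 c0 c2 c3 c4 c5 d4 d5 d6 d7 d8 e1 e2 f1 f2 w2 hm hg with h1 | h1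
  · exact Or.inl h1
  right
  obtain ⟨C1, hC1⟩ := h1 1 (by norm_num) (by norm_num)
  obtain ⟨C2, hC2⟩ := h1 2 (by norm_num) le_rfl
  refine ⟨3 * max C1 C2, g3 lam h (max C1 C2) hg fun z hz => ⟨?_, ?_⟩⟩
  · have := hC1 z hz
    have e : ((-1 : ℝ) : ℂ) = -1 := by norm_num
    rw [e] at this
    exact this.trans (le_max_left _ _)
  · have := hC2 z hz
    have e : ((-2 : ℝ) : ℂ) = -2 := by norm_num
    rw [e] at this
    exact this.trans (le_max_right _ _)

/-- Square summability from boundedness. -/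
theorem sqSum (g4 : Pars) {lam : ℕ → ℂ} {C : ℝ}
    (h : ∀ z ∈ ball (0 : ℂ) 1, Summable (fun n : ℕ => (n : ℂ) ^ 2 * lam n * z ^ n) ∧
      ‖∑' n : ℕ, (n : ℂ) ^ 2 * lam n * z ^ n‖ ≤ C) :
    Summable (fun n : ℕ => (n : ℝ) ^ 4 * ‖lam n‖ ^ 2) := by
  refine (g4 (fun n => (n : ℂ) ^ 2 * lam n) C h).congr fun n => ?_
  rw [norm_mul, norm_pow, Complex.norm_natCast]
  ring

/-- The final theorem. -/
theorem final (a1 : DerNe) (b4 : GenEx) (b5 : Conv) (b6 : MemQ) (b7 : NonN) (b8 : Rot)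
    (c0 : PPan) (c2 : Jul) (c3 : JLim) (c4 : JOne) (c5 : Unif) (d4 : Dom) (d5 : Psi) (d6 : DLim)
    (d7 : DBlow) (d8 : NonInj) (e1 : Grow) (e2 : RotOne) (f1 : Low) (f2 : Start) (w2 : Climb)
    (g1 : LitMult) (g2 : LitZero) (g3 : Fin2) (g4 : Pars) (g5 : Nonneg) :
    (∀ lam : ℕ → ℂ, Lit Sc lam →
      (∃ x : ℂ, ‖x‖ = 1 ∧ ∀ n : ℕ, 1 ≤ n → lam n = x ^ (n - 1)) ∨
      ((∃ C : ℝ, ∀ z ∈ ball (0 : ℂ) 1, Summable (fun n : ℕ => (n : ℂ) ^ 2 * lam n * z ^ n) ∧
        ‖∑' n : ℕ, (n : ℂ) ^ 2 * lam n * z ^ n‖ ≤ C) ∧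
        Summable (fun n : ℕ => (n : ℝ) ^ 4 * ‖lam n‖ ^ 2))) ∧
    (∀ lam : ℕ → ℂ, Lit S0 lam →
      (∃ c x : ℂ, c ≠ 0 ∧ ‖x‖ = 1 ∧ ∀ n : ℕ, 1 ≤ n → lam n = c * x ^ (n - 1)) ∨
      ((∃ C : ℝ, ∀ z ∈ ball (0 : ℂ) 1, Summable (fun n : ℕ => (n : ℂ) ^ 2 * lam n * z ^ n) ∧
        ‖∑' n : ℕ, (n : ℂ) ^ 2 * lam n * z ^ n‖ ≤ C) ∧
        Summable (fun n : ℕ => (n : ℝ) ^ 4 * ‖lam n‖ ^ 2))) ∧
    (∀ lam : ℕ → ℝ, (∀ n, 0 ≤ lam n) → Lit Sc (fun n => (lam n : ℂ)) →
      (∀ n : ℕ, 1 ≤ n → lam n = 1) ∨ Summable (fun n : ℕ => (n : ℝ) ^ 2 * lam n)) := by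
  have key := fun lam hm => mainMult a1 b4 b5 b6 b7 b8 c0 c2 c3 c4 c5 d4 d5 d6 d7 d8 e1 e2 f1 f2
    w2 g3 (lam := lam) hm
  refine ⟨fun lam hl => ?_, fun lam hl => ?_, fun lam h0 hl => ?_⟩
  · rcases key lam (g1 lam hl) with h | ⟨C, h⟩
    · exact Or.inl h
    · exact Or.inr ⟨⟨C, h⟩, sqSum g4 h⟩
  · obtain ⟨hl1, hm⟩ := g2 lam hl
    rcases key _ hm with ⟨x, hx, h⟩ | ⟨C, h⟩
    · refine Or.inl ⟨lam 1, x, hl1, hx, fun n hn => ?_⟩
      rw [← h n hn, mul_div_cancel₀ _ hl1]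
    · right
      have h' : ∀ z ∈ ball (0 : ℂ) 1, Summable (fun n : ℕ => (n : ℂ) ^ 2 * lam n * z ^ n) ∧
          ‖∑' n : ℕ, (n : ℂ) ^ 2 * lam n * z ^ n‖ ≤ ‖lam 1‖ * C := by
        intro z hz
        obtain ⟨hs, hb⟩ := h z hz
        have e : ∀ n : ℕ, lam 1 * ((n : ℂ) ^ 2 * (lam n / lam 1) * z ^ n) =
            (n : ℂ) ^ 2 * lam n * z ^ n := by
          intro n
          field_simp
        refine ⟨(hs.mul_left (lam 1)).congr e, ?_⟩
        rw [← tsum_congr e, tsum_mul_left, norm_mul]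
        exact mul_le_mul_of_nonneg_left hb (norm_nonneg _)
      exact ⟨⟨_, h'⟩, sqSum g4 h'⟩
  · rcases key _ (g1 _ hl) with ⟨x, hx, h⟩ | ⟨C, h⟩
    · left
      have h2 : (lam 2 : ℂ) = x := by simpa using h 2 (by norm_num)
      have hx1 : x = 1 := by
        rw [← h2, Complex.norm_real, Real.norm_of_nonneg (h0 2)] at hx
        rw [← h2, hx, Complex.ofReal_one]
      intro n hn
      have := h n hn
      rw [hx1, one_pow] at this
      exact_mod_cast this
    · right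
      have h' : ∀ z ∈ ball (0 : ℂ) 1,
          Summable (fun n : ℕ => (((n : ℝ) ^ 2 * lam n : ℝ) : ℂ) * z ^ n) ∧
          ‖∑' n : ℕ, (((n : ℝ) ^ 2 * lam n : ℝ) : ℂ) * z ^ n‖ ≤ C := by
        intro z hz
        have := h z hz
        push_cast
        exact this
      exact g5 _ C (fun n => mul_nonneg (by positivity) (h0 n)) h'

end Pool.Agent.MultS

end

section

set_option autoImplicit false

open Complex Metric Set Filter Topology Finset

namespace Pool.Agent.MultS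

/-- The coefficients of the image of `f` under a literal multiplier. -/
theorem tc_lit {lam : ℕ → ℂ} {f : ℂ → ℂ}
    (hs : ∀ z ∈ ball (0 : ℂ) 1, Summable (fun n : ℕ => lam (n + 1) * tc f (n + 1) * z ^ (n + 1)))
    (n : ℕ) (hn : 1 ≤ n) :
    tc (fun z => ∑' n : ℕ, lam (n + 1) * tc f (n + 1) * z ^ (n + 1)) n = lam n * tc f n :=
  tc_of_hasSum_succ (c := fun n => lam n * tc f n) (fun z hz => (hs z hz).hasSum) n hn

theorem prfLitMult : LitMult := by
  intro lam hL f hf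
  obtain ⟨h1, h2⟩ := hL f hf
  exact ⟨_, h2, fun n hn => tc_lit h1 n hn⟩

end Pool.Agent.MultS

end

section

/-!
# MP_b17785_an, item K0: the Bessel inequality on the circle
-/

set_option autoImplicit false

open Complex Metric Set Filter Topology MeasureTheory Finset

namespace Pool.Agent.MultS

theorem prfBess : Bess := by
  intro g hg s
  have hab : (-Real.pi) < Real.pi := by linarith [Real.pi_pos]
  have hL2 : MemLp g 2 (volume.restrict (Set.Ioc (-Real.pi) Real.pi)) := by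
    obtain ⟨C, hC⟩ := isCompact_Icc.exists_bound_of_continuousOn
      (s := Set.Icc (-Real.pi) Real.pi) hg.continuousOn
    refine MemLp.of_bound hg.aestronglyMeasurable C ?_
    filter_upwards [ae_restrict_mem measurableSet_Ioc] with x hx
    exact hC x (Ioc_subset_Icc_self hx)
  have h1 := hasSum_sq_fourierCoeffOn hab hL2
  have h2 := sum_le_hasSum s (fun i _ => sq_nonneg ‖fourierCoeffOn hab g i‖) h1
  have h3 : (Real.pi - -Real.pi)⁻¹ • ∫ x in (-Real.pi)..Real.pi, ‖g x‖ ^ 2 =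
      1 / (2 * Real.pi) * ∫ θ in (-Real.pi)..Real.pi, ‖g θ‖ ^ 2 := by
    rw [smul_eq_mul]
    congr 1
    rw [one_div]
    congr 1
    ring
  rw [h3] at h2
  refine le_trans (le_of_eq ?_) h2
  refine Finset.sum_congr rfl fun k _ => ?_
  congr 2
  rw [fourierCoeffOn_eq_integral]
  have h4 : (1 / (Real.pi - -Real.pi) : ℝ) = 1 / (2 * Real.pi) := by
    congr 1
    ring
  rw [h4, Complex.real_smul]
  congr 1
  refine intervalIntegral.integral_congr fun x _ => ?_
  simp only [fourier_coe_apply, smul_eq_mul]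
  rw [mul_comm]
  congr 2
  have hπ : (Real.pi : ℂ) ≠ 0 := by exact_mod_cast Real.pi_ne_zero
  push_cast
  field_simp
  ring

end Pool.Agent.MultS

end

section

/-!
# MP_b17785_an, item K1: the square root transform
-/

set_option autoImplicit false

open Complex Metric Set Filter Topology MeasureTheory Finset

namespace Pool.Agent.MultS

/-- the holomorphic square root of `f z / z` -/
theorem exists_sqrt_slope {f : ℂ → ℂ} (hf : Sc f) : ∃ s : ℂ → ℂ,
    DifferentiableOn ℂ s (ball 0 1) ∧ s 0 = 1 ∧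
      ∀ z ∈ ball (0 : ℂ) 1, s z ^ 2 = dslope f 0 z := by
  obtain ⟨hd, hinj, h0, h1⟩ := hf
  have hm : ball (0 : ℂ) 1 ∈ 𝓝 (0 : ℂ) := isOpen_ball.mem_nhds (mem_ball_self one_pos)
  have hq : DifferentiableOn ℂ (dslope f 0) (ball 0 1) := (differentiableOn_dslope hm).2 hd
  have hq0 : dslope f 0 0 = 1 := by rw [dslope_same, h1]
  have hne : ∀ z ∈ ball (0 : ℂ) 1, dslope f 0 z ≠ 0 := by
    intro z hz
    by_cases hz0 : z = 0
    · rw [hz0, hq0]
      exact one_ne_zero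
    · rw [dslope_of_ne _ hz0, slope_def_field]
      refine div_ne_zero (sub_ne_zero.2 fun h => hz0 ?_) (sub_ne_zero.2 hz0)
      exact hinj hz (mem_ball_self one_pos) h
  obtain ⟨L, hL, hexp⟩ := Pool.Agent.Work.MP_6d8919_an.exists_log_ball one_pos hq hne
  have hLd : DifferentiableOn ℂ L (ball 0 1) := fun z hz =>
    (hL z hz).differentiableAt.differentiableWithinAt
  have hsq : ∀ z ∈ ball (0 : ℂ) 1, exp (L z / 2) ^ 2 = dslope f 0 z := by
    intro z hz
    rw [← hexp z hz, ← Complex.exp_nat_mul]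
    congr 1
    push_cast
    ring
  have hs0 : exp (L 0 / 2) ^ 2 = 1 := by rw [hsq 0 (mem_ball_self one_pos), hq0]
  have hs0' : exp (L 0 / 2) ≠ 0 := Complex.exp_ne_zero _
  refine ⟨fun z => exp (L z / 2) / exp (L 0 / 2), ?_, div_self hs0', ?_⟩
  · exact (hLd.div_const 2).cexp.div_const _
  · intro z hz
    rw [div_pow, hs0, div_one, hsq z hz]

theorem dslope_mul {f : ℂ → ℂ} (h0 : f 0 = 0) (z : ℂ) : z * dslope f 0 z = f z := by
  have := sub_smul_dslope f 0 z
  rw [sub_zero, h0, sub_zero, smul_eq_mul] at this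
  exact this

theorem sq_mem {z : ℂ} (hz : z ∈ ball (0 : ℂ) 1) : z ^ 2 ∈ ball (0 : ℂ) 1 := by
  rw [mem_ball_zero_iff] at hz ⊢
  rw [norm_pow]
  nlinarith [norm_nonneg z]

/-- the square root transform, with its explicit form -/
theorem sqrt_transform {f : ℂ → ℂ} (hf : Sc f) {s : ℂ → ℂ}
    (hs : DifferentiableOn ℂ s (ball 0 1)) (hs0 : s 0 = 1)
    (hsq : ∀ z ∈ ball (0 : ℂ) 1, s z ^ 2 = dslope f 0 z) :
    Sc (fun z => z * s (z ^ 2)) ∧
      ∀ z ∈ ball (0 : ℂ) 1, (z * s (z ^ 2)) ^ 2 = f (z ^ 2) := by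
  obtain ⟨hd, hinj, h0, h1⟩ := hf
  have hcomp : DifferentiableOn ℂ (fun z : ℂ => s (z ^ 2)) (ball 0 1) :=
    hs.comp (by fun_prop) fun z hz => sq_mem hz
  have hsqf : ∀ z ∈ ball (0 : ℂ) 1, (z * s (z ^ 2)) ^ 2 = f (z ^ 2) := by
    intro z hz
    rw [mul_pow, hsq _ (sq_mem hz), dslope_mul h0]
  have hφd : DifferentiableOn ℂ (fun z => z * s (z ^ 2)) (ball 0 1) :=
    differentiableOn_id.mul hcomp
  refine ⟨⟨hφd, ?_, by simp, ?_⟩, hsqf⟩
  · intro z hz w hw hzw
    have hzw' : z * s (z ^ 2) = w * s (w ^ 2) := hzw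
    have h2 : f (z ^ 2) = f (w ^ 2) := by rw [← hsqf z hz, ← hsqf w hw, hzw']
    have h3 : z ^ 2 = w ^ 2 := hinj (sq_mem hz) (sq_mem hw) h2
    rcases sq_eq_sq_iff_eq_or_eq_neg.1 h3 with h | h
    · exact h
    · -- `z = -w`
      have h4 : w * s (w ^ 2) = 0 := by
        rw [h, neg_sq] at hzw'
        have : 2 * (w * s (w ^ 2)) = 0 := by linear_combination -hzw'
        rcases mul_eq_zero.1 this with h5 | h5
        · exact absurd h5 two_ne_zero
        · exact h5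
      have h5 : f (w ^ 2) = f 0 := by rw [← hsqf w hw, h4, h0]; ring
      have h6 : w ^ 2 = 0 := hinj (sq_mem hw) (mem_ball_self one_pos) h5
      have h7 : w = 0 := pow_eq_zero_iff (two_ne_zero) |>.1 h6
      rw [h, h7, neg_zero]
  · have hd1 : DifferentiableAt ℂ (fun z : ℂ => s (z ^ 2)) 0 :=
      hcomp.differentiableAt (isOpen_ball.mem_nhds (mem_ball_self one_pos))
    have h8 := (hasDerivAt_id (0 : ℂ)).mul hd1.hasDerivAt
    have h9 := h8.deriv
    simp only [id_eq, zero_mul, add_zero, one_mul] at h9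
    have h10 : (id * fun z : ℂ => s (z ^ 2)) = fun z => z * s (z ^ 2) := rfl
    rw [h10] at h9
    rw [h9]
    simp [hs0]

theorem prfSqrtT : SqrtT := by
  intro f hf
  obtain ⟨s, hs, hs0, hsq⟩ := exists_sqrt_slope hf
  obtain ⟨h1, h2⟩ := sqrt_transform hf hs hs0 hsq
  refine ⟨_, h1, h2, ?_⟩
  intro z _
  simp only [neg_sq]
  ring

end Pool.Agent.MultS

end

section

/-!
# MP_b17785_an, module K4: the Koebe transform
-/

set_option autoImplicit false

open Complex Metric Set Filter Topology MeasureTheory Finset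

namespace Pool.Agent.MultS

namespace K4

open Pool.Agent.RMT

/-- The Koebe transform of `f` at `w`. -/
noncomputable def kt (f : ℂ → ℂ) (w ζ : ℂ) : ℂ :=
  (f (mob (-w) ζ) - f w) / ((1 - (starRingEnd ℂ) w * w) * deriv f w)

theorem mob0 (w : ℂ) : mob (-w) 0 = w := by simp [mob]

theorem hasDerivAt_kt {f : ℂ → ℂ} (hf : Sc f) {w : ℂ} (hw : w ∈ ball (0 : ℂ) 1) {ζ : ℂ}
    (hζ : ζ ∈ ball (0 : ℂ) 1) :
    HasDerivAt (kt f w) (deriv f (mob (-w) ζ) * (1 / (1 + (starRingEnd ℂ) w * ζ) ^ 2) /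
      deriv f w) ζ := by
  have hw1 : ‖w‖ < 1 := by simpa using hw
  have hz1 : ‖ζ‖ < 1 := by simpa using hζ
  have hnw : ‖-w‖ < 1 := by simpa using hw1
  have h0 : 1 - (starRingEnd ℂ) w * w ≠ 0 := mob_den_ne hw1 hw1
  have h1 := hasDerivAt_mob hnw hz1
  have hmem : mob (-w) ζ ∈ ball (0 : ℂ) 1 := mob_mapsTo hnw hζ
  have h2 := (hf.1.differentiableAt (isOpen_ball.mem_nhds hmem)).hasDerivAt
  have h3 := ((h2.comp ζ h1).sub_const (f w)).div_const
    ((1 - (starRingEnd ℂ) w * w) * deriv f w)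
  have hdw : deriv f w ≠ 0 := prfDerNe _ f isOpen_ball hf.1 hf.2.1 w hw
  have hden : 1 - (starRingEnd ℂ) (-w) * ζ ≠ 0 := mob_den_ne hnw hz1
  have hden' : 1 + (starRingEnd ℂ) w * ζ ≠ 0 := by
    rw [map_neg] at hden
    intro h
    apply hden
    linear_combination h
  refine h3.congr_deriv ?_
  simp only [map_neg]
  have e1 : 1 - -(starRingEnd ℂ) w * -w = 1 - (starRingEnd ℂ) w * w := by ring
  have e2 : 1 - -(starRingEnd ℂ) w * ζ = 1 + (starRingEnd ℂ) w * ζ := by ring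
  rw [e1, e2]
  have h0' : 1 - w * (starRingEnd ℂ) w ≠ 0 := by rw [mul_comm]; exact h0
  field_simp

theorem sc_kt {f : ℂ → ℂ} (hf : Sc f) {w : ℂ} (hw : w ∈ ball (0 : ℂ) 1) : Sc (kt f w) := by
  have hw1 : ‖w‖ < 1 := by simpa using hw
  have hnw : ‖-w‖ < 1 := by simpa using hw1
  have h0 : 1 - (starRingEnd ℂ) w * w ≠ 0 := mob_den_ne hw1 hw1
  have hdw : deriv f w ≠ 0 := prfDerNe _ f isOpen_ball hf.1 hf.2.1 w hw
  refine ⟨fun z hz => (hasDerivAt_kt hf hw hz).differentiableAt.differentiableWithinAt, ?_, ?_, ?_⟩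
  · intro a ha b hb hab
    have h1 : f (mob (-w) a) = f (mob (-w) b) := by
      have hab' : (f (mob (-w) a) - f w) / ((1 - (starRingEnd ℂ) w * w) * deriv f w) =
        (f (mob (-w) b) - f w) / ((1 - (starRingEnd ℂ) w * w) * deriv f w) := hab
      rw [div_left_inj' (mul_ne_zero h0 hdw)] at hab'
      exact sub_left_injective hab'
    exact mob_injOn hnw ha hb (hf.2.1 (mob_mapsTo hnw ha) (mob_mapsTo hnw hb) h1)
  · simp [kt, mob0]
  · rw [(hasDerivAt_kt hf hw (mem_ball_self one_pos)).deriv, mob0]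
    simp [hdw]

theorem tc_kt {f : ℂ → ℂ} (hf : Sc f) {w : ℂ} (hw : w ∈ ball (0 : ℂ) 1) :
    tc (kt f w) 2 = ((1 - (starRingEnd ℂ) w * w) * deriv (deriv f) w / deriv f w -
      2 * (starRingEnd ℂ) w) / 2 := by
  have hw1 : ‖w‖ < 1 := by simpa using hw
  have hnw : ‖-w‖ < 1 := by simpa using hw1
  have hdw : deriv f w ≠ 0 := prfDerNe _ f isOpen_ball hf.1 hf.2.1 w hw
  have h0 : (0 : ℂ) ∈ ball (0 : ℂ) 1 := mem_ball_self one_pos
  have hev : deriv (kt f w) =ᶠ[𝓝 0] fun ζ => deriv f (mob (-w) ζ) *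
      (1 / (1 + (starRingEnd ℂ) w * ζ) ^ 2) / deriv f w := by
    filter_upwards [isOpen_ball.mem_nhds h0] with ζ hζ
    exact (hasDerivAt_kt hf hw hζ).deriv
  have hf2 : HasDerivAt (deriv f) (deriv (deriv f) w) w :=
    ((hf.1.deriv isOpen_ball).differentiableAt (isOpen_ball.mem_nhds hw)).hasDerivAt
  have hm := hasDerivAt_mob hnw (show ‖(0 : ℂ)‖ < 1 by simp)
  have hf2' : HasDerivAt (deriv f) (deriv (deriv f) w) (mob (-w) 0) := by
    rw [mob0]; exact hf2
  have h1 := hf2'.comp (0 : ℂ) hm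
  have h2 : HasDerivAt (fun ζ : ℂ => 1 / (1 + (starRingEnd ℂ) w * ζ) ^ 2)
      (-2 * (starRingEnd ℂ) w) 0 := by
    have h3 : HasDerivAt (fun ζ : ℂ => 1 + (starRingEnd ℂ) w * ζ) ((starRingEnd ℂ) w) 0 := by
      simpa using ((hasDerivAt_id (0 : ℂ)).const_mul ((starRingEnd ℂ) w)).const_add 1
    have h4 := (h3.pow 2).inv (by simp)
    exact (h4.congr_of_eventuallyEq (Filter.Eventually.of_forall fun ζ => by simp)).congr_deriv
      (by simp)
  have h6 := (h1.mul h2).div_const (deriv f w)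
  have h7 := hev.deriv_eq.trans h6.deriv
  rw [tc, iteratedDeriv_succ, iteratedDeriv_one, h7]
  simp only [Function.comp, mob0, map_neg, mul_zero, Nat.factorial]
  field_simp
  ring

end K4

theorem prfDist (k3 : Bieb) : Dist := by
  intro f hf z hz
  have hz1 : ‖z‖ < 1 := by simpa using hz
  have h1 := k3 _ (K4.sc_kt hf hz)
  rw [K4.tc_kt hf hz] at h1
  have hc : (starRingEnd ℂ) z * z = ((‖z‖ ^ 2 : ℝ) : ℂ) := by
    rw [mul_comm, Complex.mul_conj, Complex.normSq_eq_norm_sq]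
  have hpos : 0 < 1 - ‖z‖ ^ 2 := by nlinarith [norm_nonneg z]
  have hne : ((1 - ‖z‖ ^ 2 : ℝ) : ℂ) ≠ 0 := by exact_mod_cast hpos.ne'
  have e0 : 1 - (starRingEnd ℂ) z * z = ((1 - ‖z‖ ^ 2 : ℝ) : ℂ) := by
    rw [hc]; push_cast; ring
  have hdw : deriv f z ≠ 0 := prfDerNe _ f isOpen_ball hf.1 hf.2.1 z hz
  have e1 : z * deriv (deriv f) z / deriv f z - ((2 * ‖z‖ ^ 2 / (1 - ‖z‖ ^ 2) : ℝ) : ℂ) =
      2 * z / ((1 - ‖z‖ ^ 2 : ℝ) : ℂ) *
        (((1 - (starRingEnd ℂ) z * z) * deriv (deriv f) z / deriv f z -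
          2 * (starRingEnd ℂ) z) / 2) := by
    have e2 : ((2 * ‖z‖ ^ 2 / (1 - ‖z‖ ^ 2) : ℝ) : ℂ) =
        2 * ((starRingEnd ℂ) z * z) / ((1 - ‖z‖ ^ 2 : ℝ) : ℂ) := by
      rw [hc]; push_cast; ring
    rw [e2, e0]
    field_simp
  rw [e1, norm_mul, norm_div, norm_mul, Complex.norm_real, Real.norm_of_nonneg hpos.le]
  have e3 : ‖(2 : ℂ)‖ = 2 := by simp
  rw [e3]
  have h3 : 0 ≤ 2 * ‖z‖ / (1 - ‖z‖ ^ 2) := by positivity
  calc 2 * ‖z‖ / (1 - ‖z‖ ^ 2) * _ ≤ 2 * ‖z‖ / (1 - ‖z‖ ^ 2) * 2 :=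
        mul_le_mul_of_nonneg_left h1 h3
    _ = 4 * ‖z‖ / (1 - ‖z‖ ^ 2) := by ring

end Pool.Agent.MultS

end

section

set_option autoImplicit false

open Complex Metric Filter Topology MeasureTheory

namespace Pool.Agent.MultS

theorem ray_mem {x : ℂ} (hx : ‖x‖ = 1) {t : ℝ} (h0 : 0 ≤ t) (h1 : t < 1) :
    (t : ℂ) * x ∈ ball (0 : ℂ) 1 := by
  simp [hx, abs_of_nonneg h0, h1]

theorem hasDerivAt_ray {g : ℂ → ℂ} (hg : DifferentiableOn ℂ g (ball 0 1)) {x : ℂ}
    (hx : ‖x‖ = 1) {t : ℝ} (h0 : 0 ≤ t) (h1 : t < 1) :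
    HasDerivAt (fun s : ℝ => g ((s : ℂ) * x)) (deriv g ((t : ℂ) * x) * x) t := by
  have h2 : HasDerivAt g (deriv g ((t : ℂ) * x)) ((t : ℂ) * x) :=
    ((hg _ (ray_mem hx h0 h1)).differentiableAt
      (isOpen_ball.mem_nhds (ray_mem hx h0 h1))).hasDerivAt
  have h3 : HasDerivAt (fun s : ℂ => s * x) x ((t : ℝ) : ℂ) := by
    simpa using (hasDerivAt_id ((t : ℝ) : ℂ)).mul_const x
  have h4 : HasDerivAt (fun s : ℂ => g (s * x)) (deriv g ((t : ℂ) * x) * x) ((t : ℝ) : ℂ) :=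
    HasDerivAt.comp (((t : ℝ) : ℂ)) h2 h3
  exact h4.comp_ofReal

/-- The distortion theorem (upper bound). -/
theorem distortion (k4 : Dist) (f : ℂ → ℂ) (hf : Sc f) (x : ℂ) (hx : ‖x‖ = 1) (r : ℝ)
    (hr0 : 0 ≤ r) (hr1 : r < 1) : ‖deriv f ((r : ℂ) * x)‖ ≤ (1 + r) / (1 - r) ^ 3 := by
  have hd : DifferentiableOn ℂ f (ball 0 1) := hf.1
  have hd' : DifferentiableOn ℂ (deriv f) (ball 0 1) := hd.deriv isOpen_ball
  have hne : ∀ z ∈ ball (0 : ℂ) 1, deriv f z ≠ 0 := prfDerNe _ f isOpen_ball hd hf.2.1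
  have key : ∀ t : ℝ, 0 ≤ t → t < 1 →
      HasDerivAt (fun s : ℝ => ‖deriv f ((s : ℂ) * x)‖ ^ 2 * ((1 - s) ^ 3 / (1 + s)) ^ 2)
        (2 * (starRingEnd ℂ (deriv f ((t : ℂ) * x)) * (deriv (deriv f) ((t : ℂ) * x) * x)).re *
          ((1 - t) ^ 3 / (1 + t)) ^ 2 + ‖deriv f ((t : ℂ) * x)‖ ^ 2 *
          (2 * ((1 - t) ^ 3 / (1 + t)) *
            (((3 * (1 - t) ^ 2 * (-1)) * (1 + t) - (1 - t) ^ 3 * 1) / (1 + t) ^ 2))) t := by
    intro t ht0 ht1
    have e1 := hasDerivAt_ray hd' hx ht0 ht1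
    have e2 := e1.norm_sq
    rw [Complex.inner] at e2
    have e3 : HasDerivAt (fun s : ℝ => (1 - s) ^ 3) (3 * (1 - t) ^ 2 * (-1)) t := by
      have := ((hasDerivAt_id t).const_sub 1).fun_pow 3
      simpa using this
    have e4 : HasDerivAt (fun s : ℝ => 1 + s) 1 t := by
      simpa using (hasDerivAt_id t).const_add 1
    have e5 := e3.fun_div e4 (by positivity)
    have e6 := e5.fun_pow 2
    have e7 := e2.fun_mul e6
    refine e7.congr_deriv ?_
    simp only [Nat.cast_ofNat, Nat.add_one_sub_one, pow_one]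
    rw [mul_comm (deriv (deriv f) ((t : ℂ) * x) * x)]
  have hanti : AntitoneOn
      (fun s : ℝ => ‖deriv f ((s : ℂ) * x)‖ ^ 2 * ((1 - s) ^ 3 / (1 + s)) ^ 2) (Set.Icc 0 r) := by
    apply antitoneOn_of_deriv_nonpos (convex_Icc 0 r)
    · intro t ht
      exact (key t ht.1 (ht.2.trans_lt hr1)).continuousAt.continuousWithinAt
    · intro t ht
      rw [interior_Icc] at ht
      exact (key t ht.1.le (ht.2.trans hr1)).differentiableAt.differentiableWithinAt
    · intro t ht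
      rw [interior_Icc] at ht
      have ht0 : 0 < t := ht.1
      have ht1 : t < 1 := ht.2.trans hr1
      rw [(key t ht0.le ht1).deriv]
      have hz := ray_mem hx ht0.le ht1
      have hD := k4 f hf _ hz
      have hnz : ‖(t : ℂ) * x‖ = t := by simp [hx, abs_of_pos ht0]
      rw [hnz] at hD
      have hu := hne _ hz
      set u := deriv f ((t : ℂ) * x) with hudef
      set v := deriv (deriv f) ((t : ℂ) * x) with hvdef
      have h1t : 0 < 1 - t ^ 2 := by nlinarith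
      have hre : ((t : ℂ) * x * v / u).re ≤ (4 * t + 2 * t ^ 2) / (1 - t ^ 2) := by
        have h1 := (Complex.re_le_norm _).trans hD
        rw [Complex.sub_re, Complex.ofReal_re] at h1
        have h2 : (4 * t + 2 * t ^ 2) / (1 - t ^ 2) =
            4 * t / (1 - t ^ 2) + 2 * t ^ 2 / (1 - t ^ 2) := by ring
        rw [h2]; linarith
      have hcx : (starRingEnd ℂ u * (v * x)).re = ‖u‖ ^ 2 * (x * v / u).re := by
        have h1 : starRingEnd ℂ u * (v * x) = ((‖u‖ ^ 2 : ℝ) : ℂ) * (x * v / u) := by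
          have h2 : ((‖u‖ ^ 2 : ℝ) : ℂ) = starRingEnd ℂ u * u := by
            rw [Complex.conj_mul']
            push_cast; ring
          rw [h2]; field_simp
        rw [h1, Complex.re_ofReal_mul]
      have hre2 : (x * v / u).re ≤ (4 + 2 * t) / (1 - t ^ 2) := by
        have h1 : (t : ℂ) * x * v / u = (t : ℂ) * (x * v / u) := by ring
        rw [h1, Complex.re_ofReal_mul] at hre
        have h2 : (4 * t + 2 * t ^ 2) / (1 - t ^ 2) = t * ((4 + 2 * t) / (1 - t ^ 2)) := by ring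
        rw [h2] at hre
        exact le_of_mul_le_mul_left hre ht0
      rw [hcx]
      have h1t' : 0 < 1 - t := by linarith
      have h1p : 0 < 1 + t := by linarith
      have hid : (2 * (‖u‖ ^ 2 * (x * v / u).re) * ((1 - t) ^ 3 / (1 + t)) ^ 2 + ‖u‖ ^ 2 *
          (2 * ((1 - t) ^ 3 / (1 + t)) *
            (((3 * (1 - t) ^ 2 * (-1)) * (1 + t) - (1 - t) ^ 3 * 1) / (1 + t) ^ 2))) =
          2 * ‖u‖ ^ 2 * ((1 - t) ^ 3 / (1 + t)) ^ 2 *
            ((x * v / u).re - (4 + 2 * t) / (1 - t ^ 2)) := by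
        have h3 : 1 - t ^ 2 = (1 - t) * (1 + t) := by ring
        rw [h3]
        field_simp
        ring
      rw [hid]
      apply mul_nonpos_of_nonneg_of_nonpos
      · positivity
      · linarith
  have hfin := hanti (Set.left_mem_Icc.2 hr0) (Set.right_mem_Icc.2 hr0) hr0
  simp only [Complex.ofReal_zero, zero_mul, hf.2.2.2] at hfin
  have h1r : 0 < 1 - r := by linarith
  have h1p : 0 < 1 + r := by linarith
  have h2 : (‖deriv f ((r : ℂ) * x)‖ * ((1 - r) ^ 3 / (1 + r))) ^ 2 ≤ 1 ^ 2 := by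
    rw [mul_pow]; simpa using hfin
  have h3 : ‖deriv f ((r : ℂ) * x)‖ * ((1 - r) ^ 3 / (1 + r)) ≤ 1 :=
    (pow_le_pow_iff_left₀ (by positivity) (by norm_num) (by norm_num)).1 h2
  rw [le_div_iff₀ (by positivity)]
  have h4 : ‖deriv f ((r : ℂ) * x)‖ * ((1 - r) ^ 3 / (1 + r)) =
      (‖deriv f ((r : ℂ) * x)‖ * (1 - r) ^ 3) / (1 + r) := by ring
  rw [h4, div_le_one h1p] at h3
  exact h3

theorem prfGrowth (k4 : Dist) : Growth := by
  intro f hf z hz
  by_cases hz0 : z = 0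
  · subst hz0; simp [hf.2.2.1]
  have hzn : 0 < ‖z‖ := norm_pos_iff.2 hz0
  have hz1 : ‖z‖ < 1 := by simpa using hz
  set x : ℂ := z / (‖z‖ : ℂ) with hxdef
  have hx : ‖x‖ = 1 := by
    rw [hxdef, norm_div, Complex.norm_real, Real.norm_of_nonneg hzn.le, div_self hzn.ne']
  have hzx : ((‖z‖ : ℝ) : ℂ) * x = z := by
    rw [hxdef]
    have : ((‖z‖ : ℝ) : ℂ) ≠ 0 := by exact_mod_cast hzn.ne'
    field_simp
  have hd : DifferentiableOn ℂ f (ball 0 1) := hf.1
  have hB : ∀ t : ℝ, t < 1 → HasDerivAt (fun s : ℝ => s / (1 - s) ^ 2)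
      ((1 + t) / (1 - t) ^ 3) t := by
    intro t ht
    have h1t : (1 - t) ≠ 0 := by linarith
    have e1 : HasDerivAt (fun s : ℝ => (1 - s) ^ 2) (2 * (1 - t) * (-1)) t := by
      have := ((hasDerivAt_id t).const_sub 1).fun_pow 2
      simpa using this
    have e2 := (hasDerivAt_id t).fun_div e1 (pow_ne_zero 2 h1t)
    refine e2.congr_deriv ?_
    simp only [id]
    field_simp
    ring
  have hmain := image_norm_le_of_norm_deriv_right_le_deriv_boundary'
    (f := fun s : ℝ => f ((s : ℂ) * x)) (f' := fun s : ℝ => deriv f ((s : ℂ) * x) * x)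
    (a := 0) (b := ‖z‖) (B := fun s : ℝ => s / (1 - s) ^ 2)
    (B' := fun s : ℝ => (1 + s) / (1 - s) ^ 3)
    (fun t ht => (hasDerivAt_ray hd hx ht.1 (ht.2.trans_lt hz1)).continuousAt.continuousWithinAt)
    (fun t ht => (hasDerivAt_ray hd hx ht.1 (ht.2.trans hz1)).hasDerivWithinAt)
    (by simp [hf.2.2.1])
    (fun t ht => (hB t (ht.2.trans_lt hz1)).continuousAt.continuousWithinAt)
    (fun t ht => (hB t (ht.2.trans hz1)).hasDerivWithinAt)
    (fun t ht => by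
      rw [norm_mul, hx, mul_one]
      exact distortion k4 f hf x hx t ht.1 (ht.2.trans hz1))
  have h := hmain (Set.right_mem_Icc.2 hzn.le)
  simp only [hzx] at h
  exact h

end Pool.Agent.MultS

end

section

/-!
MP_b17785_an, item K6: the area of the image of a disk; Fourier coefficients on circles.
-/

set_option autoImplicit false

open Complex Metric Set Filter Topology MeasureTheory Finset

namespace Pool.Agent.MultS

namespace K6

/-- The determinant of the multiplication by `a`, as a real linear map. -/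
theorem det_mul (a : ℂ) : (a • (1 : ℂ →L[ℝ] ℂ)).det = ‖a‖ ^ 2 := by
  have h1 : ((a • (1 : ℂ →L[ℝ] ℂ) : ℂ →L[ℝ] ℂ) : ℂ →ₗ[ℝ] ℂ) = Algebra.lmul ℝ ℂ a := by
    ext x
    all_goals simp
  rw [ContinuousLinearMap.det, h1, ← Algebra.norm_apply, Algebra.norm_complex_apply,
    Complex.normSq_eq_norm_sq]

/-- Fourier coefficients of a holomorphic function on a circle, non-negative index. -/
theorem coef {g : ℂ → ℂ} (hg : DifferentiableOn ℂ g (ball 0 1)) {ρ : ℝ} (h0 : 0 < ρ)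
    (h1 : ρ < 1) (k : ℕ) :
    ((1 / (2 * Real.pi) : ℝ) : ℂ) * ∫ θ in (-Real.pi)..Real.pi,
      g ((ρ : ℂ) * exp ((θ : ℂ) * I)) * exp (-((((k : ℕ) : ℤ) : ℂ) * (θ : ℂ) * I)) =
      tc g k * (ρ : ℂ) ^ k := by
  have hρ : (ρ : ℂ) ≠ 0 := by exact_mod_cast h0.ne'
  set R : NNReal := ⟨ρ, h0.le⟩ with hR
  have hR0 : 0 < R := h0
  have hRρ : (R : ℝ) = ρ := rfl
  have hd : DifferentiableOn ℂ g (closedBall 0 R) := by
    refine hg.mono ?_
    intro z hz
    rw [mem_closedBall_zero_iff] at hz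
    rw [mem_ball_zero_iff]
    exact lt_of_le_of_lt hz h1
  have hp := hd.hasFPowerSeriesOnBall hR0
  have h2 := hp.factorial_smul (1 : ℂ) k
  rw [cauchyPowerSeries_apply, hRρ] at h2
  have hfac : ((k.factorial : ℕ) : ℂ) ≠ 0 := by exact_mod_cast k.factorial_ne_zero
  have h3 : tc g k = (2 * Real.pi * I : ℂ)⁻¹ •
      ∮ z in C(0, ρ), (1 / (z - 0)) ^ k • (z - 0)⁻¹ • g z := by
    rw [tc, iteratedDeriv_eq_iteratedFDeriv, ← h2]
    simp only [nsmul_eq_mul]
    field_simp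
  have h4 : (∮ z in C(0, ρ), (1 / (z - 0)) ^ k • (z - 0)⁻¹ • g z) =
      I * ((ρ : ℂ) ^ k)⁻¹ * ∫ θ in (0 : ℝ)..(2 * Real.pi),
        g ((ρ : ℂ) * exp ((θ : ℂ) * I)) * exp (-((((k : ℕ) : ℤ) : ℂ) * (θ : ℂ) * I)) := by
    rw [circleIntegral, ← intervalIntegral.integral_const_mul]
    refine intervalIntegral.integral_congr (fun θ _ => ?_)
    have h5 : exp ((θ : ℂ) * I) ≠ 0 := Complex.exp_ne_zero _
    simp only [deriv_circleMap, circleMap_zero, sub_zero, smul_eq_mul]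
    have h6 : exp (-((((k : ℕ) : ℤ) : ℂ) * (θ : ℂ) * I)) = (exp ((θ : ℂ) * I) ^ k)⁻¹ := by
      rw [← Complex.exp_nat_mul, ← Complex.exp_neg]
      congr 1
      push_cast
      ring
    rw [h6, one_div, inv_pow, mul_pow]
    field_simp
  have hper : Function.Periodic (fun θ : ℝ =>
      g ((ρ : ℂ) * exp ((θ : ℂ) * I)) * exp (-((((k : ℕ) : ℤ) : ℂ) * (θ : ℂ) * I)))
      (2 * Real.pi) := by
    intro θ
    simp only
    have h7 : exp (((θ + 2 * Real.pi : ℝ) : ℂ) * I) = exp ((θ : ℂ) * I) := by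
      push_cast
      rw [add_mul, Complex.exp_add, Complex.exp_two_pi_mul_I, mul_one]
    have h8 : exp (-((((k : ℕ) : ℤ) : ℂ) * ((θ + 2 * Real.pi : ℝ) : ℂ) * I)) =
        exp (-((((k : ℕ) : ℤ) : ℂ) * (θ : ℂ) * I)) := by
      have h9 : -((((k : ℕ) : ℤ) : ℂ) * ((θ + 2 * Real.pi : ℝ) : ℂ) * I) =
          -((((k : ℕ) : ℤ) : ℂ) * (θ : ℂ) * I) + ((-(k : ℤ) : ℤ) : ℂ) * (2 * Real.pi * I) := by
        push_cast
        ring
      rw [h9, Complex.exp_add, Complex.exp_int_mul_two_pi_mul_I, mul_one]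
    rw [h7, h8]
  have h10 := hper.intervalIntegral_add_eq 0 (-Real.pi)
  rw [zero_add, show -Real.pi + 2 * Real.pi = Real.pi by ring] at h10
  rw [h3, h4, h10, smul_eq_mul]
  have hpi : (Real.pi : ℂ) ≠ 0 := by exact_mod_cast Real.pi_ne_zero
  generalize (∫ θ in (-Real.pi)..Real.pi,
      g ((ρ : ℂ) * exp ((θ : ℂ) * I)) * exp (-((((k : ℕ) : ℤ) : ℂ) * (θ : ℂ) * I))) = J
  push_cast
  field_simp

/-- Mean square on a circle. -/
theorem mean_sq (bess : Bess) {g : ℂ → ℂ} (hg : DifferentiableOn ℂ g (ball 0 1)) {ρ : ℝ}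
    (h0 : 0 < ρ) (h1 : ρ < 1) (N : ℕ) :
    2 * Real.pi * ∑ k ∈ range N, ‖tc g k‖ ^ 2 * ρ ^ (2 * k) ≤
      ∫ θ in (-Real.pi)..Real.pi, ‖g ((ρ : ℂ) * exp ((θ : ℂ) * I))‖ ^ 2 := by
  have hcont : Continuous (fun θ : ℝ => g ((ρ : ℂ) * exp ((θ : ℂ) * I))) := by
    refine hg.continuousOn.comp_continuous (by fun_prop) ?_
    intro θ
    rw [mem_ball_zero_iff, norm_mul, Complex.norm_exp_ofReal_mul_I, mul_one, Complex.norm_real,
      Real.norm_eq_abs, abs_of_pos h0]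
    exact h1
  have h2 := bess _ hcont ((range N).map Nat.castEmbedding)
  rw [Finset.sum_map] at h2
  have h3 : ∀ k : ℕ, ‖((1 / (2 * Real.pi) : ℝ) : ℂ) * ∫ θ in (-Real.pi)..Real.pi,
      g ((ρ : ℂ) * exp ((θ : ℂ) * I)) * exp (-((((k : ℕ) : ℤ) : ℂ) * (θ : ℂ) * I))‖ ^ 2 =
      ‖tc g k‖ ^ 2 * ρ ^ (2 * k) := by
    intro k
    rw [coef hg h0 h1 k, norm_mul, norm_pow, Complex.norm_real, Real.norm_eq_abs,
      abs_of_pos h0]
    ring
  have h4 : ∑ k ∈ range N, ‖tc g k‖ ^ 2 * ρ ^ (2 * k) ≤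
      1 / (2 * Real.pi) * ∫ θ in (-Real.pi)..Real.pi, ‖g ((ρ : ℂ) * exp ((θ : ℂ) * I))‖ ^ 2 := by
    refine le_trans (le_of_eq ?_) h2
    refine Finset.sum_congr rfl (fun k _ => ?_)
    rw [← h3 k]
    rfl
  have hpi : 0 < 2 * Real.pi := by positivity
  calc 2 * Real.pi * ∑ k ∈ range N, ‖tc g k‖ ^ 2 * ρ ^ (2 * k) ≤
      2 * Real.pi * (1 / (2 * Real.pi) *
        ∫ θ in (-Real.pi)..Real.pi, ‖g ((ρ : ℂ) * exp ((θ : ℂ) * I))‖ ^ 2) :=
        mul_le_mul_of_nonneg_left h4 hpi.le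
    _ = _ := by
        generalize (∫ θ in (-Real.pi)..Real.pi, ‖g ((ρ : ℂ) * exp ((θ : ℂ) * I))‖ ^ 2) = J
        field_simp

/-- Lower bound of an area integral over a disk. -/
theorem area_lower (bess : Bess) {g : ℂ → ℂ} (hg : DifferentiableOn ℂ g (ball 0 1))
    (hm : Measurable g) {r : ℝ} (h0 : 0 < r) (h1 : r < 1) (N : ℕ) :
    ENNReal.ofReal (Real.pi * ∑ k ∈ range N, ‖tc g k‖ ^ 2 * r ^ (2 * (k + 1)) / (k + 1)) ≤
      ∫⁻ z in ball (0 : ℂ) r, ENNReal.ofReal (‖g z‖ ^ 2) := by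
  have hF : Measurable (fun z : ℂ => ENNReal.ofReal (‖g z‖ ^ 2)) :=
    (hm.norm.pow_const 2).ennreal_ofReal
  have hF' : Measurable ((ball (0 : ℂ) r).indicator (fun z : ℂ => ENNReal.ofReal (‖g z‖ ^ 2))) :=
    hF.indicator measurableSet_ball
  rw [← lintegral_indicator measurableSet_ball, ← Complex.lintegral_comp_polarCoord_symm]
  have htarget : polarCoord.target = Set.Ioi (0 : ℝ) ×ˢ Set.Ioo (-Real.pi) Real.pi := rfl
  have hsymm : ∀ p : ℝ × ℝ, Complex.polarCoord.symm p = (p.1 : ℂ) * exp ((p.2 : ℂ) * I) := by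
    intro p
    rw [Complex.polarCoord_symm_apply, Complex.exp_mul_I, Complex.ofReal_cos, Complex.ofReal_sin]
  simp only [hsymm]
  rw [htarget, Measure.volume_eq_prod, ← Measure.prod_restrict, lintegral_prod]
  swap
  · refine Measurable.aemeasurable ?_
    refine Measurable.mul (by fun_prop) ?_
    exact hF'.comp (by fun_prop)
  have hS : ∀ ρ : ℝ, ρ * (2 * Real.pi * ∑ k ∈ range N, ‖tc g k‖ ^ 2 * ρ ^ (2 * k)) =
      ∑ k ∈ range N, (2 * Real.pi * ‖tc g k‖ ^ 2) * ρ ^ (2 * k + 1) := by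
    intro ρ
    rw [Finset.mul_sum, Finset.mul_sum]
    refine Finset.sum_congr rfl (fun k _ => ?_)
    ring
  have hcont : Continuous (fun ρ : ℝ =>
      ρ * (2 * Real.pi * ∑ k ∈ range N, ‖tc g k‖ ^ 2 * ρ ^ (2 * k))) := by
    fun_prop
  have hint : ∫ ρ in Set.Ioo (0 : ℝ) r,
      ρ * (2 * Real.pi * ∑ k ∈ range N, ‖tc g k‖ ^ 2 * ρ ^ (2 * k)) =
      Real.pi * ∑ k ∈ range N, ‖tc g k‖ ^ 2 * r ^ (2 * (k + 1)) / (k + 1) := by
    rw [← integral_Ioc_eq_integral_Ioo, ← intervalIntegral.integral_of_le h0.le]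
    simp only [hS]
    rw [intervalIntegral.integral_finsetSum (fun k _ => (by fun_prop :
      Continuous (fun ρ : ℝ => (2 * Real.pi * ‖tc g k‖ ^ 2) * ρ ^ (2 * k + 1))).intervalIntegrable
        _ _), Finset.mul_sum]
    refine Finset.sum_congr rfl (fun k _ => ?_)
    rw [intervalIntegral.integral_const_mul, integral_pow]
    have hk : ((k : ℝ) + 1) ≠ 0 := by positivity
    have hk2 : ((2 * k + 1 : ℕ) : ℝ) + 1 = 2 * ((k : ℝ) + 1) := by
      push_cast
      ring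
    rw [hk2, zero_pow (by omega), sub_zero, show 2 * k + 1 + 1 = 2 * (k + 1) by ring]
    field_simp
  have h2 : ENNReal.ofReal (Real.pi * ∑ k ∈ range N, ‖tc g k‖ ^ 2 * r ^ (2 * (k + 1)) / (k + 1)) =
      ∫⁻ ρ in Set.Ioo (0 : ℝ) r, ENNReal.ofReal
        (ρ * (2 * Real.pi * ∑ k ∈ range N, ‖tc g k‖ ^ 2 * ρ ^ (2 * k))) := by
    rw [← hint]
    refine ofReal_integral_eq_lintegral_ofReal ?_ ?_
    · exact (hcont.integrableOn_Icc (a := 0) (b := r)).mono_set Set.Ioo_subset_Icc_self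
    · rw [Filter.EventuallyLE, ae_restrict_iff' measurableSet_Ioo]
      refine Filter.Eventually.of_forall (fun ρ hρ => ?_)
      have : 0 < ρ := hρ.1
      have hpi := Real.pi_pos
      simp only [Pi.zero_apply]
      positivity
  rw [h2]
  refine le_trans ?_ (lintegral_mono_set (s := Set.Ioo (0 : ℝ) r) (fun x hx => hx.1))
  refine setLIntegral_mono' measurableSet_Ioo (fun ρ hρ => ?_)
  have hρ0 : 0 < ρ := hρ.1
  have hρr : ρ < r := hρ.2
  have hρ1 : ρ < 1 := hρr.trans h1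
  have hmem : ∀ θ : ℝ, (ρ : ℂ) * exp ((θ : ℂ) * I) ∈ ball (0 : ℂ) r := by
    intro θ
    rw [mem_ball_zero_iff, norm_mul, Complex.norm_exp_ofReal_mul_I, mul_one, Complex.norm_real,
      Real.norm_eq_abs, abs_of_pos hρ0]
    exact hρr
  have h3 : (∫⁻ θ in Set.Ioo (-Real.pi) Real.pi, ENNReal.ofReal ρ •
      (ball (0 : ℂ) r).indicator (fun z : ℂ => ENNReal.ofReal (‖g z‖ ^ 2))
        ((ρ : ℂ) * exp ((θ : ℂ) * I))) =
      ENNReal.ofReal (ρ * ∫ θ in (-Real.pi)..Real.pi,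
        ‖g ((ρ : ℂ) * exp ((θ : ℂ) * I))‖ ^ 2) := by
    simp only [smul_eq_mul, Set.indicator_of_mem (hmem _)]
    have hgc : Continuous (fun θ : ℝ => ‖g ((ρ : ℂ) * exp ((θ : ℂ) * I))‖ ^ 2) := by
      refine Continuous.pow (Continuous.norm ?_) 2
      refine hg.continuousOn.comp_continuous (by fun_prop) ?_
      intro θ
      exact ball_subset_ball h1.le (hmem θ)
    rw [lintegral_const_mul' _ _ ENNReal.ofReal_ne_top, ENNReal.ofReal_mul hρ0.le]
    congr 1
    rw [intervalIntegral.integral_of_le (by linarith [Real.pi_pos]),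
      integral_Ioc_eq_integral_Ioo]
    symm
    refine ofReal_integral_eq_lintegral_ofReal ?_ ?_
    · exact (hgc.integrableOn_Icc (a := -Real.pi) (b := Real.pi)).mono_set Set.Ioo_subset_Icc_self
    · exact Filter.Eventually.of_forall (fun θ => by simp only [Pi.zero_apply]; positivity)
  rw [h3]
  refine ENNReal.ofReal_le_ofReal ?_
  exact mul_le_mul_of_nonneg_left (mean_sq bess hg hρ0 hρ1 N) hρ0.le

end K6

open K6 in
/-- K6: the area of the image of a disk. -/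
theorem prfAreaIn (bess : Bess) : AreaIn := by
  intro φ hφ hinj r M h0 h1 hM N
  have hsub : ball (0 : ℂ) r ⊆ ball 0 1 := ball_subset_ball h1.le
  have hM0 : 0 ≤ M := (norm_nonneg _).trans (hM 0 (by simpa using h0))
  have hder : DifferentiableOn ℂ (deriv φ) (ball 0 1) := hφ.deriv isOpen_ball
  have h2 := area_lower bess hder (measurable_deriv φ) h0 h1 N
  have h3 : (∫⁻ z in ball (0 : ℂ) r, ENNReal.ofReal (‖deriv φ z‖ ^ 2)) =
      volume (φ '' ball (0 : ℂ) r) := by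
    rw [← lintegral_abs_det_fderiv_eq_addHaar_image volume measurableSet_ball
      (f' := fun z => deriv φ z • (1 : ℂ →L[ℝ] ℂ)) ?_ (hinj.mono hsub)]
    · refine lintegral_congr (fun z => ?_)
      rw [det_mul, abs_of_nonneg (by positivity)]
    · intro z hz
      have h4 : HasDerivAt φ (deriv φ z) z :=
        ((hφ z (hsub hz)).differentiableAt (isOpen_ball.mem_nhds (hsub hz))).hasDerivAt
      exact h4.complexToReal_fderiv.hasFDerivWithinAt
  have h5 : volume (φ '' ball (0 : ℂ) r) ≤ volume (closedBall (0 : ℂ) M) := by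
    refine measure_mono ?_
    rintro _ ⟨z, hz, rfl⟩
    rw [mem_closedBall_zero_iff]
    exact hM z (by simpa using hz)
  rw [Complex.volume_closedBall] at h5
  have h6 := h2.trans (h3.le.trans h5)
  have h7 : ENNReal.ofReal M ^ 2 * (NNReal.pi : ENNReal) = ENNReal.ofReal (M ^ 2 * Real.pi) := by
    rw [ENNReal.ofReal_mul (by positivity), ENNReal.ofReal_pow hM0]
    congr 1
    rw [ENNReal.ofReal, ← NNReal.coe_real_pi, Real.toNNReal_coe]
  rw [h7, ENNReal.ofReal_le_ofReal_iff (by positivity)] at h6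
  have h8 : ∀ k : ℕ, ‖tc (deriv φ) k‖ ^ 2 * r ^ (2 * (k + 1)) / (k + 1) =
      ((k + 1 : ℕ) : ℝ) * ‖tc φ (k + 1)‖ ^ 2 * r ^ (2 * (k + 1)) := by
    intro k
    have h9 : tc (deriv φ) k = ((k + 1 : ℕ) : ℂ) * tc φ (k + 1) := by
      rw [tc, tc, iteratedDeriv_succ']
      have hfac : ((k.factorial : ℕ) : ℂ) ≠ 0 := by exact_mod_cast k.factorial_ne_zero
      have hk : ((k : ℂ) + 1) ≠ 0 := by exact_mod_cast Nat.succ_ne_zero k
      rw [Nat.factorial_succ]
      push_cast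
      field_simp
    rw [h9, norm_mul, Complex.norm_natCast]
    have hk : ((k : ℝ) + 1) ≠ 0 := by positivity
    push_cast
    field_simp
  rw [Finset.sum_congr rfl (fun k _ => h8 k)] at h6
  have h10 : ∑ k ∈ range N, ((k + 1 : ℕ) : ℝ) * ‖tc φ (k + 1)‖ ^ 2 * r ^ (2 * (k + 1)) ≤ M ^ 2 := by
    have hpi := Real.pi_pos
    have : Real.pi * ∑ k ∈ range N, ((k + 1 : ℕ) : ℝ) * ‖tc φ (k + 1)‖ ^ 2 * r ^ (2 * (k + 1)) ≤
        Real.pi * M ^ 2 := by linarith
    exact le_of_mul_le_mul_left this hpi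
  have h11 : ∑ n ∈ range (N + 1), (n : ℝ) * ‖tc φ n‖ ^ 2 * r ^ (2 * n) ≤ M ^ 2 := by
    rw [Finset.sum_range_succ']
    simpa using h10
  refine le_trans (Finset.sum_le_sum_of_subset_of_nonneg
    (Finset.range_mono (Nat.le_succ N)) (fun n _ _ => by positivity)) h11

end Pool.Agent.MultS

end

section

set_option autoImplicit false

open Complex Metric Filter Topology MeasureTheory Finset

namespace Pool.Agent.MultS

theorem growth_sqrt (k5 : Growth) (f φ : ℂ → ℂ) (hf : Sc f)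
    (hsq : ∀ z ∈ ball (0 : ℂ) 1, φ z ^ 2 = f (z ^ 2)) (ρ : ℝ) (h0 : 0 < ρ) (h1 : ρ < 1) (z : ℂ)
    (hz : ‖z‖ < ρ) : ‖φ z‖ ≤ ρ / (1 - ρ ^ 2) := by
  have hzb : z ∈ ball (0 : ℂ) 1 := by simpa using hz.trans h1
  have hz0 : 0 ≤ ‖z‖ := norm_nonneg z
  have hz2 : ‖z‖ ^ 2 ≤ ρ ^ 2 := pow_le_pow_left₀ hz0 hz.le 2
  have hρ2 : ρ ^ 2 < 1 := by nlinarith
  have hz2b : z ^ 2 ∈ ball (0 : ℂ) 1 := by
    simp only [mem_ball_zero_iff, norm_pow]; linarith
  have hg := k5 f hf _ hz2b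
  rw [norm_pow] at hg
  have h2 : ‖z‖ ^ 2 / (1 - ‖z‖ ^ 2) ^ 2 ≤ ρ ^ 2 / (1 - ρ ^ 2) ^ 2 := by
    apply div_le_div₀ (by positivity) hz2 (by
      have : 0 < 1 - ρ ^ 2 := by linarith
      positivity)
    apply pow_le_pow_left₀ (by linarith)
    linarith
  have h3 : ‖φ z‖ ^ 2 ≤ (ρ / (1 - ρ ^ 2)) ^ 2 := by
    rw [← norm_pow, hsq z hzb, div_pow]
    exact hg.trans h2
  have h4 : 0 ≤ ρ / (1 - ρ ^ 2) := by
    have : 0 < 1 - ρ ^ 2 := by linarith
    positivity
  exact (pow_le_pow_iff_left₀ (norm_nonneg _) h4 (by norm_num)).1 h3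

theorem prfMeanSq (k5 : Growth) (k6 : AreaIn) : MeanSq := by
  intro f φ hf hφ hsq r hr0 hr1 N
  set c : ℕ → ℝ := fun n => ‖tc φ n‖ ^ 2 with hc
  have hT : ∀ ρ : ℝ, HasDerivAt (fun s : ℝ => ∑ n ∈ range N, c n * s ^ (2 * n))
      (∑ n ∈ range N, c n * (((2 * n : ℕ) : ℝ) * ρ ^ (2 * n - 1))) ρ := by
    intro ρ
    apply HasDerivAt.fun_sum
    intro n _
    exact (hasDerivAt_pow (2 * n) ρ).const_mul (c n)
  have hE : ∀ ρ : ℝ, 0 ≤ ρ → ρ < 1 → HasDerivAt (fun s : ℝ => 1 / (1 - s ^ 2))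
      (2 * ρ / (1 - ρ ^ 2) ^ 2) ρ := by
    intro ρ h0 h1
    have hne : 1 - ρ ^ 2 ≠ 0 := by nlinarith
    have e1 : HasDerivAt (fun s : ℝ => 1 - s ^ 2) (-(2 * ρ)) ρ := by
      have := (hasDerivAt_pow 2 ρ).const_sub 1
      simpa using this
    have e2 := (hasDerivAt_const ρ (1 : ℝ)).fun_div e1 hne
    refine e2.congr_deriv ?_
    ring
  have hmono : MonotoneOn (fun s : ℝ => 1 / (1 - s ^ 2) - ∑ n ∈ range N, c n * s ^ (2 * n))
      (Set.Icc 0 r) := by
    apply monotoneOn_of_deriv_nonneg (convex_Icc 0 r)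
    · intro t ht
      exact ((hE t ht.1 (ht.2.trans_lt hr1)).fun_sub (hT t)).continuousAt.continuousWithinAt
    · intro t ht
      rw [interior_Icc] at ht
      exact ((hE t ht.1.le (ht.2.trans hr1)).fun_sub
        (hT t)).differentiableAt.differentiableWithinAt
    · intro t ht
      rw [interior_Icc] at ht
      have ht0 : 0 < t := ht.1
      have ht1 : t < 1 := ht.2.trans hr1
      rw [((hE t ht0.le ht1).fun_sub (hT t)).deriv]
      have hA := k6 φ hφ.1 hφ.2.1 t (t / (1 - t ^ 2)) ht0 ht1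
        (fun z hz => growth_sqrt k5 f φ hf hsq t ht0 ht1 z hz) N
      have h1 : ∑ n ∈ range N, c n * (((2 * n : ℕ) : ℝ) * t ^ (2 * n - 1)) =
          2 / t * ∑ n ∈ range N, (n : ℝ) * ‖tc φ n‖ ^ 2 * t ^ (2 * n) := by
        rw [Finset.mul_sum]
        apply Finset.sum_congr rfl
        intro n _
        rcases Nat.eq_zero_or_pos n with hn | hn
        · subst hn; simp
        · have h2 : t ^ (2 * n) = t ^ (2 * n - 1) * t := by
            rw [← pow_succ]; congr 1; omega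
          rw [h2, hc]
          push_cast
          field_simp
      rw [h1]
      have h1t : 0 < 1 - t ^ 2 := by nlinarith
      have h3 : 2 / t * ∑ n ∈ range N, (n : ℝ) * ‖tc φ n‖ ^ 2 * t ^ (2 * n) ≤
          2 / t * (t / (1 - t ^ 2)) ^ 2 := mul_le_mul_of_nonneg_left hA (by positivity)
      have h4 : 2 / t * (t / (1 - t ^ 2)) ^ 2 = 2 * t / (1 - t ^ 2) ^ 2 := by
        field_simp
      rw [h4] at h3
      linarith
  have h := hmono (Set.left_mem_Icc.2 hr0.le) (Set.right_mem_Icc.2 hr0.le) hr0.le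
  have hT0 : ∑ n ∈ range N, c n * (0 : ℝ) ^ (2 * n) = 0 := by
    apply Finset.sum_eq_zero
    intro n _
    rcases Nat.eq_zero_or_pos n with hn | hn
    · subst hn
      simp [hc, tc, hφ.2.2.1]
    · rw [zero_pow (by omega), mul_zero]
  simp only [hT0] at h
  have h1r : 0 < 1 - r ^ 2 := by nlinarith
  have h5 : r ^ 2 / (1 - r ^ 2) = 1 / (1 - r ^ 2) - 1 := by
    field_simp; ring
  rw [h5]
  simp only [hc] at h
  norm_num at h ⊢
  linarith

end Pool.Agent.MultS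

end

section

/-!
# MP_b17785_an, item K8: the coefficient bound of Littlewood
-/

set_option autoImplicit false

open Complex Metric Set Filter Topology MeasureTheory Finset

namespace Pool.Agent.MultS

namespace K8

/-- Taylor series. -/
theorem hasSum_tc {f : ℂ → ℂ} (hf : DifferentiableOn ℂ f (ball 0 1)) {z : ℂ}
    (hz : z ∈ ball (0 : ℂ) 1) : HasSum (fun n => tc f n * z ^ n) (f z) := by
  have h := Complex.hasSum_taylorSeries_on_ball hf hz
  refine h.congr_fun fun n => ?_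
  rw [tc, sub_zero, smul_eq_mul, smul_eq_mul]
  ring

/-- The coefficients of the square of a power series in `z ^ 2`. -/
theorem coeff_sq {f φ : ℂ → ℂ} (hf : DifferentiableOn ℂ f (ball 0 1))
    (hφ : DifferentiableOn ℂ φ (ball 0 1)) (h : ∀ z ∈ ball (0 : ℂ) 1, φ z ^ 2 = f (z ^ 2))
    (n : ℕ) : tc f n = ∑ p ∈ antidiagonal (2 * n), tc φ p.1 * tc φ p.2 := by
  have h1 : ∀ z ∈ ball (0 : ℂ) 1, HasSum
      (fun N => (∑ p ∈ antidiagonal N, tc φ p.1 * tc φ p.2) * z ^ N) (φ z ^ 2) := by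
    intro z hz
    have hs := hasSum_tc hφ hz
    have hn : Summable (fun n => ‖tc φ n * z ^ n‖) := hs.summable.norm
    have h2 := summable_norm_sum_mul_antidiagonal_of_summable_norm hn hn
    have h3 := tsum_mul_tsum_eq_tsum_sum_antidiagonal_of_summable_norm hn hn
    have h4 := h2.of_norm.hasSum
    rw [← h3, hs.tsum_eq, ← pow_two] at h4
    refine h4.congr_fun fun N => ?_
    rw [Finset.sum_mul]
    refine Finset.sum_congr rfl fun p hp => ?_
    have h5 : p.1 + p.2 = N := Finset.HasAntidiagonal.mem_antidiagonal.mp hp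
    rw [← h5, pow_add]
    ring
  have h2 : ∀ z ∈ ball (0 : ℂ) 1, HasSum
      (fun N => (if N % 2 = 0 then tc f (N / 2) else 0) * z ^ N) (φ z ^ 2) := by
    intro z hz
    have hz2 : z ^ 2 ∈ ball (0 : ℂ) 1 := by
      rw [mem_ball_zero_iff] at hz ⊢
      rw [norm_pow]
      exact pow_lt_one₀ (norm_nonneg _) hz two_ne_zero
    have hs := hasSum_tc hf hz2
    rw [← h z hz] at hs
    have hinj : Function.Injective (fun k : ℕ => 2 * k) := fun a b hab => by
      simpa using hab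
    rw [← hinj.hasSum_iff] 
    · refine hs.congr_fun fun k => ?_
      have e1 : 2 * k % 2 = 0 := by omega
      have e2 : 2 * k / 2 = k := by omega
      simp only [Function.comp, e1, e2, if_true, pow_mul]
    · intro N hN
      have : N % 2 ≠ 0 := by
        intro h0
        exact hN ⟨N / 2, by simp only; omega⟩
      simp [this]
  have e1 := tc_of_hasSum h1 (2 * n)
  have e2 := tc_of_hasSum h2 (2 * n)
  have e3 : 2 * n % 2 = 0 := by omega
  have e4 : 2 * n / 2 = n := by omega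
  rw [e3, e4, if_pos rfl] at e2
  rw [← e1, ← e2]

theorem sum_le (x : ℕ → ℝ) (N : ℕ) : ∑ p ∈ antidiagonal N, x p.1 * x p.2 ≤
    ∑ i ∈ range (N + 1), x i ^ 2 := by
  have h1 : ∑ p ∈ antidiagonal N, x p.1 ^ 2 = ∑ i ∈ range (N + 1), x i ^ 2 :=
    Finset.Nat.sum_antidiagonal_eq_sum_range_succ (fun i _ => x i ^ 2) N
  have h2 : ∑ p ∈ antidiagonal N, x p.2 ^ 2 = ∑ i ∈ range (N + 1), x i ^ 2 := by
    rw [← h1, ← Finset.Nat.sum_antidiagonal_swap]
    rfl
  have h3 : ∑ p ∈ antidiagonal N, x p.1 * x p.2 ≤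
      ∑ p ∈ antidiagonal N, (x p.1 ^ 2 + x p.2 ^ 2) / 2 := by
    refine Finset.sum_le_sum fun p _ => ?_
    nlinarith [sq_nonneg (x p.1 - x p.2)]
  rw [← Finset.sum_div, Finset.sum_add_distrib, h1, h2] at h3
  linarith

theorem pow_bound {m : ℕ} (hm : 1 ≤ m) : (1 : ℝ) / 3 ≤ ((m : ℝ) / (m + 1)) ^ m := by
  have hm' : (0 : ℝ) < m := by exact_mod_cast hm
  have h1 : ((m : ℝ) + 1) / m ≤ Real.exp (1 / m) := by
    have := Real.add_one_le_exp (1 / (m : ℝ))
    have e : ((m : ℝ) + 1) / m = 1 / m + 1 := by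
      field_simp
      ring
    rw [e]
    exact this
  have h2 : (((m : ℝ) + 1) / m) ^ m ≤ 3 := by
    calc (((m : ℝ) + 1) / m) ^ m ≤ Real.exp (1 / m) ^ m := by
          gcongr
      _ = Real.exp 1 := by
          rw [← Real.exp_nat_mul]
          congr 1
          field_simp
      _ ≤ 3 := by
          have := Real.exp_one_lt_d9
          linarith
  have h3 : ((m : ℝ) / (m + 1)) ^ m = ((((m : ℝ) + 1) / m) ^ m)⁻¹ := by
    rw [← inv_pow, inv_div]
  rw [h3, one_div]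
  exact inv_anti₀ (by positivity) h2

end K8

theorem prfLitt (h1 : SqrtT) (h7 : MeanSq) : Litt := by
  intro f hf n hn
  obtain ⟨φ, hφ, hsq, -⟩ := h1 f hf
  rcases hn.eq_or_lt with rfl | hn1
  · have e : tc f 1 = 1 := by
      rw [tc, iteratedDeriv_one, hf.2.2.2]
      simp
    rw [e]
    norm_num
  · obtain ⟨m, rfl⟩ : ∃ m, n = m + 1 := ⟨n - 1, by omega⟩
    have hm : 1 ≤ m := by omega
    have hm' : (0 : ℝ) < m := by exact_mod_cast hm
    set ρ : ℝ := (m : ℝ) / (m + 1) with hρ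
    have hρ0 : 0 < ρ := by positivity
    have hρ1 : ρ < 1 := by
      rw [hρ, div_lt_one (by positivity)]
      linarith
    set r : ℝ := Real.sqrt ρ with hr
    have hr0 : 0 < r := Real.sqrt_pos.mpr hρ0
    have hr1 : r < 1 := by
      rw [hr, Real.sqrt_lt' one_pos]
      simpa using hρ1
    have hr2 : r ^ 2 = ρ := Real.sq_sqrt hρ0.le
    have h2 := h7 f φ hf hφ hsq r hr0 hr1 (2 * (m + 1) + 1)
    have h3 : r ^ 2 / (1 - r ^ 2) = m := by
      rw [hr2, hρ]
      have : (1 : ℝ) - m / (m + 1) = 1 / (m + 1) := by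
        field_simp
        ring
      rw [this]
      field_simp
    rw [h3] at h2
    have h4 : ‖tc f (m + 1)‖ * r ^ (2 * (m + 1)) ≤ m := by
      rw [K8.coeff_sq hf.1 hφ.1 hsq (m + 1)]
      have h5 : ‖∑ p ∈ antidiagonal (2 * (m + 1)), tc φ p.1 * tc φ p.2‖ * r ^ (2 * (m + 1)) ≤
          ∑ p ∈ antidiagonal (2 * (m + 1)), (‖tc φ p.1‖ * r ^ p.1) * (‖tc φ p.2‖ * r ^ p.2) := by
        refine (mul_le_mul_of_nonneg_right (norm_sum_le _ _) (by positivity)).trans
          (le_of_eq ?_)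
        rw [Finset.sum_mul]
        refine Finset.sum_congr rfl fun p hp => ?_
        have h6 : p.1 + p.2 = 2 * (m + 1) := Finset.HasAntidiagonal.mem_antidiagonal.mp hp
        rw [← h6, pow_add, norm_mul]
        ring
      refine h5.trans ((K8.sum_le (fun i => ‖tc φ i‖ * r ^ i) _).trans ?_)
      refine le_trans (le_of_eq ?_) h2
      refine Finset.sum_congr rfl fun i _ => ?_
      rw [mul_pow, ← pow_mul, mul_comm i 2]
    have h8 : r ^ (2 * (m + 1)) = ρ ^ m * ρ := by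
      rw [pow_mul, hr2, pow_succ]
    rw [h8] at h4
    have h9 := K8.pow_bound hm
    rw [← hρ] at h9
    have h10 : ‖tc f (m + 1)‖ * ρ ≤ 3 * m := by
      have h11 : ‖tc f (m + 1)‖ * ρ * (1 / 3) ≤ ‖tc f (m + 1)‖ * ρ * ρ ^ m := by
        gcongr
      nlinarith
    have h12 : ‖tc f (m + 1)‖ * m ≤ 3 * m * (m + 1) := by
      have h13 : ‖tc f (m + 1)‖ * ρ * (m + 1) ≤ 3 * m * (m + 1) :=
        mul_le_mul_of_nonneg_right h10 (by positivity)
      have h14 : ‖tc f (m + 1)‖ * ρ * (m + 1) = ‖tc f (m + 1)‖ * m := by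
        rw [hρ]
        field_simp
      linarith
    have h15 : ‖tc f (m + 1)‖ * m ≤ (3 * (m + 1)) * m := by linarith
    have h16 := le_of_mul_le_mul_right h15 hm'
    push_cast
    exact h16

end Pool.Agent.MultS

end

section

/-!
# MP_b17785_an: [K9] the sufficient condition
-/

set_option autoImplicit false

open Complex Metric Set Filter Topology MeasureTheory Finset

namespace Pool.Agent.MultS

theorem k9_pow_sub (z w : ℂ) (r : ℝ) (hz : ‖z‖ ≤ r) (hw : ‖w‖ ≤ r) (n : ℕ) :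
    ‖z ^ (n + 1) - w ^ (n + 1)‖ ≤ ((n : ℝ) + 1) * r ^ n * ‖z - w‖ := by
  have hr : 0 ≤ r := (norm_nonneg z).trans hz
  induction n with
  | zero => simp
  | succ n ih =>
    have e : z ^ (n + 1 + 1) - w ^ (n + 1 + 1) =
        z * (z ^ (n + 1) - w ^ (n + 1)) + (z - w) * w ^ (n + 1) := by ring
    rw [e]
    refine (norm_add_le _ _).trans ?_
    rw [norm_mul, norm_mul, norm_pow]
    have h1 : ‖z‖ * ‖z ^ (n + 1) - w ^ (n + 1)‖ ≤ r * (((n : ℝ) + 1) * r ^ n * ‖z - w‖) :=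
      mul_le_mul hz ih (norm_nonneg _) hr
    have h2 : ‖z - w‖ * ‖w‖ ^ (n + 1) ≤ ‖z - w‖ * r ^ (n + 1) :=
      mul_le_mul_of_nonneg_left (pow_le_pow_left₀ (norm_nonneg _) hw _) (norm_nonneg _)
    refine (add_le_add h1 h2).trans (le_of_eq ?_)
    push_cast
    ring

theorem prfSuff (hL : Litt) : Suff := by
  intro lam h1 hs hle f hf
  obtain ⟨hfd, hfi, hf0, hf1⟩ := hf
  have hL' := hL f ⟨hfd, hfi, hf0, hf1⟩
  -- the coefficients
  set b : ℕ → ℂ := fun n => lam (n + 1) * tc f (n + 1) with hb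
  have ht1 : tc f 1 = 1 := by
    rw [tc, iteratedDeriv_one, hf1]; simp
  have hb0 : b 0 = 1 := by
    rw [hb]; simp only [zero_add]; rw [h1, ht1, one_mul]
  have hbn : ∀ n : ℕ, ((n : ℝ) + 1) * ‖b n‖ ≤ 3 * (((n : ℝ) + 1) ^ 2 * ‖lam (n + 1)‖) := by
    intro n
    have := hL' (n + 1) (by omega)
    rw [hb]
    simp only [norm_mul]
    push_cast at this
    have h3 : ‖lam (n + 1)‖ * ‖tc f (n + 1)‖ ≤ ‖lam (n + 1)‖ * (3 * ((n : ℝ) + 1)) :=
      mul_le_mul_of_nonneg_left this (norm_nonneg _)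
    have h4 := mul_le_mul_of_nonneg_left h3 (by positivity : (0 : ℝ) ≤ (n : ℝ) + 1)
    refine h4.trans (le_of_eq ?_)
    ring
  have hs1 : Summable (fun n : ℕ => ((n : ℝ) + 1) ^ 2 * ‖lam (n + 1)‖) := by
    have := (summable_nat_add_iff 1).2 hs
    refine this.congr fun n => ?_
    push_cast
    ring
  have hsb : Summable (fun n : ℕ => ((n : ℝ) + 1) * ‖b n‖) :=
    Summable.of_nonneg_of_le (fun n => by positivity) hbn (hs1.mul_left 3)
  have hsb' : Summable (fun n : ℕ => ((n : ℝ) + 2) * ‖b (n + 1)‖) := by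
    have := (summable_nat_add_iff 1).2 hsb
    refine this.congr fun n => ?_
    push_cast
    ring
  have hT : ∑' n : ℕ, ((n : ℝ) + 2) * ‖b (n + 1)‖ ≤ 1 := by
    have hs2 : Summable (fun n : ℕ => ((n : ℝ) + 2) ^ 2 * ‖lam (n + 2)‖) := by
      have := (summable_nat_add_iff 2).2 hs
      refine this.congr fun n => ?_
      push_cast
      ring
    have h5 : ∑' n : ℕ, ((n : ℝ) + 2) * ‖b (n + 1)‖ ≤
        ∑' n : ℕ, 3 * (((n : ℝ) + 2) ^ 2 * ‖lam (n + 2)‖) := by
      refine hsb'.tsum_le_tsum ?_ (hs2.mul_left 3)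
      intro n
      have := hbn (n + 1)
      push_cast at this
      have e1 : (n : ℝ) + 1 + 1 = (n : ℝ) + 2 := by ring
      rw [e1] at this
      exact this
    rw [tsum_mul_left] at h5
    linarith
  have hsn : Summable (fun n : ℕ => ‖b n‖) := by
    refine Summable.of_nonneg_of_le (fun n => norm_nonneg _) (fun n => ?_) hsb
    have : (0 : ℝ) ≤ n := n.cast_nonneg
    nlinarith [norm_nonneg (b n)]
  have hsz : ∀ z ∈ ball (0 : ℂ) 1, Summable (fun n : ℕ => b n * z ^ (n + 1)) := by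
    intro z hz
    refine Summable.of_norm_bounded hsn fun n => ?_
    rw [norm_mul, norm_pow]
    have : ‖z‖ ≤ 1 := (mem_ball_zero_iff.1 hz).le
    exact mul_le_of_le_one_right (norm_nonneg _) (pow_le_one₀ (norm_nonneg _) this)
  refine ⟨hsz, ?_⟩
  set g : ℂ → ℂ := fun z => ∑' n : ℕ, b n * z ^ (n + 1) with hg
  have hgs : ∀ z ∈ ball (0 : ℂ) 1, HasSum (fun n : ℕ => b n * z ^ (n + 1)) (g z) :=
    fun z hz => (hsz z hz).hasSum
  -- the coefficient sequence with a zero in front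
  set c : ℕ → ℂ := fun n => Nat.casesOn n 0 b with hc
  have hcs : ∀ z ∈ ball (0 : ℂ) 1, HasSum (fun n : ℕ => c n * z ^ n) (g z) := by
    intro z hz
    have := (hasSum_nat_add_iff (f := fun n : ℕ => c n * z ^ n) 1).1 (hgs z hz)
    simpa [hc] using this
  have hgd := (fps_of_hasSum hcs).differentiableOn
  rw [← ENNReal.ofReal_one, Metric.eball_ofReal] at hgd
  have hgt := tc_of_hasSum hcs
  refine ⟨hgd, ?_, ?_, ?_⟩
  · intro z hz w hw hzw
    by_contra hne
    have hz1 := mem_ball_zero_iff.1 hz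
    have hw1 := mem_ball_zero_iff.1 hw
    set r : ℝ := max ‖z‖ ‖w‖ with hr
    have hr1 : r < 1 := max_lt hz1 hw1
    have hr0 : 0 ≤ r := (norm_nonneg z).trans (le_max_left _ _)
    have hdiff : HasSum (fun n : ℕ => b n * (z ^ (n + 1) - w ^ (n + 1))) (g z - g w) := by
      have := (hgs z hz).sub (hgs w hw)
      refine this.congr_fun fun n => ?_
      ring
    rw [show g z = g w from hzw, sub_self] at hdiff
    have hd1 := (hasSum_nat_add_iff' 1).2 hdiff
    simp only [Finset.sum_range_one, hb0, zero_add, pow_one, one_mul, zero_sub] at hd1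
    have hbd : ∀ n : ℕ, ‖b (n + 1) * (z ^ (n + 1 + 1) - w ^ (n + 1 + 1))‖ ≤
        (r * ‖z - w‖) * (((n : ℝ) + 2) * ‖b (n + 1)‖) := by
      intro n
      rw [norm_mul]
      have h6 := k9_pow_sub z w r (le_max_left _ _) (le_max_right _ _) (n + 1)
      push_cast at h6
      have h7 : r ^ (n + 1) ≤ r := pow_le_of_le_one hr0 hr1.le (by omega)
      have h8 : ((n : ℝ) + 1 + 1) * r ^ (n + 1) * ‖z - w‖ ≤ ((n : ℝ) + 2) * r * ‖z - w‖ := by
        have : ((n : ℝ) + 1 + 1) * r ^ (n + 1) ≤ ((n : ℝ) + 2) * r := by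
          have hn : (0 : ℝ) ≤ (n : ℝ) + 2 := by positivity
          calc ((n : ℝ) + 1 + 1) * r ^ (n + 1) = ((n : ℝ) + 2) * r ^ (n + 1) := by ring
            _ ≤ ((n : ℝ) + 2) * r := mul_le_mul_of_nonneg_left h7 hn
        exact mul_le_mul_of_nonneg_right this (norm_nonneg _)
      refine (mul_le_mul_of_nonneg_left (h6.trans h8) (norm_nonneg _)).trans (le_of_eq ?_)
      ring
    have hn1 : ‖-(z - w)‖ ≤ (r * ‖z - w‖) * ∑' n : ℕ, (((n : ℝ) + 2) * ‖b (n + 1)‖) := by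
      rw [← hd1.tsum_eq, ← tsum_mul_left]
      exact tsum_of_norm_bounded ((hsb'.mul_left _).hasSum) hbd
    rw [norm_neg] at hn1
    have hpos : 0 < ‖z - w‖ := norm_pos_iff.2 (sub_ne_zero.2 hne)
    have h9 : (r * ‖z - w‖) * ∑' n : ℕ, (((n : ℝ) + 2) * ‖b (n + 1)‖) ≤ (r * ‖z - w‖) * 1 :=
      mul_le_mul_of_nonneg_left hT (by positivity)
    have h10 : r * ‖z - w‖ < 1 * ‖z - w‖ := mul_lt_mul_of_pos_right hr1 hpos
    linarith
  · change ∑' n : ℕ, b n * (0 : ℂ) ^ (n + 1) = 0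
    simp
  · have := hgt 1
    rw [tc, iteratedDeriv_one] at this
    simp only [Nat.factorial_one, Nat.cast_one, div_one] at this
    rw [this]
    exact hb0

end Pool.Agent.MultS

end

section

set_option autoImplicit false

open Complex Metric Set Filter Topology Finset

namespace Pool.Agent.MultS

theorem prfGenEx (a4 : TestQ) : GenEx := by
  intro lam hM
  obtain ⟨f, hf, hfc⟩ := a4 (-1) (by simp) (by simp)
  obtain ⟨g, hg, hgc⟩ := hM f hf
  refine ⟨g, hg, fun n hn => ?_⟩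
  rw [hgc n hn, hfc n hn, cf_neg_one]
  obtain ⟨m, rfl⟩ : ∃ m, n = m + 1 := ⟨n - 1, by omega⟩
  have : ((m : ℂ) + 1) ≠ 0 := by exact_mod_cast Nat.succ_ne_zero m
  simp only [Nat.add_sub_cancel]
  push_cast
  field_simp

end Pool.Agent.MultS

end

section

/-!
# Coefficient multipliers of the class S: small non-negative perturbations of the identity function
-/

set_option autoImplicit false

open Complex Metric Set Filter Topology MeasureTheory Finset

namespace Pool.Agent.MultS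

/-- The sequence `1, c μ 2, c μ 3, ...`. -/
noncomputable def pert (μ : ℕ → ℝ) (c : ℝ) (n : ℕ) : ℝ := if n ≤ 1 then 1 else c * μ n

lemma summable_pert_iff {μ : ℕ → ℝ} {c : ℝ} (hc : 0 < c) :
    Summable (fun n : ℕ => (n : ℝ) ^ 2 * pert μ c n) ↔
      Summable (fun n : ℕ => (n : ℝ) ^ 2 * μ n) := by
  rw [← summable_nat_add_iff 2, ← summable_nat_add_iff (f := fun n : ℕ => (n : ℝ) ^ 2 * μ n) 2,
    ← summable_mul_left_iff (f := fun n : ℕ => ((n + 2 : ℕ) : ℝ) ^ 2 * μ (n + 2)) hc.ne']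
  refine summable_congr fun n => ?_
  unfold pert
  rw [if_neg (by omega)]
  ring

/-- Small non-negative perturbations. -/
theorem pertIff (k9 : Suff)
    (h3 : ∀ lam : ℕ → ℝ, (∀ n, 0 ≤ lam n) → Lit Sc (fun n => (lam n : ℂ)) →
      (∀ n : ℕ, 1 ≤ n → lam n = 1) ∨ Summable (fun n : ℕ => (n : ℝ) ^ 2 * lam n))
    (μ : ℕ → ℝ) (hμ : ∀ n, 0 ≤ μ n) :
    (∃ c0 : ℝ, 0 < c0 ∧ ∀ c : ℝ, 0 < c → c ≤ c0 →
      Lit Sc (fun n => ((if n ≤ 1 then 1 else c * μ n : ℝ) : ℂ))) ↔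
    Summable (fun n : ℕ => (n : ℝ) ^ 2 * μ n) := by
  have hnn : ∀ c : ℝ, 0 < c → ∀ n, 0 ≤ pert μ c n := by
    intro c hc n
    unfold pert
    split_ifs
    · exact zero_le_one
    · exact mul_nonneg hc.le (hμ n)
  constructor
  · rintro ⟨c0, hc0, h⟩
    rcases h3 (pert μ c0) (hnn c0 hc0) (h c0 hc0 le_rfl) with h1 | h1
    · have h2 : c0 * μ 2 = 1 := by
        have := h1 2 (by norm_num)
        simpa [pert] using this
      rcases h3 (pert μ (c0 / 2)) (hnn _ (by linarith)) (h (c0 / 2) (by linarith) (by linarith))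
        with h3 | h3
      · have h4 : c0 / 2 * μ 2 = 1 := by
          have := h3 2 (by norm_num)
          simpa [pert] using this
        linarith
      · exact (summable_pert_iff (by linarith)).1 h3
    · exact (summable_pert_iff hc0).1 h1
  · intro hs
    set T : ℝ := ∑' n : ℕ, ((n : ℝ) + 2) ^ 2 * μ (n + 2) with hT
    have hT0 : 0 ≤ T := tsum_nonneg fun n => mul_nonneg (by positivity) (hμ _)
    refine ⟨1 / (3 * (T + 1)), by positivity, fun c hc hc1 => ?_⟩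
    refine k9 _ (by simp) ?_ ?_
    · have := (summable_pert_iff (μ := μ) hc).2 hs
      refine this.congr fun n => ?_
      have e : ‖((if n ≤ 1 then 1 else c * μ n : ℝ) : ℂ)‖ = pert μ c n := by
        rw [Complex.norm_real]
        exact Real.norm_of_nonneg (hnn c hc n)
      rw [e]
    · have e : ∀ n : ℕ, ((n : ℝ) + 2) ^ 2 *
          ‖((if n + 2 ≤ 1 then 1 else c * μ (n + 2) : ℝ) : ℂ)‖ =
          c * (((n : ℝ) + 2) ^ 2 * μ (n + 2)) := by
        intro n
        rw [if_neg (by omega), Complex.norm_real, Real.norm_of_nonneg (mul_nonneg hc.le (hμ _))]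
        ring
      rw [tsum_congr e, tsum_mul_left, ← hT]
      have h5 : c * T ≤ 1 / (3 * (T + 1)) * (T + 1) :=
        mul_le_mul hc1 (by linarith) hT0 (by positivity)
      have h6 : 1 / (3 * (T + 1)) * (T + 1) = 1 / 3 := by
        field_simp
      linarith

/-- The powers. -/
theorem powNot
    (h3 : ∀ lam : ℕ → ℝ, (∀ n, 0 ≤ lam n) → Lit Sc (fun n => (lam n : ℂ)) →
      (∀ n : ℕ, 1 ≤ n → lam n = 1) ∨ Summable (fun n : ℕ => (n : ℝ) ^ 2 * lam n))
    (κ : ℝ) (h0 : 0 < κ) (h1 : κ ≤ 3) : ¬ Lit Sc (fun n => (((n : ℝ) ^ (-κ) : ℝ) : ℂ)) := by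
  intro h
  rcases h3 (fun n => (n : ℝ) ^ (-κ)) (fun n => by positivity) h with h2 | h2
  · have h4 := h2 2 (by norm_num)
    have h5 : ((2 : ℕ) : ℝ) ^ (-κ) < 1 := by
      apply Real.rpow_lt_one_of_one_lt_of_neg
      · norm_num
      · linarith
    linarith
  · have h4 : Summable (fun n : ℕ => (n : ℝ) ^ (2 - κ)) := by
      rw [← summable_nat_add_iff 1] at h2 ⊢
      refine h2.congr fun n => ?_
      have hpos : (0 : ℝ) < ((n + 1 : ℕ) : ℝ) := by positivity
      rw [sub_eq_add_neg, Real.rpow_add hpos]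
      norm_num
    rw [Real.summable_nat_rpow] at h4
    linarith

end Pool.Agent.MultS

end
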