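import Pool.Agent.Work.MP_b17785_an.Bd.B04

/-! Bundle of small proof modules (one section per former module). -/

section

set_option autoImplicit false

open Complex Metric Set Filter Topology Finset

namespace Pool.Agent.MultS

theorem tc_id (n : ℕ) : tc (fun z : ℂ => z) n = if n = 1 then 1 else 0 := by
  refine tc_of_hasSum (c := fun n => if n = 1 then 1 else 0) (fun z _ => ?_) n
  have := hasSum_single (f := fun n : ℕ => (if n = 1 then (1 : ℂ) else 0) * z ^ n) 1 (by
    intro m hm; simp [hm])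
  simpa using this

theorem prfLitZero : LitZero := by
  intro lam hL
  have hone : lam 1 ≠ 0 := by
    intro hc
    have hid : S0 (fun z : ℂ => z) := ⟨differentiableOn_id, fun x _ y _ h => h, rfl⟩
    obtain ⟨-, -, hinj, -⟩ := hL _ hid
    have key : ∀ z : ℂ, (∑' n : ℕ, lam (n + 1) * tc (fun z : ℂ => z) (n + 1) * z ^ (n + 1)) = 0 := by
      intro z
      have : (fun n : ℕ => lam (n + 1) * tc (fun z : ℂ => z) (n + 1) * z ^ (n + 1)) =
          fun _ => 0 := by
        funext n
        rw [tc_id]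
        by_cases hn : n = 0
        · subst hn; simp [hc]
        · rw [if_neg (by omega)]; ring
      rw [this, tsum_zero]
    have h0 : (0 : ℂ) ∈ ball (0 : ℂ) 1 := by simp
    have h1 : (1 / 2 : ℂ) ∈ ball (0 : ℂ) 1 := by
      rw [mem_ball_zero_iff]; norm_num
    have := hinj h0 h1 (by simp only; rw [key, key])
    norm_num at this
  refine ⟨hone, fun f hf => ?_⟩
  obtain ⟨h1, hd, hi, h0⟩ := hL f ⟨hf.1, hf.2.1, hf.2.2.1⟩
  have hc := tc_lit h1
  set G : ℂ → ℂ := fun z => ∑' n : ℕ, lam (n + 1) * tc f (n + 1) * z ^ (n + 1) with hG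
  have hG1 : deriv G 0 = lam 1 := by
    rw [← tc_one, hc 1 le_rfl, tc_one, hf.2.2.2, mul_one]
  refine ⟨fun z => (lam 1)⁻¹ * G z, ⟨(differentiableOn_const _).mul hd, ?_, ?_, ?_⟩, ?_⟩
  · intro x hx y hy hxy
    exact hi hx hy (mul_left_cancel₀ (inv_ne_zero hone) hxy)
  · simp only; rw [h0, mul_zero]
  · have : DifferentiableAt ℂ G 0 := (hd 0 (by simp)).differentiableAt
      (isOpen_ball.mem_nhds (by simp))
    rw [(this.hasDerivAt.const_mul _).deriv, hG1, inv_mul_cancel₀ hone]
  · intro n hn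
    refine tc_of_hasSum_succ (c := fun n => lam n / lam 1 * tc f n) (fun z hz => ?_) n hn
    have := ((h1 z hz).hasSum).mul_left (lam 1)⁻¹
    convert! this using 2 with m
    field_simp

end Pool.Agent.MultS

end

section

/-!
# MP_b17785_an, item K3: Bieberbach's inequality for the second coefficient
-/

set_option autoImplicit false

open Complex Metric Set Filter Topology MeasureTheory Finset

namespace Pool.Agent.MultS

namespace ItemK3

theorem dslope_ne {f : ℂ → ℂ} (hf : Sc f) : ∀ z ∈ ball (0 : ℂ) 1, dslope f 0 z ≠ 0 := by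
  obtain ⟨hd, hinj, h0, h1⟩ := hf
  intro z hz
  by_cases hz0 : z = 0
  · rw [hz0, dslope_same, h1]
    exact one_ne_zero
  · rw [dslope_of_ne _ hz0, slope_def_field]
    refine div_ne_zero (sub_ne_zero.2 fun h => hz0 ?_) (sub_ne_zero.2 hz0)
    exact hinj hz (mem_ball_self one_pos) h

/-- the second Taylor coefficient -/
theorem tc_two {f : ℂ → ℂ} (hf : Sc f) : tc f 2 = deriv (dslope f 0) 0 := by
  obtain ⟨hd, hinj, h0, h1⟩ := hf
  have hm0 : (0 : ℂ) ∈ ball (0 : ℂ) 1 := mem_ball_self one_pos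
  have hm : ball (0 : ℂ) 1 ∈ 𝓝 (0 : ℂ) := isOpen_ball.mem_nhds hm0
  have hq : DifferentiableOn ℂ (dslope f 0) (ball 0 1) := (differentiableOn_dslope hm).2 hd
  have hfq : f = fun z => z * dslope f 0 z := funext fun z => (dslope_mul h0 z).symm
  have hder : ∀ z ∈ ball (0 : ℂ) 1, deriv f z = dslope f 0 z + z * deriv (dslope f 0) z := by
    intro z hz
    have hqz := (hq.differentiableAt (isOpen_ball.mem_nhds hz)).hasDerivAt
    have := (hasDerivAt_id z).mul hqz
    have h2 : (id * dslope f 0) = f := by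
      rw [hfq]
      funext w
      simp only [Pi.mul_apply, id_eq]
      rw [← hfq]
    rw [h2] at this
    rw [this.deriv]
    simp
  have hev : deriv f =ᶠ[𝓝 0] fun z => dslope f 0 z + z * deriv (dslope f 0) z := by
    filter_upwards [hm] with z hz using hder z hz
  have hq' : DifferentiableOn ℂ (deriv (dslope f 0)) (ball 0 1) := hq.deriv isOpen_ball
  have h3 := (hq.differentiableAt hm).hasDerivAt
  have h4 := (hasDerivAt_id (0 : ℂ)).mul (hq'.differentiableAt hm).hasDerivAt
  have h5 := (h3.add h4).deriv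
  have h6 : (dslope f 0 + id * deriv (dslope f 0)) =
      fun z => dslope f 0 z + z * deriv (dslope f 0) z := rfl
  rw [h6] at h5
  rw [tc, iteratedDeriv_succ, iteratedDeriv_one, hev.deriv_eq, h5]
  simp

end ItemK3

open ItemK3 in
theorem bieb_of_area (hA : AreaOut) : Bieb := by
  intro f hf
  obtain ⟨s, hs, hs0, hsq⟩ := exists_sqrt_slope hf
  obtain ⟨hφ, _⟩ := sqrt_transform hf hs hs0 hsq
  have hm0 : (0 : ℂ) ∈ ball (0 : ℂ) 1 := mem_ball_self one_pos
  have hm : ball (0 : ℂ) 1 ∈ 𝓝 (0 : ℂ) := isOpen_ball.mem_nhds hm0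
  have hsne : ∀ z ∈ ball (0 : ℂ) 1, s z ≠ 0 := by
    intro z hz h
    have := hsq z hz
    rw [h] at this
    exact dslope_ne hf z hz (by rw [← this]; ring)
  set g : ℂ → ℂ := fun w => (s w)⁻¹ with hg
  have hgd : DifferentiableOn ℂ g (ball 0 1) := hs.inv hsne
  have hg0 : g 0 = 1 := by rw [hg]; simp [hs0]
  have ht : DifferentiableOn ℂ (dslope g 0) (ball 0 1) := (differentiableOn_dslope hm).2 hgd
  have hχ : DifferentiableOn ℂ (fun z : ℂ => z * dslope g 0 (z ^ 2)) (ball 0 1) :=
    differentiableOn_id.mul (ht.comp (by fun_prop) fun z hz => sq_mem hz)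
  have hform : ∀ z ∈ ball (0 : ℂ) 1 \ {0},
      z⁻¹ + z * dslope g 0 (z ^ 2) = (z * s (z ^ 2))⁻¹ := by
    rintro z ⟨hz, hz0⟩
    have hz0' : z ≠ 0 := hz0
    rw [dslope_of_ne _ (pow_ne_zero 2 hz0'), slope_def_field, hg0, hg, sub_zero]
    have := hsne _ (sq_mem hz)
    field_simp
    ring
  have hinj : InjOn (fun z : ℂ => z⁻¹ + z * dslope g 0 (z ^ 2)) (ball 0 1 \ {0}) := by
    intro z hz w hw hzw
    have h1 : (z * s (z ^ 2))⁻¹ = (w * s (w ^ 2))⁻¹ := by
      rw [← hform z hz, ← hform w hw]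
      exact hzw
    exact hφ.2.1 hz.1 hw.1 (inv_injective h1)
  have hb := hA (fun z => z * dslope g 0 (z ^ 2)) hχ hinj
  -- the derivative of `χ` at `0`
  have hd1 : DifferentiableAt ℂ (fun z : ℂ => dslope g 0 (z ^ 2)) 0 :=
    (ht.comp (s := ball (0 : ℂ) 1) (by fun_prop) fun z hz => sq_mem hz).differentiableAt hm
  have h8 := ((hasDerivAt_id (0 : ℂ)).mul hd1.hasDerivAt).deriv
  have h10 : (id * fun z : ℂ => dslope g 0 (z ^ 2)) = fun z => z * dslope g 0 (z ^ 2) := rfl
  rw [h10] at h8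
  have hs1 : HasDerivAt s (deriv s 0) 0 := (hs.differentiableAt hm).hasDerivAt
  have hs0ne : s 0 ≠ 0 := by rw [hs0]; exact one_ne_zero
  have hg1 : deriv g 0 = -deriv s 0 := by
    have := (hs1.inv hs0ne).deriv
    rw [hs0] at this
    have h12 : (s⁻¹ : ℂ → ℂ) = g := rfl
    rw [h12] at this
    rw [this]
    ring
  have h9 : deriv (fun z : ℂ => z * dslope g 0 (z ^ 2)) 0 = -deriv s 0 := by
    rw [h8]
    simp [dslope_same, hg1]
  rw [h9, norm_neg] at hb
  -- the derivative of the slope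
  have hq1 : deriv (dslope f 0) 0 = 2 * deriv s 0 := by
    have hev : dslope f 0 =ᶠ[𝓝 0] fun z => s z ^ 2 := by
      filter_upwards [hm] with z hz using (hsq z hz).symm
    rw [hev.deriv_eq]
    have := (hs1.pow 2).deriv
    have h13 : (s ^ 2 : ℂ → ℂ) = fun z => s z ^ 2 := rfl
    rw [h13] at this
    rw [this, hs0]
    simp
  rw [tc_two hf, hq1, norm_mul]
  simp only [Complex.norm_ofNat]
  linarith

theorem prfBieb (_ : SqrtT) (hA : AreaOut) : Bieb := bieb_of_area hA

end Pool.Agent.MultS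

end
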