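import Mathlib
import Pool.Agent.Work.MP_b17785_an.Lip.StmtsE
import Pool.Agent.Work.MP_b17785_an.Bd.B04
import Pool.Agent.Work.MP_b17785_an.K2
import Pool.Agent.Work.MP_b17785_an.Bd.B05
import Pool.Agent.Work.MP_b17785_an.Lip.Stmts
import Pool.Agent.Work.MP_b17785_an.Bd.B02
import Pool.Agent.Work.MP_b17785_an.Bd.B01
import Pool.Agent.Work.MP_b17785_an.UB.Defs
import Pool.Agent.Work.MP_b17785_an.All

/-! Bundle of small proof modules (one section per former module). -/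

section

/-!
# MP_b17785_an, Lip, item E9: the area of the part of the image in an annulus
-/

set_option autoImplicit false

open Complex Metric Set Filter Topology MeasureTheory
open scoped ENNReal ComplexConjugate

namespace Pool.Agent.MultS

namespace LipAreaX

lemma vol_ann {R : ℝ} (hR : 0 < R) :
    volume (closedBall (0 : ℂ) (2 * R) \ ball 0 R) = ENNReal.ofReal (3 * Real.pi * R ^ 2) := by
  have hsub : ball (0 : ℂ) R ⊆ closedBall 0 (2 * R) :=
    ball_subset_closedBall.trans (closedBall_subset_closedBall (by linarith))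
  have hpi : (NNReal.pi : ENNReal) = ENNReal.ofReal Real.pi := by
    rw [ENNReal.ofReal, ← NNReal.coe_real_pi, Real.toNNReal_coe]
  have hpi0 : 0 < Real.pi := Real.pi_pos
  have hb : volume (ball (0 : ℂ) R) = ENNReal.ofReal (R ^ 2 * Real.pi) := by
    rw [Complex.volume_ball, hpi, ENNReal.ofReal_mul (by positivity), ENNReal.ofReal_pow hR.le]
  have hc : volume (closedBall (0 : ℂ) (2 * R)) = ENNReal.ofReal ((2 * R) ^ 2 * Real.pi) := by
    have h2 : (0 : ℝ) ≤ 2 * R := by positivity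
    rw [Complex.volume_closedBall, hpi, ENNReal.ofReal_mul (pow_nonneg h2 2),
      ENNReal.ofReal_pow h2]
  rw [measure_sdiff hsub measurableSet_ball.nullMeasurableSet (by rw [hb]; exact ENNReal.ofReal_ne_top),
    hb, hc, ← ENNReal.ofReal_sub _ (by positivity)]
  congr 1
  ring

end LipAreaX

open LipAreaX in
theorem prfLipArea : LipArea := by
  intro f R hf hR
  obtain ⟨hd, hi, h0, h1⟩ := hf
  set A : Set ℂ := {z : ℂ | z ∈ ball (0 : ℂ) 1 ∧ R ≤ ‖f z‖ ∧ ‖f z‖ ≤ 2 * R} with hA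
  have hsub : A ⊆ ball 0 1 := fun z hz => hz.1
  have hcl : IsClosed {w : ℂ | R ≤ ‖w‖ ∧ ‖w‖ ≤ 2 * R} :=
    (isClosed_le continuous_const continuous_norm).inter
      (isClosed_le continuous_norm continuous_const)
  have hAe : A = ball 0 1 \ (ball 0 1 ∩ f ⁻¹' {w : ℂ | R ≤ ‖w‖ ∧ ‖w‖ ≤ 2 * R}ᶜ) := by
    ext z
    constructor
    · rintro ⟨h2, h3⟩
      exact ⟨h2, fun h4 => h4.2 h3⟩
    · rintro ⟨h2, h3⟩
      refine ⟨h2, ?_⟩
      by_contra h4
      exact h3 ⟨h2, h4⟩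
  have hm : MeasurableSet A := by
    rw [hAe]
    exact measurableSet_ball.diff
      (hd.continuousOn.isOpen_inter_preimage isOpen_ball hcl.isOpen_compl).measurableSet
  have h3 : (∫⁻ z in A, ENNReal.ofReal (‖deriv f z‖ ^ 2)) = volume (f '' A) := by
    rw [← lintegral_abs_det_fderiv_eq_addHaar_image volume hm
      (f' := fun z => deriv f z • (1 : ℂ →L[ℝ] ℂ)) ?_ (hi.mono hsub)]
    · refine lintegral_congr (fun z => ?_)
      rw [K6.det_mul, abs_of_nonneg (by positivity)]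
    · intro z hz
      have h4 : HasDerivAt f (deriv f z) z :=
        ((hd z (hsub hz)).differentiableAt (isOpen_ball.mem_nhds (hsub hz))).hasDerivAt
      exact h4.complexToReal_fderiv.hasFDerivWithinAt
  rw [h3, ← vol_ann hR]
  refine measure_mono ?_
  rintro _ ⟨z, hz, rfl⟩
  refine ⟨?_, ?_⟩
  · rw [mem_closedBall_zero_iff]
    exact hz.2.2
  · rw [mem_ball_zero_iff, not_lt]
    exact hz.2.1

end Pool.Agent.MultS

end

section

/-!
# [E13] Growth of the extremal functions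
-/

set_option autoImplicit false

open Complex Metric Set Filter Topology MeasureTheory
open scoped ENNReal ComplexConjugate

namespace Pool.Agent.MultS

namespace LipGrwX

/-- directions -/
lemma dir (h1 : LipConn) (h2 : LipConnZ) (h3 : ∀ (f : ℂ → ℂ) (R : ℝ), Sc f → 4 ≤ R →
    volume {θ : ℝ | θ ∈ Ioo (-Real.pi) Real.pi ∧
      ∃ r : ℝ, 0 < r ∧ r < 1 ∧ 2 * R < ‖f ((r : ℂ) * exp ((θ : ℂ) * I))‖} ≤
      ENNReal.ofReal (6 * Real.pi / Real.sqrt R)) (h4 : LipProj) {f : ℂ → ℂ} (hf : Sc f)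
    (ho : OneOm f) {R : ℝ} (hR : 4 ≤ R) {z w : ℂ} (hz : z ∈ ball (0 : ℂ) 1)
    (hw : w ∈ ball (0 : ℂ) 1) (hfz : 2 * R < ‖f z‖) (hfw : 2 * R < ‖f w‖) :
    ‖z / ((‖z‖ : ℝ) : ℂ) - w / ((‖w‖ : ℝ) : ℂ)‖ ≤ 6 * Real.pi / Real.sqrt R := by
  have hpre : IsPreconnected {z : ℂ | z ∈ ball (0 : ℂ) 1 ∧ 2 * R < ‖f z‖} :=
    h2 f (2 * R) hf (h1 f (2 * R) hf ho (by linarith))
  refine h4 {z : ℂ | z ∈ ball (0 : ℂ) 1 ∧ 2 * R < ‖f z‖} _ hpre ?_ ?_ ?_ z ⟨hz, hfz⟩ w ⟨hw, hfw⟩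
  · rintro ⟨_, h⟩
    rw [hf.2.2.1, norm_zero] at h
    linarith
  · have := Real.pi_pos
    positivity
  · refine (measure_mono ?_).trans (h3 f R hf hR)
    rintro θ ⟨hθ, r, hr, hb, hl⟩
    refine ⟨hθ, r, hr, ?_, hl⟩
    have hn : ‖(r : ℂ) * exp ((θ : ℂ) * I)‖ = r := by
      rw [norm_mul, norm_exp_ofReal_mul_I, mul_one, Complex.norm_real, Real.norm_eq_abs,
        abs_of_pos hr]
    rw [mem_ball, dist_zero_right, hn] at hb
    exact hb

lemma unb {f : ℂ → ℂ} (ho : OneOm f) (M : ℝ) (hM : 0 < M) :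
    ∃ z ∈ ball (0 : ℂ) 1, M < ‖f z‖ := by
  have hne : ((M + 1 : ℝ) : ℂ) ≠ -((M + 1 : ℝ) : ℂ) := by
    intro h
    have h2 : M + 1 = -(M + 1) := by exact_mod_cast h
    linarith
  have hnorm : ‖((M + 1 : ℝ) : ℂ)‖ = M + 1 := by
    rw [Complex.norm_real, Real.norm_eq_abs, abs_of_pos (by linarith)]
  rcases ho _ _ hne (norm_neg _).symm with ⟨z, hz, hfz⟩ | ⟨z, hz, hfz⟩
  · exact ⟨z, hz, by rw [hfz, hnorm]; linarith⟩
  · exact ⟨z, hz, by rw [hfz, norm_neg, hnorm]; linarith⟩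

lemma unit_dir {z : ℂ} (hz : z ≠ 0) : ‖z / ((‖z‖ : ℝ) : ℂ)‖ = 1 := by
  rw [norm_div, Complex.norm_real, norm_norm, div_self (norm_ne_zero_iff.mpr hz)]

lemma near_dir {z : ℂ} (hz : z ≠ 0) (h1 : ‖z‖ < 1) : ‖z / ((‖z‖ : ℝ) : ℂ) - z‖ = 1 - ‖z‖ := by
  have h0 : 0 < ‖z‖ := norm_pos_iff.mpr hz
  have e : z / ((‖z‖ : ℝ) : ℂ) - z = (z / ((‖z‖ : ℝ) : ℂ)) * ((1 - ‖z‖ : ℝ) : ℂ) := by
    have : ((‖z‖ : ℝ) : ℂ) ≠ 0 := by exact_mod_cast h0.ne'
    push_cast
    field_simp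
  rw [e, norm_mul, unit_dir hz, one_mul, Complex.norm_real, Real.norm_eq_abs,
    abs_of_pos (by linarith)]

lemma sqrt_pow (n : ℕ) : Real.sqrt (4 ^ (n + 1)) = 2 ^ (n + 1) := by
  have : (4 : ℝ) ^ (n + 1) = (2 ^ (n + 1)) ^ 2 := by
    rw [← pow_mul, mul_comm, pow_mul]; norm_num
  rw [this, Real.sqrt_sq (by positivity)]

lemma four_le (n : ℕ) : (4 : ℝ) ≤ 4 ^ (n + 1) := by
  have : (1 : ℝ) ≤ 4 ^ n := one_le_pow₀ (by norm_num)
  rw [pow_succ]
  linarith

theorem main (hG : Growth) : LipGrw := by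
  intro h1 h2 h3 h4 f hf ho
  have hD := @dir h1 h2 h3 h4 f hf ho
  have hch : ∀ k : ℕ, ∃ z ∈ ball (0 : ℂ) 1, 2 * (4 : ℝ) ^ (k + 1) < ‖f z‖ := fun k =>
    unb ho _ (by positivity)
  choose zz hzz hfz using hch
  have hz0 : ∀ k, zz k ≠ 0 := by
    intro k h
    have := hfz k
    rw [h, hf.2.2.1, norm_zero] at this
    have h5 := four_le k
    linarith
  have hmono : ∀ N n : ℕ, N ≤ n → 2 * (4 : ℝ) ^ (N + 1) < ‖f (zz n)‖ := by
    intro N n hn
    refine lt_of_le_of_lt ?_ (hfz n)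
    have : (4 : ℝ) ^ (N + 1) ≤ 4 ^ (n + 1) := pow_le_pow_right₀ (by norm_num) (by omega)
    linarith
  have hb0 : Tendsto (fun N : ℕ => 6 * Real.pi / 2 ^ (N + 1)) atTop (𝓝 0) := by
    have h5 : Tendsto (fun N : ℕ => (2 : ℝ) ^ (N + 1)) atTop atTop :=
      (tendsto_pow_atTop_atTop_of_one_lt (by norm_num : (1 : ℝ) < 2)).comp
        (tendsto_add_atTop_nat 1)
    exact Tendsto.div_atTop tendsto_const_nhds h5
  have hcau : CauchySeq (fun k : ℕ => zz k / ((‖zz k‖ : ℝ) : ℂ)) := by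
    refine cauchySeq_of_le_tendsto_0 _ (fun n m N hn hm => ?_) hb0
    rw [dist_eq_norm]
    have := hD (four_le N) (hzz n) (hzz m) (hmono N n hn) (hmono N m hm)
    rwa [sqrt_pow] at this
  obtain ⟨t, ht⟩ := cauchySeq_tendsto_of_complete hcau
  have ht1 : ‖t‖ = 1 := by
    have h5 := ht.norm
    have h6 : (fun k : ℕ => ‖zz k / ((‖zz k‖ : ℝ) : ℂ)‖) = fun _ => (1 : ℝ) := by
      funext k
      exact unit_dir (hz0 k)
    rw [h6] at h5
    exact (tendsto_nhds_unique h5 tendsto_const_nhds)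
  refine ⟨t, ht1, fun z hz => ?_⟩
  have hzn : ‖z‖ < 1 := by simpa using hz
  have htz : ‖t - z‖ ≤ 2 := (norm_sub_le _ _).trans (by linarith)
  rcases le_or_gt ‖f z‖ 12 with hsm | hbig
  · have h5 : ‖t - z‖ ^ 2 ≤ 4 := by
      have := pow_le_pow_left₀ (norm_nonneg _) htz 2
      linarith
    have h6 : 0 ≤ ‖t - z‖ ^ 2 := by positivity
    nlinarith [norm_nonneg (f z)]
  · have hz00 : z ≠ 0 := by
      rintro rfl
      rw [hf.2.2.1, norm_zero] at hbig
      linarith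
    obtain ⟨a, ha⟩ : ∃ a, a = ‖f z‖ := ⟨_, rfl⟩
    rw [← ha] at hbig ⊢
    have hlim : ‖z / ((‖z‖ : ℝ) : ℂ) - t‖ ≤ 6 * Real.pi / Real.sqrt (a / 3) := by
      have h5 : Tendsto (fun k : ℕ => ‖z / ((‖z‖ : ℝ) : ℂ) - zz k / ((‖zz k‖ : ℝ) : ℂ)‖) atTop
          (𝓝 ‖z / ((‖z‖ : ℝ) : ℂ) - t‖) := (tendsto_const_nhds.sub ht).norm
      refine le_of_tendsto h5 ?_
      have h6 : Tendsto (fun N : ℕ => 2 * (4 : ℝ) ^ (N + 1)) atTop atTop :=
        Tendsto.const_mul_atTop (by norm_num)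
          ((tendsto_pow_atTop_atTop_of_one_lt (by norm_num : (1 : ℝ) < 4)).comp
            (tendsto_add_atTop_nat 1))
      filter_upwards [h6.eventually_gt_atTop (2 * (a / 3))] with k hk
      exact hD (by linarith) hz (hzz k) (by rw [← ha]; linarith) (hk.trans (hfz k))
    have hq : 0 < Real.sqrt a := Real.sqrt_pos.mpr (by linarith)
    have hqa : Real.sqrt a ^ 2 = a := Real.sq_sqrt (by linarith)
    have hd1 : Real.sqrt a * ‖z / ((‖z‖ : ℝ) : ℂ) - t‖ ≤ 33 := by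
      have h5 : Real.sqrt (a / 3) = Real.sqrt a / Real.sqrt 3 := Real.sqrt_div (by linarith) 3
      have h3' : 0 < Real.sqrt 3 := Real.sqrt_pos.mpr (by norm_num)
      have h6 : Real.sqrt a * (6 * Real.pi / Real.sqrt (a / 3)) = 6 * Real.pi * Real.sqrt 3 := by
        rw [h5]
        field_simp
      have h7 : Real.sqrt 3 ≤ 1.7321 := Real.sqrt_le_iff.mpr ⟨by norm_num, by norm_num⟩
      have h8 := Real.pi_lt_d2
      have h9 : Real.pi * Real.sqrt 3 ≤ 3.15 * 1.7321 :=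
        mul_le_mul h8.le h7 (Real.sqrt_nonneg _) (by norm_num)
      calc Real.sqrt a * ‖z / ((‖z‖ : ℝ) : ℂ) - t‖
          ≤ Real.sqrt a * (6 * Real.pi / Real.sqrt (a / 3)) :=
            mul_le_mul_of_nonneg_left hlim hq.le
        _ = 6 * Real.pi * Real.sqrt 3 := h6
        _ ≤ 33 := by nlinarith
    have hd2 : Real.sqrt a * (1 - ‖z‖) ≤ 1 := by
      have h5 := hG f hf z hz
      rw [← ha] at h5
      have h6 : 0 < 1 - ‖z‖ := by linarith
      have h7 : a * (1 - ‖z‖) ^ 2 ≤ 1 := by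
        rw [le_div_iff₀ (by positivity)] at h5
        linarith
      have h8 : (Real.sqrt a * (1 - ‖z‖)) ^ 2 ≤ 1 := by
        rw [mul_pow, hqa]; exact h7
      exact (sq_le_one_iff₀ (by positivity)).mp h8
    have hsum : ‖t - z‖ ≤ ‖z / ((‖z‖ : ℝ) : ℂ) - t‖ + (1 - ‖z‖) := by
      have e : t - z = -(z / ((‖z‖ : ℝ) : ℂ) - t) + (z / ((‖z‖ : ℝ) : ℂ) - z) := by ring
      calc ‖t - z‖ = ‖-(z / ((‖z‖ : ℝ) : ℂ) - t) + (z / ((‖z‖ : ℝ) : ℂ) - z)‖ := by rw [← e]
        _ ≤ ‖-(z / ((‖z‖ : ℝ) : ℂ) - t)‖ + ‖z / ((‖z‖ : ℝ) : ℂ) - z‖ := norm_add_le _ _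
        _ = _ := by rw [norm_neg, near_dir hz00 hzn]
    have hfin : Real.sqrt a * ‖t - z‖ ≤ 34 := by
      have := mul_le_mul_of_nonneg_left hsum hq.le
      rw [mul_add] at this
      linarith
    have h5 : (Real.sqrt a * ‖t - z‖) ^ 2 ≤ 34 ^ 2 :=
      pow_le_pow_left₀ (by positivity) hfin 2
    rw [mul_pow, hqa] at h5
    linarith

end LipGrwX

theorem prfLipGrw : LipGrw :=
  LipGrwX.main (prfGrowth (prfDist (prfBieb prfSqrtT prfAreaOut)))

end Pool.Agent.MultS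

end

section

/-!
# MP_b17785_an, Lip, item E2: compactness of the set of coefficient sequences of S
-/

set_option autoImplicit false

open Complex Metric Set Filter Topology MeasureTheory
open scoped ENNReal ComplexConjugate

namespace Pool.Agent.MultS

namespace LipCompX

theorem litt : Litt :=
  prfLitt prfSqrtT (prfMeanSq (prfGrowth (prfDist (prfBieb prfSqrtT prfAreaOut)))
    (prfAreaIn prfBess))

theorem litt0 {f : ℂ → ℂ} (hf : Sc f) (n : ℕ) : ‖tc f n‖ ≤ 3 * n := by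
  rcases Nat.eq_zero_or_pos n with h | h
  · subst h
    have h1 : tc f 0 = 0 := by
      unfold tc
      rw [iteratedDeriv_zero, hf.2.2.1, zero_div]
    rw [h1, norm_zero]
    simp
  · exact litt f hf n h

end LipCompX

open LipCompX in
theorem prfLipComp : LipComp := by
  intro hlim
  refine (isCompact_univ_pi (fun n : ℕ => isCompact_closedBall (0 : ℂ) (3 * n))).of_isClosed_subset
    ?_ ?_
  · refine IsSeqClosed.isClosed ?_
    intro x c hx hc
    choose F hF hFc using hx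
    obtain ⟨f, hf, hfc⟩ := hlim F c hF (fun n => by
      have h1 := tendsto_pi_nhds.mp hc n
      refine h1.congr fun k => ?_
      exact hFc k n)
    exact ⟨f, hf, fun n => (hfc n).symm⟩
  · rintro c ⟨f, hf, hc⟩ n -
    rw [mem_closedBall_zero_iff, hc n]
    exact litt0 hf n

end Pool.Agent.MultS

end

section

set_option autoImplicit false

open Complex Metric Set Filter Topology MeasureTheory

namespace Pool.Agent.MultS.Lip
namespace Jint'

theorem ptw (w : ℂ) (hw : 0 < w.re) :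
    ‖w + 1‖ ^ (-(5 / 2) : ℝ) + (‖w + 1‖ ^ 2)⁻¹ * (1 + w.re)⁻¹ ≤
      3 * ((1 + w.re) ^ (-(5 / 4) : ℝ) * (1 + w.im ^ 2) ^ (-(5 / 8) : ℝ)) := by
  have hN : ‖w + 1‖ ^ 2 = (1 + w.re) ^ 2 + w.im ^ 2 := by
    rw [Complex.sq_norm, Complex.normSq_apply]
    simp only [Complex.add_re, Complex.one_re, Complex.add_im, Complex.one_im]
    ring
  have hn0 : 0 ≤ ‖w + 1‖ := norm_nonneg _
  generalize ‖w + 1‖ = n at hN hn0 ⊢
  set X : ℝ := 1 + w.re with hX
  set Y : ℝ := 1 + w.im ^ 2 with hY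
  have hX1 : 1 ≤ X := by linarith
  have hY1 : 1 ≤ Y := by nlinarith [sq_nonneg w.im]
  have hX0 : 0 < X := by linarith
  have hY0 : 0 < Y := by linarith
  have hN' : (X ^ 2 + Y) / 2 ≤ n ^ 2 := by
    rw [hN]
    nlinarith [sq_nonneg w.im]
  have hn : 0 < n := by
    rcases hn0.eq_or_lt with h | h
    · exfalso
      rw [← h] at hN'
      nlinarith
    · exact h
  have hP0 : 0 < X ^ (5 / 4 : ℝ) * Y ^ (5 / 8 : ℝ) := by positivity
  have h1 : X ^ (5 / 4 : ℝ) * Y ^ (5 / 8 : ℝ) ≤ n ^ (5 / 2 : ℝ) := by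
    have h2 : X * Y ^ (1 / 2 : ℝ) ≤ n ^ 2 := by
      refine le_trans ?_ hN'
      have h3 : (Y ^ (1 / 2 : ℝ)) ^ 2 = Y := by
        rw [← Real.rpow_natCast, ← Real.rpow_mul hY0.le]
        norm_num
      nlinarith [sq_nonneg (X - Y ^ (1 / 2 : ℝ))]
    have h4 : (X * Y ^ (1 / 2 : ℝ)) ^ (5 / 4 : ℝ) ≤ (n ^ 2) ^ (5 / 4 : ℝ) :=
      Real.rpow_le_rpow (by positivity) h2 (by norm_num)
    have h5 : (X * Y ^ (1 / 2 : ℝ)) ^ (5 / 4 : ℝ) = X ^ (5 / 4 : ℝ) * Y ^ (5 / 8 : ℝ) := by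
      rw [Real.mul_rpow hX0.le (by positivity), ← Real.rpow_mul hY0.le]
      norm_num
    have h6 : (n ^ 2) ^ (5 / 4 : ℝ) = n ^ (5 / 2 : ℝ) := by
      rw [← Real.rpow_natCast, ← Real.rpow_mul hn.le]
      norm_num
    rwa [h5, h6] at h4
  have h2 : X ^ (5 / 4 : ℝ) * Y ^ (5 / 8 : ℝ) / 2 ≤ n ^ 2 * X := by
    have h3 := Real.geom_mean_le_arith_mean2_weighted (w₁ := 3 / 8) (w₂ := 5 / 8) (p₁ := X ^ 2)
      (p₂ := Y) (by norm_num) (by norm_num) (by positivity) hY0.le (by norm_num)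
    have h4 : (X ^ 2) ^ (3 / 8 : ℝ) = X ^ (3 / 4 : ℝ) := by
      rw [← Real.rpow_natCast, ← Real.rpow_mul hX0.le]
      norm_num
    have h5 : X ^ (1 / 4 : ℝ) ≤ X ^ (3 / 4 : ℝ) :=
      Real.rpow_le_rpow_of_exponent_le hX1 (by norm_num)
    have h6 : X ^ (5 / 4 : ℝ) = X ^ (1 / 4 : ℝ) * X := by
      rw [show (5 / 4 : ℝ) = 1 / 4 + 1 by norm_num, Real.rpow_add hX0, Real.rpow_one]
    rw [h4] at h3
    have h7 : X ^ (1 / 4 : ℝ) * Y ^ (5 / 8 : ℝ) ≤ X ^ 2 + Y := by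
      calc X ^ (1 / 4 : ℝ) * Y ^ (5 / 8 : ℝ) ≤ X ^ (3 / 4 : ℝ) * Y ^ (5 / 8 : ℝ) :=
            mul_le_mul_of_nonneg_right h5 (by positivity)
        _ ≤ 3 / 8 * X ^ 2 + 5 / 8 * Y := h3
        _ ≤ X ^ 2 + Y := by nlinarith [sq_nonneg X]
    calc X ^ (5 / 4 : ℝ) * Y ^ (5 / 8 : ℝ) / 2
        = (X ^ (1 / 4 : ℝ) * Y ^ (5 / 8 : ℝ)) / 2 * X := by rw [h6]; ring
      _ ≤ (X ^ 2 + Y) / 2 * X := by
          apply mul_le_mul_of_nonneg_right _ hX0.le
          linarith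
      _ ≤ n ^ 2 * X := mul_le_mul_of_nonneg_right hN' hX0.le
  have e1 : n ^ (-(5 / 2) : ℝ) ≤ (X ^ (5 / 4 : ℝ) * Y ^ (5 / 8 : ℝ))⁻¹ := by
    rw [Real.rpow_neg hn.le]
    exact inv_anti₀ hP0 h1
  have e2 : (n ^ 2)⁻¹ * X⁻¹ ≤ 2 * (X ^ (5 / 4 : ℝ) * Y ^ (5 / 8 : ℝ))⁻¹ := by
    rw [← mul_inv]
    calc (n ^ 2 * X)⁻¹ ≤ (X ^ (5 / 4 : ℝ) * Y ^ (5 / 8 : ℝ) / 2)⁻¹ :=
          inv_anti₀ (by positivity) h2
      _ = 2 * (X ^ (5 / 4 : ℝ) * Y ^ (5 / 8 : ℝ))⁻¹ := by
          rw [inv_div, div_eq_mul_inv]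
  have e3 : X ^ (-(5 / 4) : ℝ) * Y ^ (-(5 / 8) : ℝ) = (X ^ (5 / 4 : ℝ) * Y ^ (5 / 8 : ℝ))⁻¹ := by
    rw [Real.rpow_neg hX0.le, Real.rpow_neg hY0.le, mul_inv]
  rw [e3]
  linarith

theorem fin1 : ∫⁻ x in Ioi (0 : ℝ), ENNReal.ofReal ((1 + x) ^ (-(5 / 4) : ℝ)) < ⊤ := by
  have h1 : Integrable (fun x : ℝ => (1 + ‖x‖) ^ (-(5 / 4) : ℝ)) :=
    integrable_one_add_norm (by
      rw [Module.finrank_self]
      norm_num)
  have h2 := h1.integrableOn (s := Ioi (0 : ℝ))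
  have h3 : ∫⁻ x in Ioi (0 : ℝ), ENNReal.ofReal ((1 + x) ^ (-(5 / 4) : ℝ)) =
      ∫⁻ x in Ioi (0 : ℝ), ENNReal.ofReal ((1 + ‖x‖) ^ (-(5 / 4) : ℝ)) := by
    apply setLIntegral_congr_fun measurableSet_Ioi
    intro x hx
    simp only [Real.norm_eq_abs, abs_of_pos (mem_Ioi.1 hx)]
  rw [h3]
  exact h2.lintegral_lt_top

theorem fin2 : ∫⁻ y : ℝ, ENNReal.ofReal ((1 + y ^ 2) ^ (-(5 / 8) : ℝ)) < ⊤ := by
  have h1 : Integrable (fun x : ℝ => (1 + ‖x‖ ^ 2) ^ (-(5 / 4) / 2 : ℝ)) :=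
    integrable_rpow_neg_one_add_norm_sq (by
      rw [Module.finrank_self]
      norm_num)
  have h3 : (fun y : ℝ => ENNReal.ofReal ((1 + y ^ 2) ^ (-(5 / 8) : ℝ))) =
      fun y : ℝ => ENNReal.ofReal ((1 + ‖y‖ ^ 2) ^ (-(5 / 4) / 2 : ℝ)) := by
    funext y
    rw [Real.norm_eq_abs, sq_abs]
    norm_num
  rw [h3]
  exact h1.lintegral_lt_top

theorem bound : ∫⁻ w in Hp, ENNReal.ofReal (‖w + 1‖ ^ (-(5 / 2) : ℝ) +
    (‖w + 1‖ ^ 2)⁻¹ * (1 + w.re)⁻¹) < ⊤ := by
  have hm : MeasurableSet (Ioi (0 : ℝ) ×ˢ (univ : Set ℝ)) := measurableSet_Ioi.prod MeasurableSet.univ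
  have hHp : Hp = Complex.measurableEquivRealProd ⁻¹' (Ioi (0 : ℝ) ×ˢ (univ : Set ℝ)) := by
    ext w
    simp [Hp, Complex.measurableEquivRealProd]
  have hHm : MeasurableSet Hp := by
    rw [hHp]
    exact Complex.measurableEquivRealProd.measurable hm
  set G : ℝ × ℝ → ENNReal := fun p => ENNReal.ofReal ((1 + p.1) ^ (-(5 / 4) : ℝ)) *
    ENNReal.ofReal ((1 + p.2 ^ 2) ^ (-(5 / 8) : ℝ)) with hG
  have hGm : Measurable G := by
    rw [hG]
    fun_prop
  have h1 : ∫⁻ w in Hp, ENNReal.ofReal (‖w + 1‖ ^ (-(5 / 2) : ℝ) +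
      (‖w + 1‖ ^ 2)⁻¹ * (1 + w.re)⁻¹) ≤
      ∫⁻ w in Hp, 3 * G (Complex.measurableEquivRealProd w) := by
    apply setLIntegral_mono' hHm
    intro w hw
    have h2 := ptw w hw
    have hw1 : (0 : ℝ) ≤ (1 + w.re) ^ (-(5 / 4) : ℝ) := by
      have : 0 < w.re := hw
      positivity
    refine (ENNReal.ofReal_le_ofReal h2).trans ?_
    rw [ENNReal.ofReal_mul (by norm_num), ENNReal.ofReal_mul hw1]
    simp [hG, Complex.measurableEquivRealProd]
  refine lt_of_le_of_lt h1 ?_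
  have h3 : ∫⁻ w in Hp, 3 * G (Complex.measurableEquivRealProd w) =
      ∫⁻ p in Ioi (0 : ℝ) ×ˢ (univ : Set ℝ), 3 * G p := by
    rw [hHp]
    exact Complex.volume_preserving_equiv_real_prod.setLIntegral_comp_preimage hm
      (f := fun p => 3 * G p) (hGm.const_mul 3)
  rw [h3, lintegral_const_mul _ hGm, Measure.volume_eq_prod, ← Measure.prod_restrict,
    Measure.restrict_univ, hG]
  rw [lintegral_prod_mul (f := fun x : ℝ => ENNReal.ofReal ((1 + x) ^ (-(5 / 4) : ℝ)))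
    (g := fun y : ℝ => ENNReal.ofReal ((1 + y ^ 2) ^ (-(5 / 8) : ℝ)))
    (by fun_prop) (by fun_prop)]
  exact ENNReal.mul_lt_top (by norm_num) (ENNReal.mul_lt_top fin1 fin2)

end Jint'

theorem prfJint : Jint := by
  refine ⟨(∫⁻ w in Hp, ENNReal.ofReal (‖w + 1‖ ^ (-(5 / 2) : ℝ) +
    (‖w + 1‖ ^ 2)⁻¹ * (1 + w.re)⁻¹)).toReal, ?_⟩
  rw [ENNReal.ofReal_toReal Jint'.bound.ne]

end Pool.Agent.MultS.Lip

end

section

/-!
# Item [A10]: the number `κ`
-/

set_option autoImplicit false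

open Complex Metric Set Filter Topology MeasureTheory

namespace Pool.Agent.MultS.Lip

namespace Kap'

theorem one_sub_ne {z : ℂ} (hz : z ∈ ball (0 : ℂ) 1) : (1 : ℂ) - z ≠ 0 := by
  intro h
  have : z = 1 := (sub_eq_zero.mp h).symm
  rw [this, mem_ball_zero_iff] at hz
  simp at hz

theorem psi_hasSum {z : ℂ} (hz : z ∈ ball (0 : ℂ) 1) :
    HasSum (fun n : ℕ => (if n = 0 then (1 : ℂ) else 2) * z ^ n) (psi z) := by
  have hz1 : ‖z‖ < 1 := mem_ball_zero_iff.mp hz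
  have h1 := (hasSum_geometric_of_norm_lt_one hz1).mul_left (2 : ℂ)
  have h2 : HasSum (fun n : ℕ => if n = 0 then (1 : ℂ) else 0) 1 := hasSum_ite_eq 0 (1 : ℂ)
  have h3 := h1.sub h2
  have e : (2 : ℂ) * (1 - z)⁻¹ - 1 = psi z := by
    unfold psi
    have := one_sub_ne hz
    field_simp
    ring
  rw [e] at h3
  refine h3.congr_fun (fun n => ?_)
  rcases Nat.eq_zero_or_pos n with h | h
  · subst h; norm_num
  · rw [if_neg (by omega), if_neg (by omega)]; ring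

theorem tc_psi (n : ℕ) : tc psi (n + 1) = 2 := by
  rw [tc_of_hasSum (G := psi) (fun z hz => psi_hasSum hz) (n + 1), if_neg (by omega)]

theorem psi_diff : DifferentiableOn ℂ psi (ball 0 1) := by
  unfold psi
  exact (differentiableOn_const (1 : ℂ) |>.add differentiableOn_id).div
    (differentiableOn_const (1 : ℂ) |>.sub differentiableOn_id) (fun z hz => one_sub_ne hz)

theorem LL_psi {lam : ℕ → ℂ} {B : ℝ} (hP : Pack lam B) {z : ℂ} (hz : z ∈ ball (0 : ℂ) 1) :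
    ‖LL lam psi z‖ ≤ 2 * B := by
  have hz1 : ‖z‖ < 1 := mem_ball_zero_iff.mp hz
  have hb : ∀ n : ℕ, ‖((n : ℂ) + 1) * lam (n + 1) * tc psi (n + 1) * z ^ n‖ ≤
      2 * (((n : ℝ) + 1) * ‖lam (n + 1)‖) := by
    intro n
    rw [tc_psi, norm_mul, norm_mul, norm_mul, norm_pow]
    have e1 : ‖(n : ℂ) + 1‖ = (n : ℝ) + 1 := by
      have : ((n : ℂ) + 1) = (((n + 1 : ℕ) : ℝ) : ℂ) := by push_cast; ring
      rw [this, Complex.norm_real, Real.norm_eq_abs, abs_of_nonneg (by positivity)]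
      push_cast; ring
    have e2 : ‖(2 : ℂ)‖ = 2 := by norm_num
    rw [e1, e2]
    have h1 : ‖z‖ ^ n ≤ 1 := pow_le_one₀ (norm_nonneg _) hz1.le
    have h2 : 0 ≤ ((n : ℝ) + 1) * ‖lam (n + 1)‖ * 2 := by positivity
    calc ((n : ℝ) + 1) * ‖lam (n + 1)‖ * 2 * ‖z‖ ^ n
        ≤ ((n : ℝ) + 1) * ‖lam (n + 1)‖ * 2 * 1 := mul_le_mul_of_nonneg_left h1 h2
      _ = 2 * (((n : ℝ) + 1) * ‖lam (n + 1)‖) := by ring
  have hs : Summable (fun n : ℕ => 2 * (((n : ℝ) + 1) * ‖lam (n + 1)‖)) := hP.sm.mul_left 2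
  have hs' : Summable (fun n : ℕ => ‖((n : ℂ) + 1) * lam (n + 1) * tc psi (n + 1) * z ^ n‖) :=
    Summable.of_nonneg_of_le (fun n => norm_nonneg _) hb hs
  unfold LL
  calc ‖∑' n : ℕ, ((n : ℂ) + 1) * lam (n + 1) * tc psi (n + 1) * z ^ n‖
      ≤ ∑' n : ℕ, ‖((n : ℂ) + 1) * lam (n + 1) * tc psi (n + 1) * z ^ n‖ :=
        norm_tsum_le_tsum_norm hs'
    _ ≤ ∑' n : ℕ, 2 * (((n : ℝ) + 1) * ‖lam (n + 1)‖) := hs'.tsum_le_tsum hb hs
    _ = 2 * ∑' n : ℕ, (((n : ℝ) + 1) * ‖lam (n + 1)‖) := tsum_mul_left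
    _ ≤ 2 * B := by linarith [hP.sb]

end Kap'

open Kap' in
/-- [A10] The number `κ`. -/
theorem prfKap (hL : Lin) : Kap := by
  intro lam B hP z hz
  obtain ⟨-, hlin, -, hid⟩ := hL lam B hP z hz
  have h1 := hlin psi (fun ζ => ζ) 1 ((2 * B + 2 : ℝ) : ℂ) 0 psi_diff differentiableOn_id
  have e : (fun ζ : ℂ => 1 * psi ζ + ((2 * B + 2 : ℝ) : ℂ) * (fun ζ => ζ) ζ + 0) =
      (fun ζ => psi ζ + ((2 * B + 2 : ℝ) : ℂ) * ζ) := by
    funext ζ; simp
  rw [e, hid, one_mul, mul_one] at h1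
  rw [h1]
  have hB := hP.le
  have hb := LL_psi hP hz
  have hn : ‖((2 * B + 2 : ℝ) : ℂ)‖ = 2 * B + 2 := by
    rw [Complex.norm_real, Real.norm_eq_abs, abs_of_nonneg (by linarith)]
  constructor
  · have := norm_sub_norm_le (((2 * B + 2 : ℝ) : ℂ)) (-(LL lam psi z))
    rw [sub_neg_eq_add, norm_neg, hn, add_comm (((2 * B + 2 : ℝ) : ℂ))] at this
    linarith
  · have := norm_add_le (LL lam psi z) (((2 * B + 2 : ℝ) : ℂ))
    rw [hn] at this
    linarith

end Pool.Agent.MultS.Lip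

end

section

/-!
# Item A1 of the project LIP: linearity of the functional `LL`
-/

set_option autoImplicit false

open Complex Metric Set Filter Topology MeasureTheory

namespace Pool.Agent.MultS.Lip

namespace Lin'

theorem lam_le {lam : ℕ → ℂ} {B : ℝ} (hP : Pack lam B) (n : ℕ) : ‖lam (n + 1)‖ ≤ B := by
  have h1 : ((n : ℝ) + 1) * ‖lam (n + 1)‖ ≤ B := by
    refine le_trans ?_ hP.sb
    exact hP.sm.le_tsum n (fun j _ => by positivity)
  have h2 : ‖lam (n + 1)‖ ≤ ((n : ℝ) + 1) * ‖lam (n + 1)‖ := by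
    have h3 : (0 : ℝ) ≤ (n : ℝ) * ‖lam (n + 1)‖ := by positivity
    linarith
  exact h2.trans h1

theorem summ {lam : ℕ → ℂ} {B : ℝ} (hP : Pack lam B) {z : ℂ} (hz : z ∈ ball (0 : ℂ) 1)
    {h : ℂ → ℂ} (hh : DifferentiableOn ℂ h (ball 0 1)) :
    Summable (fun n : ℕ => ‖((n : ℂ) + 1) * lam (n + 1) * tc h (n + 1) * z ^ n‖) := by
  have h1 : Summable (fun n : ℕ => ‖((n : ℂ) + 1) * tc h (n + 1) * z ^ n‖) := by
    rw [summable_norm_iff]
    exact (prfSer h hh z hz).2.1.summable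
  refine Summable.of_nonneg_of_le (fun n => norm_nonneg _) (fun n => ?_) (h1.mul_left B)
  calc ‖((n : ℂ) + 1) * lam (n + 1) * tc h (n + 1) * z ^ n‖
      = ‖lam (n + 1)‖ * ‖((n : ℂ) + 1) * tc h (n + 1) * z ^ n‖ := by
        rw [← norm_mul]; congr 1; ring
    _ ≤ B * ‖((n : ℂ) + 1) * tc h (n + 1) * z ^ n‖ :=
        mul_le_mul_of_nonneg_right (lam_le hP n) (norm_nonneg _)

theorem tc_lin {h₁ h₂ : ℂ → ℂ} (a b c : ℂ) (d₁ : DifferentiableOn ℂ h₁ (ball 0 1))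
    (d₂ : DifferentiableOn ℂ h₂ (ball 0 1)) (n : ℕ) :
    tc (fun ζ => a * h₁ ζ + b * h₂ ζ + c) (n + 1) = a * tc h₁ (n + 1) + b * tc h₂ (n + 1) := by
  have key : ∀ z ∈ ball (0 : ℂ) 1,
      HasSum (fun n => (a * tc h₁ n + b * tc h₂ n + (if n = 0 then c else 0)) * z ^ n)
        ((fun ζ => a * h₁ ζ + b * h₂ ζ + c) z) := by
    intro z hz
    have e1 := (hasSum_tc d₁ hz).mul_left a
    have e2 := (hasSum_tc d₂ hz).mul_left b
    have e3 : HasSum (fun n : ℕ => (if n = 0 then c else 0) * z ^ n) c := by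
      have h := hasSum_single (f := fun n : ℕ => (if n = 0 then c else 0) * z ^ n) 0
        (fun n hn => by simp [hn])
      simpa using h
    have e4 := (e1.add e2).add e3
    refine e4.congr_fun ?_
    intro n
    ring
  have h := tc_of_hasSum key (n + 1)
  rw [h]
  simp

theorem tc_id (n : ℕ) : tc (fun ζ => ζ) n = if n = 1 then 1 else 0 := by
  have key : ∀ z ∈ ball (0 : ℂ) 1,
      HasSum (fun n : ℕ => (if n = 1 then (1 : ℂ) else 0) * z ^ n) ((fun ζ => ζ) z) := by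
    intro z _
    have h := hasSum_single (f := fun n : ℕ => (if n = 1 then (1 : ℂ) else 0) * z ^ n) 1
      (fun n hn => by simp [hn])
    simpa using h
  exact tc_of_hasSum key n

theorem tc_congr {h₁ h₂ : ℂ → ℂ} (h : EqOn h₁ h₂ (ball 0 1)) (n : ℕ) : tc h₁ n = tc h₂ n := by
  have h1 : h₁ =ᶠ[𝓝 0] h₂ :=
    Filter.eventuallyEq_of_mem (ball_mem_nhds (0 : ℂ) one_pos) h
  unfold tc
  rw [h1.iteratedDeriv_eq n]

end Lin'

theorem prfLin : Lin := by
  intro lam B hP z hz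
  refine ⟨fun h hh => Lin'.summ hP hz hh, ?_, ?_, ?_⟩
  · intro h₁ h₂ a b c d₁ d₂
    have s1 : Summable (fun n : ℕ => ((n : ℂ) + 1) * lam (n + 1) * tc h₁ (n + 1) * z ^ n) :=
      (Lin'.summ hP hz d₁).of_norm
    have s2 : Summable (fun n : ℕ => ((n : ℂ) + 1) * lam (n + 1) * tc h₂ (n + 1) * z ^ n) :=
      (Lin'.summ hP hz d₂).of_norm
    unfold LL
    rw [← tsum_mul_left, ← tsum_mul_left, ← (s1.mul_left a).tsum_add (s2.mul_left b)]
    apply tsum_congr
    intro n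
    rw [Lin'.tc_lin a b c d₁ d₂ n]
    ring
  · intro h₁ h₂ h
    unfold LL
    apply tsum_congr
    intro n
    rw [Lin'.tc_congr h]
  · unfold LL
    rw [tsum_eq_single 0]
    · rw [Lin'.tc_id]
      simp [hP.one]
    · intro n hn
      rw [Lin'.tc_id, if_neg (by omega)]
      simp

end Pool.Agent.MultS.Lip

end

section

/-!
# [b17785 Lip A8] local bound for the derivative of the Hadamard product by Cauchy's estimate
-/

set_option autoImplicit false

open Complex Metric Set Filter Topology MeasureTheory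

namespace Pool.Agent.MultS.Lip

/-- Cauchy's estimate for the Taylor coefficients. -/
theorem Loc'.coef {ρ M : ℝ} {h : ℂ → ℂ} (hρ : 0 < ρ) (hρ1 : ρ < 1)
    (hh : DifferentiableOn ℂ h (ball 0 1)) (hM : ∀ ζ : ℂ, ‖ζ‖ ≤ ρ → ‖h ζ‖ ≤ M) (n : ℕ) :
    ‖tc h n‖ ≤ M / ρ ^ n := by
  have hd : DiffContOnCl ℂ h (ball 0 ρ) := by
    apply DifferentiableOn.diffContOnCl_ball (U := ball 0 1) hh
    exact closedBall_subset_ball hρ1
  have h1 : ‖iteratedDeriv n h 0‖ ≤ n.factorial * M / ρ ^ n :=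
    Complex.norm_iteratedDeriv_le_of_forall_mem_sphere_norm_le n hρ hd
      (fun ζ hζ => hM ζ (by rw [mem_sphere_zero_iff_norm] at hζ; exact hζ.le))
  have hn : (0 : ℝ) < n.factorial := by exact_mod_cast n.factorial_pos
  unfold tc
  rw [norm_div, Complex.norm_natCast, div_le_iff₀ hn]
  calc ‖iteratedDeriv n h 0‖ ≤ n.factorial * M / ρ ^ n := h1
    _ = M / ρ ^ n * n.factorial := by ring

/-- [A8] -/
theorem prfLoc : Loc := by
  intro lam B hP ρ M z h hz hρ hρ1 hh hM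
  have hρ0 : 0 < ρ := by linarith
  have hM0 : 0 ≤ M := (norm_nonneg _).trans (hM 0 (by rw [norm_zero]; exact hρ0.le))
  have hs : HasSum (fun n : ℕ => (((n : ℝ) + 1) * ‖lam (n + 1)‖) * (2 * M))
      ((∑' n : ℕ, ((n : ℝ) + 1) * ‖lam (n + 1)‖) * (2 * M)) := hP.sm.hasSum.mul_right _
  have hb : ∀ n : ℕ, ‖((n : ℂ) + 1) * lam (n + 1) * tc h (n + 1) * z ^ n‖ ≤
      (((n : ℝ) + 1) * ‖lam (n + 1)‖) * (2 * M) := by
    intro n
    have h1 := Loc'.coef hρ0 hρ1 hh hM (n + 1)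
    have h2 : ‖((n : ℂ) + 1)‖ = (n : ℝ) + 1 := by
      have : ((n : ℂ) + 1) = ((n + 1 : ℕ) : ℂ) := by push_cast; ring
      rw [this, Complex.norm_natCast]
      push_cast
      ring
    rw [norm_mul, norm_mul, norm_mul, norm_pow, h2, mul_assoc]
    apply mul_le_mul_of_nonneg_left _ (by positivity)
    have h3 : ‖z‖ ^ n ≤ ρ ^ n := pow_le_pow_left₀ (norm_nonneg _) hz n
    calc ‖tc h (n + 1)‖ * ‖z‖ ^ n ≤ M / ρ ^ (n + 1) * ρ ^ n :=
          mul_le_mul h1 h3 (by positivity) (by positivity)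
      _ = M / ρ := by
          have : ρ ^ n ≠ 0 := by positivity
          rw [pow_succ]
          field_simp
      _ ≤ 2 * M := by
          rw [div_le_iff₀ hρ0]
          nlinarith
  calc ‖LL lam h z‖ ≤ (∑' n : ℕ, ((n : ℝ) + 1) * ‖lam (n + 1)‖) * (2 * M) :=
        tsum_of_norm_bounded hs hb
    _ ≤ B * (2 * M) := mul_le_mul_of_nonneg_right hP.sb (by positivity)
    _ = 2 * B * M := by ring

end Pool.Agent.MultS.Lip

end

section

set_option autoImplicit false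

open Complex Metric Set Filter Topology MeasureTheory

namespace Pool.Agent.MultS.Lip

namespace Main'

/-- the coefficients of the functional -/
noncomputable def pp (lam : ℕ → ℂ) (z : ℂ) (n : ℕ) : ℂ := (n : ℂ) * lam n * z ^ (n - 1)

theorem pp_succ (lam : ℕ → ℂ) (z : ℂ) (n : ℕ) :
    pp lam z (n + 1) = ((n : ℂ) + 1) * lam (n + 1) * z ^ n := by
  unfold pp
  push_cast
  simp

theorem bd {lam : ℕ → ℂ} {B : ℝ} (hP : Pack lam B) (n : ℕ) :
    ((n : ℝ) + 1) * ‖lam (n + 1)‖ ≤ B := by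
  refine le_trans ?_ hP.sb
  exact hP.sm.le_tsum n (fun j _ => by positivity)

theorem sm {lam : ℕ → ℂ} {B : ℝ} (hP : Pack lam B) {z : ℂ} (hz : z ∈ ball (0 : ℂ) 1) :
    Summable (fun n : ℕ => (n : ℝ) * ‖pp lam z n‖) := by
  rw [← summable_nat_add_iff 1]
  have hz1 : ‖z‖ < 1 := by simpa using hz
  have h1 : Summable (fun n : ℕ => B * (((n : ℝ) + 1) * ‖z‖ ^ n)) := by
    apply Summable.mul_left
    have h2 := summable_pow_mul_geometric_of_norm_lt_one 1 (r := ‖z‖) (by rwa [norm_norm])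
    have h3 := summable_geometric_of_lt_one (norm_nonneg z) hz1
    refine (h2.add h3).congr fun n => ?_
    simp only [pow_one]
    ring
  refine Summable.of_nonneg_of_le (fun n => by positivity) (fun n => ?_) h1
  rw [pp_succ, norm_mul, norm_mul, norm_pow]
  have h4 : ‖((n : ℂ) + 1)‖ = (n : ℝ) + 1 := by
    rw [show ((n : ℂ) + 1) = (((n : ℝ) + 1 : ℝ) : ℂ) by push_cast; ring, norm_real,
      Real.norm_eq_abs, abs_of_pos (by positivity)]
  rw [h4]
  push_cast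
  calc ((n : ℝ) + 1) * (((n : ℝ) + 1) * ‖lam (n + 1)‖ * ‖z‖ ^ n)
      = (((n : ℝ) + 1) * ‖lam (n + 1)‖) * (((n : ℝ) + 1) * ‖z‖ ^ n) := by ring
    _ ≤ B * (((n : ℝ) + 1) * ‖z‖ ^ n) := by
      apply mul_le_mul_of_nonneg_right (bd hP n) (by positivity)

theorem eqLL (hL : Lin) {lam : ℕ → ℂ} {B : ℝ} (hP : Pack lam B) {z : ℂ}
    (hz : z ∈ ball (0 : ℂ) 1) {g : ℂ → ℂ} (hg : DifferentiableOn ℂ g (ball 0 1)) :
    ∑' n : ℕ, pp lam z n * tc g n = LL lam g z := by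
  have h1 := ((hL lam B hP z hz).1 g hg).of_norm
  have h2 : Summable (fun n : ℕ => pp lam z n * tc g n) := by
    rw [← summable_nat_add_iff 1]
    refine h1.congr fun n => ?_
    rw [pp_succ]
    ring
  rw [h2.tsum_eq_zero_add]
  unfold LL
  have h3 : pp lam z 0 = 0 := by simp [pp]
  rw [h3, zero_mul, zero_add]
  refine tsum_congr fun n => ?_
  rw [pp_succ]
  ring

end Main'

open Main' in
theorem prfMain (hL : Lin) (hR : Rota) (hH : HKm) (hE : Extr) (hG : GrowE) : Main := by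
  intro B
  obtain ⟨C, hC⟩ := hG
  obtain ⟨X, hX⟩ := hH B C
  refine ⟨X + 1, ?_⟩
  intro lam hP f hf z hz
  obtain ⟨fs, hfs, hmax, hom⟩ := hE (pp lam z) (sm hP hz)
  obtain ⟨t, ht, hgr⟩ := hC fs hfs hom
  have ht0 : t ≠ 0 := by
    intro h
    rw [h, norm_zero] at ht
    exact zero_ne_one ht
  have h1 := hmax f hf
  rw [eqLL hL hP hz hf.1, eqLL hL hP hz hfs.1] at h1
  obtain ⟨hr1, hr2⟩ := hR lam fs t hfs.1 ht
  have h2 := hr1 (z / t)
  rw [mul_div_cancel₀ z ht0] at h2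
  have hzt : z / t ∈ ball (0 : ℂ) 1 := by
    rw [mem_ball_zero_iff, norm_div, ht, div_one]
    simpa using hz
  have h3 := hX lam hP (fun ζ => fs (t * ζ) / t) (hr2 hfs) (fun ζ hζ => by
    have h4 := hgr (t * ζ) (by rw [mem_ball_zero_iff, norm_mul, ht, one_mul]; simpa using hζ)
    have h5 : ‖t - t * ζ‖ = ‖1 - ζ‖ := by
      rw [show t - t * ζ = t * (1 - ζ) by ring, norm_mul, ht, one_mul]
    rw [h5] at h4
    rw [norm_div, ht, div_one]
    exact h4) (z / t) hzt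
  rw [h2] at h3
  linarith

end Pool.Agent.MultS.Lip

end

section

/-!
# Orthogonality of the powers on disks
-/

set_option autoImplicit false

open Complex Metric Set Filter Topology MeasureTheory

namespace Pool.Agent.MultS.Lip
namespace Orth'

lemma int_r (s : ℝ) (hs : 0 < s) (k : ℕ) :
    ∫ x in Ioo (0 : ℝ) s, (x : ℂ) ^ k = ((s ^ (k + 1) / (k + 1) : ℝ) : ℂ) := by
  have h1 : ∫ x in Ioo (0 : ℝ) s, (x : ℝ) ^ k = s ^ (k + 1) / (k + 1) := by
    rw [← integral_Ioc_eq_integral_Ioo, ← intervalIntegral.integral_of_le hs.le, integral_pow]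
    simp
  rw [← h1, ← integral_complex_ofReal]
  push_cast
  rfl

lemma int_th (c : ℤ) : ∫ x in Ioo (-Real.pi) Real.pi, Complex.exp ((c : ℂ) * I * x) =
    if c = 0 then (2 * Real.pi : ℂ) else 0 := by
  have hpi := Real.pi_pos
  rw [← integral_Ioc_eq_integral_Ioo, ← intervalIntegral.integral_of_le (by linarith)]
  split_ifs with h
  · subst h
    simp
    ring
  · have hc : (c : ℂ) * I ≠ 0 := mul_ne_zero (by exact_mod_cast h) I_ne_zero
    rw [integral_exp_mul_complex hc]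
    have h2 : Complex.exp ((c : ℂ) * I * (Real.pi : ℝ)) = Complex.exp ((c : ℂ) * I * ((-Real.pi : ℝ) : ℂ)) := by
      rw [Complex.exp_eq_exp_iff_exists_int]
      refine ⟨c, ?_⟩
      push_cast
      ring
    rw [h2, sub_self, zero_div]

lemma mono (s : ℝ) (hs : 0 < s) (n m : ℕ) :
    ∫ ζ in ball (0 : ℂ) s, ζ ^ n * (starRingEnd ℂ) ζ ^ m =
      if n = m then (Real.pi * s ^ (2 * m + 2) / (m + 1) : ℂ) else 0 := by
  rw [← integral_indicator measurableSet_ball, ← Complex.integral_comp_polarCoord_symm]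
  have hA : MeasurableSet (Ioo (0 : ℝ) s ×ˢ Ioo (-Real.pi) Real.pi) :=
    measurableSet_Ioo.prod measurableSet_Ioo
  have hT : MeasurableSet (polarCoord.target) := polarCoord.open_target.measurableSet
  have h1 : ∀ p ∈ polarCoord.target,
      p.1 • (ball (0 : ℂ) s).indicator (fun ζ => ζ ^ n * (starRingEnd ℂ) ζ ^ m)
        (Complex.polarCoord.symm p) =
      (Ioo (0 : ℝ) s ×ˢ Ioo (-Real.pi) Real.pi).indicator
        (fun p : ℝ × ℝ => ((p.1 : ℂ) ^ (n + m + 1)) * Complex.exp (((n - m : ℤ) : ℂ) * I * p.2)) p := by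
    rintro ⟨r, t⟩ hp
    have hp1 : 0 < r := hp.1
    have hp2 : t ∈ Ioo (-Real.pi) Real.pi := hp.2
    have hnorm : ‖Complex.polarCoord.symm (r, t)‖ = r := by
      rw [Complex.norm_polarCoord_symm]; exact abs_of_pos hp1
    have hz : Complex.polarCoord.symm (r, t) = r * Complex.exp (t * I) := by
      rw [Complex.polarCoord_symm_apply, Complex.exp_mul_I, Complex.ofReal_cos, Complex.ofReal_sin]
    by_cases hr : r < s
    · rw [indicator_of_mem, indicator_of_mem]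
      · rw [hz, map_mul, Complex.conj_ofReal, ← Complex.exp_conj, map_mul, Complex.conj_ofReal,
          Complex.conj_I, mul_pow, mul_pow, ← Complex.exp_nat_mul, ← Complex.exp_nat_mul]
        have h2 : Complex.exp (((n - m : ℤ) : ℂ) * I * t) =
            Complex.exp (n * (t * I)) * Complex.exp (m * (t * -I)) := by
          rw [← Complex.exp_add]
          congr 1
          push_cast
          ring
        simp only [real_smul]
        rw [h2]
        ring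
      · exact ⟨⟨hp1, hr⟩, hp2⟩
      · rw [mem_ball_zero_iff, hnorm]; exact hr
    · rw [indicator_of_notMem, indicator_of_notMem, smul_zero]
      · intro h; exact hr h.1.2
      · rw [mem_ball_zero_iff, hnorm]; exact hr
  rw [setIntegral_congr_fun hT h1, setIntegral_indicator hA]
  have h3 : polarCoord.target ∩ (Ioo (0 : ℝ) s ×ˢ Ioo (-Real.pi) Real.pi) =
      Ioo (0 : ℝ) s ×ˢ Ioo (-Real.pi) Real.pi := by
    apply inter_eq_right.2
    rintro ⟨r, t⟩ ⟨h1, h2⟩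
    exact ⟨h1.1, h2⟩
  rw [h3]
  have h4 := setIntegral_prod_mul (μ := (volume : Measure ℝ)) (ν := (volume : Measure ℝ))
    (fun r : ℝ => (r : ℂ) ^ (n + m + 1))
    (fun t : ℝ => Complex.exp (((n - m : ℤ) : ℂ) * I * t)) (Ioo (0 : ℝ) s)
    (Ioo (-Real.pi) Real.pi)
  rw [Measure.volume_eq_prod, h4, int_r s hs, int_th]
  by_cases h : n = m
  · subst h
    rw [if_pos (by ring), if_pos rfl]
    push_cast
    have : (n : ℂ) + 1 ≠ 0 := by exact_mod_cast n.succ_ne_zero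
    have h5 : (n : ℂ) + n + 1 + 1 = 2 * (n + 1) := by ring
    rw [h5]
    field_simp
    ring
  · rw [if_neg h, if_neg (by omega), mul_zero]

end Orth'

open Orth' in
/-- [A3] -/
theorem prfOrth : Orth := by
  intro h hh s hs0 hs1 m
  have hball : (volume (ball (0 : ℂ) s)) < ⊤ := measure_ball_lt_top
  have hnb : ∀ ζ ∈ ball (0 : ℂ) s, ∀ n : ℕ,
      ‖tc h n * (ζ ^ n * (starRingEnd ℂ) ζ ^ m)‖ ≤ ‖tc h n‖ * s ^ n := by
    intro ζ hζ n
    have h0 : ‖ζ‖ < s := mem_ball_zero_iff.1 hζ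
    rw [norm_mul, norm_mul, norm_pow, norm_pow, RCLike.norm_conj]
    have h1 : ‖ζ‖ ^ m ≤ 1 := pow_le_one₀ (norm_nonneg _) (by linarith)
    have h2 : ‖ζ‖ ^ n ≤ s ^ n := by gcongr
    calc ‖tc h n‖ * (‖ζ‖ ^ n * ‖ζ‖ ^ m) ≤ ‖tc h n‖ * (s ^ n * 1) := by gcongr
      _ = _ := by ring
  have hsn : Summable (fun n : ℕ => ‖tc h n‖ * s ^ n) := by
    have h1 : ((s : ℝ) : ℂ) ∈ ball (0 : ℂ) 1 := by
      rw [mem_ball_zero_iff, Complex.norm_real, Real.norm_eq_abs, abs_of_pos hs0]; exact hs1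
    have h2 := (hasSum_tc hh h1).summable.norm
    refine h2.congr fun n => ?_
    rw [norm_mul, norm_pow, Complex.norm_real, Real.norm_eq_abs, abs_of_pos hs0]
  have hint : ∀ n : ℕ, Integrable (fun ζ : ℂ => tc h n * (ζ ^ n * (starRingEnd ℂ) ζ ^ m))
      (volume.restrict (ball (0 : ℂ) s)) := by
    intro n
    have hc : Continuous (fun ζ : ℂ => tc h n * (ζ ^ n * (starRingEnd ℂ) ζ ^ m)) := by
      have := Complex.continuous_conj
      fun_prop
    exact (hc.continuousOn.integrableOn_compact (isCompact_closedBall 0 s)).mono_set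
      ball_subset_closedBall
  have hsum : Summable (fun n : ℕ => ∫ ζ in ball (0 : ℂ) s,
      ‖tc h n * (ζ ^ n * (starRingEnd ℂ) ζ ^ m)‖) := by
    refine Summable.of_nonneg_of_le (fun n => integral_nonneg fun _ => norm_nonneg _) (fun n => ?_)
      (hsn.mul_right (volume.real (ball (0 : ℂ) s)))
    have h1 := norm_setIntegral_le_of_norm_le_const
      (f := fun ζ : ℂ => ‖tc h n * (ζ ^ n * (starRingEnd ℂ) ζ ^ m)‖) hball
      (C := ‖tc h n‖ * s ^ n) (fun ζ hζ => by rw [norm_norm]; exact hnb ζ hζ n)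
    exact (le_abs_self _).trans h1
  have hmain := hasSum_integral_of_summable_integral_norm hint hsum
  have heq : ∫ ζ in ball (0 : ℂ) s, (∑' n : ℕ, tc h n * (ζ ^ n * (starRingEnd ℂ) ζ ^ m)) =
      ∫ ζ in ball (0 : ℂ) s, h ζ * (starRingEnd ℂ) ζ ^ m := by
    refine setIntegral_congr_fun measurableSet_ball fun ζ hζ => ?_
    have h1 := (hasSum_tc hh (ball_subset_ball hs1.le hζ)).mul_right ((starRingEnd ℂ) ζ ^ m)
    rw [← h1.tsum_eq]
    exact tsum_congr fun n => by ring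
  rw [heq] at hmain
  have hval : ∀ n : ℕ, ∫ ζ in ball (0 : ℂ) s, tc h n * (ζ ^ n * (starRingEnd ℂ) ζ ^ m) =
      if n = m then (Real.pi * s ^ (2 * m + 2) / (m + 1) : ℂ) * tc h m else 0 := by
    intro n
    rw [integral_const_mul, mono s hs0 n m]
    by_cases hnm : n = m
    · subst hnm; simp; ring
    · simp [hnm]
  simp_rw [hval] at hmain
  rw [hmain.unique (hasSum_ite_eq m _)]

end Pool.Agent.MultS.Lip

end

section

/-! Item A2 (Rota): rotations. -/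

set_option autoImplicit false

open Complex Metric Set Filter Topology

namespace Pool.Agent.MultS.Lip

namespace Rota'

theorem mem_ball_mul {t z : ℂ} (ht : ‖t‖ = 1) (hz : z ∈ ball (0 : ℂ) 1) :
    t * z ∈ ball (0 : ℂ) 1 := by
  rw [mem_ball_zero_iff] at hz ⊢
  rw [norm_mul, ht, one_mul]
  exact hz

theorem tc_rot {f : ℂ → ℂ} {t : ℂ} (hf : DifferentiableOn ℂ f (ball 0 1)) (ht : ‖t‖ = 1) (n : ℕ) :
    tc (fun ζ => f (t * ζ) / t) (n + 1) = tc f (n + 1) * t ^ n := by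
  have ht0 : t ≠ 0 := by
    intro h
    rw [h, norm_zero] at ht
    exact zero_ne_one ht
  have h1 : ∀ z ∈ ball (0 : ℂ) 1,
      HasSum (fun n => (tc f n * t ^ n / t) * z ^ n) ((fun ζ => f (t * ζ) / t) z) := by
    intro z hz
    have h2 := (hasSum_tc hf (mem_ball_mul ht hz)).div_const t
    have h3 : (fun n => (tc f n * t ^ n / t) * z ^ n) = fun n => tc f n * (t * z) ^ n / t := by
      funext k
      rw [mul_pow]
      ring
    rw [h3]
    exact h2
  rw [tc_of_hasSum h1 (n + 1), pow_succ]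
  field_simp

end Rota'

theorem prfRota : Rota := by
  intro lam f t hf ht
  have ht0 : t ≠ 0 := by
    intro h
    rw [h, norm_zero] at ht
    exact zero_ne_one ht
  refine ⟨fun z => ?_, fun hS => ?_⟩
  · unfold LL
    refine tsum_congr fun n => ?_
    rw [Rota'.tc_rot hf ht, mul_pow]
    ring
  · obtain ⟨hd, hi, h0, h1⟩ := hS
    refine ⟨?_, ?_, ?_, ?_⟩
    · refine DifferentiableOn.div_const ?_ t
      exact hd.comp ((differentiable_id.const_mul t).differentiableOn)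
        (fun z hz => Rota'.mem_ball_mul ht hz)
    · intro a ha b hb hab
      have h2 : f (t * a) = f (t * b) := by
        have h3 : f (t * a) / t = f (t * b) / t := hab
        field_simp at h3
        exact h3
      exact mul_left_cancel₀ ht0 (hi (Rota'.mem_ball_mul ht ha) (Rota'.mem_ball_mul ht hb) h2)
    · show f (t * 0) / t = 0
      rw [mul_zero, h0, zero_div]
    · rw [← tc_one, Rota'.tc_rot hf ht 0, pow_zero, mul_one, tc_one, h1]

end Pool.Agent.MultS.Lip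

end

section

set_option autoImplicit false

open Complex Metric Set Filter Topology MeasureTheory

namespace Pool.Agent.MultS.Lip

namespace Start'

theorem one_le {w : ℂ} (hw : w ∈ Hp) : 1 ≤ ‖w + 1‖ := by
  have h1 : (0 : ℝ) < w.re := hw
  have h2 : |(w + 1).re| ≤ ‖w + 1‖ := abs_re_le_norm _
  have h3 : (w + 1).re = w.re + 1 := by simp
  rw [h3, abs_of_pos (by linarith)] at h2
  linarith

theorem re_le {w : ℂ} : w.re ≤ ‖w + 1‖ := by
  have h2 : |(w + 1).re| ≤ ‖w + 1‖ := abs_re_le_norm _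
  have h3 : (w + 1).re = w.re + 1 := by simp
  have := le_abs_self (w + 1).re
  linarith

theorem der {K : ℝ} (hK : 0 ≤ K) {F : ℂ → ℂ} (hF : DifferentiableOn ℂ F Hp)
    (hb : ∀ w ∈ Hp, ‖F w‖ ≤ K * ‖w + 1‖ ^ 2) {p : ℂ} (hp : p ∈ Hp) :
    ‖deriv F p‖ ≤ 9 / 2 * K * ‖p + 1‖ ^ 2 / p.re := by
  have hp0 : (0 : ℝ) < p.re := hp
  have hsub : closedBall p (p.re / 2) ⊆ Hp := by
    intro ζ hζ
    rw [mem_closedBall, dist_eq_norm] at hζ
    have h1 := (abs_re_le_norm (ζ - p)).trans hζ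
    have h2 := (abs_le.1 h1).1
    rw [sub_re] at h2
    show 0 < ζ.re
    linarith
  have hd : DiffContOnCl ℂ F (ball p (p.re / 2)) := by
    refine DifferentiableOn.diffContOnCl ?_
    rw [closure_ball _ (by positivity)]
    exact hF.mono hsub
  have h := norm_deriv_le_of_forall_mem_sphere_norm_le (C := K * (3 / 2 * ‖p + 1‖) ^ 2)
    (R := p.re / 2) (by positivity) hd (by
      intro ζ hζ
      have hζ' : ζ ∈ closedBall p (p.re / 2) := sphere_subset_closedBall hζ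
      refine (hb ζ (hsub hζ')).trans ?_
      rw [mem_closedBall, dist_eq_norm] at hζ'
      have h3 : ‖ζ + 1‖ ≤ 3 / 2 * ‖p + 1‖ := by
        calc ‖ζ + 1‖ = ‖(p + 1) + (ζ - p)‖ := by congr 1; ring
          _ ≤ ‖p + 1‖ + ‖ζ - p‖ := norm_add_le _ _
          _ ≤ 3 / 2 * ‖p + 1‖ := by linarith [re_le (w := p)]
      gcongr)
  refine h.trans (le_of_eq ?_)
  field_simp
  ring

end Start'

open Start' in
theorem prfStart : Start := by
  intro K S hK hS
  refine ⟨9 * K * (1 + S) ^ 3, by positivity, ?_⟩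
  intro F hF hb w hw s hs0 hsS
  have hw0 : (0 : ℝ) < w.re := hw
  have hw1 := one_le hw
  have hseg : ∀ p ∈ segment ℝ w (w + s), w.re ≤ p.re ∧ ‖p + 1‖ ≤ (1 + S) * ‖w + 1‖ := by
    intro p hp
    rw [segment_eq_image'] at hp
    obtain ⟨t, ⟨ht0, ht1⟩, rfl⟩ := hp
    constructor
    · simp only [add_sub_cancel_left, add_re, real_smul, mul_re, ofReal_re, ofReal_im, zero_mul,
        sub_zero]
      nlinarith
    · simp only [add_sub_cancel_left]
      calc ‖w + t • s + 1‖ = ‖(w + 1) + t • s‖ := by congr 1; ring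
        _ ≤ ‖w + 1‖ + ‖t • s‖ := norm_add_le _ _
        _ = ‖w + 1‖ + t * ‖s‖ := by rw [norm_smul, Real.norm_eq_abs, abs_of_nonneg ht0]
        _ ≤ ‖w + 1‖ + 1 * S := by gcongr
        _ ≤ (1 + S) * ‖w + 1‖ := by nlinarith
  have hws := hseg (w + s) (right_mem_segment ℝ w (w + s))
  have hwsH : w + s ∈ Hp := lt_of_lt_of_le hw0 hws.1
  by_cases h1 : w.re ≤ 1
  · have hA : ‖F (w + s)‖ ≤ K * ((1 + S) * ‖w + 1‖) ^ 2 := by
      refine (hb _ hwsH).trans ?_
      have := hws.2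
      gcongr
    have hB : ‖F w‖ ≤ K * ‖w + 1‖ ^ 2 := hb w hw
    have hC : ‖F (w + s) - F w‖ ≤ K * ((1 + S) * ‖w + 1‖) ^ 2 + K * ‖w + 1‖ ^ 2 :=
      (norm_sub_le _ _).trans (add_le_add hA hB)
    refine hC.trans ?_
    have hD : ‖w + 1‖ ^ 2 / 2 ≤ ‖w + 1‖ ^ 2 / (1 + w.re) := by
      apply div_le_div_of_nonneg_left (by positivity) (by positivity)
      linarith
    have hE : 0 ≤ K * ‖w + 1‖ ^ 2 := by positivity
    calc K * ((1 + S) * ‖w + 1‖) ^ 2 + K * ‖w + 1‖ ^ 2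
        = (K * ‖w + 1‖ ^ 2) * ((1 + S) ^ 2 + 1) := by ring
      _ ≤ (K * ‖w + 1‖ ^ 2) * (9 / 2 * (1 + S) ^ 3) := by
          apply mul_le_mul_of_nonneg_left _ hE
          nlinarith [pow_nonneg hS 2, pow_nonneg hS 3]
      _ = 9 * K * (1 + S) ^ 3 * (‖w + 1‖ ^ 2 / 2) := by ring
      _ ≤ 9 * K * (1 + S) ^ 3 * (‖w + 1‖ ^ 2 / (1 + w.re)) := by gcongr
  · push Not at h1
    have hsegH : segment ℝ w (w + s) ⊆ Hp := fun p hp => lt_of_lt_of_le hw0 (hseg p hp).1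
    have hopen : IsOpen Hp := isOpen_lt continuous_const continuous_re
    have h2 := (convex_segment w (w + s)).norm_image_sub_le_of_norm_deriv_le
      (f := F) (C := 9 / 2 * K * ((1 + S) * ‖w + 1‖) ^ 2 / w.re)
      (fun p hp => hF.differentiableAt (hopen.mem_nhds (hsegH hp)))
      (fun p hp => by
        refine (der hK hF hb (hsegH hp)).trans ?_
        have := hseg p hp
        have h3 := this.1
        have h4 := this.2
        gcongr)
      (left_mem_segment ℝ w (w + s)) (right_mem_segment ℝ w (w + s))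
    rw [add_sub_cancel_left] at h2
    refine h2.trans ?_
    have h5 : ‖w + 1‖ ^ 2 / w.re ≤ 2 * (‖w + 1‖ ^ 2 / (1 + w.re)) := by
      rw [mul_div_assoc', div_le_div_iff₀ hw0 (by linarith)]
      have : 0 ≤ ‖w + 1‖ ^ 2 := by positivity
      nlinarith
    calc 9 / 2 * K * ((1 + S) * ‖w + 1‖) ^ 2 / w.re * ‖s‖
        ≤ 9 / 2 * K * ((1 + S) * ‖w + 1‖) ^ 2 / w.re * (1 + S) := by gcongr; linarith
      _ = 9 / 2 * K * (1 + S) ^ 3 * (‖w + 1‖ ^ 2 / w.re) := by ring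
      _ ≤ 9 / 2 * K * (1 + S) ^ 3 * (2 * (‖w + 1‖ ^ 2 / (1 + w.re))) := by gcongr
      _ = 9 * K * (1 + S) ^ 3 * (‖w + 1‖ ^ 2 / (1 + w.re)) := by ring

end Pool.Agent.MultS.Lip

end

section

/-!
# MP_b17785_an: [F2] the converse (Noshiro-Warschawski)
-/

set_option autoImplicit false

open Complex Metric Set Filter Topology MeasureTheory

namespace Pool.Agent.MultS.Lip

namespace Suf'

/-- A function with derivative within `r < 1` of `1` is injective. -/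
theorem inj {G : ℂ → ℂ} (hG : DifferentiableOn ℂ G (ball 0 1))
    (hE : ∀ z ∈ ball (0 : ℂ) 1, ‖deriv G z - 1‖ ≤ ‖z‖) : InjOn G (ball 0 1) := by
  intro z hz w hw hzw
  by_contra hne
  have hz1 := mem_ball_zero_iff.1 hz
  have hw1 := mem_ball_zero_iff.1 hw
  set r : ℝ := max ‖z‖ ‖w‖ with hr
  have hr1 : r < 1 := max_lt hz1 hw1
  have hsub : closedBall (0 : ℂ) r ⊆ ball 0 1 := closedBall_subset_ball hr1
  have hd : ∀ x ∈ closedBall (0 : ℂ) r,
      HasDerivWithinAt (fun t => G t - t) (deriv G x - 1) (closedBall (0 : ℂ) r) x := by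
    intro x hx
    have h1 := (hG.differentiableAt (isOpen_ball.mem_nhds (hsub hx))).hasDerivAt
    exact (h1.sub (hasDerivAt_id x)).hasDerivWithinAt
  have hb : ∀ x ∈ closedBall (0 : ℂ) r, ‖deriv G x - 1‖ ≤ r := by
    intro x hx
    exact (hE x (hsub hx)).trans (mem_closedBall_zero_iff.1 hx)
  have h2 := (convex_closedBall (0 : ℂ) r).norm_image_sub_le_of_norm_hasDerivWithin_le hd hb
    (mem_closedBall_zero_iff.2 (le_max_left ‖z‖ ‖w‖)) (mem_closedBall_zero_iff.2 (le_max_right ‖z‖ ‖w‖))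
  have h3 : (G w - w) - (G z - z) = z - w := by
    rw [show G w = G z from hzw.symm]; ring
  rw [h3, ← norm_neg (z - w), neg_sub] at h2
  have hpos : 0 < ‖w - z‖ := norm_pos_iff.2 (sub_ne_zero.2 (Ne.symm hne))
  nlinarith

end Suf'

theorem prfSuf : Suf := by
  intro lam h1 hX f hf
  have hf' := hf
  obtain ⟨hfd, hfi, hf0, hf1⟩ := hf
  set a : ℕ → ℂ := fun n => lam (n + 1) * tc f (n + 1) with ha
  have ha0 : a 0 = 1 := by
    show lam (0 + 1) * tc f (0 + 1) = 1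
    rw [zero_add, h1, tc_one, hf1, one_mul]
  have hsX : ∀ z ∈ ball (0 : ℂ) 1, Summable (fun n : ℕ => ((n : ℂ) + 2) * a (n + 1) * z ^ (n + 1)) ∧
      ‖∑' n : ℕ, ((n : ℂ) + 2) * a (n + 1) * z ^ (n + 1)‖ ≤ 1 := by
    intro z hz
    have h2 := hX f hf' z hz
    have e : (fun n : ℕ => ((n : ℂ) + 2) * lam (n + 2) * tc f (n + 2) * z ^ (n + 1)) =
        fun n : ℕ => ((n : ℂ) + 2) * a (n + 1) * z ^ (n + 1) := by
      funext n
      show _ = ((n : ℂ) + 2) * (lam (n + 1 + 1) * tc f (n + 1 + 1)) * z ^ (n + 1)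
      ring
    rw [e] at h2
    exact h2
  have hsd : ∀ z ∈ ball (0 : ℂ) 1, Summable (fun n : ℕ => ((n : ℂ) + 1) * a n * z ^ n) := by
    intro z hz
    rw [← summable_nat_add_iff 1]
    refine (hsX z hz).1.congr fun n => ?_
    push_cast
    ring
  have hsz : ∀ z ∈ ball (0 : ℂ) 1, Summable (fun n : ℕ => a n * z ^ (n + 1)) := by
    intro z hz
    refine Summable.of_norm_bounded (hsd z hz).norm fun n => ?_
    have hz1 : ‖z‖ ≤ 1 := (mem_ball_zero_iff.1 hz).le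
    have e3 : ‖a n * z ^ (n + 1)‖ = ‖a n‖ * (‖z‖ ^ n * ‖z‖) := by
      rw [norm_mul (a n), norm_pow, pow_succ]
    have e4 : ‖((n : ℂ) + 1) * a n * z ^ n‖ = ‖((n : ℂ) + 1)‖ * ‖a n‖ * ‖z‖ ^ n := by
      rw [norm_mul, norm_mul _ (a n), norm_pow]
    rw [e3, e4]
    have h3 : (1 : ℝ) ≤ ‖((n : ℂ) + 1)‖ := by
      have : ((n : ℂ) + 1) = ((n + 1 : ℕ) : ℂ) := by push_cast; ring
      rw [this, Complex.norm_natCast]
      exact_mod_cast Nat.succ_le_succ (Nat.zero_le n)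
    have h4 : ‖a n‖ * (‖z‖ ^ n * ‖z‖) ≤ ‖a n‖ * ‖z‖ ^ n := by
      refine mul_le_mul_of_nonneg_left ?_ (norm_nonneg _)
      exact mul_le_of_le_one_right (by positivity) hz1
    have h5 : ‖a n‖ * ‖z‖ ^ n ≤ ‖((n : ℂ) + 1)‖ * ‖a n‖ * ‖z‖ ^ n := by
      rw [mul_assoc]
      exact le_mul_of_one_le_left (by positivity) h3
    exact h4.trans h5
  refine ⟨hsz, ?_⟩
  set g : ℂ → ℂ := fun z => ∑' n : ℕ, a n * z ^ (n + 1) with hg
  have hgs : ∀ z ∈ ball (0 : ℂ) 1, HasSum (fun n : ℕ => a n * z ^ (n + 1)) (g z) :=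
    fun z hz => (hsz z hz).hasSum
  set c : ℕ → ℂ := fun n => Nat.casesOn n 0 a with hc
  have hcs : ∀ z ∈ ball (0 : ℂ) 1, HasSum (fun n : ℕ => c n * z ^ n) (g z) := by
    intro z hz
    have := (hasSum_nat_add_iff (f := fun n : ℕ => c n * z ^ n) 1).1 (hgs z hz)
    simpa [hc] using this
  have hgd := (fps_of_hasSum hcs).differentiableOn
  rw [← ENNReal.ofReal_one, Metric.eball_ofReal] at hgd
  have hgt := tc_of_hasSum hcs
  have hg0 : g 0 = 0 := by
    show ∑' n : ℕ, a n * (0 : ℂ) ^ (n + 1) = 0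
    simp
  have hg1 : deriv g 0 = 1 := by
    rw [← tc_one, hgt 1]
    exact ha0
  have hder : ∀ z ∈ ball (0 : ℂ) 1,
      deriv g z - 1 = ∑' n : ℕ, ((n : ℂ) + 2) * a (n + 1) * z ^ (n + 1) := by
    intro z hz
    have h6 := (prfSer g hgd z hz).2.1
    have h7 := (hasSum_nat_add_iff' 1).2 h6
    rw [Finset.sum_range_one] at h7
    have e0 : ((0 : ℕ) : ℂ) + 1 = 1 := by norm_num
    rw [e0, one_mul, pow_zero, mul_one, hgt (0 + 1)] at h7
    have e1 : c (0 + 1) = 1 := ha0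
    rw [e1] at h7
    rw [← h7.tsum_eq]
    refine tsum_congr fun n => ?_
    rw [hgt (n + 1 + 1)]
    show _ * a (n + 1) * _ = _
    push_cast
    ring
  have hE : ∀ z ∈ ball (0 : ℂ) 1, ‖deriv g z - 1‖ ≤ ‖z‖ := by
    intro z hz
    have hEd : DifferentiableOn ℂ (fun z => deriv g z - 1) (ball 0 1) :=
      (hgd.deriv isOpen_ball).sub_const 1
    have hmaps : MapsTo (fun z => deriv g z - 1) (ball (0 : ℂ) 1) (closedBall (0 : ℂ) 1) := by
      intro w hw
      rw [mem_closedBall_zero_iff]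
      show ‖deriv g w - 1‖ ≤ 1
      rw [hder w hw]
      exact (hsX w hw).2
    exact Complex.norm_le_norm_of_mapsTo_ball hEd hmaps (by simp [hg1]) (mem_ball_zero_iff.1 hz)
  exact ⟨hgd, Suf'.inj hgd hE, hg0, hg1⟩

end Pool.Agent.MultS.Lip

end

section

set_option autoImplicit false

open Complex Metric Set Filter Topology MeasureTheory

namespace Pool.Agent.MultS.Lip

namespace Uni'

theorem prod_ne {a b : ℂ} {r : ℝ} (ha : 0 < a.re) (hb : 0 < b.re) (hr : r < 0) :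
    a * b ≠ (r : ℂ) := by
  intro h
  have h1 := congrArg Complex.re h
  have h2 := congrArg Complex.im h
  simp only [Complex.mul_re, Complex.mul_im, Complex.ofReal_re, Complex.ofReal_im] at h1 h2
  have h3 : 0 < a.re * b.re := mul_pos ha hb
  have h4 : 0 < a.im * b.im := by nlinarith
  have h5 : a.re * (a.im * b.im) + b.re * a.im ^ 2 = 0 := by linear_combination a.im * h2
  have h6 : 0 < a.re * (a.im * b.im) := mul_pos ha h4
  have h7 : 0 ≤ b.re * a.im ^ 2 := by positivity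
  linarith

theorem one_sub_re {ζ : ℂ} (hζ : ζ ∈ ball (0 : ℂ) 1) : 0 < (1 - ζ).re := by
  rw [mem_ball_zero_iff] at hζ
  have := Complex.re_le_norm ζ
  simp only [Complex.sub_re, Complex.one_re]
  linarith

theorem m_inj {a0 : ℝ} (ha0 : 0 < a0) {ζ₁ ζ₂ : ℂ} (h1 : ζ₁ ∈ ball (0 : ℂ) 1)
    (h2 : ζ₂ ∈ ball (0 : ℂ) 1) (h : psi ζ₁ + a0 * ζ₁ = psi ζ₂ + a0 * ζ₂) : ζ₁ = ζ₂ := by
  by_contra hne
  have e1 := one_sub_re h1
  have e2 := one_sub_re h2
  have n1 : 1 - ζ₁ ≠ 0 := fun h0 => by rw [h0] at e1; simp at e1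
  have n2 : 1 - ζ₂ ≠ 0 := fun h0 => by rw [h0] at e2; simp at e2
  have n3 : ζ₁ - ζ₂ ≠ 0 := sub_ne_zero.2 hne
  have ha : (a0 : ℂ) ≠ 0 := by exact_mod_cast ha0.ne'
  unfold psi at h
  have h3 : (ζ₁ - ζ₂) * (2 + a0 * ((1 - ζ₁) * (1 - ζ₂))) = 0 := by
    field_simp at h
    linear_combination h
  have h4 : 2 + a0 * ((1 - ζ₁) * (1 - ζ₂)) = 0 := (mul_eq_zero.1 h3).resolve_left n3
  have h5 : (1 - ζ₁) * (1 - ζ₂) = ((-2 / a0 : ℝ) : ℂ) := by
    push_cast
    field_simp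
    linear_combination h4
  exact prod_ne e1 e2 (div_neg_of_neg_of_pos (by norm_num) ha0) h5

theorem m_mem (hC : Cay) {a0 V : ℝ} (ha0 : 0 < a0) (hV : 10 * a0 ≤ V) {ζ : ℂ}
    (h : ζ ∈ ball (0 : ℂ) 1) : (psi ζ + a0 * ζ) / V ∈ Om := by
  have hVp : 0 < V := by linarith
  have h1 : 0 < (psi ζ).re := (hC.1 ζ h).1
  have h2 : -1 < ζ.re := by
    rw [mem_ball_zero_iff] at h
    have := (abs_le.1 (Complex.abs_re_le_norm ζ)).1
    linarith
  show -(1 / 10 : ℝ) < ((psi ζ + a0 * ζ) / V).re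
  rw [Complex.div_ofReal_re, Complex.add_re, Complex.re_ofReal_mul, lt_div_iff₀ hVp]
  nlinarith

theorem pt_mem {y0 : ℂ} {δ ε c : ℝ} {g : ℂ → ℂ → ℂ} (hH : Hook y0 δ ε c g) {V C : ℝ} (hV : 0 < V)
    (hcC : c + 1 ≤ C) {y v : ℂ} (hy : y ∈ ball y0 δ) (hv : v ∈ Om) :
    (C : ℂ) * V + V * g y v ∈ Hp := by
  have h1 := hH.dec y hy v hv
  have h2 : (1 : ℝ) ≤ (1 + ‖v‖) ^ 3 := one_le_pow₀ (by linarith [norm_nonneg v])
  have hc : 0 ≤ c := by
    have h3 : 0 ≤ c / (1 + ‖v‖) ^ 3 := (norm_nonneg _).trans h1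
    by_contra hc
    have := div_neg_of_neg_of_pos (not_le.1 hc) (by linarith : 0 < (1 + ‖v‖) ^ 3)
    linarith
  have h4 : ‖g y v - v‖ ≤ c := h1.trans (div_le_self hc h2)
  have h5 := (abs_le.1 ((Complex.abs_re_le_norm _).trans h4)).1
  rw [Complex.sub_re] at h5
  have h6 : -(1 / 10 : ℝ) < v.re := hv
  have e1 : (C : ℂ) * V + V * g y v = ((V : ℝ) : ℂ) * ((C : ℂ) + g y v) := by ring
  show 0 < ((C : ℂ) * V + V * g y v).re
  rw [e1, Complex.re_ofReal_mul, Complex.add_re, Complex.ofReal_re]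
  apply mul_pos hV
  linarith

end Uni'

theorem prfUni (hC : Cay) : Uni := by
  intro y0 δ ε c a0 V C g F hH ha0 hV hcC hF hFi
  have hVp : 0 < V := by linarith
  have hV0 : (V : ℂ) ≠ 0 := by exact_mod_cast hVp.ne'
  constructor
  · intro y hy ζ₁ h1 ζ₂ h2 h
    have m1 := Uni'.m_mem hC ha0 hV h1
    have m2 := Uni'.m_mem hC ha0 hV h2
    have h3 := hFi (Uni'.pt_mem hH hVp hcC hy m1) (Uni'.pt_mem hH hVp hcC hy m2) h
    have h4 : g y ((psi ζ₁ + a0 * ζ₁) / V) = g y ((psi ζ₂ + a0 * ζ₂) / V) :=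
      mul_left_cancel₀ hV0 (add_left_cancel h3)
    have h5 := hH.inj y hy m1 m2 h4
    have h6 : psi ζ₁ + a0 * ζ₁ = psi ζ₂ + a0 * ζ₂ := (div_left_inj' hV0).1 h5
    exact Uni'.m_inj ha0 h1 h2 h6
  · have hpsi : DifferentiableOn ℂ psi (ball 0 1) := hC.2.2.1
    have hm : DifferentiableOn ℂ (fun p : ℂ × ℂ => (psi p.2 + a0 * p.2) / V)
        (ball y0 δ ×ˢ ball (0 : ℂ) 1) := by
      have h1 : DifferentiableOn ℂ (fun p : ℂ × ℂ => psi p.2) (ball y0 δ ×ˢ ball (0 : ℂ) 1) :=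
        hpsi.comp differentiable_snd.differentiableOn (fun p hp => hp.2)
      have h2 : DifferentiableOn ℂ (fun p : ℂ × ℂ => (a0 : ℂ) * p.2) (ball y0 δ ×ˢ ball (0 : ℂ) 1) :=
        (differentiable_snd.const_mul _).differentiableOn
      have h3 : DifferentiableOn ℂ (fun p : ℂ × ℂ => psi p.2 + (a0 : ℂ) * p.2)
          (ball y0 δ ×ˢ ball (0 : ℂ) 1) := h1.add h2
      have h4 := h3.const_mul ((V : ℂ)⁻¹)
      refine h4.congr (fun p _ => ?_)
      rw [div_eq_inv_mul]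
    have hg : DifferentiableOn ℂ (fun p : ℂ × ℂ => g p.1 ((psi p.2 + a0 * p.2) / V))
        (ball y0 δ ×ˢ ball (0 : ℂ) 1) :=
      hH.dif.comp (differentiable_fst.differentiableOn.prodMk hm)
        (fun p hp => ⟨hp.1, Uni'.m_mem hC ha0 hV hp.2⟩)
    exact hF.comp ((hg.const_mul _).const_add _)
      (fun p hp => Uni'.pt_mem hH hVp hcC hp.1 (Uni'.m_mem hC ha0 hV hp.2))

end Pool.Agent.MultS.Lip

end

section

set_option autoImplicit false

open Complex Metric Set Filter Topology MeasureTheory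

namespace Pool.Agent.MultS.Lip

theorem prfZer : Zer := by
  intro Φ y0 δ hδ hΦ hb
  have hy0 : y0 ∈ ball y0 δ := mem_ball_self hδ
  have hsub : closedBall y0 (δ / 2) ⊆ ball y0 δ := closedBall_subset_ball (by linarith)
  have h0 : ‖Φ y0‖ ≤ δ / 16 := by
    have := hb y0 hy0
    rwa [sub_self, sub_zero] at this
  have hsph : ∀ y ∈ sphere y0 (δ / 2), 3 * δ / 8 ≤ ‖Φ y - Φ y0‖ := by
    intro y hy
    have hy' : y ∈ ball y0 δ := hsub (sphere_subset_closedBall hy)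
    have h1 := hb y hy'
    have h2 : ‖y - y0‖ = δ / 2 := by rw [← dist_eq_norm]; exact hy
    have h3 : y - y0 = (Φ y - Φ y0) + Φ y0 - (Φ y - (y - y0)) := by ring
    have h4 : ‖y - y0‖ ≤ ‖Φ y - Φ y0‖ + ‖Φ y0‖ + ‖Φ y - (y - y0)‖ := by
      conv_lhs => rw [h3]
      exact (norm_sub_le _ _).trans (by gcongr; exact norm_add_le _ _)
    linarith
  have hfreq : ∃ᶠ z in 𝓝 y0, Φ z ≠ Φ y0 := by
    intro hev
    have hev' : Φ =ᶠ[𝓝 y0] fun _ => Φ y0 := by
      filter_upwards [hev] with z hz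
      exact not_not.1 hz
    have heq := (hΦ.analyticOnNhd isOpen_ball).eqOn_of_preconnected_of_eventuallyEq
      analyticOnNhd_const (convex_ball y0 δ).isPreconnected hy0 hev'
    have hy : y0 + ((δ / 2 : ℝ) : ℂ) ∈ sphere y0 (δ / 2) := by
      rw [mem_sphere, dist_eq_norm, add_sub_cancel_left, Complex.norm_real, Real.norm_eq_abs,
        abs_of_pos (by linarith)]
    have h1 := hsph _ hy
    have h2 : Φ (y0 + ((δ / 2 : ℝ) : ℂ)) = Φ y0 := heq (hsub (sphere_subset_closedBall hy))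
    rw [h2, sub_self, norm_zero] at h1
    linarith
  have hball := (hΦ.diffContOnCl_ball hsub).ball_subset_image_closedBall (by linarith) hsph hfreq
  have h5 : (0 : ℂ) ∈ ball (Φ y0) (3 * δ / 8 / 2) := by
    rw [mem_ball, dist_eq_norm, zero_sub, norm_neg]
    linarith
  obtain ⟨y, hy, hy2⟩ := hball h5
  exact ⟨y, hsub hy, hy2⟩

end Pool.Agent.MultS.Lip

end

section

/-!
# The derivative of `log |F|` along the real line
-/

set_option autoImplicit false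

open Complex Metric Set Filter Topology MeasureTheory

namespace Pool.Agent.MultS.UB

/-- The derivative of `log |F|`. -/
theorem hasDerivAt_log_norm {F : ℝ → ℂ} {F' : ℂ} {u : ℝ} (h : HasDerivAt F F' u) (h0 : F u ≠ 0) :
    HasDerivAt (fun v : ℝ => Real.log ‖F v‖) (F' / F u).re u := by
  have h1 : HasDerivAt (fun v : ℝ => ‖F v‖ ^ 2) (2 * inner ℝ (F u) F') u := h.norm_sq
  have h2 : (‖F u‖ ^ 2 : ℝ) ≠ 0 := pow_ne_zero _ (norm_ne_zero_iff.2 h0)
  have h3 := (h1.log h2).div_const 2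
  have h4 : (fun v : ℝ => Real.log (‖F v‖ ^ 2) / 2) = fun v : ℝ => Real.log ‖F v‖ := by
    funext v
    rw [Real.log_pow]
    push_cast
    ring
  rw [h4] at h3
  refine h3.congr_deriv ?_
  rw [Complex.inner, Complex.div_re]
  have h5 : (‖F u‖ ^ 2 : ℝ) = normSq (F u) := (normSq_eq_norm_sq _).symm
  rw [h5]
  simp only [mul_re, conj_re, conj_im]
  have h6 : normSq (F u) ≠ 0 := by rw [← h5]; exact h2
  field_simp
  ring

end Pool.Agent.MultS.UB

end

section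

/-!
# Coefficient multipliers of the class S: Koebe's 1/4 theorem and the lower growth theorem
-/

set_option autoImplicit false

open Complex Metric Set Filter Topology MeasureTheory Finset

namespace Pool.Agent.MultS

theorem biebAll : Bieb := prfBieb prfSqrtT prfAreaOut

/-- The omitted value transform. -/
theorem sc_omit {f : ℂ → ℂ} (hf : Sc f) {w : ℂ} (hw : ∀ z ∈ ball (0 : ℂ) 1, f z ≠ w) :
    Sc (fun z => w * f z / (w - f z)) ∧ tc (fun z => w * f z / (w - f z)) 2 = tc f 2 + 1 / w := by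
  obtain ⟨hd, hi, h0, h1⟩ := hf
  have hw0 : w ≠ 0 := by
    have := hw 0 (mem_ball_self one_pos)
    rw [h0] at this
    exact this.symm
  have hne : ∀ z ∈ ball (0 : ℂ) 1, w - f z ≠ 0 := fun z hz => sub_ne_zero.2 (hw z hz).symm
  have hder : ∀ z ∈ ball (0 : ℂ) 1,
      HasDerivAt (fun z => w * f z / (w - f z)) (w ^ 2 * deriv f z / (w - f z) ^ 2) z := by
    intro z hz
    have h2 := (hd.differentiableAt (isOpen_ball.mem_nhds hz)).hasDerivAt
    refine ((h2.const_mul w).div (h2.const_sub w) (hne z hz)).congr_deriv ?_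
    ring
  have hmem : (0 : ℂ) ∈ ball (0 : ℂ) 1 := mem_ball_self one_pos
  refine ⟨⟨fun z hz => (hder z hz).differentiableAt.differentiableWithinAt, ?_, ?_, ?_⟩, ?_⟩
  · intro a ha b hb hab
    apply hi ha hb
    have h3 : w * f a / (w - f a) = w * f b / (w - f b) := hab
    rw [div_eq_div_iff (hne a ha) (hne b hb)] at h3
    have h4 : w ^ 2 * (f a - f b) = 0 := by linear_combination h3
    rcases mul_eq_zero.1 h4 with h | h
    · exact absurd h (pow_ne_zero 2 hw0)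
    · exact sub_eq_zero.1 h
  · simp [h0]
  · rw [(hder 0 hmem).deriv, h0, h1, sub_zero, mul_one]
    exact div_self (pow_ne_zero 2 hw0)
  · have hev : deriv (fun z => w * f z / (w - f z)) =ᶠ[𝓝 0]
        fun z => w ^ 2 * deriv f z / (w - f z) ^ 2 := by
      filter_upwards [isOpen_ball.mem_nhds hmem] with z hz
      exact (hder z hz).deriv
    have h2 := (hd.differentiableAt (isOpen_ball.mem_nhds hmem)).hasDerivAt
    have h3 : HasDerivAt (deriv f) (deriv (deriv f) 0) 0 :=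
      ((hd.deriv isOpen_ball).differentiableAt (isOpen_ball.mem_nhds hmem)).hasDerivAt
    have h4 := (h3.const_mul (w ^ 2)).div ((h2.const_sub w).pow 2) (pow_ne_zero 2 (hne 0 hmem))
    have h5 := hev.deriv_eq.trans h4.deriv
    rw [tc, iteratedDeriv_succ, iteratedDeriv_one, h5, tc, iteratedDeriv_succ, iteratedDeriv_one]
    simp only [Pi.pow_apply, h0, h1, sub_zero, Nat.factorial]
    field_simp
    push_cast
    ring

/-- Koebe's one quarter theorem. -/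
theorem koebeQ {f : ℂ → ℂ} (hf : Sc f) {w : ℂ} (hw : ∀ z ∈ ball (0 : ℂ) 1, f z ≠ w) :
    1 / 4 ≤ ‖w‖ := by
  have hw0 : w ≠ 0 := by
    have := hw 0 (mem_ball_self one_pos)
    rw [hf.2.2.1] at this
    exact this.symm
  obtain ⟨h1, h2⟩ := sc_omit hf hw
  have h3 := biebAll _ h1
  have h4 := biebAll _ hf
  rw [h2] at h3
  have h5 : ‖1 / w‖ ≤ 4 := by
    calc ‖1 / w‖ = ‖(tc f 2 + 1 / w) - tc f 2‖ := by rw [add_sub_cancel_left]
      _ ≤ ‖tc f 2 + 1 / w‖ + ‖tc f 2‖ := norm_sub_le _ _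
      _ ≤ 4 := by linarith
  rw [norm_div, norm_one] at h5
  have hp : 0 < ‖w‖ := norm_pos_iff.2 hw0
  rw [div_le_iff₀ hp] at h5
  linarith

/-- The argument of the square root in the slit map. -/
noncomputable def slx (c : ℝ) (z : ℂ) : ℂ := 1 - 4 * c * z / (1 + z) ^ 2

/-- The square root in the slit map. -/
noncomputable def sls (c : ℝ) (z : ℂ) : ℂ := exp (log (slx c z) / 2)

/-- The slit map. -/
noncomputable def slp (c : ℝ) (z : ℂ) : ℂ := (1 - sls c z) / (1 + sls c z)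

theorem one_add_ne {z : ℂ} (hz : z ∈ ball (0 : ℂ) 1) : 1 + z ≠ 0 := by
  intro h
  have h1 : z = -1 := by linear_combination h
  rw [h1] at hz
  simp at hz

theorem slx_mem {c : ℝ} (hc0 : 0 < c) (hc1 : c ≤ 1) {z : ℂ} (hz : z ∈ ball (0 : ℂ) 1) :
    slx c z ∈ slitPlane := by
  have hne := one_add_ne hz
  set p : ℂ := (1 - z) / (1 + z) with hp
  have hx : slx c z = ((1 - c : ℝ) : ℂ) + c * p ^ 2 := by
    rw [slx, hp]
    push_cast
    field_simp
    ring
  have hre : 0 < p.re := by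
    have hz1 : ‖z‖ < 1 := mem_ball_zero_iff.1 hz
    have hn : 0 < normSq (1 + z) := normSq_pos.2 hne
    have : p.re = (1 - normSq z) / normSq (1 + z) := by
      rw [hp, div_re]
      simp only [sub_re, one_re, add_re, sub_im, one_im, add_im, normSq_apply]
      rw [normSq_apply] at hn
      simp only [add_re, one_re, add_im, one_im] at hn
      field_simp
      ring
    rw [this]
    apply div_pos _ hn
    rw [normSq_eq_norm_sq]
    nlinarith [norm_nonneg z]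
  rw [mem_slitPlane_iff, hx]
  by_cases him : p.im = 0
  · left
    simp only [add_re, ofReal_re, mul_re, ofReal_im, zero_mul, sub_zero, sq, him, mul_zero]
    nlinarith [mul_pos hc0 (mul_pos hre hre)]
  · right
    simp only [add_im, ofReal_im, mul_im, ofReal_re, zero_mul, add_zero, sq, zero_add]
    have : p.re * p.im + p.im * p.re = 2 * (p.re * p.im) := by ring
    rw [this]
    exact mul_ne_zero hc0.ne' (mul_ne_zero two_ne_zero (mul_ne_zero hre.ne' him))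

theorem sls_sq {c : ℝ} (hc0 : 0 < c) (hc1 : c ≤ 1) {z : ℂ} (hz : z ∈ ball (0 : ℂ) 1) :
    sls c z ^ 2 = slx c z := by
  rw [sls, ← exp_nat_mul]
  have : ((2 : ℕ) : ℂ) * (log (slx c z) / 2) = log (slx c z) := by push_cast; ring
  rw [this, exp_log (slitPlane_ne_zero (slx_mem hc0 hc1 hz))]

theorem sls_re {c : ℝ} (hc0 : 0 < c) (hc1 : c ≤ 1) {z : ℂ} (hz : z ∈ ball (0 : ℂ) 1) :
    0 < (sls c z).re := by
  rw [sls, exp_re]
  apply mul_pos (Real.exp_pos _)
  have h1 := slx_mem hc0 hc1 hz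
  have him : (log (slx c z) / 2).im = arg (slx c z) / 2 := by
    have : log (slx c z) / 2 = ((1 / 2 : ℝ) : ℂ) * log (slx c z) := by push_cast; ring
    rw [this, im_ofReal_mul, log_im]
    ring
  rw [him]
  have h2 := mem_slitPlane_iff_arg.1 h1
  have h3 := abs_arg_le_pi (slx c z)
  rw [abs_le] at h3
  have h4 := neg_pi_lt_arg (slx c z)
  have h5 : arg (slx c z) < Real.pi := lt_of_le_of_ne h3.2 h2.1
  apply Real.cos_pos_of_mem_Ioo
  constructor <;> linarith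

theorem sls_hasDerivAt {c : ℝ} (hc0 : 0 < c) (hc1 : c ≤ 1) {z : ℂ} (hz : z ∈ ball (0 : ℂ) 1) :
    ∃ d, HasDerivAt (sls c) d z ∧ (z = 0 → d = -2 * c) := by
  have hne := one_add_ne hz
  have h1 : HasDerivAt (slx c) (-(4 * c * (1 + z) ^ 2 - 4 * c * z * (2 * (1 + z))) /
      ((1 + z) ^ 2) ^ 2) z := by
    have h2 : HasDerivAt (fun z : ℂ => 1 + z) 1 z := by
      simpa using (hasDerivAt_id z).const_add (1 : ℂ)
    have h3 : HasDerivAt (fun z : ℂ => 4 * (c : ℂ) * z) (4 * c) z := by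
      simpa using (hasDerivAt_id z).const_mul (4 * (c : ℂ))
    have h4 := (h3.div (h2.pow 2) (pow_ne_zero 2 hne)).const_sub 1
    refine h4.congr_deriv ?_
    simp only [Pi.pow_apply]
    push_cast
    ring
  have h5 := ((h1.clog (slx_mem hc0 hc1 hz)).div_const 2).cexp
  refine ⟨_, h5, ?_⟩
  rintro rfl
  simp [slx]
  ring

theorem slp_mem {c : ℝ} (hc0 : 0 < c) (hc1 : c ≤ 1) {z : ℂ} (hz : z ∈ ball (0 : ℂ) 1) :
    1 + sls c z ≠ 0 ∧ slp c z ∈ ball (0 : ℂ) 1 := by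
  have h1 := sls_re hc0 hc1 hz
  have h2 : 1 + sls c z ≠ 0 := by
    intro h
    have := congrArg Complex.re h
    simp at this
    linarith
  refine ⟨h2, ?_⟩
  rw [mem_ball_zero_iff, slp, norm_div, div_lt_one (norm_pos_iff.2 h2)]
  have h3 : normSq (1 - sls c z) < normSq (1 + sls c z) := by
    simp only [normSq_apply, sub_re, one_re, sub_im, one_im, add_re, add_im]
    nlinarith
  rw [normSq_eq_norm_sq, normSq_eq_norm_sq] at h3
  exact lt_of_pow_lt_pow_left₀ 2 (norm_nonneg _) h3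

theorem slp_inj {c : ℝ} (hc0 : 0 < c) (hc1 : c ≤ 1) : InjOn (slp c) (ball (0 : ℂ) 1) := by
  intro z hz w hw hzw
  have hz1 := (slp_mem hc0 hc1 hz).1
  have hw1 := (slp_mem hc0 hc1 hw).1
  have h1 : (1 - sls c z) / (1 + sls c z) = (1 - sls c w) / (1 + sls c w) := hzw
  rw [div_eq_div_iff hz1 hw1] at h1
  have h2 : sls c z = sls c w := by
    have : 2 * (sls c z - sls c w) = 0 := by linear_combination -h1
    have h3 := (mul_eq_zero.1 this).resolve_left two_ne_zero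
    exact sub_eq_zero.1 h3
  have h3 : slx c z = slx c w := by rw [← sls_sq hc0 hc1 hz, ← sls_sq hc0 hc1 hw, h2]
  have hz2 := one_add_ne hz
  have hw2 := one_add_ne hw
  have hc : (c : ℂ) ≠ 0 := by exact_mod_cast hc0.ne'
  have h4 : (z - w) * (1 - z * w) = 0 := by
    rw [slx, slx, sub_right_inj, div_eq_div_iff (pow_ne_zero 2 hz2) (pow_ne_zero 2 hw2)] at h3
    have : (4 * (c : ℂ)) * ((z - w) * (1 - z * w)) = 0 := by linear_combination h3
    exact (mul_eq_zero.1 this).resolve_left (mul_ne_zero (by norm_num) hc)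
  rcases mul_eq_zero.1 h4 with h | h
  · exact sub_eq_zero.1 h
  · exfalso
    have hz3 := mem_ball_zero_iff.1 hz
    have hw3 := mem_ball_zero_iff.1 hw
    have : ‖z * w‖ = 1 := by
      have : z * w = 1 := by linear_combination -h
      rw [this, norm_one]
    rw [norm_mul] at this
    nlinarith [norm_nonneg z, norm_nonneg w]

/-- The lower growth theorem. -/
theorem growL {f : ℂ → ℂ} (hf : Sc f) {z : ℂ} (hz : z ∈ ball (0 : ℂ) 1) :
    ‖z‖ / (1 + ‖z‖) ^ 2 ≤ ‖f z‖ := by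
  rcases eq_or_ne z 0 with rfl | hz0
  · simp
  have hr1 : ‖z‖ < 1 := mem_ball_zero_iff.1 hz
  set r : ℝ := ‖z‖ with hr
  have hr0 : 0 < r := norm_pos_iff.2 hz0
  set c : ℝ := 4 * r / (1 + r) ^ 2 with hc
  have hc0 : 0 < c := by positivity
  have hc1 : c ≤ 1 := by
    rw [hc, div_le_one (by positivity)]
    nlinarith [sq_nonneg (1 - r)]
  set e : ℂ := z / r with he
  have hrc : (r : ℂ) ≠ 0 := by exact_mod_cast hr0.ne'
  have hcc : (c : ℂ) ≠ 0 := by exact_mod_cast hc0.ne'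
  have he1 : ‖e‖ = 1 := by
    rw [he, norm_div, norm_real, Real.norm_of_nonneg hr0.le, ← hr, div_self hr0.ne']
  have he0 : e ≠ 0 := by
    intro h
    rw [h, norm_zero] at he1
    exact zero_ne_one he1
  have hze : z = e * r := by rw [he]; field_simp
  obtain ⟨hd, hi, h0, h1⟩ := hf
  have hmaps : ∀ ζ ∈ ball (0 : ℂ) 1, e * slp c ζ ∈ ball (0 : ℂ) 1 := by
    intro ζ hζ
    rw [mem_ball_zero_iff, norm_mul, he1, one_mul]
    exact mem_ball_zero_iff.1 (slp_mem hc0 hc1 hζ).2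
  have hsl0 : sls c 0 = 1 := by simp [sls, slx]
  have hslp0 : slp c 0 = 0 := by simp [slp, hsl0]
  have hslpd : ∀ ζ ∈ ball (0 : ℂ) 1, ∃ d, HasDerivAt (slp c) d ζ ∧ (ζ = 0 → d = c) := by
    intro ζ hζ
    obtain ⟨d, hd1, hd2⟩ := sls_hasDerivAt hc0 hc1 hζ
    refine ⟨_, (hd1.const_sub 1).div (hd1.const_add 1) (slp_mem hc0 hc1 hζ).1, ?_⟩
    intro h
    rw [hd2 h, h, hsl0]
    ring
  set F : ℂ → ℂ := fun ζ => f (e * slp c ζ) / (c * e) with hF
  have hFd : ∀ ζ ∈ ball (0 : ℂ) 1, ∃ d, HasDerivAt F d ζ ∧ (ζ = 0 → d = 1) := by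
    intro ζ hζ
    obtain ⟨d, hd1, hd2⟩ := hslpd ζ hζ
    have h2 := (hd.differentiableAt (isOpen_ball.mem_nhds (hmaps ζ hζ))).hasDerivAt
    have h3 := (HasDerivAt.comp ζ h2 (hd1.const_mul e)).div_const (c * e)
    refine ⟨_, h3, ?_⟩
    intro h
    rw [hd2 h, h, hslp0, mul_zero, h1]
    field_simp
  have hmem : (0 : ℂ) ∈ ball (0 : ℂ) 1 := mem_ball_self one_pos
  have hFS : Sc F := by
    refine ⟨?_, ?_, ?_, ?_⟩
    · intro ζ hζ
      obtain ⟨d, hd1, -⟩ := hFd ζ hζ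
      exact hd1.differentiableAt.differentiableWithinAt
    · intro a ha b hb hab
      have h2 : f (e * slp c a) / (c * e) = f (e * slp c b) / (c * e) := hab
      rw [div_left_inj' (mul_ne_zero hcc he0)] at h2
      have h3 := hi (hmaps a ha) (hmaps b hb) h2
      exact slp_inj hc0 hc1 ha hb (mul_left_cancel₀ he0 h3)
    · simp [hF, hslp0, h0]
    · obtain ⟨d, hd1, hd2⟩ := hFd 0 hmem
      rw [hd1.deriv, hd2 rfl]
  have hom : ∀ ζ ∈ ball (0 : ℂ) 1, F ζ ≠ f z / (c * e) := by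
    intro ζ hζ hE
    have h2 : f (e * slp c ζ) / (c * e) = f z / (c * e) := hE
    rw [div_left_inj' (mul_ne_zero hcc he0)] at h2
    have h3 := hi (hmaps ζ hζ) hz h2
    rw [hze] at h3
    have h4 : slp c ζ = r := mul_left_cancel₀ he0 h3
    have h5 := (slp_mem hc0 hc1 hζ).1
    rw [slp, div_eq_iff h5] at h4
    have hr2 : (1 + r : ℂ) ≠ 0 := by
      have : ((1 + r : ℝ) : ℂ) ≠ 0 := by exact_mod_cast (by positivity : (1 + r : ℝ) ≠ 0)
      push_cast at this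
      exact this
    have h6 : sls c ζ = (1 - r) / (1 + r) := by
      field_simp
      linear_combination -h4
    have h7 := sls_sq hc0 hc1 hζ
    rw [h6, slx] at h7
    have h8 := one_add_ne hζ
    have hcv : (c : ℂ) = 4 * r / (1 + r) ^ 2 := by rw [hc]; push_cast; ring
    rw [hcv] at h7
    field_simp at h7
    have h9 : (4 * (r : ℂ)) * (1 - ζ) ^ 2 = 0 := by linear_combination -h7
    have h10 := (mul_eq_zero.1 h9).resolve_left (mul_ne_zero (by norm_num) hrc)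
    have h11 : ζ = 1 := by
      have := pow_eq_zero_iff (two_ne_zero) |>.1 h10
      linear_combination -this
    rw [h11] at hζ
    simp at hζ
  have hK := koebeQ hFS hom
  rw [norm_div, norm_mul, he1, mul_one, norm_real, Real.norm_of_nonneg hc0.le,
    le_div_iff₀ hc0, hc] at hK
  refine le_trans (le_of_eq ?_) hK
  ring

end Pool.Agent.MultS

end
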