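import Pool.Agent.Work.MP_b17785_an.LB.Stmts
import Pool.Agent.Work.MP_b17785_an.Bd.B02
import Pool.Agent.Work.MP_b17785_an.Bd.B08
import Pool.Agent.Work.MP_b17785_an.Lip.AreaD
import Pool.Agent.Work.MP_b17785_an.Bd.B07
import Pool.Agent.Work.MP_b17785_an.Bd.B01
import Pool.Agent.Work.MP_b17785_an.Lip.StmtsE
import Pool.Agent.Work.MP_b17785_an.All
import Pool.Agent.Work.MP_b17785_an.Lip.StmtsU

/-! Bundle of small proof modules (one section per former module). -/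

section

/-!
# [L7] The area bound in the disk
-/

set_option autoImplicit false

open Complex Metric Set Filter Topology MeasureTheory
open Pool.Agent.MultS.Lip

namespace Pool.Agent.MultS.LB

namespace AreaPX

/-- what is used about the multiplier: `C` bounds the sum, `B` bounds the kernel -/
structure Pk (lam : ℕ → ℂ) (C B : ℝ) : Prop where
  /-- `∑ n |lam n|` converges -/
  sm : Summable (fun n : ℕ => ((n : ℝ) + 1) * ‖lam (n + 1)‖)
  /-- and is at most `C` -/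
  sb : ∑' n : ℕ, ((n : ℝ) + 1) * ‖lam (n + 1)‖ ≤ C
  /-- sign -/
  c0 : 0 ≤ C
  /-- sign -/
  b0 : 0 ≤ B
  /-- the kernel is bounded by `B` -/
  kb : ∀ u ∈ ball (0 : ℂ) 1,
    ‖∑' n : ℕ, ((n : ℂ) + 1) * ((n : ℂ) + 2) * lam (n + 1) * u ^ n‖ ≤ B

open AreaD'

variable {lam : ℕ → ℂ} {C B : ℝ}

theorem lam_bound (hP : Pk lam C B) (n : ℕ) : ((n : ℝ) + 1) * ‖lam (n + 1)‖ ≤ C :=
  (hP.sm.le_tsum n (fun _ _ => by positivity)).trans hP.sb

theorem T_bound (hP : Pk lam C B) (z : ℂ) (n : ℕ) {ζ : ℂ} (hζ : ‖ζ‖ ≤ 1) :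
    ‖T lam z n ζ‖ ≤ C * (((n : ℝ) + 2) * ‖z‖ ^ n) := by
  unfold T
  rw [norm_mul, norm_mul, norm_mul, norm_mul, norm_pow, norm_pow, norm_n1, norm_n2,
    RCLike.norm_conj]
  have h1 := lam_bound hP n
  have h2 : ‖ζ‖ ^ (n + 1) ≤ 1 := pow_le_one₀ (norm_nonneg _) hζ
  have h3 : 0 ≤ ((n : ℝ) + 2) * ‖z‖ ^ n := by positivity
  calc ((n : ℝ) + 1) * ((n : ℝ) + 2) * ‖lam (n + 1)‖ * ‖z‖ ^ n * ‖ζ‖ ^ (n + 1)
      = (((n : ℝ) + 1) * ‖lam (n + 1)‖) * (((n : ℝ) + 2) * ‖z‖ ^ n) * ‖ζ‖ ^ (n + 1) := by ring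
    _ ≤ (((n : ℝ) + 1) * ‖lam (n + 1)‖) * (((n : ℝ) + 2) * ‖z‖ ^ n) * 1 :=
        mul_le_mul_of_nonneg_left h2 (by positivity)
    _ ≤ C * (((n : ℝ) + 2) * ‖z‖ ^ n) := by
        rw [mul_one]
        exact mul_le_mul_of_nonneg_right h1 h3

theorem tsum_T_bound (hP : Pk lam C B) {z ζ : ℂ} (hz : ‖z‖ < 1) (hζ : ‖ζ‖ < 1) :
    ‖∑' n : ℕ, T lam z n ζ‖ ≤ B := by
  rw [tsum_T, norm_mul, RCLike.norm_conj]
  have h1 : z * (starRingEnd ℂ) ζ ∈ ball (0 : ℂ) 1 := by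
    rw [mem_ball_zero_iff, norm_mul, RCLike.norm_conj]
    nlinarith [norm_nonneg z, norm_nonneg ζ]
  have h2 := hP.kb _ h1
  have h3 : 0 ≤ B := hP.b0
  nlinarith [norm_nonneg ζ, norm_nonneg (∑' n : ℕ, ((n : ℂ) + 1) * ((n : ℂ) + 2) * lam (n + 1) *
    (z * (starRingEnd ℂ) ζ) ^ n)]

theorem main (hO : Orth) (hP : Pk lam C B) {h : ℂ → ℂ} (hh : DifferentiableOn ℂ h (ball 0 1))
    {z : ℂ} (hz : ‖z‖ < 1) {s : ℝ} (hs0 : 0 < s) (hs1 : s < 1) :
    ∫ ζ in ball (0 : ℂ) s, h ζ * ∑' n : ℕ, T lam z n ζ =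
      Real.pi * s ^ 4 * LL lam h (s ^ 2 * z) := by
  have hsub : closedBall (0 : ℂ) s ⊆ ball 0 1 := closedBall_subset_ball hs1
  have hcont : ContinuousOn h (closedBall 0 s) := hh.continuousOn.mono hsub
  obtain ⟨M, hM⟩ := (isCompact_closedBall (0 : ℂ) s).exists_bound_of_continuousOn hcont
  have hM0 : 0 ≤ M := (norm_nonneg _).trans (hM 0 (by simp [hs0.le]))
  have hC0 : 0 ≤ C := hP.c0
  have hint : ∀ n : ℕ, IntegrableOn (fun ζ => h ζ * T lam z n ζ) (ball (0 : ℂ) s) := by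
    intro n
    have h1 : ContinuousOn (fun ζ => h ζ * T lam z n ζ) (closedBall (0 : ℂ) s) :=
      hcont.mul (T_cont z n).continuousOn
    exact (h1.integrableOn_compact (isCompact_closedBall _ _)).mono_set ball_subset_closedBall
  have hnb : ∀ n : ℕ, ∫ ζ in ball (0 : ℂ) s, ‖h ζ * T lam z n ζ‖ ≤
      (M * C * (volume.real (ball (0 : ℂ) s))) * (((n : ℝ) + 2) * ‖z‖ ^ n) := by
    intro n
    have h1 : ∫ ζ in ball (0 : ℂ) s, ‖h ζ * T lam z n ζ‖ ≤
        ∫ ζ in ball (0 : ℂ) s, M * (C * (((n : ℝ) + 2) * ‖z‖ ^ n)) := by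
      apply setIntegral_mono_on (hint n).norm _ measurableSet_ball
      · intro ζ hζ
        rw [norm_mul]
        have h2 := hM ζ (ball_subset_closedBall hζ)
        have h3 := T_bound hP z n (ζ := ζ) (by
          have := mem_ball_zero_iff.1 hζ
          linarith)
        exact mul_le_mul h2 h3 (norm_nonneg _) hM0
      · exact integrableOn_const measure_ball_lt_top.ne
    refine h1.trans (le_of_eq ?_)
    rw [setIntegral_const, smul_eq_mul]
    ring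
  have hsum : Summable (fun n : ℕ => ∫ ζ in ball (0 : ℂ) s, ‖h ζ * T lam z n ζ‖) := by
    refine Summable.of_nonneg_of_le (fun n => ?_) hnb
      ((sum_bound (norm_nonneg z) hz).mul_left _)
    exact integral_nonneg (fun _ => norm_nonneg _)
  have hHS := hasSum_integral_of_summable_integral_norm hint hsum
  have h1 : ∫ ζ in ball (0 : ℂ) s, h ζ * ∑' n : ℕ, T lam z n ζ =
      ∫ ζ in ball (0 : ℂ) s, ∑' n : ℕ, h ζ * T lam z n ζ := by
    congr 1
    funext ζ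
    rw [tsum_mul_left]
  rw [h1, ← hHS.tsum_eq]
  unfold LL
  rw [← tsum_mul_left]
  congr 1
  funext n
  have h2 : ∫ ζ in ball (0 : ℂ) s, h ζ * T lam z n ζ =
      (((n : ℂ) + 1) * ((n : ℂ) + 2) * lam (n + 1) * z ^ n) *
        ∫ ζ in ball (0 : ℂ) s, h ζ * (starRingEnd ℂ) ζ ^ (n + 1) := by
    rw [← integral_const_mul]
    congr 1
    funext ζ
    unfold T
    ring
  rw [h2, hO h hh s hs0 hs1 (n + 1)]
  have h3 : ((n : ℂ) + 2) ≠ 0 := by
    have := norm_n2 n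
    intro h0
    rw [h0, norm_zero] at this
    have h4 : (0 : ℝ) ≤ n := Nat.cast_nonneg n
    linarith
  have h4 : (((n + 1 : ℕ) : ℂ) + 1) = (n : ℂ) + 2 := by push_cast; ring
  rw [h4]
  have h5 : (s : ℂ) ^ (2 * (n + 1) + 2) = (s : ℂ) ^ 4 * ((s : ℂ) ^ 2) ^ n := by
    rw [← pow_mul, ← pow_add]; congr 1; ring
  rw [h5, mul_pow]
  field_simp

theorem tend (hP : Pk lam C B) {h : ℂ → ℂ} (hh : DifferentiableOn ℂ h (ball 0 1))
    {z : ℂ} (hz : ‖z‖ < 1) :
    Tendsto (fun s : ℝ => LL lam h ((s : ℂ) ^ 2 * z)) (𝓝[<] 1) (𝓝 (LL lam h z)) := by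
  unfold LL
  have hC0 : 0 ≤ C := hP.c0
  refine tendsto_tsum_of_dominated_convergence (bound := fun n => C * (‖tc h (n + 1)‖ * ‖z‖ ^ n))
    ((sum_tc hh hz).mul_left C) ?_ ?_
  · intro n
    have h1 : Continuous (fun s : ℝ => ((n : ℂ) + 1) * lam (n + 1) * tc h (n + 1) *
        ((s : ℂ) ^ 2 * z) ^ n) := by fun_prop
    have h2 := (h1.tendsto 1).mono_left (nhdsWithin_le_nhds (s := Iio 1))
    simpa using h2
  · have h1 : ∀ᶠ s : ℝ in 𝓝[<] 1, 0 < s ∧ s < 1 := by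
      have h2 : ∀ᶠ s : ℝ in 𝓝[<] 1, 0 < s :=
        nhdsWithin_le_nhds (lt_mem_nhds (by norm_num))
      filter_upwards [h2, self_mem_nhdsWithin] with s ha hb
      exact ⟨ha, hb⟩
    filter_upwards [h1] with s hs n
    rw [norm_mul, norm_mul, norm_mul, norm_n1, norm_pow, norm_mul, norm_pow, Complex.norm_real,
      Real.norm_of_nonneg hs.1.le]
    have h2 := lam_bound hP n
    have h3 : (s ^ 2 * ‖z‖) ^ n ≤ ‖z‖ ^ n := by
      apply pow_le_pow_left₀ (by positivity)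
      have : s ^ 2 ≤ 1 := pow_le_one₀ hs.1.le hs.2.le
      nlinarith [norm_nonneg z]
    calc ((n : ℝ) + 1) * ‖lam (n + 1)‖ * ‖tc h (n + 1)‖ * (s ^ 2 * ‖z‖) ^ n
        ≤ C * ‖tc h (n + 1)‖ * ‖z‖ ^ n := by
          apply mul_le_mul _ h3 (by positivity) (by positivity)
          exact mul_le_mul_of_nonneg_right h2 (norm_nonneg _)
      _ = C * (‖tc h (n + 1)‖ * ‖z‖ ^ n) := by ring

theorem fin (hO : Orth) (hP : Pk lam C B) (h : ℂ → ℂ) (hh : DifferentiableOn ℂ h (ball 0 1))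
    (z : ℂ) (hz : z ∈ ball (0 : ℂ) 1) : ENNReal.ofReal ‖LL lam h z‖ ≤
        ENNReal.ofReal (B / Real.pi) * ∫⁻ ζ in ball (0 : ℂ) 1, ENNReal.ofReal ‖h ζ‖ := by
  have hz1 : ‖z‖ < 1 := mem_ball_zero_iff.1 hz
  have hB0 : 0 ≤ B := hP.b0
  set I : ENNReal := ∫⁻ ζ in ball (0 : ℂ) 1, ENNReal.ofReal ‖h ζ‖ with hI
  have key : ∀ s : ℝ, 0 < s → s < 1 →
      ENNReal.ofReal (Real.pi * s ^ 4 * ‖LL lam h ((s : ℂ) ^ 2 * z)‖) ≤ ENNReal.ofReal B * I := by
    intro s hs0 hs1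
    have h1 := main hO hP hh hz1 hs0 hs1
    have h2 : Real.pi * s ^ 4 * ‖LL lam h ((s : ℂ) ^ 2 * z)‖ =
        ‖∫ ζ in ball (0 : ℂ) s, h ζ * ∑' n : ℕ, T lam z n ζ‖ := by
      rw [h1, norm_mul, norm_mul, norm_pow, Complex.norm_real, Complex.norm_real,
        Real.norm_of_nonneg Real.pi_pos.le, Real.norm_of_nonneg hs0.le]
    rw [h2, ofReal_norm]
    refine (enorm_integral_le_lintegral_enorm _).trans ?_
    have h3 : ∫⁻ ζ in ball (0 : ℂ) s, ‖h ζ * ∑' n : ℕ, T lam z n ζ‖ₑ ≤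
        ∫⁻ ζ in ball (0 : ℂ) s, ENNReal.ofReal B * ENNReal.ofReal ‖h ζ‖ := by
      apply setLIntegral_mono' measurableSet_ball
      intro ζ hζ
      have h4 : ‖ζ‖ < 1 := by
        have := mem_ball_zero_iff.1 hζ
        linarith
      have h5 := tsum_T_bound hP hz1 h4
      rw [← ofReal_norm, ← ENNReal.ofReal_mul hB0, norm_mul, mul_comm]
      exact ENNReal.ofReal_le_ofReal (mul_le_mul_of_nonneg_right h5 (norm_nonneg _))
    refine h3.trans ?_
    rw [lintegral_const_mul' _ _ ENNReal.ofReal_ne_top]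
    exact mul_le_mul_right (lintegral_mono_set (ball_subset_ball hs1.le)) _
  have hlim : Tendsto (fun s : ℝ => ENNReal.ofReal (Real.pi * s ^ 4 * ‖LL lam h ((s : ℂ) ^ 2 * z)‖))
      (𝓝[<] 1) (𝓝 (ENNReal.ofReal (Real.pi * 1 ^ 4 * ‖LL lam h z‖))) := by
    apply ENNReal.tendsto_ofReal
    apply Tendsto.mul
    · exact ((continuous_const.mul (continuous_pow 4)).tendsto 1).mono_left
        (nhdsWithin_le_nhds (s := Iio 1))
    · exact (tend hP hh hz1).norm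
  have hle : ENNReal.ofReal (Real.pi * 1 ^ 4 * ‖LL lam h z‖) ≤ ENNReal.ofReal B * I := by
    refine le_of_tendsto hlim ?_
    have h2 : ∀ᶠ s : ℝ in 𝓝[<] 1, 0 < s := nhdsWithin_le_nhds (lt_mem_nhds (by norm_num))
    filter_upwards [h2, self_mem_nhdsWithin] with s ha hb
    exact key s ha hb
  have h6 : ENNReal.ofReal ‖LL lam h z‖ =
      ENNReal.ofReal (Real.pi⁻¹) * ENNReal.ofReal (Real.pi * 1 ^ 4 * ‖LL lam h z‖) := by
    rw [← ENNReal.ofReal_mul (by positivity)]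
    congr 1
    field_simp
  rw [h6]
  have h7 : ENNReal.ofReal (B / Real.pi) = ENNReal.ofReal (Real.pi⁻¹) * ENNReal.ofReal B := by
    rw [← ENNReal.ofReal_mul (by positivity)]
    congr 1
    field_simp
  rw [h7, mul_assoc (ENNReal.ofReal Real.pi⁻¹) (ENNReal.ofReal B) I]
  exact mul_le_mul_right hle _

end AreaPX

open AreaPX in
theorem prfAreaP (hK : PXKer) : AreaP := by
  intro lam X hP h hh z hz
  have hX : 0 ≤ 2 * X := (norm_nonneg _).trans (hK lam X hP 0 (mem_ball_self one_pos))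
  have hPk : Pk lam (∑' n : ℕ, ((n : ℝ) + 1) * ‖lam (n + 1)‖) (2 * X) :=
    ⟨hP.sm, le_rfl, tsum_nonneg fun n => by positivity, hX, hK lam X hP⟩
  exact fin prfOrth hPk h hh z hz

end Pool.Agent.MultS.LB

end

section

/-!
# [K7] the kernel bound
-/

set_option autoImplicit false

open Complex Metric Set Filter Topology MeasureTheory
open Pool.Agent.MultS.Lip

namespace Pool.Agent.MultS.LB

namespace KBX

lemma one_mem : (1 : ℂ) ∈ Hp := by
  show 0 < (1 : ℂ).re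
  rw [Complex.one_re]; exact one_pos

lemma one_add_sq_ne {v : ℂ} (hv : v ∈ Hp) : 1 + v ^ 2 ≠ 0 := by
  intro h
  have hv' : 0 < v.re := hv
  have h1 := congrArg Complex.im h
  have h2 := congrArg Complex.re h
  simp only [Complex.add_im, Complex.one_im, Complex.add_re, Complex.one_re, Complex.zero_im,
    Complex.zero_re, pow_two, Complex.mul_im, Complex.mul_re] at h1 h2
  have h3 : v.im = 0 := by
    have : 2 * v.re * v.im = 0 := by linarith
    rcases mul_eq_zero.1 this with h4 | h4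
    · linarith
    · exact h4
  rw [h3] at h2
  nlinarith

lemma mo_diff (y₁ : ℂ) : DifferentiableOn ℂ (mo y₁) Hp := by
  intro v hv
  unfold mo
  have h1 : DifferentiableAt ℂ (fun y : ℂ => (y ^ 2 - y₁ ^ 2) * (1 + y₁ ^ 2)) v := by fun_prop
  have h2 : DifferentiableAt ℂ (fun y : ℂ => 1 + y ^ 2) v := by fun_prop
  exact (h1.div h2 (one_add_sq_ne hv)).differentiableWithinAt

lemma sub_ne {v : ℂ} (hv : v ∈ Hp) (k : ℝ) : v - I * (k : ℂ) ≠ 0 := by
  intro h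
  have hv' : 0 < v.re := hv
  have h2 := congrArg Complex.re h
  simp at h2
  linarith

end KBX

theorem prfKB (hAG : AG) (hRemW : RemW) (hUnivC : UnivC) (hLinP : LinP) (hFlHol : FlHol)
    (hFlOne : FlOne) (hUnivB : UnivB) (hWB : WB) : KB := by
  obtain ⟨CA, hCA, hAG⟩ := hAG
  obtain ⟨CR, hCR, hRemW⟩ := hRemW
  obtain ⟨CU, hCU, hUnivC⟩ := hUnivC
  obtain ⟨CO, hCO, hFlOne⟩ := hFlOne
  obtain ⟨CW, hCW, hWB⟩ := hWB
  refine ⟨CA * (CR * (1 + CW)) + CR * CW * CU, by positivity, ?_⟩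
  intro lam X hPX z hz κ S y hDrv hFl s hs t ht
  obtain ⟨hX0, -, -⟩ := hUnivB lam X hPX z hz
  obtain ⟨-, -, -, -, -, ho1, ho2⟩ := hFlOne κ S y hDrv hFl s hs
  set y₁ : ℂ := y s 1 with hy₁
  have hy₁H : y₁ ∈ Hp := hFl.pos s hs 1 KBX.one_mem
  obtain ⟨d, hd, hdiff, hloc, hint⟩ := hRemW (κ s) t y₁ (hDrv.b0 s) ht hy₁H ho1 ho2
  obtain ⟨-, -, -, hexp, -, -⟩ := hWB t ht
  set φ : ℝ := Real.exp (-(t / 4)) * t ^ (-(3 / 4) : ℝ) with hφ
  have hφ0 : 0 ≤ φ := by rw [hφ]; positivity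
  set c₀ : ℂ := (ww t y₁ - 1) / (y₁ - I * (κ s : ℂ)) with hc₀
  set P : ℂ → ℂ := fun v => (ww t v - 1) / (v - I * (κ s : ℂ)) - c₀ - d * mo y₁ v with hP
  set B : ℝ := CR * (1 + CW) * φ with hB
  have hB0 : 0 ≤ B := by rw [hB]; positivity
  have hB1 : CR * Real.exp (-2 * t) ≤ B := by
    rw [hB]
    have h1 : CR * Real.exp (-2 * t) ≤ CR * (CW * φ) := mul_le_mul_of_nonneg_left hexp hCR.le
    have h2 : 0 ≤ CR * φ := by positivity
    calc CR * Real.exp (-2 * t) ≤ CR * (CW * φ) := h1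
      _ ≤ CR * (CW * φ) + CR * φ := by linarith
      _ = CR * (1 + CW) * φ := by ring
  have hB2 : CR * φ ≤ B := by
    rw [hB]
    have h2 : 0 ≤ CR * CW * φ := by positivity
    calc CR * φ ≤ CR * φ + CR * CW * φ := by linarith
      _ = CR * (1 + CW) * φ := by ring
  have hPA := hAG lam X hPX z hz κ S y hDrv hFl s hs P B hB0 hdiff (by
    intro v hv hv1
    refine (hloc v hv hv1).trans ?_
    exact mul_le_mul_of_nonneg_right hB1 (by positivity)) (by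
    refine hint.trans ?_
    exact ENNReal.ofReal_le_ofReal hB2)
  obtain ⟨hmo, -, -, -⟩ := hUnivC lam X hPX z hz κ S y hDrv hFl s hs
  -- differentiability of the two functions
  obtain ⟨-, hhol⟩ := hFlHol κ S y hDrv.c1.continuous hDrv.Sp.le hFl
  obtain ⟨hcay1, -, hpsi, -, -, -⟩ := prfCay
  have hyd : DifferentiableOn ℂ (y s) Hp := fun W hW =>
    ((hhol s hs).2 W hW).differentiableAt.differentiableWithinAt
  have hyp : DifferentiableOn ℂ (fun ζ => y s (psi ζ)) (ball (0 : ℂ) 1) :=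
    hyd.comp hpsi (fun ζ hζ => (hcay1 ζ hζ).1)
  have hmaps : MapsTo (fun ζ => y s (psi ζ)) (ball (0 : ℂ) 1) Hp := fun ζ hζ =>
    hFl.pos s hs _ (hcay1 ζ hζ).1
  have hd1 : DifferentiableOn ℂ (fun ζ => P (y s (psi ζ))) (ball (0 : ℂ) 1) :=
    DifferentiableOn.comp (g := P) hdiff hyp hmaps
  have hd2 : DifferentiableOn ℂ (fun ζ => mo y₁ (y s (psi ζ))) (ball (0 : ℂ) 1) :=
    DifferentiableOn.comp (g := mo y₁) (KBX.mo_diff y₁) hyp hmaps
  obtain ⟨hlin, heq⟩ := hLinP lam hPX.sm z hz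
  have h1 := hlin (fun ζ => P (y s (psi ζ))) (fun ζ => mo y₁ (y s (psi ζ))) 1 d c₀ hd1 hd2
  have hd3 : DifferentiableOn ℂ (fun ζ => 1 * P (y s (psi ζ)) + d * mo y₁ (y s (psi ζ)) + c₀)
      (ball (0 : ℂ) 1) :=
    ((hd1.const_mul 1).add (hd2.const_mul d)).add_const c₀
  have h2 := heq (fun ζ => 1 * P (y s (psi ζ)) + d * mo y₁ (y s (psi ζ)) + c₀)
    (fun ζ => (ww t (y s (psi ζ)) - 1) / nu κ y s (psi ζ)) hd3 (by
      intro ζ _
      show 1 * P (y s (psi ζ)) + d * mo y₁ (y s (psi ζ)) + c₀ = _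
      rw [hP]
      unfold nu
      ring)
  rw [← h2, h1, one_mul]
  have hE : 0 < Real.exp (2 * s) := Real.exp_pos _
  calc Real.exp (2 * s) * ‖LL lam (fun ζ => P (y s (psi ζ))) z +
        d * LL lam (fun ζ => mo y₁ (y s (psi ζ))) z‖
      ≤ Real.exp (2 * s) * (‖LL lam (fun ζ => P (y s (psi ζ))) z‖ +
        ‖d‖ * ‖LL lam (fun ζ => mo y₁ (y s (psi ζ))) z‖) := by
        apply mul_le_mul_of_nonneg_left _ hE.le
        refine (norm_add_le _ _).trans ?_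
        rw [norm_mul]
    _ = Real.exp (2 * s) * ‖LL lam (fun ζ => P (y s (psi ζ))) z‖ +
        ‖d‖ * (Real.exp (2 * s) * ‖LL lam (fun ζ => mo y₁ (y s (psi ζ))) z‖) := by ring
    _ ≤ CA * X * B + (CR * Real.exp (-2 * t)) * (CU * X) := by
        apply add_le_add hPA
        exact mul_le_mul hd hmo (by positivity) (by positivity)
    _ ≤ CA * X * B + (CR * (CW * φ)) * (CU * X) := by
        have h3 : CR * Real.exp (-2 * t) ≤ CR * (CW * φ) := mul_le_mul_of_nonneg_left hexp hCR.le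
        have h4 : 0 ≤ CU * X := by positivity
        linarith [mul_le_mul_of_nonneg_right h3 h4]
    _ = (CA * (CR * (1 + CW)) + CR * CW * CU) * X * φ := by rw [hB]; ring

end Pool.Agent.MultS.LB

end

section

set_option autoImplicit false

open Complex Metric Set Filter Topology MeasureTheory
open Pool.Agent.MultS.Lip

namespace Pool.Agent.MultS.LB

namespace MainIX

theorem g_norm (r : ℝ) : ‖Complex.exp (-I * (r : ℂ))‖ = 1 := by
  have : -I * (r : ℂ) = ((-r : ℝ) : ℂ) * I := by push_cast; ring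
  rw [this, Complex.norm_exp_ofReal_mul_I]

theorem sq_inj : InjOn (fun w : ℂ => w ^ 2) Hp := by
  intro a ha b hb hab
  have h1 : (a - b) * (a + b) = 0 := by
    have : a ^ 2 = b ^ 2 := hab
    linear_combination this
  rcases mul_eq_zero.1 h1 with h | h
  · exact sub_eq_zero.1 h
  · exfalso
    have h2 : (a + b).re = 0 := by rw [h]; simp
    rw [Complex.add_re] at h2
    have h3 : 0 < a.re := ha
    have h4 : 0 < b.re := hb
    linarith

theorem sq_der : ‖deriv (fun w : ℂ => w ^ 2) 1‖ = 2 := by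
  have : deriv (fun w : ℂ => w ^ 2) 1 = 2 := by
    have h := (hasDerivAt_pow 2 (1 : ℂ)).deriv
    simpa using h
  rw [this]
  simp

end MainIX

open MainIX

theorem prfMainI (hEx : FlEx) (hIdL : IdL) (hUC : UnivC) (hUB : UnivB) (hKB : KB) (hY : Young) :
    MainI := by
  obtain ⟨C₁, hC₁, hUC⟩ := hUC
  obtain ⟨C₂, hC₂, hKB⟩ := hKB
  refine ⟨C₁ + 4 + 2 * C₁ + 16 * C₂, by positivity, ?_⟩
  intro lam X hP z hz κ S hD
  obtain ⟨y, hF⟩ := hEx κ S hD.c1.continuous hD.Sp.le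
  obtain ⟨hX, -, hUB2⟩ := hUB lam X hP z hz
  set g : ℝ → ℂ := fun s => Complex.exp (-I * ((∫ x in s..S, κ x : ℝ) : ℂ)) with hg
  have hgn : ∀ s, ‖g s‖ = 1 := fun s => g_norm _
  have hid := hIdL lam X hP z hz κ S y hD hF g (fun s => rfl)
  have hSm : S ∈ Icc (0 : ℝ) S := ⟨hD.Sp.le, le_refl S⟩
  have hb1 : ‖LL lam (fun ζ => XX y S (psi ζ)) z‖ ≤ C₁ * X :=
    (hUC lam X hP z hz κ S y hD hF S hSm).2.2.2
  have hb2 : ‖LL lam (fun ζ => psi ζ ^ 2) z‖ ≤ 4 * X := by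
    have h := hUB2 (fun w => w ^ 2) (by fun_prop) sq_inj
    rw [sq_der] at h
    linarith
  have hk2 : Continuous fun s => κ s ^ 2 := hD.c1.continuous.pow 2
  have hk0 : 0 ≤ ∫ s in (0 : ℝ)..S, κ s ^ 2 :=
    intervalIntegral.integral_nonneg hD.Sp.le fun s _ => sq_nonneg _
  have hb3 : ‖∫ s in (0 : ℝ)..S, 2 * (κ s : ℂ) ^ 2 * g s * ((Real.exp (2 * s) : ℂ) *
        LL lam (fun ζ => 1 / (y s (psi ζ) * nu κ y s (psi ζ))) z)‖ ≤ 2 * C₁ * X := by
    have h1 : ‖∫ s in (0 : ℝ)..S, 2 * (κ s : ℂ) ^ 2 * g s * ((Real.exp (2 * s) : ℂ) *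
        LL lam (fun ζ => 1 / (y s (psi ζ) * nu κ y s (psi ζ))) z)‖ ≤
        ∫ s in (0 : ℝ)..S, (2 * C₁ * X) * κ s ^ 2 := by
      apply intervalIntegral.norm_integral_le_of_norm_le hD.Sp.le
      · refine Eventually.of_forall fun s hs => ?_
        have hs' : s ∈ Icc (0 : ℝ) S := ⟨hs.1.le, hs.2⟩
        have h2 := (hUC lam X hP z hz κ S y hD hF s hs').2.2.1
        rw [norm_mul, norm_mul, norm_mul, norm_mul, norm_pow, hgn, Complex.norm_real,
          Complex.norm_real, Real.norm_eq_abs, Real.norm_eq_abs, sq_abs, mul_one,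
          abs_of_pos (Real.exp_pos _), Complex.norm_ofNat]
        calc 2 * κ s ^ 2 * (Real.exp (2 * s) *
              ‖LL lam (fun ζ => 1 / (y s (psi ζ) * nu κ y s (psi ζ))) z‖)
            ≤ 2 * κ s ^ 2 * (C₁ * X) := mul_le_mul_of_nonneg_left h2 (by positivity)
          _ = (2 * C₁ * X) * κ s ^ 2 := by ring
      · exact (continuous_const.mul hk2).intervalIntegrable _ _
    rw [intervalIntegral.integral_const_mul] at h1
    have h3 : (2 * C₁ * X) * ∫ s in (0 : ℝ)..S, κ s ^ 2 ≤ (2 * C₁ * X) * 1 :=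
      mul_le_mul_of_nonneg_left hD.l2 (by positivity)
    linarith
  have hb4 : ‖∫ s' in (0 : ℝ)..S, ∫ s in (0 : ℝ)..s', 2 * (κ s : ℂ) * (κ s' : ℂ) * g s' *
        ((Real.exp (2 * s) : ℂ) *
          LL lam (fun ζ => (ww (s' - s) (y s (psi ζ)) - 1) / nu κ y s (psi ζ)) z)‖ ≤
        16 * C₂ * X := by
    have h1 := hY κ S (2 * C₂ * X) (fun s s' => 2 * (κ s : ℂ) * (κ s' : ℂ) * g s' *
        ((Real.exp (2 * s) : ℂ) *
          LL lam (fun ζ => (ww (s' - s) (y s (psi ζ)) - 1) / nu κ y s (psi ζ)) z))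
        hD.c1.continuous hD.Sp.le (by positivity) (by
      intro s' hs' s hs
      have hsS : s ∈ Icc (0 : ℝ) S := ⟨hs.1, hs.2.le.trans hs'.2⟩
      have h2 := hKB lam X hP z hz κ S y hD hF s hsS (s' - s) (sub_pos.2 hs.2)
      show ‖2 * (κ s : ℂ) * (κ s' : ℂ) * g s' * ((Real.exp (2 * s) : ℂ) *
          LL lam (fun ζ => (ww (s' - s) (y s (psi ζ)) - 1) / nu κ y s (psi ζ)) z)‖ ≤ _
      rw [norm_mul, norm_mul, norm_mul, norm_mul, norm_mul, hgn, Complex.norm_real,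
        Complex.norm_real, Complex.norm_real, Real.norm_eq_abs, Real.norm_eq_abs,
        Real.norm_eq_abs, mul_one, abs_of_pos (Real.exp_pos _), Complex.norm_ofNat]
      calc 2 * |κ s| * |κ s'| * (Real.exp (2 * s) *
            ‖LL lam (fun ζ => (ww (s' - s) (y s (psi ζ)) - 1) / nu κ y s (psi ζ)) z‖)
          ≤ 2 * |κ s| * |κ s'| *
            (C₂ * X * (Real.exp (-((s' - s) / 4)) * (s' - s) ^ (-(3 / 4) : ℝ))) :=
            mul_le_mul_of_nonneg_left h2 (by positivity)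
        _ = 2 * C₂ * X *
            (|κ s| * |κ s'| * (Real.exp (-((s' - s) / 4)) * (s' - s) ^ (-(3 / 4) : ℝ))) := by
            ring)
    have h3 : 8 * (2 * C₂ * X) * ∫ s in (0 : ℝ)..S, κ s ^ 2 ≤ 8 * (2 * C₂ * X) * 1 :=
      mul_le_mul_of_nonneg_left hD.l2 (by positivity)
    refine h1.trans (h3.trans (le_of_eq ?_))
    ring
  have hfin : (∫ s in (0 : ℝ)..S, (κ s : ℂ) * g s * ell lam z s) =
      (LL lam (fun ζ => XX y S (psi ζ)) z - LL lam (fun ζ => psi ζ ^ 2) z) +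
      (∫ s in (0 : ℝ)..S, 2 * (κ s : ℂ) ^ 2 * g s * ((Real.exp (2 * s) : ℂ) *
        LL lam (fun ζ => 1 / (y s (psi ζ) * nu κ y s (psi ζ))) z)) -
      ∫ s' in (0 : ℝ)..S, ∫ s in (0 : ℝ)..s', 2 * (κ s : ℂ) * (κ s' : ℂ) * g s' *
        ((Real.exp (2 * s) : ℂ) *
          LL lam (fun ζ => (ww (s' - s) (y s (psi ζ)) - 1) / nu κ y s (psi ζ)) z) := by
    rw [hid]
    ring
  show ‖∫ s in (0 : ℝ)..S, (κ s : ℂ) * g s * ell lam z s‖ ≤ _
  rw [hfin]
  refine (norm_sub_le _ _).trans ?_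
  refine (add_le_add ((norm_add_le _ _).trans
    (add_le_add ((norm_sub_le _ _).trans (add_le_add hb1 hb2)) hb3)) hb4).trans (le_of_eq ?_)
  ring

end Pool.Agent.MultS.LB

end

section

/-!
# [L6] The kernel of the functional is bounded
-/

set_option autoImplicit false

open Complex Metric Set Filter Topology MeasureTheory
open Pool.Agent.MultS.Lip

namespace Pool.Agent.MultS.LB

namespace PXKerX

theorem one_sub_ne {z : ℂ} (hz : z ∈ ball (0 : ℂ) 1) : 1 - z ≠ 0 := by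
  intro h
  have h1 : z = 1 := by linear_combination -h
  rw [h1] at hz
  simp at hz

theorem der_koe {z : ℂ} (hz : z ∈ ball (0 : ℂ) 1) :
    HasDerivAt (fun z : ℂ => z / (1 - z) ^ 2) ((1 + z) / (1 - z) ^ 3) z := by
  have hne := one_sub_ne hz
  have h2 : HasDerivAt (fun z : ℂ => 1 - z) (-1) z := by
    simpa using (hasDerivAt_id z).const_sub (1 : ℂ)
  refine ((hasDerivAt_id z).div (h2.pow 2) (pow_ne_zero 2 hne)).congr_deriv ?_
  simp only [Pi.pow_apply, id]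
  push_cast
  field_simp
  ring

theorem sc_koe : Sc (fun z : ℂ => z / (1 - z) ^ 2) := by
  refine ⟨fun z hz => (der_koe hz).differentiableAt.differentiableWithinAt, ?_, by simp, ?_⟩
  · intro z hz w hw hzw
    have hz1 := one_sub_ne hz
    have hw1 := one_sub_ne hw
    have h1 : z / (1 - z) ^ 2 = w / (1 - w) ^ 2 := hzw
    rw [div_eq_div_iff (pow_ne_zero 2 hz1) (pow_ne_zero 2 hw1)] at h1
    have h2 : (z - w) * (1 - z * w) = 0 := by linear_combination h1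
    rcases mul_eq_zero.1 h2 with h | h
    · exact sub_eq_zero.1 h
    · exfalso
      have hz3 := mem_ball_zero_iff.1 hz
      have hw3 := mem_ball_zero_iff.1 hw
      have : ‖z * w‖ = 1 := by
        have : z * w = 1 := by linear_combination -h
        rw [this, norm_one]
      rw [norm_mul] at this
      nlinarith [norm_nonneg z, norm_nonneg w]
  · rw [(der_koe (mem_ball_self one_pos)).deriv]
    simp

theorem tc_koe (n : ℕ) : tc (fun z : ℂ => z / (1 - z) ^ 2) n = n := by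
  apply tc_of_hasSum
  intro z hz
  exact hasSum_coe_mul_geometric_of_norm_lt_one (mem_ball_zero_iff.1 hz)

theorem der_geo {z : ℂ} (hz : z ∈ ball (0 : ℂ) 1) :
    HasDerivAt (fun z : ℂ => z / (1 - z)) (1 / (1 - z) ^ 2) z := by
  have hne := one_sub_ne hz
  have h2 : HasDerivAt (fun z : ℂ => 1 - z) (-1) z := by
    simpa using (hasDerivAt_id z).const_sub (1 : ℂ)
  refine ((hasDerivAt_id z).fun_div h2 hne).congr_deriv ?_
  simp only [id]
  congr 1
  ring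

theorem sc_geo : Sc (fun z : ℂ => z / (1 - z)) := by
  refine ⟨fun z hz => (der_geo hz).differentiableAt.differentiableWithinAt, ?_, by simp, ?_⟩
  · intro z hz w hw hzw
    have hz1 := one_sub_ne hz
    have hw1 := one_sub_ne hw
    have h1 : z / (1 - z) = w / (1 - w) := hzw
    rw [div_eq_div_iff hz1 hw1] at h1
    linear_combination h1
  · rw [(der_geo (mem_ball_self one_pos)).deriv]
    simp

theorem tc_geo (n : ℕ) : tc (fun z : ℂ => z / (1 - z)) (n + 1) = 1 := by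
  refine tc_of_hasSum_succ (c := fun _ => 1) ?_ (n + 1) (Nat.succ_pos n)
  intro z hz
  have h1 := (hasSum_geometric_of_norm_lt_one (mem_ball_zero_iff.1 hz)).mul_left z
  rw [div_eq_mul_inv]
  refine h1.congr_fun ?_
  intro n
  ring

theorem summable_pow_mul {lam : ℕ → ℂ}
    (hs : Summable (fun n : ℕ => ((n : ℝ) + 1) * ‖lam (n + 1)‖)) (k : ℕ) {u : ℂ}
    (hu : ‖u‖ < 1) :
    Summable (fun n : ℕ => ((n : ℂ) + 1) * lam (n + 1) * ((n : ℂ) ^ k * u ^ n)) := by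
  have h1 := summable_pow_mul_geometric_of_norm_lt_one (R := ℝ) k
    (r := ‖u‖) (by rwa [Real.norm_of_nonneg (norm_nonneg u)])
  refine Summable.of_norm ?_
  refine Summable.of_nonneg_of_le (fun n => norm_nonneg _) (fun n => ?_)
    (h1.mul_left (∑' n : ℕ, ((n : ℝ) + 1) * ‖lam (n + 1)‖))
  have h2 : ((n : ℝ) + 1) * ‖lam (n + 1)‖ ≤ ∑' n : ℕ, ((n : ℝ) + 1) * ‖lam (n + 1)‖ :=
    hs.le_tsum n (fun _ _ => by positivity)
  have h3 : ‖((n : ℂ) + 1)‖ = (n : ℝ) + 1 := by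
    have h : ((n : ℂ) + 1) = (((n : ℝ) + 1 : ℝ) : ℂ) := by push_cast; rfl
    rw [h, Complex.norm_real, Real.norm_of_nonneg (by positivity)]
  rw [norm_mul, norm_mul, norm_mul, norm_pow, norm_pow, h3, Complex.norm_natCast]
  exact mul_le_mul_of_nonneg_right h2 (by positivity)

end PXKerX

open PXKerX in
theorem prfPXKer : PXKer := by
  intro lam X hP u hu
  have hu1 := mem_ball_zero_iff.1 hu
  have h1 := hP.bx _ sc_koe u hu
  have h2 := hP.bx _ sc_geo u hu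
  unfold LL at h1 h2
  simp only [tc_koe] at h1
  simp only [tc_geo] at h2
  have s0 := summable_pow_mul hP.sm 0 hu1
  have s1 := summable_pow_mul hP.sm 1 hu1
  have e1 : ∀ n : ℕ, ((n : ℂ) + 1) * lam (n + 1) * ((n + 1 : ℕ) : ℂ) * u ^ n =
      ((n : ℂ) + 1) * lam (n + 1) * ((n : ℂ) ^ 1 * u ^ n) +
        ((n : ℂ) + 1) * lam (n + 1) * ((n : ℂ) ^ 0 * u ^ n) := by
    intro n
    push_cast
    ring
  have e2 : ∀ n : ℕ, ((n : ℂ) + 1) * lam (n + 1) * 1 * u ^ n =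
      ((n : ℂ) + 1) * lam (n + 1) * ((n : ℂ) ^ 0 * u ^ n) := by
    intro n
    ring
  have e3 : ∀ n : ℕ, ((n : ℂ) + 1) * ((n : ℂ) + 2) * lam (n + 1) * u ^ n =
      ((n : ℂ) + 1) * lam (n + 1) * ((n + 1 : ℕ) : ℂ) * u ^ n +
        ((n : ℂ) + 1) * lam (n + 1) * 1 * u ^ n := by
    intro n
    push_cast
    ring
  have t1 : Summable (fun n : ℕ => ((n : ℂ) + 1) * lam (n + 1) * ((n + 1 : ℕ) : ℂ) * u ^ n) :=
    (s1.add s0).congr fun n => (e1 n).symm
  have t2 : Summable (fun n : ℕ => ((n : ℂ) + 1) * lam (n + 1) * 1 * u ^ n) :=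
    s0.congr fun n => (e2 n).symm
  rw [tsum_congr e3, t1.tsum_add t2]
  refine (norm_add_le _ _).trans ?_
  linarith

end Pool.Agent.MultS.LB

end

section

/-!
# [L3] `L` commutes with integrals over intervals
-/

set_option autoImplicit false

open Complex Metric Set Filter Topology MeasureTheory
open Pool.Agent.MultS.Lip

namespace Pool.Agent.MultS.LB

namespace SwapX

/-- Differentiation of an integral over `[a, b]` depending holomorphically on a parameter. -/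
theorem param {k : ℂ → ℝ → ℂ} {y0 : ℂ} {r M : ℝ} (a b : ℝ) (hr : 0 < r)
    (hc : ∀ y ∈ closedBall y0 r, Continuous (k y))
    (hd : ∀ θ, DifferentiableOn ℂ (fun y => k y θ) (closedBall y0 r))
    (hM : ∀ y ∈ closedBall y0 r, ∀ θ, ‖k y θ‖ ≤ M) :
    DifferentiableAt ℂ (fun y => ∫ θ in a..b, k y θ) y0 := by
  have hr2 : 0 < r / 2 := by positivity
  have hsub : ∀ y ∈ ball y0 (r / 2), closedBall y (r / 2) ⊆ closedBall y0 r := by
    intro y hy w hw
    rw [mem_ball] at hy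
    rw [mem_closedBall] at hw ⊢
    have := dist_triangle w y y0
    linarith
  have hds : ∀ y ∈ ball y0 (r / 2), ∀ θ, HasDerivAt (fun y => k y θ)
      (deriv (fun y => k y θ) y) y := by
    intro y hy θ
    have h1 : y ∈ ball y0 r := ball_subset_ball (by linarith) hy
    exact ((hd θ).differentiableAt (closedBall_mem_nhds_of_mem h1)).hasDerivAt
  have hbd : ∀ y ∈ ball y0 (r / 2), ∀ θ, ‖deriv (fun y => k y θ) y‖ ≤ M / (r / 2) := by
    intro y hy θ
    refine Complex.norm_deriv_le_of_forall_mem_sphere_norm_le hr2 ?_ ?_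
    · exact ((hd θ).mono ((closure_ball_subset_closedBall).trans (hsub y hy))).diffContOnCl
    · intro w hw
      exact hM w (hsub y hy (sphere_subset_closedBall hw)) θ
  have hself : y0 ∈ ball y0 (r / 2) := mem_ball_self hr2
  refine (intervalIntegral.hasDerivAt_integral_of_dominated_loc_of_deriv_le (μ := volume)
    (F := k) (F' := fun y θ => deriv (fun y => k y θ) y) (x₀ := y0) (s := ball y0 (r / 2))
    (bound := fun _ => M / (r / 2)) (ball_mem_nhds y0 hr2) ?_ ?_ ?_ ?_ ?_ ?_).2.differentiableAt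
  · filter_upwards [ball_mem_nhds y0 hr] with y hy
    exact (hc y (ball_subset_closedBall hy)).aestronglyMeasurable
  · exact (hc y0 (mem_closedBall_self hr.le)).intervalIntegrable _ _
  · -- the derivative is a limit of difference quotients
    have ht : ∀ n : ℕ, 0 < r / ((n : ℝ) + 1) ∧ r / ((n : ℝ) + 1) ≤ r := by
      intro n
      refine ⟨by positivity, ?_⟩
      rw [div_le_iff₀ (by positivity)]
      nlinarith [hr, (Nat.cast_nonneg n : (0 : ℝ) ≤ (n : ℝ))]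
    have hmem : ∀ n : ℕ, y0 + ((r / ((n : ℝ) + 1) : ℝ) : ℂ) ∈ closedBall y0 r := by
      intro n
      rw [mem_closedBall, dist_eq_norm, add_sub_cancel_left, Complex.norm_real, Real.norm_eq_abs,
        abs_of_pos (ht n).1]
      exact (ht n).2
    have hlim : Tendsto (fun n : ℕ => ((r / ((n : ℝ) + 1) : ℝ) : ℂ)) atTop (𝓝[≠] 0) := by
      rw [tendsto_nhdsWithin_iff]
      constructor
      · have h1 : Tendsto (fun n : ℕ => r / ((n : ℝ) + 1)) atTop (𝓝 0) := by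
          have h2 := (tendsto_one_div_add_atTop_nhds_zero_nat (𝕜 := ℝ)).const_mul r
          rw [mul_zero] at h2
          refine h2.congr fun n => ?_
          rw [mul_one_div]
        have h3 := (Complex.continuous_ofReal.tendsto 0).comp h1
        rw [Complex.ofReal_zero] at h3
        exact h3
      · refine Eventually.of_forall fun n => ?_
        have h1 : r / ((n : ℝ) + 1) ≠ 0 := (ht n).1.ne'
        exact Complex.ofReal_ne_zero.2 h1
    refine aestronglyMeasurable_of_tendsto_ae atTop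
      (f := fun (n : ℕ) (θ : ℝ) => (((r / ((n : ℝ) + 1) : ℝ) : ℂ))⁻¹ •
        (k (y0 + ((r / ((n : ℝ) + 1) : ℝ) : ℂ)) θ - k y0 θ)) ?_ ?_
    · intro n
      have h5 : Continuous fun θ => k (y0 + ((r / ((n : ℝ) + 1) : ℝ) : ℂ)) θ - k y0 θ :=
        (hc _ (hmem n)).sub (hc y0 (mem_closedBall_self hr.le))
      exact (h5.const_smul ((((r / ((n : ℝ) + 1) : ℝ) : ℂ))⁻¹)).aestronglyMeasurable
    · refine Eventually.of_forall fun θ => ?_
      exact ((hds y0 hself θ).tendsto_slope_zero).comp hlim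
  · exact Eventually.of_forall fun θ _ y hy => hbd y hy θ
  · exact intervalIntegrable_const
  · exact Eventually.of_forall fun θ _ y hy => hds y hy θ

end SwapX

theorem prfSwap (hKer : Ker) : Swap := by
  intro lam hlam z hz a b hab h hcont hdiff
  -- extension in the first variable
  set P : ℝ → ℝ := fun s => max a (min b s) with hP
  have hPc : Continuous P := by rw [hP]; fun_prop
  have hPm : ∀ s, P s ∈ Icc a b := fun s => ⟨le_max_left _ _, max_le hab (min_le_left _ _)⟩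
  have hPid : ∀ s ∈ Icc a b, P s = s := by
    intro s hs
    simp only [hP]
    rw [min_eq_right hs.2, max_eq_right hs.1]
  have hPc' : ∀ ζ ∈ ball (0 : ℂ) 1, Continuous fun s => h (P s) ζ := by
    intro ζ hζ
    exact hcont.comp_continuous (f := fun s : ℝ => ((P s, ζ) : ℝ × ℂ))
      (hPc.prodMk continuous_const) fun s => ⟨hPm s, hζ⟩
  have hint : ∀ ζ, ∫ s in a..b, h s ζ = ∫ s in a..b, h (P s) ζ := by
    intro ζ
    refine intervalIntegral.integral_congr fun s hs => ?_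
    rw [uIcc_of_le hab] at hs
    simp only [hPid s hs]
  have hD : DifferentiableOn ℂ (fun ζ => ∫ s in a..b, h s ζ) (ball 0 1) := by
    intro ζ0 hζ0
    obtain ⟨r, hr, hrU⟩ := Metric.nhds_basis_closedBall.mem_iff.1 (isOpen_ball.mem_nhds hζ0)
    obtain ⟨M, hM⟩ : ∃ M, ∀ p ∈ Icc a b ×ˢ closedBall ζ0 r,
        ‖(fun p : ℝ × ℂ => h p.1 p.2) p‖ ≤ M := by
      refine IsCompact.exists_bound_of_continuousOn
        (isCompact_Icc.prod (isCompact_closedBall ζ0 r)) ?_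
      exact hcont.mono (prod_mono le_rfl hrU)
    have h1 : (fun ζ => ∫ s in a..b, h s ζ) = fun ζ => ∫ s in a..b, h (P s) ζ :=
      funext hint
    rw [h1]
    refine (SwapX.param (k := fun ζ s => h (P s) ζ) (M := M) a b hr
      (fun ζ hζ => hPc' ζ (hrU hζ)) (fun s => (hdiff (P s) (hPm s)).mono hrU)
      (fun ζ hζ s => hM (P s, ζ) ⟨hPm s, hζ⟩)).differentiableWithinAt
  obtain ⟨ρ, k, hρ, hρ1, hk, hL⟩ := hKer lam hlam z hz
  have hcm : ∀ θ : ℝ, circleMap 0 ρ θ ∈ ball (0 : ℂ) 1 := fun θ =>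
    closedBall_subset_ball hρ1 (circleMap_mem_closedBall 0 hρ.le θ)
  -- the kernel
  have hG : Continuous fun p : ℝ × ℝ => k p.2 * h (P p.1) (circleMap 0 ρ p.2) := by
    refine (hk.comp continuous_snd).mul ?_
    exact hcont.comp_continuous
      (f := fun p : ℝ × ℝ => ((P p.1, circleMap 0 ρ p.2) : ℝ × ℂ))
      ((hPc.comp continuous_fst).prodMk
        ((continuous_circleMap 0 ρ).comp continuous_snd)) fun p => ⟨hPm _, hcm _⟩
  have hLs : ∀ s ∈ Icc a b, LL lam (h s) z =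
      ∫ θ in (0 : ℝ)..(2 * Real.pi), k θ * h (P s) (circleMap 0 ρ θ) := by
    intro s hs
    rw [hL (h s) (hdiff s hs)]
    simp only [hPid s hs]
  have hcs : Continuous fun s => ∫ θ in (0 : ℝ)..(2 * Real.pi),
      k θ * h (P s) (circleMap 0 ρ θ) :=
    intervalIntegral.continuous_parametric_intervalIntegral_of_continuous'
      (f := fun s θ => k θ * h (P s) (circleMap 0 ρ θ)) hG 0 (2 * Real.pi)
  refine ⟨hD, hcs.continuousOn.congr fun s hs => hLs s hs, ?_⟩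
  rw [hL _ hD]
  have h3 : ∫ s in a..b, LL lam (h s) z =
      ∫ s in a..b, ∫ θ in (0 : ℝ)..(2 * Real.pi), k θ * h (P s) (circleMap 0 ρ θ) := by
    refine intervalIntegral.integral_congr fun s hs => ?_
    rw [uIcc_of_le hab] at hs
    exact hLs s hs
  rw [h3]
  have h4 : ∀ θ, k θ * ∫ s in a..b, h s (circleMap 0 ρ θ) =
      ∫ s in a..b, k θ * h (P s) (circleMap 0 ρ θ) := by
    intro θ
    rw [hint, intervalIntegral.integral_const_mul]
  simp only [h4]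
  refine (intervalIntegral_intervalIntegral_swap ?_).symm
  exact (hG.continuousOn.integrableOn_compact
    ((isCompact_uIcc (a := a) (b := b)).prod
      (isCompact_uIcc (a := (0 : ℝ)) (b := 2 * Real.pi)))).mono_set
    (prod_mono uIoc_subset_uIcc uIoc_subset_uIcc)

end Pool.Agent.MultS.LB

end

section

/-!
# L4: `L` commutes with integrals over a triangle
-/

set_option autoImplicit false

open Complex Metric Set Filter Topology MeasureTheory
open Pool.Agent.MultS.Lip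

namespace Pool.Agent.MultS.LB

namespace Swap2X

theorem cont {S : ℝ} (hS : 0 ≤ S) {h : ℝ → ℝ → ℂ → ℂ}
    (hc : ContinuousOn (fun p : ℝ × ℝ × ℂ => h p.1 p.2.1 p.2.2)
      (Icc 0 S ×ˢ (Icc 0 S ×ˢ ball (0 : ℂ) 1))) :
    ContinuousOn (fun p : ℝ × ℂ => ∫ s in (0 : ℝ)..p.1, h s p.1 p.2)
      (Icc 0 S ×ˢ ball (0 : ℂ) 1) := by
  rw [continuousOn_iff_continuous_domRestrict]
  have h1 : Continuous (Function.uncurry (fun (x : ↥(Icc (0 : ℝ) S ×ˢ ball (0 : ℂ) 1)) (t : ℝ) =>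
      h (projIcc 0 S hS t) x.1.1 x.1.2)) := by
    have h2 : Continuous (fun q : ↥(Icc (0 : ℝ) S ×ˢ ball (0 : ℂ) 1) × ℝ =>
        (((projIcc 0 S hS q.2 : ℝ), q.1.1.1, q.1.1.2) : ℝ × ℝ × ℂ)) := by
      refine Continuous.prodMk ?_ (Continuous.prodMk ?_ ?_)
      · exact continuous_subtype_val.comp (continuous_projIcc.comp continuous_snd)
      · exact continuous_fst.comp (continuous_subtype_val.comp continuous_fst)
      · exact continuous_snd.comp (continuous_subtype_val.comp continuous_fst)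
    exact hc.comp_continuous h2 (fun q => ⟨(projIcc 0 S hS q.2).2, q.1.2.1, q.1.2.2⟩)
  have h3 : Continuous (fun x : ↥(Icc (0 : ℝ) S ×ˢ ball (0 : ℂ) 1) =>
      ∫ t in (0 : ℝ)..x.1.1, h (projIcc 0 S hS t) x.1.1 x.1.2) :=
    intervalIntegral.continuous_parametric_intervalIntegral_of_continuous h1
      (continuous_fst.comp continuous_subtype_val)
  refine h3.congr (fun x => ?_)
  show ∫ t in (0 : ℝ)..x.1.1, h (projIcc 0 S hS t) x.1.1 x.1.2 =
    ∫ s in (0 : ℝ)..x.1.1, h s x.1.1 x.1.2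
  apply intervalIntegral.integral_congr
  intro t ht
  have hx := x.2.1
  rw [uIcc_of_le hx.1] at ht
  have ht' : t ∈ Icc 0 S := ⟨ht.1, ht.2.trans hx.2⟩
  show h (projIcc 0 S hS t) x.1.1 x.1.2 = h t x.1.1 x.1.2
  rw [projIcc_of_mem hS ht']

end Swap2X

theorem prfSwap2 (hSw : Swap) : Swap2 := by
  intro lam hlam z hz S hS h hc hd
  have hin : ∀ s' ∈ Icc (0 : ℝ) S,
      DifferentiableOn ℂ (fun ζ => ∫ s in (0 : ℝ)..s', h s s' ζ) (ball 0 1) ∧
      ContinuousOn (fun s => LL lam (h s s') z) (Icc 0 s') ∧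
      LL lam (fun ζ => ∫ s in (0 : ℝ)..s', h s s' ζ) z = ∫ s in (0 : ℝ)..s', LL lam (h s s') z := by
    intro s' hs'
    apply hSw lam hlam z hz 0 s' hs'.1 (fun s ζ => h s s' ζ)
    · have h2 : ContinuousOn (fun p : ℝ × ℂ => ((p.1, s', p.2) : ℝ × ℝ × ℂ))
          (Icc 0 s' ×ˢ ball (0 : ℂ) 1) :=
        (Continuous.prodMk continuous_fst (Continuous.prodMk continuous_const
          continuous_snd)).continuousOn
      exact hc.comp h2 (fun p hp => ⟨⟨hp.1.1, hp.1.2.trans hs'.2⟩, hs', hp.2⟩)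
    · intro s hs
      exact hd s ⟨hs.1, hs.2.trans hs'.2⟩ s' hs'
  obtain ⟨k1, -, k3⟩ := hSw lam hlam z hz 0 S hS (fun s' ζ => ∫ s in (0 : ℝ)..s', h s s' ζ)
    (Swap2X.cont hS hc) (fun s' hs' => (hin s' hs').1)
  refine ⟨k1, k3.trans ?_⟩
  apply intervalIntegral.integral_congr
  intro s' hs'
  rw [uIcc_of_le hS] at hs'
  exact (hin s' hs').2.2

end Pool.Agent.MultS.LB

end

section

set_option autoImplicit false

open Complex Metric Set Filter Topology MeasureTheory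
open Pool.Agent.MultS.Lip

namespace Pool.Agent.MultS.LB

namespace UnivBX

theorem zero_mem : (0 : ℂ) ∈ ball (0 : ℂ) 1 := mem_ball_self one_pos

theorem part1 (hLin : LinP) {lam : ℕ → ℂ} {X : ℝ} (hP : PX lam X) {z : ℂ}
    (hz : z ∈ ball (0 : ℂ) 1) {h : ℂ → ℂ} (hd : DifferentiableOn ℂ h (ball 0 1))
    (hi : InjOn h (ball 0 1)) : ‖LL lam h z‖ ≤ X * ‖deriv h 0‖ := by
  have ha : deriv h 0 ≠ 0 := prfDerNe _ _ isOpen_ball hd hi 0 zero_mem
  obtain ⟨a, hadef⟩ : ∃ a, a = deriv h 0 := ⟨_, rfl⟩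
  rw [← hadef] at ha ⊢
  have hda : HasDerivAt h a 0 := by
    rw [hadef]
    exact (hd.differentiableAt (isOpen_ball.mem_nhds zero_mem)).hasDerivAt
  have hdf : HasDerivAt (fun ζ => a⁻¹ * h ζ + 0 * h ζ + (-(a⁻¹ * h 0))) 1 0 := by
    have h1 := ((hda.const_mul a⁻¹).add (hda.const_mul (0 : ℂ))).add_const (-(a⁻¹ * h 0))
    have h2 : a⁻¹ * a + 0 * a = 1 := by
      rw [inv_mul_cancel₀ ha, zero_mul, add_zero]
    rw [h2] at h1
    exact h1
  have hSc : Sc (fun ζ => a⁻¹ * h ζ + 0 * h ζ + (-(a⁻¹ * h 0))) := by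
    refine ⟨((hd.const_mul _).add (hd.const_mul _)).add_const _, ?_, by ring, hdf.deriv⟩
    intro x hx y hy hxy
    apply hi hx hy
    have hxy' : a⁻¹ * h x + 0 * h x + (-(a⁻¹ * h 0)) = a⁻¹ * h y + 0 * h y + (-(a⁻¹ * h 0)) :=
      hxy
    have h3 : a⁻¹ * h x = a⁻¹ * h y := by
      rw [zero_mul, zero_mul, add_zero, add_zero] at hxy'
      exact add_right_cancel hxy'
    exact mul_left_cancel₀ (inv_ne_zero ha) h3
  have h1 := hP.bx _ hSc z hz
  rw [(hLin lam hP.sm z hz).1 h h a⁻¹ 0 _ hd hd, zero_mul, add_zero, norm_mul, norm_inv] at h1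
  have h2 : 0 < ‖a‖ := norm_pos_iff.2 ha
  rwa [inv_mul_le_iff₀ h2, mul_comm] at h1

end UnivBX

open UnivBX in
theorem prfUnivB (hLin : LinP) : UnivB := by
  intro lam X hP z hz
  refine ⟨?_, fun h hd hi => part1 hLin hP hz hd hi, ?_⟩
  · have hSc : Sc (fun ζ : ℂ => ζ) :=
      ⟨differentiableOn_id, fun x _ y _ h => h, rfl, (hasDerivAt_id' (0 : ℂ)).deriv⟩
    exact (norm_nonneg _).trans (hP.bx _ hSc z hz)
  · intro G hG hGi
    have h1 : DifferentiableOn ℂ (fun ζ => G (psi ζ)) (ball 0 1) := by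
      refine hG.comp (fun ζ hζ => ?_) fun ζ hζ => Cay'.psi_mem hζ
      exact (Cay'.der_psi hζ).differentiableAt.differentiableWithinAt
    have h2 : InjOn (fun ζ => G (psi ζ)) (ball 0 1) := by
      intro x hx y hy hxy
      have h3 := hGi (Cay'.psi_mem hx) (Cay'.psi_mem hy) hxy
      rw [← (prfCay.1 x hx).2.1, ← (prfCay.1 y hy).2.1, h3]
    have h4 := part1 hLin hP hz h1 h2
    have h5 : psi 0 = 1 := by simp [psi]
    have h6 : HasDerivAt psi 2 0 := by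
      have := Cay'.der_psi zero_mem
      rwa [sub_zero, one_pow, div_one] at this
    have hHp : IsOpen Hp := isOpen_lt continuous_const Complex.continuous_re
    have h7 : HasDerivAt G (deriv G 1) (psi 0) := by
      rw [h5]
      exact (hG.differentiableAt (hHp.mem_nhds (by rw [← h5]; exact Cay'.psi_mem zero_mem))).hasDerivAt
    have h8 : deriv (fun ζ => G (psi ζ)) 0 = deriv G 1 * 2 := (h7.comp 0 h6).deriv
    rw [h8, norm_mul] at h4
    have h9 : ‖(2 : ℂ)‖ = 2 := by simp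
    rw [h9] at h4
    calc _ ≤ X * (‖deriv G 1‖ * 2) := h4
      _ = 2 * X * ‖deriv G 1‖ := by ring

end Pool.Agent.MultS.LB

end

section

set_option autoImplicit false

open Complex Metric Set Filter Topology MeasureTheory
open Pool.Agent.MultS.Lip

namespace Pool.Agent.MultS.LB

namespace UnivCX

theorem one_mem : (1 : ℂ) ∈ Hp := by
  show 0 < (1 : ℂ).re
  rw [Complex.one_re]
  exact one_pos

theorem ne_zero {v : ℂ} (h : 0 < v.re) : v ≠ 0 := by
  rintro rfl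
  simp at h

theorem one_add_sq_ne {v : ℂ} (h : 0 < v.re) : 1 + v ^ 2 ≠ 0 := by
  intro h0
  have h1 : (v - I) * (v + I) = 0 := by
    have : (v - I) * (v + I) = v ^ 2 - I ^ 2 := by ring
    rw [this, Complex.I_sq]
    rw [← h0]
    ring
  rcases mul_eq_zero.1 h1 with h2 | h2
  · have h3 : v = I := sub_eq_zero.1 h2
    rw [h3] at h
    simp at h
  · have h3 : v = -I := eq_neg_of_add_eq_zero_left h2
    rw [h3] at h
    simp at h

theorem sq_inj {v v' : ℂ} (h : 0 < v.re) (h' : 0 < v'.re) (he : v ^ 2 = v' ^ 2) : v = v' := by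
  have h1 : (v - v') * (v + v') = 0 := by
    have : (v - v') * (v + v') = v ^ 2 - v' ^ 2 := by ring
    rw [this, he, sub_self]
  rcases mul_eq_zero.1 h1 with h2 | h2
  · exact sub_eq_zero.1 h2
  · exfalso
    have h3 : (v + v').re = 0 := by rw [h2]; rfl
    rw [Complex.add_re] at h3
    linarith

theorem mo_inj {y₁ v v' : ℂ} (h1 : 0 < y₁.re) (h : 0 < v.re) (h' : 0 < v'.re)
    (he : mo y₁ v = mo y₁ v') : v = v' := by
  unfold mo at he
  rw [div_eq_div_iff (one_add_sq_ne h) (one_add_sq_ne h')] at he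
  have h2 : (1 + y₁ ^ 2) * ((1 + y₁ ^ 2) * (v ^ 2 - v' ^ 2)) = 0 := by
    linear_combination he
  rcases mul_eq_zero.1 h2 with h3 | h3
  · exact absurd h3 (one_add_sq_ne h1)
  rcases mul_eq_zero.1 h3 with h3 | h3
  · exact absurd h3 (one_add_sq_ne h1)
  exact sq_inj h h' (sub_eq_zero.1 h3)

theorem mul_inj {v v' : ℂ} {k : ℝ} (h : 0 < v.re) (h' : 0 < v'.re)
    (he : v * (v - I * k) = v' * (v' - I * k)) : v = v' := by
  have h1 : (v - v') * (v + v' - I * k) = 0 := by linear_combination he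
  rcases mul_eq_zero.1 h1 with h2 | h2
  · exact sub_eq_zero.1 h2
  · exfalso
    have h3 : (v + v' - I * k).re = 0 := by rw [h2]; rfl
    simp only [Complex.sub_re, Complex.add_re, Complex.mul_re, Complex.I_re, Complex.I_im,
      Complex.ofReal_re, Complex.ofReal_im, zero_mul, mul_zero, sub_zero] at h3
    linarith

theorem nu_re {v : ℂ} {k : ℝ} : (v - I * k).re = v.re := by
  simp

theorem fin (X C B E a : ℝ) (hX : 0 ≤ X) (hE : 0 < E) (d : ℝ) (hd : E * d ≤ B)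
    (hB : 2 * B ≤ 256 * C) (ha : a ≤ 2 * X * d) : E * a ≤ 256 * C * X := by
  calc E * a ≤ E * (2 * X * d) := mul_le_mul_of_nonneg_left ha hE.le
    _ = 2 * X * (E * d) := by ring
    _ ≤ 2 * X * B := mul_le_mul_of_nonneg_left hd (by positivity)
    _ = X * (2 * B) := by ring
    _ ≤ X * (256 * C) := mul_le_mul_of_nonneg_left hB hX
    _ = 256 * C * X := by ring

end UnivCX

open UnivCX in
theorem prfUnivC (hU : UnivB) (hHol : FlHol) (hDer : FlDer) (hXX : FlX) (hOne : FlOne) :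
    UnivC := by
  obtain ⟨C, hC, hOne⟩ := hOne
  refine ⟨256 * C, by positivity, ?_⟩
  intro lam X hP z hz κ S y hκ hy s hs
  obtain ⟨hX, -, hG⟩ := hU lam X hP z hz
  obtain ⟨-, hH⟩ := hHol κ S y hκ.c1.continuous hκ.Sp.le hy
  obtain ⟨hinj, -⟩ := hH s hs
  have hpos : ∀ W ∈ Hp, 0 < (y s W).re := hy.pos s hs
  have hder := hDer κ S y hκ hy s hs
  obtain ⟨b1, b2, b3, b4, b5, b6, b7⟩ := hOne κ S y hκ hy s hs
  have h1p : 0 < (y s 1).re := hpos 1 one_mem
  have hνre : ∀ W ∈ Hp, 0 < (nu κ y s W).re := by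
    intro W hW
    unfold nu
    rw [nu_re]
    exact hpos W hW
  have hν1 : nu κ y s 1 ≠ 0 := ne_zero (hνre 1 one_mem)
  obtain ⟨E, hEdef⟩ : ∃ E : ℝ, E = Real.exp (2 * s) := ⟨_, rfl⟩
  have hE : 0 < E := by rw [hEdef]; exact Real.exp_pos _
  have hE' : ‖(Real.exp (2 * s) : ℂ)‖ = E := by
    rw [hEdef, Complex.norm_real, Real.norm_of_nonneg (Real.exp_pos _).le]
  obtain ⟨D, hDdef⟩ : ∃ D : ℂ, D = 1 * nn κ y s 1 / ((Real.exp (2 * s) : ℂ) * nu κ y s 1) :=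
    ⟨_, rfl⟩
  have hD : HasDerivAt (y s) D 1 := by rw [hDdef]; exact hder 1 one_mem
  have hDn : E * ‖D‖ ≤ 2 * C := by
    rw [hDdef, one_mul, norm_div, norm_mul, hE']
    have h1 : 0 < ‖nu κ y s 1‖ := by linarith
    have h2 : E * (‖nn κ y s 1‖ / (E * ‖nu κ y s 1‖)) = ‖nn κ y s 1‖ / ‖nu κ y s 1‖ := by
      field_simp
    rw [h2, div_le_iff₀ h1]
    calc ‖nn κ y s 1‖ ≤ C := b1
      _ = 2 * C * (1 / 2) := by ring
      _ ≤ 2 * C * ‖nu κ y s 1‖ := mul_le_mul_of_nonneg_left b2 (by positivity)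
  have hdiff : ∀ W ∈ Hp, DifferentiableAt ℂ (y s) W := fun W hW => (hder W hW).differentiableAt
  have hdν : ∀ W ∈ Hp, DifferentiableAt ℂ (fun w => nu κ y s w) W := by
    intro W hW
    unfold nu
    exact (hdiff W hW).sub_const _
  have hν' : HasDerivAt (fun w => nu κ y s w) D 1 := by
    unfold nu
    exact hD.sub_const _
  rw [← hEdef]
  refine ⟨?_, ?_, ?_, ?_⟩
  · -- mo
    have g1 := hG (fun W => mo (y s 1) (y s W)) (by
      intro W hW
      unfold mo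
      exact ((((hdiff W hW).pow 2).sub_const _).mul_const _ |>.div
        (((hdiff W hW).pow 2).const_add 1)
        (one_add_sq_ne (hpos W hW))).differentiableWithinAt) (by
      intro W hW W' hW' he
      exact hinj hW hW' (mo_inj h1p (hpos W hW) (hpos W' hW') he))
    have g2 : HasDerivAt (fun W => mo (y s 1) (y s W)) (2 * y s 1 * D) 1 := by
      unfold mo
      have h1 := (((hD.fun_pow 2).sub_const (y s 1 ^ 2)).mul_const (1 + y s 1 ^ 2)).fun_div
        ((hD.fun_pow 2).const_add 1) (one_add_sq_ne h1p)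
      convert! h1 using 1
      have h2 := one_add_sq_ne h1p
      field_simp
      ring
    rw [g2.deriv] at g1
    refine fin X C (8 * C) E _ hX hE _ ?_ (by linarith) g1
    rw [norm_mul, norm_mul]
    have h2 : ‖(2 : ℂ)‖ = 2 := by simp
    rw [h2]
    calc E * (2 * ‖y s 1‖ * ‖D‖) = 2 * ‖y s 1‖ * (E * ‖D‖) := by ring
      _ ≤ 2 * 2 * (2 * C) := by
        apply mul_le_mul _ hDn (by positivity) (by norm_num)
        linarith
      _ = 8 * C := by ring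
  · -- 1 / nu
    have g1 := hG (fun W => 1 / nu κ y s W) (by
      intro W hW
      exact ((differentiableAt_const _).div (hdν W hW)
        (ne_zero (hνre W hW))).differentiableWithinAt) (by
      intro W hW W' hW' he
      apply hinj hW hW'
      have h1 : nu κ y s W = nu κ y s W' := by
        have he' : 1 / nu κ y s W = 1 / nu κ y s W' := he
        rw [one_div, one_div] at he'
        exact inv_injective he'
      unfold nu at h1
      exact sub_left_injective h1)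
    have g2 : HasDerivAt (fun W => 1 / nu κ y s W) (-D / nu κ y s 1 ^ 2) 1 := by
      have h1 := hν'.fun_inv hν1
      simp only [one_div]
      exact h1
    rw [g2.deriv] at g1
    refine fin X C (8 * C) E _ hX hE _ ?_ (by linarith) g1
    rw [norm_div, norm_neg, norm_pow]
    have h3 : (1 / 4 : ℝ) ≤ ‖nu κ y s 1‖ ^ 2 := by nlinarith
    rw [← mul_div_assoc, div_le_iff₀ (by linarith)]
    calc E * ‖D‖ ≤ 2 * C := hDn
      _ = 8 * C * (1 / 4) := by ring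
      _ ≤ 8 * C * ‖nu κ y s 1‖ ^ 2 := mul_le_mul_of_nonneg_left h3 (by positivity)
  · -- 1 / (y nu)
    have g1 := hG (fun W => 1 / (y s W * nu κ y s W)) (by
      intro W hW
      exact ((differentiableAt_const _).div ((hdiff W hW).mul (hdν W hW))
        (mul_ne_zero (ne_zero (hpos W hW)) (ne_zero (hνre W hW)))).differentiableWithinAt) (by
      intro W hW W' hW' he
      apply hinj hW hW'
      have he' : 1 / (y s W * nu κ y s W) = 1 / (y s W' * nu κ y s W') := he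
      rw [one_div, one_div] at he'
      have h1 := inv_injective he'
      unfold nu at h1
      exact mul_inj (hpos W hW) (hpos W' hW') h1)
    have g2 : HasDerivAt (fun W => 1 / (y s W * nu κ y s W))
        (-(D * nu κ y s 1 + y s 1 * D) / (y s 1 * nu κ y s 1) ^ 2) 1 := by
      have h1 := (hD.fun_mul hν').fun_inv (mul_ne_zero (ne_zero h1p) hν1)
      simp only [one_div]
      exact h1
    rw [g2.deriv] at g1
    refine fin X C (128 * C) E _ hX hE _ ?_ (by linarith) g1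
    rw [norm_div, norm_neg, norm_pow, norm_mul (y s 1)]
    have h3 : (1 / 16 : ℝ) ≤ (‖y s 1‖ * ‖nu κ y s 1‖) ^ 2 := by
      have h4 : (1 / 4 : ℝ) ≤ ‖y s 1‖ * ‖nu κ y s 1‖ := by
        calc (1 / 4 : ℝ) = 1 / 2 * (1 / 2) := by norm_num
          _ ≤ _ := mul_le_mul b4 b2 (by norm_num) (norm_nonneg _)
      nlinarith
    have h5 : ‖D * nu κ y s 1 + y s 1 * D‖ ≤ 4 * ‖D‖ := by
      calc _ ≤ ‖D * nu κ y s 1‖ + ‖y s 1 * D‖ := norm_add_le _ _
        _ = ‖D‖ * ‖nu κ y s 1‖ + ‖y s 1‖ * ‖D‖ := by rw [norm_mul, norm_mul]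
        _ ≤ ‖D‖ * 2 + 2 * ‖D‖ := add_le_add (mul_le_mul_of_nonneg_left b3 (norm_nonneg _))
            (mul_le_mul_of_nonneg_right b5 (norm_nonneg _))
        _ = 4 * ‖D‖ := by ring
    rw [← mul_div_assoc, div_le_iff₀ (by linarith)]
    calc E * ‖D * nu κ y s 1 + y s 1 * D‖ ≤ E * (4 * ‖D‖) := mul_le_mul_of_nonneg_left h5 hE.le
      _ = 4 * (E * ‖D‖) := by ring
      _ ≤ 4 * (2 * C) := mul_le_mul_of_nonneg_left hDn (by norm_num)
      _ = 128 * C * (1 / 16) := by ring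
      _ ≤ 128 * C * (‖y s 1‖ * ‖nu κ y s 1‖) ^ 2 :=
        mul_le_mul_of_nonneg_left h3 (by positivity)
  · -- XX
    have g1 := hG (fun W => XX y s W) (by
      intro W hW
      exact (hXX κ S y hκ hy s hs W hW).2.1.differentiableAt.differentiableWithinAt) (by
      intro W hW W' hW' he
      apply hinj hW hW'
      have he' : XX y s W = XX y s W' := he
      unfold XX at he'
      have h1 : (Real.exp (2 * s) : ℂ) ≠ 0 := by
        rw [← norm_pos_iff, hE']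
        exact hE
      have h2 := mul_left_cancel₀ h1 he'
      exact sq_inj (hpos W hW) (hpos W' hW') (sub_left_injective h2))
    have g2 : HasDerivAt (fun W => XX y s W) (2 * 1 * (nn κ y s 1 * y s 1 / nu κ y s 1)) 1 :=
      (hXX κ S y hκ hy s hs 1 one_mem).2.1
    rw [g2.deriv] at g1
    have h2 : ‖(2 : ℂ)‖ = 2 := by simp
    have h3 : ‖2 * 1 * (nn κ y s 1 * y s 1 / nu κ y s 1)‖ ≤ 8 * C := by
      rw [norm_mul, norm_div, norm_mul, norm_mul, h2, norm_one, ← mul_div_assoc,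
        div_le_iff₀ (by linarith)]
      calc 2 * 1 * (‖nn κ y s 1‖ * ‖y s 1‖) ≤ 2 * 1 * (C * 2) := by
            apply mul_le_mul_of_nonneg_left _ (by norm_num)
            exact mul_le_mul b1 b5 (norm_nonneg _) hC.le
        _ = 8 * C * (1 / 2) := by ring
        _ ≤ 8 * C * ‖nu κ y s 1‖ := mul_le_mul_of_nonneg_left b2 (by positivity)
    calc _ ≤ 2 * X * ‖2 * 1 * (nn κ y s 1 * y s 1 / nu κ y s 1)‖ := g1
      _ ≤ 2 * X * (8 * C) := mul_le_mul_of_nonneg_left h3 (by positivity)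
      _ = 16 * (C * X) := by ring
      _ ≤ 256 * (C * X) := mul_le_mul_of_nonneg_right (by norm_num) (by positivity)
      _ = 256 * C * X := by ring

end Pool.Agent.MultS.LB

end

section

/-!
# [K4] Bounds for `w`
-/

set_option autoImplicit false

open Complex Metric Set Filter Topology MeasureTheory
open Pool.Agent.MultS.Lip

namespace Pool.Agent.MultS.LB

namespace WBX

lemma slit {ε : ℝ} (h0 : 0 < ε) (h1 : ε < 1) {y : ℂ} (hy : 0 < y.re) :
    1 + (ε : ℂ) * (y ^ 2 - 1) ∈ slitPlane := by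
  rw [Complex.mem_slitPlane_iff]
  have hre : (1 + (ε : ℂ) * (y ^ 2 - 1)).re = 1 + ε * (y.re * y.re - y.im * y.im - 1) := by
    simp [pow_two, Complex.mul_re]
  have him : (1 + (ε : ℂ) * (y ^ 2 - 1)).im = ε * (2 * y.re * y.im) := by
    simp only [pow_two, Complex.add_im, Complex.mul_im, Complex.one_im, Complex.ofReal_re,
      Complex.ofReal_im, Complex.sub_im, Complex.sub_re, Complex.mul_re, Complex.one_re]
    ring
  by_cases h : y.im = 0
  · left
    rw [hre, h]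
    have : 0 < ε * (y.re * y.re) := by positivity
    linarith
  · right
    rw [him]
    exact mul_ne_zero h0.ne' (mul_ne_zero (by positivity) h)

lemma half_pow : ((1 / 2 : ℝ)) ^ (-(5 / 2) : ℝ) ≤ 8 := by
  have h1 : ((1 / 2 : ℝ)) ^ (-(5 / 2) : ℝ) ≤ (1 / 2 : ℝ) ^ (-3 : ℝ) :=
    Real.rpow_le_rpow_of_exponent_ge (by norm_num) (by norm_num) (by norm_num)
  have h2 : (1 / 2 : ℝ) ^ (-3 : ℝ) = 8 := by
    rw [show (-3 : ℝ) = -((3 : ℕ) : ℝ) by norm_num, Real.rpow_neg (by norm_num),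
      Real.rpow_natCast]
    norm_num
  linarith

lemma lip {x : ℂ} (hx : -(1 / 2) < x.re) :
    ‖(1 + x) ^ (-(3 / 2) : ℂ) - 1‖ ≤ 12 * ‖x‖ := by
  have hconv : Convex ℝ {x : ℂ | -(1 / 2) < x.re} := convex_halfSpace_re_gt _
  have hsl : ∀ z ∈ {x : ℂ | -(1 / 2) < x.re}, 1 + z ∈ slitPlane := by
    intro z hz
    left
    have : -(1 / 2) < z.re := hz
    simp only [Complex.add_re, Complex.one_re]
    linarith
  have hd : ∀ z ∈ {x : ℂ | -(1 / 2) < x.re}, HasDerivWithinAt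
      (fun x : ℂ => (1 + x) ^ (-(3 / 2) : ℂ))
      (-(3 / 2) * (1 + z) ^ (-(3 / 2) - 1 : ℂ) * 1) {x : ℂ | -(1 / 2) < x.re} z := by
    intro z hz
    exact (((hasDerivAt_id z).const_add 1).cpow_const (hsl z hz)).hasDerivWithinAt
  have hb : ∀ z ∈ {x : ℂ | -(1 / 2) < x.re},
      ‖-(3 / 2) * (1 + z) ^ (-(3 / 2) - 1 : ℂ) * 1‖ ≤ 12 := by
    intro z hz
    have hz' : -(1 / 2) < z.re := hz
    have e1 : (-(3 / 2) - 1 : ℂ) = ((-(5 / 2) : ℝ) : ℂ) := by push_cast; ring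
    have e2 : (1 / 2 : ℝ) ≤ ‖1 + z‖ := by
      have := Complex.re_le_norm (1 + z)
      simp only [Complex.add_re, Complex.one_re] at this
      linarith
    have e3 : ‖1 + z‖ ^ (-(5 / 2) : ℝ) ≤ (1 / 2 : ℝ) ^ (-(5 / 2) : ℝ) :=
      Real.rpow_le_rpow_of_nonpos (by norm_num) e2 (by norm_num)
    rw [mul_one, norm_mul, e1, norm_cpow_real]
    have e4 : ‖(-(3 / 2) : ℂ)‖ = 3 / 2 := by norm_num
    rw [e4]
    have := half_pow
    linarith
  have h0 : (0 : ℂ) ∈ {x : ℂ | -(1 / 2) < x.re} := by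
    simp
  have := hconv.norm_image_sub_le_of_norm_hasDerivWithin_le hd hb h0 hx
  simpa using this

lemma expo {t : ℝ} (ht : 0 < t) : Real.exp (5 * t / 3) * (t / 3) ≤ Real.exp (2 * t) - 1 := by
  have h1 : Real.exp (2 * t) = Real.exp (5 * t / 3) * Real.exp (t / 3) := by
    rw [← Real.exp_add]; congr 1; ring
  have h2 : t / 3 + 1 ≤ Real.exp (t / 3) := Real.add_one_le_exp _
  have h3 : 1 ≤ Real.exp (5 * t / 3) := Real.one_le_exp (by positivity)
  have h4 : 0 < Real.exp (5 * t / 3) := Real.exp_pos _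
  rw [h1]
  have h5 : Real.exp (5 * t / 3) * (t / 3 + 1) ≤ Real.exp (5 * t / 3) * Real.exp (t / 3) :=
    mul_le_mul_of_nonneg_left h2 h4.le
  linarith

lemma third_pow : ((1 / 3 : ℝ)) ^ (-(3 / 4) : ℝ) ≤ 3 := by
  have h1 : ((1 / 3 : ℝ)) ^ (-(3 / 4) : ℝ) ≤ (1 / 3 : ℝ) ^ (-1 : ℝ) :=
    Real.rpow_le_rpow_of_exponent_ge (by norm_num) (by norm_num) (by norm_num)
  have h2 : (1 / 3 : ℝ) ^ (-1 : ℝ) = 3 := by
    rw [Real.rpow_neg_one]; norm_num
  linarith

lemma coef {t : ℝ} (ht : 0 < t) :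
    Real.exp (-2 * t) * (Real.exp (-2 * t) ^ (-(3 / 2) : ℝ) *
      Real.sqrt (Real.exp (2 * t) - 1) ^ (-(3 / 2) : ℝ))
      ≤ 3 * (Real.exp (-(t / 4)) * t ^ (-(3 / 4) : ℝ)) := by
  have hu : 0 < Real.exp (2 * t) - 1 := by
    have : 0 < Real.exp (5 * t / 3) * (t / 3) := by positivity
    linarith [expo ht]
  have h1 : Real.sqrt (Real.exp (2 * t) - 1) ^ (-(3 / 2) : ℝ)
      = (Real.exp (2 * t) - 1) ^ (-(3 / 4) : ℝ) := by
    rw [Real.sqrt_eq_rpow, ← Real.rpow_mul hu.le]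
    norm_num
  have h2 : Real.exp (-2 * t) ^ (-(3 / 2) : ℝ) = Real.exp (3 * t) := by
    rw [← Real.exp_mul]; congr 1; ring
  have h3 : (Real.exp (2 * t) - 1) ^ (-(3 / 4) : ℝ)
      ≤ (Real.exp (5 * t / 3) * (t / 3)) ^ (-(3 / 4) : ℝ) :=
    Real.rpow_le_rpow_of_nonpos (by positivity) (expo ht) (by norm_num)
  have h4 : (Real.exp (5 * t / 3) * (t / 3)) ^ (-(3 / 4) : ℝ)
      = Real.exp (-(5 * t / 4)) * (t ^ (-(3 / 4) : ℝ) * (1 / 3) ^ (-(3 / 4) : ℝ)) := by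
    rw [Real.mul_rpow (Real.exp_pos _).le (by positivity),
      show t / 3 = t * (1 / 3) by ring, Real.mul_rpow ht.le (by norm_num), ← Real.exp_mul]
    congr 2; ring
  have h5 : 0 ≤ t ^ (-(3 / 4) : ℝ) := Real.rpow_nonneg ht.le _
  have h6 : t ^ (-(3 / 4) : ℝ) * (1 / 3) ^ (-(3 / 4) : ℝ) ≤ t ^ (-(3 / 4) : ℝ) * 3 :=
    mul_le_mul_of_nonneg_left third_pow h5
  have h7 : Real.exp (-2 * t) * (Real.exp (3 * t) * Real.exp (-(5 * t / 4)))
      = Real.exp (-(t / 4)) := by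
    rw [← Real.exp_add, ← Real.exp_add]; congr 1; ring
  rw [h1, h2]
  calc Real.exp (-2 * t) * (Real.exp (3 * t) * (Real.exp (2 * t) - 1) ^ (-(3 / 4) : ℝ))
      ≤ Real.exp (-2 * t) * (Real.exp (3 * t) *
        (Real.exp (-(5 * t / 4)) * (t ^ (-(3 / 4) : ℝ) * 3))) := by
        apply mul_le_mul_of_nonneg_left _ (Real.exp_pos _).le
        apply mul_le_mul_of_nonneg_left _ (Real.exp_pos _).le
        rw [h4] at h3
        exact h3.trans (mul_le_mul_of_nonneg_left h6 (Real.exp_pos _).le)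
    _ = (Real.exp (-2 * t) * (Real.exp (3 * t) * Real.exp (-(5 * t / 4)))) *
        (t ^ (-(3 / 4) : ℝ) * 3) := by ring
    _ = 3 * (Real.exp (-(t / 4)) * t ^ (-(3 / 4) : ℝ)) := by rw [h7]; ring

lemma prodpow {p q b : ℝ} (hp : 0 < p) (hq : 0 < q) (hb : 0 < b) (h : b ≤ p ∨ b ≤ q) :
    (p * q) ^ (-(3 / 2) : ℝ)
      ≤ b ^ (-(3 / 2) : ℝ) * (p ^ (-(3 / 2) : ℝ) + q ^ (-(3 / 2) : ℝ)) := by
  rw [Real.mul_rpow hp.le hq.le]
  have hp' : 0 < p ^ (-(3 / 2) : ℝ) := Real.rpow_pos_of_pos hp _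
  have hq' : 0 < q ^ (-(3 / 2) : ℝ) := Real.rpow_pos_of_pos hq _
  have hb' : 0 < b ^ (-(3 / 2) : ℝ) := Real.rpow_pos_of_pos hb _
  rcases h with h | h
  · have h1 : p ^ (-(3 / 2) : ℝ) ≤ b ^ (-(3 / 2) : ℝ) :=
      Real.rpow_le_rpow_of_nonpos hb h (by norm_num)
    have h2 : p ^ (-(3 / 2) : ℝ) * q ^ (-(3 / 2) : ℝ)
        ≤ b ^ (-(3 / 2) : ℝ) * q ^ (-(3 / 2) : ℝ) := mul_le_mul_of_nonneg_right h1 hq'.le
    have h3 : 0 < b ^ (-(3 / 2) : ℝ) * p ^ (-(3 / 2) : ℝ) := mul_pos hb' hp'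
    rw [mul_add]
    linarith
  · have h1 : q ^ (-(3 / 2) : ℝ) ≤ b ^ (-(3 / 2) : ℝ) :=
      Real.rpow_le_rpow_of_nonpos hb h (by norm_num)
    have h2 : p ^ (-(3 / 2) : ℝ) * q ^ (-(3 / 2) : ℝ)
        ≤ p ^ (-(3 / 2) : ℝ) * b ^ (-(3 / 2) : ℝ) := mul_le_mul_of_nonneg_left h1 hp'.le
    have h3 : 0 < b ^ (-(3 / 2) : ℝ) * q ^ (-(3 / 2) : ℝ) := mul_pos hb' hq'
    rw [mul_add, mul_comm (b ^ (-(3 / 2) : ℝ)) (p ^ (-(3 / 2) : ℝ))]
    linarith

lemma wnorm (t : ℝ) (y : ℂ) :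
    ‖ww t y‖ = ‖1 + (Real.exp (-2 * t) : ℂ) * (y ^ 2 - 1)‖ ^ (-(3 / 2) : ℝ) := by
  unfold ww
  rw [show (-(3 / 2) : ℂ) = ((-(3 / 2) : ℝ) : ℂ) by push_cast; ring, norm_cpow_real]

lemma fact {t : ℝ} (ht : 0 < t) (y : ℂ) :
    1 + (Real.exp (-2 * t) : ℂ) * (y ^ 2 - 1) = (Real.exp (-2 * t) : ℂ) *
      ((y - I * (Real.sqrt (Real.exp (2 * t) - 1) : ℂ)) *
        (y + I * (Real.sqrt (Real.exp (2 * t) - 1) : ℂ))) := by
  have hu : 0 ≤ Real.exp (2 * t) - 1 := by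
    have : 0 < Real.exp (5 * t / 3) * (t / 3) := by positivity
    linarith [expo ht]
  have h1 : (Real.sqrt (Real.exp (2 * t) - 1) : ℂ) ^ 2 = (Real.exp (2 * t) : ℂ) - 1 := by
    rw [← Complex.ofReal_pow, Real.sq_sqrt hu]; push_cast; ring
  have h2 : (Real.exp (-2 * t) : ℂ) * (Real.exp (2 * t) : ℂ) = 1 := by
    rw [← Complex.ofReal_mul, ← Real.exp_add]; simp
  have h3 : (y - I * (Real.sqrt (Real.exp (2 * t) - 1) : ℂ)) *
        (y + I * (Real.sqrt (Real.exp (2 * t) - 1) : ℂ))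
      = y ^ 2 - I ^ 2 * (Real.sqrt (Real.exp (2 * t) - 1) : ℂ) ^ 2 := by ring
  rw [h3, h1, Complex.I_sq]
  linear_combination -h2

lemma partII {t : ℝ} (ht : 0 < t) {y : ℂ} (hy : 0 < y.re) :
    Real.exp (-2 * t) * ‖ww t y‖ ≤ 3 * (Real.exp (-(t / 4)) * t ^ (-(3 / 4) : ℝ)) *
      (‖y - I * (Real.sqrt (Real.exp (2 * t) - 1) : ℂ)‖ ^ (-(3 / 2) : ℝ) +
        ‖y + I * (Real.sqrt (Real.exp (2 * t) - 1) : ℂ)‖ ^ (-(3 / 2) : ℝ)) := by
  have hu : 0 < Real.exp (2 * t) - 1 := by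
    have : 0 < Real.exp (5 * t / 3) * (t / 3) := by positivity
    linarith [expo ht]
  obtain ⟨b, hb⟩ : ∃ b, b = Real.sqrt (Real.exp (2 * t) - 1) := ⟨_, rfl⟩
  have hb0 : 0 < b := by rw [hb]; exact Real.sqrt_pos.2 hu
  have hcoef := coef ht
  rw [wnorm, fact ht, norm_mul, norm_mul, Complex.norm_real, Real.norm_eq_abs,
    abs_of_pos (Real.exp_pos _)]
  rw [← hb] at hcoef ⊢
  have hp : 0 < ‖y - I * (b : ℂ)‖ := by
    have := Complex.re_le_norm (y - I * (b : ℂ))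
    simp only [Complex.sub_re, Complex.mul_re, Complex.I_re, Complex.I_im, Complex.ofReal_re,
      Complex.ofReal_im] at this
    linarith
  have hq : 0 < ‖y + I * (b : ℂ)‖ := by
    have := Complex.re_le_norm (y + I * (b : ℂ))
    simp only [Complex.add_re, Complex.mul_re, Complex.I_re, Complex.I_im, Complex.ofReal_re,
      Complex.ofReal_im] at this
    linarith
  have hmax : b ≤ ‖y - I * (b : ℂ)‖ ∨ b ≤ ‖y + I * (b : ℂ)‖ := by
    rcases le_total 0 y.im with h | h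
    · right
      have := Complex.im_le_norm (y + I * (b : ℂ))
      simp only [Complex.add_im, Complex.mul_im, Complex.I_re, Complex.I_im, Complex.ofReal_re,
        Complex.ofReal_im] at this
      linarith
    · left
      have := (abs_le.1 (Complex.abs_im_le_norm (y - I * (b : ℂ)))).1
      simp only [Complex.sub_im, Complex.mul_im, Complex.I_re, Complex.I_im, Complex.ofReal_re,
        Complex.ofReal_im] at this
      linarith
  have hE := Real.exp_pos (-2 * t)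
  rw [Real.mul_rpow hE.le (by positivity)]
  have h1 := prodpow hp hq hb0 hmax
  have hS : 0 ≤ ‖y - I * (b : ℂ)‖ ^ (-(3 / 2) : ℝ) + ‖y + I * (b : ℂ)‖ ^ (-(3 / 2) : ℝ) := by
    positivity
  have hE' : 0 < Real.exp (-2 * t) ^ (-(3 / 2) : ℝ) := Real.rpow_pos_of_pos hE _
  calc Real.exp (-2 * t) * (Real.exp (-2 * t) ^ (-(3 / 2) : ℝ) *
        (‖y - I * (b : ℂ)‖ * ‖y + I * (b : ℂ)‖) ^ (-(3 / 2) : ℝ))
      ≤ Real.exp (-2 * t) * (Real.exp (-2 * t) ^ (-(3 / 2) : ℝ) *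
        (b ^ (-(3 / 2) : ℝ) *
          (‖y - I * (b : ℂ)‖ ^ (-(3 / 2) : ℝ) + ‖y + I * (b : ℂ)‖ ^ (-(3 / 2) : ℝ)))) :=
        mul_le_mul_of_nonneg_left (mul_le_mul_of_nonneg_left h1 hE'.le) hE.le
    _ = (Real.exp (-2 * t) * (Real.exp (-2 * t) ^ (-(3 / 2) : ℝ) * b ^ (-(3 / 2) : ℝ))) *
          (‖y - I * (b : ℂ)‖ ^ (-(3 / 2) : ℝ) + ‖y + I * (b : ℂ)‖ ^ (-(3 / 2) : ℝ)) := by ring
    _ ≤ _ := mul_le_mul_of_nonneg_right hcoef hS

end WBX

open WBX in
theorem prfWB : WB := by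
  refine ⟨48, by norm_num, ?_⟩
  intro t ht
  have hE := Real.exp_pos (-2 * t)
  have hE1 : Real.exp (-2 * t) < 1 := by
    rw [Real.exp_lt_one_iff]; linarith
  have hTq : 0 ≤ Real.exp (-(t / 4)) * t ^ (-(3 / 4) : ℝ) :=
    mul_nonneg (Real.exp_pos _).le (Real.rpow_nonneg ht.le _)
  refine ⟨?_, ?_, ?_, ?_, ?_, ?_⟩
  · intro y hy
    have hy' : 0 < y.re := hy
    unfold ww
    have hd : DifferentiableWithinAt ℂ
        (fun y : ℂ => 1 + (Real.exp (-2 * t) : ℂ) * (y ^ 2 - 1)) Hp y := by fun_prop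
    exact hd.cpow_const (slit hE hE1 hy')
  · intro y hy
    have hn : ‖(Real.exp (-2 * t) : ℂ) * (y ^ 2 - 1)‖
        ≤ Real.exp (-2 * t) * (1 + ‖y‖) ^ 2 := by
      rw [norm_mul, Complex.norm_real, Real.norm_eq_abs, abs_of_pos hE]
      apply mul_le_mul_of_nonneg_left _ hE.le
      have h1 : ‖y ^ 2 - 1‖ ≤ ‖y‖ ^ 2 + 1 := by
        have := norm_sub_le (y ^ 2) 1
        rwa [norm_pow, norm_one] at this
      have h2 := norm_nonneg y
      nlinarith
    have hw := norm_nonneg (ww t y)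
    have hA : 0 ≤ Real.exp (-2 * t) * (1 + ‖y‖) ^ 2 := by positivity
    obtain ⟨A, hAd⟩ : ∃ A, A = Real.exp (-2 * t) * (1 + ‖y‖) ^ 2 := ⟨_, rfl⟩
    have goal1 : 48 * Real.exp (-2 * t) * (1 + ‖y‖) ^ 2 * (1 + ‖ww t y‖)
        = 48 * A * (1 + ‖ww t y‖) := by rw [hAd]; ring
    rw [goal1]
    rw [← hAd] at hn hA
    by_cases hc : A ≤ 1 / 4
    · have h3 : -(1 / 2) < ((Real.exp (-2 * t) : ℂ) * (y ^ 2 - 1)).re := by
        have := (abs_le.1 (Complex.abs_re_le_norm ((Real.exp (-2 * t) : ℂ) * (y ^ 2 - 1)))).1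
        linarith
      have h4 := lip h3
      have h5 : ‖ww t y - 1‖ ≤ 12 * A := by
        unfold ww; linarith
      have h6 : 0 ≤ A * ‖ww t y‖ := mul_nonneg hA hw
      nlinarith
    · push Not at hc
      have h3 : ‖ww t y - 1‖ ≤ ‖ww t y‖ + 1 := by
        have := norm_sub_le (ww t y) 1
        rwa [norm_one] at this
      have h4 : 1 / 4 * (1 + ‖ww t y‖) ≤ A * (1 + ‖ww t y‖) :=
        mul_le_mul_of_nonneg_right hc.le (by positivity)
      linarith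
  · intro y hy
    have hy' : 0 < y.re := hy
    refine (partII ht hy').trans ?_
    apply mul_le_mul_of_nonneg_right _ (by positivity)
    linarith
  · have h1 : Real.exp (-t) ≤ Real.exp (-(t / 4)) * t ^ (-(3 / 4) : ℝ) := by
      have h2 : Real.exp t ^ (-(3 / 4) : ℝ) ≤ t ^ (-(3 / 4) : ℝ) :=
        Real.rpow_le_rpow_of_nonpos ht (by linarith [Real.add_one_le_exp t]) (by norm_num)
      have h3 : Real.exp t ^ (-(3 / 4) : ℝ) = Real.exp (-(3 * t / 4)) := by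
        rw [← Real.exp_mul]; congr 1; ring
      have h4 : Real.exp (-t) = Real.exp (-(t / 4)) * Real.exp (-(3 * t / 4)) := by
        rw [← Real.exp_add]; congr 1; ring
      rw [h4]
      apply mul_le_mul_of_nonneg_left _ (Real.exp_pos _).le
      rwa [← h3]
    have h2 : Real.exp (-2 * t) ≤ Real.exp (-t) := Real.exp_le_exp.2 (by linarith)
    linarith
  · intro Y hY
    have hY' : -(1 / 2) < Y.re ∧ ‖Y‖ < 4 := hY
    apply DifferentiableWithinAt.cpow_const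
    · fun_prop
    · left
      simp only [Complex.add_re, Complex.one_re, Complex.mul_re, Complex.ofReal_re,
        Complex.ofReal_im]
      nlinarith [hY'.1]
  · intro Y hY1 hY2
    have h3 : -(1 / 2) < ((Real.exp (-2 * t) : ℂ) * Y).re := by
      simp only [Complex.mul_re, Complex.ofReal_re, Complex.ofReal_im]
      nlinarith
    have h4 := lip h3
    rw [norm_mul, Complex.norm_real, Real.norm_eq_abs, abs_of_pos hE] at h4
    have h5 : Real.exp (-2 * t) * ‖Y‖ ≤ Real.exp (-2 * t) * 4 :=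
      mul_le_mul_of_nonneg_left hY2.le hE.le
    linarith

end Pool.Agent.MultS.LB

end

section

/-!
# Coefficient multipliers of the class S: assembly of block E
-/

set_option autoImplicit false

open Complex Metric Set Filter Topology MeasureTheory
open scoped ENNReal ComplexConjugate

namespace Pool.Agent.MultS

theorem sq_le_four_pow (m : ℕ) : ((m : ℝ) + 1) ^ 2 ≤ 4 ^ m := by
  induction m with
  | zero => norm_num
  | succ k ih =>
    have hk : (0 : ℝ) ≤ k := Nat.cast_nonneg k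
    push_cast
    rw [pow_succ (4 : ℝ)]
    nlinarith

theorem term_lt {f : ℂ → ℂ} (hf : Sc f) (m : ℕ) :
    ‖tc f (m + 1)‖ ^ 2 * (1 / 16 : ℝ) ^ (m + 1) ≤ (9 / 16) * (1 / 4 : ℝ) ^ m := by
  have h1 := littAll f hf (m + 1) (by omega)
  have h2 : ‖tc f (m + 1)‖ ^ 2 ≤ 9 * ((m : ℝ) + 1) ^ 2 := by
    have := pow_le_pow_left₀ (norm_nonneg _) h1 2
    push_cast at this
    nlinarith [this]
  have h3 : ‖tc f (m + 1)‖ ^ 2 ≤ 9 * 4 ^ m := by linarith [sq_le_four_pow m]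
  have h5 : (1 / 16 : ℝ) ^ (m + 1) = (1 / 16) * ((1 / 4 : ℝ) ^ m * (1 / 4 : ℝ) ^ m) := by
    rw [← mul_pow, pow_succ]; norm_num; ring
  have h6 : (4 : ℝ) ^ m * (1 / 4 : ℝ) ^ m = 1 := by rw [← mul_pow]; norm_num
  calc ‖tc f (m + 1)‖ ^ 2 * (1 / 16 : ℝ) ^ (m + 1) ≤ 9 * 4 ^ m * (1 / 16 : ℝ) ^ (m + 1) :=
        mul_le_mul_of_nonneg_right h3 (by positivity)
    _ = (9 / 16) * (1 / 4 : ℝ) ^ m * ((4 : ℝ) ^ m * (1 / 4 : ℝ) ^ m) := by rw [h5]; ring
    _ = (9 / 16) * (1 / 4 : ℝ) ^ m := by rw [h6, mul_one]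

theorem tsum_sq_lt {f : ℂ → ℂ} (hf : Sc f) :
    0 ≤ ∑' n : ℕ, ‖tc f n‖ ^ 2 * (1 / 16 : ℝ) ^ n ∧
      ∑' n : ℕ, ‖tc f n‖ ^ 2 * (1 / 16 : ℝ) ^ n ≤ 1 := by
  have h0 : tc f 0 = 0 := by simp [tc, hf.2.2.1]
  have hg : Summable (fun m : ℕ => (9 / 16) * (1 / 4 : ℝ) ^ m) :=
    (summable_geometric_of_lt_one (by norm_num) (by norm_num)).mul_left _
  have hs1 : Summable (fun m : ℕ => ‖tc f (m + 1)‖ ^ 2 * (1 / 16 : ℝ) ^ (m + 1)) :=
    Summable.of_nonneg_of_le (fun n => by positivity) (term_lt hf) hg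
  have hs : Summable (fun n : ℕ => ‖tc f n‖ ^ 2 * (1 / 16 : ℝ) ^ n) :=
    (summable_nat_add_iff 1).1 hs1
  refine ⟨tsum_nonneg fun n => by positivity, ?_⟩
  rw [hs.tsum_eq_zero_add]
  have h1 : ∑' m : ℕ, ‖tc f (m + 1)‖ ^ 2 * (1 / 16 : ℝ) ^ (m + 1) ≤
      ∑' m : ℕ, (9 / 16) * (1 / 4 : ℝ) ^ m := hs1.tsum_le_tsum (term_lt hf) hg
  rw [tsum_mul_left, tsum_geometric_of_lt_one (by norm_num) (by norm_num)] at h1
  rw [h0]
  norm_num at h1 ⊢
  linarith

theorem extr_of (h1 : LipLim) (h2 : LipComp) (h3 : LipMax) (h4 : LipMid) (h5 : LipSqrt)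
    (h6 : LipBrick) : Extr := by
  intro p hp
  obtain ⟨f, hf, hmax⟩ := h3 (h2 h1) p hp
  refine ⟨f, hf, fun g hg => ?_, fun w₁ w₂ hne hn => ?_⟩
  · have h := hmax g hg
    have hg0 := tsum_sq_lt hg
    have hf0 := tsum_sq_lt hf
    unfold LPhi at h
    have h7 : ‖∑' n : ℕ, p n * tc g n‖ ^ 2 ≤ (‖∑' n : ℕ, p n * tc f n‖ + 1) ^ 2 := by
      nlinarith [norm_nonneg (∑' n : ℕ, p n * tc f n)]
    exact (pow_le_pow_iff_left₀ (norm_nonneg _) (by positivity) two_ne_zero).1 h7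
  · by_contra hcon
    rw [not_or] at hcon
    obtain ⟨f₁, f₂, t, hf₁, hf₂, ht0, ht1, hcomb, hneq⟩ :=
      h6 h5 f w₁ w₂ hf hcon.1 hcon.2 hn hne
    exact hneq (h4 p hp f hf hmax f₁ f₂ t hf₁ hf₂ ht0 ht1 hcomb)

theorem growE_of (h7 : LipConn) (h8 : LipConnZ) (h9 : LipArea) (h10 : LipRay) (h11 : LipShad)
    (h12 : LipProj) (h13 : LipGrw) : GrowE :=
  ⟨1200, fun f hf h => h13 h7 h8 (h11 h9 h10) h12 f hf h⟩

end Pool.Agent.MultS

end

section

/-!
# The Lipschitz dichotomy for multipliers of S: uniform bound (item U9)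
-/

set_option autoImplicit false

open Complex Metric Set Filter Topology MeasureTheory

namespace Pool.Agent.MultS.Lip

theorem prfBndU (hU : UnifM) (hG : GrowU) (hL : LowU) (hS : StartU) (hC : ClimbU) : BndU := by
  intro η hη
  obtain ⟨r0, h0, h1, hr⟩ := hU η (1 / 16) hη (by norm_num)
  obtain ⟨C, hCg⟩ := hG (1 / 8) r0 (by norm_num) h0 h1
  obtain ⟨p, c, hp0, hp8, hc, hlow⟩ := hL C
  have gen : GenEx := prfGenEx testQAll
  have non : NonN := prfNonN (prfTestN prfStrip prfDerNe prfPowCoef) prfSer gen (prfSerJ prfSer)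
  set Λ : Set (ℕ → ℂ) := {lam | IsMult lam ∧ ‖lam 2‖ ≤ 1 - η} with hΛ
  have der : ∀ lam ∈ Λ, ∃ h : ℂ → ℂ, Gen lam h ∧ ∀ z ∈ ball (0 : ℂ) 1,
      ‖deriv h z‖ ≤ C * (1 - ‖z‖) ^ (-(1 / 8 : ℝ)) := by
    rintro lam ⟨hm, h2⟩
    obtain ⟨h, hg⟩ := gen lam hm
    refine ⟨h, hg, hCg h hg.1 fun z hz hz0 => ?_⟩
    have := hr lam h hm hg h2 z hz hz0
    norm_num at this ⊢
    exact this
  have cl := hC Λ p c hp0 hp8 hc
    (fun lam hlam s σ h1 h2 h3 h4 => non lam hlam.1 p s σ hp0 h1 h2 h3 h4)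
    (fun lam hlam z hz => by
      obtain ⟨h, hg, hd⟩ := der lam hlam
      exact hlow lam h hg hd z hz)
    (fun s hs0 hs1 => by
      obtain ⟨C', hC'⟩ := hS C s hs0 hs1
      refine ⟨C', fun lam hlam z hz => ?_⟩
      obtain ⟨h, hg, hd⟩ := der lam hlam
      exact hC' lam h hg hd z hz)
  obtain ⟨C1, hC1⟩ := cl 1 (by norm_num) (by norm_num)
  obtain ⟨C2, hC2⟩ := cl 2 (by norm_num) le_rfl
  refine ⟨3 * max C1 C2, fun lam hlit h2 => ?_⟩
  have hm : IsMult lam := prfLitMult lam hlit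
  have hlam : lam ∈ Λ := ⟨hm, h2⟩
  obtain ⟨h, hg⟩ := gen lam hm
  refine prfFin2 (prfSerJ prfSer) lam h (max C1 C2) hg fun z hz => ⟨?_, ?_⟩
  · have := hC1 lam hlam z hz
    have e : ((-1 : ℝ) : ℂ) = -1 := by norm_num
    rw [e] at this
    exact this.trans (le_max_left _ _)
  · have := hC2 lam hlam z hz
    have e : ((-2 : ℝ) : ℂ) = -2 := by norm_num
    rw [e] at this
    exact this.trans (le_max_right _ _)

end Pool.Agent.MultS.Lip

end

section

/-!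
# [U4] The climb, uniform version
-/

set_option autoImplicit false

open Complex Metric Set Filter Topology MeasureTheory Finset

namespace Pool.Agent.MultS.Lip

namespace ClimbU'

open Pool.Agent.MultS.ClimbAux

theorem step (hP : Poly) (Λ : Set (ℕ → ℂ)) (p c s : ℝ) (hp : 0 < p) (hp8 : p ≤ 1 / 8)
    (hc : 0 < c)
    (hN : ∀ lam ∈ Λ, ∀ σ : ℂ, σ ≠ 0 → |arg σ| ≤ Real.pi / 3 →
      ∀ z ∈ ball (0 : ℂ) 1, NN lam p s σ z ≠ 0)
    (hlow : ∀ lam ∈ Λ, ∀ z ∈ ball (0 : ℂ) 1, c ≤ ‖JJ lam ((-p : ℝ) : ℂ) z‖)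
    (hs : 3 / 4 ≤ s) (hs2 : s ≤ 2)
    (hI : ∀ t : ℝ, 0 ≤ t → t ≤ s - 1 / 10 →
      ∃ C : ℝ, ∀ lam ∈ Λ, ∀ z ∈ ball (0 : ℂ) 1, ‖JJ lam ((-t : ℝ) : ℂ) z‖ ≤ C) :
    ∃ C : ℝ, ∀ lam ∈ Λ, ∀ z ∈ ball (0 : ℂ) 1, ‖JJ lam ((-s : ℝ) : ℂ) z‖ ≤ C := by
  have hb : 1 / 10 ≤ (s - p) / 6 := by linarith
  have h1 : ∀ j : ℕ, ∃ C : ℝ, 1 ≤ j → j ≤ 6 → ∀ lam ∈ Λ, ∀ z ∈ ball (0 : ℂ) 1,
      ‖JJ lam (((j : ℝ) * ((s - p) / 6) - s : ℝ) : ℂ) z‖ ≤ C := by
    intro j
    by_cases hj : 1 ≤ j ∧ j ≤ 6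
    · have hj1 : (1 : ℝ) ≤ j := by exact_mod_cast hj.1
      have hj6 : (j : ℝ) ≤ 6 := by exact_mod_cast hj.2
      have h0 : 0 ≤ (s - p) / 6 := by linarith
      have h2 : (j : ℝ) * ((s - p) / 6) ≤ 6 * ((s - p) / 6) :=
        mul_le_mul_of_nonneg_right hj6 h0
      have h3 : 1 * ((s - p) / 6) ≤ (j : ℝ) * ((s - p) / 6) :=
        mul_le_mul_of_nonneg_right hj1 h0
      obtain ⟨C, hC⟩ := hI (s - (j : ℝ) * ((s - p) / 6)) (by linarith) (by linarith)
      refine ⟨C, fun _ _ lam hlam z hz => ?_⟩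
      have h4 : -(s - (j : ℝ) * ((s - p) / 6)) = (j : ℝ) * ((s - p) / 6) - s := by ring
      have := hC lam hlam z hz
      rwa [h4] at this
    · exact ⟨0, fun h h' => absurd ⟨h, h'⟩ hj⟩
  choose CC hCC using h1
  set M : ℝ := ∑ j ∈ range 7, |CC j| with hM
  have hMj : ∀ j : ℕ, j ≤ 6 → |CC j| ≤ M := fun j hj =>
    Finset.single_le_sum (f := fun j => |CC j|) (fun i _ => abs_nonneg _)
      (Finset.mem_range.mpr (by omega))
  have hM0 : 0 ≤ M := Finset.sum_nonneg (fun i _ => abs_nonneg _)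
  obtain ⟨A0, hA0⟩ := hP (p * c) (20 * (2 * M)) (mul_pos hp hc)
  refine ⟨A0 / s, fun lam hlam z hz => ?_⟩
  have hs0 : 0 < s := by linarith
  have ha := hA0 (aa lam p s z) ?_ ?_ ?_
  · have e : aa lam p s z 6 = (s : ℂ) * JJ lam ((-s : ℝ) : ℂ) z := by
      unfold aa
      simp
    rw [e, norm_mul, Complex.norm_real, Real.norm_of_nonneg hs0.le] at ha
    rw [le_div_iff₀ hs0]
    linarith
  · have e : aa lam p s z 0 = (p : ℂ) * JJ lam ((-p : ℝ) : ℂ) z := by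
      unfold aa
      have e1 : s - ((6 - 0 : ℕ) : ℝ) * ((s - p) / 6) = p := by
        push_cast
        ring
      have e2 : ((6 - 0 : ℕ) : ℝ) * ((s - p) / 6) - s = -p := by
        push_cast
        ring
      rw [e1, e2]
      simp
    rw [e, norm_mul, Complex.norm_real, Real.norm_of_nonneg hp.le]
    exact mul_le_mul_of_nonneg_left (hlow lam hlam z hz) hp.le
  · intro i hi
    have hj1 : 1 ≤ 6 - i := by omega
    have hj6 : 6 - i ≤ 6 := by omega
    have hch : (Nat.choose 6 (6 - i)) ≤ 20 := by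
      interval_cases i <;> decide
    have hch' : ‖((Nat.choose 6 (6 - i) : ℕ) : ℂ)‖ ≤ 20 := by
      rw [Complex.norm_natCast]
      exact_mod_cast hch
    have hJ := hCC (6 - i) hj1 hj6 lam hlam z hz
    have hJ' : ‖JJ lam ((((6 - i : ℕ) : ℝ) * ((s - p) / 6) - s : ℝ) : ℂ) z‖ ≤ M :=
      hJ.trans ((le_abs_self _).trans (hMj _ hj6))
    have hsj : ‖((s - ((6 - i : ℕ) : ℝ) * ((s - p) / 6) : ℝ) : ℂ)‖ ≤ 2 := by
      rw [Complex.norm_real, Real.norm_eq_abs, abs_le]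
      have h0 : 0 ≤ (s - p) / 6 := by linarith
      have hc1 : (0 : ℝ) ≤ ((6 - i : ℕ) : ℝ) := Nat.cast_nonneg _
      have hc6 : ((6 - i : ℕ) : ℝ) ≤ 6 := by exact_mod_cast hj6
      have h2 : ((6 - i : ℕ) : ℝ) * ((s - p) / 6) ≤ 6 * ((s - p) / 6) :=
        mul_le_mul_of_nonneg_right hc6 h0
      have h3 : 0 ≤ ((6 - i : ℕ) : ℝ) * ((s - p) / 6) := mul_nonneg hc1 h0
      constructor <;> linarith
    unfold aa
    rw [norm_mul, norm_mul]
    exact mul_le_mul hch' (mul_le_mul hsj hJ' (norm_nonneg _) (by norm_num))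
      (mul_nonneg (norm_nonneg _) (norm_nonneg _)) (by norm_num)
  · intro σ hσ hσ'
    rw [sum_aa]
    exact hN lam hlam σ hσ hσ' z hz

end ClimbU'

theorem prfClimbU : ClimbU := by
  intro Λ p c hp hp8 hc hN hlow hstart
  have key : ∀ k : ℕ, ∀ s : ℝ, 0 ≤ s → s ≤ 2 → s ≤ 3 / 4 + (k : ℝ) / 10 →
      ∃ C : ℝ, ∀ lam ∈ Λ, ∀ z ∈ ball (0 : ℂ) 1, ‖JJ lam ((-s : ℝ) : ℂ) z‖ ≤ C := by
    intro k
    induction k with
    | zero =>
      intro s h0 _ h1
      simp only [Nat.cast_zero, zero_div, add_zero] at h1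
      exact hstart s h0 h1
    | succ k ih =>
      intro s h0 h2 h1
      push_cast at h1
      rcases le_total s (3 / 4) with h | h
      · exact hstart s h0 h
      · refine ClimbU'.step prfPoly Λ p c s hp hp8 hc
          (fun lam hlam σ h1 h2' => hN lam hlam s σ (by linarith) h2 h1 h2')
          hlow h h2 (fun t ht0 ht => ih t ht0 (by linarith) (by linarith))
  intro s h0 h2
  exact key 20 s h0 h2 (by norm_num; linarith)

end Pool.Agent.MultS.Lip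

end

section

/-!
# [U6] convergence of `P`
-/

set_option autoImplicit false

open Complex Metric Set Filter Topology MeasureTheory

namespace Pool.Agent.MultS.Lip

namespace ConvP'

lemma tc_le {g : ℂ → ℂ} (hg : Sc g) (n : ℕ) : ‖tc g (n + 1)‖ ≤ 3 * ((n : ℝ) + 1) := by
  have h := littAll g hg (n + 1) (by omega)
  push_cast at h
  exact h

lemma summable_bd {r : ℝ} (hr0 : 0 < r) (hr1 : r < 1) :
    Summable (fun n : ℕ => 3 * ((n : ℝ) + 1) ^ 3 * r ^ n) := by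
  have h0 : Summable (fun n : ℕ => (n : ℝ) ^ 3 * r ^ n) :=
    summable_pow_mul_geometric_of_norm_lt_one 3 (by rw [Real.norm_eq_abs, abs_of_pos hr0]; exact hr1)
  have h1 := ((summable_nat_add_iff 1).2 h0).mul_left (3 * r⁻¹)
  refine h1.congr (fun n => ?_)
  push_cast
  field_simp
  ring

lemma bd0 {g : ℂ → ℂ} (hg : Sc g) {r : ℝ} (hr0 : 0 < r) {z : ℂ} (hz : ‖z‖ = r) (n : ℕ) :
    ‖((n : ℂ) + 1) * tc g (n + 1) * z ^ n‖ ≤ 3 * ((n : ℝ) + 1) ^ 3 * r ^ n := by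
  have h1 := tc_le hg n
  have h2 : ‖((n : ℂ) + 1)‖ = (n : ℝ) + 1 := by
    have h3 : ((n : ℂ) + 1) = (((n : ℝ) + 1 : ℝ) : ℂ) := by push_cast; rfl
    rw [h3, Complex.norm_real, Real.norm_eq_abs, abs_of_nonneg (by positivity)]
  rw [norm_mul, norm_mul, norm_pow, hz, h2]
  apply mul_le_mul_of_nonneg_right _ (by positivity)
  have hn : (0 : ℝ) ≤ n := Nat.cast_nonneg n
  calc ((n : ℝ) + 1) * ‖tc g (n + 1)‖ ≤ ((n : ℝ) + 1) * (3 * ((n : ℝ) + 1)) :=
        mul_le_mul_of_nonneg_left h1 (by positivity)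
    _ = 3 * ((n : ℝ) + 1) ^ 2 * 1 := by ring
    _ ≤ 3 * ((n : ℝ) + 1) ^ 2 * ((n : ℝ) + 1) :=
        mul_le_mul_of_nonneg_left (by linarith) (by positivity)
    _ = 3 * ((n : ℝ) + 1) ^ 3 := by ring

lemma bd1 {g : ℂ → ℂ} (hg : Sc g) {r : ℝ} (hr0 : 0 < r) {z : ℂ} (hz : ‖z‖ = r) (n : ℕ) :
    ‖(n : ℂ) * (((n : ℂ) + 1) * tc g (n + 1) * z ^ n)‖ ≤ 3 * ((n : ℝ) + 1) ^ 3 * r ^ n := by
  have h1 := tc_le hg n
  have h2 : ‖((n : ℂ) + 1)‖ = (n : ℝ) + 1 := by
    have h3 : ((n : ℂ) + 1) = (((n : ℝ) + 1 : ℝ) : ℂ) := by push_cast; rfl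
    rw [h3, Complex.norm_real, Real.norm_eq_abs, abs_of_nonneg (by positivity)]
  rw [norm_mul, norm_mul, norm_mul, norm_pow, hz, h2, Complex.norm_natCast, ← mul_assoc]
  apply mul_le_mul_of_nonneg_right _ (by positivity)
  have hn : (0 : ℝ) ≤ n := Nat.cast_nonneg n
  calc (n : ℝ) * (((n : ℝ) + 1) * ‖tc g (n + 1)‖) ≤ (n : ℝ) * (((n : ℝ) + 1) * (3 * ((n : ℝ) + 1))) :=
        mul_le_mul_of_nonneg_left (mul_le_mul_of_nonneg_left h1 (by positivity)) hn
    _ = 3 * ((n : ℝ) + 1) ^ 2 * n := by ring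
    _ ≤ 3 * ((n : ℝ) + 1) ^ 2 * ((n : ℝ) + 1) :=
        mul_le_mul_of_nonneg_left (by linarith) (by positivity)
    _ = 3 * ((n : ℝ) + 1) ^ 3 := by ring

end ConvP'

open ConvP' in
theorem prfConvP : ConvP := by
  intro L lam H h x y r hH hh hL hx hy hr0 hr1
  have hyn : ‖y‖ = 1 := by
    have h1 : Tendsto (fun k => ‖x k‖) atTop (𝓝 ‖y‖) := hy.norm
    simp only [hx] at h1
    exact (tendsto_nhds_unique h1 tendsto_const_nhds)
  have hrn : ‖(r : ℂ)‖ = r := by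
    rw [Complex.norm_real, Real.norm_eq_abs, abs_of_pos hr0]
  have hzk : ∀ k, ‖(r : ℂ) * x k‖ = r := by
    intro k
    rw [norm_mul, hx, mul_one, hrn]
  have hz : ‖(r : ℂ) * y‖ = r := by
    rw [norm_mul, hyn, mul_one, hrn]
  have hzkm : ∀ k, (r : ℂ) * x k ∈ ball (0 : ℂ) 1 := by
    intro k
    rw [mem_ball_zero_iff, hzk]
    exact hr1
  have hzm : (r : ℂ) * y ∈ ball (0 : ℂ) 1 := by
    rw [mem_ball_zero_iff, hz]
    exact hr1
  have hzt : Tendsto (fun k => (r : ℂ) * x k) atTop (𝓝 ((r : ℂ) * y)) := hy.const_mul _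
  have htc : ∀ n : ℕ, Tendsto (fun k => tc (H k) (n + 1)) atTop (𝓝 (tc h (n + 1))) := by
    intro n
    rw [hh.2 (n + 1) (by omega)]
    refine (hL (n + 1) (by omega)).congr (fun k => ?_)
    rw [(hH k).2 (n + 1) (by omega)]
  have hterm : ∀ n : ℕ, Tendsto (fun k => ((n : ℂ) + 1) * tc (H k) (n + 1) * ((r : ℂ) * x k) ^ n)
      atTop (𝓝 (((n : ℂ) + 1) * tc h (n + 1) * ((r : ℂ) * y) ^ n)) := by
    intro n
    exact ((htc n).const_mul _).mul (hzt.pow n)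
  have hD : Tendsto (fun k => deriv (H k) ((r : ℂ) * x k)) atTop (𝓝 (deriv h ((r : ℂ) * y))) := by
    have h1 := tendsto_tsum_of_dominated_convergence (summable_bd hr0 hr1) hterm
      (Eventually.of_forall fun k n => bd0 (hH k).1 hr0 (hzk k) n)
    rw [((prfSer h hh.1.1 _ hzm).2.1).tsum_eq] at h1
    refine h1.congr (fun k => ?_)
    exact ((prfSer (H k) (hH k).1.1 _ (hzkm k)).2.1).tsum_eq
  have hN : Tendsto (fun k => ((r : ℂ) * x k) * deriv (deriv (H k)) ((r : ℂ) * x k)) atTop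
      (𝓝 (((r : ℂ) * y) * deriv (deriv h) ((r : ℂ) * y))) := by
    have h1 := tendsto_tsum_of_dominated_convergence (summable_bd hr0 hr1)
      (fun n => (hterm n).const_mul (n : ℂ))
      (Eventually.of_forall fun k n => bd1 (hH k).1 hr0 (hzk k) n)
    rw [((prfSer h hh.1.1 _ hzm).2.2).tsum_eq] at h1
    refine h1.congr (fun k => ?_)
    exact ((prfSer (H k) (hH k).1.1 _ (hzkm k)).2.2).tsum_eq
  have hne : deriv h ((r : ℂ) * y) ≠ 0 :=
    prfDerNe (ball 0 1) h isOpen_ball hh.1.1 hh.1.2.1 _ hzm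
  exact (hN.div hD hne).const_add 1

end Pool.Agent.MultS.Lip

end

section

/-!
# Coefficient multipliers of the class S, block E: the contribution of one radius
-/

set_option autoImplicit false

open Complex Metric Set Filter Topology MeasureTheory
open scoped ENNReal ComplexConjugate

namespace Pool.Agent.MultS

namespace LipRayX

theorem norm_e (θ : ℝ) : ‖exp ((θ : ℂ) * I)‖ = 1 := Complex.norm_exp_ofReal_mul_I θ

theorem norm_re (θ r : ℝ) (hr : 0 ≤ r) : ‖(r : ℂ) * exp ((θ : ℂ) * I)‖ = r := by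
  rw [norm_mul, norm_e, mul_one, Complex.norm_real, Real.norm_eq_abs, abs_of_nonneg hr]

theorem mem_b (θ r : ℝ) (hr : 0 ≤ r) (hr1 : r < 1) :
    (r : ℂ) * exp ((θ : ℂ) * I) ∈ ball (0 : ℂ) 1 := by
  rw [mem_ball_zero_iff, norm_re θ r hr]
  exact hr1

/-- the crossing interval of a continuous function -/
theorem crossing (n : ℝ → ℝ) (R r₀ : ℝ) (hR : 0 < R) (hr₀ : 0 < r₀) (hc : ContinuousOn n (Icc 0 r₀))
    (h0 : n 0 = 0) (h1 : 2 * R < n r₀) :
    ∃ r₁ r₂ : ℝ, 0 ≤ r₁ ∧ r₁ < r₂ ∧ r₂ ≤ r₀ ∧ n r₁ ≤ R ∧ 2 * R ≤ n r₂ ∧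
      ∀ r ∈ Ioo r₁ r₂, R < n r ∧ n r < 2 * R := by
  have hcA : IsCompact {r | r ∈ Icc 0 r₀ ∧ 2 * R ≤ n r} := by
    have : {r | r ∈ Icc 0 r₀ ∧ 2 * R ≤ n r} = Icc 0 r₀ ∩ n ⁻¹' (Ici (2 * R)) := by
      ext r
      simp
    rw [this]
    exact isCompact_Icc.of_isClosed_subset (hc.preimage_isClosed_of_isClosed isClosed_Icc isClosed_Ici)
      inter_subset_left
  have hneA : {r | r ∈ Icc 0 r₀ ∧ 2 * R ≤ n r}.Nonempty := ⟨r₀, ⟨hr₀.le, le_rfl⟩, h1.le⟩
  obtain ⟨r₂, ⟨⟨h20, h2r⟩, h2n⟩, hmin⟩ := hcA.exists_isLeast hneA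
  have hcB : IsCompact {r | r ∈ Icc 0 r₂ ∧ n r ≤ R} := by
    have : {r | r ∈ Icc 0 r₂ ∧ n r ≤ R} = Icc 0 r₂ ∩ n ⁻¹' (Iic R) := by
      ext r
      simp
    rw [this]
    exact isCompact_Icc.of_isClosed_subset
      ((hc.mono (Icc_subset_Icc_right h2r)).preimage_isClosed_of_isClosed isClosed_Icc isClosed_Iic)
      inter_subset_left
  have hneB : {r | r ∈ Icc 0 r₂ ∧ n r ≤ R}.Nonempty := ⟨0, ⟨le_rfl, h20⟩, by rw [h0]; exact hR.le⟩
  obtain ⟨r₁, ⟨⟨h10, h12⟩, h1n⟩, hmax⟩ := hcB.exists_isGreatest hneB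
  have hlt : r₁ < r₂ := by
    rcases lt_or_eq_of_le h12 with h | h
    · exact h
    · exfalso
      rw [h] at h1n
      linarith
  refine ⟨r₁, r₂, h10, hlt, h2r, h1n, h2n, ?_⟩
  intro r hr
  constructor
  · by_contra hcon
    have hle : n r ≤ R := not_lt.1 hcon
    have := hmax (show r ∈ {r | r ∈ Icc 0 r₂ ∧ n r ≤ R} from
      ⟨⟨h10.trans hr.1.le, hr.2.le⟩, hle⟩)
    exact absurd hr.1 (not_lt.2 this)
  · by_contra hcon
    have hle : 2 * R ≤ n r := not_lt.1 hcon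
    have := hmin (show r ∈ {r | r ∈ Icc 0 r₀ ∧ 2 * R ≤ n r} from
      ⟨⟨h10.trans hr.1.le, hr.2.le.trans h2r⟩, hle⟩)
    exact absurd hr.2 (not_lt.2 this)

/-- the derivative along a radius -/
theorem hasDeriv (f : ℂ → ℂ) (hf : Sc f) (θ r : ℝ) (hr : 0 ≤ r) (hr1 : r < 1) :
    HasDerivAt (fun x : ℝ => f ((x : ℂ) * exp ((θ : ℂ) * I)))
      (deriv f ((r : ℂ) * exp ((θ : ℂ) * I)) * exp ((θ : ℂ) * I)) r := by
  have h1 : HasDerivAt f (deriv f ((r : ℂ) * exp ((θ : ℂ) * I))) ((r : ℂ) * exp ((θ : ℂ) * I)) :=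
    ((hf.1.differentiableAt (isOpen_ball.mem_nhds (mem_b θ r hr hr1)))).hasDerivAt
  have h2 : HasDerivAt (fun x : ℝ => (x : ℂ) * exp ((θ : ℂ) * I)) (1 * exp ((θ : ℂ) * I)) r :=
    (Complex.ofRealCLM.hasDerivAt (x := r)).mul_const _
  rw [one_mul] at h2
  exact h1.comp r h2

theorem derivCont (f : ℂ → ℂ) (hf : Sc f) (θ r₁ r₂ : ℝ) (h1 : 0 ≤ r₁) (h2 : r₂ < 1) :
    ContinuousOn (fun r : ℝ => deriv f ((r : ℂ) * exp ((θ : ℂ) * I))) (Icc r₁ r₂) := by
  have hd : ContinuousOn (deriv f) (ball 0 1) :=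
    (hf.1.deriv isOpen_ball).continuousOn
  refine hd.comp (by fun_prop) ?_
  intro r hr
  exact mem_b θ r (h1.trans hr.1) (lt_of_le_of_lt hr.2 h2)

end LipRayX

open LipRayX in
theorem prfLipRay : LipRay := by
  intro f R θ r₀ hf hR hr₀ hr₀1 hlt
  have hR0 : (0 : ℝ) < R := by linarith
  have hcont : ContinuousOn (fun r : ℝ => ‖f ((r : ℂ) * exp ((θ : ℂ) * I))‖) (Icc 0 r₀) := by
    refine ContinuousOn.norm ?_
    intro r hr
    exact (hasDeriv f hf θ r hr.1 (lt_of_le_of_lt hr.2 hr₀1)).continuousAt.continuousWithinAt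
  have h00 : (fun r : ℝ => ‖f ((r : ℂ) * exp ((θ : ℂ) * I))‖) 0 = 0 := by
    simp [hf.2.2.1]
  obtain ⟨r₁, r₂, h10, h12, h2r, h1n, h2n, hin⟩ := crossing _ R r₀ hR0 hr₀ hcont h00 hlt
  have h21 : r₂ < 1 := lt_of_le_of_lt h2r hr₀1
  have hs0 : 0 < Real.sqrt R := Real.sqrt_pos.2 hR0
  have hs2 : 2 ≤ Real.sqrt R := by
    rw [show (2 : ℝ) = Real.sqrt 4 by rw [show (4 : ℝ) = 2 ^ 2 by norm_num, Real.sqrt_sq (by norm_num)]]
    exact Real.sqrt_le_sqrt hR
  -- size of `1 - r`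
  have hsz : ∀ r ∈ Ioo r₁ r₂, 1 - r ≤ 1 / Real.sqrt R := by
    intro r hr
    have hr0 : 0 ≤ r := h10.trans hr.1.le
    have hr1 : r < 1 := hr.2.trans h21
    have hg := growthAll f hf _ (mem_b θ r hr0 hr1)
    rw [norm_re θ r hr0] at hg
    have hpos : 0 < (1 - r) ^ 2 := by
      have : 0 < 1 - r := by linarith
      positivity
    have h3 : R * (1 - r) ^ 2 ≤ 1 := by
      have h4 : R ≤ r / (1 - r) ^ 2 := (hin r hr).1.le.trans hg
      rw [le_div_iff₀ hpos] at h4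
      linarith
    rw [le_div_iff₀ hs0]
    have h5 : ((1 - r) * Real.sqrt R) ^ 2 ≤ 1 := by
      rw [mul_pow, Real.sq_sqrt hR0.le]
      linarith
    have h6 : 0 ≤ (1 - r) * Real.sqrt R := mul_nonneg (by linarith) hs0.le
    nlinarith
  have hhalf : ∀ r ∈ Ioo r₁ r₂, 1 / 2 ≤ r := by
    intro r hr
    have := hsz r hr
    have h3 : 1 / Real.sqrt R ≤ 1 / 2 := one_div_le_one_div_of_le (by norm_num) hs2
    linarith
  have hL : r₂ - r₁ ≤ 1 / Real.sqrt R := by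
    by_contra hcon
    have hcon' : 1 / Real.sqrt R < r₂ - r₁ := not_le.1 hcon
    have hpos : 0 < 1 / Real.sqrt R := by positivity
    have hm : (r₁ + (r₂ - 1 / Real.sqrt R)) / 2 ∈ Ioo r₁ r₂ := ⟨by linarith, by linarith⟩
    have := hsz _ hm
    linarith
  have hL0 : 0 < r₂ - r₁ := by linarith
  -- the integrals
  set φ : ℝ → ℝ := fun r => ‖deriv f ((r : ℂ) * exp ((θ : ℂ) * I))‖ with hφ
  have hφc : ContinuousOn φ (Icc r₁ r₂) := (derivCont f hf θ r₁ r₂ h10 h21).norm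
  have hφi : IntervalIntegrable φ volume r₁ r₂ := by
    apply ContinuousOn.intervalIntegrable
    rwa [uIcc_of_le h12.le]
  have hφ2c : ContinuousOn (fun r => φ r ^ 2) (Icc r₁ r₂) := hφc.pow 2
  have hφ2i : IntervalIntegrable (fun r => φ r ^ 2) volume r₁ r₂ := by
    apply ContinuousOn.intervalIntegrable
    rwa [uIcc_of_le h12.le]
  have hrφc : ContinuousOn (fun r => r * φ r ^ 2) (Icc r₁ r₂) := continuousOn_id.mul hφ2c
  have hrφi : IntervalIntegrable (fun r => r * φ r ^ 2) volume r₁ r₂ := by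
    apply ContinuousOn.intervalIntegrable
    rwa [uIcc_of_le h12.le]
  have hI1 : R ≤ ∫ r in r₁..r₂, φ r := by
    have hFTC : ∫ r in r₁..r₂, deriv f ((r : ℂ) * exp ((θ : ℂ) * I)) * exp ((θ : ℂ) * I) =
        f ((r₂ : ℂ) * exp ((θ : ℂ) * I)) - f ((r₁ : ℂ) * exp ((θ : ℂ) * I)) := by
      apply intervalIntegral.integral_eq_sub_of_hasDerivAt
      · intro r hr
        rw [uIcc_of_le h12.le] at hr
        exact hasDeriv f hf θ r (h10.trans hr.1) (lt_of_le_of_lt hr.2 h21)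
      · apply ContinuousOn.intervalIntegrable
        rw [uIcc_of_le h12.le]
        exact (derivCont f hf θ r₁ r₂ h10 h21).mul continuousOn_const
    have h1 : R ≤ ‖f ((r₂ : ℂ) * exp ((θ : ℂ) * I)) - f ((r₁ : ℂ) * exp ((θ : ℂ) * I))‖ := by
      have := norm_sub_norm_le (f ((r₂ : ℂ) * exp ((θ : ℂ) * I))) (f ((r₁ : ℂ) * exp ((θ : ℂ) * I)))
      linarith
    rw [← hFTC] at h1
    refine h1.trans ((intervalIntegral.norm_integral_le_integral_norm h12.le).trans (le_of_eq ?_))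
    apply intervalIntegral.integral_congr
    intro r _
    show ‖deriv f ((r : ℂ) * exp ((θ : ℂ) * I)) * exp ((θ : ℂ) * I)‖ = φ r
    rw [norm_mul, norm_e, mul_one]
  have hI2 : R ^ 2 ≤ (r₂ - r₁) * ∫ r in r₁..r₂, φ r ^ 2 := by
    set c : ℝ := R / (r₂ - r₁) with hc
    have hc0 : 0 < c := div_pos hR0 hL0
    have h1 : ∫ r in r₁..r₂, (2 * c * φ r - c ^ 2) ≤ ∫ r in r₁..r₂, φ r ^ 2 := by
      apply intervalIntegral.integral_mono_on h12.le
      · exact (hφi.const_mul (2 * c)).sub intervalIntegrable_const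
      · exact hφ2i
      · intro r _
        nlinarith [sq_nonneg (φ r - c)]
    rw [intervalIntegral.integral_sub (hφi.const_mul (2 * c)) intervalIntegrable_const,
      intervalIntegral.integral_const_mul, intervalIntegral.integral_const, smul_eq_mul] at h1
    have h2 : 2 * c * R - (r₂ - r₁) * c ^ 2 ≤ ∫ r in r₁..r₂, φ r ^ 2 := by
      have : 2 * c * R ≤ 2 * c * ∫ r in r₁..r₂, φ r :=
        mul_le_mul_of_nonneg_left hI1 (by positivity)
      linarith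
    have h3 : (r₂ - r₁) * (2 * c * R - (r₂ - r₁) * c ^ 2) ≤ (r₂ - r₁) * ∫ r in r₁..r₂, φ r ^ 2 :=
      mul_le_mul_of_nonneg_left h2 hL0.le
    have h4 : (r₂ - r₁) * c = R := by
      rw [hc]
      field_simp
    have h5 : (r₂ - r₁) * (2 * c * R - (r₂ - r₁) * c ^ 2) = R ^ 2 := by
      calc (r₂ - r₁) * (2 * c * R - (r₂ - r₁) * c ^ 2)
          = 2 * ((r₂ - r₁) * c) * R - ((r₂ - r₁) * c) ^ 2 := by ring
        _ = R ^ 2 := by rw [h4]; ring
    linarith
  have hI3 : ∫ r in r₁..r₂, φ r ^ 2 ≤ 2 * ∫ r in r₁..r₂, r * φ r ^ 2 := by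
    rw [← intervalIntegral.integral_const_mul]
    apply intervalIntegral.integral_mono_on_of_le_Ioo h12.le hφ2i (hrφi.const_mul 2)
    intro r hr
    have h1 := hhalf r hr
    have h2 : 0 ≤ φ r ^ 2 := sq_nonneg _
    nlinarith
  have hI4 : R ^ 2 ≤ 2 / Real.sqrt R * ∫ r in r₁..r₂, r * φ r ^ 2 := by
    have h0 : 0 ≤ ∫ r in r₁..r₂, φ r ^ 2 :=
      intervalIntegral.integral_nonneg h12.le (fun r _ => sq_nonneg _)
    calc R ^ 2 ≤ (r₂ - r₁) * ∫ r in r₁..r₂, φ r ^ 2 := hI2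
      _ ≤ 1 / Real.sqrt R * ∫ r in r₁..r₂, φ r ^ 2 := mul_le_mul_of_nonneg_right hL h0
      _ ≤ 1 / Real.sqrt R * (2 * ∫ r in r₁..r₂, r * φ r ^ 2) :=
        mul_le_mul_of_nonneg_left hI3 (by positivity)
      _ = 2 / Real.sqrt R * ∫ r in r₁..r₂, r * φ r ^ 2 := by ring
  refine (ENNReal.ofReal_le_ofReal hI4).trans ?_
  rw [ENNReal.ofReal_mul (by positivity)]
  refine mul_le_mul_right ?_ _
  rw [intervalIntegral.integral_of_le h12.le, integral_Ioc_eq_integral_Ioo]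
  rw [ofReal_integral_eq_lintegral_ofReal]
  · apply lintegral_mono_set
    intro r hr
    have h1 := hin r hr
    exact ⟨lt_of_le_of_lt h10 hr.1, hr.2.trans h21, h1.1.le, h1.2.le⟩
  · exact ((intervalIntegrable_iff_integrableOn_Ioo_of_le h12.le).1 hrφi)
  · refine (ae_restrict_iff' measurableSet_Ioo).2 (Filter.Eventually.of_forall ?_)
    intro r hr
    exact mul_nonneg (h10.trans hr.1.le) (sq_nonneg _)

end Pool.Agent.MultS

end

section

/-!
# MP_b17785_an, Lip, item E3: the extremal problem has a solution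
-/

set_option autoImplicit false

open Complex Metric Set Filter Topology MeasureTheory
open scoped ENNReal ComplexConjugate

namespace Pool.Agent.MultS

namespace LipMaxX

theorem sc_id : Sc (fun z => z) := by
  refine ⟨differentiableOn_id, fun a _ b _ h => h, rfl, ?_⟩
  simp

end LipMaxX

open LipMaxX in
theorem prfLipMax : LipMax := by
  intro hK p hp
  set K : Set (ℕ → ℂ) := {c : ℕ → ℂ | ∃ f : ℂ → ℂ, Sc f ∧ ∀ n : ℕ, c n = tc f n} with hKdef
  have hb : ∀ c ∈ K, ∀ n : ℕ, ‖c n‖ ≤ 3 * n := by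
    rintro c ⟨f, hf, hc⟩ n
    rw [hc n]
    exact LipCompX.litt0 hf n
  have h1 : ContinuousOn (fun c : ℕ → ℂ => ∑' n : ℕ, p n * c n) K := by
    refine continuousOn_tsum (u := fun n : ℕ => 3 * ((n : ℝ) * ‖p n‖))
      (fun n => (continuous_const.mul (continuous_apply n)).continuousOn) (hp.mul_left 3) ?_
    intro n c hc
    rw [norm_mul]
    calc ‖p n‖ * ‖c n‖ ≤ ‖p n‖ * (3 * n) := mul_le_mul_of_nonneg_left (hb c hc n) (norm_nonneg _)
      _ = 3 * ((n : ℝ) * ‖p n‖) := by ring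
  have h2 : ContinuousOn (fun c : ℕ → ℂ => ∑' n : ℕ, ‖c n‖ ^ 2 * (1 / 16 : ℝ) ^ n) K := by
    have hs : Summable (fun n : ℕ => 9 * ((n : ℝ) ^ 2 * (1 / 16 : ℝ) ^ n)) :=
      (summable_pow_mul_geometric_of_norm_lt_one 2 (r := (1 / 16 : ℝ)) (by
        rw [Real.norm_eq_abs, abs_of_pos] <;> norm_num)).mul_left 9
    refine continuousOn_tsum (u := fun n : ℕ => 9 * ((n : ℝ) ^ 2 * (1 / 16 : ℝ) ^ n))
      (fun n => (((continuous_apply n).norm.pow 2).mul continuous_const).continuousOn) hs ?_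
    intro n c hc
    have h3 : (0 : ℝ) ≤ (1 / 16 : ℝ) ^ n := by positivity
    rw [Real.norm_eq_abs, abs_of_nonneg (by positivity)]
    have h4 : ‖c n‖ ^ 2 ≤ (3 * n) ^ 2 := pow_le_pow_left₀ (norm_nonneg _) (hb c hc n) 2
    calc ‖c n‖ ^ 2 * (1 / 16 : ℝ) ^ n ≤ (3 * n) ^ 2 * (1 / 16 : ℝ) ^ n :=
          mul_le_mul_of_nonneg_right h4 h3
      _ = 9 * ((n : ℝ) ^ 2 * (1 / 16 : ℝ) ^ n) := by ring
  have hne : K.Nonempty := ⟨fun n => tc (fun z => z) n, fun z => z, sc_id, fun n => rfl⟩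
  obtain ⟨c, hc, hmax⟩ := hK.exists_isMaxOn hne ((h1.norm.pow 2).add h2)
  obtain ⟨f, hf, hcf⟩ := hc
  refine ⟨f, hf, fun g hg => ?_⟩
  have hcf' : c = fun n => tc f n := funext hcf
  have h5 := hmax (show (fun n => tc g n) ∈ K from ⟨g, hg, fun n => rfl⟩)
  rw [hcf'] at h5
  exact h5

end Pool.Agent.MultS

end

section

/-!
# [E4] The solution of the extremal problem is not a proper convex combination
-/

set_option autoImplicit false

open Complex Metric Set Filter Topology MeasureTheory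

namespace Pool.Agent.MultS

namespace LipMidX

lemma conv_id (t : ℝ) (b c : ℂ) :
    ‖(t : ℂ) * b + (1 - t) * c‖ ^ 2 =
      t * ‖b‖ ^ 2 + (1 - t) * ‖c‖ ^ 2 - t * (1 - t) * ‖b - c‖ ^ 2 := by
  rw [Complex.sq_norm, Complex.sq_norm, Complex.sq_norm, Complex.sq_norm]
  simp only [Complex.normSq_apply, Complex.add_re, Complex.add_im, Complex.mul_re, Complex.mul_im,
    Complex.sub_re, Complex.sub_im, Complex.ofReal_re, Complex.ofReal_im, Complex.one_re,
    Complex.one_im]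
  ring

lemma tc_le {g : ℂ → ℂ} (hg : Sc g) (n : ℕ) : ‖tc g n‖ ≤ 3 * n := by
  rcases Nat.eq_zero_or_pos n with h | h
  · subst h
    rw [tc_zero, hg.2.2.1]
    simp
  · exact littAll g hg n h

lemma summable_p {p : ℕ → ℂ} (hp : Summable (fun n : ℕ => (n : ℝ) * ‖p n‖)) {g : ℂ → ℂ}
    (hg : Sc g) : Summable (fun n : ℕ => p n * tc g n) := by
  apply Summable.of_norm_bounded (hp.mul_left 3)
  intro n
  rw [norm_mul]
  have h1 := tc_le hg n
  have h2 := mul_le_mul_of_nonneg_left h1 (norm_nonneg (p n))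
  linarith

lemma summable_q {g : ℂ → ℂ} (hg : Sc g) :
    Summable (fun n : ℕ => ‖tc g n‖ ^ 2 * (1 / 16 : ℝ) ^ n) := by
  have h0 : Summable (fun n : ℕ => (n : ℝ) ^ 2 * (1 / 16 : ℝ) ^ n) :=
    summable_pow_mul_geometric_of_norm_lt_one 2 (by rw [Real.norm_eq_abs]; norm_num)
  apply Summable.of_nonneg_of_le (fun n => by positivity) _ (h0.mul_left 9)
  intro n
  have h1 := tc_le hg n
  have h2 : ‖tc g n‖ ^ 2 ≤ (3 * n) ^ 2 := pow_le_pow_left₀ (norm_nonneg _) h1 2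
  have h3 := mul_le_mul_of_nonneg_right h2 (show (0 : ℝ) ≤ (1 / 16 : ℝ) ^ n by positivity)
  linarith

end LipMidX

open LipMidX in
theorem prfLipMid : LipMid := by
  intro p hp f hf hmax f₁ f₂ t hf₁ hf₂ ht0 ht1 heq
  -- coefficients
  have hc : ∀ n, tc f n = t * tc f₁ n + (1 - t) * tc f₂ n := by
    intro n
    apply tc_of_hasSum
    intro z hz
    rw [heq z hz]
    have h1 := (hasSum_tc hf₁.1 hz).mul_left (t : ℂ)
    have h2 := (hasSum_tc hf₂.1 hz).mul_left (1 - (t : ℂ))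
    have h3 := h1.add h2
    convert! h3 using 2 with n
    ring
  have e1 : ∀ n, ‖tc f n‖ ^ 2 * (1 / 16 : ℝ) ^ n = t * (‖tc f₁ n‖ ^ 2 * (1 / 16 : ℝ) ^ n) +
      (1 - t) * (‖tc f₂ n‖ ^ 2 * (1 / 16 : ℝ) ^ n) -
      t * (1 - t) * (‖tc f₁ n - tc f₂ n‖ ^ 2 * (1 / 16 : ℝ) ^ n) := by
    intro n
    rw [hc n, conv_id]
    ring
  have htt : 0 < t * (1 - t) := mul_pos ht0 (by linarith)
  have hD : Summable (fun n : ℕ => ‖tc f₁ n - tc f₂ n‖ ^ 2 * (1 / 16 : ℝ) ^ n) := by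
    have h1 := (((summable_q hf₁).mul_left t).add ((summable_q hf₂).mul_left (1 - t))).sub
      (summable_q hf)
    have h2 := h1.mul_left (t * (1 - t))⁻¹
    refine h2.congr (fun n => ?_)
    have h3 : t * (‖tc f₁ n‖ ^ 2 * (1 / 16 : ℝ) ^ n) +
        (1 - t) * (‖tc f₂ n‖ ^ 2 * (1 / 16 : ℝ) ^ n) - ‖tc f n‖ ^ 2 * (1 / 16 : ℝ) ^ n =
        t * (1 - t) * (‖tc f₁ n - tc f₂ n‖ ^ 2 * (1 / 16 : ℝ) ^ n) := by
      rw [e1 n]
      ring
    rw [h3, inv_mul_cancel_left₀ htt.ne']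
  set D : ℝ := ∑' n : ℕ, ‖tc f₁ n - tc f₂ n‖ ^ 2 * (1 / 16 : ℝ) ^ n with hDdef
  have s1 : ∑' n : ℕ, ‖tc f n‖ ^ 2 * (1 / 16 : ℝ) ^ n =
      t * (∑' n : ℕ, ‖tc f₁ n‖ ^ 2 * (1 / 16 : ℝ) ^ n) +
      (1 - t) * (∑' n : ℕ, ‖tc f₂ n‖ ^ 2 * (1 / 16 : ℝ) ^ n) - t * (1 - t) * D := by
    rw [tsum_congr e1]
    have h1 := ((summable_q hf₁).hasSum.mul_left t).add ((summable_q hf₂).hasSum.mul_left (1 - t))
    have h2 := h1.sub (hD.hasSum.mul_left (t * (1 - t)))
    exact h2.tsum_eq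
  have s2 : ∑' n : ℕ, p n * tc f n =
      (t : ℂ) * (∑' n : ℕ, p n * tc f₁ n) + (1 - t) * (∑' n : ℕ, p n * tc f₂ n) := by
    have h1 := ((summable_p hp hf₁).hasSum.mul_left (t : ℂ)).add
      ((summable_p hp hf₂).hasSum.mul_left (1 - (t : ℂ)))
    rw [← h1.tsum_eq]
    apply tsum_congr
    intro n
    rw [hc n]
    ring
  have s3 := conv_id t (∑' n : ℕ, p n * tc f₁ n) (∑' n : ℕ, p n * tc f₂ n)
  rw [← s2] at s3
  have m1 := hmax f₁ hf₁
  have m2 := hmax f₂ hf₂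
  have hDle : t * (1 - t) * D ≤ 0 := by
    unfold LPhi at m1 m2
    have q1 := mul_le_mul_of_nonneg_left m1 ht0.le
    have q2 := mul_le_mul_of_nonneg_left m2 (show 0 ≤ 1 - t by linarith)
    have q3 : 0 ≤ t * (1 - t) *
        ‖(∑' n : ℕ, p n * tc f₁ n) - ∑' n : ℕ, p n * tc f₂ n‖ ^ 2 := by positivity
    rw [s3, s1] at q1 q2
    linarith
  have hD0 : D ≤ 0 := by
    by_contra hcon
    push Not at hcon
    have := mul_pos htt hcon
    linarith
  have hbc : ∀ n, tc f₁ n = tc f₂ n := by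
    intro n
    have h1 : ‖tc f₁ n - tc f₂ n‖ ^ 2 * (1 / 16 : ℝ) ^ n ≤ D :=
      hD.le_tsum n (fun j _ => by positivity)
    have h2 : ‖tc f₁ n - tc f₂ n‖ ^ 2 * (1 / 16 : ℝ) ^ n = 0 :=
      le_antisymm (h1.trans hD0) (by positivity)
    have h3 : ‖tc f₁ n - tc f₂ n‖ ^ 2 = 0 := by
      rcases mul_eq_zero.1 h2 with h | h
      · exact h
      · exact absurd h (by positivity)
    rw [sq_eq_zero_iff, norm_eq_zero, sub_eq_zero] at h3
    exact h3
  intro z hz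
  have h1 := hasSum_tc hf₁.1 hz
  have h2 := hasSum_tc hf₂.1 hz
  simp only [hbc] at h1
  exact h1.unique h2

end Pool.Agent.MultS

end
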