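import Pool.Agent.Work.MP_b17785_an.Lip.Stmts
import Pool.Agent.Work.MP_b17785_an.All
import Pool.Agent.Work.MP_b17785_an.Lip.StmtsU
import Pool.Agent.Work.MP_b17785_an.Bd.B02
import Pool.Agent.Work.MP_b17785_an.Bd.B01
import Pool.Agent.Work.MP_b17785_an.Bd.B04
import Pool.Agent.Work.MP_b17785_an.LB.Stmts2
import Pool.Agent.Work.MP_b17785_an.Bd.B07

/-! Bundle of small proof modules (one section per former module). -/

section

set_option autoImplicit false

open Complex Metric Set Filter Topology MeasureTheory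

namespace Pool.Agent.MultS.Lip

namespace G4'

theorem deriv_bound (hL : Litt) (hS : Ser) {f : ℂ → ℂ} (hf : Sc f) {ζ : ℂ}
    (hζ : ζ ∈ ball (0 : ℂ) 1) : ‖deriv f ζ‖ ≤ 6 / (1 - ‖ζ‖) ^ 3 := by
  have hr : ‖ζ‖ < 1 := mem_ball_zero_iff.1 hζ
  obtain ⟨-, h1, -⟩ := hS f hf.1 ζ hζ
  have h2 : HasSum (fun n : ℕ => ((n + 2).choose 2 : ℝ) * ‖ζ‖ ^ n) (1 / (1 - ‖ζ‖) ^ 3) := by
    have := hasSum_choose_mul_geometric_of_norm_lt_one' (R := ℝ) 2 (r := ‖ζ‖)
      (by rwa [norm_norm])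
    rw [Ring.inverse_eq_inv'] at this
    rw [one_div, ← inv_pow]
    exact this
  have h3 := h2.mul_left 6
  have h4 : ‖deriv f ζ‖ ≤ 6 * (1 / (1 - ‖ζ‖) ^ 3) := by
    refine h1.norm_le_of_bounded h3 (fun k => ?_)
    have h5 := hL f hf (k + 1) (by omega)
    rw [norm_mul, norm_mul, norm_pow]
    have h6 : ‖((k : ℂ) + 1)‖ = (k : ℝ) + 1 := by
      have : ((k : ℂ) + 1) = (((k : ℝ) + 1 : ℝ) : ℂ) := by push_cast; ring
      rw [this, Complex.norm_real, Real.norm_eq_abs, abs_of_nonneg (by positivity)]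
    rw [h6, Nat.cast_choose_two]
    push_cast at h5 ⊢
    have h7 : 0 ≤ ‖ζ‖ ^ k := by positivity
    have h8 : ((k : ℝ) + 1) * ‖tc f (k + 1)‖ ≤ 6 * (((k : ℝ) + 2) * ((k : ℝ) + 2 - 1) / 2) := by
      have : ((k : ℝ) + 1) * ‖tc f (k + 1)‖ ≤ ((k : ℝ) + 1) * (3 * ((k : ℝ) + 1)) := by gcongr
      nlinarith [Nat.cast_nonneg (α := ℝ) k]
    calc ((k : ℝ) + 1) * ‖tc f (k + 1)‖ * ‖ζ‖ ^ k
        ≤ 6 * (((k : ℝ) + 2) * ((k : ℝ) + 2 - 1) / 2) * ‖ζ‖ ^ k := by gcongr
      _ = 6 * (((k : ℝ) + 2) * ((k : ℝ) + 2 - 1) / 2 * ‖ζ‖ ^ k) := by ring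
  rwa [mul_one_div] at h4

theorem isOpen_Hp : IsOpen Hp := isOpen_lt continuous_const Complex.continuous_re

theorem koebe (hL : Litt) (hS : Ser) (hK : KTr) (hC : Cay) {h : ℂ → ℂ}
    (hd : DifferentiableOn ℂ h Hp) (hi : InjOn h Hp) {q : ℝ} (hq : 0 < q) {w : ℂ} (hw : w ∈ Hp) :
    ‖deriv h (q * w)‖ ≤ ‖deriv h (q : ℂ)‖ * (3 * ‖w + 1‖ ^ 4 / w.re ^ 3) := by
  obtain ⟨hne, hf⟩ := hK h hd hi q hq
  obtain ⟨hζ, hψ, h1ζ, hnζ, hw1⟩ := hC.2.1 w hw
  have hwre : 0 < w.re := hw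
  have hq0 : (q : ℂ) ≠ 0 := by exact_mod_cast hq.ne'
  have hqw : (q : ℂ) * w ∈ Hp := by
    show 0 < ((q : ℂ) * w).re
    rw [Complex.re_ofReal_mul]
    exact mul_pos hq hwre
  have hw10 : w + 1 ≠ 0 := by
    intro h0
    rw [h0, norm_zero] at hw1
    linarith
  have hpsi := hC.2.2.2.2.1 (phi w) hζ
  have hh : HasDerivAt h (deriv h (q * w)) (q * psi (phi w)) := by
    rw [hψ]
    exact ((hd _ hqw).differentiableAt (isOpen_Hp.mem_nhds hqw)).hasDerivAt
  have hcomp : HasDerivAt (fun ζ => (h ((q : ℂ) * psi ζ) - h (q : ℂ)) / (2 * (q : ℂ) * deriv h (q : ℂ)))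
      (deriv h (q * w) * (q * (2 / (1 - phi w) ^ 2)) / (2 * (q : ℂ) * deriv h (q : ℂ))) (phi w) :=
    ((hh.comp (phi w) (hpsi.const_mul (q : ℂ))).sub_const _).div_const _
  have hb := deriv_bound hL hS hf hζ
  rw [hcomp.deriv, h1ζ] at hb
  have e1 : deriv h (q * w) * (q * (2 / (2 / (w + 1)) ^ 2)) / (2 * (q : ℂ) * deriv h (q : ℂ)) =
      deriv h (q * w) * (w + 1) ^ 2 / (4 * deriv h (q : ℂ)) := by
    field_simp
    norm_num
  rw [e1, norm_div, norm_mul, norm_mul, norm_pow] at hb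
  have hD : 0 < ‖deriv h (q : ℂ)‖ := norm_pos_iff.2 hne
  have e4 : ‖(4 : ℂ)‖ = 4 := by simp
  rw [e4] at hb
  set r := ‖phi w‖ with hr
  have hr1 : r < 1 := mem_ball_zero_iff.1 hζ
  have hr0 : 0 ≤ r := norm_nonneg _
  set W := ‖w + 1‖ with hW
  have hWp : 0 < W := by linarith
  have h5 : 2 * w.re / W ^ 2 ≤ 1 - r := by
    have : 1 - r ^ 2 ≤ 2 * (1 - r) := by nlinarith
    have h6 : 4 * w.re / W ^ 2 = 2 * (2 * w.re / W ^ 2) := by ring
    linarith
  have h6 : 0 < 2 * w.re / W ^ 2 := by positivity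
  have h7 : 6 / (1 - r) ^ 3 ≤ 6 / (2 * w.re / W ^ 2) ^ 3 := by gcongr
  have h8 : ‖deriv h (q * w)‖ * W ^ 2 / (4 * ‖deriv h (q : ℂ)‖) ≤ 6 / (2 * w.re / W ^ 2) ^ 3 :=
    hb.trans h7
  rw [div_le_iff₀ (by positivity)] at h8
  have h9 : ‖deriv h (q * w)‖ ≤
      (6 / (2 * w.re / W ^ 2) ^ 3 * (4 * ‖deriv h (q : ℂ)‖)) / W ^ 2 := by
    rw [le_div_iff₀ (by positivity)]
    exact h8
  refine h9.trans (le_of_eq ?_)
  field_simp
  norm_num

theorem first (hL : Litt) (hS : Ser) (hK : KTr) (hC : Cay) {h : ℂ → ℂ}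
    (hd : DifferentiableOn ℂ h Hp) (hi : InjOn h Hp) {q : ℝ} (hq : 0 < q) {p : ℂ}
    (hp : q / 4 ≤ p.re) :
    ‖deriv h p‖ ≤ 3072 * ‖deriv h (q : ℂ)‖ * (1 + ‖p - q‖ / q) ^ 4 := by
  have hq0 : (q : ℂ) ≠ 0 := by exact_mod_cast hq.ne'
  set w := p / q with hw
  have hpw : (q : ℂ) * w = p := by rw [hw]; field_simp
  have hwre : 1 / 4 ≤ w.re := by
    rw [hw, Complex.div_ofReal_re, le_div_iff₀ hq]
    linarith
  have hwH : w ∈ Hp := by
    show 0 < w.re
    linarith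
  have h1 := koebe hL hS hK hC hd hi hq hwH
  rw [hpw] at h1
  have h2 : ‖p - q‖ / q = ‖w - 1‖ := by
    have : w - 1 = (p - q) / q := by rw [hw]; field_simp
    rw [this, norm_div, Complex.norm_real, Real.norm_eq_abs, abs_of_pos hq]
  rw [h2]
  have h3 : ‖w + 1‖ ≤ 2 * (1 + ‖w - 1‖) := by
    have : w + 1 = (w - 1) + 2 := by ring
    rw [this]
    have h4 := norm_add_le (w - 1) 2
    have h5 : ‖(2 : ℂ)‖ = 2 := by simp
    have h6 := norm_nonneg (w - 1)
    linarith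
  have h4 : 3 * ‖w + 1‖ ^ 4 / w.re ^ 3 ≤ 3 * (2 * (1 + ‖w - 1‖)) ^ 4 / (1 / 4) ^ 3 := by gcongr
  calc ‖deriv h p‖ ≤ ‖deriv h (q : ℂ)‖ * (3 * ‖w + 1‖ ^ 4 / w.re ^ 3) := h1
    _ ≤ ‖deriv h (q : ℂ)‖ * (3 * (2 * (1 + ‖w - 1‖)) ^ 4 / (1 / 4) ^ 3) := by gcongr
    _ = 3072 * ‖deriv h (q : ℂ)‖ * (1 + ‖w - 1‖) ^ 4 := by ring

end G4'

theorem prfG4 (hK : KTr) (hC : Cay) : G4 := by
  refine ⟨122880, by norm_num, ?_⟩
  intro h hd hi q hq
  have hD : 0 ≤ ‖deriv h (q : ℂ)‖ := norm_nonneg _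
  constructor
  · intro p hp
    have h1 := G4'.first littAll prfSer hK hC hd hi hq hp
    have h2 : 0 ≤ ‖deriv h (q : ℂ)‖ * (1 + ‖p - q‖ / q) ^ 4 := by positivity
    nlinarith
  · intro p hp
    have hball : closedBall p (q / 4) ⊆ Hp := by
      intro z hz
      rw [mem_closedBall, dist_eq_norm] at hz
      have e1 := (abs_le.1 ((Complex.abs_re_le_norm _).trans hz)).1
      have e2 := (abs_le.1 ((Complex.abs_re_le_norm _).trans hp)).1
      rw [Complex.sub_re] at e1 e2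
      rw [Complex.ofReal_re] at e2
      show 0 < z.re
      linarith
    have hdd : DifferentiableOn ℂ (deriv h) Hp := hd.deriv G4'.isOpen_Hp
    have h1 : ∀ z ∈ sphere p (q / 4), ‖deriv h z‖ ≤ 30720 * ‖deriv h (q : ℂ)‖ := by
      intro z hz
      rw [mem_sphere, dist_eq_norm] at hz
      have e1 := (abs_le.1 ((Complex.abs_re_le_norm _).trans hz.le)).1
      have e2 := (abs_le.1 ((Complex.abs_re_le_norm _).trans hp)).1
      rw [Complex.sub_re] at e1 e2
      rw [Complex.ofReal_re] at e2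
      have h2 := G4'.first littAll prfSer hK hC hd hi hq (p := z) (by linarith)
      have h3 : ‖z - q‖ ≤ 3 * q / 4 := by
        have : z - q = (z - p) + (p - q) := by ring
        rw [this]
        have := norm_add_le (z - p) (p - q)
        linarith
      have h4 : ‖z - q‖ / q ≤ 3 / 4 := by
        rw [div_le_iff₀ hq]
        linarith
      have h5 : (1 + ‖z - q‖ / q) ^ 4 ≤ (1 + 3 / 4) ^ 4 := by gcongr
      have h6 : (1 + 3 / 4 : ℝ) ^ 4 ≤ 10 := by norm_num
      calc ‖deriv h z‖ ≤ 3072 * ‖deriv h (q : ℂ)‖ * (1 + ‖z - q‖ / q) ^ 4 := h2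
        _ ≤ 3072 * ‖deriv h (q : ℂ)‖ * 10 := by gcongr; exact h5.trans h6
        _ = 30720 * ‖deriv h (q : ℂ)‖ := by ring
    have h2 := Complex.norm_deriv_le_of_forall_mem_sphere_norm_le (by linarith : 0 < q / 4)
      (hdd.diffContOnCl_ball hball) h1
    refine h2.trans (le_of_eq ?_)
    field_simp
    ring

end Pool.Agent.MultS.Lip

end

section

/-!
# The Lipschitz dichotomy: the pack with a constant that depends only on `C`
-/

set_option autoImplicit false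

open Complex Metric Set Filter Topology MeasureTheory

namespace Pool.Agent.MultS.Lip

namespace PackU'

theorem sc_id : Sc (fun z => z) :=
  ⟨differentiableOn_id, fun _ _ _ _ h => h, rfl, by simp⟩

theorem one {lam : ℕ → ℂ} (hm : IsMult lam) : lam 1 = 1 := by
  obtain ⟨g, hg, hc⟩ := hm _ sc_id
  have := hc 1 le_rfl
  rw [tc_one, tc_one, hg.2.2.2] at this
  simpa using this.symm

theorem sumsq (N : ℕ) :
    ∑ n ∈ Finset.range (N + 1), 1 / ((n : ℝ) + 1) ^ 2 ≤ 2 - 1 / ((N : ℝ) + 1) := by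
  induction N with
  | zero => norm_num
  | succ N ih =>
    rw [Finset.sum_range_succ]
    have h : 1 / (((N + 1 : ℕ) : ℝ) + 1) ^ 2 ≤ 1 / ((N : ℝ) + 1) - 1 / (((N + 1 : ℕ) : ℝ) + 1) := by
      push_cast
      have h1 : (0 : ℝ) < (N : ℝ) + 1 := by positivity
      have h2 : (0 : ℝ) < (N : ℝ) + 1 + 1 := by positivity
      rw [div_sub_div _ _ h1.ne' h2.ne', div_le_div_iff₀ (by positivity) (by positivity)]
      nlinarith
    linarith

theorem sumsq' (N : ℕ) : ∑ n ∈ Finset.range N, 1 / ((n : ℝ) + 1) ^ 2 ≤ 2 := by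
  rcases N with _ | N
  · simp
  · have h := sumsq N
    have h2 : (0 : ℝ) ≤ 1 / ((N : ℝ) + 1) := by positivity
    linarith

theorem partials (hP : ParsQ) {lam : ℕ → ℂ} {C : ℝ}
    (h : ∀ z ∈ ball (0 : ℂ) 1, Summable (fun n : ℕ => (n : ℂ) ^ 2 * lam n * z ^ n) ∧
      ‖∑' n : ℕ, (n : ℂ) ^ 2 * lam n * z ^ n‖ ≤ C) (N : ℕ) :
    ∑ n ∈ Finset.range N, ((n : ℝ) + 1) * ‖lam (n + 1)‖ ≤ C ^ 2 / 2 + 1 := by
  have h1 := hP (fun n => (n : ℂ) ^ 2 * lam n) C h (N + 1)
  rw [Finset.sum_range_succ'] at h1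
  have h2 : ∑ n ∈ Finset.range N, ((n : ℝ) + 1) * ‖lam (n + 1)‖ ≤
      ∑ n ∈ Finset.range N, (‖((n + 1 : ℕ) : ℂ) ^ 2 * lam (n + 1)‖ ^ 2 / 2 +
        (1 / ((n : ℝ) + 1) ^ 2) / 2) := by
    refine Finset.sum_le_sum (fun n _ => ?_)
    have e : ‖((n + 1 : ℕ) : ℂ) ^ 2 * lam (n + 1)‖ = ((n : ℝ) + 1) ^ 2 * ‖lam (n + 1)‖ := by
      rw [norm_mul, norm_pow, Complex.norm_natCast]
      push_cast
      ring
    rw [e]
    have hp : (0 : ℝ) < (n : ℝ) + 1 := by positivity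
    have h3 : 0 ≤ (((n : ℝ) + 1) ^ 2 * ‖lam (n + 1)‖ - 1 / ((n : ℝ) + 1)) ^ 2 := sq_nonneg _
    have e2 : (((n : ℝ) + 1) ^ 2 * ‖lam (n + 1)‖ - 1 / ((n : ℝ) + 1)) ^ 2 =
        (((n : ℝ) + 1) ^ 2 * ‖lam (n + 1)‖) ^ 2 + 1 / ((n : ℝ) + 1) ^ 2 -
          2 * (((n : ℝ) + 1) * ‖lam (n + 1)‖) := by
      field_simp
      ring
    rw [e2] at h3
    linarith
  rw [Finset.sum_add_distrib, ← Finset.sum_div, ← Finset.sum_div] at h2
  have h4 := sumsq' N
  have h5 : 0 ≤ ‖((0 : ℕ) : ℂ) ^ 2 * lam 0‖ ^ 2 := by positivity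
  have h6 : ∑ n ∈ Finset.range N, ‖((n + 1 : ℕ) : ℂ) ^ 2 * lam (n + 1)‖ ^ 2 ≤ C ^ 2 := by
    linarith
  linarith

theorem differentiableOn_of_hasSum {c : ℕ → ℂ} {G : ℂ → ℂ}
    (h : ∀ z ∈ ball (0 : ℂ) 1, HasSum (fun n => c n * z ^ n) (G z)) :
    DifferentiableOn ℂ G (ball 0 1) := by
  have h1 := (fps_of_hasSum h).differentiableOn
  rwa [← ENNReal.ofReal_one, Metric.eball_ofReal] at h1

theorem kb1 {lam : ℕ → ℂ} {C : ℝ}
    (h : ∀ z ∈ ball (0 : ℂ) 1, Summable (fun n : ℕ => (n : ℂ) ^ 2 * lam n * z ^ n) ∧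
      ‖∑' n : ℕ, (n : ℂ) ^ 2 * lam n * z ^ n‖ ≤ C) {u : ℂ} (hu : u ∈ ball (0 : ℂ) 1)
    (hu0 : u ≠ 0) :
    Summable (fun n : ℕ => ((n : ℂ) + 1) ^ 2 * lam (n + 1) * u ^ n) ∧
      ‖∑' n : ℕ, ((n : ℂ) + 1) ^ 2 * lam (n + 1) * u ^ n‖ ≤ C := by
  set g : ℂ → ℂ := fun z => ∑' n : ℕ, (n : ℂ) ^ 2 * lam n * z ^ n with hg
  have hs : ∀ z ∈ ball (0 : ℂ) 1, HasSum (fun n : ℕ => ((n : ℂ) ^ 2 * lam n) * z ^ n) (g z) :=
    fun z hz => (h z hz).1.hasSum
  have hd := differentiableOn_of_hasSum hs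
  have g0 : g 0 = 0 := by
    have h1 := (hs 0 (by simp)).unique (hasSum_single 0 (by
      intro n hn
      simp [hn]))
    rw [h1]
    simp
  have hmaps : MapsTo g (ball 0 1) (closedBall (g 0) C) := by
    intro z hz
    rw [g0, mem_closedBall_zero_iff]
    exact (h z hz).2
  have hsch := Complex.dist_le_div_mul_dist_of_mapsTo_ball hd hmaps hu
  rw [g0, dist_zero_right, dist_zero_right, div_one] at hsch
  have hu1 : 0 < ‖u‖ := norm_pos_iff.2 hu0
  have hsum : HasSum (fun n : ℕ => ((n : ℂ) + 1) ^ 2 * lam (n + 1) * u ^ n) (g u / u) := by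
    have h1 := hs u hu
    rw [← hasSum_nat_add_iff' 1] at h1
    have h2 := h1.div_const u
    have e : (g u - ∑ i ∈ Finset.range 1, ((i : ℂ) ^ 2 * lam i) * u ^ i) / u = g u / u := by
      simp
    rw [e] at h2
    convert! h2 using 2 with n
    push_cast
    rw [pow_succ u n, ← mul_assoc, mul_div_assoc, div_self hu0, mul_one]
  refine ⟨hsum.summable, ?_⟩
  rw [hsum.tsum_eq, norm_div, div_le_iff₀ hu1]
  exact hsch

theorem tc_affine {F : ℂ → ℂ} (hF : DifferentiableOn ℂ F (ball 0 1)) (c : ℂ) (n : ℕ)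
    (hn : 1 ≤ n) : tc (fun z => (F z - F 0) / c) n = tc F n / c := by
  refine tc_of_hasSum_succ (c := fun n => tc F n / c) (fun z hz => ?_) n hn
  have h1 := hasSum_tc hF hz
  rw [← hasSum_nat_add_iff' 1] at h1
  have h2 := h1.div_const c
  have e : (F z - ∑ i ∈ Finset.range 1, tc F i * z ^ i) / c = (F z - F 0) / c := by
    rw [Finset.sum_range_one, tc_zero, pow_zero, mul_one]
  rw [e] at h2
  have e2 : (fun n : ℕ => tc F (n + 1) / c * z ^ (n + 1)) =
      fun n : ℕ => tc F (n + 1) * z ^ (n + 1) / c := by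
    funext n
    exact div_mul_eq_mul_div _ _ _
  show HasSum (fun n : ℕ => tc F (n + 1) / c * z ^ (n + 1)) _
  rw [e2]
  exact h2

theorem ne {lam : ℕ → ℂ} (hm : IsMult lam) {F : ℂ → ℂ} (hF : DifferentiableOn ℂ F (ball 0 1))
    (hi : InjOn F (ball 0 1)) {z : ℂ} (hz : z ∈ ball (0 : ℂ) 1) : LL lam F z ≠ 0 := by
  have h0 : (0 : ℂ) ∈ ball (0 : ℂ) 1 := by simp
  have hd0 : deriv F 0 ≠ 0 := prfDerNe (ball 0 1) F isOpen_ball hF hi 0 h0
  set c := deriv F 0 with hc
  have hS : Sc (fun z => (F z - F 0) / c) := by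
    refine ⟨(hF.sub_const _).div_const _, ?_, by simp, ?_⟩
    · intro a ha b hb hab
      have hab' : (F a - F 0) / c = (F b - F 0) / c := hab
      rw [div_left_inj' hd0, sub_left_inj] at hab'
      exact hi ha hb hab'
    · rw [deriv_div_const, deriv_sub_const, ← hc, div_self hd0]
  obtain ⟨g, hg, hgc⟩ := hm _ hS
  have hg1 := (prfSer g hg.1 z hz).2.1
  have hne := prfDerNe (ball 0 1) g isOpen_ball hg.1 hg.2.1 z hz
  have hLL : HasSum (fun n : ℕ => ((n : ℂ) + 1) * lam (n + 1) * tc F (n + 1) * z ^ n)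
      (c * deriv g z) := by
    have h2 := hg1.mul_left c
    convert! h2 using 2 with n
    rw [hgc (n + 1) (by omega), tc_affine hF c (n + 1) (by omega)]
    field_simp
  unfold LL
  rw [hLL.tsum_eq]
  exact mul_ne_zero hd0 hne

end PackU'

open PackU' in
theorem prfPackU (hP : ParsQ) : PackU := by
  intro C
  refine ⟨|C| + C ^ 2 / 2 + 3, fun lam hlam h => ?_⟩
  have hm := prfLitMult lam hlam
  have hp := partials hP h
  have hnn : ∀ n : ℕ, 0 ≤ ((n : ℝ) + 1) * ‖lam (n + 1)‖ := fun n => by positivity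
  have hsm : Summable (fun n : ℕ => ((n : ℝ) + 1) * ‖lam (n + 1)‖) :=
    summable_of_sum_range_le hnn hp
  have hsb : ∑' n : ℕ, ((n : ℝ) + 1) * ‖lam (n + 1)‖ ≤ C ^ 2 / 2 + 1 :=
    Real.tsum_le_of_sum_range_le hnn hp
  have h1 : 0 ≤ |C| := abs_nonneg C
  have h2 : 0 ≤ C ^ 2 := sq_nonneg C
  refine ⟨one hm, by linarith, hsm, by linarith, ?_, fun F hF hi z hz => ne hm hF hi hz⟩
  intro u hu
  rcases eq_or_ne u 0 with rfl | hu0
  · rw [tsum_eq_single 0 (by intro n hn; simp [hn])]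
    rw [zero_add, one hm]
    norm_num
    linarith
  · obtain ⟨hs1, hb1⟩ := kb1 h hu hu0
    have hu' : ‖u‖ ≤ 1 := by
      rw [mem_ball_zero_iff] at hu
      exact hu.le
    have hbd : ∀ n : ℕ, ‖((n : ℂ) + 1) * lam (n + 1) * u ^ n‖ ≤ ((n : ℝ) + 1) * ‖lam (n + 1)‖ := by
      intro n
      have e : ‖(n : ℂ) + 1‖ = (n : ℝ) + 1 := by
        have := Complex.norm_natCast (n + 1)
        push_cast at this
        exact this
      rw [norm_mul, norm_mul, norm_pow, e]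
      have : ‖u‖ ^ n ≤ 1 := pow_le_one₀ (norm_nonneg _) hu'
      calc ((n : ℝ) + 1) * ‖lam (n + 1)‖ * ‖u‖ ^ n ≤ ((n : ℝ) + 1) * ‖lam (n + 1)‖ * 1 :=
            mul_le_mul_of_nonneg_left this (hnn n)
        _ = _ := mul_one _
    have hs2 : Summable (fun n : ℕ => ((n : ℂ) + 1) * lam (n + 1) * u ^ n) :=
      Summable.of_norm_bounded hsm hbd
    have hb2 : ‖∑' n : ℕ, ((n : ℂ) + 1) * lam (n + 1) * u ^ n‖ ≤ C ^ 2 / 2 + 1 :=
      (tsum_of_norm_bounded hsm.hasSum hbd).trans hsb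
    have e : ∑' n : ℕ, ((n : ℂ) + 1) * ((n : ℂ) + 2) * lam (n + 1) * u ^ n =
        (∑' n : ℕ, ((n : ℂ) + 1) ^ 2 * lam (n + 1) * u ^ n) +
          ∑' n : ℕ, ((n : ℂ) + 1) * lam (n + 1) * u ^ n := by
      rw [← hs1.tsum_add hs2]
      exact tsum_congr (fun n => by ring)
    rw [e]
    calc _ ≤ _ := norm_add_le _ _
      _ ≤ C + (C ^ 2 / 2 + 1) := add_le_add hb1 hb2
      _ ≤ _ := by
        have := le_abs_self C
        linarith

end Pool.Agent.MultS.Lip

end

section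

/-! Item U10 (ParsQ): quantitative Parseval inequality. -/

set_option autoImplicit false

open Complex Metric Set Filter Topology MeasureTheory

namespace Pool.Agent.MultS.Lip

theorem prfParsQ : ParsQ := by
  intro a C h N
  have hC : 0 ≤ C := (norm_nonneg _).trans (h 0 (mem_ball_self one_pos)).2
  have hr : ∀ r : ℝ, 0 ≤ r → r < 1 → Summable (fun n : ℕ => ‖a n‖ * r ^ n) := by
    intro r h0 h1
    have h2 := (h (r : ℂ) (by
      rw [mem_ball_zero_iff, norm_real, Real.norm_of_nonneg h0]; exact h1)).1.norm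
    refine h2.congr fun n => ?_
    rw [norm_mul, norm_pow, norm_real, Real.norm_of_nonneg h0]
  have key : ∀ r : ℝ, 0 ≤ r → r < 1 →
      ∑ n ∈ Finset.range N, ‖a n‖ ^ 2 * (r ^ 2) ^ n ≤ C ^ 2 := by
    intro r h0 h1
    have hs := hr r h0 h1
    have ht : Tendsto (fun M : ℕ => (C + ∑' n : ℕ, ‖a (n + M)‖ * r ^ (n + M)) ^ 2) atTop
        (𝓝 ((C + 0) ^ 2)) :=
      ((tendsto_sum_nat_add (fun n => ‖a n‖ * r ^ n)).const_add C).pow 2
    rw [add_zero] at ht
    refine ge_of_tendsto ht ?_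
    filter_upwards [eventually_ge_atTop N] with M hM
    refine le_trans (Finset.sum_le_sum_of_subset_of_nonneg
      (Finset.range_mono hM) fun n _ _ => by positivity) ?_
    refine G4Aux.poly_bound a M r _ ?_
    intro z hz
    rw [abs_of_nonneg h0] at hz
    have hzb : z ∈ ball (0 : ℂ) 1 := by rw [mem_ball_zero_iff, hz]; exact h1
    obtain ⟨s1, s2⟩ := h z hzb
    have e1 := s1.sum_add_tsum_nat_add M
    have e2 : ∑ n ∈ Finset.range M, a n * z ^ n =
        (∑' n : ℕ, a n * z ^ n) - ∑' n : ℕ, a (n + M) * z ^ (n + M) := by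
      rw [← e1]
      ring
    rw [e2]
    refine (norm_sub_le _ _).trans (add_le_add s2 ?_)
    have e3 : (fun n : ℕ => ‖a (n + M) * z ^ (n + M)‖) = fun n => ‖a (n + M)‖ * r ^ (n + M) := by
      funext n
      rw [norm_mul, norm_pow, hz]
    have e4 : Summable (fun n : ℕ => ‖a (n + M) * z ^ (n + M)‖) := by
      rw [e3]
      exact (summable_nat_add_iff M).mpr hs
    refine (norm_tsum_le_tsum_norm e4).trans ?_
    rw [e3]
  have ht : Tendsto (fun r : ℝ => ∑ n ∈ Finset.range N, ‖a n‖ ^ 2 * (r ^ 2) ^ n) (𝓝[<] (1 : ℝ))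
      (𝓝 (∑ n ∈ Finset.range N, ‖a n‖ ^ 2 * ((1 : ℝ) ^ 2) ^ n)) := by
    refine Tendsto.mono_left ?_ nhdsWithin_le_nhds
    exact Continuous.tendsto (by fun_prop) 1
  simp only [one_pow, mul_one] at ht
  refine le_of_tendsto ht ?_
  have h5 : Ioo (0 : ℝ) 1 ∈ 𝓝[<] (1 : ℝ) := Ioo_mem_nhdsLT zero_lt_one
  filter_upwards [h5] with r hr'
  exact key r hr'.1.le hr'.2

end Pool.Agent.MultS.Lip

end

section

/-!
# MP_b17785_an: [U12] the second coefficient, rigidity
-/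

set_option autoImplicit false

open Complex Metric Set Filter Topology MeasureTheory

namespace Pool.Agent.MultS.Lip

namespace RotTwo'

/-- the derivative of `PP h` at `0` -/
theorem hasDerivAt_PP {h : ℂ → ℂ} (hS : Sc h) : HasDerivAt (PP h) (2 * tc h 2) 0 := by
  obtain ⟨hd, hi, h0, h1⟩ := hS
  have hd1 : DifferentiableOn ℂ (deriv h) (ball 0 1) := hd.deriv isOpen_ball
  have hd2 : DifferentiableOn ℂ (deriv (deriv h)) (ball 0 1) := hd1.deriv isOpen_ball
  have hm : ball (0 : ℂ) 1 ∈ 𝓝 (0 : ℂ) := ball_mem_nhds _ one_pos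
  have e1 : DifferentiableAt ℂ (deriv h) 0 := hd1.differentiableAt hm
  have e2 : DifferentiableAt ℂ (deriv (deriv h)) 0 := hd2.differentiableAt hm
  have hne : deriv h 0 ≠ 0 := by rw [h1]; exact one_ne_zero
  have a1 := (hasDerivAt_id (0 : ℂ)).mul e2.hasDerivAt
  have a2 := (a1.div e1.hasDerivAt hne).const_add 1
  have e3 : tc h 2 = deriv (deriv h) 0 / 2 := by
    rw [tc, iteratedDeriv_succ, iteratedDeriv_one]
    norm_num
  have e4 : (fun z : ℂ => 1 + z * deriv (deriv h) z / deriv h z) = PP h := by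
    funext z
    rfl
  have a3 : HasDerivAt (PP h) (2 * tc h 2) 0 := by
    rw [← e4]
    refine a2.congr_deriv ?_
    rw [e3, h1]
    simp
    ring
  exact a3

/-- a function with positive real part, value `1` and derivative `2 a`, `|a| = 1`, at `0` -/
theorem rigid {P : ℂ → ℂ} {a : ℂ} (hP : DifferentiableOn ℂ P (ball 0 1))
    (hpos : ∀ z ∈ ball (0 : ℂ) 1, 0 < (P z).re) (h0 : P 0 = 1) (h1 : HasDerivAt P (2 * a) 0)
    (ha : ‖a‖ = 1) : ∀ z ∈ ball (0 : ℂ) 1, P z = (1 + a * z) / (1 - a * z) := by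
  have hne : ∀ z ∈ ball (0 : ℂ) 1, P z + 1 ≠ 0 := by
    intro z hz hc
    have := hpos z hz
    have h2 : (P z + 1).re = 0 := by rw [hc]; rfl
    rw [add_re, one_re] at h2
    linarith
  set ω : ℂ → ℂ := fun z => (P z - 1) / (P z + 1) with hω
  have hωd : DifferentiableOn ℂ ω (ball 0 1) :=
    (hP.sub_const 1).div (hP.add_const 1) hne
  have hω0 : ω 0 = 0 := by
    show (P 0 - 1) / (P 0 + 1) = 0
    rw [h0, sub_self, zero_div]
  have hωder : HasDerivAt ω a 0 := by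
    have b1 := (h1.sub_const 1).div (h1.add_const 1) (hne 0 (mem_ball_self one_pos))
    refine b1.congr_deriv ?_
    rw [h0]
    ring
  have hlt : ∀ z ∈ ball (0 : ℂ) 1, ‖ω z‖ < 1 := by
    intro z hz
    show ‖(P z - 1) / (P z + 1)‖ < 1
    rw [norm_div, div_lt_one (norm_pos_iff.2 (hne z hz))]
    have h3 : ‖P z - 1‖ ^ 2 < ‖P z + 1‖ ^ 2 := by
      rw [← Complex.normSq_eq_norm_sq, ← Complex.normSq_eq_norm_sq, Complex.normSq_apply,
        Complex.normSq_apply]
      simp only [sub_re, sub_im, add_re, add_im, one_re, one_im]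
      nlinarith [hpos z hz]
    exact lt_of_pow_lt_pow_left₀ 2 (norm_nonneg _) h3
  have hmaps : MapsTo ω (ball (0 : ℂ) 1) (closedBall (ω 0) 1) := by
    intro z hz
    rw [hω0, mem_closedBall_zero_iff]
    exact (hlt z hz).le
  have hsl : dslope ω 0 0 = a := by rw [dslope_same, hωder.deriv]
  have haff := Complex.affine_of_mapsTo_ball_of_norm_dslope_eq_div hωd hmaps
    (mem_ball_self one_pos) (by rw [hsl, ha, div_one])
  intro z hz
  have h4 : (P z - 1) / (P z + 1) = a * z := by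
    have := haff hz
    simp only [hω0, hsl, zero_add, sub_zero, smul_eq_mul] at this
    rw [mul_comm]
    exact this
  have h5 : P z - 1 = a * z * (P z + 1) := (div_eq_iff (hne z hz)).1 h4
  have h6 : 1 - a * z ≠ 0 := by
    intro hc
    have h7 := hlt z hz
    have h8 : ‖a * z‖ < 1 := by rw [← h4]; exact h7
    have h9 : a * z = 1 := by linear_combination -hc
    rw [h9, norm_one] at h8
    exact lt_irrefl _ h8
  rw [eq_div_iff h6]
  linear_combination h5

end RotTwo'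

theorem prfRotTwo : RotTwo := by
  intro lam h hM hG
  have hS : Sc h := hG.1
  have h2 : tc h 2 = lam 2 := hG.2 2 (by norm_num)
  obtain ⟨hPd, hP0⟩ := prfPPan h hS
  have hpos := prfConv prfTestA prfSer lam h hM hG
  have hder := RotTwo'.hasDerivAt_PP hS
  rw [h2] at hder
  have hle : ‖lam 2‖ ≤ 1 := by
    have := (prfHar (PP h) ⟨hPd, fun z hz => (hpos z hz).le⟩ 0 (mem_ball_self one_pos) 0
      (mem_ball_self one_pos) 0 (by simp)).2.2.2
    rw [hder.deriv, hP0, norm_mul] at this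
    simp at this
    linarith
  refine ⟨hle, fun heq => ?_⟩
  have hrig := RotTwo'.rigid hPd hpos hP0 hder heq
  have hne : lam 2 ≠ 0 := by
    intro hc
    rw [hc, norm_zero] at heq
    exact zero_ne_one heq
  set x : ℂ := (lam 2)⁻¹ with hx
  have hx1 : ‖x‖ = 1 := by rw [hx, norm_inv, heq, inv_one]
  obtain ⟨-, hGx, hPx⟩ := prfRot lam h x hM hG hx1
  have hone := prfRotOne (fun n => x ^ (n - 1) * lam n) (fun z => h (x * z) / x) hGx (by
    intro z hz
    rw [hPx z hz, hrig (x * z) (by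
      rw [mem_ball_zero_iff, norm_mul, hx1, one_mul]; exact mem_ball_zero_iff.1 hz)]
    have e : lam 2 * (x * z) = z := by rw [hx, ← mul_assoc, mul_inv_cancel₀ hne, one_mul]
    rw [e])
  intro n hn
  have h3 : x ^ (n - 1) * lam n = 1 := hone n hn
  rw [hx, inv_pow] at h3
  have h4 : lam 2 ^ (n - 1) ≠ 0 := pow_ne_zero _ hne
  field_simp at h3
  exact h3

end Pool.Agent.MultS.Lip

end

section

/-!
# The Lipschitz dichotomy, uniform version: compactness of the set of multipliers (U5)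
-/

set_option autoImplicit false

open Complex Metric Set Filter Topology MeasureTheory

namespace Pool.Agent.MultS.Lip

theorem prfSeqM (hS : LimS) : SeqM := by
  intro L hL
  have hb : ∀ k n : ℕ, 1 ≤ n → ‖L k n‖ ≤ 3 * n := by
    intro k n hn
    obtain ⟨h, hh, hc⟩ := prfGenEx testQAll (L k) (hL k)
    rw [← hc n hn]
    exact littAll h hh n hn
  have hmem : ∀ k, (fun n : ℕ => if n = 0 then 0 else L k n) ∈
      Set.pi univ (fun n : ℕ => closedBall (0 : ℂ) (3 * n)) := by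
    intro k n _
    by_cases hn : n = 0
    · simp [hn]
    · simp only [hn, if_false, mem_closedBall_zero_iff]
      exact hb k n (Nat.one_le_iff_ne_zero.2 hn)
  have hcomp : IsCompact (Set.pi univ (fun n : ℕ => closedBall (0 : ℂ) (3 * n))) :=
    isCompact_univ_pi fun n => isCompact_closedBall _ _
  obtain ⟨lam, -, φ, hφ, hlim⟩ := hcomp.tendsto_subseq hmem
  rw [tendsto_pi_nhds] at hlim
  have hlim' : ∀ n : ℕ, 1 ≤ n → Tendsto (fun k => L (φ k) n) atTop (𝓝 (lam n)) := by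
    intro n hn
    have h1 := hlim n
    have h2 : (fun k => ((fun k : ℕ => fun n : ℕ => if n = 0 then 0 else L k n) ∘ φ) k n) =
        fun k => L (φ k) n := by
      funext k
      simp only [Function.comp_apply]
      rw [if_neg (by omega)]
    rwa [h2] at h1
  refine ⟨φ, lam, hφ, ?_, hlim'⟩
  intro f hf
  choose G hG hGc using fun k => hL (φ k) f hf
  obtain ⟨g, hg, hgc⟩ := hS G (fun n => if n = 0 then 0 else lam n * tc f n) hG (by
    intro n
    by_cases hn : n = 0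
    · subst hn
      have h1 : (fun k => tc (G k) 0) = fun _ => 0 := by
        funext k
        rw [tc_zero, (hG k).2.2.1]
      rw [h1]
      simp
    · have h1 : (fun k => tc (G k) n) = fun k => L (φ k) n * tc f n := by
        funext k
        exact hGc k n (Nat.one_le_iff_ne_zero.2 hn)
      rw [h1]
      simp only [hn, if_false]
      exact (hlim' n (Nat.one_le_iff_ne_zero.2 hn)).mul_const _)
  exact ⟨g, hg, fun n hn => by rw [hgc n, if_neg (by omega)]⟩

end Pool.Agent.MultS.Lip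

end

section

/-!
# StartU: uniform upper bounds for `J(-s, .)`, `s ≤ 3/4`
-/

set_option autoImplicit false

open Complex Metric Set Filter Topology MeasureTheory Finset

namespace Pool.Agent.MultS.Lip

/-- StartU. -/
theorem prfStartU : StartU := by
  intro C s hs0 hs
  refine ⟨‖(Gamma (1 - ((-s : ℝ) : ℂ)) * Gamma (1 + ((-s : ℝ) : ℂ)))⁻¹‖ *
    ∫ t in Ioo (0 : ℝ) 1, C * (1 - t) ^ (-(7 / 8 : ℝ)), fun lam h hG hC z hz => ?_⟩
  obtain ⟨hC0, hb⟩ := F2.deriv_bound hC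
  rw [repAll lam h hG ((-s : ℝ) : ℂ) (by rw [ofReal_re]; linarith)
    (by rw [ofReal_re]; linarith) z hz, norm_mul]
  refine mul_le_mul_of_nonneg_left ?_ (norm_nonneg _)
  refine norm_integral_le_of_norm_le ((F2.integrable_one_sub _ (by norm_num)).const_mul C) ?_
  refine (ae_restrict_iff' measurableSet_Ioo).2 (Eventually.of_forall fun t ht => ?_)
  rw [norm_mul, F2.norm_pow_pow ht]
  have h1 := hb z hz t ht
  have h0 : 0 < 1 - t := by linarith [ht.2]
  have h2 : t ^ s * (1 - t) ^ (-s) ≤ (1 - t) ^ (-(3 / 4 : ℝ)) := by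
    have h3 : t ^ s ≤ 1 := Real.rpow_le_one ht.1.le ht.2.le hs0
    have h4 : (1 - t) ^ (-s) ≤ (1 - t) ^ (-(3 / 4 : ℝ)) :=
      Real.rpow_le_rpow_of_exponent_ge h0 (by linarith [ht.1]) (by linarith)
    calc t ^ s * (1 - t) ^ (-s) ≤ 1 * (1 - t) ^ (-(3 / 4 : ℝ)) :=
          mul_le_mul h3 h4 (by positivity) (by norm_num)
      _ = _ := one_mul _
  calc ‖deriv h ((t : ℂ) * z)‖ * (t ^ s * (1 - t) ^ (-s))
      ≤ (C * (1 - t) ^ (-(1 / 8 : ℝ))) * (1 - t) ^ (-(3 / 4 : ℝ)) :=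
        mul_le_mul h1 h2 (mul_nonneg (Real.rpow_nonneg ht.1.le _) (Real.rpow_nonneg h0.le _))
          (mul_nonneg hC0 (Real.rpow_nonneg h0.le _))
    _ = C * (1 - t) ^ (-(7 / 8 : ℝ)) := by
        rw [mul_assoc, ← Real.rpow_add h0]
        norm_num

end Pool.Agent.MultS.Lip

end

section

/-!
# The Lipschitz dichotomy, uniform version: uniform smallness of `(1-|z|) Re P` (U8)
-/

set_option autoImplicit false

open Complex Metric Set Filter Topology MeasureTheory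

namespace Pool.Agent.MultS.Lip

namespace UnifM'

theorem tendsto_one {s : ℕ → ℝ} (h1 : ∀ k : ℕ, 1 - 1 / ((k : ℝ) + 2) ≤ s k) (h2 : ∀ k, s k < 1) :
    Tendsto s atTop (𝓝 1) := by
  have h3 : Tendsto (fun k : ℕ => 1 - 1 / ((k : ℝ) + 2)) atTop (𝓝 1) := by
    have h4 : Tendsto (fun k : ℕ => 1 / ((k : ℝ) + 2)) atTop (𝓝 0) := by
      have h5 := (tendsto_one_div_add_atTop_nhds_zero_nat (𝕜 := ℝ)).comp (tendsto_add_atTop_nat 1)
      refine h5.congr fun k => ?_
      simp only [Function.comp_apply]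
      push_cast
      ring
    simpa using tendsto_const_nhds.sub h4
  exact tendsto_of_tendsto_of_tendsto_of_le_of_le h3 tendsto_const_nhds h1 fun k => (h2 k).le

end UnifM'

theorem prfUnifM (hM : SeqM) (hP : ConvP) (hO : UnifOne) : UnifM := by
  intro η κ hη hκ
  by_contra hcon
  push Not at hcon
  have hr : ∀ k : ℕ, 0 < 1 - 1 / ((k : ℝ) + 2) ∧ 1 - 1 / ((k : ℝ) + 2) < 1 := by
    intro k
    have h1 : (0 : ℝ) < (k : ℝ) + 2 := by positivity
    have h2 : 1 / ((k : ℝ) + 2) < 1 := by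
      rw [div_lt_one h1]
      have : (0 : ℝ) ≤ (k : ℝ) := Nat.cast_nonneg k
      linarith
    have h3 : 0 < 1 / ((k : ℝ) + 2) := by positivity
    exact ⟨by linarith, by linarith⟩
  choose L H hLM hLG hL2 z hz hrz hgt using fun k : ℕ => hcon _ (hr k).1 (hr k).2
  have hs0 : ∀ k, 0 < ‖z k‖ := fun k => (hr k).1.trans_le (hrz k)
  have hs1 : ∀ k, ‖z k‖ < 1 := fun k => mem_ball_zero_iff.1 (hz k)
  set x : ℕ → ℂ := fun k => z k / (‖z k‖ : ℂ) with hx
  have hsne : ∀ k, ((‖z k‖ : ℝ) : ℂ) ≠ 0 := fun k => by exact_mod_cast (hs0 k).ne'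
  have hx1 : ∀ k, ‖x k‖ = 1 := by
    intro k
    rw [hx]
    simp only
    rw [norm_div, Complex.norm_real, norm_norm, div_self (hs0 k).ne']
  have hzx : ∀ k, z k = ((‖z k‖ : ℝ) : ℂ) * x k := by
    intro k
    rw [hx]
    simp only
    rw [mul_div_cancel₀ _ (hsne k)]
  obtain ⟨φ, lam, hφ, hlam, hlim⟩ := hM L hLM
  obtain ⟨y, hy, ψ, hψ, hxy⟩ := (isCompact_sphere (0 : ℂ) 1).tendsto_subseq
    (x := fun k => x (φ k)) (fun k => by rw [mem_sphere_zero_iff_norm]; exact hx1 _)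
  rw [mem_sphere_zero_iff_norm] at hy
  have hθ : StrictMono (fun k => φ (ψ k)) := hφ.comp hψ
  have hlim' : ∀ n : ℕ, 1 ≤ n → Tendsto (fun k => L (φ (ψ k)) n) atTop (𝓝 (lam n)) := fun n hn =>
    (hlim n hn).comp hψ.tendsto_atTop
  have hlam2 : ‖lam 2‖ ≤ 1 - η :=
    le_of_tendsto (hlim' 2 (by norm_num)).norm (Eventually.of_forall fun k => hL2 _)
  have hnrot : ¬ (∃ x : ℂ, ‖x‖ = 1 ∧ ∀ n : ℕ, 1 ≤ n → lam n = x ^ (n - 1)) := by
    rintro ⟨w, hw, h⟩
    have h2 := h 2 (by norm_num)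
    norm_num at h2
    rw [h2, hw] at hlam2
    linarith
  obtain ⟨h, hh⟩ := prfGenEx testQAll lam hlam
  obtain ⟨r, hr0, hr1, hup⟩ := hO lam h hlam hh hnrot (κ / 8) (by positivity)
  have hry : (r : ℂ) * y ∈ ball (0 : ℂ) 1 := by
    rw [mem_ball_zero_iff, norm_mul, hy, mul_one, Complex.norm_real, Real.norm_eq_abs,
      abs_of_pos hr0]
    exact hr1
  have hryn : ‖(r : ℂ) * y‖ = r := by
    rw [norm_mul, hy, mul_one, Complex.norm_real, Real.norm_eq_abs, abs_of_pos hr0]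
  have hup1 := hup _ hry (by rw [hryn])
  rw [hryn] at hup1
  -- lower bound along the sequence
  have hslim : Tendsto (fun k => ‖z k‖) atTop (𝓝 1) := UnifM'.tendsto_one hrz hs1
  have hev : ∀ᶠ k in atTop, r ≤ ‖z (φ (ψ k))‖ :=
    ((hslim.comp hθ.tendsto_atTop).eventually (lt_mem_nhds hr1)).mono fun k hk => le_of_lt hk
  have hlow : ∀ᶠ k in atTop, κ / 2 / (1 - r) ≤ (PP (H (φ (ψ k))) ((r : ℂ) * x (φ (ψ k)))).re := by
    filter_upwards [hev] with k hk
    set j := φ (ψ k) with hj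
    have hcar : Car (PP (H j)) :=
      ⟨(prfPPan (H j) (hLG j).1).1, fun w hw => (prfConv prfTestA prfSer (L j) (H j) (hLM j) (hLG j)
        w hw).le⟩
    have h1 := c5_mono prfHar hcar (hx1 j) hr0.le hk (hs1 j)
    rw [← hzx j] at h1
    have h2 := hgt j
    have h3 : 0 < 1 - ‖z j‖ := by linarith [hs1 j]
    rw [div_lt_iff₀ h3] at h2
    have h4 : 0 < 1 - r := by linarith
    have hrx : (r : ℂ) * x j ∈ ball (0 : ℂ) 1 := by
      rw [mem_ball_zero_iff, norm_mul, hx1, mul_one, Complex.norm_real, Real.norm_eq_abs,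
        abs_of_pos hr0]
      exact hr1
    have h5 := hcar.2 _ hrx
    rw [div_le_iff₀ h4]
    set a := (PP (H j) ((r : ℂ) * x j)).re
    set b := (PP (H j) (z j)).re
    set s := ‖z j‖
    -- (1+r) κ < (1 + r) (1 - s) b ≤ (1 - r) (1 + s) a ≤ 2 (1 - r) a
    have h6 : (1 + r) * κ ≤ (1 + r) * (1 - s) * b := by
      have : κ ≤ (1 - s) * b := by linarith
      nlinarith
    have h7 : (1 - r) * (1 + s) * a ≤ 2 * ((1 - r) * a) := by
      have h8 : 0 ≤ (1 - r) * a := mul_nonneg h4.le h5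
      have h9 : s ≤ 1 := (hs1 j).le
      nlinarith
    nlinarith
  have hconv := hP (fun k => L (φ (ψ k))) lam (fun k => H (φ (ψ k))) h (fun k => x (φ (ψ k))) y r
    (fun k => hLG _) hh hlim' (fun k => hx1 _) hxy hr0 hr1
  have hlow' : κ / 2 / (1 - r) ≤ (PP h ((r : ℂ) * y)).re :=
    ge_of_tendsto ((Complex.continuous_re.tendsto _).comp hconv) hlow
  have h10 : κ / 2 / (1 - r) ≤ κ / 8 / (1 - r) := hlow'.trans hup1
  rw [div_le_div_iff_of_pos_right (by linarith)] at h10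
  linarith

end Pool.Agent.MultS.Lip

end

section

/-!
# MP_b17785_an, item U7: the non-uniform bound of `PP` for a multiplier which is not a rotation
-/

set_option autoImplicit false

open Complex Metric Set Filter Topology MeasureTheory Finset

namespace Pool.Agent.MultS.Lip

namespace UnifOne'

/-- The radial limits vanish. -/
theorem radial (a1 : DerNe) (b5 : Conv) (b6 : MemQ) (b8 : Rot) (c0 : PPan) (c2 : Jul)
    (c3 : JLim) (c4 : JOne) (d4 : Dom) (d5 : Psi) (d6 : DLim) (d7 : DBlow)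
    (d8 : NonInj) (e2 : RotOne)
    {lam : ℕ → ℂ} {h : ℂ → ℂ} (hm : IsMult lam) (hg : Gen lam h)
    (hrot : ¬ ∃ x : ℂ, ‖x‖ = 1 ∧ ∀ n : ℕ, 1 ≤ n → lam n = x ^ (n - 1)) :
    ∀ x : ℂ, ‖x‖ = 1 → Tendsto (fun r : ℝ => (1 - r) * (PP h ((r : ℂ) * x)).re)
      (𝓝[<] (1 : ℝ)) (𝓝 0) := by
  intro x hx
  obtain ⟨hmx, hgx, hPx⟩ := b8 lam h x hm hg hx
  have hposx := b5 _ _ hmx hgx
  have hcarx : Car (PP (fun z => h (x * z) / x)) :=
    ⟨(c0 _ hgx.1).1, fun z hz => (hposx z hz).le⟩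
  obtain ⟨α, hα, hi, hl⟩ := c2 _ hcarx
  have hα1 : α ≤ 1 := by
    have := hi 0 (mem_ball_self one_pos)
    rw [(c0 _ hgx.1).2] at this
    simpa using this
  have hα0 : α = 0 := by
    by_contra hne
    have hαpos : 0 < α := lt_of_le_of_ne hα (Ne.symm hne)
    rcases hα1.lt_or_eq with hlt | heq
    · exact noAtom a1 b5 b6 c0 c3 d4 d5 d6 d7 d8 hmx hgx hαpos hlt hi hl
    · subst heq
      have hP := c4 _ hcarx (c0 _ hgx.1).2 hi
      have hone := e2 _ _ hgx hP
      apply hrot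
      have hx0 : x ≠ 0 := by
        rintro rfl
        simp at hx
      refine ⟨x⁻¹, by rw [norm_inv, hx, inv_one], fun n hn => ?_⟩
      have := hone n hn
      rw [inv_pow]
      exact eq_inv_of_mul_eq_one_right this
  subst hα0
  have hl' : Tendsto (fun r : ℝ => (1 - r) * (PP (fun z => h (x * z) / x) (r : ℂ)).re)
      (𝓝[<] (1 : ℝ)) (𝓝 0) := by
    simpa [JulLim] using hl
  refine hl'.congr' ?_
  have : ∀ᶠ r : ℝ in 𝓝[<] (1 : ℝ), r ∈ Ioo (0 : ℝ) 1 := Ioo_mem_nhdsLT one_pos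
  filter_upwards [this] with r hr
  rw [hPx, mul_comm x]
  rw [mem_ball_zero_iff, Complex.norm_real, Real.norm_of_nonneg hr.1.le]
  exact hr.2

end UnifOne'

theorem prfUnifOne : UnifOne := by
  intro lam h hm hg hrot κ hκ
  have b5 : Conv := prfConv prfTestA prfSer
  have hrad := UnifOne'.radial prfDerNe b5 (prfMemQ testQAll prfSer) prfRot prfPPan (prfJul prfHar)
    (prfJLim prfHar) (prfJOne prfHar) (prfDom prfHar) prfPsi (prfDLim (prfRepX repAll) prfBeta)
    prfDBlow prfNonInj prfRotOne hm hg hrot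
  have hcar : Car (PP h) := ⟨(prfPPan h hg.1).1, fun z hz => (b5 lam h hm hg z hz).le⟩
  have hun := prfUnif prfHar _ hcar hrad
  exact hun κ hκ

end Pool.Agent.MultS.Lip

end

section

set_option autoImplicit false

open Set Filter Topology

namespace Pool.Agent.MultS.LB

namespace CutX

/-- the cut-off function -/
noncomputable def tau : ℝ → ℝ := Real.smoothTransition

lemma cd : ContDiff ℝ 2 tau := Real.smoothTransition.contDiff

lemma cd1 : ContDiff ℝ 1 (deriv tau) := by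
  have h : ContDiff ℝ (1 + 1) tau := by
    have : (1 + 1 : WithTop ℕ∞) = 2 := one_add_one_eq_two
    rw [this]; exact cd
  exact (contDiff_succ_iff_deriv.1 h).2.2

lemma c1 : Continuous (deriv tau) := cd1.continuous

lemma c2 : Continuous (deriv (deriv tau)) := cd1.continuous_deriv le_rfl

lemma ev0 {x : ℝ} (h : x < 0) : tau =ᶠ[𝓝 x] fun _ => 0 := by
  filter_upwards [Iio_mem_nhds h] with y hy
  exact Real.smoothTransition.zero_of_nonpos (le_of_lt hy)

lemma ev1 {x : ℝ} (h : 1 < x) : tau =ᶠ[𝓝 x] fun _ => 1 := by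
  filter_upwards [Ioi_mem_nhds h] with y hy
  exact Real.smoothTransition.one_of_one_le (le_of_lt hy)

lemma d0 {x : ℝ} (h : x < 0 ∨ 1 < x) : deriv tau x = 0 := by
  rcases h with h | h
  · rw [(ev0 h).deriv_eq]; simp
  · rw [(ev1 h).deriv_eq]; simp

lemma dd0 {x : ℝ} (h : x < 0 ∨ 1 < x) : deriv (deriv tau) x = 0 := by
  have e : deriv tau =ᶠ[𝓝 x] fun _ => 0 := by
    rcases h with h | h
    · filter_upwards [Iio_mem_nhds h] with y hy
      exact d0 (Or.inl hy)
    · filter_upwards [Ioi_mem_nhds h] with y hy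
      exact d0 (Or.inr hy)
  rw [e.deriv_eq]; simp

lemma d0' {x : ℝ} (h : x ≤ 0 ∨ 1 ≤ x) : deriv tau x = 0 := by
  have hc : IsClosed {x : ℝ | deriv tau x = 0} := isClosed_eq c1 continuous_const
  rcases h with h | h
  · have h1 : closure (Iio (0 : ℝ)) ⊆ {x : ℝ | deriv tau x = 0} :=
      hc.closure_subset_iff.2 (fun y hy => d0 (Or.inl hy))
    rw [closure_Iio] at h1
    exact h1 h
  · have h1 : closure (Ioi (1 : ℝ)) ⊆ {x : ℝ | deriv tau x = 0} :=
      hc.closure_subset_iff.2 (fun y hy => d0 (Or.inr hy))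
    rw [closure_Ioi] at h1
    exact h1 h

lemma bd (f : ℝ → ℝ) (hf : Continuous f) (h0 : ∀ x, x < 0 ∨ 1 < x → f x = 0) :
    ∃ C, 0 ≤ C ∧ ∀ x, |f x| ≤ C := by
  obtain ⟨C, hC⟩ := (isCompact_Icc (a := (0 : ℝ)) (b := 1)).exists_bound_of_continuousOn
    (f := f) hf.continuousOn
  refine ⟨|C|, abs_nonneg _, fun x => ?_⟩
  by_cases hx : x < 0 ∨ 1 < x
  · rw [h0 x hx, abs_zero]; exact abs_nonneg _
  · push Not at hx
    exact (hC x ⟨hx.1, hx.2⟩).trans (le_abs_self C)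

end CutX

open CutX in
theorem prfCut : Cut := by
  obtain ⟨C1, h1, h1'⟩ := bd _ c1 (fun _ h => d0 h)
  obtain ⟨C2, h2, h2'⟩ := bd _ c2 (fun _ h => dd0 h)
  refine ⟨tau, 1 + C1 + C2, by linarith, cd, fun x hx => Real.smoothTransition.zero_of_nonpos hx,
    fun x hx => Real.smoothTransition.one_of_one_le hx,
    fun x => ⟨Real.smoothTransition.nonneg x, Real.smoothTransition.le_one x⟩,
    fun x => (h1' x).trans (by linarith), fun x => (h2' x).trans (by linarith),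
    fun x hx => d0' hx⟩

end Pool.Agent.MultS.LB

end

section

/-!
# Item EBd: a uniform bound
-/

set_option autoImplicit false

open Complex Metric Set Filter Topology MeasureTheory
open Pool.Agent.MultS.Lip

namespace Pool.Agent.MultS.LB

namespace EBdX

/-- distance of `1 + a²` to `0` -/
lemma low {a : ℂ} {κ : ℝ} (h0 : 0 < κ) (h1 : κ ≤ 1) (ha : κ * ‖a‖ ≤ a.re) : κ / 2 ≤ ‖1 + a ^ 2‖ := by
  by_cases h : ‖a‖ ≤ 1 / 2
  · have h2 : (1 : ℝ) - ‖a‖ ^ 2 ≤ ‖1 + a ^ 2‖ := by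
      have := norm_sub_norm_le (1 : ℂ) (-(a ^ 2))
      rw [norm_neg, norm_pow, norm_one, sub_neg_eq_add] at this
      exact this
    have h3 : ‖a‖ ^ 2 ≤ (1 / 2) ^ 2 := pow_le_pow_left₀ (norm_nonneg _) h 2
    linarith
  · push Not at h
    have hfac : 1 + a ^ 2 = (a + I) * (a - I) := by
      have : I * I = -1 := I_mul_I
      linear_combination this
    have hre : κ / 2 ≤ a.re := by
      have : κ * (1 / 2) ≤ κ * ‖a‖ := mul_le_mul_of_nonneg_left h.le h0.le
      linarith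
    have hr1 : a.re ≤ ‖a - I‖ := by
      have := re_le_norm (a - I)
      simpa using this
    have hr2 : a.re ≤ ‖a + I‖ := by
      have := re_le_norm (a + I)
      simpa using this
    rw [hfac, norm_mul]
    rcases le_total 0 a.im with hi | hi
    · have h4 : 1 ≤ ‖a + I‖ := by
        have := im_le_norm (a + I)
        simp only [add_im, I_im] at this
        linarith
      calc κ / 2 = 1 * (κ / 2) := (one_mul _).symm
        _ ≤ ‖a + I‖ * ‖a - I‖ := mul_le_mul h4 (hre.trans hr1) (by positivity) (norm_nonneg _)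
    · have h4 : 1 ≤ ‖a - I‖ := by
        have := abs_im_le_norm (a - I)
        simp only [sub_im, I_im] at this
        have h5 := neg_abs_le (a.im - 1)
        linarith
      calc κ / 2 = (κ / 2) * 1 := (mul_one _).symm
        _ ≤ ‖a + I‖ * ‖a - I‖ := mul_le_mul (hre.trans hr2) h4 zero_le_one (norm_nonneg _)

/-- the square root has nonnegative real part -/
lemma sqrt_re {u : ℂ} (hu : u ≠ 0) : 0 ≤ (u ^ (1 / 2 : ℂ)).re := by
  rw [cpow_def_of_ne_zero hu, exp_re]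
  refine mul_nonneg (Real.exp_pos _).le (Real.cos_nonneg_of_mem_Icc ?_)
  have h1 : (Complex.log u * (1 / 2 : ℂ)).im = arg u / 2 := by
    have : (1 / 2 : ℂ) = ((1 / 2 : ℝ) : ℂ) := by norm_num
    rw [this, im_mul_ofReal, log_im]
    ring
  rw [h1]
  have h2 := neg_pi_lt_arg u
  have h3 := arg_le_pi u
  constructor <;> linarith

lemma sqrt_sq {u : ℂ} (hu : u ≠ 0) : (u ^ (1 / 2 : ℂ)) ^ 2 = u := by
  rw [sq, ← cpow_add _ _ hu]
  norm_num

lemma psi_re {ζ : ℂ} (hζ : ‖ζ‖ < 1) : (psi ζ).re = (1 - ‖ζ‖ ^ 2) / ‖1 - ζ‖ ^ 2 := by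
  have hne : (1 : ℂ) - ζ ≠ 0 := by
    intro h
    rw [sub_eq_zero] at h
    rw [← h, norm_one] at hζ
    exact lt_irrefl _ hζ
  have h1 : ‖1 - ζ‖ ^ 2 = normSq (1 - ζ) := (normSq_eq_norm_sq _).symm
  have h2 : ‖ζ‖ ^ 2 = normSq ζ := (normSq_eq_norm_sq _).symm
  have h3 : normSq (1 - ζ) ≠ 0 := normSq_eq_zero.not.2 hne
  rw [h1, h2]
  unfold psi
  rw [div_re, ← add_div]
  congr 1
  simp only [add_re, one_re, sub_re, add_im, one_im, sub_im, normSq_apply]
  ring

end EBdX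

open EBdX in
theorem prfEBd : EBd := by
  intro r hr hr1
  set m : ℝ := 2 / (1 - r) with hm
  set κ : ℝ := (1 - r ^ 2) / 4 / m with hκ
  have h1r : 0 < 1 - r := by linarith
  have hm0 : 0 < m := by positivity
  have h1r2 : 0 < 1 - r ^ 2 := by nlinarith
  have hκ0 : 0 < κ := by positivity
  have hm2 : 2 ≤ m := by
    rw [hm, le_div_iff₀ h1r]
    linarith
  have hκ1 : κ ≤ 1 := by
    rw [hκ, div_le_one hm0]
    nlinarith
  refine ⟨m ^ 2 / (κ / 2), fun ζ hζ s => ?_⟩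
  have hζ1 : ‖ζ‖ < 1 := lt_of_le_of_lt hζ hr1
  have hd1 : 1 - r ≤ ‖1 - ζ‖ := by
    have := norm_sub_norm_le (1 : ℂ) ζ
    rw [norm_one] at this
    linarith
  have hd2 : ‖1 - ζ‖ ≤ 2 := by
    have := norm_sub_le (1 : ℂ) ζ
    rw [norm_one] at this
    linarith
  have hd3 : ‖1 + ζ‖ ≤ 2 := by
    have := norm_add_le (1 : ℂ) ζ
    rw [norm_one] at this
    linarith
  have hW : ‖psi ζ‖ ≤ m := by
    unfold psi
    rw [norm_div, hm]
    exact div_le_div₀ (by norm_num) hd3 h1r hd1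
  have hWre : (1 - r ^ 2) / 4 ≤ (psi ζ).re := by
    rw [psi_re hζ1]
    have h2 : ‖ζ‖ ^ 2 ≤ r ^ 2 := pow_le_pow_left₀ (norm_nonneg _) hζ 2
    have h3 : ‖1 - ζ‖ ^ 2 ≤ 2 ^ 2 := pow_le_pow_left₀ (norm_nonneg _) hd2 2
    have h4 : 0 < ‖1 - ζ‖ ^ 2 := pow_pos (lt_of_lt_of_le h1r hd1) 2
    exact div_le_div₀ (by linarith) (by linarith) h4 (by linarith)
  set a : ℂ := psi ζ * (Real.exp (-s) : ℂ) with ha
  have he : 0 < Real.exp (-s) := Real.exp_pos _
  have ha2 : psi ζ ^ 2 * (Real.exp (-2 * s) : ℂ) = a ^ 2 := by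
    rw [ha, mul_pow, ← ofReal_pow, ← Real.exp_nat_mul]
    congr 3
    push_cast
    ring
  have hacond : κ * ‖a‖ ≤ a.re := by
    rw [ha, norm_mul, norm_real, Real.norm_of_nonneg he.le, re_mul_ofReal, ← mul_assoc]
    refine mul_le_mul_of_nonneg_right ?_ he.le
    calc κ * ‖psi ζ‖ ≤ κ * m := mul_le_mul_of_nonneg_left hW hκ0.le
      _ = (1 - r ^ 2) / 4 := by rw [hκ]; field_simp
      _ ≤ _ := hWre
  have hlow := low hκ0 hκ1 hacond
  rw [ha2]
  set u : ℂ := 1 + a ^ 2 with hu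
  have hu0 : u ≠ 0 := by
    intro h
    rw [h, norm_zero] at hlow
    linarith
  set v : ℂ := u ^ (1 / 2 : ℂ) with hv
  have hv2 : v ^ 2 = u := sqrt_sq hu0
  have hvre : 0 ≤ v.re := sqrt_re hu0
  have hv0 : v ≠ 0 := by
    intro h
    apply hu0
    rw [← hv2, h]
    ring
  have hvn : κ / 2 ≤ ‖v‖ := by
    have h2 : ‖v‖ ^ 2 = ‖u‖ := by rw [← norm_pow, hv2]
    by_contra hcon
    push Not at hcon
    have h3 : ‖v‖ ^ 2 < κ / 2 := by nlinarith [norm_nonneg v]
    linarith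
  have hv1 : 1 ≤ ‖1 + v‖ := by
    have := re_le_norm (1 + v)
    simp only [add_re, one_re] at this
    linarith
  have hv10 : 1 + v ≠ 0 := by
    intro h
    rw [h, norm_zero] at hv1
    linarith
  have hE : (Real.exp (2 * s) : ℂ) * (Real.exp (-2 * s) : ℂ) = 1 := by
    rw [← ofReal_mul, ← Real.exp_add]
    norm_num
  have key : (Real.exp (2 * s) : ℂ) * (u ^ (-(1 / 2) : ℂ) - 1) = -(psi ζ ^ 2) / (v * (1 + v)) := by
    rw [cpow_neg, ← hv, eq_div_iff (mul_ne_zero hv0 hv10)]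
    have h2 : (v⁻¹ - 1) * (v * (1 + v)) = 1 - v ^ 2 := by
      field_simp
      ring
    rw [mul_assoc, h2, hv2, hu, ← ha2]
    linear_combination (-(psi ζ ^ 2)) * hE
  rw [key, norm_div, norm_neg, norm_pow, norm_mul]
  refine div_le_div₀ (by positivity) (pow_le_pow_left₀ (norm_nonneg _) hW 2) (by positivity) ?_
  calc κ / 2 = κ / 2 * 1 := (mul_one _).symm
    _ ≤ ‖v‖ * ‖1 + v‖ := mul_le_mul hvn hv1 zero_le_one (norm_nonneg _)

end Pool.Agent.MultS.LB

end

section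

/-!
# [E1] The bound for `ℓ`
-/

set_option autoImplicit false

open Complex Metric Set Filter Topology MeasureTheory
open Pool.Agent.MultS.Lip

namespace Pool.Agent.MultS.LB

namespace EllBX

lemma slit {c : ℝ} (hc : 0 < c) {W : ℂ} (hW : 0 < W.re) : 1 + W ^ 2 * (c : ℂ) ∈ slitPlane := by
  by_cases h : W.im = 0
  · left
    have : (1 + W ^ 2 * (c : ℂ)).re = 1 + W.re ^ 2 * c := by
      simp [sq, h]
    rw [this]
    positivity
  · right
    have : (1 + W ^ 2 * (c : ℂ)).im = 2 * W.re * W.im * c := by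
      rw [sq]
      simp only [add_im, one_im, mul_im, mul_re, ofReal_re, ofReal_im]
      ring
    rw [this]
    have := hW.ne'
    positivity

lemma hda {c : ℝ} (hc : 0 < c) {W : ℂ} (hW : 0 < W.re) :
    HasDerivAt (fun W : ℂ => (1 + W ^ 2 * (c : ℂ)) ^ (-(1 / 2) : ℂ))
      (-(1 / 2) * (1 + W ^ 2 * (c : ℂ)) ^ (-(1 / 2) - 1 : ℂ) * (2 * W * c)) W := by
  have h1 : HasDerivAt (fun W : ℂ => 1 + W ^ 2 * (c : ℂ)) (2 * W * c) W := by
    simpa using ((hasDerivAt_pow 2 W).mul_const (c : ℂ)).const_add 1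
  exact h1.cpow_const (slit hc hW)

lemma inj {c : ℝ} (hc : 0 < c) {W V : ℂ} (hW : 0 < W.re) (hV : 0 < V.re)
    (h : (1 + W ^ 2 * (c : ℂ)) ^ (-(1 / 2) : ℂ) = (1 + V ^ 2 * (c : ℂ)) ^ (-(1 / 2) : ℂ)) :
    W = V := by
  have hsq : ∀ x : ℂ, (x ^ (-(1 / 2) : ℂ)) ^ 2 = x⁻¹ := by
    intro x
    rw [← Complex.cpow_nat_mul, show ((2 : ℕ) : ℂ) * (-(1 / 2)) = -1 by push_cast; ring,
      Complex.cpow_neg_one]
  have h1 := congrArg (fun x => x ^ 2) h
  simp only [hsq] at h1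
  have h2 := inv_injective h1
  have hc' : (c : ℂ) ≠ 0 := by exact_mod_cast hc.ne'
  have h3 : W ^ 2 = V ^ 2 := by
    have : W ^ 2 * (c : ℂ) = V ^ 2 * c := by linear_combination h2
    exact mul_right_cancel₀ hc' this
  rcases sq_eq_sq_iff_eq_or_eq_neg.1 h3 with h4 | h4
  · exact h4
  · rw [h4, neg_re] at hW
    linarith

end EllBX

open EllBX

theorem prfEllB (hU : UnivB) : EllB := by
  intro lam X hPX z hz s
  obtain ⟨hX, -, hG⟩ := hU lam X hPX z hz
  have hc : 0 < Real.exp (-2 * s) := Real.exp_pos _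
  obtain ⟨c, hcdef⟩ : ∃ c : ℝ, c = Real.exp (-2 * s) := ⟨_, rfl⟩
  rw [← hcdef] at hc
  have h1 := hG (fun W : ℂ => (1 + W ^ 2 * (c : ℂ)) ^ (-(1 / 2) : ℂ))
    (fun W hW => (hda hc hW).differentiableAt.differentiableWithinAt)
    (fun W hW V hV h => inj hc hW hV h)
  rw [(hda hc (W := 1) (by simp)).deriv] at h1
  have h2 : ‖(-(1 / 2) * (1 + (1 : ℂ) ^ 2 * (c : ℂ)) ^ (-(1 / 2) - 1 : ℂ) * (2 * 1 * c))‖ =
      c * (1 + c) ^ (-(3 / 2) : ℝ) := by
    have e1 : (1 + (1 : ℂ) ^ 2 * (c : ℂ)) = ((1 + c : ℝ) : ℂ) := by push_cast; ring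
    have e2 : (-(1 / 2) - 1 : ℂ) = ((-(3 / 2) : ℝ) : ℂ) := by push_cast; ring
    rw [e1, e2, norm_mul, norm_mul, Complex.norm_cpow_eq_rpow_re_of_pos (by positivity),
      Complex.ofReal_re]
    have e3 : ‖(2 * 1 * (c : ℂ))‖ = 2 * c := by
      rw [mul_one, norm_mul, Complex.norm_real, Real.norm_eq_abs, abs_of_pos hc]
      norm_num
    have e4 : ‖(-(1 / 2) : ℂ)‖ = 1 / 2 := by
      rw [norm_neg, norm_div, norm_one]
      norm_num
    rw [e3, e4]
    ring
  rw [h2] at h1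
  have h3 : ‖ell lam z s‖ ≤ 4 * X * (1 + c) ^ (-(3 / 2) : ℝ) := by
    unfold ell
    rw [← hcdef]
    have e1 : ‖2 * I * (Real.exp (2 * s) : ℂ)‖ = 2 * Real.exp (2 * s) := by
      rw [norm_mul, norm_mul, norm_I, Complex.norm_real, Real.norm_eq_abs, Real.abs_exp]
      norm_num
    rw [norm_mul, e1]
    have e2 : Real.exp (2 * s) * c = 1 := by
      rw [hcdef, ← Real.exp_add]
      simp
    calc 2 * Real.exp (2 * s) * _ ≤ 2 * Real.exp (2 * s) *
          (2 * X * (c * (1 + c) ^ (-(3 / 2) : ℝ))) := by gcongr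
      _ = 4 * X * (Real.exp (2 * s) * c) * (1 + c) ^ (-(3 / 2) : ℝ) := by ring
      _ = 4 * X * (1 + c) ^ (-(3 / 2) : ℝ) := by rw [e2, mul_one]
  constructor
  · refine h3.trans ?_
    have : (1 + c) ^ (-(3 / 2) : ℝ) ≤ 1 :=
      Real.rpow_le_one_of_one_le_of_nonpos (by linarith) (by norm_num)
    nlinarith
  · refine h3.trans ?_
    have h4 : (1 + c) ^ (-(3 / 2) : ℝ) ≤ c ^ (-(3 / 2) : ℝ) :=
      Real.rpow_le_rpow_of_nonpos hc (by linarith) (by norm_num)
    have h5 : c ^ (-(3 / 2) : ℝ) = Real.exp (3 * s) := by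
      rw [hcdef, ← Real.exp_mul]
      congr 1
      ring
    rw [h5] at h4
    have : 0 ≤ 4 * X := by linarith
    gcongr

end Pool.Agent.MultS.LB

end

section

/-!
# Item E4: the derivative of `ell`
-/

set_option autoImplicit false

open Complex Metric Set Filter Topology MeasureTheory
open Pool.Agent.MultS.Lip

namespace Pool.Agent.MultS.LB

namespace EllCX

lemma slit {W : ℂ} (hW : W ∈ Hp) {r : ℝ} (hr : 0 ≤ r) : 1 + W ^ 2 * (r : ℂ) ∈ slitPlane := by
  have h0 : 0 < W.re := hW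
  have h1 : (1 + W ^ 2 * (r : ℂ)).re = 1 + (W.re ^ 2 - W.im ^ 2) * r := by
    simp only [pow_two, Complex.add_re, Complex.mul_re, Complex.mul_im, Complex.one_re,
      Complex.ofReal_re, Complex.ofReal_im]
    ring
  have h2 : (1 + W ^ 2 * (r : ℂ)).im = 2 * W.re * W.im * r := by
    simp only [pow_two, Complex.add_im, Complex.mul_re, Complex.mul_im, Complex.one_im,
      Complex.ofReal_re, Complex.ofReal_im]
    ring
  rw [mem_slitPlane_iff, h1, h2]
  by_cases h3 : W.im = 0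
  · left
    rw [h3]
    have := mul_nonneg (sq_nonneg W.re) hr
    nlinarith only [this]
  · rcases hr.eq_or_lt with h4 | h4
    · left
      rw [← h4]
      norm_num
    · right
      exact mul_ne_zero (mul_ne_zero (mul_ne_zero two_ne_zero h0.ne') h3) h4.ne'

/-- the integrand -/
noncomputable def Fa (α : ℂ) (g : ℝ → ℂ) (s θ : ℝ) : ℂ :=
  (1 + g θ ^ 2 * (Real.exp (-2 * s) : ℂ)) ^ α

lemma cont_Fa (α : ℂ) {g : ℝ → ℂ} (hg : Continuous g) (hgp : ∀ θ, g θ ∈ Hp) :
    Continuous fun p : ℝ × ℝ => Fa α g p.1 p.2 := by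
  unfold Fa
  refine Continuous.cpow ?_ continuous_const fun p => slit (hgp p.2) (Real.exp_pos _).le
  have h1 : Continuous fun p : ℝ × ℝ => g p.2 := hg.comp continuous_snd
  have h2 : Continuous fun p : ℝ × ℝ => (Real.exp (-2 * p.1) : ℂ) :=
    Complex.continuous_ofReal.comp (Real.continuous_exp.comp (continuous_const.mul continuous_fst))
  exact continuous_const.add ((h1.pow 2).mul h2)

lemma der_Fa {g : ℝ → ℂ} (θ : ℝ) (hgp : g θ ∈ Hp) (s : ℝ) :
    HasDerivAt (fun s => (Real.exp (2 * s) : ℂ) * Fa (-(1 / 2)) g s θ)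
      ((Real.exp (2 * s) : ℂ) * (3 * Fa (-(1 / 2)) g s θ - Fa (-(3 / 2)) g s θ)) s := by
  have hs := slit hgp (Real.exp_pos (-2 * s)).le
  have e1 : ∀ x : ℝ, (Real.exp (-2 * x) : ℂ) = cexp (-2 * (x : ℂ)) := by
    intro x
    push_cast
    rfl
  have e2 : ∀ x : ℝ, (Real.exp (2 * x) : ℂ) = cexp (2 * (x : ℂ)) := by
    intro x
    push_cast
    rfl
  rw [e1] at hs
  have h1 : HasDerivAt (fun w : ℂ => cexp (-2 * w)) (cexp (-2 * (s : ℂ)) * (-2 * 1)) (s : ℂ) :=
    ((hasDerivAt_id' (s : ℂ)).const_mul (-2)).cexp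
  have h2 : HasDerivAt (fun w : ℂ => cexp (2 * w)) (cexp (2 * (s : ℂ)) * (2 * 1)) (s : ℂ) :=
    ((hasDerivAt_id' (s : ℂ)).const_mul 2).cexp
  have h3 := ((h1.const_mul (g θ ^ 2)).const_add 1).cpow_const (c := (-(1 / 2) : ℂ)) hs
  have h4 := (h2.fun_mul h3).comp_ofReal
  have h5 : (fun s : ℝ => (Real.exp (2 * s) : ℂ) * Fa (-(1 / 2)) g s θ) =
      fun s : ℝ => cexp (2 * (s : ℂ)) * (1 + g θ ^ 2 * cexp (-2 * (s : ℂ))) ^ (-(1 / 2) : ℂ) := by
    funext x
    unfold Fa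
    rw [e1, e2]
  rw [h5]
  refine h4.congr_deriv ?_
  unfold Fa
  rw [e1, e2]
  set B : ℂ := 1 + g θ ^ 2 * cexp (-2 * (s : ℂ)) with hB
  have hB0 : B ≠ 0 := slitPlane_ne_zero hs
  have e3 : (-(1 / 2) - 1 : ℂ) = -(3 / 2) := by norm_num
  have e4 : B ^ (-(1 / 2) : ℂ) = B ^ (-(3 / 2) : ℂ) * B := by
    have e6 : (-(1 / 2) : ℂ) = -(3 / 2) + 1 := by norm_num
    rw [e6, Complex.cpow_add _ _ hB0, Complex.cpow_one]
  rw [e3, e4]
  have e5 : g θ ^ 2 * cexp (-2 * (s : ℂ)) = B - 1 := by rw [hB]; ring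
  linear_combination (cexp (2 * (s : ℂ)) * B ^ (-(3 / 2) : ℂ)) * e5

lemma diff_h (α : ℂ) (s : ℝ) :
    DifferentiableOn ℂ (fun ζ => (1 + psi ζ ^ 2 * (Real.exp (-2 * s) : ℂ)) ^ α)
      (ball (0 : ℂ) 1) := by
  intro ζ hζ
  apply DifferentiableAt.differentiableWithinAt
  have h1 : DifferentiableAt ℂ psi ζ := (Cay'.der_psi hζ).differentiableAt
  exact (((h1.pow 2).mul_const _).const_add 1).cpow (differentiableAt_const α)
    (slit (Cay'.psi_mem hζ) (Real.exp_pos _).le)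

/-- differentiation under the integral sign -/
lemma param {G G' : ℝ → ℝ → ℂ} (hG : Continuous fun p : ℝ × ℝ => G p.1 p.2)
    (hG' : Continuous fun p : ℝ × ℝ => G' p.1 p.2)
    (hd : ∀ s θ, HasDerivAt (fun s => G s θ) (G' s θ) s) (a b s₀ : ℝ) :
    HasDerivAt (fun s => ∫ θ in a..b, G s θ) (∫ θ in a..b, G' s₀ θ) s₀ := by
  have hcs : ∀ s, Continuous (G s) := fun s =>
    hG.comp (continuous_const.prodMk continuous_id)
  have hcs' : ∀ s, Continuous (G' s) := fun s =>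
    hG'.comp (continuous_const.prodMk continuous_id)
  obtain ⟨M, hM⟩ := (isCompact_closedBall s₀ 1 |>.prod
    (isCompact_uIcc (a := a) (b := b))).exists_bound_of_continuousOn hG'.continuousOn
  refine (intervalIntegral.hasDerivAt_integral_of_dominated_loc_of_deriv_le
    (F := G) (F' := G') (bound := fun _ => M) (s := closedBall s₀ 1)
    (closedBall_mem_nhds s₀ one_pos)
    (Eventually.of_forall fun s => (hcs s).aestronglyMeasurable)
    ((hcs s₀).intervalIntegrable a b) (hcs' s₀).aestronglyMeasurable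
    (Eventually.of_forall fun θ hθ s hs => hM (s, θ) ⟨hs, uIoc_subset_uIcc hθ⟩)
    intervalIntegrable_const (Eventually.of_forall fun θ _ s _ => hd s θ)).2

lemma param_cont {G' : ℝ → ℝ → ℂ} (hG' : Continuous fun p : ℝ × ℝ => G' p.1 p.2) (a b : ℝ) :
    Continuous fun s => ∫ θ in a..b, G' s θ :=
  intervalIntegral.continuous_parametric_intervalIntegral_of_continuous' (f := G') hG' a b

lemma sec_int {k : ℝ → ℂ} {F : ℝ → ℝ → ℂ} (hk : Continuous k)
    (h : Continuous fun p : ℝ × ℝ => F p.1 p.2) (s a b : ℝ) :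
    IntervalIntegrable (fun θ => k θ * F s θ) volume a b := by
  have h1 : Continuous (F s) := h.comp (continuous_const.prodMk continuous_id)
  exact (hk.mul h1).intervalIntegrable a b

end EllCX

open EllCX in
theorem prfEllC (hKer : Ker) : EllC := by
  intro lam hlam z hz
  obtain ⟨ρ, k, hρ0, hρ1, hk, hL⟩ := hKer lam hlam z hz
  set g : ℝ → ℂ := fun θ => psi (circleMap 0 ρ θ) with hg
  have hmem : ∀ θ, circleMap 0 ρ θ ∈ ball (0 : ℂ) 1 := by
    intro θ
    rw [mem_ball_zero_iff, norm_circleMap_zero, abs_of_pos hρ0]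
    exact hρ1
  have hgp : ∀ θ, g θ ∈ Hp := fun θ => Cay'.psi_mem (hmem θ)
  have hgc : Continuous g := by
    rw [continuous_iff_continuousAt]
    intro θ
    exact ContinuousAt.comp (Cay'.der_psi (hmem θ)).continuousAt (continuous_circleMap 0 ρ).continuousAt
  obtain ⟨G, hG⟩ : ∃ G : ℝ → ℝ → ℂ, ∀ s θ, G s θ =
      2 * I * k θ * ((Real.exp (2 * s) : ℂ) * Fa (-(1 / 2)) g s θ) := ⟨_, fun _ _ => rfl⟩
  obtain ⟨G', hG'⟩ : ∃ G' : ℝ → ℝ → ℂ, ∀ s θ, G' s θ = 2 * I * k θ *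
      ((Real.exp (2 * s) : ℂ) * (3 * Fa (-(1 / 2)) g s θ - Fa (-(3 / 2)) g s θ)) :=
    ⟨_, fun _ _ => rfl⟩
  have hkc : Continuous fun p : ℝ × ℝ => 2 * I * k p.2 :=
    continuous_const.mul (hk.comp continuous_snd)
  have hec : Continuous fun p : ℝ × ℝ => (Real.exp (2 * p.1) : ℂ) :=
    Complex.continuous_ofReal.comp (Real.continuous_exp.comp (continuous_const.mul continuous_fst))
  have hF1 := cont_Fa (-(1 / 2)) hgc hgp
  have hF3 := cont_Fa (-(3 / 2)) hgc hgp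
  have hGc : Continuous fun p : ℝ × ℝ => G p.1 p.2 := by
    simp only [hG]
    exact hkc.mul (hec.mul hF1)
  have hGc' : Continuous fun p : ℝ × ℝ => G' p.1 p.2 := by
    simp only [hG']
    exact hkc.mul (hec.mul ((continuous_const.mul hF1).sub hF3))
  have hd : ∀ s θ, HasDerivAt (fun s => G s θ) (G' s θ) s := by
    intro s θ
    simp only [hG, hG']
    exact (der_Fa θ (hgp θ) s).const_mul _
  have hLL : ∀ (α : ℂ) (s : ℝ), LL lam (fun ζ => (1 + psi ζ ^ 2 * (Real.exp (-2 * s) : ℂ)) ^ α) z =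
      ∫ θ in (0 : ℝ)..(2 * Real.pi), k θ * Fa α g s θ := fun α s => hL _ (diff_h α s)
  have hell : ell lam z = fun s => ∫ θ in (0 : ℝ)..(2 * Real.pi), G s θ := by
    funext s
    unfold ell
    rw [hLL, ← intervalIntegral.integral_const_mul]
    refine intervalIntegral.integral_congr fun θ _ => ?_
    simp only [hG]
    ring
  have hder : ∀ s, HasDerivAt (ell lam z) (∫ θ in (0 : ℝ)..(2 * Real.pi), G' s θ) s := by
    intro s
    rw [hell]
    exact param hGc hGc' hd 0 (2 * Real.pi) s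
  have hcs : ∀ (α : ℂ) (s : ℝ), (Continuous fun p : ℝ × ℝ => Fa α g p.1 p.2) →
      IntervalIntegrable (fun θ => k θ * Fa α g s θ) volume 0 (2 * Real.pi) := by
    intro α s h
    exact sec_int hk h s 0 (2 * Real.pi)
  refine ⟨contDiff_one_iff_deriv.2 ⟨fun s => (hder s).differentiableAt, ?_⟩, fun s => ?_⟩
  · have h1 : deriv (ell lam z) = fun s => ∫ θ in (0 : ℝ)..(2 * Real.pi), G' s θ :=
      funext fun s => (hder s).deriv
    rw [h1]
    exact param_cont hGc' _ _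
  · rw [(hder s).deriv, hLL, hLL, ← intervalIntegral.integral_const_mul,
      ← intervalIntegral.integral_sub ((hcs _ s hF1).const_mul 3) (hcs _ s hF3),
      ← intervalIntegral.integral_const_mul]
    refine intervalIntegral.integral_congr fun θ _ => ?_
    simp only [hG']
    ring

end Pool.Agent.MultS.LB

end

section

/-!
# The representation of `A - A 1` by the imaginary part of the boundary values
-/

set_option autoImplicit false

open Complex Metric Set Filter Topology MeasureTheory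
open Pool.Agent.MultS.Lip

namespace Pool.Agent.MultS.LB

namespace HergX

/-- the angle -/
noncomputable def fa (σ : ℝ) : ℝ := Real.pi - 2 * Real.arctan (Real.exp σ)

lemma hasDerivAt_fa (σ : ℝ) :
    HasDerivAt fa (-(2 * Real.exp σ / (1 + Real.exp σ ^ 2))) σ := by
  have h1 := (Real.hasDerivAt_exp σ).arctan
  have h2 := (h1.const_mul 2).const_sub Real.pi
  refine h2.congr_deriv ?_
  ring

lemma fa_inj : Function.Injective fa := by
  intro a b h
  unfold fa at h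
  have : Real.arctan (Real.exp a) = Real.arctan (Real.exp b) := by linarith
  exact Real.exp_injective (Real.arctan_injective this)

lemma fa_image : fa '' univ = Ioo 0 Real.pi := by
  ext θ
  constructor
  · rintro ⟨σ, -, rfl⟩
    unfold fa
    have h1 := Real.arctan_lt_pi_div_two (Real.exp σ)
    have h2 : 0 < Real.arctan (Real.exp σ) := Real.arctan_pos.2 (Real.exp_pos σ)
    constructor <;> linarith
  · intro hθ
    have h1 : 0 < (Real.pi - θ) / 2 := by linarith [hθ.2]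
    have h2 : (Real.pi - θ) / 2 < Real.pi / 2 := by linarith [hθ.1]
    have h3 : 0 < Real.tan ((Real.pi - θ) / 2) := Real.tan_pos_of_pos_of_lt_pi_div_two h1 h2
    refine ⟨Real.log (Real.tan ((Real.pi - θ) / 2)), trivial, ?_⟩
    unfold fa
    rw [Real.exp_log h3, Real.arctan_tan (by linarith) h2]
    ring

lemma ne_real {s : ℝ} (c : ℂ) (hc : c.re ≠ 0) : I * (s : ℂ) + c ≠ 0 := by
  intro h
  have := congrArg Complex.re h
  simp at this
  exact hc this

lemma exp_fa (σ : ℝ) : Complex.exp ((fa σ : ℂ) * I) = phi (I * (Real.exp σ : ℂ)) := by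
  have hw := Real.exp_pos σ
  set w : ℝ := Real.exp σ with hwd
  set a : ℝ := Real.arctan w with ha
  have hs : 0 < Real.sqrt (1 + w ^ 2) := Real.sqrt_pos.2 (by positivity)
  have hs2 : Real.sqrt (1 + w ^ 2) ^ 2 = 1 + w ^ 2 := Real.sq_sqrt (by positivity)
  have hs2' : ((Real.sqrt (1 + w ^ 2) : ℝ) : ℂ) ^ 2 = 1 + (w : ℂ) ^ 2 := by
    exact_mod_cast congrArg (fun x : ℝ => (x : ℂ)) hs2
  have hs0 : ((Real.sqrt (1 + w ^ 2) : ℝ) : ℂ) ≠ 0 := by exact_mod_cast hs.ne'
  have e1 : Complex.exp (((-a : ℝ) : ℂ) * I) = (1 - I * (w : ℂ)) / (Real.sqrt (1 + w ^ 2) : ℝ) := by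
    rw [Complex.exp_mul_I, ← Complex.ofReal_cos, ← Complex.ofReal_sin, Real.cos_neg, Real.sin_neg,
      ha, Real.cos_arctan, Real.sin_arctan]
    push_cast
    ring
  have hfa : fa σ = Real.pi - 2 * a := rfl
  have e2 : ((fa σ : ℝ) : ℂ) * I = Real.pi * I + (((-a : ℝ) : ℂ) * I + ((-a : ℝ) : ℂ) * I) := by
    rw [hfa]
    push_cast
    ring
  rw [e2, Complex.exp_add, Complex.exp_pi_mul_I, Complex.exp_add, e1]
  unfold phi
  have h1 : I * (w : ℂ) + 1 ≠ 0 := ne_real 1 (by simp)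
  have h2 : (1 - I * (w : ℂ)) * (1 + I * (w : ℂ)) = 1 + (w : ℂ) ^ 2 := by
    ring_nf
    rw [I_sq]
    ring
  rw [div_mul_div_comm, ← sq, ← sq, hs2', ← h2, eq_div_iff h1]
  have h3 : 1 + I * (w : ℂ) ≠ 0 := by rw [add_comm]; exact h1
  have h4 : 1 - I * (w : ℂ) ≠ 0 := by
    intro h
    apply ne_real (s := -w) 1 (by simp)
    push_cast
    rw [← h]
    ring
  field_simp
  ring

lemma exp_fa' (σ : ℝ) : Complex.exp (((2 * Real.pi - fa σ : ℝ) : ℂ) * I) =
    phi (-(I * (Real.exp σ : ℂ))) := by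
  have e : (((2 * Real.pi - fa σ : ℝ) : ℂ) * I) = 2 * Real.pi * I - (fa σ : ℂ) * I := by
    push_cast
    ring
  rw [e, Complex.exp_sub, Complex.exp_two_pi_mul_I, exp_fa]
  unfold phi
  have h1 : I * (Real.exp σ : ℂ) + 1 ≠ 0 := ne_real 1 (by simp)
  have h2 : -(I * (Real.exp σ : ℂ)) + 1 ≠ 0 := by
    intro h
    apply ne_real (s := -Real.exp σ) 1 (by simp)
    push_cast
    rw [← h]
    push_cast
    ring
  have h3 : I * (Real.exp σ : ℂ) - 1 ≠ 0 := by
    intro h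
    apply h2
    rw [← neg_eq_zero, ← h]
    ring
  rw [one_div, inv_div, div_eq_div_iff h3 h2]
  ring

/-- the algebraic identity -/
lemma alg {u W a : ℂ} (h1 : u + 1 ≠ 0) (h2 : u - 1 ≠ 0) (h3 : W + 1 ≠ 0) (h4 : u - W ≠ 0)
    (h5 : u + W ≠ 0) :
    phi u * ((phi u - phi W)⁻¹ * (-(a / (phi u - 1)) * (1 + phi u) * (1 - phi W) ^ 2 /
      (1 - phi W * phi u))) * (2 * u / (1 - u ^ 2)) = -2 * (u ^ 2 / (u ^ 2 - W ^ 2)) * a := by
  have e1 : phi u - phi W = 2 * (u - W) / ((u + 1) * (W + 1)) := by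
    unfold phi; field_simp; ring
  have e2 : phi u - 1 = -2 / (u + 1) := by
    unfold phi; field_simp; ring
  have e3 : 1 + phi u = 2 * u / (u + 1) := by
    unfold phi; field_simp; ring
  have e4 : 1 - phi W = 2 / (W + 1) := by
    unfold phi; field_simp; ring
  have e5 : 1 - phi W * phi u = 2 * (u + W) / ((u + 1) * (W + 1)) := by
    unfold phi; field_simp; ring
  have e6 : phi u = (u - 1) / (u + 1) := rfl
  have e7 : 1 - u ^ 2 = -((u + 1) * (u - 1)) := by ring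
  have e8 : u ^ 2 - W ^ 2 = (u + W) * (u - W) := by ring
  rw [e1, e2, e3, e4, e5, e6, e7, e8]
  field_simp

/-- the function in Cauchy's formula -/
noncomputable def F1 (A : ℂ → ℂ) (z ζ : ℂ) : ℂ :=
  -(dslope A 1 ζ) * (1 + ζ) * (1 - z) ^ 2 / (1 - z * ζ)

lemma den_ne {z ζ : ℂ} (hz : ‖z‖ < 1) (hζ : ‖ζ‖ ≤ 1) : 1 - z * ζ ≠ 0 := by
  intro h
  have h1 : z * ζ = 1 := (sub_eq_zero.1 h).symm
  have h2 : ‖z * ζ‖ < 1 := by
    rw [norm_mul]
    calc ‖z‖ * ‖ζ‖ ≤ ‖z‖ * 1 := mul_le_mul_of_nonneg_left hζ (norm_nonneg _)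
      _ < 1 := by linarith
  rw [h1] at h2
  simp at h2

lemma F1_diff {A : ℂ → ℂ} {ρ : ℝ} (hA : RealA A ρ) {z : ℂ} (hz : ‖z‖ < 1) :
    DifferentiableOn ℂ (F1 A z) (closedBall 0 1) := by
  have h1 : (1 : ℂ) ∈ ball (0 : ℂ) ρ := by
    rw [mem_ball_zero_iff]
    simpa using hA.rho
  have h2 : DifferentiableOn ℂ (dslope A 1) (ball 0 ρ) :=
    (Complex.differentiableOn_dslope (isOpen_ball.mem_nhds h1)).2 hA.dif
  have h3 : DifferentiableOn ℂ (dslope A 1) (closedBall 0 1) :=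
    h2.mono (closedBall_subset_ball hA.rho)
  unfold F1
  refine DifferentiableOn.div ?_ ?_ ?_
  · exact ((h3.neg.mul (by fun_prop)).mul (by fun_prop))
  · fun_prop
  · intro ζ hζ
    exact den_ne hz (mem_closedBall_zero_iff.1 hζ)

end HergX

open HergX in
theorem prfHerg : Herg := by
  intro A ρ hA W hW
  have hz : ‖phi W‖ < 1 := by
    have := Cay'.phi_mem hW
    rwa [mem_ball_zero_iff] at this
  set z := phi W with hzd
  have hW1 : W + 1 ≠ 0 := Cay'.add_one_ne hW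
  have hWre : 0 < W.re := hW
  have hWre' : W.re ≠ 0 := hWre.ne'
  have hz1 : 1 - z ≠ 0 := by
    have := den_ne hz (ζ := 1) (by simp)
    rwa [mul_one] at this
  have hz2 : 1 + z ≠ 0 := by
    have := den_ne hz (ζ := -1) (by simp)
    intro h
    apply this
    rw [← h]
    ring
  -- Cauchy
  have hdc : DiffContOnCl ℂ (F1 A z) (ball 0 1) := by
    apply DifferentiableOn.diffContOnCl
    rw [closure_ball _ one_ne_zero]
    exact F1_diff hA hz
  have hcau := hdc.circleIntegral_sub_inv_smul (w := z) (by rwa [mem_ball_zero_iff])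
  have hval : F1 A z z = A z - A 1 := by
    unfold F1
    have hne : z ≠ 1 := by
      rintro h
      apply hz1
      rw [h, sub_self]
    rw [dslope_of_ne _ hne, slope_def_field]
    have h1 : z - 1 ≠ 0 := sub_ne_zero.2 hne
    have h2 : 1 - z * z ≠ 0 := den_ne hz hz.le
    have h3 : 1 - z * z = (1 - z) * (1 + z) := by ring
    rw [h3]
    field_simp
    ring
  rw [hval] at hcau
  -- the integrand
  set H : ℝ → ℂ := fun θ => deriv (circleMap 0 1) θ •
    ((circleMap 0 1 θ - z)⁻¹ • F1 A z (circleMap 0 1 θ)) with hH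
  have hHc : Continuous H := by
    have h1 : Continuous (fun θ => F1 A z (circleMap 0 1 θ)) := by
      refine (F1_diff hA hz).continuousOn.comp_continuous (continuous_circleMap 0 1) ?_
      intro θ
      exact circleMap_mem_closedBall 0 zero_le_one θ
    have h2 : Continuous (fun θ : ℝ => (circleMap 0 1 θ - z)⁻¹) := by
      refine Continuous.inv₀ ((continuous_circleMap 0 1).sub continuous_const) ?_
      intro θ h
      have h3 : ‖circleMap 0 1 θ‖ = 1 := by simp [norm_circleMap_zero]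
      rw [sub_eq_zero.1 h] at h3
      linarith
    have h3 : Continuous (fun θ : ℝ => deriv (circleMap 0 1) θ) := by
      simp only [deriv_circleMap]
      exact (continuous_circleMap 0 1).mul continuous_const
    exact h3.smul (h2.smul h1)
  have hsplit : (∮ ζ in C(0, 1), (ζ - z)⁻¹ • F1 A z ζ) =
      ∫ θ in Ioo 0 Real.pi, (H θ + H (2 * Real.pi - θ)) := by
    have h1 : (∮ ζ in C(0, 1), (ζ - z)⁻¹ • F1 A z ζ) = ∫ θ in (0 : ℝ)..2 * Real.pi, H θ := rfl
    have h2 : ∫ θ in (0 : ℝ)..2 * Real.pi, H θ =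
        (∫ θ in (0 : ℝ)..Real.pi, H θ) + ∫ θ in Real.pi..2 * Real.pi, H θ :=
      (intervalIntegral.integral_add_adjacent_intervals (hHc.intervalIntegrable _ _)
        (hHc.intervalIntegrable _ _)).symm
    have h3 : ∫ θ in Real.pi..2 * Real.pi, H θ = ∫ θ in (0 : ℝ)..Real.pi, H (2 * Real.pi - θ) := by
      rw [intervalIntegral.integral_comp_sub_left (fun x => H x) (2 * Real.pi)]
      congr 1 <;> ring
    have h4 : Continuous (fun θ => H (2 * Real.pi - θ)) :=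
      hHc.comp (continuous_const.sub continuous_id)
    rw [h1, h2, h3, ← intervalIntegral.integral_add (hHc.intervalIntegrable _ _)
      (h4.intervalIntegrable _ _),
      intervalIntegral.integral_of_le Real.pi_pos.le, integral_Ioc_eq_integral_Ioo]
  have hsub := integral_image_eq_integral_abs_deriv_smul (s := univ) (f := fa) MeasurableSet.univ
    (fun σ _ => (hasDerivAt_fa σ).hasDerivWithinAt) (fa_inj.injOn)
    (fun θ => H θ + H (2 * Real.pi - θ))
  rw [fa_image, Measure.restrict_univ] at hsub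
  have hcirc : ∀ θ : ℝ, circleMap 0 1 θ = Complex.exp ((θ : ℂ) * I) := by
    intro θ
    simp [circleMap]
  -- one half
  have hhalf : ∀ s : ℝ, ∀ θ : ℝ, Complex.exp ((θ : ℂ) * I) = phi (I * (s : ℂ)) →
      H θ * (2 * s / (1 + s ^ 2) : ℝ) =
        -2 * ((s : ℂ) ^ 2 / ((s : ℂ) ^ 2 + W ^ 2)) * (A (phi (I * (s : ℂ))) - A 1) := by
    intro s θ hθ
    have g1 : I * (s : ℂ) + 1 ≠ 0 := ne_real 1 (by simp)
    have g2 : I * (s : ℂ) - 1 ≠ 0 := by
      have := ne_real (s := s) (-1) (by simp)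
      rwa [← sub_eq_add_neg] at this
    have g4 : I * (s : ℂ) - W ≠ 0 := by
      have := ne_real (s := s) (-W) (by simpa using hWre')
      rwa [← sub_eq_add_neg] at this
    have g5 : I * (s : ℂ) + W ≠ 0 := ne_real W hWre'
    have hne : phi (I * (s : ℂ)) ≠ 1 := by
      intro h
      have h' : phi (I * (s : ℂ)) - 1 = -2 / (I * (s : ℂ) + 1) := by
        unfold phi; field_simp; ring
      rw [h, sub_self] at h'
      have := div_ne_zero (show (-2 : ℂ) ≠ 0 by norm_num) g1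
      exact this h'.symm
    have hal := alg (a := A (phi (I * (s : ℂ))) - A 1) g1 g2 hW1 g4 g5
    rw [← hzd] at hal
    have i1 : (I * (s : ℂ)) ^ 2 = -(s : ℂ) ^ 2 := by
      rw [mul_pow, I_sq]; ring
    have i2 : (I * (s : ℂ)) ^ 2 / ((I * (s : ℂ)) ^ 2 - W ^ 2) = (s : ℂ) ^ 2 / ((s : ℂ) ^ 2 + W ^ 2) := by
      rw [i1]
      rw [show -(s : ℂ) ^ 2 - W ^ 2 = -((s : ℂ) ^ 2 + W ^ 2) by ring, neg_div_neg_eq]
    rw [i2] at hal
    rw [← hal, hH]
    simp only [deriv_circleMap, hcirc, hθ, smul_eq_mul]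
    unfold F1
    rw [dslope_of_ne _ hne, slope_def_field]
    have i3 : (((2 * s / (1 + s ^ 2) : ℝ)) : ℂ) * I = 2 * (I * (s : ℂ)) / (1 - (I * (s : ℂ)) ^ 2) := by
      rw [i1]
      push_cast
      rw [sub_neg_eq_add]
      ring
    rw [← i3]
    ring
  have hpt : ∀ σ : ℝ, |-(2 * Real.exp σ / (1 + Real.exp σ ^ 2))| •
      (H (fa σ) + H (2 * Real.pi - fa σ)) =
      (-4 * I) * ((vv A σ : ℂ) * ((Real.exp (2 * σ) : ℂ) / ((Real.exp (2 * σ) : ℂ) + W ^ 2))) := by
    intro σ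
    have hw := Real.exp_pos σ
    have h1 := hhalf (Real.exp σ) (fa σ) (exp_fa σ)
    have h2 := hhalf (-Real.exp σ) (2 * Real.pi - fa σ) (by
      rw [exp_fa']
      congr 1
      push_cast
      ring)
    have habs : |-(2 * Real.exp σ / (1 + Real.exp σ ^ 2))| = 2 * Real.exp σ / (1 + Real.exp σ ^ 2) := by
      rw [abs_neg, abs_of_pos (by positivity)]
    have hneg : (2 * (-Real.exp σ) / (1 + (-Real.exp σ) ^ 2) : ℝ) =
        -(2 * Real.exp σ / (1 + Real.exp σ ^ 2)) := by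
      rw [neg_sq]
      ring
    rw [hneg] at h2
    have hexp2 : (Real.exp (2 * σ) : ℂ) = (Real.exp σ : ℂ) ^ 2 := by
      rw [two_mul, Real.exp_add]
      push_cast
      ring
    -- conjugation
    have hconj : phi (I * ((-Real.exp σ : ℝ) : ℂ)) =
        (starRingEnd ℂ) (phi (I * (Real.exp σ : ℂ))) := by
      unfold phi
      rw [map_div₀, map_sub, map_add, map_mul, map_one, conj_I, conj_ofReal]
      push_cast
      ring
    have hmem : phi (I * (Real.exp σ : ℂ)) ∈ ball (0 : ℂ) ρ := by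
      rw [← exp_fa, mem_ball_zero_iff, Complex.norm_exp_ofReal_mul_I]
      exact hA.rho
    have hA1 : (starRingEnd ℂ) (A 1) = A 1 := by
      have := hA.sym 1 (by rw [mem_ball_zero_iff]; simpa using hA.rho)
      rw [map_one] at this
      exact this.symm
    rw [hconj, hA.sym _ hmem] at h2
    rw [habs, Complex.real_smul, mul_add]
    have h3 : ((2 * Real.exp σ / (1 + Real.exp σ ^ 2) : ℝ) : ℂ) * H (2 * Real.pi - fa σ) =
        2 * ((Real.exp σ : ℂ) ^ 2 / ((Real.exp σ : ℂ) ^ 2 + W ^ 2)) *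
          ((starRingEnd ℂ) (A (phi (I * (Real.exp σ : ℂ)))) - A 1) := by
      have h4 : ((2 * Real.exp σ / (1 + Real.exp σ ^ 2) : ℝ) : ℂ) * H (2 * Real.pi - fa σ) =
          -(H (2 * Real.pi - fa σ) * ((-(2 * Real.exp σ / (1 + Real.exp σ ^ 2)) : ℝ) : ℂ)) := by
        push_cast
        ring
      rw [h4, h2]
      push_cast
      ring
    rw [h3, mul_comm ((2 * Real.exp σ / (1 + Real.exp σ ^ 2) : ℝ) : ℂ), h1, hexp2]
    have hvv : A (phi (I * (Real.exp σ : ℂ))) - (starRingEnd ℂ) (A (phi (I * (Real.exp σ : ℂ)))) =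
        2 * I * (vv A σ : ℂ) := by
      rw [Complex.sub_conj]
      unfold vv
      push_cast
      ring
    have h5 : -2 * ((Real.exp σ : ℂ) ^ 2 / ((Real.exp σ : ℂ) ^ 2 + W ^ 2)) *
        (A (phi (I * (Real.exp σ : ℂ))) - A 1) +
        2 * ((Real.exp σ : ℂ) ^ 2 / ((Real.exp σ : ℂ) ^ 2 + W ^ 2)) *
          ((starRingEnd ℂ) (A (phi (I * (Real.exp σ : ℂ)))) - A 1) =
        -2 * ((Real.exp σ : ℂ) ^ 2 / ((Real.exp σ : ℂ) ^ 2 + W ^ 2)) *
        (A (phi (I * (Real.exp σ : ℂ))) - (starRingEnd ℂ) (A (phi (I * (Real.exp σ : ℂ))))) := by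
      ring
    rw [h5, hvv]
    ring
  rw [integral_congr_ae (Eventually.of_forall hpt), integral_const_mul] at hsub
  rw [hsplit, hsub, smul_eq_mul] at hcau
  have hpi : (Real.pi : ℂ) ≠ 0 := by exact_mod_cast Real.pi_ne_zero
  have hI : (2 * Real.pi * I : ℂ) ≠ 0 := by
    simp [Real.pi_ne_zero]
  apply mul_left_cancel₀ hI
  rw [← hcau]
  push_cast
  field_simp
  ring

end Pool.Agent.MultS.LB

end

section

/-!
# Linear test functions
-/

set_option autoImplicit false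

open Complex Metric Set Filter Topology MeasureTheory
open Pool.Agent.MultS.Lip

namespace Pool.Agent.MultS.LB

namespace HomX

theorem cd1 {K : ℝ → ℝ} (hK : ContDiff ℝ 2 K) : ContDiff ℝ 1 (deriv K) := by
  have h : ContDiff ℝ (1 + 1) K := by
    convert! hK using 1
  exact (contDiff_succ_iff_deriv.1 h).2.2

theorem q_bd {x : ℝ} (hx : |x| ≤ 1 / 4000) :
    0 < 1 - x ^ 2 ∧ 1 / 2 ≤ Real.sqrt (1 - x ^ 2) := by
  have h1 := abs_le.1 hx
  have h2 : x ^ 2 ≤ 1 / 2 := by nlinarith [h1.1, h1.2]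
  refine ⟨by linarith, ?_⟩
  apply Real.le_sqrt_of_sq_le
  linarith

/-- the driving function -/
noncomputable def ka (K : ℝ → ℝ) (s : ℝ) : ℝ := deriv K s / Real.sqrt (1 - K s ^ 2)

theorem der_zero {K : ℝ → ℝ} {S : ℝ} (hK : Differentiable ℝ K)
    (h0 : ∀ s : ℝ, s ≤ 0 ∨ S ≤ s → K s = 0) (s : ℝ) (hs : s ≤ 0 ∨ S ≤ s) : deriv K s = 0 := by
  have hd := (hK s).hasDerivAt
  rcases hs with hs | hs
  · have h1 : HasDerivWithinAt K (deriv K s) (Iic s) s := hd.hasDerivWithinAt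
    have h2 : HasDerivWithinAt K 0 (Iic s) s :=
      (hasDerivWithinAt_const s (Iic s) (0 : ℝ)).congr
        (fun x hx => h0 x (Or.inl (le_trans hx hs))) (h0 s (Or.inl hs))
    exact (uniqueDiffWithinAt_Iic s).eq_deriv _ h1 h2
  · have h1 : HasDerivWithinAt K (deriv K s) (Ici s) s := hd.hasDerivWithinAt
    have h2 : HasDerivWithinAt K 0 (Ici s) s :=
      (hasDerivWithinAt_const s (Ici s) (0 : ℝ)).congr
        (fun x hx => h0 x (Or.inr (le_trans hs hx))) (h0 s (Or.inr hs))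
    exact (uniqueDiffWithinAt_Ici s).eq_deriv _ h1 h2

theorem ka_abs {K : ℝ → ℝ} (hb : ∀ s, |K s| ≤ 1 / 4000) (s : ℝ) :
    |ka K s| ≤ 2 * |deriv K s| := by
  obtain ⟨-, h2⟩ := q_bd (hb s)
  unfold ka
  have hq : 0 < Real.sqrt (1 - K s ^ 2) := by linarith
  rw [abs_div, abs_of_pos hq, div_le_iff₀ hq]
  nlinarith [abs_nonneg (deriv K s)]

theorem drv {K : ℝ → ℝ} {S : ℝ} (hS : 0 < S) (hK : ContDiff ℝ 2 K)
    (h0 : ∀ s : ℝ, s ≤ 0 ∨ S ≤ s → K s = 0) (hb : ∀ s, |K s| ≤ 1 / 4000)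
    (hb1 : ∀ s, |deriv K s| ≤ 1 / 4000) (hb2 : ∀ s, |deriv (deriv K) s| ≤ 1 / 4000)
    (hL : ∫ s in (0 : ℝ)..S, deriv K s ^ 2 ≤ 1 / 4) : Drv (ka K) S := by
  have hKd : Differentiable ℝ K := hK.differentiable (by norm_num)
  have hK1 := cd1 hK
  have hK1d : Differentiable ℝ (deriv K) := hK1.differentiable (by norm_num)
  have hc1 : ContDiff ℝ 1 (ka K) := by
    have hq : ContDiff ℝ 1 fun s => Real.sqrt (1 - K s ^ 2) := by
      refine ContDiff.sqrt (contDiff_const.sub ((hK.of_le (by norm_num)).pow 2)) ?_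
      intro s
      exact (q_bd (hb s)).1.ne'
    exact hK1.div hq fun s => by
      have := (q_bd (hb s)).2
      exact (by linarith : (0:ℝ) < Real.sqrt (1 - K s ^ 2)).ne'
  refine ⟨hS, hc1, ?_, ?_, ?_, ?_⟩
  · intro s hs
    unfold ka
    rw [der_zero hKd h0 s hs, zero_div]
  · intro s
    have := ka_abs hb s
    have := hb1 s
    linarith
  · intro s
    obtain ⟨p1, p2⟩ := q_bd (hb s)
    set q := Real.sqrt (1 - K s ^ 2) with hqdef
    have hq : 0 < q := by linarith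
    have hq2 : q ^ 2 = 1 - K s ^ 2 := Real.sq_sqrt p1.le
    have d1 : HasDerivAt (fun s => 1 - K s ^ 2) (-(2 * K s * deriv K s)) s := by
      have := ((hKd s).hasDerivAt.pow 2).const_sub 1
      convert! this using 1
      norm_num
    have d2 : HasDerivAt (fun s => Real.sqrt (1 - K s ^ 2)) (-(2 * K s * deriv K s) / (2 * q)) s :=
      d1.sqrt p1.ne'
    have d3 : HasDerivAt (ka K) ((deriv (deriv K) s * q
        - deriv K s * (-(2 * K s * deriv K s) / (2 * q))) / q ^ 2) s :=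
      (hK1d s).hasDerivAt.div d2 hq.ne'
    rw [d3.deriv]
    have e : (deriv (deriv K) s * q - deriv K s * (-(2 * K s * deriv K s) / (2 * q))) / q ^ 2
        = deriv (deriv K) s / q + K s * deriv K s ^ 2 / q ^ 3 := by
      field_simp
      ring
    rw [e]
    have a1 : |deriv (deriv K) s / q| ≤ 2 / 4000 := by
      rw [abs_div, abs_of_pos hq, div_le_iff₀ hq]
      have := hb2 s
      linarith
    have a2 : |K s * deriv K s ^ 2 / q ^ 3| ≤ 1 / 4000 := by
      have hq3 : 1 / 8 ≤ q ^ 3 := by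
        calc (1 / 8 : ℝ) = (1 / 2) ^ 3 := by norm_num
          _ ≤ q ^ 3 := by gcongr
      have hq3' : 0 < q ^ 3 := by positivity
      rw [abs_div, abs_of_pos hq3', div_le_iff₀ hq3', abs_mul, abs_pow]
      calc |K s| * |deriv K s| ^ 2 ≤ 1 / 4000 * (1 / 4000) ^ 2 := by
            gcongr
            · exact hb s
            · exact hb1 s
        _ ≤ 1 / 4000 * (1 / 8) := by norm_num
        _ ≤ 1 / 4000 * q ^ 3 := by gcongr
    calc |deriv (deriv K) s / q + K s * deriv K s ^ 2 / q ^ 3|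
        ≤ |deriv (deriv K) s / q| + |K s * deriv K s ^ 2 / q ^ 3| := abs_add_le _ _
      _ ≤ 1 / 1000 := by linarith
  · have hcont : Continuous (deriv K) := hK1.continuous
    calc ∫ s in (0 : ℝ)..S, ka K s ^ 2 ≤ ∫ s in (0 : ℝ)..S, 4 * deriv K s ^ 2 := by
          refine intervalIntegral.integral_mono hS.le ?_ ?_ ?_
          · exact (hc1.continuous.pow 2).intervalIntegrable _ _
          · exact (continuous_const.mul (hcont.pow 2)).intervalIntegrable _ _
          · intro s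
            have h1 := ka_abs hb s
            have h2 : |ka K s| ^ 2 ≤ (2 * |deriv K s|) ^ 2 := by gcongr
            rw [sq_abs, mul_pow, sq_abs] at h2
            simp only
            linarith
      _ = 4 * ∫ s in (0 : ℝ)..S, deriv K s ^ 2 := intervalIntegral.integral_const_mul _ _
      _ ≤ 1 := by linarith

theorem neg_drv {κ : ℝ → ℝ} {S : ℝ} (h : Drv κ S) : Drv (fun s => -κ s) S := by
  refine ⟨h.Sp, h.c1.neg, ?_, ?_, ?_, ?_⟩
  · intro s hs
    simp [h.zer s hs]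
  · intro s
    rw [abs_neg]
    exact h.b0 s
  · intro s
    have : deriv (fun s => -κ s) s = -deriv κ s := by
      simp [deriv.fun_neg]
    rw [this, abs_neg]
    exact h.b1 s
  · simpa using h.l2

theorem int_ka {K : ℝ → ℝ} {S : ℝ} (hK : ContDiff ℝ 2 K)
    (h0 : ∀ s : ℝ, s ≤ 0 ∨ S ≤ s → K s = 0) (hb : ∀ s, |K s| ≤ 1 / 4000)
    (hc : Continuous (ka K)) (s : ℝ) : ∫ x in s..S, ka K x = -Real.arcsin (K s) := by
  have hKd : Differentiable ℝ K := hK.differentiable (by norm_num)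
  have hd : ∀ x, HasDerivAt (fun x => Real.arcsin (K x)) (ka K x) x := by
    intro x
    obtain ⟨p1, p2⟩ := q_bd (hb x)
    have h1 : K x ≠ -1 := by
      intro h
      rw [h] at p1
      norm_num at p1
    have h2 : K x ≠ 1 := by
      intro h
      rw [h] at p1
      norm_num at p1
    have := (Real.hasDerivAt_arcsin h1 h2).comp x (hKd x).hasDerivAt
    convert! this using 1
    unfold ka
    ring
  rw [intervalIntegral.integral_eq_sub_of_hasDerivAt (fun x _ => hd x)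
    (hc.intervalIntegrable _ _), h0 S (Or.inr le_rfl), Real.arcsin_zero, zero_sub]

/-- the estimate for normalised functions -/
theorem main {C X : ℝ} (hX : 0 ≤ C * X) {l : ℝ → ℂ} {K : ℝ → ℝ} {S : ℝ}
    (hK : ContDiff ℝ 2 K) (h0 : ∀ s : ℝ, s ≤ 0 ∨ S ≤ s → K s = 0)
    (hb : ∀ s, |K s| ≤ 1 / 4000) (hc : Continuous (ka K))
    (H1 : ‖∫ s in (0 : ℝ)..S, (ka K s : ℂ) *
      Complex.exp (-I * ((∫ x in s..S, ka K x : ℝ) : ℂ)) * l s‖ ≤ C * X)
    (H2 : ‖∫ s in (0 : ℝ)..S, ((-ka K s : ℝ) : ℂ) *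
      Complex.exp (-I * ((∫ x in s..S, -ka K x : ℝ) : ℂ)) * l s‖ ≤ C * X) :
    ‖∫ s in (0 : ℝ)..S, ((deriv K s : ℝ) : ℂ) * l s‖ ≤ C * X := by
  have hqc : Continuous fun s => ((Real.sqrt (1 - K s ^ 2) : ℝ) : ℂ) :=
    continuous_ofReal.comp (Real.continuous_sqrt.comp
      (continuous_const.sub (hK.continuous.pow 2)))
  have hq0 : ∀ s, 0 < Real.sqrt (1 - K s ^ 2) := fun s => by
    have := (q_bd (hb s)).2
    linarith
  have hdk : ∀ s, ((deriv K s : ℝ) : ℂ)
      = ((Real.sqrt (1 - K s ^ 2) : ℝ) : ℂ) * (ka K s : ℂ) := by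
    intro s
    rw [← ofReal_mul]
    congr 1
    unfold ka
    field_simp [(hq0 s).ne']
  by_cases hi : IntervalIntegrable (fun s => (ka K s : ℂ) * l s) volume 0 S
  · have hψ : Continuous fun s => ((Real.arcsin (K s) : ℝ) : ℂ) :=
      continuous_ofReal.comp (Real.continuous_arcsin.comp hK.continuous)
    have i1 : IntervalIntegrable (fun s => (ka K s : ℂ) *
        Complex.exp (I * ((Real.arcsin (K s) : ℝ) : ℂ)) * l s) volume 0 S := by
      have := hi.continuousOn_mul (f := fun s => (ka K s : ℂ) * l s)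
        (g := fun s => Complex.exp (I * ((Real.arcsin (K s) : ℝ) : ℂ)))
        (Complex.continuous_exp.comp (continuous_const.mul hψ)).continuousOn
      refine this.congr fun s _ => ?_
      ring
    have i2 : IntervalIntegrable (fun s => (ka K s : ℂ) *
        Complex.exp (-(I * ((Real.arcsin (K s) : ℝ) : ℂ))) * l s) volume 0 S := by
      have := hi.continuousOn_mul (f := fun s => (ka K s : ℂ) * l s)
        (g := fun s => Complex.exp (-(I * ((Real.arcsin (K s) : ℝ) : ℂ))))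
        (Complex.continuous_exp.comp (continuous_const.mul hψ).neg).continuousOn
      refine this.congr fun s _ => ?_
      ring
    have e1 : (∫ s in (0 : ℝ)..S, (ka K s : ℂ) *
        Complex.exp (-I * ((∫ x in s..S, ka K x : ℝ) : ℂ)) * l s)
        = ∫ s in (0 : ℝ)..S, (ka K s : ℂ) *
          Complex.exp (I * ((Real.arcsin (K s) : ℝ) : ℂ)) * l s := by
      refine intervalIntegral.integral_congr fun s _ => ?_
      simp only [int_ka hK h0 hb hc s]
      push_cast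
      ring_nf
    have e2 : (∫ s in (0 : ℝ)..S, ((-ka K s : ℝ) : ℂ) *
        Complex.exp (-I * ((∫ x in s..S, -ka K x : ℝ) : ℂ)) * l s)
        = -∫ s in (0 : ℝ)..S, (ka K s : ℂ) *
          Complex.exp (-(I * ((Real.arcsin (K s) : ℝ) : ℂ))) * l s := by
      rw [← intervalIntegral.integral_neg]
      refine intervalIntegral.integral_congr fun s _ => ?_
      simp only [intervalIntegral.integral_neg, int_ka hK h0 hb hc s]
      push_cast
      ring_nf
    rw [e1] at H1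
    rw [e2, norm_neg] at H2
    have e3 : (∫ s in (0 : ℝ)..S, ((deriv K s : ℝ) : ℂ) * l s)
        = (1 / 2 : ℂ) * ((∫ s in (0 : ℝ)..S, (ka K s : ℂ) *
          Complex.exp (I * ((Real.arcsin (K s) : ℝ) : ℂ)) * l s) +
          ∫ s in (0 : ℝ)..S, (ka K s : ℂ) *
          Complex.exp (-(I * ((Real.arcsin (K s) : ℝ) : ℂ))) * l s) := by
      rw [← intervalIntegral.integral_add i1 i2, ← intervalIntegral.integral_const_mul]
      refine intervalIntegral.integral_congr fun s _ => ?_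
      rw [hdk s, ← Real.cos_arcsin, ofReal_cos, Complex.cos]
      ring_nf
    rw [e3, norm_mul]
    have h4 : ‖(1 / 2 : ℂ)‖ = 1 / 2 := by norm_num
    rw [h4]
    have h5 := norm_add_le (∫ s in (0 : ℝ)..S, (ka K s : ℂ) *
          Complex.exp (I * ((Real.arcsin (K s) : ℝ) : ℂ)) * l s)
      (∫ s in (0 : ℝ)..S, (ka K s : ℂ) *
          Complex.exp (-(I * ((Real.arcsin (K s) : ℝ) : ℂ))) * l s)
    linarith
  · have hn : ¬ IntervalIntegrable (fun s => ((deriv K s : ℝ) : ℂ) * l s) volume 0 S := by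
      intro h
      apply hi
      have := h.continuousOn_mul (f := fun s => ((deriv K s : ℝ) : ℂ) * l s)
        (g := fun s => (((Real.sqrt (1 - K s ^ 2) : ℝ) : ℂ))⁻¹)
        (hqc.inv₀ fun s => by
          have := (hq0 s).ne'
          exact_mod_cast this).continuousOn
      refine this.congr fun s _ => ?_
      rw [hdk s]
      have h6 : ((Real.sqrt (1 - K s ^ 2) : ℝ) : ℂ) ≠ 0 := by
        have := (hq0 s).ne'
        exact_mod_cast this
      field_simp
    rw [intervalIntegral.integral_undef hn, norm_zero]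
    exact hX

end HomX

open HomX

theorem prfHom (hM : MainI) : Hom := by
  obtain ⟨C, hC, H⟩ := hM
  refine ⟨4000 * C, by positivity, ?_⟩
  intro lam X hPX z hz K S B hS hB hK h0 hb hb1 hb2 hL
  have hA : (0 : ℝ) < 4000 * B := by positivity
  obtain ⟨K₁, hK₁⟩ : ∃ K₁ : ℝ → ℝ, K₁ = fun s => K s / (4000 * B) := ⟨_, rfl⟩
  have hd1 : deriv K₁ = fun s => deriv K s / (4000 * B) := by
    funext s
    rw [hK₁, deriv_div_const]
  have hd2 : deriv (deriv K₁) = fun s => deriv (deriv K) s / (4000 * B) := by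
    rw [hd1]
    funext s
    rw [deriv_div_const]
  have hs : ∀ x : ℝ, |x| ≤ B → |x / (4000 * B)| ≤ 1 / 4000 := by
    intro x hx
    rw [abs_div, abs_of_pos hA, div_le_iff₀ hA]
    linarith
  have c1 : ContDiff ℝ 2 K₁ := by
    rw [hK₁]
    exact hK.div_const _
  have c2 : ∀ s : ℝ, s ≤ 0 ∨ S ≤ s → K₁ s = 0 := by
    intro s hs
    rw [hK₁]
    simp [h0 s hs]
  have c3 : ∀ s, |K₁ s| ≤ 1 / 4000 := fun s => by rw [hK₁]; exact hs _ (hb s)
  have c4 : ∀ s, |deriv K₁ s| ≤ 1 / 4000 := fun s => by rw [hd1]; exact hs _ (hb1 s)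
  have c5 : ∀ s, |deriv (deriv K₁) s| ≤ 1 / 4000 := fun s => by rw [hd2]; exact hs _ (hb2 s)
  have c6 : ∫ s in (0 : ℝ)..S, deriv K₁ s ^ 2 ≤ 1 / 4 := by
    rw [hd1]
    have e : (fun s => (deriv K s / (4000 * B)) ^ 2)
        = fun s => deriv K s ^ 2 * (1 / (4000 * B) ^ 2) := by
      funext s
      field_simp
    simp only [e]
    rw [intervalIntegral.integral_mul_const]
    have h1 : B ^ 2 * (1 / (4000 * B) ^ 2) ≤ 1 / 4 := by
      have : B ^ 2 * (1 / (4000 * B) ^ 2) = 1 / 4000 ^ 2 := by field_simp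
      rw [this]
      norm_num
    refine le_trans ?_ h1
    gcongr
  have hD := drv hS c1 c2 c3 c4 c5 c6
  have H1 := H lam X hPX z hz (ka K₁) S hD
  have H2 := H lam X hPX z hz (fun s => -ka K₁ s) S (neg_drv hD)
  have h3 := main (le_trans (norm_nonneg _) H1) c1 c2 c3 hD.c1.continuous H1 H2
  have e : (∫ s in (0 : ℝ)..S, ((deriv K s : ℝ) : ℂ) * ell lam z s)
      = ((4000 * B : ℝ) : ℂ) * ∫ s in (0 : ℝ)..S, ((deriv K₁ s : ℝ) : ℂ) * ell lam z s := by
    rw [← intervalIntegral.integral_const_mul]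
    refine intervalIntegral.integral_congr fun s _ => ?_
    simp only [hd1]
    rw [← mul_assoc, ← ofReal_mul]
    congr 2
    field_simp
  rw [e, norm_mul, Complex.norm_real, Real.norm_eq_abs, abs_of_pos hA]
  calc 4000 * B * ‖∫ s in (0 : ℝ)..S, ((deriv K₁ s : ℝ) : ℂ) * ell lam z s‖
      ≤ 4000 * B * (C * X) := by gcongr
    _ = 4000 * C * X * B := by ring

end Pool.Agent.MultS.LB

end

section

/-!
# Item KV: integrals of the boundary function
-/

set_option autoImplicit false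

open Complex Metric Set Filter Topology MeasureTheory
open Pool.Agent.MultS.Lip

namespace Pool.Agent.MultS.LB

namespace KVX

/-- the function on the strip -/
noncomputable def BB (A : ℂ → ℂ) (w : ℂ) : ℂ := A (phi (Complex.exp w))

lemma add_ne {w : ℂ} (hw : 0 ≤ w.re) : w + 1 ≠ 0 := by
  intro h
  have := congrArg Complex.re h
  simp only [add_re, one_re, zero_re] at this
  linarith

lemma norm_phi {w : ℂ} (hw : 0 ≤ w.re) : ‖phi w‖ ≤ 1 := by
  unfold phi
  have h1 : 0 < ‖w + 1‖ := norm_pos_iff.2 (add_ne hw)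
  rw [norm_div, div_le_one h1]
  have h2 : ‖w - 1‖ ^ 2 ≤ ‖w + 1‖ ^ 2 := by
    rw [← Complex.normSq_eq_norm_sq, ← Complex.normSq_eq_norm_sq, Complex.normSq_apply,
      Complex.normSq_apply]
    simp only [sub_re, sub_im, add_re, add_im, one_re, one_im]
    nlinarith
  exact le_of_sq_le_sq h2 h1.le

lemma exp_re_nonneg {w : ℂ} (hw : w.im ∈ Icc (0 : ℝ) (Real.pi / 2)) :
    0 ≤ (Complex.exp w).re := by
  rw [Complex.exp_re]
  exact mul_nonneg (Real.exp_pos _).le (Real.cos_nonneg_of_mem_Icc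
    ⟨by linarith [hw.1, Real.pi_pos], hw.2⟩)

lemma BB_norm {A : ℂ → ℂ} {ρ : ℝ} (hA : RealA A ρ) {w : ℂ}
    (hw : w.im ∈ Icc (0 : ℝ) (Real.pi / 2)) : ‖BB A w‖ ≤ 1 :=
  hA.bd _ (norm_phi (exp_re_nonneg hw))

lemma BB_diff {A : ℂ → ℂ} {ρ : ℝ} (hA : RealA A ρ) {w : ℂ}
    (hw : w.im ∈ Icc (0 : ℝ) (Real.pi / 2)) : DifferentiableAt ℂ (BB A) w := by
  have h0 := exp_re_nonneg hw
  have h1 : phi (Complex.exp w) ∈ ball (0 : ℂ) ρ := by
    rw [mem_ball_zero_iff]
    exact (norm_phi h0).trans_lt hA.rho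
  have h2 : DifferentiableAt ℂ A (phi (Complex.exp w)) :=
    (hA.dif _ h1).differentiableAt (isOpen_ball.mem_nhds h1)
  have h3 : DifferentiableAt ℂ (fun w => phi (Complex.exp w)) w := by
    unfold phi
    exact (Complex.differentiableAt_exp.sub_const 1).div
      (Complex.differentiableAt_exp.add_const 1) (add_ne h0)
  exact h2.comp w h3

lemma BB_real {A : ℂ → ℂ} {ρ : ℝ} (hA : RealA A ρ) (x : ℝ) : (BB A (x : ℂ)).im = 0 := by
  have h0 : (0 : ℝ) ≤ (Complex.exp (x : ℂ)).re :=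
    exp_re_nonneg (by
      rw [ofReal_im]
      exact ⟨le_refl 0, by positivity⟩)
  have h1 : phi (Complex.exp (x : ℂ)) ∈ ball (0 : ℂ) ρ := by
    rw [mem_ball_zero_iff]
    exact (norm_phi h0).trans_lt hA.rho
  have h2 : (starRingEnd ℂ) (phi (Complex.exp (x : ℂ))) = phi (Complex.exp (x : ℂ)) := by
    unfold phi
    rw [map_div₀, map_sub, map_add, map_one, ← Complex.exp_conj, Complex.conj_ofReal]
  have h3 := hA.sym _ h1
  rw [h2] at h3
  exact Complex.conj_eq_iff_im.1 h3.symm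

lemma BB_top (A : ℂ → ℂ) (x : ℝ) :
    (BB A ((x : ℂ) + ((Real.pi / 2 : ℝ) : ℂ) * I)).im = vv A x := by
  unfold BB vv
  rw [Complex.exp_add, Complex.ofReal_div, Complex.ofReal_ofNat, Complex.exp_pi_div_two_mul_I,
    ← Complex.ofReal_exp, mul_comm]

lemma vert {A : ℂ → ℂ} {ρ : ℝ} (hA : RealA A ρ) (t : ℝ) :
    ‖∫ y in (0 : ℝ)..(Real.pi / 2), BB A ((t : ℂ) + (y : ℂ) * I)‖ ≤ Real.pi / 2 := by
  have h := intervalIntegral.norm_integral_le_of_norm_le_const (a := (0 : ℝ)) (b := Real.pi / 2)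
    (f := fun y : ℝ => BB A ((t : ℂ) + (y : ℂ) * I)) (C := 1) (fun y hy => by
      rw [uIoc_of_le (by positivity)] at hy
      apply BB_norm hA
      simp only [add_im, ofReal_im, mul_im, ofReal_re, I_im, I_re, mul_one, mul_zero, zero_add,
        add_zero]
      exact ⟨hy.1.le, hy.2⟩)
  rw [one_mul, sub_zero, abs_of_nonneg (by positivity)] at h
  exact h

lemma fin {A : ℂ → ℂ} {ρ : ℝ} (hA : RealA A ρ) (τ T : ℝ) :
    |∫ σ in τ..T, vv A σ| ≤ Real.pi := by
  have hpi : (0 : ℝ) ≤ Real.pi / 2 := by positivity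
  have hz : ((τ : ℂ)).im = 0 := ofReal_im τ
  have hw1 : ((T : ℂ) + ((Real.pi / 2 : ℝ) : ℂ) * I).re = T := by simp
  have hw2 : ((T : ℂ) + ((Real.pi / 2 : ℝ) : ℂ) * I).im = Real.pi / 2 := by simp
  have H : DifferentiableOn ℂ (BB A) (uIcc ((τ : ℂ)).re ((T : ℂ) +
      ((Real.pi / 2 : ℝ) : ℂ) * I).re ×ℂ uIcc ((τ : ℂ)).im ((T : ℂ) +
      ((Real.pi / 2 : ℝ) : ℂ) * I).im) := by
    intro w hw
    rw [mem_reProdIm, hw2, hz, uIcc_of_le hpi] at hw
    exact (BB_diff hA hw.2).differentiableWithinAt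
  have h1 := Complex.integral_boundary_rect_eq_zero_of_differentiableOn (BB A) _ _ H
  rw [hw1, hw2, hz, ofReal_re] at h1
  simp only [ofReal_zero, zero_mul, add_zero, smul_eq_mul] at h1
  -- continuity on the horizontal sides
  have c0 : Continuous fun x : ℝ => BB A (x : ℂ) := by
    rw [continuous_iff_continuousAt]
    intro x
    have := (BB_diff hA (w := (x : ℂ)) (by
      rw [ofReal_im]
      exact ⟨le_refl 0, hpi⟩)).continuousAt
    exact ContinuousAt.comp (f := fun x : ℝ => (x : ℂ)) this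
      Complex.continuous_ofReal.continuousAt
  have c1 : Continuous fun x : ℝ => BB A ((x : ℂ) + ((Real.pi / 2 : ℝ) : ℂ) * I) := by
    rw [continuous_iff_continuousAt]
    intro x
    have := (BB_diff hA (w := (x : ℂ) + ((Real.pi / 2 : ℝ) : ℂ) * I) (by
      simp only [add_im, ofReal_im, mul_im, ofReal_re, I_im, I_re, mul_one, mul_zero, zero_add,
        add_zero]
      exact ⟨hpi, le_refl _⟩)).continuousAt
    exact ContinuousAt.comp (f := fun x : ℝ => (x : ℂ) + ((Real.pi / 2 : ℝ) : ℂ) * I) this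
      (by fun_prop)
  have e0 : (∫ x in τ..T, BB A (x : ℂ)).im = 0 := by
    have : (∫ x in τ..T, BB A (x : ℂ)).im = ∫ x in τ..T, (BB A (x : ℂ)).im :=
      (Complex.imCLM.intervalIntegral_comp_comm (c0.intervalIntegrable τ T)).symm
    rw [this]
    simp only [BB_real hA, intervalIntegral.integral_zero]
  have e1 : (∫ x in τ..T, BB A ((x : ℂ) + ((Real.pi / 2 : ℝ) : ℂ) * I)).im =
      ∫ x in τ..T, vv A x := by
    have : (∫ x in τ..T, BB A ((x : ℂ) + ((Real.pi / 2 : ℝ) : ℂ) * I)).im =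
        ∫ x in τ..T, (BB A ((x : ℂ) + ((Real.pi / 2 : ℝ) : ℂ) * I)).im :=
      (Complex.imCLM.intervalIntegral_comp_comm (c1.intervalIntegrable τ T)).symm
    rw [this]
    exact intervalIntegral.integral_congr fun x _ => BB_top A x
  have h2 : (∫ x in τ..T, BB A ((x : ℂ) + ((Real.pi / 2 : ℝ) : ℂ) * I)) =
      (∫ x in τ..T, BB A (x : ℂ)) +
      I * ((∫ y in (0 : ℝ)..(Real.pi / 2), BB A ((T : ℂ) + (y : ℂ) * I)) -
        ∫ y in (0 : ℝ)..(Real.pi / 2), BB A ((τ : ℂ) + (y : ℂ) * I)) := by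
    linear_combination -h1
  have h3 := congrArg Complex.im h2
  rw [e1, add_im, e0, zero_add] at h3
  rw [h3]
  refine (Complex.abs_im_le_norm _).trans ?_
  rw [norm_mul, Complex.norm_I, one_mul]
  refine (norm_sub_le _ _).trans ?_
  have := vert hA T
  have := vert hA τ
  linarith

end KVX

theorem prfKV : KV := by
  intro A ρ hA τ
  by_cases hi : IntegrableOn (vv A) (Ioi τ)
  · have h1 := intervalIntegral_tendsto_integral_Ioi τ hi tendsto_id
    have h2 := h1.abs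
    exact le_of_tendsto h2 (Eventually.of_forall fun T => KVX.fin hA τ T)
  · rw [integral_undef hi, abs_zero]
    exact Real.pi_pos.le

end Pool.Agent.MultS.LB

end

section

/-! # The `L²` bound of the driving function of a real `A` -/

set_option autoImplicit false

open Complex Metric Set Filter Topology MeasureTheory
open Pool.Agent.MultS.Lip
open scoped FourierTransform

namespace Pool.Agent.MultS.LB

theorem prfKapA (hVV : VV) (hS : Strip2) (hK : KapL2) (hFA : FA) (hV : VL2) : KapA := by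
  obtain ⟨C, hC, hKC⟩ := hK
  have hpi := Real.pi_pos
  refine ⟨C * (Real.pi / 2 * Real.pi + Real.pi * Real.pi), by positivity, ?_⟩
  intro A ρ hA hint
  obtain ⟨c, hdec, -, hder⟩ := hVV A ρ hA
  obtain ⟨⟨b, cF, hb, hdiff, hbound⟩, hconj, hInt⟩ := hFA A ρ hA
  obtain ⟨hi, hle⟩ := hKC (vv A) c hdec
  refine ⟨hi, ?_⟩
  have h1 : ENNReal.ofReal (∫ σ : ℝ, vv A σ ^ 2) ≤
      ENNReal.ofReal (Real.pi / 2) * ENNReal.ofReal Real.pi :=
    (hV A ρ hA).trans (mul_le_mul_right hint _)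
  have hfun : (fun x : ℝ => ((deriv (vv A) x : ℝ) : ℂ)) = fun x : ℝ =>
      (fA A ((x : ℂ) + (Real.pi / 2 : ℝ) * I) - fA A ((x : ℂ) - (Real.pi / 2 : ℝ) * I))
        / (2 * I) := by
    funext x
    have e1 : (x : ℂ) - ((Real.pi / 2 : ℝ) : ℂ) * I
        = (starRingEnd ℂ) ((x : ℂ) + ((Real.pi / 2 : ℝ) : ℂ) * I) := by
      rw [map_add, map_mul, Complex.conj_ofReal, Complex.conj_ofReal, Complex.conj_I]
      ring
    have him : |((x : ℂ) + ((Real.pi / 2 : ℝ) : ℂ) * I).im| ≤ Real.pi / 2 := by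
      have : ((x : ℂ) + ((Real.pi / 2 : ℝ) : ℂ) * I).im = Real.pi / 2 := by
        simp
      rw [this, abs_of_pos (by positivity)]
    rw [e1, hconj _ him, Complex.sub_conj, hder x]
    have hI : (2 * I : ℂ) ≠ 0 := mul_ne_zero two_ne_zero Complex.I_ne_zero
    rw [eq_div_iff hI]
    push_cast
    ring
  have h2 : ∫⁻ ξ : ℝ, ENNReal.ofReal
      (‖𝓕 (fun x : ℝ => ((deriv (vv A) x : ℝ) : ℂ)) ξ‖ ^ 2 / (1 + |ξ|)) ≤
      ENNReal.ofReal Real.pi * ENNReal.ofReal Real.pi := by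
    rw [hfun]
    exact (hS (fA A) b cF hb hdiff hbound).trans (mul_le_mul_right (hInt.trans hint) _)
  have h3 : ENNReal.ofReal (∫ s : ℝ, kap (vv A) s ^ 2) ≤
      ENNReal.ofReal (C * (Real.pi / 2 * Real.pi + Real.pi * Real.pi)) := by
    refine hle.trans ?_
    rw [ENNReal.ofReal_mul hC.le, ENNReal.ofReal_add (by positivity) (by positivity),
      ENNReal.ofReal_mul (by positivity : (0 : ℝ) ≤ Real.pi / 2), ENNReal.ofReal_mul hpi.le]
    exact mul_le_mul_right (add_le_add h1 h2) _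
  exact (ENNReal.ofReal_le_ofReal_iff (by positivity)).1 h3

end Pool.Agent.MultS.LB

end
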