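import Pool.Agent.Work.MP_b17785_an.Lip.StmtsE
import Pool.Agent.Work.MP_b17785_an.Gol.All
import Pool.Agent.Work.MP_b17785_an.All
import Pool.Agent.Work.MP_b17785_an.Lip.StmtsU
import Pool.Agent.Work.MP_b17785_an.Bd.B11
import Pool.Agent.Work.MP_b17785_an.Bd.B04
import Pool.Agent.Work.MP_b17785_an.Bd.B08
import Pool.Agent.Work.MP_b17785_an.UB.Stmts
import Pool.Agent.Work.MP_b17785_an.Bd.B07

/-! Bundle of small proof modules (one section per former module). -/

section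

/-!
# `S` is closed under coefficientwise limits
-/

set_option autoImplicit false

open Complex Metric Set Filter Topology MeasureTheory

namespace Pool.Agent.MultS

namespace LipLimX

theorem tcBound (f : ℂ → ℂ) (hf : Sc f) (n : ℕ) : ‖tc f n‖ ≤ 3 * n := by
  rcases Nat.eq_zero_or_pos n with h | h
  · subst h
    rw [tc_zero, hf.2.2.1]
    simp
  · exact littAll f hf n h

theorem summ (r : ℝ) (h0 : 0 ≤ r) (h1 : r < 1) : Summable (fun n : ℕ => 3 * (n : ℝ) * r ^ n) := by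
  have h := (summable_pow_mul_geometric_of_norm_lt_one 1 (r := r)
    (by rw [Real.norm_eq_abs, abs_of_nonneg h0]; exact h1)).mul_left 3
  refine h.congr (fun n => ?_)
  rw [pow_one]
  ring

end LipLimX

open LipLimX in
theorem prfLipLim : LipLim := by
  intro F c hF hc
  have hcb : ∀ n : ℕ, ‖c n‖ ≤ 3 * n := by
    intro n
    exact le_of_tendsto (hc n).norm (Eventually.of_forall fun k => tcBound (F k) (hF k) n)
  have hsm : ∀ (d : ℕ → ℂ), (∀ n : ℕ, ‖d n‖ ≤ 3 * n) → ∀ z ∈ ball (0 : ℂ) 1,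
      Summable (fun n : ℕ => d n * z ^ n) := by
    intro d hd z hz
    have hz1 : ‖z‖ < 1 := mem_ball_zero_iff.1 hz
    refine Summable.of_norm_bounded (summ ‖z‖ (norm_nonneg z) hz1) (fun n => ?_)
    rw [norm_mul, norm_pow]
    exact mul_le_mul_of_nonneg_right (hd n) (by positivity)
  let f : ℂ → ℂ := fun z => ∑' n : ℕ, c n * z ^ n
  have hsum : ∀ z ∈ ball (0 : ℂ) 1, HasSum (fun n => c n * z ^ n) (f z) :=
    fun z hz => (hsm c hcb z hz).hasSum
  have htc : ∀ n, tc f n = c n := fun n => tc_of_hasSum hsum n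
  have hlim : ∀ z ∈ ball (0 : ℂ) 1, Tendsto (fun k => F k z) atTop (𝓝 (f z)) := by
    intro z hz
    have hz1 : ‖z‖ < 1 := mem_ball_zero_iff.1 hz
    have h1 : ∀ k, F k z = ∑' n : ℕ, tc (F k) n * z ^ n :=
      fun k => (hasSum_tc (hF k).1 hz).tsum_eq.symm
    have h2 : Tendsto (fun k => ∑' n : ℕ, tc (F k) n * z ^ n) atTop
        (𝓝 (∑' n : ℕ, c n * z ^ n)) := by
      refine tendsto_tsum_of_dominated_convergence (summ ‖z‖ (norm_nonneg z) hz1) ?_ ?_
      · intro n
        exact (hc n).mul_const _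
      · refine Eventually.of_forall (fun k n => ?_)
        rw [norm_mul, norm_pow]
        exact mul_le_mul_of_nonneg_right (tcBound (F k) (hF k) n) (by positivity)
    exact h2.congr (fun k => (h1 k).symm)
  have hdiff : DifferentiableOn ℂ f (ball 0 1) := by
    have h := (fps_of_hasSum hsum).differentiableOn
    intro z hz
    have hz' : z ∈ Metric.eball (0 : ℂ) 1 := by
      rw [Metric.mem_eball, edist_zero_right, enorm_eq_nnnorm]
      have : ‖z‖ < 1 := mem_ball_zero_iff.1 hz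
      exact_mod_cast this
    have h2 := h z hz'
    exact (h2.differentiableAt (Metric.isOpen_eball.mem_nhds hz')).differentiableWithinAt
  refine ⟨f, ⟨hdiff, ?_, ?_, ?_⟩, htc⟩
  · intro a ha b hb hab
    have ha1 : ‖a‖ < 1 := mem_ball_zero_iff.1 ha
    have hb1 : ‖b‖ < 1 := mem_ball_zero_iff.1 hb
    set r : ℝ := max ‖a‖ ‖b‖ with hr
    have hr0 : 0 ≤ r := le_trans (norm_nonneg a) (le_max_left _ _)
    have hr1 : r < 1 := max_lt ha1 hb1
    have hk : ∀ k, (1 - r) / (1 + r) ^ 3 * ‖a - b‖ ≤ ‖F k a - F k b‖ :=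
      fun k => gol (F k) (hF k) r hr0 hr1 a b (le_max_left _ _) (le_max_right _ _)
    have hl : Tendsto (fun k => ‖F k a - F k b‖) atTop (𝓝 ‖f a - f b‖) :=
      ((hlim a ha).sub (hlim b hb)).norm
    have h3 : (1 - r) / (1 + r) ^ 3 * ‖a - b‖ ≤ ‖f a - f b‖ :=
      ge_of_tendsto hl (Eventually.of_forall hk)
    rw [hab, sub_self, norm_zero] at h3
    have hpos : 0 < (1 - r) / (1 + r) ^ 3 := div_pos (by linarith) (by positivity)
    have h4 : ‖a - b‖ ≤ 0 := by
      by_contra hcon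
      push Not at hcon
      have := mul_pos hpos hcon
      linarith
    have h5 : ‖a - b‖ = 0 := le_antisymm h4 (norm_nonneg _)
    exact sub_eq_zero.1 (norm_eq_zero.1 h5)
  · have h0 := htc 0
    rw [tc_zero] at h0
    have : c 0 = 0 := by
      have h1 : ‖c 0‖ ≤ 0 := by simpa using hcb 0
      exact norm_le_zero_iff.1 h1
    rw [h0, this]
  · have h1 := htc 1
    rw [tc_one] at h1
    rw [h1]
    have h2 : ∀ k, tc (F k) 1 = 1 := fun k => by rw [tc_one]; exact (hF k).2.2.2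
    have h3 := hc 1
    simp only [h2] at h3
    exact (tendsto_nhds_unique h3 tendsto_const_nhds)

end Pool.Agent.MultS

end

section

/-!
# Uniform growth of the derivative
-/

set_option autoImplicit false

open Complex Metric Set Filter Topology MeasureTheory

namespace Pool.Agent.MultS.Lip

theorem prfGrowU : GrowU := by
  intro β r0 hβ hr0 hr0'
  set r1 : ℝ := max r0 (1 / 2) with hr1
  have hr1a : 1 / 2 ≤ r1 := le_max_right _ _
  have hr1b : r1 < 1 := max_lt hr0' (by norm_num)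
  obtain ⟨M, hMd⟩ : ∃ M : ℝ, M = 6 / (1 - r1) ^ 3 := ⟨_, rfl⟩
  have h1r : 0 < 1 - r1 := by linarith
  have hM0 : 0 ≤ M := by rw [hMd]; positivity
  refine ⟨2 * M, fun h hh hP0 z hz => ?_⟩
  have hP1 : ∀ z ∈ ball (0 : ℂ) 1, r1 ≤ ‖z‖ → (PP h z).re ≤ β / 2 / (1 - ‖z‖) :=
    fun z hz hz' => hP0 z hz ((le_max_left _ _).trans hz')
  -- bound on the compact ball
  have hM : ∀ z ∈ closedBall (0 : ℂ) r1, ‖deriv h z‖ ≤ M := by
    intro z hz
    rw [mem_closedBall_zero_iff] at hz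
    have hzb : z ∈ ball (0 : ℂ) 1 := by rw [mem_ball_zero_iff]; linarith
    refine (G4'.deriv_bound littAll prfSer hh hzb).trans ?_
    rw [hMd]
    have h3 : (0 : ℝ) < (1 - r1) ^ 3 := by positivity
    have h4 : (1 - r1) ^ 3 ≤ (1 - ‖z‖) ^ 3 := pow_le_pow_left₀ h1r.le (by linarith) 3
    exact div_le_div_of_nonneg_left (by norm_num) h3 h4
  have hz1 : ‖z‖ < 1 := by simpa using hz
  have hz2 : 0 < 1 - ‖z‖ := by linarith
  have hone : 1 ≤ (1 - ‖z‖) ^ (-β) :=
    Real.one_le_rpow_of_pos_of_le_one_of_nonpos hz2 (by linarith [norm_nonneg z]) (by linarith)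
  rcases le_or_gt ‖z‖ r1 with hc | hc
  · have h1 := hM z (by simpa using hc)
    nlinarith
  · have hz0 : 0 < ‖z‖ := by linarith
    set y : ℂ := z / (‖z‖ : ℂ) with hy
    have hzc : (‖z‖ : ℂ) ≠ 0 := by exact_mod_cast hz0.ne'
    have hy1 : ‖y‖ = 1 := by
      rw [hy, norm_div, Complex.norm_real, norm_norm, div_self hz0.ne']
    have hzy : (‖z‖ : ℂ) * y = z := by
      rw [hy]
      field_simp
    have h1 := E1.antitone_ray hh hβ hr1a hr1b hP1 hy1 ⟨le_rfl, hr1b⟩ ⟨hc.le, hz1⟩ hc.le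
    simp only at h1
    rw [hzy] at h1
    have h2 : ‖FF h ((r1 : ℂ) * y)‖ ≤ M := by
      unfold FF
      rw [norm_mul]
      have h3 : ‖(r1 : ℂ) * y‖ ≤ 1 := by
        rw [norm_mul, Complex.norm_real, hy1, mul_one, Real.norm_of_nonneg (by linarith)]
        exact hr1b.le
      have h4 : ‖deriv h ((r1 : ℂ) * y)‖ ≤ M := by
        apply hM
        rw [mem_closedBall_zero_iff, norm_mul, Complex.norm_real, hy1, mul_one,
          Real.norm_of_nonneg (by linarith)]
      nlinarith [norm_nonneg ((r1 : ℂ) * y), norm_nonneg (deriv h ((r1 : ℂ) * y))]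
    have h5 : ‖FF h ((r1 : ℂ) * y)‖ ^ 2 * (1 - r1) ^ (2 * β) ≤ M ^ 2 := by
      have h6 : (1 - r1) ^ (2 * β) ≤ 1 :=
        Real.rpow_le_one (by linarith) (by linarith) (by linarith)
      have h7 : ‖FF h ((r1 : ℂ) * y)‖ ^ 2 ≤ M ^ 2 := pow_le_pow_left₀ (norm_nonneg _) h2 2
      calc _ ≤ M ^ 2 * 1 := mul_le_mul h7 h6 (Real.rpow_nonneg (by linarith) _) (by positivity)
        _ = M ^ 2 := mul_one _
    have h8 : (‖FF h z‖ * (1 - ‖z‖) ^ β) ^ 2 ≤ M ^ 2 := by
      rw [mul_pow, ← Real.rpow_natCast ((1 - ‖z‖) ^ β) 2, ← Real.rpow_mul hz2.le]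
      refine le_trans (le_of_eq ?_) (h1.trans h5)
      congr 2
      push_cast
      ring
    have h9 : ‖FF h z‖ * (1 - ‖z‖) ^ β ≤ M :=
      (pow_le_pow_iff_left₀ (by positivity) hM0 (by norm_num)).1 h8
    have h10 : ‖FF h z‖ ≤ M * (1 - ‖z‖) ^ (-β) := by
      rw [Real.rpow_neg hz2.le, ← div_eq_mul_inv, le_div_iff₀ (Real.rpow_pos_of_pos hz2 _)]
      exact h9
    have h11 : ‖FF h z‖ = ‖z‖ * ‖deriv h z‖ := by unfold FF; rw [norm_mul]
    have h12 : 1 / 2 ≤ ‖z‖ := by linarith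
    nlinarith [norm_nonneg (deriv h z)]

end Pool.Agent.MultS.Lip

end

section

/-!
# [U2] Uniform lower bound for `J(-p, .)`
-/

set_option autoImplicit false

open Complex Metric Set Filter Topology MeasureTheory Finset

namespace Pool.Agent.MultS.Lip

namespace LowU'

/-- Lower bound for `J(0, .)`. -/
lemma lower0 {lam : ℕ → ℂ} {h : ℂ → ℂ} (hG : Gen lam h) :
    ∀ z ∈ ball (0 : ℂ) 1, 1 / 4 ≤ ‖JJ lam 0 z‖ := by
  intro z hz
  by_cases hz0 : z = 0
  · rw [hz0, F1.JJ_zero hG, norm_one]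
    norm_num
  · have h1 := (prfHDer prfSer lam h hG z hz).2
    have h2 := growL hG.1 hz
    rw [← h1, norm_mul] at h2
    have hn : 0 < ‖z‖ := norm_pos_iff.2 hz0
    have hz1 : ‖z‖ < 1 := mem_ball_zero_iff.1 hz
    have h3 : ‖z‖ * (1 / 4) ≤ ‖z‖ * ‖JJ lam 0 z‖ := by
      refine le_trans ?_ h2
      rw [mul_one_div]
      refine div_le_div_of_nonneg_left hn.le (by positivity) ?_
      nlinarith
    exact le_of_mul_le_mul_left h3 hn

end LowU'

theorem prfLowU : LowU := by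
  intro C
  have hg : ∀ᶠ p in 𝓝[>] (0 : ℝ), ‖F1.gc p‖ ≤ 2 := by
    have h1 := F1.gc_tendsto.norm
    rw [norm_one] at h1
    exact (h1.eventually (gt_mem_nhds (by norm_num : (1 : ℝ) < 2))).mono fun p hp => hp.le
  have hp : ∀ᶠ p in 𝓝[>] (0 : ℝ), 0 < p ∧ p ≤ 1 / 8 := by
    filter_upwards [Ioo_mem_nhdsGT (show (0 : ℝ) < 1 / 8 by norm_num)] with p hp
    exact ⟨hp.1, hp.2.le⟩
  have he : ∀ᶠ p in 𝓝[>] (0 : ℝ), C * ∫ t in Ioo (0 : ℝ) 1, F1.err p t < 1 / 8 := by
    have h1 := F1.err_int_tendsto.const_mul C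
    rw [mul_zero] at h1
    exact h1.eventually (gt_mem_nhds (by norm_num))
  obtain ⟨p, ⟨hp0, hp1⟩, hg, he⟩ := (hp.and (hg.and he)).exists
  refine ⟨p, 1 / 8, hp0, hp1, by norm_num, fun lam h hG hC z hz => ?_⟩
  obtain ⟨hC0, hb⟩ := F2.deriv_bound hC
  have hi : IntegrableOn (F1.err p) (Ioo (0 : ℝ) 1) :=
    Integrable.mono' ((F2.integrable_one_sub (-(1 / 4)) (by norm_num)).const_mul 3)
      (F1.err_meas p) ((ae_restrict_iff' measurableSet_Ioo).2
        (Eventually.of_forall fun t ht => F1.err_bound hp0 hp1 hg ht))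
  -- integrability of the two integrands
  have hdc : ContinuousOn (fun t : ℝ => deriv h ((t : ℂ) * z)) (Ioo (0 : ℝ) 1) := by
    have hd1 : ContinuousOn (deriv h) (ball 0 1) := (hG.1.1.deriv isOpen_ball).continuousOn
    refine hd1.comp (by fun_prop) fun t ht => ?_
    rw [mem_ball_zero_iff, norm_mul, Complex.norm_real, Real.norm_of_nonneg ht.1.le]
    have hz' : ‖z‖ < 1 := by simpa using hz
    nlinarith [ht.1, ht.2, norm_nonneg z]
  have hi0 : IntegrableOn (fun t : ℝ => deriv h ((t : ℂ) * z)) (Ioo (0 : ℝ) 1) :=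
    Integrable.mono' ((F2.integrable_one_sub (-(1 / 8)) (by norm_num)).const_mul C)
      (hdc.aestronglyMeasurable measurableSet_Ioo)
      ((ae_restrict_iff' measurableSet_Ioo).2 (Eventually.of_forall fun t ht => hb z hz t ht))
  have hi1 : IntegrableOn (fun t : ℝ => deriv h ((t : ℂ) * z) * ((t : ℂ) ^ (-((-p : ℝ) : ℂ)) *
      ((1 - t : ℝ) : ℂ) ^ ((-p : ℝ) : ℂ))) (Ioo (0 : ℝ) 1) := by
    refine Integrable.mono' ((F2.integrable_one_sub (-(1 / 4)) (by norm_num)).const_mul C)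
      ((hdc.mul F1.cont_pow).aestronglyMeasurable measurableSet_Ioo)
      ((ae_restrict_iff' measurableSet_Ioo).2 (Eventually.of_forall fun t ht => ?_))
    have h0 : 0 < 1 - t := by linarith [ht.2]
    rw [norm_mul, F2.norm_pow_pow ht]
    have h3 : t ^ p ≤ 1 := Real.rpow_le_one ht.1.le ht.2.le hp0.le
    have h4 : (1 - t) ^ (-p) ≤ (1 - t) ^ (-(1 / 8 : ℝ)) :=
      Real.rpow_le_rpow_of_exponent_ge h0 (by linarith [ht.1]) (by linarith)
    have h5 : t ^ p * (1 - t) ^ (-p) ≤ (1 - t) ^ (-(1 / 8 : ℝ)) :=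
      (mul_le_mul h3 h4 (Real.rpow_nonneg h0.le _) (by norm_num)).trans (le_of_eq (one_mul _))
    calc ‖deriv h ((t : ℂ) * z)‖ * (t ^ p * (1 - t) ^ (-p))
        ≤ (C * (1 - t) ^ (-(1 / 8 : ℝ))) * (1 - t) ^ (-(1 / 8 : ℝ)) :=
          mul_le_mul (hb z hz t ht) h5 (mul_nonneg (Real.rpow_nonneg ht.1.le _)
            (Real.rpow_nonneg h0.le _)) (mul_nonneg hC0 (Real.rpow_nonneg h0.le _))
      _ = C * (1 - t) ^ (-(1 / 4 : ℝ)) := by
          rw [mul_assoc, ← Real.rpow_add h0]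
          norm_num
  have r0 : JJ lam 0 z = ∫ t in Ioo (0 : ℝ) 1, deriv h ((t : ℂ) * z) := by
    have h1 := repAll lam h hG 0 (by simp) (by simp) z hz
    rw [h1]
    simp
  have r1 := repAll lam h hG ((-p : ℝ) : ℂ) (by rw [ofReal_re]; linarith)
    (by rw [ofReal_re]; linarith) z hz
  have hdiff : JJ lam ((-p : ℝ) : ℂ) z - JJ lam 0 z = ∫ t in Ioo (0 : ℝ) 1,
      deriv h ((t : ℂ) * z) * (F1.gc p * ((t : ℂ) ^ (-((-p : ℝ) : ℂ)) *
        ((1 - t : ℝ) : ℂ) ^ ((-p : ℝ) : ℂ)) - 1) := by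
    rw [r0, r1, ← integral_const_mul, ← integral_sub (hi1.const_mul _) hi0]
    refine integral_congr_ae (Eventually.of_forall fun t => ?_)
    simp only [F1.gc]
    ring
  have hnorm : ‖JJ lam ((-p : ℝ) : ℂ) z - JJ lam 0 z‖ ≤ C * ∫ t in Ioo (0 : ℝ) 1, F1.err p t := by
    rw [hdiff, ← integral_const_mul]
    refine norm_integral_le_of_norm_le (hi.const_mul C) ?_
    refine (ae_restrict_iff' measurableSet_Ioo).2 (Eventually.of_forall fun t ht => ?_)
    rw [norm_mul]
    unfold F1.err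
    refine le_trans (mul_le_mul_of_nonneg_right (hb z hz t ht) ?_) (le_of_eq (mul_assoc _ _ _))
    exact norm_nonneg _
  have h1 := LowU'.lower0 hG z hz
  have h2 : ‖JJ lam 0 z‖ ≤ ‖JJ lam ((-p : ℝ) : ℂ) z‖ + ‖JJ lam ((-p : ℝ) : ℂ) z - JJ lam 0 z‖ := by
    have h3 := norm_sub_le (JJ lam ((-p : ℝ) : ℂ) z) (JJ lam ((-p : ℝ) : ℂ) z - JJ lam 0 z)
    rwa [sub_sub_cancel] at h3
  linarith

end Pool.Agent.MultS.Lip

end

section

/-!
# The length-area bound
-/

set_option autoImplicit false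

open Complex Metric Set Filter Topology MeasureTheory
open scoped ENNReal

namespace Pool.Agent.MultS.UB

namespace AreaX

lemma isOpen_St : IsOpen St := by
  have h1 : IsOpen {U : ℂ | -Real.pi < U.im} := isOpen_lt continuous_const continuous_im
  have h2 : IsOpen {U : ℂ | U.im < Real.pi} := isOpen_lt continuous_im continuous_const
  exact h1.inter h2

lemma measE {P : ℂ → ℂ} (hP : DifferentiableOn ℂ P St) (s t : ℝ) :
    MeasurableSet {U : ℂ | U ∈ St ∧ s ≤ ‖P U‖ ∧ ‖P U‖ < t} := by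
  have hc : ContinuousOn (fun z => ‖P z‖) St := hP.continuousOn.norm
  have h1 : IsOpen (St ∩ (fun z => ‖P z‖) ⁻¹' Iio s) :=
    hc.isOpen_inter_preimage isOpen_St isOpen_Iio
  have h2 : IsOpen (St ∩ (fun z => ‖P z‖) ⁻¹' Iio t) :=
    hc.isOpen_inter_preimage isOpen_St isOpen_Iio
  have e : {U : ℂ | U ∈ St ∧ s ≤ ‖P U‖ ∧ ‖P U‖ < t} =
      (St ∩ (fun z => ‖P z‖) ⁻¹' Iio t) \ (St ∩ (fun z => ‖P z‖) ⁻¹' Iio s) := by
    ext z
    constructor
    · rintro ⟨a, b, c⟩
      exact ⟨⟨a, c⟩, fun h => absurd h.2 (not_lt.2 b)⟩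
    · rintro ⟨⟨a, b⟩, c⟩
      exact ⟨a, not_lt.1 fun h => c ⟨a, h⟩, b⟩
  rw [e]
  exact h2.measurableSet.diff h1.measurableSet

end AreaX

theorem prfArea (h1 : Chg) (h2 : Ann) : Area := by
  intro P hP a b hab
  set E : Set ℂ := {U : ℂ | U ∈ St ∧ Real.exp a ≤ ‖P U‖ ∧ ‖P U‖ < Real.exp b} with hE
  have hEm : MeasurableSet E := AreaX.measE hP.hol _ _
  have hES : E ⊆ St := fun U hU => hU.1
  have h3 := h1 St P AreaX.isOpen_St hP.hol hP.inj E hES hEm
    (fun w => ENNReal.ofReal ((‖w‖ ^ 2)⁻¹))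
  have h4 : ∫⁻ U in E, ENNReal.ofReal (‖deriv P U / P U‖ ^ 2) =
      ∫⁻ U in E, ENNReal.ofReal (‖deriv P U‖ ^ 2) * ENNReal.ofReal ((‖P U‖ ^ 2)⁻¹) := by
    refine lintegral_congr fun U => ?_
    rw [← ENNReal.ofReal_mul (by positivity), norm_div, div_pow, div_eq_mul_inv]
  rw [h4, ← h3]
  refine (lintegral_mono_set ?_).trans (h2 a b hab)
  rintro w ⟨U, hU, rfl⟩
  exact ⟨hU.2.1, hU.2.2⟩

end Pool.Agent.MultS.UB

end

section

/-!
# Change of variables for an injective holomorphic map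
-/

set_option autoImplicit false

open Complex Metric Set Filter Topology MeasureTheory
open scoped ENNReal

namespace Pool.Agent.MultS.UB

theorem prfChg : Chg := by
  intro O F hO hF hinj E hEO hE G
  have hder : ∀ z ∈ E, HasFDerivWithinAt F (Lip.ChVar'.mulR (deriv F z)) E z := by
    intro z hz
    have h1 : HasDerivAt F (deriv F z) z :=
      ((hF z (hEO hz)).differentiableAt (hO.mem_nhds (hEO hz))).hasDerivAt
    exact (h1.hasFDerivAt.restrictScalars ℝ).hasFDerivWithinAt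
  rw [lintegral_image_eq_lintegral_abs_det_fderiv_mul volume hE hder (hinj.mono hEO)]
  refine setLIntegral_congr_fun hE fun z hz => ?_
  show ENNReal.ofReal |(Lip.ChVar'.mulR (deriv F z)).det| * G (F z) = _
  rw [Lip.ChVar'.det_mulR, abs_of_nonneg (by positivity)]

end Pool.Agent.MultS.UB

end

section

/-!
# The sublevel sets are connected
-/

set_option autoImplicit false

open Complex Metric Set Filter Topology

namespace Pool.Agent.MultS.UB

namespace ConnInX

theorem punctured {f : ℂ → ℂ} {t : ℝ} (hf : Sc f) (ho : OneOm f) :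
    IsPreconnected {w : ℂ | w ∈ f '' ball 0 1 ∧ ‖w‖ < t ∧ w ≠ 0} := by
  set U : Set ℂ := {w : ℂ | w ∈ f '' ball 0 1 ∧ ‖w‖ < t ∧ w ≠ 0} with hU
  have hUo : IsOpen U := (LipConnX.isOpen_image hf).inter
    ((isOpen_lt continuous_norm continuous_const).inter isOpen_ne)
  have hU0 : ∀ w ∈ U, w ≠ 0 := fun w hw => hw.2.2
  rw [isPreconnected_iff_subset_of_disjoint]
  intro A B hA hB hAB hdis
  have hsl : ∀ s ∈ Ioo 0 t, {w : ℂ | w ∈ f '' ball 0 1 ∧ ‖w‖ = s} ⊆ A ∨
      {w : ℂ | w ∈ f '' ball 0 1 ∧ ‖w‖ = s} ⊆ B := by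
    intro s hs
    have hsub : {w : ℂ | w ∈ f '' ball 0 1 ∧ ‖w‖ = s} ⊆ U := by
      intro w hw
      refine ⟨hw.1, by rw [hw.2]; exact hs.2, ?_⟩
      rintro rfl
      have := hw.2
      rw [norm_zero] at this
      exact hs.1.ne this
    refine isPreconnected_iff_subset_of_disjoint.1
      (LipConnX.slice ho hs.1).1 A B hA hB (hsub.trans hAB) ?_
    rw [← Set.subset_empty_iff, ← hdis]
    exact inter_subset_inter_left _ hsub
  set u : Set ℝ := (fun w : ℂ => ‖w‖) '' (U ∩ A) with hu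
  set v : Set ℝ := (fun w : ℂ => ‖w‖) '' (U ∩ B) with hv
  have huo : IsOpen u := LipConnX.isOpen_norm_image (hUo.inter hA) fun h => hU0 0 h.1 rfl
  have hvo : IsOpen v := LipConnX.isOpen_norm_image (hUo.inter hB) fun h => hU0 0 h.1 rfl
  have hmem : ∀ w ∈ U, ‖w‖ ∈ Ioo 0 t := fun w hw => ⟨norm_pos_iff.2 hw.2.2, hw.2.1⟩
  have hcov : Ioo 0 t ⊆ u ∪ v := by
    intro s hs
    obtain ⟨w, hw⟩ := (LipConnX.slice ho hs.1).2
    have hwU : w ∈ U := by
      refine ⟨hw.1, by rw [hw.2]; exact hs.2, ?_⟩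
      rintro rfl
      have := hw.2
      rw [norm_zero] at this
      exact hs.1.ne this
    rcases hAB hwU with h | h
    · exact Or.inl ⟨w, ⟨hwU, h⟩, hw.2⟩
    · exact Or.inr ⟨w, ⟨hwU, h⟩, hw.2⟩
  have hd : Ioo 0 t ∩ (u ∩ v) = ∅ := by
    rw [Set.eq_empty_iff_forall_notMem]
    rintro s ⟨hs, ⟨a, ⟨haU, haA⟩, ha⟩, ⟨b, ⟨hbU, hbB⟩, hb⟩⟩
    rcases hsl s hs with h | h
    · have : b ∈ U ∩ (A ∩ B) := ⟨hbU, h ⟨hbU.1, hb⟩, hbB⟩
      rw [hdis] at this
      exact this
    · have : a ∈ U ∩ (A ∩ B) := ⟨haU, haA, h ⟨haU.1, ha⟩⟩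
      rw [hdis] at this
      exact this
  rcases isPreconnected_iff_subset_of_disjoint.1 isPreconnected_Ioo u v huo hvo hcov hd with h | h
  · left
    intro w hw
    obtain ⟨a, ⟨haU, haA⟩, ha⟩ := h (hmem w hw)
    rcases hsl ‖w‖ (hmem w hw) with h' | h'
    · exact h' ⟨hw.1, rfl⟩
    · have : a ∈ U ∩ (A ∩ B) := ⟨haU, haA, h' ⟨haU.1, ha⟩⟩
      rw [hdis] at this
      exact this.elim
  · right
    intro w hw
    obtain ⟨a, ⟨haU, haB⟩, ha⟩ := h (hmem w hw)
    rcases hsl ‖w‖ (hmem w hw) with h' | h'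
    · have : a ∈ U ∩ (A ∩ B) := ⟨haU, h' ⟨haU.1, ha⟩, haB⟩
      rw [hdis] at this
      exact this.elim
    · exact h' ⟨hw.1, rfl⟩

theorem full {f : ℂ → ℂ} {t : ℝ} (hf : Sc f) (ho : OneOm f) (ht : 0 < t) :
    IsPreconnected {w : ℂ | w ∈ f '' ball 0 1 ∧ ‖w‖ < t} := by
  refine (punctured (t := t) hf ho).subset_closure (fun w hw => ⟨hw.1, hw.2.1⟩) ?_
  intro w hw
  by_cases h0 : w = 0
  · subst h0
    have hVo : IsOpen {w : ℂ | w ∈ f '' ball 0 1 ∧ ‖w‖ < t} :=
      (LipConnX.isOpen_image hf).inter (isOpen_lt continuous_norm continuous_const)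
    rw [Metric.mem_closure_iff]
    intro ε hε
    obtain ⟨δ, hδ, hb⟩ := Metric.isOpen_iff.1 hVo 0 hw
    have hm : 0 < min ε δ := lt_min hε hδ
    have hn : ‖(((min ε δ) / 2 : ℝ) : ℂ)‖ = (min ε δ) / 2 := by
      rw [norm_real, Real.norm_of_nonneg (by positivity)]
    have hmem : (((min ε δ) / 2 : ℝ) : ℂ) ∈ ball (0 : ℂ) δ := by
      rw [mem_ball_zero_iff, hn]
      have := min_le_right ε δ
      linarith
    have hV := hb hmem
    refine ⟨(((min ε δ) / 2 : ℝ) : ℂ), ⟨hV.1, hV.2, ?_⟩, ?_⟩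
    · rw [← norm_pos_iff, hn]; positivity
    · rw [dist_eq_norm, zero_sub, norm_neg, hn]
      have := min_le_left ε δ
      linarith
  · exact subset_closure ⟨hw.1, hw.2, h0⟩

end ConnInX

theorem prfConnIn : ConnIn := by
  intro f t hf ho
  rcases le_or_gt t 0 with ht | ht
  · have : {z : ℂ | z ∈ ball (0 : ℂ) 1 ∧ ‖f z‖ < t} = ∅ := by
      rw [Set.eq_empty_iff_forall_notMem]
      rintro z ⟨-, hz⟩
      have := norm_nonneg (f z)
      linarith
    rw [this]
    exact isPreconnected_empty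
  have hop := LipConnZX.isOpenMap_restrict hf
  have hinj : Function.Injective (fun z : ball (0 : ℂ) 1 => f z.1) :=
    fun a b h => Subtype.ext (hf.2.1 a.2 b.2 h)
  have hsub : {w : ℂ | w ∈ f '' ball 0 1 ∧ ‖w‖ < t} ⊆
      range (fun z : ball (0 : ℂ) 1 => f z.1) := by
    rintro w ⟨⟨z, hz, rfl⟩, -⟩
    exact ⟨⟨z, hz⟩, rfl⟩
  have h := ((ConnInX.full hf ho ht).preimage_of_isOpenMap hinj hop hsub).image Subtype.val
    continuous_subtype_val.continuousOn
  have he : Subtype.val '' ((fun z : ball (0 : ℂ) 1 => f z.1) ⁻¹'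
      {w : ℂ | w ∈ f '' ball 0 1 ∧ ‖w‖ < t}) = {z : ℂ | z ∈ ball (0 : ℂ) 1 ∧ ‖f z‖ < t} := by
    ext z
    constructor
    · rintro ⟨z, ⟨-, h⟩, rfl⟩
      exact ⟨z.2, h⟩
    · rintro ⟨hz, h⟩
      exact ⟨⟨z, hz⟩, ⟨⟨z, hz, rfl⟩, h⟩, rfl⟩
  rwa [he] at h

end Pool.Agent.MultS.UB

end

section

/-!
# Item U10: the cross term
-/

set_option autoImplicit false

open Complex Metric Set Filter Topology MeasureTheory
open scoped ENNReal

namespace Pool.Agent.MultS.UB

namespace CrTX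

theorem isOpen_St : IsOpen St := by
  have : St = Complex.im ⁻¹' Ioo (-Real.pi) Real.pi := rfl
  rw [this]
  exact isOpen_Ioo.preimage Complex.continuous_im

theorem meas {P : ℂ → ℂ} (hP : DifferentiableOn ℂ P St) (x L : ℝ) :
    MeasurableSet {U : ℂ | U ∈ St ∧ -L < U.re ∧ ‖P U‖ < Real.exp x} := by
  have hc : ContinuousOn (fun U => ‖P U‖) St := hP.continuousOn.norm
  have h1 : MeasurableSet (St ∩ (fun U => ‖P U‖) ⁻¹' Iio (Real.exp x)) :=
    (hc.isOpen_inter_preimage isOpen_St isOpen_Iio).measurableSet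
  have h2 : MeasurableSet {U : ℂ | -L < U.re} := measurableSet_lt measurable_const measurable_re
  have h3 : {U : ℂ | U ∈ St ∧ -L < U.re ∧ ‖P U‖ < Real.exp x} =
      (St ∩ (fun U => ‖P U‖) ⁻¹' Iio (Real.exp x)) ∩ {U : ℂ | -L < U.re} := by
    ext U
    constructor
    · rintro ⟨h4, h5, h6⟩
      exact ⟨⟨h4, h6⟩, h5⟩
    · rintro ⟨⟨h4, h6⟩, h5⟩
      exact ⟨h4, h5, h6⟩
  rw [h3]
  exact h1.inter h2

theorem line_im (u φ : ℝ) : ((u : ℂ) + (φ : ℂ) * I).im = φ := by simp

theorem line_re (u φ : ℝ) : ((u : ℂ) + (φ : ℂ) * I).re = u := by simp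

theorem line_iff (u φ : ℝ) : ((u : ℂ) + (φ : ℂ) * I) ∈ St ↔ φ ∈ Ioo (-Real.pi) Real.pi := by
  change -Real.pi < ((u : ℂ) + (φ : ℂ) * I).im ∧ ((u : ℂ) + (φ : ℂ) * I).im < Real.pi ↔ _
  rw [line_im]
  rfl

/-- The inner integral. -/
theorem inner (hR : Ray) {P : ℂ → ℂ} (hP : Sp P) {x m L : ℝ}
    (hm : ∀ U ∈ St, ‖P U‖ ≤ Real.exp x → U.re ≤ m) {φ : ℝ} (hφ : φ ∈ Ioo (-Real.pi) Real.pi)
    (hL : ‖P (((-L : ℝ) : ℂ) + (φ : ℂ) * I)‖ < Real.exp x) :
    ∫ u in {u : ℝ | (u : ℂ) + (φ : ℂ) * I ∈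
        {U : ℂ | U ∈ St ∧ -L < U.re ∧ ‖P U‖ < Real.exp x}},
      (deriv P ((u : ℂ) + (φ : ℂ) * I) / P ((u : ℂ) + (φ : ℂ) * I)).re =
      x - Real.log ‖P (((-L : ℝ) : ℂ) + (φ : ℂ) * I)‖ := by
  have hmem : ∀ u : ℝ, ((u : ℂ) + (φ : ℂ) * I) ∈ St := fun u => (line_iff u φ).2 hφ
  have hpos : ∀ u : ℝ, 0 < ‖P ((u : ℂ) + (φ : ℂ) * I)‖ :=
    fun u => norm_pos_iff.2 (hP.ne _ (hmem u))
  set b : ℝ := max m (-L) + 1 with hb
  have hLb : -L ≤ b := by
    have := le_max_right m (-L)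
    linarith
  have hl : ∀ u : ℝ, HasDerivAt (fun u : ℝ => (u : ℂ) + (φ : ℂ) * I) 1 u := by
    intro u
    have := (hasDerivAt_id u).ofReal_comp.add_const ((φ : ℂ) * I)
    simpa using this
  have hd : ∀ u : ℝ, HasDerivAt (fun u : ℝ => Real.log ‖P ((u : ℂ) + (φ : ℂ) * I)‖)
      (deriv P ((u : ℂ) + (φ : ℂ) * I) / P ((u : ℂ) + (φ : ℂ) * I)).re u := by
    intro u
    have hPd : HasDerivAt P (deriv P ((u : ℂ) + (φ : ℂ) * I)) ((u : ℂ) + (φ : ℂ) * I) :=
      ((hP.hol _ (hmem u)).differentiableAt (isOpen_St.mem_nhds (hmem u))).hasDerivAt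
    have h1 := hasDerivAt_log_norm (HasDerivAt.comp (h₂ := P) u hPd (hl u)) (hP.ne _ (hmem u))
    rw [mul_one] at h1
    exact h1
  have hlc : Continuous (fun u : ℝ => (u : ℂ) + (φ : ℂ) * I) := by fun_prop
  have hc : Continuous (fun u : ℝ =>
      (deriv P ((u : ℂ) + (φ : ℂ) * I) / P ((u : ℂ) + (φ : ℂ) * I)).re) := by
    have h5 : Continuous (fun u : ℝ => deriv P ((u : ℂ) + (φ : ℂ) * I)) :=
      (hP.hol.deriv isOpen_St).continuousOn.comp_continuous hlc hmem
    have h6 : Continuous (fun u : ℝ => P ((u : ℂ) + (φ : ℂ) * I)) :=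
      hP.hol.continuousOn.comp_continuous hlc hmem
    exact continuous_re.comp (h5.div h6 fun u => hP.ne _ (hmem u))
  obtain ⟨-, h1⟩ := hR (fun u : ℝ => Real.log ‖P ((u : ℂ) + (φ : ℂ) * I)‖)
    (fun u : ℝ => (deriv P ((u : ℂ) + (φ : ℂ) * I) / P ((u : ℂ) + (φ : ℂ) * I)).re)
    (-L) b x hLb (fun u _ => hd u) hc.continuousOn
  have hb' : x ≤ Real.log ‖P ((b : ℂ) + (φ : ℂ) * I)‖ := by
    by_contra hcon
    push Not at hcon
    have h2 := (Real.log_lt_iff_lt_exp (hpos b)).1 hcon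
    have h3 := hm _ (hmem b) h2.le
    rw [line_re] at h3
    have := le_max_left m (-L)
    linarith
  have hL' : Real.log ‖P (((-L : ℝ) : ℂ) + (φ : ℂ) * I)‖ < x :=
    (Real.log_lt_iff_lt_exp (hpos _)).2 hL
  rw [min_eq_right hb', min_eq_left hL'.le] at h1
  rw [← h1, intervalIntegral.integral_of_le hLb, ← integral_indicator measurableSet_Ioc]
  have hS : MeasurableSet {u : ℝ | (u : ℂ) + (φ : ℂ) * I ∈
      {U : ℂ | U ∈ St ∧ -L < U.re ∧ ‖P U‖ < Real.exp x}} :=
    hlc.measurable (meas hP.hol x L)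
  rw [← integral_indicator hS]
  refine integral_congr_ae (Eventually.of_forall fun u => ?_)
  by_cases hu : -L < u ∧ ‖P ((u : ℂ) + (φ : ℂ) * I)‖ < Real.exp x
  · rw [indicator_of_mem (show u ∈ {u : ℝ | (u : ℂ) + (φ : ℂ) * I ∈
      {U : ℂ | U ∈ St ∧ -L < U.re ∧ ‖P U‖ < Real.exp x}} from
      ⟨hmem u, by rw [line_re]; exact hu.1, hu.2⟩)]
    have h3 := hm _ (hmem u) hu.2.le
    rw [line_re] at h3
    have h4 : u ∈ Ioc (-L) b := ⟨hu.1, by
      have := le_max_left m (-L)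
      linarith⟩
    rw [indicator_of_mem h4]
    change _ = if Real.log ‖P ((u : ℂ) + (φ : ℂ) * I)‖ < x then _ else _
    rw [if_pos ((Real.log_lt_iff_lt_exp (hpos u)).2 hu.2)]
  · rw [indicator_of_notMem (show u ∉ {u : ℝ | (u : ℂ) + (φ : ℂ) * I ∈
      {U : ℂ | U ∈ St ∧ -L < U.re ∧ ‖P U‖ < Real.exp x}} from fun hh => by
        have h3 := hh.2.1
        rw [line_re] at h3
        exact hu ⟨h3, hh.2.2⟩)]
    by_cases h4 : u ∈ Ioc (-L) b
    · rw [indicator_of_mem h4]
      rw [if_neg (fun hh => hu ⟨h4.1, (Real.log_lt_iff_lt_exp (hpos u)).1 hh⟩)]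
    · rw [indicator_of_notMem h4]

end CrTX

open CrTX in
theorem prfCrT (h1 : Ray) (h2 : FubB) : CrT := by
  intro P hP x m L hm hL hi
  rw [h2 _ (meas hP.hol x L) _ hi]
  have h3 : ∀ φ : ℝ, φ ∉ Ioo (-Real.pi) Real.pi →
      ∫ u in {u : ℝ | (u : ℂ) + (φ : ℂ) * I ∈
        {U : ℂ | U ∈ St ∧ -L < U.re ∧ ‖P U‖ < Real.exp x}},
        (deriv P ((u : ℂ) + (φ : ℂ) * I) / P ((u : ℂ) + (φ : ℂ) * I)).re = 0 := by
    intro φ hφ
    have h4 : {u : ℝ | (u : ℂ) + (φ : ℂ) * I ∈
        {U : ℂ | U ∈ St ∧ -L < U.re ∧ ‖P U‖ < Real.exp x}} = ∅ := by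
      rw [eq_empty_iff_forall_notMem]
      rintro u ⟨h5, -⟩
      exact hφ ((line_iff u φ).1 h5)
    rw [h4, Measure.restrict_empty, integral_zero_measure]
  rw [← setIntegral_eq_integral_of_forall_compl_eq_zero h3]
  exact setIntegral_congr_fun measurableSet_Ioo fun φ hφ => inner h1 hP hm hφ (hL φ hφ)

end Pool.Agent.MultS.UB

end

section

/-!
# Item U7: one vertical line
-/

set_option autoImplicit false

open Complex Metric Set Filter Topology MeasureTheory
open scoped ENNReal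

namespace Pool.Agent.MultS.UB

namespace CrossX

/-- Cauchy-Schwarz on an interval. -/
theorem cs {g g2 : ℝ → ℝ} {p q : ℝ} (hpq : p < q) (hg : IntervalIntegrable g volume p q)
    (hg2 : IntervalIntegrable g2 volume p q) (h2 : ∀ u, g2 u = g u ^ 2) :
    (∫ u in p..q, g u) ^ 2 ≤ (q - p) * ∫ u in p..q, g2 u := by
  set J := ∫ u in p..q, g u with hJ
  have hl : 0 < q - p := sub_pos.2 hpq
  set c : ℝ := J / (q - p) with hc
  have h0 : 0 ≤ ∫ u in p..q, (g2 u - 2 * c * g u + c ^ 2) := by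
    refine intervalIntegral.integral_nonneg hpq.le fun u _ => ?_
    rw [h2]
    nlinarith [sq_nonneg (g u - c)]
  rw [intervalIntegral.integral_add (hg2.sub (hg.const_mul _)) intervalIntegrable_const,
    intervalIntegral.integral_sub hg2 (hg.const_mul _), intervalIntegral.integral_const_mul,
    intervalIntegral.integral_const, smul_eq_mul, ← hJ] at h0
  have h1 : c * (q - p) = J := by
    rw [hc]
    field_simp
  have h3 : 0 ≤ (q - p) * ((∫ u in p..q, g2 u) - 2 * c * J + (q - p) * c ^ 2) :=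
    mul_nonneg hl.le h0
  have h4 : (q - p) * ((∫ u in p..q, g2 u) - 2 * c * J + (q - p) * c ^ 2) =
      (q - p) * (∫ u in p..q, g2 u) - 2 * (c * (q - p)) * J + (c * (q - p)) ^ 2 := by ring
  rw [h4, h1] at h3
  nlinarith

theorem half (h1 : Ray) {h h' : ℝ → ℝ} {a b p q : ℝ} (hp : p ∈ Ioo (-Real.pi) Real.pi)
    (hq : q ∈ Ioo (-Real.pi) Real.pi)
    (hd : ∀ φ ∈ Ioo (-Real.pi) Real.pi, HasDerivAt h (h' φ) φ)
    (hc : ContinuousOn h' (Ioo (-Real.pi) Real.pi)) (hab : a < b) (hpq : p < q)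
    (hJ : ((min (h q) b - min (h p) b) - (min (h q) a - min (h p) a)) ^ 2 = (b - a) ^ 2) :
    ENNReal.ofReal ((b - a) ^ 2) ≤ ENNReal.ofReal (2 * Real.pi) *
      ∫⁻ φ in {φ : ℝ | φ ∈ Ioo (-Real.pi) Real.pi ∧ a ≤ h φ ∧ h φ < b},
        ENNReal.ofReal (h' φ ^ 2) := by
  have hsub : Icc p q ⊆ Ioo (-Real.pi) Real.pi := fun u hu =>
    ⟨hp.1.trans_le hu.1, hu.2.trans_lt hq.2⟩
  have hd' : ∀ u ∈ Icc p q, HasDerivAt h (h' u) u := fun u hu => hd u (hsub hu)
  have hc' : ContinuousOn h' (Icc p q) := hc.mono hsub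
  obtain ⟨ib, eb⟩ := h1 h h' p q b hpq.le hd' hc'
  obtain ⟨ia, ea⟩ := h1 h h' p q a hpq.le hd' hc'
  set g : ℝ → ℝ := fun u => if a ≤ h u ∧ h u < b then h' u else 0 with hg
  have hgd : ∀ u, g u = (if h u < b then h' u else 0) - (if h u < a then h' u else 0) := by
    intro u
    rw [hg]
    dsimp only
    by_cases hua : h u < a
    · rw [if_neg (fun hh => not_le.2 hua hh.1), if_pos hua, if_pos (hua.trans hab), sub_self]
    · by_cases hub : h u < b
      · rw [if_pos ⟨not_lt.1 hua, hub⟩, if_neg hua, if_pos hub, sub_zero]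
      · rw [if_neg (fun hh => hub hh.2), if_neg hua, if_neg hub, sub_zero]
  have hgi : IntervalIntegrable g volume p q :=
    (ib.sub ia).congr (fun u _ => (hgd u).symm)
  have hgJ : ∫ u in p..q, g u =
      (min (h q) b - min (h p) b) - (min (h q) a - min (h p) a) := by
    rw [← eb, ← ea, ← intervalIntegral.integral_sub ib ia]
    exact intervalIntegral.integral_congr fun u _ => hgd u
  have hg2e : ∀ u, g u * h' u = g u ^ 2 := by
    intro u
    rw [hg]
    dsimp only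
    split_ifs <;> ring
  have hg2i : IntervalIntegrable (fun u => g u * h' u) volume p q :=
    hgi.mul_continuousOn (by rwa [uIcc_of_le hpq.le])
  have hcs := cs hpq hgi hg2i hg2e
  rw [hgJ, hJ] at hcs
  have hI0 : 0 ≤ ∫ u in p..q, g u * h' u :=
    intervalIntegral.integral_nonneg hpq.le fun u _ => by rw [hg2e]; positivity
  have hlen : q - p ≤ 2 * Real.pi := by
    have h3 := hp.1
    have h4 := hq.2
    linarith
  calc ENNReal.ofReal ((b - a) ^ 2) ≤ ENNReal.ofReal (2 * Real.pi * ∫ u in p..q, g u * h' u) :=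
        ENNReal.ofReal_le_ofReal (hcs.trans (mul_le_mul_of_nonneg_right hlen hI0))
    _ = ENNReal.ofReal (2 * Real.pi) * ENNReal.ofReal (∫ u in p..q, g u * h' u) :=
        ENNReal.ofReal_mul (by positivity)
    _ ≤ _ := by
        refine mul_le_mul_right ?_ _
        rw [intervalIntegral.integral_of_le hpq.le,
          ofReal_integral_eq_lintegral_ofReal ((intervalIntegrable_iff_integrableOn_Ioc_of_le
            hpq.le).1 hg2i) (Eventually.of_forall fun u => by
              change 0 ≤ g u * h' u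
              rw [hg2e]
              positivity),
          ← lintegral_indicator measurableSet_Ioc]
        refine le_trans (lintegral_mono fun u => ?_) (lintegral_indicator_le _ _)
        by_cases hu : u ∈ Ioc p q
        · rw [indicator_of_mem hu]
          by_cases hS : a ≤ h u ∧ h u < b
          · rw [indicator_of_mem (show u ∈ {φ : ℝ | φ ∈ Ioo (-Real.pi) Real.pi ∧ a ≤ h φ ∧ h φ < b}
              from ⟨hsub ⟨hu.1.le, hu.2⟩, hS⟩)]
            rw [hg2e]
            have : g u = h' u := if_pos hS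
            rw [this]
          · have : g u = 0 := if_neg hS
            rw [this, zero_mul, ENNReal.ofReal_zero]
            exact zero_le
        · rw [indicator_of_notMem hu]
          exact zero_le

end CrossX

open CrossX in
theorem prfCross (h1 : Ray) : Cross := by
  intro h h' a b s t hs ht hd hc hab hsa htb
  rcases lt_trichotomy s t with hst | hst | hst
  · refine half h1 hs ht hd hc hab hst ?_
    rw [min_eq_right htb, min_eq_right (hab.le.trans htb), min_eq_left hsa,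
      min_eq_left (hsa.trans hab.le)]
    ring
  · subst hst
    exact absurd (hab.trans_le (htb.trans hsa)) (lt_irrefl _)
  · refine half h1 ht hs hd hc hab hst ?_
    rw [min_eq_right htb, min_eq_right (hab.le.trans htb), min_eq_left hsa,
      min_eq_left (hsa.trans hab.le)]
    ring

end Pool.Agent.MultS.UB

end

section

/-!
# Item U9: the crossing lemma
-/

set_option autoImplicit false

open Complex Metric Set Filter Topology MeasureTheory
open scoped ENNReal

namespace Pool.Agent.MultS.UB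

namespace CrsX

theorem isOpen_St : IsOpen St := by
  have : St = Complex.im ⁻¹' Ioo (-Real.pi) Real.pi := rfl
  rw [this]
  exact isOpen_Ioo.preimage Complex.continuous_im

theorem meas_ring {P : ℂ → ℂ} (hP : DifferentiableOn ℂ P St) (a b : ℝ) :
    MeasurableSet {U : ℂ | U ∈ St ∧ Real.exp a ≤ ‖P U‖ ∧ ‖P U‖ < Real.exp b} := by
  have hc : ContinuousOn (fun U => ‖P U‖) St := hP.continuousOn.norm
  have h1 : MeasurableSet (St ∩ (fun U => ‖P U‖) ⁻¹' Iio (Real.exp b)) :=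
    (hc.isOpen_inter_preimage isOpen_St isOpen_Iio).measurableSet
  have h2 : MeasurableSet (St ∩ (fun U => ‖P U‖) ⁻¹' Iio (Real.exp a)) :=
    (hc.isOpen_inter_preimage isOpen_St isOpen_Iio).measurableSet
  have h3 : {U : ℂ | U ∈ St ∧ Real.exp a ≤ ‖P U‖ ∧ ‖P U‖ < Real.exp b} =
      (St ∩ (fun U => ‖P U‖) ⁻¹' Iio (Real.exp b)) \
        (St ∩ (fun U => ‖P U‖) ⁻¹' Iio (Real.exp a)) := by
    ext U
    constructor
    · rintro ⟨h4, h5, h6⟩
      exact ⟨⟨h4, h6⟩, fun h7 => absurd h7.2 (not_lt.2 h5)⟩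
    · rintro ⟨⟨h4, h6⟩, h7⟩
      exact ⟨h4, not_lt.1 fun h8 => h7 ⟨h4, h8⟩, h6⟩
  rw [h3]
  exact h1.diff h2

theorem cont_q {P : ℂ → ℂ} (hP : Sp P) : ContinuousOn (fun U => deriv P U / P U) St :=
  (hP.hol.deriv isOpen_St).continuousOn.div hP.hol.continuousOn hP.ne

theorem line_mem {u φ : ℝ} (hφ : φ ∈ Ioo (-Real.pi) Real.pi) :
    ((u : ℂ) + (φ : ℂ) * I) ∈ St := by
  change -Real.pi < ((u : ℂ) + (φ : ℂ) * I).im ∧ ((u : ℂ) + (φ : ℂ) * I).im < Real.pi
  have : ((u : ℂ) + (φ : ℂ) * I).im = φ := by simp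
  rw [this]
  exact hφ

theorem line_re (u φ : ℝ) : ((u : ℂ) + (φ : ℂ) * I).re = u := by simp

theorem line (hX : Cross) {P : ℂ → ℂ} (hP : Sp P) {U₁ U₂ : ℂ} (hU₁ : U₁ ∈ St) (hU₂ : U₂ ∈ St)
    {a : ℝ} (h1 : ‖P U₁‖ ≤ Real.exp a) (h2 : Real.exp (a + 1) ≤ ‖P U₂‖) {u : ℝ}
    (hu : u ∈ Ioo U₂.re U₁.re) :
    1 ≤ ENNReal.ofReal (2 * Real.pi) * ∫⁻ φ in {φ : ℝ | (u : ℂ) + (φ : ℂ) * I ∈
      {U : ℂ | U ∈ St ∧ Real.exp a ≤ ‖P U‖ ∧ ‖P U‖ < Real.exp (a + 1)}},
        ENNReal.ofReal (‖deriv P ((u : ℂ) + (φ : ℂ) * I) / P ((u : ℂ) + (φ : ℂ) * I)‖ ^ 2) := by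
  have key : ∀ ε ∈ Ioo (0 : ℝ) (1 / 2), ENNReal.ofReal ((1 - 2 * ε) ^ 2) ≤
      ENNReal.ofReal (2 * Real.pi) * ∫⁻ φ in {φ : ℝ | (u : ℂ) + (φ : ℂ) * I ∈
      {U : ℂ | U ∈ St ∧ Real.exp a ≤ ‖P U‖ ∧ ‖P U‖ < Real.exp (a + 1)}},
        ENNReal.ofReal (‖deriv P ((u : ℂ) + (φ : ℂ) * I) / P ((u : ℂ) + (φ : ℂ) * I)‖ ^ 2) := by
    intro ε hε
    obtain ⟨φ₁, hφ₁, h3⟩ := hP.crl U₁ (Real.exp (a + ε)) u hU₁
      (h1.trans_lt (Real.exp_lt_exp.2 (by linarith [hε.1]))) hu.2
    obtain ⟨φ₂, hφ₂, h4⟩ := hP.crg U₂ (Real.exp (a + 1 - ε)) u hU₂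
      ((Real.exp_lt_exp.2 (by linarith [hε.1])).trans_le h2) hu.1
    have hpos : ∀ φ ∈ Ioo (-Real.pi) Real.pi, 0 < ‖P ((u : ℂ) + (φ : ℂ) * I)‖ :=
      fun φ hφ => norm_pos_iff.2 (hP.ne _ (line_mem hφ))
    have hl : ∀ φ : ℝ, HasDerivAt (fun φ : ℝ => (u : ℂ) + (φ : ℂ) * I) I φ := by
      intro φ
      have := ((hasDerivAt_id φ).ofReal_comp.mul_const I).const_add (u : ℂ)
      simpa using this
    have hd : ∀ φ ∈ Ioo (-Real.pi) Real.pi,
        HasDerivAt (fun φ : ℝ => Real.log ‖P ((u : ℂ) + (φ : ℂ) * I)‖)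
          ((deriv P ((u : ℂ) + (φ : ℂ) * I) * I) / P ((u : ℂ) + (φ : ℂ) * I)).re φ := by
      intro φ hφ
      have hPd : HasDerivAt P (deriv P ((u : ℂ) + (φ : ℂ) * I)) ((u : ℂ) + (φ : ℂ) * I) :=
        ((hP.hol _ (line_mem hφ)).differentiableAt
          (isOpen_St.mem_nhds (line_mem hφ))).hasDerivAt
      exact hasDerivAt_log_norm (HasDerivAt.comp (h₂ := P) φ hPd (hl φ)) (hP.ne _ (line_mem hφ))
    have hlc : Continuous (fun φ : ℝ => (u : ℂ) + (φ : ℂ) * I) := by fun_prop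
    have hc : ContinuousOn (fun φ : ℝ =>
        ((deriv P ((u : ℂ) + (φ : ℂ) * I) * I) / P ((u : ℂ) + (φ : ℂ) * I)).re)
        (Ioo (-Real.pi) Real.pi) := by
      have h5 : ContinuousOn (fun φ : ℝ => deriv P ((u : ℂ) + (φ : ℂ) * I))
          (Ioo (-Real.pi) Real.pi) :=
        (hP.hol.deriv isOpen_St).continuousOn.comp hlc.continuousOn fun φ hφ => line_mem hφ
      have h6 : ContinuousOn (fun φ : ℝ => P ((u : ℂ) + (φ : ℂ) * I))
          (Ioo (-Real.pi) Real.pi) :=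
        hP.hol.continuousOn.comp hlc.continuousOn fun φ hφ => line_mem hφ
      exact continuous_re.comp_continuousOn
        ((h5.mul continuousOn_const).div h6 fun φ hφ => hP.ne _ (line_mem hφ))
    have h5 := hX (fun φ : ℝ => Real.log ‖P ((u : ℂ) + (φ : ℂ) * I)‖)
      (fun φ : ℝ => ((deriv P ((u : ℂ) + (φ : ℂ) * I) * I) / P ((u : ℂ) + (φ : ℂ) * I)).re)
      (a + ε) (a + 1 - ε) φ₁ φ₂ hφ₁ hφ₂ hd hc (by linarith [hε.2])
      (by
        have := (Real.log_lt_iff_lt_exp (hpos φ₁ hφ₁)).2 h3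
        exact this.le)
      (by
        have := (Real.lt_log_iff_exp_lt (hpos φ₂ hφ₂)).2 h4
        exact this.le)
    have h6 : a + 1 - ε - (a + ε) = 1 - 2 * ε := by ring
    rw [h6] at h5
    refine h5.trans (mul_le_mul_right ?_ _)
    refine le_trans (lintegral_mono_set ?_) (lintegral_mono fun φ => ?_)
    · rintro φ ⟨hφ, h7, h8⟩
      refine ⟨line_mem hφ, ?_, ?_⟩
      · have := (Real.le_log_iff_exp_le (hpos φ hφ)).1 h7
        exact (Real.exp_le_exp.2 (by linarith [hε.1])).trans this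
      · have := (Real.log_lt_iff_lt_exp (hpos φ hφ)).1 h8
        exact this.trans_le (Real.exp_le_exp.2 (by linarith [hε.1]))
    · refine ENNReal.ofReal_le_ofReal ?_
      have h7 : ‖deriv P ((u : ℂ) + (φ : ℂ) * I) / P ((u : ℂ) + (φ : ℂ) * I)‖ =
          ‖(deriv P ((u : ℂ) + (φ : ℂ) * I) * I) / P ((u : ℂ) + (φ : ℂ) * I)‖ := by
        rw [norm_div, norm_div, norm_mul, norm_I, mul_one]
      rw [h7, ← sq_abs]
      exact pow_le_pow_left₀ (abs_nonneg _) (abs_re_le_norm _) 2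
  have hlim : Tendsto (fun ε : ℝ => ENNReal.ofReal ((1 - 2 * ε) ^ 2)) (𝓝[>] 0)
      (𝓝 (ENNReal.ofReal 1)) := by
    refine (ENNReal.tendsto_ofReal ?_)
    have : Continuous fun ε : ℝ => (1 - 2 * ε) ^ 2 := by fun_prop
    have h7 := this.tendsto 0
    simp only [mul_zero, sub_zero, one_pow] at h7
    exact h7.mono_left nhdsWithin_le_nhds
  rw [ENNReal.ofReal_one] at hlim
  refine le_of_tendsto hlim ?_
  filter_upwards [Ioo_mem_nhdsGT (show (0 : ℝ) < 1 / 2 by norm_num)] with ε hε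
  exact key ε hε

end CrsX

open CrsX in
theorem prfCrs (h1 : Area) (h2 : Cross) (h3 : Fub) : Crs := by
  intro P hP U₁ hU₁ U₂ hU₂ a ha hb
  by_contra hcon
  push Not at hcon
  have hlt : U₂.re < U₁.re := by
    have : 0 < 4 * Real.pi ^ 2 := by positivity
    linarith
  set E : Set ℂ := {U : ℂ | U ∈ St ∧ Real.exp a ≤ ‖P U‖ ∧ ‖P U‖ < Real.exp (a + 1)} with hE
  have hEm : MeasurableSet E := meas_ring hP.hol a (a + 1)
  have hGm : AEMeasurable (fun U => ENNReal.ofReal (‖deriv P U / P U‖ ^ 2))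
      (volume.restrict E) := by
    have h4 : ContinuousOn (fun U => ‖deriv P U / P U‖ ^ 2) St := (cont_q hP).norm.pow 2
    have h5 := h4.aemeasurable isOpen_St.measurableSet (μ := volume)
    exact (h5.mono_measure (Measure.restrict_mono (fun U hU => hU.1) le_rfl)).ennreal_ofReal
  have h4 := h3 E hEm _ hGm
  have h5 := h1 P hP a (a + 1) (by linarith)
  have h6 : ENNReal.ofReal (U₁.re - U₂.re) ≤ ENNReal.ofReal (2 * Real.pi) *
      ∫⁻ U in E, ENNReal.ofReal (‖deriv P U / P U‖ ^ 2) := by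
    rw [h4, ← lintegral_const_mul' _ _ ENNReal.ofReal_ne_top]
    calc ENNReal.ofReal (U₁.re - U₂.re) = ∫⁻ _ in Ioo U₂.re U₁.re, 1 := by
          rw [setLIntegral_one, Real.volume_Ioo]
      _ ≤ ∫⁻ u in Ioo U₂.re U₁.re, ENNReal.ofReal (2 * Real.pi) *
            ∫⁻ φ in {φ : ℝ | (u : ℂ) + (φ : ℂ) * I ∈ E},
              ENNReal.ofReal (‖deriv P ((u : ℂ) + (φ : ℂ) * I) /
                P ((u : ℂ) + (φ : ℂ) * I)‖ ^ 2) :=
          setLIntegral_mono' measurableSet_Ioo fun u hu => line h2 hP hU₁ hU₂ ha hb hu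
      _ ≤ _ := setLIntegral_le_lintegral _ _
  have h7 : ENNReal.ofReal (U₁.re - U₂.re) ≤
      ENNReal.ofReal (2 * Real.pi * (2 * Real.pi * (a + 1 - a))) := by
    rw [ENNReal.ofReal_mul (by positivity)]
    exact h6.trans (mul_le_mul_right h5 _)
  rw [ENNReal.ofReal_le_ofReal_iff (by
    have : a + 1 - a = 1 := by ring
    rw [this]
    positivity)] at h7
  have h8 : 2 * Real.pi * (2 * Real.pi * (a + 1 - a)) = 4 * Real.pi ^ 2 := by ring
  linarith

end Pool.Agent.MultS.UB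

end

section

/-!
# [U21] The quotient `f / kb` is bounded with bounded Dirichlet integral
-/

set_option autoImplicit false

open Complex Metric Set Filter Topology MeasureTheory
open scoped ENNReal

namespace Pool.Agent.MultS.UB

namespace DirX

lemma isOpen_St : IsOpen St :=
  (isOpen_lt continuous_const continuous_im).inter (isOpen_lt continuous_im continuous_const)

lemma diffA {f : ℂ → ℂ} (hf : Sc f) : DifferentiableOn ℂ (Aq f) (ball 0 1) := by
  have h1 : DifferentiableOn ℂ (dslope f 0) (ball 0 1) :=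
    (Complex.differentiableOn_dslope (isOpen_ball.mem_nhds (mem_ball_self one_pos))).2 hf.1
  have h2 : Differentiable ℂ (fun z : ℂ => (1 - z) ^ 2) := by fun_prop
  exact h1.mul h2.differentiableOn

lemma one_sub_ne {z : ℂ} (hz : z ∈ ball (0 : ℂ) 1) : 1 - z ≠ 0 := by
  intro h
  have : z = 1 := by linear_combination -h
  rw [this, mem_ball_zero_iff, norm_one] at hz
  exact lt_irrefl _ hz

lemma eqA {f : ℂ → ℂ} (hf : Sc f) {z : ℂ} (hz : z ∈ ball (0 : ℂ) 1) (h0 : z ≠ 0) :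
    Aq f z = f z / kb z := by
  have h1 := one_sub_ne hz
  unfold Aq kb
  rw [dslope_of_ne _ h0, slope_def_field, hf.2.2.1]
  field_simp
  ring

lemma vol_real : volume {z : ℂ | z.im = 0} = 0 := by
  have h1 : MeasurableSet {p : ℝ × ℝ | p.2 = 0} := measurableSet_eq_fun measurable_snd measurable_const
  have h2 : {z : ℂ | z.im = 0} = measurableEquivRealProd ⁻¹' {p : ℝ × ℝ | p.2 = 0} := by
    ext z
    simp [measurableEquivRealProd]
  rw [h2, volume_preserving_equiv_real_prod.measure_preimage h1.nullMeasurableSet]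
  have h3 : {p : ℝ × ℝ | p.2 = 0} = univ ×ˢ {(0 : ℝ)} := by
    ext p
    simp
  rw [h3, Measure.volume_eq_prod, Measure.prod_prod]
  simp

end DirX

open DirX in
theorem prfDir (h1 : MainS) (h2 : SpAll) (h3 : Chg) (h4 : HmF) : Dir := by
  obtain ⟨C, hC, hM⟩ := h1
  obtain ⟨m1, m2, m3, m4, -, -⟩ := h4
  refine ⟨C, hC, fun f K hf ho hg => ?_⟩
  obtain ⟨hb, hd⟩ := hM _ (h2 f K hf ho hg)
  have hA := diffA hf
  have heq : ∀ U ∈ St, Aq f (hm U) = f (hm U) * exp (-U) := by
    intro U hU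
    rw [eqA hf (m3 U hU).1 (m3 U hU).2.1, (m3 U hU).2.2, exp_neg]
    rfl
  have hbd : ∀ U ∈ St, ‖Aq f (hm U)‖ ≤ C := by
    intro U hU
    rw [heq U hU, norm_mul, norm_exp, neg_re]
    have h5 := mul_le_mul_of_nonneg_right (hb U hU) (Real.exp_pos (-U.re)).le
    rwa [mul_assoc, ← Real.exp_add, add_neg_cancel, Real.exp_zero, mul_one] at h5
  have hbd' : ∀ z ∈ ball (0 : ℂ) 1, z.im ≠ 0 → ‖Aq f z‖ ≤ C := by
    intro z hz him
    obtain ⟨U, hU, rfl⟩ := m4 z hz fun h => him h.1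
    exact hbd U hU
  constructor
  · intro z hz
    by_cases him : z.im = 0
    · have hz' : ball (0 : ℂ) 1 ∈ 𝓝 z := isOpen_ball.mem_nhds hz
      have hc : ContinuousAt (Aq f) z := hA.continuousOn.continuousAt hz'
      have hl : Tendsto (fun δ : ℝ => z + (δ : ℂ) * I) (𝓝[>] 0) (𝓝 z) := by
        have : Tendsto (fun δ : ℝ => z + (δ : ℂ) * I) (𝓝 0) (𝓝 (z + ((0 : ℝ) : ℂ) * I)) :=
          Continuous.tendsto (by fun_prop) 0
        rw [ofReal_zero, zero_mul, add_zero] at this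
        exact this.mono_left nhdsWithin_le_nhds
      refine le_of_tendsto (hc.norm.tendsto.comp hl) ?_
      filter_upwards [hl.eventually hz', self_mem_nhdsWithin] with δ h5 h6
      refine hbd' _ h5 ?_
      have : (z + (δ : ℂ) * I).im = δ := by simp [him]
      rw [this]
      exact (ne_of_gt h6)
    · exact hbd' z hz him
  · have hder : ∀ U ∈ St, ‖deriv (fun V : ℂ => f (hm V) * exp (-V)) U‖ ^ 2 =
        ‖deriv hm U‖ ^ 2 * ‖deriv (Aq f) (hm U)‖ ^ 2 := by
      intro U hU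
      have hn : St ∈ 𝓝 U := isOpen_St.mem_nhds hU
      have h5 : HasDerivAt hm (deriv hm U) U := (m1.differentiableAt hn).hasDerivAt
      have h6 : HasDerivAt (Aq f) (deriv (Aq f) (hm U)) (hm U) :=
        (hA.differentiableAt (isOpen_ball.mem_nhds (m3 U hU).1)).hasDerivAt
      have h7 : HasDerivAt (fun V => Aq f (hm V)) (deriv (Aq f) (hm U) * deriv hm U) U :=
        h6.comp U h5
      have h8 : (fun V : ℂ => f (hm V) * exp (-V)) =ᶠ[𝓝 U] fun V => Aq f (hm V) := by
        filter_upwards [hn] with V hV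
        exact (heq V hV).symm
      rw [h8.deriv_eq, h7.deriv, norm_mul, mul_pow, mul_comm]
    have h9 := h3 St hm isOpen_St m1 m2 St subset_rfl isOpen_St.measurableSet
      fun w => ENNReal.ofReal (‖deriv (Aq f) w‖ ^ 2)
    have h10 : ball (0 : ℂ) 1 ⊆ hm '' St ∪ {z : ℂ | z.im = 0} := by
      intro z hz
      by_cases him : z.im = 0
      · exact Or.inr him
      · obtain ⟨U, hU, hUz⟩ := m4 z hz fun h => him h.1
        exact Or.inl ⟨U, hU, hUz⟩
    refine (lintegral_mono_set h10).trans ((lintegral_union_le _ _ _).trans ?_)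
    rw [setLIntegral_measure_zero _ _ vol_real, add_zero, h9]
    refine le_trans (le_of_eq ?_) hd
    refine setLIntegral_congr_fun isOpen_St.measurableSet fun U hU => ?_
    rw [hder U hU, ENNReal.ofReal_mul (by positivity)]

end Pool.Agent.MultS.UB

end

section

/-! MP_b17785_an, block UB, item U2: Fubini, vertical lines inside -/

set_option autoImplicit false

open Complex Metric Set Filter Topology MeasureTheory
open scoped ENNReal

namespace Pool.Agent.MultS.UB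

namespace FubX

theorem symm_apply (p : ℝ × ℝ) :
    Complex.measurableEquivRealProd.symm p = (p.1 : ℂ) + (p.2 : ℂ) * I := by
  apply Complex.ext <;> simp

end FubX

theorem prfFub : Fub := by
  intro E hE G hG
  have hG' : AEMeasurable (E.indicator G) volume := (aemeasurable_indicator_iff hE).2 hG
  have hs : MeasurePreserving Complex.measurableEquivRealProd.symm volume volume :=
    Complex.volume_preserving_equiv_real_prod.symm
  have hc : AEMeasurable (fun p : ℝ × ℝ => E.indicator G (Complex.measurableEquivRealProd.symm p))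
      (volume : Measure (ℝ × ℝ)) := hG'.comp_quasiMeasurePreserving hs.quasiMeasurePreserving
  rw [← lintegral_indicator hE,
    ← hs.lintegral_comp_emb (Complex.measurableEquivRealProd.symm.measurableEmbedding)]
  rw [Measure.volume_eq_prod] at hc ⊢
  rw [lintegral_prod _ hc]
  refine lintegral_congr fun u => ?_
  have hm : MeasurableSet {φ : ℝ | (u : ℂ) + (φ : ℂ) * I ∈ E} := by
    have hcont : Continuous fun φ : ℝ => (u : ℂ) + (φ : ℂ) * I := by fun_prop
    exact hcont.measurable hE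
  rw [← lintegral_indicator hm]
  refine lintegral_congr fun φ => ?_
  simp only [FubX.symm_apply]
  by_cases h : (u : ℂ) + (φ : ℂ) * I ∈ E
  · rw [indicator_of_mem h, indicator_of_mem (show φ ∈ {φ : ℝ | (u : ℂ) + (φ : ℂ) * I ∈ E} from h)]
  · rw [indicator_of_notMem h,
      indicator_of_notMem (show φ ∉ {φ : ℝ | (u : ℂ) + (φ : ℂ) * I ∈ E} from h)]

end Pool.Agent.MultS.UB

end

section

/-!
# Item U3: Fubini for the Bochner integral in the complex plane, horizontal lines inside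
-/

set_option autoImplicit false

open MeasureTheory Complex

namespace Pool.Agent.MultS.UB

namespace FubBX

lemma symm_apply (x y : ℝ) :
    Complex.measurableEquivRealProd.symm (x, y) = (x : ℂ) + (y : ℂ) * I := by
  apply Complex.ext <;> simp [Complex.measurableEquivRealProd_symm_apply]

lemma meas (E : Set ℂ) (hE : MeasurableSet E) (y : ℝ) :
    MeasurableSet {u : ℝ | (u : ℂ) + (y : ℂ) * I ∈ E} := by
  have h : Measurable fun u : ℝ => (u : ℂ) + (y : ℂ) * I :=
    Complex.measurable_ofReal.add_const _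
  exact h hE

end FubBX

theorem prfFubB : FubB := by
  intro E hE g hg
  have h1 : Integrable (E.indicator g) volume := (integrable_indicator_iff hE).2 hg
  have hmp : MeasurePreserving Complex.measurableEquivRealProd.symm volume volume :=
    Complex.volume_preserving_equiv_real_prod.symm
  have h2 : Integrable (fun z : ℝ × ℝ => E.indicator g (Complex.measurableEquivRealProd.symm z))
      (volume.prod volume) :=
    (hmp.integrable_comp_emb Complex.measurableEquivRealProd.symm.measurableEmbedding).2 h1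
  calc ∫ U in E, g U = ∫ U, E.indicator g U := (integral_indicator hE).symm
    _ = ∫ z : ℝ × ℝ, E.indicator g (Complex.measurableEquivRealProd.symm z) :=
        (hmp.integral_comp Complex.measurableEquivRealProd.symm.measurableEmbedding _).symm
    _ = ∫ y : ℝ, ∫ x : ℝ, E.indicator g (Complex.measurableEquivRealProd.symm (x, y)) :=
        integral_prod_symm _ h2
    _ = _ := by
        congr 1
        funext y
        rw [← integral_indicator (FubBX.meas E hE y)]
        congr 1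
        funext x
        rw [FubBX.symm_apply]
        rfl

end Pool.Agent.MultS.UB

end

section

set_option autoImplicit false

open Complex Metric Set Filter Topology MeasureTheory

namespace Pool.Agent.MultS.UB

namespace HmFX

theorem log_exp' {U : ℂ} (h : U ∈ St) : log (exp U) = U := Complex.log_exp h.1 h.2.le

theorem slit {U : ℂ} (h : U ∈ St) : exp U ∈ slitPlane := by
  rw [Complex.mem_slitPlane_iff_arg]
  refine ⟨?_, exp_ne_zero U⟩
  intro e
  have h1 := Complex.log_im (exp U)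
  rw [log_exp' h, e] at h1
  exact h.2.ne h1

theorem W_slit {U : ℂ} (h : U ∈ St) : 1 + 4 * exp U ∈ slitPlane := by
  have h0 := slit h
  rw [mem_slitPlane_iff] at h0 ⊢
  have e1 : (1 + 4 * exp U).re = 1 + 4 * (exp U).re := by
    simp
  have e2 : (1 + 4 * exp U).im = 4 * (exp U).im := by
    simp
  rw [e1, e2]
  rcases h0 with h1 | h1
  · left
    linarith only [h1]
  · right
    exact mul_ne_zero (by norm_num) h1

theorem sq_cpow (W : ℂ) : (W ^ (1 / 2 : ℂ)) ^ 2 = W := by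
  rw [← Complex.cpow_nat_mul]
  norm_num

theorem re_pos {W : ℂ} (h : W ∈ slitPlane) : 0 < (W ^ (1 / 2 : ℂ)).re := by
  rw [Complex.cpow_def_of_ne_zero (slitPlane_ne_zero h), Complex.exp_re]
  refine mul_pos (Real.exp_pos _) (Real.cos_pos_of_mem_Ioo ?_)
  have e : (log W * (1 / 2 : ℂ)).im = arg W / 2 := by
    rw [show (log W * (1 / 2 : ℂ)) = log W * ((1 / 2 : ℝ) : ℂ) by push_cast; rfl, Complex.im_mul_ofReal,
      Complex.log_im]
    ring
  rw [e]
  have h1 := Complex.neg_pi_lt_arg W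
  have h2 := Complex.arg_le_pi W
  have h3 := (Complex.mem_slitPlane_iff_arg.1 h).1
  have h4 : arg W < Real.pi := lt_of_le_of_ne h2 h3
  constructor
  · linarith only [h1]
  · linarith only [h4]

theorem psi_sq {z : ℂ} (hz : z ≠ 1) : Lip.psi z ^ 2 = 1 + 4 * kb z := by
  have h : (1 : ℂ) - z ≠ 0 := sub_ne_zero.2 (Ne.symm hz)
  unfold Lip.psi kb
  field_simp
  ring

theorem ne_one {z : ℂ} (hz : z ∈ ball (0 : ℂ) 1) : z ≠ 1 := by
  rintro rfl
  rw [mem_ball_zero_iff, norm_one] at hz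
  exact lt_irrefl _ hz

theorem eq_of_sq {p q : ℂ} (hp : 0 < p.re) (hq : 0 < q.re) (h : p ^ 2 = q ^ 2) : p = q := by
  rcases sq_eq_sq_iff_eq_or_eq_neg.1 h with h1 | h1
  · exact h1
  · exfalso
    rw [h1, Complex.neg_re] at hp
    linarith only [hp, hq]

theorem kb_inj : InjOn kb (ball (0 : ℂ) 1) := by
  intro z hz w hw h
  have h1 := (Lip.prfCay.1 z hz)
  have h2 := (Lip.prfCay.1 w hw)
  have h3 : Lip.psi z = Lip.psi w :=
    eq_of_sq h1.1 h2.1 (by rw [psi_sq (ne_one hz), psi_sq (ne_one hw), h])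
  rw [← h1.2.1, ← h2.2.1, h3]

theorem s_mem {U : ℂ} (h : U ∈ St) : ((1 + 4 * exp U) ^ (1 / 2 : ℂ)) ∈ Lip.Hp := re_pos (W_slit h)

theorem hm_mem {U : ℂ} (h : U ∈ St) : hm U ∈ ball (0 : ℂ) 1 := (Lip.prfCay.2.1 _ (s_mem h)).1

theorem psi_hm {U : ℂ} (h : U ∈ St) : Lip.psi (hm U) = (1 + 4 * exp U) ^ (1 / 2 : ℂ) :=
  (Lip.prfCay.2.1 _ (s_mem h)).2.1

theorem kb_hm {U : ℂ} (h : U ∈ St) : kb (hm U) = exp U := by
  have h1 := psi_sq (ne_one (hm_mem h))
  rw [psi_hm h, sq_cpow] at h1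
  have h2 : (4 : ℂ) * exp U = 4 * kb (hm U) := add_left_cancel h1
  exact (mul_left_cancel₀ (by norm_num) h2).symm

theorem hm_ne {U : ℂ} (h : U ∈ St) : hm U ≠ 0 := by
  intro e
  have h1 := kb_hm h
  rw [e] at h1
  unfold kb at h1
  rw [zero_div] at h1
  exact exp_ne_zero U h1.symm

theorem hm_inj : InjOn hm St := by
  intro U hU V hV h
  rw [← log_exp' hU, ← log_exp' hV, ← kb_hm hU, ← kb_hm hV, h]

theorem kb_slit {z : ℂ} (hz : z ∈ ball (0 : ℂ) 1) (h : ¬ (z.im = 0 ∧ z.re ≤ 0)) :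
    kb z ∈ slitPlane := by
  by_contra hc
  apply h
  rw [mem_slitPlane_iff, not_or, not_lt, not_not] at hc
  obtain ⟨hp, hphi, -⟩ := Lip.prfCay.1 z hz
  have hp' : 0 < (Lip.psi z).re := hp
  have h1 := psi_sq (ne_one hz)
  set p := Lip.psi z with hpdef
  have h2 : (p ^ 2).im = 0 := by
    rw [h1]
    simp [hc.2]
  have h3 : (p ^ 2).re ≤ 1 := by
    rw [h1]
    simp only [add_re, one_re, mul_re, re_ofNat, im_ofNat, zero_mul, sub_zero]
    linarith only [hc.1]
  have h4 : (p ^ 2).im = 2 * p.re * p.im := by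
    rw [sq, mul_im]
    ring
  have h5 : (p ^ 2).re = p.re * p.re - p.im * p.im := by
    rw [sq, mul_re]
  have h6 : p.im = 0 := by
    rw [h4] at h2
    rcases mul_eq_zero.1 h2 with h7 | h7
    · exfalso
      linarith only [h7, hp']
    · exact h7
  rw [h5, h6, mul_zero, sub_zero] at h3
  have h7 : p.re ≤ 1 := by
    by_contra h8
    rw [not_le] at h8
    nlinarith only [h3, h8]
  have h8 : p = ((p.re : ℝ) : ℂ) := by
    apply Complex.ext
    · rfl
    · rw [h6, ofReal_im]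
  have h9 : z = (((p.re - 1) / (p.re + 1) : ℝ) : ℂ) := by
    rw [← hphi]
    unfold Lip.phi
    rw [h8]
    push_cast
    simp only [ofReal_re]
  rw [h9]
  refine ⟨ofReal_im _, ?_⟩
  rw [ofReal_re]
  exact div_nonpos_of_nonpos_of_nonneg (by linarith only [h7]) (by linarith only [hp'])

theorem surj {z : ℂ} (hz : z ∈ ball (0 : ℂ) 1) (h : ¬ (z.im = 0 ∧ z.re ≤ 0)) :
    ∃ U ∈ St, hm U = z := by
  have h1 := kb_slit hz h
  have h2 : log (kb z) ∈ St := by
    have h3 := Complex.mem_slitPlane_iff_arg.1 h1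
    refine ⟨?_, ?_⟩
    · rw [Complex.log_im]
      exact Complex.neg_pi_lt_arg _
    · rw [Complex.log_im]
      exact lt_of_le_of_ne (Complex.arg_le_pi _) h3.1
  refine ⟨log (kb z), h2, ?_⟩
  apply kb_inj (hm_mem h2) hz
  rw [kb_hm h2, Complex.exp_log (slitPlane_ne_zero h1)]

theorem hm_diff : DifferentiableOn ℂ hm St := by
  intro U hU
  have h1 : DifferentiableAt ℂ (fun U : ℂ => (1 + 4 * exp U) ^ (1 / 2 : ℂ)) U := by
    apply DifferentiableAt.cpow_const
    · exact (differentiableAt_const _).add ((differentiableAt_const _).mul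
        Complex.differentiableAt_exp)
    · exact W_slit hU
  have h2 := (Lip.prfCay.2.2.2.2.2 _ (s_mem hU)).differentiableAt
  exact (DifferentiableAt.comp U h2 h1).differentiableWithinAt

theorem kb_diff : DifferentiableOn ℂ kb (ball (0 : ℂ) 1) := by
  intro z hz
  have h : (1 : ℂ) - z ≠ 0 := sub_ne_zero.2 (Ne.symm (ne_one hz))
  have h1 : DifferentiableAt ℂ kb z := by
    unfold kb
    apply DifferentiableAt.div differentiableAt_id
    · exact ((differentiableAt_const _).sub differentiableAt_id).pow 2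
    · exact pow_ne_zero 2 h
  exact h1.differentiableWithinAt

end HmFX

theorem prfHmF : HmF :=
  ⟨HmFX.hm_diff, HmFX.hm_inj, fun _ h => ⟨HmFX.hm_mem h, HmFX.hm_ne h, HmFX.kb_hm h⟩,
    fun _ hz h => HmFX.surj hz h, HmFX.kb_inj, HmFX.kb_diff⟩

end Pool.Agent.MultS.UB

end

section

/-!
# [U15] The main estimate in the strip
-/

set_option autoImplicit false

open Complex Metric Set Filter Topology MeasureTheory
open scoped ENNReal

namespace Pool.Agent.MultS.UB

theorem prfMainS (h1 : Star) (h2 : Ring) (h3 : Ser) : MainS := by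
  have hpi := Real.pi_pos
  obtain ⟨C, hC, hR⟩ := h2
  refine ⟨max (Real.exp (4 * Real.pi ^ 2 + 1)) (C * (Real.pi * Real.exp (2 / Real.pi))),
    lt_max_of_lt_left (Real.exp_pos _), fun P hP => ⟨fun U hU => ?_, ?_⟩⟩
  · have h4 := (h1 P hP).2 U hU
    have h5 : 0 < ‖P U‖ := norm_pos_iff.2 (hP.ne U hU)
    have h6 : 0 ≤ (En P (Real.log ‖P U‖ - 1)).toReal / (2 * Real.pi) := by positivity
    have h7 : ‖P U‖ ≤ Real.exp (4 * Real.pi ^ 2 + 1) * Real.exp U.re := by
      rw [← Real.exp_add, ← Real.log_le_iff_le_exp h5]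
      linarith
    exact h7.trans (mul_le_mul_of_nonneg_right (le_max_left _ _) (Real.exp_pos _).le)
  · have hU : St = ⋃ i : ℤ, {U : ℂ | U ∈ St ∧ Real.exp i ≤ ‖P U‖ ∧ ‖P U‖ < Real.exp (i + 1)} := by
      ext U
      rw [mem_iUnion]
      constructor
      · intro h
        have h5 : 0 < ‖P U‖ := norm_pos_iff.2 (hP.ne U h)
        refine ⟨⌊Real.log ‖P U‖⌋, h, ?_, ?_⟩
        · rw [← Real.le_log_iff_exp_le h5]
          exact Int.floor_le _
        · rw [← Real.log_lt_iff_lt_exp h5]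
          exact Int.lt_floor_add_one _
      · rintro ⟨i, h, -⟩
        exact h
    have hmono : Monotone fun i : ℤ => (En P i).toReal := by
      intro i j hij
      refine ENNReal.toReal_mono ((h1 P hP).1 _) ?_
      refine lintegral_mono_set fun U h => ⟨h.1, h.2.trans_le (Real.exp_le_exp.2 ?_)⟩
      exact_mod_cast hij
    have h5 := h3 (fun i : ℤ => (En P i).toReal) hmono fun i => ENNReal.toReal_nonneg
    have h6 : ∫⁻ U in St, ENNReal.ofReal (‖deriv (fun V : ℂ => P V * exp (-V)) U‖ ^ 2) ≤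
        ∑' i : ℤ, ENNReal.ofReal C * ENNReal.ofReal (Real.exp (-((fun i : ℤ => (En P i).toReal)
          (i - 1) / Real.pi)) * min 1 ((fun i : ℤ => (En P i).toReal) (i + 1) -
            (fun i : ℤ => (En P i).toReal) i)) := by
      conv_lhs => rw [hU]
      refine (lintegral_iUnion_le _ _).trans (ENNReal.tsum_le_tsum fun i => ?_)
      refine (hR P hP i).trans (le_of_eq ?_)
      rw [ENNReal.ofReal_mul hC.le]
      push_cast
      rfl
    refine h6.trans ?_
    rw [ENNReal.tsum_mul_left]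
    refine (mul_le_mul_right h5 _).trans ?_
    rw [← ENNReal.ofReal_mul hC.le]
    exact ENNReal.ofReal_le_ofReal (le_max_right _ _)

end Pool.Agent.MultS.UB

end

section

/-!
# Item U6: the fundamental theorem of calculus for the minimum of a function and a constant
-/

set_option autoImplicit false

open Complex Metric Set Filter Topology MeasureTheory
open scoped ENNReal

namespace Pool.Agent.MultS.UB

namespace RayX

theorem countable_S (h h' : ℝ → ℝ) (a b x : ℝ) (hd : ∀ u ∈ Icc a b, HasDerivAt h (h' u) u) :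
    {u | u ∈ Icc a b ∧ h u = x ∧ h' u ≠ 0}.Countable := by
  set S : Set ℝ := {u | u ∈ Icc a b ∧ h u = x ∧ h' u ≠ 0} with hS
  refine (countable_setOfPred_isolated_right_within (s := S)).mono ?_
  intro u hu
  refine ⟨hu, ?_⟩
  obtain ⟨hu1, hu2, hu3⟩ := hu
  have h1 : ∀ᶠ z in 𝓝[≠] u, h z ≠ x := (hd u hu1).eventually_ne hu3
  have h2 : 𝓝[S ∩ Ioi u] u ≤ 𝓝[≠] u :=
    nhdsWithin_mono _ (fun z hz => ne_of_gt hz.2)
  have h3 : ∀ᶠ z in 𝓝[S ∩ Ioi u] u, h z ≠ x := h1.filter_mono h2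
  have h4 : ∀ᶠ z in 𝓝[S ∩ Ioi u] u, z ∈ S ∩ Ioi u := self_mem_nhdsWithin
  rw [← Filter.eventually_false_iff_eq_bot]
  filter_upwards [h3, h4] with z hz1 hz2
  exact hz1 hz2.1.2.1

theorem deriv_min {h : ℝ → ℝ} {d u x : ℝ} (hd : HasDerivAt h d u) (hn : ¬ (h u = x ∧ d ≠ 0)) :
    HasDerivAt (fun v => min (h v) x) (if h u < x then d else 0) u := by
  rcases lt_trichotomy (h u) x with hlt | heq | hgt
  · rw [if_pos hlt]
    refine hd.congr_of_eventuallyEq ?_
    have : ∀ᶠ v in 𝓝 u, h v < x := hd.continuousAt.eventually (gt_mem_nhds hlt)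
    filter_upwards [this] with v hv
    exact min_eq_left hv.le
  · have hd0 : d = 0 := by
      by_contra hc
      exact hn ⟨heq, hc⟩
    rw [if_neg (by rw [heq]; exact lt_irrefl _)]
    rw [hd0, hasDerivAt_iff_isLittleO] at hd
    rw [hasDerivAt_iff_isLittleO]
    simp only [smul_zero, sub_zero] at hd ⊢
    refine Asymptotics.IsBigO.trans_isLittleO ?_ hd
    refine Asymptotics.IsBigO.of_bound 1 (Eventually.of_forall fun v => ?_)
    rw [one_mul, Real.norm_eq_abs, Real.norm_eq_abs]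
    refine (abs_min_sub_min_le_max (h v) x (h u) x).trans ?_
    rw [sub_self, abs_zero]
    exact max_le le_rfl (abs_nonneg _)
  · rw [if_neg (not_lt.mpr hgt.le)]
    refine (hasDerivAt_const u x).congr_of_eventuallyEq ?_
    have : ∀ᶠ v in 𝓝 u, x < h v := hd.continuousAt.eventually (lt_mem_nhds hgt)
    filter_upwards [this] with v hv
    exact min_eq_right hv.le

end RayX

/-- Item U6. -/
theorem prfRay : Ray := by
  intro h h' a b x hab hd hc
  have hcont : ContinuousOn h (Icc a b) := fun u hu => (hd u hu).continuousAt.continuousWithinAt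
  have hset : NullMeasurableSet {u | h u < x} (volume.restrict (Icc a b)) :=
    nullMeasurableSet_lt (hcont.aemeasurable measurableSet_Icc) aemeasurable_const
  have hint : Integrable h' (volume.restrict (Icc a b)) := hc.integrableOn_Icc
  have hG : Integrable ({u | h u < x}.indicator h') (volume.restrict (Icc a b)) :=
    hint.indicator₀ hset
  have heq : {u | h u < x}.indicator h' = fun u => if h u < x then h' u else 0 := by
    funext u
    by_cases hu : h u < x
    · rw [Set.indicator_of_mem (show u ∈ {u | h u < x} from hu), if_pos hu]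
    · rw [Set.indicator_of_notMem (show u ∉ {u | h u < x} from hu), if_neg hu]
  rw [heq] at hG
  have hI : IntervalIntegrable (fun u => if h u < x then h' u else 0) volume a b :=
    (intervalIntegrable_iff_integrableOn_Icc_of_le hab).mpr hG
  refine ⟨hI, ?_⟩
  exact integral_eq_of_hasDerivAt_off_countable_of_le (fun v => min (h v) x) _ hab
    (RayX.countable_S h h' a b x hd) (fun u hu => (hcont u hu).min continuousWithinAt_const)
    (fun u hu => RayX.deriv_min (hd u (Ioo_subset_Icc_self hu.1))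
      (fun hc => hu.2 ⟨Ioo_subset_Icc_self hu.1, hc⟩)) hI

end Pool.Agent.MultS.UB

end

section

/-!
# [U13] One ring
-/

set_option autoImplicit false

open Complex Metric Set Filter Topology MeasureTheory
open scoped ENNReal

namespace Pool.Agent.MultS.UB

namespace RingX

lemma isOpen_St : IsOpen St :=
  (isOpen_lt continuous_const continuous_im).inter (isOpen_lt continuous_im continuous_const)

lemma isOpen_sub {P : ℂ → ℂ} (hP : Sp P) (x : ℝ) :
    IsOpen {U : ℂ | U ∈ St ∧ ‖P U‖ < Real.exp x} :=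
  hP.hol.continuousOn.isOpen_inter_preimage isOpen_St
      (isOpen_lt continuous_norm continuous_const)

lemma meas_ring {P : ℂ → ℂ} (hP : Sp P) (x y : ℝ) :
    MeasurableSet {U : ℂ | U ∈ St ∧ Real.exp x ≤ ‖P U‖ ∧ ‖P U‖ < Real.exp y} := by
  have : {U : ℂ | U ∈ St ∧ Real.exp x ≤ ‖P U‖ ∧ ‖P U‖ < Real.exp y} =
      {U : ℂ | U ∈ St ∧ ‖P U‖ < Real.exp y} \ {U : ℂ | U ∈ St ∧ ‖P U‖ < Real.exp x} := by
    ext U
    simp only [mem_ofPred_eq, Set.mem_sdiff]
    constructor
    · rintro ⟨a, b, c⟩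
      exact ⟨⟨a, c⟩, fun h => absurd h.2 (not_lt.2 b)⟩
    · rintro ⟨⟨a, c⟩, b⟩
      exact ⟨a, not_lt.1 fun h => b ⟨a, h⟩, c⟩
  rw [this]
  exact (isOpen_sub hP y).measurableSet.diff (isOpen_sub hP x).measurableSet

lemma en_add {P : ℂ → ℂ} (hP : Sp P) {x y : ℝ} (hxy : x ≤ y) :
    En P y = En P x + ∫⁻ U in {U : ℂ | U ∈ St ∧ Real.exp x ≤ ‖P U‖ ∧ ‖P U‖ < Real.exp y},
      ENNReal.ofReal (‖deriv P U / P U - 1‖ ^ 2) := by
  unfold En
  rw [← lintegral_union (meas_ring hP x y)]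
  · congr 2
    ext U
    simp only [mem_ofPred_eq, mem_union]
    constructor
    · rintro ⟨a, b⟩
      rcases lt_or_ge ‖P U‖ (Real.exp x) with h | h
      · exact Or.inl ⟨a, h⟩
      · exact Or.inr ⟨a, h, b⟩
    · rintro (⟨a, b⟩ | ⟨a, -, b⟩)
      · exact ⟨a, b.trans_le (Real.exp_le_exp.2 hxy)⟩
      · exact ⟨a, b⟩
  · rw [Set.disjoint_left]
    rintro U ⟨-, a⟩ ⟨-, b, -⟩
    exact absurd a (not_lt.2 b)

lemma en_mono {P : ℂ → ℂ} (hP : Sp P) {x y : ℝ} (hxy : x ≤ y) : En P x ≤ En P y := by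
  rw [en_add hP hxy]
  exact le_self_add

lemma deriv_eq {P : ℂ → ℂ} (hP : Sp P) {U : ℂ} (hU : U ∈ St) :
    ‖deriv (fun V : ℂ => P V * exp (-V)) U‖ ^ 2 =
      (‖P U‖ * Real.exp (-U.re)) ^ 2 * ‖deriv P U / P U - 1‖ ^ 2 := by
  have h1 : HasDerivAt P (deriv P U) U :=
    ((hP.hol U hU).differentiableAt (isOpen_St.mem_nhds hU)).hasDerivAt
  have h2 : HasDerivAt (fun V : ℂ => exp (-V)) (exp (-U) * -1) U :=
    (hasDerivAt_neg U).cexp
  have h4 : HasDerivAt (fun V : ℂ => P V * exp (-V))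
      (deriv P U * exp (-U) + P U * (exp (-U) * -1)) U := h1.mul h2
  rw [h4.deriv]
  have h3 : deriv P U * exp (-U) + P U * (exp (-U) * -1) =
      (P U * exp (-U)) * (deriv P U / P U - 1) := by
    have := hP.ne U hU
    field_simp
    ring
  rw [h3, norm_mul, norm_mul, norm_exp, neg_re]
  ring

end RingX

open RingX in
theorem prfRing (h1 : Star) (h2 : Area) (h3 : Tail) : Ring := by
  have hpi := Real.pi_pos
  set c : ℝ := Real.exp (4 * Real.pi ^ 2 + 1) with hc
  have hc0 : 0 < c := Real.exp_pos _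
  refine ⟨c ^ 2 * (4 * Real.pi + 2 * Real.pi * Real.exp 2), by positivity, fun P hP y => ?_⟩
  obtain ⟨hfin, hst⟩ := h1 P hP
  set R : Set ℂ := {U : ℂ | U ∈ St ∧ Real.exp y ≤ ‖P U‖ ∧ ‖P U‖ < Real.exp (y + 1)} with hR
  have hRm : MeasurableSet R := meas_ring hP y (y + 1)
  set E : ℝ := (En P (y - 1)).toReal with hE
  have hE0 : 0 ≤ E := ENNReal.toReal_nonneg
  set d : ℝ := (En P (y + 1)).toReal - (En P y).toReal with hd
  have hd0 : 0 ≤ d := by
    have := ENNReal.toReal_mono (hfin (y + 1)) (en_mono hP (show y ≤ y + 1 by linarith))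
    rw [hd]
    linarith
  -- (*)
  have hstar : ∀ U ∈ R, ‖P U‖ * Real.exp (-U.re) ≤ c * Real.exp (-(E / (2 * Real.pi))) := by
    rintro U ⟨hU, hU1, hU2⟩
    have h5 : 0 < ‖P U‖ := norm_pos_iff.2 (hP.ne U hU)
    have h6 : y ≤ Real.log ‖P U‖ := (Real.le_log_iff_exp_le h5).2 hU1
    have h7 : E ≤ (En P (Real.log ‖P U‖ - 1)).toReal :=
      ENNReal.toReal_mono (hfin _) (en_mono hP (by linarith))
    have h8 : E / (2 * Real.pi) ≤ (En P (Real.log ‖P U‖ - 1)).toReal / (2 * Real.pi) :=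
      div_le_div_of_nonneg_right h7 (by positivity)
    have h9 := hst U hU
    calc ‖P U‖ * Real.exp (-U.re) = Real.exp (Real.log ‖P U‖ + -U.re) := by
          rw [Real.exp_add, Real.exp_log h5]
      _ ≤ Real.exp ((4 * Real.pi ^ 2 + 1) + -(E / (2 * Real.pi))) :=
          Real.exp_le_exp.2 (by linarith)
      _ = _ := by rw [Real.exp_add]
  have hsq : ∀ U ∈ R, (‖P U‖ * Real.exp (-U.re)) ^ 2 ≤ c ^ 2 * Real.exp (-(E / Real.pi)) := by
    intro U hU
    have h5 := pow_le_pow_left₀ (by positivity) (hstar U hU) 2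
    refine h5.trans (le_of_eq ?_)
    rw [mul_pow, ← Real.exp_nat_mul (-(E / (2 * Real.pi))) 2]
    congr 2
    push_cast
    field_simp
  -- the first bound
  have hA : ∫⁻ U in R, ENNReal.ofReal (‖deriv (fun V : ℂ => P V * exp (-V)) U‖ ^ 2) ≤
      ENNReal.ofReal (c ^ 2 * Real.exp (-(E / Real.pi)) * d) := by
    have h5 : ∫⁻ U in R, ENNReal.ofReal (‖deriv (fun V : ℂ => P V * exp (-V)) U‖ ^ 2) ≤
        ∫⁻ U in R, ENNReal.ofReal (c ^ 2 * Real.exp (-(E / Real.pi))) *
          ENNReal.ofReal (‖deriv P U / P U - 1‖ ^ 2) := by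
      refine setLIntegral_mono' hRm fun U hU => ?_
      rw [deriv_eq hP hU.1, ← ENNReal.ofReal_mul (by positivity)]
      exact ENNReal.ofReal_le_ofReal (mul_le_mul_of_nonneg_right (hsq U hU) (by positivity))
    refine h5.trans ?_
    rw [lintegral_const_mul' _ _ ENNReal.ofReal_ne_top]
    have h6 : ∫⁻ U in R, ENNReal.ofReal (‖deriv P U / P U - 1‖ ^ 2) = ENNReal.ofReal d := by
      have h7 := en_add hP (show y ≤ y + 1 by linarith)
      have h8 : ∫⁻ U in R, ENNReal.ofReal (‖deriv P U / P U - 1‖ ^ 2) = En P (y + 1) - En P y := by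
        rw [h7, ENNReal.add_sub_cancel_left (hfin y)]
      rw [h8, hd, ← ENNReal.toReal_sub_of_le (en_mono hP (by linarith)) (hfin _),
        ENNReal.ofReal_toReal]
      exact ENNReal.sub_ne_top (hfin _)
    rw [h6, ← ENNReal.ofReal_mul (by positivity)]
  -- the second bound
  have hB : ∫⁻ U in R, ENNReal.ofReal (‖deriv (fun V : ℂ => P V * exp (-V)) U‖ ^ 2) ≤
      ENNReal.ofReal (c ^ 2 * (4 * Real.pi + 2 * Real.pi * Real.exp 2) *
        Real.exp (-(E / Real.pi))) := by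
    have h5 : ∫⁻ U in R, ENNReal.ofReal (‖deriv (fun V : ℂ => P V * exp (-V)) U‖ ^ 2) ≤
        ∫⁻ U in R, (ENNReal.ofReal (2 * (c ^ 2 * Real.exp (-(E / Real.pi)))) *
          ENNReal.ofReal (‖deriv P U / P U‖ ^ 2) +
          ENNReal.ofReal (2 * Real.exp (2 * y + 2)) * ENNReal.ofReal (Real.exp (-(2 * U.re)))) := by
      refine setLIntegral_mono' hRm fun U hU => ?_
      rw [deriv_eq hP hU.1, ← ENNReal.ofReal_mul (by positivity),
        ← ENNReal.ofReal_mul (by positivity), ← ENNReal.ofReal_add (by positivity) (by positivity)]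
      refine ENNReal.ofReal_le_ofReal ?_
      have h6 : ‖deriv P U / P U - 1‖ ^ 2 ≤ 2 * ‖deriv P U / P U‖ ^ 2 + 2 := by
        have := norm_sub_le (deriv P U / P U) 1
        rw [norm_one] at this
        nlinarith [norm_nonneg (deriv P U / P U - 1), sq_nonneg (‖deriv P U / P U‖ - 1)]
      have h7 : (‖P U‖ * Real.exp (-U.re)) ^ 2 ≤ Real.exp (2 * y + 2) * Real.exp (-(2 * U.re)) := by
        rw [mul_pow, ← Real.exp_nat_mul]
        have e1 : ((2 : ℕ) : ℝ) * -U.re = -(2 * U.re) := by push_cast; ring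
        rw [e1]
        refine mul_le_mul_of_nonneg_right ?_ (Real.exp_pos _).le
        have := pow_le_pow_left₀ (norm_nonneg _) hU.2.2.le 2
        rw [← Real.exp_nat_mul] at this
        refine this.trans (le_of_eq ?_)
        congr 1
        push_cast
        ring
      have h8 := mul_le_mul_of_nonneg_left h6 (sq_nonneg (‖P U‖ * Real.exp (-U.re)))
      have h9 := mul_le_mul_of_nonneg_right (hsq U hU) (sq_nonneg ‖deriv P U / P U‖)
      nlinarith
    refine h5.trans ?_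
    rw [lintegral_add_right' _ ?_, lintegral_const_mul' _ _ ENNReal.ofReal_ne_top,
      lintegral_const_mul' _ _ ENNReal.ofReal_ne_top]
    swap
    · exact (by fun_prop : Measurable fun U : ℂ => ENNReal.ofReal (2 * Real.exp (2 * y + 2)) *
        ENNReal.ofReal (Real.exp (-(2 * U.re)))).aemeasurable
    have h10 := h2 P hP y (y + 1) (by linarith)
    set r : ℝ := y - (4 * Real.pi ^ 2 + 1) + E / (2 * Real.pi) with hr
    have h11 : ∫⁻ U in R, ENNReal.ofReal (Real.exp (-(2 * U.re))) ≤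
        ENNReal.ofReal (Real.pi * Real.exp (-(2 * r))) := by
      refine (lintegral_mono_set ?_).trans (h3.1 r)
      intro U hU
      refine ⟨hU.1, ?_⟩
      have h12 := hstar U hU
      have h13 : Real.exp y * Real.exp (-U.re) ≤ c * Real.exp (-(E / (2 * Real.pi))) :=
        (mul_le_mul_of_nonneg_right hU.2.1 (Real.exp_pos _).le).trans h12
      rw [hc, ← Real.exp_add, ← Real.exp_add, Real.exp_le_exp] at h13
      rw [hr]
      linarith
    have h14 : ENNReal.ofReal (2 * (c ^ 2 * Real.exp (-(E / Real.pi)))) *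
        ∫⁻ U in R, ENNReal.ofReal (‖deriv P U / P U‖ ^ 2) ≤
        ENNReal.ofReal (2 * (c ^ 2 * Real.exp (-(E / Real.pi))) * (2 * Real.pi)) := by
      rw [ENNReal.ofReal_mul (q := 2 * Real.pi) (by positivity)]
      gcongr
      refine h10.trans (le_of_eq ?_)
      congr 1
      ring
    have h15 : ENNReal.ofReal (2 * Real.exp (2 * y + 2)) *
        ∫⁻ U in R, ENNReal.ofReal (Real.exp (-(2 * U.re))) ≤
        ENNReal.ofReal (2 * Real.exp (2 * y + 2) * (Real.pi * Real.exp (-(2 * r)))) := by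
      rw [ENNReal.ofReal_mul (q := Real.pi * Real.exp (-(2 * r))) (by positivity)]
      gcongr
    refine (add_le_add h14 h15).trans ?_
    rw [← ENNReal.ofReal_add (by positivity) (by positivity)]
    refine ENNReal.ofReal_le_ofReal (le_of_eq ?_)
    have h16 : Real.exp (2 * y + 2) * Real.exp (-(2 * r)) =
        c ^ 2 * (Real.exp 2 * Real.exp (-(E / Real.pi))) := by
      rw [hc, ← Real.exp_nat_mul, ← Real.exp_add, ← Real.exp_add, ← Real.exp_add, hr]
      congr 1
      push_cast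
      field_simp
      ring
    have h17 : 2 * Real.exp (2 * y + 2) * (Real.pi * Real.exp (-(2 * r))) =
        2 * Real.pi * (Real.exp (2 * y + 2) * Real.exp (-(2 * r))) := by ring
    rw [h17, h16]
    ring
  -- conclusion
  rcases le_total 1 d with h | h
  · rw [min_eq_left h, mul_one]
    refine hB.trans (le_of_eq ?_)
    congr 1
  · rw [min_eq_right h]
    refine hA.trans (ENNReal.ofReal_le_ofReal ?_)
    have h5 : 1 ≤ 4 * Real.pi + 2 * Real.pi * Real.exp 2 := by
      have := Real.pi_gt_three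
      have := Real.exp_pos 2
      nlinarith
    have h6 : 0 ≤ c ^ 2 * (Real.exp (-(E / Real.pi)) * d) := by positivity
    nlinarith

end Pool.Agent.MultS.UB

end
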