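import Pool.Agent.Work.MP_b17785_an.UB.Stmts
import Pool.Agent.Work.MP_b17785_an.Bd.B07
import Pool.Agent.Work.MP_b17785_an.LB.Stmts
import Pool.Agent.Work.MP_b17785_an.Bd.B13
import Pool.Agent.Work.MP_b17785_an.LB.StmtsF
import Pool.Agent.Work.MP_b17785_an.LB.Stmts2
import Pool.Agent.Work.MP_b17785_an.Bd.B02
import Pool.Agent.Work.MP_b17785_an.UB.Pars
import Pool.Agent.Work.MP_b17785_an.NbhdC
import Pool.Agent.Work.MP_b17785_an.Bd.B10
import Pool.Agent.Work.MP_b17785_an.Bd.B08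
import Pool.Agent.Work.MP_b17785_an.Lip.E12
import Pool.Agent.Work.MP_b17785_an.Lip.StmtsU

/-! Bundle of small proof modules (one section per former module). -/

section

/-! # Item U14: the sum over the rings -/

set_option autoImplicit false
namespace Pool.Agent.MultS.UB
namespace SerX

open Finset

theorem key {x : ℝ} : x * Real.exp (-x) ≤ 1 - Real.exp (-x) := by
  have h := Real.add_one_le_exp x
  have h1 : Real.exp x * Real.exp (-x) = 1 := by rw [← Real.exp_add]; simp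
  have h2 := Real.exp_pos (-x)
  nlinarith

theorem step {T t g : ℝ} (ht : 0 ≤ t) (hg : T + t - 2 ≤ g) :
    Real.exp (-(g / Real.pi)) * t ≤ Real.pi * Real.exp (2 / Real.pi) *
      (Real.exp (-(T / Real.pi)) - Real.exp (-((T + t) / Real.pi))) := by
  have hpi := Real.pi_pos
  have h1 : Real.exp (-(g / Real.pi)) ≤
      Real.exp (2 / Real.pi) * (Real.exp (-(T / Real.pi)) * Real.exp (-(t / Real.pi))) := by
    rw [← Real.exp_add, ← Real.exp_add]
    refine Real.exp_le_exp.2 ?_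
    have : (T + t - 2) / Real.pi ≤ g / Real.pi := div_le_div_of_nonneg_right hg hpi.le
    have e : (T + t - 2) / Real.pi = T / Real.pi + t / Real.pi - 2 / Real.pi := by ring
    linarith
  have h2 : Real.exp (-((T + t) / Real.pi)) =
      Real.exp (-(T / Real.pi)) * Real.exp (-(t / Real.pi)) := by
    rw [← Real.exp_add]; congr 1; ring
  have h3 := key (x := t / Real.pi)
  have h4 : t * Real.exp (-(t / Real.pi)) ≤ Real.pi * (1 - Real.exp (-(t / Real.pi))) := by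
    have := mul_le_mul_of_nonneg_left h3 hpi.le
    have e : Real.pi * (t / Real.pi * Real.exp (-(t / Real.pi))) = t * Real.exp (-(t / Real.pi)) := by
      field_simp
    linarith
  calc Real.exp (-(g / Real.pi)) * t
      ≤ Real.exp (2 / Real.pi) * (Real.exp (-(T / Real.pi)) * Real.exp (-(t / Real.pi))) * t :=
        mul_le_mul_of_nonneg_right h1 ht
    _ = Real.exp (2 / Real.pi) * Real.exp (-(T / Real.pi)) * (t * Real.exp (-(t / Real.pi))) := by
        ring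
    _ ≤ Real.exp (2 / Real.pi) * Real.exp (-(T / Real.pi)) *
          (Real.pi * (1 - Real.exp (-(t / Real.pi)))) :=
        mul_le_mul_of_nonneg_left h4 (by positivity)
    _ = _ := by rw [h2]; ring

theorem nat_sum (e g : ℕ → ℝ) (he : Monotone e) (h0 : ∀ n, 0 ≤ e n) (hg0 : 0 ≤ g 0)
    (hg : ∀ n, g (n + 1) = e n) (m : ℕ) :
    ∑ n ∈ range m, Real.exp (-(g n / Real.pi)) * min 1 (e (n + 1) - e n) ≤
      Real.pi * Real.exp (2 / Real.pi) *
        (1 - Real.exp (-((∑ n ∈ range m, min 1 (e (n + 1) - e n)) / Real.pi))) := by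
  have ht0 : ∀ n, 0 ≤ min 1 (e (n + 1) - e n) := fun n =>
    le_min zero_le_one (sub_nonneg.2 (he (Nat.le_succ n)))
  have ht1 : ∀ n, min 1 (e (n + 1) - e n) ≤ 1 := fun n => min_le_left _ _
  have hT : ∀ n, ∑ j ∈ range n, min 1 (e (j + 1) - e j) ≤ e n := by
    intro n
    induction n with
    | zero => simpa using h0 0
    | succ n ih =>
      rw [sum_range_succ]
      have := min_le_right 1 (e (n + 1) - e n)
      linarith
  induction m with
  | zero => simp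
  | succ m ih =>
    rw [sum_range_succ, sum_range_succ]
    have h1 : (∑ n ∈ range m, min 1 (e (n + 1) - e n)) + min 1 (e (m + 1) - e m) - 2 ≤ g m := by
      cases m with
      | zero =>
        have := ht1 0
        simp only [range_zero, sum_empty]
        linarith
      | succ m =>
        rw [hg, sum_range_succ]
        have a1 := hT m
        have a2 := ht1 m
        have a3 := ht1 (m + 1)
        linarith
    have h2 := step (ht0 m) h1
    linarith

end SerX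

theorem prfSer : Ser := by
  intro E hE h0
  have hf0 : ∀ i : ℤ, 0 ≤ Real.exp (-(E (i - 1) / Real.pi)) * min 1 (E (i + 1) - E i) := fun i =>
    mul_nonneg (Real.exp_pos _).le (le_min zero_le_one (sub_nonneg.2 (hE (by linarith))))
  rw [ENNReal.tsum_eq_iSup_sum]
  refine iSup_le fun s => ?_
  obtain ⟨N, hN⟩ : ∃ N : ℕ, ∀ i ∈ s, -(N : ℤ) ≤ i ∧ i < N := by
    refine ⟨s.sup (fun i => i.natAbs) + 1, fun i hi => ?_⟩
    have := Finset.le_sup (f := fun i : ℤ => i.natAbs) hi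

    constructor <;> push_cast <;> omega
  rw [← ENNReal.ofReal_sum_of_nonneg fun i _ => hf0 i]
  refine ENNReal.ofReal_le_ofReal ?_
  have hsub : s ⊆ (Finset.range (2 * N)).image (fun n : ℕ => -(N : ℤ) + n) := by
    intro i hi
    obtain ⟨a, b⟩ := hN i hi
    rw [Finset.mem_image]
    exact ⟨(i + N).toNat, Finset.mem_range.2 (by omega), by omega⟩
  refine (Finset.sum_le_sum_of_subset_of_nonneg hsub fun i _ _ => hf0 i).trans ?_
  rw [Finset.sum_image fun a _ b _ h => by simpa using h]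
  have h := SerX.nat_sum (fun n => E (-(N : ℤ) + n)) (fun n => E (-(N : ℤ) + n - 1))
    (fun a b hab => hE (by simpa using hab)) (fun n => h0 _) (h0 _)
    (fun n => by congr 1; push_cast; ring) (2 * N)
  have e : ∀ n : ℕ, E (-(N : ℤ) + (n + 1 : ℕ)) = E (-(N : ℤ) + n + 1) := fun n => by
    congr 1; push_cast; ring
  simp only [e] at h
  refine h.trans ?_
  have hpos : 0 < Real.pi * Real.exp (2 / Real.pi) := mul_pos Real.pi_pos (Real.exp_pos _)
  have := Real.exp_pos (-((∑ n ∈ Finset.range (2 * N), min 1 (E (-(N : ℤ) + n + 1) - E (-(N : ℤ) + n))) / Real.pi))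
  nlinarith

end Pool.Agent.MultS.UB

end

section

/-! # The properties of the composition -/

set_option autoImplicit false

open Complex Metric Set Filter Topology MeasureTheory
open scoped ENNReal

namespace Pool.Agent.MultS.UB

theorem prfSpAll (h1 : HmF) (h2 : SpN) (h3 : SpC) : SpAll := by
  intro f K hf hOne hK
  obtain ⟨hd, hinj, hball, -, -, -⟩ := h1
  obtain ⟨fd, finj, f0, f1⟩ := hf
  have hmaps : MapsTo hm St (ball (0 : ℂ) 1) := fun U hU => (hball U hU).1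
  obtain ⟨c1, c2, c3⟩ := h3 f K ⟨fd, finj, f0, f1⟩ hOne hK
  refine ⟨fd.comp hd hmaps, finj.comp hinj hmaps, ?_, ?_, c1, c2, c3⟩
  · intro U hU h0
    have h0' : f (hm U) = 0 := h0
    rw [← f0] at h0'
    have := finj (hmaps hU) (mem_ball_self one_pos) h0'
    exact (hball U hU).2.1 this
  · exact h2 f ⟨fd, finj, f0, f1⟩

end Pool.Agent.MultS.UB

end

section

/-!
# [U19] Crossing of vertical lines
-/

set_option autoImplicit false

open Complex Metric Set Filter Topology MeasureTheory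
open scoped ENNReal

namespace Pool.Agent.MultS.UB

namespace SpCX

lemma line_mem {φ : ℝ} (hφ : φ ∈ Ioo (-Real.pi) Real.pi) (u : ℝ) :
    ((u : ℂ) + (φ : ℂ) * I) ∈ St := by
  have : ((u : ℂ) + (φ : ℂ) * I).im = φ := by simp
  exact ⟨by rw [this]; exact hφ.1, by rw [this]; exact hφ.2⟩

/-- An open connected set which meets both sides of a circle `|kb| = e^u`. -/
theorem common (h : HmF) {W : Set ℂ} (hW : IsOpen W) (hsub : W ⊆ ball 0 1)
    (hpre : IsPreconnected W) {z₁ z₂ : ℂ} (h1 : z₁ ∈ W) (h2 : z₂ ∈ W) {u : ℝ}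
    (hl : ‖kb z₁‖ < Real.exp u) (hg : Real.exp u < ‖kb z₂‖) :
    ∃ φ ∈ Ioo (-Real.pi) Real.pi, hm ((u : ℂ) + (φ : ℝ) * I) ∈ W := by
  obtain ⟨-, -, m3, -, m5, m6⟩ := h
  have hc : ContinuousOn (fun z => ‖kb z‖) W := (m6.mono hsub).continuousOn.norm
  obtain ⟨z, hz, hzu⟩ := hpre.intermediate_value h1 h2 hc ⟨hl.le, hg.le⟩
  have han : AnalyticOnNhd ℂ kb W := (m6.mono hsub).analyticOnNhd hW
  have hop := (han.is_constant_or_isOpen hpre).resolve_left (by
    rintro ⟨w, hw⟩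
    rw [hw z₁ h1] at hl
    rw [hw z₂ h2] at hg
    exact lt_asymm hl hg)
  have hO : IsOpen (kb '' W) := hop W subset_rfl hW
  set θ := arg (kb z) with hθ
  have hzu' : ‖kb z‖ = Real.exp u := hzu
  have e1 : exp ((u : ℂ) + (θ : ℂ) * I) = kb z := by
    have h3 := norm_mul_exp_arg_mul_I (kb z)
    rw [hzu', ← hθ] at h3
    rw [exp_add, ← h3]
    push_cast
    rfl
  have ht : Tendsto (fun φ : ℝ => exp ((u : ℂ) + (φ : ℂ) * I)) (𝓝[<] θ) (𝓝 (kb z)) := by
    rw [← e1]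
    exact (Continuous.tendsto (by fun_prop) θ).mono_left nhdsWithin_le_nhds
  have h4 : ∀ᶠ φ : ℝ in 𝓝[<] θ, exp ((u : ℂ) + (φ : ℂ) * I) ∈ kb '' W :=
    ht.eventually (hO.mem_nhds ⟨z, hz, rfl⟩)
  have h5 : Ioo (-Real.pi) θ ∈ 𝓝[<] θ := Ioo_mem_nhdsLT (neg_pi_lt_arg _)
  obtain ⟨φ, ⟨z', hz', he⟩, hφ⟩ := (h4.and h5).exists
  have hφ' : φ ∈ Ioo (-Real.pi) Real.pi := ⟨hφ.1, hφ.2.trans_le (arg_le_pi _)⟩
  refine ⟨φ, hφ', ?_⟩
  obtain ⟨n1, -, n3⟩ := m3 _ (line_mem hφ' u)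
  have : hm ((u : ℂ) + (φ : ℂ) * I) = z' := m5 n1 (hsub hz') (n3.trans he.symm)
  rw [this]
  exact hz'

lemma isOpen_lt_set {f : ℂ → ℂ} (hf : Sc f) (s : ℝ) :
    IsOpen {z : ℂ | z ∈ ball (0 : ℂ) 1 ∧ ‖f z‖ < s} :=
  hf.1.continuousOn.isOpen_inter_preimage isOpen_ball
      (isOpen_lt continuous_norm continuous_const)

lemma isOpen_gt_set {f : ℂ → ℂ} (hf : Sc f) (s : ℝ) :
    IsOpen {z : ℂ | z ∈ ball (0 : ℂ) 1 ∧ s < ‖f z‖} :=
  hf.1.continuousOn.isOpen_inter_preimage isOpen_ball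
      (isOpen_lt continuous_const continuous_norm)

lemma unb {f : ℂ → ℂ} (ho : OneOm f) (M : ℝ) (hM : 0 < M) :
    ∃ z ∈ ball (0 : ℂ) 1, M < ‖f z‖ := by
  have hne : ((M + 1 : ℝ) : ℂ) ≠ -((M + 1 : ℝ) : ℂ) := by
    intro h
    have h2 : M + 1 = -(M + 1) := by exact_mod_cast h
    linarith
  have hnorm : ‖((M + 1 : ℝ) : ℂ)‖ = M + 1 := by
    rw [Complex.norm_real, Real.norm_eq_abs, abs_of_pos (by linarith)]
  rcases ho _ _ hne (norm_neg _).symm with ⟨z, hz, hfz⟩ | ⟨z, hz, hfz⟩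
  · exact ⟨z, hz, by rw [hfz, hnorm]; linarith⟩
  · exact ⟨z, hz, by rw [hfz, norm_neg, hnorm]; linarith⟩

lemma kb_large {f : ℂ → ℂ} (ho : OneOm f) {K : ℝ}
    (hg : ∀ z ∈ ball (0 : ℂ) 1, ‖f z‖ * ‖1 - z‖ ^ 2 ≤ K) (s u : ℝ) :
    ∃ z ∈ ball (0 : ℂ) 1, s < ‖f z‖ ∧ Real.exp u < ‖kb z‖ := by
  set K' := max K 1 with hK'
  have hK1 : 1 ≤ K' := le_max_right _ _
  have hK2 : K ≤ K' := le_max_left _ _
  have hpos : 0 < max s (max (4 * K') (2 * K' * Real.exp u)) :=
    lt_of_lt_of_le (by positivity) ((le_max_left _ _).trans (le_max_right _ _))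
  obtain ⟨z, hz, hM⟩ := unb ho _ hpos
  have hM1 : s < ‖f z‖ := lt_of_le_of_lt (le_max_left _ _) hM
  have hM2 : 4 * K' < ‖f z‖ := lt_of_le_of_lt ((le_max_left _ _).trans (le_max_right _ _)) hM
  have hM3 : 2 * K' * Real.exp u < ‖f z‖ :=
    lt_of_le_of_lt ((le_max_right _ _).trans (le_max_right _ _)) hM
  have hz1 : ‖z‖ < 1 := mem_ball_zero_iff.1 hz
  have hd : 0 < ‖1 - z‖ := by
    rw [norm_pos_iff]
    intro h
    have : z = 1 := by linear_combination -h
    rw [this, norm_one] at hz1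
    exact lt_irrefl _ hz1
  have hgz := (hg z hz).trans hK2
  have hd2 : ‖1 - z‖ ≤ 1 / 2 := by
    by_contra hc
    push Not at hc
    have h3 : (1 / 2 : ℝ) ^ 2 ≤ ‖1 - z‖ ^ 2 := pow_le_pow_left₀ (by norm_num) hc.le 2
    nlinarith [norm_nonneg (f z)]
  have hz2 : 1 / 2 ≤ ‖z‖ := by
    have h3 : ‖(1 : ℂ)‖ ≤ ‖1 - z‖ + ‖z‖ := by
      have := norm_add_le (1 - z) z
      rwa [sub_add_cancel] at this
    rw [norm_one] at h3
    linarith
  refine ⟨z, hz, hM1, ?_⟩
  unfold kb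
  rw [norm_div, norm_pow, lt_div_iff₀ (by positivity)]
  have h4 : 2 * K' * Real.exp u * ‖1 - z‖ ^ 2 < K' := by
    have := mul_lt_mul_of_pos_right hM3 (show 0 < ‖1 - z‖ ^ 2 by positivity)
    linarith
  have h5 : 2 * (Real.exp u * ‖1 - z‖ ^ 2) < 1 := by
    have h6 : K' * (2 * (Real.exp u * ‖1 - z‖ ^ 2)) < K' * 1 := by linarith
    exact lt_of_mul_lt_mul_left h6 (by linarith)
  linarith

end SpCX

open SpCX in
theorem prfSpC (h1 : HmF) (h2 : ConnIn) : SpC := by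
  intro f K hf ho hg
  have h0 : (0 : ℂ) ∈ ball (0 : ℂ) 1 := mem_ball_self one_pos
  have hkb : ∀ U ∈ St, ‖kb (hm U)‖ = Real.exp U.re := by
    intro U hU
    rw [(h1.2.2.1 U hU).2.2, norm_exp]
  have hm1 : ∀ U ∈ St, hm U ∈ ball (0 : ℂ) 1 := fun U hU => (h1.2.2.1 U hU).1
  refine ⟨?_, ?_, ?_⟩
  · intro s
    obtain ⟨z, hz, hs⟩ := unb ho (max s 1) (lt_max_of_lt_right one_pos)
    have hs' : s < ‖f z‖ := lt_of_le_of_lt (le_max_left _ _) hs
    by_cases him : z.im = 0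
    · have hz' : ball (0 : ℂ) 1 ∈ 𝓝 z := isOpen_ball.mem_nhds hz
      have hc : ContinuousAt f z := hf.1.continuousOn.continuousAt hz'
      have hl : Tendsto (fun δ : ℝ => z + (δ : ℂ) * I) (𝓝[>] 0) (𝓝 z) := by
        have : Tendsto (fun δ : ℝ => z + (δ : ℂ) * I) (𝓝 0) (𝓝 (z + ((0 : ℝ) : ℂ) * I)) :=
          Continuous.tendsto (by fun_prop) 0
        rw [ofReal_zero, zero_mul, add_zero] at this
        exact this.mono_left nhdsWithin_le_nhds
      obtain ⟨δ, ⟨h5, h6⟩, h7⟩ := (((hl.eventually hz').and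
        ((hc.norm.tendsto.comp hl).eventually (lt_mem_nhds hs'))).and self_mem_nhdsWithin).exists
      obtain ⟨U, hU, hUz⟩ := h1.2.2.2.1 (z + (δ : ℂ) * I) h5 fun h => by
        have : (z + (δ : ℂ) * I).im = δ := by simp [him]
        rw [this] at h
        exact (ne_of_gt h7) h.1
      refine ⟨U, hU, ?_⟩
      rw [hUz]
      exact h6
    · obtain ⟨U, hU, hUz⟩ := h1.2.2.2.1 z hz fun h => him h.1
      exact ⟨U, hU, by rw [hUz]; exact hs'⟩
  · intro U s u hU hs hu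
    have hs0 : 0 < s := (norm_nonneg _).trans_lt hs
    obtain ⟨φ, hφ, hW⟩ := common h1 (isOpen_lt_set hf s) (fun z hz => hz.1) (h2 f s hf ho)
      (z₁ := 0) (z₂ := hm U) ⟨h0, by rw [hf.2.2.1, norm_zero]; exact hs0⟩ ⟨hm1 U hU, hs⟩
      (u := u) (by
        unfold kb
        rw [zero_div, norm_zero]
        exact Real.exp_pos _) (by rw [hkb U hU]; exact Real.exp_lt_exp.2 hu)
    exact ⟨φ, hφ, hW.2⟩
  · intro U s u hU hs hu
    have hpi := Real.pi_pos
    rcases lt_or_ge s 0 with h | h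
    · exact ⟨0, ⟨by linarith, hpi⟩, h.trans_le (norm_nonneg _)⟩
    · obtain ⟨z₂, hz2, hf2, hk2⟩ := kb_large ho hg s u
      obtain ⟨φ, hφ, hW⟩ := common h1 (isOpen_gt_set hf s) (fun z hz => hz.1)
        (prfLipConnZ f s hf (prfLipConn f s hf ho h))
        (z₁ := hm U) (z₂ := z₂) ⟨hm1 U hU, hs⟩ ⟨hz2, hf2⟩
        (u := u) (by rw [hkb U hU]; exact Real.exp_lt_exp.2 hu) hk2
      exact ⟨φ, hφ, hW.2⟩

end Pool.Agent.MultS.UB

end

section

/-!
# Item U18: the normalisation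
-/

set_option autoImplicit false

open Complex Metric Set Filter Topology MeasureTheory

namespace Pool.Agent.MultS.UB

namespace SpNX

/-- Open mapping with injectivity. -/
lemma small {f : ℂ → ℂ} (hf : Sc f) {r : ℝ} (hr : 0 < r) (hr1 : r ≤ 1) :
    ∃ δ : ℝ, 0 < δ ∧ ∀ z ∈ ball (0 : ℂ) 1, ‖f z‖ < δ → z ∈ ball (0 : ℂ) r := by
  obtain ⟨hd, hi, h0, -⟩ := hf
  have han : AnalyticOnNhd ℂ f (ball 0 1) := hd.analyticOnNhd isOpen_ball
  have hop := (han.is_constant_or_isOpen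
    (convex_ball (0 : ℂ) 1).isPreconnected).resolve_left (by
      rintro ⟨w, hw⟩
      have h0 : (0 : ℂ) ∈ ball (0 : ℂ) 1 := by simp
      have h1 : (1 / 2 : ℂ) ∈ ball (0 : ℂ) 1 := by
        rw [mem_ball_zero_iff]; norm_num
      have := hi h0 h1 ((hw 0 h0).trans (hw _ h1).symm)
      norm_num at this)
  have hsub : ball (0 : ℂ) r ⊆ ball (0 : ℂ) 1 := ball_subset_ball hr1
  have hO : IsOpen (f '' ball (0 : ℂ) r) := hop _ hsub isOpen_ball
  have hm : (0 : ℂ) ∈ f '' ball (0 : ℂ) r := ⟨0, mem_ball_self hr, h0⟩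
  obtain ⟨δ, hδ, hδ'⟩ := Metric.isOpen_iff.1 hO 0 hm
  refine ⟨δ, hδ, fun z hz hfz => ?_⟩
  obtain ⟨z', hz', he⟩ := hδ' (mem_ball_zero_iff.2 hfz)
  rwa [← hi (hsub hz') hz he]

/-- The quotient near `0`. -/
lemma quot {f : ℂ → ℂ} (hf : Sc f) {ε : ℝ} (hε : 0 < ε) :
    ∃ r : ℝ, 0 < r ∧ r ≤ 1 ∧ ∀ z ∈ ball (0 : ℂ) r, |Real.log ‖Aq f z‖| ≤ ε := by
  obtain ⟨hd, hi, h0, h1⟩ := hf
  have hz : (0 : ℂ) ∈ ball (0 : ℂ) 1 := by simp
  have hdf : DifferentiableAt ℂ f 0 := hd.differentiableAt (isOpen_ball.mem_nhds hz)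
  have hc1 : ContinuousAt (dslope f 0) 0 := continuousAt_dslope_same.2 hdf
  have hc2 : ContinuousAt (fun z : ℂ => (1 - z) ^ 2) 0 := by fun_prop
  have hc : ContinuousAt (Aq f) 0 := hc1.mul hc2
  have hA : Aq f 0 = 1 := by
    unfold Aq
    rw [dslope_same, h1]
    norm_num
  have hl : ContinuousAt (fun z => Real.log ‖Aq f z‖) 0 := by
    refine hc.norm.log ?_
    rw [hA, norm_one]
    exact one_ne_zero
  have hl0 : Real.log ‖Aq f 0‖ = 0 := by rw [hA, norm_one, Real.log_one]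
  obtain ⟨r, hr, hr'⟩ := Metric.continuousAt_iff.1 hl ε hε
  refine ⟨min r 1, lt_min hr one_pos, min_le_right _ _, fun z hz => ?_⟩
  have h2 : dist z 0 < r := lt_of_lt_of_le (mem_ball.1 hz) (min_le_left _ _)
  have h3 := hr' h2
  rw [hl0, Real.dist_eq, sub_zero] at h3
  exact h3.le

/-- Lower bound for the Koebe function. -/
lemma kb_low {z : ℂ} (hz : z ∈ ball (0 : ℂ) 1) : ‖z‖ ≤ 4 * ‖kb z‖ := by
  rw [mem_ball_zero_iff] at hz
  have h1 : ‖1 - z‖ ≤ 2 := by
    have := norm_sub_le (1 : ℂ) z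
    rw [norm_one] at this
    linarith only [this, hz]
  have h2 : 0 < ‖1 - z‖ := by
    rw [norm_pos_iff, sub_ne_zero]
    rintro rfl
    rw [norm_one] at hz
    exact lt_irrefl _ hz
  have h3 : ‖1 - z‖ ^ 2 ≤ 4 := by nlinarith only [h1, h2]
  unfold kb
  rw [norm_div, norm_pow, mul_div_assoc', le_div_iff₀ (by positivity)]
  have h4 := norm_nonneg z
  nlinarith only [h3, h4]

/-- The quotient `f / kb`. -/
lemma log_eq {f : ℂ → ℂ} (hf : Sc f) {z : ℂ} (hz : z ∈ ball (0 : ℂ) 1) (hz0 : z ≠ 0) :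
    Real.log ‖f z‖ - Real.log ‖kb z‖ = Real.log ‖Aq f z‖ := by
  have h1 : 1 - z ≠ 0 := by
    rw [sub_ne_zero]
    rintro rfl
    rw [mem_ball_zero_iff, norm_one] at hz
    exact lt_irrefl _ hz
  have hfz : f z ≠ 0 := by
    intro h
    exact hz0 (hf.2.1 hz (mem_ball_self one_pos) (h.trans hf.2.2.1.symm))
  have hkb : kb z ≠ 0 := div_ne_zero hz0 (pow_ne_zero _ h1)
  have h2 : Aq f z = f z / kb z := by
    unfold Aq kb
    rw [dslope_of_ne _ hz0, slope_def_field, hf.2.2.1]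
    field_simp
    ring
  rw [h2, norm_div, Real.log_div (norm_ne_zero_iff.2 hfz) (norm_ne_zero_iff.2 hkb)]

end SpNX

theorem prfSpN (h1 : HmF) : SpN := by
  intro f hf ε hε
  obtain ⟨r, hr, hr1, hq⟩ := SpNX.quot hf hε
  obtain ⟨δ, hδ, hs⟩ := SpNX.small hf hr hr1
  have hm0 : 0 < min (r / 8) (δ / 2) := lt_min (by positivity) (by positivity)
  refine ⟨-Real.log (min (r / 8) (δ / 2)), fun U hU hor => ?_⟩
  rw [neg_neg, Real.exp_log hm0] at hor
  obtain ⟨hz, hz0, hk⟩ := h1.2.2.1 U hU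
  have hkn : Real.log ‖kb (hm U)‖ = U.re := by rw [hk, norm_exp, Real.log_exp]
  have hzr : hm U ∈ ball (0 : ℂ) r := by
    rcases hor with h | h
    · rw [mem_ball_zero_iff]
      have h2 := SpNX.kb_low hz
      rw [hk, norm_exp] at h2
      have h3 : Real.exp U.re ≤ min (r / 8) (δ / 2) := by
        rw [← Real.exp_log hm0]
        exact Real.exp_le_exp.2 h
      have h4 := min_le_left (r / 8) (δ / 2)
      linarith only [h2, h3, h4, hr]
    · apply hs _ hz
      have h4 := min_le_right (r / 8) (δ / 2)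
      linarith only [h, h4, hδ]
  rw [← hkn, SpNX.log_eq hf hz hz0]
  exact hq _ hzr

end Pool.Agent.MultS.UB

end

section

/-!
# [U12] The decay of `|P| e^{-Re U}`
-/

set_option autoImplicit false

open Complex Metric Set Filter Topology MeasureTheory
open scoped ENNReal

namespace Pool.Agent.MultS.UB

theorem prfStar (h1 : Energy) (h2 : Crs) : Star := by
  intro P hP
  have hpi := Real.pi_pos
  have key : ∀ U ∈ St, ∀ x : ℝ, Real.exp (x + 1) ≤ ‖P U‖ →
      En P x ≠ ⊤ ∧ (En P x).toReal ≤ 2 * Real.pi * (U.re + 4 * Real.pi ^ 2 - x) := by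
    intro U hU x hx
    refine h1 P hP x _ fun U' hU' h' => ?_
    have := h2 P hP U' hU' U hU x h' hx
    linarith
  constructor
  · intro x
    obtain ⟨U, hU, h⟩ := hP.unb (Real.exp (x + 1))
    exact (key U hU x h.le).1
  · intro U hU
    have h3 : 0 < ‖P U‖ := norm_pos_iff.2 (hP.ne U hU)
    have h4 := (key U hU (Real.log ‖P U‖ - 1) (by rw [sub_add_cancel, Real.exp_log h3])).2
    have h5 : (En P (Real.log ‖P U‖ - 1)).toReal / (2 * Real.pi) ≤
        U.re + 4 * Real.pi ^ 2 - (Real.log ‖P U‖ - 1) := by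
      rw [div_le_iff₀ (by positivity)]
      linarith
    linarith

end Pool.Agent.MultS.UB

end

section

/-!
# Two integrals over parts of the strip
-/

set_option autoImplicit false

open Complex Metric Set Filter Topology MeasureTheory
open scoped ENNReal

namespace Pool.Agent.MultS.UB

namespace TailX

lemma slice_le {E : Set ℂ} (hE : E ⊆ St) (u : ℝ) :
    {φ : ℝ | (u : ℂ) + (φ : ℂ) * I ∈ E} ⊆ Ioo (-Real.pi) Real.pi := by
  intro φ hφ
  have h := hE hφ
  simpa [St] using h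

lemma vol_Ioo : volume (Ioo (-Real.pi) Real.pi) = ENNReal.ofReal (2 * Real.pi) := by
  rw [Real.volume_Ioo]
  congr 1
  ring

/-- general bound -/
lemma gen (h1 : Fub) {E : Set ℂ} (hE : E ⊆ St) (hm : MeasurableSet E) (A : Set ℝ)
    (hA : MeasurableSet A) (hEA : ∀ U ∈ E, U.re ∈ A) (g : ℝ → ℝ≥0∞) (hg : Measurable g) :
    ∫⁻ U in E, g U.re ≤ ENNReal.ofReal (2 * Real.pi) * ∫⁻ u in A, g u := by
  have hG : Measurable (fun U : ℂ => g U.re) := hg.comp Complex.measurable_re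
  rw [h1 E hm _ hG.aemeasurable, ← lintegral_const_mul' _ _ ENNReal.ofReal_ne_top,
    ← lintegral_indicator hA]
  apply lintegral_mono
  intro u
  have e : ∀ φ : ℝ, ((u : ℂ) + (φ : ℂ) * I).re = u := by intro φ; simp
  simp only [e]
  by_cases hu : u ∈ A
  · rw [indicator_of_mem hu, setLIntegral_const, mul_comm]
    refine mul_le_mul_left ?_ _
    exact (measure_mono (slice_le hE u)).trans vol_Ioo.le
  · have h0 : {φ : ℝ | (u : ℂ) + (φ : ℂ) * I ∈ E} = ∅ := by
      ext φ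
      simp only [mem_ofPred_eq, mem_empty_iff_false, iff_false]
      intro h
      have := hEA _ h
      rw [e] at this
      exact hu this
    rw [h0, indicator_of_notMem hu]
    simp

lemma meas_St : MeasurableSet St := by
  apply IsOpen.measurableSet
  exact (isOpen_lt continuous_const Complex.continuous_im).inter
    (isOpen_lt Complex.continuous_im continuous_const)

end TailX

open TailX in
theorem prfTail (h1 : Fub) : Tail := by
  constructor
  · intro r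
    have hm : MeasurableSet {U : ℂ | U ∈ St ∧ r ≤ U.re} :=
      meas_St.inter (measurableSet_le measurable_const Complex.measurable_re)
    have h2 := gen h1 (E := {U : ℂ | U ∈ St ∧ r ≤ U.re}) (fun U hU => hU.1) hm (Ioi (r - 1) ∩ Ici r)
      (measurableSet_Ioi.inter measurableSet_Ici) (fun U hU => ⟨by
        have := hU.2
        show r - 1 < U.re
        linarith, hU.2⟩) (fun u => ENNReal.ofReal (Real.exp (-(2 * u)))) (by fun_prop)
    refine h2.trans ?_
    have h3 : ∫⁻ u in Ioi (r - 1) ∩ Ici r, ENNReal.ofReal (Real.exp (-(2 * u))) ≤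
        ENNReal.ofReal (Real.exp (-(2 * r)) / 2) := by
      have e1 : Ioi (r - 1) ∩ Ici r = Ici r := by
        ext u
        simp only [mem_inter_iff, mem_Ioi, mem_Ici, and_iff_right_iff_imp]
        intro h
        linarith
      have e2 : ∀ u : ℝ, Real.exp (-(2 * u)) = Real.exp ((-2) * u) := by intro u; congr 1; ring
      rw [e1, ← restrict_Ioi_eq_restrict_Ici]
      simp only [e2]
      rw [← ofReal_integral_eq_lintegral_ofReal (integrableOn_exp_mul_Ioi (by norm_num) r)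
        (Eventually.of_forall fun u => (Real.exp_pos _).le),
        integral_exp_mul_Ioi (by norm_num) r]
      apply ENNReal.ofReal_le_ofReal
      linarith
    calc ENNReal.ofReal (2 * Real.pi) * ∫⁻ u in Ioi (r - 1) ∩ Ici r,
          ENNReal.ofReal (Real.exp (-(2 * u)))
        ≤ ENNReal.ofReal (2 * Real.pi) * ENNReal.ofReal (Real.exp (-(2 * r)) / 2) := by gcongr
      _ = ENNReal.ofReal (Real.pi * Real.exp (-(2 * r))) := by
        rw [← ENNReal.ofReal_mul (by positivity)]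
        congr 1
        ring
  · intro a b hab
    have hm : MeasurableSet {U : ℂ | U ∈ St ∧ a < U.re ∧ U.re ≤ b} :=
      meas_St.inter ((measurableSet_lt measurable_const Complex.measurable_re).inter
        (measurableSet_le Complex.measurable_re measurable_const))
    have h2 := gen h1 (E := {U : ℂ | U ∈ St ∧ a < U.re ∧ U.re ≤ b}) (fun U hU => hU.1) hm
      (Ioc a b) measurableSet_Ioc (fun U hU => hU.2) (fun _ => 1) measurable_const
    simp only [lintegral_one, Measure.restrict_apply_univ] at h2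
    refine h2.trans ?_
    rw [Real.volume_Ioc, ← ENNReal.ofReal_mul (by positivity)]

end Pool.Agent.MultS.UB

end

section

/-!
# AG: the general area estimate along the flow
-/

set_option autoImplicit false

open Complex Metric Set Filter Topology MeasureTheory
open Pool.Agent.MultS.Lip
open scoped ENNReal

namespace Pool.Agent.MultS.LB

namespace AGX

/-- polar coordinates, with the angle outside -/
lemma polar {H : ℂ → ℝ≥0∞} (hH : Measurable H) :
    ∫⁻ θ in Ioo (-Real.pi) Real.pi, ∫⁻ r in Ioi (0 : ℝ),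
      ENNReal.ofReal r * H ((r : ℂ) * exp ((θ : ℂ) * I)) = ∫⁻ z, H z := by
  have hm : Measurable fun p : ℝ × ℝ => ENNReal.ofReal p.1 * H ((p.1 : ℂ) * exp ((p.2 : ℂ) * I)) := by
    refine (ENNReal.measurable_ofReal.comp measurable_fst).mul (hH.comp ?_)
    exact Continuous.measurable (by fun_prop)
  rw [← Complex.lintegral_comp_polarCoord_symm, polarCoord_target, Measure.volume_eq_prod,
    ← Measure.prod_restrict, lintegral_prod_symm]
  · refine lintegral_congr fun θ => lintegral_congr fun r => ?_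
    rw [smul_eq_mul, Complex.polarCoord_symm_apply]
    congr 2
    rw [exp_mul_I]
    push_cast
    rfl
  · refine (Measurable.aemeasurable ?_)
    have : (fun p : ℝ × ℝ => ENNReal.ofReal p.1 • H (Complex.polarCoord.symm p)) =
        fun p : ℝ × ℝ => ENNReal.ofReal p.1 * H ((p.1 : ℂ) * exp ((p.2 : ℂ) * I)) := by
      funext p
      rw [smul_eq_mul, Complex.polarCoord_symm_apply, exp_mul_I]
      push_cast
      rfl
    rw [this]
    exact hm

/-- the integral of `1/|w|` over a disk -/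
lemma int_inv {ρ : ℝ} (hρ : 0 ≤ ρ) :
    ∫⁻ w in closedBall (0 : ℂ) ρ, ENNReal.ofReal (‖w‖⁻¹) ≤ ENNReal.ofReal (2 * Real.pi * ρ) := by
  set H : ℂ → ℝ≥0∞ := (closedBall (0 : ℂ) ρ).indicator fun w => ENNReal.ofReal (‖w‖⁻¹) with hH
  have hHm : Measurable H := by
    refine Measurable.indicator ?_ measurableSet_closedBall
    exact ENNReal.measurable_ofReal.comp measurable_norm.inv
  rw [← lintegral_indicator measurableSet_closedBall, ← hH, ← polar hHm]
  have h1 : ∀ θ : ℝ, ∫⁻ r in Ioi (0 : ℝ), ENNReal.ofReal r * H ((r : ℂ) * exp ((θ : ℂ) * I)) ≤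
      ENNReal.ofReal ρ := by
    intro θ
    calc ∫⁻ r in Ioi (0 : ℝ), ENNReal.ofReal r * H ((r : ℂ) * exp ((θ : ℂ) * I))
        ≤ ∫⁻ r in Ioi (0 : ℝ), (Ioc (0 : ℝ) ρ).indicator (fun _ => (1 : ℝ≥0∞)) r := by
          refine setLIntegral_mono' measurableSet_Ioi fun r hr => ?_
          have hr0 : 0 < r := hr
          have hn : ‖(r : ℂ) * exp ((θ : ℂ) * I)‖ = r := by
            rw [norm_mul, norm_exp_ofReal_mul_I, mul_one, norm_real, Real.norm_eq_abs,
              abs_of_pos hr0]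
          by_cases h : r ≤ ρ
          · have hm : (r : ℂ) * exp ((θ : ℂ) * I) ∈ closedBall (0 : ℂ) ρ := by
              rw [mem_closedBall_zero_iff, hn]; exact h
            have hi : r ∈ Ioc (0 : ℝ) ρ := ⟨hr0, h⟩
            rw [hH, indicator_of_mem hm, hn, indicator_of_mem hi,
              ← ENNReal.ofReal_mul hr0.le, mul_inv_cancel₀ hr0.ne', ENNReal.ofReal_one]
          · have hm : (r : ℂ) * exp ((θ : ℂ) * I) ∉ closedBall (0 : ℂ) ρ := by
              rw [mem_closedBall_zero_iff, hn]; exact h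
            rw [hH, indicator_of_notMem hm, mul_zero]
            exact bot_le
      _ ≤ ∫⁻ r : ℝ, (Ioc (0 : ℝ) ρ).indicator (fun _ => (1 : ℝ≥0∞)) r :=
          setLIntegral_le_lintegral _ _
      _ = ENNReal.ofReal ρ := by
          rw [lintegral_indicator measurableSet_Ioc, setLIntegral_const, one_mul, Real.volume_Ioc,
            sub_zero]
  calc ∫⁻ θ in Ioo (-Real.pi) Real.pi, ∫⁻ r in Ioi (0 : ℝ),
        ENNReal.ofReal r * H ((r : ℂ) * exp ((θ : ℂ) * I))
      ≤ ∫⁻ θ in Ioo (-Real.pi) Real.pi, ENNReal.ofReal ρ := lintegral_mono fun θ => h1 θ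
    _ = ENNReal.ofReal ρ * ENNReal.ofReal (2 * Real.pi) := by
        rw [setLIntegral_const, Real.volume_Ioo]
        congr 2
        ring
    _ = ENNReal.ofReal (2 * Real.pi * ρ) := by
        rw [← ENNReal.ofReal_mul hρ]
        congr 1
        ring

lemma X_nonneg {lam : ℕ → ℂ} {X : ℝ} (h : PX lam X) : 0 ≤ X := by
  have h1 : Sc (fun z => z) := ⟨differentiableOn_id, fun _ _ _ _ h => h, rfl, by simp⟩
  exact (norm_nonneg _).trans (h.bx _ h1 0 (mem_ball_self one_pos))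

lemma measHp : MeasurableSet Hp := by
  have : IsOpen Hp := isOpen_lt continuous_const Complex.continuous_re
  exact this.measurableSet

lemma openHp : IsOpen Hp := isOpen_lt continuous_const Complex.continuous_re

lemma norm_le_add_one {w : ℂ} (hw : w ∈ Hp) : ‖w‖ ≤ ‖w + 1‖ := by
  have h0 : 0 < w.re := hw
  have h1 : ‖w‖ ^ 2 ≤ ‖w + 1‖ ^ 2 := by
    rw [Complex.sq_norm, Complex.sq_norm, Complex.normSq_apply, Complex.normSq_apply]
    simp only [Complex.add_re, Complex.one_re, Complex.add_im, Complex.one_im]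
    nlinarith
  exact (abs_le_of_sq_le_sq' h1 (norm_nonneg _)).2

lemma norm_pos {w : ℂ} (hw : w ∈ Hp) : 0 < ‖w‖ := by
  rw [norm_pos_iff]
  rintro rfl
  exact lt_irrefl _ (show (0 : ℝ) < 0 from hw)

/-- pointwise, part 1 -/
lemma pt1 {R B c n m p : ℝ} (hR : 0 < R) (hB : 0 ≤ B) (hm : 0 < m) (hmn : m ≤ n)
    (hp : p ≤ B * (c * (n / R) ^ (3 / 2 : ℝ)) ^ 2) :
    R ^ 2 * (p / n ^ 4) ≤ B * c ^ 2 * R⁻¹ * m⁻¹ := by
  have hn : 0 < n := hm.trans_le hmn
  have h1 : ((n / R) ^ (3 / 2 : ℝ)) ^ 2 = (n / R) ^ 3 := by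
    rw [← Real.rpow_natCast, ← Real.rpow_mul (by positivity)]
    norm_num
  have h2 : B * (c * (n / R) ^ (3 / 2 : ℝ)) ^ 2 = B * c ^ 2 * (n ^ 3 / R ^ 3) := by
    rw [mul_pow, h1, div_pow]; ring
  rw [h2] at hp
  calc R ^ 2 * (p / n ^ 4) ≤ R ^ 2 * ((B * c ^ 2 * (n ^ 3 / R ^ 3)) / n ^ 4) := by gcongr
    _ = B * c ^ 2 * R⁻¹ * n⁻¹ := by field_simp
    _ ≤ B * c ^ 2 * R⁻¹ * m⁻¹ := by gcongr

/-- pointwise, part 2 -/
lemma pt2 {R n m p d ν Y : ℝ} (hR : 0 < R) (hm : 0 < m) (hmn : m ≤ n) (hp : 0 ≤ p) (hν : 0 < ν)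
    (hY : 0 ≤ Y) (hd : m / (2 * R ^ 2 * ν) ≤ d) (hY2 : 1 + Y ≤ 10 * m / R) :
    R ^ 2 * (p / n ^ 4) ≤ 4 * 10 ^ 6 * (d ^ 2 * (p * ν ^ 2 / (1 + Y) ^ 6)) := by
  have hn : 0 < n := hm.trans_le hmn
  calc R ^ 2 * (p / n ^ 4) ≤ R ^ 2 * (p / m ^ 4) := by gcongr
    _ = 4 * 10 ^ 6 * ((m / (2 * R ^ 2 * ν)) ^ 2 * (p * ν ^ 2 / (10 * m / R) ^ 6)) := by
        field_simp
        norm_num
    _ ≤ _ := by gcongr

end AGX

open AGX

/-- AG -/
theorem prfAG (hAH : AreaH) (hHol : FlHol) (hDer : FlDer) (hNu : FlNu) (hN1 : FlN1)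
    (hTwo : FlTwo) : AG := by
  obtain ⟨C₂, hC₂, hTwo⟩ := hTwo
  refine ⟨3 * (C₂ ^ 2 * (Real.pi / 2) + 4 * 10 ^ 6), by positivity, ?_⟩
  intro lam X hX z hz κ S y hD hF s hs P B hB hP hPB hint
  have hX0 : 0 ≤ X := X_nonneg hX
  obtain ⟨-, hhol⟩ := hHol κ S y hD.c1.continuous (hs.1.trans hs.2) hF
  have hinj := (hhol s hs).1
  have hder := fun W hW => hDer κ S y hD hF s hs W hW
  have hydiff : DifferentiableOn ℂ (y s) Hp := fun W hW =>
    (hder W hW).differentiableAt.differentiableWithinAt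
  have hmaps : MapsTo (y s) Hp Hp := fun W hW => hF.pos s hs W hW
  set R := Real.exp s with hR
  have hR0 : 0 < R := Real.exp_pos s
  have hR2 : Real.exp (2 * s) = R ^ 2 := by rw [two_mul, Real.exp_add, hR]; ring
  have hL := hAH lam X hX z hz (fun w => P (y s w)) (hP.comp hydiff hmaps) 0
  -- the two parts
  set V₁ : Set ℂ := Hp ∩ closedBall (0 : ℂ) (R / 4) with hV₁
  set V₂ : Set ℂ := Hp \ closedBall (0 : ℂ) (R / 4) with hV₂
  have hm1 : MeasurableSet V₁ := measHp.inter measurableSet_closedBall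
  have hm2 : MeasurableSet V₂ := measHp.diff measurableSet_closedBall
  have hun : V₁ ∪ V₂ = Hp := inter_union_sdiff _ _
  set K : ℂ → ℝ≥0∞ := fun w => ENNReal.ofReal (R ^ 2 * (‖P (y s w)‖ / ‖w + 1‖ ^ 4)) with hK
  have hI1 : ∫⁻ w in V₁, K w ≤ ENNReal.ofReal (C₂ ^ 2 * (Real.pi / 2) * B) := by
    calc ∫⁻ w in V₁, K w ≤ ∫⁻ w in V₁, ENNReal.ofReal (B * C₂ ^ 2 * R⁻¹) *
          ENNReal.ofReal (‖w‖⁻¹) := by
          refine setLIntegral_mono' hm1 fun w hw => ?_
          have hwH : w ∈ Hp := hw.1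
          have hw4 : 4 * ‖w‖ ≤ Real.exp s := by
            have := mem_closedBall_zero_iff.1 hw.2
            rw [← hR]; linarith
          obtain ⟨ht1, ht2⟩ := hTwo κ S y hD hF s hs w hwH hw4
          have hpb := hPB (y s w) (hmaps hwH) ht2
          rw [← ENNReal.ofReal_mul (by positivity)]
          refine ENNReal.ofReal_le_ofReal ?_
          refine pt1 hR0 hB (norm_pos hwH) (norm_le_add_one hwH) (hpb.trans ?_)
          gcongr
      _ ≤ ∫⁻ w in closedBall (0 : ℂ) (R / 4), ENNReal.ofReal (B * C₂ ^ 2 * R⁻¹) *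
          ENNReal.ofReal (‖w‖⁻¹) := lintegral_mono_set inter_subset_right
      _ = ENNReal.ofReal (B * C₂ ^ 2 * R⁻¹) *
          ∫⁻ w in closedBall (0 : ℂ) (R / 4), ENNReal.ofReal (‖w‖⁻¹) :=
          lintegral_const_mul' _ _ ENNReal.ofReal_ne_top
      _ ≤ ENNReal.ofReal (B * C₂ ^ 2 * R⁻¹) * ENNReal.ofReal (2 * Real.pi * (R / 4)) := by
          gcongr
          exact int_inv (by positivity)
      _ = ENNReal.ofReal (C₂ ^ 2 * (Real.pi / 2) * B) := by
          rw [← ENNReal.ofReal_mul (by positivity)]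
          congr 1
          field_simp
          ring
  have hI2 : ∫⁻ w in V₂, K w ≤ ENNReal.ofReal (4 * 10 ^ 6 * B) := by
    set G : ℂ → ℝ≥0∞ := fun v =>
      ENNReal.ofReal (‖P v‖ * ‖v - I * (κ s : ℂ)‖ ^ 2 / (1 + ‖v‖) ^ 6) with hG
    calc ∫⁻ w in V₂, K w ≤ ∫⁻ w in V₂, ENNReal.ofReal (4 * 10 ^ 6) *
          (ENNReal.ofReal (‖deriv (y s) w‖ ^ 2) * G (y s w)) := by
          refine setLIntegral_mono' hm2 fun w hw => ?_
          have hwH : w ∈ Hp := hw.1
          have hw4 : R / 4 < ‖w‖ := by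
            have := hw.2
            rw [mem_closedBall_zero_iff, not_le] at this
            exact this
          have hw0 : 0 < ‖w‖ := norm_pos hwH
          have hw4' : Real.exp s ≤ 4 * ‖w‖ := by rw [← hR]; linarith
          have hn1 := hN1 κ S y hD hF s hs w hwH hw4'
          have hnu := (hNu κ S y hD hF s hs w hwH).1
          have hνre : 0 < (nu κ y s w).re := by
            have := hmaps hwH
            have h2 : 0 < (y s w).re := this
            simpa [nu] using h2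
          have hν0 : 0 < ‖nu κ y s w‖ := norm_pos hνre
          have hd : ‖w‖ / (2 * R ^ 2 * ‖nu κ y s w‖) ≤ ‖deriv (y s) w‖ := by
            rw [(hder w hwH).deriv, norm_div, norm_mul, norm_mul, Complex.norm_real,
              Real.norm_of_nonneg (Real.exp_pos _).le, hR2]
            have h1 : 1 / 2 ≤ ‖nn κ y s w‖ := by
              have h2 : ‖(1 : ℂ)‖ ≤ ‖nn κ y s w‖ + ‖nn κ y s w - 1‖ := by
                have h3 : (1 : ℂ) = nn κ y s w - (nn κ y s w - 1) := by ring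
                calc ‖(1 : ℂ)‖ = ‖nn κ y s w - (nn κ y s w - 1)‖ := by rw [← h3]
                  _ ≤ _ := norm_sub_le _ _
              rw [norm_one] at h2
              linarith
            calc ‖w‖ / (2 * R ^ 2 * ‖nu κ y s w‖) = ‖w‖ * (1 / 2) / (R ^ 2 * ‖nu κ y s w‖) := by
                  field_simp
              _ ≤ ‖w‖ * ‖nn κ y s w‖ / (R ^ 2 * ‖nu κ y s w‖) := by gcongr
          have hY : 1 + ‖y s w‖ ≤ 10 * ‖w‖ / R := by
            have h1 : ‖y s w‖ ≤ ‖nu κ y s w‖ + 1 / 1000 := by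
              have h2 : y s w = nu κ y s w + I * (κ s : ℂ) := by simp [nu]
              have h3 : ‖I * (κ s : ℂ)‖ ≤ 1 / 1000 := by
                rw [norm_mul, norm_I, one_mul, Complex.norm_real]
                exact hD.b0 s
              calc ‖y s w‖ = ‖nu κ y s w + I * (κ s : ℂ)‖ := by rw [← h2]
                _ ≤ ‖nu κ y s w‖ + ‖I * (κ s : ℂ)‖ := norm_add_le _ _
                _ ≤ _ := by linarith
            have h4 : 1 / 4 ≤ ‖w‖ / R := by
              rw [le_div_iff₀ hR0]; linarith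
            have h5 : 10 * ‖w‖ / R = 10 * (‖w‖ / R) := by ring
            rw [h5]
            rw [← hR] at hnu
            linarith
          have hpt := pt2 hR0 hw0 (norm_le_add_one hwH) (norm_nonneg (P (y s w))) hν0
            (norm_nonneg (y s w)) hd hY
          rw [hG, ← ENNReal.ofReal_mul (by positivity), ← ENNReal.ofReal_mul (by positivity)]
          exact ENNReal.ofReal_le_ofReal hpt
      _ = ENNReal.ofReal (4 * 10 ^ 6) * ∫⁻ w in V₂,
          ENNReal.ofReal (‖deriv (y s) w‖ ^ 2) * G (y s w) :=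
          lintegral_const_mul' _ _ ENNReal.ofReal_ne_top
      _ = ENNReal.ofReal (4 * 10 ^ 6) * ∫⁻ v in y s '' V₂, G v := by
          rw [UB.prfChg Hp (y s) openHp hydiff hinj V₂ sdiff_subset hm2 G]
      _ ≤ ENNReal.ofReal (4 * 10 ^ 6) * ∫⁻ v in Hp, G v := by
          gcongr
          exact (image_mono sdiff_subset).trans hmaps.image_subset
      _ ≤ ENNReal.ofReal (4 * 10 ^ 6) * ENNReal.ofReal B := by gcongr
      _ = ENNReal.ofReal (4 * 10 ^ 6 * B) := (ENNReal.ofReal_mul (by positivity)).symm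
  -- together
  have hT : ENNReal.ofReal (R ^ 2) *
      ∫⁻ w in Hp, ENNReal.ofReal (‖P (y s w) - 0‖ / ‖w + 1‖ ^ 4) ≤
      ENNReal.ofReal ((C₂ ^ 2 * (Real.pi / 2) + 4 * 10 ^ 6) * B) := by
    rw [← lintegral_const_mul' _ _ ENNReal.ofReal_ne_top]
    calc ∫⁻ w in Hp, ENNReal.ofReal (R ^ 2) * ENNReal.ofReal (‖P (y s w) - 0‖ / ‖w + 1‖ ^ 4)
        = ∫⁻ w in V₁ ∪ V₂, K w := by
          rw [hun]
          refine lintegral_congr fun w => ?_
          rw [hK, ← ENNReal.ofReal_mul (by positivity), sub_zero]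
      _ ≤ (∫⁻ w in V₁, K w) + ∫⁻ w in V₂, K w := lintegral_union_le _ _ _
      _ ≤ ENNReal.ofReal (C₂ ^ 2 * (Real.pi / 2) * B) + ENNReal.ofReal (4 * 10 ^ 6 * B) :=
          add_le_add hI1 hI2
      _ = _ := by
          rw [← ENNReal.ofReal_add (by positivity) (by positivity)]
          congr 1
          ring
  have hfin : ENNReal.ofReal (R ^ 2 * ‖LL lam (fun ζ => P (y s (psi ζ))) z‖) ≤
      ENNReal.ofReal (3 * (C₂ ^ 2 * (Real.pi / 2) + 4 * 10 ^ 6) * X * B) := by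
    calc ENNReal.ofReal (R ^ 2 * ‖LL lam (fun ζ => P (y s (psi ζ))) z‖)
        = ENNReal.ofReal (R ^ 2) * ENNReal.ofReal ‖LL lam (fun ζ => P (y s (psi ζ))) z‖ :=
          ENNReal.ofReal_mul (by positivity)
      _ ≤ ENNReal.ofReal (R ^ 2) * (ENNReal.ofReal (3 * X) *
          ∫⁻ w in Hp, ENNReal.ofReal (‖P (y s w) - 0‖ / ‖w + 1‖ ^ 4)) := by gcongr
      _ = ENNReal.ofReal (3 * X) * (ENNReal.ofReal (R ^ 2) *
          ∫⁻ w in Hp, ENNReal.ofReal (‖P (y s w) - 0‖ / ‖w + 1‖ ^ 4)) := by ring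
      _ ≤ ENNReal.ofReal (3 * X) *
          ENNReal.ofReal ((C₂ ^ 2 * (Real.pi / 2) + 4 * 10 ^ 6) * B) := by gcongr
      _ = _ := by
          rw [← ENNReal.ofReal_mul (by positivity)]
          congr 1
          ring
  rw [hR2]
  exact (ENNReal.ofReal_le_ofReal_iff (by positivity)).1 hfin

end Pool.Agent.MultS.LB

end

section

/-!
# From the condition `CX` to the criterion for polynomials
-/

set_option autoImplicit false

open Complex Metric Set Filter Topology MeasureTheory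
open Pool.Agent.MultS.Lip

namespace Pool.Agent.MultS.LB

namespace CXCNX

theorem coeff_summable (A : Polynomial ℂ) : Summable fun m => ‖A.coeff m‖ := by
  refine summable_of_ne_finset_zero (s := A.support) fun m hm => ?_
  rw [Polynomial.notMem_support_iff.1 hm, norm_zero]

theorem kc_le (A : Polynomial ℂ) (n : ℕ) : ‖kc A n‖ ≤ n * ∑' m, ‖A.coeff m‖ := by
  unfold kc
  calc ‖∑ m ∈ Finset.range n, ((n : ℂ) - (m : ℂ)) * A.coeff m‖
      ≤ ∑ m ∈ Finset.range n, ‖((n : ℂ) - (m : ℂ)) * A.coeff m‖ := norm_sum_le _ _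
    _ ≤ ∑ m ∈ Finset.range n, (n : ℝ) * ‖A.coeff m‖ := by
        refine Finset.sum_le_sum fun m hm => ?_
        rw [norm_mul]
        refine mul_le_mul_of_nonneg_right ?_ (norm_nonneg _)
        have hm' : m ≤ n := (Finset.mem_range.1 hm).le
        rw [← Nat.cast_sub hm', Complex.norm_natCast]
        exact_mod_cast Nat.sub_le n m
    _ = n * ∑ m ∈ Finset.range n, ‖A.coeff m‖ := by rw [Finset.mul_sum]
    _ ≤ n * ∑' m, ‖A.coeff m‖ := by
        refine mul_le_mul_of_nonneg_left ?_ (Nat.cast_nonneg n)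
        exact (coeff_summable A).sum_le_tsum _ fun _ _ => norm_nonneg _

theorem geo_bdd {r : ℝ} (h0 : 0 ≤ r) (h1 : r < 1) : ∃ D : ℝ, 0 ≤ D ∧
    ∀ n : ℕ, ((n : ℝ) + 1) * r ^ n ≤ D := by
  have hr : ‖r‖ < 1 := by rwa [Real.norm_eq_abs, abs_of_nonneg h0]
  have s1 : Summable fun n : ℕ => (n : ℝ) ^ 1 * r ^ n :=
    summable_pow_mul_geometric_of_norm_lt_one 1 hr
  have s2 : Summable fun n : ℕ => (n : ℝ) ^ 0 * r ^ n :=
    summable_pow_mul_geometric_of_norm_lt_one 0 hr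
  have s3 : Summable fun n : ℕ => ((n : ℝ) + 1) * r ^ n := by
    refine (s1.add s2).congr fun n => ?_
    ring
  have hnn : ∀ n : ℕ, 0 ≤ ((n : ℝ) + 1) * r ^ n := fun n => by positivity
  refine ⟨∑' n : ℕ, ((n : ℝ) + 1) * r ^ n, tsum_nonneg hnn, fun n => ?_⟩
  exact s3.le_tsum n fun m _ => hnn m

end CXCNX

open CXCNX

theorem prfCXCN (hKcT : KcT) (hPolD : PolD) : CXCN := by
  intro mu Y h A hA z hz
  have hb := h.bc (fun x => A.eval x) A.differentiable.differentiableOn hA.1 (hPolD A hA) z hz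
  set F : ℕ → ℂ := fun n => ((n : ℂ) + 1) * z1 mu (n + 1) * kc A (n + 1) * z ^ n with hF
  have hLL : LL (z1 mu) (fun ζ => koe ζ * A.eval ζ) z = ∑' n, F n := by
    unfold LL
    refine tsum_congr fun n => ?_
    rw [hKcT A (n + 1)]
  have hz1 : ‖z‖ < 1 := by simpa using hz
  obtain ⟨D, hD0, hD⟩ := geo_bdd (norm_nonneg z) hz1
  set S : ℝ := ∑' m, ‖A.coeff m‖ with hS
  have hS0 : 0 ≤ S := tsum_nonneg fun _ => norm_nonneg _
  have hFs : Summable F := by
    refine Summable.of_norm_bounded (g := fun n : ℕ =>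
      (((n : ℝ) + 1) * ‖z1 mu (n + 1)‖) * (S * D)) (h.sm.mul_right _) fun n => ?_
    have h1 := kc_le A (n + 1)
    rw [← hS] at h1
    have h2 := hD n
    have e : ‖((n : ℂ) + 1)‖ = (n : ℝ) + 1 := by
      rw [← Nat.cast_add_one, Complex.norm_natCast]
      push_cast
      rfl
    rw [hF]
    simp only [norm_mul, norm_pow, e]
    have h3 : ‖kc A (n + 1)‖ * ‖z‖ ^ n ≤ S * D := by
      calc ‖kc A (n + 1)‖ * ‖z‖ ^ n ≤ ((n + 1 : ℕ) : ℝ) * S * ‖z‖ ^ n := by gcongr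
        _ = S * (((n : ℝ) + 1) * ‖z‖ ^ n) := by push_cast; ring
        _ ≤ S * D := by gcongr
    calc ((n : ℝ) + 1) * ‖z1 mu (n + 1)‖ * ‖kc A (n + 1)‖ * ‖z‖ ^ n
        = (((n : ℝ) + 1) * ‖z1 mu (n + 1)‖) * (‖kc A (n + 1)‖ * ‖z‖ ^ n) := by ring
      _ ≤ (((n : ℝ) + 1) * ‖z1 mu (n + 1)‖) * (S * D) := by gcongr
  have hF0 : F 0 = 0 := by
    simp [hF, z1]
  have hF1 : (fun n => F (n + 1))
      = fun n : ℕ => ((n : ℂ) + 2) * mu (n + 2) * kc A (n + 2) * z ^ (n + 1) := by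
    funext n
    have e1 : z1 mu (n + 1 + 1) = mu (n + 2) := by
      unfold z1
      rw [if_neg (by omega)]
    simp only [hF]
    rw [e1]
    push_cast
    ring
  have hFs' : Summable fun n => F (n + 1) := (summable_nat_add_iff 1).2 hFs
  have hts : ∑' n, F n = ∑' n, F (n + 1) := by
    rw [hFs.tsum_eq_zero_add, hF0, zero_add]
  rw [hF1] at hFs' hts
  refine ⟨hFs', ?_⟩
  rw [← hts, ← hLL]
  exact hb

end Pool.Agent.MultS.LB

end

section

/-!
# The two norms are equivalent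
-/

set_option autoImplicit false

open Complex Metric Set Filter Topology MeasureTheory
open Pool.Agent.MultS.Lip

namespace Pool.Agent.MultS.LB

namespace EquX

lemma cn_nonneg {mu : ℕ → ℂ} {Y : ℝ} (h : CN mu Y) : 0 ≤ Y := by
  have hA : Adm 0 := by
    refine ⟨fun z _ => ?_, ?_⟩
    · simp
    · simp
  have h0 : (0 : ℂ) ∈ ball (0 : ℂ) 1 := mem_ball_self one_pos
  exact (norm_nonneg _).trans (h 0 hA 0 h0).2

lemma cn_mono {mu : ℕ → ℂ} {Y Y' : ℝ} (h : CN mu Y) (hY : Y ≤ Y') : CN mu Y' :=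
  fun A hA z hz => ⟨(h A hA z hz).1, (h A hA z hz).2.trans hY⟩

lemma px_mono {lam : ℕ → ℂ} {X X' : ℝ} (h : PX lam X) (hX : X ≤ X') : PX lam X' :=
  ⟨h.sm, fun f hf z hz => (h.bx f hf z hz).trans hX⟩

end EquX

open EquX in
theorem prfEqu (hLB : LBMain) (hUB : UBMain) (hXN : XNPX) (hCC : CXCN) (hCX : CNCX) : Equ := by
  obtain ⟨C₁, h₁, hL⟩ := hLB
  obtain ⟨C₂, h₂, hU⟩ := hUB
  refine ⟨max 1 (max C₁ C₂), le_max_left _ _, ?_, ?_⟩
  · intro mu X h
    have h3 : CN mu (C₁ * X) := hCC mu _ (hL _ X ((hXN mu X).1 h))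
    have h4 : 0 ≤ X := by
      have := cn_nonneg h3
      exact nonneg_of_mul_nonneg_right this h₁
    exact cn_mono h3 (mul_le_mul_of_nonneg_right
      ((le_max_left _ _).trans (le_max_right _ _)) h4)
  · intro mu Y h
    have h4 : 0 ≤ Y := cn_nonneg h
    have h3 : PX (z1 mu) (C₂ * Y) := hU _ Y (hCX mu Y h)
    exact (hXN mu _).2 (px_mono h3 (mul_le_mul_of_nonneg_right
      ((le_max_right _ _).trans (le_max_right _ _)) h4))

end Pool.Agent.MultS.LB

end

section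

/-!
# [A13] The function `fA`
-/

set_option autoImplicit false

open Complex Metric Set Filter Topology MeasureTheory
open Pool.Agent.MultS.Lip
open scoped FourierTransform ENNReal

namespace Pool.Agent.MultS.LB

namespace FAX

/-- the half width of the strip -/
lemma strip (σ : ℝ) (h0 : 0 < σ) (h1 : σ ≤ 1 / 2) :
    Real.pi / 2 < Real.pi / 2 + Real.arcsin σ ∧
    ∀ y : ℝ, |y| < Real.pi / 2 + Real.arcsin σ → -σ ≤ Real.cos y := by
  refine ⟨by linarith [Real.arcsin_pos.2 h0], fun y hy => ?_⟩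
  have h2 : Real.cos (Real.pi / 2 + Real.arcsin σ) = -σ := by
    rw [add_comm, Real.cos_add_pi_div_two, Real.sin_arcsin (by linarith) (by linarith)]
  have h3 : Real.pi / 2 + Real.arcsin σ ≤ Real.pi := by
    linarith [Real.arcsin_le_pi_div_two σ]
  rw [← Real.cos_abs, ← h2]
  exact Real.cos_le_cos_of_nonneg_of_le_pi (abs_nonneg y) h3 hy.le

lemma sq_add (E : ℂ) : ‖E + 1‖ ^ 2 = 1 + 2 * E.re + ‖E‖ ^ 2 := by
  rw [Complex.sq_norm, Complex.sq_norm, Complex.normSq_apply, Complex.normSq_apply]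
  simp only [Complex.add_re, Complex.one_re, Complex.add_im, Complex.one_im]
  ring

lemma sq_sub (E : ℂ) : ‖E - 1‖ ^ 2 = 1 - 2 * E.re + ‖E‖ ^ 2 := by
  rw [Complex.sq_norm, Complex.sq_norm, Complex.normSq_apply, Complex.normSq_apply]
  simp only [Complex.sub_re, Complex.one_re, Complex.sub_im, Complex.one_im]
  ring

lemma exp_re (w : ℂ) (σ : ℝ) (h : -σ ≤ Real.cos w.im) :
    -σ * ‖Complex.exp w‖ ≤ (Complex.exp w).re := by
  rw [Complex.norm_exp, Complex.exp_re]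
  have := Real.exp_pos w.re
  nlinarith

lemma add_low (E : ℂ) (σ : ℝ) (h0 : 0 ≤ σ) (h : -σ * ‖E‖ ≤ E.re) :
    (1 - σ) * (1 + ‖E‖ ^ 2) ≤ ‖E + 1‖ ^ 2 := by
  rw [sq_add]
  nlinarith [mul_nonneg h0 (sq_nonneg (‖E‖ - 1))]

lemma add_ne (E : ℂ) (σ : ℝ) (h0 : 0 ≤ σ) (h1 : σ < 1) (h : -σ * ‖E‖ ≤ E.re) : E + 1 ≠ 0 := by
  intro hE
  have h2 := add_low E σ h0 h
  rw [hE, norm_zero] at h2
  have h3 : 0 < (1 - σ) * (1 + ‖E‖ ^ 2) := by
    apply mul_pos (by linarith) (by positivity)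
  norm_num at h2
  linarith

lemma phi_sq (E : ℂ) (σ : ℝ) (h0 : 0 ≤ σ) (h1 : σ ≤ 1 / 2) (h : -σ * ‖E‖ ≤ E.re) :
    ‖phi E‖ ^ 2 ≤ 1 + 4 * σ := by
  have h2 := add_low E σ h0 h
  have h3 : 0 < (1 - σ) * (1 + ‖E‖ ^ 2) := by
    apply mul_pos (by linarith) (by positivity)
  unfold phi
  rw [norm_div, div_pow, div_le_iff₀ (lt_of_lt_of_le h3 h2)]
  have e : ‖E - 1‖ ^ 2 = ‖E + 1‖ ^ 2 - 4 * E.re := by rw [sq_add, sq_sub]; ring
  rw [e]
  -- need -4 re ≤ 4σ ‖E+1‖^2
  have h4 : (1 / 2) * (1 + ‖E‖ ^ 2) ≤ ‖E + 1‖ ^ 2 := by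
    refine le_trans ?_ h2
    apply mul_le_mul_of_nonneg_right (by linarith) (by positivity)
  have h5 : ‖E‖ ≤ ‖E + 1‖ ^ 2 := by nlinarith [sq_nonneg (‖E‖ - 1)]
  nlinarith [mul_le_mul_of_nonneg_left h5 h0]

lemma decay (x : ℝ) : Real.exp x / (1 + Real.exp x ^ 2) ≤ Real.exp (-|x|) := by
  have h0 := Real.exp_pos x
  rw [div_le_iff₀ (by positivity)]
  rcases le_total 0 x with h | h
  · rw [abs_of_nonneg h, Real.exp_neg]
    have : (Real.exp x)⁻¹ * (1 + Real.exp x ^ 2) = (Real.exp x)⁻¹ + Real.exp x := by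
      field_simp
    rw [this]
    have := inv_pos.2 h0
    linarith
  · rw [abs_of_nonpos h, neg_neg]
    nlinarith [sq_nonneg (Real.exp x), mul_pos h0 (pow_pos h0 2)]

lemma cos_nn {y : ℝ} (h : |y| ≤ Real.pi / 2) : -0 ≤ Real.cos y := by
  rw [neg_zero]
  exact Real.cos_nonneg_of_mem_Icc ⟨by linarith [neg_abs_le y], by linarith [le_abs_self y]⟩

section
variable {A : ℂ → ℂ} {ρ : ℝ}

lemma derA (h : RealA A ρ) : DifferentiableOn ℂ (deriv A) (ball 0 ρ) := h.dif.deriv isOpen_ball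

lemma sub_ball (h : RealA A ρ) : closedBall (0 : ℂ) 1 ⊆ ball 0 ρ :=
  closedBall_subset_ball h.rho

lemma bdA (h : RealA A ρ) : ∃ M : ℝ, 0 ≤ M ∧ ∀ z : ℂ, ‖z‖ ≤ 1 → ‖deriv A z‖ ≤ M := by
  obtain ⟨M, hM⟩ := (isCompact_closedBall (0 : ℂ) 1).exists_bound_of_continuousOn
    ((derA h).continuousOn.mono (sub_ball h))
  refine ⟨max M 0, le_max_right _ _, fun z hz => ?_⟩
  exact (hM z (mem_closedBall_zero_iff.2 hz)).trans (le_max_left _ _)

lemma phi_le (w : ℂ) (h : |w.im| ≤ Real.pi / 2) : ‖phi (Complex.exp w)‖ ≤ 1 := by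
  have h1 := phi_sq (Complex.exp w) 0 le_rfl (by norm_num) (exp_re w 0 (cos_nn h))
  have h2 : ‖phi (Complex.exp w)‖ ^ 2 ≤ 1 ^ 2 := by linarith
  exact (sq_le_sq₀ (norm_nonneg _) zero_le_one).1 h2

lemma bdF (h : RealA A ρ) : ∃ c : ℝ, ∀ w : ℂ, |w.im| ≤ Real.pi / 2 →
    ‖fA A w‖ ≤ c * Real.exp (-|w.re|) := by
  obtain ⟨M, hM0, hM⟩ := bdA h
  refine ⟨M * 2, fun w hw => ?_⟩
  have h1 := hM _ (phi_le w hw)
  have h2 := add_low (Complex.exp w) 0 le_rfl (exp_re w 0 (cos_nn hw))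
  unfold fA
  rw [norm_mul, mul_assoc]
  refine mul_le_mul h1 ?_ (norm_nonneg _) hM0
  rw [norm_div, norm_mul, norm_pow, Complex.norm_ofNat, mul_div_assoc]
  refine mul_le_mul_of_nonneg_left ?_ (by norm_num)
  refine le_trans ?_ (decay w.re)
  rw [Complex.norm_exp] at *
  have h3 := Real.exp_pos w.re
  gcongr
  linarith

lemma der_phi {E : ℂ} (h : E + 1 ≠ 0) : HasDerivAt phi (2 / (E + 1) ^ 2) E := by
  have h1 : HasDerivAt (fun z : ℂ => z - 1) 1 E := (hasDerivAt_id' E).sub_const 1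
  have h2 : HasDerivAt (fun z : ℂ => z + 1) 1 E := (hasDerivAt_id' E).add_const 1
  have h3 := h1.fun_div h2 h
  convert! h3 using 1
  congr 1
  ring

lemma diffF (h : RealA A ρ) {w : ℂ} {σ : ℝ} (h0 : 0 < σ) (h1 : σ ≤ 1 / 2)
    (h2 : 1 + 4 * σ < ρ ^ 2) (hw : -σ ≤ Real.cos w.im) : DifferentiableAt ℂ (fA A) w := by
  have e := exp_re w σ hw
  have hne := add_ne (Complex.exp w) σ h0.le (by linarith) e
  have hp := phi_sq (Complex.exp w) σ h0.le h1 e
  have hlt : ‖phi (Complex.exp w)‖ < ρ := by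
    have hρ := h.rho
    exact (sq_lt_sq₀ (norm_nonneg _) (by linarith)).1 (by linarith)
  have hd : DifferentiableAt ℂ (deriv A) (phi (Complex.exp w)) :=
    (derA h).differentiableAt (isOpen_ball.mem_nhds (mem_ball_zero_iff.2 hlt))
  have hφ : DifferentiableAt ℂ phi (Complex.exp w) := (der_phi hne).differentiableAt
  have hc : DifferentiableAt ℂ (fun w => deriv A (phi (Complex.exp w))) w := by
    have h3 : DifferentiableAt ℂ (fun w => phi (Complex.exp w)) w :=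
      DifferentiableAt.comp w hφ Complex.differentiableAt_exp
    exact DifferentiableAt.comp w (f := fun w => phi (Complex.exp w)) hd h3
  refine hc.mul ?_
  refine DifferentiableAt.div ?_ ?_ (pow_ne_zero 2 hne)
  · exact Complex.differentiableAt_exp.const_mul 2
  · exact (Complex.differentiableAt_exp.add_const 1).pow 2

lemma conjA (h : RealA A ρ) {z : ℂ} (hz : ‖z‖ ≤ 1) :
    deriv A ((starRingEnd ℂ) z) = (starRingEnd ℂ) (deriv A z) := by
  have hm : ∀ᶠ u in 𝓝 ((starRingEnd ℂ) z), A u = (starRingEnd ℂ) (A ((starRingEnd ℂ) u)) := by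
    have hb : (starRingEnd ℂ) z ∈ ball (0 : ℂ) ρ := by
      rw [mem_ball_zero_iff, Complex.norm_conj]
      exact lt_of_le_of_lt hz h.rho
    filter_upwards [isOpen_ball.mem_nhds hb] with u hu
    rw [h.sym u hu, Complex.conj_conj]
  rw [Filter.EventuallyEq.deriv_eq hm]
  have := congrFun (deriv_conj_conj (f := A)) ((starRingEnd ℂ) z)
  simp only [Function.comp_def, Complex.conj_conj] at this
  exact this

lemma conjF (h : RealA A ρ) {w : ℂ} (hw : |w.im| ≤ Real.pi / 2) :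
    fA A ((starRingEnd ℂ) w) = (starRingEnd ℂ) (fA A w) := by
  have e1 : phi ((starRingEnd ℂ) (Complex.exp w)) = (starRingEnd ℂ) (phi (Complex.exp w)) := by
    unfold phi
    rw [map_div₀, map_sub, map_add, map_one]
  unfold fA
  rw [Complex.exp_conj, e1, conjA h (phi_le w hw)]
  simp only [map_mul, map_div₀, map_pow, map_add, map_one, map_ofNat]

end

lemma fubH (G : ℂ → ℝ≥0∞) (a : ℝ) (hG : AEMeasurable G (volume.restrict {w : ℂ | |w.im| < a})) :
    ∫⁻ U in {w : ℂ | |w.im| < a}, G U =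
      ∫⁻ φ in Ioo (-a) a, ∫⁻ u : ℝ, G ((u : ℂ) + (φ : ℂ) * I) := by
  have hE : MeasurableSet {w : ℂ | |w.im| < a} :=
    (isOpen_lt (by fun_prop) continuous_const).measurableSet
  have hG' : AEMeasurable ({w : ℂ | |w.im| < a}.indicator G) volume :=
    (aemeasurable_indicator_iff hE).2 hG
  have hs : MeasurePreserving Complex.measurableEquivRealProd.symm volume volume :=
    Complex.volume_preserving_equiv_real_prod.symm
  have hc : AEMeasurable (fun p : ℝ × ℝ => {w : ℂ | |w.im| < a}.indicator G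
      (Complex.measurableEquivRealProd.symm p)) (volume : Measure (ℝ × ℝ)) :=
    hG'.comp_quasiMeasurePreserving hs.quasiMeasurePreserving
  rw [← lintegral_indicator hE,
    ← hs.lintegral_comp_emb (Complex.measurableEquivRealProd.symm.measurableEmbedding)]
  rw [Measure.volume_eq_prod] at hc ⊢
  rw [lintegral_prod_symm _ hc, ← lintegral_indicator measurableSet_Ioo]
  refine lintegral_congr fun φ => ?_
  by_cases h : φ ∈ Ioo (-a) a
  · rw [indicator_of_mem h]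
    refine lintegral_congr fun u => ?_
    have e : Complex.measurableEquivRealProd.symm (u, φ) = (u : ℂ) + (φ : ℂ) * I := by
      apply Complex.ext <;> simp
    rw [e, indicator_of_mem]
    show |((u : ℂ) + (φ : ℂ) * I).im| < a
    simpa [abs_lt] using h
  · rw [indicator_of_notMem h]
    rw [lintegral_eq_zero_of_ae_eq_zero]
    refine Eventually.of_forall fun u => ?_
    have e : Complex.measurableEquivRealProd.symm (u, φ) = (u : ℂ) + (φ : ℂ) * I := by
      apply Complex.ext <;> simp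
    show {w : ℂ | |w.im| < a}.indicator G (Complex.measurableEquivRealProd.symm (u, φ)) = 0
    rw [e, indicator_of_notMem]
    intro h2
    apply h
    have h3 : |((u : ℂ) + (φ : ℂ) * I).im| < a := h2
    simpa [abs_lt] using h3

lemma exp_Hp {w : ℂ} (h : |w.im| < Real.pi / 2) : Complex.exp w ∈ Hp := by
  show 0 < (Complex.exp w).re
  rw [Complex.exp_re]
  refine mul_pos (Real.exp_pos _) (Real.cos_pos_of_mem_Ioo ⟨?_, ?_⟩)
  · linarith [neg_abs_le w.im]
  · linarith [le_abs_self w.im]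

lemma inj : InjOn (fun w => phi (Complex.exp w)) {w : ℂ | |w.im| < Real.pi / 2} := by
  intro w hw v hv h
  have hC := prfCay.2.1
  have h1 : Complex.exp w = Complex.exp v := by
    have e1 := (hC _ (exp_Hp hw)).2.1
    have e2 := (hC _ (exp_Hp hv)).2.1
    rw [← e1, ← e2]
    exact congrArg psi h
  have hw' : |w.im| < Real.pi / 2 := hw
  have hv' : |v.im| < Real.pi / 2 := hv
  rw [abs_lt] at hw' hv'
  have hp := Real.pi_pos
  exact Complex.exp_inj_of_neg_pi_lt_of_le_pi (by linarith) (by linarith) (by linarith)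
    (by linarith) h1

lemma der_comp {w : ℂ} (h : |w.im| < Real.pi / 2) :
    HasDerivAt (fun w => phi (Complex.exp w)) (2 * Complex.exp w / (Complex.exp w + 1) ^ 2) w := by
  have h1 := prfCay.2.2.2.2.2 _ (exp_Hp h)
  have h2 := HasDerivAt.comp w h1 (Complex.hasDerivAt_exp w)
  convert! h2 using 1
  ring

end FAX

open FAX in
theorem prfFA : FA := by
  intro A ρ h
  have hρ := h.rho
  set σ : ℝ := min (1 / 2) ((ρ ^ 2 - 1) / 8) with hσ
  have hs1 : σ ≤ 1 / 2 := min_le_left _ _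
  have hs2 : σ ≤ (ρ ^ 2 - 1) / 8 := min_le_right _ _
  have hs3 : 0 < σ := lt_min (by norm_num) (by nlinarith)
  have hs4 : 1 + 4 * σ < ρ ^ 2 := by nlinarith
  obtain ⟨hb, hcos⟩ := strip σ hs3 hs1
  have hdiff : ∀ w ∈ {w : ℂ | |w.im| < Real.pi / 2 + Real.arcsin σ}, DifferentiableAt ℂ (fA A) w :=
    fun w hw => diffF h hs3 hs1 hs4 (hcos _ hw)
  refine ⟨?_, fun w hw => conjF h hw, ?_⟩
  · obtain ⟨c, hc⟩ := bdF h
    exact ⟨Real.pi / 2 + Real.arcsin σ, c, hb, fun w hw => (hdiff w hw).differentiableWithinAt, hc⟩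
  · have hO : IsOpen {w : ℂ | |w.im| < Real.pi / 2} := isOpen_lt (by fun_prop) continuous_const
    have hcont : ContinuousOn (fA A) {w : ℂ | |w.im| < Real.pi / 2} := fun w hw =>
      (hdiff w (lt_trans hw hb)).continuousAt.continuousWithinAt
    have hm : AEMeasurable (fun w => ENNReal.ofReal (‖fA A w‖ ^ 2))
        (volume.restrict {w : ℂ | |w.im| < Real.pi / 2}) := by
      have h1 : ContinuousOn (fun w => ENNReal.ofReal (‖fA A w‖ ^ 2))
          {w : ℂ | |w.im| < Real.pi / 2} :=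
        ENNReal.continuous_ofReal.comp_continuousOn (hcont.norm.pow 2)
      exact h1.aemeasurable hO.measurableSet
    rw [← fubH _ _ hm]
    have hchg := UB.prfChg {w : ℂ | |w.im| < Real.pi / 2} (fun w => phi (Complex.exp w)) hO
      (fun w hw => (der_comp hw).differentiableAt.differentiableWithinAt) inj
      {w : ℂ | |w.im| < Real.pi / 2} Subset.rfl hO.measurableSet
      (fun z => ENNReal.ofReal (‖deriv A z‖ ^ 2))
    have e : ∫⁻ w in {w : ℂ | |w.im| < Real.pi / 2}, ENNReal.ofReal (‖fA A w‖ ^ 2) =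
        ∫⁻ z in {w : ℂ | |w.im| < Real.pi / 2},
          ENNReal.ofReal (‖deriv (fun w => phi (Complex.exp w)) z‖ ^ 2) *
            ENNReal.ofReal (‖deriv A (phi (Complex.exp z))‖ ^ 2) := by
      refine setLIntegral_congr_fun hO.measurableSet fun w hw => ?_
      show ENNReal.ofReal (‖fA A w‖ ^ 2) = _
      rw [(der_comp hw).deriv, ← ENNReal.ofReal_mul (by positivity), ← mul_pow, ← norm_mul,
        mul_comm]
      rfl
    rw [e, ← hchg]
    refine lintegral_mono_set ?_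
    rintro z ⟨w, hw, rfl⟩
    exact (prfCay.2.1 _ (exp_Hp hw)).1

end Pool.Agent.MultS.LB

end

section

/-!
# Coefficients of `koe * A` (item G3)
-/

set_option autoImplicit false

open Complex Metric Set Filter Topology MeasureTheory
open Pool.Agent.MultS.Lip

namespace Pool.Agent.MultS.LB

namespace KcTX

lemma kc_add (A B : Polynomial ℂ) (n : ℕ) : kc (A + B) n = kc A n + kc B n := by
  unfold kc
  rw [← Finset.sum_add_distrib]
  exact Finset.sum_congr rfl fun m _ => by rw [Polynomial.coeff_add, mul_add]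

lemma kc_mono (k : ℕ) (a : ℂ) (n : ℕ) :
    kc (Polynomial.monomial k a) n = if k < n then ((n : ℂ) - (k : ℂ)) * a else 0 := by
  unfold kc
  simp only [Polynomial.coeff_monomial, mul_ite, mul_zero, Finset.sum_ite_eq, Finset.mem_range]

lemma hs_mono (k : ℕ) (a : ℂ) {z : ℂ} (hz : z ∈ ball (0 : ℂ) 1) :
    HasSum (fun n => kc (Polynomial.monomial k a) n * z ^ n)
      (koe z * (Polynomial.monomial k a).eval z) := by
  have hz' : ‖z‖ < 1 := by simpa using hz
  have h1 := (hasSum_coe_mul_geometric_of_norm_lt_one hz').mul_right (a * z ^ k)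
  rw [← hasSum_nat_add_iff' k]
  have e0 : ∑ i ∈ Finset.range k, kc (Polynomial.monomial k a) i * z ^ i = 0 := by
    apply Finset.sum_eq_zero
    intro i hi
    rw [Finset.mem_range] at hi
    rw [kc_mono, if_neg (by omega), zero_mul]
  rw [e0, sub_zero, Polynomial.eval_monomial]
  have e1 : (fun n : ℕ => kc (Polynomial.monomial k a) (n + k) * z ^ (n + k)) =
      fun n : ℕ => (n : ℂ) * z ^ n * (a * z ^ k) := by
    funext n
    rw [kc_mono]
    rcases Nat.eq_zero_or_pos n with h | h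
    · subst h
      simp
    · rw [if_pos (by omega), pow_add]
      push_cast
      ring
  rw [e1]
  exact h1

lemma hs_poly (A : Polynomial ℂ) {z : ℂ} (hz : z ∈ ball (0 : ℂ) 1) :
    HasSum (fun n => kc A n * z ^ n) (koe z * A.eval z) := by
  induction A using Polynomial.induction_on' with
  | add p q hp hq =>
    have := hp.add hq
    rw [Polynomial.eval_add, mul_add]
    refine this.congr_fun ?_
    intro n
    rw [kc_add, add_mul]
  | monomial k a => exact hs_mono k a hz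

end KcTX

theorem prfKcT : KcT := by
  intro A n
  exact tc_of_hasSum (fun z hz => KcTX.hs_poly A hz) n

end Pool.Agent.MultS.LB

end

section

/-! Item LBMain (helper25): the main result of the block. -/

set_option autoImplicit false

open Complex Metric Set Filter Topology MeasureTheory
open Pool.Agent.MultS.Lip

namespace Pool.Agent.MultS.LB

namespace LBMainX

/-- `conj ∘ f ∘ conj` -/
noncomputable def cj (f : ℂ → ℂ) : ℂ → ℂ := (starRingEnd ℂ) ∘ f ∘ (starRingEnd ℂ)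

theorem cj_apply (f : ℂ → ℂ) (z : ℂ) : cj f z = (starRingEnd ℂ) (f ((starRingEnd ℂ) z)) := rfl

theorem dir_cj (f : ℂ → ℂ) : ∫⁻ z in ball (0 : ℂ) 1, ENNReal.ofReal (‖deriv (cj f) z‖ ^ 2)
    = ∫⁻ z in ball (0 : ℂ) 1, ENNReal.ofReal (‖deriv f z‖ ^ 2) := by
  have h1 : deriv (cj f) = (starRingEnd ℂ) ∘ deriv f ∘ (starRingEnd ℂ) := deriv_conj_conj
  have hmp : MeasurePreserving (Complex.conjLIE) (volume : Measure ℂ) volume :=
    Complex.conjLIE.measurePreserving
  have h2 := hmp.setLIntegral_comp_preimage_emb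
    Complex.conjLIE.toHomeomorph.measurableEmbedding
    (fun z => ENNReal.ofReal (‖deriv f z‖ ^ 2)) (ball 0 1)
  have h3 : (Complex.conjLIE : ℂ → ℂ) ⁻¹' (ball 0 1) = ball 0 1 := by
    ext z
    simp
  rw [h3] at h2
  rw [← h2]
  refine lintegral_congr (fun z => ?_)
  rw [h1]
  simp

theorem dir_scale (A : ℂ → ℂ) {r : ℝ} (hr0 : 0 < r) (hr1 : r < 1) :
    ∫⁻ z in ball (0 : ℂ) 1, ENNReal.ofReal (‖deriv (fun z => A ((r : ℂ) * z)) z‖ ^ 2)
      ≤ ∫⁻ z in ball (0 : ℂ) 1, ENNReal.ofReal (‖deriv A z‖ ^ 2) := by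
  have hne : (r : ℂ) ≠ 0 := by exact_mod_cast hr0.ne'
  have h := UB.prfChg univ (fun z => (r : ℂ) * z) isOpen_univ
    ((differentiable_id.const_mul _).differentiableOn)
    (fun a _ b _ hab => mul_left_cancel₀ hne hab) (ball 0 1) (subset_univ _) measurableSet_ball
    (fun w => ENNReal.ofReal (‖deriv A w‖ ^ 2))
  have hd : ∀ z : ℂ, deriv (fun z : ℂ => (r : ℂ) * z) z = r := by
    intro z; simp
  have hA : ∀ z : ℂ, deriv (fun z => A ((r : ℂ) * z)) z = r * deriv A (r * z) := by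
    intro z
    rw [deriv_comp_mul_left]
    simp
  calc ∫⁻ z in ball (0 : ℂ) 1, ENNReal.ofReal (‖deriv (fun z => A ((r : ℂ) * z)) z‖ ^ 2)
      = ∫⁻ z in ball (0 : ℂ) 1, ENNReal.ofReal (‖deriv (fun z : ℂ => (r : ℂ) * z) z‖ ^ 2)
          * ENNReal.ofReal (‖deriv A (r * z)‖ ^ 2) := by
        refine lintegral_congr (fun z => ?_)
        rw [hA, hd, norm_mul, mul_pow, ENNReal.ofReal_mul (by positivity)]
    _ = ∫⁻ w in (fun z => (r : ℂ) * z) '' (ball 0 1), ENNReal.ofReal (‖deriv A w‖ ^ 2) := h.symm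
    _ ≤ ∫⁻ z in ball (0 : ℂ) 1, ENNReal.ofReal (‖deriv A z‖ ^ 2) := by
        refine lintegral_mono_set ?_
        rintro _ ⟨z, hz, rfl⟩
        simp only [mem_ball, dist_zero_right] at hz ⊢
        rw [norm_mul, Complex.norm_real, Real.norm_of_nonneg hr0.le]
        nlinarith [norm_nonneg z]

theorem dir_avg {F f g : ℂ → ℂ} {c : ENNReal}
    (hF : ∀ z ∈ ball (0 : ℂ) 1, ‖deriv F z‖ ≤ (‖deriv f z‖ + ‖deriv g z‖) / 2)
    (hf : ∫⁻ z in ball (0 : ℂ) 1, ENNReal.ofReal (‖deriv f z‖ ^ 2) ≤ c)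
    (hg : ∫⁻ z in ball (0 : ℂ) 1, ENNReal.ofReal (‖deriv g z‖ ^ 2) ≤ c) :
    ∫⁻ z in ball (0 : ℂ) 1, ENNReal.ofReal (‖deriv F z‖ ^ 2) ≤ c := by
  have hmf : Measurable (fun z => ENNReal.ofReal (‖deriv f z‖ ^ 2)) :=
    ((measurable_deriv f).norm.pow_const 2).ennreal_ofReal
  have hmg : Measurable (fun z => ENNReal.ofReal (‖deriv g z‖ ^ 2)) :=
    ((measurable_deriv g).norm.pow_const 2).ennreal_ofReal
  calc ∫⁻ z in ball (0 : ℂ) 1, ENNReal.ofReal (‖deriv F z‖ ^ 2)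
      ≤ ∫⁻ z in ball (0 : ℂ) 1, 2⁻¹ * (ENNReal.ofReal (‖deriv f z‖ ^ 2)
          + ENNReal.ofReal (‖deriv g z‖ ^ 2)) := by
        refine setLIntegral_mono' measurableSet_ball (fun z hz => ?_)
        rw [← ENNReal.ofReal_add (by positivity) (by positivity)]
        have h2 : (2 : ENNReal)⁻¹ = ENNReal.ofReal (1 / 2) := by
          rw [one_div, ENNReal.ofReal_inv_of_pos (by norm_num)]
          norm_num
        rw [h2, ← ENNReal.ofReal_mul (by norm_num)]
        apply ENNReal.ofReal_le_ofReal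
        have h3 : ‖deriv F z‖ ^ 2 ≤ ((‖deriv f z‖ + ‖deriv g z‖) / 2) ^ 2 :=
          pow_le_pow_left₀ (norm_nonneg _) (hF z hz) 2
        nlinarith [sq_nonneg (‖deriv f z‖ - ‖deriv g z‖)]
    _ = 2⁻¹ * ((∫⁻ z in ball (0 : ℂ) 1, ENNReal.ofReal (‖deriv f z‖ ^ 2))
          + ∫⁻ z in ball (0 : ℂ) 1, ENNReal.ofReal (‖deriv g z‖ ^ 2)) := by
        rw [lintegral_const_mul' _ _ (by norm_num), lintegral_add_left hmf]
    _ ≤ 2⁻¹ * (c + c) := by gcongr
    _ = c := by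
        rw [← two_mul, ← mul_assoc, ENNReal.inv_mul_cancel (by norm_num) (by norm_num), one_mul]

theorem koe_diff : DifferentiableOn ℂ koe (ball 0 1) := by
  unfold koe
  refine DifferentiableOn.div differentiableOn_id ?_ ?_
  · exact ((differentiableOn_const _).sub differentiableOn_id).pow 2
  · intro z hz h
    have h1 : (1 : ℂ) - z = 0 := by simpa using h
    have h2 : z = 1 := (sub_eq_zero.1 h1).symm
    rw [h2] at hz
    simp at hz

/-- the bound for the dilations -/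
theorem dil (hK : Ker) (hL : LinP) {C : ℝ}
    (hC : ∀ (lam : ℕ → ℂ) (X : ℝ), PX lam X → 0 < X → ∀ z ∈ ball (0 : ℂ) 1,
      ∀ (A : ℂ → ℂ) (ρ : ℝ), RealA A ρ →
      ∫⁻ z in ball (0 : ℂ) 1, ENNReal.ofReal (‖deriv A z‖ ^ 2) ≤ ENNReal.ofReal Real.pi →
      ‖LL lam (fun ζ => koe ζ * A ζ) z‖ ≤ C * X)
    {lam : ℕ → ℂ} {X : ℝ} (hP : PX lam X) (hX : 0 < X) {A : ℂ → ℂ}
    (hA : DifferentiableOn ℂ A (ball 0 1)) (hA1 : ∀ z ∈ ball (0 : ℂ) 1, ‖A z‖ ≤ 1)
    (hA2 : ∫⁻ z in ball (0 : ℂ) 1, ENNReal.ofReal (‖deriv A z‖ ^ 2) ≤ ENNReal.ofReal Real.pi)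
    {z : ℂ} (hz : z ∈ ball (0 : ℂ) 1) {r : ℝ} (hr0 : 0 < r) (hr1 : r < 1) :
    ‖LL lam (fun ζ => koe ζ * A ((r : ℂ) * ζ)) z‖ ≤ 2 * C * X := by
  set f : ℂ → ℂ := fun ζ => A ((r : ℂ) * ζ) with hf
  have hmaps : ∀ ζ ∈ ball (0 : ℂ) r⁻¹, (r : ℂ) * ζ ∈ ball (0 : ℂ) 1 := by
    intro ζ hζ
    simp only [mem_ball, dist_zero_right] at hζ ⊢
    rw [norm_mul, Complex.norm_real, Real.norm_of_nonneg hr0.le]
    calc r * ‖ζ‖ < r * r⁻¹ := mul_lt_mul_of_pos_left hζ hr0
      _ = 1 := mul_inv_cancel₀ hr0.ne'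
  have hrinv : 1 < r⁻¹ := (one_lt_inv₀ hr0).2 hr1
  have hfd : DifferentiableOn ℂ f (ball 0 r⁻¹) := by
    refine hA.comp ((differentiable_id.const_mul _).differentiableOn) hmaps
  have hconjball : ∀ ζ ∈ ball (0 : ℂ) r⁻¹, (starRingEnd ℂ) ζ ∈ ball (0 : ℂ) r⁻¹ := by
    intro ζ hζ
    simpa using hζ
  have hcd : DifferentiableOn ℂ (cj f) (ball 0 r⁻¹) := by
    intro ζ hζ
    have h1 : DifferentiableAt ℂ f ((starRingEnd ℂ) ζ) :=
      (hfd _ (hconjball ζ hζ)).differentiableAt (isOpen_ball.mem_nhds (hconjball ζ hζ))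
    have h2 := h1.conj_conj
    rw [Complex.conj_conj] at h2
    exact h2.differentiableWithinAt
  have hsub : ball (0 : ℂ) 1 ⊆ ball 0 r⁻¹ := ball_subset_ball hrinv.le
  set A1 : ℂ → ℂ := fun ζ => (f ζ + cj f ζ) / 2 with hA1d
  set A2 : ℂ → ℂ := fun ζ => (f ζ - cj f ζ) / (2 * I) with hA2d
  have hfb : ∀ ζ : ℂ, ‖ζ‖ ≤ 1 → ‖f ζ‖ ≤ 1 := by
    intro ζ hζ
    apply hA1
    apply hmaps
    simp only [mem_ball, dist_zero_right]
    linarith
  have hcb : ∀ ζ : ℂ, ‖ζ‖ ≤ 1 → ‖cj f ζ‖ ≤ 1 := by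
    intro ζ hζ
    rw [cj_apply, Complex.norm_conj]
    exact hfb _ (by rwa [Complex.norm_conj])
  have hn2 : ‖(2 : ℂ)‖ = 2 := by simp
  have hn2I : ‖(2 * I : ℂ)‖ = 2 := by simp
  have hR1 : RealA A1 r⁻¹ := by
    refine ⟨hrinv, (hfd.add hcd).div_const _, ?_, ?_⟩
    · intro ζ _
      simp only [hA1d, cj_apply, map_div₀, map_add, Complex.conj_conj]
      rw [show (starRingEnd ℂ) (2 : ℂ) = 2 from map_ofNat _ 2]
      ring
    · intro ζ hζ
      simp only [hA1d]
      rw [norm_div, hn2, div_le_iff₀ (by norm_num)]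
      refine (norm_add_le _ _).trans ?_
      linarith [hfb ζ hζ, hcb ζ hζ]
  have hR2 : RealA A2 r⁻¹ := by
    refine ⟨hrinv, (hfd.sub hcd).div_const _, ?_, ?_⟩
    · intro ζ _
      simp only [hA2d, cj_apply, map_div₀, map_sub, map_mul, Complex.conj_conj, Complex.conj_I]
      rw [show (starRingEnd ℂ) (2 : ℂ) = 2 from map_ofNat _ 2]
      have hI : I ≠ 0 := I_ne_zero
      field_simp
      ring
    · intro ζ hζ
      simp only [hA2d]
      rw [norm_div, hn2I, div_le_iff₀ (by norm_num)]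
      refine (norm_sub_le _ _).trans ?_
      linarith [hfb ζ hζ, hcb ζ hζ]
  have hdf : ∫⁻ z in ball (0 : ℂ) 1, ENNReal.ofReal (‖deriv f z‖ ^ 2) ≤ ENNReal.ofReal Real.pi :=
    (dir_scale A hr0 hr1).trans hA2
  have hdc : ∫⁻ z in ball (0 : ℂ) 1, ENNReal.ofReal (‖deriv (cj f) z‖ ^ 2) ≤ ENNReal.ofReal Real.pi := by
    rw [dir_cj]; exact hdf
  have hfat : ∀ ζ ∈ ball (0 : ℂ) 1, DifferentiableAt ℂ f ζ := fun ζ hζ =>
    (hfd _ (hsub hζ)).differentiableAt (isOpen_ball.mem_nhds (hsub hζ))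
  have hcat : ∀ ζ ∈ ball (0 : ℂ) 1, DifferentiableAt ℂ (cj f) ζ := fun ζ hζ =>
    (hcd _ (hsub hζ)).differentiableAt (isOpen_ball.mem_nhds (hsub hζ))
  have hD1 : ∫⁻ z in ball (0 : ℂ) 1, ENNReal.ofReal (‖deriv A1 z‖ ^ 2) ≤ ENNReal.ofReal Real.pi := by
    refine dir_avg (fun ζ hζ => ?_) hdf hdc
    have : deriv A1 ζ = (deriv f ζ + deriv (cj f) ζ) / 2 :=
      (((hfat ζ hζ).hasDerivAt.add (hcat ζ hζ).hasDerivAt).div_const 2).deriv
    rw [this, norm_div, hn2]
    gcongr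
    exact norm_add_le _ _
  have hD2 : ∫⁻ z in ball (0 : ℂ) 1, ENNReal.ofReal (‖deriv A2 z‖ ^ 2) ≤ ENNReal.ofReal Real.pi := by
    refine dir_avg (fun ζ hζ => ?_) hdf hdc
    have : deriv A2 ζ = (deriv f ζ - deriv (cj f) ζ) / (2 * I) :=
      (((hfat ζ hζ).hasDerivAt.sub (hcat ζ hζ).hasDerivAt).div_const (2 * I)).deriv
    rw [this, norm_div, hn2I]
    gcongr
    exact norm_sub_le _ _
  have hb1 := hC lam X hP hX z hz A1 _ hR1 hD1
  have hb2 := hC lam X hP hX z hz A2 _ hR2 hD2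
  have hd1 : DifferentiableOn ℂ (fun ζ => koe ζ * A1 ζ) (ball 0 1) :=
    koe_diff.mul (hR1.dif.mono hsub)
  have hd2 : DifferentiableOn ℂ (fun ζ => koe ζ * A2 ζ) (ball 0 1) :=
    koe_diff.mul (hR2.dif.mono hsub)
  obtain ⟨hl1, hl2⟩ := hL lam hP.sm z hz
  have he1 := hl1 _ _ 1 I 0 hd1 hd2
  have he2 := hl2 (fun ζ => koe ζ * f ζ) (fun ζ => 1 * (koe ζ * A1 ζ) + I * (koe ζ * A2 ζ) + 0)
    (koe_diff.mul (hfd.mono hsub)) (by
      intro ζ _
      simp only [hA1d, hA2d]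
      have hI : I ≠ 0 := I_ne_zero
      field_simp
      ring)
  rw [he2, he1, one_mul]
  refine (norm_add_le _ _).trans ?_
  rw [norm_mul, Complex.norm_I, one_mul]
  linarith

end LBMainX

open LBMainX in
theorem prfLBMain (hR : LBR) (hK : Ker) (hL : LinP) (hU : UnivB) : LBMain := by
  obtain ⟨C, hC0, hC⟩ := hR
  refine ⟨2 * C, by positivity, fun lam X hP => ⟨hP.sm, ?_⟩⟩
  intro A hA hA1 hA2 z hz
  have hX0 : 0 ≤ X := (hU lam X hP z hz).1
  -- dilations, arbitrary `X' > X`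
  have hdil : ∀ r : ℝ, 0 < r → r < 1 → ‖LL lam (fun ζ => koe ζ * A ((r : ℂ) * ζ)) z‖ ≤ 2 * C * X := by
    intro r hr0 hr1
    refine le_of_forall_pos_le_add (fun δ hδ => ?_)
    have hδ' : 0 < δ / (2 * C) := by positivity
    have hP' : PX lam (X + δ / (2 * C)) := ⟨hP.sm, fun f hf ζ hζ => (hP.bx f hf ζ hζ).trans (by linarith)⟩
    have := dil hK hL hC hP' (by linarith) hA hA1 hA2 hz hr0 hr1
    calc ‖LL lam (fun ζ => koe ζ * A ((r : ℂ) * ζ)) z‖ ≤ 2 * C * (X + δ / (2 * C)) := this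
      _ = 2 * C * X + δ := by field_simp
  obtain ⟨ρ, k, hρ0, hρ1, hk, hKer⟩ := hK lam hP.sm z hz
  have hcirc : ∀ θ : ℝ, circleMap 0 ρ θ ∈ ball (0 : ℂ) 1 := by
    intro θ
    simp only [mem_ball, dist_zero_right, norm_circleMap_zero, abs_of_pos hρ0]
    exact hρ1
  have hcd : Continuous (fun θ : ℝ => koe (circleMap 0 ρ θ)) :=
    koe_diff.continuousOn.comp_continuous (continuous_circleMap 0 ρ) hcirc
  -- the sequence of radii
  set rr : ℕ → ℝ := fun n => 1 - 1 / ((n : ℝ) + 2) with hrr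
  have hrr0 : ∀ n, 0 < rr n := by
    intro n
    have : 1 / ((n : ℝ) + 2) < 1 := by
      rw [div_lt_one (by positivity)]
      have : (0 : ℝ) ≤ n := Nat.cast_nonneg n
      linarith
    simp only [hrr]; linarith
  have hrr1 : ∀ n, rr n < 1 := by
    intro n
    have : 0 < 1 / ((n : ℝ) + 2) := by positivity
    simp only [hrr]; linarith
  have hrrt : Tendsto rr atTop (𝓝 1) := by
    have h1 : Tendsto (fun n : ℕ => 1 / ((n : ℝ) + 2)) atTop (𝓝 0) := by
      have h2 := tendsto_one_div_add_atTop_nhds_zero_nat (𝕜 := ℝ)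
      have h3 := h2.comp (tendsto_add_atTop_nat 1)
      refine h3.congr (fun n => ?_)
      simp only [Function.comp]
      push_cast
      ring_nf
    have h4 := h1.const_sub 1
    rw [sub_zero] at h4
    exact h4
  have hsc : ∀ n, ∀ ζ ∈ ball (0 : ℂ) 1, ((rr n : ℝ) : ℂ) * ζ ∈ ball (0 : ℂ) 1 := by
    intro n ζ hζ
    simp only [mem_ball, dist_zero_right] at hζ ⊢
    rw [norm_mul, Complex.norm_real, Real.norm_of_nonneg (hrr0 n).le]
    nlinarith [norm_nonneg ζ, hrr0 n, hrr1 n]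
  have hdn : ∀ n, DifferentiableOn ℂ (fun ζ => koe ζ * A (((rr n : ℝ) : ℂ) * ζ)) (ball 0 1) := by
    intro n
    exact koe_diff.mul (hA.comp ((differentiable_id.const_mul _).differentiableOn) (hsc n))
  have hd : DifferentiableOn ℂ (fun ζ => koe ζ * A ζ) (ball 0 1) := koe_diff.mul hA
  have hlim : Tendsto (fun n => LL lam (fun ζ => koe ζ * A (((rr n : ℝ) : ℂ) * ζ)) z) atTop
      (𝓝 (LL lam (fun ζ => koe ζ * A ζ) z)) := by
    rw [hKer _ hd]
    have : (fun n => LL lam (fun ζ => koe ζ * A (((rr n : ℝ) : ℂ) * ζ)) z)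
        = fun n => ∫ θ in (0 : ℝ)..(2 * Real.pi), k θ * (koe (circleMap 0 ρ θ)
            * A (((rr n : ℝ) : ℂ) * circleMap 0 ρ θ)) := by
      funext n
      exact hKer _ (hdn n)
    rw [this]
    refine intervalIntegral.tendsto_integral_filter_of_dominated_convergence
      (fun θ => ‖k θ * koe (circleMap 0 ρ θ)‖) ?_ ?_ ?_ ?_
    · refine Eventually.of_forall (fun n => ?_)
      refine Continuous.aestronglyMeasurable ?_
      refine hk.mul (hcd.mul ?_)
      refine hA.continuousOn.comp_continuous (continuous_const.mul (continuous_circleMap 0 ρ)) ?_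
      intro θ
      exact hsc n _ (hcirc θ)
    · refine Eventually.of_forall (fun n => Eventually.of_forall (fun θ _ => ?_))
      rw [← mul_assoc, norm_mul]
      have := hA1 _ (hsc n _ (hcirc θ))
      nlinarith [norm_nonneg (k θ * koe (circleMap 0 ρ θ))]
    · exact (hk.mul hcd).norm.intervalIntegrable _ _
    · refine Eventually.of_forall (fun θ _ => ?_)
      refine Tendsto.const_mul _ (Tendsto.const_mul _ ?_)
      have hcA : ContinuousAt A (circleMap 0 ρ θ) :=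
        hA.continuousOn.continuousAt (isOpen_ball.mem_nhds (hcirc θ))
      have ht : Tendsto (fun n => ((rr n : ℝ) : ℂ) * circleMap 0 ρ θ) atTop (𝓝 (circleMap 0 ρ θ)) := by
        have h1 : Tendsto (fun n => ((rr n : ℝ) : ℂ)) atTop (𝓝 ((1 : ℝ) : ℂ)) :=
          (Complex.continuous_ofReal.tendsto 1).comp hrrt
        have h2 := h1.mul_const (circleMap 0 ρ θ)
        simpa using h2
      exact hcA.tendsto.comp ht
  exact le_of_tendsto hlim.norm (Eventually.of_forall (fun n => hdil _ (hrr0 n) (hrr1 n)))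

end Pool.Agent.MultS.LB

end

section

/-!
# Item PolD: the Dirichlet integral of a polynomial
-/

set_option autoImplicit false

open Complex Metric Set Filter Topology MeasureTheory
open Pool.Agent.MultS.Lip

namespace Pool.Agent.MultS.LB

namespace PolDX

open Pool.Agent.MultS.UB.ParsX

lemma deriv_eq (A : Polynomial ℂ) (z : ℂ) :
    deriv (fun x : ℂ => A.eval x) z =
      p (fun m => (Polynomial.derivative A).coeff m) (A.natDegree + 1) z := by
  rw [Polynomial.deriv, Polynomial.eval_eq_sum_range' (n := A.natDegree + 1)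
    (lt_of_le_of_lt (Polynomial.natDegree_derivative_le A) (by omega)) z]
  rfl

lemma int_p (c : ℕ → ℂ) (N : ℕ) (s : ℝ) (hs0 : 0 < s) (hs1 : s < 1) :
    ∫⁻ z in ball (0 : ℂ) s, ENNReal.ofReal (‖p c N z‖ ^ 2) = ENNReal.ofReal (E c N s) := by
  have hc : Continuous (p c N) := (diff_p c N).continuous
  have h1 := conj_int Lip.prfOrth (p c N) (diff_p c N).differentiableOn s hs0 hs1 c N
    (fun m hm => tc_p c N m hm)
  have i1 : IntegrableOn (fun ζ => ‖p c N ζ‖ ^ 2) (ball (0 : ℂ) s) :=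
    int_onR (hc.norm.pow 2).continuousOn
  rw [← ofReal_integral_eq_lintegral_ofReal i1 (Eventually.of_forall fun _ => sq_nonneg _)]
  congr 1
  have h2 : ∀ z : ℂ, p c N z * (starRingEnd ℂ) (p c N z) = ((‖p c N z‖ ^ 2 : ℝ) : ℂ) := by
    intro z
    rw [Complex.mul_conj, Complex.normSq_eq_norm_sq]
  simp only [h2] at h1
  rw [integral_complex_ofReal] at h1
  exact_mod_cast h1

lemma sum_le (A : Polynomial ℂ) (h : ∑ m ∈ A.support, (m : ℝ) * ‖A.coeff m‖ ^ 2 ≤ 1) (s : ℝ)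
    (hs0 : 0 < s) (hs1 : s < 1) :
    E (fun m => (Polynomial.derivative A).coeff m) (A.natDegree + 1) s ≤ Real.pi := by
  have h1 : ∑ m ∈ A.support, (m : ℝ) * ‖A.coeff m‖ ^ 2 =
      ∑ m ∈ Finset.range (A.natDegree + 2), (m : ℝ) * ‖A.coeff m‖ ^ 2 := by
    apply Finset.sum_subset
    · intro m hm
      rw [Finset.mem_range]
      have := Polynomial.le_natDegree_of_mem_supp m hm
      omega
    · intro m _ hm
      rw [Polynomial.notMem_support_iff.1 hm]
      simp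
  rw [Finset.sum_range_succ'] at h1
  simp only [Nat.cast_zero, zero_mul, add_zero] at h1
  have h2 : E (fun m => (Polynomial.derivative A).coeff m) (A.natDegree + 1) s ≤
      Real.pi * ∑ m ∈ Finset.range (A.natDegree + 1), ((m + 1 : ℕ) : ℝ) * ‖A.coeff (m + 1)‖ ^ 2 := by
    unfold E
    rw [Finset.mul_sum]
    refine Finset.sum_le_sum fun m _ => ?_
    simp only [Polynomial.coeff_derivative]
    have h3 : ‖A.coeff (m + 1) * ((m : ℂ) + 1)‖ = ‖A.coeff (m + 1)‖ * ((m : ℝ) + 1) := by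
      rw [norm_mul]
      congr 1
      have : ((m : ℂ) + 1) = ((m + 1 : ℕ) : ℂ) := by push_cast; ring
      rw [this, Complex.norm_natCast]
      push_cast
      ring
    rw [h3]
    have h4 : s ^ (2 * m + 2) ≤ 1 := pow_le_one₀ hs0.le hs1.le
    have h5 : (0 : ℝ) < (m : ℝ) + 1 := by positivity
    have h6 : (‖A.coeff (m + 1)‖ * ((m : ℝ) + 1)) ^ 2 *
        (Real.pi * s ^ (2 * m + 2) / ((m : ℝ) + 1)) =
        (Real.pi * (((m : ℝ) + 1) * ‖A.coeff (m + 1)‖ ^ 2)) * s ^ (2 * m + 2) := by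
      field_simp
    rw [h6]
    push_cast
    have h7 : 0 ≤ Real.pi * (((m : ℝ) + 1) * ‖A.coeff (m + 1)‖ ^ 2) := by positivity
    calc _ ≤ (Real.pi * (((m : ℝ) + 1) * ‖A.coeff (m + 1)‖ ^ 2)) * 1 :=
          mul_le_mul_of_nonneg_left h4 h7
      _ = _ := mul_one _
  rw [← h1] at h2
  refine h2.trans ?_
  calc Real.pi * ∑ m ∈ A.support, (m : ℝ) * ‖A.coeff m‖ ^ 2 ≤ Real.pi * 1 :=
        mul_le_mul_of_nonneg_left h Real.pi_pos.le
    _ = Real.pi := mul_one _

lemma ball_eq : ball (0 : ℂ) 1 = ⋃ n : ℕ, ball (0 : ℂ) (1 - 1 / ((n : ℝ) + 2)) := by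
  ext z
  rw [mem_iUnion, mem_ball_zero_iff]
  constructor
  · intro h
    obtain ⟨n, hn⟩ := exists_nat_one_div_lt (sub_pos.2 h)
    refine ⟨n, ?_⟩
    rw [mem_ball_zero_iff]
    have : 1 / ((n : ℝ) + 2) ≤ 1 / ((n : ℝ) + 1) :=
      one_div_le_one_div_of_le (by positivity) (by linarith)
    linarith
  · rintro ⟨n, hn⟩
    rw [mem_ball_zero_iff] at hn
    have : 0 < 1 / ((n : ℝ) + 2) := by positivity
    linarith

lemma lim (f : ℂ → ENNReal) (C : ENNReal)
    (h : ∀ s : ℝ, 0 < s → s < 1 → ∫⁻ z in ball (0 : ℂ) s, f z ≤ C) :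
    ∫⁻ z in ball (0 : ℂ) 1, f z ≤ C := by
  rw [ball_eq, setLIntegral_iUnion_of_directed]
  · refine iSup_le fun n => h _ ?_ ?_
    · have : 1 / ((n : ℝ) + 2) ≤ 1 / 2 :=
        one_div_le_one_div_of_le (by norm_num) (by linarith [Nat.cast_nonneg (α := ℝ) n])
      linarith
    · have : 0 < 1 / ((n : ℝ) + 2) := by positivity
      linarith
  · apply Monotone.directed_le
    intro m n hmn
    apply ball_subset_ball
    have h1 : (m : ℝ) ≤ n := by exact_mod_cast hmn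
    have : 1 / ((n : ℝ) + 2) ≤ 1 / ((m : ℝ) + 2) :=
      one_div_le_one_div_of_le (by positivity) (by linarith)
    linarith

end PolDX

theorem prfPolD : PolD := by
  intro A hA
  apply PolDX.lim
  intro s hs0 hs1
  simp only [PolDX.deriv_eq]
  rw [PolDX.int_p _ _ s hs0 hs1]
  exact ENNReal.ofReal_le_ofReal (PolDX.sum_le A hA.2 s hs0 hs1)

end Pool.Agent.MultS.LB

end

section

/-!
# The explicit form of the Lipschitz norm of multipliers of `S`: `XN` and `PX`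
-/

set_option autoImplicit false

open Complex Metric Set Filter Topology MeasureTheory
open Pool.Agent.MultS.Lip

namespace Pool.Agent.MultS.LB

namespace XNPXX

theorem z1_succ (mu : ℕ → ℂ) (n : ℕ) : z1 mu (n + 2) = mu (n + 2) := by
  unfold z1
  rw [if_neg (by omega)]

theorem z1_one (mu : ℕ → ℂ) : z1 mu 1 = 0 := by
  unfold z1
  rw [if_pos le_rfl]

/-- the shifted terms -/
theorem shift (mu : ℕ → ℂ) (f : ℂ → ℂ) (z : ℂ) (n : ℕ) :
    (((n + 1 : ℕ) : ℂ) + 1) * z1 mu (n + 1 + 1) * tc f (n + 1 + 1) * z ^ (n + 1) =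
      ((n : ℂ) + 2) * mu (n + 2) * tc f (n + 2) * z ^ (n + 1) := by
  rw [z1_succ]
  push_cast
  ring

theorem LL_eq {mu : ℕ → ℂ} {f : ℂ → ℂ} {z : ℂ}
    (h : Summable (fun n : ℕ => ((n : ℂ) + 2) * mu (n + 2) * tc f (n + 2) * z ^ (n + 1))) :
    LL (z1 mu) f z = ∑' n : ℕ, ((n : ℂ) + 2) * mu (n + 2) * tc f (n + 2) * z ^ (n + 1) := by
  have h1 : Summable (fun n : ℕ => ((n : ℂ) + 1) * z1 mu (n + 1) * tc f (n + 1) * z ^ n) := by
    refine (summable_nat_add_iff 1).1 (h.congr fun n => ?_)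
    exact (shift mu f z n).symm
  rw [LL, h1.tsum_eq_zero_add]
  have h2 : (((0 : ℕ) : ℂ) + 1) * z1 mu (0 + 1) * tc f (0 + 1) * z ^ 0 = 0 := by
    rw [zero_add, z1_one]
    ring
  rw [h2, zero_add]
  exact tsum_congr fun n => shift mu f z n

/-- `(n + 2) r ^ (n + 1)` is bounded. -/
theorem bounded {r : ℝ} (h0 : 0 ≤ r) (h1 : r < 1) :
    ∃ K : ℝ, ∀ n : ℕ, ((n : ℝ) + 2) * r ^ (n + 1) ≤ K := by
  have h2 := tendsto_self_mul_const_pow_of_lt_one h0 h1
  obtain ⟨K, hK⟩ := h2.bddAbove_range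
  refine ⟨K + 1, fun n => ?_⟩
  have h3 : ((n + 1 : ℕ) : ℝ) * r ^ (n + 1) ≤ K := hK ⟨n + 1, rfl⟩
  have h4 : r ^ (n + 1) ≤ 1 := pow_le_one₀ h0 h1.le
  push_cast at h3
  calc ((n : ℝ) + 2) * r ^ (n + 1) = ((n : ℝ) + 1) * r ^ (n + 1) + r ^ (n + 1) := by ring
    _ ≤ K + 1 := add_le_add h3 h4

end XNPXX

theorem prfXNPX (hS : SumB) : XNPX := by
  intro mu X
  constructor
  · intro h
    refine ⟨hS mu X fun z hz => ?_, ?_⟩
    · obtain ⟨h1, h2⟩ := h _ sc_koebe z hz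
      have e : ∀ n : ℕ, ((n : ℂ) + 2) * mu (n + 2) * tc (fun z : ℂ => z / (1 - z) ^ 2) (n + 2) *
          z ^ (n + 1) = ((n : ℂ) + 2) ^ 2 * mu (n + 2) * z ^ (n + 1) := by
        intro n
        rw [tc_koebe]
        push_cast
        ring
      refine ⟨h1.congr e, ?_⟩
      rw [tsum_congr e] at h2
      exact h2
    · intro f hf z hz
      obtain ⟨h1, h2⟩ := h f hf z hz
      rw [XNPXX.LL_eq h1]
      exact h2
  · intro h f hf z hz
    have hz1 : ‖z‖ < 1 := by simpa using hz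
    obtain ⟨K, hK⟩ := XNPXX.bounded (norm_nonneg z) hz1
    have hs : Summable (fun n : ℕ => ((n : ℝ) + 2) * ‖mu (n + 2)‖) := by
      refine ((summable_nat_add_iff 1).2 h.sm).congr fun n => ?_
      rw [XNPXX.z1_succ]
      push_cast
      ring
    have h1 : Summable (fun n : ℕ => ((n : ℂ) + 2) * mu (n + 2) * tc f (n + 2) * z ^ (n + 1)) := by
      refine Summable.of_norm_bounded (hs.mul_left (3 * K)) fun n => ?_
      have hl := littAll f hf (n + 2) (by omega)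
      have hn : ‖((n : ℂ) + 2)‖ = (n : ℝ) + 2 := by
        have : ((n : ℂ) + 2) = (((n : ℝ) + 2 : ℝ) : ℂ) := by push_cast; ring
        rw [this, Complex.norm_real, Real.norm_of_nonneg (by positivity)]
      rw [norm_mul, norm_mul, norm_mul, norm_pow, hn]
      have hl' : ‖tc f (n + 2)‖ ≤ 3 * ((n : ℝ) + 2) := by
        refine hl.trans (le_of_eq ?_)
        push_cast
        ring
      have hp : 0 ≤ ((n : ℝ) + 2) * ‖mu (n + 2)‖ := by positivity
      calc ((n : ℝ) + 2) * ‖mu (n + 2)‖ * ‖tc f (n + 2)‖ * ‖z‖ ^ (n + 1)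
          ≤ ((n : ℝ) + 2) * ‖mu (n + 2)‖ * (3 * ((n : ℝ) + 2)) * ‖z‖ ^ (n + 1) := by gcongr
        _ = 3 * (((n : ℝ) + 2) * ‖z‖ ^ (n + 1)) * (((n : ℝ) + 2) * ‖mu (n + 2)‖) := by ring
        _ ≤ 3 * K * (((n : ℝ) + 2) * ‖mu (n + 2)‖) :=
          mul_le_mul_of_nonneg_right (mul_le_mul_of_nonneg_left (hK n) (by norm_num)) hp
    refine ⟨h1, ?_⟩
    have h2 := h.bx f hf z hz
    rw [XNPXX.LL_eq h1] at h2
    exact h2

end Pool.Agent.MultS.LB

end

section

/-!
# Coefficient multipliers of the class S: block E, the two theorems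
-/

set_option autoImplicit false

namespace Pool.Agent.MultS

theorem extr : Extr :=
  extr_of prfLipLim prfLipComp prfLipMax prfLipMid prfLipSqrt prfLipBrick

theorem growE : GrowE :=
  growE_of prfLipConn prfLipConnZ prfLipArea prfLipRay prfLipShad prfLipProj prfLipGrw

end Pool.Agent.MultS

end

section

/-!
# The Lipschitz dichotomy: final theorems from the modules
-/

set_option autoImplicit false

open Complex Metric Set Filter Topology MeasureTheory

namespace Pool.Agent.MultS.Lip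

theorem lit_of_isMult {lam : ℕ → ℂ} (h : IsMult lam) : Lit Sc lam := by
  intro f hf
  obtain ⟨g, hg, hgc⟩ := h f hf
  have hs : ∀ z ∈ ball (0 : ℂ) 1,
      HasSum (fun n : ℕ => lam (n + 1) * tc f (n + 1) * z ^ (n + 1)) (g z) := by
    intro z hz
    have h1 := hasSum_tc_succ hg.1 hg.2.2.1 hz
    refine h1.congr_fun fun n => ?_
    rw [hgc (n + 1) (by omega)]
  refine ⟨fun z hz => (hs z hz).summable, ?_⟩
  have heq : EqOn (fun z => ∑' n : ℕ, lam (n + 1) * tc f (n + 1) * z ^ (n + 1)) g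
      (ball (0 : ℂ) 1) := fun z hz => (hs z hz).tsum_eq
  have h0 : (0 : ℂ) ∈ ball (0 : ℂ) 1 := mem_ball_self one_pos
  refine ⟨hg.1.congr heq, hg.2.1.congr heq.symm, ?_, ?_⟩
  · rw [heq h0, hg.2.2.1]
  · rw [← hg.2.2.2]
    exact (heq.eventuallyEq_of_mem (isOpen_ball.mem_nhds h0)).deriv_eq

/-- The uniform Lipschitz bound. -/
theorem dichU (hB : BndU) (hP : PackU) (hM : Main) (hL : Lin) :
    ∀ η : ℝ, 0 < η → ∃ X : ℝ, ∀ lam : ℕ → ℂ, Lit Sc lam → ‖lam 2‖ ≤ 1 - η → XN lam X := by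
  intro η hη
  obtain ⟨C, hC⟩ := hB η hη
  obtain ⟨B, hB'⟩ := hP C
  obtain ⟨X, hX⟩ := hM B
  refine ⟨X + 1, fun lam hl h2 f hf z hz => ?_⟩
  have hp := hB' lam hl (hC lam hl h2)
  have hs := ((hL lam B hp z hz).1 f hf.1).of_norm
  have hs' : Summable (fun n : ℕ => ((n : ℂ) + 2) * lam (n + 2) * tc f (n + 2) * z ^ (n + 1)) := by
    have := (summable_nat_add_iff 1).2 hs
    refine this.congr fun n => ?_
    push_cast
    ring
  refine ⟨hs', ?_⟩
  have h1 := hX lam hp f hf z hz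
  have h3 : LL lam f z = 1 +
      ∑' n : ℕ, ((n : ℂ) + 2) * lam (n + 2) * tc f (n + 2) * z ^ (n + 1) := by
    rw [LL, hs.tsum_eq_zero_add]
    congr 1
    · rw [hp.one, tc_one, hf.2.2.2]
      simp
    · refine tsum_congr fun n => ?_
      push_cast
      ring
  have h4 : ∑' n : ℕ, ((n : ℂ) + 2) * lam (n + 2) * tc f (n + 2) * z ^ (n + 1) =
      LL lam f z - 1 := by rw [h3]; ring
  rw [h4]
  refine (norm_sub_le _ _).trans ?_
  rw [norm_one]
  linarith

/-- The sequence `1, c mu 2, c mu 3, ...`. -/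
noncomputable def ptb (mu : ℕ → ℂ) (c : ℝ) (n : ℕ) : ℂ := if n ≤ 1 then 1 else (c : ℂ) * mu n

theorem XN_ptb {mu : ℕ → ℂ} {c X : ℝ} (hc : 0 < c) : XN (ptb mu c) (c * X) ↔ XN mu X := by
  have e : ∀ (f : ℂ → ℂ) (z : ℂ) (n : ℕ),
      ((n : ℂ) + 2) * ptb mu c (n + 2) * tc f (n + 2) * z ^ (n + 1) =
      (c : ℂ) * (((n : ℂ) + 2) * mu (n + 2) * tc f (n + 2) * z ^ (n + 1)) := by
    intro f z n
    rw [ptb, if_neg (by omega)]
    ring
  have hcc : (c : ℂ) ≠ 0 := by exact_mod_cast hc.ne'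
  constructor
  · intro h f hf z hz
    obtain ⟨h1, h2⟩ := h f hf z hz
    have h3 : Summable (fun n : ℕ => ((n : ℂ) + 2) * mu (n + 2) * tc f (n + 2) * z ^ (n + 1)) :=
      (summable_mul_left_iff hcc).1 (h1.congr (e f z))
    refine ⟨h3, ?_⟩
    rw [tsum_congr (e f z), tsum_mul_left, norm_mul, norm_real, Real.norm_of_nonneg hc.le] at h2
    exact le_of_mul_le_mul_left h2 hc
  · intro h f hf z hz
    obtain ⟨h1, h2⟩ := h f hf z hz
    refine ⟨(h1.mul_left (c : ℂ)).congr fun n => (e f z n).symm, ?_⟩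
    rw [tsum_congr (e f z), tsum_mul_left, norm_mul, norm_real, Real.norm_of_nonneg hc.le]
    exact mul_le_mul_of_nonneg_left h2 hc.le

theorem XN.mono {mu : ℕ → ℂ} {X Y : ℝ} (h : XN mu X) (hXY : X ≤ Y) : XN mu Y :=
  fun f hf z hz => ⟨(h f hf z hz).1, (h f hf z hz).2.trans hXY⟩

/-- Small perturbations of the identity function. -/
theorem pertAll (hD : ∀ η : ℝ, 0 < η → ∃ X : ℝ, ∀ lam : ℕ → ℂ, Lit Sc lam → ‖lam 2‖ ≤ 1 - η →
    XN lam X) (hS : Suf) (mu : ℕ → ℂ) :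
    (∃ c0 : ℝ, 0 < c0 ∧ ∀ c : ℝ, 0 < c → c ≤ c0 → Lit Sc (ptb mu c)) ↔ ∃ X : ℝ, XN mu X := by
  constructor
  · rintro ⟨c0, hc0, h⟩
    set c : ℝ := min c0 (1 / (2 * (‖mu 2‖ + 1))) with hc
    have hcpos : 0 < c := lt_min hc0 (by positivity)
    have h1 := h c hcpos (min_le_left _ _)
    obtain ⟨X, hX⟩ := hD (1 / 2) (by norm_num)
    have h2 : ‖ptb mu c 2‖ ≤ 1 - 1 / 2 := by
      rw [ptb, if_neg (by norm_num), norm_mul, norm_real, Real.norm_of_nonneg hcpos.le]
      have h3 : c ≤ 1 / (2 * (‖mu 2‖ + 1)) := min_le_right _ _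
      rw [le_div_iff₀ (by positivity)] at h3
      nlinarith [norm_nonneg (mu 2)]
    have h3 := hX _ h1 h2
    refine ⟨X / c, (XN_ptb hcpos).1 ?_⟩
    rwa [mul_div_cancel₀ _ hcpos.ne']
  · rintro ⟨X, hX⟩
    refine ⟨1 / (|X| + 1), by positivity, fun c hc hc1 => hS _ (by simp [ptb]) ?_⟩
    refine ((XN_ptb hc).2 hX).mono ?_
    rw [le_div_iff₀ (by positivity)] at hc1
    nlinarith [le_abs_self X]

/-- The Koebe function. -/
theorem XN_koebe {lam : ℕ → ℂ} {X : ℝ} (h : XN lam X) :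
    ∀ z ∈ ball (0 : ℂ) 1, Summable (fun n : ℕ => (n : ℂ) ^ 2 * lam n * z ^ n) ∧
      ‖∑' n : ℕ, (n : ℂ) ^ 2 * lam n * z ^ n‖ ≤ X + ‖lam 1‖ := by
  intro z hz
  obtain ⟨h1, h2⟩ := h _ sc_koebe z hz
  have hz1 : ‖z‖ ≤ 1 := by
    rw [mem_ball_zero_iff] at hz
    exact hz.le
  have e : ∀ n : ℕ, ((n : ℂ) + 2) * lam (n + 2) * tc (fun z : ℂ => z / (1 - z) ^ 2) (n + 2) *
      z ^ (n + 1) = ((n : ℂ) + 2) ^ 2 * lam (n + 2) * z ^ (n + 1) := by
    intro n
    rw [tc_koebe]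
    push_cast
    ring
  replace h1 := h1.congr e
  rw [tsum_congr e] at h2
  have h3 : HasSum (fun n : ℕ => ((n + 2 : ℕ) : ℂ) ^ 2 * lam (n + 2) * z ^ (n + 2))
      (z * ∑' n : ℕ, ((n : ℂ) + 2) ^ 2 * lam (n + 2) * z ^ (n + 1)) := by
    refine (h1.hasSum.mul_left z).congr_fun fun n => ?_
    push_cast
    ring
  have h4 := (hasSum_nat_add_iff (f := fun n : ℕ => (n : ℂ) ^ 2 * lam n * z ^ n) 2).1 h3
  refine ⟨h4.summable, ?_⟩
  rw [h4.tsum_eq]
  have h5 : ∑ i ∈ Finset.range 2, (i : ℂ) ^ 2 * lam i * z ^ i = lam 1 * z := by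
    simp [Finset.sum_range_succ]
  rw [h5]
  refine (norm_add_le _ _).trans ?_
  rw [norm_mul, norm_mul]
  have hX : 0 ≤ X := (norm_nonneg _).trans h2
  refine add_le_add ?_ ?_
  · calc ‖z‖ * _ ≤ 1 * X := mul_le_mul hz1 h2 (norm_nonneg _) zero_le_one
      _ = X := one_mul X
  · exact mul_le_of_le_one_right (norm_nonneg _) hz1

/-- Absolute convergence is sufficient. -/
theorem XN_of_summable {mu : ℕ → ℂ} (h : Summable (fun n : ℕ => (n : ℝ) ^ 2 * ‖mu n‖)) :
    ∃ X : ℝ, XN mu X := by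
  have h2 : Summable (fun n : ℕ => 3 * (((n : ℝ) + 2) ^ 2 * ‖mu (n + 2)‖)) := by
    refine ((summable_nat_add_iff 2).2 h |>.mul_left 3).congr fun n => ?_
    push_cast
    ring
  refine ⟨∑' n : ℕ, 3 * (((n : ℝ) + 2) ^ 2 * ‖mu (n + 2)‖), fun f hf z hz => ?_⟩
  have hz1 : ‖z‖ ≤ 1 := by
    rw [mem_ball_zero_iff] at hz
    exact hz.le
  have hb : ∀ n : ℕ, ‖((n : ℂ) + 2) * mu (n + 2) * tc f (n + 2) * z ^ (n + 1)‖ ≤
      3 * (((n : ℝ) + 2) ^ 2 * ‖mu (n + 2)‖) := by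
    intro n
    have h3 := littAll f hf (n + 2) (by omega)
    have h4 : ‖(n : ℂ) + 2‖ = (n : ℝ) + 2 := by
      have : ((n : ℂ) + 2) = (((n : ℝ) + 2 : ℝ) : ℂ) := by push_cast; ring
      rw [this, norm_real, Real.norm_of_nonneg (by positivity)]
    rw [norm_mul, norm_mul, norm_mul, norm_pow, h4]
    push_cast at h3
    have h5 : ‖z‖ ^ (n + 1) ≤ 1 := pow_le_one₀ (norm_nonneg _) hz1
    calc ((n : ℝ) + 2) * ‖mu (n + 2)‖ * ‖tc f (n + 2)‖ * ‖z‖ ^ (n + 1)
        ≤ ((n : ℝ) + 2) * ‖mu (n + 2)‖ * (3 * ((n : ℝ) + 2)) * 1 := by gcongr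
      _ = 3 * (((n : ℝ) + 2) ^ 2 * ‖mu (n + 2)‖) := by ring
  exact ⟨Summable.of_norm_bounded h2 hb, tsum_of_norm_bounded h2.hasSum hb⟩

/-- For non-negative sequences the Lipschitz norm is `∑ n ^ 2 mu n`, up to a constant factor. -/
theorem XN_nonneg {mu : ℕ → ℝ} (h0 : ∀ n, 0 ≤ mu n) :
    (∃ X : ℝ, XN (fun n => (mu n : ℂ)) X) ↔ Summable (fun n : ℕ => (n : ℝ) ^ 2 * mu n) := by
  constructor
  · rintro ⟨X, hX⟩
    refine prfNonneg _ (X + ‖((mu 1 : ℝ) : ℂ)‖) (fun n => mul_nonneg (by positivity) (h0 n)) ?_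
    intro z hz
    have := XN_koebe hX z hz
    push_cast
    exact this
  · intro h
    refine XN_of_summable (h.congr fun n => ?_)
    rw [norm_real, Real.norm_of_nonneg (h0 n)]

/-- The second coefficient. -/
theorem secondAll (hR : RotTwo) : ∀ lam : ℕ → ℂ, Lit Sc lam →
    ‖lam 2‖ ≤ 1 ∧ (‖lam 2‖ = 1 → ∀ n : ℕ, 1 ≤ n → lam n = lam 2 ^ (n - 1)) := by
  intro lam hl
  have hm := prfLitMult lam hl
  obtain ⟨h, hg⟩ := prfGenEx testQAll lam hm
  exact hR lam h hm hg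

/-- The class `S₀`. -/
theorem dichZ (hR : RotTwo) (hD : ∀ η : ℝ, 0 < η → ∃ X : ℝ, ∀ lam : ℕ → ℂ, Lit Sc lam →
    ‖lam 2‖ ≤ 1 - η → XN lam X) :
    (∀ lam : ℕ → ℂ, Lit S0 lam → lam 1 ≠ 0 ∧ ‖lam 2‖ ≤ ‖lam 1‖ ∧
      (‖lam 2‖ = ‖lam 1‖ → ∀ n : ℕ, 1 ≤ n → lam n = lam 1 * (lam 2 / lam 1) ^ (n - 1))) ∧
    ∀ η : ℝ, 0 < η → ∃ X : ℝ, ∀ lam : ℕ → ℂ, Lit S0 lam → ‖lam 2‖ ≤ (1 - η) * ‖lam 1‖ →
      XN lam (‖lam 1‖ * X) := by
  constructor
  · intro lam hl
    obtain ⟨h1, hm⟩ := prfLitZero lam hl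
    obtain ⟨h2, h3⟩ := secondAll hR _ (lit_of_isMult hm)
    have hn : 0 < ‖lam 1‖ := norm_pos_iff.2 h1
    refine ⟨h1, ?_, fun he n hn' => ?_⟩
    · rwa [norm_div, div_le_one hn] at h2
    · have h4 := h3 (by rw [norm_div, he, div_self hn.ne']) n hn'
      rw [← h4, mul_div_cancel₀ _ h1]
  · intro η hη
    obtain ⟨X, hX⟩ := hD η hη
    refine ⟨X, fun lam hl h2 f hf z hz => ?_⟩
    obtain ⟨h1, hm⟩ := prfLitZero lam hl
    have hn : 0 < ‖lam 1‖ := norm_pos_iff.2 h1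
    obtain ⟨h3, h4⟩ := hX _ (lit_of_isMult hm) (by rwa [norm_div, div_le_iff₀ hn]) f hf z hz
    have e : ∀ n : ℕ, lam 1 * (((n : ℂ) + 2) * (lam (n + 2) / lam 1) * tc f (n + 2) *
        z ^ (n + 1)) = ((n : ℂ) + 2) * lam (n + 2) * tc f (n + 2) * z ^ (n + 1) := by
      intro n
      field_simp
    refine ⟨(h3.mul_left (lam 1)).congr e, ?_⟩
    rw [← tsum_congr e, tsum_mul_left, norm_mul]
    exact mul_le_mul_of_nonneg_left h4 (norm_nonneg _)

end Pool.Agent.MultS.Lip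

end
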