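import Pool.Agent.Work.MP_b17785_an.LB.Stmts
import Pool.Agent.Work.MP_b17785_an.Bd.B07
import Pool.Agent.Work.MP_b17785_an.Bd.B02

/-! Bundle of small proof modules (one section per former module). -/

section

/-!
# [L8] The area bound in the half plane
-/

set_option autoImplicit false

open Complex Metric Set Filter Topology MeasureTheory
open Pool.Agent.MultS.Lip

namespace Pool.Agent.MultS.LB

namespace AreaHX

theorem sc_id : Sc (fun z : ℂ => z) :=
  ⟨differentiableOn_id, fun _ _ _ _ h => h, rfl, (hasDerivAt_id' (0 : ℂ)).deriv⟩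

theorem X_nonneg {lam : ℕ → ℂ} {X : ℝ} (hP : PX lam X) : 0 ≤ X :=
  (norm_nonneg _).trans (hP.bx _ sc_id 0 (mem_ball_self one_pos))

end AreaHX

open AreaHX in
theorem prfAreaH (hA : AreaP) (hLin : LinP) : AreaH := by
  intro lam X hP z hz G hG c
  have hX := X_nonneg hP
  have hC := prfCay
  have hV := prfChVar prfCay
  obtain ⟨c1, c2, c3, c4, c5, c6⟩ := hC
  have hh : DifferentiableOn ℂ (fun ζ => G (psi ζ)) (ball 0 1) :=
    hG.comp c3 fun ζ hζ => (c1 ζ hζ).1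
  have hL := (hLin lam hP.sm z hz).1 _ _ 1 0 (-c) hh hh
  rw [one_mul, zero_mul, add_zero] at hL
  have hd : DifferentiableOn ℂ (fun ζ => 1 * G (psi ζ) + 0 * G (psi ζ) + -c) (ball 0 1) :=
    ((hh.const_mul 1).add (hh.const_mul 0)).add (differentiableOn_const _)
  have h1 := hA lam X hP _ hd z hz
  rw [hL, hV (fun ζ => ENNReal.ofReal ‖1 * G (psi ζ) + 0 * G (psi ζ) + -c‖)] at h1
  refine h1.trans ?_
  rw [← lintegral_const_mul' _ _ ENNReal.ofReal_ne_top,
    ← lintegral_const_mul' _ _ ENNReal.ofReal_ne_top]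
  refine setLIntegral_mono' (isOpen_lt continuous_const Complex.continuous_re).measurableSet ?_
  intro w hw
  have hpi := Real.pi_gt_three
  have e1 : ‖1 * G (psi (phi w)) + 0 * G (psi (phi w)) + -c‖ = ‖G w - c‖ := by
    rw [(c2 w hw).2.1, one_mul, zero_mul, add_zero, sub_eq_add_neg]
  change _ * (_ * ENNReal.ofReal ‖1 * G (psi (phi w)) + 0 * G (psi (phi w)) + -c‖) ≤ _
  rw [e1, ← ENNReal.ofReal_mul (by positivity), ← ENNReal.ofReal_mul (by positivity),
    ← ENNReal.ofReal_mul (by positivity)]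
  apply ENNReal.ofReal_le_ofReal
  have h2 : 2 * X / Real.pi * (4 / ‖w + 1‖ ^ 4 * ‖G w - c‖) =
      (8 / Real.pi * X) * (‖G w - c‖ / ‖w + 1‖ ^ 4) := by ring
  rw [h2]
  refine mul_le_mul_of_nonneg_right ?_ (by positivity)
  refine mul_le_mul_of_nonneg_right ?_ hX
  rw [div_le_iff₀ Real.pi_pos]
  linarith

end Pool.Agent.MultS.LB

end

section

/-!
# Lower bound block, item F4: the derivative of the flow in terms of `nn`
-/

set_option autoImplicit false

open Complex Metric Set Filter Topology MeasureTheory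
open Pool.Agent.MultS.Lip

namespace Pool.Agent.MultS.LB

namespace FlDerX

theorem hasDerivWithinAt_prim {f : ℝ → ℂ} {S : ℝ} (hf : ContinuousOn f (Icc 0 S)) {x : ℝ}
    (hx : x ∈ Icc (0 : ℝ) S) :
    HasDerivWithinAt (fun u : ℝ => ∫ t in (0 : ℝ)..u, f t) (f x) (Icc 0 S) x := by
  have : Fact (x ∈ Icc (0 : ℝ) S) := ⟨hx⟩
  refine intervalIntegral.integral_hasDerivWithinAt_right (t := Icc (0 : ℝ) S) ?_ ?_ (hf x hx)
  · refine ContinuousOn.intervalIntegrable ?_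
    rw [uIcc_of_le hx.1]
    exact hf.mono (Icc_subset_Icc_right hx.2)
  · exact hf.stronglyMeasurableAtFilter_nhdsWithin measurableSet_Icc x

theorem nu_ne {κ : ℝ → ℝ} {S : ℝ} {y : ℝ → ℂ → ℂ} (hF : Fl κ S y) {W : ℂ} (hW : W ∈ Hp)
    {x : ℝ} (hx : x ∈ Icc (0 : ℝ) S) : nu κ y x W ≠ 0 := by
  intro h
  have h1 := hF.pos x hx W hW
  have h2 : (nu κ y x W).re = (y x W).re := by simp [nu]
  rw [h] at h2
  simp at h2
  linarith

theorem nu_deriv {κ : ℝ → ℝ} {S : ℝ} {y : ℝ → ℂ → ℂ} (hD : Drv κ S) (hF : Fl κ S y) {W : ℂ}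
    (hW : W ∈ Hp) {x : ℝ} (hx : x ∈ Icc (0 : ℝ) S) :
    HasDerivWithinAt (fun u : ℝ => nu κ y u W)
      (1 / nu κ y x W - nu κ y x W - I * ((κ x + deriv κ x : ℝ) : ℂ)) (Icc 0 S) x := by
  have h1 := hF.ode W hW x hx
  have hk : HasDerivAt κ (deriv κ x) x :=
    ((hD.c1.differentiable (by norm_num)) x).hasDerivAt
  have h2 : HasDerivWithinAt (fun u : ℝ => (κ u : ℂ)) ((deriv κ x : ℝ) : ℂ) (Icc 0 S) x :=
    hk.ofReal_comp.hasDerivWithinAt
  have h3 := h1.sub (h2.const_mul I)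
  refine (h3.congr_deriv ?_)
  unfold nu
  push_cast
  ring

theorem nu_cont {κ : ℝ → ℝ} {S : ℝ} {y : ℝ → ℂ → ℂ} (hD : Drv κ S) (hF : Fl κ S y) {W : ℂ}
    (hW : W ∈ Hp) : ContinuousOn (fun u : ℝ => nu κ y u W) (Icc 0 S) :=
  fun _ hx => (nu_deriv hD hF hW hx).continuousWithinAt

/-- the first integral -/
theorem key {κ : ℝ → ℝ} {S : ℝ} {y : ℝ → ℂ → ℂ} (hD : Drv κ S) (hF : Fl κ S y) {W : ℂ}
    (hW : W ∈ Hp) {s : ℝ} (hs : s ∈ Icc (0 : ℝ) S) :
    Complex.exp (-(∫ x in (0 : ℝ)..s, 1 / nu κ y x W ^ 2) + s +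
      I * ∫ x in (0 : ℝ)..s, ((κ x + deriv κ x : ℝ) : ℂ) / nu κ y x W) * nu κ y s W
      = y 0 W := by
  have hν := nu_cont hD hF hW
  have hne : ∀ x ∈ Icc (0 : ℝ) S, nu κ y x W ≠ 0 := fun x hx => nu_ne hF hW hx
  have hκ : Continuous κ := hD.c1.continuous
  have hκ' : Continuous (deriv κ) := hD.c1.continuous_deriv (by norm_num)
  have hfA : ContinuousOn (fun x : ℝ => 1 / nu κ y x W ^ 2) (Icc 0 S) :=
    continuousOn_const.div (hν.pow 2) fun x hx => pow_ne_zero 2 (hne x hx)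
  have hfB : ContinuousOn (fun x : ℝ => ((κ x + deriv κ x : ℝ) : ℂ) / nu κ y x W) (Icc 0 S) :=
    (Complex.continuous_ofReal.comp (hκ.add hκ')).continuousOn.div hν hne
  have hd : ∀ x ∈ Icc (0 : ℝ) S, HasDerivWithinAt (fun s : ℝ =>
      Complex.exp (-(∫ x in (0 : ℝ)..s, 1 / nu κ y x W ^ 2) + s +
      I * ∫ x in (0 : ℝ)..s, ((κ x + deriv κ x : ℝ) : ℂ) / nu κ y x W) * nu κ y s W) 0
      (Icc 0 S) x := by
    intro x hx
    have hA := hasDerivWithinAt_prim hfA hx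
    have hB := hasDerivWithinAt_prim hfB hx
    have hid : HasDerivWithinAt (fun u : ℝ => (u : ℂ)) 1 (Icc 0 S) x :=
      (hasDerivAt_id x).ofReal_comp.hasDerivWithinAt
    have h1 := (((hA.neg.add hid).add (hB.const_mul I)).cexp).mul (nu_deriv hD hF hW hx)
    refine h1.congr_deriv ?_
    have := hne x hx
    simp only [Pi.add_apply, Pi.neg_apply]
    field_simp
    ring
  have hc := constant_of_derivWithin_zero
    (fun x hx => (hd x hx).differentiableWithinAt)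
    (fun x hx => (hd x ⟨hx.1, hx.2.le⟩).derivWithin
      (uniqueDiffOn_Icc hD.Sp x ⟨hx.1, hx.2.le⟩)) s hs
  rw [hc]
  have h0 : κ 0 = 0 := hD.zer 0 (Or.inl le_rfl)
  simp [nu, h0]

end FlDerX

open FlDerX in
theorem prfFlDer (hFlHol : FlHol) : FlDer := by
  intro κ S y hD hF s hs W hW
  have hκ : Continuous κ := hD.c1.continuous
  have h1 := ((hFlHol κ S y hκ hD.Sp.le hF).2 s hs).2 W hW
  refine h1.congr_deriv ?_
  have hk := key hD hF hW hs
  have hν := nu_ne hF hW hs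
  have hy : y 0 W ≠ 0 := by
    intro h
    have := hF.pos 0 ⟨le_rfl, hD.Sp.le⟩ W hW
    rw [h] at this
    simp at this
  set A := ∫ x in (0 : ℝ)..s, 1 / nu κ y x W ^ 2 with hA
  set B := ∫ x in (0 : ℝ)..s, ((κ x + deriv κ x : ℝ) : ℂ) / nu κ y x W with hB
  have e1 : nn κ y s W = Complex.exp (-I * B) := rfl
  have e2 : ((Real.exp (2 * s) : ℝ) : ℂ) = Complex.exp (s : ℂ) * Complex.exp (s : ℂ) := by
    rw [← Complex.exp_add]
    push_cast
    congr 1
    ring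
  have e3 : ((Real.exp (-s) : ℝ) : ℂ) = (Complex.exp (s : ℂ))⁻¹ := by
    rw [← Complex.exp_neg]
    push_cast
    rfl
  have e4 : Complex.exp (-A + s + I * B) = Complex.exp (-A) * Complex.exp (s : ℂ) *
      (Complex.exp (-I * B))⁻¹ := by
    rw [← Complex.exp_neg, ← Complex.exp_add, ← Complex.exp_add]
    congr 1
    ring
  rw [e4] at hk
  rw [e1, e2, e3]
  have n1 := Complex.exp_ne_zero (s : ℂ)
  have n2 := Complex.exp_ne_zero (-I * B)
  have hk' : Complex.exp (-A) * Complex.exp (s : ℂ) * nu κ y s W =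
      y 0 W * Complex.exp (-I * B) := by
    rw [← hk]
    field_simp
  have n3 : Complex.exp (s : ℂ) * Complex.exp (s : ℂ) * nu κ y s W ≠ 0 :=
    mul_ne_zero (mul_ne_zero n1 n1) hν
  rw [eq_div_iff n3]
  calc W / y 0 W * ((Complex.exp (s : ℂ))⁻¹ * Complex.exp (-A)) *
        (Complex.exp (s : ℂ) * Complex.exp (s : ℂ) * nu κ y s W)
      = W / y 0 W * ((Complex.exp (s : ℂ))⁻¹ * Complex.exp (s : ℂ)) *
        (Complex.exp (-A) * Complex.exp (s : ℂ) * nu κ y s W) := by ring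
    _ = W / y 0 W * (y 0 W * Complex.exp (-I * B)) := by
        rw [hk', inv_mul_cancel₀ n1, mul_one]
    _ = W * Complex.exp (-I * B) := by
        field_simp

end Pool.Agent.MultS.LB

end

section

/-! MP_b17785_an, block LB, item F2: the difference formula and a lower bound. -/

set_option autoImplicit false

open Complex Metric Set Filter Topology MeasureTheory
open Pool.Agent.MultS.Lip

namespace Pool.Agent.MultS.LB

namespace FlDiffX

theorem nu_re {κ : ℝ → ℝ} {y : ℝ → ℂ → ℂ} {s : ℝ} {W : ℂ} : (nu κ y s W).re = (y s W).re := by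
  simp [nu]

theorem nu_ne {κ : ℝ → ℝ} {S : ℝ} {y : ℝ → ℂ → ℂ} (hF : Fl κ S y) {W : ℂ} (hW : W ∈ Hp) {s : ℝ}
    (hs : s ∈ Icc (0 : ℝ) S) : nu κ y s W ≠ 0 := by
  intro h
  have h1 := hF.pos s hs W hW
  rw [← nu_re (κ := κ), h] at h1
  simp at h1

theorem nu_cont {κ : ℝ → ℝ} {S : ℝ} {y : ℝ → ℂ → ℂ} (hκ : Continuous κ) (hF : Fl κ S y) {W : ℂ}
    (hW : W ∈ Hp) : ContinuousOn (fun s => nu κ y s W) (Icc 0 S) := by
  have h1 : ContinuousOn (fun s => y s W) (Icc 0 S) := fun s hs =>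
    (hF.ode W hW s hs).continuousWithinAt
  unfold nu
  exact h1.sub (continuous_const.mul (Complex.continuous_ofReal.comp hκ)).continuousOn

theorem exp_deriv {κ : ℝ → ℝ} {S : ℝ} {y : ℝ → ℂ → ℂ} (hF : Fl κ S y) {W : ℂ} (hW : W ∈ Hp)
    {s : ℝ} (hs : s ∈ Icc (0 : ℝ) S) :
    HasDerivWithinAt (fun x : ℝ => (Real.exp x : ℂ) * y x W)
      ((Real.exp s : ℂ) * (1 / nu κ y s W)) (Icc 0 S) s := by
  have h1 : HasDerivWithinAt (fun x : ℝ => (Real.exp x : ℂ)) (Real.exp s : ℂ) (Icc 0 S) s :=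
    (Real.hasDerivAt_exp s).ofReal_comp.hasDerivWithinAt
  have h2 := h1.mul (hF.ode W hW s hs)
  refine h2.congr_deriv ?_
  ring

end FlDiffX

open FlDiffX in
theorem prfFlDiff : FlDiff := by
  intro κ S y hκ hS hF
  constructor
  · intro W hW s hs
    have hd : ∀ x ∈ Icc (0 : ℝ) S, HasDerivWithinAt (fun x : ℝ => Real.exp x * (y x W).re)
        (Real.exp x * (1 / nu κ y x W).re) (Icc 0 S) x := by
      intro x hx
      have h1 := exp_deriv hF hW hx
      have h2 := (Complex.reCLM.hasFDerivAt.comp_hasDerivWithinAt x h1)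
      refine (h2.congr_deriv ?_).congr_of_eventuallyEq ?_ ?_
      · simp only [Complex.reCLM_apply]
        exact Complex.re_ofReal_mul _ _
      · refine Eventually.of_forall fun t => ?_
        simp only [Function.comp_apply, Complex.reCLM_apply]
        exact (Complex.re_ofReal_mul _ _).symm
      · simp only [Function.comp_apply, Complex.reCLM_apply]
        exact (Complex.re_ofReal_mul _ _).symm
    have hmono : MonotoneOn (fun x : ℝ => Real.exp x * (y x W).re) (Icc 0 S) := by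
      apply monotoneOn_of_deriv_nonneg (convex_Icc 0 S)
        (fun x hx => (hd x hx).continuousWithinAt)
      · intro x hx
        rw [interior_Icc] at hx
        exact ((hd x (Ioo_subset_Icc_self hx)).hasDerivAt
          (Icc_mem_nhds hx.1 hx.2)).differentiableAt.differentiableWithinAt
      · intro x hx
        rw [interior_Icc] at hx
        have hx' := Ioo_subset_Icc_self hx
        rw [((hd x hx').hasDerivAt (Icc_mem_nhds hx.1 hx.2)).deriv]
        apply mul_nonneg (Real.exp_pos x).le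
        rw [one_div, Complex.inv_re, nu_re]
        exact div_nonneg (hF.pos x hx' W hW).le (Complex.normSq_nonneg _)
    have h1 := hmono (left_mem_Icc.2 hS) hs hs.1
    simpa using h1
  · intro W₁ hW₁ W₂ hW₂ s hs
    set b : ℝ → ℂ := fun x => 1 / (nu κ y x W₁ * nu κ y x W₂) with hb
    have hbc : ContinuousOn b (Icc 0 S) := by
      rw [hb]
      exact continuousOn_const.div ((nu_cont hκ hF hW₁).mul (nu_cont hκ hF hW₂))
        (fun x hx => mul_ne_zero (nu_ne hF hW₁ hx) (nu_ne hF hW₂ hx))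
    set b' : ℝ → ℂ := IccExtend hS (Set.domRestrict (Icc 0 S) b) with hb'
    have hb'c : Continuous b' := (continuousOn_iff_continuous_domRestrict.1 hbc).Icc_extend'
    have hbb : ∀ x ∈ Icc (0 : ℝ) S, b' x = b x := by
      intro x hx
      rw [hb', IccExtend_of_mem hS _ hx]
      rfl
    set Δ : ℝ → ℂ := fun x => (Real.exp x : ℂ) * (y x W₁ - y x W₂) with hΔ
    have hΔd : ∀ x ∈ Icc (0 : ℝ) S, HasDerivWithinAt Δ (-(b' x * Δ x)) (Icc 0 S) x := by
      intro x hx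
      have h1 := (exp_deriv hF hW₁ hx).sub (exp_deriv hF hW₂ hx)
      have h2 : Δ = fun x : ℝ => (Real.exp x : ℂ) * y x W₁ - (Real.exp x : ℂ) * y x W₂ := by
        funext t
        rw [hΔ]
        ring
      rw [h2]
      refine h1.congr_deriv ?_
      rw [hbb x hx, hb]
      have n1 := nu_ne hF hW₁ hx
      have n2 := nu_ne hF hW₂ hx
      have n3 : nu κ y x W₂ - nu κ y x W₁ = -(y x W₁ - y x W₂) := by
        unfold nu
        ring
      have n4 : 1 / nu κ y x W₁ - 1 / nu κ y x W₂ =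
          (nu κ y x W₂ - nu κ y x W₁) * (1 / (nu κ y x W₁ * nu κ y x W₂)) := by
        field_simp
      simp only
      rw [← mul_sub, n4, n3]
      ring
    set Φ : ℝ → ℂ := fun x => Δ x * Complex.exp (∫ t in (0 : ℝ)..x, b' t) with hΦ
    have hΦd : ∀ x ∈ Icc (0 : ℝ) S, HasDerivWithinAt Φ 0 (Icc 0 S) x := by
      intro x hx
      have h1 : HasDerivAt (fun x : ℝ => ∫ t in (0 : ℝ)..x, b' t) (b' x) x :=
        intervalIntegral.integral_hasDerivAt_right (hb'c.intervalIntegrable _ _)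
          hb'c.stronglyMeasurable.stronglyMeasurableAtFilter hb'c.continuousAt
      have h2 := (hΔd x hx).mul (h1.cexp.hasDerivWithinAt (s := Icc 0 S))
      refine h2.congr_deriv ?_
      ring
    have hconst : Φ s = Φ 0 := by
      apply constant_of_derivWithin_zero (fun x hx => (hΦd x hx).differentiableWithinAt) _ s hs
      intro x hx
      have hS0 : (0 : ℝ) < S := lt_of_le_of_lt hx.1 hx.2
      exact (hΦd x (Ico_subset_Icc_self hx)).derivWithin
        (uniqueDiffOn_Icc hS0 x (Ico_subset_Icc_self hx))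
    have hint : ∫ t in (0 : ℝ)..s, b' t = ∫ t in (0 : ℝ)..s, b t := by
      apply intervalIntegral.integral_congr
      intro t ht
      rw [uIcc_of_le hs.1] at ht
      exact hbb t ⟨ht.1, ht.2.trans hs.2⟩
    have h0 : Φ 0 = y 0 W₁ - y 0 W₂ := by
      rw [hΦ, hΔ]
      simp
    rw [h0] at hconst
    have h3 : Δ s * Complex.exp (∫ t in (0 : ℝ)..s, b t) = y 0 W₁ - y 0 W₂ := by
      rw [← hint]
      exact hconst
    show Δ s = (y 0 W₁ - y 0 W₂) * Complex.exp (-∫ t in (0 : ℝ)..s, b t)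
    rw [← h3, mul_assoc, ← Complex.exp_add, add_neg_cancel, Complex.exp_zero, mul_one]

end Pool.Agent.MultS.LB

end

section

/-! Item FlGr (helper42): crude growth. -/

set_option autoImplicit false

open Complex Metric Set Filter Topology MeasureTheory
open Pool.Agent.MultS.Lip

namespace Pool.Agent.MultS.LB

namespace FlGrX

variable {κ : ℝ → ℝ} {S : ℝ} {y : ℝ → ℂ → ℂ}

theorem y_cont (hF : Fl κ S y) {W : ℂ} (hW : W ∈ Hp) :
    ContinuousOn (fun x => y x W) (Icc 0 S) := fun s hs =>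
  (hF.ode W hW s hs).continuousWithinAt

theorem nu_cont (hD : Drv κ S) (hF : Fl κ S y) {W : ℂ} (hW : W ∈ Hp) :
    ContinuousOn (fun x => nu κ y x W) (Icc 0 S) := by
  unfold nu
  exact (y_cont hF hW).sub (continuousOn_const.mul
    (Complex.continuous_ofReal.comp hD.c1.continuous).continuousOn)

theorem nu_re (κ : ℝ → ℝ) (y : ℝ → ℂ → ℂ) (x : ℝ) (W : ℂ) : (nu κ y x W).re = (y x W).re := by
  unfold nu; simp

theorem nu_ne (hF : Fl κ S y) {W : ℂ} (hW : W ∈ Hp) {x : ℝ} (hx : x ∈ Icc (0 : ℝ) S) :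
    nu κ y x W ≠ 0 := by
  intro h
  have h1 := hF.pos x hx W hW
  rw [← nu_re κ, h] at h1
  simp at h1

theorem y_ne (hF : Fl κ S y) {W : ℂ} (hW : W ∈ Hp) {x : ℝ} (hx : x ∈ Icc (0 : ℝ) S) :
    y x W ≠ 0 := by
  intro h
  have h1 := hF.pos x hx W hW
  rw [h] at h1
  simp at h1

theorem F_cont (hD : Drv κ S) (hF : Fl κ S y) {W : ℂ} (hW : W ∈ Hp) :
    ContinuousOn (fun x => (κ x : ℂ) / (nu κ y x W ^ 2 * y x W)) (Icc 0 S) := by
  refine ContinuousOn.div (Complex.continuous_ofReal.comp hD.c1.continuous).continuousOn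
    (((nu_cont hD hF hW).pow 2).mul (y_cont hF hW)) fun x hx => ?_
  exact mul_ne_zero (pow_ne_zero 2 (nu_ne hF hW hx)) (y_ne hF hW hx)

/-- bounds for `ν` when `4 |W| ≤ e^x` -/
theorem nu_low (hNu : FlNu) (hD : Drv κ S) (hF : Fl κ S y) {W : ℂ} (hW : W ∈ Hp) {x : ℝ}
    (hx : x ∈ Icc (0 : ℝ) S) (h4 : 4 * ‖W‖ ≤ Real.exp x) :
    93 / 100 ≤ ‖nu κ y x W ^ 2‖ ∧ 96 / 100 ≤ ‖nu κ y x W‖ := by
  have h1 := (hNu κ S y hD hF x hx W hW).2
  have he : 0 < Real.exp x := Real.exp_pos x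
  have hr : ‖W‖ / Real.exp x ≤ 1 / 4 := by
    rw [div_le_iff₀ he]; linarith
  have hr0 : 0 ≤ ‖W‖ / Real.exp x := by positivity
  have h2 : ‖W ^ 2 / (Real.exp x : ℂ) ^ 2‖ ≤ 1 / 16 := by
    rw [norm_div, norm_pow, norm_pow, Complex.norm_real, Real.norm_of_nonneg he.le, ← div_pow]
    calc (‖W‖ / Real.exp x) ^ 2 ≤ (1 / 4) ^ 2 := pow_le_pow_left₀ hr0 hr 2
      _ = 1 / 16 := by norm_num
  have h3 : ‖nu κ y x W ^ 2 - (1 + W ^ 2 / (Real.exp x : ℂ) ^ 2)‖ ≤ 5 / 1000 * (1 + 1 / 4) :=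
    h1.trans (by gcongr)
  have h4 : (1 : ℝ) ≤ ‖nu κ y x W ^ 2‖ + ‖nu κ y x W ^ 2 - (1 + W ^ 2 / (Real.exp x : ℂ) ^ 2)‖ +
      ‖W ^ 2 / (Real.exp x : ℂ) ^ 2‖ := by
    have h5 : (1 : ℂ) = nu κ y x W ^ 2 - (nu κ y x W ^ 2 - (1 + W ^ 2 / (Real.exp x : ℂ) ^ 2)) -
      W ^ 2 / (Real.exp x : ℂ) ^ 2 := by ring
    calc (1 : ℝ) = ‖(1 : ℂ)‖ := by simp
      _ = ‖nu κ y x W ^ 2 - (nu κ y x W ^ 2 - (1 + W ^ 2 / (Real.exp x : ℂ) ^ 2)) -
          W ^ 2 / (Real.exp x : ℂ) ^ 2‖ := by rw [← h5]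
      _ ≤ _ := (norm_sub_le _ _).trans (add_le_add (norm_sub_le _ _) le_rfl)
  have h6 : 93 / 100 ≤ ‖nu κ y x W ^ 2‖ := by linarith
  refine ⟨h6, ?_⟩
  rw [norm_pow] at h6
  by_contra hlt
  push Not at hlt
  have h7 : ‖nu κ y x W‖ ^ 2 ≤ (96 / 100) ^ 2 := pow_le_pow_left₀ (norm_nonneg _) hlt.le 2
  norm_num at h7
  linarith

theorem kap_le (hD : Drv κ S) (x : ℝ) : ‖(κ x : ℂ)‖ ≤ 1 / 1000 := by
  rw [Complex.norm_real, Real.norm_eq_abs]; exact hD.b0 x

theorem y_low (hNu : FlNu) (hD : Drv κ S) (hF : Fl κ S y) {W : ℂ} (hW : W ∈ Hp) {x : ℝ}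
    (hx : x ∈ Icc (0 : ℝ) S) (h4 : 4 * ‖W‖ ≤ Real.exp x) : 95 / 100 ≤ ‖y x W‖ := by
  have h1 := (nu_low hNu hD hF hW hx h4).2
  have h2 : ‖nu κ y x W‖ ≤ ‖y x W‖ + ‖(κ x : ℂ)‖ := by
    unfold nu
    refine (norm_sub_le _ _).trans ?_
    rw [norm_mul, Complex.norm_I, one_mul]
  have h3 := kap_le hD x
  linarith

theorem F_le (hNu : FlNu) (hD : Drv κ S) (hF : Fl κ S y) {W : ℂ} (hW : W ∈ Hp) {x : ℝ}
    (hx : x ∈ Icc (0 : ℝ) S) (h4 : 4 * ‖W‖ ≤ Real.exp x) :
    ‖(κ x : ℂ) / (nu κ y x W ^ 2 * y x W)‖ ≤ 1 / 2 := by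
  have h1 := (nu_low hNu hD hF hW hx h4).1
  have h2 := y_low hNu hD hF hW hx h4
  have h3 := kap_le hD x
  rw [norm_div, norm_mul]
  have h5 : (93 / 100 : ℝ) * (95 / 100) ≤ ‖nu κ y x W ^ 2‖ * ‖y x W‖ :=
    mul_le_mul h1 h2 (by norm_num) (norm_nonneg _)
  rw [div_le_iff₀ (by linarith)]
  linarith

/-- the value at the time `s₀` -/
theorem G_start (hNu : FlNu) (hN1 : FlN1) (hD : Drv κ S) (hF : Fl κ S y) {W : ℂ} (hW : W ∈ Hp)
    {x : ℝ} (hx : x ∈ Icc (0 : ℝ) S) (h4 : Real.exp x = 4 * ‖W‖) :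
    ‖nn κ y x W * y x W / nu κ y x W‖ ≤ 2 := by
  have h1 := (nu_low hNu hD hF hW hx h4.ge).2
  have h2 := hN1 κ S y hD hF x hx W hW h4.le
  have h3 := kap_le hD x
  have hne := nu_ne hF hW hx
  have h5 : ‖nn κ y x W‖ ≤ 3 / 2 := by
    calc ‖nn κ y x W‖ = ‖(nn κ y x W - 1) + 1‖ := by rw [sub_add_cancel]
      _ ≤ ‖nn κ y x W - 1‖ + ‖(1 : ℂ)‖ := norm_add_le _ _
      _ ≤ 1 / 2 + 1 := by rw [norm_one]; linarith
      _ = 3 / 2 := by norm_num
  have h6 : y x W / nu κ y x W = 1 + I * (κ x : ℂ) / nu κ y x W := by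
    have : y x W = nu κ y x W + I * (κ x : ℂ) := by unfold nu; ring
    rw [div_eq_iff hne, add_mul, one_mul, div_mul_cancel₀ _ hne, ← this]
  have h7 : ‖y x W / nu κ y x W‖ ≤ 4 / 3 := by
    rw [h6]
    refine (norm_add_le _ _).trans ?_
    rw [norm_one, norm_div, norm_mul, Complex.norm_I, one_mul]
    have : ‖(κ x : ℂ)‖ / ‖nu κ y x W‖ ≤ 1 / 3 := by
      rw [div_le_iff₀ (by linarith)]; linarith
    linarith
  rw [mul_div_assoc, norm_mul]
  calc ‖nn κ y x W‖ * ‖y x W / nu κ y x W‖ ≤ (3 / 2) * (4 / 3) :=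
        mul_le_mul h5 h7 (norm_nonneg _) (by norm_num)
    _ = 2 := by norm_num

end FlGrX

theorem prfFlGr (hX : FlX) (hNu : FlNu) (hN1 : FlN1) : FlGr := by
  intro κ S y hD hF s hs W hW h4
  have hm1 : (1 : ℝ) ≤ max 1 (4 * ‖W‖) := le_max_left _ _
  have hm0 : (0 : ℝ) < max 1 (4 * ‖W‖) := lt_of_lt_of_le one_pos hm1
  set m : ℝ := max 1 (4 * ‖W‖) with hm
  set s₀ : ℝ := Real.log m with hs₀
  have hexp : Real.exp s₀ = m := Real.exp_log hm0
  have h0 : 0 ≤ s₀ := Real.log_nonneg hm1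
  have hms : m ≤ Real.exp s := max_le (Real.one_le_exp hs.1) h4
  have hs0s : s₀ ≤ s := by
    rw [← Real.exp_le_exp, hexp]; exact hms
  have hs₀S : s₀ ∈ Icc (0 : ℝ) S := ⟨h0, hs0s.trans hs.2⟩
  have h4' : 4 * ‖W‖ ≤ Real.exp s₀ := by rw [hexp]; exact le_max_right _ _
  have hG := (hX κ S y hD hF s hs W hW).2.2
  have hG0 := (hX κ S y hD hF s₀ hs₀S W hW).2.2
  set F : ℝ → ℂ := fun x => (κ x : ℂ) / (nu κ y x W ^ 2 * y x W) with hFdef
  have hcont : ContinuousOn F (Icc 0 S) := FlGrX.F_cont hD hF hW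
  have hI1 : IntervalIntegrable F volume 0 s₀ :=
    (hcont.mono (by rw [uIcc_of_le h0]; exact Icc_subset_Icc le_rfl hs₀S.2)).intervalIntegrable
  have hI2 : IntervalIntegrable F volume s₀ s :=
    (hcont.mono (by rw [uIcc_of_le hs0s]; exact Icc_subset_Icc h0 hs.2)).intervalIntegrable
  have hsplit : ∫ x in (0 : ℝ)..s, F x = (∫ x in (0 : ℝ)..s₀, F x) + ∫ x in s₀..s, F x :=
    (intervalIntegral.integral_add_adjacent_intervals hI1 hI2).symm
  have hbd : ‖∫ x in s₀..s, F x‖ ≤ 1 / 2 * (s - s₀) := by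
    have := intervalIntegral.norm_integral_le_of_norm_le_const (a := s₀) (b := s) (f := F)
      (C := 1 / 2) (fun x hx => by
        rw [uIoc_of_le hs0s] at hx
        refine FlGrX.F_le hNu hD hF hW ⟨h0.trans hx.1.le, hx.2.trans hs.2⟩ ?_
        exact h4'.trans (Real.exp_le_exp.2 hx.1.le))
    rwa [abs_of_nonneg (by linarith)] at this
  have hstart : ‖nn κ y s₀ W * y s₀ W / nu κ y s₀ W‖ ≤ 2 := by
    rcases le_total (4 * ‖W‖) 1 with h | h
    · have hs00 : s₀ = 0 := by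
        rw [hs₀, hm, max_eq_left h, Real.log_one]
      rw [hG0, hs00]
      simp
    · exact FlGrX.G_start hNu hN1 hD hF hW hs₀S (by rw [hexp, hm, max_eq_right h])
  have hprod : nn κ y s W * y s W / nu κ y s W = (nn κ y s₀ W * y s₀ W / nu κ y s₀ W) *
      Complex.exp (-I * ∫ x in s₀..s, F x) := by
    rw [hG, hG0, ← Complex.exp_add, ← mul_add, ← hsplit]
  have hexp2 : ‖Complex.exp (-I * ∫ x in s₀..s, F x)‖ ≤ Real.exp ((s - s₀) / 2) := by
    rw [Complex.norm_exp]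
    apply Real.exp_le_exp.2
    calc (-I * ∫ x in s₀..s, F x).re ≤ ‖-I * ∫ x in s₀..s, F x‖ := Complex.re_le_norm _
      _ = ‖∫ x in s₀..s, F x‖ := by rw [norm_mul, norm_neg, Complex.norm_I, one_mul]
      _ ≤ (s - s₀) / 2 := by linarith
  have hsq : Real.exp ((s - s₀) / 2) ≤ Real.sqrt (Real.exp s / max 1 ‖W‖) := by
    rw [Real.exp_half]
    apply Real.sqrt_le_sqrt
    rw [Real.exp_sub, hexp]
    have h1 : max 1 ‖W‖ ≤ m := max_le_max le_rfl (by linarith [norm_nonneg W])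
    have h2 : (0 : ℝ) < max 1 ‖W‖ := lt_of_lt_of_le one_pos (le_max_left _ _)
    exact div_le_div_of_nonneg_left (Real.exp_pos s).le h2 h1
  rw [hprod, norm_mul]
  exact mul_le_mul hstart (hexp2.trans hsq) (norm_nonneg _) (by norm_num)

end Pool.Agent.MultS.LB

end

section

/-!
# [F3] Injectivity, joint continuity and holomorphy of the flow
-/

set_option autoImplicit false

open Complex Metric Set Filter Topology MeasureTheory
open Pool.Agent.MultS.Lip

namespace Pool.Agent.MultS.LB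

namespace FlHolX

theorem isOpen_Hp : IsOpen Hp := isOpen_lt continuous_const Complex.continuous_re

section zero

variable {κ : ℝ → ℝ} {S : ℝ} {y : ℝ → ℂ → ℂ}

theorem re0 (hS : 0 ≤ S) (hF : Fl κ S y) {W : ℂ} (hW : W ∈ Hp) : 0 < (y 0 W).re :=
  hF.pos 0 ⟨le_refl _, hS⟩ W hW

theorem diff0 (hF : Fl κ S y) {W W' : ℂ} (hW : W ∈ Hp) (hW' : W' ∈ Hp) :
    (y 0 W' - y 0 W) * (y 0 W' + y 0 W) = (W' - W) * (W' + W) := by
  have h1 := hF.ini W hW
  have h2 := hF.ini W' hW'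
  linear_combination h2 - h1

theorem inj0 (hF : Fl κ S y) {W W' : ℂ} (hW : W ∈ Hp) (hW' : W' ∈ Hp)
    (h : y 0 W' = y 0 W) : W' = W := by
  have h1 := diff0 hF hW hW'
  rw [h, sub_self, zero_mul] at h1
  rcases mul_eq_zero.1 h1.symm with h2 | h2
  · exact sub_eq_zero.1 h2
  · exfalso
    have h3 : (W' + W).re = 0 := by rw [h2]; simp
    have h4 : 0 < W.re := hW
    have h5 : 0 < W'.re := hW'
    rw [Complex.add_re] at h3
    linarith

theorem sum_ne (hS : 0 ≤ S) (hF : Fl κ S y) {W W' : ℂ} (hW : W ∈ Hp) (hW' : W' ∈ Hp) :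
    (y 0 W).re ≤ ‖y 0 W' + y 0 W‖ := by
  have h1 := re0 hS hF hW
  have h2 := re0 hS hF hW'
  calc (y 0 W).re ≤ (y 0 W' + y 0 W).re := by rw [Complex.add_re]; linarith
    _ ≤ ‖y 0 W' + y 0 W‖ := Complex.re_le_norm _

theorem cont0 (hS : 0 ≤ S) (hF : Fl κ S y) {W : ℂ} (hW : W ∈ Hp) : ContinuousAt (y 0) W := by
  have hr := re0 hS hF hW
  have hlim : Tendsto (fun W' : ℂ => ‖(W' - W) * (W' + W)‖ / (y 0 W).re) (𝓝 W) (𝓝 0) := by
    have h1 : ContinuousAt (fun W' : ℂ => ‖(W' - W) * (W' + W)‖ / (y 0 W).re) W := by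
      fun_prop
    have h2 := h1.tendsto
    simpa using h2
  rw [ContinuousAt, tendsto_iff_norm_sub_tendsto_zero]
  refine squeeze_zero' (Eventually.of_forall fun _ => norm_nonneg _) ?_ hlim
  filter_upwards [isOpen_Hp.mem_nhds hW] with W' hW'
  rw [le_div_iff₀ hr, ← diff0 hF hW hW', norm_mul]
  exact mul_le_mul_of_nonneg_left (sum_ne hS hF hW hW') (norm_nonneg _)

theorem der0 (hS : 0 ≤ S) (hF : Fl κ S y) {W : ℂ} (hW : W ∈ Hp) :
    HasDerivAt (y 0) (W / y 0 W) W := by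
  have hr := re0 hS hF hW
  have hy0 : y 0 W ≠ 0 := by
    intro h; rw [h] at hr; simp at hr
  rw [hasDerivAt_iff_tendsto_slope]
  have hlim : Tendsto (fun W' : ℂ => (W' + W) / (y 0 W' + y 0 W)) (𝓝[≠] W) (𝓝 (W / y 0 W)) := by
    have h1 : ContinuousAt (fun W' : ℂ => (W' + W) / (y 0 W' + y 0 W)) W := by
      apply ContinuousAt.div
      · fun_prop
      · exact (cont0 hS hF hW).add continuousAt_const
      · rw [← two_mul]; simp [hy0]
    have h2 := h1.tendsto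
    have h3 : (W + W) / (y 0 W + y 0 W) = W / y 0 W := by
      rw [← two_mul, ← two_mul, mul_div_mul_left _ _ (two_ne_zero)]
    rw [h3] at h2
    exact h2.mono_left nhdsWithin_le_nhds
  refine hlim.congr' ?_
  have hev : ∀ᶠ W' in 𝓝[≠] W, W' ∈ Hp :=
    nhdsWithin_le_nhds (isOpen_Hp.mem_nhds hW)
  filter_upwards [hev, self_mem_nhdsWithin] with W' hW' hne
  have hne' : W' - W ≠ 0 := sub_ne_zero.2 hne
  have hs : y 0 W' + y 0 W ≠ 0 := by
    have := sum_ne hS hF hW hW'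
    intro h; rw [h, norm_zero] at this; linarith
  rw [slope_def_field, div_eq_div_iff hs hne']
  linear_combination -diff0 hF hW hW'

end zero

section flow

variable {κ : ℝ → ℝ} {S : ℝ} {y : ℝ → ℂ → ℂ}

theorem cont_s (hF : Fl κ S y) {W : ℂ} (hW : W ∈ Hp) : ContinuousOn (fun s => y s W) (Icc 0 S) :=
  fun s hs => (hF.ode W hW s hs).continuousWithinAt

theorem cont_nu (hκ : Continuous κ) (hF : Fl κ S y) {W : ℂ} (hW : W ∈ Hp) :
    ContinuousOn (fun s => nu κ y s W) (Icc 0 S) := by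
  unfold nu
  apply (cont_s hF hW).sub
  exact (continuous_const.mul (Complex.continuous_ofReal.comp hκ)).continuousOn

theorem re_nu (s : ℝ) (W : ℂ) : (nu κ y s W).re = (y s W).re := by simp [nu]

theorem nu_ne (hF : Fl κ S y) {W : ℂ} (hW : W ∈ Hp) {s : ℝ} (hs : s ∈ Icc 0 S) :
    nu κ y s W ≠ 0 := by
  intro h
  have h1 := hF.pos s hs W hW
  rw [← re_nu (κ := κ), h] at h1
  simp at h1

theorem low (hκ : Continuous κ) (hS : 0 ≤ S) (hF : Fl κ S y) (hD : FlDiff) {W : ℂ} (hW : W ∈ Hp)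
    {e : ℝ} (he : e ≤ (y 0 W).re) (he0 : 0 ≤ e) {s : ℝ} (hs : s ∈ Icc 0 S) :
    Real.exp (-S) * e ≤ ‖nu κ y s W‖ := by
  have h1 := (hD κ S y hκ hS hF).1 W hW s hs
  have h2 : Real.exp (-s) * (y 0 W).re ≤ (y s W).re := by
    have h3 := mul_le_mul_of_nonneg_left h1 (Real.exp_pos (-s)).le
    rw [← mul_assoc, ← Real.exp_add, neg_add_cancel, Real.exp_zero, one_mul] at h3
    exact h3
  have h4 : Real.exp (-S) ≤ Real.exp (-s) := Real.exp_le_exp.2 (by linarith [hs.2])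
  calc Real.exp (-S) * e ≤ Real.exp (-s) * (y 0 W).re :=
        mul_le_mul h4 he he0 (Real.exp_pos _).le
    _ ≤ (y s W).re := h2
    _ = (nu κ y s W).re := (re_nu s W).symm
    _ ≤ ‖nu κ y s W‖ := Complex.re_le_norm _

/-- the local Lipschitz bound, uniform in `s` -/
theorem lip (hκ : Continuous κ) (hS : 0 ≤ S) (hF : Fl κ S y) (hD : FlDiff) {W₀ : ℂ}
    (hW₀ : W₀ ∈ Hp) : ∃ (ε K : ℝ), 0 < ε ∧ 0 ≤ K ∧ ∀ᶠ W in 𝓝 W₀, W ∈ Hp ∧
      (∀ s ∈ Icc 0 S, ε ≤ ‖nu κ y s W‖) ∧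
      ∀ s ∈ Icc 0 S, ‖y s W - y s W₀‖ ≤ K * ‖y 0 W - y 0 W₀‖ := by
  have hr := re0 hS hF hW₀
  set e : ℝ := (y 0 W₀).re / 2 with he
  have he0 : 0 < e := by positivity
  set ε : ℝ := Real.exp (-S) * e with hε
  have hε0 : 0 < ε := by positivity
  refine ⟨ε, Real.exp (1 / (ε * ε) * S), hε0, (Real.exp_pos _).le, ?_⟩
  have hev : ∀ᶠ W in 𝓝 W₀, e < (y 0 W).re := by
    have h1 : ContinuousAt (fun W => (y 0 W).re) W₀ :=
      Complex.continuous_re.continuousAt.comp (cont0 hS hF hW₀)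
    exact h1.eventually (lt_mem_nhds (by rw [he]; linarith))
  filter_upwards [hev, isOpen_Hp.mem_nhds hW₀] with W hWe hW
  have hl : ∀ s ∈ Icc 0 S, ε ≤ ‖nu κ y s W‖ := fun s hs => low hκ hS hF hD hW hWe.le he0.le hs
  have hl0 : ∀ s ∈ Icc 0 S, ε ≤ ‖nu κ y s W₀‖ := fun s hs =>
    low hκ hS hF hD hW₀ (by rw [he]; linarith) he0.le hs
  refine ⟨hW, hl, ?_⟩
  intro s hs
  have h2 := (hD κ S y hκ hS hF).2 W hW W₀ hW₀ s hs
  have h3 : ‖∫ x in (0 : ℝ)..s, 1 / (nu κ y x W * nu κ y x W₀)‖ ≤ 1 / (ε * ε) * S := by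
    have h4 : ‖∫ x in (0 : ℝ)..s, 1 / (nu κ y x W * nu κ y x W₀)‖ ≤ 1 / (ε * ε) * |s - 0| := by
      apply intervalIntegral.norm_integral_le_of_norm_le_const
      intro x hx
      rw [uIoc_of_le hs.1] at hx
      have hxm : x ∈ Icc 0 S := ⟨hx.1.le, hx.2.trans hs.2⟩
      rw [norm_div, norm_one, norm_mul]
      apply one_div_le_one_div_of_le (by positivity)
      exact mul_le_mul (hl x hxm) (hl0 x hxm) hε0.le (hε0.le.trans (hl x hxm))
    rw [sub_zero, abs_of_nonneg hs.1] at h4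
    exact h4.trans (mul_le_mul_of_nonneg_left hs.2 (by positivity))
  have h5 : ‖Complex.exp (-∫ x in (0 : ℝ)..s, 1 / (nu κ y x W * nu κ y x W₀))‖ ≤
      Real.exp (1 / (ε * ε) * S) := by
    rw [Complex.norm_exp]
    apply Real.exp_le_exp.2
    calc _ ≤ ‖-∫ x in (0 : ℝ)..s, 1 / (nu κ y x W * nu κ y x W₀)‖ := Complex.re_le_norm _
      _ = ‖∫ x in (0 : ℝ)..s, 1 / (nu κ y x W * nu κ y x W₀)‖ := norm_neg _
      _ ≤ _ := h3
  have h6 : ‖(Real.exp s : ℂ) * (y s W - y s W₀)‖ = Real.exp s * ‖y s W - y s W₀‖ := by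
    rw [norm_mul, Complex.norm_real, Real.norm_eq_abs, abs_of_pos (Real.exp_pos _)]
  have h7 : 1 * ‖y s W - y s W₀‖ ≤ Real.exp s * ‖y s W - y s W₀‖ :=
    mul_le_mul_of_nonneg_right (Real.one_le_exp hs.1) (norm_nonneg _)
  rw [one_mul, ← h6, h2, norm_mul] at h7
  calc ‖y s W - y s W₀‖ ≤ _ := h7
    _ ≤ ‖y 0 W - y 0 W₀‖ * Real.exp (1 / (ε * ε) * S) :=
        mul_le_mul_of_nonneg_left h5 (norm_nonneg _)
    _ = _ := mul_comm _ _

theorem lim_y (hκ : Continuous κ) (hS : 0 ≤ S) (hF : Fl κ S y) (hD : FlDiff) {W₀ : ℂ}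
    (hW₀ : W₀ ∈ Hp) {s : ℝ} (hs : s ∈ Icc 0 S) : ContinuousAt (y s) W₀ := by
  obtain ⟨ε, K, hε, hK, hev⟩ := lip hκ hS hF hD hW₀
  have hlim : Tendsto (fun W : ℂ => K * ‖y 0 W - y 0 W₀‖) (𝓝 W₀) (𝓝 0) := by
    have h1 := (tendsto_iff_norm_sub_tendsto_zero.1 (cont0 hS hF hW₀).tendsto).const_mul K
    rwa [mul_zero] at h1
  rw [ContinuousAt, tendsto_iff_norm_sub_tendsto_zero]
  refine squeeze_zero' (Eventually.of_forall fun _ => norm_nonneg _) ?_ hlim
  filter_upwards [hev] with W hW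
  exact hW.2.2 s hs

theorem lim_int (hκ : Continuous κ) (hS : 0 ≤ S) (hF : Fl κ S y) (hD : FlDiff) {W₀ : ℂ}
    (hW₀ : W₀ ∈ Hp) {s : ℝ} (hs : s ∈ Icc 0 S) :
    Tendsto (fun W => ∫ x in (0 : ℝ)..s, 1 / (nu κ y x W * nu κ y x W₀)) (𝓝 W₀)
      (𝓝 (∫ x in (0 : ℝ)..s, 1 / nu κ y x W₀ ^ 2)) := by
  obtain ⟨ε, K, hε, hK, hev⟩ := lip hκ hS hF hD hW₀
  have hW0s := hev.self_of_nhds
  apply intervalIntegral.tendsto_integral_filter_of_dominated_convergence
    (fun _ => 1 / (ε * ε))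
  · filter_upwards [hev] with W hW
    have hc : ContinuousOn (fun x => 1 / (nu κ y x W * nu κ y x W₀)) (Icc 0 S) := by
      apply ContinuousOn.div continuousOn_const
        ((cont_nu hκ hF hW.1).mul (cont_nu hκ hF hW₀))
      intro x hx
      exact mul_ne_zero (nu_ne hF hW.1 hx) (nu_ne hF hW₀ hx)
    have hc' : ContinuousOn (fun x => 1 / (nu κ y x W * nu κ y x W₀)) (uIoc 0 s) := by
      apply hc.mono
      intro x hx
      rw [uIoc_of_le hs.1] at hx
      exact ⟨hx.1.le, hx.2.trans hs.2⟩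
    exact hc'.aestronglyMeasurable measurableSet_uIoc
  · filter_upwards [hev] with W hW
    refine Eventually.of_forall fun x hx => ?_
    rw [uIoc_of_le hs.1] at hx
    have hxm : x ∈ Icc 0 S := ⟨hx.1.le, hx.2.trans hs.2⟩
    rw [norm_div, norm_one, norm_mul]
    apply one_div_le_one_div_of_le (by positivity)
    exact mul_le_mul (hW.2.1 x hxm) (hW0s.2.1 x hxm) hε.le (hε.le.trans (hW.2.1 x hxm))
  · exact intervalIntegrable_const
  · refine Eventually.of_forall fun x hx => ?_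
    rw [uIoc_of_le hs.1] at hx
    have hxm : x ∈ Icc 0 S := ⟨hx.1.le, hx.2.trans hs.2⟩
    have h1 : ContinuousAt (fun W => 1 / (nu κ y x W * nu κ y x W₀)) W₀ := by
      apply ContinuousAt.div continuousAt_const
      · apply ContinuousAt.mul _ continuousAt_const
        unfold nu
        exact (lim_y hκ hS hF hD hW₀ hxm).sub continuousAt_const
      · exact mul_ne_zero (nu_ne hF hW₀ hxm) (nu_ne hF hW₀ hxm)
    have h2 := h1.tendsto
    rw [← sq] at h2
    exact h2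

end flow

end FlHolX

open FlHolX

theorem prfFlHol (hD : FlDiff) : FlHol := by
  intro κ S y hκ hS hF
  constructor
  · rintro ⟨s₀, W₀⟩ ⟨hs₀, hW₀⟩
    simp only at hs₀ hW₀
    obtain ⟨ε, K, hε, hK, hev⟩ := lip hκ hS hF hD hW₀
    rw [ContinuousWithinAt, tendsto_iff_norm_sub_tendsto_zero]
    have hA : Tendsto (fun p : ℝ × ℂ => K * ‖y 0 p.2 - y 0 W₀‖)
        (𝓝[Icc 0 S ×ˢ Hp] (s₀, W₀)) (𝓝 0) := by
      have h1 := (tendsto_iff_norm_sub_tendsto_zero.1 (cont0 hS hF hW₀).tendsto).const_mul K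
      rw [mul_zero] at h1
      exact h1.comp ((continuous_snd.tendsto (s₀, W₀)).mono_left nhdsWithin_le_nhds)
    have hB : Tendsto (fun p : ℝ × ℂ => ‖y p.1 W₀ - y s₀ W₀‖)
        (𝓝[Icc 0 S ×ˢ Hp] (s₀, W₀)) (𝓝 0) := by
      have h1 := tendsto_iff_norm_sub_tendsto_zero.1 (cont_s hF hW₀ s₀ hs₀).tendsto
      refine h1.comp ?_
      rw [nhdsWithin_prod_eq]
      exact tendsto_fst
    have hAB := hA.add hB
    rw [add_zero] at hAB
    refine squeeze_zero' (Eventually.of_forall fun _ => norm_nonneg _) ?_ hAB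
    have hev2 : ∀ᶠ p : ℝ × ℂ in 𝓝[Icc 0 S ×ˢ Hp] (s₀, W₀), p.2 ∈ Hp ∧
        (∀ s ∈ Icc 0 S, ε ≤ ‖nu κ y s p.2‖) ∧
        ∀ s ∈ Icc 0 S, ‖y s p.2 - y s W₀‖ ≤ K * ‖y 0 p.2 - y 0 W₀‖ :=
      ((continuous_snd.tendsto (s₀, W₀)).mono_left nhdsWithin_le_nhds).eventually hev
    filter_upwards [hev2, self_mem_nhdsWithin] with p hp hmem
    calc ‖y p.1 p.2 - y s₀ W₀‖ = ‖(y p.1 p.2 - y p.1 W₀) + (y p.1 W₀ - y s₀ W₀)‖ := by
          congr 1; ring
      _ ≤ ‖y p.1 p.2 - y p.1 W₀‖ + ‖y p.1 W₀ - y s₀ W₀‖ := norm_add_le _ _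
      _ ≤ _ := by
        have := hp.2.2 p.1 hmem.1
        linarith
  · intro s hs
    have hform := (hD κ S y hκ hS hF).2
    constructor
    · intro W hW W' hW' h
      have h1 := hform W hW W' hW' s hs
      rw [h, sub_self, mul_zero] at h1
      rcases mul_eq_zero.1 h1.symm with h2 | h2
      · exact inj0 hF hW' hW (sub_eq_zero.1 h2)
      · exact absurd h2 (Complex.exp_ne_zero _)
    · intro W hW
      rw [hasDerivAt_iff_tendsto_slope]
      have h0 := hasDerivAt_iff_tendsto_slope.1 (der0 hS hF hW)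
      have hI : Tendsto (fun W' => Complex.exp
          (-∫ x in (0 : ℝ)..s, 1 / (nu κ y x W' * nu κ y x W))) (𝓝[≠] W)
          (𝓝 (Complex.exp (-∫ x in (0 : ℝ)..s, 1 / nu κ y x W ^ 2))) :=
        (Complex.continuous_exp.tendsto _).comp
          ((lim_int hκ hS hF hD hW hs).neg.mono_left nhdsWithin_le_nhds)
      have hT := h0.mul (hI.const_mul ((Real.exp (-s) : ℝ) : ℂ))
      refine hT.congr' ?_
      have hev : ∀ᶠ W' in 𝓝[≠] W, W' ∈ Hp :=
        nhdsWithin_le_nhds (isOpen_Hp.mem_nhds hW)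
      filter_upwards [hev, self_mem_nhdsWithin] with W' hW' hne
      have h1 := hform W' hW' W hW s hs
      have hexp : ((Real.exp (-s) : ℝ) : ℂ) * ((Real.exp s : ℝ) : ℂ) = 1 := by
        rw [← Complex.ofReal_mul, ← Real.exp_add, neg_add_cancel, Real.exp_zero,
          Complex.ofReal_one]
      have h2 : y s W' - y s W = ((Real.exp (-s) : ℝ) : ℂ) * ((y 0 W' - y 0 W) *
          Complex.exp (-∫ x in (0 : ℝ)..s, 1 / (nu κ y x W' * nu κ y x W))) := by
        rw [← h1, ← mul_assoc, hexp, one_mul]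
      rw [slope_def_field, slope_def_field, h2]
      ring

end Pool.Agent.MultS.LB

end

section

/-!
# FlInt: the integral of `1/|ν|` up to the time `R = 4|W|`

Proof (different from the docstring of `FlInt`): let `u = Re ν`, `v = Im ν`, `f = |ν|`,
`g = (u² - v²)/f = 2u²/f - f`.  As `ν' = 1/ν - ν - iμ`, with `c = u²/f² ∈ [0,1]`
`g' = (1 + 4c - 4c²)/f + (1-2c) f + (1+2c) μ v/f ≥ 1/f - f - 3|μ|`.  As `|g| ≤ f ≤ 1.004 (1+|W|/e^x)`
this gives the bound on the part `|W| ≤ 2 e^x`; on the part `|W| ≥ 2 e^x` `f ≥ |W|/(2e^x)`.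
-/

set_option autoImplicit false

open Complex Metric Set Filter Topology MeasureTheory
open Pool.Agent.MultS.Lip

namespace Pool.Agent.MultS.LB

namespace FlIntX

/-- the equation for `ν` -/
theorem nu_deriv {κ : ℝ → ℝ} {S : ℝ} {y : ℝ → ℂ → ℂ} (hD : Drv κ S) (hF : Fl κ S y) {W : ℂ}
    (hW : W ∈ Hp) {x : ℝ} (hx : x ∈ Icc (0 : ℝ) S) :
    HasDerivWithinAt (fun x' : ℝ => nu κ y x' W)
      (1 / nu κ y x W - nu κ y x W - I * ((κ x + deriv κ x : ℝ) : ℂ)) (Icc 0 S) x := by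
  have h1 := hF.ode W hW x hx
  have h2 : HasDerivAt κ (deriv κ x) x :=
    ((hD.c1.differentiable (by norm_num)) x).hasDerivAt
  have h3 : HasDerivWithinAt (fun x' : ℝ => I * (κ x' : ℂ)) (I * ((deriv κ x : ℝ) : ℂ)) (Icc 0 S) x :=
    (h2.ofReal_comp.const_mul I).hasDerivWithinAt
  have h4 := h1.sub h3
  refine h4.congr_deriv ?_
  simp only [nu]
  push_cast
  ring

theorem nu_re_pos {κ : ℝ → ℝ} {S : ℝ} {y : ℝ → ℂ → ℂ} (hF : Fl κ S y) {W : ℂ}
    (hW : W ∈ Hp) {x : ℝ} (hx : x ∈ Icc (0 : ℝ) S) : 0 < (nu κ y x W).re := by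
  have := hF.pos x hx W hW
  simpa [nu] using this

/-- algebra -/
theorem alg {u v f m : ℝ} (hf : 0 < f) (hu : 0 < u) (huv : f ^ 2 = u ^ 2 + v ^ 2) :
    f⁻¹ - f - 3 * |m| ≤
      4 * u * (u / f ^ 2 - u) / f - 2 * u ^ 2 * ((u * (u / f ^ 2 - u) +
        v * (-v / f ^ 2 - v - m)) / f) / f ^ 2 - (u * (u / f ^ 2 - u) +
        v * (-v / f ^ 2 - v - m)) / f := by
  set c := u ^ 2 / f ^ 2 with hc
  have hf0 : f ≠ 0 := hf.ne'
  have hc0 : 0 ≤ c := by positivity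
  have hc1 : c ≤ 1 := by
    rw [hc, div_le_one (by positivity)]
    nlinarith [sq_nonneg v]
  have hu2 : u ^ 2 = c * f ^ 2 := by rw [hc]; field_simp
  have hv2 : v ^ 2 = (1 - c) * f ^ 2 := by nlinarith
  have hvf : |v| ≤ f := abs_le_of_sq_le_sq (by nlinarith [sq_nonneg u]) hf.le
  have e1 : u * (u / f ^ 2 - u) + v * (-v / f ^ 2 - v - m) = (2 * c - 1) - f ^ 2 - m * v := by
    have : u * (u / f ^ 2 - u) + v * (-v / f ^ 2 - v - m) =
      u ^ 2 / f ^ 2 - v ^ 2 / f ^ 2 - (u ^ 2 + v ^ 2) - m * v := by ring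
    rw [this, hu2, hv2]
    field_simp
    ring
  have e2 : 4 * u * (u / f ^ 2 - u) / f = (4 * c - 4 * c * f ^ 2) / f := by
    have : 4 * u * (u / f ^ 2 - u) = 4 * (u ^ 2 / f ^ 2) - 4 * u ^ 2 := by ring
    rw [this, hu2]
    field_simp
  rw [e1, e2]
  have e3 : (4 * c - 4 * c * f ^ 2) / f - 2 * u ^ 2 * ((2 * c - 1 - f ^ 2 - m * v) / f) / f ^ 2 -
      (2 * c - 1 - f ^ 2 - m * v) / f =
      (1 + 4 * c * (1 - c)) * f⁻¹ + (1 - 2 * c) * f + (1 + 2 * c) * (m * v * f⁻¹) := by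
    rw [hu2]
    field_simp
    ring
  rw [e3]
  have hfi : 0 < f⁻¹ := inv_pos.2 hf
  have h1 : f⁻¹ ≤ (1 + 4 * c * (1 - c)) * f⁻¹ := by
    have : 0 ≤ 4 * c * (1 - c) := by
      have := sub_nonneg.2 hc1
      positivity
    nlinarith
  have h2 : -f ≤ (1 - 2 * c) * f := by nlinarith
  have h3 : |m * v * f⁻¹| ≤ |m| := by
    rw [abs_mul, abs_mul, abs_of_pos hfi]
    have : |v| * f⁻¹ ≤ 1 := by
      rw [← div_eq_mul_inv, div_le_one hf]; exact hvf
    calc |m| * |v| * f⁻¹ = |m| * (|v| * f⁻¹) := by ring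
      _ ≤ |m| * 1 := by gcongr
      _ = |m| := by ring
  have h4 : -(3 * |m|) ≤ (1 + 2 * c) * (m * v * f⁻¹) := by
    have h5 := abs_le.1 h3
    have h6 := abs_nonneg m
    nlinarith [h5.1, h5.2]
  linarith

/-- the derivative of `g` -/
theorem g_deriv {ν : ℝ → ℂ} {x m : ℝ} (h0 : 0 < (ν x).re)
    (hν : HasDerivAt ν (1 / ν x - ν x - I * (m : ℂ)) x) :
    ∃ d : ℝ, HasDerivAt (fun t : ℝ => 2 * (ν t).re ^ 2 / ‖ν t‖ - ‖ν t‖) d x ∧
      ‖ν x‖⁻¹ - ‖ν x‖ - 3 * |m| ≤ d := by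
  set u := (ν x).re with hu
  set v := (ν x).im with hv
  set f := ‖ν x‖ with hf
  have hne : ν x ≠ 0 := by
    intro h
    rw [hu, h] at h0
    simp at h0
  have hf0 : 0 < f := norm_pos_iff.2 hne
  have hf2 : f ^ 2 = u ^ 2 + v ^ 2 := by
    rw [hf, ← Complex.normSq_eq_norm_sq, Complex.normSq_apply]; ring
  have hN : Complex.normSq (ν x) = f ^ 2 := by rw [hf, Complex.normSq_eq_norm_sq]
  -- real part
  have hre : HasDerivAt (fun t : ℝ => (ν t).re) (u / f ^ 2 - u) x := by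
    have h1 := Complex.reCLM.hasFDerivAt.comp_hasDerivAt x hν
    have h2 : reCLM (1 / ν x - ν x - I * (m : ℂ)) = u / f ^ 2 - u := by
      simp [hN, ← hu]
    rw [h2] at h1
    exact h1
  have him : HasDerivAt (fun t : ℝ => (ν t).im) (-v / f ^ 2 - v - m) x := by
    have h1 := Complex.imCLM.hasFDerivAt.comp_hasDerivAt x hν
    have h2 : imCLM (1 / ν x - ν x - I * (m : ℂ)) = -v / f ^ 2 - v - m := by
      simp [hN, ← hv]
    rw [h2] at h1
    exact h1
  have hsq : HasDerivAt (fun t : ℝ => (ν t).re ^ 2 + (ν t).im ^ 2)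
      (2 * (u * (u / f ^ 2 - u) + v * (-v / f ^ 2 - v - m))) x := by
    refine ((hre.pow 2).add (him.pow 2)).congr_deriv ?_
    simp only [← hu, ← hv]
    ring
  have hnf : ∀ t, ‖ν t‖ = Real.sqrt ((ν t).re ^ 2 + (ν t).im ^ 2) := by
    intro t
    rw [Complex.norm_def, Complex.normSq_apply]
    congr 1
    ring
  have hfd : HasDerivAt (fun t : ℝ => ‖ν t‖)
      ((u * (u / f ^ 2 - u) + v * (-v / f ^ 2 - v - m)) / f) x := by
    have h1 := hsq.sqrt (by
      show (ν x).re ^ 2 + (ν x).im ^ 2 ≠ 0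
      rw [← hu, ← hv, ← hf2]; positivity)
    have h2 : (fun t : ℝ => ‖ν t‖) = fun t => Real.sqrt ((ν t).re ^ 2 + (ν t).im ^ 2) :=
      funext hnf
    rw [h2]
    refine h1.congr_deriv ?_
    rw [← hnf x, ← hf]
    field_simp
  have hg := (((hre.pow 2).const_mul 2).div hfd hf0.ne').sub hfd
  have key : HasDerivAt (fun t : ℝ => 2 * (ν t).re ^ 2 / ‖ν t‖ - ‖ν t‖)
      (4 * u * (u / f ^ 2 - u) / f - 2 * u ^ 2 * ((u * (u / f ^ 2 - u) +
        v * (-v / f ^ 2 - v - m)) / f) / f ^ 2 - (u * (u / f ^ 2 - u) +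
        v * (-v / f ^ 2 - v - m)) / f) x := by
    refine HasDerivAt.congr_deriv (f := fun t : ℝ => 2 * (ν t).re ^ 2 / ‖ν t‖ - ‖ν t‖) hg ?_
    simp only [Pi.pow_apply, ← hu, ← hf]
    generalize (u * (u / f ^ 2 - u) + v * (-v / f ^ 2 - v - m)) / f = A
    generalize u / f ^ 2 - u = B
    field_simp
    push_cast
    ring
  exact ⟨_, key, alg hf0 h0 hf2⟩

/-- the bound for `g` -/
theorem g_abs {z : ℂ} (h : z ≠ 0) : |2 * z.re ^ 2 / ‖z‖ - ‖z‖| ≤ ‖z‖ := by
  have h0 : 0 < ‖z‖ := norm_pos_iff.2 h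
  have h1 : z.re ^ 2 ≤ ‖z‖ ^ 2 := by
    rw [← Complex.normSq_eq_norm_sq, Complex.normSq_apply]; nlinarith [sq_nonneg z.im]
  have h2 : 2 * z.re ^ 2 / ‖z‖ ≤ 2 * ‖z‖ := by
    rw [div_le_iff₀ h0]; nlinarith
  have h3 : 0 ≤ 2 * z.re ^ 2 / ‖z‖ := by positivity
  rw [abs_le]
  constructor <;> linarith

end FlIntX

open FlIntX

/-- FlInt -/
theorem prfFlInt (hNu : FlNu) : FlInt := by
  intro κ S y hD hF s hs W hW he
  set ν : ℝ → ℂ := fun x => nu κ y x W with hν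
  have hsS : s ≤ S := hs.2
  have hs0 : 0 ≤ s := hs.1
  have hsub : ∀ x ∈ Icc 0 s, x ∈ Icc (0 : ℝ) S := fun x hx => ⟨hx.1, hx.2.trans hsS⟩
  have hcont : ContinuousOn ν (Icc 0 S) := fun x hx => (nu_deriv hD hF hW hx).continuousWithinAt
  have hpos : ∀ x ∈ Icc (0 : ℝ) S, 0 < (ν x).re := fun x hx => nu_re_pos hF hW hx
  have hne : ∀ x ∈ Icc (0 : ℝ) S, ν x ≠ 0 := by
    intro x hx h
    have := hpos x hx
    rw [h] at this
    simp at this
  have hfpos : ∀ x ∈ Icc (0 : ℝ) S, 0 < ‖ν x‖ := fun x hx => norm_pos_iff.2 (hne x hx)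
  have hci : ContinuousOn (fun x => ‖ν x‖⁻¹) (Icc 0 S) :=
    hcont.norm.inv₀ fun x hx => (hfpos x hx).ne'
  have hw0 : 0 < ‖W‖ := by
    rw [norm_pos_iff]
    intro h
    have : 0 < W.re := hW
    rw [h] at this
    simp at this
  set w := ‖W‖ with hw
  have hup : ∀ x ∈ Icc (0 : ℝ) S, ‖ν x‖ ≤ (1 + 4 / 1000) * (1 + w * Real.exp (-x)) := by
    intro x hx
    have := (hNu κ S y hD hF x hx W hW).1
    have h2 : w * Real.exp (-x) = ‖W‖ / Real.exp x := by
      rw [Real.exp_neg, ← div_eq_mul_inv]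
    rw [h2]
    exact this
  have hlow : ∀ x ∈ Icc (0 : ℝ) S, 2 * Real.exp x ≤ w → ‖ν x‖⁻¹ ≤ 2 / w * Real.exp x := by
    intro x hx h2
    have h1 := (hNu κ S y hD hF x hx W hW).2
    set r := w / Real.exp x with hr
    have hex : 0 < Real.exp x := Real.exp_pos x
    have hr2 : 2 ≤ r := by rw [hr, le_div_iff₀ hex]; linarith
    have h3 : ‖W ^ 2 / (Real.exp x : ℂ) ^ 2‖ = r ^ 2 := by
      rw [norm_div, norm_pow, norm_pow, Complex.norm_real, Real.norm_of_nonneg hex.le, hr, div_pow]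
    have h4 : r ^ 2 ≤ ‖ν x‖ ^ 2 + 1 + 5 / 1000 * (1 + r) := by
      have h5 : W ^ 2 / (Real.exp x : ℂ) ^ 2 =
        nu κ y x W ^ 2 - (nu κ y x W ^ 2 - (1 + W ^ 2 / (Real.exp x : ℂ) ^ 2)) - 1 := by ring
      calc r ^ 2 = ‖nu κ y x W ^ 2 - (nu κ y x W ^ 2 - (1 + W ^ 2 / (Real.exp x : ℂ) ^ 2)) - 1‖ := by
            rw [← h5, h3]
        _ ≤ ‖nu κ y x W ^ 2‖ + ‖nu κ y x W ^ 2 - (1 + W ^ 2 / (Real.exp x : ℂ) ^ 2)‖ + ‖(1 : ℂ)‖ := by
            refine (norm_sub_le _ _).trans ?_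
            gcongr
            exact norm_sub_le _ _
        _ ≤ ‖ν x‖ ^ 2 + 1 + 5 / 1000 * (1 + r) := by
            rw [norm_pow, norm_one]
            have : ‖nu κ y x W‖ = ‖ν x‖ := rfl
            rw [this]
            linarith
    have h6 : (r / 2) ^ 2 ≤ ‖ν x‖ ^ 2 := by nlinarith
    have h7 : r / 2 ≤ ‖ν x‖ := by
      have := abs_le_of_sq_le_sq' h6 (norm_nonneg _)
      exact this.2
    have h8 : 2 / w * Real.exp x = (r / 2)⁻¹ := by
      rw [hr]
      field_simp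
    rw [h8]
    exact inv_anti₀ (by positivity) h7
  -- the intermediate time
  set x₀ : ℝ := max 0 (min s (Real.log (w / 2))) with hx₀
  have hx0 : 0 ≤ x₀ := le_max_left _ _
  have hx0s : x₀ ≤ s := max_le hs0 (min_le_left _ _)
  have hint : ∀ a b : ℝ, 0 ≤ a → a ≤ b → b ≤ s → IntegrableOn (fun x => ‖ν x‖⁻¹) (Icc a b) := by
    intro a b ha hab hb
    exact (hci.mono (Icc_subset_Icc ha (hb.trans hsS))).integrableOn_Icc
  have hinti : ∀ a b : ℝ, 0 ≤ a → a ≤ b → b ≤ s →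
      IntervalIntegrable (fun x => ‖ν x‖⁻¹) volume a b := by
    intro a b ha hab hb
    exact (intervalIntegrable_iff_integrableOn_Icc_of_le hab).2 (hint a b ha hab hb)
  rw [← intervalIntegral.integral_add_adjacent_intervals (hinti 0 x₀ le_rfl hx0 hx0s)
    (hinti x₀ s hx0 hx0s le_rfl)]
  -- first part
  have hI1 : ∫ x in (0 : ℝ)..x₀, ‖ν x‖⁻¹ ≤ 1 := by
    have h1 := intervalIntegral.integral_le_sub_of_hasDeriv_right_of_le
      (g := fun x => 2 / w * Real.exp x) (g' := fun x => 2 / w * Real.exp x)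
      (φ := fun x => ‖ν x‖⁻¹) hx0 (by fun_prop)
      (fun x _ => ((Real.hasDerivAt_exp x).const_mul (2 / w)).hasDerivWithinAt)
      (hint 0 x₀ le_rfl hx0 hx0s) (by
        intro x hx
        have h2 : x < min s (Real.log (w / 2)) := by
          rcases lt_max_iff.1 hx.2 with h | h
          · exact absurd hx.1 (not_lt.2 h.le)
          · exact h
        have h3 : x < Real.log (w / 2) := lt_of_lt_of_le h2 (min_le_right _ _)
        have h4 : Real.exp x < w / 2 := by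
          rwa [← Real.lt_log_iff_exp_lt (by positivity)]
        exact hlow x (hsub x ⟨hx.1.le, (hx.2.trans_le hx0s).le⟩) (by linarith))
    refine h1.trans ?_
    rcases le_or_gt x₀ 0 with h | h
    · have : x₀ = 0 := le_antisymm h hx0
      rw [this]; simp
    · have h2 : x₀ ≤ Real.log (w / 2) := by
        have h3 : x₀ = min s (Real.log (w / 2)) := by
          rcases le_total 0 (min s (Real.log (w / 2))) with h4 | h4
          · rw [hx₀, max_eq_right h4]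
          · rw [hx₀, max_eq_left h4] at h; exact absurd h (lt_irrefl _)
        rw [h3]; exact min_le_right _ _
      have h4 : Real.exp x₀ ≤ w / 2 := by
        rwa [← Real.le_log_iff_exp_le (by positivity)]
      have h5 : 2 / w * Real.exp x₀ ≤ 2 / w * (w / 2) := by gcongr
      have h6 : 2 / w * (w / 2) = 1 := by field_simp
      have h7 : 0 ≤ 2 / w * Real.exp 0 := by positivity
      linarith
  -- second part
  have hI2 : ∫ x in x₀..s, ‖ν x‖⁻¹ ≤ 19 := by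
    rcases eq_or_lt_of_le hx0s with h | hlt
    · rw [h]; simp
    have hxl : Real.log (w / 2) ≤ x₀ := by
      rcases le_total s (Real.log (w / 2)) with h | h
      · have : x₀ = s := by rw [hx₀, min_eq_left h, max_eq_right hs0]
        exact absurd this hlt.ne
      · rw [hx₀, min_eq_right h]; exact le_max_right _ _
    have hwx : w ≤ 2 * Real.exp x₀ := by
      have := Real.exp_le_exp.2 hxl
      rw [Real.exp_log (by positivity)] at this
      linarith
    have hm : ∀ x : ℝ, |κ x + deriv κ x| ≤ 2 / 1000 := by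
      intro x
      have h1 := hD.b0 x
      have h2 := hD.b1 x
      have h3 := abs_add_le (κ x) (deriv κ x)
      linarith
    have hder : ∀ x ∈ Ioo x₀ s, ∃ d : ℝ,
        HasDerivAt (fun t : ℝ => 2 * (ν t).re ^ 2 / ‖ν t‖ - ‖ν t‖) d x ∧
          ‖ν x‖⁻¹ - ‖ν x‖ - 3 * |κ x + deriv κ x| ≤ d := by
      intro x hx
      have hx1 : 0 < x := lt_of_le_of_lt hx0 hx.1
      have hx2 : x < S := hx.2.trans_le hsS
      exact g_deriv (hpos x ⟨hx1.le, hx2.le⟩)
        ((nu_deriv hD hF hW ⟨hx1.le, hx2.le⟩).hasDerivAt (Icc_mem_nhds hx1 hx2))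
    choose! d hd1 hd2 using hder
    have hgc : ContinuousOn (fun t : ℝ => 2 * (ν t).re ^ 2 / ‖ν t‖ - ‖ν t‖) (Icc x₀ s) := by
      have h1 : ContinuousOn ν (Icc x₀ s) := hcont.mono (Icc_subset_Icc hx0 hsS)
      have h2 : ContinuousOn (fun t => (ν t).re) (Icc x₀ s) :=
        Complex.continuous_re.comp_continuousOn h1
      refine ContinuousOn.sub (ContinuousOn.div ((continuousOn_const).mul (h2.pow 2)) h1.norm ?_)
        h1.norm
      intro x hx
      exact (hfpos x ⟨hx0.trans hx.1, hx.2.trans hsS⟩).ne'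
    have h1 := intervalIntegral.integral_le_sub_of_hasDeriv_right_of_le
      (g := fun x => (2 * (ν x).re ^ 2 / ‖ν x‖ - ‖ν x‖) +
        ((1 + 4 / 1000) * (x - w * Real.exp (-x)) + 6 / 1000 * x))
      (g' := fun x => d x + ((1 + 4 / 1000) * (1 + w * Real.exp (-x)) + 6 / 1000))
      (φ := fun x => ‖ν x‖⁻¹) hx0s (hgc.add (by fun_prop))
      (fun x hx => by
        refine HasDerivAt.hasDerivWithinAt ?_
        refine (hd1 x hx).add ?_
        have h2 : HasDerivAt (fun t : ℝ => Real.exp (-t)) (-Real.exp (-x)) x := by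
          have := (hasDerivAt_neg x).exp
          simpa using this
        have h3 := (((hasDerivAt_id x).sub (h2.const_mul w)).const_mul (1 + 4 / 1000 : ℝ)).add
          ((hasDerivAt_id x).const_mul (6 / 1000 : ℝ))
        refine h3.congr_deriv ?_
        ring)
      (hint x₀ s hx0 hx0s le_rfl) (by
        intro x hx
        have h2 := hd2 x hx
        have h3 := hup x ⟨hx0.trans hx.1.le, hx.2.le.trans hsS⟩
        have h4 := hm x
        show ‖ν x‖⁻¹ ≤ d x + ((1 + 4 / 1000) * (1 + w * Real.exp (-x)) + 6 / 1000)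
        linarith)
    refine h1.trans ?_
    -- numerical bounds
    have hsl : s - x₀ ≤ 3 * Real.log 2 := by
      have h2 : s ≤ Real.log (4 * w) := (Real.le_log_iff_exp_le (by positivity)).2 he
      have h3 : Real.log (4 * w) - Real.log (w / 2) = 3 * Real.log 2 := by
        rw [← Real.log_div (by positivity) (by positivity)]
        have : 4 * w / (w / 2) = 2 ^ (3 : ℕ) := by field_simp; norm_num
        rw [this, Real.log_pow]
        norm_num
      linarith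
    have hl2 := Real.log_two_lt_d9
    have hex : ∀ x, x₀ ≤ x → w * Real.exp (-x) ≤ 2 := by
      intro x hx
      rw [Real.exp_neg, ← div_eq_mul_inv, div_le_iff₀ (Real.exp_pos x)]
      have := Real.exp_le_exp.2 hx
      linarith
    have hb1 := hup x₀ ⟨hx0, hx0s.trans hsS⟩
    have hb2 := hup s hs
    have hc1 := hex x₀ le_rfl
    have hc2 := hex s hx0s
    have ha1 := abs_le.1 (g_abs (hne x₀ ⟨hx0, hx0s.trans hsS⟩))
    have ha2 := abs_le.1 (g_abs (hne s hs))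
    have hp : 0 ≤ w * Real.exp (-s) := by positivity
    have hb1' : ‖ν x₀‖ ≤ (1 + 4 / 1000) * 3 := hb1.trans (by linarith)
    have hb2' : ‖ν s‖ ≤ (1 + 4 / 1000) * 3 := hb2.trans (by linarith)
    show (2 * (ν s).re ^ 2 / ‖ν s‖ - ‖ν s‖) +
        ((1 + 4 / 1000) * (s - w * Real.exp (-s)) + 6 / 1000 * s) -
      ((2 * (ν x₀).re ^ 2 / ‖ν x₀‖ - ‖ν x₀‖) +
        ((1 + 4 / 1000) * (x₀ - w * Real.exp (-x₀)) + 6 / 1000 * x₀)) ≤ 19
    linarith [ha1.1, ha1.2, ha2.1, ha2.2]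
  linarith

end Pool.Agent.MultS.LB

end

section

set_option autoImplicit false

open Complex Metric Set Filter Topology MeasureTheory
open Pool.Agent.MultS.Lip

namespace Pool.Agent.MultS.LB

namespace FlN1X

theorem nu_ne {κ : ℝ → ℝ} {S : ℝ} {y : ℝ → ℂ → ℂ} (hF : Fl κ S y) {s : ℝ} (hs : s ∈ Icc (0 : ℝ) S)
    {W : ℂ} (hW : W ∈ Hp) : nu κ y s W ≠ 0 := by
  intro h
  have h1 : (nu κ y s W).re = (y s W).re := by simp [nu]
  have h2 := hF.pos s hs W hW
  rw [← h1, h] at h2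
  simp at h2

theorem nu_cont {κ : ℝ → ℝ} {S : ℝ} {y : ℝ → ℂ → ℂ} (hD : Drv κ S) (hF : Fl κ S y)
    {W : ℂ} (hW : W ∈ Hp) : ContinuousOn (fun s => nu κ y s W) (Icc 0 S) := by
  have h1 : ContinuousOn (fun s' : ℝ => y s' W) (Icc 0 S) := fun s hs =>
    (hF.ode W hW s hs).continuousWithinAt
  have h2 : Continuous (fun s : ℝ => I * (κ s : ℂ)) :=
    continuous_const.mul (Complex.continuous_ofReal.comp hD.c1.continuous)
  exact h1.sub h2.continuousOn

end FlN1X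

open FlN1X

theorem prfFlN1 (hInt : FlInt) : FlN1 := by
  intro κ S y hD hF s hs W hW hW4
  have hI := hInt κ S y hD hF s hs W hW hW4
  have hsub : Icc (0 : ℝ) s ⊆ Icc 0 S := Icc_subset_Icc_right hs.2
  have hii : IntervalIntegrable (fun x => (1 / 500 : ℝ) * ‖nu κ y x W‖⁻¹) volume 0 s := by
    apply ContinuousOn.intervalIntegrable
    rw [uIcc_of_le hs.1]
    refine continuousOn_const.mul (ContinuousOn.inv₀ ((nu_cont hD hF hW).mono hsub).norm ?_)
    intro x hx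
    exact norm_ne_zero_iff.2 (nu_ne hF (hsub hx) hW)
  have hb : ‖∫ x in (0 : ℝ)..s, ((κ x + deriv κ x : ℝ) : ℂ) / nu κ y x W‖ ≤
      ∫ x in (0 : ℝ)..s, (1 / 500 : ℝ) * ‖nu κ y x W‖⁻¹ := by
    apply intervalIntegral.norm_integral_le_of_norm_le hs.1 _ hii
    refine Eventually.of_forall fun x _ => ?_
    rw [norm_div, div_eq_mul_inv]
    refine mul_le_mul_of_nonneg_right ?_ (inv_nonneg.2 (norm_nonneg _))
    rw [Complex.norm_real, Real.norm_eq_abs]
    have h0 := hD.b0 x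
    have h1 := hD.b1 x
    calc |κ x + deriv κ x| ≤ |κ x| + |deriv κ x| := abs_add_le _ _
      _ ≤ 1 / 1000 + 1 / 1000 := add_le_add h0 h1
      _ = 1 / 500 := by norm_num
  rw [intervalIntegral.integral_const_mul] at hb
  set J := ∫ x in (0 : ℝ)..s, ((κ x + deriv κ x : ℝ) : ℂ) / nu κ y x W with hJ
  have hJn : ‖-I * J‖ ≤ 1 / 25 := by
    rw [norm_mul, norm_neg, Complex.norm_I, one_mul]
    linarith
  have := Complex.norm_exp_sub_one_le (x := -I * J) (by linarith)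
  show ‖Complex.exp (-I * J) - 1‖ ≤ 1 / 2
  linarith

end Pool.Agent.MultS.LB

end

section

set_option autoImplicit false

open Complex Metric Set Filter Topology MeasureTheory
open Pool.Agent.MultS.Lip

namespace Pool.Agent.MultS.LB

namespace FlNuX

theorem nu_ne {κ : ℝ → ℝ} {S : ℝ} {y : ℝ → ℂ → ℂ} (hF : Fl κ S y) {s : ℝ} (hs : s ∈ Icc (0 : ℝ) S)
    {W : ℂ} (hW : W ∈ Hp) : nu κ y s W ≠ 0 := by
  intro h
  have h1 : (nu κ y s W).re = (y s W).re := by simp [nu]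
  have h2 := hF.pos s hs W hW
  rw [← h1, h] at h2
  simp at h2

theorem nu_deriv {κ : ℝ → ℝ} {S : ℝ} {y : ℝ → ℂ → ℂ} (hD : Drv κ S) (hF : Fl κ S y)
    {s : ℝ} (hs : s ∈ Icc (0 : ℝ) S) {W : ℂ} (hW : W ∈ Hp) :
    HasDerivWithinAt (fun x : ℝ => nu κ y x W)
      (1 / nu κ y s W - nu κ y s W - I * ((κ s + deriv κ s : ℝ) : ℂ)) (Icc 0 S) s := by
  have h1 := hF.ode W hW s hs
  have hκ : HasDerivAt κ (deriv κ s) s := (hD.c1.differentiable (by norm_num) s).hasDerivAt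
  have h2 : HasDerivAt (fun x : ℝ => ((κ x : ℝ) : ℂ)) ((deriv κ s : ℝ) : ℂ) s := hκ.ofReal_comp
  have h3 := h1.sub ((h2.const_mul I).hasDerivWithinAt (s := Icc 0 S))
  refine h3.congr_deriv ?_
  unfold nu
  push_cast
  ring

/-- `e^{2s} (ν² - 1) - W²`. -/
noncomputable def gD (κ : ℝ → ℝ) (y : ℝ → ℂ → ℂ) (W : ℂ) (s : ℝ) : ℂ :=
  (Real.exp s : ℂ) ^ 2 * (nu κ y s W ^ 2 - 1) - W ^ 2

theorem gD_deriv {κ : ℝ → ℝ} {S : ℝ} {y : ℝ → ℂ → ℂ} (hD : Drv κ S) (hF : Fl κ S y)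
    {s : ℝ} (hs : s ∈ Icc (0 : ℝ) S) {W : ℂ} (hW : W ∈ Hp) :
    HasDerivWithinAt (gD κ y W)
      (-(2 * I * ((κ s + deriv κ s : ℝ) : ℂ) * nu κ y s W * (Real.exp s : ℂ) ^ 2)) (Icc 0 S) s := by
  have h1 := nu_deriv hD hF hs hW
  have h0 := nu_ne hF hs hW
  have h2 : HasDerivAt (fun x : ℝ => ((Real.exp x : ℝ) : ℂ)) ((Real.exp s : ℝ) : ℂ) s :=
    (Real.hasDerivAt_exp s).ofReal_comp
  have h3 := (((h2.hasDerivWithinAt (s := Icc 0 S)).pow 2).mul
    ((h1.pow 2).sub_const (1 : ℂ))).sub_const (W ^ 2)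
  refine h3.congr_deriv ?_
  simp only [Pi.pow_apply]
  generalize nu κ y s W = ν at h0 ⊢
  generalize ((κ s + deriv κ s : ℝ) : ℂ) = μ
  generalize ((Real.exp s : ℝ) : ℂ) = E
  field_simp
  ring

theorem gD_zero {κ : ℝ → ℝ} {S : ℝ} {y : ℝ → ℂ → ℂ} (hD : Drv κ S) (hF : Fl κ S y)
    {W : ℂ} (hW : W ∈ Hp) : gD κ y W 0 = 0 := by
  have hk : κ 0 = 0 := hD.zer 0 (Or.inl le_rfl)
  have h := hF.ini W hW
  simp only [gD, nu, hk, Real.exp_zero]
  simp [h]

theorem gD_bound {κ : ℝ → ℝ} {S : ℝ} {y : ℝ → ℂ → ℂ} (hD : Drv κ S) (hF : Fl κ S y)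
    {W : ℂ} (hW : W ∈ Hp) {M : ℝ} (hM0 : 0 ≤ M)
    (hM : ∀ x ∈ Icc (0 : ℝ) S, ‖nu κ y x W‖ ≤ M * (1 + ‖W‖ / Real.exp x)) :
    ∀ s ∈ Icc (0 : ℝ) S, ‖nu κ y s W ^ 2 - (1 + W ^ 2 / (Real.exp s : ℂ) ^ 2)‖ ≤
      4 / 1000 * M * (1 + ‖W‖ / Real.exp s) := by
  intro s hs
  have key : ‖gD κ y W s‖ ≤ 4 / 1000 * M * (Real.exp s ^ 2 / 2 + ‖W‖ * Real.exp s) := by
    have hc : ContinuousOn (gD κ y W) (Icc 0 S) := fun x hx =>
      (gD_deriv hD hF hx hW).continuousWithinAt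
    refine image_norm_le_of_norm_deriv_right_le_deriv_boundary (f := gD κ y W)
      (f' := fun x => -(2 * I * ((κ x + deriv κ x : ℝ) : ℂ) * nu κ y x W * (Real.exp x : ℂ) ^ 2))
      (B := fun x => 4 / 1000 * M * (Real.exp x ^ 2 / 2 + ‖W‖ * Real.exp x))
      (B' := fun x => 4 / 1000 * M * (Real.exp x ^ 2 + ‖W‖ * Real.exp x)) hc ?_ ?_ ?_ ?_ hs
    · intro x hx
      have hx' : x ∈ Icc (0 : ℝ) S := ⟨hx.1, hx.2.le⟩
      refine (gD_deriv hD hF hx' hW).mono_of_mem_nhdsWithin ?_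
      exact Icc_mem_nhdsGE_of_mem hx
    · rw [gD_zero hD hF hW, norm_zero]
      positivity
    · intro x
      have h1 := Real.hasDerivAt_exp x
      have h2 := (((h1.pow 2).div_const 2).add (h1.const_mul ‖W‖)).const_mul (4 / 1000 * M)
      refine h2.congr_deriv ?_
      push_cast
      ring
    · intro x hx
      have hx' : x ∈ Icc (0 : ℝ) S := ⟨hx.1, hx.2.le⟩
      have hE : 0 < Real.exp x := Real.exp_pos x
      have hμ : |κ x + deriv κ x| ≤ 2 / 1000 :=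
        (abs_add_le _ _).trans (by linarith [hD.b0 x, hD.b1 x])
      have hn := hM x hx'
      have e1 : ‖-(2 * I * ((κ x + deriv κ x : ℝ) : ℂ) * nu κ y x W * (Real.exp x : ℂ) ^ 2)‖ =
          2 * |κ x + deriv κ x| * ‖nu κ y x W‖ * Real.exp x ^ 2 := by
        rw [norm_neg, norm_mul, norm_mul, norm_mul, norm_mul, norm_pow, Complex.norm_I,
          Complex.norm_real, Complex.norm_real, Real.norm_eq_abs, Real.norm_eq_abs,
          abs_of_pos hE]
        norm_num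
      rw [e1]
      calc 2 * |κ x + deriv κ x| * ‖nu κ y x W‖ * Real.exp x ^ 2
          ≤ 2 * (2 / 1000) * (M * (1 + ‖W‖ / Real.exp x)) * Real.exp x ^ 2 := by
            gcongr
        _ = 4 / 1000 * M * (Real.exp x ^ 2 + ‖W‖ * Real.exp x) := by
            field_simp
            ring
  have hE : 0 < Real.exp s := Real.exp_pos s
  have hEc : (Real.exp s : ℂ) ≠ 0 := by exact_mod_cast hE.ne'
  have e2 : nu κ y s W ^ 2 - (1 + W ^ 2 / (Real.exp s : ℂ) ^ 2) =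
      gD κ y W s / (Real.exp s : ℂ) ^ 2 := by
    unfold gD
    field_simp
    ring
  rw [e2, norm_div, norm_pow, Complex.norm_real, Real.norm_eq_abs, abs_of_pos hE,
    div_le_iff₀ (by positivity)]
  refine key.trans ?_
  have e3 : 4 / 1000 * M * (1 + ‖W‖ / Real.exp s) * Real.exp s ^ 2 =
      4 / 1000 * M * (Real.exp s ^ 2 + ‖W‖ * Real.exp s) := by
    field_simp
  rw [e3]
  have : 0 ≤ Real.exp s ^ 2 := by positivity
  gcongr
  linarith

end FlNuX

open FlNuX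

theorem prfFlNu : FlNu := by
  intro κ S y hD hF s hs W hW
  have hS : (0 : ℝ) ≤ S := hD.Sp.le
  set a : ℝ → ℝ := fun x => 1 + ‖W‖ / Real.exp x with ha
  have ha1 : ∀ x, 1 ≤ a x := fun x => by
    have : 0 ≤ ‖W‖ / Real.exp x := div_nonneg (norm_nonneg _) (Real.exp_pos x).le
    simp only [ha]; linarith
  have hap : ∀ x, 0 < a x := fun x => lt_of_lt_of_le one_pos (ha1 x)
  have hac : Continuous a := by
    refine continuous_const.add (continuous_const.div Real.continuous_exp fun x => ?_)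
    exact (Real.exp_pos x).ne'
  have hcn : ContinuousOn (fun x => nu κ y x W) (Icc 0 S) := fun x hx =>
    (nu_deriv hD hF hx hW).continuousWithinAt
  have hc : ContinuousOn (fun x => ‖nu κ y x W‖ / a x) (Icc 0 S) :=
    hcn.norm.div hac.continuousOn fun x _ => (hap x).ne'
  obtain ⟨x₀, hx₀, hmax⟩ := isCompact_Icc.exists_isMaxOn (nonempty_Icc.2 hS) hc
  set M : ℝ := ‖nu κ y x₀ W‖ / a x₀ with hMd
  have hM0 : 0 ≤ M := div_nonneg (norm_nonneg _) (hap x₀).le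
  have hM : ∀ x ∈ Icc (0 : ℝ) S, ‖nu κ y x W‖ ≤ M * (1 + ‖W‖ / Real.exp x) := by
    intro x hx
    have h1 : ‖nu κ y x W‖ / a x ≤ M := hmax hx
    exact (div_le_iff₀ (hap x)).1 h1
  have hb := gD_bound hD hF hW hM0 hM
  have hM1 : M ≤ 1 + 4 / 1000 := by
    have h1 := hb x₀ hx₀
    have hE : 0 < Real.exp x₀ := Real.exp_pos x₀
    have h2 : ‖nu κ y x₀ W‖ ^ 2 ≤ a x₀ ^ 2 + 4 / 1000 * M * a x₀ := by
      have h3 : ‖(1 + W ^ 2 / (Real.exp x₀ : ℂ) ^ 2)‖ ≤ a x₀ ^ 2 := by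
        refine (norm_add_le _ _).trans ?_
        rw [norm_one, norm_div, norm_pow, norm_pow, Complex.norm_real, Real.norm_eq_abs,
          abs_of_pos hE]
        have h4 : 0 ≤ ‖W‖ / Real.exp x₀ := div_nonneg (norm_nonneg _) hE.le
        have h5 : ‖W‖ ^ 2 / Real.exp x₀ ^ 2 = (‖W‖ / Real.exp x₀) ^ 2 := by rw [div_pow]
        rw [h5]
        simp only [ha]
        nlinarith
      have h6 : ‖nu κ y x₀ W ^ 2‖ ≤
          ‖nu κ y x₀ W ^ 2 - (1 + W ^ 2 / (Real.exp x₀ : ℂ) ^ 2)‖ +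
          ‖(1 + W ^ 2 / (Real.exp x₀ : ℂ) ^ 2)‖ := by
        have := norm_add_le (nu κ y x₀ W ^ 2 - (1 + W ^ 2 / (Real.exp x₀ : ℂ) ^ 2))
          (1 + W ^ 2 / (Real.exp x₀ : ℂ) ^ 2)
        rwa [sub_add_cancel] at this
      rw [norm_pow] at h6
      have h7 : 4 / 1000 * M * (1 + ‖W‖ / Real.exp x₀) = 4 / 1000 * M * a x₀ := rfl
      linarith
    have h8 : ‖nu κ y x₀ W‖ = M * a x₀ := by
      rw [hMd, div_mul_cancel₀ _ (hap x₀).ne']
    rw [h8] at h2
    have h9 : (M * a x₀) ^ 2 ≤ a x₀ ^ 2 * (1 + 4 / 1000 * M) := by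
      have h10 : 4 / 1000 * M * a x₀ ≤ 4 / 1000 * M * a x₀ ^ 2 := by
        have := ha1 x₀
        have h11 : a x₀ ≤ a x₀ ^ 2 := by nlinarith
        exact mul_le_mul_of_nonneg_left h11 (by positivity)
      linarith
    have h12 : M ^ 2 ≤ 1 + 4 / 1000 * M := by
      have h13 : 0 < a x₀ ^ 2 := pow_pos (hap x₀) 2
      rw [mul_pow, mul_comm] at h9
      exact le_of_mul_le_mul_left h9 h13
    by_contra hcon
    push Not at hcon
    nlinarith
  have h14 := hb s hs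
  refine ⟨(hM s hs).trans ?_, h14.trans ?_⟩
  · exact mul_le_mul_of_nonneg_right hM1 (hap s).le
  · refine mul_le_mul_of_nonneg_right ?_ (hap s).le
    linarith

end Pool.Agent.MultS.LB

end

section

/-! Item FlTwo (helper25): distance to the value at `W = 1`. -/

set_option autoImplicit false

open Complex Metric Set Filter Topology MeasureTheory
open Pool.Agent.MultS.Lip

namespace Pool.Agent.MultS.LB

namespace FlTwoX

variable {κ : ℝ → ℝ} {S : ℝ} {y : ℝ → ℂ → ℂ}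

theorem kap_le (hD : Drv κ S) (x : ℝ) : ‖(κ x : ℂ)‖ ≤ 1 / 1000 := by
  rw [Complex.norm_real, Real.norm_eq_abs]; exact hD.b0 x

theorem y_eq (κ : ℝ → ℝ) (y : ℝ → ℂ → ℂ) (s : ℝ) (W : ℂ) :
    y s W = nu κ y s W + I * (κ s : ℂ) := by unfold nu; ring

theorem near_one (hNu : FlNu) (hD : Drv κ S) (hF : Fl κ S y) {s : ℝ} (hs : s ∈ Icc (0 : ℝ) S)
    {W : ℂ} (hW : W ∈ Hp) (h4 : 4 * ‖W‖ ≤ Real.exp s) : ‖y s W ^ 2 - 1‖ ≤ 1 / 8 := by
  obtain ⟨h1, h2⟩ := hNu κ S y hD hF s hs W hW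
  have he : 0 < Real.exp s := Real.exp_pos s
  have hr : ‖W‖ / Real.exp s ≤ 1 / 4 := by
    rw [div_le_iff₀ he]; linarith
  have hr0 : 0 ≤ ‖W‖ / Real.exp s := by positivity
  have h3 : ‖W ^ 2 / (Real.exp s : ℂ) ^ 2‖ ≤ 1 / 16 := by
    rw [norm_div, norm_pow, norm_pow, Complex.norm_real, Real.norm_of_nonneg he.le, ← div_pow]
    calc (‖W‖ / Real.exp s) ^ 2 ≤ (1 / 4) ^ 2 := pow_le_pow_left₀ hr0 hr 2
      _ = 1 / 16 := by norm_num
  have hk := kap_le hD s
  have hν : ‖nu κ y s W‖ ≤ 13 / 10 := h1.trans (by nlinarith)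
  have h5 : y s W ^ 2 - 1 = (nu κ y s W ^ 2 - (1 + W ^ 2 / (Real.exp s : ℂ) ^ 2))
      + W ^ 2 / (Real.exp s : ℂ) ^ 2 + 2 * (I * (κ s : ℂ)) * nu κ y s W + (I * (κ s : ℂ)) ^ 2 := by
    rw [y_eq κ y s W]; ring
  rw [h5]
  have h6 : ‖2 * (I * (κ s : ℂ)) * nu κ y s W‖ ≤ 2 * (1 / 1000) * (13 / 10) := by
    rw [norm_mul, norm_mul, norm_mul, Complex.norm_I, one_mul]
    have : ‖(2 : ℂ)‖ = 2 := by simp
    rw [this]
    exact mul_le_mul (mul_le_mul_of_nonneg_left hk (by norm_num)) hν (norm_nonneg _) (by norm_num)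
  have h7 : ‖(I * (κ s : ℂ)) ^ 2‖ ≤ 1 / 1000 := by
    rw [norm_pow, norm_mul, Complex.norm_I, one_mul]
    calc ‖(κ s : ℂ)‖ ^ 2 ≤ (1 / 1000) ^ 2 := pow_le_pow_left₀ (norm_nonneg _) hk 2
      _ ≤ 1 / 1000 := by norm_num
  refine (norm_add_le _ _).trans ?_
  refine (add_le_add ((norm_add_le _ _).trans (add_le_add (norm_add_le _ _) le_rfl)) le_rfl).trans ?_
  linarith

theorem at_one (hNu : FlNu) (hD : Drv κ S) (hF : Fl κ S y) {s : ℝ} (hs : s ∈ Icc (0 : ℝ) S)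
    (h1 : (1 : ℂ) ∈ Hp) : ‖y s 1 ^ 2‖ ≤ 5 := by
  obtain ⟨h2, -⟩ := hNu κ S y hD hF s hs 1 h1
  have he : 1 ≤ Real.exp s := Real.one_le_exp hs.1
  have hr : ‖(1 : ℂ)‖ / Real.exp s ≤ 1 := by
    rw [norm_one]; exact (div_le_one (by linarith)).2 he
  have hk := kap_le hD s
  have h3 : ‖y s 1‖ ≤ 2.1 := by
    rw [y_eq κ y s 1]
    refine (norm_add_le _ _).trans ?_
    rw [norm_mul, Complex.norm_I, one_mul]
    nlinarith
  rw [norm_pow]
  calc ‖y s 1‖ ^ 2 ≤ 2.1 ^ 2 := pow_le_pow_left₀ (norm_nonneg _) h3 2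
    _ ≤ 5 := by norm_num

end FlTwoX

open FlTwoX in
theorem prfFlTwo (hX : FlX) (hNu : FlNu) (hGr : FlGr) : FlTwo := by
  refine ⟨50, by norm_num, ?_⟩
  intro κ S y hD hF s hs W hW h4
  have h8 := near_one hNu hD hF hs hW h4
  refine ⟨?_, h8⟩
  have hWre : 0 < W.re := hW
  have h1m : (1 : ℂ) ∈ Hp := by
    show 0 < (1 : ℂ).re
    simp
  set R := Real.exp s with hR
  have hRpos : 0 < R := Real.exp_pos s
  have hR1 : 1 ≤ R := Real.one_le_exp hs.1
  set q := ‖W + 1‖ with hq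
  have hq1 : 1 ≤ q := by
    have : (W + 1).re ≤ ‖W + 1‖ := Complex.re_le_norm _
    simp at this
    linarith
  have hqW : ‖W‖ ≤ q := by
    rw [hq, Complex.norm_eq_sqrt_sq_add_sq, Complex.norm_eq_sqrt_sq_add_sq]
    apply Real.sqrt_le_sqrt
    simp
    nlinarith
  have hqm : ‖W - 1‖ ≤ q := by
    rw [hq, Complex.norm_eq_sqrt_sq_add_sq, Complex.norm_eq_sqrt_sq_add_sq]
    apply Real.sqrt_le_sqrt
    simp
    nlinarith
  have hqpos : 0 < q := by linarith
  have hpow : (q / R) ^ (3 / 2 : ℝ) = (q / R) * Real.sqrt (q / R) := by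
    rw [Real.sqrt_eq_rpow]
    nth_rewrite 2 [← Real.rpow_one (q / R)]
    rw [← Real.rpow_add (by positivity)]
    norm_num
  rcases lt_or_ge R 4 with h | h
  · have h9 := at_one hNu hD hF hs h1m
    have h10 : ‖y s W ^ 2 - y s 1 ^ 2‖ ≤ 1 / 8 + 1 + 5 := by
      have : y s W ^ 2 - y s 1 ^ 2 = (y s W ^ 2 - 1) + 1 - y s 1 ^ 2 := by ring
      rw [this]
      refine (norm_sub_le _ _).trans (add_le_add ((norm_add_le _ _).trans ?_) h9)
      rw [norm_one]; linarith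
    have h11 : 1 / 4 ≤ q / R := by
      rw [le_div_iff₀ hRpos]; linarith
    have h12 : 1 / 2 ≤ Real.sqrt (q / R) := by
      apply Real.le_sqrt_of_sq_le
      norm_num; linarith
    have h13 : 1 / 8 ≤ (q / R) ^ (3 / 2 : ℝ) := by
      rw [hpow]
      calc (1 / 8 : ℝ) = 1 / 4 * (1 / 2) := by norm_num
        _ ≤ _ := mul_le_mul h11 h12 (by norm_num) (by positivity)
    linarith
  · -- large `R`
    set μ := max 1 ‖W‖ with hμ
    have hμ1 : 1 ≤ μ := le_max_left _ _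
    have hμq : μ ≤ q := max_le hq1 hqW
    have hseg : ∀ V ∈ segment ℝ (1 : ℂ) W, V ∈ Hp ∧ ‖V‖ ≤ μ := by
      intro V hV
      refine ⟨?_, ?_⟩
      · have hconv : Convex ℝ (Hp : Set ℂ) := by
          have : (Hp : Set ℂ) = {z : ℂ | 0 < z.re} := rfl
          rw [this]
          exact convex_halfSpace_re_gt 0
        exact hconv.segment_subset h1m hW hV
      · have hball : Convex ℝ (closedBall (0 : ℂ) μ) := convex_closedBall _ _
        have hV' := hball.segment_subset (by simp [hμ1]) (by simp [hμ]) hV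
        simpa using hV'
    have hbound : ∀ V ∈ segment ℝ (1 : ℂ) W,
        ‖2 * V * (nn κ y s V * y s V / nu κ y s V)‖ ≤ 4 * Real.sqrt R * Real.sqrt μ := by
      intro V hV
      obtain ⟨hVH, hVμ⟩ := hseg V hV
      have h5 : 4 * ‖V‖ ≤ R := by
        have : μ ≤ R / 4 := max_le (by linarith) (by linarith)
        linarith
      have h6 := hGr κ S y hD hF s hs V hVH h5
      set v := max 1 ‖V‖ with hv
      have hv1 : 1 ≤ v := le_max_left _ _
      have hvμ : v ≤ μ := max_le hμ1 hVμ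
      have hVv : ‖V‖ ≤ v := le_max_right _ _
      rw [norm_mul, norm_mul]
      have h2n : ‖(2 : ℂ)‖ = 2 := by simp
      rw [h2n]
      calc 2 * ‖V‖ * ‖nn κ y s V * y s V / nu κ y s V‖
          ≤ 2 * v * (2 * Real.sqrt (R / v)) :=
            mul_le_mul (mul_le_mul_of_nonneg_left hVv (by norm_num)) h6 (norm_nonneg _)
              (by positivity)
        _ = 4 * Real.sqrt R * Real.sqrt v := by
            rw [Real.sqrt_div hRpos.le]
            have hsv : Real.sqrt v ≠ 0 := (Real.sqrt_pos.2 (by linarith)).ne'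
            have : v = Real.sqrt v * Real.sqrt v := (Real.mul_self_sqrt (by linarith)).symm
            field_simp
            nlinarith [Real.sq_sqrt (show (0 : ℝ) ≤ v by linarith)]
        _ ≤ 4 * Real.sqrt R * Real.sqrt μ :=
            mul_le_mul_of_nonneg_left (Real.sqrt_le_sqrt hvμ) (by positivity)
    have hmv := Convex.norm_image_sub_le_of_norm_hasDerivWithin_le
      (f := XX y s) (f' := fun V => 2 * V * (nn κ y s V * y s V / nu κ y s V))
      (s := segment ℝ (1 : ℂ) W) (x := 1) (y := W) (C := 4 * Real.sqrt R * Real.sqrt μ)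
      (fun V hV => ((hX κ S y hD hF s hs V (hseg V hV).1).2.1).hasDerivWithinAt) hbound
      (convex_segment _ _) (left_mem_segment ℝ _ _) (right_mem_segment ℝ _ _)
    have hXX : XX y s W - XX y s 1 = (R : ℂ) ^ 2 * (y s W ^ 2 - y s 1 ^ 2) := by
      unfold XX
      have : (Real.exp (2 * s) : ℂ) = (R : ℂ) ^ 2 := by
        rw [hR, ← Complex.ofReal_pow, ← Real.exp_nat_mul]; norm_num
      rw [this]; ring
    rw [hXX, norm_mul, norm_pow, Complex.norm_real, Real.norm_of_nonneg hRpos.le] at hmv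
    have h14 : R ^ 2 * ‖y s W ^ 2 - y s 1 ^ 2‖ ≤ 4 * Real.sqrt R * Real.sqrt q * q :=
      hmv.trans (mul_le_mul (mul_le_mul_of_nonneg_left (Real.sqrt_le_sqrt hμq) (by positivity)) hqm
        (norm_nonneg _) (by positivity))
    have h15 : ‖y s W ^ 2 - y s 1 ^ 2‖ ≤ 4 * (q / R) ^ (3 / 2 : ℝ) := by
      rw [hpow, Real.sqrt_div hqpos.le]
      have hsR : 0 < Real.sqrt R := Real.sqrt_pos.2 hRpos
      have hRR : Real.sqrt R * Real.sqrt R = R := Real.mul_self_sqrt hRpos.le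
      have h16 : R ^ 2 * (4 * (q / R * (Real.sqrt q / Real.sqrt R))) = 4 * Real.sqrt R * Real.sqrt q * q := by
        have : R ^ 2 = R * (Real.sqrt R * Real.sqrt R) := by rw [hRR]; ring
        rw [this]
        field_simp
      rw [← h16] at h14
      exact le_of_mul_le_mul_left h14 (by positivity)
    have : 0 ≤ (q / R) ^ (3 / 2 : ℝ) := by positivity
    linarith

end Pool.Agent.MultS.LB

end

section

/-!
# [F5] The function `X`
-/

set_option autoImplicit false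

open Complex Metric Set Filter Topology MeasureTheory
open Pool.Agent.MultS.Lip

namespace Pool.Agent.MultS.LB

namespace FlXX

theorem ftc {S : ℝ} {g : ℝ → ℂ} (hg : ContinuousOn g (Icc 0 S)) {s : ℝ} (hs : s ∈ Icc (0 : ℝ) S) :
    HasDerivWithinAt (fun x : ℝ => ∫ t in (0 : ℝ)..x, g t) (g s) (Icc 0 S) s := by
  have : Fact (s ∈ Icc (0 : ℝ) S) := ⟨hs⟩
  have h0 : (0 : ℝ) ∈ Icc (0 : ℝ) S := ⟨le_rfl, hs.1.trans hs.2⟩
  have hint : IntervalIntegrable g volume 0 s :=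
    (hg.mono (by
      rw [uIcc_of_le hs.1]
      exact Icc_subset_Icc_right hs.2)).intervalIntegrable
  exact intervalIntegral.integral_hasDerivWithinAt_right hint
    (hg.stronglyMeasurableAtFilter_nhdsWithin measurableSet_Icc s) (hg s hs)

variable {κ : ℝ → ℝ} {S : ℝ} {y : ℝ → ℂ → ℂ}

theorem y_ne (hF : Fl κ S y) {s : ℝ} (hs : s ∈ Icc (0 : ℝ) S) {W : ℂ} (hW : W ∈ Hp) :
    y s W ≠ 0 := by
  intro h
  have h1 := hF.pos s hs W hW
  rw [h, zero_re] at h1
  exact lt_irrefl _ h1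

theorem nu_ne (hF : Fl κ S y) {s : ℝ} (hs : s ∈ Icc (0 : ℝ) S) {W : ℂ} (hW : W ∈ Hp) :
    nu κ y s W ≠ 0 := by
  intro h
  have h1 := hF.pos s hs W hW
  have h2 : (nu κ y s W).re = (y s W).re := by
    unfold nu
    simp
  rw [← h2, h, zero_re] at h1
  exact lt_irrefl _ h1

theorem y_cont (hF : Fl κ S y) {W : ℂ} (hW : W ∈ Hp) :
    ContinuousOn (fun s : ℝ => y s W) (Icc 0 S) := fun s hs =>
  (hF.ode W hW s hs).continuousWithinAt

theorem kc (hD : Drv κ S) : Continuous (fun s : ℝ => ((κ s : ℝ) : ℂ)) :=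
  Complex.continuous_ofReal.comp hD.c1.continuous

theorem kc' (hD : Drv κ S) : Continuous (fun s : ℝ => ((κ s + deriv κ s : ℝ) : ℂ)) :=
  Complex.continuous_ofReal.comp (hD.c1.continuous.add (hD.c1.continuous_deriv le_rfl))

theorem nu_cont (hD : Drv κ S) (hF : Fl κ S y) {W : ℂ} (hW : W ∈ Hp) :
    ContinuousOn (fun s : ℝ => nu κ y s W) (Icc 0 S) := by
  unfold nu
  exact (y_cont hF hW).sub (continuousOn_const.mul (kc hD).continuousOn)

theorem nu_der (hD : Drv κ S) (hF : Fl κ S y) {s : ℝ} (hs : s ∈ Icc (0 : ℝ) S) {W : ℂ}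
    (hW : W ∈ Hp) : HasDerivWithinAt (fun x : ℝ => nu κ y x W)
      ((1 / nu κ y s W - y s W) - I * ((deriv κ s : ℝ) : ℂ)) (Icc 0 S) s := by
  have h1 : HasDerivAt κ (deriv κ s) s :=
    ((hD.c1.differentiable one_ne_zero) s).hasDerivAt
  have h2 := (h1.ofReal_comp).hasDerivWithinAt (s := Icc (0 : ℝ) S)
  exact (hF.ode W hW s hs).sub (h2.const_mul I)

theorem part1 (hF : Fl κ S y) {s : ℝ} (hs : s ∈ Icc (0 : ℝ) S) {W : ℂ}
    (hW : W ∈ Hp) : HasDerivWithinAt (fun x : ℝ => XX y x W)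
      (2 * I * (κ s : ℂ) * (Real.exp (2 * s) : ℂ) / nu κ y s W) (Icc 0 S) s := by
  have h1 : HasDerivAt (fun x : ℝ => Real.exp (2 * x)) (Real.exp (2 * s) * 2) s := by
    have h0 : HasDerivAt (fun x : ℝ => 2 * x) 2 s := by
      have := (hasDerivAt_id s).const_mul (2 : ℝ)
      rw [mul_one] at this
      exact this
    exact h0.exp
  have h2 := (h1.ofReal_comp).hasDerivWithinAt (s := Icc (0 : ℝ) S)
  have h3 := ((hF.ode W hW s hs).pow 2).sub_const (1 : ℂ)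
  have h4 := h2.mul h3
  refine HasDerivWithinAt.congr_deriv h4 ?_
  have hn := nu_ne hF hs hW
  obtain ⟨v, hv⟩ : ∃ v, v = nu κ y s W := ⟨_, rfl⟩
  have hy : y s W = v + I * (κ s : ℂ) := by
    rw [hv]; unfold nu; ring
  simp only [Pi.pow_apply]
  rw [← hv, hy]
  rw [← hv] at hn
  push_cast
  field_simp
  ring

theorem part2 (hDer : FlDer) (hD : Drv κ S) (hF : Fl κ S y) {s : ℝ} (hs : s ∈ Icc (0 : ℝ) S)
    {W : ℂ} (hW : W ∈ Hp) :
    HasDerivAt (XX y s) (2 * W * (nn κ y s W * y s W / nu κ y s W)) W := by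
  have h1 := hDer κ S y hD hF s hs W hW
  have h2 := ((h1.pow 2).sub_const (1 : ℂ)).const_mul ((Real.exp (2 * s) : ℝ) : ℂ)
  refine HasDerivAt.congr_deriv h2 ?_
  have hn := nu_ne hF hs hW
  have he : ((Real.exp (2 * s) : ℝ) : ℂ) ≠ 0 := by
    rw [Complex.ofReal_ne_zero]
    exact (Real.exp_pos _).ne'
  field_simp
  ring

theorem part3 (hD : Drv κ S) (hF : Fl κ S y) {s : ℝ} (hs : s ∈ Icc (0 : ℝ) S)
    {W : ℂ} (hW : W ∈ Hp) :
    nn κ y s W * y s W / nu κ y s W =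
      Complex.exp (-I * ∫ x in (0 : ℝ)..s, (κ x : ℂ) / (nu κ y x W ^ 2 * y x W)) := by
  have c1 : ContinuousOn (fun x : ℝ => ((κ x + deriv κ x : ℝ) : ℂ) / nu κ y x W) (Icc 0 S) :=
    (kc' hD).continuousOn.div (nu_cont hD hF hW) (fun x hx => nu_ne hF hx hW)
  have c2 : ContinuousOn (fun x : ℝ => (κ x : ℂ) / (nu κ y x W ^ 2 * y x W)) (Icc 0 S) :=
    (kc hD).continuousOn.div (((nu_cont hD hF hW).pow 2).mul (y_cont hF hW))
      (fun x hx => mul_ne_zero (pow_ne_zero 2 (nu_ne hF hx hW)) (y_ne hF hx hW))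
  obtain ⟨A, hA⟩ : ∃ A : ℝ → ℂ, A = fun x : ℝ =>
    ∫ t in (0 : ℝ)..x, ((κ t + deriv κ t : ℝ) : ℂ) / nu κ y t W := ⟨_, rfl⟩
  obtain ⟨B, hB⟩ : ∃ B : ℝ → ℂ, B = fun x : ℝ =>
    ∫ t in (0 : ℝ)..x, (κ t : ℂ) / (nu κ y t W ^ 2 * y t W) := ⟨_, rfl⟩
  have key : ∀ x ∈ Icc (0 : ℝ) S, HasDerivWithinAt
      (fun x : ℝ => Complex.exp (-I * A x + I * B x) * (y x W / nu κ y x W)) 0 (Icc 0 S) x := by
    intro x hx
    have a1 : HasDerivWithinAt A (((κ x + deriv κ x : ℝ) : ℂ) / nu κ y x W) (Icc 0 S) x := by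
      rw [hA]
      exact ftc c1 hx
    have b1 : HasDerivWithinAt B ((κ x : ℂ) / (nu κ y x W ^ 2 * y x W)) (Icc 0 S) x := by
      rw [hB]
      exact ftc c2 hx
    have e1 := ((a1.const_mul (-I)).add (b1.const_mul I)).cexp
    have q1 := (hF.ode W hW x hx).div (nu_der hD hF hx hW) (nu_ne hF hx hW)
    have t1 := e1.mul q1
    refine HasDerivWithinAt.congr_deriv t1 ?_
    have hn := nu_ne hF hx hW
    have hy0 := y_ne hF hx hW
    obtain ⟨E, hE⟩ : ∃ E, E = Complex.exp (-I * A x + I * B x) := ⟨_, rfl⟩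
    obtain ⟨v, hv⟩ : ∃ v, v = nu κ y x W := ⟨_, rfl⟩
    obtain ⟨k', hk'⟩ : ∃ k' : ℂ, k' = ((deriv κ x : ℝ) : ℂ) := ⟨_, rfl⟩
    obtain ⟨k, hk⟩ : ∃ k : ℂ, k = (κ x : ℂ) := ⟨_, rfl⟩
    have hy : y x W = v + I * k := by
      rw [hv, hk]; unfold nu; ring
    simp only [Pi.div_apply, Pi.add_apply]
    push_cast
    rw [← hE, ← hv, ← hk, ← hk']
    rw [← hv] at hn
    rw [hy] at hy0 ⊢
    field_simp
    ring
  have hc := constant_of_derivWithin_zero (fun x hx => (key x hx).differentiableWithinAt)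
    (fun x hx => (key x (Ico_subset_Icc_self hx)).derivWithin
      (uniqueDiffOn_Icc hD.Sp x (Ico_subset_Icc_self hx))) s hs
  have h0 : (0 : ℝ) ∈ Icc (0 : ℝ) S := ⟨le_rfl, hs.1.trans hs.2⟩
  have hA0 : A 0 = 0 := by rw [hA]; exact intervalIntegral.integral_same
  have hB0 : B 0 = 0 := by rw [hB]; exact intervalIntegral.integral_same
  have hk0 : κ 0 = 0 := hD.zer 0 (Or.inl le_rfl)
  have hn0 : nu κ y 0 W = y 0 W := by
    unfold nu
    rw [hk0, ofReal_zero, mul_zero, sub_zero]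
  simp only [hA0, hB0, mul_zero, add_zero, Complex.exp_zero, one_mul, hn0,
    div_self (y_ne hF h0 hW)] at hc
  have hfin : nn κ y s W = Complex.exp (-I * A s) := by
    rw [hA]; rfl
  have hB' : (∫ x in (0 : ℝ)..s, (κ x : ℂ) / (nu κ y x W ^ 2 * y x W)) = B s := by rw [hB]
  rw [hfin, hB', mul_div_assoc]
  have h5 : Complex.exp (-I * A s) = Complex.exp (-I * B s) * Complex.exp (-I * A s + I * B s) := by
    rw [← Complex.exp_add]
    congr 1
    ring
  rw [h5, mul_assoc, hc, mul_one]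

end FlXX

theorem prfFlX (hDer : FlDer) : FlX := fun _ _ _ hD hF _ hs _ hW =>
  ⟨FlXX.part1 hF hs hW, FlXX.part2 hDer hD hF hs hW, FlXX.part3 hD hF hs hW⟩

end Pool.Agent.MultS.LB

end

section

/-!
# Item IdA
-/

set_option autoImplicit false

open Complex Metric Set Filter Topology MeasureTheory
open Pool.Agent.MultS.Lip

namespace Pool.Agent.MultS.LB

namespace IdAX

lemma nu_re (κ : ℝ → ℝ) (y : ℝ → ℂ → ℂ) (s : ℝ) (W : ℂ) : (nu κ y s W).re = (y s W).re := by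
  unfold nu
  simp

lemma slit {r : ℝ} {y : ℂ} (h0 : 0 < r) (h1 : r ≤ 1) (hy : 0 < y.re) :
    (1 + (r : ℂ) * (y ^ 2 - 1)) ∈ slitPlane := by
  have e : (1 + (r : ℂ) * (y ^ 2 - 1)) = (((1 - r : ℝ) : ℂ) + (r : ℂ) * y ^ 2) := by
    push_cast; ring
  rw [e, mem_slitPlane_iff]
  have e1 : (((1 - r : ℝ) : ℂ) + (r : ℂ) * y ^ 2).re = 1 - r + r * (y.re ^ 2 - y.im ^ 2) := by
    simp [pow_two]
  have e2 : (((1 - r : ℝ) : ℂ) + (r : ℂ) * y ^ 2).im = r * (2 * y.re * y.im) := by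
    simp only [pow_two, Complex.add_im, Complex.ofReal_im, Complex.im_ofReal_mul, Complex.mul_im, Complex.ofReal_re]
    ring
  rw [e1, e2]
  by_cases hi : y.im = 0
  · left
    rw [hi]
    have : 0 < r * (y.re ^ 2 - 0 ^ 2) := by
      have : 0 < y.re ^ 2 := by positivity
      nlinarith
    linarith
  · right
    have : r * (2 * y.re * y.im) ≠ 0 := by positivity
    exact this

lemma one_div_eq {y : ℂ} (hy : 0 < y.re) : (y ^ 2) ^ (-(1 / 2) : ℂ) = 1 / y := by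
  have h1 : (y ^ 2) ^ (-(1 / 2) : ℂ) = y ^ ((2 : ℂ) * (-(1 / 2) : ℂ)) := by
    have habs := (abs_arg_lt_pi_div_two_iff (z := y)).2 (Or.inl hy)
    rw [abs_lt] at habs
    have := Real.pi_pos
    have h2 : (y ^ 2 : ℂ) = y ^ ((2 : ℕ) : ℂ) := by rw [Complex.cpow_natCast]
    rw [h2, ← Complex.cpow_mul]
    · norm_num
    · have e : (Complex.log y * ((2 : ℕ) : ℂ)).im = y.arg * 2 := by
        rw [← Complex.ofReal_natCast, Complex.im_mul_ofReal, Complex.log_im]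
        norm_num
      rw [e]
      linarith
    · have e : (Complex.log y * ((2 : ℕ) : ℂ)).im = y.arg * 2 := by
        rw [← Complex.ofReal_natCast, Complex.im_mul_ofReal, Complex.log_im]
        norm_num
      rw [e]
      linarith
  rw [h1]
  have e : (2 : ℂ) * (-(1 / 2) : ℂ) = -1 := by norm_num
  rw [e, Complex.cpow_neg_one, one_div]

end IdAX

open IdAX in
theorem prfIdA (hFlX : FlX) : IdA := by
  intro κ S y hD hF W hW s' hs'
  set ψ : ℝ → ℂ := fun s => 1 + (Real.exp (-2 * s') : ℂ) * XX y s W with hψ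
  have hψe : ∀ s, ψ s = 1 + (Real.exp (-2 * (s' - s)) : ℂ) * (y s W ^ 2 - 1) := by
    intro s
    simp only [hψ, XX]
    rw [← mul_assoc, ← Complex.ofReal_mul, ← Real.exp_add]
    congr 4
    ring
  have hsub : Icc 0 s' ⊆ Icc 0 S := Icc_subset_Icc_right hs'.2
  have hpos : ∀ s ∈ Icc 0 s', 0 < (y s W).re := fun s hs => hF.pos s (hsub hs) W hW
  have hslit : ∀ s ∈ Icc 0 s', ψ s ∈ slitPlane := by
    intro s hs
    rw [hψe s]
    refine slit (Real.exp_pos _) ?_ (hpos s hs)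
    rw [Real.exp_le_one_iff]
    have := hs.2
    linarith
  have hnu : ∀ s ∈ Icc 0 s', nu κ y s W ≠ 0 := by
    intro s hs h0
    have := hpos s hs
    rw [← nu_re κ y s W, h0] at this
    simp at this
  set F : ℝ → ℂ := fun s => ψ s ^ (-(1 / 2) : ℂ) with hFd
  have hder : ∀ s ∈ Icc 0 s', HasDerivWithinAt F
      (-(I * ((κ s : ℂ) * (Real.exp (-2 * (s' - s)) : ℂ) * ww (s' - s) (y s W) / nu κ y s W)))
      (Icc 0 S) s := by
    intro s hs
    have h1 := (hFlX κ S y hD hF s (hsub hs) W hW).1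
    have h2 : HasDerivWithinAt ψ ((Real.exp (-2 * s') : ℂ) *
        (2 * I * (κ s : ℂ) * (Real.exp (2 * s) : ℂ) / nu κ y s W)) (Icc 0 S) s :=
      (h1.const_mul _).const_add 1
    have h3 : HasDerivAt (fun x : ℂ => x ^ (-(1 / 2) : ℂ))
        ((-(1 / 2) : ℂ) * ψ s ^ ((-(1 / 2) : ℂ) - 1)) (ψ s) := by
      have := (hasDerivAt_id (ψ s)).cpow_const (c := (-(1 / 2) : ℂ)) (hslit s hs)
      simpa using this
    have h4 := h3.comp_hasDerivWithinAt s h2
    refine h4.congr_deriv ?_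
    have e1 : (-(1 / 2) : ℂ) - 1 = (-(3 / 2) : ℂ) := by norm_num
    have e2 : (Real.exp (-2 * (s' - s)) : ℂ) = (Real.exp (-2 * s') : ℂ) * (Real.exp (2 * s) : ℂ) := by
      rw [← Complex.ofReal_mul, ← Real.exp_add]
      congr 2
      ring
    have e3 : ww (s' - s) (y s W) = ψ s ^ (-(3 / 2) : ℂ) := by
      rw [hψe s]
      rfl
    rw [e1, e3, e2]
    have := hnu s hs
    field_simp
  have hyc : ContinuousOn (fun s => y s W) (Icc 0 s') := fun s hs =>
    (hF.ode W hW s (hsub hs)).continuousWithinAt.mono hsub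
  have hκc : Continuous κ := hD.c1.continuous
  have hψc : ContinuousOn ψ (Icc 0 s') := by
    have : ContinuousOn (fun s => 1 + (Real.exp (-2 * (s' - s)) : ℂ) * (y s W ^ 2 - 1))
        (Icc 0 s') := by
      have h1 : Continuous (fun s : ℝ => (Real.exp (-2 * (s' - s)) : ℂ)) := by fun_prop
      exact continuousOn_const.add (h1.continuousOn.mul ((hyc.pow 2).sub continuousOn_const))
    exact this.congr fun s _ => hψe s
  have hFc : ContinuousOn F (Icc 0 s') := fun s hs =>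
    (hder s hs).continuousWithinAt.mono hsub
  have hdc : ContinuousOn (fun s => -(I * ((κ s : ℂ) * (Real.exp (-2 * (s' - s)) : ℂ) *
      ww (s' - s) (y s W) / nu κ y s W))) (Icc 0 s') := by
    have h1 : Continuous (fun s : ℝ => (κ s : ℂ) * (Real.exp (-2 * (s' - s)) : ℂ)) := by fun_prop
    have h2 : ContinuousOn (fun s => ww (s' - s) (y s W)) (Icc 0 s') := by
      have h3 : ContinuousOn (fun s => ψ s ^ (-(3 / 2) : ℂ)) (Icc 0 s') := by
        intro s hs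
        exact ContinuousWithinAt.cpow (hψc s hs) continuousWithinAt_const (hslit s hs)
      refine h3.congr fun s _ => ?_
      show ww (s' - s) (y s W) = ψ s ^ (-(3 / 2) : ℂ)
      rw [hψe s]
      rfl
    have h3 : ContinuousOn (fun s => nu κ y s W) (Icc 0 s') := by
      unfold nu
      have h4 : Continuous (fun s : ℝ => I * (κ s : ℂ)) := by fun_prop
      exact hyc.sub h4.continuousOn
    exact (continuousOn_const.mul ((h1.continuousOn.mul h2).div h3 hnu)).neg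
  have hint := intervalIntegral.integral_eq_sub_of_hasDeriv_right_of_le hs'.1 hFc
    (fun x hx => by
      have h1 := hder x ⟨hx.1.le, hx.2.le⟩
      have h2 : Icc 0 S ∈ 𝓝 x := Icc_mem_nhds hx.1 (lt_of_lt_of_le hx.2 hs'.2)
      exact (h1.hasDerivAt h2).hasDerivWithinAt)
    (hdc.intervalIntegrable_of_Icc hs'.1)
  have hs0 : (0 : ℝ) ∈ Icc 0 s' := ⟨le_rfl, hs'.1⟩
  have hss : s' ∈ Icc 0 s' := ⟨hs'.1, le_rfl⟩
  have hFs : F s' = 1 / y s' W := by
    simp only [hFd]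
    rw [hψe s', sub_self, mul_zero, Real.exp_zero]
    have : (1 + ((1 : ℝ) : ℂ) * (y s' W ^ 2 - 1)) = y s' W ^ 2 := by push_cast; ring
    rw [this]
    exact one_div_eq (hpos s' hss)
  have hF0 : F 0 = (1 + W ^ 2 * (Real.exp (-2 * s') : ℂ)) ^ (-(1 / 2) : ℂ) := by
    simp only [hFd]
    congr 1
    rw [hψe 0, hF.ini W hW, sub_zero]
    ring
  rw [hFs, hF0] at hint
  rw [intervalIntegral.integral_neg, intervalIntegral.integral_const_mul] at hint
  linear_combination -hint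

end Pool.Agent.MultS.LB

end

section

/-! Item IdL (helper42): `L` applied to the identity. -/

set_option autoImplicit false

open Complex Metric Set Filter Topology MeasureTheory
open Pool.Agent.MultS.Lip

namespace Pool.Agent.MultS.LB

namespace IdLX

theorem one_sub_ne {ζ : ℂ} (hζ : ζ ∈ ball (0 : ℂ) 1) : 1 - ζ ≠ 0 := by
  intro h
  have h1 : ζ = 1 := (sub_eq_zero.1 h).symm
  rw [h1, mem_ball_zero_iff, norm_one] at hζ
  exact lt_irrefl _ hζ

theorem psi_mem {ζ : ℂ} (hζ : ζ ∈ ball (0 : ℂ) 1) : psi ζ ∈ Hp := by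
  have hne := one_sub_ne hζ
  have hpos : 0 < Complex.normSq (1 - ζ) := Complex.normSq_pos.2 hne
  show 0 < (psi ζ).re
  unfold psi
  rw [Complex.div_re, ← add_div]
  apply div_pos _ hpos
  rw [mem_ball_zero_iff] at hζ
  have h1 : ‖ζ‖ ^ 2 < 1 := by
    have := norm_nonneg ζ
    nlinarith
  rw [← Complex.normSq_eq_norm_sq, Complex.normSq_apply] at h1
  simp only [Complex.add_re, Complex.one_re, Complex.sub_re, Complex.add_im, Complex.one_im,
    Complex.sub_im]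
  nlinarith

theorem psi_diff : DifferentiableOn ℂ psi (ball 0 1) := by
  unfold psi
  exact DifferentiableOn.div (by fun_prop) (by fun_prop) fun ζ hζ => one_sub_ne hζ

theorem psi_maps : MapsTo psi (ball 0 1) Hp := fun _ hζ => psi_mem hζ

theorem slit {W : ℂ} (hW : W ∈ Hp) {a b : ℝ} (ha : 0 ≤ a) (hb : 0 < b) :
    (a : ℂ) + (b : ℂ) * W ^ 2 ∈ slitPlane := by
  have hre : 0 < W.re := hW
  rw [mem_slitPlane_iff]
  by_cases him : W.im = 0
  · left
    have : ((a : ℂ) + (b : ℂ) * W ^ 2).re = a + b * (W.re * W.re - W.im * W.im) := by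
      simp [pow_two]
    rw [this, him]
    have : 0 < b * (W.re * W.re) := by positivity
    linarith
  · right
    have : ((a : ℂ) + (b : ℂ) * W ^ 2).im = b * (W.re * W.im + W.im * W.re) := by
      simp [pow_two]
    rw [this]
    apply mul_ne_zero hb.ne'
    have : W.re * W.im + W.im * W.re = 2 * (W.re * W.im) := by ring
    rw [this]
    exact mul_ne_zero two_ne_zero (mul_ne_zero hre.ne' him)

theorem slitA {W : ℂ} (hW : W ∈ Hp) (s : ℝ) :
    1 + W ^ 2 * (Real.exp (-2 * s) : ℂ) ∈ slitPlane := by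
  have := slit hW zero_le_one (Real.exp_pos (-2 * s))
  rwa [Complex.ofReal_one, mul_comm] at this

theorem slitW {W : ℂ} (hW : W ∈ Hp) {t : ℝ} (ht : 0 ≤ t) :
    1 + (Real.exp (-2 * t) : ℂ) * (W ^ 2 - 1) ∈ slitPlane := by
  have h1 : Real.exp (-2 * t) ≤ 1 := by
    rw [Real.exp_le_one_iff]; linarith
  have := slit hW (sub_nonneg.2 h1) (Real.exp_pos (-2 * t))
  have h2 : ((1 - Real.exp (-2 * t) : ℝ) : ℂ) + (Real.exp (-2 * t) : ℂ) * W ^ 2 =
      1 + (Real.exp (-2 * t) : ℂ) * (W ^ 2 - 1) := by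
    rw [Complex.ofReal_sub, Complex.ofReal_one]; ring
  rwa [h2] at this

section
variable {κ : ℝ → ℝ} {S : ℝ} {y : ℝ → ℂ → ℂ}

theorem nu_ne (hF : Fl κ S y) {W : ℂ} (hW : W ∈ Hp) {x : ℝ} (hx : x ∈ Icc (0 : ℝ) S) :
    nu κ y x W ≠ 0 := by
  intro h
  have h1 := hF.pos x hx W hW
  have h2 : (nu κ y x W).re = (y x W).re := by unfold nu; simp
  rw [← h2, h] at h1
  simp at h1

theorem y_ne (hF : Fl κ S y) {W : ℂ} (hW : W ∈ Hp) {x : ℝ} (hx : x ∈ Icc (0 : ℝ) S) :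
    y x W ≠ 0 := by
  intro h
  have h1 := hF.pos x hx W hW
  rw [h] at h1
  simp at h1

theorem y_mem (hF : Fl κ S y) {W : ℂ} (hW : W ∈ Hp) {x : ℝ} (hx : x ∈ Icc (0 : ℝ) S) :
    y x W ∈ Hp := hF.pos x hx W hW

/-- `(s, ζ) ↦ y s (psi ζ)` is continuous -/
theorem y_cont (hH : FlHol) (hD : Drv κ S) (hF : Fl κ S y) :
    ContinuousOn (fun p : ℝ × ℂ => y p.1 (psi p.2)) (Icc 0 S ×ˢ ball (0 : ℂ) 1) := by
  have h1 := (hH κ S y hD.c1.continuous hD.Sp.le hF).1
  have h2 : ContinuousOn (fun p : ℝ × ℂ => (p.1, psi p.2)) (Icc 0 S ×ˢ ball (0 : ℂ) 1) :=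
    continuousOn_fst.prodMk (psi_diff.continuousOn.comp continuousOn_snd fun p hp => hp.2)
  exact h1.comp h2 fun p hp => ⟨hp.1, psi_mem hp.2⟩

theorem y_diff (hH : FlHol) (hD : Drv κ S) (hF : Fl κ S y) {s : ℝ} (hs : s ∈ Icc (0 : ℝ) S) :
    DifferentiableOn ℂ (fun ζ => y s (psi ζ)) (ball 0 1) := by
  have h1 : DifferentiableOn ℂ (y s) Hp := fun W hW =>
    ((((hH κ S y hD.c1.continuous hD.Sp.le hF).2 s hs).2 W hW).differentiableAt).differentiableWithinAt
  exact h1.comp psi_diff psi_maps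

theorem nu_cont (hH : FlHol) (hD : Drv κ S) (hF : Fl κ S y) :
    ContinuousOn (fun p : ℝ × ℂ => nu κ y p.1 (psi p.2)) (Icc 0 S ×ˢ ball (0 : ℂ) 1) := by
  unfold nu
  refine (y_cont hH hD hF).sub (continuousOn_const.mul ?_)
  exact (Complex.continuous_ofReal.comp (hD.c1.continuous.comp continuous_fst)).continuousOn

theorem nu_diff (hH : FlHol) (hD : Drv κ S) (hF : Fl κ S y) {s : ℝ} (hs : s ∈ Icc (0 : ℝ) S) :
    DifferentiableOn ℂ (fun ζ => nu κ y s (psi ζ)) (ball 0 1) := by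
  unfold nu
  exact (y_diff hH hD hF hs).sub (differentiableOn_const _)

theorem g_cont (hD : Drv κ S) {g : ℝ → ℂ}
    (hg : ∀ s : ℝ, g s = Complex.exp (-I * ((∫ x in s..S, κ x : ℝ) : ℂ))) : Continuous g := by
  have h1 : g = fun s => Complex.exp (-I * ((-(∫ x in S..s, κ x) : ℝ) : ℂ)) := by
    funext s
    rw [hg s, intervalIntegral.integral_symm]
  rw [h1]
  have h2 : Continuous (fun s => ∫ x in S..s, κ x) :=
    intervalIntegral.continuous_primitive (fun a b => hD.c1.continuous.intervalIntegrable a b) S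
  exact Complex.continuous_exp.comp (continuous_const.mul
    (Complex.continuous_ofReal.comp h2.neg))

/-- first kernel -/
theorem fA_diff (s : ℝ) :
    DifferentiableOn ℂ (fun ζ => (1 + psi ζ ^ 2 * (Real.exp (-2 * s) : ℂ)) ^ (-(1 / 2) : ℂ))
      (ball 0 1) := by
  intro ζ hζ
  have h1 : DifferentiableWithinAt ℂ (fun ζ => 1 + psi ζ ^ 2 * (Real.exp (-2 * s) : ℂ))
      (ball 0 1) ζ := (differentiableWithinAt_const _).add
    (((psi_diff ζ hζ).pow 2).mul (differentiableWithinAt_const _))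
  exact h1.cpow (differentiableWithinAt_const _) (slitA (psi_mem hζ) s)

theorem fA_cont :
    ContinuousOn (fun p : ℝ × ℂ => (1 + psi p.2 ^ 2 * (Real.exp (-2 * p.1) : ℂ)) ^
      (-(1 / 2) : ℂ)) (Icc 0 S ×ˢ ball (0 : ℂ) 1) := by
  have h2 : ContinuousOn (fun p : ℝ × ℂ => psi p.2) (Icc 0 S ×ˢ ball (0 : ℂ) 1) :=
    psi_diff.continuousOn.comp continuousOn_snd fun p hp => hp.2
  have h3 : Continuous (fun p : ℝ × ℂ => (Real.exp (-2 * p.1) : ℂ)) :=
    Complex.continuous_ofReal.comp (Real.continuous_exp.comp (continuous_const.mul continuous_fst))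
  exact ContinuousOn.cpow (continuousOn_const.add ((h2.pow 2).mul h3.continuousOn))
    continuousOn_const fun p hp => slitA (psi_mem hp.2) p.1

/-- second kernel -/
theorem fB_diff (hH : FlHol) (hD : Drv κ S) (hF : Fl κ S y) {s : ℝ} (hs : s ∈ Icc (0 : ℝ) S) :
    DifferentiableOn ℂ (fun ζ => 1 / (y s (psi ζ) * nu κ y s (psi ζ))) (ball 0 1) :=
  (differentiableOn_const _).div ((y_diff hH hD hF hs).mul (nu_diff hH hD hF hs)) fun _ hζ =>
    mul_ne_zero (y_ne hF (psi_mem hζ) hs) (nu_ne hF (psi_mem hζ) hs)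

theorem fB_cont (hH : FlHol) (hD : Drv κ S) (hF : Fl κ S y) :
    ContinuousOn (fun p : ℝ × ℂ => 1 / (y p.1 (psi p.2) * nu κ y p.1 (psi p.2)))
      (Icc 0 S ×ˢ ball (0 : ℂ) 1) :=
  continuousOn_const.div ((y_cont hH hD hF).mul (nu_cont hH hD hF)) fun _ hp =>
    mul_ne_zero (y_ne hF (psi_mem hp.2) hp.1) (nu_ne hF (psi_mem hp.2) hp.1)

/-- third kernel -/
theorem fC_diff (hH : FlHol) (hD : Drv κ S) (hF : Fl κ S y) {s : ℝ} (hs : s ∈ Icc (0 : ℝ) S)
    {t : ℝ} (ht : 0 ≤ t) :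
    DifferentiableOn ℂ (fun ζ => (ww t (y s (psi ζ)) - 1) / nu κ y s (psi ζ)) (ball 0 1) := by
  refine DifferentiableOn.div ?_ (nu_diff hH hD hF hs) fun _ hζ => nu_ne hF (psi_mem hζ) hs
  refine DifferentiableOn.sub ?_ (differentiableOn_const _)
  intro ζ hζ
  unfold ww
  have h1 : DifferentiableWithinAt ℂ
      (fun ζ => 1 + (Real.exp (-2 * t) : ℂ) * (y s (psi ζ) ^ 2 - 1)) (ball 0 1) ζ :=
    (differentiableWithinAt_const _).add ((differentiableWithinAt_const _).mul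
      ((((y_diff hH hD hF hs) ζ hζ).pow 2).sub (differentiableWithinAt_const _)))
  exact h1.cpow (differentiableWithinAt_const _) (slitW (y_mem hF (psi_mem hζ) hs) ht)

theorem fC_cont (hH : FlHol) (hD : Drv κ S) (hF : Fl κ S y) :
    ContinuousOn (fun p : ℝ × ℝ × ℂ => (ww |p.2.1 - p.1| (y p.1 (psi p.2.2)) - 1) /
      nu κ y p.1 (psi p.2.2)) (Icc 0 S ×ˢ (Icc 0 S ×ˢ ball (0 : ℂ) 1)) := by
  have hm : ContinuousOn (fun p : ℝ × ℝ × ℂ => (p.1, p.2.2))
      (Icc 0 S ×ˢ (Icc 0 S ×ˢ ball (0 : ℂ) 1)) := by fun_prop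
  have hmaps : MapsTo (fun p : ℝ × ℝ × ℂ => (p.1, p.2.2))
      (Icc 0 S ×ˢ (Icc 0 S ×ˢ ball (0 : ℂ) 1)) (Icc 0 S ×ˢ ball (0 : ℂ) 1) :=
    fun p hp => ⟨hp.1, hp.2.2⟩
  have hy : ContinuousOn (fun p : ℝ × ℝ × ℂ => y p.1 (psi p.2.2))
      (Icc 0 S ×ˢ (Icc 0 S ×ˢ ball (0 : ℂ) 1)) := (y_cont hH hD hF).comp hm hmaps
  have hn : ContinuousOn (fun p : ℝ × ℝ × ℂ => nu κ y p.1 (psi p.2.2))
      (Icc 0 S ×ˢ (Icc 0 S ×ˢ ball (0 : ℂ) 1)) := (nu_cont hH hD hF).comp hm hmaps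
  have he : Continuous (fun p : ℝ × ℝ × ℂ => (Real.exp (-2 * |p.2.1 - p.1|) : ℂ)) := by
    refine Complex.continuous_ofReal.comp (Real.continuous_exp.comp (continuous_const.mul ?_))
    exact ((continuous_fst.comp continuous_snd).sub continuous_fst).abs
  refine ContinuousOn.div ?_ hn fun p hp => nu_ne hF (psi_mem hp.2.2) hp.1
  refine ContinuousOn.sub ?_ continuousOn_const
  unfold ww
  exact ContinuousOn.cpow (continuousOn_const.add (he.continuousOn.mul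
    ((hy.pow 2).sub continuousOn_const))) continuousOn_const fun p hp =>
    slitW (y_mem hF (psi_mem hp.2.2) hp.1) (abs_nonneg _)

end

section
variable {lam : ℕ → ℂ} (hsm : Summable (fun n : ℕ => ((n : ℝ) + 1) * ‖lam (n + 1)‖))
  {z : ℂ} (hz : z ∈ ball (0 : ℂ) 1)

include hsm hz in
theorem LL_cmul (hL : LinP) (c : ℂ) {h : ℂ → ℂ} (hh : DifferentiableOn ℂ h (ball 0 1)) :
    LL lam (fun ζ => c * h ζ) z = c * LL lam h z := by
  have h1 := (hL lam hsm z hz).1 h h c 0 0 hh hh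
  have h2 : (fun ζ => c * h ζ + 0 * h ζ + 0) = fun ζ => c * h ζ := by
    funext ζ; ring
  rw [h2] at h1
  rw [h1]; ring

include hsm hz in
theorem LL_comb (hL : LinP) {h₁ h₂ : ℂ → ℂ} (a b : ℂ) (hh₁ : DifferentiableOn ℂ h₁ (ball 0 1))
    (hh₂ : DifferentiableOn ℂ h₂ (ball 0 1)) :
    LL lam (fun ζ => a * h₁ ζ + b * h₂ ζ) z = a * LL lam h₁ z + b * LL lam h₂ z := by
  have h1 := (hL lam hsm z hz).1 h₁ h₂ a b 0 hh₁ hh₂
  have h2 : (fun ζ => a * h₁ ζ + b * h₂ ζ + 0) = fun ζ => a * h₁ ζ + b * h₂ ζ := by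
    funext ζ; ring
  rwa [h2] at h1

end

end IdLX

theorem prfIdL (hI : Ident) (hS : Swap) (hS2 : Swap2) (hL : LinP) (hH : FlHol) : IdL := by
  intro lam X hP z hz κ S y hD hF g hg
  have hsm := hP.sm
  have hgc : Continuous g := IdLX.g_cont hD hg
  have hκc : Continuous (fun s : ℝ => (κ s : ℂ)) := Complex.continuous_ofReal.comp hD.c1.continuous
  have hec : Continuous (fun s : ℝ => (Real.exp (2 * s) : ℂ)) :=
    Complex.continuous_ofReal.comp (Real.continuous_exp.comp (continuous_const.mul continuous_id))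
  -- the three integrands
  set hA : ℝ → ℂ → ℂ := fun s ζ => (2 * I * (κ s : ℂ) * g s * (Real.exp (2 * s) : ℂ)) *
    (1 + psi ζ ^ 2 * (Real.exp (-2 * s) : ℂ)) ^ (-(1 / 2) : ℂ) with hAdef
  set hB : ℝ → ℂ → ℂ := fun s ζ => (2 * (κ s : ℂ) ^ 2 * g s * (Real.exp (2 * s) : ℂ)) *
    (1 / (y s (psi ζ) * nu κ y s (psi ζ))) with hBdef
  set hC : ℝ → ℝ → ℂ → ℂ := fun s s' ζ => (2 * (κ s : ℂ) * (κ s' : ℂ) * g s' *
    (Real.exp (2 * s) : ℂ)) * ((ww |s' - s| (y s (psi ζ)) - 1) / nu κ y s (psi ζ)) with hCdef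
  have cA : ContinuousOn (fun p : ℝ × ℂ => hA p.1 p.2) (Icc 0 S ×ˢ ball (0 : ℂ) 1) := by
    refine ContinuousOn.mul (Continuous.continuousOn ?_) IdLX.fA_cont
    exact (((continuous_const.mul (hκc.comp continuous_fst)).mul (hgc.comp continuous_fst)).mul
      (hec.comp continuous_fst))
  have cB : ContinuousOn (fun p : ℝ × ℂ => hB p.1 p.2) (Icc 0 S ×ˢ ball (0 : ℂ) 1) := by
    refine ContinuousOn.mul (Continuous.continuousOn ?_) (IdLX.fB_cont hH hD hF)
    exact (((continuous_const.mul ((hκc.comp continuous_fst).pow 2)).mul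
      (hgc.comp continuous_fst)).mul (hec.comp continuous_fst))
  have cC : ContinuousOn (fun p : ℝ × ℝ × ℂ => hC p.1 p.2.1 p.2.2)
      (Icc 0 S ×ˢ (Icc 0 S ×ˢ ball (0 : ℂ) 1)) := by
    refine ContinuousOn.mul (Continuous.continuousOn ?_) (IdLX.fC_cont hH hD hF)
    have hs' : Continuous (fun p : ℝ × ℝ × ℂ => p.2.1) := continuous_fst.comp continuous_snd
    exact ((((continuous_const.mul (hκc.comp continuous_fst)).mul (hκc.comp hs')).mul
      (hgc.comp hs')).mul (hec.comp continuous_fst))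
  have dA : ∀ s ∈ Icc (0 : ℝ) S, DifferentiableOn ℂ (hA s) (ball 0 1) := fun s _ =>
    (differentiableOn_const _).mul (IdLX.fA_diff s)
  have dB : ∀ s ∈ Icc (0 : ℝ) S, DifferentiableOn ℂ (hB s) (ball 0 1) := fun s hs =>
    (differentiableOn_const _).mul (IdLX.fB_diff hH hD hF hs)
  have dC : ∀ s ∈ Icc (0 : ℝ) S, ∀ s' ∈ Icc (0 : ℝ) S, DifferentiableOn ℂ (hC s s') (ball 0 1) :=
    fun s hs s' _ => (differentiableOn_const _).mul (IdLX.fC_diff hH hD hF hs (abs_nonneg _))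
  obtain ⟨dA', -, eA⟩ := hS lam hsm z hz 0 S hD.Sp.le hA cA dA
  obtain ⟨dB', -, eB⟩ := hS lam hsm z hz 0 S hD.Sp.le hB cB dB
  obtain ⟨dC', eC⟩ := hS2 lam hsm z hz S hD.Sp.le hC cC dC
  have dpsi : DifferentiableOn ℂ (fun ζ => psi ζ ^ 2) (ball 0 1) := IdLX.psi_diff.pow 2
  -- the identity
  have key : EqOn (fun ζ => XX y S (psi ζ)) (fun ζ => 1 * (1 * psi ζ ^ 2 + 1 * ∫ s in (0 : ℝ)..S, hA s ζ) +
      1 * ((-1) * (∫ s in (0 : ℝ)..S, hB s ζ) + 1 *
        ∫ s' in (0 : ℝ)..S, ∫ s in (0 : ℝ)..s', hC s s' ζ)) (ball 0 1) := by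
    intro ζ hζ
    have h1 := hI κ S y hD hF g hg (psi ζ) (IdLX.psi_mem hζ)
    have h3 : (∫ s' in (0 : ℝ)..S, ∫ s in (0 : ℝ)..s', 2 * (κ s : ℂ) * (κ s' : ℂ) * g s' *
        (Real.exp (2 * s) : ℂ) * ((ww (s' - s) (y s (psi ζ)) - 1) / nu κ y s (psi ζ))) =
        ∫ s' in (0 : ℝ)..S, ∫ s in (0 : ℝ)..s', hC s s' ζ := by
      refine intervalIntegral.integral_congr fun s' hs' => ?_
      rw [uIcc_of_le hD.Sp.le] at hs'
      refine intervalIntegral.integral_congr fun s hs => ?_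
      rw [uIcc_of_le hs'.1] at hs
      simp only [hCdef]
      rw [abs_of_nonneg (sub_nonneg.2 hs.2)]
    rw [h3] at h1
    have h2 : XX y S (psi ζ) = psi ζ ^ 2 + ((∫ s in (0 : ℝ)..S, hA s ζ) -
        (∫ s in (0 : ℝ)..S, hB s ζ) + ∫ s' in (0 : ℝ)..S, ∫ s in (0 : ℝ)..s', hC s s' ζ) := by
      rw [← h1]; ring
    show XX y S (psi ζ) = _
    rw [h2]; ring
  have d1 : DifferentiableOn ℂ (fun ζ => 1 * psi ζ ^ 2 + 1 * ∫ s in (0 : ℝ)..S, hA s ζ)
      (ball 0 1) := ((differentiableOn_const _).mul dpsi).add ((differentiableOn_const _).mul dA')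
  have d2 : DifferentiableOn ℂ (fun ζ => (-1) * (∫ s in (0 : ℝ)..S, hB s ζ) + 1 *
      ∫ s' in (0 : ℝ)..S, ∫ s in (0 : ℝ)..s', hC s s' ζ) (ball 0 1) :=
    ((differentiableOn_const _).mul dB').add ((differentiableOn_const _).mul dC')
  have d3 : DifferentiableOn ℂ (fun ζ => 1 * (1 * psi ζ ^ 2 + 1 * ∫ s in (0 : ℝ)..S, hA s ζ) +
      1 * ((-1) * (∫ s in (0 : ℝ)..S, hB s ζ) + 1 *
        ∫ s' in (0 : ℝ)..S, ∫ s in (0 : ℝ)..s', hC s s' ζ)) (ball 0 1) :=
    ((differentiableOn_const _).mul d1).add ((differentiableOn_const _).mul d2)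
  have e0 : LL lam (fun ζ => XX y S (psi ζ)) z = LL lam (fun ζ => psi ζ ^ 2) z +
      LL lam (fun ζ => ∫ s in (0 : ℝ)..S, hA s ζ) z - LL lam (fun ζ => ∫ s in (0 : ℝ)..S, hB s ζ) z +
      LL lam (fun ζ => ∫ s' in (0 : ℝ)..S, ∫ s in (0 : ℝ)..s', hC s s' ζ) z := by
    rw [(hL lam hsm z hz).2 _ _ (d3.congr key) key, IdLX.LL_comb hsm hz hL 1 1 d1 d2,
      IdLX.LL_comb hsm hz hL 1 1 dpsi dA', IdLX.LL_comb hsm hz hL (-1) 1 dB' dC']
    ring
  have eA' : (∫ s in (0 : ℝ)..S, LL lam (hA s) z) = ∫ s in (0 : ℝ)..S, (κ s : ℂ) * g s * ell lam z s := by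
    refine intervalIntegral.integral_congr fun s _ => ?_
    show LL lam (hA s) z = _
    rw [hAdef, IdLX.LL_cmul hsm hz hL _ (IdLX.fA_diff s)]
    unfold ell
    ring
  have eB' : (∫ s in (0 : ℝ)..S, LL lam (hB s) z) =
      ∫ s in (0 : ℝ)..S, 2 * (κ s : ℂ) ^ 2 * g s * ((Real.exp (2 * s) : ℂ) *
        LL lam (fun ζ => 1 / (y s (psi ζ) * nu κ y s (psi ζ))) z) := by
    refine intervalIntegral.integral_congr fun s hs => ?_
    rw [uIcc_of_le hD.Sp.le] at hs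
    show LL lam (hB s) z = _
    rw [hBdef, IdLX.LL_cmul hsm hz hL _ (IdLX.fB_diff hH hD hF hs)]
    ring
  have eC' : (∫ s' in (0 : ℝ)..S, ∫ s in (0 : ℝ)..s', LL lam (hC s s') z) =
      ∫ s' in (0 : ℝ)..S, ∫ s in (0 : ℝ)..s', 2 * (κ s : ℂ) * (κ s' : ℂ) * g s' *
        ((Real.exp (2 * s) : ℂ) *
          LL lam (fun ζ => (ww (s' - s) (y s (psi ζ)) - 1) / nu κ y s (psi ζ)) z) := by
    refine intervalIntegral.integral_congr fun s' hs' => ?_
    rw [uIcc_of_le hD.Sp.le] at hs'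
    refine intervalIntegral.integral_congr fun s hs => ?_
    rw [uIcc_of_le hs'.1] at hs
    show LL lam (hC s s') z = _
    rw [hCdef]
    have hab : |s' - s| = s' - s := abs_of_nonneg (sub_nonneg.2 hs.2)
    simp only [hab]
    rw [IdLX.LL_cmul hsm hz hL _ (IdLX.fC_diff hH hD hF ⟨hs.1, hs.2.trans hs'.2⟩
      (sub_nonneg.2 hs.2))]
    ring
  rw [e0, eA, eB, eC, eA', eB', eC']
  ring

end Pool.Agent.MultS.LB

end

section

/-!
# The identity for `X_S - W^2`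
-/

set_option autoImplicit false

open Complex Metric Set Filter Topology MeasureTheory
open Pool.Agent.MultS.Lip

namespace Pool.Agent.MultS.LB

namespace IdentX

theorem slit {y : ℂ} (hy : 0 < y.re) {a b : ℝ} (ha : 0 ≤ a) (hb : 0 < b) :
    (a : ℂ) + (b : ℂ) * y ^ 2 ∈ slitPlane := by
  rw [mem_slitPlane_iff]
  by_cases h : y.im = 0
  · left
    have : ((a : ℂ) + (b : ℂ) * y ^ 2).re = a + b * (y.re * y.re) := by
      simp [pow_two, h]
    rw [this]
    positivity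
  · right
    have : ((a : ℂ) + (b : ℂ) * y ^ 2).im = b * (2 * (y.re * y.im)) := by
      simp [pow_two, -mul_eq_mul_left_iff]; ring
    rw [this]
    have h1 : y.re * y.im ≠ 0 := mul_ne_zero hy.ne' h
    exact mul_ne_zero hb.ne' (mul_ne_zero two_ne_zero h1)

theorem slit' {y : ℂ} (hy : 0 < y.re) {t : ℝ} (ht : 0 ≤ t) :
    1 + (Real.exp (-2 * t) : ℂ) * (y ^ 2 - 1) ∈ slitPlane := by
  have h1 : Real.exp (-2 * t) ≤ 1 := by
    rw [Real.exp_le_one_iff]; linarith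
  have := slit hy (sub_nonneg.2 h1) (Real.exp_pos (-2 * t))
  convert! this using 1
  push_cast
  ring

variable {κ : ℝ → ℝ} {S : ℝ} {y : ℝ → ℂ → ℂ}

theorem nu_re (s : ℝ) (W : ℂ) : (nu κ y s W).re = (y s W).re := by
  simp [nu]

theorem nu_ne (hF : Fl κ S y) {W : ℂ} (hW : W ∈ Hp) {s : ℝ} (hs : s ∈ Icc (0 : ℝ) S) :
    nu κ y s W ≠ 0 := by
  intro h
  have h1 := hF.pos s hs W hW
  rw [← nu_re (κ := κ), h] at h1
  simp at h1

theorem y_ne (hF : Fl κ S y) {W : ℂ} (hW : W ∈ Hp) {s : ℝ} (hs : s ∈ Icc (0 : ℝ) S) :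
    y s W ≠ 0 := by
  intro h
  have h1 := hF.pos s hs W hW
  rw [h] at h1
  simp at h1

theorem cont_y (hF : Fl κ S y) {W : ℂ} (hW : W ∈ Hp) :
    ContinuousOn (fun s => y s W) (Icc 0 S) :=
  fun s hs => (hF.ode W hW s hs).continuousWithinAt

theorem cont_nu (hκ : Continuous κ) (hF : Fl κ S y) {W : ℂ} (hW : W ∈ Hp) :
    ContinuousOn (fun s => nu κ y s W) (Icc 0 S) :=
  (cont_y hF hW).sub (continuous_const.mul (continuous_ofReal.comp hκ)).continuousOn

theorem cont_E (a : ℝ) (b : ℝ) : Continuous fun s : ℝ => (Real.exp (a * (b - s)) : ℂ) :=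
  continuous_ofReal.comp (Real.continuous_exp.comp (continuous_const.mul
    (continuous_const.sub continuous_id)))

theorem cont_E2 (a : ℝ) : Continuous fun s : ℝ => (Real.exp (a * s) : ℂ) :=
  continuous_ofReal.comp (Real.continuous_exp.comp (continuous_const.mul continuous_id))

/-- `∫_0^s 2 i κ e^{2x}/ν = X_s - W²` -/
theorem int_X (hX : FlX) (hD : Drv κ S) (hF : Fl κ S y) {W : ℂ} (hW : W ∈ Hp) {s : ℝ}
    (hs : s ∈ Icc (0 : ℝ) S) :
    ∫ x in (0 : ℝ)..s, 2 * I * (κ x : ℂ) * (Real.exp (2 * x) : ℂ) / nu κ y x W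
      = XX y s W - W ^ 2 := by
  have hκ : Continuous κ := hD.c1.continuous
  have hsub : Icc (0 : ℝ) s ⊆ Icc 0 S := Icc_subset_Icc_right hs.2
  have h0 : XX y 0 W = W ^ 2 := by
    unfold XX
    rw [hF.ini W hW]
    simp
  rw [← h0]
  refine intervalIntegral.integral_eq_sub_of_hasDerivAt_of_le hs.1 ?_ ?_ ?_
    (f := fun x => XX y x W)
  · intro x hx
    exact ((hX κ S y hD hF x (hsub hx) W hW).1.continuousWithinAt).mono hsub
  · intro x hx
    have hx' : x ∈ Ioo (0 : ℝ) S := ⟨hx.1, hx.2.trans_le hs.2⟩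
    exact (hX κ S y hD hF x (Ioo_subset_Icc_self hx') W hW).1.hasDerivAt
      (Icc_mem_nhds hx'.1 hx'.2)
  · refine ContinuousOn.intervalIntegrable ?_
    rw [uIcc_of_le hs.1]
    refine ContinuousOn.div ?_ ((cont_nu hκ hF hW).mono hsub) fun x hx => nu_ne hF hW (hsub hx)
    exact ((continuous_const.mul (continuous_ofReal.comp hκ)).mul (cont_E2 2)).continuousOn

/-- the inner integral -/
theorem inner (hX : FlX) (hA : IdA) (hD : Drv κ S) (hF : Fl κ S y) {W : ℂ} (hW : W ∈ Hp)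
    {s' : ℝ} (hs : s' ∈ Icc (0 : ℝ) S) (g : ℂ) :
    (∫ s in (0 : ℝ)..s', 2 * (κ s : ℂ) * (κ s' : ℂ) * g *
        (Real.exp (2 * s) : ℂ) * ((ww (s' - s) (y s W) - 1) / nu κ y s W))
      = I * (κ s' : ℂ) * g * (2 * (Real.exp (2 * s') : ℂ) * (1 / y s' W -
          (1 + W ^ 2 * (Real.exp (-2 * s') : ℂ)) ^ (-(1 / 2) : ℂ)) + (XX y s' W - W ^ 2)) := by
  have hκ : Continuous κ := hD.c1.continuous
  have hsub : Icc (0 : ℝ) s' ⊆ Icc 0 S := Icc_subset_Icc_right hs.2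
  set A : ℝ → ℂ := fun s => (κ s : ℂ) * (Real.exp (-2 * (s' - s)) : ℂ) * ww (s' - s) (y s W) /
        nu κ y s W with hAdef
  set B : ℝ → ℂ := fun s => 2 * I * (κ s : ℂ) * (Real.exp (2 * s) : ℂ) / nu κ y s W with hBdef
  have hAi : IntervalIntegrable A volume 0 s' := by
    refine ContinuousOn.intervalIntegrable ?_
    rw [uIcc_of_le hs.1]
    refine ContinuousOn.div ?_ ((cont_nu hκ hF hW).mono hsub) fun x hx => nu_ne hF hW (hsub hx)
    refine ContinuousOn.mul ((continuous_ofReal.comp hκ).mul (cont_E (-2) s')).continuousOn ?_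
    unfold ww
    refine ContinuousOn.cpow ?_ continuousOn_const ?_
    · exact continuousOn_const.add (((cont_E (-2) s').continuousOn).mul
        ((((cont_y hF hW).mono hsub).pow 2).sub continuousOn_const))
    · intro s hs1
      exact slit' (hF.pos s (hsub hs1) W hW) (sub_nonneg.2 hs1.2)
  have hBi : IntervalIntegrable B volume 0 s' := by
    refine ContinuousOn.intervalIntegrable ?_
    rw [uIcc_of_le hs.1]
    refine ContinuousOn.div ?_ ((cont_nu hκ hF hW).mono hsub) fun x hx => nu_ne hF hW (hsub hx)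
    exact ((continuous_const.mul (continuous_ofReal.comp hκ)).mul (cont_E2 2)).continuousOn
  have e1 : (∫ s in (0 : ℝ)..s', 2 * (κ s : ℂ) * (κ s' : ℂ) * g *
        (Real.exp (2 * s) : ℂ) * ((ww (s' - s) (y s W) - 1) / nu κ y s W))
      = ∫ s in (0 : ℝ)..s', ((2 * (κ s' : ℂ) * g * (Real.exp (2 * s') : ℂ)) * A s
          + (I * (κ s' : ℂ) * g) * B s) := by
    refine intervalIntegral.integral_congr fun s _ => ?_
    have hE : (Real.exp (2 * s') : ℂ) * (Real.exp (-2 * (s' - s)) : ℂ)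
        = (Real.exp (2 * s) : ℂ) := by
      rw [← ofReal_mul, ← Real.exp_add]
      congr 2
      ring
    have hI : I * I = -1 := I_mul_I
    simp only [hAdef, hBdef]
    rw [← hE]
    linear_combination (-2 * (κ s' : ℂ) * g * (κ s : ℂ) * (Real.exp (2 * s') : ℂ) *
      (Real.exp (-2 * (s' - s)) : ℂ) / nu κ y s W) * hI
  rw [e1, intervalIntegral.integral_add (hAi.const_mul _) (hBi.const_mul _),
    intervalIntegral.integral_const_mul, intervalIntegral.integral_const_mul,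
    int_X hX hD hF hW hs]
  have h2 := hA κ S y hD hF W hW s' hs
  have h3 : (∫ s in (0 : ℝ)..s', A s) = I * (1 / y s' W -
      (1 + W ^ 2 * (Real.exp (-2 * s') : ℂ)) ^ (-(1 / 2) : ℂ)) := by
    rw [h2]
    linear_combination (∫ s in (0 : ℝ)..s', A s) * I_mul_I
  rw [h3]
  ring

end IdentX

open IdentX

theorem prfIdent (hX : FlX) (hA : IdA) : Ident := by
  intro κ S y hD hF g hg W hW
  have hκ : Continuous κ := hD.c1.continuous
  have hS : 0 ≤ S := hD.Sp.le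
  have hSm : S ∈ Icc (0 : ℝ) S := ⟨hS, le_rfl⟩
  have h0 : XX y 0 W = W ^ 2 := by
    unfold XX
    rw [hF.ini W hW]
    simp
  -- the function `g`
  have hgd : ∀ s, HasDerivAt g (I * (κ s : ℂ) * g s) s := by
    intro s
    have h1 : HasDerivAt (fun s => ∫ x in s..S, κ x) (-κ s) s :=
      intervalIntegral.integral_hasDerivAt_left (hκ.intervalIntegrable _ _)
        hκ.stronglyMeasurable.stronglyMeasurableAtFilter hκ.continuousAt
    have h2 : HasDerivAt (fun s => Complex.exp (-I * ((∫ x in s..S, κ x : ℝ) : ℂ)))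
        (Complex.exp (-I * ((∫ x in s..S, κ x : ℝ) : ℂ)) * (-I * ((-κ s : ℝ) : ℂ))) s :=
      ((h1.ofReal_comp).const_mul (-I)).cexp
    have h3 : g = fun s => Complex.exp (-I * ((∫ x in s..S, κ x : ℝ) : ℂ)) := funext hg
    have h4 : I * (κ s : ℂ) * g s
        = Complex.exp (-I * ((∫ x in s..S, κ x : ℝ) : ℂ)) * (-I * ((-κ s : ℝ) : ℂ)) := by
      rw [hg s]
      push_cast
      ring
    rw [h4, h3]
    exact h2
  have hgc : Continuous g := continuous_iff_continuousAt.2 fun s => (hgd s).continuousAt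
  have hgS : g S = 1 := by rw [hg S]; simp
  have hκc : Continuous fun s => (κ s : ℂ) := continuous_ofReal.comp hκ
  have hyc := cont_y hF hW
  have hνc := cont_nu hκ hF hW
  have hXc : ContinuousOn (fun s => XX y s W) (Icc 0 S) := fun x hx =>
    (hX κ S y hD hF x hx W hW).1.continuousWithinAt
  have hqc : ContinuousOn (fun s : ℝ => (1 + W ^ 2 * (Real.exp (-2 * s) : ℂ)) ^ (-(1 / 2) : ℂ))
      (Icc 0 S) := by
    refine ContinuousOn.cpow (continuous_const.add (continuous_const.mul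
      (cont_E2 (-2)))).continuousOn continuousOn_const ?_
    intro s _
    have := slit (y := W) hW zero_le_one (Real.exp_pos (-2 * s))
    rw [mul_comm]
    simpa using this
  -- the three integrands
  have ca : ContinuousOn (fun s : ℝ => 2 * I * (κ s : ℂ) * g s * (Real.exp (2 * s) : ℂ) *
        (1 + W ^ 2 * (Real.exp (-2 * s) : ℂ)) ^ (-(1 / 2) : ℂ)) (Icc 0 S) :=
    (((continuous_const.mul hκc).mul hgc).mul (cont_E2 2)).continuousOn.mul hqc
  have cb : ContinuousOn (fun s : ℝ => 2 * (κ s : ℂ) ^ 2 * g s * (Real.exp (2 * s) : ℂ) *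
        (1 / (y s W * nu κ y s W))) (Icc 0 S) := by
    refine (((continuous_const.mul (hκc.pow 2)).mul hgc).mul (cont_E2 2)).continuousOn.mul ?_
    exact continuousOn_const.div (hyc.mul hνc) fun s hs =>
      mul_ne_zero (y_ne hF hW hs) (nu_ne hF hW hs)
  have cc : ContinuousOn (fun s' : ℝ => I * (κ s' : ℂ) * g s' *
      (2 * (Real.exp (2 * s') : ℂ) * (1 / y s' W -
          (1 + W ^ 2 * (Real.exp (-2 * s') : ℂ)) ^ (-(1 / 2) : ℂ)) + (XX y s' W - W ^ 2)))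
      (Icc 0 S) := by
    refine ((continuous_const.mul hκc).mul hgc).continuousOn.mul ?_
    refine ContinuousOn.add ?_ (hXc.sub continuousOn_const)
    refine ((continuous_const.mul (cont_E2 2)).continuousOn).mul ?_
    exact (continuousOn_const.div hyc fun s hs => y_ne hF hW hs).sub hqc
  have eC : (∫ s' in (0 : ℝ)..S, ∫ s in (0 : ℝ)..s', 2 * (κ s : ℂ) * (κ s' : ℂ) * g s' *
        (Real.exp (2 * s) : ℂ) * ((ww (s' - s) (y s W) - 1) / nu κ y s W))
      = ∫ s' in (0 : ℝ)..S, I * (κ s' : ℂ) * g s' *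
      (2 * (Real.exp (2 * s') : ℂ) * (1 / y s' W -
          (1 + W ^ 2 * (Real.exp (-2 * s') : ℂ)) ^ (-(1 / 2) : ℂ)) + (XX y s' W - W ^ 2)) := by
    refine intervalIntegral.integral_congr fun s' hs' => ?_
    rw [uIcc_of_le hS] at hs'
    exact inner hX hA hD hF hW hs' (g s')
  have ia : IntervalIntegrable _ volume 0 S := ContinuousOn.intervalIntegrable
    (by rw [uIcc_of_le hS]; exact ca)
  have ib : IntervalIntegrable _ volume 0 S := ContinuousOn.intervalIntegrable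
    (by rw [uIcc_of_le hS]; exact cb)
  have ic : IntervalIntegrable _ volume 0 S := ContinuousOn.intervalIntegrable
    (by rw [uIcc_of_le hS]; exact cc)
  rw [eC, ← intervalIntegral.integral_sub ia ib, ← intervalIntegral.integral_add (ia.sub ib) ic]
  -- the fundamental theorem
  have key : (∫ s in (0 : ℝ)..S, (I * (κ s : ℂ) * g s * (XX y s W - W ^ 2) +
      g s * (2 * I * (κ s : ℂ) * (Real.exp (2 * s) : ℂ) / nu κ y s W)))
      = g S * (XX y S W - W ^ 2) - g 0 * (XX y 0 W - W ^ 2) := by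
    refine intervalIntegral.integral_eq_sub_of_hasDerivAt_of_le hS ?_ ?_ ?_
      (f := fun s => g s * (XX y s W - W ^ 2))
    · exact hgc.continuousOn.mul (hXc.sub continuousOn_const)
    · intro x hx
      have h1 := (hX κ S y hD hF x (Ioo_subset_Icc_self hx) W hW).1.hasDerivAt
        (Icc_mem_nhds hx.1 hx.2)
      exact (hgd x).mul (h1.sub_const _)
    · refine ContinuousOn.intervalIntegrable ?_
      rw [uIcc_of_le hS]
      refine ContinuousOn.add (((continuous_const.mul hκc).mul hgc).continuousOn.mul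
        (hXc.sub continuousOn_const)) (hgc.continuousOn.mul ?_)
      exact ((continuous_const.mul hκc).mul (cont_E2 2)).continuousOn.div hνc
        fun x hx => nu_ne hF hW hx
  rw [h0, hgS, sub_self, mul_zero, sub_zero, one_mul] at key
  rw [← key]
  refine intervalIntegral.integral_congr fun s hs => ?_
  rw [uIcc_of_le hS] at hs
  have hy0 := y_ne hF hW hs
  have hν0 := nu_ne hF hW hs
  have hν : nu κ y s W = y s W - I * (κ s : ℂ) := rfl
  have e : 1 / nu κ y s W = 1 / y s W + I * (κ s : ℂ) * (1 / (y s W * nu κ y s W)) := by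
    have h5 : nu κ y s W + I * (κ s : ℂ) = y s W := by rw [hν]; ring
    field_simp
    exact h5.symm
  have e2 : 2 * I * (κ s : ℂ) * (Real.exp (2 * s) : ℂ) / nu κ y s W
      = 2 * I * (κ s : ℂ) * (Real.exp (2 * s) : ℂ) * (1 / nu κ y s W) := by
    rw [mul_one_div]
  rw [e2, e]
  linear_combination (2 * (κ s : ℂ) ^ 2 * g s * (Real.exp (2 * s) : ℂ) *
    (1 / (y s W * nu κ y s W))) * I_mul_I

end Pool.Agent.MultS.LB

end

section

/-!
# [K2] An integral
-/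

set_option autoImplicit false

open MeasureTheory Set Metric Filter Topology
open scoped ENNReal

namespace Pool.Agent.MultS.LB

namespace J2X

lemma near : ∫⁻ y in ball (0 : ℂ) 1, ENNReal.ofReal (‖y‖ ^ (-(3 / 2) : ℝ)) < ∞ := by
  have h : IntegrableOn (fun y : ℂ => (fun r : ℝ => r ^ (-(3 / 2) : ℝ)) ‖y‖) (ball 0 1) volume := by
    refine (integrableOn_fun_norm_addHaar (E := ℂ) volume
      (f := fun r : ℝ => r ^ (-(3 / 2) : ℝ)) (r := 1)).2 ?_
    have h1 : IntegrableOn (fun r : ℝ => r ^ (-(1 / 2) : ℝ)) (Ioo 0 1) volume :=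
      (intervalIntegral.integrableOn_Ioo_rpow_iff one_pos).2 (by norm_num)
    refine h1.congr_fun (fun r hr => ?_) measurableSet_Ioo
    have hr0 : 0 < r := hr.1
    simp only [Complex.finrank_real_complex, smul_eq_mul]
    rw [show (2 : ℕ) - 1 = 1 from rfl, pow_one]
    conv_rhs => rw [← Real.rpow_one r]
    rw [Real.rpow_one, ← Real.rpow_one_add' hr0.le (by norm_num)]
    norm_num
  exact h.lintegral_lt_top

lemma far : ∫⁻ y : ℂ, ENNReal.ofReal (2 * ((1 + ‖y‖) ^ 3)⁻¹) < ∞ := by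
  have h : Integrable (fun y : ℂ => (1 + ‖y‖) ^ (-(3 : ℝ))) volume := by
    apply integrable_one_add_norm
    simp
    norm_num
  have h2 : Integrable (fun y : ℂ => 2 * ((1 + ‖y‖) ^ 3)⁻¹) volume := by
    refine (h.const_mul 2).congr (Eventually.of_forall fun y => ?_)
    have h0 : 0 ≤ 1 + ‖y‖ := by positivity
    simp only
    rw [Real.rpow_neg h0]
    norm_cast
  exact h2.lintegral_lt_top

end J2X

open J2X

theorem prfJ2 : J2 := by
  have hA : (∫⁻ y : ℂ, ENNReal.ofReal (2 * ((1 + ‖y‖) ^ 3)⁻¹)) +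
      (∫⁻ y in ball (0 : ℂ) 1, ENNReal.ofReal (‖y‖ ^ (-(3 / 2) : ℝ))) < ∞ :=
    ENNReal.add_lt_top.2 ⟨far, near⟩
  refine ⟨((∫⁻ y : ℂ, ENNReal.ofReal (2 * ((1 + ‖y‖) ^ 3)⁻¹)) +
      (∫⁻ y in ball (0 : ℂ) 1, ENNReal.ofReal (‖y‖ ^ (-(3 / 2) : ℝ)))).toReal + 1,
      by positivity, fun c => ?_⟩
  set F : ℂ → ℝ≥0∞ := (ball (0 : ℂ) 1).indicator
    (fun y => ENNReal.ofReal (‖y‖ ^ (-(3 / 2) : ℝ))) with hF
  have hpt : ∀ y : ℂ, ENNReal.ofReal (((1 + ‖y‖) ^ 3)⁻¹ * (1 + ‖y - c‖ ^ (-(3 / 2) : ℝ))) ≤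
      ENNReal.ofReal (2 * ((1 + ‖y‖) ^ 3)⁻¹) + F (y - c) := by
    intro y
    have h0 : 1 ≤ (1 + ‖y‖) ^ 3 := one_le_pow₀ (by linarith [norm_nonneg y])
    have h1 : 0 < ((1 + ‖y‖) ^ 3)⁻¹ := by positivity
    have h2 : ((1 + ‖y‖) ^ 3)⁻¹ ≤ 1 := inv_le_one_of_one_le₀ h0
    have h3 : 0 ≤ ‖y - c‖ ^ (-(3 / 2) : ℝ) := by positivity
    by_cases h : ‖y - c‖ < 1
    · have hm : y - c ∈ ball (0 : ℂ) 1 := by simpa using h
      rw [hF, indicator_of_mem hm, ← ENNReal.ofReal_add (by positivity) h3]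
      apply ENNReal.ofReal_le_ofReal
      nlinarith
    · push Not at h
      have h4 : ‖y - c‖ ^ (-(3 / 2) : ℝ) ≤ 1 :=
        Real.rpow_le_one_of_one_le_of_nonpos h (by norm_num)
      refine le_trans (ENNReal.ofReal_le_ofReal ?_) (le_add_of_nonneg_right bot_le)
      nlinarith
  have hFm : Measurable F := by
    apply Measurable.indicator _ measurableSet_ball
    fun_prop
  calc ∫⁻ y : ℂ, ENNReal.ofReal (((1 + ‖y‖) ^ 3)⁻¹ * (1 + ‖y - c‖ ^ (-(3 / 2) : ℝ)))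
      ≤ ∫⁻ y : ℂ, (ENNReal.ofReal (2 * ((1 + ‖y‖) ^ 3)⁻¹) + F (y - c)) := lintegral_mono hpt
    _ = (∫⁻ y : ℂ, ENNReal.ofReal (2 * ((1 + ‖y‖) ^ 3)⁻¹)) + ∫⁻ y : ℂ, F (y - c) := by
        apply lintegral_add_left
        fun_prop
    _ = (∫⁻ y : ℂ, ENNReal.ofReal (2 * ((1 + ‖y‖) ^ 3)⁻¹)) +
        ∫⁻ y in ball (0 : ℂ) 1, ENNReal.ofReal (‖y‖ ^ (-(3 / 2) : ℝ)) := by
        rw [lintegral_sub_right_eq_self F c, hF, lintegral_indicator measurableSet_ball]
    _ = ENNReal.ofReal (((∫⁻ y : ℂ, ENNReal.ofReal (2 * ((1 + ‖y‖) ^ 3)⁻¹)) +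
      (∫⁻ y in ball (0 : ℂ) 1, ENNReal.ofReal (‖y‖ ^ (-(3 / 2) : ℝ)))).toReal) :=
        (ENNReal.ofReal_toReal hA.ne).symm
    _ ≤ _ := ENNReal.ofReal_le_ofReal (by linarith)

end Pool.Agent.MultS.LB

end

section

/-!
# `L` is linear and kills constants
-/

set_option autoImplicit false

open Complex Metric Set Filter Topology MeasureTheory
open Pool.Agent.MultS.Lip

namespace Pool.Agent.MultS.LB

namespace LinPX

theorem tc_const (c : ℂ) (n : ℕ) : tc (fun _ => c) (n + 1) = 0 := by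
  have h : ∀ z ∈ ball (0 : ℂ) 1,
      HasSum (fun n => (if n = 0 then c else 0) * z ^ n) ((fun _ : ℂ => c) z) := by
    intro z _
    have := hasSum_ite_eq (0 : ℕ) c
    refine this.congr_fun ?_ |> fun h => h
    intro n
    by_cases hn : n = 0
    · simp [hn]
    · simp [hn]
  rw [tc_of_hasSum h, if_neg (Nat.succ_ne_zero n)]

theorem LL_const (lam : ℕ → ℂ) (c z : ℂ) : LL lam (fun _ => c) z = 0 := by
  unfold LL
  simp only [tc_const, mul_zero, zero_mul, tsum_zero]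

theorem cont_circle {h : ℂ → ℂ} (hh : DifferentiableOn ℂ h (ball 0 1)) {ρ : ℝ} (h0 : 0 < ρ)
    (h1 : ρ < 1) : Continuous fun θ : ℝ => h (circleMap 0 ρ θ) := by
  refine hh.continuousOn.comp_continuous (continuous_circleMap 0 ρ) fun θ => ?_
  rw [mem_ball_zero_iff, norm_circleMap_zero, abs_of_pos h0]
  exact h1

end LinPX

open LinPX

theorem prfLinP (hKer : Ker) : LinP := by
  intro lam hlam z hz
  obtain ⟨ρ, k, h0, h1, hk, hL⟩ := hKer lam hlam z hz
  refine ⟨?_, ?_⟩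
  · intro f g a b c hf hg
    have hfg : DifferentiableOn ℂ (fun ζ => a * f ζ + b * g ζ + c) (ball 0 1) :=
      ((hf.const_mul a).add (hg.const_mul b)).add (differentiableOn_const c)
    have hc : DifferentiableOn ℂ (fun _ : ℂ => c) (ball 0 1) := differentiableOn_const c
    have hLc := hL _ hc
    rw [LL_const] at hLc
    rw [hL _ hfg, hL _ hf, hL _ hg]
    have cf := cont_circle hf h0 h1
    have cg := cont_circle hg h0 h1
    have i1 : IntervalIntegrable (fun θ => a * (k θ * f (circleMap 0 ρ θ))) volume 0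
        (2 * Real.pi) := ((hk.mul cf).const_mul a).intervalIntegrable _ _
    have i2 : IntervalIntegrable (fun θ => b * (k θ * g (circleMap 0 ρ θ))) volume 0
        (2 * Real.pi) := ((hk.mul cg).const_mul b).intervalIntegrable _ _
    have i3 : IntervalIntegrable (fun θ => k θ * c) volume 0 (2 * Real.pi) :=
      (hk.mul continuous_const).intervalIntegrable _ _
    have e : (fun θ => k θ * (a * f (circleMap 0 ρ θ) + b * g (circleMap 0 ρ θ) + c))
        = fun θ => a * (k θ * f (circleMap 0 ρ θ)) + b * (k θ * g (circleMap 0 ρ θ)) + k θ * c := by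
      funext θ; ring
    rw [e, intervalIntegral.integral_add (i1.add i2) i3, intervalIntegral.integral_add i1 i2,
      intervalIntegral.integral_const_mul, intervalIntegral.integral_const_mul, ← hLc, add_zero]
  · intro f g hf hfg
    have hg : DifferentiableOn ℂ g (ball 0 1) := hf.congr fun x hx => (hfg hx).symm
    rw [hL _ hf, hL _ hg]
    refine intervalIntegral.integral_congr fun θ _ => ?_
    have : circleMap 0 ρ θ ∈ ball (0 : ℂ) 1 := by
      rw [mem_ball_zero_iff, norm_circleMap_zero, abs_of_pos h0]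
      exact h1
    simp only [hfg this]

end Pool.Agent.MultS.LB

end
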