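import Pool.Agent.Work.MP_b17785_an.LB.Stmts2

/-! Bundle of small proof modules (one section per former module). -/

section

/-! # Integrals of the driving function -/

set_option autoImplicit false

open Complex Metric Set Filter Topology MeasureTheory
open Pool.Agent.MultS.Lip
open scoped FourierTransform

namespace Pool.Agent.MultS.LB

namespace KapIX

theorem int_exp_abs : Integrable (fun x : ℝ => Real.exp (-|x|)) := by
  rw [← integrableOn_univ, ← Iic_union_Ioi (a := (0 : ℝ)), integrableOn_union]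
  constructor
  · refine (integrableOn_exp_Iic 0).congr_fun ?_ measurableSet_Iic
    intro x hx
    have hx0 : x ≤ 0 := hx
    show Real.exp x = Real.exp (-|x|)
    rw [abs_of_nonpos hx0, neg_neg]
  · have h := exp_neg_integrableOn_Ioi 0 (one_pos : (0 : ℝ) < 1)
    refine h.congr_fun ?_ measurableSet_Ioi
    intro x hx
    have hx0 : 0 < x := hx
    show Real.exp (-1 * x) = Real.exp (-|x|)
    rw [abs_of_pos hx0]
    ring_nf

theorem int_of_bd {u : ℝ → ℝ} {c : ℝ} (hu : Continuous u)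
    (hb : ∀ x : ℝ, |u x| ≤ c * Real.exp (-|x|)) : Integrable u := by
  refine (int_exp_abs.const_mul c).mono' hu.aestronglyMeasurable ?_
  exact Filter.Eventually.of_forall (fun x => hb x)

theorem shift (u : ℝ → ℝ) (s t : ℝ) :
    ∫ x in Ioi s, u (x - t) = ∫ y in Ioi (s - t), u y := by
  have h := (measurePreserving_sub_right volume t).setIntegral_preimage_emb
    (measurableEmbedding_subRight t) u (Ioi (s - t))
  have e : (fun x : ℝ => x - t) ⁻¹' Ioi (s - t) = Ioi s := by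
    ext x
    show s - t < x - t ↔ s < x
    constructor <;> intro h <;> linarith
  rw [e] at h
  exact h

theorem int_deriv {v : ℝ → ℝ} {c : ℝ} (hv : Dec v c) (τ : ℝ) :
    ∫ y in Ioi τ, deriv v y = - v τ := by
  obtain ⟨hc, hb⟩ := hv
  have hcd : Continuous (deriv v) := hc.continuous_deriv le_rfl
  have hdi : Integrable (deriv v) := int_of_bd hcd (fun x => (hb x).2)
  have ht : Tendsto v atTop (𝓝 0) := by
    have h1 : Tendsto (fun x : ℝ => c * Real.exp (-|x|)) atTop (𝓝 (c * 0)) := by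
      refine Tendsto.const_mul c ?_
      exact Real.tendsto_exp_neg_atTop_nhds_zero.comp tendsto_abs_atTop_atTop
    rw [mul_zero] at h1
    exact squeeze_zero_norm (fun x => (hb x).1) h1
  have h := integral_Ioi_of_hasDerivAt_of_tendsto (a := τ) (f := v) (f' := deriv v)
    hc.continuous.continuousWithinAt
    (fun x _ => (hc.differentiable one_ne_zero x).hasDerivAt) hdi.integrableOn ht
  rw [h, zero_sub]

theorem inner {v : ℝ → ℝ} {c : ℝ} (hv : Dec v c) (h1 : ∀ σ : ℝ, |v σ| ≤ 1)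
    (hI : ∀ τ : ℝ, |∫ σ in Ioi τ, v σ| ≤ Real.pi) (s t : ℝ) :
    |∫ x in Ioi s, (2 * v (x - t) + deriv v (x - t))| ≤ 2 * Real.pi + 1 := by
  have hvi : Integrable v := int_of_bd hv.1.continuous (fun x => (hv.2 x).1)
  have hdi : Integrable (deriv v) :=
    int_of_bd (hv.1.continuous_deriv le_rfl) (fun x => (hv.2 x).2)
  have e1 : ∫ x in Ioi s, (2 * v (x - t) + deriv v (x - t))
      = ∫ y in Ioi (s - t), (2 * v y + deriv v y) :=
    shift (fun y => 2 * v y + deriv v y) s t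
  rw [e1, integral_add (hvi.const_mul 2).integrableOn hdi.integrableOn, integral_const_mul,
    int_deriv hv]
  calc |2 * (∫ y in Ioi (s - t), v y) + -v (s - t)|
      ≤ |2 * (∫ y in Ioi (s - t), v y)| + |-v (s - t)| := abs_add_le _ _
    _ ≤ 2 * Real.pi + 1 := by
      rw [abs_mul, abs_neg, abs_two]
      have := hI (s - t)
      have := h1 (s - t)
      linarith

end KapIX

open KapIX in
theorem prfKapI (hQ : QQ) : KapI := by
  intro v c hv h1 hI s
  obtain ⟨hqi, hq1, hq0, -⟩ := hQ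
  have hvi : Integrable v := int_of_bd hv.1.continuous (fun x => (hv.2 x).1)
  have hdi : Integrable (deriv v) :=
    int_of_bd (hv.1.continuous_deriv le_rfl) (fun x => (hv.2 x).2)
  have hui : Integrable (fun y => 2 * v y + deriv v y) := (hvi.const_mul 2).add hdi
  have hprod : Integrable (fun p : ℝ × ℝ => (2 * v (p.1 - p.2) + deriv v (p.1 - p.2)) * qq p.2)
      ((volume.restrict (Ioi s)).prod (volume.restrict (Ioi (0 : ℝ)))) := by
    have h := Integrable.convolution_integrand (ContinuousLinearMap.mul ℝ ℝ)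
      (μ := (volume : Measure ℝ)) (ν := (volume : Measure ℝ)) hqi hui
    have h' : Integrable (fun p : ℝ × ℝ =>
        (2 * v (p.1 - p.2) + deriv v (p.1 - p.2)) * qq p.2)
        ((volume : Measure ℝ).prod (volume : Measure ℝ)) := by
      refine h.congr (Filter.Eventually.of_forall (fun p => ?_))
      show qq p.2 * (2 * v (p.1 - p.2) + deriv v (p.1 - p.2)) = _
      ring
    rw [Measure.prod_restrict]
    exact h'.mono_measure Measure.restrict_le_self
  have hswap : ∫ x in Ioi s, ∫ t in Ioi (0 : ℝ), (2 * v (x - t) + deriv v (x - t)) * qq t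
      = ∫ t in Ioi (0 : ℝ), ∫ x in Ioi s, (2 * v (x - t) + deriv v (x - t)) * qq t :=
    integral_integral_swap hprod
  have hk : ∫ x in Ioi s, kap v x = Real.pi⁻¹ *
      ∫ t in Ioi (0 : ℝ), (∫ x in Ioi s, (2 * v (x - t) + deriv v (x - t))) * qq t := by
    have e1 : ∫ x in Ioi s, kap v x = ∫ x in Ioi s, Real.pi⁻¹ *
        ∫ t in Ioi (0 : ℝ), (2 * v (x - t) + deriv v (x - t)) * qq t := rfl
    rw [e1, integral_const_mul, hswap]
    congr 1
    refine integral_congr_ae (Filter.Eventually.of_forall (fun t => ?_))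
    exact integral_mul_const _ _
  have hb : |∫ t in Ioi (0 : ℝ), (∫ x in Ioi s, (2 * v (x - t) + deriv v (x - t))) * qq t|
      ≤ 2 * Real.pi + 1 := by
    have h2 : ‖∫ t in Ioi (0 : ℝ), (∫ x in Ioi s, (2 * v (x - t) + deriv v (x - t))) * qq t‖
        ≤ ∫ t in Ioi (0 : ℝ), (2 * Real.pi + 1) * qq t := by
      refine norm_integral_le_of_norm_le (hqi.integrableOn.const_mul _)
        (Filter.Eventually.of_forall (fun t => ?_))
      rw [norm_mul, Real.norm_eq_abs, Real.norm_eq_abs, abs_of_nonneg (hq0 t)]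
      exact mul_le_mul_of_nonneg_right (inner hv h1 hI s t) (hq0 t)
    rw [Real.norm_eq_abs, integral_const_mul] at h2
    have h3 : ∫ t in Ioi (0 : ℝ), qq t ≤ 1 := by
      rw [← hq1]
      exact setIntegral_le_integral hqi (Filter.Eventually.of_forall hq0)
    have h4 : (2 * Real.pi + 1) * ∫ t in Ioi (0 : ℝ), qq t ≤ (2 * Real.pi + 1) * 1 :=
      mul_le_mul_of_nonneg_left h3 (by positivity)
    linarith
  rw [hk, abs_mul, abs_of_pos (inv_pos.2 Real.pi_pos)]
  have h5 : Real.pi⁻¹ * |∫ t in Ioi (0 : ℝ),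
      (∫ x in Ioi s, (2 * v (x - t) + deriv v (x - t))) * qq t|
      ≤ Real.pi⁻¹ * (2 * Real.pi + 1) :=
    mul_le_mul_of_nonneg_left hb (inv_pos.2 Real.pi_pos).le
  have h6 : Real.pi⁻¹ * (2 * Real.pi + 1) ≤ 3 := by
    rw [inv_mul_le_iff₀ Real.pi_pos]
    linarith [Real.pi_gt_three]
  linarith

end Pool.Agent.MultS.LB

end

section

/-!
# `kap v` is square integrable
-/

set_option autoImplicit false

open Complex Metric Set Filter Topology MeasureTheory
open Pool.Agent.MultS.Lip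
open scoped FourierTransform Convolution

namespace Pool.Agent.MultS.LB

namespace KapL2X

theorem intExp : Integrable (fun σ : ℝ => Real.exp (-|σ|)) := by
  refine (integrable_inv_one_add_sq.const_mul 2).mono'
    (by fun_prop : Continuous fun σ : ℝ => Real.exp (-|σ|)).aestronglyMeasurable
    (ae_of_all _ fun σ => ?_)
  rw [Real.norm_eq_abs, abs_of_pos (Real.exp_pos _), Real.exp_neg]
  have h1 : 1 + |σ| + |σ| ^ 2 / 2 ≤ Real.exp |σ| := Real.quadratic_le_exp_of_nonneg (abs_nonneg σ)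
  have h2 : (1 + σ ^ 2) / 2 ≤ Real.exp |σ| := by
    rw [sq_abs] at h1
    have := abs_nonneg σ
    linarith
  have h3 : (0 : ℝ) < (1 + σ ^ 2) / 2 := by positivity
  calc (Real.exp |σ|)⁻¹ ≤ ((1 + σ ^ 2) / 2)⁻¹ := inv_anti₀ h3 h2
    _ = 2 * (1 + σ ^ 2)⁻¹ := by rw [inv_div]; rfl

theorem lin {f g : ℝ → ℂ} (hf : Integrable f) (hg : Integrable g) (a b : ℂ) (ξ : ℝ) :
    𝓕 (fun x => a * f x + b * g x) ξ = a * 𝓕 f ξ + b * 𝓕 g ξ := by
  have h1 := (Real.fourierIntegral_convergent_iff (μ := volume) (f := f) ξ).2 hf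
  have h2 := (Real.fourierIntegral_convergent_iff (μ := volume) (f := g) ξ).2 hg
  rw [Real.fourier_eq, Real.fourier_eq, Real.fourier_eq, ← integral_const_mul,
    ← integral_const_mul, ← integral_add (h1.const_mul a) (h2.const_mul b)]
  congr 1
  ext v
  simp only [Circle.smul_def, smul_eq_mul]
  ring

theorem bnd (hq1 : Integrable qq) (hq2 : ∫ t : ℝ, qq t = 1) (hq0 : ∀ t : ℝ, 0 ≤ qq t)
    (v : ℝ → ℝ) (c : ℝ) (hc : 0 ≤ c) (hv : Dec v c) (s : ℝ) : ‖kap v s‖ ≤ 3 * c := by
  have he : ∀ σ : ℝ, Real.exp (-|σ|) ≤ 1 := fun σ => Real.exp_le_one_iff.2 (by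
    have := abs_nonneg σ; linarith)
  have hu : ∀ σ, |2 * v σ + deriv v σ| ≤ 3 * c := by
    intro σ
    have h1 : |v σ| ≤ c := le_trans (hv.2 σ).1 (by
      have := mul_le_mul_of_nonneg_left (he σ) hc; linarith)
    have h2 : |deriv v σ| ≤ c := le_trans (hv.2 σ).2 (by
      have := mul_le_mul_of_nonneg_left (he σ) hc; linarith)
    calc |2 * v σ + deriv v σ| ≤ |2 * v σ| + |deriv v σ| := abs_add_le _ _
      _ = 2 * |v σ| + |deriv v σ| := by rw [abs_mul, abs_two]
      _ ≤ 3 * c := by linarith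
  have h1 : ‖∫ t in Ioi (0 : ℝ), (2 * v (s - t) + deriv v (s - t)) * qq t‖ ≤
      ∫ t in Ioi (0 : ℝ), 3 * c * qq t := by
    refine norm_integral_le_of_norm_le (hq1.const_mul (3 * c)).integrableOn
      (ae_of_all _ fun t => ?_)
    rw [norm_mul, Real.norm_eq_abs, Real.norm_eq_abs, abs_of_nonneg (hq0 t)]
    exact mul_le_mul_of_nonneg_right (hu _) (hq0 t)
  have h2 : ∫ t in Ioi (0 : ℝ), 3 * c * qq t ≤ 3 * c := by
    calc ∫ t in Ioi (0 : ℝ), 3 * c * qq t ≤ ∫ t : ℝ, 3 * c * qq t :=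
          setIntegral_le_integral (hq1.const_mul (3 * c))
            (ae_of_all _ fun t => mul_nonneg (by linarith) (hq0 t))
      _ = 3 * c := by rw [integral_const_mul, hq2, mul_one]
  have h3 : ‖(Real.pi)⁻¹‖ ≤ 1 := by
    rw [Real.norm_eq_abs, abs_of_pos (inv_pos.2 Real.pi_pos)]
    exact inv_le_one_of_one_le₀ (by have := Real.pi_gt_three; linarith)
  unfold kap
  rw [norm_mul]
  calc _ ≤ 1 * (3 * c) := mul_le_mul h3 (le_trans h1 h2) (norm_nonneg _) zero_le_one
    _ = 3 * c := one_mul _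

theorem conv (v : ℝ → ℝ) (s : ℝ) : (kap v s : ℂ) =
    ((fun t : ℝ => (qq t : ℂ)) ⋆[ContinuousLinearMap.mul ℂ ℂ] fun x : ℝ =>
      (2 * (Real.pi : ℂ)⁻¹) * (v x : ℂ) + (Real.pi : ℂ)⁻¹ * ((deriv v x : ℝ) : ℂ)) s := by
  have h1 : ∫ t in Ioi (0 : ℝ), (2 * v (s - t) + deriv v (s - t)) * qq t =
      ∫ t : ℝ, (2 * v (s - t) + deriv v (s - t)) * qq t := by
    apply setIntegral_eq_integral_of_forall_compl_eq_zero
    intro t ht
    have : qq t = 0 := by unfold qq; rw [if_neg (show ¬ (0 : ℝ) < t from ht)]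
    rw [this, mul_zero]
  unfold kap
  rw [h1, ← integral_const_mul, ← integral_complex_ofReal, convolution_def]
  congr 1
  ext t
  simp only [ContinuousLinearMap.mul_apply']
  push_cast
  ring

end KapL2X

open KapL2X in
theorem prfKapL2 (hPl : Planch) (hQ : QQ) (hR : Rep) : KapL2 := by
  refine ⟨144, by norm_num, ?_⟩
  intro v c hv
  obtain ⟨hq1, hq2, hq0, hqF⟩ := hQ
  obtain ⟨hkc, hki, -⟩ := hR v c hv
  have hc : 0 ≤ c := by
    have h := (hv.2 0).1
    simp only [abs_zero, neg_zero, Real.exp_zero, mul_one] at h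
    exact le_trans (abs_nonneg _) h
  have hvc : Continuous v := hv.1.continuous
  have hdc : Continuous (deriv v) := hv.1.continuous_deriv le_rfl
  have hvi : Integrable v := (intExp.const_mul c).mono' hvc.aestronglyMeasurable
    (ae_of_all _ fun σ => (hv.2 σ).1)
  have hdi : Integrable (deriv v) := (intExp.const_mul c).mono' hdc.aestronglyMeasurable
    (ae_of_all _ fun σ => (hv.2 σ).2)
  have hvb : ∀ σ, |v σ| ≤ c := fun σ => le_trans (hv.2 σ).1 (by
    have h1 : Real.exp (-|σ|) ≤ 1 := Real.exp_le_one_iff.2 (by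
      have := abs_nonneg σ; linarith)
    have := mul_le_mul_of_nonneg_left h1 hc
    linarith)
  have hk2 : Integrable (fun s => kap v s ^ 2) := by
    refine (hki.norm.const_mul (3 * c)).mono' (hkc.pow 2).aestronglyMeasurable
      (ae_of_all _ fun s => ?_)
    rw [norm_pow, sq]
    exact mul_le_mul_of_nonneg_right (bnd hq1 hq2 hq0 v c hc hv s) (norm_nonneg _)
  have hv2 : Integrable (fun s => v s ^ 2) := by
    refine (hvi.norm.const_mul c).mono' (hvc.pow 2).aestronglyMeasurable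
      (ae_of_all _ fun s => ?_)
    rw [norm_pow, sq]
    exact mul_le_mul_of_nonneg_right (hvb s) (norm_nonneg _)
  refine ⟨hk2, ?_⟩
  have hKm : MemLp (fun s : ℝ => (kap v s : ℂ)) 2 := by
    rw [memLp_two_iff_integrable_sq_norm (by fun_prop : Continuous
      fun s : ℝ => (kap v s : ℂ)).aestronglyMeasurable]
    refine hk2.congr (ae_of_all _ fun s => ?_)
    simp
  have hVm : MemLp (fun s : ℝ => (v s : ℂ)) 2 := by
    rw [memLp_two_iff_integrable_sq_norm (by fun_prop : Continuous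
      fun s : ℝ => (v s : ℂ)).aestronglyMeasurable]
    refine hv2.congr (ae_of_all _ fun s => ?_)
    simp
  obtain ⟨hK1, hK2⟩ := hPl (fun s : ℝ => (kap v s : ℂ)) hki.ofReal hKm
  obtain ⟨hV1, hV2⟩ := hPl (fun s : ℝ => (v s : ℂ)) hvi.ofReal hVm
  have eK : ∫ s : ℝ, kap v s ^ 2 = ∫ ξ : ℝ, ‖𝓕 (fun s : ℝ => (kap v s : ℂ)) ξ‖ ^ 2 := by
    rw [hK2]
    congr 1
    ext s
    simp
  have eV : ∫ s : ℝ, v s ^ 2 = ∫ ξ : ℝ, ‖𝓕 (fun s : ℝ => (v s : ℂ)) ξ‖ ^ 2 := by
    rw [hV2]
    congr 1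
    ext s
    simp
  have hFK : ∀ ξ : ℝ, 𝓕 (fun s : ℝ => (kap v s : ℂ)) ξ =
      𝓕 (fun t : ℝ => (qq t : ℂ)) ξ * ((2 * (Real.pi : ℂ)⁻¹) * 𝓕 (fun s : ℝ => (v s : ℂ)) ξ +
        (Real.pi : ℂ)⁻¹ * 𝓕 (fun s : ℝ => ((deriv v s : ℝ) : ℂ)) ξ) := by
    intro ξ
    have e1 : (fun s : ℝ => (kap v s : ℂ)) =
        ((fun t : ℝ => (qq t : ℂ)) ⋆[ContinuousLinearMap.mul ℂ ℂ] fun x : ℝ =>
      (2 * (Real.pi : ℂ)⁻¹) * (v x : ℂ) + (Real.pi : ℂ)⁻¹ * ((deriv v x : ℝ) : ℂ)) :=
      funext fun s => conv v s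
    have e2 : Integrable (fun x : ℝ => (2 * (Real.pi : ℂ)⁻¹) * (v x : ℂ) +
        (Real.pi : ℂ)⁻¹ * ((deriv v x : ℝ) : ℂ)) :=
      (hvi.ofReal.const_mul _).add (hdi.ofReal.const_mul _)
    have e3 : Integrable (fun t : ℝ => (qq t : ℂ)) := hq1.ofReal
    have e4 := Real.fourier_mul_convolution_eq e3 e2 ξ
    rw [e1, e4]
    congr 1
    exact lin hvi.ofReal hdi.ofReal _ _ ξ
  have hpi : (Real.pi)⁻¹ ≤ 1 :=
    inv_le_one_of_one_le₀ (by have := Real.pi_gt_three; linarith)
  have hpt : ∀ ξ : ℝ, ‖𝓕 (fun s : ℝ => (kap v s : ℂ)) ξ‖ ^ 2 ≤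
      144 * (‖𝓕 (fun s : ℝ => (v s : ℂ)) ξ‖ ^ 2 +
        ‖𝓕 (fun s : ℝ => ((deriv v s : ℝ) : ℂ)) ξ‖ ^ 2 / (1 + |ξ|)) := by
    intro ξ
    rw [hFK ξ, norm_mul, mul_pow]
    set a := ‖𝓕 (fun s : ℝ => (v s : ℂ)) ξ‖ with ha
    set b := ‖𝓕 (fun s : ℝ => ((deriv v s : ℝ) : ℂ)) ξ‖ with hb
    have ha0 : 0 ≤ a := norm_nonneg _
    have hb0 : 0 ≤ b := norm_nonneg _
    have h1 : ‖(2 * (Real.pi : ℂ)⁻¹) * 𝓕 (fun s : ℝ => (v s : ℂ)) ξ +
        (Real.pi : ℂ)⁻¹ * 𝓕 (fun s : ℝ => ((deriv v s : ℝ) : ℂ)) ξ‖ ≤ 2 * a + b := by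
      refine le_trans (norm_add_le _ _) ?_
      rw [norm_mul, norm_mul, norm_mul, norm_inv, Complex.norm_real, Real.norm_eq_abs,
        abs_of_pos Real.pi_pos, Complex.norm_two, ← ha, ← hb]
      have h2 : 2 * (Real.pi)⁻¹ * a ≤ 2 * a := by
        have := mul_le_mul_of_nonneg_right hpi ha0
        linarith
      have h3 : (Real.pi)⁻¹ * b ≤ b := by
        have := mul_le_mul_of_nonneg_right hpi hb0
        linarith
      linarith
    have h2 : ‖(2 * (Real.pi : ℂ)⁻¹) * 𝓕 (fun s : ℝ => (v s : ℂ)) ξ +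
        (Real.pi : ℂ)⁻¹ * 𝓕 (fun s : ℝ => ((deriv v s : ℝ) : ℂ)) ξ‖ ^ 2 ≤
        8 * a ^ 2 + 2 * b ^ 2 := by
      refine le_trans (pow_le_pow_left₀ (norm_nonneg _) h1 2) ?_
      have := sq_nonneg (2 * a - b)
      linarith [this]
    have h3 := hqF ξ
    have h4 : (0 : ℝ) < 1 + |ξ| := by have := abs_nonneg ξ; linarith
    calc _ ≤ 18 / (1 + |ξ|) * (8 * a ^ 2 + 2 * b ^ 2) :=
          mul_le_mul h3 h2 (sq_nonneg _) (by positivity)
      _ = 144 * (a ^ 2 / (1 + |ξ|)) + 36 * (b ^ 2 / (1 + |ξ|)) := by ring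
      _ ≤ 144 * a ^ 2 + 144 * (b ^ 2 / (1 + |ξ|)) := by
          have h5 : a ^ 2 / (1 + |ξ|) ≤ a ^ 2 := div_le_self (sq_nonneg _) (by
            have := abs_nonneg ξ; linarith)
          have h6 : 0 ≤ b ^ 2 / (1 + |ξ|) := by positivity
          linarith
      _ = 144 * (a ^ 2 + b ^ 2 / (1 + |ξ|)) := by ring
  have hFK1 : Integrable fun ξ : ℝ => ‖𝓕 (fun s : ℝ => (kap v s : ℂ)) ξ‖ ^ 2 :=
    hK1.integrable_norm_pow (by norm_num)
  have hFV1 : Integrable fun ξ : ℝ => ‖𝓕 (fun s : ℝ => (v s : ℂ)) ξ‖ ^ 2 :=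
    hV1.integrable_norm_pow (by norm_num)
  rw [eK, eV, ofReal_integral_eq_lintegral_ofReal hFK1 (ae_of_all _ fun ξ => sq_nonneg _),
    ofReal_integral_eq_lintegral_ofReal hFV1 (ae_of_all _ fun ξ => sq_nonneg _)]
  have hm : AEMeasurable fun ξ : ℝ =>
      ENNReal.ofReal (‖𝓕 (fun s : ℝ => (v s : ℂ)) ξ‖ ^ 2) :=
    hFV1.aestronglyMeasurable.aemeasurable.ennreal_ofReal
  rw [← lintegral_add_left' hm, ← lintegral_const_mul' _ _ ENNReal.ofReal_ne_top]
  refine lintegral_mono fun ξ => ?_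
  have h4 : (0 : ℝ) < 1 + |ξ| := by have := abs_nonneg ξ; linarith
  rw [← ENNReal.ofReal_add (sq_nonneg _) (by positivity), ← ENNReal.ofReal_mul (by norm_num)]
  exact ENNReal.ofReal_le_ofReal (hpt ξ)

end Pool.Agent.MultS.LB

end

section

/-!
# Item A17: the bound for the real functions
-/

set_option autoImplicit false

open Complex Metric Set Filter Topology MeasureTheory
open Pool.Agent.MultS.Lip
open scoped FourierTransform

namespace Pool.Agent.MultS.LB

namespace LBRX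

lemma one_sub_ne {z : ℂ} (hz : z ∈ ball (0 : ℂ) 1) : 1 - z ≠ 0 := by
  intro h
  have h1 : z = 1 := (sub_eq_zero.1 h).symm
  rw [mem_ball_zero_iff, h1] at hz
  simp at hz

lemma psi_diff : DifferentiableOn ℂ psi (ball (0 : ℂ) 1) := by
  intro z hz
  have h := one_sub_ne hz
  unfold psi
  apply DifferentiableAt.differentiableWithinAt
  apply DifferentiableAt.div
  · fun_prop
  · fun_prop
  · exact h

lemma koe_eq {z : ℂ} (hz : z ∈ ball (0 : ℂ) 1) : koe z = (psi z ^ 2 - 1) / 4 := by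
  have h := one_sub_ne hz
  unfold koe psi
  field_simp
  ring

lemma sq_inj : InjOn (fun w : ℂ => w ^ 2) Hp := by
  intro a ha b hb h
  have h1 : (a - b) * (a + b) = 0 := by
    have : a ^ 2 = b ^ 2 := h
    linear_combination this
  rcases mul_eq_zero.1 h1 with h2 | h2
  · exact sub_eq_zero.1 h2
  · exfalso
    have h3 := congrArg Complex.re h2
    rw [Complex.add_re, Complex.zero_re] at h3
    have h4 : 0 < a.re := ha
    have h5 : 0 < b.re := hb
    linarith

lemma deriv_sq : deriv (fun w : ℂ => w ^ 2) 1 = 2 := by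
  have h := (hasDerivAt_pow 2 (1 : ℂ)).deriv
  rw [h]; norm_num

/-- bound for `L A` -/
lemma LA_bd (hArea : AreaP) {lam : ℕ → ℂ} {X : ℝ} (hP : PX lam X) (hX : 0 < X) {z : ℂ}
    (hz : z ∈ ball (0 : ℂ) 1) {A : ℂ → ℂ} (hA : DifferentiableOn ℂ A (ball 0 1))
    (hb : ∀ w ∈ ball (0 : ℂ) 1, ‖A w‖ ≤ 1) : ‖LL lam A z‖ ≤ 2 * X := by
  have h1 := hArea lam X hP A hA z hz
  have h2 : ∫⁻ ζ in ball (0 : ℂ) 1, ENNReal.ofReal ‖A ζ‖ ≤ ENNReal.ofReal Real.pi := by
    calc ∫⁻ ζ in ball (0 : ℂ) 1, ENNReal.ofReal ‖A ζ‖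
        ≤ ∫⁻ ζ in ball (0 : ℂ) 1, 1 := by
          apply setLIntegral_mono' measurableSet_ball
          intro w hw
          rw [← ENNReal.ofReal_one]
          exact ENNReal.ofReal_le_ofReal (hb w hw)
      _ = volume (ball (0 : ℂ) 1) := by rw [setLIntegral_one]
      _ = ENNReal.ofReal Real.pi := by
          rw [Complex.volume_ball]
          simp only [ENNReal.ofReal_one, one_pow, one_mul]
          rw [← NNReal.coe_real_pi, ENNReal.ofReal_coe_nnreal]
  have h3 : ENNReal.ofReal ‖LL lam A z‖ ≤ ENNReal.ofReal (2 * X) := by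
    refine h1.trans ?_
    calc ENNReal.ofReal (2 * X / Real.pi) * ∫⁻ ζ in ball (0 : ℂ) 1, ENNReal.ofReal ‖A ζ‖
        ≤ ENNReal.ofReal (2 * X / Real.pi) * ENNReal.ofReal Real.pi := by gcongr
      _ = ENNReal.ofReal (2 * X) := by
          have := Real.pi_pos
          rw [← ENNReal.ofReal_mul (by positivity)]
          congr 1
          field_simp
  exact (ENNReal.ofReal_le_ofReal_iff (by positivity)).1 h3

/-- the part of the integral on the left half line -/
lemma left_bd {k : ℝ → ℝ} {l : ℝ → ℂ} {X C : ℝ} (hX : 0 < X)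
    (hk2 : Integrable (fun s => k s ^ 2)) (hkC : ∫ s : ℝ, k s ^ 2 ≤ C)
    (hl : ∀ s : ℝ, ‖l s‖ ≤ 4 * X * Real.exp (3 * s)) :
    ‖∫ s in Iic (0 : ℝ), (k s : ℂ) * l s‖ ≤ 2 * X * (C + 1) := by
  have hdom : ∀ s ∈ Iic (0 : ℝ), ‖(k s : ℂ) * l s‖ ≤ 2 * X * (k s ^ 2 + Real.exp s) := by
    intro s hs
    have hs0 : s ≤ 0 := hs
    rw [norm_mul, Complex.norm_real, Real.norm_eq_abs]
    have h1 : |k s| * (4 * X * Real.exp (3 * s)) ≤ 2 * X * (k s ^ 2 + Real.exp (3 * s) ^ 2) := by
      have h2 := two_mul_le_add_sq (|k s|) (Real.exp (3 * s))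
      rw [sq_abs] at h2
      have h3 : 2 * X * (2 * |k s| * Real.exp (3 * s)) ≤ 2 * X * (k s ^ 2 + Real.exp (3 * s) ^ 2) := by
        gcongr
      linarith
    have h2 : Real.exp (3 * s) ^ 2 ≤ Real.exp s := by
      rw [← Real.exp_nat_mul]
      apply Real.exp_le_exp.2
      push_cast
      linarith
    calc |k s| * ‖l s‖ ≤ |k s| * (4 * X * Real.exp (3 * s)) := by
          have := hl s
          gcongr
      _ ≤ 2 * X * (k s ^ 2 + Real.exp (3 * s) ^ 2) := h1
      _ ≤ 2 * X * (k s ^ 2 + Real.exp s) := by gcongr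
  have hi : IntegrableOn (fun s : ℝ => 2 * X * (k s ^ 2 + Real.exp s)) (Iic 0) :=
    (hk2.integrableOn.add (integrableOn_exp_Iic 0)).const_mul _
  have h1 : ‖∫ s in Iic (0 : ℝ), (k s : ℂ) * l s‖ ≤
      ∫ s in Iic (0 : ℝ), 2 * X * (k s ^ 2 + Real.exp s) := by
    apply norm_integral_le_of_norm_le hi
    exact (ae_restrict_iff' measurableSet_Iic).2 (Eventually.of_forall hdom)
  refine h1.trans ?_
  rw [integral_const_mul, integral_add hk2.integrableOn (integrableOn_exp_Iic 0), integral_exp_Iic,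
    Real.exp_zero]
  have h2 : ∫ s in Iic (0 : ℝ), k s ^ 2 ≤ ∫ s : ℝ, k s ^ 2 :=
    setIntegral_le_integral hk2 (Eventually.of_forall fun s => sq_nonneg _)
  have h3 : (∫ s in Iic (0 : ℝ), k s ^ 2) + 1 ≤ C + 1 := by linarith
  exact mul_le_mul_of_nonneg_left h3 (by positivity)

end LBRX

open LBRX in
theorem prfLBR (hLRep : LRep) (hTst : TstE) (hRA3 : RA3) (hKapA : KapA) (hKapI : KapI) (hKV : KV)
    (hVV : VV) (hRep : Rep) (hEllB : EllB) (hUniv : UnivB) (hArea : AreaP) (hLin : LinP) : LBR := by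
  obtain ⟨CT, hCT, hT⟩ := hTst
  obtain ⟨CR, hCR, hR⟩ := hRA3
  obtain ⟨CA, hCA, hKA⟩ := hKapA
  refine ⟨(CA + 1) + CR * CT * (4 + CA) + 2, by positivity, ?_⟩
  intro lam X hP hX z hz A ρ hA hDir
  have hsub : ball (0 : ℂ) 1 ⊆ ball 0 ρ := ball_subset_ball hA.rho.le
  have hAd : DifferentiableOn ℂ A (ball 0 1) := hA.dif.mono hsub
  have hAb : ∀ w ∈ ball (0 : ℂ) 1, ‖A w‖ ≤ 1 := fun w hw =>
    hA.bd w (mem_ball_zero_iff.1 hw).le
  have hA1 : ‖A 1‖ ≤ 1 := hA.bd 1 (by simp)
  -- the function κ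
  obtain ⟨c, hdec, hv1, -⟩ := hVV A ρ hA
  have hkv := hKV A ρ hA
  obtain ⟨hkc, hki, -⟩ := hRep (vv A) c hdec
  obtain ⟨hk2, hkC⟩ := hKA A ρ hA hDir
  have hkI := hKapI (vv A) c hdec hv1 hkv
  obtain ⟨hint, hrep⟩ := hLRep lam X hP z hz A ρ hA
  have hell := hEllB lam X hP z hz
  have hR' := hR (ell lam z) (CT * X) (hT lam X hP hX z hz) (kap (vv A)) (4 + CA) (by positivity)
    hkc hki hk2 (fun s => (hkI s).trans (by linarith)) (hkC.trans (by nlinarith))
  have hL' := left_bd hX hk2 hkC (fun s => (hell s).2)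
  have h1 : ‖LL lam (fun ζ => psi ζ ^ 2 * (A ζ - A 1)) z‖ ≤
      CR * (CT * X) * (4 + CA) + 2 * X * (CA + 1) := by
    rw [hrep, norm_mul, norm_neg, Complex.norm_I, one_mul,
      ← integral_add_compl (measurableSet_Ioi (a := (0 : ℝ))) hint, compl_Ioi]
    exact (norm_add_le _ _).trans (add_le_add hR' hL')
  have h2 : ‖LL lam (fun ζ => psi ζ ^ 2) z‖ ≤ 4 * X := by
    have h3 := (hUniv lam X hP z hz).2.2 (fun w => w ^ 2) (by fun_prop) sq_inj
    rw [deriv_sq] at h3
    have h4 : ‖(2 : ℂ)‖ = 2 := by simp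
    rw [h4] at h3
    linarith
  have h3 : ‖LL lam A z‖ ≤ 2 * X := LA_bd hArea hP hX hz hAd hAb
  obtain ⟨hl1, hl2⟩ := hLin lam hP.sm z hz
  have hd1 : DifferentiableOn ℂ (fun ζ => psi ζ ^ 2) (ball (0 : ℂ) 1) := psi_diff.pow 2
  have hd2 : DifferentiableOn ℂ (fun ζ => psi ζ ^ 2 * (A ζ - A 1)) (ball (0 : ℂ) 1) :=
    hd1.mul (hAd.sub_const _)
  have hd3 : DifferentiableOn ℂ (fun ζ => A 1 / 4 * psi ζ ^ 2 + -(1 / 4) * A ζ + 0)
      (ball (0 : ℂ) 1) := ((hd1.const_mul _).add (hAd.const_mul _)).add_const _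
  have e1 := hl1 (fun ζ => psi ζ ^ 2) A (A 1 / 4) (-(1 / 4)) 0 hd1 hAd
  have e2 := hl1 (fun ζ => psi ζ ^ 2 * (A ζ - A 1))
    (fun ζ => A 1 / 4 * psi ζ ^ 2 + -(1 / 4) * A ζ + 0) (1 / 4) 1 0 hd2 hd3
  have hkoe : DifferentiableOn ℂ (fun ζ => koe ζ * A ζ) (ball (0 : ℂ) 1) := by
    have h5 : DifferentiableOn ℂ koe (ball (0 : ℂ) 1) :=
      ((hd1.sub_const 1).div_const 4).congr fun w hw => koe_eq hw
    exact h5.mul hAd
  have e3 := hl2 (fun ζ => koe ζ * A ζ)
    (fun ζ => 1 / 4 * (psi ζ ^ 2 * (A ζ - A 1)) + 1 *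
      (A 1 / 4 * psi ζ ^ 2 + -(1 / 4) * A ζ + 0) + 0) hkoe (by
      intro w hw
      show koe w * A w = 1 / 4 * (psi w ^ 2 * (A w - A 1)) + 1 *
        (A 1 / 4 * psi w ^ 2 + -(1 / 4) * A w + 0) + 0
      rw [koe_eq hw]
      ring)
  rw [e3, e2, e1]
  have n1 : ‖(1 / 4 : ℂ) * LL lam (fun ζ => psi ζ ^ 2 * (A ζ - A 1)) z‖ ≤
      1 / 4 * (CR * (CT * X) * (4 + CA) + 2 * X * (CA + 1)) := by
    rw [norm_mul]
    have : ‖(1 / 4 : ℂ)‖ = 1 / 4 := by norm_num
    rw [this]
    gcongr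
  have n2 : ‖A 1 / 4 * LL lam (fun ζ => psi ζ ^ 2) z‖ ≤ X := by
    rw [norm_mul, norm_div]
    have : ‖(4 : ℂ)‖ = 4 := by norm_num
    rw [this]
    calc ‖A 1‖ / 4 * ‖LL lam (fun ζ => psi ζ ^ 2) z‖ ≤ 1 / 4 * (4 * X) := by gcongr
      _ = X := by ring
  have n3 : ‖-(1 / 4 : ℂ) * LL lam A z‖ ≤ X := by
    rw [norm_mul, norm_neg]
    have : ‖(1 / 4 : ℂ)‖ = 1 / 4 := by norm_num
    rw [this]
    linarith
  have n4 := norm_add_le (A 1 / 4 * LL lam (fun ζ => psi ζ ^ 2) z) (-(1 / 4 : ℂ) * LL lam A z)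
  have n5 := norm_add_le ((1 / 4 : ℂ) * LL lam (fun ζ => psi ζ ^ 2 * (A ζ - A 1)) z)
    (1 * (A 1 / 4 * LL lam (fun ζ => psi ζ ^ 2) z + -(1 / 4) * LL lam A z))
  rw [one_mul] at n5 ⊢
  have p1 : 0 ≤ CR * CT * (4 + CA) * X := by positivity
  have p2 : 0 ≤ CA * X := by positivity
  linarith

end Pool.Agent.MultS.LB

end

section

/-!
# The explicit form of the Lipschitz norm of multipliers of `S`, lower bound: item `Planch`
-/

set_option autoImplicit false

open Complex Metric Set Filter Topology MeasureTheory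
open scoped FourierTransform ENNReal SchwartzMap ContDiff

namespace Pool.Agent.MultS.LB

namespace PlanchX

theorem flip (f : ℝ → ℂ) (hf : Integrable f) (φ : 𝓢(ℝ, ℂ)) :
    ∫ ξ : ℝ, (𝓕 φ : 𝓢(ℝ, ℂ)) ξ • f ξ = ∫ x : ℝ, φ x • 𝓕 f x := by
  have h := VectorFourier.integral_fourierIntegral_smul_eq_flip (L := innerₗ ℝ)
    Real.continuous_fourierChar continuous_inner φ.integrable hf (μ := volume) (ν := volume)
  have h1 : (innerₗ ℝ).flip = (innerₗ ℝ : ℝ →ₗ[ℝ] ℝ →ₗ[ℝ] ℝ) := by
    ext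
    simp
  rw [h1] at h
  exact h

theorem sq_norm (g : Lp (α := ℝ) ℂ 2) : ‖g‖ ^ 2 = ∫ x : ℝ, ‖g x‖ ^ 2 := by
  have h := L2.inner_def (𝕜 := ℂ) g g
  rw [inner_self_eq_norm_sq_to_K] at h
  have h2 : ∫ a : ℝ, inner ℂ (g a) (g a) = ((∫ x : ℝ, ‖g x‖ ^ 2 : ℝ) : ℂ) := by
    rw [← integral_complex_ofReal]
    refine integral_congr_ae (Eventually.of_forall fun x => ?_)
    simp only [inner_self_eq_norm_sq_to_K]
    push_cast
    rfl
  rw [h2] at h
  have h3 : ((‖g‖ ^ 2 : ℝ) : ℂ) = ((∫ x : ℝ, ‖g x‖ ^ 2 : ℝ) : ℂ) := by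
    rw [← h]
    push_cast
    rfl
  exact Complex.ofReal_injective h3

end PlanchX

open PlanchX in
theorem prfPlanch : Planch := by
  intro f hf hf2
  obtain ⟨F, hF⟩ : ∃ F : Lp (α := ℝ) ℂ 2, F = hf2.toLp f := ⟨_, rfl⟩
  have hFf : F =ᵐ[volume] f := by
    rw [hF]
    exact hf2.coeFn_toLp
  obtain ⟨G, hG⟩ : ∃ G : Lp (α := ℝ) ℂ 2, G = 𝓕 F := ⟨_, rfl⟩
  have hdist : ∀ φ : 𝓢(ℝ, ℂ), ∫ x : ℝ, φ x • G x = ∫ x : ℝ, φ x • 𝓕 f x := by
    intro φ
    rw [← Lp.toTemperedDistribution_apply G φ, hG, ← Lp.fourier_toTemperedDistribution_eq F,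
      TemperedDistribution.fourier_apply, Lp.toTemperedDistribution_apply, ← flip f hf φ]
    refine integral_congr_ae ?_
    filter_upwards [hFf] with x hx
    rw [hx]
  have hcont : Continuous (𝓕 f) := by
    exact VectorFourier.fourierIntegral_continuous Real.continuous_fourierChar
      continuous_inner hf
  have hae : ∀ᵐ x : ℝ, G x = 𝓕 f x := by
    refine ae_eq_of_integral_contDiff_smul_eq ((Lp.memLp G).locallyIntegrable (by norm_num))
      hcont.locallyIntegrable ?_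
    intro g hg hgc
    have hg₁ : HasCompactSupport (Complex.ofRealCLM ∘ g) := hgc.comp_left rfl
    have hg₂ : ContDiff ℝ ∞ (Complex.ofRealCLM ∘ g) := by fun_prop
    have h := hdist (hg₁.toSchwartzMap hg₂)
    simpa using h
  have hmem : MemLp (fun ξ : ℝ => 𝓕 f ξ) 2 := by
    exact (memLp_congr_ae hae).1 (Lp.memLp G)
  refine ⟨hmem, ?_⟩
  have h1 : ∫ ξ : ℝ, ‖𝓕 f ξ‖ ^ 2 = ∫ ξ : ℝ, ‖G ξ‖ ^ 2 := by
    refine integral_congr_ae ?_
    filter_upwards [hae] with x hx
    rw [hx]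
  have h2 : ∫ x : ℝ, ‖f x‖ ^ 2 = ∫ x : ℝ, ‖F x‖ ^ 2 := by
    refine integral_congr_ae ?_
    filter_upwards [hFf] with x hx
    rw [hx]
  rw [h1, h2, ← sq_norm, ← sq_norm, hG, Lp.norm_fourier_eq]

end Pool.Agent.MultS.LB

end

section

/-!
# RA1: the high frequency part of `ℓ` is in `L²`
-/

set_option autoImplicit false

open Complex Metric Set Filter Topology MeasureTheory
open Pool.Agent.MultS.Lip

namespace Pool.Agent.MultS.LB

namespace RA1X

/-- the real part of `av l` is an average of the type `avr` -/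
theorem av_re {l : ℝ → ℂ} (hl : Continuous l) (s : ℝ) :
    (av l s).re = avr (fun t => (l (-t)).re) (-s) := by
  unfold av avr
  have hin : ∀ x : ℝ, ((∫ y in (0 : ℝ)..1, l (s - x - y))).re =
      ∫ y in (0 : ℝ)..1, (l (-(-s + x + y))).re := by
    intro x
    have h1 : IntervalIntegrable (fun y : ℝ => l (s - x - y)) volume 0 1 :=
      (hl.comp (by fun_prop)).intervalIntegrable _ _
    have h2 := Complex.reCLM.intervalIntegral_comp_comm h1
    rw [← Complex.reCLM_apply, ← h2]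
    refine intervalIntegral.integral_congr fun y _ => ?_
    simp only [Complex.reCLM_apply]
    congr 2
    ring
  have hcont : Continuous fun x : ℝ => ∫ y in (0 : ℝ)..1, l (s - x - y) := by
    refine intervalIntegral.continuous_parametric_intervalIntegral_of_continuous' ?_ 0 1
    exact hl.comp (by fun_prop)
  have h2 := Complex.reCLM.intervalIntegral_comp_comm (hcont.intervalIntegrable (μ := volume) 0 1)
  rw [← Complex.reCLM_apply, ← h2]
  refine intervalIntegral.integral_congr fun x _ => ?_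
  simp only [Complex.reCLM_apply]
  exact hin x

/-- the function `Re (av l)` -/
theorem av_re_smooth (hA : AvrC) {l : ℝ → ℂ} {X : ℝ} (hl : Continuous l)
    (hb : ∀ s : ℝ, ‖l s‖ ≤ X) :
    ContDiff ℝ 2 (fun s => (av l s).re) ∧ ∀ s : ℝ, |deriv (fun s => (av l s).re) s| ≤ 2 * X := by
  set f : ℝ → ℝ := fun t => (l (-t)).re with hf
  have hfc : Continuous f := Complex.continuous_re.comp (hl.comp continuous_neg)
  have hfb : ∀ s, |f s| ≤ X := fun s => (Complex.abs_re_le_norm _).trans (hb _)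
  obtain ⟨h1, -, -, -, h5, -⟩ := hA f X hfc hfb
  have he : (fun s => (av l s).re) = fun s => avr f (-s) := funext fun s => av_re hl s
  rw [he]
  refine ⟨h1.comp contDiff_neg, fun s => ?_⟩
  have h2 : HasDerivAt (avr f) (deriv (avr f) (-s)) (-s) :=
    ((h1.differentiable (by norm_num)) (-s)).hasDerivAt
  have h3 : HasDerivAt (fun s => avr f (-s)) (deriv (avr f) (-s) * (-1)) s :=
    h2.comp s (hasDerivAt_neg s)
  rw [h3.deriv, mul_neg_one, abs_neg]
  exact h5 _

/-- `avr g` vanishes where `g` vanishes on `[s, s + 2]` -/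
theorem avr_zero {g : ℝ → ℝ} {s : ℝ} (h : ∀ t, s ≤ t → t ≤ s + 2 → g t = 0) : avr g s = 0 := by
  unfold avr
  have h1 : ∀ x ∈ uIcc (0 : ℝ) 1, ∫ y in (0 : ℝ)..1, g (s + x + y) = 0 := by
    intro x hx
    rw [uIcc_of_le zero_le_one] at hx
    have h2 : ∀ y ∈ uIcc (0 : ℝ) 1, g (s + x + y) = 0 := by
      intro y hy
      rw [uIcc_of_le zero_le_one] at hy
      exact h _ (by linarith [hx.1, hy.1]) (by linarith [hx.2, hy.2])
    rw [intervalIntegral.integral_congr (g := fun _ => (0 : ℝ)) h2]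
    simp
  rw [intervalIntegral.integral_congr (g := fun _ => (0 : ℝ)) h1]
  simp

/-- The construction of the test function: `g` is `C¹` with support in `[3, T + 1]`. -/
theorem test (hA : AvrC) (hD : AvD) {l : ℝ → ℂ} {X : ℝ} (ht : Tst l X) {T : ℝ} (hT : 4 ≤ T)
    {g : ℝ → ℝ} {b1 m : ℝ} (hg : ContDiff ℝ 1 g) (hgb : ∀ s, |g s| ≤ 2 * X)
    (hgd : ∀ s, |deriv g s| ≤ b1) (hg0 : ∀ s, s ≤ 3 ∨ T + 1 ≤ s → g s = 0)
    (hm : ∫ s, g s ^ 2 ≤ m) :
    ‖∫ s : ℝ, (g s : ℂ) * (l s - av l s)‖ ≤ X * (b1 + 4 * X + 2 * Real.sqrt m) := by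
  have hX := ht.pos
  have hgc : Continuous g := hg.continuous
  have hlc : Continuous l := ht.c1.continuous
  have hb1 : 0 ≤ b1 := (abs_nonneg _).trans (hgd 0)
  have hm0 : 0 ≤ m := le_trans (integral_nonneg fun s => sq_nonneg _) hm
  -- compact supports
  have hcs : HasCompactSupport g := by
    refine HasCompactSupport.intro (isCompact_Icc (a := (3 : ℝ)) (b := T + 1)) fun x hx => ?_
    apply hg0
    by_contra hcon
    push Not at hcon
    exact hx ⟨hcon.1.le, hcon.2.le⟩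
  have ha0 : ∀ s, s ≤ 1 ∨ T + 1 ≤ s → avr g s = 0 := by
    intro s hs
    refine avr_zero fun t h1 h2 => hg0 t ?_
    rcases hs with hs | hs
    · left; linarith
    · right; linarith
  obtain ⟨c1, c2, -, -, c5, -⟩ := hA g (2 * X) hgc hgb
  have hac : Continuous (avr g) := c1.continuous
  have hacs : HasCompactSupport (avr g) := by
    refine HasCompactSupport.intro (isCompact_Icc (a := (1 : ℝ)) (b := T + 1)) fun x hx => ?_
    apply ha0
    by_contra hcon
    push Not at hcon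
    exact hx ⟨hcon.1.le, hcon.2.le⟩
  have hgi : Integrable g := hgc.integrable_of_hasCompactSupport hcs
  obtain ⟨d1, d2, d3, d4, d5⟩ := hD g l X hgc hgi hlc ht.b0
  have hg2 : Integrable (fun s => g s ^ 2) := by
    refine (hgc.pow 2).integrable_of_hasCompactSupport ?_
    refine HasCompactSupport.intro (isCompact_Icc (a := (3 : ℝ)) (b := T + 1)) fun x hx => ?_
    have : g x = 0 := by
      apply hg0
      by_contra hcon
      push Not at hcon
      exact hx ⟨hcon.1.le, hcon.2.le⟩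
    simp [this]
  obtain ⟨d6, d7⟩ := d5 hg2
  -- the primitive of `g`
  set G : ℝ → ℝ := fun s => ∫ t in (0 : ℝ)..s, g t with hG
  have hGd : ∀ s, HasDerivAt G (g s) s := fun s =>
    intervalIntegral.integral_hasDerivAt_right (hgc.intervalIntegrable _ _)
      (hgc.stronglyMeasurableAtFilter _ _) hgc.continuousAt
  have hGsub : ∀ s t, G t - G s = ∫ x in s..t, g x := fun s t =>
    intervalIntegral.integral_interval_sub_left (hgc.intervalIntegrable _ _)
      (hgc.intervalIntegrable _ _)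
  have hGl : ∀ s t, |G t - G s| ≤ 2 * X * |t - s| := by
    intro s t
    rw [hGsub, ← Real.norm_eq_abs]
    exact intervalIntegral.norm_integral_le_of_norm_le_const fun x _ => hgb x
  have hG3 : ∀ s, s ≤ 3 → G s = 0 := by
    intro s hs
    have h1 : ∀ t ∈ uIcc (0 : ℝ) s, g t = 0 := by
      intro t ht'
      apply hg0
      left
      exact ht'.2.trans (max_le (by norm_num) hs)
    rw [hG]
    simp only
    rw [intervalIntegral.integral_congr (g := fun _ => (0 : ℝ)) h1]
    simp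
  have hGT : ∀ s, T + 1 ≤ s → G s = G (T + 1) := by
    intro s hs
    have h1 : ∀ t ∈ uIcc (T + 1) s, g t = 0 := by
      intro t ht'
      apply hg0
      right
      rw [uIcc_of_le hs] at ht'
      exact ht'.1
    have h2 := hGsub (T + 1) s
    rw [intervalIntegral.integral_congr (g := fun _ => (0 : ℝ)) h1] at h2
    simp only [intervalIntegral.integral_zero] at h2
    linarith
  have hGc : ContDiff ℝ 2 G := by
    have : ContDiff ℝ (1 + 1) G := by
      rw [contDiff_succ_iff_deriv]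
      refine ⟨fun s => (hGd s).differentiableAt, by simp, ?_⟩
      have : deriv G = g := funext fun s => (hGd s).deriv
      rw [this]
      exact hg
    exact this
  have hGb : ∀ s, |G s| ≤ 2 * X * (T + 1) := by
    intro s
    rcases le_total s 3 with h | h
    · rw [hG3 s h, abs_zero]
      positivity
    rcases le_total s (T + 1) with h' | h'
    · have := hGl 0 s
      rw [hG3 0 (by norm_num), sub_zero, sub_zero, abs_of_nonneg (by linarith : (0 : ℝ) ≤ s)] at this
      exact this.trans (mul_le_mul_of_nonneg_left h' (by positivity))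
    · rw [hGT s h']
      have := hGl 0 (T + 1)
      rw [hG3 0 (by norm_num), sub_zero, sub_zero, abs_of_nonneg (by linarith : (0 : ℝ) ≤ T + 1)]
        at this
      exact this
  obtain ⟨e1, e2, -, -, -, -⟩ := hA G (2 * X * (T + 1)) hGc.continuous hGb
  -- `(avr G)' = avr g`
  have hGa : ∀ s, deriv (avr G) s = avr g s := by
    intro s
    rw [e2]
    unfold avr
    refine intervalIntegral.integral_congr fun x _ => ?_
    show G (s + x + 1) - G (s + x) = ∫ y in (0 : ℝ)..1, g (s + x + y)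
    rw [hGsub]
    have := intervalIntegral.integral_comp_add_left (f := g) (a := 0) (b := 1) (s + x)
    rw [this, add_zero]
  set K : ℝ → ℝ := fun s => G s - avr G s with hK
  have hKc : ContDiff ℝ 2 K := hGc.sub e1
  have hKd : ∀ s, deriv K s = g s - avr g s := by
    intro s
    have h1 : HasDerivAt (avr G) (deriv (avr G) s) s :=
      ((e1.differentiable (by norm_num)) s).hasDerivAt
    rw [hGa] at h1
    exact ((hGd s).sub h1).deriv
  have hKd' : deriv K = fun s => g s - avr g s := funext hKd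
  have hKdd : ∀ s, |deriv (deriv K) s| ≤ b1 + 4 * X := by
    intro s
    rw [hKd']
    have h1 : HasDerivAt g (deriv g s) s := ((hg.differentiable (by norm_num)) s).hasDerivAt
    have h2 : HasDerivAt (avr g) (deriv (avr g) s) s :=
      ((c1.differentiable (by norm_num)) s).hasDerivAt
    have h3 := (h1.sub h2).deriv
    have h4 : deriv (fun s => g s - avr g s) s = deriv g s - deriv (avr g) s := h3
    rw [h4]
    have h5 := abs_sub (deriv g s) (deriv (avr g) s)
    have h6 := hgd s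
    have h7 := c5 s
    linarith
  have hab : ∀ s, |avr g s| ≤ 2 * X := (hA g (2 * X) hgc hgb).2.2.2.1
  have hK1 : ∀ s, |deriv K s| ≤ 4 * X := by
    intro s
    rw [hKd]
    have h5 := abs_sub (g s) (avr g s)
    have h6 := hgb s
    have h7 := hab s
    linarith
  -- `K` as an average
  have hKa : ∀ s, K s = -avr (fun t => G t - G s) s := by
    intro s
    rw [hK]
    simp only
    unfold avr
    have h1 : ∀ x : ℝ, ∫ y in (0 : ℝ)..1, (G (s + x + y) - G s) =
        (∫ y in (0 : ℝ)..1, G (s + x + y)) - G s := by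
      intro x
      rw [intervalIntegral.integral_sub]
      · simp
      · exact (hGc.continuous.comp (by fun_prop)).intervalIntegrable _ _
      · exact continuous_const.intervalIntegrable _ _
    simp only [h1]
    rw [intervalIntegral.integral_sub]
    · simp
    · refine Continuous.intervalIntegrable ?_ _ _
      refine intervalIntegral.continuous_parametric_intervalIntegral_of_continuous' ?_ 0 1
      exact hGc.continuous.comp (by fun_prop)
    · exact continuous_const.intervalIntegrable _ _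
  have hK0 : ∀ s, |K s| ≤ 4 * X := by
    intro s
    rw [hKa, abs_neg, ← Real.norm_eq_abs]
    unfold avr
    have h1 : ∀ x ∈ uIoc (0 : ℝ) 1, ‖∫ y in (0 : ℝ)..1, (G (s + x + y) - G s)‖ ≤ 4 * X := by
      intro x hx
      rw [uIoc_of_le zero_le_one] at hx
      have h2 : ∀ y ∈ uIoc (0 : ℝ) 1, ‖G (s + x + y) - G s‖ ≤ 4 * X := by
        intro y hy
        rw [uIoc_of_le zero_le_one] at hy
        rw [Real.norm_eq_abs]
        refine (hGl s (s + x + y)).trans ?_
        have h3 : |s + x + y - s| ≤ 2 := by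
          rw [abs_le]
          constructor <;> linarith [hx.1, hx.2, hy.1, hy.2]
        nlinarith
      have := intervalIntegral.norm_integral_le_of_norm_le_const h2
      simpa using this
    have := intervalIntegral.norm_integral_le_of_norm_le_const h1
    simpa using this
  have hKz : ∀ s, s ≤ 0 ∨ T + 2 ≤ s → K s = 0 := by
    intro s hs
    rw [hKa, avr_zero, neg_zero]
    intro t h1 h2
    rcases hs with hs | hs
    · rw [hG3 t (by linarith), hG3 s (by linarith), sub_zero]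
    · rw [hGT t (by linarith), hGT s (by linarith), sub_self]
  -- integrals
  have hdz : ∀ s, s ∉ Ioc (0 : ℝ) (T + 2) → g s - avr g s = 0 := by
    intro s hs
    rw [mem_Ioc, not_and_or, not_lt, not_le] at hs
    rcases hs with hs | hs
    · rw [hg0 s (Or.inl (by linarith)), ha0 s (Or.inl (by linarith)), sub_zero]
    · rw [hg0 s (Or.inr (by linarith)), ha0 s (Or.inr (by linarith)), sub_zero]
  have hi2 : ∫ s in (0 : ℝ)..(T + 2), deriv K s ^ 2 = ∫ s, (g s - avr g s) ^ 2 := by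
    rw [intervalIntegral.integral_of_le (by linarith), hKd']
    refine setIntegral_eq_integral_of_forall_compl_eq_zero fun s hs => ?_
    simp only
    rw [hdz s hs]
    norm_num
  have hil : ∫ s in (0 : ℝ)..(T + 2), ((deriv K s : ℝ) : ℂ) * l s =
      ∫ s, ((g s - avr g s : ℝ) : ℂ) * l s := by
    rw [intervalIntegral.integral_of_le (by linarith), hKd']
    refine setIntegral_eq_integral_of_forall_compl_eq_zero fun s hs => ?_
    simp only
    rw [hdz s hs]
    simp
  have hsq : ∫ s, (g s - avr g s) ^ 2 ≤ 4 * m := by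
    have h1 : ∫ s, (g s - avr g s) ^ 2 ≤ ∫ s, (2 * g s ^ 2 + 2 * avr g s ^ 2) := by
      refine integral_mono_of_nonneg (Eventually.of_forall fun s => sq_nonneg _)
        ((hg2.const_mul 2).add (d6.const_mul 2)) (Eventually.of_forall fun s => ?_)
      simp only
      nlinarith [sq_nonneg (g s + avr g s)]
    have h2 : ∫ s, (2 * g s ^ 2 + 2 * avr g s ^ 2) = 2 * (∫ s, g s ^ 2) + 2 * ∫ s, avr g s ^ 2 := by
      rw [integral_add (hg2.const_mul 2) (d6.const_mul 2), integral_const_mul, integral_const_mul]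
    linarith
  have hs0 := Real.sqrt_nonneg m
  have hB := ht.hom K (T + 2) (b1 + 4 * X + 2 * Real.sqrt m) (by linarith) (by positivity) hKc hKz
    (fun s => by have := hK0 s; linarith) (fun s => by have := hK1 s; linarith)
    (fun s => by have := hKdd s; linarith) (by
      rw [hi2]
      refine hsq.trans ?_
      have h1 : (2 * Real.sqrt m) ^ 2 = 4 * m := by
        rw [mul_pow, Real.sq_sqrt hm0]; norm_num
      rw [← h1]
      refine pow_le_pow_left₀ (by positivity) (by linarith [mul_pos (by norm_num : (0:ℝ) < 4) hX]) 2)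
  have hfin : ∫ s : ℝ, (g s : ℂ) * (l s - av l s) = ∫ s, ((g s - avr g s : ℝ) : ℂ) * l s := by
    have hI : ∀ (u : ℝ → ℝ) (v : ℝ → ℂ), Continuous u → Continuous v → HasCompactSupport u →
        Integrable (fun s => (u s : ℂ) * v s) := by
      intro u v hu hv hus
      refine Continuous.integrable_of_hasCompactSupport
        ((Complex.continuous_ofReal.comp hu).mul hv) ?_
      have : HasCompactSupport (fun s => (u s : ℂ)) :=
        hus.comp_left (g := fun x : ℝ => (x : ℂ)) (by simp)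
      exact this.mul_right
    have h1 : ∫ s, ((g s - avr g s : ℝ) : ℂ) * l s =
        (∫ s, (g s : ℂ) * l s) - ∫ s, (avr g s : ℂ) * l s := by
      rw [← integral_sub (hI g l hgc hlc hcs) (hI (avr g) l hac hlc hacs)]
      refine integral_congr_ae (Eventually.of_forall fun s => ?_)
      simp only
      push_cast
      ring
    have h2 : ∫ s : ℝ, (g s : ℂ) * (l s - av l s) =
        (∫ s, (g s : ℂ) * l s) - ∫ s, (g s : ℂ) * av l s := by
      rw [← integral_sub (hI g l hgc hlc hcs) (hI g (av l) hgc d2 hcs)]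
      refine integral_congr_ae (Eventually.of_forall fun s => ?_)
      simp only
      ring
    rw [h1, h2, d4]
  rw [hfin, ← hil]
  exact hB

/-- The estimate for the real part. -/
theorem real_part (hA : AvrC) (hD : AvD) {τ : ℝ → ℝ} {c : ℝ} (hc : 1 ≤ c) (hτ : ContDiff ℝ 2 τ)
    (hτ0 : ∀ x : ℝ, x ≤ 0 → τ x = 0) (hτ1 : ∀ x : ℝ, 1 ≤ x → τ x = 1)
    (hτb : ∀ x : ℝ, 0 ≤ τ x ∧ τ x ≤ 1) (hτd : ∀ x : ℝ, |deriv τ x| ≤ c)
    {l : ℝ → ℂ} {X : ℝ} (ht : Tst l X) {T : ℝ} (hT : 4 ≤ T) :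
    ∫ s in (4 : ℝ)..T, (l s - av l s).re ^ 2 ≤ (18 + 8 * c) * X ^ 2 := by
  have hX := ht.pos
  have hlc : Continuous l := ht.c1.continuous
  have hav := hD (fun _ => 0) l X continuous_const (integrable_zero _ _ _) hlc ht.b0
  obtain ⟨-, havc, havb, -, -⟩ := hav
  obtain ⟨hu, hud⟩ := av_re_smooth hA hlc ht.b0
  set h : ℝ → ℝ := fun s => (l s - av l s).re with hh
  have hh' : h = fun s => (l s).re - (av l s).re := funext fun s => by rw [hh]; simp
  have hlre : ContDiff ℝ 1 (fun s => (l s).re) := Complex.reCLM.contDiff.comp ht.c1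
  have hhc1 : ContDiff ℝ 1 h := by
    rw [hh']
    exact hlre.sub (hu.of_le (by norm_num))
  have hhc : Continuous h := hhc1.continuous
  have hhb : ∀ s, |h s| ≤ 2 * X := by
    intro s
    refine (Complex.abs_re_le_norm _).trans ((norm_sub_le _ _).trans ?_)
    have h1 := ht.b0 s
    have h2 := havb s
    linarith
  have hhd : ∀ s, 0 ≤ s → |deriv h s| ≤ 3 * X := by
    intro s hs
    have h1 : HasDerivAt l (deriv l s) s := ((ht.c1.differentiable (by norm_num)) s).hasDerivAt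
    have h2 : HasDerivAt (fun s => (l s).re) (deriv l s).re s := by
      have := (Complex.reCLM.hasFDerivAt (x := l s)).comp_hasDerivAt s h1
      exact this
    have h3 : HasDerivAt (fun s => (av l s).re) (deriv (fun s => (av l s).re) s) s :=
      ((hu.differentiable (by norm_num)) s).hasDerivAt
    have h4 : deriv h s = (deriv l s).re - deriv (fun s => (av l s).re) s := by
      rw [hh']
      exact (h2.sub h3).deriv
    rw [h4]
    have h5 := abs_sub (deriv l s).re (deriv (fun s => (av l s).re) s)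
    have h6 := (Complex.abs_re_le_norm (deriv l s)).trans (ht.b1 s hs)
    have h7 := hud s
    linarith
  -- the cut-off function
  set θ : ℝ → ℝ := fun s => τ (s - 3) * τ (T + 1 - s) with hθ
  have hθb : ∀ s, 0 ≤ θ s ∧ θ s ≤ 1 := by
    intro s
    have h1 := hτb (s - 3)
    have h2 := hτb (T + 1 - s)
    exact ⟨mul_nonneg h1.1 h2.1, mul_le_one₀ h1.2 h2.1 h2.2⟩
  have hθ0 : ∀ s, s ≤ 3 ∨ T + 1 ≤ s → θ s = 0 := by
    intro s hs
    rw [hθ]
    simp only
    rcases hs with hs | hs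
    · rw [hτ0 (s - 3) (by linarith), zero_mul]
    · rw [hτ0 (T + 1 - s) (by linarith), mul_zero]
  have hθ1 : ∀ s, 4 ≤ s → s ≤ T → θ s = 1 := by
    intro s h1 h2
    rw [hθ]
    simp only
    rw [hτ1 (s - 3) (by linarith), hτ1 (T + 1 - s) (by linarith), mul_one]
  have hθc : ContDiff ℝ 1 θ := by
    have h1 : ContDiff ℝ 1 τ := hτ.of_le (by norm_num)
    exact (h1.comp (contDiff_id.sub contDiff_const)).mul
      (h1.comp (contDiff_const.sub contDiff_id))
  have hθd : ∀ s, |deriv θ s| ≤ 2 * c := by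
    intro s
    have hd : ∀ x, HasDerivAt τ (deriv τ x) x := fun x =>
      ((hτ.differentiable (by norm_num)) x).hasDerivAt
    have h1 : HasDerivAt (fun s : ℝ => τ (s - 3)) (deriv τ (s - 3) * 1) s :=
      (hd (s - 3)).comp s ((hasDerivAt_id s).sub_const 3)
    have h2 : HasDerivAt (fun s : ℝ => τ (T + 1 - s)) (deriv τ (T + 1 - s) * (-1)) s :=
      (hd (T + 1 - s)).comp s ((hasDerivAt_id s).const_sub (T + 1))
    have h3 := (h1.mul h2).deriv
    have h4 : deriv θ s = deriv τ (s - 3) * 1 * τ (T + 1 - s) +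
        τ (s - 3) * (deriv τ (T + 1 - s) * (-1)) := h3
    rw [h4]
    have b1 := hτd (s - 3)
    have b2 := hτd (T + 1 - s)
    have b3 := hτb (s - 3)
    have b4 := hτb (T + 1 - s)
    have e1 : |deriv τ (s - 3) * 1 * τ (T + 1 - s)| ≤ c := by
      rw [mul_one, abs_mul, abs_of_nonneg b4.1]
      calc |deriv τ (s - 3)| * τ (T + 1 - s) ≤ |deriv τ (s - 3)| * 1 :=
            mul_le_mul_of_nonneg_left b4.2 (abs_nonneg _)
        _ ≤ c := by rw [mul_one]; exact b1
    have e2 : |τ (s - 3) * (deriv τ (T + 1 - s) * (-1))| ≤ c := by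
      rw [abs_mul, mul_neg_one, abs_neg, abs_of_nonneg b3.1]
      calc τ (s - 3) * |deriv τ (T + 1 - s)| ≤ 1 * |deriv τ (T + 1 - s)| :=
            mul_le_mul_of_nonneg_right b3.2 (abs_nonneg _)
        _ ≤ c := by rw [one_mul]; exact b2
    refine (abs_add_le _ _).trans ?_
    linarith
  set g : ℝ → ℝ := fun s => θ s * h s with hg
  have hgc1 : ContDiff ℝ 1 g := hθc.mul hhc1
  have hgb : ∀ s, |g s| ≤ 2 * X := by
    intro s
    rw [hg]
    simp only
    rw [abs_mul, abs_of_nonneg (hθb s).1]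
    calc θ s * |h s| ≤ 1 * |h s| := mul_le_mul_of_nonneg_right (hθb s).2 (abs_nonneg _)
      _ ≤ 2 * X := by rw [one_mul]; exact hhb s
  have hg0 : ∀ s, s ≤ 3 ∨ T + 1 ≤ s → g s = 0 := by
    intro s hs
    rw [hg]
    simp only
    rw [hθ0 s hs, zero_mul]
  have hgd : ∀ s, |deriv g s| ≤ (4 * c + 3) * X := by
    intro s
    rcases lt_or_ge s 3 with hs | hs
    · have h1 : g =ᶠ[𝓝 s] fun _ => 0 := by
        filter_upwards [Iio_mem_nhds hs] with t ht'
        exact hg0 t (Or.inl (le_of_lt ht'))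
      rw [h1.deriv_eq]
      simp only [deriv_const', abs_zero]
      positivity
    · have h1 : HasDerivAt θ (deriv θ s) s := ((hθc.differentiable (by norm_num)) s).hasDerivAt
      have h2 : HasDerivAt h (deriv h s) s := ((hhc1.differentiable (by norm_num)) s).hasDerivAt
      have h3 : deriv g s = deriv θ s * h s + θ s * deriv h s := (h1.mul h2).deriv
      rw [h3]
      have e1 : |deriv θ s * h s| ≤ 2 * c * (2 * X) := by
        rw [abs_mul]
        exact mul_le_mul (hθd s) (hhb s) (abs_nonneg _) (by linarith)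
      have e2 : |θ s * deriv h s| ≤ 3 * X := by
        rw [abs_mul, abs_of_nonneg (hθb s).1]
        calc θ s * |deriv h s| ≤ 1 * |deriv h s| :=
              mul_le_mul_of_nonneg_right (hθb s).2 (abs_nonneg _)
          _ ≤ 3 * X := by rw [one_mul]; exact hhd s (by linarith)
      refine (abs_add_le _ _).trans ?_
      linarith
  -- the integrals
  set m : ℝ := ∫ s, θ s * h s ^ 2 with hm
  have hθhc : Continuous fun s => θ s * h s ^ 2 := hθc.continuous.mul (hhc.pow 2)
  have hθhi : Integrable fun s => θ s * h s ^ 2 := by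
    refine hθhc.integrable_of_hasCompactSupport ?_
    refine HasCompactSupport.intro (isCompact_Icc (a := (3 : ℝ)) (b := T + 1)) fun x hx => ?_
    have : θ x = 0 := by
      apply hθ0
      by_contra hcon
      push Not at hcon
      exact hx ⟨hcon.1.le, hcon.2.le⟩
    rw [this, zero_mul]
  have hθh0 : ∀ s, 0 ≤ θ s * h s ^ 2 := fun s => mul_nonneg (hθb s).1 (sq_nonneg _)
  have hm0 : 0 ≤ m := integral_nonneg hθh0
  have hgm : ∫ s, g s ^ 2 ≤ m := by
    refine integral_mono_of_nonneg (Eventually.of_forall fun s => sq_nonneg _) hθhi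
      (Eventually.of_forall fun s => ?_)
    simp only [hg]
    have b := hθb s
    have : (θ s * h s) ^ 2 = θ s * (θ s * h s ^ 2) := by ring
    rw [this]
    calc θ s * (θ s * h s ^ 2) ≤ 1 * (θ s * h s ^ 2) :=
          mul_le_mul_of_nonneg_right b.2 (hθh0 s)
      _ = _ := one_mul _
  have htest := test hA hD ht hT hgc1 hgb hgd hg0 hgm
  -- the real part of the integral is `m`
  have hre : (∫ s : ℝ, (g s : ℂ) * (l s - av l s)).re = m := by
    have hi : Integrable (fun s : ℝ => (g s : ℂ) * (l s - av l s)) := by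
      refine Continuous.integrable_of_hasCompactSupport
        ((Complex.continuous_ofReal.comp hgc1.continuous).mul (hlc.sub havc)) ?_
      refine HasCompactSupport.intro (isCompact_Icc (a := (3 : ℝ)) (b := T + 1)) fun x hx => ?_
      have : g x = 0 := by
        apply hg0
        by_contra hcon
        push Not at hcon
        exact hx ⟨hcon.1.le, hcon.2.le⟩
      rw [this]
      simp
    have h1 := Complex.reCLM.integral_comp_comm hi
    rw [← Complex.reCLM_apply, ← h1, hm]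
    refine integral_congr_ae (Eventually.of_forall fun s => ?_)
    simp only [Complex.reCLM_apply, hg]
    rw [Complex.re_ofReal_mul]
    ring
  have hmle : m ≤ X * ((4 * c + 3) * X + 4 * X + 2 * Real.sqrt m) := by
    calc m = (∫ s : ℝ, (g s : ℂ) * (l s - av l s)).re := hre.symm
      _ ≤ ‖∫ s : ℝ, (g s : ℂ) * (l s - av l s)‖ := Complex.re_le_norm _
      _ ≤ _ := htest
  have hfin : m ≤ (18 + 8 * c) * X ^ 2 := by
    have hs := Real.sq_sqrt hm0
    have hs0 := Real.sqrt_nonneg m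
    nlinarith [sq_nonneg (Real.sqrt m - 2 * X)]
  refine le_trans ?_ hfin
  rw [intervalIntegral.integral_of_le hT]
  have h1 : ∫ s in Ioc 4 T, (l s - av l s).re ^ 2 = ∫ s in Ioc 4 T, θ s * h s ^ 2 := by
    refine setIntegral_congr_fun measurableSet_Ioc fun s hs => ?_
    simp only [hh]
    rw [hθ1 s hs.1.le hs.2, one_mul]
  rw [h1]
  exact setIntegral_le_integral hθhi (Eventually.of_forall hθh0)

theorem av_mul (l : ℝ → ℂ) (a : ℂ) (s : ℝ) : av (fun t => a * l t) s = a * av l s := by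
  unfold av
  rw [← intervalIntegral.integral_const_mul]
  refine intervalIntegral.integral_congr fun x _ => ?_
  exact intervalIntegral.integral_const_mul _ _

/-- rotation by `-i` -/
theorem tst_rot {l : ℝ → ℂ} {X : ℝ} (ht : Tst l X) : Tst (fun s => -I * l s) X where
  pos := ht.pos
  c1 := contDiff_const.mul ht.c1
  b0 := fun s => by
    rw [norm_mul, norm_neg, Complex.norm_I, one_mul]
    exact ht.b0 s
  b1 := fun s hs => by
    have h1 : HasDerivAt l (deriv l s) s := ((ht.c1.differentiable (by norm_num)) s).hasDerivAt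
    rw [(h1.const_mul (-I)).deriv, norm_mul, norm_neg, Complex.norm_I, one_mul]
    exact ht.b1 s hs
  hom := fun K S B hS hB h1 h2 h3 h4 h5 h6 => by
    have := ht.hom K S B hS hB h1 h2 h3 h4 h5 h6
    have he : ∫ s in (0 : ℝ)..S, ((deriv K s : ℝ) : ℂ) * (-I * l s) =
        -I * ∫ s in (0 : ℝ)..S, ((deriv K s : ℝ) : ℂ) * l s := by
      rw [← intervalIntegral.integral_const_mul]
      refine intervalIntegral.integral_congr fun x _ => ?_
      show ((deriv K x : ℝ) : ℂ) * (-I * l x) = -I * (((deriv K x : ℝ) : ℂ) * l x)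
      ring
    rw [he, norm_mul, norm_neg, Complex.norm_I, one_mul]
    exact this

end RA1X

open RA1X in
theorem prfRA1 (hAvrC : AvrC) (hAvD : AvD) (hCut : Cut) : RA1 := by
  obtain ⟨τ, c, hc, hτ, hτ0, hτ1, hτb, hτd, -, -⟩ := hCut
  refine ⟨2 * (18 + 8 * c), by positivity, ?_⟩
  intro l X ht T hT
  have h1 := real_part hAvrC hAvD hc hτ hτ0 hτ1 hτb hτd ht hT
  have h2 := real_part hAvrC hAvD hc hτ hτ0 hτ1 hτb hτd (tst_rot ht) hT
  have hlc : Continuous l := ht.c1.continuous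
  obtain ⟨-, havc, -, -, -⟩ :=
    hAvD (fun _ => 0) l X continuous_const (integrable_zero _ _ _) hlc ht.b0
  have h3 : ∫ s in (4 : ℝ)..T, ‖l s - av l s‖ ^ 2 =
      (∫ s in (4 : ℝ)..T, (l s - av l s).re ^ 2) +
        ∫ s in (4 : ℝ)..T, ((-I * l s) - av (fun s => -I * l s) s).re ^ 2 := by
    rw [← intervalIntegral.integral_add]
    · refine intervalIntegral.integral_congr fun s _ => ?_
      show ‖l s - av l s‖ ^ 2 = (l s - av l s).re ^ 2 +
        ((-I * l s) - av (fun s => -I * l s) s).re ^ 2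
      rw [av_mul, ← mul_sub, Complex.sq_norm, Complex.normSq_apply]
      simp
      ring
    · exact ((Complex.continuous_re.comp (hlc.sub havc)).pow 2).intervalIntegrable _ _
    · have : (fun s => ((-I * l s) - av (fun s => -I * l s) s).re ^ 2) =
          fun s => (-I * (l s - av l s)).re ^ 2 := by
        funext s
        rw [av_mul, mul_sub]
      rw [this]
      exact ((Complex.continuous_re.comp
        (continuous_const.mul (hlc.sub havc))).pow 2).intervalIntegrable _ _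
  rw [h3]
  linarith

end Pool.Agent.MultS.LB

end

section

/-! [R7] The smooth part. -/

set_option autoImplicit false

open Complex Metric Set Filter Topology MeasureTheory
open Pool.Agent.MultS.Lip

namespace Pool.Agent.MultS.LB

namespace RA2X

theorem avr_deriv {K : ℝ → ℝ} (hK : ContDiff ℝ 1 K) (s : ℝ) :
    avr (deriv K) s = ∫ x in (0 : ℝ)..1, (K (s + x + 1) - K (s + x)) := by
  unfold avr
  refine intervalIntegral.integral_congr fun x _ => ?_
  have h1 : ∫ y in (0 : ℝ)..1, deriv K (s + x + y) = ∫ y in (s + x + 0)..(s + x + 1), deriv K y :=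
    intervalIntegral.integral_comp_add_left (fun y => deriv K y) (s + x)
  have h2 : ∫ y in (s + x)..(s + x + 1), deriv K y = K (s + x + 1) - K (s + x) :=
    intervalIntegral.integral_deriv_eq_sub
      (fun y _ => (hK.differentiable one_ne_zero).differentiableAt)
      ((hK.continuous_deriv le_rfl).intervalIntegrable _ _)
  rw [h1, add_zero, h2]

theorem avr_zero {K : ℝ → ℝ} (h : ∀ s : ℝ, s ≤ 5 → K s = 0) {s : ℝ} (hs : s ≤ 3) :
    avr K s = 0 := by
  unfold avr
  have h1 : ∀ x ∈ uIcc (0 : ℝ) 1, ∫ y in (0 : ℝ)..1, K (s + x + y) = 0 := by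
    intro x hx
    rw [uIcc_of_le zero_le_one] at hx
    have h2 : ∫ y in (0 : ℝ)..1, K (s + x + y) = ∫ y in (0 : ℝ)..1, (0 : ℝ) := by
      refine intervalIntegral.integral_congr fun y hy => ?_
      rw [uIcc_of_le zero_le_one] at hy
      exact h _ (by linarith [hx.2, hy.2])
    rw [h2, intervalIntegral.integral_zero]
  have h3 : ∫ x in (0 : ℝ)..1, ∫ y in (0 : ℝ)..1, K (s + x + y) = ∫ x in (0 : ℝ)..1, (0 : ℝ) :=
    intervalIntegral.integral_congr h1
  rw [h3, intervalIntegral.integral_zero]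

theorem deriv_zero {K : ℝ → ℝ} (hK : ContDiff ℝ 1 K) (h : ∀ s : ℝ, s ≤ 5 → K s = 0) {s : ℝ}
    (hs : s ≤ 3) : avr (deriv K) s = 0 := by
  have h3 : ∫ x in (0 : ℝ)..1, (K (s + x + 1) - K (s + x)) = ∫ x in (0 : ℝ)..1, (0 : ℝ) := by
    refine intervalIntegral.integral_congr fun x hx => ?_
    rw [uIcc_of_le zero_le_one] at hx
    show K (s + x + 1) - K (s + x) = 0
    rw [h _ (by linarith [hx.2]), h _ (by linarith [hx.2]), sub_zero]
  rw [avr_deriv hK, h3, intervalIntegral.integral_zero]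

/-- derivatives of `τ (n - s) * A s` -/
theorem cut_deriv {τ A : ℝ → ℝ} (hτ : ContDiff ℝ 2 τ) (hA : ContDiff ℝ 2 A) (n : ℝ) :
    deriv (fun s => τ (n - s) * A s) = (fun s => -deriv τ (n - s) * A s + τ (n - s) * deriv A s) ∧
    deriv (deriv (fun s => τ (n - s) * A s)) = fun s => deriv (deriv τ) (n - s) * A s -
      2 * (deriv τ (n - s) * deriv A s) + τ (n - s) * deriv (deriv A) s := by
  have hτ1 : Differentiable ℝ τ := hτ.differentiable two_ne_zero
  have hA1 : Differentiable ℝ A := hA.differentiable two_ne_zero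
  have hτ2 : Differentiable ℝ (deriv τ) :=
    (contDiff_succ_iff_deriv.mp (by rw [one_add_one_eq_two]; exact hτ : ContDiff ℝ (1 + 1) τ)).2.2.differentiable
      one_ne_zero
  have hA2 : Differentiable ℝ (deriv A) :=
    (contDiff_succ_iff_deriv.mp (by rw [one_add_one_eq_two]; exact hA : ContDiff ℝ (1 + 1) A)).2.2.differentiable
      one_ne_zero
  have e0 : ∀ s : ℝ, HasDerivAt (fun s : ℝ => n - s) (-1) s := fun s => by
    simpa using (hasDerivAt_id s).const_sub n
  have e1 : ∀ s : ℝ, HasDerivAt (fun s => τ (n - s)) (-deriv τ (n - s)) s := fun s => by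
    have := (hτ1 (n - s)).hasDerivAt.comp s (e0 s)
    rw [mul_neg_one] at this
    exact this
  have e2 : ∀ s : ℝ, HasDerivAt (fun s => deriv τ (n - s)) (-deriv (deriv τ) (n - s)) s :=
    fun s => by
      have := (hτ2 (n - s)).hasDerivAt.comp s (e0 s)
      rw [mul_neg_one] at this
      exact this
  have d1 : deriv (fun s => τ (n - s) * A s) =
      (fun s => -deriv τ (n - s) * A s + τ (n - s) * deriv A s) := by
    funext s
    exact ((e1 s).mul (hA1 s).hasDerivAt).deriv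
  refine ⟨d1, ?_⟩
  rw [d1]
  funext s
  have h1 := ((e2 s).neg.mul (hA1 s).hasDerivAt).add ((e1 s).mul (hA2 s).hasDerivAt)
  have h2 : deriv (fun s => -deriv τ (n - s) * A s + τ (n - s) * deriv A s) s =
      - -deriv (deriv τ) (n - s) * A s + -deriv τ (n - s) * deriv A s +
        (-deriv τ (n - s) * deriv A s + τ (n - s) * deriv (deriv A) s) := h1.deriv
  rw [h2]
  ring

end RA2X

open RA2X in
theorem prfRA2 (hAvrC : AvrC) (hAvD : AvD) (hCut : Cut) : RA2 := by
  obtain ⟨τ, c, hc, hτ, hτ0, hτ1, hτb, hτd, hτdd, hτz⟩ := hCut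
  refine ⟨10 * c, by positivity, ?_⟩
  intro l X hl K B hB hK hK0 hKb hKi hK2i hK2
  have hX := hl.pos
  have hcK' : Continuous (deriv K) := hK.continuous_deriv le_rfl
  have hcl : Continuous l := hl.c1.continuous
  obtain ⟨hA2, hAd, hAdd, hAb, hAdb, hAddb⟩ := hAvrC K B hK.continuous hKb
  obtain ⟨hDi, -, -, -, hD2⟩ := hAvD (deriv K) l X hcK' hKi hcl hl.b0
  obtain ⟨hD2i, hD2b⟩ := hD2 hK2i
  have hDeq : deriv (avr K) = avr (deriv K) := by
    funext s
    rw [hAd, avr_deriv hK]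
  set A := avr K with hA
  set D := avr (deriv K) with hD
  have hDc : Continuous D := by
    rw [← hDeq]
    exact hA2.continuous_deriv (by norm_num)
  have hAz : ∀ s : ℝ, s ≤ 3 → A s = 0 := fun s hs => avr_zero hK0 hs
  have hDz : ∀ s : ℝ, s ≤ 3 → D s = 0 := fun s hs => deriv_zero hK hK0 hs
  have hDb : ∀ s, |D s| ≤ 2 * B := fun s => by rw [← hDeq]; exact hAdb s
  have hτn : ∀ x, |τ x| ≤ 1 := fun x => abs_le.mpr ⟨by linarith [(hτb x).1], (hτb x).2⟩
  have hτc : Continuous τ := hτ.continuous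
  have hτ'c : Continuous (deriv τ) := hτ.continuous_deriv (by norm_num)
  have hAc : Continuous A := hA2.continuous
  -- the estimate for each `n`
  have key : ∀ n : ℕ, 10 ≤ n →
      ‖∫ s : ℝ, ((τ (n - s) * D s : ℝ) : ℂ) * l s‖ ≤ 10 * c * X * B := by
    intro n hn
    have hn' : (10 : ℝ) ≤ n := by exact_mod_cast hn
    obtain ⟨d1, d2⟩ := cut_deriv hτ hA2 (n : ℝ)
    rw [hDeq] at d1
    set Kn : ℝ → ℝ := fun s => τ (n - s) * A s with hKn
    have sup1 : ∀ s : ℝ, s ∉ Ioc (0 : ℝ) n → deriv Kn s = 0 := by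
      intro s hs
      rw [d1]
      simp only
      rcases not_and_or.mp hs with h | h
      · have h3 : s ≤ 3 := by linarith [not_lt.mp h]
        rw [hAz s h3, hDz s h3, mul_zero, mul_zero, add_zero]
      · have h3 : (n : ℝ) - s ≤ 0 := by linarith [not_le.mp h]
        rw [hτz _ (Or.inl h3), hτ0 _ h3]
        ring
    have sup2 : ∀ s : ℝ, s ∉ Icc ((n : ℝ) - 1) n → deriv τ (n - s) = 0 := by
      intro s hs
      apply hτz
      rcases not_and_or.mp hs with h | h
      · right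
        linarith [not_le.mp h]
      · left
        linarith [not_le.mp h]
    have vol : ∀ a : ℝ, ∫ s : ℝ, (Icc ((n : ℝ) - 1) n).indicator (fun _ => a) s = a := by
      intro a
      rw [integral_indicator_const _ measurableSet_Icc, Real.volume_real_Icc_of_le (by linarith)]
      simp
    have inti : ∀ a : ℝ, Integrable ((Icc ((n : ℝ) - 1) n).indicator (fun _ => a)) := by
      intro a
      rw [integrable_indicator_iff measurableSet_Icc]
      exact (continuous_const.integrableOn_Icc)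
    -- the square
    have sq : ∫ s in (0 : ℝ)..(n : ℝ), deriv Kn s ^ 2 ≤ (9 * c * B) ^ 2 := by
      rw [intervalIntegral.integral_eq_integral_of_support_subset (by
        intro s hs
        by_contra h
        exact hs (by simp only [sup1 s h]; norm_num))]
      have h1 : ∫ s : ℝ, deriv Kn s ^ 2 ≤
          ∫ s : ℝ, ((Icc ((n : ℝ) - 1) n).indicator (fun _ => 2 * (c * B) ^ 2) s + 2 * D s ^ 2) := by
        refine integral_mono_of_nonneg (Eventually.of_forall fun s => by positivity)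
          ((inti _).add (hD2i.const_mul 2)) (Eventually.of_forall fun s => ?_)
        rw [d1]
        simp only
        have e1 : (τ (n - s) * D s) ^ 2 ≤ D s ^ 2 := by
          rw [← sq_abs, abs_mul, ← sq_abs (D s)]
          refine pow_le_pow_left₀ (by positivity) ?_ 2
          exact (mul_le_mul_of_nonneg_right (hτn _) (abs_nonneg _)).trans (one_mul _).le
        by_cases hs : s ∈ Icc ((n : ℝ) - 1) n
        · rw [indicator_of_mem hs]
          have e2 : (-deriv τ (n - s) * A s) ^ 2 ≤ (c * B) ^ 2 := by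
            rw [← sq_abs, abs_mul, abs_neg]
            exact pow_le_pow_left₀ (by positivity)
              (mul_le_mul (hτd _) (hAb s) (abs_nonneg _) (by positivity)) 2
          have e3 := add_sq_le (a := -deriv τ (n - s) * A s) (b := τ (n - s) * D s)
          linarith
        · rw [indicator_of_notMem hs, sup2 s hs, neg_zero, zero_mul, zero_add, zero_add]
          have : 0 ≤ D s ^ 2 := by positivity
          linarith
      refine h1.trans ?_
      rw [integral_add (inti _) (hD2i.const_mul 2), vol, integral_const_mul]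
      have h2 : 0 ≤ c * B := by positivity
      have h3 : B ^ 2 ≤ (c * B) ^ 2 := pow_le_pow_left₀ hB.le (by nlinarith) 2
      have h4 : (9 * c * B) ^ 2 = 81 * (c * B) ^ 2 := by ring
      have h5 : 0 ≤ (c * B) ^ 2 := by positivity
      rw [h4]
      linarith [hD2b.trans hK2]
    have cB : B ≤ c * B := by nlinarith
    have bd := hl.hom Kn n (9 * c * B) (by linarith) (by positivity)
      ((hτ.comp (contDiff_const.sub contDiff_id)).mul hA2)
      (by
        intro s hs
        rcases hs with h | h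
        · simp only [hKn]
          rw [hAz s (by linarith), mul_zero]
        · simp only [hKn]
          rw [hτ0 _ (by linarith), zero_mul])
      (by
        intro s
        simp only [hKn]
        rw [abs_mul]
        have := mul_le_mul (hτn (n - s)) (hAb s) (abs_nonneg _) zero_le_one
        linarith)
      (by
        intro s
        rw [d1]
        simp only
        have e1 : |-deriv τ (n - s) * A s| ≤ c * B := by
          rw [abs_mul, abs_neg]
          exact mul_le_mul (hτd _) (hAb s) (abs_nonneg _) (by positivity)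
        have e2 : |τ (n - s) * D s| ≤ 1 * (2 * B) := by
          rw [abs_mul]
          exact mul_le_mul (hτn _) (hDb s) (abs_nonneg _) zero_le_one
        have e3 := abs_add_le (-deriv τ (n - s) * A s) (τ (n - s) * D s)
        linarith)
      (by
        intro s
        rw [d2]
        simp only
        have e1 : |deriv (deriv τ) (n - s) * A s| ≤ c * B := by
          rw [abs_mul]
          exact mul_le_mul (hτdd _) (hAb s) (abs_nonneg _) (by positivity)
        have e2 : |deriv τ (n - s) * deriv A s| ≤ c * (2 * B) := by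
          rw [abs_mul]
          exact mul_le_mul (hτd _) (hAdb s) (abs_nonneg _) (by positivity)
        have e3 : |τ (n - s) * deriv (deriv A) s| ≤ 1 * (4 * B) := by
          rw [abs_mul]
          exact mul_le_mul (hτn _) (hAddb s) (abs_nonneg _) zero_le_one
        have e4 := abs_add_le (deriv (deriv τ) (n - s) * A s - 2 * (deriv τ (n - s) * deriv A s))
          (τ (n - s) * deriv (deriv A) s)
        have e5 := abs_sub (deriv (deriv τ) (n - s) * A s) (2 * (deriv τ (n - s) * deriv A s))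
        have e6 : |2 * (deriv τ (n - s) * deriv A s)| = 2 * |deriv τ (n - s) * deriv A s| := by
          rw [abs_mul, abs_two]
        linarith)
      sq
    rw [intervalIntegral.integral_eq_integral_of_support_subset (by
        intro s hs
        by_contra h
        exact hs (by simp only [sup1 s h]; simp))] at bd
    -- the error term
    have Eb : ∀ s : ℝ, ‖((deriv τ (n - s) * A s : ℝ) : ℂ) * l s‖ ≤
        (Icc ((n : ℝ) - 1) n).indicator (fun _ => c * B * X) s := by
      intro s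
      by_cases hs : s ∈ Icc ((n : ℝ) - 1) n
      · rw [indicator_of_mem hs, norm_mul, Complex.norm_real, Real.norm_eq_abs, abs_mul]
        exact mul_le_mul (mul_le_mul (hτd _) (hAb s) (abs_nonneg _) (by positivity)) (hl.b0 s)
          (norm_nonneg _) (by positivity)
      · rw [indicator_of_notMem hs, sup2 s hs, zero_mul, ofReal_zero, zero_mul, norm_zero]
    have Ei : Integrable (fun s : ℝ => ((deriv τ (n - s) * A s : ℝ) : ℂ) * l s) := by
      refine (inti (c * B * X)).mono' ?_ (Eventually.of_forall Eb)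
      refine Continuous.aestronglyMeasurable ?_
      fun_prop
    have Eint : ‖∫ s : ℝ, ((deriv τ (n - s) * A s : ℝ) : ℂ) * l s‖ ≤ c * B * X := by
      refine (norm_integral_le_of_norm_le (inti (c * B * X)) (Eventually.of_forall Eb)).trans ?_
      rw [vol]
    have Fi : Integrable (fun s : ℝ => ((τ (n - s) * D s : ℝ) : ℂ) * l s) := by
      refine (hDi.norm.mul_const X).mono' ?_ (Eventually.of_forall fun s => ?_)
      · refine Continuous.aestronglyMeasurable ?_
        fun_prop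
      · rw [norm_mul, Complex.norm_real, Real.norm_eq_abs, abs_mul, Real.norm_eq_abs]
        refine mul_le_mul ?_ (hl.b0 s) (norm_nonneg _) (abs_nonneg _)
        exact (mul_le_mul_of_nonneg_right (hτn _) (abs_nonneg _)).trans (one_mul _).le
    have split : ∫ s : ℝ, ((τ (n - s) * D s : ℝ) : ℂ) * l s =
        (∫ s : ℝ, ((deriv Kn s : ℝ) : ℂ) * l s) +
          ∫ s : ℝ, ((deriv τ (n - s) * A s : ℝ) : ℂ) * l s := by
      have h1 : (fun s : ℝ => ((deriv Kn s : ℝ) : ℂ) * l s) = fun s =>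
          ((τ (n - s) * D s : ℝ) : ℂ) * l s - ((deriv τ (n - s) * A s : ℝ) : ℂ) * l s := by
        funext s
        rw [d1]
        push_cast
        ring
      rw [h1, integral_sub Fi Ei]
      ring
    rw [split]
    refine (norm_add_le _ _).trans ?_
    have : X * (9 * c * B) + c * B * X = 10 * c * X * B := by ring
    linarith
  -- the limit
  have lim : Tendsto (fun n : ℕ => ∫ s : ℝ, ((τ (n - s) * D s : ℝ) : ℂ) * l s) atTop
      (𝓝 (∫ s : ℝ, (D s : ℂ) * l s)) := by
    refine tendsto_integral_of_dominated_convergence (fun s => ‖D s‖ * X) (fun n => ?_)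
      (hDi.norm.mul_const X) (fun n => Eventually.of_forall fun s => ?_)
      (Eventually.of_forall fun s => ?_)
    · refine Continuous.aestronglyMeasurable ?_
      fun_prop
    · rw [norm_mul, Complex.norm_real, Real.norm_eq_abs, abs_mul, Real.norm_eq_abs]
      refine mul_le_mul ?_ (hl.b0 s) (norm_nonneg _) (abs_nonneg _)
      exact (mul_le_mul_of_nonneg_right (hτn _) (abs_nonneg _)).trans (one_mul _).le
    · refine tendsto_const_nhds.congr' ?_
      filter_upwards [eventually_ge_atTop ⌈s + 1⌉₊] with n hn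
      have h1 : s + 1 ≤ n := (Nat.le_ceil _).trans (by exact_mod_cast hn)
      rw [hτ1 _ (by linarith), one_mul]
  refine le_of_tendsto lim.norm ?_
  filter_upwards [eventually_ge_atTop 10] with n hn
  exact key n hn

end Pool.Agent.MultS.LB

end

section

/-!
# The general estimate
-/

set_option autoImplicit false

open Complex Metric Set Filter Topology MeasureTheory
open Pool.Agent.MultS.Lip

namespace Pool.Agent.MultS.LB

namespace RA3X

theorem hasDerivAt_K {κ : ℝ → ℝ} (hc : Continuous κ) (hi : Integrable κ) (s : ℝ) :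
    HasDerivAt (fun s => -∫ x in Ioi s, κ x) (κ s) s := by
  have h1 : (fun s => -∫ x in Ioi s, κ x) = fun s => (∫ x in (0 : ℝ)..s, κ x) - ∫ x in Ioi (0 : ℝ), κ x := by
    funext s
    have := intervalIntegral.integral_interval_add_Ioi (f := κ) (a := 0) (b := s) (μ := volume)
      hi.integrableOn hi.integrableOn
    linarith
  rw [h1]
  have h2 := intervalIntegral.integral_hasDerivAt_right (f := κ) (a := 0) (b := s)
    (hc.intervalIntegrable _ _) (hc.stronglyMeasurableAtFilter _ _) hc.continuousAt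
  exact h2.sub_const _

/-- arithmetic-geometric mean -/
theorem am {x y p q : ℝ} (hp : 0 < p) (hq : 0 < q) :
    x * y ≤ p / (2 * q) * x ^ 2 + q / (2 * p) * y ^ 2 := by
  have h1 : p / (2 * q) * x ^ 2 + q / (2 * p) * y ^ 2 - x * y = (p * x - q * y) ^ 2 / (2 * p * q) := by
    field_simp
    ring
  have h2 : 0 ≤ (p * x - q * y) ^ 2 / (2 * p * q) := by positivity
  linarith

theorem am1 {x p : ℝ} (hp : 0 < p) : |x| ≤ 1 / (2 * p) * x ^ 2 + p / 2 := by
  have h := am (x := |x|) (y := 1) (p := 1) (q := p) one_pos hp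
  rw [sq_abs] at h
  linarith

/-- the integral over `(0, 6]` of a square integrable function -/
theorem int6 {f : ℝ → ℝ} {b : ℝ} (hb : 0 < b) (hf : Continuous f) (h2 : Integrable (fun s => f s ^ 2))
    (h3 : ∫ s, f s ^ 2 ≤ b ^ 2) : ∫ s in Ioc (0 : ℝ) 6, |f s| ≤ 7 / 2 * b := by
  have h4 : IntegrableOn (fun s => 1 / (2 * b) * f s ^ 2 + b / 2) (Ioc (0 : ℝ) 6) := by
    apply Continuous.integrableOn_Ioc
    fun_prop
  have h5 : ∫ s in Ioc (0 : ℝ) 6, |f s| ≤ ∫ s in Ioc (0 : ℝ) 6, (1 / (2 * b) * f s ^ 2 + b / 2) := by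
    apply setIntegral_mono
    · apply Continuous.integrableOn_Ioc
      fun_prop
    · exact h4
    · intro s
      exact am1 hb
  have h6 : ∫ s in Ioc (0 : ℝ) 6, (1 / (2 * b) * f s ^ 2 + b / 2) =
      1 / (2 * b) * (∫ s in Ioc (0 : ℝ) 6, f s ^ 2) + 3 * b := by
    rw [integral_add, integral_const_mul, setIntegral_const]
    · simp only [measureReal_def, Real.volume_Ioc, sub_zero, smul_eq_mul]
      rw [ENNReal.toReal_ofReal (by norm_num)]
      ring
    · exact (h2.integrableOn).const_mul _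
    · exact integrableOn_const (by simp) (by simp)
  have h7 : ∫ s in Ioc (0 : ℝ) 6, f s ^ 2 ≤ ∫ s, f s ^ 2 :=
    setIntegral_le_integral h2 (Eventually.of_forall fun s => sq_nonneg _)
  have h8 : 1 / (2 * b) * (∫ s in Ioc (0 : ℝ) 6, f s ^ 2) ≤ 1 / (2 * b) * b ^ 2 :=
    mul_le_mul_of_nonneg_left (h7.trans h3) (by positivity)
  have h9 : 1 / (2 * b) * b ^ 2 = b / 2 := by field_simp
  rw [h6] at h5
  linarith

/-- the high frequency part -/
theorem high {f : ℝ → ℝ} {h : ℝ → ℂ} {b X C : ℝ} (hb : 0 < b) (hX : 0 < X) (hf : Continuous f)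
    (h1 : Integrable f) (h2 : Integrable (fun s => f s ^ 2)) (h3 : ∫ s, f s ^ 2 ≤ b ^ 2)
    (h5 : ∀ s ≤ 5, f s = 0) (hh : Continuous h) (hm : ∀ s, ‖h s‖ ≤ 2 * X)
    (hT : ∀ T : ℝ, 4 ≤ T → ∫ s in (4 : ℝ)..T, ‖h s‖ ^ 2 ≤ C * X ^ 2) :
    ‖∫ s, (f s : ℂ) * h s‖ ≤ (1 + C) / 2 * (X * b) := by
  have hi : Integrable (fun s => |f s| * ‖h s‖) := by
    refine (h1.abs.mul_const (2 * X)).mono' (by fun_prop) (Eventually.of_forall fun s => ?_)
    rw [Real.norm_eq_abs, abs_mul, abs_abs, abs_norm]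
    exact mul_le_mul_of_nonneg_left (hm s) (abs_nonneg _)
  have h6 : ‖∫ s, (f s : ℂ) * h s‖ ≤ ∫ s, |f s| * ‖h s‖ := by
    refine (norm_integral_le_integral_norm _).trans_eq ?_
    congr 1
    funext s
    rw [norm_mul, Complex.norm_real, Real.norm_eq_abs]
  have h7 : ∫ s, |f s| * ‖h s‖ = ∫ s in Ioi (4 : ℝ), |f s| * ‖h s‖ := by
    symm
    apply setIntegral_eq_integral_of_forall_compl_eq_zero
    intro s hs
    rw [h5 s (by simp only [mem_Ioi, not_lt] at hs; linarith), abs_zero, zero_mul]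
  have h8 : ∀ T : ℝ, 4 ≤ T → ∫ s in (4 : ℝ)..T, |f s| * ‖h s‖ ≤ (1 + C) / 2 * (X * b) := by
    intro T hT4
    have h9 : ∫ s in (4 : ℝ)..T, |f s| * ‖h s‖ ≤
        ∫ s in (4 : ℝ)..T, (X / (2 * b) * f s ^ 2 + b / (2 * X) * ‖h s‖ ^ 2) := by
      apply intervalIntegral.integral_mono_on hT4
      · exact hi.intervalIntegrable
      · apply Continuous.intervalIntegrable
        fun_prop
      · intro s _
        have := am (x := |f s|) (y := ‖h s‖) hX hb
        rwa [sq_abs] at this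
    have h10 : ∫ s in (4 : ℝ)..T, (X / (2 * b) * f s ^ 2 + b / (2 * X) * ‖h s‖ ^ 2) =
        X / (2 * b) * (∫ s in (4 : ℝ)..T, f s ^ 2) + b / (2 * X) * ∫ s in (4 : ℝ)..T, ‖h s‖ ^ 2 := by
      rw [intervalIntegral.integral_add, intervalIntegral.integral_const_mul,
        intervalIntegral.integral_const_mul]
      · apply Continuous.intervalIntegrable
        fun_prop
      · apply Continuous.intervalIntegrable
        fun_prop
    have h11 : ∫ s in (4 : ℝ)..T, f s ^ 2 ≤ b ^ 2 := by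
      rw [intervalIntegral.integral_of_le hT4]
      exact (setIntegral_le_integral h2 (Eventually.of_forall fun s => sq_nonneg _)).trans h3
    have h12 : X / (2 * b) * (∫ s in (4 : ℝ)..T, f s ^ 2) ≤ X / (2 * b) * b ^ 2 :=
      mul_le_mul_of_nonneg_left h11 (by positivity)
    have h13 : b / (2 * X) * (∫ s in (4 : ℝ)..T, ‖h s‖ ^ 2) ≤ b / (2 * X) * (C * X ^ 2) :=
      mul_le_mul_of_nonneg_left (hT T hT4) (by positivity)
    have h14 : X / (2 * b) * b ^ 2 + b / (2 * X) * (C * X ^ 2) = (1 + C) / 2 * (X * b) := by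
      field_simp
    rw [h10] at h9
    linarith
  have h15 : Tendsto (fun T : ℝ => ∫ s in (4 : ℝ)..T, |f s| * ‖h s‖) atTop
      (𝓝 (∫ s in Ioi (4 : ℝ), |f s| * ‖h s‖)) :=
    intervalIntegral_tendsto_integral_Ioi _ hi.integrableOn tendsto_id
  rw [h7] at h6
  refine h6.trans ?_
  apply le_of_tendsto h15
  filter_upwards [eventually_ge_atTop (4 : ℝ)] with T hT4 using h8 T hT4

/-- the cut-off primitive -/
theorem kplus {τ : ℝ → ℝ} {c : ℝ} (hc1 : 1 ≤ c) (hτ : ContDiff ℝ 2 τ)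
    (h0 : ∀ x : ℝ, x ≤ 0 → τ x = 0) (h1 : ∀ x : ℝ, 1 ≤ x → τ x = 1)
    (hb : ∀ x : ℝ, 0 ≤ τ x ∧ τ x ≤ 1) (hd : ∀ x : ℝ, |deriv τ x| ≤ c)
    (hz : ∀ x : ℝ, x ≤ 0 ∨ 1 ≤ x → deriv τ x = 0)
    {κ : ℝ → ℝ} {B : ℝ} (hB : 0 < B) (hκ : Continuous κ) (hi : Integrable κ)
    (hi2 : Integrable (fun s => κ s ^ 2)) (hK : ∀ s : ℝ, |∫ x in Ioi s, κ x| ≤ B)
    (h2 : ∫ s : ℝ, κ s ^ 2 ≤ B ^ 2) :
    ∃ P : ℝ → ℝ, ContDiff ℝ 1 P ∧ (∀ s ≤ 5, P s = 0) ∧ (∀ s, |P s| ≤ B) ∧
      Continuous (deriv P) ∧ (∀ s ≤ 5, deriv P s = 0) ∧ (∀ s, 6 ≤ s → deriv P s = κ s) ∧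
      Integrable (deriv P) ∧ Integrable (fun s => deriv P s ^ 2) ∧
      ∫ s, deriv P s ^ 2 ≤ ((2 + 2 * c) * B) ^ 2 := by
  let K : ℝ → ℝ := fun s => -∫ x in Ioi s, κ x
  have hKd : ∀ s, HasDerivAt K (κ s) s := fun s => hasDerivAt_K hκ hi s
  have hKc : Continuous K := continuous_iff_continuousAt.2 fun s => (hKd s).continuousAt
  have hKb : ∀ s, |K s| ≤ B := fun s => by
    show |-∫ x in Ioi s, κ x| ≤ B
    rw [abs_neg]
    exact hK s
  have hτd : ∀ s, HasDerivAt τ (deriv τ s) s := fun s =>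
    ((hτ.differentiable (by norm_num)) s).hasDerivAt
  have hτc : Continuous τ := hτ.continuous
  have hτdc : Continuous (deriv τ) := hτ.continuous_deriv (by norm_num)
  let P : ℝ → ℝ := fun s => τ (s - 5) * K s
  let k : ℝ → ℝ := fun s => deriv τ (s - 5) * K s + τ (s - 5) * κ s
  have hPd : ∀ s, HasDerivAt P (k s) s := by
    intro s
    have h3 : HasDerivAt (fun s => τ (s - 5)) (deriv τ (s - 5)) s := by
      have h4 : HasDerivAt (fun s : ℝ => s - 5) 1 s := (hasDerivAt_id s).sub_const 5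
      have h5 := (hτd (s - 5)).comp s h4
      rw [mul_one] at h5
      exact h5
    exact h3.mul (hKd s)
  have hdP : deriv P = k := funext fun s => (hPd s).deriv
  have hkc : Continuous k := by
    show Continuous fun s => deriv τ (s - 5) * K s + τ (s - 5) * κ s
    fun_prop
  -- the bump part
  have hbump : ∀ s, |deriv τ (s - 5) * K s| ≤ (Ioc (5 : ℝ) 6).indicator (fun _ => c * B) s := by
    intro s
    by_cases hs : s ∈ Ioc (5 : ℝ) 6
    · rw [indicator_of_mem hs, abs_mul]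
      exact mul_le_mul (hd _) (hKb s) (abs_nonneg _) (by linarith)
    · rw [indicator_of_notMem hs]
      have h3 : deriv τ (s - 5) = 0 := by
        apply hz
        by_contra h4
        push Not at h4
        exact hs ⟨by linarith, by linarith⟩
      rw [h3, zero_mul, abs_zero]
  have hbi : Integrable ((Ioc (5 : ℝ) 6).indicator (fun _ => c * B)) := by
    rw [integrable_indicator_iff measurableSet_Ioc]
    exact integrableOn_const (by simp) enorm_ne_top
  have hk : ∀ s, |k s| ≤ (Ioc (5 : ℝ) 6).indicator (fun _ => c * B) s + |κ s| := by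
    intro s
    refine (abs_add_le _ _).trans (add_le_add (hbump s) ?_)
    rw [abs_mul, abs_of_nonneg (hb _).1]
    exact mul_le_of_le_one_left (abs_nonneg _) (hb _).2
  have hki : Integrable k :=
    (hbi.add hi.abs).mono' hkc.aestronglyMeasurable (Eventually.of_forall fun s => by
      rw [Real.norm_eq_abs]; exact hk s)
  have hbi2 : Integrable ((Ioc (5 : ℝ) 6).indicator (fun _ => 2 * (c * B) ^ 2)) := by
    rw [integrable_indicator_iff measurableSet_Ioc]
    exact integrableOn_const (by simp) enorm_ne_top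
  have hk2 : ∀ s, k s ^ 2 ≤ (Ioc (5 : ℝ) 6).indicator (fun _ => 2 * (c * B) ^ 2) s +
      2 * κ s ^ 2 := by
    intro s
    have h3 := hk s
    have h4 : k s ^ 2 ≤ ((Ioc (5 : ℝ) 6).indicator (fun _ => c * B) s + |κ s|) ^ 2 := by
      rw [← sq_abs]
      exact pow_le_pow_left₀ (abs_nonneg _) h3 2
    have h5 : ((Ioc (5 : ℝ) 6).indicator (fun _ => c * B) s + |κ s|) ^ 2 ≤
        2 * ((Ioc (5 : ℝ) 6).indicator (fun _ => c * B) s) ^ 2 + 2 * |κ s| ^ 2 := by
      have := sq_nonneg ((Ioc (5 : ℝ) 6).indicator (fun _ => c * B) s - |κ s|)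
      nlinarith
    have h6 : 2 * ((Ioc (5 : ℝ) 6).indicator (fun _ => c * B) s) ^ 2 =
        (Ioc (5 : ℝ) 6).indicator (fun _ => 2 * (c * B) ^ 2) s := by
      by_cases hs : s ∈ Ioc (5 : ℝ) 6
      · rw [indicator_of_mem hs, indicator_of_mem hs]
      · rw [indicator_of_notMem hs, indicator_of_notMem hs]
        ring
    rw [h6, sq_abs] at h5
    exact h4.trans h5
  have hki2 : Integrable (fun s => k s ^ 2) :=
    (hbi2.add (hi2.const_mul 2)).mono' (by fun_prop) (Eventually.of_forall fun s => by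
      rw [Real.norm_eq_abs, abs_of_nonneg (sq_nonneg _)]; exact hk2 s)
  have hk2i : ∫ s, k s ^ 2 ≤ ((2 + 2 * c) * B) ^ 2 := by
    have h3 : ∫ s, k s ^ 2 ≤
        ∫ s, ((Ioc (5 : ℝ) 6).indicator (fun _ => 2 * (c * B) ^ 2) s + 2 * κ s ^ 2) :=
      integral_mono hki2 (hbi2.add (hi2.const_mul 2)) hk2
    have h4 : ∫ s, ((Ioc (5 : ℝ) 6).indicator (fun _ => 2 * (c * B) ^ 2) s + 2 * κ s ^ 2) =
        2 * (c * B) ^ 2 + 2 * ∫ s, κ s ^ 2 := by
      rw [integral_add hbi2 (hi2.const_mul 2), integral_indicator measurableSet_Ioc,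
        setIntegral_const, integral_const_mul]
      simp only [measureReal_def, Real.volume_Ioc, smul_eq_mul]
      rw [ENNReal.toReal_ofReal (by norm_num)]
      ring
    have h5 : 0 ≤ c * B ^ 2 := by positivity
    have h6 : ((2 + 2 * c) * B) ^ 2 = 4 * B ^ 2 + 8 * (c * B ^ 2) + 4 * (c * B) ^ 2 := by ring
    have h7 : 0 ≤ (c * B) ^ 2 := sq_nonneg _
    have h8 : 0 ≤ B ^ 2 := sq_nonneg _
    rw [h6]
    linarith
  refine ⟨P, ?_, ?_, ?_, ?_, ?_, ?_, ?_, ?_, ?_⟩
  · rw [contDiff_one_iff_deriv]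
    exact ⟨fun s => (hPd s).differentiableAt, by rw [hdP]; exact hkc⟩
  · intro s hs
    show τ (s - 5) * K s = 0
    rw [h0 _ (by linarith), zero_mul]
  · intro s
    show |τ (s - 5) * K s| ≤ B
    rw [abs_mul, abs_of_nonneg (hb _).1]
    exact (mul_le_of_le_one_left (abs_nonneg _) (hb _).2).trans (hKb s)
  · rw [hdP]; exact hkc
  · intro s hs
    rw [hdP]
    show deriv τ (s - 5) * K s + τ (s - 5) * κ s = 0
    rw [h0 _ (by linarith), hz _ (Or.inl (by linarith))]
    ring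
  · intro s hs
    rw [hdP]
    show deriv τ (s - 5) * K s + τ (s - 5) * κ s = κ s
    rw [h1 _ (by linarith), hz _ (Or.inr (by linarith))]
    ring
  · rw [hdP]; exact hki
  · rw [hdP]; exact hki2
  · rw [hdP]; exact hk2i

end RA3X

theorem prfRA3 (hRA1 : RA1) (hRA2 : RA2) (hAvD : AvD) (hCut : Cut) : RA3 := by
  obtain ⟨C₁, hC₁, h1⟩ := hRA1
  obtain ⟨C₂, hC₂, h2⟩ := hRA2
  obtain ⟨τ, c, hc1, hτ, hτ0, hτ1, hτb, hτd, -, hτz⟩ := hCut
  refine ⟨(2 + 2 * c) * ((1 + C₁) / 2 + C₂ + 7), by positivity, ?_⟩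
  intro l X hl κ B hB hκ hκi hκi2 hK hκ2
  obtain ⟨P, hP1, hP0, hPb, hPc, hPd0, hPd6, hPi, hPi2, hP2⟩ :=
    RA3X.kplus hc1 hτ hτ0 hτ1 hτb hτd hτz hB hκ hκi hκi2 hK hκ2
  have hX := hl.pos
  have hlc : Continuous l := hl.c1.continuous
  set b := (2 + 2 * c) * B with hbdef
  have hb : 0 < b := by positivity
  have hBb : B ≤ b := by
    rw [hbdef]
    nlinarith
  obtain ⟨ha1, ha2, ha3, ha4, -⟩ := hAvD (deriv P) l X hPc hPi hlc hl.b0
  -- the smooth part
  have hs := h2 l X hl P b hb hP1 hP0 (fun s => (hPb s).trans hBb) hPi hPi2 hP2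
  -- the high frequency part
  have hh := RA3X.high (f := deriv P) (h := fun s => l s - av l s) hb hX hPc hPi hPi2 hP2 hPd0
    (hlc.sub ha2) (fun s => by
      refine (norm_sub_le _ _).trans ?_
      linarith [hl.b0 s, ha3 s]) (h1 l X hl)
  have hPl : Integrable (fun s => ((deriv P s : ℝ) : ℂ) * l s) :=
    (hPi.ofReal).mul_bdd (c := X) hlc.aestronglyMeasurable (Eventually.of_forall hl.b0)
  have hPa : Integrable (fun s => ((deriv P s : ℝ) : ℂ) * av l s) :=
    (hPi.ofReal).mul_bdd (c := X) ha2.aestronglyMeasurable (Eventually.of_forall ha3)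
  have hκl : Integrable (fun s => ((κ s : ℝ) : ℂ) * l s) :=
    (hκi.ofReal).mul_bdd (c := X) hlc.aestronglyMeasurable (Eventually.of_forall hl.b0)
  have h3 : ∫ s, ((deriv P s : ℝ) : ℂ) * l s =
      (∫ s, ((deriv P s : ℝ) : ℂ) * (l s - av l s)) + ∫ s, (avr (deriv P) s : ℂ) * l s := by
    rw [ha4, ← integral_add]
    · congr 1
      funext s
      ring
    · refine (hPl.sub hPa).congr (Eventually.of_forall fun s => ?_)
      show ((deriv P s : ℝ) : ℂ) * l s - ((deriv P s : ℝ) : ℂ) * av l s = _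
      ring
    · exact hPa
  have h4 : ∫ s in Ioi (0 : ℝ), (κ s : ℂ) * l s =
      (∫ s, ((deriv P s : ℝ) : ℂ) * l s) + ∫ s in Ioc (0 : ℝ) 6, ((κ s - deriv P s : ℝ) : ℂ) * l s := by
    have h5 : ∫ s, ((deriv P s : ℝ) : ℂ) * l s = ∫ s in Ioi (0 : ℝ), ((deriv P s : ℝ) : ℂ) * l s := by
      symm
      apply setIntegral_eq_integral_of_forall_compl_eq_zero
      intro s hs'
      rw [hPd0 s (by simp only [mem_Ioi, not_lt] at hs'; linarith)]
      simp
    have h6 : ∫ s in Ioc (0 : ℝ) 6, ((κ s - deriv P s : ℝ) : ℂ) * l s =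
        ∫ s in Ioi (0 : ℝ), ((κ s - deriv P s : ℝ) : ℂ) * l s := by
      symm
      apply setIntegral_eq_of_subset_of_forall_sdiff_eq_zero measurableSet_Ioi
      · exact Ioc_subset_Ioi_self
      · intro s hs'
        have h7 : 6 ≤ s := by
          by_contra h8
          push Not at h8
          exact hs'.2 ⟨hs'.1, h8.le⟩
        rw [hPd6 s h7, sub_self]
        simp
    rw [h5, h6, ← integral_add]
    · congr 1
      funext s
      push_cast
      ring
    · exact hPl.integrableOn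
    · refine ((hκl.sub hPl).congr (Eventually.of_forall fun s => ?_)).integrableOn
      show (κ s : ℂ) * l s - ((deriv P s : ℝ) : ℂ) * l s = _
      push_cast
      ring
  have h5 : ‖∫ s in Ioc (0 : ℝ) 6, ((κ s - deriv P s : ℝ) : ℂ) * l s‖ ≤ X * (7 / 2 * B + 7 / 2 * b) := by
    have h6 : ‖∫ s in Ioc (0 : ℝ) 6, ((κ s - deriv P s : ℝ) : ℂ) * l s‖ ≤
        ∫ s in Ioc (0 : ℝ) 6, (|κ s| + |deriv P s|) * X := by
      refine norm_integral_le_of_norm_le ?_ (Eventually.of_forall fun s => ?_)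
      · exact ((hκi.abs.add hPi.abs).mul_const X).integrableOn
      · rw [norm_mul, Complex.norm_real, Real.norm_eq_abs]
        exact mul_le_mul (abs_sub _ _) (hl.b0 s) (norm_nonneg _) (by positivity)
    have h7 : ∫ s in Ioc (0 : ℝ) 6, (|κ s| + |deriv P s|) * X =
        ((∫ s in Ioc (0 : ℝ) 6, |κ s|) + ∫ s in Ioc (0 : ℝ) 6, |deriv P s|) * X := by
      rw [integral_mul_const, integral_add hκi.abs.integrableOn hPi.abs.integrableOn]
    have h8 := RA3X.int6 hB hκ hκi2 hκ2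
    have h9 := RA3X.int6 hb hPc hPi2 hP2
    have h10 : ((∫ s in Ioc (0 : ℝ) 6, |κ s|) + ∫ s in Ioc (0 : ℝ) 6, |deriv P s|) * X ≤
        (7 / 2 * B + 7 / 2 * b) * X := mul_le_mul_of_nonneg_right (add_le_add h8 h9) hX.le
    rw [h7] at h6
    linarith
  have h6 : ‖∫ s in Ioi (0 : ℝ), (κ s : ℂ) * l s‖ ≤
      (1 + C₁) / 2 * (X * b) + C₂ * X * b + X * (7 / 2 * B + 7 / 2 * b) := by
    rw [h4, h3]
    exact (norm_add_le _ _).trans (add_le_add ((norm_add_le _ _).trans (add_le_add hh hs)) h5)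
  have h7 : X * B ≤ X * b := mul_le_mul_of_nonneg_left hBb hX.le
  have h8 : (2 + 2 * c) * ((1 + C₁) / 2 + C₂ + 7) * X * B =
      (1 + C₁) / 2 * (X * b) + C₂ * X * b + 7 * (X * b) := by
    rw [hbdef]
    ring
  rw [h8]
  linarith

end Pool.Agent.MultS.LB

end

section

/-! MP_b17785_an, block LB, item A10: shift of the line of integration. -/

set_option autoImplicit false

open Complex Metric Set Filter Topology MeasureTheory
open Pool.Agent.MultS.Lip
open scoped FourierTransform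

namespace Pool.Agent.MultS.LB

namespace ShiftX

theorem exp_neg_abs_le (x : ℝ) : Real.exp (-|x|) ≤ 2 * (1 + x ^ 2)⁻¹ := by
  have h1 := Real.quadratic_le_exp_of_nonneg (abs_nonneg x)
  have h2 : |x| ^ 2 = x ^ 2 := sq_abs x
  have h3 : (1 + x ^ 2) ≤ 2 * Real.exp |x| := by
    rw [h2] at h1
    have := abs_nonneg x
    linarith
  rw [Real.exp_neg, ← div_eq_mul_inv, inv_eq_one_div, div_le_div_iff₀ (Real.exp_pos _)
    (by positivity)]
  linarith

theorem strip_open (b : ℝ) : IsOpen {w : ℂ | |w.im| < b} :=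
  isOpen_lt (by fun_prop) continuous_const

end ShiftX

open ShiftX in
theorem prfShift : Shift := by
  intro f b c hb hf hc ψ hψ ξ
  set H : ℂ → ℂ := fun w => Complex.exp (-(2 * Real.pi * ξ : ℝ) * I * w) * f w with hH
  have hπ := Real.pi_pos
  have hc0 : 0 ≤ c := by
    have h1 := hc 0 (by rw [Complex.zero_im, abs_zero]; positivity)
    simp only [Complex.zero_re, abs_zero, neg_zero, Real.exp_zero, mul_one] at h1
    exact (norm_nonneg _).trans h1
  have hHd : DifferentiableOn ℂ H {w : ℂ | |w.im| < b} := by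
    apply DifferentiableOn.mul _ hf
    fun_prop
  obtain ⟨M, hM⟩ : ∃ M : ℝ, M = Real.exp (2 * Real.pi * |ξ| * (Real.pi / 2)) := ⟨_, rfl⟩
  have hM0 : 0 < M := hM ▸ Real.exp_pos _
  have hHb : ∀ w : ℂ, |w.im| ≤ Real.pi / 2 → ‖H w‖ ≤ M * (c * Real.exp (-|w.re|)) := by
    intro w hw
    rw [hH]
    simp only
    rw [norm_mul, Complex.norm_exp]
    apply mul_le_mul _ (hc w hw) (norm_nonneg _) hM0.le
    rw [hM]
    apply Real.exp_le_exp.2
    have e1 : (-(2 * Real.pi * ξ : ℝ) * I * w).re = 2 * Real.pi * (ξ * w.im) := by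
      simp only [Complex.mul_re, Complex.neg_re, Complex.ofReal_re, Complex.neg_im,
        Complex.ofReal_im, Complex.I_re, Complex.I_im, Complex.mul_im]
      ring
    rw [e1]
    have e2 : ξ * w.im ≤ |ξ| * (Real.pi / 2) := by
      calc ξ * w.im ≤ |ξ * w.im| := le_abs_self _
        _ = |ξ| * |w.im| := abs_mul _ _
        _ ≤ |ξ| * (Real.pi / 2) := mul_le_mul_of_nonneg_left hw (abs_nonneg _)
    calc 2 * Real.pi * (ξ * w.im) ≤ 2 * Real.pi * (|ξ| * (Real.pi / 2)) :=
          mul_le_mul_of_nonneg_left e2 (by positivity)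
      _ = _ := by ring
  -- integrability on horizontal lines
  have hint : ∀ θ : ℝ, |θ| ≤ Real.pi / 2 → Integrable (fun x : ℝ => H ((x : ℂ) + (θ : ℂ) * I)) := by
    intro θ hθ
    have him : ∀ x : ℝ, ((x : ℂ) + (θ : ℂ) * I).im = θ := by intro x; simp
    have hre : ∀ x : ℝ, ((x : ℂ) + (θ : ℂ) * I).re = x := by intro x; simp
    have hcont : Continuous (fun x : ℝ => H ((x : ℂ) + (θ : ℂ) * I)) := by
      apply hHd.continuousOn.comp_continuous (by fun_prop)
      intro x
      show |((x : ℂ) + (θ : ℂ) * I).im| < b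
      rw [him]
      exact lt_of_le_of_lt hθ hb
    refine Integrable.mono' (integrable_inv_one_add_sq.const_mul (M * (c * 2)))
      hcont.aestronglyMeasurable (Eventually.of_forall fun x => ?_)
    have h1 := hHb ((x : ℂ) + (θ : ℂ) * I) (by rw [him]; exact hθ)
    rw [hre] at h1
    refine h1.trans ?_
    calc M * (c * Real.exp (-|x|)) ≤ M * (c * (2 * (1 + x ^ 2)⁻¹)) :=
          mul_le_mul_of_nonneg_left (mul_le_mul_of_nonneg_left (exp_neg_abs_le x) hc0) hM0.le
      _ = _ := by ring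
  -- the shift
  have key : ∫ x : ℝ, H ((x : ℂ) + (ψ : ℂ) * I) = ∫ x : ℝ, H (x : ℂ) := by
    have hint0 : Integrable (fun x : ℝ => H (x : ℂ)) := by
      have := hint 0 (by rw [abs_zero]; positivity)
      simpa using this
    have t1 : Tendsto (fun N : ℕ => ∫ x in (-(N : ℝ))..(N : ℝ), H ((x : ℂ) + (ψ : ℂ) * I)) atTop
        (𝓝 (∫ x : ℝ, H ((x : ℂ) + (ψ : ℂ) * I))) :=
      intervalIntegral_tendsto_integral (hint ψ hψ)
        (tendsto_neg_atTop_atBot.comp tendsto_natCast_atTop_atTop) tendsto_natCast_atTop_atTop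
    have t2 : Tendsto (fun N : ℕ => ∫ x in (-(N : ℝ))..(N : ℝ), H (x : ℂ)) atTop
        (𝓝 (∫ x : ℝ, H (x : ℂ))) :=
      intervalIntegral_tendsto_integral hint0
        (tendsto_neg_atTop_atBot.comp tendsto_natCast_atTop_atTop) tendsto_natCast_atTop_atTop
    have t3 : Tendsto (fun N : ℕ => (∫ x in (-(N : ℝ))..(N : ℝ), H (x : ℂ)) -
        ∫ x in (-(N : ℝ))..(N : ℝ), H ((x : ℂ) + (ψ : ℂ) * I)) atTop (𝓝 0) := by
      have hv : Tendsto (fun N : ℕ => 2 * (M * (c * Real.exp (-(N : ℝ))) * |ψ - 0|)) atTop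
          (𝓝 (2 * (M * (c * 0) * |ψ - 0|))) := by
        apply Tendsto.const_mul
        apply Tendsto.mul_const
        apply Tendsto.const_mul
        apply Tendsto.const_mul
        exact (Real.tendsto_exp_atBot.comp
          (tendsto_neg_atTop_atBot.comp tendsto_natCast_atTop_atTop))
      rw [mul_zero, mul_zero, zero_mul, mul_zero] at hv
      refine squeeze_zero_norm (fun N => ?_) hv
      have hrect := Complex.integral_boundary_rect_eq_zero_of_differentiableOn H
        (((-(N : ℝ) : ℝ)) : ℂ) ((N : ℂ) + (ψ : ℂ) * I) (by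
          apply hHd.mono
          intro w hw
          rw [Complex.mem_reProdIm] at hw
          have h2 := hw.2
          simp only [Complex.ofReal_im, Complex.add_im, Complex.natCast_im, Complex.mul_im,
            Complex.ofReal_re, Complex.I_im, mul_one, Complex.I_re, mul_zero, add_zero,
            zero_add] at h2
          show |w.im| < b
          refine lt_of_le_of_lt ?_ hb
          rcases le_total 0 ψ with h0 | h0
          · rw [uIcc_of_le h0] at h2
            have h3 := abs_le.1 hψ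
            rw [abs_of_nonneg h2.1]
            linarith [h2.2, h3.2]
          · rw [uIcc_of_ge h0] at h2
            have h3 := abs_le.1 hψ
            rw [abs_of_nonpos h2.2]
            linarith [h2.1, h3.1])
      simp only [Complex.ofReal_im, Complex.add_im, Complex.natCast_im, Complex.mul_im,
        Complex.ofReal_re, Complex.I_im, mul_one, Complex.I_re, mul_zero, add_zero,
        zero_add, Complex.add_re, Complex.natCast_re, Complex.mul_re, zero_mul,
        Complex.ofReal_zero, smul_eq_mul, sub_self] at hrect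
      have e1 : (∫ x in (-(N : ℝ))..(N : ℝ), H (x : ℂ)) -
          (∫ x in (-(N : ℝ))..(N : ℝ), H ((x : ℂ) + (ψ : ℂ) * I)) =
          I * (∫ t in (0 : ℝ)..ψ, H (((-(N : ℝ) : ℝ) : ℂ) + (t : ℂ) * I)) -
          I * (∫ t in (0 : ℝ)..ψ, H ((N : ℝ) + (t : ℂ) * I)) := by
        linear_combination hrect
      rw [e1]
      have e2 : ∀ X : ℝ, |X| = (N : ℝ) →
          ‖I * (∫ t in (0 : ℝ)..ψ, H ((X : ℂ) + (t : ℂ) * I))‖ ≤
            M * (c * Real.exp (-(N : ℝ))) * |ψ - 0| := by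
        intro X hX
        rw [norm_mul, Complex.norm_I, one_mul]
        apply intervalIntegral.norm_integral_le_of_norm_le_const
        intro t ht
        have h4 : |t| ≤ Real.pi / 2 := by
          rcases le_total 0 ψ with h0 | h0
          · rw [uIoc_of_le h0] at ht
            have h3 := abs_le.1 hψ
            rw [abs_of_nonneg ht.1.le]
            linarith [ht.2, h3.2]
          · rw [uIoc_of_ge h0] at ht
            have h3 := abs_le.1 hψ
            rw [abs_of_nonpos ht.2]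
            linarith [ht.1, h3.1]
        have h5 := hHb ((X : ℂ) + (t : ℂ) * I) (by simpa using h4)
        have h6 : ((X : ℂ) + (t : ℂ) * I).re = X := by simp
        rw [h6, hX] at h5
        exact h5
      refine (norm_sub_le _ _).trans ?_
      have h7 := e2 (-(N : ℝ)) (by rw [abs_neg, abs_of_nonneg (Nat.cast_nonneg N)])
      have h8 := e2 (N : ℝ) (abs_of_nonneg (Nat.cast_nonneg N))
      linarith
    have t4 := tendsto_nhds_unique (t2.sub t1) t3
    exact (sub_eq_zero.1 t4).symm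
  rw [Real.fourier_real_eq_integral_exp_smul, Real.fourier_real_eq_integral_exp_smul]
  have a1 : ∀ x : ℝ, Complex.exp (((-2 * Real.pi * x * ξ : ℝ) : ℂ) * I) •
      f ((x : ℂ) + (ψ : ℂ) * I) =
      (Real.exp (-(2 * Real.pi * ξ * ψ)) : ℂ) * H ((x : ℂ) + (ψ : ℂ) * I) := by
    intro x
    rw [hH]
    simp only [smul_eq_mul]
    rw [← mul_assoc, Complex.ofReal_exp, ← Complex.exp_add]
    congr 2
    push_cast
    linear_combination (2 * (Real.pi : ℂ) * ξ * ψ) * Complex.I_sq
  have a2 : ∀ x : ℝ, Complex.exp (((-2 * Real.pi * x * ξ : ℝ) : ℂ) * I) • f (x : ℂ) =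
      H (x : ℂ) := by
    intro x
    rw [hH]
    simp only [smul_eq_mul]
    congr 2
    push_cast
    ring
  simp only [a1, a2]
  rw [integral_const_mul, key]

end Pool.Agent.MultS.LB

end

section

/-!
# The explicit form of the Lipschitz norm of multipliers of `S`, lower bound: item `Strip2`
-/

set_option autoImplicit false

open Complex Metric Set Filter Topology MeasureTheory
open scoped FourierTransform ENNReal

namespace Pool.Agent.MultS.LB

namespace Strip2X

theorem exp_abs_integrable : Integrable (fun x : ℝ => Real.exp (-|x|)) := by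
  have h1 : IntegrableOn (fun x : ℝ => Real.exp (-|x|)) (Ioi 0) :=
    (integrableOn_exp_neg_Ioi 0).congr_fun (fun x hx => by
      change Real.exp (-x) = Real.exp (-|x|)
      rw [abs_of_pos hx]) measurableSet_Ioi
  have h2 : IntegrableOn (fun x : ℝ => Real.exp (-|x|)) (Iic 0) :=
    (integrableOn_exp_Iic 0).congr_fun (fun x hx => by
      rw [abs_of_nonpos hx, neg_neg]) measurableSet_Iic
  have h3 := h2.union h1
  rw [Iic_union_Ioi, integrableOn_univ] at h3
  exact h3

variable {f : ℂ → ℂ} {b c : ℝ}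

theorem line_cont (hb : Real.pi / 2 < b) (hf : DifferentiableOn ℂ f {w : ℂ | |w.im| < b}) {ψ : ℝ}
    (hψ : |ψ| ≤ Real.pi / 2) : Continuous (fun x : ℝ => f ((x : ℂ) + (ψ : ℂ) * I)) := by
  have h1 : Continuous (fun x : ℝ => (x : ℂ) + (ψ : ℂ) * I) := by fun_prop
  refine hf.continuousOn.comp_continuous h1 fun x => ?_
  simp only [mem_ofPred_eq, add_im, ofReal_im, mul_im, ofReal_re, I_im, mul_one, I_re, mul_zero,
    add_zero, zero_add]
  linarith

theorem line_bd (hc : ∀ w : ℂ, |w.im| ≤ Real.pi / 2 → ‖f w‖ ≤ c * Real.exp (-|w.re|)) {ψ : ℝ}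
    (hψ : |ψ| ≤ Real.pi / 2) (x : ℝ) :
    ‖f ((x : ℂ) + (ψ : ℂ) * I)‖ ≤ c * Real.exp (-|x|) := by
  have h := hc ((x : ℂ) + (ψ : ℂ) * I) (by simpa using hψ)
  simpa using h

theorem line_int (hb : Real.pi / 2 < b) (hf : DifferentiableOn ℂ f {w : ℂ | |w.im| < b})
    (hc : ∀ w : ℂ, |w.im| ≤ Real.pi / 2 → ‖f w‖ ≤ c * Real.exp (-|w.re|)) {ψ : ℝ}
    (hψ : |ψ| ≤ Real.pi / 2) : Integrable (fun x : ℝ => f ((x : ℂ) + (ψ : ℂ) * I)) :=
  (exp_abs_integrable.const_mul c).mono' (line_cont hb hf hψ).aestronglyMeasurable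
    (Eventually.of_forall (line_bd hc hψ))

theorem line_sq (hb : Real.pi / 2 < b) (hf : DifferentiableOn ℂ f {w : ℂ | |w.im| < b})
    (hc : ∀ w : ℂ, |w.im| ≤ Real.pi / 2 → ‖f w‖ ≤ c * Real.exp (-|w.re|)) {ψ : ℝ}
    (hψ : |ψ| ≤ Real.pi / 2) : MemLp (fun x : ℝ => f ((x : ℂ) + (ψ : ℂ) * I)) 2 := by
  have hcont := line_cont hb hf hψ
  rw [memLp_two_iff_integrable_sq_norm hcont.aestronglyMeasurable]
  refine (exp_abs_integrable.const_mul (c ^ 2)).mono' (hcont.norm.pow 2).aestronglyMeasurable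
    (Eventually.of_forall fun x => ?_)
  have h1 := line_bd hc hψ x
  have h2 : Real.exp (-|x|) ≤ 1 := Real.exp_le_one_iff.2 (by simp)
  have h3 : 0 < Real.exp (-|x|) := Real.exp_pos _
  rw [Real.norm_eq_abs, abs_of_nonneg (by positivity)]
  calc ‖f ((x : ℂ) + (ψ : ℂ) * I)‖ ^ 2 ≤ (c * Real.exp (-|x|)) ^ 2 :=
        pow_le_pow_left₀ (norm_nonneg _) h1 2
    _ = c ^ 2 * (Real.exp (-|x|) * Real.exp (-|x|)) := by ring
    _ ≤ c ^ 2 * (Real.exp (-|x|) * 1) := by
        apply mul_le_mul_of_nonneg_left _ (sq_nonneg c)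
        exact mul_le_mul_of_nonneg_left h2 h3.le
    _ = c ^ 2 * Real.exp (-|x|) := by ring

/-- the weight -/
theorem weight (ξ : ℝ) : Real.sinh (Real.pi ^ 2 * ξ) ^ 2 / (1 + |ξ|) ≤
    Real.pi * ∫ ψ in Ioo (-(Real.pi / 2)) (Real.pi / 2), Real.exp (-(4 * Real.pi * ξ) * ψ) := by
  have hpi := Real.pi_pos
  rcases eq_or_ne ξ 0 with rfl | hξ
  · simp only [mul_zero, Real.sinh_zero, abs_zero, add_zero, neg_zero, zero_mul, Real.exp_zero]
    have h1 : (0 : ℝ) ≤ ∫ _ψ in Ioo (-(Real.pi / 2)) (Real.pi / 2), (1 : ℝ) :=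
      integral_nonneg fun _ => zero_le_one
    have h2 := mul_nonneg hpi.le h1
    rw [zero_pow two_ne_zero, zero_div]
    exact h2
  have hint : ∫ ψ in Ioo (-(Real.pi / 2)) (Real.pi / 2), Real.exp (-(4 * Real.pi * ξ) * ψ) =
      Real.sinh (Real.pi ^ 2 * ξ) * Real.cosh (Real.pi ^ 2 * ξ) / (Real.pi * ξ) := by
    rw [← integral_Ioc_eq_integral_Ioo, ← intervalIntegral.integral_of_le (by linarith),
      intervalIntegral.integral_comp_mul_left (fun x => Real.exp x)
        (by simp only [ne_eq, neg_eq_zero, mul_eq_zero, OfNat.ofNat_ne_zero, false_or, not_or]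
            exact ⟨hpi.ne', hξ⟩ : -(4 * Real.pi * ξ) ≠ 0),
      integral_exp, smul_eq_mul]
    have e1 : -(4 * Real.pi * ξ) * (Real.pi / 2) = -(2 * (Real.pi ^ 2 * ξ)) := by ring
    have e2 : -(4 * Real.pi * ξ) * -(Real.pi / 2) = 2 * (Real.pi ^ 2 * ξ) := by ring
    rw [e1, e2]
    have h1 := Real.sinh_two_mul (Real.pi ^ 2 * ξ)
    have h2 := Real.sinh_eq (2 * (Real.pi ^ 2 * ξ))
    have h3 : Real.sinh (Real.pi ^ 2 * ξ) * Real.cosh (Real.pi ^ 2 * ξ) =
        (Real.exp (2 * (Real.pi ^ 2 * ξ)) - Real.exp (-(2 * (Real.pi ^ 2 * ξ)))) / 4 := by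
      linarith
    rw [h3]
    field_simp
    ring
  rw [hint]
  have hc1 : |Real.sinh (Real.pi ^ 2 * ξ)| ≤ Real.cosh (Real.pi ^ 2 * ξ) := by
    rw [← Real.cosh_abs, ← abs_of_nonneg (Real.cosh_pos _).le, ← sq_le_sq, ]
    have := Real.cosh_sq (|Real.pi ^ 2 * ξ|)
    rw [Real.cosh_abs] at *
    linarith [Real.cosh_sq (Real.pi ^ 2 * ξ)]
  have hs : Real.sinh (Real.pi ^ 2 * ξ) / ξ = |Real.sinh (Real.pi ^ 2 * ξ)| / |ξ| := by
    rcases lt_or_gt_of_ne hξ with h | h
    · have h1 : Real.sinh (Real.pi ^ 2 * ξ) < 0 :=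
        Real.sinh_neg_iff.2 (mul_neg_of_pos_of_neg (by positivity) h)
      rw [abs_of_neg h1, abs_of_neg h, neg_div_neg_eq]
    · have h1 : 0 < Real.sinh (Real.pi ^ 2 * ξ) := Real.sinh_pos_iff.2 (by positivity)
      rw [abs_of_pos h1, abs_of_pos h]
  have e3 : Real.pi * (Real.sinh (Real.pi ^ 2 * ξ) * Real.cosh (Real.pi ^ 2 * ξ) / (Real.pi * ξ)) =
      Real.cosh (Real.pi ^ 2 * ξ) * (|Real.sinh (Real.pi ^ 2 * ξ)| / |ξ|) := by
    rw [← hs]
    field_simp
  rw [e3]
  have hξ' : 0 < |ξ| := abs_pos.2 hξ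
  calc Real.sinh (Real.pi ^ 2 * ξ) ^ 2 / (1 + |ξ|)
      ≤ Real.sinh (Real.pi ^ 2 * ξ) ^ 2 / |ξ| :=
        div_le_div_of_nonneg_left (sq_nonneg _) hξ' (by linarith)
    _ = |Real.sinh (Real.pi ^ 2 * ξ)| * (|Real.sinh (Real.pi ^ 2 * ξ)| / |ξ|) := by
        rw [← sq_abs]; ring
    _ ≤ Real.cosh (Real.pi ^ 2 * ξ) * (|Real.sinh (Real.pi ^ 2 * ξ)| / |ξ|) :=
        mul_le_mul_of_nonneg_right hc1 (by positivity)

theorem weight' (ξ : ℝ) : ENNReal.ofReal (Real.sinh (Real.pi ^ 2 * ξ) ^ 2 / (1 + |ξ|)) ≤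
    ENNReal.ofReal Real.pi * ∫⁻ ψ in Ioo (-(Real.pi / 2)) (Real.pi / 2),
      ENNReal.ofReal (Real.exp (-(4 * Real.pi * ξ) * ψ)) := by
  have hpi := Real.pi_pos
  have hi : IntegrableOn (fun ψ : ℝ => Real.exp (-(4 * Real.pi * ξ) * ψ))
      (Ioo (-(Real.pi / 2)) (Real.pi / 2)) :=
    ((by fun_prop : Continuous (fun ψ : ℝ => Real.exp (-(4 * Real.pi * ξ) * ψ))).integrableOn_Icc).mono_set
      Ioo_subset_Icc_self
  rw [← ofReal_integral_eq_lintegral_ofReal hi (Eventually.of_forall fun _ => (Real.exp_pos _).le),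
    ← ENNReal.ofReal_mul hpi.le]
  exact ENNReal.ofReal_le_ofReal (weight ξ)

end Strip2X

open Strip2X in
theorem prfStrip2 (hP : Planch) (hS : Shift) : Strip2 := by
  intro f b c hb hf hc
  have hpi := Real.pi_pos
  set β : ℝ → ℂ := 𝓕 (fun x : ℝ => f (x : ℂ)) with hβ
  have hsh : ∀ ψ : ℝ, |ψ| ≤ Real.pi / 2 → ∀ ξ : ℝ, 𝓕 (fun x : ℝ => f ((x : ℂ) + (ψ : ℂ) * I)) ξ =
      (Real.exp (-(2 * Real.pi * ξ * ψ)) : ℂ) * β ξ := fun ψ hψ ξ => hS f b c hb hf hc ψ hψ ξ
  have h0 : |(0 : ℝ)| ≤ Real.pi / 2 := by rw [abs_zero]; positivity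
  have hβint : Integrable (fun x : ℝ => f (x : ℂ)) := by
    have := line_int hb hf hc h0
    simpa using this
  have hβc : Continuous β := by
    exact VectorFourier.fourierIntegral_continuous Real.continuous_fourierChar
      continuous_inner hβint
  -- inner integrals
  have hin : ∀ ψ ∈ Ioo (-(Real.pi / 2)) (Real.pi / 2),
      ∫⁻ x : ℝ, ENNReal.ofReal (‖f ((x : ℂ) + (ψ : ℂ) * I)‖ ^ 2) =
        ∫⁻ ξ : ℝ, ENNReal.ofReal (Real.exp (-(4 * Real.pi * ξ) * ψ)) *
          ENNReal.ofReal (‖β ξ‖ ^ 2) := by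
    intro ψ hψ
    have hψ' : |ψ| ≤ Real.pi / 2 := abs_le.2 ⟨hψ.1.le, hψ.2.le⟩
    obtain ⟨h1, h2⟩ := hP _ (line_int hb hf hc hψ') (line_sq hb hf hc hψ')
    have h3 : Integrable (fun x : ℝ => ‖f ((x : ℂ) + (ψ : ℂ) * I)‖ ^ 2) :=
      (memLp_two_iff_integrable_sq_norm (line_cont hb hf hψ').aestronglyMeasurable).1
        (line_sq hb hf hc hψ')
    have h4 : Integrable (fun ξ : ℝ => ‖𝓕 (fun x : ℝ => f ((x : ℂ) + (ψ : ℂ) * I)) ξ‖ ^ 2) :=
      (memLp_two_iff_integrable_sq_norm h1.1).1 h1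
    rw [← ofReal_integral_eq_lintegral_ofReal h3 (Eventually.of_forall fun _ => sq_nonneg _), ← h2,
      ofReal_integral_eq_lintegral_ofReal h4 (Eventually.of_forall fun _ => sq_nonneg _)]
    refine lintegral_congr fun ξ => ?_
    rw [← ENNReal.ofReal_mul (Real.exp_pos _).le, hsh ψ hψ' ξ, norm_mul, Complex.norm_real,
      Real.norm_eq_abs, abs_of_pos (Real.exp_pos _), mul_pow, ← Real.exp_nat_mul]
    congr 3
    push_cast
    ring
  have hRHS : ∫⁻ ψ in Ioo (-(Real.pi / 2)) (Real.pi / 2), ∫⁻ x : ℝ,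
        ENNReal.ofReal (‖f ((x : ℂ) + (ψ : ℂ) * I)‖ ^ 2) =
      ∫⁻ ξ : ℝ, (∫⁻ ψ in Ioo (-(Real.pi / 2)) (Real.pi / 2),
        ENNReal.ofReal (Real.exp (-(4 * Real.pi * ξ) * ψ))) * ENNReal.ofReal (‖β ξ‖ ^ 2) := by
    rw [setLIntegral_congr_fun measurableSet_Ioo hin, lintegral_lintegral_swap]
    · refine lintegral_congr fun ξ => ?_
      rw [lintegral_mul_const']
      exact ENNReal.ofReal_ne_top
    · apply Measurable.aemeasurable
      have h1 : Continuous (fun p : ℝ × ℝ => Real.exp (-(4 * Real.pi * p.2) * p.1)) := by fun_prop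
      have h2 : Continuous (fun p : ℝ × ℝ => ‖β p.2‖ ^ 2) := by fun_prop
      exact (ENNReal.measurable_ofReal.comp h1.measurable).mul
        (ENNReal.measurable_ofReal.comp h2.measurable)
  rw [hRHS, ← lintegral_const_mul' _ _ ENNReal.ofReal_ne_top]
  refine lintegral_mono fun ξ => ?_
  have hp : |Real.pi / 2| ≤ Real.pi / 2 := by rw [abs_of_pos (by positivity)]
  have hm : |-(Real.pi / 2)| ≤ Real.pi / 2 := by rw [abs_neg]; exact hp
  -- the transform of the difference
  have hg : 𝓕 (fun x : ℝ => (f ((x : ℂ) + (Real.pi / 2 : ℝ) * I) -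
        f ((x : ℂ) - (Real.pi / 2 : ℝ) * I)) / (2 * I)) ξ =
      (2 * I)⁻¹ * ((Real.exp (-(2 * Real.pi * ξ * (Real.pi / 2))) : ℂ) * β ξ -
        (Real.exp (-(2 * Real.pi * ξ * (-(Real.pi / 2)))) : ℂ) * β ξ) := by
    rw [← hsh _ hp ξ, ← hsh _ hm ξ]
    have i1 := line_int hb hf hc hp
    have i2 := line_int hb hf hc hm
    rw [Real.fourier_eq, Real.fourier_eq, Real.fourier_eq, ← integral_sub, ← integral_const_mul]
    · refine integral_congr_ae (Eventually.of_forall fun x => ?_)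
      simp only [Circle.smul_def, smul_eq_mul]
      push_cast
      rw [show (x : ℂ) + -((Real.pi : ℂ) / 2) * I = (x : ℂ) - (Real.pi : ℂ) / 2 * I by ring]
      ring
    · exact (Real.fourierIntegral_convergent_iff ξ).2 i1
    · exact (Real.fourierIntegral_convergent_iff ξ).2 i2
  have hn : ‖𝓕 (fun x : ℝ => (f ((x : ℂ) + (Real.pi / 2 : ℝ) * I) -
        f ((x : ℂ) - (Real.pi / 2 : ℝ) * I)) / (2 * I)) ξ‖ ^ 2 =
      Real.sinh (Real.pi ^ 2 * ξ) ^ 2 * ‖β ξ‖ ^ 2 := by
    have e : (2 * I)⁻¹ * ((Real.exp (-(2 * Real.pi * ξ * (Real.pi / 2))) : ℂ) * β ξ -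
        (Real.exp (-(2 * Real.pi * ξ * (-(Real.pi / 2)))) : ℂ) * β ξ) =
        -(I)⁻¹ * (((Real.sinh (Real.pi ^ 2 * ξ) : ℝ) : ℂ) * β ξ) := by
      rw [Real.sinh_eq]
      push_cast
      rw [show -(2 * (Real.pi : ℂ) * ξ * (Real.pi / 2)) = -(Real.pi ^ 2 * ξ) by ring,
        show -(2 * (Real.pi : ℂ) * ξ * (-(Real.pi / 2))) = Real.pi ^ 2 * ξ by ring, mul_inv]
      ring
    rw [hg, e, norm_mul, norm_mul, norm_neg, norm_inv, Complex.norm_I, inv_one, one_mul,
      Complex.norm_real, Real.norm_eq_abs, mul_pow, sq_abs]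
  rw [hn, mul_div_right_comm, ENNReal.ofReal_mul (by positivity), ← mul_assoc]
  exact mul_le_mul_left (weight' ξ) _

end Pool.Agent.MultS.LB

end

section

set_option autoImplicit false

open Complex Metric Set Filter Topology MeasureTheory
open Pool.Agent.MultS.Lip

namespace Pool.Agent.MultS.LB

theorem prfTstE (hEllB : EllB) (hEll3 : Ell3) (hEllC : EllC) (hHom : Hom) : TstE := by
  obtain ⟨C₃, hC₃, h3⟩ := hEll3
  obtain ⟨CH, hCH, hH⟩ := hHom
  refine ⟨4 + (12 + 2 * C₃) + CH, by positivity, ?_⟩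
  intro lam X hP hX z hz
  obtain ⟨hc1, hcd⟩ := hEllC lam hP.sm z hz
  have hb := hEllB lam X hP z hz
  have hpos : 0 < (4 + (12 + 2 * C₃) + CH) * X := by positivity
  refine ⟨hpos, hc1, ?_, ?_, ?_⟩
  · intro s
    refine (hb s).1.trans ?_
    have : 0 ≤ ((12 + 2 * C₃) + CH) * X := by positivity
    linarith
  · intro s hs
    have h4 := (hb s).1
    have h5 := h3 lam X hP z hz s hs
    rw [hcd s]
    set L1 := LL lam (fun ζ => (1 + psi ζ ^ 2 * (Real.exp (-2 * s) : ℂ)) ^ (-(1 / 2) : ℂ)) z with hL1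
    set L3 := LL lam (fun ζ => (1 + psi ζ ^ 2 * (Real.exp (-2 * s) : ℂ)) ^ (-(3 / 2) : ℂ)) z with hL3
    have e : 2 * I * (Real.exp (2 * s) : ℂ) * (3 * L1 - L3) =
        3 * ell lam z s - 2 * I * ((Real.exp (2 * s) : ℂ) * L3) := by
      rw [ell, ← hL1]
      ring
    rw [e]
    have h6 : ‖(Real.exp (2 * s) : ℂ) * L3‖ ≤ C₃ * X := by
      rw [norm_mul, norm_real, Real.norm_of_nonneg (Real.exp_pos _).le]
      exact h5
    calc ‖3 * ell lam z s - 2 * I * ((Real.exp (2 * s) : ℂ) * L3)‖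
        ≤ ‖3 * ell lam z s‖ + ‖2 * I * ((Real.exp (2 * s) : ℂ) * L3)‖ := norm_sub_le _ _
      _ ≤ 3 * (4 * X) + 2 * (C₃ * X) := by
          refine add_le_add ?_ ?_
          · rw [norm_mul]
            norm_num
            linarith
          · rw [norm_mul (2 * I)]
            have : ‖(2 : ℂ) * I‖ = 2 := by simp
            rw [this]
            linarith
      _ ≤ (4 + (12 + 2 * C₃) + CH) * X := by
          have : 0 ≤ (4 + CH) * X := by positivity
          linarith
  · intro K S B hS hB hK h0 h1 h2 h3' h4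
    refine (hH lam X hP z hz K S B hS hB hK h0 h1 h2 h3' h4).trans ?_
    have : CH * X * B ≤ (4 + (12 + 2 * C₃) + CH) * X * B := by
      have h9 : CH * X ≤ (4 + (12 + 2 * C₃) + CH) * X := by
        have : 0 ≤ (4 + (12 + 2 * C₃)) * X := by positivity
        linarith
      exact mul_le_mul_of_nonneg_right h9 hB.le
    exact this

end Pool.Agent.MultS.LB

end

section

/-!
# MP_b17785_an, item A14: the `L²` norm of the boundary function
-/

set_option autoImplicit false

open Complex Metric Set Filter Topology MeasureTheory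
open Pool.Agent.MultS.Lip

namespace Pool.Agent.MultS.LB.VL2X

lemma exp_re_nonneg {w : ℂ} (hw : |w.im| ≤ Real.pi / 2) : 0 ≤ (Complex.exp w).re := by
  rw [Complex.exp_re]
  have h := abs_le.1 hw
  exact mul_nonneg (Real.exp_pos _).le (Real.cos_nonneg_of_mem_Icc ⟨h.1, h.2⟩)

lemma add_one_ne {w : ℂ} (hw : 0 ≤ w.re) : w + 1 ≠ 0 := by
  intro h
  have h1 := congrArg Complex.re h
  simp only [Complex.add_re, Complex.one_re, Complex.zero_re] at h1
  linarith

lemma phi_le {w : ℂ} (hw : 0 ≤ w.re) : ‖phi w‖ ≤ 1 := by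
  unfold phi
  rw [norm_div, div_le_one (norm_pos_iff.2 (add_one_ne hw))]
  rw [← sq_le_sq₀ (norm_nonneg _) (norm_nonneg _), ← Complex.normSq_eq_norm_sq,
    ← Complex.normSq_eq_norm_sq, Complex.normSq_apply, Complex.normSq_apply]
  simp only [Complex.add_re, Complex.one_re, Complex.sub_re, Complex.add_im, Complex.one_im,
    Complex.sub_im]
  nlinarith

lemma der_phi' {w : ℂ} (h : w + 1 ≠ 0) : HasDerivAt phi (2 / (w + 1) ^ 2) w := by
  have h1 : HasDerivAt (fun w : ℂ => (w - 1) / (w + 1))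
      ((1 * (w + 1) - (w - 1) * 1) / (w + 1) ^ 2) w :=
    ((hasDerivAt_id w).sub_const 1).div ((hasDerivAt_id w).add_const 1) h
  have h2 : (1 * (w + 1) - (w - 1) * 1) / (w + 1) ^ 2 = 2 / (w + 1) ^ 2 := by ring
  rw [h2] at h1
  exact h1

lemma der_B {A : ℂ → ℂ} {ρ : ℝ} (h : RealA A ρ) {w : ℂ} (hw : |w.im| ≤ Real.pi / 2) :
    HasDerivAt (fun w : ℂ => A (phi (Complex.exp w))) (fA A w) w := by
  have h0 := exp_re_nonneg hw
  have h1 : HasDerivAt (fun w : ℂ => phi (Complex.exp w))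
      (2 / (Complex.exp w + 1) ^ 2 * Complex.exp w) w :=
    (der_phi' (add_one_ne h0)).comp w (Complex.hasDerivAt_exp w)
  have h2 : phi (Complex.exp w) ∈ ball (0 : ℂ) ρ := by
    rw [mem_ball_zero_iff]
    exact lt_of_le_of_lt (phi_le h0) h.rho
  have h3 : HasDerivAt A (deriv A (phi (Complex.exp w))) (phi (Complex.exp w)) :=
    (h.dif.differentiableAt (isOpen_ball.mem_nhds h2)).hasDerivAt
  have h4 := h3.comp w h1
  have h5 : deriv A (phi (Complex.exp w)) * (2 / (Complex.exp w + 1) ^ 2 * Complex.exp w) =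
      fA A w := by
    unfold fA
    ring
  rw [h5] at h4
  exact h4

lemma im_zero {A : ℂ → ℂ} {ρ : ℝ} (h : RealA A ρ) (σ : ℝ) :
    (A (phi (Complex.exp (σ : ℂ)))).im = 0 := by
  have h1 : phi (Complex.exp (σ : ℂ)) ∈ ball (0 : ℂ) ρ := by
    rw [mem_ball_zero_iff]
    refine lt_of_le_of_lt (phi_le (exp_re_nonneg ?_)) h.rho
    rw [Complex.ofReal_im, abs_zero]
    positivity
  have h2 := h.sym _ h1
  have h3 : (starRingEnd ℂ) (phi (Complex.exp (σ : ℂ))) = phi (Complex.exp (σ : ℂ)) := by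
    unfold phi
    rw [map_div₀, map_sub, map_add, map_one, ← Complex.exp_conj, Complex.conj_ofReal]
  rw [h3] at h2
  have h4 := congrArg Complex.im h2
  rw [Complex.conj_im] at h4
  linarith

/-- Cauchy-Schwarz on an interval for continuous functions. -/
lemma cs {f : ℝ → ℝ} {a : ℝ} (ha : 0 ≤ a) (hf : ContinuousOn f (Icc 0 a)) :
    (∫ x in (0 : ℝ)..a, f x) ^ 2 ≤ a * ∫ x in (0 : ℝ)..a, f x ^ 2 := by
  have hf' : ContinuousOn f (uIcc 0 a) := by rwa [uIcc_of_le ha]
  have i1 : IntervalIntegrable f volume 0 a := hf'.intervalIntegrable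
  have i2 : IntervalIntegrable (fun x => f x ^ 2) volume 0 a := (hf'.pow 2).intervalIntegrable
  rcases eq_or_lt_of_le ha with h0 | h0
  · rw [← h0]
    simp
  set J := ∫ x in (0 : ℝ)..a, f x with hJ
  have h1 : 0 ≤ ∫ x in (0 : ℝ)..a, (a * f x - J) ^ 2 :=
    intervalIntegral.integral_nonneg ha fun x _ => sq_nonneg _
  have h2 : ∫ x in (0 : ℝ)..a, (a * f x - J) ^ 2 =
      a ^ 2 * (∫ x in (0 : ℝ)..a, f x ^ 2) - 2 * a * J * J + a * J ^ 2 := by
    have e1 : ∀ x : ℝ, (a * f x - J) ^ 2 = a ^ 2 * f x ^ 2 - 2 * a * J * f x + J ^ 2 := by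
      intro x
      ring
    simp only [e1]
    rw [intervalIntegral.integral_add, intervalIntegral.integral_sub,
      intervalIntegral.integral_const_mul, intervalIntegral.integral_const_mul,
      intervalIntegral.integral_const]
    · simp only [sub_zero, smul_eq_mul, ← hJ]
    · exact i2.const_mul _
    · exact i1.const_mul _
    · exact (i2.const_mul _).sub (i1.const_mul _)
    · exact intervalIntegrable_const
  rw [h2] at h1
  have h3 : 0 ≤ a * (a * (∫ x in (0 : ℝ)..a, f x ^ 2) - J ^ 2) := by nlinarith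
  have h4 := nonneg_of_mul_nonneg_right h3 h0
  linarith

lemma fA_cont {A : ℂ → ℂ} {b : ℝ} (hd : DifferentiableOn ℂ (fA A) {w : ℂ | |w.im| < b})
    (hb : Real.pi / 2 < b) (σ : ℝ) :
    ContinuousOn (fun ψ : ℝ => fA A ((σ : ℂ) + (ψ : ℂ) * I)) (Icc 0 (Real.pi / 2)) := by
  refine hd.continuousOn.comp (by fun_prop) ?_
  intro ψ hψ
  show |_| < b
  simp only [Complex.add_im, Complex.ofReal_im, Complex.mul_im, Complex.ofReal_re, Complex.I_im,
    mul_one, Complex.I_re, mul_zero, add_zero, zero_add]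
  rw [abs_of_nonneg hψ.1]
  exact lt_of_le_of_lt hψ.2 hb

lemma v_sq {A : ℂ → ℂ} {ρ b : ℝ} (h : RealA A ρ)
    (hd : DifferentiableOn ℂ (fA A) {w : ℂ | |w.im| < b}) (hb : Real.pi / 2 < b) (σ : ℝ) :
    vv A σ ^ 2 ≤ Real.pi / 2 * ∫ ψ in (0 : ℝ)..(Real.pi / 2),
      ‖fA A ((σ : ℂ) + (ψ : ℂ) * I)‖ ^ 2 := by
  have hp : (0 : ℝ) ≤ Real.pi / 2 := by positivity
  have hc := fA_cont hd hb σ
  have hder : ∀ ψ ∈ uIcc (0 : ℝ) (Real.pi / 2),
      HasDerivAt (fun ψ : ℝ => A (phi (Complex.exp ((σ : ℂ) + (ψ : ℂ) * I))))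
        (fA A ((σ : ℂ) + (ψ : ℂ) * I) * I) ψ := by
    intro ψ hψ
    rw [uIcc_of_le hp] at hψ
    have h1 : |((σ : ℂ) + (ψ : ℂ) * I).im| ≤ Real.pi / 2 := by
      simp only [Complex.add_im, Complex.ofReal_im, Complex.mul_im, Complex.ofReal_re,
        Complex.I_im, mul_one, Complex.I_re, mul_zero, add_zero, zero_add]
      rw [abs_of_nonneg hψ.1]
      exact hψ.2
    have h2 := der_B h h1
    have h3 : HasDerivAt (fun ψ : ℝ => (σ : ℂ) + (ψ : ℂ) * I) I ψ := by
      have h4 : HasDerivAt (fun ψ : ℝ => (ψ : ℂ)) 1 ψ := (hasDerivAt_id ψ).ofReal_comp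
      have h5 := (h4.mul_const I).const_add (σ : ℂ)
      rwa [one_mul] at h5
    exact h2.comp_of_eq ψ h3 rfl
  have hint : IntervalIntegrable (fun ψ : ℝ => fA A ((σ : ℂ) + (ψ : ℂ) * I) * I) volume 0
      (Real.pi / 2) := by
    have hc' : ContinuousOn (fun ψ : ℝ => fA A ((σ : ℂ) + (ψ : ℂ) * I) * I)
        (uIcc 0 (Real.pi / 2)) := by
      rw [uIcc_of_le hp]
      exact hc.mul continuousOn_const
    exact hc'.intervalIntegrable
  have hftc := intervalIntegral.integral_eq_sub_of_hasDerivAt hder hint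
  have hv : |vv A σ| ≤ ∫ ψ in (0 : ℝ)..(Real.pi / 2), ‖fA A ((σ : ℂ) + (ψ : ℂ) * I)‖ := by
    have h1 : vv A σ = (A (phi (Complex.exp ((σ : ℂ) + ((Real.pi / 2 : ℝ) : ℂ) * I))) -
        A (phi (Complex.exp ((σ : ℂ) + ((0 : ℝ) : ℂ) * I)))).im := by
      rw [Complex.sub_im, Complex.ofReal_zero, zero_mul, add_zero, im_zero h σ, sub_zero]
      unfold vv
      rw [Complex.exp_add, Complex.ofReal_exp, Complex.ofReal_div, Complex.ofReal_ofNat,
        Complex.exp_pi_div_two_mul_I, mul_comm]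
    rw [h1]
    refine le_trans (Complex.abs_im_le_norm _) ?_
    rw [← hftc]
    refine le_trans (intervalIntegral.norm_integral_le_integral_norm hp) ?_
    apply le_of_eq
    congr 1
    funext ψ
    rw [norm_mul, Complex.norm_I, mul_one]
  have hcs := cs hp hc.norm
  calc vv A σ ^ 2 = |vv A σ| ^ 2 := (sq_abs _).symm
    _ ≤ (∫ ψ in (0 : ℝ)..(Real.pi / 2), ‖fA A ((σ : ℂ) + (ψ : ℂ) * I)‖) ^ 2 :=
        pow_le_pow_left₀ (abs_nonneg _) hv 2
    _ ≤ _ := hcs

lemma v_sq' {A : ℂ → ℂ} {ρ b : ℝ} (h : RealA A ρ)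
    (hd : DifferentiableOn ℂ (fA A) {w : ℂ | |w.im| < b}) (hb : Real.pi / 2 < b) (σ : ℝ) :
    ENNReal.ofReal (vv A σ ^ 2) ≤ ENNReal.ofReal (Real.pi / 2) *
      ∫⁻ ψ in Ioo (-(Real.pi / 2)) (Real.pi / 2),
        ENNReal.ofReal (‖fA A ((σ : ℂ) + (ψ : ℂ) * I)‖ ^ 2) := by
  have hp : (0 : ℝ) ≤ Real.pi / 2 := by positivity
  have h1 := v_sq h hd hb σ
  have hc := fA_cont hd hb σ
  refine le_trans (ENNReal.ofReal_le_ofReal h1) ?_
  rw [ENNReal.ofReal_mul hp]
  gcongr
  rw [intervalIntegral.integral_of_le hp, ofReal_integral_eq_lintegral_ofReal]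
  · rw [← restrict_Ioo_eq_restrict_Ioc]
    refine lintegral_mono' (Measure.restrict_mono ?_ le_rfl) (le_refl _)
    intro x hx
    exact ⟨by linarith [hx.1], hx.2⟩
  · have h2 : IntervalIntegrable (fun ψ : ℝ => ‖fA A ((σ : ℂ) + (ψ : ℂ) * I)‖ ^ 2) volume 0
        (Real.pi / 2) := by
      apply ContinuousOn.intervalIntegrable
      rw [uIcc_of_le hp]
      exact hc.norm.pow 2
    exact h2.1
  · exact Filter.Eventually.of_forall fun ψ => sq_nonneg _

end Pool.Agent.MultS.LB.VL2X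

namespace Pool.Agent.MultS.LB

open VL2X

theorem prfVL2 (hFA : FA) (hVV : VV) : VL2 := by
  intro A ρ h
  obtain ⟨⟨b, c, hb, hd, hbd⟩, _, hI⟩ := hFA A ρ h
  obtain ⟨c', hdec, _, _⟩ := hVV A ρ h
  have hcont : Continuous (vv A) := hdec.1.continuous
  have hmeas : AEMeasurable (Function.uncurry fun (x : ℝ) (ψ : ℝ) =>
      ENNReal.ofReal (‖fA A ((x : ℂ) + (ψ : ℂ) * I)‖ ^ 2))
      ((volume : Measure ℝ).prod
        (volume.restrict (Ioo (-(Real.pi / 2)) (Real.pi / 2)))) := by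
    have e1 : (volume : Measure ℝ).prod
        (volume.restrict (Ioo (-(Real.pi / 2)) (Real.pi / 2))) =
        ((volume : Measure ℝ).prod (volume : Measure ℝ)).restrict
          (univ ×ˢ Ioo (-(Real.pi / 2)) (Real.pi / 2)) := by
      rw [← Measure.prod_restrict, Measure.restrict_univ]
    rw [e1]
    refine AEMeasurable.ennreal_ofReal (ContinuousOn.aemeasurable ?_
      (MeasurableSet.univ.prod measurableSet_Ioo))
    refine ContinuousOn.pow (ContinuousOn.norm ?_) 2
    refine hd.continuousOn.comp (by fun_prop) ?_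
    rintro ⟨x, ψ⟩ hx
    have hx2 := hx.2
    simp only [mem_Ioo] at hx2
    show |_| < b
    simp only [Complex.add_im, Complex.ofReal_im, Complex.mul_im, Complex.ofReal_re, Complex.I_im,
      mul_one, Complex.I_re, mul_zero, add_zero, zero_add]
    exact lt_trans (abs_lt.2 hx2) hb
  have hle : ENNReal.ofReal (∫ σ : ℝ, vv A σ ^ 2) ≤ ∫⁻ σ : ℝ, ENNReal.ofReal (vv A σ ^ 2) := by
    rw [integral_eq_lintegral_of_nonneg_ae (Filter.Eventually.of_forall fun σ => sq_nonneg _)
      (hcont.pow 2).aestronglyMeasurable]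
    exact ENNReal.ofReal_toReal_le
  refine le_trans hle ?_
  calc ∫⁻ σ : ℝ, ENNReal.ofReal (vv A σ ^ 2)
      ≤ ∫⁻ σ : ℝ, ENNReal.ofReal (Real.pi / 2) *
        ∫⁻ ψ in Ioo (-(Real.pi / 2)) (Real.pi / 2),
          ENNReal.ofReal (‖fA A ((σ : ℂ) + (ψ : ℂ) * I)‖ ^ 2) :=
        lintegral_mono fun σ => v_sq' h hd hb σ
    _ = ENNReal.ofReal (Real.pi / 2) * ∫⁻ σ : ℝ,
        ∫⁻ ψ in Ioo (-(Real.pi / 2)) (Real.pi / 2),
          ENNReal.ofReal (‖fA A ((σ : ℂ) + (ψ : ℂ) * I)‖ ^ 2) :=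
        lintegral_const_mul' _ _ ENNReal.ofReal_ne_top
    _ = ENNReal.ofReal (Real.pi / 2) * ∫⁻ ψ in Ioo (-(Real.pi / 2)) (Real.pi / 2),
        ∫⁻ σ : ℝ, ENNReal.ofReal (‖fA A ((σ : ℂ) + (ψ : ℂ) * I)‖ ^ 2) := by
        rw [lintegral_lintegral_swap hmeas]
    _ ≤ _ := by
        gcongr

end Pool.Agent.MultS.LB

end

section

/-!
# The flow for `κ = 0` (item E2)
-/

set_option autoImplicit false

open Complex Metric Set Filter Topology MeasureTheory
open Pool.Agent.MultS.Lip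

namespace Pool.Agent.MultS.LB

namespace ZFlX

lemma sl {W : ℂ} (hW : W ∈ Hp) {c : ℝ} (hc : 0 < c) : 1 + W ^ 2 * (c : ℂ) ∈ slitPlane := by
  have hW' : 0 < W.re := hW
  rw [Complex.mem_slitPlane_iff]
  have hre : (1 + W ^ 2 * (c : ℂ)).re = 1 + (W.re ^ 2 - W.im ^ 2) * c := by
    rw [Complex.add_re, Complex.one_re, Complex.re_mul_ofReal, pow_two, Complex.mul_re]
    ring
  have him : (1 + W ^ 2 * (c : ℂ)).im = 2 * W.re * W.im * c := by
    rw [Complex.add_im, Complex.one_im, Complex.im_mul_ofReal, pow_two, Complex.mul_im]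
    ring
  rw [hre, him]
  by_cases h : W.im = 0
  · left
    rw [h]
    have : 0 < W.re ^ 2 * c := by positivity
    nlinarith
  · right
    have h2 : W.re ≠ 0 := hW'.ne'
    exact mul_ne_zero (mul_ne_zero (mul_ne_zero two_ne_zero h2) h) hc.ne'

lemma rt_re {z : ℂ} (hz : z ∈ slitPlane) : 0 < (z ^ (1 / 2 : ℂ)).re := by
  have h0 : z ≠ 0 := Complex.slitPlane_ne_zero hz
  have hp : |z.arg| < Real.pi := by
    rw [Complex.mem_slitPlane_iff_arg] at hz
    rw [abs_lt]
    exact ⟨Complex.neg_pi_lt_arg z, lt_of_le_of_ne (Complex.arg_le_pi z) hz.1⟩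
  rw [Complex.cpow_def_of_ne_zero h0, Complex.exp_re]
  apply mul_pos (Real.exp_pos _)
  apply Real.cos_pos_of_mem_Ioo
  have hi : (Complex.log z * (1 / 2 : ℂ)).im = z.arg / 2 := by
    have : (1 / 2 : ℂ) = ((1 / 2 : ℝ) : ℂ) := by push_cast; ring
    rw [this, Complex.im_mul_ofReal, Complex.log_im]
    ring
  rw [hi]
  rw [abs_lt] at hp
  constructor
  · linarith [hp.1]
  · linarith [hp.2]

lemma rt_sq (z : ℂ) : (z ^ (1 / 2 : ℂ)) ^ 2 = z := by
  have h : (1 / 2 : ℂ) = ((2 : ℕ) : ℂ)⁻¹ := by norm_num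
  rw [h]
  exact Complex.cpow_nat_inv_pow z two_ne_zero

end ZFlX

open ZFlX in
theorem prfZFl : ZFl := by
  intro S hS
  refine ⟨⟨hS, contDiff_const, fun _ _ => rfl, fun _ => by norm_num, fun s => by simp, by simp⟩,
    ⟨?_, ?_, ?_⟩⟩
  · intro W hW
    have h1 := sl hW (Real.exp_pos (-2 * 0))
    have h2 := rt_sq (1 + W ^ 2 * (Real.exp (-2 * 0) : ℂ))
    show ((1 + W ^ 2 * (Real.exp (-2 * 0) : ℂ)) ^ (1 / 2 : ℂ)) ^ 2 = 1 + W ^ 2
    rw [h2]
    simp
  · intro s _ W hW
    exact rt_re (sl hW (Real.exp_pos _))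
  · intro W hW s _
    have h1 := sl hW (Real.exp_pos (-2 * s))
    have h0 := Complex.slitPlane_ne_zero h1
    have h2 := rt_sq (1 + W ^ 2 * (Real.exp (-2 * s) : ℂ))
    have h3 := rt_re h1
    set y : ℂ := (1 + W ^ 2 * (Real.exp (-2 * s) : ℂ)) ^ (1 / 2 : ℂ) with hy
    have hy0 : y ≠ 0 := by
      intro h
      rw [h] at h3
      simp at h3
    have e1 : HasDerivAt (fun s' : ℝ => 1 + W ^ 2 * (Real.exp (-2 * s') : ℂ))
        (W ^ 2 * ((Real.exp (-2 * s) * (-2) : ℝ) : ℂ)) s := by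
      have a1 : HasDerivAt (fun s' : ℝ => Real.exp (-2 * s')) (Real.exp (-2 * s) * (-2)) s := by
        have := ((hasDerivAt_id s).const_mul (-2 : ℝ)).exp
        simpa using this
      exact (a1.ofReal_comp.const_mul (W ^ 2)).const_add 1
    have e2 := (Complex.hasStrictDerivAt_cpow_const (c := (1 / 2 : ℂ)) h1).hasDerivAt.scomp s e1
    have e3 : (W ^ 2 * ((Real.exp (-2 * s) * (-2) : ℝ) : ℂ)) • ((1 / 2 : ℂ) *
        (1 + W ^ 2 * (Real.exp (-2 * s) : ℂ)) ^ ((1 / 2 : ℂ) - 1)) = 1 / y - y := by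
      rw [smul_eq_mul]
      rw [Complex.cpow_sub _ _ h0, Complex.cpow_one, ← hy, ← h2]
      have h4 : W ^ 2 * ((Real.exp (-2 * s) * (-2) : ℝ) : ℂ) = -2 * (y ^ 2 - 1) := by
        rw [h2]
        push_cast
        ring
      rw [h4]
      field_simp
      ring
    have e4 : 1 / nu (fun _ => (0 : ℝ)) (fun s W => (1 + W ^ 2 * (Real.exp (-2 * s) : ℂ)) ^
        (1 / 2 : ℂ)) s W - y = 1 / y - y := by
      rw [nu]
      simp [hy]
    show HasDerivWithinAt (fun s' : ℝ => (1 + W ^ 2 * (Real.exp (-2 * s') : ℂ)) ^ (1 / 2 : ℂ))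
      (1 / nu (fun _ => (0 : ℝ)) (fun s W => (1 + W ^ 2 * (Real.exp (-2 * s) : ℂ)) ^
        (1 / 2 : ℂ)) s W - y) (Icc 0 S) s
    rw [e4, ← e3]
    exact e2.hasDerivWithinAt

end Pool.Agent.MultS.LB

end
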