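import Pool.Agent.Work.MP_b17785_an.UB.Stmts2
import Pool.Agent.Work.MP_b17785_an.Bd.B02
import Pool.Agent.Work.MP_b17785_an.Bd.B14
import Pool.Agent.Work.MP_b17785_an.Bd.B12
import Pool.Agent.Work.MP_b17785_an.Bd.B08
import Pool.Agent.Work.MP_b17785_an.Lip.StmtsE
import Pool.Agent.Work.MP_b17785_an.Bd.B09
import Pool.Agent.Work.MP_b17785_an.Bd.B10
import Pool.Agent.Work.MP_b17785_an.LB.AvD
import Pool.Agent.Work.MP_b17785_an.LB.AvrC
import Pool.Agent.Work.MP_b17785_an.Bd.B11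
import Pool.Agent.Work.MP_b17785_an.LB.FlEx
import Pool.Agent.Work.MP_b17785_an.LB.FlOne
import Pool.Agent.Work.MP_b17785_an.LB.Ker
import Pool.Agent.Work.MP_b17785_an.LB.LRep
import Pool.Agent.Work.MP_b17785_an.LB.QQ
import Pool.Agent.Work.MP_b17785_an.LB.RemW
import Pool.Agent.Work.MP_b17785_an.LB.TM
import Pool.Agent.Work.MP_b17785_an.LB.Young
import Pool.Agent.Work.MP_b17785_an.LB.Ell3
import Pool.Agent.Work.MP_b17785_an.LB.PhiC
import Pool.Agent.Work.MP_b17785_an.LB.Rep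

/-! Bundle of small proof modules (one section per former module). -/

section

/-!
# [V1] The coefficients of `kb * A`, and summability
-/

set_option autoImplicit false

open Complex Metric Set Filter Topology MeasureTheory
open scoped ENNReal

namespace Pool.Agent.MultS.UB

theorem prfCoK : CoK := by
  intro A hA n
  refine tc_of_hasSum (c := fun n : ℕ => ∑ m ∈ Finset.range n, ((n : ℂ) - m) * tc A m)
    (fun z hz => ?_) n
  have h1 := hasSum_tc hA hz
  have h2 : HasSum (fun n : ℕ => (n : ℂ) * z ^ n) (z / (1 - z) ^ 2) :=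
    hasSum_coe_mul_geometric_of_norm_lt_one (by simpa using hz)
  have h3 := summable_norm_sum_mul_range_of_summable_norm h1.summable.norm h2.summable.norm
  have h4 := tsum_mul_tsum_eq_tsum_sum_range_of_summable_norm h1.summable.norm h2.summable.norm
  rw [h1.tsum_eq, h2.tsum_eq] at h4
  have h5 : (fun n : ℕ => ∑ k ∈ Finset.range (n + 1),
      tc A k * z ^ k * (((n - k : ℕ) : ℂ) * z ^ (n - k))) =
      fun n : ℕ => (∑ m ∈ Finset.range n, ((n : ℂ) - m) * tc A m) * z ^ n := by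
    funext n
    rw [Finset.sum_range_succ, Nat.sub_self, Nat.cast_zero, zero_mul, mul_zero, add_zero,
      Finset.sum_mul]
    refine Finset.sum_congr rfl fun k hk => ?_
    have hk' : k ≤ n := (Finset.mem_range.1 hk).le
    rw [Nat.cast_sub hk']
    have : z ^ n = z ^ k * z ^ (n - k) := by rw [← pow_add, Nat.add_sub_cancel' hk']
    rw [this]
    ring
  have h6 := h3.of_norm.hasSum
  rw [← h4, h5] at h6
  have h7 : kb z * A z = A z * (z / (1 - z) ^ 2) := by unfold kb; ring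
  rw [h7]
  exact h6

/-- Summability with polynomial weights. -/
theorem sm_pow {lam : ℕ → ℂ} (h : Sm lam) {x : ℂ} (hx : x ∈ ball (0 : ℂ) 1) (k : ℕ) :
    Summable (fun n : ℕ => ((n : ℝ) + 1) ^ k * ‖lam (n + 1)‖ * ‖x‖ ^ n) := by
  have hx1 : ‖x‖ < 1 := mem_ball_zero_iff.1 hx
  set r : ℝ := (1 + ‖x‖) / 2 with hr
  have hx0 := norm_nonneg x
  have hr0 : 0 < r := by rw [hr]; linarith
  have hr1 : r < 1 := by rw [hr]; linarith
  have hxr : ‖x‖ / r < 1 := by rw [div_lt_one hr0, hr]; linarith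
  have h1 := tendsto_pow_const_mul_const_pow_of_abs_lt_one k (r := ‖x‖ / r)
    (by rw [abs_of_nonneg (by positivity)]; exact hxr)
  obtain ⟨M, hM⟩ := h1.bddAbove_range
  have hM' : ∀ n : ℕ, (n : ℝ) ^ k * (‖x‖ / r) ^ n ≤ M := fun n => hM ⟨n, rfl⟩
  rcases eq_or_lt_of_le hx0 with hx00 | hx00
  · refine summable_of_ne_finset_zero (s := {0}) fun n hn => ?_
    rw [← hx00, zero_pow (by simpa using hn), mul_zero]
  have h2 : Summable (fun n : ℕ => (M / ‖x‖) * (‖lam (n + 1)‖ * r ^ (n + 1))) :=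
    ((summable_nat_add_iff 1).2 (h r hr0.le hr1)).mul_left _
  refine Summable.of_nonneg_of_le (fun n => by positivity) (fun n => ?_) h2
  have h3 := hM' (n + 1)
  rw [div_pow, mul_div_assoc', div_le_iff₀ (by positivity)] at h3
  push_cast at h3
  have h4 : ((n : ℝ) + 1) ^ k * ‖x‖ ^ n ≤ M / ‖x‖ * r ^ (n + 1) := by
    rw [div_mul_eq_mul_div, le_div_iff₀ hx00]
    calc ((n : ℝ) + 1) ^ k * ‖x‖ ^ n * ‖x‖ = ((n : ℝ) + 1) ^ k * ‖x‖ ^ (n + 1) := by ring
      _ ≤ _ := h3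
  calc ((n : ℝ) + 1) ^ k * ‖lam (n + 1)‖ * ‖x‖ ^ n =
      ‖lam (n + 1)‖ * (((n : ℝ) + 1) ^ k * ‖x‖ ^ n) := by ring
    _ ≤ ‖lam (n + 1)‖ * (M / ‖x‖ * r ^ (n + 1)) := mul_le_mul_of_nonneg_left h4 (norm_nonneg _)
    _ = _ := by ring

theorem norm_cast_succ (n : ℕ) : ‖((n : ℂ) + 1)‖ = (n : ℝ) + 1 := by
  rw [show ((n : ℂ) + 1) = (((n : ℝ) + 1 : ℝ) : ℂ) by push_cast; ring, norm_real,
    Real.norm_eq_abs, abs_of_pos (by positivity)]

/-- The terms of `KK` for bounded coefficients. -/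
theorem kk_term {lam a : ℕ → ℂ} {M : ℝ} (ha : ∀ m, ‖a m‖ ≤ M) (x : ℂ) (n : ℕ) :
    ‖((n : ℂ) + 1) * lam (n + 1) *
      (∑ m ∈ Finset.range (n + 1), ((n : ℂ) + 1 - m) * a m) * x ^ n‖ ≤
    M * (((n : ℝ) + 1) ^ 3 * ‖lam (n + 1)‖ * ‖x‖ ^ n) := by
  have h1 : ‖∑ m ∈ Finset.range (n + 1), ((n : ℂ) + 1 - m) * a m‖ ≤ ((n : ℝ) + 1) ^ 2 * M := by
    refine (norm_sum_le _ _).trans ?_
    have h2 : ∀ m ∈ Finset.range (n + 1), ‖((n : ℂ) + 1 - m) * a m‖ ≤ ((n : ℝ) + 1) * M := by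
      intro m hm
      have hm' : (m : ℝ) ≤ n := by exact_mod_cast Nat.lt_succ_iff.1 (Finset.mem_range.1 hm)
      have h3 : ‖((n : ℂ) + 1 - m)‖ ≤ (n : ℝ) + 1 := by
        rw [show ((n : ℂ) + 1 - m) = (((n : ℝ) + 1 - m : ℝ) : ℂ) by push_cast; ring, norm_real,
          Real.norm_eq_abs, abs_of_nonneg (by linarith)]
        have : (0 : ℝ) ≤ m := m.cast_nonneg
        linarith
      rw [norm_mul]
      exact mul_le_mul h3 (ha m) (norm_nonneg _) (by positivity)
    refine (Finset.sum_le_sum h2).trans (le_of_eq ?_)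
    rw [Finset.sum_const, Finset.card_range, nsmul_eq_mul]
    push_cast
    ring
  rw [norm_mul, norm_mul, norm_mul, norm_cast_succ, norm_pow]
  calc ((n : ℝ) + 1) * ‖lam (n + 1)‖ *
        ‖∑ m ∈ Finset.range (n + 1), ((n : ℂ) + 1 - m) * a m‖ * ‖x‖ ^ n
      ≤ ((n : ℝ) + 1) * ‖lam (n + 1)‖ * (((n : ℝ) + 1) ^ 2 * M) * ‖x‖ ^ n := by gcongr
    _ = _ := by ring

/-- `LL` at `kb * A`. -/
theorem ll_kb (lam : ℕ → ℂ) {A : ℂ → ℂ} (hA : DifferentiableOn ℂ A (ball 0 1)) (x : ℂ) :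
    Lip.LL lam (fun z => kb z * A z) x = KK lam (tc A) x := by
  unfold Lip.LL KK
  refine tsum_congr fun n => ?_
  rw [prfCoK A hA (n + 1)]
  push_cast
  rfl

end Pool.Agent.MultS.UB

end

section

/-!
# MP_b17785_an: [A1] the boundary function
-/

set_option autoImplicit false

open Complex Metric Set Filter Topology MeasureTheory
open Pool.Agent.MultS.Lip

namespace Pool.Agent.MultS.LB

namespace VVX

lemma exp_eq (σ : ℝ) : Complex.exp ((σ : ℂ) + (Real.pi / 2 : ℝ) * I) = I * (Real.exp σ : ℂ) := by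
  rw [Complex.exp_add, Complex.ofReal_exp]
  have : Complex.exp (((Real.pi / 2 : ℝ) : ℂ) * I) = I := by
    rw [Complex.exp_mul_I, ← Complex.ofReal_cos, ← Complex.ofReal_sin, Real.cos_pi_div_two,
      Real.sin_pi_div_two]
    simp
  rw [this, mul_comm]

lemma im_eq (σ : ℝ) : ((σ : ℂ) + (Real.pi / 2 : ℝ) * I).im = Real.pi / 2 := by simp

lemma re_eq (σ : ℝ) : ((σ : ℂ) + (Real.pi / 2 : ℝ) * I).re = σ := by simp

lemma abs_im (σ : ℝ) : |((σ : ℂ) + (Real.pi / 2 : ℝ) * I).im| ≤ Real.pi / 2 := by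
  rw [im_eq, abs_of_pos (by positivity)]

lemma der {A : ℂ → ℂ} {ρ : ℝ} (h : RealA A ρ) (σ : ℝ) :
    HasDerivAt (vv A) (fA A ((σ : ℂ) + (Real.pi / 2 : ℝ) * I)).im σ := by
  have h1 := VL2X.der_B h (abs_im σ)
  have h2 : HasDerivAt (fun x : ℝ => (x : ℂ) + (Real.pi / 2 : ℝ) * I) 1 σ :=
    (HasDerivAt.ofReal_comp (hasDerivAt_id σ)).add_const _
  have h3 : HasDerivAt (fun x : ℝ => A (phi (Complex.exp ((x : ℂ) + (Real.pi / 2 : ℝ) * I))))
      (fA A ((σ : ℂ) + (Real.pi / 2 : ℝ) * I) * 1) σ :=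
    HasDerivAt.comp (h := fun x : ℝ => (x : ℂ) + (Real.pi / 2 : ℝ) * I)
      (h₂ := fun w : ℂ => A (phi (Complex.exp w))) σ h1 h2
  rw [mul_one] at h3
  have h4 := Complex.imCLM.hasFDerivAt.comp_hasDerivAt σ h3
  refine HasDerivAt.congr_of_eventuallyEq (f := fun x : ℝ => Complex.imCLM
    (A (phi (Complex.exp ((x : ℂ) + (Real.pi / 2 : ℝ) * I))))) h4 ?_
  refine Filter.Eventually.of_forall fun x => ?_
  show vv A x = (A (phi (Complex.exp ((x : ℂ) + (Real.pi / 2 : ℝ) * I)))).im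
  rw [exp_eq]
  rfl

lemma phi_circ (σ : ℝ) : ‖phi (I * (Real.exp σ : ℂ))‖ ≤ 1 := by
  rw [← exp_eq]
  exact FAX.phi_le _ (abs_im σ)

lemma one_le (σ : ℝ) : 1 ≤ ‖I * (Real.exp σ : ℂ) + 1‖ ∧ Real.exp σ ≤ ‖I * (Real.exp σ : ℂ) + 1‖ := by
  constructor
  · have := Complex.abs_re_le_norm (I * (Real.exp σ : ℂ) + 1)
    have e : (I * (Real.exp σ : ℂ) + 1).re = 1 := by simp
    rw [e, abs_one] at this
    exact this
  · have := Complex.abs_im_le_norm (I * (Real.exp σ : ℂ) + 1)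
    have e : (I * (Real.exp σ : ℂ) + 1).im = Real.exp σ := by
      rw [Complex.add_im, Complex.mul_im, Complex.I_re, Complex.I_im, Complex.ofReal_re,
        Complex.ofReal_im, Complex.one_im]
      ring
    rw [e, abs_of_pos (Real.exp_pos σ)] at this
    exact this

lemma ne0 (σ : ℝ) : I * (Real.exp σ : ℂ) + 1 ≠ 0 := by
  intro h
  have := (one_le σ).1
  rw [h, norm_zero] at this
  linarith

lemma near (σ : ℝ) : ‖phi (I * (Real.exp σ : ℂ)) - 1‖ ≤ 2 * Real.exp (-σ) ∧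
    ‖phi (I * (Real.exp σ : ℂ)) + 1‖ ≤ 2 * Real.exp σ := by
  obtain ⟨h1, h2⟩ := one_le σ
  have hn := ne0 σ
  have hp : 0 < ‖I * (Real.exp σ : ℂ) + 1‖ := norm_pos_iff.2 hn
  constructor
  · have e : phi (I * (Real.exp σ : ℂ)) - 1 = -2 / (I * (Real.exp σ : ℂ) + 1) := by
      unfold phi
      field_simp
      ring
    have e2 : ‖(-2 : ℂ)‖ = 2 := by simp
    rw [e, norm_div, e2, div_le_iff₀ hp, Real.exp_neg]
    have h3 : 0 < Real.exp σ := Real.exp_pos σ
    calc (2 : ℝ) = 2 * (Real.exp σ)⁻¹ * Real.exp σ := by field_simp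
      _ ≤ 2 * (Real.exp σ)⁻¹ * ‖I * (Real.exp σ : ℂ) + 1‖ :=
          mul_le_mul_of_nonneg_left h2 (by positivity)
  · have e : phi (I * (Real.exp σ : ℂ)) + 1 = 2 * (I * (Real.exp σ : ℂ)) /
        (I * (Real.exp σ : ℂ) + 1) := by
      unfold phi
      field_simp
      ring
    have e2 : ‖2 * (I * (Real.exp σ : ℂ))‖ = 2 * Real.exp σ := by
      rw [norm_mul, norm_mul, norm_I, norm_real, Real.norm_of_nonneg (Real.exp_pos _).le]
      norm_num
    rw [e, norm_div, e2, div_le_iff₀ hp]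
    exact le_mul_of_one_le_right (by positivity) h1

lemma real_pt {A : ℂ → ℂ} {ρ : ℝ} (h : RealA A ρ) (x : ℝ) (hx : |x| ≤ 1) :
    (A (x : ℂ)).im = 0 := by
  have h1 : (x : ℂ) ∈ ball (0 : ℂ) ρ := by
    rw [mem_ball_zero_iff, norm_real, Real.norm_eq_abs]
    exact hx.trans_lt h.rho
  have h2 := h.sym _ h1
  rw [conj_ofReal] at h2
  have h3 := congrArg Complex.im h2
  rw [conj_im] at h3
  linarith

lemma lipA {A : ℂ → ℂ} {ρ : ℝ} (h : RealA A ρ) : ∃ M : ℝ, 0 ≤ M ∧ ∀ z w : ℂ, ‖z‖ ≤ 1 → ‖w‖ ≤ 1 →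
    ‖A w - A z‖ ≤ M * ‖w - z‖ := by
  obtain ⟨M, hM0, hM⟩ := FAX.bdA h
  refine ⟨M, hM0, fun z w hz hw => ?_⟩
  refine (convex_closedBall (0 : ℂ) 1).norm_image_sub_le_of_norm_deriv_le ?_ ?_
    (mem_closedBall_zero_iff.2 hz) (mem_closedBall_zero_iff.2 hw)
  · intro x hx
    exact h.dif.differentiableAt (isOpen_ball.mem_nhds (FAX.sub_ball h hx))
  · intro x hx
    exact hM x (mem_closedBall_zero_iff.1 hx)

end VVX

open VVX in
theorem prfVV : VV := by
  intro A ρ h
  obtain ⟨⟨b, c, hb, hd, hbd⟩, -, -⟩ := prfFA A ρ h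
  obtain ⟨M, hM0, hM⟩ := lipA h
  have hder : ∀ σ : ℝ, deriv (vv A) σ = (fA A ((σ : ℂ) + (Real.pi / 2 : ℝ) * I)).im :=
    fun σ => (der h σ).deriv
  have hcont : Continuous (fun σ : ℝ => (fA A ((σ : ℂ) + (Real.pi / 2 : ℝ) * I)).im) := by
    have h1 : ContinuousOn (fA A) {w : ℂ | |w.im| < b} := hd.continuousOn
    have h2 : Continuous (fun σ : ℝ => fA A ((σ : ℂ) + (Real.pi / 2 : ℝ) * I)) := by
      refine h1.comp_continuous (by fun_prop) fun σ => ?_
      show |_| < b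
      exact (abs_im σ).trans_lt hb
    exact Complex.continuous_im.comp h2
  have hC1 : ContDiff ℝ 1 (vv A) := by
    rw [contDiff_one_iff_deriv]
    refine ⟨fun σ => (der h σ).differentiableAt, ?_⟩
    have : deriv (vv A) = fun σ : ℝ => (fA A ((σ : ℂ) + (Real.pi / 2 : ℝ) * I)).im := by
      funext σ
      exact hder σ
    rw [this]
    exact hcont
  refine ⟨max (2 * M) c, ⟨hC1, fun σ => ⟨?_, ?_⟩⟩, ?_, hder⟩
  · have hE : 0 < Real.exp (-|σ|) := Real.exp_pos _
    have h1 : |vv A σ| ≤ 2 * M * Real.exp (-|σ|) := by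
      rcases le_total 0 σ with hs | hs
      · rw [abs_of_nonneg hs]
        have h2 := hM 1 (phi (I * (Real.exp σ : ℂ))) (by simp) (phi_circ σ)
        have h3 : vv A σ = (A (phi (I * (Real.exp σ : ℂ))) - A 1).im := by
          have := real_pt h 1 (by simp)
          rw [Complex.ofReal_one] at this
          rw [sub_im, this, sub_zero]
          rfl
        rw [h3]
        refine (Complex.abs_im_le_norm _).trans (h2.trans ?_)
        calc M * ‖phi (I * (Real.exp σ : ℂ)) - 1‖ ≤ M * (2 * Real.exp (-σ)) :=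
              mul_le_mul_of_nonneg_left (near σ).1 hM0
          _ = 2 * M * Real.exp (-σ) := by ring
      · rw [abs_of_nonpos hs, neg_neg]
        have h2 := hM (-1) (phi (I * (Real.exp σ : ℂ))) (by simp) (phi_circ σ)
        have h3 : vv A σ = (A (phi (I * (Real.exp σ : ℂ))) - A (-1)).im := by
          have := real_pt h (-1) (by simp)
          rw [Complex.ofReal_neg, Complex.ofReal_one] at this
          rw [sub_im, this, sub_zero]
          rfl
        rw [h3]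
        refine (Complex.abs_im_le_norm _).trans (h2.trans ?_)
        rw [sub_neg_eq_add]
        calc M * ‖phi (I * (Real.exp σ : ℂ)) + 1‖ ≤ M * (2 * Real.exp σ) :=
              mul_le_mul_of_nonneg_left (near σ).2 hM0
          _ = 2 * M * Real.exp σ := by ring
    exact h1.trans (mul_le_mul_of_nonneg_right (le_max_left _ _) hE.le)
  · rw [hder σ]
    have h1 := hbd _ (abs_im σ)
    rw [re_eq] at h1
    refine (Complex.abs_im_le_norm _).trans (h1.trans ?_)
    exact mul_le_mul_of_nonneg_right (le_max_right _ _) (Real.exp_pos _).le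
  · intro σ
    exact (Complex.abs_im_le_norm _).trans (h.bd _ (phi_circ σ))

end Pool.Agent.MultS.LB

end

section

/-!
# The upper bound for the Lipschitz norm
-/

set_option autoImplicit false

open Complex Metric Set Filter Topology MeasureTheory
open scoped ENNReal

namespace Pool.Agent.MultS.UB

namespace FinX

/-- the coefficients of the functional -/
noncomputable def pp (lam : ℕ → ℂ) (z : ℂ) (n : ℕ) : ℂ := (n : ℂ) * lam n * z ^ (n - 1)

theorem pp_succ (lam : ℕ → ℂ) (z : ℂ) (n : ℕ) :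
    pp lam z (n + 1) = ((n : ℂ) + 1) * lam (n + 1) * z ^ n := by
  unfold pp
  push_cast
  simp

theorem sm_pp {lam : ℕ → ℂ} (h : Sm lam) {z : ℂ} (hz : z ∈ ball (0 : ℂ) 1) :
    Summable (fun n : ℕ => (n : ℝ) * ‖pp lam z n‖) := by
  rw [← summable_nat_add_iff 1]
  refine (sm_pow h hz 2).congr fun n => ?_
  rw [pp_succ, norm_mul, norm_mul, norm_pow, norm_cast_succ]
  push_cast
  ring

theorem sm_tc {lam : ℕ → ℂ} (h : Sm lam) {z : ℂ} (hz : z ∈ ball (0 : ℂ) 1) {g : ℂ → ℂ}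
    (hg : ∀ n, ‖tc g n‖ ≤ 3 * n) :
    Summable (fun n : ℕ => ((n : ℂ) + 1) * lam (n + 1) * tc g (n + 1) * z ^ n) := by
  refine Summable.of_norm_bounded ((sm_pow h hz 2).mul_left 3) fun n => ?_
  have h1 := hg (n + 1)
  push_cast at h1
  rw [norm_mul, norm_mul, norm_mul, norm_pow, norm_cast_succ]
  calc ((n : ℝ) + 1) * ‖lam (n + 1)‖ * ‖tc g (n + 1)‖ * ‖z‖ ^ n
      ≤ ((n : ℝ) + 1) * ‖lam (n + 1)‖ * (3 * ((n : ℝ) + 1)) * ‖z‖ ^ n := by gcongr
    _ = _ := by ring

theorem eqLL {lam : ℕ → ℂ} (h : Sm lam) {z : ℂ} (hz : z ∈ ball (0 : ℂ) 1) {g : ℂ → ℂ}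
    (hg : ∀ n, ‖tc g n‖ ≤ 3 * n) :
    ∑' n : ℕ, pp lam z n * tc g n = Lip.LL lam g z := by
  have h1 := sm_tc h hz hg
  have h2 : Summable (fun n : ℕ => pp lam z n * tc g n) := by
    rw [← summable_nat_add_iff 1]
    refine h1.congr fun n => ?_
    rw [pp_succ]
    ring
  rw [h2.tsum_eq_zero_add]
  unfold Lip.LL
  have h3 : pp lam z 0 = 0 := by simp [pp]
  rw [h3, zero_mul, zero_add]
  refine tsum_congr fun n => ?_
  rw [pp_succ]
  ring

theorem tc_congr {f g : ℂ → ℂ} (hf : DifferentiableOn ℂ f (ball 0 1))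
    (h : EqOn g f (ball (0 : ℂ) 1)) (n : ℕ) : tc g n = tc f n := by
  refine tc_of_hasSum (c := fun n => tc f n) (fun z hz => ?_) n
  rw [h hz]
  exact hasSum_tc hf hz

theorem tc_div {f : ℂ → ℂ} (hf : DifferentiableOn ℂ f (ball 0 1)) (c : ℂ) (n : ℕ) :
    tc (fun z => f z / c) n = tc f n / c := by
  refine tc_of_hasSum (c := fun n => tc f n / c) (fun z hz => ?_) n
  have h1 := (hasSum_tc hf hz).div_const c
  refine h1.congr_fun fun n => ?_
  ring

theorem kk_div (lam a : ℕ → ℂ) (c x : ℂ) :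
    KK lam (fun n => a n / c) x = KK lam a x / c := by
  unfold KK
  rw [← tsum_div_const]
  refine tsum_congr fun n => ?_
  have h1 : ∑ m ∈ Finset.range (n + 1), ((n : ℂ) + 1 - m) * (a m / c) =
      (∑ m ∈ Finset.range (n + 1), ((n : ℂ) + 1 - m) * a m) / c := by
    rw [Finset.sum_div]
    exact Finset.sum_congr rfl fun m _ => by ring
  rw [h1]
  ring

lemma diffA {f : ℂ → ℂ} (hf : Sc f) : DifferentiableOn ℂ (Aq f) (ball 0 1) := by
  have h1 : DifferentiableOn ℂ (dslope f 0) (ball 0 1) :=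
    (Complex.differentiableOn_dslope (isOpen_ball.mem_nhds (mem_ball_self one_pos))).2 hf.1
  have h2 : Differentiable ℂ (fun z : ℂ => (1 - z) ^ 2) := by fun_prop
  exact h1.mul h2.differentiableOn

lemma eqA {f : ℂ → ℂ} (hf : Sc f) {z : ℂ} (hz : z ∈ ball (0 : ℂ) 1) :
    kb z * Aq f z = f z := by
  have h1 : 1 - z ≠ 0 := by
    intro h
    have : z = 1 := by linear_combination -h
    rw [this, mem_ball_zero_iff, norm_one] at hz
    exact lt_irrefl _ hz
  by_cases h0 : z = 0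
  · rw [h0, hf.2.2.1]
    simp [kb]
  · unfold Aq kb
    rw [dslope_of_ne _ h0, slope_def_field, hf.2.2.1]
    field_simp
    ring

theorem oneOm_rot {f : ℂ → ℂ} (ho : OneOm f) {t : ℂ} (ht : ‖t‖ = 1) :
    OneOm (fun ζ => f (t * ζ) / t) := by
  have ht0 : t ≠ 0 := by
    intro h
    rw [h, norm_zero] at ht
    exact zero_ne_one ht
  intro w₁ w₂ hne hn
  have h1 := ho (t * w₁) (t * w₂) (fun h => hne (mul_left_cancel₀ ht0 h))
    (by rw [norm_mul, norm_mul, hn])
  have h2 : ∀ w : ℂ, t * w ∈ f '' ball 0 1 → w ∈ (fun ζ => f (t * ζ) / t) '' ball 0 1 := by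
    rintro w ⟨z, hz, hzw⟩
    refine ⟨z / t, ?_, ?_⟩
    · rw [mem_ball_zero_iff] at hz ⊢
      rwa [norm_div, ht, div_one]
    · simp only
      rw [mul_div_cancel₀ _ ht0, hzw]
      field_simp
  exact h1.imp (h2 _) (h2 _)

end FinX

open FinX in
/-- The upper bound. -/
theorem ubMain (hD : Dir) (hE : Extr) (hG : GrowE) (hLitt : ∀ f, Sc f → ∀ n, ‖tc f n‖ ≤ 3 * n) :
    ∃ C : ℝ, 0 < C ∧ ∀ lam : ℕ → ℂ, Sm lam → ∀ Y : ℝ,
      (∀ A : ℂ → ℂ, DifferentiableOn ℂ A (ball 0 1) → (∀ z ∈ ball (0 : ℂ) 1, ‖A z‖ ≤ 1) →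
        ∫⁻ z in ball (0 : ℂ) 1, ENNReal.ofReal (‖deriv A z‖ ^ 2) ≤ ENNReal.ofReal Real.pi →
        ∀ z ∈ ball (0 : ℂ) 1, ‖KK lam (tc A) z‖ ≤ Y) →
      ∀ f : ℂ → ℂ, Sc f → ∀ x ∈ ball (0 : ℂ) 1, ‖Lip.LL lam f x‖ ≤ C * Y := by
  obtain ⟨C, hC, hD⟩ := hD
  obtain ⟨C₀, hG⟩ := hG
  set C' := max C 1 with hC'
  have hC1 : 1 ≤ C' := le_max_right _ _
  have hC2 : C ≤ C' := le_max_left _ _
  have hC0 : 0 < C' := by linarith
  refine ⟨C', hC0, fun lam hlam Y hY f hf x hx => ?_⟩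
  -- the extremal functions
  have key : ∀ g : ℂ → ℂ, Sc g → OneOm g → ‖Lip.LL lam g x‖ ≤ C' * Y := by
    intro g hg ho
    obtain ⟨t, ht, hgt⟩ := hG g hg ho
    have ht0 : t ≠ 0 := by
      intro h
      rw [h, norm_zero] at ht
      exact zero_ne_one ht
    obtain ⟨hr1, hr2⟩ := Lip.prfRota lam g t hg.1 ht
    have hs := hr2 hg
    set h : ℂ → ℂ := fun ζ => g (t * ζ) / t with hh
    have hgr : ∀ z ∈ ball (0 : ℂ) 1, ‖h z‖ * ‖1 - z‖ ^ 2 ≤ C₀ := by
      intro z hz
      have h1 := hgt (t * z) (Lip.Rota'.mem_ball_mul ht hz)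
      have h2 : ‖t - t * z‖ = ‖1 - z‖ := by
        rw [show t - t * z = t * (1 - z) by ring, norm_mul, ht, one_mul]
      rw [h2] at h1
      simp only [hh]
      rw [norm_div, ht, div_one]
      exact h1
    obtain ⟨hb, hd⟩ := hD h C₀ hs (oneOm_rot ho ht) hgr
    have hA := diffA hs
    set A : ℂ → ℂ := Aq h with hAd
    have hY1 := hY (fun z => A z / (C' : ℂ)) (hA.div_const _) (fun z hz => by
      rw [norm_div, norm_real, Real.norm_of_nonneg hC0.le, div_le_one hC0]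
      exact (hb z hz).trans hC2) ?_ (x / t) ?_
    · have e1 : KK lam (tc fun z => A z / (C' : ℂ)) (x / t) = KK lam (tc A) (x / t) / C' := by
        rw [← kk_div]
        congr 1
        funext n
        exact tc_div hA _ n
      have e2 : Lip.LL lam h (x / t) = KK lam (tc A) (x / t) := by
        rw [← ll_kb lam hA]
        unfold Lip.LL
        refine tsum_congr fun n => ?_
        rw [tc_congr (g := fun z => kb z * A z) hs.1 fun z hz => eqA hs hz]
      have e3 : Lip.LL lam h (x / t) = Lip.LL lam g x := by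
        rw [hr1, mul_div_cancel₀ _ ht0]
      rw [e1, ← e2, e3, norm_div, norm_real, Real.norm_of_nonneg hC0.le, div_le_iff₀ hC0] at hY1
      linarith
    · have hdv : ∀ z ∈ ball (0 : ℂ) 1, deriv (fun z => A z / (C' : ℂ)) z = deriv A z / C' := by
        intro z hz
        exact deriv_div_const _
      have h3 : ∫⁻ z in ball (0 : ℂ) 1, ENNReal.ofReal (‖deriv (fun z => A z / (C' : ℂ)) z‖ ^ 2) ≤
          ∫⁻ z in ball (0 : ℂ) 1, ENNReal.ofReal ((C' ^ 2)⁻¹) *
            ENNReal.ofReal (‖deriv A z‖ ^ 2) := by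
        refine setLIntegral_mono' measurableSet_ball fun z hz => ?_
        rw [hdv z hz, ← ENNReal.ofReal_mul (by positivity)]
        refine ENNReal.ofReal_le_ofReal (le_of_eq ?_)
        rw [norm_div, norm_real, Real.norm_of_nonneg hC0.le]
        field_simp
      refine h3.trans ?_
      rw [lintegral_const_mul' _ _ ENNReal.ofReal_ne_top]
      refine (mul_le_mul_right hd _).trans ?_
      rw [← ENNReal.ofReal_mul (by positivity)]
      refine ENNReal.ofReal_le_ofReal ?_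
      have h4 : (C' ^ 2)⁻¹ * C ≤ 1 := by
        rw [inv_mul_le_iff₀ (by positivity)]
        nlinarith
      linarith [Real.pi_gt_three]
    · rw [mem_ball_zero_iff] at hx ⊢
      rwa [norm_div, ht, div_one]
  -- the additive constant disappears
  have key2 : ∀ κ : ℝ, 0 < κ → κ * ‖Lip.LL lam f x‖ ≤ κ * (C' * Y) + 1 := by
    intro κ hκ
    obtain ⟨g, hg, hmax, ho⟩ := hE (fun n => (κ : ℂ) * pp lam x n) (by
      refine ((sm_pp hlam hx).mul_left κ).congr fun n => ?_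
      rw [norm_mul, norm_real, Real.norm_of_nonneg hκ.le]
      ring)
    have h1 := hmax f hf
    have e : ∀ q : ℂ → ℂ, Sc q →
        ‖∑' n : ℕ, (κ : ℂ) * pp lam x n * tc q n‖ = κ * ‖Lip.LL lam q x‖ := by
      intro q hq
      rw [← eqLL hlam hx (hLitt q hq)]
      have : (fun n : ℕ => (κ : ℂ) * pp lam x n * tc q n) =
          fun n : ℕ => (κ : ℂ) * (pp lam x n * tc q n) := by
        funext n
        ring
      rw [this, tsum_mul_left, norm_mul, norm_real, Real.norm_of_nonneg hκ.le]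
    rw [e f hf, e g hg] at h1
    have h2 := mul_le_mul_of_nonneg_left (key g hg ho) hκ.le
    linarith
  refine le_of_forall_pos_le_add fun ε hε => ?_
  have h1 := key2 (1 / ε) (by positivity)
  have h2 := mul_le_mul_of_nonneg_left h1 hε.le
  have e1 : ε * (1 / ε * ‖Lip.LL lam f x‖) = ‖Lip.LL lam f x‖ := by field_simp
  have e2 : ε * (1 / ε * (C' * Y) + 1) = C' * Y + ε := by field_simp
  rw [e1, e2] at h2
  exact h2

end Pool.Agent.MultS.UB

end

section

/-!
# The lower bound: everything together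
-/

set_option autoImplicit false

namespace Pool.Agent.MultS.LB

theorem kerA : Ker := prfKer
theorem linA : LinP := prfLinP kerA
theorem swapA : Swap := prfSwap kerA
theorem swap2A : Swap2 := prfSwap2 swapA
theorem univBA : UnivB := prfUnivB linA
theorem areaPA : AreaP := prfAreaP prfPXKer
theorem areaHA : AreaH := prfAreaH areaPA linA
theorem flHolA : FlHol := prfFlHol prfFlDiff
theorem flDerA : FlDer := prfFlDer flHolA
theorem flXA : FlX := prfFlX flDerA
theorem flIntA : FlInt := prfFlInt prfFlNu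
theorem flN1A : FlN1 := prfFlN1 flIntA
theorem flGrA : FlGr := prfFlGr flXA prfFlNu flN1A
theorem flTwoA : FlTwo := prfFlTwo flXA prfFlNu flGrA
theorem flOneA : FlOne := prfFlOne flXA prfFlNu
theorem univCA : UnivC := prfUnivC univBA flHolA flDerA flXA flOneA
theorem remWA : RemW := prfRemW prfTM prfWB prfJ2
theorem agA : AG := prfAG areaHA flHolA flDerA prfFlNu flN1A flTwoA
theorem kbA : KB := prfKB agA remWA univCA linA flHolA flOneA univBA prfWB
theorem idAA : IdA := prfIdA flXA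
theorem identA : Ident := prfIdent flXA idAA
theorem idLA : IdL := prfIdL identA swapA swap2A linA flHolA
theorem mainIA : MainI := prfMainI prfFlEx idLA univCA univBA kbA prfYoung
theorem ellBA : EllB := prfEllB univBA
theorem homA : Hom := prfHom mainIA
theorem ra2A : RA2 := prfRA2 prfAvrC prfAvD prfCut
theorem kapIA : KapI := prfKapI prfQQ
theorem ell3A : Ell3 := prfEll3 prfTM agA univCA prfZFl prfJ2 linA univBA
theorem ellCA : EllC := prfEllC kerA
theorem tstA : TstE := prfTstE ellBA ell3A ellCA homA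
theorem ra1A : RA1 := prfRA1 prfAvrC prfAvD prfCut
theorem ra3A : RA3 := prfRA3 ra1A ra2A prfAvD prfCut
theorem strip2A : Strip2 := prfStrip2 prfPlanch prfShift
theorem repA : Rep := prfRep prfPhiC prfQQ prfEBd
theorem kapL2A : KapL2 := prfKapL2 prfPlanch prfQQ repA
theorem vl2A : VL2 := prfVL2 prfFA prfVV
theorem kapAA : KapA := prfKapA prfVV strip2A kapL2A prfFA vl2A
theorem lRepA : LRep := prfLRep kerA linA prfVV prfHerg repA prfEBd
theorem lbrA : LBR := prfLBR lRepA tstA ra3A kapAA kapIA prfKV prfVV repA ellBA univBA areaPA linA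
theorem lbMainA : LBMain := prfLBMain lbrA kerA linA univBA

end Pool.Agent.MultS.LB

end
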