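import Pool.Agent.Work.MP_b17785_an.UB.Ann
import Pool.Agent.Work.MP_b17785_an.UB.Appr
import Pool.Agent.Work.MP_b17785_an.Bd.B13
import Pool.Agent.Work.MP_b17785_an.UB.Energy
import Pool.Agent.Work.MP_b17785_an.UB.Pars
import Pool.Agent.Work.MP_b17785_an.Bd.B14
import Pool.Agent.Work.MP_b17785_an.Bd.B15
import Pool.Agent.Work.MP_b17785_an.LB.StmtsF

/-! Bundle of small proof modules (one section per former module). -/

section

/-!
# The explicit form of the Lipschitz norm, upper bound: all items together
-/

set_option autoImplicit false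

open Complex Metric Set Filter Topology MeasureTheory
open scoped ENNReal

namespace Pool.Agent.MultS.UB

theorem tailAll : Tail := prfTail prfFub

theorem areaAll : Area := prfArea prfChg prfAnn

theorem crsAll : Crs := prfCrs areaAll (prfCross prfRay) prfFub

theorem energyAll : Energy := prfEnergy (prfCrT prfRay prfFubB) areaAll tailAll

theorem starAll : Star := prfStar energyAll crsAll

theorem mainSAll : MainS := prfMainS starAll (prfRing starAll areaAll tailAll) prfSer

theorem spAllAll : SpAll := prfSpAll prfHmF (prfSpN prfHmF) (prfSpC prfHmF prfConnIn)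

/-- The main result of the block. -/
theorem dirAll : Dir := prfDir mainSAll spAllAll prfChg prfHmF

end Pool.Agent.MultS.UB

end

section

/-!
# [G7] The upper bound
-/

set_option autoImplicit false

open Complex Metric Set Filter Topology MeasureTheory

namespace Pool.Agent.MultS.LB

theorem prfUBMain : UBMain := by
  have hL : ∀ f, Sc f → ∀ n : ℕ, ‖tc f n‖ ≤ 3 * n := by
    intro f hf n
    rcases Nat.eq_zero_or_pos n with h | h
    · subst h
      rw [tc_zero, hf.2.2.1]
      simp
    · exact littAll f hf n h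
  obtain ⟨C, hC, h⟩ := UB.ubMain UB.dirAll extr growE hL
  refine ⟨C, hC, fun lam Y hY => ⟨hY.sm, h lam ?_ Y ?_⟩⟩
  · intro r hr0 hr1
    rw [← summable_nat_add_iff 1]
    refine Summable.of_nonneg_of_le (fun n => by positivity) (fun n => ?_) hY.sm
    have h1 : r ^ (n + 1) ≤ 1 := pow_le_one₀ hr0 hr1.le
    have h2 : (0 : ℝ) ≤ n := n.cast_nonneg
    calc ‖lam (n + 1)‖ * r ^ (n + 1) ≤ ‖lam (n + 1)‖ * 1 :=
          mul_le_mul_of_nonneg_left h1 (norm_nonneg _)
      _ ≤ ((n : ℝ) + 1) * ‖lam (n + 1)‖ := by nlinarith [norm_nonneg (lam (n + 1))]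
  · intro A hA1 hA2 hA3 z hz
    have h1 := hY.bc A hA1 hA2 hA3 z hz
    rwa [← UB.ll_kb lam hA1]

end Pool.Agent.MultS.LB

end
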