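import Pool.Agent.Work.MP_b17785_an.Gol.Stmts
import Pool.Agent.Work.MP_6d8919_an.SchwarzLog
import Pool.Agent.Work.MP_a78000_an.HolInv
import Pool.Agent.Work.MP_b17785_an.K2

/-! Bundle of small proof modules (one section per former module). -/

section

/-!
# [AnnE] area of an annulus for `dA / |w|^2`
-/

set_option autoImplicit false

open Complex Metric Set Filter Topology MeasureTheory
open scoped ENNReal ComplexConjugate

namespace Pool.Agent.MultS
namespace Gol
namespace AnnE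

lemma radial (δ R : ℝ) (hδ : 0 < δ) (hR : δ < R) :
    ∫⁻ r in Ioo δ R, ENNReal.ofReal (1 / r) = ENNReal.ofReal (Real.log (R / δ)) := by
  have hcont : ContinuousOn (fun r : ℝ => 1 / r) (Icc δ R) := by
    apply ContinuousOn.div continuousOn_const continuousOn_id
    intro x hx
    exact (lt_of_lt_of_le hδ hx.1).ne'
  have hint : IntegrableOn (fun r : ℝ => 1 / r) (Ioo δ R) :=
    (hcont.integrableOn_compact isCompact_Icc).mono_set Ioo_subset_Icc_self
  rw [← ofReal_integral_eq_lintegral_ofReal hint]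
  · congr 1
    rw [← integral_Ioc_eq_integral_Ioo, ← intervalIntegral.integral_of_le hR.le]
    exact integral_one_div_of_pos hδ (hδ.trans hR)
  · rw [Filter.EventuallyLE, ae_restrict_iff' measurableSet_Ioo]
    apply Filter.Eventually.of_forall
    intro x hx
    have : 0 < x := hδ.trans hx.1
    simp only [Pi.zero_apply]
    positivity

end AnnE

open AnnE in
theorem prfAnnE : AnnE := by
  intro δ R hδ hR
  have hS : MeasurableSet {w : ℂ | δ < ‖w‖ ∧ ‖w‖ < R} := by
    apply IsOpen.measurableSet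
    exact (isOpen_lt continuous_const continuous_norm).inter
      (isOpen_lt continuous_norm continuous_const)
  rw [← lintegral_indicator hS, ← Complex.lintegral_comp_polarCoord_symm]
  have hT : MeasurableSet polarCoord.target := polarCoord.open_target.measurableSet
  have hU : MeasurableSet ((Ioo δ R) ×ˢ (univ : Set ℝ)) := measurableSet_Ioo.prod MeasurableSet.univ
  have h1 : ∫⁻ p in polarCoord.target, ENNReal.ofReal p.1 •
      ({w : ℂ | δ < ‖w‖ ∧ ‖w‖ < R}.indicator (fun w : ℂ => ENNReal.ofReal (1 / ‖w‖ ^ 2)))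
        (Complex.polarCoord.symm p) =
      ∫⁻ p in polarCoord.target,
        ((Ioo δ R) ×ˢ (univ : Set ℝ)).indicator (fun p => ENNReal.ofReal (1 / p.1)) p := by
    apply setLIntegral_congr_fun hT
    intro p hp
    rw [polarCoord_target] at hp
    have hp1 : 0 < p.1 := hp.1
    have hn : ‖Complex.polarCoord.symm p‖ = p.1 := by
      rw [Complex.norm_polarCoord_symm, abs_of_pos hp1]
    by_cases hm : δ < p.1 ∧ p.1 < R
    · have hm1 : Complex.polarCoord.symm p ∈ {w : ℂ | δ < ‖w‖ ∧ ‖w‖ < R} := by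
        simp only [mem_ofPred_eq, hn]; exact hm
      have hm2 : p ∈ (Ioo δ R) ×ˢ (univ : Set ℝ) := ⟨hm, mem_univ _⟩
      simp only [indicator_of_mem hm1, indicator_of_mem hm2, hn, smul_eq_mul]
      rw [← ENNReal.ofReal_mul hp1.le]
      congr 1
      field_simp
    · have hm1 : Complex.polarCoord.symm p ∉ {w : ℂ | δ < ‖w‖ ∧ ‖w‖ < R} := by
        simp only [mem_ofPred_eq, hn]; exact hm
      have hm2 : p ∉ (Ioo δ R) ×ˢ (univ : Set ℝ) := fun h => hm h.1
      simp only [indicator_of_notMem hm1, indicator_of_notMem hm2, smul_zero]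
  rw [h1, setLIntegral_indicator hU]
  have h2 : (Ioo δ R) ×ˢ (univ : Set ℝ) ∩ polarCoord.target =
      (Ioo δ R) ×ˢ (Ioo (-Real.pi) Real.pi) := by
    rw [polarCoord_target]
    ext p
    simp only [mem_inter_iff, mem_prod, mem_Ioo, mem_univ, and_true, mem_Ioi]
    constructor
    · rintro ⟨h, -, h'⟩; exact ⟨h, h'⟩
    · rintro ⟨h, h'⟩; exact ⟨h, hδ.trans h.1, h'⟩
  rw [h2]
  have hmeas : Measurable (fun p : ℝ × ℝ => ENNReal.ofReal (1 / p.1)) := by
    apply ENNReal.measurable_ofReal.comp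
    exact measurable_const.div measurable_fst
  have h3 := setLIntegral_prod (μ := (volume : Measure ℝ)) (ν := (volume : Measure ℝ))
    (s := Ioo δ R) (t := Ioo (-Real.pi) Real.pi) (fun p : ℝ × ℝ => ENNReal.ofReal (1 / p.1))
    hmeas.aemeasurable
  rw [← MeasureTheory.Measure.volume_eq_prod] at h3
  rw [h3]
  have h4 : ∀ x : ℝ, ∫⁻ _ in Ioo (-Real.pi) Real.pi, ENNReal.ofReal (1 / x) =
      ENNReal.ofReal (1 / x) * ENNReal.ofReal (2 * Real.pi) := by
    intro x
    rw [setLIntegral_const, Real.volume_Ioo]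
    congr 2
    ring
  simp only [h4]
  rw [lintegral_mul_const _ (by fun_prop), radial δ R hδ hR, mul_comm,
    ← ENNReal.ofReal_mul (by positivity)]

end Gol
end Pool.Agent.MultS

end

section

/-!
# Item Bds: bounds for `(1/z - 1/x) exp (φ z)` off two small disks
-/

set_option autoImplicit false

open Complex Metric Set Filter Topology MeasureTheory
open scoped ENNReal ComplexConjugate

namespace Pool.Agent.MultS
namespace Gol

theorem Bds.norm_eq {x z w : ℂ} (hx : x ≠ 0) (hz : z ≠ 0) :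
    ‖(1 / z - 1 / x) * Complex.exp w‖ = ‖z - x‖ / (‖x‖ * ‖z‖) * Real.exp w.re := by
  have h : 1 / z - 1 / x = -(z - x) / (x * z) := by
    field_simp
    ring
  rw [norm_mul, Complex.norm_exp, h, norm_div, norm_neg, norm_mul]

theorem prfBds : Bds := by
  intro φ P hP hφ hφ0 x hx0 hx1 η hη0 hη1
  have hX : x ≠ 0 := norm_pos_iff.mp hx0
  have hsub : closedBall (0 : ℂ) 1 ⊆ ball 0 P := closedBall_subset_ball hP
  have hcont : ContinuousOn (fun z => (φ z).re) (closedBall 0 1) :=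
    Complex.continuous_re.comp_continuousOn (hφ.continuousOn.mono hsub)
  obtain ⟨M, hM⟩ := (isCompact_closedBall (0 : ℂ) 1).exists_bound_of_continuousOn hcont
  have hM1 : ∀ z : ℂ, ‖z‖ < 1 → (φ z).re ≤ M ∧ -M ≤ (φ z).re := by
    intro z hz
    have h := hM z (by simpa using hz.le)
    rw [Real.norm_eq_abs, abs_le] at h
    exact ⟨h.2, h.1⟩
  have hat : ∀ z : ℂ, ‖z‖ < 1 → ContinuousAt (fun z => (φ z).re) z := by
    intro z hz
    exact Complex.continuous_re.continuousAt.comp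
      ((hφ.continuousOn z (by simpa using hz.trans hP)).continuousAt
        (isOpen_ball.mem_nhds (by simpa using hz.trans hP)))
  -- near zero
  have hE0 : ContinuousAt (fun z => Real.exp (φ z).re) 0 :=
    Real.continuous_exp.continuousAt.comp (hat 0 (by simp))
  have h0 : ∀ᶠ z in 𝓝 (0 : ℂ), Real.exp (φ z).re < 1 + η / 2 := by
    apply hE0.eventually_lt_const
    simp only [hφ0, Complex.zero_re, Real.exp_zero]
    linarith
  obtain ⟨κ1, hκ1, h0'⟩ := Metric.eventually_nhds_iff.1 h0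
  -- near x
  have hEx : ContinuousAt (fun z => Real.exp (φ z).re / ‖z‖) x :=
    (Real.continuous_exp.continuousAt.comp (hat x hx1)).div continuous_norm.continuousAt hx0.ne'
  have h1 : ∀ᶠ z in 𝓝 x, (1 - η) * (Real.exp (φ x).re / ‖x‖) < Real.exp (φ z).re / ‖z‖ := by
    apply hEx.eventually_const_lt
    have : 0 < Real.exp (φ x).re / ‖x‖ := by positivity
    nlinarith
  obtain ⟨κ2, hκ2, h1'⟩ := Metric.eventually_nhds_iff.1 h1
  have hs0 : 0 < min (η * ‖x‖ / 4) (min (1 / ((1 / κ1 + 1 / ‖x‖) * Real.exp M))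
      (κ2 * Real.exp (-M) * ‖x‖ / Real.exp (φ x).re)) := by positivity
  filter_upwards [Ioo_mem_nhdsGT hs0] with s hs z hz
  obtain ⟨hs1, hs2⟩ := hs
  rw [lt_min_iff, lt_min_iff] at hs2
  obtain ⟨hsa, hsb, hsc⟩ := hs2
  have hz1 : ‖z‖ < 1 := by simpa using hz.1
  have hzs : s < ‖z‖ := by
    by_contra h
    exact hz.2 (Or.inl (by simpa using not_lt.1 h))
  have hzx : s < ‖z - x‖ := by
    by_contra h
    exact hz.2 (Or.inr (by simpa [dist_eq_norm] using not_lt.1 h))
  have hz0 : 0 < ‖z‖ := hs1.trans hzs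
  have hzne : z ≠ 0 := norm_pos_iff.mp hz0
  rw [Bds.norm_eq hX hzne]
  obtain ⟨hu, hl⟩ := hM1 z hz1
  have hEu : Real.exp (φ z).re ≤ Real.exp M := Real.exp_le_exp.2 hu
  have hEl : Real.exp (-M) ≤ Real.exp (φ z).re := Real.exp_le_exp.2 hl
  have hE : 0 < Real.exp (φ z).re := Real.exp_pos _
  constructor
  · by_cases hk : ‖z - x‖ < κ2
    · have h3 := h1' (by simpa [dist_eq_norm] using hk)
      have h4 : 0 ≤ (1 - η) * (Real.exp (φ x).re / ‖x‖) := by
        have : 0 < Real.exp (φ x).re / ‖x‖ := by positivity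
        nlinarith
      have h5 : s / ‖x‖ * ((1 - η) * (Real.exp (φ x).re / ‖x‖)) <
          ‖z - x‖ / ‖x‖ * (Real.exp (φ z).re / ‖z‖) := by
        have h6 : s / ‖x‖ < ‖z - x‖ / ‖x‖ := by gcongr
        have h7 : 0 < s / ‖x‖ := by positivity
        calc s / ‖x‖ * ((1 - η) * (Real.exp (φ x).re / ‖x‖)) ≤
            ‖z - x‖ / ‖x‖ * ((1 - η) * (Real.exp (φ x).re / ‖x‖)) := by gcongr
          _ < ‖z - x‖ / ‖x‖ * (Real.exp (φ z).re / ‖z‖) := by
            apply mul_lt_mul_of_pos_left h3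
            exact h7.trans h6
      calc (1 - η) * s * Real.exp (φ x).re / ‖x‖ ^ 2 =
          s / ‖x‖ * ((1 - η) * (Real.exp (φ x).re / ‖x‖)) := by
            field_simp
        _ < ‖z - x‖ / ‖x‖ * (Real.exp (φ z).re / ‖z‖) := h5
        _ = ‖z - x‖ / (‖x‖ * ‖z‖) * Real.exp (φ z).re := by
            field_simp
    · have hk' := not_lt.1 hk
      have h3 : (1 - η) * s * Real.exp (φ x).re / ‖x‖ ^ 2 <
          κ2 * Real.exp (-M) / ‖x‖ := by
        have h4 : s * Real.exp (φ x).re < κ2 * Real.exp (-M) * ‖x‖ := by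
          rwa [lt_div_iff₀ (Real.exp_pos _)] at hsc
        rw [div_lt_div_iff₀ (by positivity) hx0]
        have h5 : (1 - η) * s * Real.exp (φ x).re ≤ s * Real.exp (φ x).re := by
          have : 0 < s * Real.exp (φ x).re := by positivity
          nlinarith
        calc (1 - η) * s * Real.exp (φ x).re * ‖x‖ ≤ s * Real.exp (φ x).re * ‖x‖ := by gcongr
          _ < κ2 * Real.exp (-M) * ‖x‖ * ‖x‖ := by gcongr
          _ = κ2 * Real.exp (-M) * ‖x‖ ^ 2 := by ring
      refine h3.trans_le ?_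
      calc κ2 * Real.exp (-M) / ‖x‖ ≤ ‖z - x‖ * Real.exp (φ z).re / ‖x‖ := by gcongr
        _ = ‖z - x‖ / (‖x‖ * 1) * Real.exp (φ z).re := by
            field_simp
        _ ≤ ‖z - x‖ / (‖x‖ * ‖z‖) * Real.exp (φ z).re := by gcongr
  · have h2 : ‖z - x‖ / (‖x‖ * ‖z‖) ≤ 1 / ‖z‖ + 1 / ‖x‖ := by
      have h3 : ‖z - x‖ ≤ ‖z‖ + ‖x‖ := norm_sub_le _ _
      calc ‖z - x‖ / (‖x‖ * ‖z‖) ≤ (‖z‖ + ‖x‖) / (‖x‖ * ‖z‖) := by gcongr
        _ = 1 / ‖z‖ + 1 / ‖x‖ := by
            field_simp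
            ring
    by_cases hk : ‖z‖ < κ1
    · have h3 := h0' (by simpa [dist_eq_norm] using hk)
      have h4 : 1 / ‖z‖ < 1 / s := one_div_lt_one_div_of_lt hs1 hzs
      calc ‖z - x‖ / (‖x‖ * ‖z‖) * Real.exp (φ z).re ≤
          (1 / ‖z‖ + 1 / ‖x‖) * Real.exp (φ z).re := by gcongr
        _ ≤ (1 / ‖z‖ + 1 / ‖x‖) * (1 + η / 2) := by gcongr
        _ < (1 / s + 1 / ‖x‖) * (1 + η / 2) := by gcongr
        _ ≤ (1 + η) / s := by
            have h5 : 1 / ‖x‖ * (1 + η / 2) ≤ η / 2 / s := by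
              rw [one_div, inv_mul_eq_div, div_le_div_iff₀ hx0 hs1]
              nlinarith
            have h6 : (1 + η) / s = 1 / s * (1 + η / 2) + η / 2 / s := by
              field_simp
              ring
            rw [h6, add_mul]
            linarith
    · have hk' := not_lt.1 hk
      calc ‖z - x‖ / (‖x‖ * ‖z‖) * Real.exp (φ z).re ≤
          (1 / ‖z‖ + 1 / ‖x‖) * Real.exp (φ z).re := by gcongr
        _ ≤ (1 / κ1 + 1 / ‖x‖) * Real.exp M := by gcongr
        _ < 1 / s := by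
            rw [lt_one_div (by positivity) hs1]
            exact hsb
        _ ≤ (1 + η) / s := by gcongr; linarith

end Gol
end Pool.Agent.MultS

end

section

/-!
# Goluzin's inequality for two points: assembly of the area inequality
-/

set_option autoImplicit false

open Complex Metric Set Filter Topology MeasureTheory
open scoped ENNReal ComplexConjugate

namespace Pool.Agent.MultS
namespace Gol
namespace Core'

lemma isOpen_Ds (x : ℂ) (s : ℝ) : IsOpen (Ds x s) :=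
  isOpen_ball.sdiff (isClosed_closedBall.union isClosed_closedBall)

lemma mem_Ds {x : ℂ} {s : ℝ} {z : ℂ} (hz : z ∈ Ds x s) : ‖z‖ < 1 ∧ s < ‖z‖ ∧ s < ‖z - x‖ := by
  obtain ⟨h1, h2⟩ := hz
  simp only [mem_union, mem_closedBall, dist_eq_norm, sub_zero, not_or, not_le] at h2
  exact ⟨by simpa using h1, h2.1, h2.2⟩

lemma Ds_sub (x : ℂ) (s : ℝ) : Ds x s ⊆ ball 0 1 := fun _ h => h.1

/-- pointwise inequality -/
lemma point (A H G τ : ℂ) :
    ‖A‖ ^ 2 + (2 * (conj A * H) + 2 * (conj τ * (conj G * H)) -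
      ((‖τ‖ ^ 2 : ℝ) : ℂ) * (conj G * G)).re ≤ ‖A + H‖ ^ 2 := by
  have h1 : ‖A + H‖ ^ 2 = ‖A‖ ^ 2 + 2 * (conj A * H).re + ‖H‖ ^ 2 := by
    rw [← Complex.normSq_eq_norm_sq, ← Complex.normSq_eq_norm_sq, ← Complex.normSq_eq_norm_sq,
      Complex.normSq_apply, Complex.normSq_apply, Complex.normSq_apply]
    simp only [Complex.add_re, Complex.add_im, Complex.mul_re, Complex.conj_re, Complex.conj_im]
    ring
  have h2 : 0 ≤ ‖H - τ * G‖ ^ 2 := by positivity
  have h3 : ‖H - τ * G‖ ^ 2 = ‖H‖ ^ 2 - 2 * (conj τ * (conj G * H)).re +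
      ‖τ‖ ^ 2 * (conj G * G).re := by
    rw [← Complex.normSq_eq_norm_sq, ← Complex.normSq_eq_norm_sq, ← Complex.normSq_eq_norm_sq,
      Complex.normSq_apply, Complex.normSq_apply, Complex.normSq_apply]
    simp only [Complex.sub_re, Complex.sub_im, Complex.mul_re, Complex.mul_im, Complex.conj_re,
      Complex.conj_im]
    ring
  have h4 : (2 * (conj A * H) + 2 * (conj τ * (conj G * H)) -
      ((‖τ‖ ^ 2 : ℝ) : ℂ) * (conj G * G)).re =
      2 * (conj A * H).re + 2 * (conj τ * (conj G * H)).re - ‖τ‖ ^ 2 * (conj G * G).re := by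
    rw [Complex.sub_re, Complex.add_re, Complex.re_ofReal_mul]
    have : (2 : ℂ) = ((2 : ℝ) : ℂ) := by norm_num
    rw [this, Complex.re_ofReal_mul, Complex.re_ofReal_mul]
  rw [h1, h4]
  linarith [h3 ▸ h2]

/-- the kernel function is holomorphic near the closed disk -/
lemma log_diff (y : ℂ) (hy0 : 0 < ‖y‖) (hy1 : ‖y‖ < 1) :
    (1 < 1 / ‖y‖) ∧ DifferentiableOn ℂ (fun z : ℂ => -Complex.log (1 - conj y * z))
      (ball 0 (1 / ‖y‖)) ∧
    ∀ z ∈ ball (0 : ℂ) (1 / ‖y‖), HasDerivAt (fun z : ℂ => -Complex.log (1 - conj y * z))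
      (GG y z) z := by
  have hmem : ∀ z ∈ ball (0 : ℂ) (1 / ‖y‖), 1 - conj y * z ∈ slitPlane := by
    intro z hz
    left
    have h1 : ‖conj y * z‖ < 1 := by
      rw [norm_mul, Complex.norm_conj]
      have : ‖z‖ < 1 / ‖y‖ := by simpa using hz
      calc ‖y‖ * ‖z‖ < ‖y‖ * (1 / ‖y‖) := by gcongr
        _ = 1 := by field_simp
    have h2 := (Complex.abs_re_le_norm (conj y * z)).trans_lt h1
    have h3 := (abs_lt.1 h2).2
    simp only [Complex.sub_re, Complex.one_re]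
    linarith
  have hd : ∀ z ∈ ball (0 : ℂ) (1 / ‖y‖), HasDerivAt (fun z : ℂ => -Complex.log (1 - conj y * z))
      (GG y z) z := by
    intro z hz
    have h1 : HasDerivAt (fun z : ℂ => 1 - conj y * z) (-(conj y)) z := by
      simpa using ((hasDerivAt_id z).const_mul (conj y)).const_sub 1
    have h2 := (h1.clog (hmem z hz)).neg
    have h3 : GG y z = -(-(conj y) / (1 - conj y * z)) := by unfold GG; ring
    rw [h3]
    exact h2
  exact ⟨by rw [one_lt_div hy0]; exact hy1, fun z hz => (hd z hz).differentiableAt.differentiableWithinAt, hd⟩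

/-- area of the kernel -/
lemma GG_area (hY : CrY) (y : ℂ) (hy0 : 0 < ‖y‖) (hy1 : ‖y‖ < 1) :
    ∫ z in ball (0 : ℂ) 1, conj (GG y z) * GG y z =
      ((-(Real.pi * Real.log (1 - ‖y‖ ^ 2)) : ℝ) : ℂ) := by
  obtain ⟨h1, h2, h3⟩ := log_diff y hy0 hy1
  have h4 := hY _ _ h1 h2 y hy1
  have h5 : ∫ z in ball (0 : ℂ) 1, conj (GG y z) * GG y z =
      ∫ z in ball (0 : ℂ) 1, conj (GG y z) * deriv (fun z : ℂ => -Complex.log (1 - conj y * z)) z := by
    apply setIntegral_congr_fun measurableSet_ball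
    intro z hz
    have : z ∈ ball (0 : ℂ) (1 / ‖y‖) := ball_subset_ball h1.le hz
    simp only []
    rw [(h3 z this).deriv]
  rw [h5, h4]
  have h6 : (1 : ℂ) - conj y * y = ((1 - ‖y‖ ^ 2 : ℝ) : ℂ) := by
    rw [mul_comm, Complex.mul_conj, Complex.normSq_eq_norm_sq]
    push_cast; ring
  have h7 : (0:ℝ) < 1 - ‖y‖ ^ 2 := by nlinarith [norm_nonneg y]
  simp only [mul_zero, sub_zero, Complex.log_one, neg_zero]
  rw [h6, ← Complex.ofReal_log h7.le]
  push_cast; ring

lemma GG_cont (y : ℂ) (hy1 : ‖y‖ < 1) : ContinuousOn (GG y) (closedBall 0 1) := by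
  unfold GG
  apply ContinuousOn.div continuousOn_const (by fun_prop)
  intro z hz h
  have h1 : ‖conj y * z‖ < 1 := by
    rw [norm_mul, Complex.norm_conj]
    have : ‖z‖ ≤ 1 := by simpa using hz
    nlinarith [norm_nonneg y, norm_nonneg z]
  have h2 : conj y * z = 1 := by
    have := sub_eq_zero.1 h
    exact this.symm
  rw [h2] at h1
  simp at h1

/-- continuous function times integrable one -/
lemma integ_mul (u v : ℂ → ℂ) (hu : IntegrableOn u (ball (0:ℂ) 1))
    (hv : ContinuousOn v (closedBall (0:ℂ) 1)) :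
    IntegrableOn (fun z => u z * v z) (ball (0 : ℂ) 1) := by
  obtain ⟨C, hC⟩ := (isCompact_closedBall (0:ℂ) 1).exists_bound_of_continuousOn hv
  apply Integrable.mul_bdd (c := C) hu
  · exact (hv.mono ball_subset_closedBall).aestronglyMeasurable measurableSet_ball
  · rw [ae_restrict_iff' measurableSet_ball]
    exact ae_of_all _ fun z hz => hC z (ball_subset_closedBall hz)

lemma integ_cont (v : ℂ → ℂ) (hv : ContinuousOn v (closedBall (0:ℂ) 1)) :
    IntegrableOn v (ball (0 : ℂ) 1) :=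
  (hv.integrableOn_compact (isCompact_closedBall 0 1)).mono_set ball_subset_closedBall

lemma integ_inv (hI : InvR) (x : ℂ) : IntegrableOn (fun z : ℂ => conj (1 / (z - x)))
    (ball (0 : ℂ) 1) := by
  have h := hI x
  refine Integrable.mono' h ?_ ?_
  · apply Measurable.aestronglyMeasurable
    exact Complex.continuous_conj.measurable.comp (measurable_const.div (measurable_id.sub_const x))
  · apply ae_of_all
    intro z
    rw [Complex.norm_conj, norm_div, norm_one]

/-- the family of inequalities -/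
lemma ineq (hL : LowA) (hU : Upp) (f : ℂ → ℂ) (P : ℝ) (hN : Nice f P) (x : ℂ) (hx0 : 0 < ‖x‖)
    (hx1 : ‖x‖ < 1) (φ : ℂ → ℂ) (hφ : DifferentiableOn ℂ φ (ball 0 P)) (y τ : ℂ) (hy1 : ‖y‖ < 1)
    (hrel : ∀ z ∈ ball (0 : ℂ) P, z ≠ 0 → 1 / f z - 1 / f x = (1 / z - 1 / x) * Complex.exp (φ z))
    (s δ R : ℝ) (hs0 : 0 < s) (hs1 : s < ‖x‖)
    (hc1 : 1 + 1 / ‖x‖ < 1 / s - 1 / ‖x‖) (hc2 : s / (‖x‖ * (‖x‖ - s)) < 1 / ‖x‖ - 1)
    (hδ : 0 < δ) (hR : δ < R)
    (hb : ∀ z ∈ Ds x s, δ < ‖(1 / z - 1 / x) * Complex.exp (φ z)‖ ∧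
        ‖(1 / z - 1 / x) * Complex.exp (φ z)‖ < R) :
    2 * Real.pi * Real.log ((1 / s - 1 / ‖x‖) / (s / (‖x‖ * (‖x‖ - s)))) +
      Real.pi * Real.log (1 - ‖x‖ ^ 2) +
      (∫ z in Ds x s, (2 * (conj (AA x z) * deriv φ z) + 2 * (conj τ * (conj (GG y z) * deriv φ z)) -
      ((‖τ‖ ^ 2 : ℝ) : ℂ) * (conj (GG y z) * GG y z))).re ≤ 2 * Real.pi * Real.log (R / δ) := by
  obtain ⟨hP, hf, hinj, hf0, -⟩ := hN
  have hsub : Ds x s ⊆ ball 0 P := fun z hz => ball_subset_ball hP.le (Ds_sub x s hz)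
  have hz0 : ∀ z ∈ Ds x s, z ≠ 0 := by
    intro z hz h
    have := (mem_Ds hz).2.1
    rw [h, norm_zero] at this
    linarith
  have hzx : ∀ z ∈ Ds x s, z - x ≠ 0 := by
    intro z hz h
    have := (mem_Ds hz).2.2
    rw [h, norm_zero] at this
    linarith
  have hH : DifferentiableOn ℂ (deriv φ) (ball 0 P) := hφ.deriv isOpen_ball
  have hcl : closedBall (0:ℂ) 1 ⊆ ball 0 P := closedBall_subset_ball hP
  have hHc : ContinuousOn (deriv φ) (closedBall (0:ℂ) 1) := hH.continuousOn.mono hcl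
  have hmD := (isOpen_Ds x s).measurableSet
  -- bounded pieces
  have hxne : x ≠ 0 := norm_pos_iff.1 hx0
  have hAc : ContinuousOn (AA x) (Ds x s) := by
    unfold AA
    apply ContinuousOn.sub
    · exact ContinuousOn.div continuousOn_const (by fun_prop) hzx
    · exact ContinuousOn.div continuousOn_const (by fun_prop) hz0
  have hAb : ∀ z ∈ Ds x s, ‖AA x z‖ ≤ 2 / s := by
    intro z hz
    obtain ⟨-, h2, h3⟩ := mem_Ds hz
    unfold AA
    calc ‖1 / (z - x) - 1 / z‖ ≤ ‖1 / (z - x)‖ + ‖1 / z‖ := norm_sub_le _ _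
      _ = 1 / ‖z - x‖ + 1 / ‖z‖ := by simp
      _ ≤ 1 / s + 1 / s := by gcongr
      _ = 2 / s := by ring
  obtain ⟨M, hM⟩ := (isCompact_closedBall (0:ℂ) 1).exists_bound_of_continuousOn hHc
  obtain ⟨M', hM'⟩ := (isCompact_closedBall (0:ℂ) 1).exists_bound_of_continuousOn (GG_cont y hy1)
  have hDcl : Ds x s ⊆ closedBall 0 1 := fun z hz => ball_subset_closedBall (Ds_sub x s hz)
  have hvol : volume (Ds x s) < ⊤ := lt_of_le_of_lt (measure_mono (Ds_sub x s)) measure_ball_lt_top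
  have hfin : IsFiniteMeasure (volume.restrict (Ds x s)) := ⟨by simpa using hvol⟩
  have hHc' : ContinuousOn (deriv φ) (Ds x s) := hHc.mono hDcl
  have hGc' : ContinuousOn (GG y) (Ds x s) := (GG_cont y hy1).mono hDcl
  have hbdd : ∀ (u : ℂ → ℝ), ContinuousOn u (Ds x s) → (∃ C, ∀ z ∈ Ds x s, ‖u z‖ ≤ C) →
      IntegrableOn u (Ds x s) := by
    intro u hu ⟨C, hC⟩
    refine Integrable.mono' (integrable_const C) (hu.aestronglyMeasurable hmD) ?_
    rw [ae_restrict_iff' hmD]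
    exact ae_of_all _ hC
  have hbddC : ∀ (u : ℂ → ℂ), ContinuousOn u (Ds x s) → (∃ C, ∀ z ∈ Ds x s, ‖u z‖ ≤ C) →
      IntegrableOn u (Ds x s) := by
    intro u hu ⟨C, hC⟩
    refine Integrable.mono' (integrable_const C) (hu.aestronglyMeasurable hmD) ?_
    rw [ae_restrict_iff' hmD]
    exact ae_of_all _ hC
  have hi1 : IntegrableOn (fun z => ‖AA x z‖ ^ 2) (Ds x s) := by
    apply hbdd _ (hAc.norm.pow 2)
    refine ⟨(2 / s) ^ 2, fun z hz => ?_⟩
    show ‖‖AA x z‖ ^ 2‖ ≤ _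
    rw [Real.norm_of_nonneg (by positivity)]
    exact pow_le_pow_left₀ (norm_nonneg _) (hAb z hz) 2
  have hi2 : IntegrableOn (fun z => ‖AA x z + deriv φ z‖ ^ 2) (Ds x s) := by
    apply hbdd _ ((hAc.add hHc').norm.pow 2)
    refine ⟨(2 / s + M) ^ 2, fun z hz => ?_⟩
    show ‖‖AA x z + deriv φ z‖ ^ 2‖ ≤ _
    rw [Real.norm_of_nonneg (by positivity)]
    apply pow_le_pow_left₀ (norm_nonneg _)
    exact (norm_add_le _ _).trans (add_le_add (hAb z hz) (hM z (hDcl hz)))
  have hcA : ContinuousOn (fun z => conj (AA x z)) (Ds x s) :=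
    Complex.continuous_conj.comp_continuousOn hAc
  have hcG : ContinuousOn (fun z => conj (GG y z)) (Ds x s) :=
    Complex.continuous_conj.comp_continuousOn hGc'
  have hM0 : ∀ z ∈ Ds x s, ‖deriv φ z‖ ≤ M := fun z hz => hM z (hDcl hz)
  have hM0' : ∀ z ∈ Ds x s, ‖GG y z‖ ≤ M' := fun z hz => hM' z (hDcl hz)
  set g : ℂ → ℂ := fun z => 2 * (conj (AA x z) * deriv φ z) +
      2 * (conj τ * (conj (GG y z) * deriv φ z)) -
      ((‖τ‖ ^ 2 : ℝ) : ℂ) * (conj (GG y z) * GG y z) with hg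
  have hi3 : IntegrableOn g (Ds x s) := by
    apply Integrable.sub
    · apply Integrable.add
      · apply Integrable.const_mul
        apply hbddC _ (hcA.mul hHc')
        refine ⟨2 / s * M, fun z hz => ?_⟩
        show ‖conj (AA x z) * deriv φ z‖ ≤ _
        rw [norm_mul, Complex.norm_conj]
        exact mul_le_mul (hAb z hz) (hM0 z hz) (norm_nonneg _) (by positivity)
      · apply Integrable.const_mul
        apply Integrable.const_mul
        apply hbddC _ (hcG.mul hHc')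
        refine ⟨M' * M, fun z hz => ?_⟩
        show ‖conj (GG y z) * deriv φ z‖ ≤ _
        rw [norm_mul, Complex.norm_conj]
        exact mul_le_mul (hM0' z hz) (hM0 z hz) (norm_nonneg _) ((norm_nonneg _).trans (hM0' z hz))
    · apply Integrable.const_mul
      apply hbddC _ (hcG.mul hGc')
      refine ⟨M' * M', fun z hz => ?_⟩
      show ‖conj (GG y z) * GG y z‖ ≤ _
      rw [norm_mul, Complex.norm_conj]
      exact mul_le_mul (hM0' z hz) (hM0' z hz) (norm_nonneg _)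
        ((norm_nonneg _).trans (hM0' z hz))
  -- lower bound
  have hlow := hL x s hx0 hx1 hs0 hs1 hc1 hc2
  rw [← ofReal_integral_eq_lintegral_ofReal hi1 (ae_of_all _ fun z => sq_nonneg _)] at hlow
  have hlow' : 2 * Real.pi * Real.log ((1 / s - 1 / ‖x‖) / (s / (‖x‖ * (‖x‖ - s)))) +
      Real.pi * Real.log (1 - ‖x‖ ^ 2) ≤ ∫ z in Ds x s, ‖AA x z‖ ^ 2 :=
    (ENNReal.ofReal_le_ofReal_iff (integral_nonneg fun z => by positivity)).1 hlow
  -- upper bound
  set m : ℂ → ℂ := fun z => (1 / z - 1 / x) * Complex.exp (φ z) with hm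
  have hmder : ∀ z ∈ Ds x s, HasDerivAt m
      (-(1 / z ^ 2) * Complex.exp (φ z) + (1 / z - 1 / x) * (Complex.exp (φ z) * deriv φ z)) z := by
    intro z hz
    have h1 : HasDerivAt (fun z : ℂ => 1 / z - 1 / x) (-(1 / z ^ 2)) z := by
      have := (hasDerivAt_inv (hz0 z hz)).sub_const (1 / x)
      simpa [one_div] using this
    have h2 : HasDerivAt φ (deriv φ z) z :=
      (hφ.differentiableAt (isOpen_ball.mem_nhds (hsub hz))).hasDerivAt
    exact h1.mul h2.cexp
  have hquot : ∀ z ∈ Ds x s, deriv m z / m z = AA x z + deriv φ z := by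
    intro z hz
    rw [(hmder z hz).deriv, hm]
    have e0 := Complex.exp_ne_zero (φ z)
    have e1 := hz0 z hz
    have e2 := hzx z hz
    have e3 : 1 / z - 1 / x ≠ 0 := by
      rw [div_sub_div _ _ e1 hxne]
      apply div_ne_zero _ (mul_ne_zero e1 hxne)
      intro h
      apply e2
      linear_combination -h
    have e4 : x - z ≠ 0 := by
      intro h; apply e2; linear_combination -h
    unfold AA
    rw [div_eq_iff (mul_ne_zero e3 e0)]
    field_simp
    ring
  have hmdiff : DifferentiableOn ℂ m (Ds x s) := fun z hz =>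
    (hmder z hz).differentiableAt.differentiableWithinAt
  have hminj : InjOn m (Ds x s) := by
    intro z hz w hw h
    simp only [hm] at h
    rw [← hrel z (hsub hz) (hz0 z hz), ← hrel w (hsub hw) (hz0 w hw)] at h
    have h1 : 1 / f z = 1 / f w := by linear_combination h
    have h2 : f z = f w := by
      have := congrArg (fun t => t⁻¹) h1
      simpa using this
    exact hinj (hsub hz) (hsub hw) h2
  have hup := hU m (Ds x s) δ R (isOpen_Ds x s) hmdiff hminj hδ hR hb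
  have hup1 : ∫⁻ z in Ds x s, ENNReal.ofReal (‖deriv m z / m z‖ ^ 2) =
      ∫⁻ z in Ds x s, ENNReal.ofReal (‖AA x z + deriv φ z‖ ^ 2) := by
    apply setLIntegral_congr_fun hmD
    intro z hz
    simp only []
    rw [hquot z hz]
  rw [hup1, ← ofReal_integral_eq_lintegral_ofReal hi2 (ae_of_all _ fun z => sq_nonneg _)] at hup
  have hlogpos : 0 ≤ 2 * Real.pi * Real.log (R / δ) := by
    have : 0 < Real.log (R / δ) := Real.log_pos (by rw [one_lt_div hδ]; exact hR)
    have := Real.pi_pos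
    positivity
  have hup' : ∫ z in Ds x s, ‖AA x z + deriv φ z‖ ^ 2 ≤ 2 * Real.pi * Real.log (R / δ) :=
    (ENNReal.ofReal_le_ofReal_iff hlogpos).1 hup
  -- combine
  have hre : (∫ z in Ds x s, g z).re = ∫ z in Ds x s, (g z).re := by
    have := integral_re hi3
    simpa using this.symm
  have hi3r : IntegrableOn (fun z => (g z).re) (Ds x s) := hi3.re
  have hcomb : (∫ z in Ds x s, ‖AA x z‖ ^ 2) + (∫ z in Ds x s, (g z).re) ≤
      ∫ z in Ds x s, ‖AA x z + deriv φ z‖ ^ 2 := by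
    rw [← integral_add hi1 hi3r]
    apply integral_mono (hi1.add hi3r) hi2
    intro z
    exact point (AA x z) (deriv φ z) (GG y z) τ
  rw [hre]
  linarith

end Core'

open Core' in
/-- [Core] -/
theorem prfCore (hI : InvR) (hX : CrX) (hY : CrY) (hL : LowA) (hU : Upp) (hB : Bds)
    (hD : LimD) : Core := by
  intro f P hN x hx0 hx1 φ hφ hφ0 hrel y hy0 hy1
  have hN' := hN
  obtain ⟨hP, hf, hinj, hf0, -⟩ := hN'
  have hxne : x ≠ 0 := norm_pos_iff.1 hx0
  set ℓy : ℝ := -Real.log (1 - ‖y‖ ^ 2) with hℓy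
  have hℓy0 : 0 < ℓy := by
    have h1 : 0 < 1 - ‖y‖ ^ 2 := by nlinarith
    have h2 : 1 - ‖y‖ ^ 2 < 1 := by nlinarith
    have := Real.log_neg h1 h2
    rw [hℓy]; linarith
  set τ : ℂ := φ y / (ℓy : ℂ) with hτ
  have hH : DifferentiableOn ℂ (deriv φ) (ball 0 P) := hφ.deriv isOpen_ball
  have hcl : closedBall (0:ℂ) 1 ⊆ ball 0 P := closedBall_subset_ball hP
  have hHc : ContinuousOn (deriv φ) (closedBall (0:ℂ) 1) := hH.continuousOn.mono hcl
  have hGc := GG_cont y hy1
  have hcGc : ContinuousOn (fun z => conj (GG y z)) (closedBall (0:ℂ) 1) :=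
    Complex.continuous_conj.comp_continuousOn hGc
  set g : ℂ → ℂ := fun z => 2 * (conj (AA x z) * deriv φ z) +
      2 * (conj τ * (conj (GG y z) * deriv φ z)) -
      ((‖τ‖ ^ 2 : ℝ) : ℂ) * (conj (GG y z) * GG y z) with hg
  have iX : IntegrableOn (fun z => conj (1 / (z - x)) * deriv φ z) (ball (0:ℂ) 1) :=
    integ_mul _ _ (integ_inv hI x) hHc
  have i0 : IntegrableOn (fun z => conj (1 / (z - 0)) * deriv φ z) (ball (0:ℂ) 1) :=
    integ_mul _ _ (integ_inv hI 0) hHc
  have iA : IntegrableOn (fun z => conj (AA x z) * deriv φ z) (ball (0:ℂ) 1) := by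
    refine (iX.sub i0).congr (ae_of_all _ fun z => ?_)
    simp only [Pi.sub_apply, AA, map_sub, sub_zero]
    ring
  have iG : IntegrableOn (fun z => conj (GG y z) * deriv φ z) (ball (0:ℂ) 1) :=
    integ_cont _ (hcGc.mul hHc)
  have iGG : IntegrableOn (fun z => conj (GG y z) * GG y z) (ball (0:ℂ) 1) :=
    integ_cont _ (hcGc.mul hGc)
  have ig : IntegrableOn g (ball (0:ℂ) 1) :=
    ((iA.const_mul 2).add ((iG.const_mul (conj τ)).const_mul 2)).sub (iGG.const_mul _)
  have vA : ∫ z in ball (0:ℂ) 1, conj (AA x z) * deriv φ z = -(Real.pi : ℂ) * φ x := by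
    have e1 : ∫ z in ball (0:ℂ) 1, conj (AA x z) * deriv φ z =
        (∫ z in ball (0:ℂ) 1, conj (1 / (z - x)) * deriv φ z) -
        ∫ z in ball (0:ℂ) 1, conj (1 / (z - 0)) * deriv φ z := by
      rw [← integral_sub iX i0]
      apply integral_congr_ae
      refine ae_of_all _ fun z => ?_
      simp only [AA, map_sub, sub_zero]
      ring
    rw [e1, hX φ P hP hφ x hx1, hX φ P hP hφ 0 (by simp), hφ0]
    ring
  have vG : ∫ z in ball (0:ℂ) 1, conj (GG y z) * deriv φ z = (Real.pi : ℂ) * φ y := by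
    rw [hY φ P hP hφ y hy1, hφ0, sub_zero]
  have vGG := GG_area hY y hy0 hy1
  have vg : ∫ z in ball (0:ℂ) 1, g z = -2 * (Real.pi : ℂ) * φ x +
      2 * (conj τ * ((Real.pi : ℂ) * φ y)) -
      ((‖τ‖ ^ 2 : ℝ) : ℂ) * ((Real.pi * ℓy : ℝ) : ℂ) := by
    have jA : IntegrableOn (fun z => 2 * (conj (AA x z) * deriv φ z)) (ball (0:ℂ) 1) :=
      iA.const_mul 2
    have jG : IntegrableOn (fun z => 2 * (conj τ * (conj (GG y z) * deriv φ z)))
        (ball (0:ℂ) 1) := (iG.const_mul (conj τ)).const_mul 2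
    have jGG : IntegrableOn (fun z => ((‖τ‖ ^ 2 : ℝ) : ℂ) * (conj (GG y z) * GG y z))
        (ball (0:ℂ) 1) := iGG.const_mul _
    have jAG : IntegrableOn (fun z => 2 * (conj (AA x z) * deriv φ z) +
      2 * (conj τ * (conj (GG y z) * deriv φ z))) (ball (0:ℂ) 1) := jA.add jG
    have e1 : ∫ z in ball (0:ℂ) 1, g z = (∫ z in ball (0:ℂ) 1, (2 * (conj (AA x z) * deriv φ z) +
      2 * (conj τ * (conj (GG y z) * deriv φ z)))) -
      ∫ z in ball (0:ℂ) 1, ((‖τ‖ ^ 2 : ℝ) : ℂ) * (conj (GG y z) * GG y z) :=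
      integral_sub jAG jGG
    have e2 : (∫ z in ball (0:ℂ) 1, (2 * (conj (AA x z) * deriv φ z) +
      2 * (conj τ * (conj (GG y z) * deriv φ z)))) =
      (∫ z in ball (0:ℂ) 1, 2 * (conj (AA x z) * deriv φ z)) +
      ∫ z in ball (0:ℂ) 1, 2 * (conj τ * (conj (GG y z) * deriv φ z)) := integral_add jA jG
    rw [e1, e2, integral_const_mul, integral_const_mul, integral_const_mul, integral_const_mul,
      vA, vG, vGG, hℓy]
    push_cast
    ring
  have hlim := hD x g ig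
  have hlimre : Tendsto (fun s : ℝ => (∫ z in Ds x s, g z).re) (𝓝[>] 0)
      (𝓝 (∫ z in ball (0 : ℂ) 1, g z).re) := (Complex.continuous_re.tendsto _).comp hlim
  have hpi := Real.pi_pos
  -- the inequality for each η
  have hη : ∀ η : ℝ, 0 < η → η < 1 →
      Real.pi * Real.log (1 - ‖x‖ ^ 2) + (∫ z in ball (0 : ℂ) 1, g z).re ≤
        2 * Real.pi * (Real.log ((1 + η) / (1 - η)) - (φ x).re) := by
    intro η hη0 hη1
    have hev1 : ∀ᶠ s in 𝓝[>] (0:ℝ), 0 < s := self_mem_nhdsWithin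
    have t0 : Tendsto (fun s : ℝ => s) (𝓝[>] 0) (𝓝 0) := nhdsWithin_le_nhds
    have hev2 : ∀ᶠ s in 𝓝[>] (0:ℝ), s < ‖x‖ := t0.eventually_lt_const hx0
    have hev3 : ∀ᶠ s in 𝓝[>] (0:ℝ), s < 1 / (1 + 2 / ‖x‖) :=
      t0.eventually_lt_const (by positivity)
    have hev4 : ∀ᶠ s in 𝓝[>] (0:ℝ), s / (‖x‖ * (‖x‖ - s)) < 1 / ‖x‖ - 1 := by
      have t1 : Tendsto (fun s : ℝ => s / (‖x‖ * (‖x‖ - s))) (𝓝[>] 0)
          (𝓝 (0 / (‖x‖ * (‖x‖ - 0)))) := by
        apply Tendsto.div t0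
        · exact (tendsto_const_nhds.sub t0).const_mul _
        · rw [sub_zero]; positivity
      apply t1.eventually_lt_const
      rw [zero_div, sub_pos, one_lt_div hx0]
      exact hx1
    have hev5 : ∀ᶠ s in 𝓝[>] (0:ℝ), s < 1 / (2 * (Real.exp (φ x).re / ‖x‖ ^ 2 + 1)) :=
      t0.eventually_lt_const (by positivity)
    have hev6 := hB φ P hP hφ hφ0 x hx0 hx1 η hη0 hη1
    have hev : ∀ᶠ s in 𝓝[>] (0:ℝ), Real.pi * Real.log (1 - ‖x‖ ^ 2) + (∫ z in Ds x s, g z).re ≤
        2 * Real.pi * (Real.log ((1 + η) / (1 - η)) - (φ x).re -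
          2 * Real.log (1 - s / ‖x‖)) := by
      filter_upwards [hev1, hev2, hev3, hev4, hev5, hev6] with s h1 h2 h3 h4 h5 h6
      have hs1 : s < 1 := h2.trans hx1
      set δ : ℝ := (1 - η) * s * Real.exp (φ x).re / ‖x‖ ^ 2 with hδ
      have hη' : 0 < 1 - η := by linarith
      have hδ0 : 0 < δ := by positivity
      set E : ℝ := Real.exp (φ x).re / ‖x‖ ^ 2 with hE
      have hE0 : 0 < E := by positivity
      have hδE : δ = (1 - η) * s * E := by rw [hδ, hE]; ring
      have hδR : δ < (1 + η) / s := by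
        rw [lt_div_iff₀ h1, hδE]
        have hsE : s * E < 1 := by
          have : s * (2 * (E + 1)) < 1 := by
            rwa [lt_div_iff₀ (by positivity)] at h5
          nlinarith
        have : (1 - η) * s * E * s = (1 - η) * (s * E) * s := by ring
        rw [this]
        have h8 : (1 - η) * (s * E) < 1 := by nlinarith [mul_pos h1 hE0]
        nlinarith [mul_pos hη' (mul_pos h1 hE0)]
      have hc1 : 1 + 1 / ‖x‖ < 1 / s - 1 / ‖x‖ := by
        have : 1 + 2 / ‖x‖ < 1 / s := by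
          rw [lt_div_iff₀ (by positivity)] at h3
          rw [lt_div_iff₀ h1]; linarith
        have e : 2 / ‖x‖ = 1 / ‖x‖ + 1 / ‖x‖ := by ring
        linarith
      have key := ineq hL hU f P hN x hx0 hx1 φ hφ y τ hy1 hrel s δ ((1 + η) / s) h1 h2 hc1 h4
        hδ0 hδR h6
      have hxs : 0 < ‖x‖ - s := by linarith
      have hxs' : 0 < 1 - s / ‖x‖ := by
        rw [sub_pos, div_lt_one hx0]; exact h2
      have hq1 : (1 + η) / s / δ = (1 + η) / (1 - η) * (‖x‖ ^ 2 / s ^ 2) *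
          Real.exp (-(φ x).re) := by
        rw [hδ, Real.exp_neg]
        field_simp
      have hq2 : (1 / s - 1 / ‖x‖) / (s / (‖x‖ * (‖x‖ - s))) =
          (‖x‖ ^ 2 / s ^ 2) * (1 - s / ‖x‖) ^ 2 := by
        field_simp
      have hlog1 : Real.log ((1 + η) / s / δ) = Real.log ((1 + η) / (1 - η)) +
          Real.log (‖x‖ ^ 2 / s ^ 2) - (φ x).re := by
        rw [hq1, Real.log_mul (by positivity) (by positivity), Real.log_exp,
          Real.log_mul (by positivity) (by positivity)]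
        ring
      have hlog2 : Real.log ((1 / s - 1 / ‖x‖) / (s / (‖x‖ * (‖x‖ - s)))) =
          Real.log (‖x‖ ^ 2 / s ^ 2) + 2 * Real.log (1 - s / ‖x‖) := by
        rw [hq2, Real.log_mul (by positivity) (by positivity), Real.log_pow]
        push_cast; ring
      rw [hlog1, hlog2] at key
      nlinarith
    have hR : Tendsto (fun s : ℝ => 2 * Real.pi * (Real.log ((1 + η) / (1 - η)) - (φ x).re -
          2 * Real.log (1 - s / ‖x‖))) (𝓝[>] 0)
        (𝓝 (2 * Real.pi * (Real.log ((1 + η) / (1 - η)) - (φ x).re -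
          2 * Real.log (1 - 0 / ‖x‖)))) := by
      apply Tendsto.const_mul
      apply Tendsto.const_sub
      apply Tendsto.const_mul
      apply Tendsto.log
      · exact (t0.div_const _).const_sub 1
      · simp
    have hL' := hlimre.const_add (Real.pi * Real.log (1 - ‖x‖ ^ 2))
    have := le_of_tendsto_of_tendsto hL' hR hev
    simpa using this
  -- η → 0
  have hfin : Real.pi * Real.log (1 - ‖x‖ ^ 2) + (∫ z in ball (0 : ℂ) 1, g z).re ≤
        2 * Real.pi * (0 - (φ x).re) := by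
    have t0 : Tendsto (fun η : ℝ => η) (𝓝[>] 0) (𝓝 0) := nhdsWithin_le_nhds
    have t1 : Tendsto (fun η : ℝ => 2 * Real.pi * (Real.log ((1 + η) / (1 - η)) - (φ x).re))
        (𝓝[>] 0) (𝓝 (2 * Real.pi * (Real.log ((1 + 0) / (1 - 0)) - (φ x).re))) := by
      apply Tendsto.const_mul
      apply Tendsto.sub_const
      apply Tendsto.log
      · apply Tendsto.div (t0.const_add 1) (t0.const_sub 1)
        norm_num
      · norm_num
    have t2 := ge_of_tendsto t1 (b := Real.pi * Real.log (1 - ‖x‖ ^ 2) +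
      (∫ z in ball (0 : ℂ) 1, g z).re) (by
        filter_upwards [self_mem_nhdsWithin, t0.eventually_lt_const one_pos] with η h1 h2
        exact hη η h1 h2)
    simpa using t2
  rw [vg] at hfin
  have hτre : (conj τ * ((Real.pi : ℂ) * φ y)).re = Real.pi * (‖φ y‖ ^ 2 / ℓy) := by
    rw [hτ, map_div₀, Complex.conj_ofReal]
    have : conj (φ y) / (ℓy : ℂ) * ((Real.pi : ℂ) * φ y) =
        ((Real.pi * (‖φ y‖ ^ 2 / ℓy) : ℝ) : ℂ) := by
      have e : conj (φ y) * φ y = ((‖φ y‖ ^ 2 : ℝ) : ℂ) := by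
        rw [mul_comm, Complex.mul_conj, Complex.normSq_eq_norm_sq]
      have : conj (φ y) / (ℓy : ℂ) * ((Real.pi : ℂ) * φ y) =
        (Real.pi : ℂ) * ((conj (φ y) * φ y) / (ℓy : ℂ)) := by ring
      rw [this, e]; push_cast; ring
    rw [this, Complex.ofReal_re]
  have hτn : ‖τ‖ ^ 2 = ‖φ y‖ ^ 2 / ℓy ^ 2 := by
    rw [hτ, norm_div, Complex.norm_real, Real.norm_of_nonneg hℓy0.le, div_pow]
  have hre : (-2 * (Real.pi : ℂ) * φ x + 2 * (conj τ * ((Real.pi : ℂ) * φ y)) -
      ((‖τ‖ ^ 2 : ℝ) : ℂ) * ((Real.pi * ℓy : ℝ) : ℂ)).re =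
      -2 * Real.pi * (φ x).re + 2 * (Real.pi * (‖φ y‖ ^ 2 / ℓy)) -
      Real.pi * (‖φ y‖ ^ 2 / ℓy) := by
    rw [Complex.sub_re, Complex.add_re]
    have e1 : (-2 * (Real.pi : ℂ) * φ x).re = -2 * Real.pi * (φ x).re := by
      have : -2 * (Real.pi : ℂ) * φ x = ((-2 * Real.pi : ℝ) : ℂ) * φ x := by push_cast; ring
      rw [this, Complex.re_ofReal_mul]
    have e2 : (2 * (conj τ * ((Real.pi : ℂ) * φ y))).re =
        2 * (conj τ * ((Real.pi : ℂ) * φ y)).re := by
      have : (2 : ℂ) = ((2 : ℝ) : ℂ) := by norm_num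
      rw [this, Complex.re_ofReal_mul]
    rw [e1, e2, hτre, ← Complex.ofReal_mul, Complex.ofReal_re, hτn]
    have : ‖φ y‖ ^ 2 / ℓy ^ 2 * (Real.pi * ℓy) = Real.pi * (‖φ y‖ ^ 2 / ℓy) := by
      field_simp
    rw [this]
  rw [hre] at hfin
  have hq : Real.pi * (‖φ y‖ ^ 2 / ℓy) ≤ Real.pi * (-Real.log (1 - ‖x‖ ^ 2)) := by linarith
  have hq' : ‖φ y‖ ^ 2 / ℓy ≤ -Real.log (1 - ‖x‖ ^ 2) := le_of_mul_le_mul_left hq hpi
  rw [div_le_iff₀ hℓy0] at hq'
  calc ‖φ y‖ ^ 2 ≤ -Real.log (1 - ‖x‖ ^ 2) * ℓy := hq'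
    _ = Real.log (1 - ‖x‖ ^ 2) * Real.log (1 - ‖y‖ ^ 2) := by rw [hℓy]; ring

end Gol
end Pool.Agent.MultS

end

section

/-!
# Item CrY: the reproducing formula in the Dirichlet space
-/

set_option autoImplicit false

open Complex Metric Set Filter Topology MeasureTheory
open scoped ENNReal ComplexConjugate

namespace Pool.Agent.MultS
namespace Gol
namespace CrY

theorem den_ne (y z : ℂ) (hy : ‖y‖ < 1) (hz : ‖z‖ ≤ 1) : 1 - conj y * z ≠ 0 := by
  intro h
  have h1 : conj y * z = 1 := (sub_eq_zero.mp h).symm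
  have h2 : ‖conj y * z‖ = 1 := by rw [h1]; simp
  rw [norm_mul, RCLike.norm_conj] at h2
  have h3 : ‖y‖ * ‖z‖ ≤ ‖y‖ * 1 := mul_le_mul_of_nonneg_left hz (norm_nonneg _)
  linarith

theorem cont_g (φ : ℂ → ℂ) (P : ℝ) (hP : 1 < P) (hφ : DifferentiableOn ℂ φ (ball 0 P)) (y : ℂ)
    (hy : ‖y‖ < 1) : ContinuousOn (fun z => conj (GG y z) * deriv φ z) (closedBall 0 1) := by
  have h1 : ContinuousOn (deriv φ) (closedBall 0 1) :=
    ((hφ.deriv isOpen_ball).continuousOn).mono (closedBall_subset_ball hP)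
  have h2 : ContinuousOn (fun z => conj (GG y z)) (closedBall 0 1) := by
    unfold GG
    apply ContinuousOn.comp (t := univ) Complex.continuous_conj.continuousOn _ (mapsTo_univ _ _)
    apply ContinuousOn.div continuousOn_const (by fun_prop)
    intro z hz
    exact den_ne y z hy (by simpa using hz)
  exact h2.mul h1

theorem inner (φ : ℂ → ℂ) (P : ℝ) (hP : 1 < P) (hφ : DifferentiableOn ℂ φ (ball 0 P)) (y : ℂ)
    (hy : ‖y‖ < 1) (r : ℝ) (hr : 0 < r) (hr1 : r < 1) :
    ∫ θ in (-Real.pi)..Real.pi, conj (GG y (circleMap 0 r θ)) * deriv φ (circleMap 0 r θ) =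
      2 * Real.pi * y * deriv φ (y * r ^ 2) := by
  set F : ℝ → ℂ := fun θ => conj (GG y (circleMap 0 r θ)) * deriv φ (circleMap 0 r θ) with hF
  have hper : Function.Periodic F (2 * Real.pi) := by
    intro θ
    simp only [hF]
    rw [periodic_circleMap 0 r θ]
  have h1 := hper.intervalIntegral_add_eq (-Real.pi) 0
  have e1 : -Real.pi + 2 * Real.pi = Real.pi := by ring
  rw [e1, zero_add] at h1
  rw [h1]
  have hw : y * (r : ℂ) ^ 2 ∈ ball (0 : ℂ) r := by
    rw [mem_ball_zero_iff, norm_mul, norm_pow, Complex.norm_real, Real.norm_eq_abs,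
      abs_of_pos hr]
    have : ‖y‖ * r ^ 2 ≤ 1 * r ^ 2 := mul_le_mul_of_nonneg_right hy.le (by positivity)
    nlinarith
  have hd : DifferentiableOn ℂ (fun z => y * deriv φ z) (ball 0 P) :=
    (hφ.deriv isOpen_ball).const_mul y
  have hc : DiffContOnCl ℂ (fun z => y * deriv φ z) (ball 0 r) := by
    apply DifferentiableOn.diffContOnCl
    rw [closure_ball _ hr.ne']
    exact hd.mono (closedBall_subset_ball (by linarith))
  have hC := hc.circleIntegral_sub_inv_smul hw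
  rw [circleIntegral] at hC
  have h2 : ∀ θ : ℝ, deriv (circleMap 0 r) θ • ((circleMap 0 r θ - y * (r : ℂ) ^ 2)⁻¹ •
      (y * deriv φ (circleMap 0 r θ))) = I * F θ := by
    intro θ
    set z := circleMap 0 r θ with hz
    have hnz : ‖z‖ = r := by
      rw [hz, norm_circleMap_zero, abs_of_pos hr]
    have hz0 : z ≠ 0 := by
      intro h0
      rw [h0, norm_zero] at hnz
      exact hr.ne hnz
    have hzz : z * conj z = (r : ℂ) ^ 2 := by
      rw [Complex.mul_conj, Complex.normSq_eq_norm_sq, hnz]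
      push_cast
      rfl
    have hden : z - y * (r : ℂ) ^ 2 ≠ 0 := by
      intro h0
      have h3 : z = y * (r : ℂ) ^ 2 := sub_eq_zero.mp h0
      have h4 := mem_ball_zero_iff.mp hw
      rw [← h3, hnz] at h4
      exact lt_irrefl _ h4
    have hden2 : 1 - y * conj z ≠ 0 := by
      intro h0
      apply hden
      have : z * (1 - y * conj z) = 0 := by rw [h0, mul_zero]
      calc z - y * (r : ℂ) ^ 2 = z - y * (z * conj z) := by rw [hzz]
        _ = z * (1 - y * conj z) := by ring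
        _ = 0 := this
    have hG : conj (GG y z) = y / (1 - y * conj z) := by
      unfold GG
      simp
    rw [deriv_circleMap, ← hz]
    simp only [hF, smul_eq_mul]
    rw [← hz, hG]
    have h5 : y / (1 - y * conj z) = y * z / (z - y * (r : ℂ) ^ 2) := by
      rw [div_eq_div_iff hden2 hden]
      rw [← hzz]
      ring
    rw [h5]
    field_simp
  rw [intervalIntegral.integral_congr (g := fun θ => I * F θ) (fun θ _ => h2 θ),
    intervalIntegral.integral_const_mul] at hC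
  have h6 : I * ∫ θ in (0 : ℝ)..2 * Real.pi, F θ =
      I * (2 * Real.pi * y * deriv φ (y * r ^ 2)) := by
    rw [hC, smul_eq_mul]
    ring
  exact mul_left_cancel₀ I_ne_zero h6

theorem outer (φ : ℂ → ℂ) (P : ℝ) (hP : 1 < P) (hφ : DifferentiableOn ℂ φ (ball 0 P)) (y : ℂ)
    (hy : ‖y‖ < 1) :
    ∫ r in (0 : ℝ)..1, (r : ℂ) * (2 * Real.pi * y * deriv φ (y * r ^ 2)) =
      (Real.pi : ℂ) * (φ y - φ 0) := by
  have hin : ∀ r ∈ uIcc (0 : ℝ) 1, y * (r : ℂ) ^ 2 ∈ ball (0 : ℂ) P := by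
    intro r hr
    rw [uIcc_of_le zero_le_one] at hr
    rw [mem_ball_zero_iff, norm_mul, norm_pow, Complex.norm_real, Real.norm_eq_abs,
      abs_of_nonneg hr.1]
    have h1 : r ^ 2 ≤ 1 := by nlinarith [hr.1, hr.2]
    have h2 : ‖y‖ * r ^ 2 ≤ ‖y‖ * 1 := mul_le_mul_of_nonneg_left h1 (norm_nonneg _)
    linarith
  have hder : ∀ r ∈ uIcc (0 : ℝ) 1, HasDerivAt (fun r : ℝ => (Real.pi : ℂ) * φ (y * (r : ℂ) ^ 2))
      ((r : ℂ) * (2 * Real.pi * y * deriv φ (y * r ^ 2))) r := by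
    intro r hr
    have h1 : HasDerivAt φ (deriv φ (y * (r : ℂ) ^ 2)) (y * (r : ℂ) ^ 2) :=
      ((hφ.differentiableAt (isOpen_ball.mem_nhds (hin r hr)))).hasDerivAt
    have h2 : HasDerivAt (fun t : ℂ => y * t ^ 2) (y * (2 * (r : ℂ))) (r : ℂ) := by
      have := (hasDerivAt_pow 2 (r : ℂ)).const_mul y
      simpa using this
    have h3 : HasDerivAt (fun t : ℂ => (Real.pi : ℂ) * φ (y * t ^ 2))
        ((Real.pi : ℂ) * (deriv φ (y * (r : ℂ) ^ 2) * (y * (2 * (r : ℂ))))) (r : ℂ) :=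
      (HasDerivAt.comp (r : ℂ) h1 h2).const_mul _
    have h4 := h3.comp_ofReal
    convert h4 using 1
    ring
  have hcont : ContinuousOn (fun r : ℝ => (r : ℂ) * (2 * Real.pi * y * deriv φ (y * r ^ 2)))
      (uIcc (0 : ℝ) 1) := by
    have h1 : ContinuousOn (deriv φ) (ball 0 P) := (hφ.deriv isOpen_ball).continuousOn
    have h2 : ContinuousOn (fun r : ℝ => deriv φ (y * (r : ℂ) ^ 2)) (uIcc (0 : ℝ) 1) :=
      h1.comp (by fun_prop) hin
    exact (by fun_prop : ContinuousOn (fun r : ℝ => (r : ℂ)) (uIcc (0 : ℝ) 1)).mul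
      (continuousOn_const.mul h2)
  rw [intervalIntegral.integral_eq_sub_of_hasDerivAt hder hcont.intervalIntegrable]
  simp
  ring

theorem polar (g : ℂ → ℂ) (hg : ContinuousOn g (closedBall 0 1)) :
    ∫ z in ball (0 : ℂ) 1, g z =
      ∫ r in (0 : ℝ)..1, (r : ℂ) * ∫ θ in (-Real.pi)..Real.pi, g (circleMap 0 r θ) := by
  have hcm : ∀ p : ℝ × ℝ, Complex.polarCoord.symm p = circleMap 0 p.1 p.2 := by
    intro p
    rw [Complex.polarCoord_symm_apply, circleMap, zero_add, Complex.exp_mul_I]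
    push_cast
    rfl
  have hcc : Continuous fun p : ℝ × ℝ => circleMap 0 p.1 p.2 := by
    unfold circleMap
    fun_prop
  have hint : IntegrableOn (fun p : ℝ × ℝ => (p.1 : ℂ) * g (circleMap 0 p.1 p.2))
      (Ioo (0 : ℝ) 1 ×ˢ Ioo (-Real.pi) Real.pi) (volume.prod volume) := by
    have h1 : ContinuousOn (fun p : ℝ × ℝ => (p.1 : ℂ) * g (circleMap 0 p.1 p.2))
        (Icc (0 : ℝ) 1 ×ˢ Icc (-Real.pi) Real.pi) := by
      apply ContinuousOn.mul (by fun_prop)
      apply hg.comp hcc.continuousOn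
      intro p hp
      rw [mem_closedBall_zero_iff, norm_circleMap_zero, abs_of_nonneg hp.1.1]
      exact hp.1.2
    have h2 : IsCompact (Icc (0 : ℝ) 1 ×ˢ Icc (-Real.pi) Real.pi) :=
      isCompact_Icc.prod isCompact_Icc
    exact (h1.integrableOn_compact h2).mono_set
      (prod_mono Ioo_subset_Icc_self Ioo_subset_Icc_self)
  rw [← integral_indicator measurableSet_ball, ← Complex.integral_comp_polarCoord_symm]
  have h1 : ∀ p ∈ polarCoord.target, p.1 • (ball (0 : ℂ) 1).indicator g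
      (Complex.polarCoord.symm p) = (Iio (1 : ℝ) ×ˢ (univ : Set ℝ)).indicator
        (fun p : ℝ × ℝ => (p.1 : ℂ) * g (circleMap 0 p.1 p.2)) p := by
    intro p hp
    rw [polarCoord_target] at hp
    have hp1 : 0 < p.1 := hp.1
    rw [hcm]
    by_cases hlt : p.1 < 1
    · rw [indicator_of_mem, indicator_of_mem, Complex.real_smul]
      · exact ⟨hlt, mem_univ _⟩
      · rw [mem_ball_zero_iff, norm_circleMap_zero, abs_of_pos hp1]
        exact hlt
    · rw [indicator_of_notMem, indicator_of_notMem, smul_zero]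
      · intro h
        exact hlt h.1
      · intro h
        rw [mem_ball_zero_iff, norm_circleMap_zero, abs_of_pos hp1] at h
        exact hlt h
  rw [setIntegral_congr_fun polarCoord.open_target.measurableSet h1,
    setIntegral_indicator (measurableSet_Iio.prod MeasurableSet.univ), polarCoord_target]
  have h2 : (Ioi (0 : ℝ) ×ˢ Ioo (-Real.pi) Real.pi) ∩ (Iio (1 : ℝ) ×ˢ (univ : Set ℝ)) =
      Ioo (0 : ℝ) 1 ×ˢ Ioo (-Real.pi) Real.pi := by
    rw [prod_inter_prod, inter_univ]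
    rfl
  rw [h2, Measure.volume_eq_prod, setIntegral_prod _ hint]
  rw [intervalIntegral.integral_of_le zero_le_one, integral_Ioc_eq_integral_Ioo]
  apply setIntegral_congr_fun measurableSet_Ioo
  intro r _
  simp only
  rw [integral_const_mul, intervalIntegral.integral_of_le (by linarith [Real.pi_pos]),
    integral_Ioc_eq_integral_Ioo]

end CrY

theorem prfCrY : CrY := by
  intro φ P hP hφ y hy
  rw [CrY.polar _ (CrY.cont_g φ P hP hφ y hy), ← CrY.outer φ P hP hφ y hy]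
  rw [intervalIntegral.integral_of_le zero_le_one, intervalIntegral.integral_of_le zero_le_one,
    integral_Ioc_eq_integral_Ioo, integral_Ioc_eq_integral_Ioo]
  apply setIntegral_congr_fun measurableSet_Ioo
  intro r hr
  simp only
  rw [CrY.inner φ P hP hφ y hy r hr.1 hr.2]

end Gol
end Pool.Agent.MultS

end

section

/-!
# The area of a disk for the density `1 / ‖w‖ ^ 2`
-/

set_option autoImplicit false

open Complex Metric Set Filter Topology MeasureTheory
open scoped ENNReal ComplexConjugate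

namespace Pool.Agent.MultS
namespace Gol
namespace DiscE

lemma norm_pos_of (c : ℂ) (r : ℝ) (hr : |r| < ‖c‖) (θ : ℝ) : c + circleMap 0 r θ ≠ 0 := by
  intro h
  have h1 : c = -circleMap 0 r θ := eq_neg_of_add_eq_zero_left h
  have h2 : ‖c‖ = |r| := by rw [h1, norm_neg, norm_circleMap_zero]
  linarith

lemma kernel (c z : ℂ) (h : c + z ≠ 0) :
    ((c - z) / (c + z)).re = (‖c‖ ^ 2 - ‖z‖ ^ 2) * (1 / ‖c + z‖ ^ 2) := by
  have h1 : (0 : ℝ) < normSq (c + z) := normSq_pos.mpr h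
  rw [Complex.div_re, ← Complex.normSq_eq_norm_sq, ← Complex.normSq_eq_norm_sq,
    ← Complex.normSq_eq_norm_sq]
  field_simp
  simp only [Complex.normSq_apply, Complex.sub_re, Complex.sub_im, Complex.add_re, Complex.add_im]
  ring

lemma cont (c : ℂ) (r : ℝ) (hr : |r| < ‖c‖) :
    Continuous fun θ : ℝ => 1 / ‖c + circleMap 0 r θ‖ ^ 2 := by
  refine continuous_const.div (by fun_prop) fun θ => ?_
  have := norm_pos_of c r hr θ
  positivity

lemma mean (c : ℂ) (r : ℝ) (hr : |r| < ‖c‖) :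
    ∫ θ in (0:ℝ)..(2 * Real.pi), 1 / ‖c + circleMap 0 r θ‖ ^ 2
      = 2 * Real.pi / (‖c‖ ^ 2 - r ^ 2) := by
  have hc0 : c ≠ 0 := by
    intro h
    rw [h, norm_zero] at hr
    exact absurd hr (not_lt.mpr (abs_nonneg r))
  have hden : 0 < ‖c‖ ^ 2 - r ^ 2 := by
    have := sq_lt_sq.mpr (show |r| < |‖c‖| by rwa [abs_norm])
    linarith
  set H : ℂ → ℂ := fun z => (c - z) / (c + z) with hH
  have hHd : DifferentiableOn ℂ H (ball 0 ‖c‖) := by
    intro z hz
    apply DifferentiableAt.differentiableWithinAt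
    refine DifferentiableAt.div (by fun_prop) (by fun_prop) ?_
    intro h
    rw [mem_ball_zero_iff] at hz
    have h1 : c = -z := eq_neg_of_add_eq_zero_left h
    rw [h1, norm_neg] at hz
    exact lt_irrefl _ hz
  have h1 : DiffContOnCl ℂ H (ball 0 |r|) := by
    apply DifferentiableOn.diffContOnCl
    exact hHd.mono (closure_ball_subset_closedBall.trans (closedBall_subset_ball hr))
  have h2 := h1.circleAverage
  rw [Real.circleAverage_def] at h2
  have h0 : H 0 = 1 := by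
    rw [hH]
    simp [hc0]
  rw [h0] at h2
  have hcont : Continuous fun θ : ℝ => H (circleMap 0 r θ) := by
    refine hHd.continuousOn.comp_continuous (continuous_circleMap 0 r) fun θ => ?_
    rw [mem_ball_zero_iff, norm_circleMap_zero]
    exact hr
  have h4 : ∫ θ in (0:ℝ)..(2 * Real.pi), H (circleMap 0 r θ) = (2 * Real.pi : ℝ) • (1 : ℂ) := by
    rw [← h2, smul_smul, mul_inv_cancel₀ (by positivity), one_smul]
  have h5 : ∫ θ in (0:ℝ)..(2 * Real.pi), (H (circleMap 0 r θ)).re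
      = (∫ θ in (0:ℝ)..(2 * Real.pi), H (circleMap 0 r θ)).re := by
    have := Complex.reCLM.intervalIntegral_comp_comm (hcont.intervalIntegrable (0:ℝ) (2 * Real.pi))
      (μ := volume)
    simpa using this
  have h6 : ∀ θ : ℝ, (H (circleMap 0 r θ)).re
      = (‖c‖ ^ 2 - r ^ 2) * (1 / ‖c + circleMap 0 r θ‖ ^ 2) := by
    intro θ
    rw [hH, kernel c _ (norm_pos_of c r hr θ), norm_circleMap_zero, sq_abs]
  simp only [h6] at h5
  rw [intervalIntegral.integral_const_mul, h4] at h5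
  rw [eq_div_iff hden.ne', mul_comm, h5]
  simp

lemma inner (c : ℂ) (r : ℝ) (hr : |r| < ‖c‖) :
    ∫⁻ θ in Ioo (-Real.pi) Real.pi, ENNReal.ofReal (1 / ‖c + circleMap 0 r θ‖ ^ 2)
      = ENNReal.ofReal (2 * Real.pi / (‖c‖ ^ 2 - r ^ 2)) := by
  have hp := Real.pi_pos
  rw [restrict_Ioo_eq_restrict_Ioc, ← ofReal_integral_eq_lintegral_ofReal]
  · rw [← intervalIntegral.integral_of_le (by linarith), ← mean c r hr]
    have hper : Function.Periodic (fun θ : ℝ => 1 / ‖c + circleMap 0 r θ‖ ^ 2)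
        (2 * Real.pi) := fun θ => by
      simp only [periodic_circleMap 0 r θ]
    have h1 := hper.intervalIntegral_add_eq (-Real.pi) 0
    have e1 : -Real.pi + 2 * Real.pi = Real.pi := by ring
    rw [e1, zero_add] at h1
    rw [h1]
  · exact (intervalIntegrable_iff_integrableOn_Ioc_of_le (by linarith)).mp
      ((cont c r hr).intervalIntegrable _ _)
  · exact Filter.Eventually.of_forall (fun θ => by positivity)

lemma outer (c : ℂ) (hc : 1 < ‖c‖) :
    ∫⁻ r in Ioo (0:ℝ) 1, ENNReal.ofReal (r * (2 * Real.pi / (‖c‖ ^ 2 - r ^ 2)))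
      = ENNReal.ofReal (-(Real.pi * Real.log (1 - 1 / ‖c‖ ^ 2))) := by
  have hp := Real.pi_pos
  have hpos : ∀ r ∈ Icc (0:ℝ) 1, 0 < ‖c‖ ^ 2 - r ^ 2 := by
    intro r hr
    have h1 : r ^ 2 ≤ 1 := by nlinarith [hr.1, hr.2]
    nlinarith
  have hcont : ContinuousOn (fun r : ℝ => r * (2 * Real.pi / (‖c‖ ^ 2 - r ^ 2))) (Icc 0 1) := by
    refine continuousOn_id.mul (continuousOn_const.div (by fun_prop) fun r hr => (hpos r hr).ne')
  have hii : IntervalIntegrable (fun r : ℝ => r * (2 * Real.pi / (‖c‖ ^ 2 - r ^ 2))) volume 0 1 :=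
    ContinuousOn.intervalIntegrable (by rwa [uIcc_of_le zero_le_one])
  rw [restrict_Ioo_eq_restrict_Ioc, ← ofReal_integral_eq_lintegral_ofReal]
  · congr 1
    rw [← intervalIntegral.integral_of_le zero_le_one]
    have hd : ∀ r ∈ uIcc (0:ℝ) 1, HasDerivAt (fun r : ℝ =>
        -(Real.pi * Real.log (‖c‖ ^ 2 - r ^ 2))) (r * (2 * Real.pi / (‖c‖ ^ 2 - r ^ 2))) r := by
      intro r hr
      rw [uIcc_of_le zero_le_one] at hr
      have h1 : HasDerivAt (fun r : ℝ => ‖c‖ ^ 2 - r ^ 2) (-(2 * r)) r := by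
        simpa using (hasDerivAt_pow 2 r).const_sub (‖c‖ ^ 2)
      have h2 := ((h1.log (hpos r hr).ne').const_mul Real.pi).neg
      have h3 := (hpos r hr).ne'
      have h4 : r * (2 * Real.pi / (‖c‖ ^ 2 - r ^ 2)) =
          -(Real.pi * (-(2 * r) / (‖c‖ ^ 2 - r ^ 2))) := by
        field_simp
      rw [h4]
      exact h2
    rw [intervalIntegral.integral_eq_sub_of_hasDerivAt hd hii]
    have hc2 : 0 < ‖c‖ ^ 2 := by positivity
    have hc3 : 0 < ‖c‖ ^ 2 - 1 := by nlinarith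
    have e1 : (1 : ℝ) - 1 / ‖c‖ ^ 2 = (‖c‖ ^ 2 - 1) / ‖c‖ ^ 2 := by field_simp
    rw [e1, Real.log_div hc3.ne' hc2.ne']
    norm_num
    ring
  · exact (intervalIntegrable_iff_integrableOn_Ioc_of_le zero_le_one).mp hii
  · refine (ae_restrict_iff' measurableSet_Ioc).mpr (Filter.Eventually.of_forall fun r hr => ?_)
    have := hpos r ⟨hr.1.le, hr.2⟩
    have h1 := hr.1
    positivity

lemma symm_eq (p : ℝ × ℝ) : Complex.polarCoord.symm p = circleMap 0 p.1 p.2 := by
  rw [Complex.polarCoord_symm_apply, circleMap_zero, Complex.exp_mul_I]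
  push_cast
  rfl

end DiscE

/-- [DiscE] -/
theorem prfDiscE : DiscE := by
  intro c hc
  have hp := Real.pi_pos
  set F : ℂ → ℝ≥0∞ := (ball (0:ℂ) 1).indicator
    (fun u : ℂ => ENNReal.ofReal (1 / ‖c + u‖ ^ 2)) with hF
  have hFm : Measurable F := by
    apply Measurable.indicator _ measurableSet_ball
    fun_prop
  rw [← lintegral_indicator measurableSet_ball, ← hF, ← Complex.lintegral_comp_polarCoord_symm]
  change ∫⁻ p in Ioi (0 : ℝ) ×ˢ Ioo (-Real.pi) Real.pi,
    ENNReal.ofReal p.1 • F (Complex.polarCoord.symm p) = _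
  rw [Measure.volume_eq_prod]
  have hm : Measurable (fun p : ℝ × ℝ => ENNReal.ofReal p.1 • F (Complex.polarCoord.symm p)) := by
    have h1 : Measurable (fun p : ℝ × ℝ => Complex.polarCoord.symm p) := by
      simp only [DiscE.symm_eq, circleMap_zero]
      fun_prop
    exact (measurable_fst.ennreal_ofReal).smul (hFm.comp h1)
  rw [setLIntegral_prod _ hm.aemeasurable]
  have h2 : ∀ r ∈ Ioi (0:ℝ), ∫⁻ θ in Ioo (-Real.pi) Real.pi,
      ENNReal.ofReal r • F (Complex.polarCoord.symm (r, θ)) =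
      (Ioo (0:ℝ) 1).indicator (fun r => ENNReal.ofReal (r * (2 * Real.pi / (‖c‖ ^ 2 - r ^ 2)))) r := by
    intro r hr
    rw [mem_Ioi] at hr
    by_cases h1 : r < 1
    · have h3 : |r| < ‖c‖ := by
        rw [abs_of_pos hr]
        exact h1.trans hc
      rw [indicator_of_mem (show r ∈ Ioo (0:ℝ) 1 from ⟨hr, h1⟩), ENNReal.ofReal_mul hr.le,
        ← DiscE.inner c r h3, ← lintegral_const_mul]
      · apply lintegral_congr
        intro θ
        rw [smul_eq_mul, DiscE.symm_eq, hF, indicator_of_mem]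
        rw [mem_ball_zero_iff, norm_circleMap_zero, abs_of_pos hr]
        exact h1
      · exact (DiscE.cont c r h3).measurable.ennreal_ofReal
    · rw [indicator_of_notMem (fun h => h1 h.2)]
      rw [← lintegral_zero]
      apply lintegral_congr
      intro θ
      rw [smul_eq_mul, DiscE.symm_eq, hF, indicator_of_notMem, mul_zero]
      rw [mem_ball_zero_iff, norm_circleMap_zero, abs_of_pos hr]
      exact h1
  rw [setLIntegral_congr_fun measurableSet_Ioi h2, setLIntegral_indicator measurableSet_Ioo]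
  rw [show Ioo (0:ℝ) 1 ∩ Ioi 0 = Ioo 0 1 from inter_eq_left.mpr (fun r hr => hr.1)]
  exact DiscE.outer c hc

end Gol
end Pool.Agent.MultS

end

section

/-!
# Goluzin's inequality for two points: the two point distortion theorem
-/

set_option autoImplicit false

open Complex Metric Set Filter Topology MeasureTheory
open scoped ENNReal ComplexConjugate

namespace Pool.Agent.MultS
namespace Gol
namespace Fin'

lemma dil_nice (f : ℂ → ℂ) (hf : Sc f) (ρ : ℝ) (h0 : 0 < ρ) (h1 : ρ < 1) :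
    Nice (fun z => f (ρ * z) / ρ) (1 / ρ) := by
  obtain ⟨hd, hi, hf0, hf1⟩ := hf
  have hρ : (ρ : ℂ) ≠ 0 := by exact_mod_cast h0.ne'
  have hmap : ∀ z ∈ ball (0 : ℂ) (1 / ρ), (ρ : ℂ) * z ∈ ball (0 : ℂ) 1 := by
    intro z hz
    rw [mem_ball_zero_iff, norm_mul, Complex.norm_real, Real.norm_of_nonneg h0.le]
    have : ‖z‖ < 1 / ρ := by simpa using hz
    rw [lt_div_iff₀ h0] at this
    linarith
  refine ⟨by rw [one_lt_div h0]; exact h1, ?_, ?_, ?_, ?_⟩
  · apply DifferentiableOn.div_const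
    exact hd.comp (by fun_prop) hmap
  · intro z hz w hw h
    simp only [] at h
    have h2 : f (ρ * z) = f (ρ * w) := by
      field_simp at h
      exact h
    have h3 := hi (hmap z hz) (hmap w hw) h2
    exact mul_left_cancel₀ hρ h3
  · simp [hf0]
  · have hd0 : HasDerivAt f 1 ((ρ : ℂ) * 0) := by
      rw [mul_zero, ← hf1]
      exact (hd.differentiableAt (isOpen_ball.mem_nhds (by simp))).hasDerivAt
    have h2 : HasDerivAt (fun z : ℂ => (ρ : ℂ) * z) ρ 0 := by
      simpa using (hasDerivAt_id (0 : ℂ)).const_mul (ρ : ℂ)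
    have h3 := (hd0.comp (0 : ℂ) h2).div_const (ρ : ℂ)
    have h4 : HasDerivAt (fun z : ℂ => f (ρ * z) / ρ) (1 * ρ / ρ) 0 := h3
    rw [h4.deriv]
    field_simp

/-- The inequality for a function which is univalent on a neighbourhood of the closed disk. -/
lemma nice_ineq (hPhi : PhiEx) (hC : Core) (f : ℂ → ℂ) (P : ℝ) (hN : Nice f P) (t : ℝ)
    (ht : t < 1) (x y : ℂ) (hx0 : 0 < ‖x‖) (hy0 : 0 < ‖y‖) (hx : ‖x‖ ≤ t) (hy : ‖y‖ ≤ t) :
    (1 - t ^ 2) * (‖x - y‖ * (‖f x‖ * ‖f y‖)) ≤ ‖f x - f y‖ * (‖x‖ * ‖y‖) := by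
  have hN' := hN
  obtain ⟨hP, hd, hi, hf0, -⟩ := hN'
  have hx1 : ‖x‖ < 1 := hx.trans_lt ht
  have hy1 : ‖y‖ < 1 := hy.trans_lt ht
  have ht0 : 0 < t := hx0.trans_le hx
  obtain ⟨φ, hφ, hφ0, hrel⟩ := hPhi f P hN x hx0 hx1
  have hcore := hC f P hN x hx0 hx1 φ hφ hφ0 hrel y hy0 hy1
  have hxP : x ∈ ball (0:ℂ) P := by
    rw [mem_ball_zero_iff]; linarith
  have hyP : y ∈ ball (0:ℂ) P := by
    rw [mem_ball_zero_iff]; linarith
  have h0P : (0:ℂ) ∈ ball (0:ℂ) P := by simp; linarith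
  have hxne : x ≠ 0 := norm_pos_iff.1 hx0
  have hyne : y ≠ 0 := norm_pos_iff.1 hy0
  have hfx : f x ≠ 0 := by
    intro h; exact hxne (hi hxP h0P (by rw [h, hf0]))
  have hfy : f y ≠ 0 := by
    intro h; exact hyne (hi hyP h0P (by rw [h, hf0]))
  have hrel' := hrel y hyP hyne
  have hT : 0 < 1 - t ^ 2 := by nlinarith
  set T : ℝ := Real.log (1 - t ^ 2) with hT'
  have hTneg : T ≤ 0 := Real.log_nonpos hT.le (by nlinarith)
  have hmono : ∀ u : ℝ, 0 < u → u ≤ t → T ≤ Real.log (1 - u ^ 2) ∧ Real.log (1 - u ^ 2) ≤ 0 := by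
    intro u hu hut
    have h1 : 1 - t ^ 2 ≤ 1 - u ^ 2 := by nlinarith
    exact ⟨Real.log_le_log hT h1, Real.log_nonpos (by linarith) (by nlinarith)⟩
  obtain ⟨a1, a2⟩ := hmono _ hx0 hx
  obtain ⟨b1, b2⟩ := hmono _ hy0 hy
  have hsq : ‖φ y‖ ^ 2 ≤ T ^ 2 := by
    refine hcore.trans ?_
    nlinarith
  have hn : ‖φ y‖ ≤ -T := by
    have := sq_le_sq.1 hsq
    rw [abs_of_nonneg (norm_nonneg _), abs_of_nonpos hTneg] at this
    exact this
  have hre : T ≤ (φ y).re := by
    have := (abs_le.1 (Complex.abs_re_le_norm (φ y))).1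
    linarith
  have hexp : 1 - t ^ 2 ≤ ‖Complex.exp (φ y)‖ := by
    rw [Complex.norm_exp]
    calc 1 - t ^ 2 = Real.exp T := by rw [hT', Real.exp_log hT]
      _ ≤ Real.exp (φ y).re := Real.exp_le_exp.2 hre
  have e1 : ‖1 / f y - 1 / f x‖ = ‖f x - f y‖ / (‖f x‖ * ‖f y‖) := by
    rw [div_sub_div _ _ hfy hfx, norm_div, norm_mul]
    congr 1
    · congr 1; ring
    · ring
  have e2 : ‖1 / y - 1 / x‖ = ‖x - y‖ / (‖x‖ * ‖y‖) := by
    rw [div_sub_div _ _ hyne hxne, norm_div, norm_mul]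
    congr 1
    · congr 1; ring
    · ring
  have e3 := congrArg norm hrel'
  rw [norm_mul, e1, e2] at e3
  have p1 : 0 < ‖f x‖ * ‖f y‖ := mul_pos (norm_pos_iff.2 hfx) (norm_pos_iff.2 hfy)
  have p2 : 0 < ‖x‖ * ‖y‖ := mul_pos hx0 hy0
  have e4 : ‖f x - f y‖ * (‖x‖ * ‖y‖) =
      ‖x - y‖ * (‖f x‖ * ‖f y‖) * ‖Complex.exp (φ y)‖ := by
    field_simp at e3
    linarith
  rw [e4, mul_comm (1 - t ^ 2)]
  gcongr

end Fin'

open Fin' in
/-- [GolS] -/
theorem prfGolS (hPhi : PhiEx) (hC : Core) (hG : GrowL) : GolS := by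
  intro f hf r hr0 hr1 a b ha hb
  have hf' := hf
  obtain ⟨hd, hi, hf0, hf1⟩ := hf'
  have hgl : ∀ z : ℂ, ‖z‖ ≤ r → ‖z‖ / (1 + r) ^ 2 ≤ ‖f z‖ := by
    intro z hz
    refine le_trans ?_ (hG f hf z (by rw [mem_ball_zero_iff]; linarith))
    gcongr
  have hconst : (1 - r) / (1 + r) ^ 3 ≤ 1 / (1 + r) ^ 2 := by
    rw [div_le_div_iff₀ (by positivity) (by positivity)]
    have : (1 + r) ^ 3 = (1 + r) ^ 2 * (1 + r) := by ring
    rw [this]
    nlinarith [sq_nonneg (1 + r), mul_nonneg (sq_nonneg (1 + r)) hr0]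
  have hzero : ∀ z : ℂ, ‖z‖ ≤ r → (1 - r) / (1 + r) ^ 3 * ‖z‖ ≤ ‖f z‖ := by
    intro z hz
    calc (1 - r) / (1 + r) ^ 3 * ‖z‖ ≤ 1 / (1 + r) ^ 2 * ‖z‖ := by gcongr
      _ = ‖z‖ / (1 + r) ^ 2 := by ring
      _ ≤ ‖f z‖ := hgl z hz
  rcases eq_or_ne a 0 with ha0 | ha0
  · rw [ha0, hf0, zero_sub, norm_neg, zero_sub, norm_neg]
    exact hzero b hb
  rcases eq_or_ne b 0 with hb0 | hb0
  · rw [hb0, hf0, sub_zero, sub_zero]
    exact hzero a ha
  have pa : 0 < ‖a‖ := norm_pos_iff.2 ha0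
  have pb : 0 < ‖b‖ := norm_pos_iff.2 hb0
  have hrpos : 0 < r := pa.trans_le ha
  have key : ∀ ρ : ℝ, r < ρ → ρ < 1 →
      (1 - (r / ρ) ^ 2) * (‖a - b‖ * (‖f a‖ * ‖f b‖)) ≤ ‖f a - f b‖ * (‖a‖ * ‖b‖) := by
    intro ρ h1 h2
    have hρ0 : 0 < ρ := hrpos.trans h1
    have hρ : (ρ : ℂ) ≠ 0 := by exact_mod_cast hρ0.ne'
    have hnorm : ∀ z : ℂ, ‖z / (ρ : ℂ)‖ = ‖z‖ / ρ := by
      intro z; rw [norm_div, Complex.norm_real, Real.norm_of_nonneg hρ0.le]
    have h := nice_ineq hPhi hC _ _ (dil_nice f hf ρ hρ0 h2) (r / ρ)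
      (by rw [div_lt_one hρ0]; exact h1) (a / ρ) (b / ρ) (by rw [hnorm]; positivity)
      (by rw [hnorm]; positivity) (by rw [hnorm]; gcongr) (by rw [hnorm]; gcongr)
    simp only [mul_div_cancel₀ _ hρ] at h
    rw [← sub_div, ← sub_div, hnorm, hnorm, hnorm, hnorm, hnorm, hnorm] at h
    have e1 : (1 - (r / ρ) ^ 2) * (‖a - b‖ / ρ * (‖f a‖ / ρ * (‖f b‖ / ρ))) =
        (1 - (r / ρ) ^ 2) * (‖a - b‖ * (‖f a‖ * ‖f b‖)) / ρ ^ 3 := by ring
    have e2 : ‖f a - f b‖ / ρ * (‖a‖ / ρ * (‖b‖ / ρ)) =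
        ‖f a - f b‖ * (‖a‖ * ‖b‖) / ρ ^ 3 := by ring
    rw [e1, e2] at h
    exact (div_le_div_iff_of_pos_right (by positivity)).1 h
  have hlim : (1 - (r / 1) ^ 2) * (‖a - b‖ * (‖f a‖ * ‖f b‖)) ≤ ‖f a - f b‖ * (‖a‖ * ‖b‖) := by
    have t0 : Tendsto (fun ρ : ℝ => ρ) (𝓝[<] 1) (𝓝 1) := nhdsWithin_le_nhds
    have t1 : Tendsto (fun ρ : ℝ => (1 - (r / ρ) ^ 2) * (‖a - b‖ * (‖f a‖ * ‖f b‖)))
        (𝓝[<] 1) (𝓝 ((1 - (r / 1) ^ 2) * (‖a - b‖ * (‖f a‖ * ‖f b‖)))) := by
      apply Tendsto.mul_const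
      apply Tendsto.const_sub
      apply Tendsto.pow
      exact tendsto_const_nhds.div t0 one_ne_zero
    apply le_of_tendsto t1
    filter_upwards [self_mem_nhdsWithin, t0.eventually_const_lt hr1] with ρ h1 h2
    exact key ρ h2 h1
  rw [div_one] at hlim
  have hA := hgl a ha
  have hB := hgl b hb
  have hAB : (‖a‖ / (1 + r) ^ 2) * (‖b‖ / (1 + r) ^ 2) ≤ ‖f a‖ * ‖f b‖ := by gcongr
  have hT : 0 < 1 - r ^ 2 := by nlinarith
  have h5 : (1 - r ^ 2) * (‖a - b‖ * ((‖a‖ / (1 + r) ^ 2) * (‖b‖ / (1 + r) ^ 2))) ≤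
      ‖f a - f b‖ * (‖a‖ * ‖b‖) := by
    refine le_trans ?_ hlim
    gcongr
  have h6 : (1 - r ^ 2) * (‖a - b‖ * ((‖a‖ / (1 + r) ^ 2) * (‖b‖ / (1 + r) ^ 2))) =
      ((1 - r) / (1 + r) ^ 3 * ‖a - b‖) * (‖a‖ * ‖b‖) := by
    have : 1 - r ^ 2 = (1 - r) * (1 + r) := by ring
    rw [this]
    field_simp
  rw [h6] at h5
  exact le_of_mul_le_mul_right h5 (mul_pos pa pb)

end Gol
end Pool.Agent.MultS

end

section

set_option autoImplicit false

open Complex Metric Set Filter Topology MeasureTheory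
open scoped ENNReal ComplexConjugate

namespace Pool.Agent.MultS
namespace Gol
namespace InvR

/-- `1/‖z‖` is integrable on every disk around the origin. -/
theorem inv_norm_ball (M : ℝ) : IntegrableOn (fun z : ℂ => 1 / ‖z‖) (ball (0 : ℂ) M) := by
  have h := (integrableOn_fun_norm_addHaar (volume : Measure ℂ)
    (f := fun y : ℝ => 1 / y) (r := M)).2
  apply h
  rw [Complex.finrank_real_complex]
  have h1 : IntegrableOn (fun _ : ℝ => (1 : ℝ)) (Ioo 0 M) := by
    refine integrableOn_const ?_ ?_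
    · exact measure_Ioo_lt_top.ne
    · simp
  refine h1.congr_fun ?_ measurableSet_Ioo
  intro y hy
  have hy0 : y ≠ 0 := (mem_Ioo.1 hy).1.ne'
  simp [hy0]

end InvR

theorem prfInvR : InvR := by
  intro x
  have h := InvR.inv_norm_ball (1 + ‖x‖)
  have h2 : Integrable ((ball (0 : ℂ) (1 + ‖x‖)).indicator (fun z : ℂ => 1 / ‖z‖)) :=
    h.integrable_indicator measurableSet_ball
  have h3 := h2.comp_sub_right x
  refine (h3.integrableOn (s := ball (0 : ℂ) 1)).congr_fun ?_ measurableSet_ball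
  intro z hz
  have hz1 : ‖z‖ < 1 := by simpa using hz
  have hmem : z - x ∈ ball (0 : ℂ) (1 + ‖x‖) := by
    rw [mem_ball_zero_iff]
    calc ‖z - x‖ ≤ ‖z‖ + ‖x‖ := norm_sub_le _ _
      _ < 1 + ‖x‖ := by linarith
  show (ball (0 : ℂ) (1 + ‖x‖)).indicator (fun z : ℂ => 1 / ‖z‖) (z - x) = 1 / ‖z - x‖
  rw [indicator_of_mem hmem]

end Gol
end Pool.Agent.MultS

end

section

/-!
# The two small disks can be neglected
-/

set_option autoImplicit false

open Complex Metric Set Filter Topology MeasureTheory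
open scoped ENNReal ComplexConjugate

namespace Pool.Agent.MultS
namespace Gol
namespace LimD

lemma meas_Ds (x : ℂ) (s : ℝ) : MeasurableSet (Ds x s) := by
  unfold Ds
  exact measurableSet_ball.diff (measurableSet_closedBall.union measurableSet_closedBall)

lemma sub_Ds (x : ℂ) (s : ℝ) : Ds x s ⊆ ball (0 : ℂ) 1 := sdiff_subset

lemma mem_Ds {x z : ℂ} {s : ℝ} (hz : z ∈ ball (0 : ℂ) 1) (h1 : s < ‖z‖) (h2 : s < ‖z - x‖) :
    z ∈ Ds x s := by
  refine ⟨hz, ?_⟩
  rintro (h | h)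
  · rw [mem_closedBall, dist_zero_right] at h
    linarith
  · rw [mem_closedBall, dist_eq_norm] at h
    linarith

end LimD

theorem prfLimD : LimD := by
  intro x g hg
  have e : ∀ s : ℝ, ∫ z in Ds x s, g z = ∫ z in ball (0 : ℂ) 1, (Ds x s).indicator g z := by
    intro s
    rw [setIntegral_indicator (LimD.meas_Ds x s), inter_eq_self_of_subset_right (LimD.sub_Ds x s)]
  simp_rw [e]
  apply tendsto_integral_filter_of_dominated_convergence (fun z => ‖g z‖)
  · exact Eventually.of_forall fun s => hg.aestronglyMeasurable.indicator (LimD.meas_Ds x s)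
  · refine Eventually.of_forall fun s => Eventually.of_forall fun z => ?_
    exact norm_indicator_le_norm_self _ _
  · exact hg.norm
  · have h0 : ∀ᵐ z ∂(volume.restrict (ball (0 : ℂ) 1)), z ≠ 0 ∧ z ≠ x := by
      apply ae_restrict_of_ae
      have h1 : ∀ᵐ z ∂(volume : Measure ℂ), z ≠ 0 := by
        simp [ae_iff]
      have h2 : ∀ᵐ z ∂(volume : Measure ℂ), z ≠ x := by
        simp [ae_iff]
      filter_upwards [h1, h2] with z a b using ⟨a, b⟩
    filter_upwards [h0, ae_restrict_mem measurableSet_ball] with z hz hb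
    obtain ⟨z0, zx⟩ := hz
    have p1 : 0 < ‖z‖ := norm_pos_iff.2 z0
    have p2 : 0 < ‖z - x‖ := norm_pos_iff.2 (sub_ne_zero.2 zx)
    apply tendsto_const_nhds.congr'
    have : ∀ᶠ s in 𝓝[>] (0 : ℝ), s < min ‖z‖ ‖z - x‖ :=
      nhdsWithin_le_nhds (Iio_mem_nhds (lt_min p1 p2))
    filter_upwards [this] with s hs
    rw [lt_min_iff] at hs
    rw [indicator_of_mem (LimD.mem_Ds hb hs.1 hs.2)]

end Gol
end Pool.Agent.MultS

end

section

/-!
# Goluzin's inequality: existence of the logarithm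
-/

set_option autoImplicit false

open Complex Metric Set Filter Topology MeasureTheory

namespace Pool.Agent.MultS
namespace Gol
namespace PhiEx

/-- the divided difference of an injective holomorphic function is zero free -/
theorem dslope_ne {f : ℂ → ℂ} {P : ℝ} (hd : DifferentiableOn ℂ f (ball 0 P))
    (hi : InjOn f (ball 0 P)) {a z : ℂ} (ha : a ∈ ball (0 : ℂ) P) (hz : z ∈ ball (0 : ℂ) P) :
    dslope f a z ≠ 0 := by
  by_cases h : z = a
  · subst h
    rw [dslope_same]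
    exact Pool.Agent.HolInv.deriv_ne_zero isOpen_ball hd hi hz
  · rw [dslope_of_ne _ h, slope_def_field]
    refine div_ne_zero (fun h0 => h (hi hz ha (sub_eq_zero.1 h0))) (sub_ne_zero.2 h)

theorem dslope_diff {f : ℂ → ℂ} {P : ℝ} (hd : DifferentiableOn ℂ f (ball 0 P))
    {a : ℂ} (ha : a ∈ ball (0 : ℂ) P) : DifferentiableOn ℂ (dslope f a) (ball 0 P) :=
  (differentiableOn_dslope (isOpen_ball.mem_nhds ha)).2 hd

theorem dslope_mul {f : ℂ → ℂ} (a z : ℂ) : f z - f a = (z - a) * dslope f a z := by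
  by_cases h : z = a
  · subst h; simp
  · rw [dslope_of_ne _ h, slope_def_field, mul_div_cancel₀ _ (sub_ne_zero.2 h)]

end PhiEx

theorem prfPhiEx : PhiEx := by
  rintro f P ⟨hP, hd, hi, hf0, hf1⟩ x hx0 hx1
  have h0m : (0 : ℂ) ∈ ball (0 : ℂ) P := mem_ball_self (by linarith)
  have hxm : x ∈ ball (0 : ℂ) P := by rw [mem_ball_zero_iff]; linarith
  have hxne : x ≠ 0 := norm_pos_iff.1 hx0
  have hg1 := PhiEx.dslope_diff hd h0m
  have hg2 := PhiEx.dslope_diff hd hxm
  have hn1 : ∀ z ∈ ball (0 : ℂ) P, dslope f 0 z ≠ 0 := fun z hz => PhiEx.dslope_ne hd hi h0m hz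
  have hn2 : ∀ z ∈ ball (0 : ℂ) P, dslope f x z ≠ 0 := fun z hz => PhiEx.dslope_ne hd hi hxm hz
  have hm1 : ∀ z, f z = z * dslope f 0 z := fun z => by
    have := PhiEx.dslope_mul (f := f) 0 z
    rwa [hf0, sub_zero, sub_zero] at this
  have hm2 : ∀ z, f z - f x = (z - x) * dslope f x z := fun z => PhiEx.dslope_mul (f := f) x z
  set q : ℂ → ℂ := fun z => dslope f x z / (dslope f 0 x * dslope f 0 z) with hq
  have hqd : DifferentiableOn ℂ q (ball 0 P) :=
    hg2.div (hg1.const_mul _) fun z hz => mul_ne_zero (hn1 x hxm) (hn1 z hz)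
  have hqn : ∀ z ∈ ball (0 : ℂ) P, q z ≠ 0 := fun z hz =>
    div_ne_zero (hn2 z hz) (mul_ne_zero (hn1 x hxm) (hn1 z hz))
  have hq0 : q 0 = 1 := by
    have e1 : dslope f 0 0 = 1 := by rw [dslope_same, hf1]
    have e2 := hm2 0
    rw [hf0, hm1 x] at e2
    have e3 : x * (dslope f x 0 - dslope f 0 x) = 0 := by linear_combination e2
    have e4 : dslope f x 0 = dslope f 0 x := by
      rcases mul_eq_zero.1 e3 with h | h
      · exact absurd h hxne
      · exact sub_eq_zero.1 h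
    simp only [hq]
    rw [e4, e1, mul_one, div_self (hn1 x hxm)]
  obtain ⟨L, hL, hLe⟩ := Pool.Agent.Work.MP_6d8919_an.exists_log_ball (by linarith : (0:ℝ) < P) hqd hqn
  refine ⟨fun z => L z - L 0, ?_, by simp, ?_⟩
  · exact fun z hz =>
      ((hL z hz).differentiableAt.sub_const (L 0)).differentiableWithinAt
  · intro z hz hzne
    have e1 : Complex.exp (L z - L 0) = q z := by
      rw [Complex.exp_sub, hLe z hz, hLe 0 h0m, hq0, div_one]
    show 1 / f z - 1 / f x = (1 / z - 1 / x) * Complex.exp (L z - L 0)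
    rw [e1]
    have n1 := hn1 z hz
    have n2 := hn1 x hxm
    have e2 := hm2 z
    have e3 : f z ≠ 0 := by rw [hm1 z]; exact mul_ne_zero hzne n1
    have e4 : f x ≠ 0 := by rw [hm1 x]; exact mul_ne_zero hxne n2
    have e5 : 1 / f z - 1 / f x = - (f z - f x) / (f z * f x) := by
      field_simp
      ring
    rw [e5, e2]
    simp only [hq]
    rw [hm1 z, hm1 x]
    field_simp
    ring

end Gol
end Pool.Agent.MultS

end

section

/-!
# Upper bound for the area of the logarithm of an injective function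
-/

set_option autoImplicit false

open Complex Metric Set Filter Topology MeasureTheory
open scoped ENNReal ComplexConjugate

namespace Pool.Agent.MultS.Gol
namespace Upp

lemma det_eq (A : ℂ →L[ℝ] ℂ) : A.det = (A 1).re * (A I).im - (A I).re * (A 1).im := by
  rw [ContinuousLinearMap.det, ← LinearMap.det_toMatrix Complex.basisOneI, Matrix.det_fin_two]
  simp [LinearMap.toMatrix_apply]

/-- multiplication by `a` as a real-linear map -/
noncomputable def mulR (a : ℂ) : ℂ →L[ℝ] ℂ :=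
  (ContinuousLinearMap.toSpanSingleton ℂ a).restrictScalars ℝ

@[simp] lemma mulR_apply (a v : ℂ) : mulR a v = a * v := by simp [mulR, mul_comm]

lemma det_mulR (a : ℂ) : (mulR a).det = ‖a‖ ^ 2 := by
  rw [det_eq, ← Complex.normSq_eq_norm_sq, Complex.normSq_apply]
  simp

end Upp

theorem prfUpp (hA : AnnE) : Upp := by
  intro m U δ R hU hm hinj hδ hδR hb
  have hd : ∀ z ∈ U, HasFDerivWithinAt m (Upp.mulR (deriv m z)) U z := by
    intro z hz
    have h1 : HasDerivAt m (deriv m z) z :=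
      ((hm z hz).differentiableAt (hU.mem_nhds hz)).hasDerivAt
    exact (h1.hasFDerivAt.restrictScalars ℝ).hasFDerivWithinAt
  have hcv := lintegral_image_eq_lintegral_abs_det_fderiv_mul volume hU.measurableSet hd hinj
    (fun w : ℂ => ENNReal.ofReal (1 / ‖w‖ ^ 2))
  have h1 : ∫⁻ z in U, ENNReal.ofReal (‖deriv m z / m z‖ ^ 2) =
      ∫⁻ w in m '' U, ENNReal.ofReal (1 / ‖w‖ ^ 2) := by
    rw [hcv]
    apply setLIntegral_congr_fun hU.measurableSet
    intro z _
    simp only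
    rw [Upp.det_mulR, abs_of_nonneg (by positivity), ← ENNReal.ofReal_mul (by positivity)]
    congr 1
    rw [norm_div, div_pow]
    ring
  rw [h1, ← hA δ R hδ hδR]
  apply lintegral_mono_set
  rintro w ⟨z, hz, rfl⟩
  exact hb z hz

end Pool.Agent.MultS.Gol

end

section

/-!
# Lower bound for the area of `log (1/z - 1/x)`
-/

set_option autoImplicit false

open Complex Metric Set Filter Topology MeasureTheory
open scoped ENNReal ComplexConjugate

namespace Pool.Agent.MultS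
namespace Gol
namespace LowA

lemma meas_Ds (x : ℂ) (s : ℝ) : MeasurableSet (Ds x s) :=
  isOpen_ball.measurableSet.diff
    (isClosed_closedBall.measurableSet.union isClosed_closedBall.measurableSet)

lemma change (x : ℂ) (s : ℝ) (hx : x ≠ 0) (hs : 0 < s) :
    ∫⁻ w in (fun z : ℂ => 1 / z - 1 / x) '' (Ds x s), ENNReal.ofReal (1 / ‖w‖ ^ 2) =
      ∫⁻ z in Ds x s, ENNReal.ofReal (‖AA x z‖ ^ 2) := by
  have hz0 : ∀ z ∈ Ds x s, z ≠ 0 := by
    rintro z ⟨-, h⟩ rfl
    exact h (Or.inl (mem_closedBall_self hs.le))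
  have hzx : ∀ z ∈ Ds x s, z ≠ x := by
    rintro z ⟨-, h⟩ rfl
    exact h (Or.inr (mem_closedBall_self hs.le))
  have hder : ∀ z ∈ Ds x s, HasFDerivWithinAt (fun z : ℂ => 1 / z - 1 / x)
      (K2.mulL (-(z ^ 2)⁻¹)) (Ds x s) z := by
    intro z hz
    have h1 : HasDerivAt (fun z : ℂ => 1 / z - 1 / x) (-(z ^ 2)⁻¹) z := by
      have h2 := (hasDerivAt_inv (hz0 z hz)).sub_const (1 / x)
      simpa [one_div] using h2
    exact (h1.hasFDerivAt.restrictScalars ℝ).hasFDerivWithinAt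
  have hinj : InjOn (fun z : ℂ => 1 / z - 1 / x) (Ds x s) := by
    intro z _ w _ h
    have h1 : 1 / z = 1 / w := by simpa using h
    simpa using h1
  rw [lintegral_image_eq_lintegral_abs_det_fderiv_mul volume (meas_Ds x s) hder hinj]
  refine setLIntegral_congr_fun (meas_Ds x s) ?_
  intro z hz
  have h0 := hz0 z hz
  have h1 := hzx z hz
  have h2 : z - x ≠ 0 := sub_ne_zero.mpr h1
  have h3 : x - z ≠ 0 := sub_ne_zero.mpr h1.symm
  simp only
  rw [K2.det_mulL, abs_of_nonneg (by positivity), ← ENNReal.ofReal_mul (by positivity)]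
  congr 1
  have e1 : (1 / z - 1 / x : ℂ) = (x - z) / (x * z) := by field_simp
  have e2 : AA x z = x / (z * (z - x)) := by
    unfold AA; field_simp; ring
  rw [e1, e2, norm_neg, norm_inv, norm_pow, norm_div, norm_div, norm_mul, norm_mul,
    norm_sub_rev z x]
  have n0 : ‖z‖ ≠ 0 := norm_ne_zero_iff.mpr h0
  have n1 : ‖x‖ ≠ 0 := norm_ne_zero_iff.mpr hx
  have n3 : ‖x - z‖ ≠ 0 := norm_ne_zero_iff.mpr h3
  field_simp

lemma incl (x : ℂ) (s : ℝ) (hx : 0 < ‖x‖) (hs : 0 < s) (hsx : s < ‖x‖) :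
    {w : ℂ | s / (‖x‖ * (‖x‖ - s)) < ‖w‖ ∧ ‖w‖ < 1 / s - 1 / ‖x‖} \ closedBall (-(1 / x)) 1 ⊆
      (fun z : ℂ => 1 / z - 1 / x) '' (Ds x s) := by
  rintro w ⟨⟨hw1, hw2⟩, hw3⟩
  have hx0 : x ≠ 0 := norm_pos_iff.mp hx
  have h1 : 1 < ‖w + 1 / x‖ := by
    rw [mem_closedBall, dist_eq_norm, not_le, sub_neg_eq_add] at hw3
    exact hw3
  have h0 : w + 1 / x ≠ 0 := norm_pos_iff.mp (one_pos.trans h1)
  have hz0 : (1 / (w + 1 / x) : ℂ) ≠ 0 := by
    rw [one_div]; exact inv_ne_zero h0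
  have hzn : ‖(1 / (w + 1 / x) : ℂ)‖ = 1 / ‖w + 1 / x‖ := by rw [norm_div, norm_one]
  refine ⟨1 / (w + 1 / x), ⟨?_, ?_⟩, ?_⟩
  · rw [mem_ball_zero_iff, hzn, div_lt_one (one_pos.trans h1)]
    exact h1
  · rintro (h | h)
    · rw [mem_closedBall_zero_iff, hzn, div_le_iff₀ (one_pos.trans h1)] at h
      have h2 : 1 / s ≤ ‖w + 1 / x‖ := by
        rw [div_le_iff₀ hs]; linarith [mul_comm s ‖w + 1 / x‖]
      have h3 : ‖w + 1 / x‖ ≤ ‖w‖ + 1 / ‖x‖ := by
        refine (norm_add_le _ _).trans ?_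
        rw [norm_div, norm_one]
      linarith
    · rw [mem_closedBall, dist_eq_norm] at h
      set z : ℂ := 1 / (w + 1 / x) with hz
      have h2 : w = (x - z) / (x * z) := by
        have h4 : w + 1 / x = 1 / z := by rw [hz, one_div_one_div]
        have h5 : w = 1 / z - 1 / x := by rw [← h4]; ring
        rw [h5]; field_simp
      have h3 : ‖x‖ - s ≤ ‖z‖ := by
        have := norm_sub_norm_le x z
        rw [norm_sub_rev] at this
        linarith
      have h6 : 0 < ‖x‖ - s := by linarith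
      have h7 : ‖w‖ ≤ s / (‖x‖ * (‖x‖ - s)) := by
        rw [h2, norm_div, norm_mul, norm_sub_rev]
        exact div_le_div₀ hs.le h (by positivity) (mul_le_mul_of_nonneg_left h3 hx.le)
      linarith
  · simp only
    rw [one_div_one_div]
    ring

lemma disc (hD : DiscE) (x : ℂ) (hx : 0 < ‖x‖) (hx1 : ‖x‖ < 1) :
    ∫⁻ w in closedBall (-(1 / x)) 1, ENNReal.ofReal (1 / ‖w‖ ^ 2) =
      ENNReal.ofReal (-(Real.pi * Real.log (1 - ‖x‖ ^ 2))) := by
  have hc : 1 < ‖(-(1 / x) : ℂ)‖ := by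
    rw [norm_neg, norm_div, norm_one, lt_div_iff₀ hx]
    linarith
  have h1 := hD (-(1 / x)) hc
  have h2 : 1 / ‖(-(1 / x) : ℂ)‖ ^ 2 = ‖x‖ ^ 2 := by
    rw [norm_neg, norm_div, norm_one]
    field_simp
  rw [h2] at h1
  rw [← h1]
  have h3 : (closedBall (-(1 / x)) 1 : Set ℂ) =ᵐ[volume] ball (-(1 / x)) 1 := by
    refine (ae_eq_set.mpr ⟨?_, ?_⟩)
    · rw [closedBall_diff_ball]
      exact Measure.addHaar_sphere volume _ _
    · rw [diff_eq_empty.mpr ball_subset_closedBall]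
      exact measure_empty
  rw [setLIntegral_congr h3]
  have hmp := measurePreserving_add_left (volume : Measure ℂ) (-(1 / x))
  have h4 := hmp.setLIntegral_comp_preimage_emb (measurableEmbedding_addLeft _)
    (fun w : ℂ => ENNReal.ofReal (1 / ‖w‖ ^ 2)) (ball (-(1 / x)) 1)
  rw [← h4]
  congr 1
  congr 1
  ext u
  simp [mem_ball, dist_eq_norm]

end LowA

theorem prfLowA (hA : AnnE) (hD : DiscE) : LowA := by
  intro x s hx hx1 hs hsx h1 h2
  have hx0 : x ≠ 0 := norm_pos_iff.mp hx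
  have h6 : 0 < ‖x‖ - s := by linarith
  have hd : 0 < s / (‖x‖ * (‖x‖ - s)) := by positivity
  have hdR : s / (‖x‖ * (‖x‖ - s)) < 1 / s - 1 / ‖x‖ := by linarith
  rw [← LowA.change x s hx0 hs]
  refine le_trans ?_ (lintegral_mono_set (LowA.incl x s hx hs hsx))
  have hlog : 0 ≤ -(Real.pi * Real.log (1 - ‖x‖ ^ 2)) := by
    have h3 : Real.log (1 - ‖x‖ ^ 2) ≤ 0 := by
      apply Real.log_nonpos
      · nlinarith
      · nlinarith
    nlinarith [Real.pi_pos]
  have h5 : 2 * Real.pi * Real.log ((1 / s - 1 / ‖x‖) / (s / (‖x‖ * (‖x‖ - s)))) +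
      Real.pi * Real.log (1 - ‖x‖ ^ 2) =
      2 * Real.pi * Real.log ((1 / s - 1 / ‖x‖) / (s / (‖x‖ * (‖x‖ - s)))) -
      (-(Real.pi * Real.log (1 - ‖x‖ ^ 2))) := by ring
  rw [h5, ENNReal.ofReal_sub _ hlog, tsub_le_iff_left, ← LowA.disc hD x hx hx1,
    ← hA _ _ hd hdR]
  refine le_trans (lintegral_mono_set ?_) (lintegral_union_le _ _ _)
  intro w hw
  by_cases h : w ∈ (closedBall (-(1 / x)) 1 : Set ℂ)
  · exact Or.inl h
  · exact Or.inr ⟨hw, h⟩

end Gol
end Pool.Agent.MultS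

end
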