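import Mathlib
import Pool.Agent.Work.MP_b17785_an.LO.Stmts
import Pool.Agent.Work.MP_b17785_an.Bd.B01
import Pool.Agent.Work.MP_b17785_an.All

/-! Bundle of small proof modules (one section per former module). -/

section

/-! # [LO Alg] the algebra of the number `qh` -/

open Complex

namespace Pool.Agent.MultS.LO

namespace Alg'

lemma qh_re : qh.re = -(3739 / 20) := by
  have h : qh = ((-(3739 / 20) : ℝ) : ℂ) + ((5067 / 5 : ℝ) : ℂ) * I := by
    unfold qh
    push_cast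
    ring
  rw [h]
  simp [Complex.add_re, Complex.mul_re]

lemma qh_im : qh.im = 5067 / 5 := by
  have h : qh = ((-(3739 / 20) : ℝ) : ℂ) + ((5067 / 5 : ℝ) : ℂ) * I := by
    unfold qh
    push_cast
    ring
  rw [h]
  simp [Complex.add_im, Complex.mul_im]

lemma div_re' (x : ℂ) : (x / qh).re =
    (x.re * (-(3739 / 20)) + x.im * (5067 / 5)) / ((3739 / 20) ^ 2 + (5067 / 5) ^ 2) := by
  rw [Complex.div_re, Complex.normSq_apply, qh_re, qh_im]
  ring

end Alg'

theorem prfAlgQ : AlgQ := by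
  intro x hx
  have hn : ‖x‖ ≤ |x.re| + |x.im| := Complex.norm_le_abs_re_add_abs_im x
  rw [abs_of_nonneg hx] at hn
  rw [Alg'.div_re', Alg'.div_re', Complex.conj_re, Complex.conj_im]
  rcases le_total x.im 0 with hb | hb
  · left
    rw [abs_of_nonpos hb] at hn
    rw [div_le_iff₀ (by norm_num)]
    nlinarith
  · right
    rw [abs_of_nonneg hb] at hn
    rw [div_le_iff₀ (by norm_num)]
    nlinarith

end Pool.Agent.MultS.LO

end

section

/-!
# Item Bd (MP_b17785, LO): bound for the coefficients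
-/

set_option autoImplicit false

open Complex Metric Set Filter Topology
open scoped ComplexConjugate

namespace Pool.Agent.MultS.LO

namespace Bd'

theorem rh_re (i : Fin 3) : (rh i).re = 0 := by
  fin_cases i <;> simp [rh]

theorem ss_norm (V : ℝ) (hV : 0 < V) (i : Fin 3) : 1 + V ≤ ‖ss V i‖ := by
  have h1 : (ss V i).re = 1 + V := by
    simp [ss, rh_re]
  have h2 := Complex.re_le_norm (ss V i)
  rwa [h1] at h2

theorem ss_inv (V : ℝ) (hV : 0 < V) (i : Fin 3) (n : ℕ) :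
    ‖((ss V i)⁻¹) ^ n‖ ≤ (1 / (1 + V)) ^ n := by
  rw [norm_pow, norm_inv]
  apply pow_le_pow_left₀ (by positivity)
  rw [one_div]
  exact inv_anti₀ (by linarith) (ss_norm V hV i)

theorem Qc_le (V : ℝ) (hV : 0 < V) (n : ℕ) :
    ‖Qc V n‖ ≤ (∑ i, ‖rr i‖) * (1 / (1 + V)) ^ (n + 1) := by
  unfold Qc
  rw [Finset.sum_mul]
  refine (norm_sum_le _ _).trans (Finset.sum_le_sum fun i _ => ?_)
  rw [norm_mul]
  exact mul_le_mul_of_nonneg_left (ss_inv V hV i (n + 1)) (norm_nonneg _)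

end Bd'

open Bd' in
theorem prfBdV : BdV := by
  set R : ℝ := ∑ i, ‖rr i‖ with hR
  set R1 : ℝ := ∑ i, ‖rr i‖ * ‖99 + rh i‖ with hR1
  have hR0 : 0 ≤ R := Finset.sum_nonneg fun i _ => norm_nonneg _
  have hR10 : 0 ≤ R1 := Finset.sum_nonneg fun i _ => by positivity
  refine ⟨R1 + R ^ 2 + 1, by positivity, fun V hV hV1 n => ?_⟩
  set x : ℝ := 1 / (1 + V) with hx
  have hx0 : 0 < x := by positivity
  have hx1 : x ≤ 1 := by
    rw [hx, div_le_one (by linarith)]
    linarith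
  have e1 : ‖(V : ℂ) ^ 3 * (∑ i, rr i * (99 + rh i) * ((ss V i)⁻¹) ^ (n + 1))‖ ≤
      V ^ 3 * (R1 * x ^ n) := by
    rw [norm_mul, norm_pow, Complex.norm_real, Real.norm_of_nonneg hV.le]
    apply mul_le_mul_of_nonneg_left _ (by positivity)
    refine (norm_sum_le _ _).trans ?_
    rw [hR1, Finset.sum_mul]
    refine Finset.sum_le_sum fun i _ => ?_
    rw [norm_mul, norm_mul]
    apply mul_le_mul_of_nonneg_left _ (by positivity)
    refine (ss_inv V hV i (n + 1)).trans ?_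
    rw [pow_succ]
    exact mul_le_of_le_one_right (by positivity) hx1
  have e2 : ‖(V : ℂ) ^ 4 / 2 * ∑ k ∈ Finset.range (n + 1), Qc V k * Qc V (n - k)‖ ≤
      V ^ 4 / 2 * ((n + 1) * (R ^ 2 * x ^ n)) := by
    rw [norm_mul, norm_div, norm_pow, Complex.norm_real, Real.norm_of_nonneg hV.le,
      Complex.norm_two]
    apply mul_le_mul_of_nonneg_left _ (by positivity)
    refine (norm_sum_le _ _).trans ?_
    have e3 : ∀ k ∈ Finset.range (n + 1), ‖Qc V k * Qc V (n - k)‖ ≤ R ^ 2 * x ^ n := by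
      intro k hk
      have hk' : k ≤ n := Nat.lt_succ_iff.mp (Finset.mem_range.mp hk)
      rw [norm_mul]
      calc ‖Qc V k‖ * ‖Qc V (n - k)‖ ≤ (R * x ^ (k + 1)) * (R * x ^ (n - k + 1)) :=
            mul_le_mul (Qc_le V hV k) (Qc_le V hV (n - k)) (norm_nonneg _) (by positivity)
        _ = R ^ 2 * x ^ n * x ^ 2 := by
            have : x ^ n = x ^ k * x ^ (n - k) := by
              rw [← pow_add]
              congr 1
              omega
            rw [this]
            ring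
        _ ≤ R ^ 2 * x ^ n * 1 := by
            apply mul_le_mul_of_nonneg_left _ (by positivity)
            exact pow_le_one₀ hx0.le hx1
        _ = R ^ 2 * x ^ n := mul_one _
    refine (Finset.sum_le_sum e3).trans ?_
    rw [Finset.sum_const, Finset.card_range, nsmul_eq_mul]
    push_cast
    exact le_rfl
  unfold ec
  refine (norm_sub_le _ _).trans ?_
  rw [neg_mul, norm_neg]
  refine (add_le_add e1 e2).trans ?_
  have hxn : 0 < x ^ n := by positivity
  have a1 : V ^ 3 * (R1 * x ^ n) ≤ (R1 + R ^ 2 + 1) * (V ^ 3 * x ^ n) := by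
    have : V ^ 3 * (R1 * x ^ n) = R1 * (V ^ 3 * x ^ n) := by ring
    rw [this]
    apply mul_le_mul_of_nonneg_right _ (by positivity)
    nlinarith [sq_nonneg R]
  have a2 : V ^ 4 / 2 * ((n + 1) * (R ^ 2 * x ^ n)) ≤
      (R1 + R ^ 2 + 1) * (V ^ 4 * (n + 1) * x ^ n) := by
    have : V ^ 4 / 2 * ((n + 1) * (R ^ 2 * x ^ n)) = (R ^ 2 / 2) * (V ^ 4 * (n + 1) * x ^ n) := by
      ring
    rw [this]
    apply mul_le_mul_of_nonneg_right _ (by positivity)
    nlinarith [sq_nonneg R]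
  calc _ ≤ (R1 + R ^ 2 + 1) * (V ^ 3 * x ^ n) + (R1 + R ^ 2 + 1) * (V ^ 4 * (n + 1) * x ^ n) :=
        add_le_add a1 a2
    _ = _ := by ring

end Pool.Agent.MultS.LO

end

section

set_option autoImplicit false

open Complex Metric Set Filter Topology
open scoped ComplexConjugate

namespace Pool.Agent.MultS
namespace LO
namespace Cj'

/-- the conjugate function -/
noncomputable def cj (f : ℂ → ℂ) (z : ℂ) : ℂ := conj (f (conj z))

theorem conj_mem {z : ℂ} (hz : z ∈ ball (0 : ℂ) 1) : conj z ∈ ball (0 : ℂ) 1 := by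
  rw [mem_ball_zero_iff] at hz ⊢
  rwa [Complex.norm_conj]

theorem cj_hasDerivAt {f : ℂ → ℂ} {f' z : ℂ} (h : HasDerivAt f f' (conj z)) :
    HasDerivAt (cj f) (conj f') z := by
  have := h.conj_conj
  rw [Complex.conj_conj] at this
  exact this

theorem cj_diff {f : ℂ → ℂ} (h : DifferentiableOn ℂ f (ball 0 1)) :
    DifferentiableOn ℂ (cj f) (ball 0 1) := by
  intro z hz
  have h1 := (h.differentiableAt (isOpen_ball.mem_nhds (conj_mem hz))).hasDerivAt
  exact (cj_hasDerivAt h1).differentiableAt.differentiableWithinAt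

theorem cj_Sc {f : ℂ → ℂ} (h : Sc f) : Sc (cj f) := by
  obtain ⟨h1, h2, h3, h4⟩ := h
  refine ⟨cj_diff h1, ?_, ?_, ?_⟩
  · intro z hz w hw hzw
    have h5 : f (conj z) = f (conj w) := (starRingEnd ℂ).injective hzw
    have h6 := h2 (conj_mem hz) (conj_mem hw) h5
    exact (starRingEnd ℂ).injective h6
  · unfold cj
    rw [map_zero, h3, map_zero]
  · have h5 : HasDerivAt f (deriv f 0) (conj (0 : ℂ)) := by
      rw [map_zero]
      exact (h1.differentiableAt (isOpen_ball.mem_nhds (mem_ball_self one_pos))).hasDerivAt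
    rw [(cj_hasDerivAt h5).deriv, h4, map_one]

theorem cj_tc {f : ℂ → ℂ} (h : DifferentiableOn ℂ f (ball 0 1)) (n : ℕ) :
    tc (cj f) n = conj (tc f n) := by
  apply tc_of_hasSum (c := fun n => conj (tc f n))
  intro z hz
  have h1 := (hasSum_tc h (conj_mem hz)).map (starRingEnd ℂ) Complex.continuous_conj
  have h2 : (fun n : ℕ => conj (tc f n) * z ^ n) =
      (starRingEnd ℂ) ∘ (fun n : ℕ => tc f n * (conj z) ^ n) := by
    funext n
    simp only [Function.comp_apply, map_mul, map_pow, Complex.conj_conj]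
  rw [h2]
  exact h1

end Cj'

theorem prfCjV : CjV := by
  intro lam hl f hf
  obtain ⟨g, hg, hgn⟩ := hl (Cj'.cj f) (Cj'.cj_Sc hf)
  refine ⟨Cj'.cj g, Cj'.cj_Sc hg, fun n hn => ?_⟩
  rw [Cj'.cj_tc hg.1, hgn n hn, Cj'.cj_tc hf.1, map_mul, Complex.conj_conj]

end LO
end Pool.Agent.MultS

end

section

/-!
# Multipliers close to the identity: assembly
-/

set_option autoImplicit false

open Complex Metric Set Filter Topology
open scoped ComplexConjugate

namespace Pool.Agent.MultS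
namespace LO
namespace Main'

/-- Taylor coefficients of `fV V` -/
noncomputable def ac (V : ℝ) (n : ℕ) : ℂ :=
  (if n = 0 then (1 / 2 - (1 + 100 * V) ^ 2 / 2 - V ^ 2 * ∑ i, rr i : ℂ) else 0) +
  (if n = 1 then (1 + 100 * V : ℂ) else 0) + (if n = 2 then (-(1 / 2) : ℂ) else 0) + ec V n

lemma hasSum_ac (hS : SerV) (V : ℝ) (hV : 0 < V) (z : ℂ) (hz : z ∈ closedBall (0 : ℂ) 1) :
    HasSum (fun n : ℕ => ac V n * z ^ n) (fV V z) := by
  have h0 := hS V hV z hz
  have h1 : HasSum (fun n : ℕ => (if n = 0 then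
      (1 / 2 - (1 + 100 * V) ^ 2 / 2 - V ^ 2 * ∑ i, rr i : ℂ) else 0) * z ^ n)
      (1 / 2 - (1 + 100 * V) ^ 2 / 2 - V ^ 2 * ∑ i, rr i : ℂ) := by
    convert hasSum_single (f := fun n : ℕ => (if n = 0 then
      (1 / 2 - (1 + 100 * V) ^ 2 / 2 - V ^ 2 * ∑ i, rr i : ℂ) else 0) * z ^ n) 0 ?_ using 1
    · simp
    · intro n hn; simp [hn]
  have h2 : HasSum (fun n : ℕ => (if n = 1 then (1 + 100 * V : ℂ) else 0) * z ^ n)
      ((1 + 100 * V) * z) := by
    convert hasSum_single (f := fun n : ℕ => (if n = 1 then (1 + 100 * V : ℂ) else 0) * z ^ n)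
      1 ?_ using 1
    · simp
    · intro n hn; simp [hn]
  have h3 : HasSum (fun n : ℕ => (if n = 2 then (-(1 / 2) : ℂ) else 0) * z ^ n)
      (-(1 / 2) * z ^ 2) := by
    convert hasSum_single (f := fun n : ℕ => (if n = 2 then (-(1 / 2) : ℂ) else 0) * z ^ n)
      2 ?_ using 1
    · simp
    · intro n hn; simp [hn]
  have h4 := ((h1.add h2).add h3).add h0
  convert h4 using 1
  · ext n; unfold ac; ring
  · ring

lemma ac_one (V : ℝ) : ac V 1 = 1 + 100 * V + ec V 1 := by simp [ac]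
lemma ac_two (V : ℝ) : ac V 2 = -(1 / 2) + ec V 2 := by simp [ac]
lemma ac_ge (V : ℝ) (n : ℕ) (hn : 3 ≤ n) : ac V n = ec V n := by
  have h0 : n ≠ 0 := by omega
  have h1 : n ≠ 1 := by omega
  have h2 : n ≠ 2 := by omega
  simp [ac, h0, h1, h2]

/-- The normalised function belongs to `S`. -/
lemma norm_Sc (hU : Univ) (hT : Tip) (hS : SerV) (V : ℝ) (hV : 0 < V) :
    ac V 1 ≠ 0 ∧ Sc (fun z => (fV V z - fV V 0) / ac V 1) ∧
    ∀ n : ℕ, 1 ≤ n → tc (fun z => (fV V z - fV V 0) / ac V 1) n = ac V n / ac V 1 := by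
  obtain ⟨hd, hi⟩ := hU V hV
  have htc : ∀ n, tc (fV V) n = ac V n := fun n =>
    tc_of_hasSum (fun z hz => hasSum_ac hS V hV z (ball_subset_closedBall hz)) n
  have h1 : deriv (fV V) 0 = ac V 1 := by rw [← tc_one, htc]
  have h0 : fV V 0 = ac V 0 := by rw [← htc 0, tc_zero]
  have hne : ac V 1 ≠ 0 := by
    rw [← h1]
    exact prfDerNe (ball 0 1) (fV V) isOpen_ball hd hi 0 (mem_ball_self one_pos)
  have hD : HasDerivAt (fV V) (ac V 1) 0 := by
    rw [← h1]
    exact (hd.differentiableAt (isOpen_ball.mem_nhds (mem_ball_self one_pos))).hasDerivAt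
  refine ⟨hne, ⟨(hd.sub_const _).div_const _, ?_, by simp, ?_⟩, ?_⟩
  · intro z hz w hw h
    apply hi hz hw
    have h2 : fV V z - fV V 0 = fV V w - fV V 0 := by
      have h3 : (fV V z - fV V 0) / ac V 1 = (fV V w - fV V 0) / ac V 1 := h
      field_simp at h3
      exact h3
    linear_combination h2
  · have h3 := (hD.sub_const (fV V 0)).div_const (ac V 1)
    rw [h3.deriv, div_self hne]
  · intro n hn
    have key : ∀ z ∈ ball (0 : ℂ) 1, HasSum (fun n : ℕ => (if n = 0 then 0 else ac V n / ac V 1) *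
        z ^ n) ((fV V z - fV V 0) / ac V 1) := by
      intro z hz
      have h4 := hasSum_ac hS V hV z (ball_subset_closedBall hz)
      have h5 : HasSum (fun n : ℕ => (if n = 0 then ac V 0 else 0) * z ^ n) (fV V 0) := by
        rw [h0]
        convert hasSum_single (f := fun n : ℕ => (if n = 0 then ac V 0 else 0) * z ^ n) 0 ?_
          using 1
        · simp
        · intro n hn; simp [hn]
      have h6 := (h4.sub h5).div_const (ac V 1)
      have h7 : (fun n : ℕ => (if n = 0 then 0 else ac V n / ac V 1) * z ^ n) =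
          fun n : ℕ => (ac V n * z ^ n - (if n = 0 then ac V 0 else 0) * z ^ n) / ac V 1 := by
        funext m
        by_cases hm : m = 0
        · subst hm; simp
        · rw [if_neg hm, if_neg hm]; ring
      rw [h7]
      exact h6
    rw [tc_of_hasSum key n, if_neg (by omega)]

/-- the series of differences -/
noncomputable def DD (lam : ℕ → ℂ) (V : ℝ) (z : ℂ) : ℂ :=
  ∑' k : ℕ, ((k : ℂ) + 1) * ((1 - lam (k + 1)) * ac V (k + 1)) * z ^ k

/-- For a multiplier the function `fV1 V - DD lam V` has no zeros. -/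
lemma no_zero (hU : Univ) (hT : Tip) (hS : SerV) (V : ℝ) (hV : 0 < V) (lam : ℕ → ℂ)
    (hlam : IsMult lam) : DifferentiableOn ℂ (DD lam V) (ball 0 1) ∧
    ∀ z ∈ ball (0 : ℂ) 1, fV1 V z ≠ DD lam V z := by
  obtain ⟨hne, hSc, htc⟩ := norm_Sc hU hT hS V hV
  set f : ℂ → ℂ := fun z => (fV V z - fV V 0) / ac V 1 with hf
  obtain ⟨g, hg, hgc⟩ := hlam f hSc
  have hfd : ∀ z ∈ ball (0 : ℂ) 1, deriv f z = fV1 V z / ac V 1 := by
    intro z hz
    exact (((hT V hV).1 z hz).sub_const (fV V 0)).div_const (ac V 1) |>.deriv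
  have hDD : ∀ z ∈ ball (0 : ℂ) 1, DD lam V z = ac V 1 * (deriv f z - deriv g z) := by
    intro z hz
    have h1 := (prfSer f hSc.1 z hz).2.1
    have h2 := (prfSer g hg.1 z hz).2.1
    have h3 := (h1.sub h2).mul_left (ac V 1)
    rw [← h3.tsum_eq]
    unfold DD
    apply tsum_congr
    intro k
    rw [hgc (k + 1) (by omega), htc (k + 1) (by omega)]
    field_simp
  refine ⟨?_, ?_⟩
  · have h1 : DifferentiableOn ℂ (fun z => ac V 1 * (deriv f z - deriv g z)) (ball 0 1) :=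
      ((hSc.1.deriv isOpen_ball).sub (hg.1.deriv isOpen_ball)).const_mul _
    exact h1.congr hDD
  · intro z hz h
    rw [hDD z hz, hfd z hz] at h
    have h2 : deriv g z = 0 := by
      have : ac V 1 * deriv g z = 0 := by
        have h3 : ac V 1 * (fV1 V z / ac V 1 - deriv g z) = fV1 V z - ac V 1 * deriv g z := by
          field_simp
        rw [h3] at h
        linear_combination h
      exact (mul_eq_zero.1 this).resolve_left hne
    exact prfDerNe (ball 0 1) g isOpen_ball hg.1 hg.2.1 z hz h2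

lemma lam_one (lam : ℕ → ℂ) (hlam : IsMult lam) : lam 1 = 1 := by
  have hid : Sc (fun z : ℂ => z) := ⟨differentiableOn_id, fun _ _ _ _ h => h, rfl, by simp⟩
  obtain ⟨g, hg, hgc⟩ := hlam _ hid
  have h1 := hgc 1 le_rfl
  rw [tc_one, tc_one, hg.2.2.2] at h1
  simpa using h1.symm

/-- First case. -/
lemma case1 (hU : Univ) (hT : Tip) (hS : SerV) (hB : BdV) (hSm : SmV) (hZ : ZeroEx) :
    ∃ c : ℝ, 0 < c ∧ ∀ (om : ℕ → ℝ) (d : ℝ), 0 < d → (∀ n, 0 ≤ om n) →
      (∀ᶠ n : ℕ in atTop, om n ≤ c * d * n) →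
    ∃ e0 : ℝ, 0 < e0 ∧ ∀ lam : ℕ → ℂ, IsMult lam → ∀ e : ℝ, 0 < e → e < e0 →
      (∀ n : ℕ, 1 ≤ n → ‖1 - lam n‖ ≤ e * om n) → d * e < ‖1 - lam 2‖ →
      ¬ (((1 - lam 2) / qh).re ≤ -(1 / 10000) * ‖1 - lam 2‖) := by
  obtain ⟨K, hK0, hK⟩ := hB
  obtain ⟨B, hB0, hBs⟩ := hSm
  have hqne : qh ≠ 0 := by
    intro h
    have := congrArg Complex.re h
    simp [qh] at this
  have hqn : ‖(1 : ℂ) / qh‖ ≤ 1 := by
    rw [norm_div, norm_one, div_le_one (norm_pos_iff.2 hqne)]
    have h1 := Complex.abs_im_le_norm qh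
    have h2 : qh.im = 5067 / 5 := by simp [qh]
    rw [h2] at h1
    have h3 : |(5067 / 5 : ℝ)| = 5067 / 5 := abs_of_pos (by norm_num)
    rw [h3] at h1
    linarith
  refine ⟨1 / (40000 * B), by positivity, ?_⟩
  intro om d hd hom hev
  obtain ⟨N, hN⟩ := eventually_atTop.1 hev
  -- small indices
  set T : ℝ := ∑ n ∈ Finset.range N, (n : ℝ) * om n * (K * (2 + n)) with hTdef
  have hT0 : 0 ≤ T := Finset.sum_nonneg fun n _ => by
    have := hom n
    positivity
  -- choose V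
  obtain ⟨V, hV0, hV1, hV2⟩ : ∃ V : ℝ, 0 < V ∧ V ≤ 1 ∧ V * T ≤ d / 40000 := by
    refine ⟨min 1 (d / 40000 / (T + 1)), by positivity, min_le_left _ _, ?_⟩
    calc min 1 (d / 40000 / (T + 1)) * T ≤ (d / 40000 / (T + 1)) * (T + 1) := by
          gcongr
          · exact min_le_right _ _
          · linarith
      _ = d / 40000 := by field_simp
  obtain ⟨hs2, hs3, hsB⟩ := hBs V hV0 hV1
  -- domination of om
  obtain ⟨Om, hOm0, hOm⟩ : ∃ Om : ℝ, 0 ≤ Om ∧ ∀ n : ℕ, 1 ≤ n → om n ≤ Om * n := by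
    refine ⟨1 / (40000 * B) * d + ∑ n ∈ Finset.range N, om n,
      add_nonneg (by positivity) (Finset.sum_nonneg fun n _ => hom n), ?_⟩
    intro n hn
    have hn1 : (1 : ℝ) ≤ n := by exact_mod_cast hn
    have hsum0 : 0 ≤ ∑ n ∈ Finset.range N, om n := Finset.sum_nonneg fun n _ => hom n
    have hc0 : 0 ≤ 1 / (40000 * B) * d := by positivity
    by_cases h : N ≤ n
    · have h1 := hN n h
      nlinarith
    · have h1 : om n ≤ ∑ n ∈ Finset.range N, om n :=
        Finset.single_le_sum (fun i _ => hom i) (Finset.mem_range.2 (by omega))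
      nlinarith
  -- the constants
  have hac : ∀ n : ℕ, ‖ac V n‖ ≤ (if n < 3 then ‖ac V n‖ else 0) + ‖ec V n‖ := by
    intro n
    by_cases h : n < 3
    · simp [h]
    · simp [h, ac_ge V n (by omega)]
  have hfin : ∀ p : ℕ, Summable (fun n : ℕ => (n : ℝ) ^ p * (if n < 3 then ‖ac V n‖ else 0)) := by
    intro p
    apply summable_of_ne_finset_zero (s := Finset.range 3)
    intro n hn
    have : ¬ n < 3 := by simpa using hn
    simp [this]
  have hsa3 : Summable (fun n : ℕ => (n : ℝ) ^ 3 * ‖ac V n‖) := by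
    refine Summable.of_nonneg_of_le (fun n => by positivity) (fun n => ?_) ((hfin 3).add hs3)
    rw [← mul_add]
    exact mul_le_mul_of_nonneg_left (hac n) (by positivity)
  have hsa3' : Summable (fun k : ℕ => ((k : ℝ) + 1) ^ 3 * ‖ac V (k + 1)‖) := by
    have := (summable_nat_add_iff 1).2 hsa3
    refine this.congr fun n => ?_
    push_cast; ring
  set L : ℝ := Om * ∑' k : ℕ, ((k : ℝ) + 1) ^ 3 * ‖ac V (k + 1)‖ with hL
  have hts0 : 0 ≤ ∑' k : ℕ, ((k : ℝ) + 1) ^ 3 * ‖ac V (k + 1)‖ :=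
    tsum_nonneg fun k => by positivity
  have hL0 : 0 ≤ L := mul_nonneg hOm0 hts0
  obtain ⟨e0, he0, hzero⟩ := hZ (fV1 V) qh L L (d / 20000) hqne hL0 hL0 (by positivity)
    (hT V hV0).2.2.2 (hT V hV0).2.1 (hT V hV0).2.2.1
  refine ⟨e0, he0, ?_⟩
  intro lam hlam e he hee hle hd2 hre
  obtain ⟨hDd, hnz⟩ := no_zero hU hT hS V hV0 lam hlam
  have hl1 := lam_one lam hlam
  set b : ℕ → ℂ := fun k => ((k : ℂ) + 1) * ((1 - lam (k + 1)) * ac V (k + 1)) with hb
  have hbn : ∀ k : ℕ, ‖b k‖ ≤ e * Om * (((k : ℝ) + 1) ^ 2 * ‖ac V (k + 1)‖) := by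
    intro k
    have h1 := hle (k + 1) (by omega)
    have h2 := hOm (k + 1) (by omega)
    push_cast at h2
    have h3 : ‖((k : ℂ) + 1)‖ = (k : ℝ) + 1 := by
      have : ((k : ℂ) + 1) = ((k + 1 : ℕ) : ℂ) := by push_cast; ring
      rw [this, Complex.norm_natCast]; push_cast; ring
    rw [hb]
    simp only [norm_mul]
    rw [h3]
    calc ((k : ℝ) + 1) * (‖1 - lam (k + 1)‖ * ‖ac V (k + 1)‖)
        ≤ ((k : ℝ) + 1) * ((e * (Om * ((k : ℝ) + 1))) * ‖ac V (k + 1)‖) := by
          gcongr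
          exact h1.trans (by gcongr)
      _ = e * Om * (((k : ℝ) + 1) ^ 2 * ‖ac V (k + 1)‖) := by ring
  have hk23 : ∀ k : ℕ, ((k : ℝ) + 1) ^ 2 * ‖ac V (k + 1)‖ ≤ ((k : ℝ) + 1) ^ 3 * ‖ac V (k + 1)‖ := by
    intro k
    have : (0 : ℝ) ≤ k := k.cast_nonneg
    gcongr
    · linarith
    · norm_num
  have hsa2' : Summable (fun k : ℕ => ((k : ℝ) + 1) ^ 2 * ‖ac V (k + 1)‖) :=
    Summable.of_nonneg_of_le (fun k => by positivity) hk23 hsa3'
  have hbs : Summable (fun k => ‖b k‖) :=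
    Summable.of_nonneg_of_le (fun k => norm_nonneg _) hbn (hsa2'.mul_left _)
  set D1 : ℂ := ∑' k, b k with hD1
  have hD1n : ‖D1‖ ≤ e * L := by
    calc ‖D1‖ ≤ ∑' k, ‖b k‖ := norm_tsum_le_tsum_norm hbs
      _ ≤ ∑' k : ℕ, e * Om * (((k : ℝ) + 1) ^ 2 * ‖ac V (k + 1)‖) :=
          hbs.tsum_le_tsum hbn (hsa2'.mul_left _)
      _ = e * Om * ∑' k : ℕ, (((k : ℝ) + 1) ^ 2 * ‖ac V (k + 1)‖) := tsum_mul_left
      _ ≤ e * Om * ∑' k : ℕ, (((k : ℝ) + 1) ^ 3 * ‖ac V (k + 1)‖) :=
          mul_le_mul_of_nonneg_left (hsa2'.tsum_le_tsum hk23 hsa3') (by positivity)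
      _ = e * L := by rw [hL]; ring
  have hDl : ∀ z ∈ ball (0 : ℂ) 1, ‖DD lam V z - D1‖ ≤ e * L * ‖1 - z‖ := by
    intro z hz
    have hz1 : ‖z‖ ≤ 1 := (mem_ball_zero_iff.1 hz).le
    have hbz : Summable (fun k => b k * z ^ k) := by
      refine Summable.of_norm_bounded hbs fun k => ?_
      rw [norm_mul, norm_pow]
      exact mul_le_of_le_one_right (norm_nonneg _) (pow_le_one₀ (norm_nonneg _) hz1)
    have hbs' : Summable b := hbs.of_norm
    have hpow : ∀ k : ℕ, ‖z ^ k - 1‖ ≤ (k : ℝ) * ‖1 - z‖ := by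
      intro k
      induction k with
      | zero => simp
      | succ k ih =>
        have : z ^ (k + 1) - 1 = z * (z ^ k - 1) - (1 - z) := by ring
        rw [this]
        calc ‖z * (z ^ k - 1) - (1 - z)‖ ≤ ‖z * (z ^ k - 1)‖ + ‖1 - z‖ := norm_sub_le _ _
          _ ≤ 1 * ((k : ℝ) * ‖1 - z‖) + ‖1 - z‖ := by
              rw [norm_mul]; gcongr
          _ = ((k + 1 : ℕ) : ℝ) * ‖1 - z‖ := by push_cast; ring
    have h1 : DD lam V z - D1 = ∑' k, b k * (z ^ k - 1) := by
      have : DD lam V z = ∑' k, b k * z ^ k := rfl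
      rw [this, hD1, ← hbz.tsum_sub hbs']
      apply tsum_congr; intro k; ring
    have h2 : ∀ k : ℕ, ‖b k * (z ^ k - 1)‖ ≤
        e * Om * ‖1 - z‖ * (((k : ℝ) + 1) ^ 3 * ‖ac V (k + 1)‖) := by
      intro k
      rw [norm_mul]
      calc ‖b k‖ * ‖z ^ k - 1‖
          ≤ (e * Om * (((k : ℝ) + 1) ^ 2 * ‖ac V (k + 1)‖)) * ((k : ℝ) * ‖1 - z‖) :=
            mul_le_mul (hbn k) (hpow k) (norm_nonneg _) (by positivity)
        _ ≤ (e * Om * (((k : ℝ) + 1) ^ 2 * ‖ac V (k + 1)‖)) * (((k : ℝ) + 1) * ‖1 - z‖) := by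
            gcongr; linarith
        _ = _ := by ring
    have h3 : Summable (fun k => ‖b k * (z ^ k - 1)‖) :=
      Summable.of_nonneg_of_le (fun k => norm_nonneg _) h2 (hsa3'.mul_left _)
    rw [h1]
    calc ‖∑' k, b k * (z ^ k - 1)‖ ≤ ∑' k, ‖b k * (z ^ k - 1)‖ := norm_tsum_le_tsum_norm h3
      _ ≤ ∑' k : ℕ, e * Om * ‖1 - z‖ * (((k : ℝ) + 1) ^ 3 * ‖ac V (k + 1)‖) :=
          h3.tsum_le_tsum h2 (hsa3'.mul_left _)
      _ = e * Om * ‖1 - z‖ * ∑' k : ℕ, (((k : ℝ) + 1) ^ 3 * ‖ac V (k + 1)‖) := tsum_mul_left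
      _ = e * L * ‖1 - z‖ := by rw [hL]; ring
  -- the main term
  have hmain : ‖D1 + (1 - lam 2)‖ ≤ d * e / 20000 := by
    have h1 : D1 + (1 - lam 2) = ∑' n : ℕ, (n : ℂ) * ((1 - lam n) * ec V n) := by
      have hc : ∀ n : ℕ, ‖(n : ℂ) * ((1 - lam n) * ec V n)‖ ≤ e * Om * ((n : ℝ) ^ 2 * ‖ec V n‖) := by
        intro n
        rcases Nat.eq_zero_or_pos n with h | h
        · subst h; simp
        · rw [norm_mul, norm_mul, Complex.norm_natCast]
          calc (n : ℝ) * (‖1 - lam n‖ * ‖ec V n‖) ≤ (n : ℝ) * ((e * (Om * n)) * ‖ec V n‖) := by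
                gcongr
                exact (hle n h).trans (by gcongr; exact hOm n h)
            _ = _ := by ring
      have hcs : Summable (fun n : ℕ => (n : ℂ) * ((1 - lam n) * ec V n)) :=
        Summable.of_norm_bounded (hs2.mul_left _) hc
      rw [hcs.tsum_eq_zero_add]
      have hcs' : Summable (fun k : ℕ => ((k + 1 : ℕ) : ℂ) * ((1 - lam (k + 1)) * ec V (k + 1))) :=
        (summable_nat_add_iff 1).2 hcs
      have h2 : D1 = (∑' k : ℕ, ((k + 1 : ℕ) : ℂ) * ((1 - lam (k + 1)) * ec V (k + 1))) +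
          ∑' k : ℕ, (if k = 1 then -(1 - lam 2) else 0) := by
        rw [hD1, ← hcs'.tsum_add (by
          apply summable_of_ne_finset_zero (s := {1})
          intro k hk
          have : k ≠ 1 := by simpa using hk
          simp [this])]
        apply tsum_congr
        intro k
        simp only [hb]
        rcases Nat.lt_or_ge k 2 with hk | hk
        · interval_cases k
          · simp [ac_one, hl1]
          · rw [ac_two]; push_cast; norm_num; ring
        · have hk1 : k ≠ 1 := by omega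
          rw [ac_ge V (k + 1) (by omega), if_neg hk1]
          push_cast; ring
      rw [h2, tsum_ite_eq]
      push_cast
      ring
    rw [h1]
    have hd' : ∀ n : ℕ, ‖(n : ℂ) * ((1 - lam n) * ec V n)‖ ≤
        e * ((if n < N then (n : ℝ) * om n * (K * (2 + n)) * V else 0) +
          1 / (40000 * B) * d * ((n : ℝ) ^ 2 * ‖ec V n‖)) := by
      intro n
      rcases Nat.eq_zero_or_pos n with h | h
      · subst h; simp
      · rw [norm_mul, norm_mul, Complex.norm_natCast]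
        have h0 : (0 : ℝ) ≤ n := n.cast_nonneg
        have h2 : (n : ℝ) * (‖1 - lam n‖ * ‖ec V n‖) ≤ (n : ℝ) * ((e * om n) * ‖ec V n‖) := by
          gcongr
          exact hle n h
        refine h2.trans ?_
        by_cases hn : n < N
        · rw [if_pos hn]
          have h3 : ‖ec V n‖ ≤ K * (2 + n) * V := by
            refine (hK V hV0 hV1 n).trans ?_
            have hx : (1 / (1 + V)) ^ n ≤ 1 := by
              apply pow_le_one₀ (by positivity)
              rw [div_le_one (by positivity)]; linarith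
            have hx0 : 0 ≤ (1 / (1 + V)) ^ n := by positivity
            have hV3 : V ^ 3 ≤ V := by
              calc V ^ 3 = V * V ^ 2 := by ring
                _ ≤ V * 1 := by gcongr; exact pow_le_one₀ hV0.le hV1
                _ = V := mul_one V
            have hV4 : V ^ 4 ≤ V := by
              calc V ^ 4 = V * V ^ 3 := by ring
                _ ≤ V * 1 := by gcongr; exact pow_le_one₀ hV0.le hV1
                _ = V := mul_one V
            calc K * (V ^ 3 * (1 / (1 + V)) ^ n + V ^ 4 * (n + 1) * (1 / (1 + V)) ^ n)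
                ≤ K * (V * 1 + V * (n + 1) * 1) := by gcongr
              _ = K * (2 + n) * V := by ring
          have h4 : 0 ≤ 1 / (40000 * B) * d * ((n : ℝ) ^ 2 * ‖ec V n‖) := by positivity
          have h5 := hom n
          calc (n : ℝ) * ((e * om n) * ‖ec V n‖) ≤ (n : ℝ) * ((e * om n) * (K * (2 + n) * V)) := by
                gcongr
            _ = e * ((n : ℝ) * om n * (K * (2 + n)) * V + 0) := by ring
            _ ≤ _ := by gcongr
        · rw [if_neg hn]
          have h3 := hN n (by omega)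
          calc (n : ℝ) * ((e * om n) * ‖ec V n‖)
              ≤ (n : ℝ) * ((e * (1 / (40000 * B) * d * n)) * ‖ec V n‖) := by gcongr
            _ = e * (0 + 1 / (40000 * B) * d * ((n : ℝ) ^ 2 * ‖ec V n‖)) := by ring
    have hfs : Summable (fun n : ℕ => (if n < N then (n : ℝ) * om n * (K * (2 + n)) * V else 0)) := by
      apply summable_of_ne_finset_zero (s := Finset.range N)
      intro n hn
      have : ¬ n < N := by simpa using hn
      simp [this]
    have hfsum : ∑' n : ℕ, (if n < N then (n : ℝ) * om n * (K * (2 + n)) * V else 0) = V * T := by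
      rw [tsum_eq_sum (s := Finset.range N) (by
        intro n hn
        have : ¬ n < N := by simpa using hn
        simp [this]), hTdef, Finset.mul_sum]
      apply Finset.sum_congr rfl
      intro n hn
      rw [if_pos (Finset.mem_range.1 hn)]
      ring
    have hrs := (hfs.add (hs2.mul_left (1 / (40000 * B) * d))).mul_left e
    have hns : Summable (fun n : ℕ => ‖(n : ℂ) * ((1 - lam n) * ec V n)‖) :=
      Summable.of_nonneg_of_le (fun n => norm_nonneg _) hd' hrs
    calc ‖∑' n : ℕ, (n : ℂ) * ((1 - lam n) * ec V n)‖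
        ≤ ∑' n : ℕ, ‖(n : ℂ) * ((1 - lam n) * ec V n)‖ := norm_tsum_le_tsum_norm hns
      _ ≤ _ := hns.tsum_le_tsum hd' hrs
      _ = e * (V * T + 1 / (40000 * B) * d * ∑' n : ℕ, (n : ℝ) ^ 2 * ‖ec V n‖) := by
          rw [tsum_mul_left, hfs.tsum_add (hs2.mul_left _), hfsum, tsum_mul_left]
      _ ≤ e * (d / 40000 + 1 / (40000 * B) * d * B) := by gcongr
      _ = d * e / 20000 := by field_simp; ring
  have hre2 : e * (d / 20000) ≤ (D1 / qh).re := by
    have h1 : D1 / qh = -((1 - lam 2) / qh) + (D1 + (1 - lam 2)) * (1 / qh) := by ring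
    rw [h1, Complex.add_re, Complex.neg_re]
    have h2 : |((D1 + (1 - lam 2)) * (1 / qh)).re| ≤ d * e / 20000 := by
      refine (Complex.abs_re_le_norm _).trans ?_
      rw [norm_mul]
      calc ‖D1 + (1 - lam 2)‖ * ‖1 / qh‖ ≤ (d * e / 20000) * 1 := by gcongr
        _ = d * e / 20000 := mul_one _
    have h3 := (abs_le.1 h2).1
    have h4 : d * e / 10000 < 1 / 10000 * ‖1 - lam 2‖ := by linarith
    nlinarith
  obtain ⟨z, hz, hFz⟩ := hzero e he hee (DD lam V) D1 hDd hD1n hre2 hDl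
  exact hnz z hz hFz

end Main'

open Main' in
/-- [Main] -/
theorem prfLowMain (hU : Univ) (hT : Tip) (hS : SerV) (hB : BdV) (hSm : SmV) (hZ : ZeroEx)
    (hA : AlgQ) (hN : NleV) (hC : CjV) : LowMain := by
  obtain ⟨c, hc0, hcase⟩ := case1 hU hT hS hB hSm hZ
  refine ⟨c, hc0, ?_⟩
  intro om d hd hev
  have hev' : ∀ᶠ n : ℕ in atTop, max (om n) 0 ≤ c * d * n := by
    filter_upwards [hev] with n hn
    exact max_le hn (by positivity)
  obtain ⟨e0, he0, h⟩ := hcase (fun n => max (om n) 0) d hd (fun n => le_max_right _ _) hev'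
  refine ⟨e0, he0, ?_⟩
  intro lam hlam e he hee hle
  by_contra hcon
  push Not at hcon
  have hle' : ∀ n : ℕ, 1 ≤ n → ‖1 - lam n‖ ≤ e * max (om n) 0 := fun n hn =>
    (hle n hn).trans (by gcongr; exact le_max_left _ _)
  have hre : 0 ≤ (1 - lam 2).re := by
    have h1 := (Complex.re_le_norm (lam 2)).trans (hN lam hlam 2 (by norm_num))
    rw [Complex.sub_re, Complex.one_re]
    linarith
  rcases hA (1 - lam 2) hre with h1 | h1
  · exact h lam hlam e he hee hle' hcon h1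
  · have h2 : ∀ n : ℕ, 1 - conj (lam n) = conj (1 - lam n) := by intro n; simp
    refine h (fun n => conj (lam n)) (hC lam hlam) e he hee ?_ ?_ ?_
    · intro n hn
      simp only [h2, Complex.norm_conj]
      exact hle' n hn
    · simp only [h2, Complex.norm_conj]
      exact hcon
    · simp only [h2, Complex.norm_conj]
      exact h1

end LO
end Pool.Agent.MultS

end

section

/-!
# Multipliers are bounded by one
-/

set_option autoImplicit false

open Complex Metric Set Filter Topology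
open scoped ComplexConjugate

namespace Pool.Agent.MultS
namespace LO

namespace Nle'

/-- the test function -/
noncomputable def ft (n : ℕ) (z : ℂ) : ℂ := z - z ^ n / n

theorem ft_sum (a : ℂ) (n : ℕ) (hn : 2 ≤ n) (z : ℂ) :
    HasSum (fun k : ℕ => (if k = 1 then (1 : ℂ) else if k = n then a else 0) * z ^ k)
      (z + a * z ^ n) := by
  have h1 : HasSum (fun k : ℕ => (if k = 1 then (1 : ℂ) else if k = n then a else 0) * z ^ k)
      (∑ k ∈ ({1, n} : Finset ℕ), (if k = 1 then (1 : ℂ) else if k = n then a else 0) * z ^ k) := by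
    apply hasSum_sum_of_ne_finset_zero
    intro k hk
    simp only [Finset.mem_insert, Finset.mem_singleton, not_or] at hk
    rw [if_neg hk.1, if_neg hk.2, zero_mul]
  rw [Finset.sum_pair (by omega)] at h1
  rw [if_pos rfl, if_neg (by omega : ¬ n = 1), if_pos rfl] at h1
  simpa using h1

theorem ft_Sc (n : ℕ) (hn : 2 ≤ n) : Sc (ft n) := by
  have hn0 : (n : ℂ) ≠ 0 := by
    have : n ≠ 0 := by omega
    exact_mod_cast this
  have hd : ∀ z : ℂ, HasDerivAt (ft n) (1 - z ^ (n - 1)) z := by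
    intro z
    have h1 := (hasDerivAt_id z).sub ((hasDerivAt_pow n z).div_const (n : ℂ))
    convert! h1 using 1
    field_simp
  refine ⟨fun z _ => (hd z).differentiableAt.differentiableWithinAt, ?_, ?_, ?_⟩
  · intro z hz w hw h
    by_contra hne
    have hz1 : ‖z‖ < 1 := by simpa using hz
    have hw1 : ‖w‖ < 1 := by simpa using hw
    have h1 : (z - w) * ((n : ℂ) - ∑ i ∈ Finset.range n, z ^ i * w ^ (n - 1 - i)) = 0 := by
      have h2 := (Commute.all z w).geom_sum₂_mul n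
      have h3 : (n : ℂ) * (z - w) = z ^ n - w ^ n := by
        have h4 : z - z ^ n / n = w - w ^ n / n := h
        field_simp at h4
        linear_combination h4
      linear_combination h3 - h2
    rcases mul_eq_zero.mp h1 with h2 | h2
    · exact hne (sub_eq_zero.mp h2)
    · have h3 : (n : ℂ) = ∑ i ∈ Finset.range n, z ^ i * w ^ (n - 1 - i) := sub_eq_zero.mp h2
      set r := max ‖z‖ ‖w‖ with hr
      have hr0 : 0 ≤ r := le_max_of_le_left (norm_nonneg _)
      have hr1 : r < 1 := max_lt hz1 hw1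
      have h4 : (n : ℝ) ≤ ∑ i ∈ Finset.range n, r ^ (n - 1) := by
        have h5 : (n : ℝ) = ‖(n : ℂ)‖ := by simp
        rw [h5, h3]
        refine (norm_sum_le _ _).trans (Finset.sum_le_sum fun i hi => ?_)
        rw [norm_mul, norm_pow, norm_pow]
        have hi' : i ≤ n - 1 := by
          have := Finset.mem_range.mp hi
          omega
        calc ‖z‖ ^ i * ‖w‖ ^ (n - 1 - i) ≤ r ^ i * r ^ (n - 1 - i) := by
              apply mul_le_mul
              · exact pow_le_pow_left₀ (norm_nonneg _) (le_max_left _ _) _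
              · exact pow_le_pow_left₀ (norm_nonneg _) (le_max_right _ _) _
              · positivity
              · positivity
          _ = r ^ (n - 1) := by rw [← pow_add]; congr 1; omega
      rw [Finset.sum_const, Finset.card_range, nsmul_eq_mul] at h4
      have h5 : r ^ (n - 1) < 1 := pow_lt_one₀ hr0 hr1 (by omega)
      have h6 : (0 : ℝ) < n := by
        have : 0 < n := by omega
        exact_mod_cast this
      nlinarith
  · unfold ft
    have : n ≠ 0 := by omega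
    simp [this]
  · rw [(hd 0).deriv]
    have : n - 1 ≠ 0 := by omega
    simp [this]

theorem tc_ft (n : ℕ) (hn : 2 ≤ n) (k : ℕ) :
    tc (ft n) k = if k = 1 then (1 : ℂ) else if k = n then -(1 / (n : ℂ)) else 0 := by
  refine tc_of_hasSum (c := fun k => if k = 1 then (1 : ℂ) else if k = n then -(1 / (n : ℂ)) else 0)
    (fun z _ => ?_) k
  have h := ft_sum (-(1 / (n : ℂ))) n hn z
  convert! h using 1
  unfold ft
  ring

theorem lam_one {lam : ℕ → ℂ} (h : IsMult lam) : lam 1 = 1 := by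
  obtain ⟨g, hg, hgt⟩ := h (ft 2) (ft_Sc 2 le_rfl)
  have h1 := hgt 1 le_rfl
  rw [tc_one, hg.2.2.2, tc_ft 2 le_rfl, if_pos rfl, mul_one] at h1
  exact h1.symm

end Nle'

open Nle'

theorem prfNleV : NleV := by
  intro lam hl n hn
  rcases Nat.lt_or_ge n 2 with h2 | h2
  · have : n = 1 := by omega
    subst this
    rw [lam_one hl]; simp
  by_contra hc
  push Not at hc
  obtain ⟨g, hg, hgt⟩ := hl (ft n) (ft_Sc n h2)
  have hn0 : (n : ℂ) ≠ 0 := by
    have : n ≠ 0 := by omega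
    exact_mod_cast this
  have hgc : ∀ k, tc g k = if k = 1 then (1 : ℂ) else if k = n then -(lam n / (n : ℂ)) else 0 := by
    intro k
    rcases Nat.eq_zero_or_pos k with rfl | hk
    · rw [tc_zero, hg.2.2.1, if_neg (by norm_num), if_neg (by omega)]
    · rw [hgt k hk, tc_ft n h2]
      split_ifs with h3 h4
      · rw [h3, lam_one hl, mul_one]
      · rw [h4]; ring
      · simp
  have hgz : ∀ z ∈ ball (0 : ℂ) 1, g z = z + -(lam n / (n : ℂ)) * z ^ n := by
    intro z hz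
    have h3 := hasSum_tc hg.1 hz
    simp_rw [hgc] at h3
    exact h3.unique (ft_sum _ n h2 z)
  have hln : lam n ≠ 0 := by
    intro h0
    rw [h0, norm_zero] at hc
    linarith
  obtain ⟨z, hz⟩ := IsAlgClosed.exists_pow_nat_eq (lam n)⁻¹ (n := n - 1) (by omega)
  have hz1 : ‖z‖ < 1 := by
    by_contra hcc
    push Not at hcc
    have h3 : 1 ≤ ‖z‖ ^ (n - 1) := one_le_pow₀ hcc
    rw [← norm_pow, hz, norm_inv] at h3
    have h4 : ‖lam n‖⁻¹ < 1 := inv_lt_one_of_one_lt₀ hc
    linarith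
  have hzb : z ∈ ball (0 : ℂ) 1 := by simpa using hz1
  have h5 : deriv g z ≠ 0 := prfDerNe (ball 0 1) g isOpen_ball hg.1 hg.2.1 z hzb
  apply h5
  have h6 : g =ᶠ[𝓝 z] fun w => w + -(lam n / (n : ℂ)) * w ^ n := by
    filter_upwards [isOpen_ball.mem_nhds hzb] with w hw using hgz w hw
  rw [h6.deriv_eq]
  have h7 : HasDerivAt (fun w : ℂ => w + -(lam n / (n : ℂ)) * w ^ n)
      (1 + -(lam n / (n : ℂ)) * ((n : ℂ) * z ^ (n - 1))) z :=
    (hasDerivAt_id z).add ((hasDerivAt_pow n z).const_mul _)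
  rw [h7.deriv, hz]
  field_simp
  ring

end LO
end Pool.Agent.MultS

end

section

/-!
# Semigroups of multipliers
-/

set_option autoImplicit false

open Complex Metric Set Filter Topology
open scoped ComplexConjugate

namespace Pool.Agent.MultS
namespace LO

/-- `|1 - exp (-w)| ≤ |w|` in the right half plane. -/
lemma norm_one_sub_exp_neg_le (w : ℂ) (hw : 0 ≤ w.re) : ‖1 - Complex.exp (-w)‖ ≤ ‖w‖ := by
  have hconv : Convex ℝ {z : ℂ | z.re ≤ 0} := convex_halfSpace_re_le 0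
  have h := hconv.norm_image_sub_le_of_norm_hasDerivWithin_le (f := Complex.exp)
    (f' := Complex.exp) (C := 1) (x := -w) (y := 0)
    (fun x _ => (Complex.hasDerivAt_exp x).hasDerivWithinAt)
    (fun x hx => by
      rw [Complex.norm_exp]
      exact Real.exp_le_one_iff.2 hx)
    (by simp [hw]) (by simp)
  simpa using h

/-- [Semi] -/
theorem prfLowSemi (hM : LowMain) (hN : NleV) (hO : OneV) : LowSemi := by
  obtain ⟨c, hc, hmain⟩ := hM
  refine ⟨c / 2, by positivity, ?_⟩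
  intro ga hga
  have hre : ∀ n : ℕ, 1 ≤ n → 0 ≤ (ga n).re := by
    intro n hn
    have h1 := hN _ (hga 1 one_pos) n hn
    rw [Complex.norm_exp, Real.exp_le_one_iff] at h1
    simpa using h1
  have hup : ∀ n : ℕ, 1 ≤ n → ∀ t : ℝ, 0 < t →
      ‖1 - Complex.exp (-(t * ga n))‖ ≤ t * ‖ga n‖ := by
    intro n hn t ht
    have h1 := norm_one_sub_exp_neg_le (t * ga n) (by
      rw [Complex.re_ofReal_mul]
      exact mul_nonneg ht.le (hre n hn))
    rwa [norm_mul, Complex.norm_of_nonneg ht.le] at h1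
  have hlow : ∀ (w : ℂ), ‖w‖ ≤ 1 → ‖w‖ - ‖w‖ ^ 2 ≤ ‖1 - Complex.exp (-w)‖ := by
    intro w hw
    have h1 := Complex.norm_exp_sub_one_sub_id_le (x := -w) (by simpa using hw)
    have h2 : w = (1 - Complex.exp (-w)) + (Complex.exp (-w) - 1 - -w) := by ring
    have h3 : ‖w‖ ≤ ‖1 - Complex.exp (-w)‖ + ‖Complex.exp (-w) - 1 - -w‖ := by
      calc ‖w‖ = ‖(1 - Complex.exp (-w)) + (Complex.exp (-w) - 1 - -w)‖ := by rw [← h2]
        _ ≤ _ := norm_add_le _ _
    rw [norm_neg] at h1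
    linarith
  by_cases h2 : ga 2 = 0
  · left
    intro n hn
    by_contra hne
    have hpos : 0 < ‖ga n‖ := norm_pos_iff.2 hne
    set t : ℝ := 1 / (2 * ‖ga n‖) with ht
    have ht0 : 0 < t := by positivity
    have h3 := hO _ (hga t ht0) (by simp [h2]) n hn
    have h4 : ‖(t : ℂ) * ga n‖ = 1 / 2 := by
      rw [norm_mul, Complex.norm_of_nonneg ht0.le, ht]
      field_simp
    have h5 := hlow (t * ga n) (by rw [h4]; norm_num)
    rw [h3, h4] at h5
    norm_num at h5
  · right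
    refine ⟨h2, ?_⟩
    intro hcon
    have hpos : 0 < ‖ga 2‖ := norm_pos_iff.2 h2
    have hev : ∀ᶠ n : ℕ in atTop, ‖ga n‖ ≤ c * (‖ga 2‖ / 2) * n := by
      filter_upwards [hcon] with n hn
      have := not_le.1 hn
      nlinarith
    obtain ⟨e0, he0, h⟩ := hmain (fun n => ‖ga n‖) (‖ga 2‖ / 2) (by positivity) hev
    set t : ℝ := min (e0 / 2) (1 / (4 * ‖ga 2‖)) with ht
    have ht0 : 0 < t := by positivity
    have ht1 : t < e0 := lt_of_le_of_lt (min_le_left _ _) (by linarith)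
    have ht2 : t * ‖ga 2‖ ≤ 1 / 4 := by
      calc t * ‖ga 2‖ ≤ 1 / (4 * ‖ga 2‖) * ‖ga 2‖ := by gcongr; exact min_le_right _ _
        _ = 1 / 4 := by field_simp
    have h3 := h _ (hga t ht0) t ht0 ht1 (fun n hn => hup n hn t ht0)
    have h4 : ‖(t : ℂ) * ga 2‖ = t * ‖ga 2‖ := by
      rw [norm_mul, Complex.norm_of_nonneg ht0.le]
    have h5 := hlow (t * ga 2) (by rw [h4]; linarith)
    rw [h4] at h5
    have h6 : ‖1 - Complex.exp (-(t * ga 2))‖ ≤ ‖ga 2‖ / 2 * t := by
      simpa using h3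
    have h7 : 0 < t * ‖ga 2‖ := by positivity
    nlinarith

end LO
end Pool.Agent.MultS

end

section

set_option autoImplicit false

open Complex Metric Set Filter Topology
open scoped ComplexConjugate

namespace Pool.Agent.MultS
namespace LO
namespace Ser'

theorem re_ss (V : ℝ) (i : Fin 3) : (ss V i).re = 1 + V := by
  fin_cases i <;> simp [ss, rh]

theorem norm_ss (V : ℝ) (i : Fin 3) : 1 + V ≤ ‖ss V i‖ := by
  have h1 := Complex.re_le_norm (ss V i)
  rwa [re_ss] at h1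

theorem ss_ne (V : ℝ) (hV : 0 < V) (i : Fin 3) : ss V i ≠ 0 := by
  intro h
  have := norm_ss V i
  rw [h, norm_zero] at this
  linarith

theorem ss_sub_ne (V : ℝ) (hV : 0 < V) (i : Fin 3) (z : ℂ) (hz : ‖z‖ ≤ 1) : ss V i - z ≠ 0 := by
  intro h
  have h1 := norm_ss V i
  rw [sub_eq_zero] at h
  rw [h] at h1
  linarith

theorem norm_ratio (V : ℝ) (hV : 0 < V) (i : Fin 3) (z : ℂ) (hz : ‖z‖ ≤ 1) :
    ‖z * (ss V i)⁻¹‖ < 1 := by
  have h1 := norm_ss V i
  rw [norm_mul, norm_inv]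
  rw [← div_eq_mul_inv, div_lt_one (by linarith)]
  linarith

theorem term_eq (s z : ℂ) (n : ℕ) : s⁻¹ * (z * s⁻¹) ^ n = s⁻¹ ^ (n + 1) * z ^ n := by
  rw [mul_pow, pow_succ]
  ring

theorem geo (V : ℝ) (hV : 0 < V) (i : Fin 3) (z : ℂ) (hz : ‖z‖ ≤ 1) :
    HasSum (fun n : ℕ => (ss V i)⁻¹ ^ (n + 1) * z ^ n) (1 / (ss V i - z)) := by
  have h1 := (hasSum_geometric_of_norm_lt_one (norm_ratio V hV i z hz)).mul_left (ss V i)⁻¹
  have h2 : (ss V i)⁻¹ * (1 - z * (ss V i)⁻¹)⁻¹ = 1 / (ss V i - z) := by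
    have e1 := ss_ne V hV i
    rw [← mul_inv, one_div]
    congr 1
    field_simp
  rw [h2] at h1
  simpa only [term_eq] using h1

theorem geoN (V : ℝ) (hV : 0 < V) (i : Fin 3) (z : ℂ) (hz : ‖z‖ ≤ 1) :
    Summable (fun n : ℕ => ‖(ss V i)⁻¹ ^ (n + 1) * z ^ n‖) := by
  have h1 := (summable_geometric_of_lt_one (norm_nonneg _) (norm_ratio V hV i z hz)).mul_left
    ‖(ss V i)⁻¹‖
  refine h1.congr fun n => ?_
  rw [← term_eq, norm_mul (ss V i)⁻¹, norm_pow]

theorem wsum (V : ℝ) (hV : 0 < V) (c : Fin 3 → ℂ) (z : ℂ) (hz : ‖z‖ ≤ 1) :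
    HasSum (fun n : ℕ => (∑ i, c i * (ss V i)⁻¹ ^ (n + 1)) * z ^ n)
      (∑ i, c i / (ss V i - z)) := by
  have h1 : HasSum (fun n : ℕ => ∑ i : Fin 3, c i * ((ss V i)⁻¹ ^ (n + 1) * z ^ n))
      (∑ i : Fin 3, c i * (1 / (ss V i - z))) :=
    hasSum_sum fun i _ => (geo V hV i z hz).mul_left (c i)
  have h2 : (∑ i : Fin 3, c i * (1 / (ss V i - z))) = ∑ i, c i / (ss V i - z) :=
    Finset.sum_congr rfl fun i _ => by rw [mul_one_div]
  have h3 : (fun n : ℕ => ∑ i : Fin 3, c i * ((ss V i)⁻¹ ^ (n + 1) * z ^ n)) =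
      fun n : ℕ => (∑ i, c i * (ss V i)⁻¹ ^ (n + 1)) * z ^ n := by
    funext n
    rw [Finset.sum_mul]
    exact Finset.sum_congr rfl fun i _ => by rw [mul_assoc]
  rw [h2, h3] at h1
  exact h1

theorem wsumN (V : ℝ) (hV : 0 < V) (c : Fin 3 → ℂ) (z : ℂ) (hz : ‖z‖ ≤ 1) :
    Summable (fun n : ℕ => ‖(∑ i, c i * (ss V i)⁻¹ ^ (n + 1)) * z ^ n‖) := by
  have h1 : Summable (fun n : ℕ => ∑ i : Fin 3, ‖c i‖ * ‖(ss V i)⁻¹ ^ (n + 1) * z ^ n‖) :=
    summable_sum fun i _ => (geoN V hV i z hz).mul_left ‖c i‖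
  refine Summable.of_nonneg_of_le (fun n => norm_nonneg _) (fun n => ?_) h1
  rw [Finset.sum_mul]
  refine (norm_sum_le _ _).trans (Finset.sum_le_sum fun i _ => ?_)
  rw [mul_assoc, norm_mul]

theorem sq (V : ℝ) (hV : 0 < V) (z : ℂ) (hz : ‖z‖ ≤ 1) :
    HasSum (fun n : ℕ => (∑ k ∈ Finset.range (n + 1), Qc V k * Qc V (n - k)) * z ^ n)
      (QQ V z ^ 2) := by
  have h0 : HasSum (fun n : ℕ => Qc V n * z ^ n) (QQ V z) := wsum V hV rr z hz
  have hN : Summable (fun n : ℕ => ‖Qc V n * z ^ n‖) := wsumN V hV rr z hz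
  have h1 := hasSum_sum_range_mul_of_summable_norm hN hN
  rw [h0.tsum_eq, ← pow_two] at h1
  have h3 : (fun n : ℕ => ∑ k ∈ Finset.range (n + 1), Qc V k * z ^ k *
      (Qc V (n - k) * z ^ (n - k))) =
      fun n : ℕ => (∑ k ∈ Finset.range (n + 1), Qc V k * Qc V (n - k)) * z ^ n := by
    funext n
    rw [Finset.sum_mul]
    refine Finset.sum_congr rfl fun k hk => ?_
    have hk' : k ≤ n := by
      have := Finset.mem_range.1 hk
      omega
    have e : z ^ n = z ^ k * z ^ (n - k) := by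
      rw [← pow_add]
      congr 1
      omega
    rw [e]
    ring
  rw [h3] at h1
  exact h1

theorem alg (V : ℝ) (hV : 0 < V) (z : ℂ) (hz : ‖z‖ ≤ 1) :
    fV V z - (1 / 2 - (1 + 100 * V) ^ 2 / 2 - V ^ 2 * ∑ i, rr i + (1 + 100 * V) * z - z ^ 2 / 2) =
      -(V : ℂ) ^ 3 * (∑ i, (rr i * (99 + rh i)) / (ss V i - z)) -
        (V : ℂ) ^ 4 / 2 * QQ V z ^ 2 := by
  have h1 : (1 + 100 * (V : ℂ) - z) * QQ V z =
      ∑ i, rr i + V * ∑ i, (rr i * (99 + rh i)) / (ss V i - z) := by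
    unfold QQ
    rw [Finset.mul_sum, Finset.mul_sum, ← Finset.sum_add_distrib]
    refine Finset.sum_congr rfl fun i _ => ?_
    have e1 := ss_sub_ne V hV i z hz
    have e2 : 1 + 100 * (V : ℂ) - z = (ss V i - z) + V * (99 + rh i) := by
      unfold ss
      ring
    rw [e2]
    field_simp
  have h2 : WW V z = (1 + 100 * (V : ℂ) - z) + V ^ 2 * QQ V z := by
    unfold WW
    ring
  have h3 : WW V z ^ 2 = (1 + 100 * (V : ℂ) - z) ^ 2 + 2 * V ^ 2 *
      ((1 + 100 * (V : ℂ) - z) * QQ V z) + V ^ 4 * QQ V z ^ 2 := by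
    rw [h2]
    ring
  unfold fV
  rw [h3, h1]
  ring

end Ser'

theorem prfSerV : SerV := by
  intro V hV z hz
  have hz' : ‖z‖ ≤ 1 := by simpa using hz
  rw [Ser'.alg V hV z hz']
  have h1 := ((Ser'.wsum V hV (fun i => rr i * (99 + rh i)) z hz').mul_left (-(V : ℂ) ^ 3)).sub
    ((Ser'.sq V hV z hz').mul_left ((V : ℂ) ^ 4 / 2))
  have h3 : (fun n : ℕ => -(V : ℂ) ^ 3 * ((∑ i, rr i * (99 + rh i) * (ss V i)⁻¹ ^ (n + 1)) *
      z ^ n) - (V : ℂ) ^ 4 / 2 * ((∑ k ∈ Finset.range (n + 1), Qc V k * Qc V (n - k)) * z ^ n)) =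
      fun n : ℕ => ec V n * z ^ n := by
    funext n
    unfold ec
    ring
  rw [h3] at h1
  exact h1

end LO
end Pool.Agent.MultS

end

section

set_option autoImplicit false

open Complex Metric Set Filter Topology
open scoped ComplexConjugate

namespace Pool.Agent.MultS
namespace LO
namespace Sm'

theorem choose_two (n : ℕ) : (n : ℝ) ^ 2 ≤ 2 * ((n + 2).choose 2 : ℝ) := by
  have h := Nat.ascFactorial_eq_factorial_mul_choose n 2
  simp only [Nat.ascFactorial, Nat.factorial] at h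
  have h' : ((n : ℝ) + 1 + 1) * ((n + 1 + 0) * 1) = (1 + 1) * ((0 + 1) * 1) *
      ((n + 2).choose 2 : ℝ) := by
    exact_mod_cast h
  have hn : (0 : ℝ) ≤ n := Nat.cast_nonneg n
  nlinarith

theorem choose_three (n : ℕ) : (n : ℝ) ^ 2 * (n + 1) ≤ 6 * ((n + 3).choose 3 : ℝ) := by
  have h := Nat.ascFactorial_eq_factorial_mul_choose n 3
  simp only [Nat.ascFactorial, Nat.factorial] at h
  have h' : ((n : ℝ) + 1 + 2) * ((n + 1 + 1) * ((n + 1 + 0) * 1)) =
      (2 + 1) * ((1 + 1) * ((0 + 1) * 1)) * ((n + 3).choose 3 : ℝ) := by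
    exact_mod_cast h
  have hn : (0 : ℝ) ≤ n := Nat.cast_nonneg n
  have h6 : 6 * ((n + 3).choose 3 : ℝ) = ((n : ℝ) + 3) * ((n + 2) * (n + 1)) := by
    linarith
  rw [h6]
  have : (n : ℝ) ^ 2 ≤ ((n : ℝ) + 3) * (n + 2) := by nlinarith
  calc (n : ℝ) ^ 2 * (n + 1) ≤ (((n : ℝ) + 3) * (n + 2)) * (n + 1) :=
        mul_le_mul_of_nonneg_right this (by positivity)
    _ = _ := by ring

end Sm'

open Sm' in
theorem prfSmV (h : BdV) : SmV := by
  obtain ⟨K, hK, hb⟩ := h
  refine ⟨K * 112, by positivity, fun V hV hV1 => ?_⟩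
  have hV0 : V ≠ 0 := hV.ne'
  set x : ℝ := 1 / (1 + V) with hx
  have hx0 : 0 < x := by positivity
  have h1x : 1 - x = V / (1 + V) := by
    rw [hx]
    field_simp
    ring
  have hx1 : x < 1 := by
    have : 0 < 1 - x := by
      rw [h1x]
      positivity
    linarith
  have hxn : ‖x‖ < 1 := by
    rw [Real.norm_eq_abs, abs_of_pos hx0]
    exact hx1
  have hbd : ∀ n, ‖ec V n‖ ≤ K * (V ^ 3 * x ^ n + V ^ 4 * (n + 1) * x ^ n) := hb V hV hV1
  -- the second moment
  have hs2 := hasSum_choose_mul_geometric_of_norm_lt_one 2 hxn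
  have hs3 := hasSum_choose_mul_geometric_of_norm_lt_one 3 hxn
  have hS : HasSum (fun n : ℕ => K * (V ^ 3 * 2 * (((n + 2).choose 2 : ℝ) * x ^ n) +
      V ^ 4 * 6 * (((n + 3).choose 3 : ℝ) * x ^ n)))
      (K * (V ^ 3 * 2 * (1 / (1 - x) ^ (2 + 1)) + V ^ 4 * 6 * (1 / (1 - x) ^ (3 + 1)))) :=
    ((hs2.mul_left (V ^ 3 * 2)).add (hs3.mul_left (V ^ 4 * 6))).mul_left K
  have hle : ∀ n : ℕ, (n : ℝ) ^ 2 * ‖ec V n‖ ≤
      K * (V ^ 3 * 2 * (((n + 2).choose 2 : ℝ) * x ^ n) +
      V ^ 4 * 6 * (((n + 3).choose 3 : ℝ) * x ^ n)) := by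
    intro n
    have h2 := choose_two n
    have h3 := choose_three n
    have hxp : 0 ≤ x ^ n := by positivity
    calc (n : ℝ) ^ 2 * ‖ec V n‖
        ≤ (n : ℝ) ^ 2 * (K * (V ^ 3 * x ^ n + V ^ 4 * (n + 1) * x ^ n)) :=
          mul_le_mul_of_nonneg_left (hbd n) (by positivity)
      _ = K * (V ^ 3 * ((n : ℝ) ^ 2 * x ^ n) + V ^ 4 * (((n : ℝ) ^ 2 * (n + 1)) * x ^ n)) := by
          ring
      _ ≤ K * (V ^ 3 * ((2 * ((n + 2).choose 2 : ℝ)) * x ^ n) +
            V ^ 4 * ((6 * ((n + 3).choose 3 : ℝ)) * x ^ n)) := by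
          gcongr
      _ = _ := by ring
  have hsum2 : Summable (fun n : ℕ => (n : ℝ) ^ 2 * ‖ec V n‖) :=
    Summable.of_nonneg_of_le (fun n => by positivity) hle hS.summable
  refine ⟨hsum2, ?_, ?_⟩
  · have hp3 := summable_pow_mul_geometric_of_norm_lt_one 3 hxn
    have hp4 := summable_pow_mul_geometric_of_norm_lt_one 4 hxn
    have hS3 : Summable (fun n : ℕ => K * (V ^ 3 * ((n : ℝ) ^ 3 * x ^ n) +
        V ^ 4 * ((n : ℝ) ^ 4 * x ^ n + (n : ℝ) ^ 3 * x ^ n))) :=
      ((hp3.mul_left (V ^ 3)).add ((hp4.add hp3).mul_left (V ^ 4))).mul_left K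
    refine Summable.of_nonneg_of_le (fun n => by positivity) (fun n => ?_) hS3
    calc (n : ℝ) ^ 3 * ‖ec V n‖
        ≤ (n : ℝ) ^ 3 * (K * (V ^ 3 * x ^ n + V ^ 4 * (n + 1) * x ^ n)) :=
          mul_le_mul_of_nonneg_left (hbd n) (by positivity)
      _ = _ := by ring
  · calc ∑' n : ℕ, (n : ℝ) ^ 2 * ‖ec V n‖
        ≤ K * (V ^ 3 * 2 * (1 / (1 - x) ^ (2 + 1)) + V ^ 4 * 6 * (1 / (1 - x) ^ (3 + 1))) := by
          rw [← hS.tsum_eq]
          exact hsum2.tsum_le_tsum hle hS.summable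
      _ = K * (2 * (1 + V) ^ 3 + 6 * (1 + V) ^ 4) := by
          rw [h1x]
          have h1V : (1 + V) ≠ 0 := by positivity
          have e3 : V ^ 3 * 2 * (1 / (V / (1 + V)) ^ (2 + 1)) = 2 * (1 + V) ^ 3 := by
            rw [div_pow, one_div_div]
            field_simp
            ring
          have e4 : V ^ 4 * 6 * (1 / (V / (1 + V)) ^ (3 + 1)) = 6 * (1 + V) ^ 4 := by
            rw [div_pow, one_div_div]
            field_simp
            ring
          rw [e3, e4]
      _ ≤ K * 112 := by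
          refine mul_le_mul_of_nonneg_left ?_ hK.le
          have e1 : (1 + V) ^ 3 ≤ 2 ^ 3 := pow_le_pow_left₀ (by positivity) (by linarith) 3
          have e2 : (1 + V) ^ 4 ≤ 2 ^ 4 := pow_le_pow_left₀ (by positivity) (by linarith) 4
          norm_num at e1 e2
          linarith

end LO
end Pool.Agent.MultS

end

section

set_option autoImplicit false

open Complex Metric Set Filter Topology
open scoped ComplexConjugate

namespace Pool.Agent.MultS
namespace LO
namespace Tip'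

theorem inv0 : (1 - rh 0)⁻¹ = 1 := by
  simp [rh]

theorem inv1 : (1 - rh 1)⁻¹ = (1 + 3 * I) / 10 := by
  apply inv_eq_of_mul_eq_one_right
  have h : rh 1 = 3 * I := rfl
  rw [h]
  have : (1 - 3 * I) * ((1 + 3 * I) / 10) = (1 - 9 * (I * I)) / 10 := by ring
  rw [this, I_mul_I]
  norm_num

theorem inv2 : (1 - rh 2)⁻¹ = (9 / 10) * (1 - I / 3) := by
  apply inv_eq_of_mul_eq_one_right
  have h : rh 2 = -(1 / 3) * I := rfl
  rw [h]
  have : (1 - -(1 / 3) * I) * ((9 / 10) * (1 - I / 3)) = (9 / 10) * (1 - (I * I) / 9) := by ring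
  rw [this, I_mul_I]
  norm_num

theorem r0 : rr 0 = 1 := rfl
theorem r1 : rr 1 = (9 / 10) * (-63 - 16 * I) := rfl
theorem r2 : rr 2 = (1 / 10) * (-63 - 16 * I) := rfl

theorem S1 : ∑ i, rr i * (1 - rh i)⁻¹ = -(13 / 2) - 18 * I := by
  rw [Fin.sum_univ_three, inv0, inv1, inv2, r0, r1, r2]
  have : (1 : ℂ) * 1 + (9 / 10) * (-63 - 16 * I) * ((1 + 3 * I) / 10) +
      (1 / 10) * (-63 - 16 * I) * ((9 / 10) * (1 - I / 3)) =
      1 + (9 / 100) * (-63 - 205 * I - 48 * (I * I)) +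
        (9 / 100) * (-63 + 5 * I + (16 / 3) * (I * I)) := by ring
  rw [this, I_mul_I]
  ring

theorem S2 : ∑ i, rr i * ((1 - rh i)⁻¹) ^ 2 = 1 := by
  rw [Fin.sum_univ_three, inv0, inv1, inv2, r0, r1, r2]
  have h1 : ((1 + 3 * I) / 10) ^ 2 = (-8 + 6 * I) / 100 := by
    have : ((1 + 3 * I) / 10) ^ 2 = (1 + 6 * I + 9 * (I * I)) / 100 := by ring
    rw [this, I_mul_I]
    ring
  have h2 : ((9 / 10) * (1 - I / 3)) ^ 2 = (72 - 54 * I) / 100 := by
    have : ((9 / 10) * (1 - I / 3)) ^ 2 = (81 - 54 * I + 9 * (I * I)) / 100 := by ring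
    rw [this, I_mul_I]
    ring
  rw [h1, h2]
  ring

theorem S3 : ∑ i, rr i * ((1 - rh i)⁻¹) ^ 3 = -(197 / 100) + (504 / 100) * I := by
  rw [Fin.sum_univ_three, inv0, inv1, inv2, r0, r1, r2]
  have h1 : ((1 + 3 * I) / 10) ^ 3 = (-26 - 18 * I) / 1000 := by
    have : ((1 + 3 * I) / 10) ^ 3 = (1 + 9 * I + 27 * (I * I) + 27 * (I * I) * I) / 1000 := by
      ring
    rw [this, I_mul_I]
    ring
  have h2 : ((9 / 10) * (1 - I / 3)) ^ 3 = (486 - 702 * I) / 1000 := by
    have : ((9 / 10) * (1 - I / 3)) ^ 3 =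
        (729 - 729 * I + 243 * (I * I) - 27 * (I * I) * I) / 1000 := by ring
    rw [this, I_mul_I]
    ring
  rw [h1, h2]
  have : (1 : ℂ) * 1 ^ 3 + (9 / 10) * (-63 - 16 * I) * ((-26 - 18 * I) / 1000) +
      (1 / 10) * (-63 - 16 * I) * ((486 - 702 * I) / 1000) =
      1 + (9 / 10000) * (1638 + 1550 * I + 288 * (I * I)) +
        (1 / 10000) * (-30618 + 36450 * I + 11232 * (I * I)) := by ring
  rw [this, I_mul_I]
  ring

theorem rh_re (i : Fin 3) : (rh i).re = 0 := by
  have h : i = 0 ∨ i = 1 ∨ i = 2 := by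
    fin_cases i <;> simp
  rcases h with rfl | rfl | rfl
  · simp [rh]
  · have h : rh 1 = 3 * I := rfl
    rw [h]
    simp
  · have h : rh 2 = -(1 / 3) * I := rfl
    rw [h]
    simp

theorem ne (V : ℝ) (hV : 0 < V) (z : ℂ) (hz : z.re ≤ 1) (i : Fin 3) : ss V i - z ≠ 0 := by
  intro h
  have h1 : (ss V i - z).re = 0 := by rw [h]; simp
  have h2 : (ss V i).re = 1 + V := by
    unfold ss
    have h3 := rh_re i
    simp [h3]
  rw [Complex.sub_re, h2] at h1
  linarith

theorem dinv (V : ℝ) (i : Fin 3) (z : ℂ) (h : ss V i - z ≠ 0) :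
    HasDerivAt (fun z => rr i / (ss V i - z)) (rr i / (ss V i - z) ^ 2) z := by
  have h1 : HasDerivAt (fun z : ℂ => ss V i - z) (-1) z := by
    simpa using (hasDerivAt_id z).const_sub (ss V i)
  have h2 := (h1.inv h).const_mul (rr i)
  have h3 : rr i * (-(-1) / (ss V i - z) ^ 2) = rr i / (ss V i - z) ^ 2 := by
    rw [neg_neg, one_div, div_eq_mul_inv]
  rw [h3] at h2
  refine h2.congr_of_eventuallyEq (Eventually.of_forall fun w => ?_)
  simp [div_eq_mul_inv]

theorem dinv2 (V : ℝ) (i : Fin 3) (z : ℂ) (h : ss V i - z ≠ 0) :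
    HasDerivAt (fun z => rr i / (ss V i - z) ^ 2) (2 * (rr i / (ss V i - z) ^ 3)) z := by
  have h1 : HasDerivAt (fun z : ℂ => ss V i - z) (-1) z := by
    simpa using (hasDerivAt_id z).const_sub (ss V i)
  have h2 := (h1.inv h).pow 2
  have h4 := h2.const_mul (rr i)
  have h3 : rr i * ((2 : ℕ) * ((fun z : ℂ => ss V i - z)⁻¹ z) ^ (2 - 1) *
      (-(-1) / (ss V i - z) ^ 2)) = 2 * (rr i / (ss V i - z) ^ 3) := by
    simp only [Pi.inv_apply]
    push_cast
    field_simp
  rw [h3] at h4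
  refine h4.congr_of_eventuallyEq (Eventually.of_forall fun w => ?_)
  simp [div_eq_mul_inv]

theorem dQ (V : ℝ) (z : ℂ) (h : ∀ i, ss V i - z ≠ 0) :
    HasDerivAt (QQ V) (∑ i, rr i / (ss V i - z) ^ 2) z :=
  HasDerivAt.fun_sum fun i _ => dinv V i z (h i)

theorem dQ2 (V : ℝ) (z : ℂ) (h : ∀ i, ss V i - z ≠ 0) :
    HasDerivAt (fun z => ∑ i, rr i / (ss V i - z) ^ 2)
      (∑ i, 2 * (rr i / (ss V i - z) ^ 3)) z :=
  HasDerivAt.fun_sum fun i _ => dinv2 V i z (h i)

theorem dW (V : ℝ) (z : ℂ) (h : ∀ i, ss V i - z ≠ 0) :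
    HasDerivAt (WW V) (-1 + V ^ 2 * ∑ i, rr i / (ss V i - z) ^ 2) z := by
  have h1 : HasDerivAt (fun z : ℂ => 1 + 100 * (V : ℂ) - z) (-1) z := by
    simpa using (hasDerivAt_id z).const_sub (1 + 100 * (V : ℂ))
  exact h1.add ((dQ V z h).const_mul ((V : ℂ) ^ 2))

theorem dF (V : ℝ) (z : ℂ) (h : ∀ i, ss V i - z ≠ 0) : HasDerivAt (fV V) (fV1 V z) z := by
  have h1 := (((dW V z h).pow 2).div_const 2).const_sub (1 / 2)
  have h2 : -(((2 : ℕ) : ℂ) * WW V z ^ (2 - 1) *
      (-1 + V ^ 2 * ∑ i, rr i / (ss V i - z) ^ 2) / 2) = fV1 V z := by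
    unfold fV1
    push_cast
    ring
  rw [h2] at h1
  exact h1

theorem dF1 (V : ℝ) (z : ℂ) (h : ∀ i, ss V i - z ≠ 0) :
    HasDerivAt (fV1 V) (-(-1 + V ^ 2 * ∑ i, rr i / (ss V i - z) ^ 2) *
      (-1 + V ^ 2 * ∑ i, rr i / (ss V i - z) ^ 2) +
      -WW V z * (V ^ 2 * ∑ i, 2 * (rr i / (ss V i - z) ^ 3))) z := by
  have h1 : HasDerivAt (fun z => -1 + (V : ℂ) ^ 2 * ∑ i, rr i / (ss V i - z) ^ 2)
      ((V : ℂ) ^ 2 * ∑ i, 2 * (rr i / (ss V i - z) ^ 3)) z :=
    ((dQ2 V z h).const_mul ((V : ℂ) ^ 2)).const_add (-1)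
  exact (dW V z h).neg.mul h1

theorem ss1 (V : ℝ) (i : Fin 3) : ss V i - 1 = V * (1 - rh i) := by
  unfold ss
  ring

theorem sum1 (V : ℝ) (k : ℕ) :
    ∑ i, rr i / (ss V i - 1) ^ k = ((V : ℂ)⁻¹) ^ k * ∑ i, rr i * ((1 - rh i)⁻¹) ^ k := by
  rw [Finset.mul_sum]
  refine Finset.sum_congr rfl fun i _ => ?_
  rw [ss1, div_eq_mul_inv, mul_pow, mul_inv, inv_pow, inv_pow]
  ring

theorem W1 (V : ℝ) (hV : 0 < V) : -1 + (V : ℂ) ^ 2 * ∑ i, rr i / (ss V i - 1) ^ 2 = 0 := by
  have hV' : (V : ℂ) ≠ 0 := by exact_mod_cast hV.ne'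
  rw [sum1, S2]
  field_simp
  ring

end Tip'

theorem prfTip : Tip := by
  intro V hV
  have hV' : (V : ℂ) ≠ 0 := by exact_mod_cast hV.ne'
  have hball : ∀ z ∈ ball (0 : ℂ) 1, ∀ i, ss V i - z ≠ 0 := by
    intro z hz i
    apply Tip'.ne V hV
    have h1 : ‖z‖ < 1 := by simpa using hz
    exact ((Complex.abs_re_le_norm z).trans' (le_abs_self _)).trans h1.le
  have hone : ∀ i, ss V i - 1 ≠ 0 := Tip'.ne V hV 1 (by simp)
  refine ⟨fun z hz => Tip'.dF V z (hball z hz), ?_, ?_, ?_⟩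
  · unfold fV1
    rw [Tip'.W1 V hV, mul_zero]
  · have h1 := Tip'.dF1 V 1 hone
    rw [Tip'.W1 V hV] at h1
    convert h1 using 1
    have h2 : ∑ i, 2 * (rr i / (ss V i - 1) ^ 3) =
        2 * (((V : ℂ)⁻¹) ^ 3 * (-(197 / 100) + (504 / 100) * I)) := by
      rw [← Finset.mul_sum, Tip'.sum1, Tip'.S3]
    have h3 : WW V 1 = V * (187 / 2 - 18 * I) := by
      unfold WW QQ
      have h4 := Tip'.sum1 V 1
      simp only [pow_one] at h4
      rw [h4, Tip'.S1]
      field_simp
      ring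
    rw [h2, h3]
    unfold qh
    have h5 : -((V : ℂ) * (187 / 2 - 18 * I)) *
        ((V : ℂ) ^ 2 * (2 * (((V : ℂ)⁻¹) ^ 3 * (-(197 / 100) + (504 / 100) * I)))) =
        -(2 * (187 / 2 - 18 * I) * (-(197 / 100) + (504 / 100) * I)) := by
      field_simp
    rw [mul_zero, zero_add, h5]
    have h6 : -(2 * (187 / 2 - 18 * I) * (-(197 / 100) + (504 / 100) * I)) =
        36839 / 100 - (101340 / 100) * I + (18144 / 100) * (I * I) := by ring
    rw [h6, I_mul_I]
    ring
  · intro z hz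
    exact (Tip'.dF1 V z (hball z hz)).differentiableAt.differentiableWithinAt

end LO
end Pool.Agent.MultS

end

section

/-!
# The hooked cusp functions are univalent
-/

set_option autoImplicit false

open Complex Metric Set Filter Topology
open scoped ComplexConjugate

namespace Pool.Agent.MultS
namespace LO
namespace Univ'

/-- the new variable -/
noncomputable def pp (V : ℝ) (z : ℂ) : ℂ := (1 + V - z) / V

theorem pp_re {V : ℝ} (hV : 0 < V) {z : ℂ} (hz : z ∈ ball (0 : ℂ) 1) : 1 < (pp V z).re := by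
  have h1 : z.re < 1 := by
    rw [mem_ball_zero_iff] at hz
    exact lt_of_le_of_lt (re_le_norm z) hz
  have h2 : (pp V z).re = (1 + V - z.re) / V := by
    rw [pp, div_ofReal_re]
    simp
  rw [h2, lt_div_iff₀ hV]
  linarith

theorem rh_re (i : Fin 3) : (rh i).re = 0 := by
  fin_cases i <;> simp [rh]

theorem ss_sub {V : ℝ} (hV : 0 < V) (z : ℂ) (i : Fin 3) :
    ss V i - z = V * (pp V z - rh i) := by
  have hV' : (V : ℂ) ≠ 0 := by exact_mod_cast hV.ne'
  rw [ss, pp]
  field_simp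
  ring

theorem sub_rh_ne {V : ℝ} (hV : 0 < V) {z : ℂ} (hz : z ∈ ball (0 : ℂ) 1) (i : Fin 3) :
    pp V z - rh i ≠ 0 := by
  intro h
  have h1 := congrArg Complex.re h
  rw [sub_re, rh_re, sub_zero, zero_re] at h1
  have := pp_re hV hz
  linarith

theorem ss_ne {V : ℝ} (hV : 0 < V) {z : ℂ} (hz : z ∈ ball (0 : ℂ) 1) (i : Fin 3) :
    ss V i - z ≠ 0 := by
  rw [ss_sub hV]
  exact mul_ne_zero (by exact_mod_cast hV.ne') (sub_rh_ne hV hz i)

/-- the second variable -/
noncomputable def yy (p : ℂ) : ℂ := p + 1 / p - (8 / 3) * I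

theorem yy_re {p : ℂ} (hp : 1 < p.re) : 1 < (yy p).re := by
  have h1 : 0 < (1 / p).re := by
    rw [one_div, inv_re]
    apply div_pos (by linarith)
    rw [normSq_pos]
    intro h
    rw [h] at hp
    simp at hp
    linarith
  have h2 : (yy p).re = p.re + (1 / p).re := by
    rw [yy, sub_re, add_re]
    have : ((8 / 3 : ℂ) * I).re = 0 := by
      have : (8 / 3 : ℂ) * I = ((8 / 3 : ℝ) : ℂ) * I := by push_cast; ring
      rw [this, re_ofReal_mul, I_re, mul_zero]
    rw [this, sub_zero]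
  rw [h2]; linarith

theorem ne_of_re {p : ℂ} (hp : 1 < p.re) : p ≠ 0 := by
  intro h
  rw [h] at hp
  simp at hp
  linarith

theorem mul_big {x w : ℂ} (hx : 1 < x.re) (hw : 1 < w.re) : 2 < (x * w).re + ‖x * w‖ := by
  have h1 : |x.re * w.re + x.im * w.im| ≤ ‖x * w‖ := by
    apply abs_le_of_sq_le_sq _ (norm_nonneg _)
    rw [← normSq_eq_norm_sq, normSq_apply, mul_re, mul_im]
    nlinarith [sq_nonneg (x.re * w.im - x.im * w.re)]
  have h2 := le_abs_self (x.re * w.re + x.im * w.im)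
  rw [mul_re]
  nlinarith [mul_pos (sub_pos.2 hx) (sub_pos.2 hw)]

theorem mul_ne_one' {x w : ℂ} (hx : 1 < x.re) (hw : 1 < w.re) : x * w ≠ 1 := by
  intro h
  have := mul_big hx hw
  rw [h] at this
  simp at this
  linarith

theorem norm_A : ‖(-63 - 16 * I : ℂ)‖ = 65 := by
  have h1 : ‖(-63 - 16 * I : ℂ)‖ ^ 2 = 65 ^ 2 := by
    rw [← normSq_eq_norm_sq, normSq_apply]
    simp
    norm_num
  nlinarith [norm_nonneg (-63 - 16 * I : ℂ)]

theorem mul_ne_A {x w : ℂ} (hx : 1 < x.re) (hw : 1 < w.re) : x * w ≠ -63 - 16 * I := by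
  intro h
  have := mul_big hx hw
  rw [h, norm_A] at this
  simp at this
  linarith

theorem fac {p : ℂ} (hp : 1 < p.re) : (p - 3 * I) * (p + 1 / 3 * I) = p * yy p := by
  have h0 := ne_of_re hp
  have hI : I * I = -1 := I_mul_I
  rw [yy]
  field_simp
  linear_combination (-3 : ℂ) * hI

theorem WW_eq {V : ℝ} (hV : 0 < V) {z : ℂ} (hz : z ∈ ball (0 : ℂ) 1) :
    WW V z = V * (99 + (8 / 3) * I + yy (pp V z) + (-63 - 16 * I) / yy (pp V z)) := by
  have hV' : (V : ℂ) ≠ 0 := by exact_mod_cast hV.ne'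
  have hp := pp_re hV hz
  set p := pp V z with hpdef
  have hp0 := ne_of_re hp
  have hy0 := ne_of_re (yy_re hp)
  have h1 : p - 3 * I ≠ 0 := by
    have := sub_rh_ne hV hz 1
    simpa [rh] using this
  have h2 : p + 1 / 3 * I ≠ 0 := by
    have := sub_rh_ne hV hz 2
    rw [← hpdef] at this
    simp only [rh] at this
    intro h
    apply this
    have e : ((![0, 3 * I, -(1 / 3) * I] : Fin 3 → ℂ) 2) = -(1 / 3) * I := rfl
    rw [e]
    linear_combination h
  have hfac := fac hp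
  have hQ : (V : ℂ) ^ 2 * QQ V z = V * (1 / p + (9 / 10) * (-63 - 16 * I) / (p - 3 * I) +
      (1 / 10) * (-63 - 16 * I) / (p + 1 / 3 * I)) := by
    rw [QQ, Fin.sum_univ_three, ss_sub hV, ss_sub hV, ss_sub hV, ← hpdef]
    have e0 : rh 0 = 0 := rfl
    have e1 : rh 1 = 3 * I := rfl
    have e2 : rh 2 = -(1 / 3) * I := rfl
    have f0 : rr 0 = 1 := rfl
    have f1 : rr 1 = (9 / 10) * (-63 - 16 * I) := rfl
    have f2 : rr 2 = (1 / 10) * (-63 - 16 * I) := rfl
    rw [e0, e1, e2, f0, f1, f2, sub_zero]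
    have e3 : p - -(1 / 3) * I = p + 1 / 3 * I := by ring
    rw [e3]
    have g0 : (1 : ℂ) / (V * p) = (1 / p) / V := by rw [mul_comm, div_mul_eq_div_div]
    have g1 : (9 / 10) * (-63 - 16 * I) / (V * (p - 3 * I)) =
        ((9 / 10) * (-63 - 16 * I) / (p - 3 * I)) / V := by rw [mul_comm (V : ℂ), div_mul_eq_div_div]
    have g2 : (1 / 10) * (-63 - 16 * I) / (V * (p + 1 / 3 * I)) =
        ((1 / 10) * (-63 - 16 * I) / (p + 1 / 3 * I)) / V := by
      rw [mul_comm (V : ℂ), div_mul_eq_div_div]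
    rw [g0, g1, g2]
    field_simp
  have hA : (9 / 10) * (-63 - 16 * I) / (p - 3 * I) + (1 / 10) * (-63 - 16 * I) / (p + 1 / 3 * I)
      = (-63 - 16 * I) / yy p := by
    rw [div_add_div _ _ h1 h2, div_eq_div_iff (mul_ne_zero h1 h2) hy0, hfac]
    ring
  have hz' : (1 : ℂ) + 100 * V - z = V * (p + 99) := by
    rw [hpdef, pp]
    field_simp
    ring
  rw [WW, hz', hQ, add_assoc (1 / p), hA, yy]
  ring

theorem G_re {y : ℂ} (hy : 1 < y.re) :
    0 < (99 + (8 / 3) * I + y + (-63 - 16 * I) / y).re := by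
  have h1 : ‖(-63 - 16 * I : ℂ) / y‖ ≤ 65 := by
    rw [norm_div, norm_A, div_le_iff₀ (norm_pos_iff.2 (ne_of_re hy))]
    have := le_trans hy.le (re_le_norm y)
    linarith
  have h2 := (abs_le.1 (abs_re_le_norm ((-63 - 16 * I : ℂ) / y))).1
  have h3 : ((8 / 3 : ℂ) * I).re = 0 := by
    have : (8 / 3 : ℂ) * I = ((8 / 3 : ℝ) : ℂ) * I := by push_cast; ring
    rw [this, re_ofReal_mul, I_re, mul_zero]
  have h4 : (99 : ℂ).re = 99 := by norm_num
  rw [add_re, add_re, add_re, h3, h4]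
  linarith

end Univ'

open Univ' in
theorem prfUniv : Univ := by
  intro V hV
  refine ⟨?_, ?_⟩
  · have h1 : DifferentiableOn ℂ (QQ V) (ball 0 1) := by
      unfold QQ
      refine DifferentiableOn.fun_sum fun i _ => ?_
      exact (differentiableOn_const _).div
        ((differentiableOn_const _).sub differentiableOn_id) fun z hz => ss_ne hV hz i
    have h2 : DifferentiableOn ℂ (WW V) (ball 0 1) := by
      unfold WW
      exact ((differentiableOn_const _).sub differentiableOn_id).add (h1.const_mul _)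
    unfold fV
    exact (differentiableOn_const _).sub ((h2.pow 2).div_const 2)
  · intro z hz w hw h
    have hV' : (V : ℂ) ≠ 0 := by exact_mod_cast hV.ne'
    have hy1 := yy_re (pp_re hV hz)
    have hy2 := yy_re (pp_re hV hw)
    have e1 : WW V z ^ 2 = WW V w ^ 2 := by
      have : (1 : ℂ) / 2 - WW V z ^ 2 / 2 = 1 / 2 - WW V w ^ 2 / 2 := h
      linear_combination (-2 : ℂ) * this
    rw [WW_eq hV hz, WW_eq hV hw, mul_pow, mul_pow] at e1
    have e2 := mul_left_cancel₀ (pow_ne_zero 2 hV') e1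
    have e3 : 99 + (8 / 3) * I + yy (pp V z) + (-63 - 16 * I) / yy (pp V z) =
        99 + (8 / 3) * I + yy (pp V w) + (-63 - 16 * I) / yy (pp V w) := by
      rcases sq_eq_sq_iff_eq_or_eq_neg.1 e2 with h | h
      · exact h
      · exfalso
        have h1 := G_re hy1
        have h2 := G_re hy2
        rw [h, neg_re] at h1
        linarith
    have n1 := ne_of_re hy1
    have n2 := ne_of_re hy2
    have e4 : (yy (pp V z) - yy (pp V w)) * (yy (pp V z) * yy (pp V w) - (-63 - 16 * I)) = 0 := by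
      field_simp at e3
      linear_combination (1 / 3 : ℂ) * e3
    have e5 : yy (pp V z) = yy (pp V w) := by
      rcases mul_eq_zero.1 e4 with h | h
      · exact sub_eq_zero.1 h
      · exact absurd (sub_eq_zero.1 h) (mul_ne_A hy1 hy2)
    have m1 := ne_of_re (pp_re hV hz)
    have m2 := ne_of_re (pp_re hV hw)
    have e6 : (pp V z - pp V w) * (pp V z * pp V w - 1) = 0 := by
      rw [yy, yy] at e5
      field_simp at e5
      linear_combination (1 / 3 : ℂ) * e5
    have e7 : pp V z = pp V w := by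
      rcases mul_eq_zero.1 e6 with h | h
      · exact sub_eq_zero.1 h
      · exact absurd (sub_eq_zero.1 h) (mul_ne_one' (pp_re hV hz) (pp_re hV hw))
    rw [pp, pp, div_left_inj' hV'] at e7
    linear_combination (-1 : ℂ) * e7

end LO
end Pool.Agent.MultS

end

section

/-!
# A zero enters the disk
-/

set_option autoImplicit false

open Complex Metric Set Filter Topology
open scoped ComplexConjugate

namespace Pool.Agent.MultS
namespace LO

namespace Zero'

/-- Rouché type lemma: a function close to a linear one has a zero -/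
lemma exists_zero {G : ℂ → ℂ} {U : Set ℂ} {q z0 : ℂ} {R : ℝ} (hq : q ≠ 0) (hR : 0 < R)
    (hU : IsOpen U) (hUc : IsPreconnected U) (hG : DifferentiableOn ℂ G U)
    (hsub : closedBall z0 R ⊆ U)
    (hcl : ∀ z ∈ closedBall z0 R, ‖G z - q * (z - z0)‖ ≤ ‖q‖ * R / 8) :
    ∃ z ∈ closedBall z0 R, G z = 0 := by
  have hqn : 0 < ‖q‖ := norm_pos_iff.mpr hq
  have hqR : 0 < ‖q‖ * R := mul_pos hqn hR
  have h0 : ‖G z0‖ ≤ ‖q‖ * R / 8 := by
    have := hcl z0 (mem_closedBall_self hR.le)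
    simpa using this
  have hs : ∀ z ∈ sphere z0 R, 3 / 4 * (‖q‖ * R) ≤ ‖G z - G z0‖ := by
    intro z hz
    have h1 := hcl z (sphere_subset_closedBall hz)
    have h2 : ‖q * (z - z0)‖ = ‖q‖ * R := by
      rw [norm_mul, mem_sphere_iff_norm.mp hz]
    have h3 : q * (z - z0) = (G z - G z0) - (G z - q * (z - z0)) + G z0 := by ring
    have h4 : ‖q * (z - z0)‖ ≤ ‖G z - G z0‖ + ‖G z - q * (z - z0)‖ + ‖G z0‖ := by
      rw [h3]
      refine (norm_add_le _ _).trans ?_
      gcongr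
      refine (norm_sub_le _ _).trans ?_
      rw [← h3]
    linarith
  have hfr : ∃ᶠ z in 𝓝 z0, G z ≠ G z0 := by
    intro hcon
    have hev : G =ᶠ[𝓝 z0] fun _ => G z0 := by
      filter_upwards [hcon] with z hz
      simpa using hz
    have hz0 : z0 ∈ U := hsub (mem_closedBall_self hR.le)
    have heq := (hG.analyticOnNhd hU).eqOn_of_preconnected_of_eventuallyEq
      (analyticOnNhd_const) hUc hz0 hev
    have hmem : z0 + (R : ℂ) ∈ sphere z0 R := by
      rw [mem_sphere_iff_norm]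
      simp [abs_of_pos hR]
    have h5 := hs _ hmem
    rw [heq (hsub (sphere_subset_closedBall hmem)), sub_self, norm_zero] at h5
    linarith
  have hball := (hG.diffContOnCl_ball hsub).ball_subset_image_closedBall hR hs hfr
  have h0m : (0 : ℂ) ∈ ball (G z0) (3 / 4 * (‖q‖ * R) / 2) := by
    rw [mem_ball_iff_norm, zero_sub, norm_neg]
    linarith
  obtain ⟨z, hz, hz0⟩ := hball h0m
  exact ⟨z, hz, hz0⟩

end Zero'

open Zero' in
theorem prfZeroEx : ZeroEx := by
  intro F q L Z c hq hL hZ hc hF hF1 hFd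
  have hqn : 0 < ‖q‖ := norm_pos_iff.mpr hq
  set Z1 : ℝ := Z / ‖q‖ + c + 1 with hZ1
  have hZ1p : 0 < Z1 := by positivity
  set R : ℝ := c / 2 with hR
  have hRp : 0 < R := by positivity
  set η : ℝ := ‖q‖ * R / (16 * Z1) with hη
  have hηp : 0 < η := by positivity
  have hlo := (hasDerivAt_iff_isLittleO.mp hFd).def hηp
  obtain ⟨r0, hr0, hball⟩ := Metric.eventually_nhds_iff.mp hlo
  refine ⟨min (r0 / Z1) (min (c / Z1 ^ 2) (‖q‖ * R / (16 * (L + 1) * Z1))), by positivity, ?_⟩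
  intro e he he0 D D1 hD hD1 hre hDD
  have he1 : e * Z1 < r0 := (lt_div_iff₀ hZ1p).mp (he0.trans_le (min_le_left _ _))
  have he2 : e * Z1 ^ 2 < c := (lt_div_iff₀ (by positivity)).mp
    (he0.trans_le ((min_le_right _ _).trans (min_le_left _ _)))
  have he3 : e * (16 * (L + 1) * Z1) < ‖q‖ * R := (lt_div_iff₀ (by positivity)).mp
    (he0.trans_le ((min_le_right _ _).trans (min_le_right _ _)))
  have he4 : e * L * Z1 ≤ ‖q‖ * R / 16 := by
    have : 0 < e * Z1 := by positivity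
    nlinarith
  have hec : (e : ℂ) ≠ 0 := by exact_mod_cast he.ne'
  set z0 : ℂ := D1 / q / e with hz0
  have hz0re : c ≤ z0.re := by
    rw [hz0, Complex.div_ofReal_re, le_div_iff₀ he, mul_comm]
    exact hre
  have hz0n : ‖z0‖ ≤ Z / ‖q‖ := by
    rw [hz0, norm_div, norm_div, Complex.norm_real, Real.norm_eq_abs, abs_of_pos he,
      div_div, div_le_div_iff₀ (by positivity) hqn]
    nlinarith [mul_le_mul_of_nonneg_right hD1 hqn.le]
  -- geometry
  have hgeo : ∀ z ∈ closedBall z0 R, c / 2 ≤ z.re ∧ ‖z‖ ≤ Z1 := by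
    intro z hz
    have h1 : ‖z - z0‖ ≤ R := mem_closedBall_iff_norm.mp hz
    constructor
    · have h2 : |(z - z0).re| ≤ ‖z - z0‖ := Complex.abs_re_le_norm _
      have h3 := abs_le.mp (h2.trans h1)
      rw [Complex.sub_re] at h3
      linarith [h3.1]
    · have h2 : ‖z‖ ≤ ‖z - z0‖ + ‖z0‖ := by
        have := norm_add_le (z - z0) z0
        rwa [sub_add_cancel] at this
      have : R ≤ c + 1 := by
        rw [hR]
        linarith
      linarith
  have hin : ∀ z ∈ closedBall z0 R, 1 - (e : ℂ) * z ∈ ball (0 : ℂ) 1 := by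
    intro z hz
    obtain ⟨h1, h2⟩ := hgeo z hz
    rw [mem_ball_zero_iff]
    have h3 : ‖1 - (e : ℂ) * z‖ ^ 2 = 1 - 2 * e * z.re + e ^ 2 * ‖z‖ ^ 2 := by
      rw [← Complex.normSq_eq_norm_sq, ← Complex.normSq_eq_norm_sq, Complex.normSq_apply,
        Complex.normSq_apply]
      simp only [Complex.sub_re, Complex.one_re, Complex.mul_re, Complex.ofReal_re,
        Complex.ofReal_im, Complex.sub_im, Complex.one_im, Complex.mul_im]
      ring
    have h4 : ‖z‖ ^ 2 ≤ Z1 ^ 2 := by gcongr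
    have h5 : ‖1 - (e : ℂ) * z‖ ^ 2 < 1 := by
      rw [h3]
      nlinarith [mul_le_mul_of_nonneg_left h4 (sq_nonneg e), mul_pos he he,
        mul_lt_mul_of_pos_left he2 he, mul_le_mul_of_nonneg_left h1 he.le]
    have h6 : ‖1 - (e : ℂ) * z‖ ^ 2 < 1 ^ 2 := by rwa [one_pow]
    exact lt_of_pow_lt_pow_left₀ 2 zero_le_one h6
  set G : ℂ → ℂ := fun z => (F (1 - (e : ℂ) * z) - D (1 - (e : ℂ) * z)) / e with hGdef
  set U : Set ℂ := (fun z : ℂ => 1 - (e : ℂ) * z) ⁻¹' ball (0 : ℂ) 1 with hU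
  have hUo : IsOpen U := isOpen_ball.preimage (by fun_prop)
  have hUc : Convex ℝ U := by
    intro x hx y hy a b ha hb hab
    have h1 := (convex_ball (0 : ℂ) 1) hx hy ha hb hab
    show 1 - (e : ℂ) * (a • x + b • y) ∈ ball (0 : ℂ) 1
    convert h1 using 1
    have h2 : (a : ℂ) + b = 1 := by exact_mod_cast hab
    simp only [Complex.real_smul]
    linear_combination -h2
  have hGd : DifferentiableOn ℂ G U := by
    have hm : MapsTo (fun z : ℂ => 1 - (e : ℂ) * z) U (ball (0 : ℂ) 1) := fun z hz => hz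
    have hl : DifferentiableOn ℂ (fun z : ℂ => 1 - (e : ℂ) * z) U := by fun_prop
    exact ((hF.comp hl hm).sub (hD.comp hl hm)).div_const _
  obtain ⟨z, hz, hGz⟩ := exists_zero (z0 := z0) hq hRp hUo hUc.isPreconnected hGd
    (fun z hz => hin z hz) (by
      intro z hz
      obtain ⟨h1, h2⟩ := hgeo z hz
      have h3 : 1 - (1 - (e : ℂ) * z) = e * z := by ring
      have h4 : ‖(1 - (e : ℂ) * z) - 1‖ ≤ e * Z1 := by
        have : (1 - (e : ℂ) * z) - 1 = -(e * z) := by ring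
        rw [this, norm_neg, norm_mul, Complex.norm_real, Real.norm_eq_abs, abs_of_pos he]
        gcongr
      have h5 := hball (y := 1 - (e : ℂ) * z) (by
        rw [dist_eq_norm]
        exact h4.trans_lt he1)
      rw [hF1] at h5
      have h6 := hDD _ (hin z hz)
      rw [h3, norm_mul, Complex.norm_real, Real.norm_eq_abs, abs_of_pos he] at h6
      have h7 : ‖F (1 - (e : ℂ) * z) - q * (e * z)‖ ≤ η * (e * Z1) := by
        have : F (1 - (e : ℂ) * z) - q * (e * z) =
            F (1 - (e : ℂ) * z) - 0 - ((1 - (e : ℂ) * z) - 1) • -q := by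
          rw [smul_eq_mul]
          ring
        rw [this]
        exact h5.trans (by gcongr)
      have h8 : ‖D (1 - (e : ℂ) * z) - D1‖ ≤ e * (e * L * Z1) := by
        refine h6.trans ?_
        have : e * L * (e * ‖z‖) ≤ e * L * (e * Z1) := by gcongr
        calc e * L * (e * ‖z‖) ≤ e * L * (e * Z1) := this
          _ = e * (e * L * Z1) := by ring
      have h9 : G z - q * (z - z0) = ((F (1 - (e : ℂ) * z) - q * (e * z)) -
          (D (1 - (e : ℂ) * z) - D1)) / e := by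
        rw [hGdef, hz0]
        field_simp
        ring
      rw [h9, norm_div, Complex.norm_real, Real.norm_eq_abs, abs_of_pos he, div_le_iff₀ he]
      refine (norm_sub_le _ _).trans ?_
      have h10 : η * Z1 = ‖q‖ * R / 16 := by
        rw [hη]
        field_simp
      have h11 : η * (e * Z1) = e * (‖q‖ * R / 16) := by
        rw [← h10]
        ring
      have h12 : e * (e * L * Z1) ≤ e * (‖q‖ * R / 16) := by gcongr
      linarith)
  refine ⟨1 - (e : ℂ) * z, hin z hz, ?_⟩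
  have h1 : (F (1 - (e : ℂ) * z) - D (1 - (e : ℂ) * z)) / e = 0 := hGz
  rw [div_eq_zero_iff] at h1
  exact sub_eq_zero.mp (h1.resolve_right hec)

end LO
end Pool.Agent.MultS

end

section

/-!
# The extremal case `lam 2 = 1`
-/

set_option autoImplicit false

open Complex Metric Set Filter Topology
open scoped ComplexConjugate

namespace Pool.Agent.MultS
namespace LO

namespace One'

theorem norm_le (w : ℂ) (hw : 0 ≤ w.re) : ‖(w - 1) / (w + 1)‖ ≤ 1 := by
  have h1 : ‖w - 1‖ ≤ ‖w + 1‖ := by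
    have e1 : ‖w - 1‖ ^ 2 = (w.re - 1) ^ 2 + w.im ^ 2 := by
      rw [← Complex.normSq_eq_norm_sq, Complex.normSq_apply]
      simp
      ring
    have e2 : ‖w + 1‖ ^ 2 = (w.re + 1) ^ 2 + w.im ^ 2 := by
      rw [← Complex.normSq_eq_norm_sq, Complex.normSq_apply]
      simp
      ring
    apply le_of_sq_le_sq _ (norm_nonneg _)
    rw [e1, e2]
    nlinarith
  rw [norm_div]
  exact div_le_one_of_le₀ h1 (norm_nonneg _)

theorem add_ne (w : ℂ) (hw : 0 ≤ w.re) : w + 1 ≠ 0 := by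
  intro h
  have := congrArg Complex.re h
  simp at this
  linarith

/-- The extremal case of the coefficient inequality for functions with positive real part. -/
theorem schwarz {P : ℂ → ℂ} (hP : DifferentiableOn ℂ P (ball 0 1))
    (hre : ∀ z ∈ ball (0 : ℂ) 1, 0 ≤ (P z).re) (h0 : P 0 = 1) (h1 : HasDerivAt P 2 0) :
    ∀ z ∈ ball (0 : ℂ) 1, P z = (1 + z) / (1 - z) := by
  set s : ℂ → ℂ := fun z => (P z - 1) / (P z + 1) with hs
  have hne : ∀ z ∈ ball (0 : ℂ) 1, P z + 1 ≠ 0 := fun z hz => add_ne _ (hre z hz)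
  have hmem : (0 : ℂ) ∈ ball (0 : ℂ) 1 := by simp
  have hd : DifferentiableOn ℂ s (ball 0 1) :=
    (hP.sub_const 1).div (hP.add_const 1) hne
  have hs0 : s 0 = 0 := by simp [hs, h0]
  have hmaps : Set.MapsTo s (ball 0 1) (closedBall (s 0) 1) := by
    intro z hz
    rw [hs0, mem_closedBall_zero_iff]
    exact norm_le _ (hre z hz)
  have hds : HasDerivAt s 1 0 := by
    have h2 := (h1.sub_const 1).div (h1.add_const 1) (hne 0 hmem)
    have h3 : (2 * (P 0 + 1) - (P 0 - 1) * 2) / (P 0 + 1) ^ 2 = 1 := by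
      rw [h0]
      norm_num
    rw [h3] at h2
    exact h2
  have hdsl : dslope s 0 0 = 1 := by
    rw [dslope_same, hds.deriv]
  have key := Complex.affine_of_mapsTo_ball_of_norm_dslope_eq_div hd hmaps hmem
    (by rw [hdsl]; simp)
  intro z hz
  have h4 : s z = z := by
    have := key hz
    simp only [hs0, hdsl] at this
    simpa using this
  have h5 : (P z - 1) / (P z + 1) = z := h4
  rw [div_eq_iff (hne z hz)] at h5
  have hz1 : 1 - z ≠ 0 := by
    intro h
    have hz' : z = 1 := by linear_combination -h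
    rw [hz', mem_ball_zero_iff] at hz
    simp at hz
  rw [eq_div_iff hz1]
  linear_combination h5

theorem deriv_PP {h : ℂ → ℂ} (hS : Sc h) (h2 : tc h 2 = 1) : HasDerivAt (PP h) 2 0 := by
  obtain ⟨hd, hi, h0, h1⟩ := hS
  have hmem : (0 : ℂ) ∈ ball (0 : ℂ) 1 := by simp
  have hd1 : DifferentiableOn ℂ (deriv h) (ball 0 1) := hd.deriv isOpen_ball
  have hd2 : DifferentiableOn ℂ (deriv (deriv h)) (ball 0 1) := hd1.deriv isOpen_ball
  have hnhds : ball (0 : ℂ) 1 ∈ 𝓝 (0 : ℂ) := isOpen_ball.mem_nhds hmem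
  have a1 := hd1.differentiableAt hnhds
  have a2 := hd2.differentiableAt hnhds
  have hdd : deriv (deriv h) 0 = 2 := by
    have e : tc h 2 = deriv (deriv h) 0 / 2 := by
      unfold tc
      rw [iteratedDeriv_succ, iteratedDeriv_one]
      norm_num
    rw [e, div_eq_iff (by norm_num)] at h2
    rw [h2]
    norm_num
  have h3 : HasDerivAt (fun z => z * deriv (deriv h) z / deriv h z) 2 0 := by
    have h4 := ((hasDerivAt_id (0 : ℂ)).mul a2.hasDerivAt).div a1.hasDerivAt
      (by rw [h1]; exact one_ne_zero)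
    refine HasDerivAt.congr_deriv h4 ?_
    simp only [id, Pi.mul_apply, h1, hdd]
    norm_num
  exact h3.const_add 1

end One'

theorem prfOneV : OneV := by
  intro lam hm h2 n hn
  obtain ⟨h, hg⟩ := prfGenEx testQAll lam hm
  have hc := prfConv prfTestA prfSer lam h hm hg
  obtain ⟨hP, hP0⟩ := prfPPan h hg.1
  have htc : tc h 2 = 1 := by rw [hg.2 2 (by norm_num), h2]
  have hPz := One'.schwarz hP (fun z hz => (hc z hz).le) hP0 (One'.deriv_PP hg.1 htc)
  exact prfRotOne lam h hg hPz n hn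

end LO
end Pool.Agent.MultS

end
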